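import Pool.Agent.Work.MP_f0515e_an.Pos.HDeg2

/-! EXPORT (HOM). Odd maps have odd degree; invariance of domain.

PLAN. `deg_odd`: fix `M : E ≃L F`. If `E` is trivial, `u = 0 = M` and `deg = sg M`. Otherwise take a
nonzero functional `l` (`exists_dual_vector` or a basis coordinate). `u1 x = (1 - θ) • M x + θ • u x`,
`θ = max 0 (min 1 (4 * ‖x‖ - 2))`, is odd, `= M` on `closedBall 0 (1/2)`, `= u` on the unit sphere.
`avoid_odd` with `i = -id`, `P = {x | l x = 0, 1/2 ≤ ‖x‖ ≤ 1}` (`PC.sm` for the hyperplane `ker l`, rank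
`n - 1`), `A = closedBall 0 (1/2) ∪ {x | 1 ≤ ‖x‖}`, `Bad = {0}` (`Sm.finite`) gives an odd `v`.
`deg_add` twice: `deg (ball 0 1) v = deg (ball 0 (1/2)) M + deg Op v + deg Om v`,
`Op, Om = {1/2 < ‖x‖ < 1, ± l x > 0}`; `deg Om v = ± deg Op v` by `deg_domain_self` and
`deg_target_self` for `neg`. `inv_domain`: let `closedBall c r ⊆ O`. On the unit sphere the homotopy
`g (c + r • x) - g (c - (t * r) • x)` is nonzero; at `t = 1` it is odd, so
`deg (ball 0 1) (g (c + r • x) - g c) ≠ 0`; for `‖y - g c‖ < μ = min` of `‖g (c + r • x) - g c‖` on the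
sphere the straight line gives the same degree for `g (c + r • x) - y`, and `deg_nz` gives a zero.
About 220 lines. -/

open Set Metric Filter Topology Function BEv
open scoped NNReal

noncomputable section
namespace BEp

variable {E F G : Type} [NormedAddCommGroup E] [NormedSpace ℝ E] [FiniteDimensional ℝ E]
  [NormedAddCommGroup F] [NormedSpace ℝ F] [FiniteDimensional ℝ F]
  [NormedAddCommGroup G] [NormedSpace ℝ G] [FiniteDimensional ℝ G]

theorem hbor_half (h : Module.finrank ℝ E = Module.finrank ℝ F) {O : Set E} {v : E → F}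
    (hv : Adm O v) (ho : ∀ x, v (-x) = -v x) {O' : Set E} (hv' : Adm O' v)
    (e : ∀ x, x ∈ O' ↔ -x ∈ O) : deg O' v = deg O v := by
  have h1 := deg_domain_self h (ContinuousLinearEquiv.neg ℝ : E ≃L[ℝ] E) 0 hv
  have h2 := deg_target_self h (ContinuousLinearEquiv.neg ℝ : F ≃L[ℝ] F) hv'
  have e1 : (fun x => (ContinuousLinearEquiv.neg ℝ : E ≃L[ℝ] E) x + 0) ⁻¹' O = O' := by
    ext x
    simp [e x]
  have e2 : (fun x => v ((ContinuousLinearEquiv.neg ℝ : E ≃L[ℝ] E) x + 0)) =
      fun x => (ContinuousLinearEquiv.neg ℝ : F ≃L[ℝ] F) (v x) := by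
    funext x
    simp [ho x]
  rw [e1, e2, h2, sdet_neg, sdet_neg, h] at h1
  exact mul_left_cancel₀ (pow_ne_zero _ (by norm_num)) h1

theorem deg_odd (h : Module.finrank ℝ E = Module.finrank ℝ F) {u : E → F} (hu : Continuous u)
    (ho : ∀ x, u (-x) = -u x) (h0 : ∀ x, ‖x‖ = 1 → u x ≠ 0) :
    Odd (deg (ball (0 : E) 1) u) := by
  let M : E ≃L[ℝ] F := ContinuousLinearEquiv.ofFinrankEq h
  have hM : Odd (sg M) := by
    rcases sg_cases M with k | k <;> rw [k] <;> decide
  rcases subsingleton_or_nontrivial E with hE | hE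
  · have : u = fun x => M x := by
      funext x
      have e0 : x = 0 := Subsingleton.elim _ _
      have : u 0 = -u 0 := by rw [← ho, neg_zero]
      rw [e0, havoid_neg this, map_zero]
    rw [this]
    exact hM
  obtain ⟨x0, hx0⟩ := exists_ne (0 : E)
  obtain ⟨l, -, hl⟩ := exists_dual_vector ℝ x0 (norm_ne_zero_iff.2 hx0)
  have hl0 : (l : E →ₗ[ℝ] ℝ) ≠ 0 := by
    intro k
    have : l x0 = 0 := congrArg (fun f : E →ₗ[ℝ] ℝ => f x0) k
    rw [hl] at this
    exact hx0 (norm_eq_zero.1 (by simpa using this))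
  have hk := Module.Dual.finrank_ker_add_one_of_ne_zero hl0
  set u1 : E → F := fun x => M x + max 0 (2 * ‖x‖ - 1) • (u x - M x) with hu1
  have c1 : Continuous u1 := by fun_prop
  have o1 : ∀ x, u1 (-x) = -u1 x := fun x => by
    simp only [hu1, norm_neg, map_neg, ho x]
    module
  have in1 : ∀ x, ‖x‖ ≤ 1 / 2 → u1 x = M x := fun x hx => by
    simp only [hu1]
    rw [max_eq_left (by linarith), zero_smul, add_zero]
  have out1 : ∀ x, ‖x‖ = 1 → u1 x = u x := fun x hx => by
    simp only [hu1]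
    rw [hx, max_eq_right (by norm_num)]
    module
  have Mne : ∀ x : E, ‖x‖ = 1 / 2 → M x ≠ 0 := fun x hx k => by
    rw [M.map_eq_zero_iff.1 k, norm_zero] at hx
    norm_num at hx
  set P : Set E := {x | l x = 0 ∧ 1 / 2 ≤ ‖x‖ ∧ ‖x‖ ≤ 1} with hP
  set A : Set E := {x | ‖x‖ ≤ 1 / 2 ∨ 1 ≤ ‖x‖} with hA
  have hPc : IsCompact P := by
    refine (isCompact_closedBall (0 : E) 1).of_isClosed_subset ?_ fun x hx => by
      simpa using hx.2.2
    exact (isClosed_eq l.continuous continuous_const).inter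
      ((isClosed_le continuous_const continuous_norm).inter
        (isClosed_le continuous_norm continuous_const))
  have hAc : IsClosed A := (isClosed_le continuous_norm continuous_const).union
    (isClosed_le continuous_const continuous_norm)
  have hPs : Sm (Module.finrank ℝ (LinearMap.ker (l : E →ₗ[ℝ] ℝ))) (P \ A) := by
    refine PC.sm ⟨{(LinearMap.ker (l : E →ₗ[ℝ] ℝ)).toAffineSubspace}, finite_singleton _, ?_, ?_⟩
    · rintro _ rfl
      rw [Submodule.toAffineSubspace_direction]
    · exact fun x hx => ⟨_, rfl, hx.1.1⟩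
  obtain ⟨v, cv, ov, eA, -, hv⟩ := avoid_odd (-ContinuousLinearMap.id ℝ E) (fun x => by simp)
    hPc hPs hAc (fun x hx => by simpa [hP] using hx) (fun x hx => by simpa [hA] using hx)
    (fun x hx k => by
      have k' : x = -x := by simpa using k.symm
      have := hx.2.1
      rw [havoid_neg k', norm_zero] at this
      norm_num at this)
    (Bad := {0}) isClosed_singleton (Sm.finite (finite_singleton _))
    (fun y hy => by simpa using hy) (by omega) c1 (fun x => by simpa using o1 x)
    (fun x hx k => by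
      rcases hx.1 with a | a
      · exact Mne x (le_antisymm a hx.2.2.1) ((in1 x a).symm.trans k)
      · have a' := le_antisymm hx.2.2.2 a
        exact h0 x a' ((out1 x a').symm.trans k)) one_pos
  have ov' : ∀ x, v (-x) = -v x := fun x => by simpa using ov x
  have fr : ∀ {r : ℝ} {x : E}, x ∈ frontier (ball (0 : E) r) → ‖x‖ = r := fun hx => by
    simpa using frontier_ball_subset_sphere hx
  have adU : Adm (ball (0 : E) 1) u :=
    ⟨isOpen_ball, isBounded_ball, hu, fun x hx => h0 x (fr hx)⟩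
  have eU : EqOn u v (frontier (ball (0 : E) 1)) := fun x hx =>
    ((eA (Or.inr (fr hx).ge)).trans (out1 x (fr hx))).symm
  have adV := adU.of_eqOn cv eU
  set Op : Set E := {x | 0 < l x ∧ 1 / 2 < ‖x‖ ∧ ‖x‖ < 1} with hOp
  set Om : Set E := {x | l x < 0 ∧ 1 / 2 < ‖x‖ ∧ ‖x‖ < 1} with hOm
  have an : IsOpen {x : E | 1 / 2 < ‖x‖ ∧ ‖x‖ < 1} :=
    (isOpen_lt continuous_const continuous_norm).inter (isOpen_lt continuous_norm continuous_const)
  have op : IsOpen Op := (isOpen_lt continuous_const l.continuous).inter an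
  have om : IsOpen Om := (isOpen_lt l.continuous continuous_const).inter an
  obtain ⟨a1, a2, d1⟩ := deg_add h adV (O1 := ball 0 (1 / 2)) (O2 := Op ∪ Om) isOpen_ball
    (op.union om) (ball_subset_ball (by norm_num))
    (fun x hx => by rcases hx with a | a <;> simpa using a.2.2)
    (disjoint_left.2 fun x hx k => by
      have : ‖x‖ < 1 / 2 := by simpa using hx
      rcases k with a | a <;> linarith [a.2.1])
    (fun x hx k => by
      have b1 : ‖x‖ < 1 := by simpa using hx
      rcases lt_trichotomy ‖x‖ (1 / 2) with a | a | a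
      · exact Or.inl (by simpa using a)
      · exact absurd (((eA (Or.inl a.le)).trans (in1 x a.le)).symm.trans k) (Mne x a)
      · rcases lt_trichotomy (l x) 0 with b | b | b
        · exact Or.inr (Or.inr ⟨b, a, b1⟩)
        · exact absurd k (hv x ⟨b, a.le, b1.le⟩)
        · exact Or.inr (Or.inl ⟨b, a, b1⟩))
  obtain ⟨a3, a4, d2⟩ := deg_add h a2 op om subset_union_left subset_union_right
    (disjoint_left.2 fun x hx k => lt_asymm hx.1 k.1) (fun x hx _ => hx)
  have d3 : deg (ball (0 : E) (1 / 2)) v = sg M := by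
    rw [← deg_aff M isOpen_ball isBounded_ball (mem_ball_self (by norm_num : (0 : ℝ) < 1 / 2))]
    refine deg_congr h a1 (by fun_prop) fun x hx => ?_
    simpa using (eA (Or.inl (fr hx).le)).trans (in1 x (fr hx).le)
  have d4 : deg Om v = deg Op v := hbor_half h a3 ov' a4 fun x => by simp [hOp, hOm]
  rw [deg_congr h adU cv eU, d1, d2, d3, d4]
  exact hM.add_even ⟨_, rfl⟩

theorem inv_domain (h : Module.finrank ℝ E = Module.finrank ℝ F) {O : Set E} (hO : IsOpen O)
    {g : E → F} (hg : Continuous g) (hi : InjOn g O) : IsOpen (g '' O) := by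
  rw [Metric.isOpen_iff]
  rintro _ ⟨c, hc, rfl⟩
  obtain ⟨r, hr, hb⟩ := nhds_basis_closedBall.mem_iff.1 (hO.mem_nhds hc)
  have fr : ∀ {x : E}, x ∈ frontier (ball (0 : E) 1) → ‖x‖ = 1 := fun hx => by
    simpa using frontier_ball_subset_sphere hx
  have mem : ∀ (x : E) (t : ℝ), ‖x‖ ≤ 1 → |t| ≤ r → c + t • x ∈ O := fun x t hx ht => hb (by
    rw [mem_closedBall_iff_norm, add_sub_cancel_left, norm_smul, Real.norm_eq_abs]
    nlinarith [abs_nonneg t, norm_nonneg x])
  have ne : ∀ x : E, ‖x‖ = 1 → ∀ t ∈ Icc (0 : ℝ) 1, g (c + r • x) - g (c + (-(t * r)) • x) ≠ 0 := by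
    intro x hx t ht k
    have e := hi (mem x r hx.le (abs_of_pos hr).le) (mem x (-(t * r)) hx.le (by
      rw [abs_neg, abs_of_nonneg (mul_nonneg ht.1 hr.le)]
      nlinarith [ht.2])) (sub_eq_zero.1 k)
    have e2 : (r + t * r) • x = 0 := by linear_combination (norm := module) e
    rcases smul_eq_zero.1 e2 with a | a
    · nlinarith [ht.1]
    · rw [a, norm_zero] at hx
      norm_num at hx
  have od := deg_odd h (u := fun x => g (c + r • x) - g (c + (-(1 * r)) • x)) (by fun_prop)
    (fun x => by simp) (fun x hx => ne x hx 1 ⟨zero_le_one, le_rfl⟩)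
  obtain ⟨ad, -, d1⟩ := deg_htp h (O := ball (0 : E) 1) isOpen_ball isBounded_ball
    (H := fun p => g (c + r • p.1) - g (c + (-(p.2 * r)) • p.1)) (by fun_prop)
    (fun x hx s hs => ne x (fr hx) s hs) (u := fun x => g (c + r • x) - g c)
    (v := fun x => g (c + r • x) - g (c + (-(1 * r)) • x)) (by fun_prop) (by fun_prop)
    (fun x _ => by simp) (fun x _ => rfl)
  have hK : IsClosed ((fun x : E => g (c + r • x)) '' sphere 0 1) :=
    ((isCompact_sphere 0 1).image (by fun_prop)).isClosed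
  have hn : g c ∈ ((fun x : E => g (c + r • x)) '' sphere 0 1)ᶜ := by
    rintro ⟨x, hx, k⟩
    refine ne x (by simpa using hx) 0 ⟨le_rfl, zero_le_one⟩ ?_
    simpa using sub_eq_zero.2 k
  obtain ⟨μ, hμ, hball⟩ := Metric.isOpen_iff.1 hK.isOpen_compl _ hn
  refine ⟨μ, hμ, fun y hy => ?_⟩
  obtain ⟨-, ad2, d2⟩ := deg_htp h (O := ball (0 : E) 1) isOpen_ball isBounded_ball
    (H := fun p => g (c + r • p.1) - (g c + p.2 • (y - g c))) (by fun_prop)
    (fun x hx s hs k => by
      refine hball (a := g c + s • (y - g c)) ?_ ⟨x, by simpa using fr hx, sub_eq_zero.1 k⟩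
      rw [mem_ball_iff_norm] at hy ⊢
      rw [add_sub_cancel_left, norm_smul, Real.norm_eq_abs, abs_of_nonneg hs.1]
      nlinarith [hs.2, norm_nonneg (y - g c)])
    (u := fun x => g (c + r • x) - g c) (v := fun x => g (c + r • x) - y) (by fun_prop)
    (by fun_prop) (fun x _ => by simp) (fun x _ => by simp)
  by_contra hy'
  have z := deg_nz h ad2 fun x hx k => hy' ⟨c + r • x,
    mem x r (le_of_lt (by simpa using hx)) (abs_of_pos hr).le, sub_eq_zero.1 k⟩
  rw [← d1, d2, z] at od
  exact absurd od (by decide)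

end BEp
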