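import Pool.Agent.Work.MP_f0515e_an.Pos.PLCD

/-!
Cones over level sets of a gauge.

Plan.  `coff_tp`: by `tp_ite` it is enough that the cone `c` is `TP`.  Write `Q ξ = P (v + ξ) - P v`,
`‖Q ξ‖ ≤ L ‖ξ‖`.  For `a = r ξ / u`, `b = r η / u` positive,
`‖a • Q (ξ / a) - b • Q (η / b)‖ ≤ |a - b| L ‖ξ‖ / a + L ‖(b / a) • ξ - η‖ ≤ 2 |a - b| L u / κ + L ‖ξ - η‖`
(`ξ = 0` separately).  If `(M, b)` is the piece of `P` at the radial projection then
`c x = P v + (r (x - v) / u) • (M v + b - P v) + M (x - v)`: `TP.of_select`.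
`star`: the set of `t > 0` with `t * r (x - v) ≤ 1` is an interval, and those with `v + t • (x - v) ∈ Z` form
a nonempty subset which is closed and relatively open (`IsPreconnected.subset_of_closure_inter_subset` or
`IsPreconnected.induction₂'`).
`inj_core`: apply `l`; if one level is `< 1` then the height is `< t0`, so both levels are `< 1` and equal.
`cone_inj`: `inj_core`; two points of the same level `ρ ∈ (0, 1)` have radial projections in `Z` of level one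
(`ρ = 0` forces `x = y = v`).
-/

open Set Metric Filter Topology Function BEv
open scoped NNReal

noncomputable section
namespace BEp

variable {n n' : ℕ}


theorem plc_est {E F : Type} [NormedAddCommGroup E] [NormedSpace ℝ E] [NormedAddCommGroup F]
    [NormedSpace ℝ F] {Q : E → F} {L C : ℝ} (hL : 0 ≤ L) (h0 : Q 0 = 0)
    (hQ : ∀ x y, ‖Q x - Q y‖ ≤ L * ‖x - y‖) (a : ℝ) {b : ℝ} (hb : 0 ≤ b) {p : E} (q : E)
    (hp : ‖p‖ ≤ C) : ‖a • Q p - b • Q q‖ ≤ 2 * L * C * |a - b| + L * ‖a • p - b • q‖ := by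
  have h1 : ‖Q p‖ ≤ L * C := by
    have := hQ p 0
    rw [h0, sub_zero, sub_zero] at this
    exact this.trans (mul_le_mul_of_nonneg_left hp hL)
  have h2 : b * ‖p - q‖ ≤ |a - b| * C + ‖a • p - b • q‖ := by
    have e : b • (p - q) = (a • p - b • q) - (a - b) • p := by module
    have h3 := norm_sub_le (a • p - b • q) ((a - b) • p)
    rw [← e, norm_smul, norm_smul, Real.norm_eq_abs, Real.norm_eq_abs, abs_of_nonneg hb] at h3
    have h4 := mul_le_mul_of_nonneg_left hp (abs_nonneg (a - b))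
    linarith
  have e : a • Q p - b • Q q = (a - b) • Q p + b • (Q p - Q q) := by module
  have h5 := norm_add_le ((a - b) • Q p) (b • (Q p - Q q))
  rw [← e, norm_smul, norm_smul, Real.norm_eq_abs, Real.norm_eq_abs, abs_of_nonneg hb] at h5
  have h6 := mul_le_mul_of_nonneg_left h1 (abs_nonneg (a - b))
  have h7 := mul_le_mul_of_nonneg_left (hQ p q) hb
  have h8 := mul_le_mul_of_nonneg_left h2 hL
  nlinarith

theorem plc_nonneg {r : (Fin n → ℝ) → ℝ} (hr : Gauge r) (ξ : Fin n → ℝ) : 0 ≤ r ξ := by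
  obtain ⟨κ, hκ, h⟩ := hr.low
  exact (mul_nonneg hκ.le (norm_nonneg _)).trans (h ξ)

theorem plc_zero {r : (Fin n → ℝ) → ℝ} (hr : Gauge r) {ξ : Fin n → ℝ} (h0 : r ξ = 0) : ξ = 0 := by
  obtain ⟨κ, hκ, h⟩ := hr.low
  have := h ξ
  rw [h0] at this
  exact norm_le_zero_iff.1 (le_of_mul_le_mul_left (by rwa [mul_zero]) hκ)

theorem plc_rad {r : (Fin n → ℝ) → ℝ} (hr : Gauge r) {u : ℝ} (hu : 0 < u) (ξ : Fin n → ℝ) :
    (r ξ / u) • (u / r ξ) • ξ = ξ := by
  by_cases h0 : r ξ = 0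
  · rw [plc_zero hr h0, smul_zero, smul_zero]
  · rw [smul_smul, div_mul_div_cancel₀ hu.ne', div_self h0, one_smul]

theorem plc_bd {r : (Fin n → ℝ) → ℝ} (hr : Gauge r) {u : ℝ} (hu : 0 < u) :
    ∃ C : ℝ, 0 ≤ C ∧ ∀ ξ, ‖(u / r ξ) • ξ‖ ≤ C := by
  obtain ⟨κ, hκ, h⟩ := hr.low
  refine ⟨u / κ, by positivity, fun ξ => ?_⟩
  rcases (plc_nonneg hr ξ).eq_or_lt with h0 | h0
  · rw [← h0, div_zero, zero_smul, norm_zero]
    positivity
  · rw [norm_smul, Real.norm_eq_abs, abs_of_pos (div_pos hu h0), div_mul_eq_mul_div,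
      div_le_div_iff₀ h0 hκ, mul_assoc, mul_comm ‖ξ‖]
    exact mul_le_mul_of_nonneg_left (h ξ) hu.le

theorem plc_tp {v : Fin n → ℝ} {r : (Fin n → ℝ) → ℝ} (hr : Gauge r)
    {P : (Fin n → ℝ) → Fin n' → ℝ} (hP : TP P) {u : ℝ} (hu : 0 < u) :
    TP (fun x => P v + (r (x - v) / u) • (P (v + (u / r (x - v)) • (x - v)) - P v)) := by
  obtain ⟨C, hC, hb⟩ := plc_bd hr hu
  obtain ⟨L, hL, hl⟩ := hP.exists_bound
  obtain ⟨K, hK, hk⟩ := hr.tp.exists_bound
  have hL0 : 0 ≤ L := zero_le_one.trans hL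
  have hK0 : 0 ≤ K := zero_le_one.trans hK
  refine TP.of_select ⟨⟨2 * L * C * (K / u) + L, by positivity⟩,
    LipschitzWith.of_dist_le_mul fun x y => ?_⟩ fun _ => ?_
  · rw [dist_eq_norm, dist_eq_norm, add_sub_add_left_eq_sub]
    have h1 := plc_est (Q := fun ξ => P (v + ξ) - P v) hL0 (by simp)
      (fun a b => by simpa using hl (v + a) (v + b)) (r (x - v) / u)
      (div_nonneg (plc_nonneg hr (y - v)) hu.le) ((u / r (y - v)) • (y - v)) (hb (x - v))
    rw [plc_rad hr hu, plc_rad hr hu, sub_sub_sub_cancel_right] at h1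
    have h2 : |r (x - v) / u - r (y - v) / u| ≤ K / u * ‖x - y‖ := by
      have := hk (x - v) (y - v)
      rw [sub_sub_sub_cancel_right, Real.norm_eq_abs] at this
      rw [← sub_div, abs_div, abs_of_pos hu, div_mul_eq_mul_div]
      exact div_le_div_of_nonneg_right this hu.le
    have h3 := mul_le_mul_of_nonneg_left h2 (show 0 ≤ 2 * L * C by positivity)
    change _ ≤ (2 * L * C * (K / u) + L) * ‖x - y‖
    linarith
  · obtain ⟨S, hS, hp⟩ := hP.pa (‖v‖ + C)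
    refine ⟨(fun (A : ((Fin n → ℝ) →L[ℝ] Fin n' → ℝ) × (Fin n' → ℝ)) (x : Fin n → ℝ) =>
      P v + (r (x - v) / u) • (A.1 v + A.2 - P v) + A.1 (x - v)) '' S, hS.image _, ?_,
      fun x _ => ?_⟩
    · rintro _ ⟨A, -, rfl⟩
      have hx : TP (fun x : Fin n → ℝ => x - v) := TP.id'.sub (TP.const v)
      exact ((TP.const _).add (((hr.tp.comp hx).div_const u).smul_const _)).add
        ((TP.clm A.1).comp hx)
    · obtain ⟨A, hA, e⟩ := hp (v + (u / r (x - v)) • (x - v)) (mem_closedBall_zero_iff.2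
        ((norm_add_le _ _).trans (add_le_add le_rfl (hb _))))
      refine ⟨_, ⟨A, hA, rfl⟩, ?_⟩
      have e2 : A.1 (x - v) = (r (x - v) / u) • A.1 ((u / r (x - v)) • (x - v)) := by
        rw [← map_smul, plc_rad hr hu]
      change _ = P v + (r (x - v) / u) • (A.1 v + A.2 - P v) + A.1 (x - v)
      rw [e, e2, map_add]
      module

theorem plc_eq {v x : Fin n → ℝ} {r : (Fin n → ℝ) → ℝ} {P : (Fin n → ℝ) → Fin n' → ℝ}
    {u : ℝ} (hu : 0 < u) (hx : r (x - v) = u) :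
    P v + (r (x - v) / u) • (P (v + (u / r (x - v)) • (x - v)) - P v) = P x := by
  rw [hx, div_self hu.ne', one_smul, one_smul, add_sub_cancel, add_sub_cancel]

theorem coff_tp {v : Fin n → ℝ} {r : (Fin n → ℝ) → ℝ} (hr : Gauge r)
    {P : (Fin n → ℝ) → Fin n' → ℝ} (hP : TP P) {u : ℝ} (hu : 0 < u) : TP (coff v r P u) := by
  have := tp_ite (plc_tp (v := v) hr hP hu) hP (s := fun x => r (x - v) - u)
    ((hr.tp.continuous.comp (continuous_id.sub continuous_const)).sub continuous_const)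
    fun x hx => plc_eq hu (sub_eq_zero.1 hx)
  convert this using 2
  unfold coff
  congr

theorem coff_above {v x : Fin n → ℝ} {r : (Fin n → ℝ) → ℝ} {P : (Fin n → ℝ) → Fin n' → ℝ}
    {u : ℝ} (hu : 0 < u) (hx : u ≤ r (x - v)) : coff v r P u x = P x := by
  unfold coff
  split_ifs with h
  · exact plc_eq hu (le_antisymm (sub_nonpos.1 h) hx)
  · rfl

/-- The value on a ray. -/
theorem coff_ray {v ξ : Fin n → ℝ} {r : (Fin n → ℝ) → ℝ} (hr : Gauge r) (hξ : r ξ = 1)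
    {P : (Fin n → ℝ) → Fin n' → ℝ} {u ρ : ℝ} (hu : 0 < u) (hρ : 0 < ρ) :
    coff v r P u (v + ρ • ξ) = P v + (ρ / max u ρ) • (P (v + max u ρ • ξ) - P v) := by
  have e : r (v + ρ • ξ - v) = ρ := by rw [add_sub_cancel_left, hr.hom _ _ hρ.le, hξ, mul_one]
  unfold coff
  rw [e]
  split_ifs with h
  · rw [max_eq_left (sub_nonpos.1 h), add_sub_cancel_left, smul_smul, div_mul_cancel₀ _ hρ.ne']
  · rw [max_eq_right (sub_pos.1 (not_le.1 h)).le, div_self hρ.ne', one_smul, add_sub_cancel]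

theorem coff_l {v : Fin n → ℝ} {r : (Fin n → ℝ) → ℝ} {P : (Fin n → ℝ) → Fin n' → ℝ}
    {l : (Fin n' → ℝ) →L[ℝ] ℝ} (hl : ∀ x, l (P x) = 0) (u : ℝ) (x : Fin n → ℝ) :
    l (coff v r P u x) = 0 := by
  unfold coff
  split_ifs
  · simp [hl]
  · exact hl x

theorem coff_mix {v : Fin n → ℝ} {r : (Fin n → ℝ) → ℝ} (P P' : (Fin n → ℝ) → Fin n' → ℝ)
    (u t : ℝ) (x : Fin n → ℝ) : coff v r (fun y => (1 - t) • P y + t • P' y) u x =
      (1 - t) • coff v r P u x + t • coff v r P' u x := by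
  unfold coff
  split_ifs
  · module
  · rfl

theorem star {Z : Set (Fin n → ℝ)} (hZ : IsClosed Z) {v : Fin n → ℝ}
    {r : (Fin n → ℝ) → ℝ} (hr : Gauge r)
    (h : ∀ z ∈ Z, r (z - v) ≤ 1 → ∀ᶠ t in 𝓝 (1 : ℝ), v + t • (z - v) ∈ Z) {x : Fin n → ℝ}
    (hx : x ∈ Z) (h1 : r (x - v) ≤ 1) {t : ℝ} (ht : 0 < t) (ht1 : t * r (x - v) ≤ 1) :
    v + t • (x - v) ∈ Z := by
  have h0 := plc_nonneg hr (x - v)
  have hI : IsPreconnected {s : ℝ | 0 < s ∧ s * r (x - v) ≤ 1} :=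
    OrdConnected.isPreconnected ⟨fun a ha b hb s hs =>
      ⟨ha.1.trans_le hs.1, (mul_le_mul_of_nonneg_right hs.2 h0).trans hb.2⟩⟩
  have hA : IsClosed {s : ℝ | v + s • (x - v) ∈ Z} :=
    hZ.preimage (continuous_const.add (continuous_id.smul continuous_const))
  have key : ∀ s : ℝ, 0 < s → s * r (x - v) ≤ 1 → v + s • (x - v) ∈ Z →
      s ∈ interior {s : ℝ | v + s • (x - v) ∈ Z} := by
    intro s hs hs1 hsZ
    have h2 := h _ hsZ (by rwa [add_sub_cancel_left, hr.hom _ _ hs.le])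
    have h3 : Tendsto (fun a : ℝ => a / s) (𝓝 s) (𝓝 1) := by
      have := (continuous_id.div_const s).tendsto s
      rwa [id, div_self hs.ne'] at this
    refine mem_interior_iff_mem_nhds.2 ((h3.eventually h2).mono fun a ha => ?_)
    rwa [add_sub_cancel_left, smul_smul, div_mul_cancel₀ _ hs.ne'] at ha
  exact interior_subset (s := {s : ℝ | v + s • (x - v) ∈ Z})
    (hI.subset_of_closure_inter_subset isOpen_interior
    ⟨1, ⟨one_pos, by rwa [one_mul]⟩, key 1 one_pos (by rwa [one_mul]) (by simpa using hx)⟩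
    (fun s hs => key s hs.2.1 hs.2.2 (hA.closure_interior_subset hs.1)) ⟨ht, ht1⟩)

theorem inj_core {Z : Set (Fin n → ℝ)} {v : Fin n → ℝ} {r k : (Fin n → ℝ) → ℝ}
    {Q : (Fin n → ℝ) → Fin n' → ℝ} {w : Fin n' → ℝ} {l : (Fin n' → ℝ) →L[ℝ] ℝ} (hw : l w = 1)
    (hl : ∀ x, l (Q x) = 0) {t0 L : ℝ} (hL : 0 < L)
    (hk1 : ∀ x ∈ Z, r (x - v) ≤ 1 → k x = t0 + L * (r (x - v) - 1))
    (hk2 : ∀ x ∈ Z, 1 ≤ r (x - v) → t0 ≤ k x)
    (h1 : InjOn (fun x => Q x + k x • w) {x ∈ Z | 1 ≤ r (x - v)})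
    (h2 : ∀ x ∈ Z, ∀ y ∈ Z, r (x - v) = r (y - v) → r (x - v) < 1 → Q x = Q y → x = y) :
    InjOn (fun x => Q x + k x • w) Z := by
  intro x hx y hy e
  have ek : k x = k y := by simpa [hl, hw] using congrArg l e
  have eQ : Q x = Q y := by
    have e' : Q x + k x • w = Q y + k y • w := e
    rw [ek] at e'
    exact add_right_cancel e'
  have key : ∀ x ∈ Z, ∀ y ∈ Z, k x = k y → r (x - v) < 1 → r (x - v) = r (y - v) := by
    intro x hx y hy ek h
    have a1 := hk1 x hx h.le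
    have a2 : L * (r (x - v) - 1) < 0 := mul_neg_of_pos_of_neg hL (sub_neg.2 h)
    have a3 : r (y - v) < 1 := not_le.1 fun c => by
      have := hk2 y hy c
      linarith
    have a4 := hk1 y hy a3.le
    have a5 : L * (r (x - v) - 1) = L * (r (y - v) - 1) := by linarith
    linarith [mul_left_cancel₀ hL.ne' a5]
  by_cases c : r (x - v) < 1
  · exact h2 x hx y hy (key x hx y hy ek c) c eQ
  · by_cases c' : r (y - v) < 1
    · exact (h2 y hy x hx (key y hy x hx ek.symm c') c' eQ.symm).symm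
    · exact h1 ⟨hx, not_lt.1 c⟩ ⟨hy, not_lt.1 c'⟩ e

theorem cone_inj {Z : Set (Fin n → ℝ)} (hZ : IsClosed Z) {v : Fin n → ℝ}
    {r k : (Fin n → ℝ) → ℝ} (hr : Gauge r)
    (h : ∀ z ∈ Z, r (z - v) ≤ 1 → ∀ᶠ t in 𝓝 (1 : ℝ), v + t • (z - v) ∈ Z)
    {P : (Fin n → ℝ) → Fin n' → ℝ} {w : Fin n' → ℝ} {l : (Fin n' → ℝ) →L[ℝ] ℝ} (hw : l w = 1)
    (hl : ∀ x, l (P x) = 0) {t0 L : ℝ} (hL : 0 < L)
    (hk1 : ∀ x ∈ Z, r (x - v) ≤ 1 → k x = t0 + L * (r (x - v) - 1))
    (hk2 : ∀ x ∈ Z, 1 ≤ r (x - v) → t0 ≤ k x)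
    (h1 : InjOn (fun x => P x + k x • w) {x ∈ Z | 1 ≤ r (x - v)}) :
    InjOn (fun x => coff v r P 1 x + k x • w) Z := by
  refine inj_core hw (coff_l hl 1) hL hk1 hk2 (fun x hx y hy e => h1 hx hy ?_) ?_
  · simpa only [coff_above one_pos hx.2, coff_above one_pos hy.2] using e
  intro x hx y hy e hρ eQ
  rcases (plc_nonneg hr (x - v)).eq_or_lt with h0 | h0
  · rw [sub_eq_zero.1 (plc_zero hr h0.symm), sub_eq_zero.1 (plc_zero hr (e.symm.trans h0.symm))]
  have key : ∀ z ∈ Z, r (z - v) = r (x - v) → v + (1 / r (x - v)) • (z - v) ∈ Z ∧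
      r (v + (1 / r (x - v)) • (z - v) - v) = 1 := fun z hz ez => by
    have a1 : 1 / r (x - v) * r (z - v) = 1 := by rw [ez, one_div_mul_cancel h0.ne']
    exact ⟨star hZ hr h hz (ez.le.trans hρ.le) (one_div_pos.2 h0) a1.le,
      by rw [add_sub_cancel_left, hr.hom _ _ (one_div_pos.2 h0).le, a1]⟩
  obtain ⟨x1, x2⟩ := key x hx rfl
  obtain ⟨y1, y2⟩ := key y hy e.symm
  unfold coff at eQ
  rw [← e, if_pos (sub_nonpos.2 hρ.le), if_pos (sub_nonpos.2 hρ.le)] at eQ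
  have eP := sub_left_injective
    (smul_right_injective _ (div_pos h0 one_pos).ne' (add_left_cancel eQ))
  have := h1 ⟨x1, x2.ge⟩ ⟨y1, y2.ge⟩ (by
    change P _ + k _ • w = P _ + k _ • w
    rw [hk1 _ x1 x2.le, hk1 _ y1 y2.le, x2, y2, eP])
  exact sub_left_injective
    (smul_right_injective _ (one_div_pos.2 h0).ne' (add_left_cancel this))

end BEp
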