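import Pool.Agent.Work.MP_f0515e_an.Pos.PLSt1

/-! Faces of an arrangement: cells and dimensions.

Plan.
`face_cell`: a linear equivalence `(Fin d → ℝ) ≃ fdir L x` composed with the inclusion is `M`,
`o = x`, `U = φ ⁻¹' face` (open by `face_open`, bounded since `M` is antilipschitz).
`pc_cface`: the plane `AffineSubspace.mk' x (fdir L x)` and `sub_mem_fdir`.
`pc_lower`: `W` is covered by the finite set of faces meeting `W` (`finite_faces`, `PC.biUnion`).
`fdim_le`: project `Z - x` linearly onto `fdir L x` (`Submodule.exists_isCompl`, `linearProjOfIsCompl`);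
the image is `Sm m` and contains a ball (`face_open`), contradicting `Sm.dense` if `m < fdim`. -/

open Set Metric Filter Topology Function BEv
open scoped NNReal

noncomputable section
namespace BEp

section
variable {E : Type} [NormedAddCommGroup E] [NormedSpace ℝ E] [FiniteDimensional ℝ E]
  {L : Set ((E →L[ℝ] ℝ) × ℝ)} {x : E}

theorem PC.le {d d' : ℕ} {X : Set E} (h : PC d X) (hd : d ≤ d') : PC d' X := by
  obtain ⟨S, h1, h2, h3⟩ := h
  exact ⟨S, h1, fun P hP => (h2 P hP).trans hd, h3⟩

theorem face_cell (hL : L.Finite) (hb : Bornology.IsBounded (face L x)) {d : ℕ}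
    (hd : fdim L x = d) : ∃ c : Cell d E, c.car = face L x := by
  obtain ⟨e⟩ : Nonempty ((Fin d → ℝ) ≃L[ℝ] fdir L x) :=
    FiniteDimensional.nonempty_continuousLinearEquiv_of_finrank_eq (by simpa [fdim] using hd.symm)
  let M : (Fin d → ℝ) →L[ℝ] E := (fdir L x).subtypeL.comp e.toContinuousLinearMap
  have hM : Injective M := Subtype.val_injective.comp e.injective
  have hmem : ∀ y, M y ∈ fdir L x := fun y => (e y).2
  obtain ⟨K, -, hK⟩ := (M : (Fin d → ℝ) →ₗ[ℝ] E).exists_antilipschitzWith
    (LinearMap.ker_eq_bot.2 hM)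
  have hc : Continuous fun y => M y + x := by fun_prop
  refine ⟨⟨M, x, hM, {y | M y + x ∈ face L x},
    ((convex_face L x).translate_preimage_left x).linear_preimage (M : (Fin d → ℝ) →ₗ[ℝ] E),
    isOpen_iff_mem_nhds.2 fun y hy => ?_,
    hK.isBounded_preimage ((isometry_add_right x).antilipschitz.isBounded_preimage hb),
    ⟨0, by simpa using mem_face_self L x⟩⟩, Set.ext fun z => ⟨?_, fun hz => ?_⟩⟩
  · obtain ⟨ε, h0, hε⟩ := face_open hL hy
    filter_upwards [hc.continuousAt.preimage_mem_nhds (ball_mem_nhds _ h0)] with z hz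
    exact hε _ (by simpa using hmem z) (mem_ball_iff_norm.1 hz)
  · rintro ⟨y, hy, rfl⟩
    exact hy
  · have : M (e.symm ⟨z - x, sub_mem_fdir (face_sub_cface L x hz)⟩) + x = z := by simp [M]
    exact ⟨_, (congrArg (· ∈ face L x) this).mpr hz, this⟩

theorem pc_cface (L : Set ((E →L[ℝ] ℝ) × ℝ)) (x : E) : PC (fdim L x) (cface L x) := by
  refine ⟨{AffineSubspace.mk' x (fdir L x)}, finite_singleton _, ?_, fun y hy =>
    ⟨_, rfl, AffineSubspace.mem_mk'.2 (sub_mem_fdir hy)⟩⟩
  rintro P rfl
  rw [AffineSubspace.direction_mk']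
  exact le_rfl

theorem pc_lower (hL : L.Finite) {W : Set E} {d : ℕ} (h : ∀ x ∈ W, fdim L x ≤ d) : PC d W := by
  refine (PC.biUnion ((finite_faces hL).subset (image_subset_range (face L) W)) (X := id) ?_).mono
    fun x hx => mem_iUnion₂.2 ⟨_, ⟨x, hx, rfl⟩, mem_face_self L x⟩
  rintro _ ⟨x, hx, rfl⟩
  exact ((pc_cface L x).mono (face_sub_cface L x)).le (h x hx)

theorem fdim_le (hL : L.Finite) {m : ℕ} {Z : Set E} (hpc : PC m Z) (h : face L x ⊆ Z) :
    fdim L x ≤ m := by
  by_contra! hlt
  obtain ⟨π, hπ⟩ := (fdir L x).subtype.exists_leftInverse_of_injective (Submodule.ker_subtype _)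
  have hl : LipschitzWith _ fun z => π.toContinuousLinearMap (z + -x) :=
    π.toContinuousLinearMap.lipschitz.comp (isometry_add_right (-x)).lipschitz
  have hd := (hpc.sm.image hl.locallyLipschitz.locallyLipschitzOn).dense hlt
  obtain ⟨ε, h0, hε⟩ := face_open hL (mem_face_self L x)
  obtain ⟨v, hv, hv'⟩ := hd.exists_dist_lt 0 h0
  refine hv ⟨v + x, h (hε _ (by simp) (by simpa using hv')), ?_⟩
  simpa using LinearMap.congr_fun hπ v

end

end BEp
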