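import Pool.Agent.Work.MP_f0515e_an.Pos.PLSt1

/-! Faces of an arrangement: polyhedra, arrangements adapted to a polyhedron.

Plan.
`poly_cface`: `poly_zero` for the sum over `hL.toFinset` of `|ev A y|`, `max (-ev A y) 0` or
`max (ev A y) 0` according to the sign of `ev A x` (`cface` is bounded by `closure_face`).
`poly_lower`: `W` is the union of the closed faces `closure F`, `F` in the finite set
of faces meeting `W` (`finite_faces`, `closure_face`, `Poly.biUnion`).
`exists_adapted`: `Poly.eq_zero` gives `D`, `R`; add to `L` the pieces of `D` on `closedBall 0 R`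
and the functionals `x j - R`, `x j + R`. A face through `x ∈ Z` lies in the cube; a piece
vanishing at `x` vanishes on the face, the others have no zero on it, so `{D = 0}` is open and
closed in the convex face (`IsPreconnected.subset_of_closure_inter_subset`, or
`isPreconnected_iff_subset_of_disjoint_closed` with the closed sets `{D = 0}` and the union of
the sets `{D = ev A}` over the pieces with `ev A x ≠ 0`). -/

open Set Metric Filter Topology Function BEv
open scoped NNReal

noncomputable section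
namespace BEp

variable {n : ℕ} {L : Set (((Fin n → ℝ) →L[ℝ] ℝ) × ℝ)}

theorem st3_tp (A : ((Fin n → ℝ) →L[ℝ] ℝ) × ℝ) : TP (fun y => ev A y) :=
  (TP.clm A.1).add (TP.const A.2)

theorem st3_gap (a e : ℝ) : 0 ≤ |e| - (SignType.sign a : ℝ) * e ∧
    (|e| - (SignType.sign a : ℝ) * e = 0 ↔ e = 0 ∨ SignType.sign e = SignType.sign a) := by
  rcases lt_trichotomy a 0 with ha | ha | ha
  · rw [sign_neg ha, sign_eq_neg_one_iff]
    simp only [SignType.coe_neg_one]
    rcases lt_trichotomy e 0 with he | he | he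
    · rw [abs_of_neg he]
      exact ⟨by linarith, fun _ => Or.inr he, fun _ => by ring⟩
    · simp [he]
    · rw [abs_of_pos he]
      exact ⟨by linarith, fun h => by linarith, fun h => by rcases h with h | h <;> linarith⟩
  · simp [ha]
  · rw [sign_pos ha, sign_eq_one_iff]
    simp only [SignType.coe_one]
    rcases lt_trichotomy e 0 with he | he | he
    · rw [abs_of_neg he]
      exact ⟨by linarith, fun h => by linarith, fun h => by rcases h with h | h <;> linarith⟩
    · simp [he]
    · rw [abs_of_pos he]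
      exact ⟨by linarith, fun _ => Or.inr he, fun _ => by ring⟩

theorem poly_cface (hL : L.Finite) {x : Fin n → ℝ} (hb : Bornology.IsBounded (face L x)) :
    Poly (cface L x) := by
  have hb' : Bornology.IsBounded (cface L x) := closure_face L x ▸ hb.closure
  obtain ⟨R, hR⟩ := hb'.exists_norm_le
  have hD : TP (fun y => ∑ A ∈ hL.toFinset, (|ev A y| - (SignType.sign (ev A x) : ℝ) * ev A y)) :=
    TP.sum _ fun A _ => (st3_tp A).abs.sub ((st3_tp A).const_mul _)
  convert poly_zero hD R using 1
  ext y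
  have key : (∑ A ∈ hL.toFinset, (|ev A y| - (SignType.sign (ev A x) : ℝ) * ev A y)) = 0 ↔
      y ∈ cface L x := by
    rw [Finset.sum_eq_zero_iff_of_nonneg fun A _ => (st3_gap (ev A x) (ev A y)).1]
    exact ⟨fun h A hA => (st3_gap _ _).2.1 (h A (hL.mem_toFinset.2 hA)),
      fun h A hA => (st3_gap _ _).2.2 (h A (hL.mem_toFinset.1 hA))⟩
  exact ⟨fun h => ⟨hR y h, key.2 h⟩, fun h => key.1 h.2⟩

theorem poly_lower (hL : L.Finite) {W : Set (Fin n → ℝ)} (hb : Bornology.IsBounded W)
    (h : ∀ x ∈ W, cface L x ⊆ W) : Poly W := by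
  have hfin : (face L '' W).Finite := (finite_faces hL).subset (image_subset_range _ _)
  have e : W = ⋃ F ∈ face L '' W, closure F := by
    ext y
    simp only [mem_iUnion]
    constructor
    · intro hy
      exact ⟨face L y, mem_image_of_mem _ hy, subset_closure (mem_face_self L y)⟩
    · rintro ⟨F, ⟨x, hx, rfl⟩, hy⟩
      rw [closure_face] at hy
      exact h x hx hy
  rw [e]
  refine Poly.biUnion hfin ?_
  rintro F ⟨x, hx, rfl⟩
  rw [closure_face]
  exact poly_cface hL (hb.subset ((face_sub_cface L x).trans (h x hx)))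

theorem exists_adapted (hL : L.Finite) {Z : Set (Fin n → ℝ)} (hZ : Poly Z) :
    ∃ L' : Set (((Fin n → ℝ) →L[ℝ] ℝ) × ℝ), L'.Finite ∧ L ⊆ L' ∧ ∀ x ∈ Z, face L' x ⊆ Z := by
  obtain ⟨D, R, hD, hR, -, hz, hn⟩ := hZ.eq_zero
  obtain ⟨S, hS, hp⟩ := hD.pa R
  set pj : Fin n → (Fin n → ℝ) →L[ℝ] ℝ := fun j =>
    ContinuousLinearMap.proj (R := ℝ) (φ := fun _ : Fin n => ℝ) j with hpj
  set L' : Set (((Fin n → ℝ) →L[ℝ] ℝ) × ℝ) :=
    (L ∪ S) ∪ (range (fun j => (pj j, -R)) ∪ range (fun j => (pj j, R))) with hL'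
  refine ⟨L', (hL.union hS).union ((finite_range _).union (finite_range _)),
    fun A hA => Or.inl (Or.inl hA), fun x hx => ?_⟩
  have hxR : ∀ j, |x j| ≤ R := fun j => (norm_le_pi_norm x j).trans (hn x hx)
  have hball : ∀ y ∈ face L' x, y ∈ closedBall (0 : Fin n → ℝ) R := by
    intro y hy
    rw [mem_closedBall_zero_iff, pi_norm_le_iff_of_nonneg hR]
    intro j
    have h1 : SignType.sign (y j + -R) = SignType.sign (x j + -R) :=
      hy (pj j, -R) (Or.inr (Or.inl ⟨j, rfl⟩))
    have h2 : SignType.sign (y j + R) = SignType.sign (x j + R) :=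
      hy (pj j, R) (Or.inr (Or.inr ⟨j, rfl⟩))
    have h3 := abs_le.1 (hxR j)
    rw [Real.norm_eq_abs, abs_le]
    constructor
    · by_contra hc
      rw [sign_neg (by linarith), eq_comm, sign_eq_neg_one_iff] at h2
      linarith [h3.1]
    · by_contra hc
      rw [sign_pos (by linarith), eq_comm, sign_eq_one_iff] at h1
      linarith [h3.2]
  have hSL : ∀ A ∈ S, A ∈ L' := fun A hA => Or.inl (Or.inr hA)
  have hu : IsClosed {y | D y = 0} := isClosed_eq hD.continuous continuous_const
  have hv : IsClosed (⋃ A ∈ {A ∈ S | ev A x ≠ 0}, {y | D y = ev A y}) :=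
    (hS.subset (sep_subset _ _)).isClosed_biUnion fun A _ =>
      isClosed_eq hD.continuous (st3_tp A).continuous
  have hdisj : face L' x ∩ ({y | D y = 0} ∩ ⋃ A ∈ {A ∈ S | ev A x ≠ 0}, {y | D y = ev A y}) =
      ∅ := by
    refine eq_empty_of_forall_notMem ?_
    rintro y ⟨hy, h0, h1⟩
    simp only [mem_iUnion] at h1
    obtain ⟨A, ⟨hA, hAx⟩, h1⟩ := h1
    have h2 : ev A y = 0 := (show D y = ev A y from h1).symm.trans h0
    have h3 := hy A (hSL A hA)
    rw [h2, sign_zero, eq_comm, sign_eq_zero_iff] at h3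
    exact hAx h3
  have hcov : face L' x ⊆ {y | D y = 0} ∪ ⋃ A ∈ {A ∈ S | ev A x ≠ 0}, {y | D y = ev A y} := by
    intro y hy
    obtain ⟨A, hA, e⟩ := hp y (hball y hy)
    by_cases hAx : ev A x = 0
    · left
      have h3 := hy A (hSL A hA)
      rw [hAx, sign_zero, sign_eq_zero_iff] at h3
      exact e.trans h3
    · right
      simp only [mem_iUnion]
      exact ⟨A, ⟨hA, hAx⟩, e⟩
  rcases isPreconnected_iff_subset_of_disjoint_closed.1 (convex_face L' x).isPreconnected _ _
    hu hv hcov hdisj with h | h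
  · exact fun y hy => (hz y).2 (h hy)
  · have : x ∈ (∅ : Set (Fin n → ℝ)) :=
      hdisj ▸ ⟨mem_face_self L' x, (hz x).1 hx, h (mem_face_self L' x)⟩
    exact this.elim

end BEp
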