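import Pool.Agent.Work.MP_f0515e_an.Pos.HBor

/-! EXPORT (HOM). The degree under a homeomorphism of the domain.

PLAN. `exists_left_inv`: the restriction of `φ` to the compact set `C` is a closed embedding
(`Continuous.isClosedEmbedding`); extend the inclusion along it
(`ContinuousMap.exists_extension`, Tietze for finite dimensional targets).
`frontier_image`: `closure (φ '' O) = φ '' closure O` (compactness), `inv_domain`, injectivity.
`deg_homeo`: fix `N : E ≃L F`, `a q = deg O (fun x => N (φ x - q))` for `q ∈ φ '' O`. It is locally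
constant on `φ '' O` (a ball around `q` inside `φ '' O` misses `φ '' frontier O`; `deg_htp` along the
segment), so constant `= a0` on the preconnected set (`IsPreconnected.constant` or a clopen argument).
For `u` take `v, S, M` from `deg_ind` on `φ '' O`; `deg O (u ∘ φ) = deg O (v ∘ φ)` (`deg_eqOn`), and
by induction on `S` (generalize the open subset `O' ⊆ φ '' O` and use `O ∩ φ ⁻¹' O'`; `deg_add` with a
small ball `B` around `z`; on `O ∩ φ ⁻¹' B` the map is `M z (φ x - z)`, `deg_excise`,
`deg_target_self` with `N.symm.trans (M z)`, `sg_post`) `deg O (v ∘ φ) = ∑ z, sg (M z) * sg N * a0`.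
So `e = sg N * a0`. For `e = ±1`: if `p ∈ O`, apply the formula to `u y = N' (k y - p)` with `k` the left
inverse on `closure O` and `N' : G ≃L F`: `sg N' = e * deg _ u`, `Int.isUnit_iff`. If `O = ∅` take `e = 1`.
About 250 lines. -/

open Set Metric Filter Topology Function BEv
open scoped NNReal

noncomputable section
namespace BEp

variable {E F G : Type} [NormedAddCommGroup E] [NormedSpace ℝ E] [FiniteDimensional ℝ E]
  [NormedAddCommGroup F] [NormedSpace ℝ F] [FiniteDimensional ℝ F]
  [NormedAddCommGroup G] [NormedSpace ℝ G] [FiniteDimensional ℝ G]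

omit [NormedSpace ℝ E] [FiniteDimensional ℝ E] in
theorem exists_left_inv {C : Set G} (hC : IsCompact C) {φ : G → E} (hφ : Continuous φ)
    (hi : InjOn φ C) : ∃ k : E → G, Continuous k ∧ ∀ x ∈ C, k (φ x) = x := by
  have := TietzeExtension.of_tvs.{0, 0, 0} ℝ (E := G)
  have := isCompact_iff_compactSpace.1 hC
  have he : IsClosedEmbedding fun x : C => φ x :=
    (hφ.comp continuous_subtype_val).isClosedEmbedding (injOn_iff_injective.1 hi)
  obtain ⟨g, hg⟩ := ContinuousMap.exists_extension' he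
    (⟨Subtype.val, continuous_subtype_val⟩ : C(C, G))
  exact ⟨g, g.continuous, fun x hx => congrFun hg ⟨x, hx⟩⟩

theorem frontier_image (hG : Module.finrank ℝ G = Module.finrank ℝ E) {O : Set G}
    (hO : IsOpen O) (hb : Bornology.IsBounded O) {φ : G → E} (hφ : Continuous φ)
    (hi : InjOn φ (closure O)) : IsOpen (φ '' O) ∧ Bornology.IsBounded (φ '' O) ∧
      closure (φ '' O) = φ '' closure O ∧ frontier (φ '' O) = φ '' frontier O := by
  have hK : IsCompact (closure O) := hb.isCompact_closure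
  have h1 := inv_domain hG hO hφ (hi.mono subset_closure)
  have h2 := (image_closure_of_isCompact hK hφ.continuousOn).symm
  refine ⟨h1, (hK.image hφ).isBounded.subset (image_mono subset_closure), h2, ?_⟩
  rw [h1.frontier_eq, h2, hO.frontier_eq, hi.image_sdiff_subset subset_closure]

omit [NormedSpace ℝ E] [FiniteDimensional ℝ E] [FiniteDimensional ℝ F] [FiniteDimensional ℝ G]
  [NormedSpace ℝ F] [NormedSpace ℝ G] in
theorem hdm_adm {O : Set G} (hO : IsOpen O) (hb : Bornology.IsBounded O) {φ : G → E}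
    (hφ : Continuous φ) (hi : InjOn φ (closure O)) {N : E → F} (hN : Continuous N)
    (h0 : ∀ y, N y = 0 → y = 0) {q : E} (hq : q ∈ φ '' O) : Adm O fun x => N (φ x - q) := by
  obtain ⟨p, hp, rfl⟩ := hq
  refine ⟨hO, hb, by fun_prop, fun x hx k => ?_⟩
  rw [hO.frontier_eq] at hx
  exact hx.2 (hi hx.1 (subset_closure hp) (sub_eq_zero.1 (h0 _ k)) ▸ hp)

/-- The local degree does not depend on the point. -/
theorem hdm_const (hG : Module.finrank ℝ G = Module.finrank ℝ E) {O : Set G} (hO : IsOpen O)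
    (hb : Bornology.IsBounded O) (hc : IsPreconnected O) {φ : G → E} (hφ : Continuous φ)
    (hi : InjOn φ (closure O)) (N : E ≃L[ℝ] F) {q q' : E} (hq : q ∈ φ '' O)
    (hq' : q' ∈ φ '' O) : deg O (fun x => N (φ x - q)) = deg O fun x => N (φ x - q') := by
  obtain ⟨h1, -, -, h4⟩ := frontier_image hG hO hb hφ hi
  refine (hc.image φ hφ.continuousOn).constant (f := fun q => deg O fun x => N (φ x - q))
    (fun z hz => ContinuousAt.continuousWithinAt ?_) hq hq'
  obtain ⟨r, hr, hs⟩ := Metric.isOpen_iff.1 h1 z hz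
  refine tendsto_const_nhds.congr' (mem_of_superset (ball_mem_nhds z hr) fun w hw => ?_)
  refine (deg_htp (hG.trans N.toLinearEquiv.finrank_eq) hO hb
    (H := fun p => N (φ p.1 - ((1 - p.2) • z + p.2 • w))) (by fun_prop) (fun x hx s hs' k => ?_)
    (by fun_prop) (by fun_prop) (fun x _ => by simp) fun x _ => by simp).2.2
  have k1 : φ x ∈ frontier (φ '' O) := h4 ▸ mem_image_of_mem φ hx
  rw [h1.frontier_eq] at k1
  refine k1.2 (hs ?_)
  rw [sub_eq_zero.1 (N.map_eq_zero_iff.1 k)]
  exact convex_ball z r (mem_ball_self hr) hw (sub_nonneg.2 hs'.2) hs'.1 (sub_add_cancel _ _)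

omit [FiniteDimensional ℝ E] in
/-- The sum formula after composition. -/
theorem hdm_sum (h : Module.finrank ℝ G = Module.finrank ℝ F) {O : Set G} (hO : IsOpen O)
    (hb : Bornology.IsBounded O) {φ : G → E} (hφ : Continuous φ) (hi : InjOn φ (closure O))
    {v : E → F} (M : E → E ≃L[ℝ] F) (S : Finset E) : ∀ U ⊆ O, Adm U (fun x => v (φ x)) →
      (∀ x ∈ U, v (φ x) = 0 → φ x ∈ S) →
      (∀ z ∈ S, z ∈ φ '' U ∧ v =ᶠ[𝓝 z] fun x => M z (x - z)) →
      deg U (fun x => v (φ x)) = ∑ z ∈ S, deg O fun x => M z (φ x - z) := by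
  classical
  induction S using Finset.induction_on with
  | empty => exact fun U _ hU h0 _ => deg_nz h hU fun x hx k => by simpa using h0 x hx k
  | insert z S hz ih =>
    intro U sU hU h0 hS
    obtain ⟨⟨p, hp, hpz⟩, hv⟩ := hS z (Finset.mem_insert_self _ _)
    obtain ⟨r, hr, hs⟩ := nhds_basis_closedBall.mem_iff.1 hv
    have hout : ∀ w ∈ S, w ∉ closedBall z r := fun w hw k => by
      have k1 := (hS w (Finset.mem_insert_of_mem hw)).2.eq_of_nhds
      rw [hs k, sub_self, map_zero, (M z).map_eq_zero_iff, sub_eq_zero] at k1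
      exact hz (k1 ▸ hw)
    have o1 : IsOpen (U ∩ φ ⁻¹' ball z r) := hU.1.inter (isOpen_ball.preimage hφ)
    obtain ⟨a1, a2, e⟩ := deg_add h hU o1
      (hU.1.inter (isClosed_closedBall (x := z) (ε := r).isOpen_compl.preimage hφ))
      inter_subset_left inter_subset_left
      (Set.disjoint_left.2 fun x k1 k2 => k2.2 (ball_subset_closedBall k1.2)) fun x hx k => by
        rcases Finset.mem_insert.1 (h0 x hx k) with k1 | k1
        · exact Or.inl ⟨hx, show φ x ∈ ball z r from k1 ▸ mem_ball_self hr⟩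
        · exact Or.inr ⟨hx, hout _ k1⟩
    rw [Finset.sum_insert hz, e, ih _ (inter_subset_left.trans sU) a2 (fun x hx k => ?_)
      fun w hw => ⟨?_, (hS w (Finset.mem_insert_of_mem hw)).2⟩]
    · congr 1
      have ad := hdm_adm hO hb hφ hi (M z).continuous (fun y => (M z).map_eq_zero_iff.1)
        ⟨p, sU hp, hpz⟩
      rw [(deg_excise h ad o1 (inter_subset_left.trans sU) fun x hx k => ?_).2]
      · refine deg_eqOn h a1 ad.2.2.1 fun x hx => hs ?_
        exact closure_minimal (t := φ ⁻¹' closedBall z r) (fun y hy => ball_subset_closedBall hy.2)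
          (isClosed_closedBall.preimage hφ) (frontier_subset_closure hx)
      · have k1 : φ x = z := sub_eq_zero.1 ((M z).map_eq_zero_iff.1 k)
        exact ⟨hi (subset_closure hx) (subset_closure (sU hp)) (k1.trans hpz.symm) ▸ hp,
          show φ x ∈ ball z r from k1 ▸ mem_ball_self hr⟩
    · exact (Finset.mem_insert.1 (h0 x hx.1 k)).resolve_left fun k1 =>
        hx.2 (show φ x ∈ closedBall z r from k1 ▸ mem_closedBall_self hr.le)
    · obtain ⟨y, hy, rfl⟩ := (hS w (Finset.mem_insert_of_mem hw)).1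
      exact ⟨y, ⟨hy, hout _ hw⟩, rfl⟩

theorem deg_homeo (h : Module.finrank ℝ E = Module.finrank ℝ F)
    (hG : Module.finrank ℝ G = Module.finrank ℝ E) {O : Set G} (hO : IsOpen O)
    (hb : Bornology.IsBounded O) (hc : IsPreconnected O) {φ : G → E} (hφ : Continuous φ)
    (hi : InjOn φ (closure O)) : IsOpen (φ '' O) ∧ ∃ e : ℤ, (e = 1 ∨ e = -1) ∧
      ∀ u : E → F, Adm (φ '' O) u → deg O (fun x => u (φ x)) = e * deg (φ '' O) u := by
  obtain ⟨h1, h2, -, h4⟩ := frontier_image hG hO hb hφ hi
  have h' := hG.trans h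
  have ad : ∀ u : E → F, Adm (φ '' O) u → Adm O fun x => u (φ x) := fun u hu =>
    ⟨hO, hb, hu.2.2.1.comp hφ, fun x hx => hu.2.2.2 _ (h4 ▸ mem_image_of_mem φ hx)⟩
  refine ⟨h1, ?_⟩
  rcases O.eq_empty_or_nonempty with rfl | ⟨p, hp⟩
  · refine ⟨1, Or.inl rfl, fun u hu => ?_⟩
    rw [deg_nz h' (ad u hu) fun x hx => hx.elim, deg_nz h hu fun x hx => by simp at hx, mul_zero]
  have N : E ≃L[ℝ] F := ContinuousLinearEquiv.ofFinrankEq h
  have key : ∀ u : E → F, Adm (φ '' O) u → deg O (fun x => u (φ x)) =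
      (sg N * deg O fun x => N (φ x - φ p)) * deg (φ '' O) u := fun u hu => by
    obtain ⟨v, S, M, hv, e, hf, hd⟩ := deg_ind h hu
    rw [deg_eqOn h' (ad u hu) (ad v hv).2.2.1 fun x hx => (e _ (by
        have k : φ x ∈ frontier (φ '' O) := h4 ▸ mem_image_of_mem φ hx
        rw [h1.frontier_eq] at k
        exact k.2)).symm,
      hdm_sum h' hO hb hφ hi M S O Subset.rfl (ad v hv)
        (fun x hx k => hf.2.1 _ (mem_image_of_mem φ hx) k) fun z hz => ⟨hf.1 hz, hf.2.2 z hz⟩,
      hd, Finset.mul_sum]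
    refine Finset.sum_congr rfl fun z hz => ?_
    have k1 := deg_target_self h' (N.symm.trans (M z))
      (hdm_adm hO hb hφ hi N.continuous (fun y => N.map_eq_zero_iff.1) (hf.1 hz))
    have k2 := sg_post N (N.symm.trans (M z))
    rw [show N.trans (N.symm.trans (M z)) = M z from
      ContinuousLinearEquiv.ext (funext fun x => by simp)] at k2
    simp only [ContinuousLinearEquiv.trans_apply, ContinuousLinearEquiv.symm_apply_apply] at k1
    rw [k1, k2, hdm_const hG hO hb hc hφ hi N (hf.1 hz) (mem_image_of_mem φ hp)]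
    linear_combination
      (-(sdet (N.symm.trans (M z)) * deg O fun x => N (φ x - φ p))) * sg_mul_self N
  refine ⟨_, ?_, key⟩
  obtain ⟨k, hk, ek⟩ := exists_left_inv hb.isCompact_closure hφ hi
  have L : G ≃L[ℝ] F := ContinuousLinearEquiv.ofFinrankEq h'
  have a : Adm (φ '' O) fun y => L (k y - p) := ⟨h1, h2, by fun_prop, fun y hy k0 => by
    rw [h4] at hy
    obtain ⟨x, hx, rfl⟩ := hy
    rw [hO.frontier_eq] at hx
    have k1 := sub_eq_zero.1 (L.map_eq_zero_iff.1 k0)
    rw [ek x hx.1] at k1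
    exact hx.2 (k1 ▸ hp)⟩
  have k1 := key _ a
  rw [deg_eqOn h' (ad _ a) (v := fun x => L (x - p)) (by fun_prop)
    (fun x hx => by simp only [ek x (frontier_subset_closure hx)]), deg_aff L hO hb hp] at k1
  rcases sg_cases L with k2 | k2
  · exact Int.eq_one_or_neg_one_of_mul_eq_one (k1.symm.trans k2)
  · exact Int.eq_one_or_neg_one_of_mul_eq_neg_one (k1.symm.trans k2)

end BEp
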