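import Pool.Agent.Work.MP_f0515e_an.Pos.HDeg1

/-! EXPORT (HOM). Isomorphisms of positive determinant are joined to the identity.

PLAN. For matrices `Matrix (Fin n) (Fin n) ℝ` let `J A := JoinedIn {B | B.det ≠ 0} 1 A`. `J` is closed
under products and under conjugation by invertible matrices, and `J A → 0 < det A` (intermediate value
theorem on the path). Transvections satisfy `J` (scale the entry). `D i d = diagonal (update 1 i d)`:
`J (D i d)` for `d > 0`, and `J (D i (-1) * D j (-1))` (for `i ≠ j` it is the square of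
`T i j 1 * T j i (-1) * T i j 1`). Fix `i0`, `R = D i0 (-1)`; `P A := J A ∨ J (R * A)` is closed under
products and holds for invertible diagonal matrices (product of the `D i (d i)`, `Finset.induction`) and
transvections, so for all invertible matrices
(`Matrix.diagonal_transvection_induction_of_det_ne_zero`); `det > 0` excludes the second case; `n = 0`
is trivial. Transport with a basis (`LinearMap.toMatrix`, `Matrix.toLin`, continuity of linear maps
on finite dimensional spaces), extend the path with `Path.extend`. `iso_path`: `N = M1.trans M0.symm` has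
`sdet N = 1` (`sg_pre`), `L t = M0 ∘ γ (clamped t + 1/2)`. About 200 lines. -/

open Set Metric Filter Topology Function BEv
open scoped NNReal

noncomputable section
namespace BEp

variable {E F G : Type} [NormedAddCommGroup E] [NormedSpace ℝ E] [FiniteDimensional ℝ E]
  [NormedAddCommGroup F] [NormedSpace ℝ F] [FiniteDimensional ℝ F]
  [NormedAddCommGroup G] [NormedSpace ℝ G] [FiniteDimensional ℝ G]

section Mat
variable {n : Type} [Fintype n] [DecidableEq n]

/-- Joined to the identity through invertible matrices. -/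
def hglJ (A : Matrix n n ℝ) : Prop :=
  ∃ γ : ℝ → Matrix n n ℝ, Continuous γ ∧ (∀ t, (γ t).det ≠ 0) ∧ γ 0 = 1 ∧ γ 1 = A

theorem hgl_mul {A B : Matrix n n ℝ} (h : hglJ A) (k : hglJ B) : hglJ (A * B) := by
  obtain ⟨γ, c, d, e0, e1⟩ := h
  obtain ⟨γ', c', d', e0', e1'⟩ := k
  exact ⟨fun t => γ t * γ' t, c.mul c', fun t => by
    rw [Matrix.det_mul]
    exact mul_ne_zero (d t) (d' t), by simp only [e0, e0', mul_one], by simp only [e1, e1']⟩

theorem hgl_tv {i j : n} (h : i ≠ j) (c : ℝ) : hglJ (Matrix.transvection i j c) := by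
  refine ⟨fun t => Matrix.transvection i j (t * c), ?_, fun t => ?_, ?_, ?_⟩
  · have e : (fun t : ℝ => Matrix.transvection i j (t * c)) =
        fun t : ℝ => 1 + t • Matrix.single i j c := by
      funext t
      rw [Matrix.transvection, Matrix.smul_single, smul_eq_mul]
    rw [e]
    exact continuous_const.add (continuous_id.smul continuous_const)
  · rw [Matrix.det_transvection_of_ne i j h]
    exact one_ne_zero
  · simp only [zero_mul, Matrix.transvection_zero]
  · simp only [one_mul]

theorem hgl_pos {D : n → ℝ} (h : ∀ i, 0 < D i) : hglJ (Matrix.diagonal D) := by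
  refine ⟨fun t => Matrix.diagonal fun i => Real.exp (t * Real.log (D i)), ?_, fun t => ?_, ?_, ?_⟩
  · exact Continuous.matrix_diagonal (by fun_prop)
  · rw [Matrix.det_diagonal]
    exact Finset.prod_ne_zero_iff.2 fun i _ => Real.exp_ne_zero _
  · simp only [zero_mul, Real.exp_zero, Matrix.diagonal_one]
  · simp only [one_mul, Real.exp_log (h _)]

theorem hgl_ring {R : Type} [Ring R] {a b : R} (h1 : a * a = 0) (h2 : b * b = 0)
    (h3 : a * b * a = a) (h4 : b * a * b = b) :
    (1 + a) * (1 - b) * (1 + a) * ((1 + a) * (1 - b) * (1 + a)) =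
      1 - (a * b + b * a) - (a * b + b * a) := by
  have k1 : ∀ x, x * a * a = 0 := fun x => by rw [mul_assoc, h1, mul_zero]
  have k2 : ∀ x, x * b * b = 0 := fun x => by rw [mul_assoc, h2, mul_zero]
  have w : (1 + a) * (1 - b) * (1 + a) = 1 + a - b - a * b - b * a := by
    simp only [mul_add, add_mul, mul_sub, sub_mul, mul_one, one_mul, h1, h3]
    abel
  rw [w]
  simp only [mul_add, add_mul, mul_sub, sub_mul, mul_one, one_mul, ← mul_assoc, h1, h2, h3, h4,
    k1, k2, zero_mul]
  abel

theorem hgl_rot {i j : n} (h : i ≠ j) :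
    hglJ (Matrix.diagonal fun k => if k = i ∨ k = j then (-1 : ℝ) else 1) := by
  have w : hglJ ((1 + Matrix.single i j (1 : ℝ)) * (1 - Matrix.single j i 1) *
      (1 + Matrix.single i j 1)) := by
    refine hgl_mul (hgl_mul (hgl_tv h 1) ?_) (hgl_tv h 1)
    have := hgl_tv h.symm (-1)
    rwa [Matrix.transvection, ← Matrix.single_neg, ← sub_eq_add_neg] at this
  have k := hgl_mul w w
  rw [hgl_ring (Matrix.single_mul_single_of_ne _ _ _ _ h.symm _)
    (Matrix.single_mul_single_of_ne _ _ _ _ h _) (by simp) (by simp)] at k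
  convert k using 1
  ext a b
  simp only [Matrix.single_mul_single_same, mul_one, Matrix.sub_apply, Matrix.add_apply,
    Matrix.diagonal_apply, Matrix.one_apply, Matrix.single_apply]
  by_cases e : a = b
  · subst e
    by_cases e1 : a = i
    · subst e1
      simp [h.symm]
    · by_cases e2 : a = j
      · subst e2
        simp [h]
      · simp [e1, e2, Ne.symm e1, Ne.symm e2]
  · rw [if_neg e, if_neg e, if_neg fun m => e (m.1.symm.trans m.2),
      if_neg fun m => e (m.1.symm.trans m.2)]
    simp

theorem hgl_diag (m : ℕ) : ∀ D : n → ℝ, (Finset.univ.filter fun i => D i < 0).card < m →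
    0 < ∏ i, D i → hglJ (Matrix.diagonal D) := by
  induction m with
  | zero => exact fun D h => absurd h (Nat.not_lt_zero _)
  | succ m ih =>
    intro D hm hD
    have nz : ∀ i, D i ≠ 0 := fun i => Finset.prod_ne_zero_iff.1 hD.ne' i (Finset.mem_univ i)
    by_cases h : ∀ i, 0 < D i
    · exact hgl_pos h
    obtain ⟨i, hi⟩ := not_forall.1 h
    have hi : D i < 0 := lt_of_le_of_ne (not_lt.1 hi) (nz i)
    have hj : ∃ j, j ≠ i ∧ D j < 0 := by
      by_contra k
      rw [← Finset.mul_prod_erase _ _ (Finset.mem_univ i)] at hD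
      refine absurd hD (not_lt.2 (mul_nonpos_of_nonpos_of_nonneg hi.le
        (Finset.prod_nonneg fun j hj => not_lt.1 fun e => k ⟨j, (Finset.mem_erase.1 hj).1, e⟩)))
    obtain ⟨j, ji, hj⟩ := hj
    have e : D = fun k => (D k * if k = i ∨ k = j then (-1 : ℝ) else 1) *
        if k = i ∨ k = j then (-1 : ℝ) else 1 := by
      funext k
      split_ifs <;> ring
    rw [e, ← Matrix.diagonal_mul_diagonal]
    refine hgl_mul (ih _ (lt_of_lt_of_le (Finset.card_lt_card ⟨fun k hk => ?_, fun s => ?_⟩)
      (Nat.lt_succ_iff.1 hm)) ?_) (hgl_rot ji.symm)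
    · have hk := (Finset.mem_filter.1 hk).2
      refine Finset.mem_filter.2 ⟨Finset.mem_univ k, ?_⟩
      split_ifs at hk with c
      · rcases c with rfl | rfl
        exacts [hi, hj]
      · rwa [mul_one] at hk
    · have hk := (Finset.mem_filter.1 (s (Finset.mem_filter.2 ⟨Finset.mem_univ i, hi⟩))).2
      rw [if_pos (Or.inl rfl)] at hk
      linarith
    · rw [Finset.prod_mul_distrib, Finset.prod_ite, Finset.prod_const, Finset.prod_const_one,
        show (Finset.univ.filter fun k => k = i ∨ k = j) = {i, j} by ext; simp,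
        Finset.card_pair ji.symm]
      simpa using hD

theorem hgl_all {A : Matrix n n ℝ} (h : 0 < A.det) : hglJ A :=
  Matrix.diagonal_transvection_induction hglJ A
    (fun D e => hgl_diag _ D (Nat.lt_succ_self _) (by rwa [← Matrix.det_diagonal, e]))
    (fun t => hgl_tv t.hij t.c) fun _ _ => hgl_mul

end Mat

theorem glp (N : E →L[ℝ] E) (hN : 0 < N.det) :
    ∃ γ : ℝ → E →L[ℝ] E, Continuous γ ∧ (∀ t, Bijective (γ t)) ∧ (∀ t ≤ 0, γ t = 1) ∧
      ∀ t, 1 ≤ t → γ t = N := by
  let b := Module.finBasis ℝ E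
  let ψ := (Matrix.toLin b b).trans (LinearMap.toContinuousLinearMap (𝕜 := ℝ) (E := E) (F' := E))
  obtain ⟨γ, c, d, e0, e1⟩ := hgl_all (A := LinearMap.toMatrix b b (N : E →ₗ[ℝ] E))
    (by rwa [LinearMap.det_toMatrix])
  refine ⟨fun t => ψ (γ (max 0 (min t 1))), ψ.toLinearMap.continuous_of_finiteDimensional.comp
    (c.comp (by fun_prop)), fun t => ?_, fun t ht => ?_, fun t ht => ?_⟩
  · refine (Module.End.isUnit_iff (Matrix.toLin b b (γ (max 0 (min t 1))))).1
      ((LinearMap.isUnit_iff_isUnit_det _).2 (Ne.isUnit ?_))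
    rw [LinearMap.det_toLin]
    exact d _
  · beta_reduce
    rw [max_eq_left ((min_le_left _ _).trans ht), e0]
    ext x
    exact congrFun (congrArg DFunLike.coe (Matrix.toLin_one b)) x
  · beta_reduce
    rw [min_eq_right ht, max_eq_right zero_le_one, e1]
    ext x
    exact congrFun (congrArg DFunLike.coe (Matrix.toLin_toMatrix b b (N : E →ₗ[ℝ] E))) x

theorem iso_path (M0 M1 : E ≃L[ℝ] F) (h : sg M0 = sg M1) :
    ∃ L : ℝ → E →L[ℝ] F, Continuous L ∧ (∀ t, Injective (L t)) ∧
      (∀ t ≤ -1 / 2, L t = (M0 : E →L[ℝ] F)) ∧ ∀ t, 1 / 2 ≤ t → L t = (M1 : E →L[ℝ] F) := by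
  have e : (M1.trans M0.symm).trans M0 = M1 := by
    ext x
    simp
  have k := sg_pre (M1.trans M0.symm) M0
  rw [e, ← h] at k
  have k1 : sdet (M1.trans M0.symm) = 1 := by
    have := congrArg (· * sg M0) k
    simp only [mul_assoc, sg_mul_self, mul_one] at this
    exact this.symm
  obtain ⟨γ, c, d, e0, e1⟩ := glp _ (sdet_eq_one.1 k1)
  refine ⟨fun t => (M0 : E →L[ℝ] F).comp (γ (t + 1 / 2)),
    continuous_const.clm_comp (c.comp (by fun_prop)),
    fun t => M0.injective.comp (d _).1, fun t ht => ?_, fun t ht => ?_⟩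
  · beta_reduce
    rw [e0 (t + 1 / 2) (by linarith)]
    rfl
  · beta_reduce
    rw [e1 (t + 1 / 2) (by linarith)]
    ext x
    simp

end BEp
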