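import Pool.Agent.Work.MP_f0515e_an.Pos.PLIE

/-!
Definitions for the crossing lemma.
-/

open Set Metric Filter Topology Function BEv
open scoped NNReal

noncomputable section
namespace BEp

section
variable {E F : Type} [NormedAddCommGroup E] [NormedSpace ℝ E] [NormedAddCommGroup F]
  [NormedSpace ℝ F]

/-- Double points. -/
def Dbl (Z : Set E) (P : E → F) : Set (E × E) :=
  {p | p.1 ∈ Z ∧ p.2 ∈ Z ∧ p.1 ≠ p.2 ∧ P p.1 = P p.2}

/-- `P` is affine on `Z` near `x`. -/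
def AffAt (Z : Set E) (P : E → F) (x : E) : Prop :=
  ∃ (M : E →L[ℝ] F) (b : F), ∀ᶠ y in 𝓝[Z] x, P y = M y + b

/-- Near `x` the set `Z` is the plane `A`. -/
def FlatAt (Z : Set E) (A : AffineSubspace ℝ E) (x : E) : Prop :=
  x ∈ A ∧ ∀ᶠ y in 𝓝 x, (y ∈ Z ↔ y ∈ A)

/-- A positive homogeneous piecewise affine function. -/
structure Gauge (r : E → ℝ) : Prop where
  tp : TP r
  hom : ∀ ξ (t : ℝ), 0 ≤ t → r (t • ξ) = t * r ξ
  low : ∃ κ : ℝ, 0 < κ ∧ ∀ ξ, κ * ‖ξ‖ ≤ r ξ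

/-- Parallel secants in `T` have images which are never opposite. -/
def PNO (T : Set E) (P : E → F) : Prop :=
  ∀ x ∈ T, ∀ y ∈ T, ∀ x' ∈ T, ∀ y' ∈ T, x ≠ y → ∀ a : ℝ, 0 < a → x' - y' = a • (x - y) →
    ∀ s s' : ℝ, 0 ≤ s → 0 ≤ s' → 0 < s + s' → s • (P x - P y) + s' • (P x' - P y') ≠ 0

/-- The same for secants related by a homothety with centre `v`. -/
def NO (T : Set E) (v : E) (P : E → F) : Prop :=
  ∀ ξ η : E, ξ ≠ η → ∀ a a' : ℝ, 0 < a → 0 < a' → v + a • ξ ∈ T → v + a • η ∈ T →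
    v + a' • ξ ∈ T → v + a' • η ∈ T → ∀ s s' : ℝ, 0 ≤ s → 0 ≤ s' → 0 < s + s' →
      s • (P (v + a • ξ) - P (v + a • η)) + s' • (P (v + a' • ξ) - P (v + a' • η)) ≠ 0

/-- Local hypothesis of the cone lemma. -/
def Good (Z : Set E) (v : E) (P : E → F) (z : E) : Prop :=
  (∃ N ∈ 𝓝 z, NO (Z ∩ N) v P) ∧ (z ∈ Z → ∀ᶠ t in 𝓝 (1 : ℝ), v + t • (z - v) ∈ Z)

open Classical in
/-- The map `P` above the level `u`, the cone with apex `P v` below. -/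
def coff (v : E) (r : E → ℝ) (P : E → F) (u : ℝ) (x : E) : F :=
  if r (x - v) - u ≤ 0 then
    P v + (r (x - v) / u) • (P (v + (u / r (x - v)) • (x - v)) - P v)
  else P x

/-- Zero set of an affine functional. -/
def zs (f : (E →L[ℝ] ℝ) × ℝ) : Set E := {x | f.1 x + f.2 = 0}

/-- At most one hyperplane of the family passes through `z`. -/
def OneH (A : AffineSubspace ℝ E) (𝓕 : Set ((E →L[ℝ] ℝ) × ℝ)) (z : E) : Prop :=
  ∀ f ∈ 𝓕, ∀ f' ∈ 𝓕, z ∈ zs f → z ∈ zs f' → ∀ x ∈ A, x ∈ zs f → x ∈ zs f'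

/-- The slid map. -/
def slid (P : E → F) (χ χ' : E → ℝ) (a a' : F) (x : E) : F := P x + χ x • a + χ' x • a'

end

end BEp
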