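import Pool.Agent.Work.MP_f0515e_an.Pos.PLSm

/-!
EXPORT (PL). General position.

Plan.  Lemma: if `π : G' → G''` maps `T` into an `Sm d` set and `‖t - t'‖ ≤ K ‖π t - π t'‖` on `T`, then
`T` is `Sm d` (`invFunOn π T` is Lipschitz on `π '' T`).
`gp2`: let `P'` be the set of `p ∈ P` with `Λ p` onto.  For `p₀ ∈ P'` take a continuous linear right
inverse `σ` of `Λ p₀`, `K = ker (Λ p₀)`, `q b = b - σ (Λ p₀ b) ∈ K`, and a relative neighbourhood `N` of `p₀`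
on which `Φ, Λ` are Lipschitz and `‖Λ p - Λ p₀‖ ‖σ‖ ≤ 1 / 2`.  On
`T = {(p, b) | p ∈ N, ‖b‖ ≤ R, Φ p + Λ p b = 0}` the projection `(p, b) ↦ (p, q b)` satisfies the lemma, so
`T` is `Sm (d + finrank K)`, and `finrank K + finrank F = finrank G`.  Countable cover of `P'`, `Sm.thin`,
`Thin.iUnion`.  `gp1`, `gp` follow with `Λ p = lam p • id`, `Λ p = ∑ j, lam j p • proj j`.
-/

open Set Metric Filter Topology Function BEv
open scoped NNReal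

noncomputable section
namespace BEp

variable {E F G : Type} [NormedAddCommGroup E] [NormedSpace ℝ E] [FiniteDimensional ℝ E]
  [NormedAddCommGroup F] [NormedSpace ℝ F] [FiniteDimensional ℝ F]
  [NormedAddCommGroup G] [NormedSpace ℝ G] [FiniteDimensional ℝ G]

theorem plgp_inv {d : ℕ} {T : Set E} {S : Set F} (hS : Sm d S) {π : E → F} (h1 : MapsTo π T S)
    {K : ℝ} (h2 : ∀ t ∈ T, ∀ t' ∈ T, ‖t - t'‖ ≤ K * ‖π t - π t'‖) : Sm d T := by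
  have hi : InjOn π T := fun t ht t' ht' e => by
    have := h2 t ht t' ht'
    rwa [e, sub_self, norm_zero, mul_zero, norm_le_zero_iff, sub_eq_zero] at this
  have hl : LipschitzOnWith K.toNNReal (invFunOn π T) (π '' T) := by
    refine LipschitzOnWith.of_dist_le' ?_
    rintro _ ⟨t, ht, rfl⟩ _ ⟨t', ht', rfl⟩
    rw [hi.leftInvOn_invFunOn ht, hi.leftInvOn_invFunOn ht', dist_eq_norm, dist_eq_norm]
    exact h2 t ht t' ht'
  refine ((hS.mono h1.image_subset).image (φ := invFunOn π T)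
    fun x _ => ⟨_, _, self_mem_nhdsWithin, hl⟩).mono fun t ht => ?_
  exact ⟨π t, mem_image_of_mem π ht, hi.leftInvOn_invFunOn ht⟩

theorem plgp_loc {d : ℕ} {N : Set E} (hN : Sm d N) {Φ : E → F} {Λ : E → G →L[ℝ] F} {K1 K2 : ℝ≥0}
    (hΦ : LipschitzOnWith K1 Φ N) (hΛ : LipschitzOnWith K2 Λ N) {Λ₀ : G →L[ℝ] F} {σ : F →L[ℝ] G}
    (hσ : ∀ y, Λ₀ (σ y) = y) (h : ∀ p ∈ N, ‖σ‖ * ‖Λ₀ - Λ p‖ ≤ 1 / 2)
    (hd : d < Module.finrank ℝ F) : Thin {b : G | ∃ p ∈ N, Φ p + Λ p b = 0} := by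
  have h1 := LinearMap.finrank_range_add_finrank_ker (Λ₀ : G →ₗ[ℝ] F)
  rw [LinearMap.range_eq_top.2 fun y => ⟨σ y, hσ y⟩, finrank_top] at h1
  set K := LinearMap.ker (Λ₀ : G →ₗ[ℝ] F) with hK
  have h2 : Sm (Module.finrank ℝ K) (K.subtypeL '' univ) :=
    Sm.univ.image K.subtypeL.lipschitz.locallyLipschitz.locallyLipschitzOn
  have h3 : ∀ R : ℕ, Sm (d + Module.finrank ℝ K)
      {t : E × G | t.1 ∈ N ∧ ‖t.2‖ ≤ R ∧ Φ t.1 + Λ t.1 t.2 = 0} := by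
    intro R
    refine plgp_inv (hN.prod h2) (π := fun t => (t.1, t.2 - σ (Λ₀ t.2)))
      (fun t ht => ⟨ht.1, ⟨t.2 - σ (Λ₀ t.2), ?_⟩, mem_univ _, rfl⟩)
      (K := 2 + 2 * (‖σ‖ * (K1 + K2 * R))) ?_
    · change Λ₀ _ = 0
      rw [map_sub, hσ, sub_self]
    rintro ⟨p, b⟩ ⟨a1, a2, a3⟩ ⟨p', b'⟩ ⟨b1, b2, b3⟩
    dsimp only at a1 a2 a3 b1 b2 b3 ⊢
    set m := ‖(p, b - σ (Λ₀ b)) - (p', b' - σ (Λ₀ b'))‖ with hm
    have m0 : 0 ≤ m := norm_nonneg _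
    have m1 : ‖p - p'‖ ≤ m := norm_fst_le ((p, b - σ (Λ₀ b)) - (p', b' - σ (Λ₀ b')))
    have m2 : ‖b - σ (Λ₀ b) - (b' - σ (Λ₀ b'))‖ ≤ m :=
      norm_snd_le ((p, b - σ (Λ₀ b)) - (p', b' - σ (Λ₀ b')))
    have e : b - b' = b - σ (Λ₀ b) - (b' - σ (Λ₀ b')) + σ ((Λ₀ - Λ p) (b - b')) +
        σ (Φ p' - Φ p + (Λ p' - Λ p) b') := by
      rw [eq_neg_of_add_eq_zero_left a3, eq_neg_of_add_eq_zero_left b3]
      simp only [sub_apply, map_sub, map_add, map_neg]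
      abel
    have c1 : ‖σ ((Λ₀ - Λ p) (b - b'))‖ ≤ 1 / 2 * ‖b - b'‖ :=
      (σ.le_opNorm _).trans ((mul_le_mul_of_nonneg_left ((Λ₀ - Λ p).le_opNorm _)
        (norm_nonneg _)).trans (by
          rw [← mul_assoc]
          exact mul_le_mul_of_nonneg_right (h p a1) (norm_nonneg _)))
    have c2 : ‖Φ p' - Φ p‖ ≤ K1 * m := by
      rw [norm_sub_rev]
      exact (hΦ.norm_sub_le a1 b1).trans (mul_le_mul_of_nonneg_left m1 K1.2)
    have c3 : ‖(Λ p' - Λ p) b'‖ ≤ K2 * m * R := by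
      refine ((Λ p' - Λ p).le_opNorm _).trans (mul_le_mul ?_ b2 (norm_nonneg _) (by positivity))
      rw [norm_sub_rev]
      exact (hΛ.norm_sub_le a1 b1).trans (mul_le_mul_of_nonneg_left m1 K2.2)
    have c4 : ‖σ (Φ p' - Φ p + (Λ p' - Λ p) b')‖ ≤ ‖σ‖ * (K1 * m + K2 * m * R) :=
      (σ.le_opNorm _).trans (mul_le_mul_of_nonneg_left
        ((norm_add_le _ _).trans (add_le_add c2 c3)) (norm_nonneg _))
    have c5 := (congrArg norm e).trans_le (norm_add₃_le)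
    have c6 : 0 ≤ ‖σ‖ * (K1 + K2 * R) * m := by positivity
    exact norm_prod_le_iff.2 ⟨by change ‖p - p'‖ ≤ _; linarith, by change ‖b - b'‖ ≤ _; linarith⟩
  intro _ _
  refine Thin.mono (Thin.iUnion fun R : ℕ => Sm.thin ((h3 R).image (φ := Prod.snd)
    LipschitzWith.prod_snd.locallyLipschitz.locallyLipschitzOn) (by omega)) ?_
  rintro b ⟨p, hp, e⟩
  obtain ⟨R, hR⟩ := exists_nat_ge ‖b‖
  exact mem_iUnion.2 ⟨R, (p, b), ⟨hp, hR, e⟩, rfl⟩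

theorem plgp_main {d : ℕ} {P : Set E} (hP : Sm d P) {Φ : E → F} (hΦ : LocallyLipschitzOn P Φ)
    {Λ : E → G →L[ℝ] F} (hΛ : LocallyLipschitzOn P Λ) (hd : d < Module.finrank ℝ F) :
    Thin {b : G | ∃ p ∈ P, Surjective (Λ p) ∧ Φ p + Λ p b = 0} := by
  have h1 : ∀ p₀, ∃ N, p₀ ∈ {p ∈ P | Surjective (Λ p)} → N ∈ 𝓝[{p ∈ P | Surjective (Λ p)}] p₀ ∧
      Thin {b : G | ∃ p ∈ N, Φ p + Λ p b = 0} := by
    intro p₀
    by_cases h : p₀ ∈ {p ∈ P | Surjective (Λ p)}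
    swap
    · exact ⟨∅, fun h' => absurd h' h⟩
    obtain ⟨σ, hσ⟩ := (Λ p₀).exists_rightInverse_of_surjective (LinearMap.range_eq_top.2 h.2)
    obtain ⟨K1, N1, a1, a2⟩ := hΦ h.1
    obtain ⟨K2, N2, b1, b2⟩ := hΛ h.1
    have c1 : ContinuousWithinAt (fun p => ‖σ‖ * ‖Λ p₀ - Λ p‖) P p₀ :=
      continuousWithinAt_const.mul (continuousWithinAt_const.sub (hΛ.continuousOn p₀ h.1)).norm
    have c2 : {p | ‖σ‖ * ‖Λ p₀ - Λ p‖ ≤ 1 / 2} ∈ 𝓝[P] p₀ :=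
      c1.eventually (eventually_le_nhds (by simp))
    refine ⟨P ∩ (N1 ∩ (N2 ∩ {p | ‖σ‖ * ‖Λ p₀ - Λ p‖ ≤ 1 / 2})), fun _ =>
      ⟨nhdsWithin_mono _ (sep_subset _ _)
        (inter_mem self_mem_nhdsWithin (inter_mem a1 (inter_mem b1 c2))), ?_⟩⟩
    exact plgp_loc (hP.mono inter_subset_left) (a2.mono fun p hp => hp.2.1)
      (b2.mono fun p hp => hp.2.2.1) (fun y => congrArg (fun f : F →L[ℝ] F => f y) hσ)
      (fun p hp => hp.2.2.2) hd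
  choose N hN using h1
  obtain ⟨t, h2, h3, h4⟩ := TopologicalSpace.countable_cover_nhdsWithin fun p hp => (hN p hp).1
  have := h3.to_subtype
  intro _ _
  refine Thin.mono (Thin.iUnion fun p : t => (hN p (h2 p.2)).2) ?_
  rintro b ⟨p, hp, hs, e⟩
  obtain ⟨q, hq, h5⟩ := mem_iUnion₂.1 (h4 ⟨hp, hs⟩)
  exact mem_iUnion.2 ⟨⟨q, hq⟩, p, h5, e⟩

omit [NormedSpace ℝ E] [FiniteDimensional ℝ E] in
theorem plgp_smul {X : Type} [SeminormedAddCommGroup X] [NormedSpace ℝ X] {P : Set E} {lam : E → ℝ}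
    (hl : LocallyLipschitzOn P lam) (A : X) : LocallyLipschitzOn P fun p => lam p • A := by
  intro x hx
  obtain ⟨K, N, h1, h2⟩ := hl hx
  exact ⟨_, N, h1, (ContinuousLinearMap.toSpanSingleton ℝ A).lipschitz.comp_lipschitzOnWith h2⟩

theorem gp {κ : Type} [Fintype κ] {d : ℕ} {P : Set E} (hP : Sm d P) {Φ : E → F}
    (hΦ : LocallyLipschitzOn P Φ) {lam : κ → E → ℝ} (hl : ∀ j, LocallyLipschitzOn P (lam j))
    (hd : d < Module.finrank ℝ F) :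
    Thin {w : κ → F | ∃ p ∈ P, (∃ j, lam j p ≠ 0) ∧ fam Φ lam w p = 0} := by
  classical
  have h1 : ∀ s : Finset κ, LocallyLipschitzOn P fun p =>
      ∑ j ∈ s, lam j p • (ContinuousLinearMap.proj j : (κ → F) →L[ℝ] F) := by
    intro s
    induction s using Finset.induction_on with
    | empty => exact (LipschitzWith.const _).locallyLipschitz.locallyLipschitzOn
    | insert j s hj ih =>
      simp only [Finset.sum_insert hj]
      exact (plgp_smul (hl j) _).add ih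
  intro _ _
  refine Thin.mono (plgp_main hP hΦ (h1 Finset.univ) hd) ?_
  rintro w ⟨p, hp, ⟨j, hj⟩, e⟩
  refine ⟨p, hp, fun y => ⟨Pi.single j ((lam j p)⁻¹ • y), ?_⟩, by simpa [fam] using e⟩
  rw [ContinuousLinearMap.sum_apply, Finset.sum_eq_single j (fun i _ hi => by simp [hi]) (by simp)]
  simp [hj]

/-- One vector. -/
theorem gp1 {d : ℕ} {P : Set E} (hP : Sm d P) {Φ : E → F}
    (hΦ : LocallyLipschitzOn P Φ) {lam : E → ℝ} (hl : LocallyLipschitzOn P lam)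
    (hd : d < Module.finrank ℝ F) :
    Thin {w : F | ∃ p ∈ P, lam p ≠ 0 ∧ Φ p + lam p • w = 0} := by
  refine Thin.mono (plgp_main hP hΦ (plgp_smul hl (ContinuousLinearMap.id ℝ F)) hd) ?_
  rintro w ⟨p, hp, hj, e⟩
  exact ⟨p, hp, fun y => ⟨(lam p)⁻¹ • y, by simp [hj]⟩, e⟩

theorem gp2 {d : ℕ} {P : Set E} (hP : Sm d P) {Φ : E → F} (hΦ : LocallyLipschitzOn P Φ)
    {Λ : E → G →L[ℝ] F} (hΛ : LocallyLipschitzOn P Λ) (hd : d < Module.finrank ℝ F) :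
    Thin {b : G | ∃ p ∈ P, Surjective (Λ p) ∧ Φ p + Λ p b = 0} :=
  plgp_main hP hΦ hΛ hd

end BEp
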