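import Pool.Agent.Work.MP_f0515e_an.Pos.HDeg2

/-! EXPORT (HOM). Products, intersection numbers in a tube, coordinates adapted to a cell.

PLAN. `deg_prod`: `deg_ind` gives `v, S, M`; `frontier_prod_eq`; the straight line from `u` to `v` in
the second factor (`deg_htp`); zeros `(y0, z)` with linear parts `M1.prodCongr (M z)`; `deg_sum`;
`M1.prodCongr (M z) = (M1.prodCongr M0).trans ((refl).prodCongr N)`, `N = M0.symm.trans (M z)`,
`sg_post`, `sdet_prod`. `deg_tube`: `Adm O1`: a zero `p` on the frontier of `O1` has `(W p).1 ∈ U`; if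
`p ∈ O` then `p ∈ O1`; otherwise `((W p).1, p)` is a frontier point of `U ×ˢ O`. Excise to `U ×ˢ O1`,
use the homotopy `(y - (1 - s) • (W p).1 - s • y0, -(W p).2)` with `y0 ∈ U'` (the subtracted point is in
the convex set `closure U' ⊆ U`), then `deg_prod` with `M1 = refl` and `deg_target_self` for `neg`.
`Cell.coords`: a complement of `range σ.M` (`Submodule.exists_isCompl`,
`Submodule.prodEquivOfIsCompl`, `LinearEquiv.ofInjective`, `LinearEquiv.ofFinrankEq`).
`exists_tube`: `U' = {y | closedBall y δ ⊆ U}` for small `δ` (`IsCompact.exists_cthickening_subset_open`);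
it is convex, open, and its closure is a compact subset of `U`; then the compact set
`closure U' ×ˢ {0}` has a neighbourhood missing `K` (`generalized_tube_lemma`). About 250 lines. -/

open Set Metric Filter Topology Function BEv
open scoped NNReal

noncomputable section
namespace BEp

variable {E F G : Type} [NormedAddCommGroup E] [NormedSpace ℝ E] [FiniteDimensional ℝ E]
  [NormedAddCommGroup F] [NormedSpace ℝ F] [FiniteDimensional ℝ F]
  [NormedAddCommGroup G] [NormedSpace ℝ G] [FiniteDimensional ℝ G]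

theorem hd3_adm {E1 F1 : Type} [NormedAddCommGroup E1] [NormedSpace ℝ E1]
    [NormedAddCommGroup F1] [NormedSpace ℝ F1]
    (M1 : E1 ≃L[ℝ] F1) {U : Set E1} (hU : IsOpen U) {y0 : E1} (hy : y0 ∈ U) {O : Set E}
    {q : E1 × E} (hq : q ∈ frontier (U ×ˢ O)) {w : F} (hw : q.2 ∈ frontier O → w ≠ 0) :
    (M1 (q.1 - y0), w) ≠ 0 := by
  intro h
  obtain ⟨h1, h2⟩ := Prod.mk_eq_zero.1 h
  rw [frontier_prod_eq] at hq
  rcases hq with hq | hq
  · exact hw hq.2 h2
  · have e : q.1 = y0 := sub_eq_zero.1 (M1.map_eq_zero_iff.1 h1)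
    have := hq.1
    rw [hU.frontier_eq, e] at this
    exact this.2 hy

theorem deg_prod {E1 F1 : Type} [NormedAddCommGroup E1] [NormedSpace ℝ E1]
    [FiniteDimensional ℝ E1] [NormedAddCommGroup F1] [NormedSpace ℝ F1] [FiniteDimensional ℝ F1]
    (M1 : E1 ≃L[ℝ] F1) (M0 : E ≃L[ℝ] F) {U : Set E1} (hU : IsOpen U)
    (hUb : Bornology.IsBounded U) {y0 : E1} (hy : y0 ∈ U) {O : Set E} {u : E → F}
    (hu : Adm O u) : Adm (U ×ˢ O) (fun q : E1 × E => (M1 (q.1 - y0), u q.2)) ∧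
      deg (U ×ˢ O) (fun q : E1 × E => (M1 (q.1 - y0), u q.2)) =
        sg (M1.prodCongr M0) * sg M0 * deg O u := by
  classical
  have h : Module.finrank ℝ E = Module.finrank ℝ F := M0.toLinearEquiv.finrank_eq
  have h' : Module.finrank ℝ (E1 × E) = Module.finrank ℝ (F1 × F) :=
    (M1.prodCongr M0).toLinearEquiv.finrank_eq
  obtain ⟨v, S, M, hv, hvu, hf, hd⟩ := deg_ind h hu
  have huc := hu.2.2.1
  have hvc := hv.2.2.1
  obtain ⟨a1, a2, a3⟩ := deg_htp h' (hU.prod hu.1) (hUb.prod hu.2.1)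
    (H := fun p : (E1 × E) × ℝ => (M1 (p.1.1 - y0), (1 - p.2) • u p.1.2 + p.2 • v p.1.2))
    (by fun_prop) (fun q hq s _ => hd3_adm M1 hU hy hq fun hq2 => by
      rw [hvu q.2 (by rw [hu.1.frontier_eq] at hq2; exact hq2.2), ← add_smul, sub_add_cancel,
        one_smul]
      exact hu.2.2.2 _ hq2)
    (u := fun q : E1 × E => (M1 (q.1 - y0), u q.2)) (v := fun q : E1 × E => (M1 (q.1 - y0), v q.2))
    (by fun_prop) (by fun_prop) (fun _ _ => by simp) fun _ _ => by simp
  refine ⟨a1, ?_⟩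
  have hf' : FinZ (U ×ˢ O) (fun q : E1 × E => (M1 (q.1 - y0), v q.2))
      (S.image fun z => (y0, z)) fun q => M1.prodCongr (M q.2) := by
    refine ⟨fun q hq => ?_, fun q hq e => ?_, fun q hq => ?_⟩
    · obtain ⟨z, hz, rfl⟩ := Finset.mem_image.1 (Finset.mem_coe.1 hq)
      exact ⟨hy, hf.1 hz⟩
    · obtain ⟨h1, h2⟩ := Prod.mk_eq_zero.1 e
      exact Finset.mem_image.2 ⟨q.2, hf.2.1 _ hq.2 h2,
        Prod.ext (sub_eq_zero.1 (M1.map_eq_zero_iff.1 h1)).symm rfl⟩
    · obtain ⟨z, hz, rfl⟩ := Finset.mem_image.1 hq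
      have := (continuous_snd (X := E1) (Y := E)).continuousAt (x := (y0, z)) |>.eventually
        (hf.2.2 z hz)
      filter_upwards [this] with q hq
      simp [hq]
  rw [a3, deg_sum h' a2 hf', Finset.sum_image fun _ _ _ _ e => (Prod.ext_iff.1 e).2, hd,
    Finset.mul_sum]
  refine Finset.sum_congr rfl fun z _ => ?_
  have e1 : M1.prodCongr (M z) = (M1.prodCongr M0).trans
      ((ContinuousLinearEquiv.refl ℝ F1).prodCongr (M0.symm.trans (M z))) := by
    ext x <;> simp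
  have e2 : M z = M0.trans (M0.symm.trans (M z)) := by
    ext x
    simp
  have e3 : sdet (ContinuousLinearEquiv.refl ℝ F1) = 1 := sdet_eq_one.2 (by
    simp [ContinuousLinearMap.det])
  have e4 := sg_post M0 (M0.symm.trans (M z))
  rw [← e2] at e4
  simp only
  rw [e1, sg_post, sdet_prod, e3, e4]
  linear_combination (-sdet (M0.symm.trans (M z)) * sg (M1.prodCongr M0)) * sg_mul_self M0

theorem deg_tube (h : Module.finrank ℝ E = Module.finrank ℝ F) :
    ∃ e : ℤ, (e = 1 ∨ e = -1) ∧ ∀ (U U' : Set G) (O O1 : Set E) (W : E → G × F),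
      IsOpen U → Bornology.IsBounded U → Convex ℝ U' → U'.Nonempty → closure U' ⊆ U →
      IsOpen O → IsOpen O1 → O1 ⊆ O → Continuous W →
      Adm (U ×ˢ O) (fun q : G × E => ((q.1, 0) : G × F) - W q.2) →
      (∀ p ∈ O, (W p).1 ∈ U → (W p).2 = 0 → p ∈ O1) → (∀ p ∈ O1, (W p).1 ∈ U') →
      Adm O1 (fun p => (W p).2) ∧
        deg (U ×ˢ O) (fun q : G × E => ((q.1, 0) : G × F) - W q.2) =
          e * deg O1 (fun p => (W p).2) := by
  let M0 : E ≃L[ℝ] F := ContinuousLinearEquiv.ofFinrankEq h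
  have h' : Module.finrank ℝ (G × E) = Module.finrank ℝ (G × F) := by simp [h]
  refine ⟨sg ((ContinuousLinearEquiv.refl ℝ G).prodCongr M0) * sg M0 *
    sdet (ContinuousLinearEquiv.neg ℝ : F ≃L[ℝ] F), ?_, ?_⟩
  · rcases sg_cases ((ContinuousLinearEquiv.refl ℝ G).prodCongr M0) with a | a <;>
      rcases sg_cases M0 with b | b <;>
      rcases sdet_cases (ContinuousLinearEquiv.neg ℝ : F ≃L[ℝ] F) with c | c <;> simp [a, b, c]
  intro U U' O O1 W hU hUb hU' ⟨y0, hy0⟩ hUU hO hO1 hs hW hA h1 h2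
  have hy : y0 ∈ U := hUU (subset_closure hy0)
  have hOb : Bornology.IsBounded O := by
    have := hA.2.1.image_snd
    rwa [snd_image_prod ⟨y0, hy⟩] at this
  have hcl : ∀ p ∈ closure O1, (W p).1 ∈ closure U' := fun p hp =>
    map_mem_closure (f := fun p => (W p).1) (by fun_prop) hp h2
  have a1 : Adm O1 fun p => (W p).2 := by
    refine ⟨hO1, hOb.subset hs, by fun_prop, fun p hp e => ?_⟩
    rw [hO1.frontier_eq] at hp
    have b1 := hUU (hcl p hp.1)
    by_cases b2 : p ∈ O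
    · exact hp.2 (h1 p b2 b1 e)
    · refine hA.2.2.2 ((W p).1, p) ?_ (Prod.ext (by simp) (by simp [e]))
      rw [frontier_prod_eq]
      exact Or.inl ⟨subset_closure b1, by
        rw [hO.frontier_eq]; exact ⟨closure_mono hs hp.1, b2⟩⟩
  refine ⟨a1, ?_⟩
  obtain ⟨-, a2⟩ := deg_excise h' hA (hU.prod hO1) (prod_mono subset_rfl hs) fun q hq e => by
    obtain ⟨e1, e2⟩ := Prod.ext_iff.1 e
    simp only [Prod.fst_sub, Prod.snd_sub, Prod.fst_zero, Prod.snd_zero, sub_eq_zero] at e1 e2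
    exact ⟨hq.1, h1 _ hq.2 (e1 ▸ hq.1) e2.symm⟩
  have a3 : Adm O1 fun p => (ContinuousLinearEquiv.neg ℝ : F ≃L[ℝ] F) (W p).2 :=
    (deg_target_eq _ M0 a1).1
  obtain ⟨-, a4⟩ := deg_prod (ContinuousLinearEquiv.refl ℝ G) M0 hU hUb hy a3
  obtain ⟨-, -, a5⟩ := deg_htp h' (hU.prod hO1) (hUb.prod a1.2.1)
    (H := fun p : (G × E) × ℝ => (p.1.1 - ((1 - p.2) • (W p.1.2).1 + p.2 • y0), -(W p.1.2).2))
    (by fun_prop) (fun q hq s hs' e => by
      obtain ⟨e1, e2⟩ := Prod.mk_eq_zero.1 e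
      rw [frontier_prod_eq] at hq
      rcases hq with hq | hq
      · exact a1.2.2.2 _ hq.2 (neg_eq_zero.1 e2)
      · have b1 := hU'.closure (hcl _ hq.2) (subset_closure hy0) (sub_nonneg.2 hs'.2) hs'.1
          (by ring)
        have b2 := hq.1
        rw [hU.frontier_eq, sub_eq_zero.1 e1] at b2
        exact b2.2 (hUU b1))
    (u := fun q : G × E => ((q.1, 0) : G × F) - W q.2)
    (v := fun q : G × E => ((ContinuousLinearEquiv.refl ℝ G) (q.1 - y0),
      (ContinuousLinearEquiv.neg ℝ : F ≃L[ℝ] F) (W q.2).2))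
    (by fun_prop) (by fun_prop) (fun _ _ => Prod.ext (by simp) (by simp)) fun _ _ => by simp
  rw [a2, a5, a4, deg_target_self h _ a1]
  ring

theorem Cell.coords {c : ℕ} (σ : Cell c F) (h : c + Module.finrank ℝ G = Module.finrank ℝ F) :
    ∃ Λ : F ≃L[ℝ] ((Fin c → ℝ) × G), ∀ y, Λ (σ.M y) = (y, 0) := by
  obtain ⟨q, hq⟩ := Submodule.exists_isCompl (LinearMap.range (σ.M : (Fin c → ℝ) →ₗ[ℝ] F))
  let e1 := LinearEquiv.ofInjective (σ.M : (Fin c → ℝ) →ₗ[ℝ] F) σ.inj
  have h1 := Submodule.finrank_add_eq_of_isCompl hq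
  rw [← e1.finrank_eq, Module.finrank_fin_fun] at h1
  let e2 : q ≃ₗ[ℝ] G := LinearEquiv.ofFinrankEq _ _ (by omega)
  refine ⟨((Submodule.prodEquivOfIsCompl _ _ hq).symm.trans
    (e1.symm.prodCongr e2)).toContinuousLinearEquiv, fun y => ?_⟩
  have e : σ.M y = ((e1 y : LinearMap.range (σ.M : (Fin c → ℝ) →ₗ[ℝ] F)) : F) := rfl
  rw [LinearEquiv.coe_toContinuousLinearEquiv', e, LinearEquiv.trans_apply,
    Submodule.prodEquivOfIsCompl_symm_apply_left]
  simp

theorem exists_tube {U C : Set G} (hU : IsOpen U) (hUb : Bornology.IsBounded U)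
    (hUc : Convex ℝ U) (hC : IsCompact C) (hCU : C ⊆ U) {K : Set (G × F)} (hK : IsClosed K)
    (hKU : ∀ y ∈ U, ((y, 0) : G × F) ∉ K) :
    ∃ (U' : Set G) (r : ℝ), 0 < r ∧ IsOpen U' ∧ Convex ℝ U' ∧ C ⊆ U' ∧ closure U' ⊆ U ∧
      Disjoint (U' ×ˢ ball (0 : F) r) K := by
  have := FiniteDimensional.proper_real G
  obtain ⟨δ, hδ, h1⟩ : ∃ δ > 0, cthickening (δ + δ) C ⊆ U := by
    obtain ⟨δ, hδ, h1⟩ := hC.exists_cthickening_subset_open hU hCU
    exact ⟨δ / 2, by positivity, by rwa [add_halves]⟩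
  have hT : IsClosed {y | ball y δ ⊆ U} := by
    refine isClosed_of_closure_subset fun y hy z hz => ?_
    obtain ⟨y', hy', hd⟩ := Metric.mem_closure_iff.1 hy (δ - dist z y) (sub_pos.2 hz)
    refine hy' ?_
    rw [mem_ball]
    linarith [dist_triangle z y y']
  have hTU : {y | ball y δ ⊆ U} ⊆ U := fun y hy => hy (mem_ball_self hδ)
  have hTc : Convex ℝ {y | ball y δ ⊆ U} := by
    intro x hx y hy a b ha hb hab z hz
    have e : z = a • (x + (z - (a • x + b • y))) + b • (y + (z - (a • x + b • y))) := by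
      rw [smul_add, smul_add, add_add_add_comm, ← add_smul, hab, one_smul, add_sub_cancel]
    rw [e]
    rw [mem_ball, dist_eq_norm] at hz
    exact hUc (hx (by simpa using hz)) (hy (by simpa using hz)) ha hb hab
  obtain ⟨u, v, -, hv, hu1, hv1, huv⟩ := generalized_tube_lemma
    (Metric.isCompact_of_isClosed_isBounded hT (hUb.subset hTU)) (isCompact_singleton (x := (0 : F)))
    hK.isOpen_compl (by
      rintro ⟨y, z⟩ ⟨hy, rfl⟩
      exact hKU y (hTU hy))
  obtain ⟨r, hr, hrv⟩ := Metric.isOpen_iff.1 hv 0 (hv1 rfl)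
  refine ⟨interior {y | ball y δ ⊆ U}, r, hr, isOpen_interior, hTc.interior, fun x hx => ?_,
    (closure_minimal interior_subset hT).trans hTU, disjoint_left.2 fun p hp =>
      huv ⟨hu1 (interior_subset hp.1), hrv hp.2⟩⟩
  refine mem_interior.2 ⟨ball x δ, fun y hy z hz => h1 ?_, isOpen_ball, mem_ball_self hδ⟩
  exact mem_cthickening_of_dist_le z x _ C hx (by
    linarith [dist_triangle z y x, mem_ball.1 hy, mem_ball.1 hz])

end BEp
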