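import Pool.Agent.Work.MP_f0515e_an.Pos.Defs

/-!
EXPORT (HOM). Gluing and homotopy extension: H1 of the plan.
-/

open Set Metric Filter Topology Function BEv
open scoped NNReal

noncomputable section
namespace BEp

variable {E F G : Type} [NormedAddCommGroup E] [NormedSpace ℝ E] [FiniteDimensional ℝ E]
  [NormedAddCommGroup F] [NormedSpace ℝ F] [FiniteDimensional ℝ F]
  [NormedAddCommGroup G] [NormedSpace ℝ G] [FiniteDimensional ℝ G]

theorem glue2 {A B : Set E} (hA : IsClosed A) (hB : IsClosed B) {u v : E → F} (hu : Continuous u)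
    (hv : Continuous v) (h : EqOn u v (A ∩ B)) :
    ∃ g : E → F, Continuous g ∧ EqOn g u A ∧ EqOn g v B := by
  classical
  have : TietzeExtension F := TietzeExtension.of_tvs ℝ
  have e1 : EqOn (A.piecewise u v) u A := fun x hx => piecewise_eq_of_mem _ _ _ hx
  have e2 : EqOn (A.piecewise u v) v B := fun x hx => by
    by_cases hxA : x ∈ A
    · rw [piecewise_eq_of_mem _ _ _ hxA]
      exact h ⟨hxA, hx⟩
    · exact piecewise_eq_of_notMem _ _ _ hxA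
  have hc : ContinuousOn (A.piecewise u v) (A ∪ B) :=
    (hu.continuousOn.congr e1).union_of_isClosed (hv.continuousOn.congr e2) hA hB
  obtain ⟨g, hg⟩ := ContinuousMap.exists_restrict_eq (hA.union hB)
    (⟨(A ∪ B).domRestrict (A.piecewise u v), hc.domRestrict⟩ : C((A ∪ B : Set E), F))
  have key : ∀ x ∈ A ∪ B, g x = A.piecewise u v x := fun x hx =>
    congrArg (fun k : C((A ∪ B : Set E), F) => k ⟨x, hx⟩) hg
  exact ⟨g, g.continuous, fun x hx => (key x (Or.inl hx)).trans (e1 hx),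
    fun x hx => (key x (Or.inr hx)).trans (e2 hx)⟩

/-- Odd gluing: `u` is odd, `A` is invariant, and `B` meets its mirror image only in `A`. -/
theorem glue_odd (i : E →L[ℝ] E) (hi : ∀ x, i (i x) = x) {A B : Set E} (hA : IsClosed A)
    (hB : IsClosed B) (hiA : ∀ x ∈ A, i x ∈ A) (hBB : ∀ x ∈ B, i x ∈ B → x ∈ A) {u v : E → F}
    (hu : Continuous u) (hv : Continuous v) (ho : ∀ x, u (i x) = -u x) (h : EqOn u v (A ∩ B)) :
    ∃ g : E → F, Continuous g ∧ (∀ x, g (i x) = -g x) ∧ EqOn g u A ∧ EqOn g v B := by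
  obtain ⟨g, hg, g1, g2⟩ := glue2 (u := fun _ => (0 : F)) (v := fun x => v x - u x)
    (hA.union (hB.preimage i.continuous)) hB continuous_const (hv.sub hu) (by
      rintro x ⟨hx | hx, hxB⟩
      · simp [h ⟨hx, hxB⟩]
      · simp [h ⟨hBB x hxB hx, hxB⟩])
  refine ⟨fun x => u x + (g x - g (i x)), by fun_prop, fun x => ?_, fun x hx => ?_, fun x hx => ?_⟩
  · simp only [hi, ho]
    abel
  · simp [g1 (Or.inl hx), g1 (Or.inl (hiA x hx))]
  · have : i x ∈ A ∪ i ⁻¹' B := Or.inr (by simpa [hi] using hx)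
    simp [g2 hx, g1 this]

/-- Finitely many closed pieces which meet each other only inside `A`. -/
theorem glue_fin {κ : Type} [Finite κ] {A : Set E} {B : κ → Set E} (hA : IsClosed A)
    (hB : ∀ k, IsClosed (B k)) (hBB : ∀ k l, k ≠ l → B k ∩ B l ⊆ A) {u : E → F} {v : κ → E → F}
    (hu : Continuous u) (hv : ∀ k, Continuous (v k)) (h : ∀ k, EqOn u (v k) (A ∩ B k)) :
    ∃ g : E → F, Continuous g ∧ EqOn g u A ∧ ∀ k, EqOn g (v k) (B k) := by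
  classical
  have := Fintype.ofFinite κ
  have : ∀ k, ∃ g : E → F, Continuous g ∧ EqOn g (fun _ => 0) (A ∪ ⋃ l ∈ ({k}ᶜ : Set κ), B l) ∧
      EqOn g (fun x => v k x - u x) (B k) := fun k =>
    glue2 (hA.union ((toFinite _).isClosed_biUnion fun l _ => hB l)) (hB k) continuous_const
      ((hv k).sub hu) (by
        rintro x ⟨hx | hx, hxB⟩
        · simp [h k ⟨hx, hxB⟩]
        · obtain ⟨l, hl, hxl⟩ := mem_iUnion₂.1 hx
          simp [h k ⟨hBB l k hl ⟨hxl, hxB⟩, hxB⟩])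
  choose g hg g1 g2 using this
  refine ⟨fun x => u x + ∑ k, g k x, hu.add (continuous_finsetSum _ fun k _ => hg k),
    fun x hx => ?_, fun k x hx => ?_⟩
  · simp [fun k => g1 k (Or.inl hx)]
  · show u x + ∑ l, g l x = v k x
    rw [Finset.sum_eq_single k (fun l _ hl => g1 l (Or.inr (mem_iUnion₂.2 ⟨k, hl.symm, hx⟩)))
      (by simp), g2 k hx]
    simp

/-- Homotopy extension, equivariant, static on the closed set `B`. -/
theorem hep_gen {i : E → E} (hic : Continuous i) (hi : ∀ x, i (i x) = x) (j : F →L[ℝ] F)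
    (hj : ∀ y, j (j y) = y) {A B : Set E} (hA : IsClosed A) (hB : IsClosed B)
    (hiA : ∀ x ∈ A, i x ∈ A) (hiB : ∀ x ∈ B, i x ∈ B) {O : Set F} (hO : IsOpen O)
    (hjO : ∀ y ∈ O, j y ∈ O) {u : E → F} (hu : Continuous u) (ho : ∀ x, u (i x) = j (u x))
    {h : E × ℝ → F} (hh : Continuous h)
    (hho : ∀ x ∈ A, ∀ s ∈ Icc (0 : ℝ) 1, h (i x, s) = j (h (x, s)))
    (h0 : ∀ x ∈ A, h (x, 0) = u x) (hhO : ∀ x ∈ A, ∀ s ∈ Icc (0 : ℝ) 1, h (x, s) ∈ O)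
    (hst : ∀ x ∈ A ∩ B, ∀ s ∈ Icc (0 : ℝ) 1, h (x, s) = u x) :
    ∃ H : E × ℝ → F, Continuous H ∧ (∀ x s, H (i x, s) = j (H (x, s))) ∧ (∀ x, H (x, 0) = u x) ∧
      (∀ x ∈ A, ∀ s ∈ Icc (0 : ℝ) 1, H (x, s) = h (x, s)) ∧ (∀ x ∈ B, ∀ s, H (x, s) = u x) ∧
      ∀ x, u x ∈ O → ∀ s ∈ Icc (0 : ℝ) 1, H (x, s) ∈ O := by
  have hcl : ∀ s : ℝ, max 0 (min s 1) ∈ Icc (0 : ℝ) 1 := fun s =>
    ⟨le_max_left _ _, max_le zero_le_one (min_le_right _ _)⟩
  obtain ⟨g, hg, g1, g2⟩ := glue2 (E := E × ℝ) (A := A ×ˢ univ) (B := B ×ˢ univ)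
    (u := fun q => h (q.1, max 0 (min q.2 1)) - u q.1) (v := fun _ => (0 : F))
    (hA.prod isClosed_univ) (hB.prod isClosed_univ) (by fun_prop) continuous_const (by
      rintro ⟨x, s⟩ ⟨hx, hx'⟩
      simp [hst x ⟨hx.1, hx'.1⟩ _ (hcl s)])
  have gA : ∀ x ∈ A, ∀ s, g (x, s) = h (x, max 0 (min s 1)) - u x := fun x hx s =>
    g1 (show (x, s) ∈ A ×ˢ univ from ⟨hx, trivial⟩)
  have gB : ∀ x ∈ B, ∀ s, g (x, s) = 0 := fun x hx s =>
    g2 (show (x, s) ∈ B ×ˢ univ from ⟨hx, trivial⟩)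
  have gA0 : ∀ x ∈ A, g (x, 0) = 0 := fun x hx => by simp [gA x hx, h0 x hx]
  obtain ⟨H0, H0d⟩ : ∃ H0 : E × ℝ → F, H0 = fun q => u q.1 + (1 / 2 : ℝ) •
    ((g q - g (q.1, 0)) + j (g (i q.1, q.2) - g (i q.1, 0))) := ⟨_, rfl⟩
  have c0 : Continuous H0 := by rw [H0d]; fun_prop
  have o0 : ∀ x s, H0 (i x, s) = j (H0 (x, s)) := fun x s => by
    simp only [H0d, hi, ho, map_add, map_smul, hj, map_sub]
    congr 2
    abel
  have z0 : ∀ x, H0 (x, 0) = u x := fun x => by simp [H0d]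
  have a0 : ∀ x ∈ A, ∀ s ∈ Icc (0 : ℝ) 1, H0 (x, s) = h (x, s) := fun x hx s hs => by
    have e : max 0 (min s 1) = s := by rw [min_eq_left hs.2, max_eq_right hs.1]
    simp only [H0d]
    rw [gA0 x hx, gA0 _ (hiA x hx), gA x hx, gA _ (hiA x hx), e, hho x hx s hs, ho]
    simp only [sub_zero, map_sub, hj]
    module
  have b0 : ∀ x ∈ B, ∀ s, H0 (x, s) = u x := fun x hx s => by
    simp [H0d, gB x hx, gB _ (hiB x hx)]
  have hU : IsOpen {x : E | ∀ s ∈ Icc (0 : ℝ) 1, H0 (x, s) ∈ O} := by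
    refine isOpen_iff_mem_nhds.2 fun x hx => ?_
    exact isCompact_Icc.eventually_forall_of_forall_eventually
      (P := fun x s => H0 (x, s) ∈ O) fun s hs => c0.continuousAt.preimage_mem_nhds
        (hO.mem_nhds (hx s hs))
  obtain ⟨τ, t0, t1, t2⟩ := exists_continuous_zero_one_of_isClosed hU.isClosed_compl hA (by
    rw [disjoint_left]
    intro x hx hxA
    exact hx fun s hs => by rw [a0 x hxA s hs]; exact hhO x hxA s hs)
  refine ⟨fun q => H0 (q.1, min (τ q.1) (τ (i q.1)) * q.2), by fun_prop, fun x s => ?_,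
    fun x => by simp [z0], fun x hx s hs => ?_, fun x hx s => b0 x hx _, fun x hx s hs => ?_⟩
  · simp only [hi, o0, min_comm]
  · simp [t1 hx, t1 (hiA x hx), a0 x hx s hs]
  · by_cases hxU : ∀ s ∈ Icc (0 : ℝ) 1, H0 (x, s) ∈ O
    · have h1 : 0 ≤ min (τ x) (τ (i x)) := le_min (t2 _).1 (t2 _).1
      have h2 : min (τ x) (τ (i x)) ≤ 1 := (min_le_left _ _).trans (t2 _).2
      exact hxU _ ⟨mul_nonneg h1 hs.1, mul_le_one₀ h2 hs.1 hs.2⟩
    · have : τ x = 0 := t0 hxU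
      simp only [this, min_eq_left (t2 (i x)).1, zero_mul, z0, hx]

/-- Homotopy extension, static on the closed set `B`. -/
theorem hep_rel {A B : Set E} (hA : IsClosed A) (hB : IsClosed B) {O : Set F} (hO : IsOpen O)
    {u : E → F} (hu : Continuous u) {h : E × ℝ → F} (hh : Continuous h)
    (h0 : ∀ x ∈ A, h (x, 0) = u x) (hhO : ∀ x ∈ A, ∀ s ∈ Icc (0 : ℝ) 1, h (x, s) ∈ O)
    (hst : ∀ x ∈ A ∩ B, ∀ s ∈ Icc (0 : ℝ) 1, h (x, s) = u x) :
    ∃ H : E × ℝ → F, Continuous H ∧ (∀ x, H (x, 0) = u x) ∧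
      (∀ x ∈ A, ∀ s ∈ Icc (0 : ℝ) 1, H (x, s) = h (x, s)) ∧ (∀ x ∈ B, ∀ s, H (x, s) = u x) ∧
      ∀ x, u x ∈ O → ∀ s ∈ Icc (0 : ℝ) 1, H (x, s) ∈ O := by
  obtain ⟨H, h1, -, h2⟩ := hep_gen (i := id) continuous_id (fun _ => rfl)
    (ContinuousLinearMap.id ℝ F) (fun _ => rfl) hA hB (fun _ hx => hx) (fun _ hx => hx) hO
    (fun _ hy => hy) hu (fun _ => rfl) hh (fun _ _ _ _ => rfl) h0 hhO hst
  exact ⟨H, h1, h2⟩

theorem hep {P A : Set E} (hP : IsCompact P) (hA : IsClosed A) (hAP : A ⊆ P) {O : Set F}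
    (hO : IsOpen O) {u : E → F} (hu : Continuous u) (huO : MapsTo u P O) {h : E × ℝ → F}
    (hh : Continuous h) (h0 : ∀ x ∈ A, h (x, 0) = u x)
    (hhO : ∀ x ∈ A, ∀ s ∈ Icc (0 : ℝ) 1, h (x, s) ∈ O) :
    ∃ H : E × ℝ → F, Continuous H ∧ (∀ x ∈ P, H (x, 0) = u x) ∧
      (∀ x ∈ A, ∀ s ∈ Icc (0 : ℝ) 1, H (x, s) = h (x, s)) ∧
      ∀ x ∈ P, ∀ s ∈ Icc (0 : ℝ) 1, H (x, s) ∈ O := by
  obtain ⟨H, h1, h2, h3, -, h4⟩ := hep_rel hA isClosed_empty hO hu hh h0 hhO (by simp)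
  exact ⟨H, h1, fun x _ => h2 x, h3, fun x hx => h4 x (huO hx)⟩

theorem hep_odd (i : E →L[ℝ] E) (hi : ∀ x, i (i x) = x) {P A : Set E} (hP : IsCompact P)
    (hA : IsClosed A) (hAP : A ⊆ P) (hiP : ∀ x ∈ P, i x ∈ P) (hiA : ∀ x ∈ A, i x ∈ A)
    {u : E → F} (hu : Continuous u) (ho : ∀ x ∈ P, u (i x) = -u x) (hu0 : ∀ x ∈ P, u x ≠ 0)
    {h : E × ℝ → F} (hh : Continuous h)
    (hho : ∀ x ∈ A, ∀ s ∈ Icc (0 : ℝ) 1, h (i x, s) = -h (x, s)) (h0 : ∀ x ∈ A, h (x, 0) = u x)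
    (hhO : ∀ x ∈ A, ∀ s ∈ Icc (0 : ℝ) 1, h (x, s) ≠ 0) :
    ∃ H : E × ℝ → F, Continuous H ∧ (∀ x s, H (i x, s) = -H (x, s)) ∧ (∀ x ∈ P, H (x, 0) = u x) ∧
      (∀ x ∈ A, ∀ s ∈ Icc (0 : ℝ) 1, H (x, s) = h (x, s)) ∧
      ∀ x ∈ P, ∀ s ∈ Icc (0 : ℝ) 1, H (x, s) ≠ 0 := by
  have e : ∀ x ∈ P, (1 / 2 : ℝ) • (u x - u (i x)) = u x := fun x hx => by
    rw [ho x hx]
    module
  obtain ⟨H, h1, h2, h3, h4, -, h5⟩ := hep_gen (u := fun x => (1 / 2 : ℝ) • (u x - u (i x)))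
    i.continuous hi (-ContinuousLinearMap.id ℝ F) (by simp) hA isClosed_empty hiA (by simp)
    (isOpen_compl_singleton (x := (0 : F))) (by simp) (by fun_prop)
    (fun x => by simp only [hi]; simp [← smul_neg]) hh (by simpa using hho)
    (fun x hx => by rw [h0 x hx, e x (hAP hx)]) hhO (by simp)
  refine ⟨H, h1, by simpa using h2, fun x hx => by rw [h3, e x hx], h4, fun x hx => h5 x ?_⟩
  rw [e x hx]
  exact hu0 x hx

end BEp
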