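import Pool.Agent.Work.MP_f0515e_an.Pos.PLSm

/-!
EXPORT (PL). Polyhedra, part 2: covers by planes and local homogeneity.

Plan.  `PC.image`: the images `P.map A` of the planes under the affine pieces of `u` on a ball
(`AffineSubspace.map_direction`, `Submodule.finrank_map_le`).
`tp_homog`: near `v` only pieces `A` with `A v = f v` are active (the other sets `{f = A}` are closed and
miss `v`); for such `x` the continuous map `t ↦ t⁻¹ • (f (v + t • (x - v)) - f v)` on `(0, 1]` takes values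
in the finite set of the `A.1 (x - v)`, so it is constant (`IsPreconnected.constant_of_mapsTo`,
or `IsPreconnected.subsingleton` of the image, a finite set is totally disconnected).
`Poly.homog`: `tp_homog` for `infDist · X`.
`tp_ite`: Lipschitz by cutting the segment at a zero of `s` (`intermediate_value_Icc`), `TP.of_select`.
-/

open Set Metric Filter Topology Function BEv
open scoped NNReal

noncomputable section
namespace BEp

variable {n n' : ℕ} {F : Type} [NormedAddCommGroup F] [NormedSpace ℝ F] [FiniteDimensional ℝ F]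

theorem PC.mono {d : ℕ} {X Y : Set F} (h : PC d Y) (hX : X ⊆ Y) : PC d X := by
  obtain ⟨S, h1, h2, h3⟩ := h
  exact ⟨S, h1, h2, fun x hx => h3 x (hX hx)⟩

theorem PC.union {d : ℕ} {X Y : Set F} (hX : PC d X) (hY : PC d Y) : PC d (X ∪ Y) := by
  obtain ⟨S, h1, h2, h3⟩ := hX
  obtain ⟨T, k1, k2, k3⟩ := hY
  refine ⟨S ∪ T, h1.union k1, fun P hP => hP.elim (h2 P) (k2 P), fun x hx => ?_⟩
  rcases hx with hx | hx
  · obtain ⟨P, hP, e⟩ := h3 x hx
    exact ⟨P, Or.inl hP, e⟩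
  · obtain ⟨P, hP, e⟩ := k3 x hx
    exact ⟨P, Or.inr hP, e⟩

theorem PC.biUnion {d : ℕ} {κ : Type} {S : Set κ} (hS : S.Finite) {X : κ → Set F}
    (h : ∀ k ∈ S, PC d (X k)) : PC d (⋃ k ∈ S, X k) := by
  choose! T h1 h2 h3 using h
  refine ⟨⋃ k ∈ S, T k, hS.biUnion h1, fun P hP => ?_, fun x hx => ?_⟩
  · obtain ⟨k, hk, e⟩ := mem_iUnion₂.1 hP
    exact h2 k hk P e
  · obtain ⟨k, hk, e⟩ := mem_iUnion₂.1 hx
    obtain ⟨P, hP, e'⟩ := h3 k hk x e
    exact ⟨P, mem_iUnion₂.2 ⟨k, hk, hP⟩, e'⟩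

theorem PC.image {d : ℕ} {X : Set (Fin n → ℝ)} (h : PC d X) (hb : Bornology.IsBounded X)
    {u : (Fin n → ℝ) → F} (hu : TP u) : PC d (u '' X) := by
  obtain ⟨S, h1, h2, h3⟩ := h
  obtain ⟨R, hR⟩ := hb.subset_closedBall 0
  obtain ⟨T, k1, k2⟩ := hu.pa R
  refine ⟨image2 (fun (P : AffineSubspace ℝ (Fin n → ℝ)) (A : ((Fin n → ℝ) →L[ℝ] F) × F) =>
    P.map (A.1.toLinearMap.toAffineMap + AffineMap.const ℝ _ A.2)) S T, h1.image2 _ k1, ?_, ?_⟩
  · rintro _ ⟨P, hP, A, -, rfl⟩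
    rw [AffineSubspace.map_direction]
    exact (Submodule.finrank_map_le _ _).trans (h2 P hP)
  · rintro _ ⟨x, hx, rfl⟩
    obtain ⟨P, hP, e⟩ := h3 x hx
    obtain ⟨A, hA, e'⟩ := k2 x (hR hx)
    refine ⟨_, ⟨P, hP, A, hA, rfl⟩, x, e, ?_⟩
    rw [e']
    rfl

theorem tp_homog {E : Type} [NormedAddCommGroup E] [NormedSpace ℝ E] {f : E → F} (hf : TP f)
    (v : E) : ∃ ρ > 0, ∀ ξ, ‖ξ‖ ≤ ρ → ∀ t ∈ Icc (0 : ℝ) 1,
      f (v + t • ξ) = f v + t • (f (v + ξ) - f v) := by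
  obtain ⟨S, hS, hp⟩ := hf.pa (‖v‖ + 1)
  have hc := hf.continuous
  have h1 : ∀ᶠ x in 𝓝 v, ∀ A ∈ S, f x = A.1 x + A.2 → f v = A.1 v + A.2 := by
    refine (eventually_all_finite hS).2 fun A _ => ?_
    by_cases e : f v = A.1 v + A.2
    · exact Eventually.of_forall fun _ _ => e
    · have h2 : IsOpen {x | f x ≠ A.1 x + A.2} := isOpen_ne_fun hc (by fun_prop)
      filter_upwards [h2.mem_nhds e] with x hx h3 using absurd h3 hx
  obtain ⟨r, hr, h2⟩ := Metric.nhds_basis_closedBall.eventually_iff.1 h1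
  refine ⟨min r 1, lt_min hr one_pos, fun ξ hξ t ht => ?_⟩
  rcases ht.1.eq_or_lt with h0 | h0
  · simp [← h0]
  have h3 : ContinuousOn (fun t : ℝ => t⁻¹ • (f (v + t • ξ) - f v)) (Ioc 0 1) :=
    (continuousOn_inv₀.mono fun t ht => ht.1.ne').smul (Continuous.continuousOn (by fun_prop))
  have h4 : MapsTo (fun t : ℝ => t⁻¹ • (f (v + t • ξ) - f v)) (Ioc 0 1)
      ((fun A : (E →L[ℝ] F) × F => A.1 ξ) '' S) := by
    intro t ht
    have h5 : ‖t • ξ‖ ≤ min r 1 := by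
      rw [norm_smul, Real.norm_of_nonneg ht.1.le]
      exact (mul_le_of_le_one_left (norm_nonneg _) ht.2).trans hξ
    obtain ⟨A, hA, e⟩ := hp (v + t • ξ) (by
      rw [mem_closedBall_zero_iff]
      exact (norm_add_le _ _).trans (by linarith [min_le_right r 1]))
    have e' := h2 (x := v + t • ξ) (by
      rw [mem_closedBall_iff_norm, add_sub_cancel_left]
      exact h5.trans (min_le_left _ _)) A hA e
    refine ⟨A, hA, ?_⟩
    simp only [e, e', map_add, map_smul]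
    rw [add_sub_add_right_eq_sub, add_sub_cancel_left, inv_smul_smul₀ ht.1.ne']
  have h6 := isPreconnected_Ioc.constant_of_mapsTo (hS.image _).isDiscrete h3 h4 ⟨h0, ht.2⟩
    ⟨one_pos, le_rfl⟩
  simp only [inv_one, one_smul] at h6
  rw [← h6, smul_inv_smul₀ h0.ne', add_sub_cancel]

theorem Poly.homog {X : Set (Fin n → ℝ)} (hX : Poly X) {v : Fin n → ℝ} (hv : v ∈ X) :
    ∃ ρ > 0, ∀ ξ, ‖ξ‖ ≤ ρ → ∀ t ∈ Ioc (0 : ℝ) 1, (v + t • ξ ∈ X ↔ v + ξ ∈ X) := by
  obtain ⟨ρ, hρ, h⟩ := tp_homog hX.2 v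
  refine ⟨ρ, hρ, fun ξ hξ t ht => ?_⟩
  have h1 := h ξ hξ t ⟨ht.1.le, ht.2⟩
  rw [infDist_zero_of_mem hv, zero_add, sub_zero, smul_eq_mul] at h1
  rw [hX.1.isClosed.mem_iff_infDist_zero ⟨v, hv⟩, hX.1.isClosed.mem_iff_infDist_zero ⟨v, hv⟩, h1,
    mul_eq_zero, or_iff_right ht.1.ne']

theorem tp_ite {E : Type} [NormedAddCommGroup E] [NormedSpace ℝ E] {f g : E → F} {s : E → ℝ}
    (hf : TP f) (hg : TP g) (hs : Continuous s) (h : ∀ x, s x = 0 → f x = g x) :
    TP (fun x => if s x ≤ 0 then f x else g x) := by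
  obtain ⟨K, K1, hK⟩ := hf.exists_bound
  obtain ⟨L, L1, hL⟩ := hg.exists_bound
  have key : ∀ x y, s x ≤ 0 → ¬ s y ≤ 0 → ‖f x - g y‖ ≤ (K + L) * ‖x - y‖ := by
    intro x y hx hy
    have h1 : ContinuousOn (fun t : ℝ => s (x + t • (y - x))) (Icc 0 1) :=
      Continuous.continuousOn (by fun_prop)
    obtain ⟨t, ht, e⟩ := intermediate_value_Icc zero_le_one h1 (a := 0)
      (show (0 : ℝ) ∈ _ from ⟨by simpa using hx, by simpa using (not_le.1 hy).le⟩)
    have e1 := h _ e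
    have h2 : ‖x - (x + t • (y - x))‖ ≤ ‖x - y‖ := by
      rw [sub_add_cancel_left, norm_neg, norm_smul, Real.norm_of_nonneg ht.1, norm_sub_rev]
      exact mul_le_of_le_one_left (norm_nonneg _) ht.2
    have h3 : ‖x + t • (y - x) - y‖ ≤ ‖x - y‖ := by
      have e2 : x + t • (y - x) - y = (1 - t) • (x - y) := by module
      rw [e2, norm_smul, Real.norm_of_nonneg (by linarith [ht.2])]
      exact mul_le_of_le_one_left (norm_nonneg _) (by linarith [ht.1])
    have h4 := hK x (x + t • (y - x))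
    have h5 := hL (x + t • (y - x)) y
    have h6 := norm_sub_le_norm_sub_add_norm_sub (f x) (f (x + t • (y - x))) (g y)
    rw [← e1] at h5
    have h7 := mul_le_mul_of_nonneg_left h2 (zero_le_one.trans K1)
    have h8 := mul_le_mul_of_nonneg_left h3 (zero_le_one.trans L1)
    linarith
  refine TP.of_select ⟨⟨K + L, by linarith⟩, LipschitzWith.of_dist_le_mul fun x y => ?_⟩
    fun R => ⟨{f, g}, toFinite _, ?_, fun x _ => ?_⟩
  · rw [dist_eq_norm, dist_eq_norm]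
    change _ ≤ (K + L) * _
    have h0 := norm_nonneg (x - y)
    by_cases hx : s x ≤ 0 <;> by_cases hy : s y ≤ 0
    · rw [if_pos hx, if_pos hy]
      nlinarith [hK x y]
    · rw [if_pos hx, if_neg hy]
      exact key x y hx hy
    · rw [if_neg hx, if_pos hy, norm_sub_rev, norm_sub_rev x]
      exact key y x hy hx
    · rw [if_neg hx, if_neg hy]
      nlinarith [hL x y]
  · rintro _ (rfl | rfl)
    · exact hf
    · exact hg
  · by_cases hx : s x ≤ 0
    · exact ⟨f, Or.inl rfl, if_pos hx⟩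
    · exact ⟨g, Or.inr rfl, if_neg hx⟩

end BEp
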