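import Pool.Agent.Work.MP_f0515e_an.Pos.PLPoly1

/-!
EXPORT (PL). Polyhedra, part 3: Lojasiewicz, extension, gluing.

Plan.  Use `Poly.eq_zero` (function `D₀`) and `pamin_loj`; for a general target `F` compose `u` with a
continuous linear equivalence `F ≃L (Fin (finrank F) → ℝ)` so that the norm is `TP` (`TP.norm_pi`).
`Poly.loj`: `pamin_loj` with `F (x, x') = ‖L (u x)‖`, `D (x, x') = |D x| + D₀ x`.
`Poly.expand`: `F = ‖x - x'‖`, `D = ‖L (u x - u x')‖ + D₀ x + D₀ x'`.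
`Poly.ext`: copy the proof of `BEv.exists_ext` (PAMin) with a target of another dimension, or: `Poly.expand`
gives `|lam x - lam y| ≤ M ‖u x - u y‖` on `X`, and `l' z` is the minimum over `X` of
`lam x + M ‖z - u x‖` (`Poly.exists_min`).
`Poly.glue`: `d' x i = clamp (d x i) (M * D_Y x)` with `M` from `Poly.loj`.
-/

open Set Metric Filter Topology Function BEv
open scoped NNReal

noncomputable section
namespace BEp

variable {n n' : ℕ} {F : Type} [NormedAddCommGroup F] [NormedSpace ℝ F] [FiniteDimensional ℝ F]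

/-- Linear Lojasiewicz inequality. -/
theorem Poly.loj {X : Set (Fin n → ℝ)} (hX : Poly X) {u : (Fin n → ℝ) → F} (hu : TP u)
    {D : (Fin n → ℝ) → ℝ} (hD : TP D) (h : ∀ x ∈ X, D x = 0 → u x = 0) :
    ∃ M : ℝ, 0 ≤ M ∧ ∀ x ∈ X, ‖u x‖ ≤ M * |D x| := by
  obtain ⟨D₀, R, d1, hR, d2, d3, d4⟩ := hX.eq_zero
  let L : F ≃L[ℝ] (Fin (Module.finrank ℝ F) → ℝ) := ContinuousLinearEquiv.ofFinrankEq (by simp)
  have t1 : TP fun p : (Fin n → ℝ) × (Fin n → ℝ) => p.1 := TP.id'.fst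
  obtain ⟨c, hc⟩ := pamin_loj hR
    (F := fun p => ‖L.toContinuousLinearMap (u p.1)‖) (D := fun p => |D p.1| + D₀ p.1)
    ((TP.clm _).comp (hu.comp t1)).norm_pi ((hD.comp t1).abs.add (d1.comp t1))
    (fun p => add_nonneg (abs_nonneg _) (d2 _)) (fun x _ x' _ e => by
      have e1 := abs_nonneg (D x)
      have e2 := d2 x
      have e3 : D₀ x = 0 := by linarith
      have e4 : |D x| = 0 := by linarith
      simp [h x ((d3 x).2 e3) (abs_eq_zero.1 e4)])
  refine ⟨‖L.symm.toContinuousLinearMap‖ * |c|, by positivity, fun x hx => ?_⟩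
  have hb : x ∈ Metric.closedBall (0 : Fin n → ℝ) R := mem_closedBall_zero_iff.2 (d4 x hx)
  have h1 := hc x hb x hb
  simp only [(d3 x).1 hx, add_zero] at h1
  have h2 := L.symm.toContinuousLinearMap.le_opNorm (L.toContinuousLinearMap (u x))
  have h3 : L.symm.toContinuousLinearMap (L.toContinuousLinearMap (u x)) = u x := by simp
  rw [h3] at h2
  rw [mul_assoc]
  refine h2.trans (mul_le_mul_of_nonneg_left (h1.trans ?_) (norm_nonneg _))
  exact mul_le_mul_of_nonneg_right (le_abs_self c) (abs_nonneg _)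

theorem Poly.expand {X : Set (Fin n → ℝ)} (hX : Poly X) {u : (Fin n → ℝ) → F} (hu : TP u)
    (hi : InjOn u X) : ∃ c : ℝ, 0 < c ∧ ∀ x ∈ X, ∀ y ∈ X, c * ‖x - y‖ ≤ ‖u x - u y‖ := by
  obtain ⟨D₀, R, d1, hR, d2, d3, d4⟩ := hX.eq_zero
  let L : F ≃L[ℝ] (Fin (Module.finrank ℝ F) → ℝ) := ContinuousLinearEquiv.ofFinrankEq (by simp)
  have t1 : TP fun p : (Fin n → ℝ) × (Fin n → ℝ) => p.1 := TP.id'.fst
  have t2 : TP fun p : (Fin n → ℝ) × (Fin n → ℝ) => p.2 := TP.id'.snd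
  obtain ⟨c, hc⟩ := pamin_loj hR (F := fun p => ‖p.1 - p.2‖)
    (D := fun p => ‖L.toContinuousLinearMap (u p.1 - u p.2)‖ + D₀ p.1 + D₀ p.2)
    (t1.sub t2).norm_pi
    ((((TP.clm _).comp ((hu.comp t1).sub (hu.comp t2))).norm_pi.add (d1.comp t1)).add (d1.comp t2))
    (fun p => add_nonneg (add_nonneg (norm_nonneg _) (d2 _)) (d2 _)) (fun x _ x' _ e => by
      have e1 := norm_nonneg (L.toContinuousLinearMap (u x - u x'))
      have e2 := d2 x
      have e2' := d2 x'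
      have e3 : D₀ x = 0 := by linarith
      have e3' : D₀ x' = 0 := by linarith
      have e4 : ‖L.toContinuousLinearMap (u x - u x')‖ = 0 := by linarith
      have e5 : u x - u x' = 0 := L.injective (by simpa using e4)
      simp [hi ((d3 x).2 e3) ((d3 x').2 e3') (sub_eq_zero.1 e5)])
  have hp : 0 < |c| * ‖L.toContinuousLinearMap‖ + 1 := by positivity
  refine ⟨(|c| * ‖L.toContinuousLinearMap‖ + 1)⁻¹, inv_pos.2 hp, fun x hx y hy => ?_⟩
  have h1 := hc x (mem_closedBall_zero_iff.2 (d4 x hx)) y (mem_closedBall_zero_iff.2 (d4 y hy))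
  simp only [(d3 x).1 hx, (d3 y).1 hy, add_zero] at h1
  have h2 := mul_le_mul_of_nonneg_left (L.toContinuousLinearMap.le_opNorm (u x - u y)) (abs_nonneg c)
  have h3 := mul_le_mul_of_nonneg_right (le_abs_self c) (norm_nonneg (L.toContinuousLinearMap (u x - u y)))
  have h4 := norm_nonneg (u x - u y)
  rw [inv_mul_le_iff₀ hp]
  linarith

theorem Poly.ext {X : Set (Fin n → ℝ)} (hX : Poly X) {u : (Fin n → ℝ) → Fin n' → ℝ} (hu : TP u)
    (hi : InjOn u X) {lam : (Fin n → ℝ) → ℝ} (hl : TP lam) :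
    ∃ l' : (Fin n' → ℝ) → ℝ, TP l' ∧ ∀ x ∈ X, l' (u x) = lam x := by
  rcases X.eq_empty_or_nonempty with rfl | hne
  · exact ⟨fun _ => 0, TP.const _, fun _ hx => absurd hx (notMem_empty _)⟩
  obtain ⟨c, c0, hc⟩ := hX.expand hu hi
  obtain ⟨K, K1, hK⟩ := hl.exists_bound
  have t1 : TP fun p : (Fin n' → ℝ) × (Fin n → ℝ) => p.1 := TP.id'.fst
  have t2 : TP fun p : (Fin n' → ℝ) × (Fin n → ℝ) => p.2 := TP.id'.snd
  obtain ⟨ψ, h1, h2⟩ := hX.exists_min hne (Φ := fun p => lam p.2 + K / c * ‖p.1 - u p.2‖)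
    ((hl.comp t2).add ((t1.sub (hu.comp t2)).norm_pi.const_mul _))
  refine ⟨ψ, h1, fun x hx => le_antisymm (by simpa using (h2 (u x)).1 x hx) ?_⟩
  obtain ⟨y, hy, e⟩ := (h2 (u x)).2
  rw [e]
  have h3 := mul_le_mul_of_nonneg_left (hc x hx y hy) (div_nonneg (zero_le_one.trans K1) c0.le)
  rw [← mul_assoc, div_mul_cancel₀ _ c0.ne'] at h3
  have h4 := (le_abs_self _).trans (hK x y)
  simp only
  linarith

theorem Poly.glue {X Y : Set (Fin n → ℝ)} (hX : Poly X) (hY : Poly Y)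
    {d : (Fin n → ℝ) → Fin n' → ℝ} (hd : TP d) (h : ∀ x ∈ X ∩ Y, d x = 0) :
    ∃ d' : (Fin n → ℝ) → Fin n' → ℝ, TP d' ∧ EqOn d' d X ∧ ∀ y ∈ Y, d' y = 0 := by
  obtain ⟨D, R, d1, -, d2, d3, -⟩ := hY.eq_zero
  obtain ⟨M, -, hM⟩ := hX.loj hd d1 fun x hx e => h x ⟨hx, (d3 x).2 e⟩
  refine ⟨fun x i => clamp (d x i) (M * D x), TP.pi fun i => (hd.apply i).clamp (d1.const_mul M),
    fun x hx => funext fun i => clamp_eq_self ?_, fun y hy => funext fun i => ?_⟩
  · have h1 := hM x hx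
    rw [abs_of_nonneg (d2 x)] at h1
    exact (norm_le_pi_norm (d x) i).trans h1
  · simp only [(d3 y).1 hy, mul_zero, clamp_zero, Pi.zero_apply]

end BEp
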