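import Pool.Agent.Work.MP_f0515e_an.Pos.PLGP
import Pool.Agent.Work.MP_f0515e_an.Pos.PLPoly

/-! EXPORT (PL). Approximation by piecewise affine embeddings: PL3 of the plan.

Plan.
`exists_sep`: if `St = ∅` take `0` and the coordinates. Else `χ = infDist · St` (`hSt.2`),
`lam none = χ`, `lam (some j) x = clamp (x j) (R / η * χ x)` with `‖x‖ ≤ R` on `X`.
`tp_approx`: scalar case first: `|u x - u y| ≤ ε / 8 + L * ‖x - y‖` on `X` (uniform continuity
and a bound), `g0 x` the minimum over a finite fine net of `u p + L * ‖x - p‖` (`TP.cmin`,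
`TP.norm_pi`), `|g0 - u| ≤ ε / 4`; then `g0 - clamp g0 (ε / 2)` in each coordinate (`TP.pi`).
`exists_pert`: replace `lam j` by `clamp (lam j) B` (`B` a bound on `X`); `δ = ∑ lam j • w j` with
`w` small outside the thin set of `gp` for `P = X ×ˢ X` (`PC.sm`, `Sm.prod`), `Φ p = g p.1 - g p.2`,
`lam j p.1 - lam j p.2` (`Thin.exists_near`).
`tpify`: `tp_approx` for `u - a`; it vanishes on `{infDist · St < η}` for small `η` (uniform
continuity of `u - a` on `X`); then `exists_pert`. -/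

open Set Metric Filter Topology Function BEv
open scoped NNReal

noncomputable section
namespace BEp

variable {n n' m : ℕ}

/-- Separating map: vanishes on `St`, and identifies two points only close to `St`. -/
theorem exists_sep {X St : Set (Fin n → ℝ)} (hX : Poly X) (hSt : Poly St) {η : ℝ} (hη : 0 < η) :
    ∃ lam : Option (Fin n) → (Fin n → ℝ) → ℝ, (∀ j, TP (lam j)) ∧ (∀ x ∈ St, ∀ j, lam j x = 0) ∧
      ∀ x ∈ X, ∀ y ∈ X, (∀ j, lam j x = lam j y) → x = y ∨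
        (St.Nonempty ∧ infDist x St < η ∧ infDist y St < η) := by
  rcases St.eq_empty_or_nonempty with rfl | hne
  · refine ⟨fun o x => o.elim 0 fun j => x j, fun o => ?_, fun x hx => hx.elim,
      fun x _ y _ h => Or.inl (funext fun j => h (some j))⟩
    cases o with
    | none => exact TP.const _
    | some j => exact TP.id'.apply j
  obtain ⟨R, hR⟩ := hX.1.isBounded.exists_norm_le
  refine ⟨fun o x => o.elim (infDist x St) fun j => clamp (x j) (R / η * infDist x St),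
    fun o => ?_, fun x hx o => ?_, fun x hx y hy h => ?_⟩
  · cases o with
    | none => exact hSt.2
    | some j => exact (TP.id'.apply j).clamp (hSt.2.const_mul _)
  · cases o with
    | none => exact infDist_zero_of_mem hx
    | some j => simp [infDist_zero_of_mem hx, clamp_zero]
  · have h0 : infDist x St = infDist y St := h none
    rcases lt_or_ge (infDist x St) η with h1 | h1
    · exact Or.inr ⟨hne, h1, h0 ▸ h1⟩
    refine Or.inl (funext fun j => ?_)
    have h2 : clamp (x j) (R / η * infDist x St) = clamp (y j) (R / η * infDist y St) := h (some j)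
    have hR0 : 0 ≤ R := (norm_nonneg x).trans (hR x hx)
    have h3 : R ≤ R / η * infDist x St := by
      have := mul_le_mul_of_nonneg_left h1 (div_nonneg hR0 hη.le)
      rwa [div_mul_cancel₀ _ hη.ne'] at this
    rwa [← h0, clamp_eq_self (((norm_le_pi_norm x j).trans (hR x hx)).trans h3),
      clamp_eq_self (((norm_le_pi_norm y j).trans (hR y hy)).trans h3)] at h2

theorem pltp_scalar {X : Set (Fin n → ℝ)} (hX : IsCompact X) {u : (Fin n → ℝ) → ℝ}
    (hu : Continuous u) {ε : ℝ} (hε : 0 < ε) :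
    ∃ g : (Fin n → ℝ) → ℝ, TP g ∧ ∀ x ∈ X, |g x - u x| ≤ ε := by
  obtain ⟨δ, hδ, hδ'⟩ := Metric.uniformContinuousOn_iff.1
    (hX.uniformContinuousOn_of_continuous hu.continuousOn) (ε / 2) (half_pos hε)
  obtain ⟨B0, hB0⟩ := hX.exists_bound_of_continuousOn hu.continuousOn
  obtain ⟨B, hB, hB'⟩ : ∃ B : ℝ, 0 ≤ B ∧ ∀ x ∈ X, |u x| ≤ B :=
    ⟨max B0 0, le_max_right _ _, fun x hx => (hB0 x hx).trans (le_max_left _ _)⟩
  obtain ⟨L, hL, hL'⟩ : ∃ L : ℝ, 0 ≤ L ∧ L * δ = 2 * B :=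
    ⟨2 * B / δ, by positivity, div_mul_cancel₀ _ hδ.ne'⟩
  obtain ⟨T, hTX, hT, hc⟩ := finite_cover_balls_of_compact hX
    (show 0 < min δ (ε / 2 / (L + 1)) by positivity)
  refine ⟨fun x => cmin hT.toFinset B fun p => u p + L * ‖x - p‖,
    TP.cmin _ (TP.const _) fun p _ => (TP.const _).add
      ((TP.id'.sub (TP.const p)).norm_pi.const_mul L), fun x hx => abs_le.2 ⟨?_, ?_⟩⟩
  · have h1 := abs_le.1 (hB' x hx)
    have : u x - ε ≤ cmin hT.toFinset B fun p => u p + L * ‖x - p‖ := by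
      refine le_cmin _ _ _ (by linarith [h1.2]) fun p hp => ?_
      have hp' := hTX (hT.mem_toFinset.1 hp)
      rcases lt_or_ge (dist x p) δ with h | h
      · have h2 := hδ' x hx p hp' h
        rw [Real.dist_eq, abs_lt] at h2
        linarith [h2.2, mul_nonneg hL (norm_nonneg (x - p))]
      · rw [dist_eq_norm] at h
        linarith [mul_le_mul_of_nonneg_left h hL, h1.2, (abs_le.1 (hB' p hp')).1]
    linarith
  · obtain ⟨p, hp, hxp⟩ := mem_iUnion₂.1 (hc hx)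
    rw [mem_ball, lt_min_iff] at hxp
    have h1 := cmin_le hT.toFinset B (fun p => u p + L * ‖x - p‖) (hT.mem_toFinset.2 hp)
    have h2 := hδ' x hx p (hTX hp) hxp.1
    have h3 := hxp.2
    rw [Real.dist_eq, abs_lt] at h2
    rw [dist_eq_norm, lt_div_iff₀ (by positivity)] at h3
    nlinarith [h2.1, norm_nonneg (x - p)]

theorem pltp_soft {c v ε : ℝ} (hε : 0 ≤ ε) (h : |c - v| ≤ ε / 4) :
    |c - clamp c (ε / 2)| ≤ |v| := by
  rw [abs_le] at h ⊢
  have h1 := le_abs_self v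
  have h2 := neg_abs_le v
  have h3 := abs_nonneg v
  simp only [clamp, max_def, min_def]
  split_ifs <;> constructor <;> linarith [h.1, h.2]

theorem tp_approx {X : Set (Fin n → ℝ)} (hX : IsCompact X) {u : (Fin n → ℝ) → Fin n' → ℝ}
    (hu : Continuous u) {ε : ℝ} (hε : 0 < ε) :
    ∃ g : (Fin n → ℝ) → Fin n' → ℝ, TP g ∧ ∀ x ∈ X, (‖g x‖ ≤ ‖u x‖ ∧ ‖g x - u x‖ ≤ ε) ∧
      (‖u x‖ ≤ ε / 4 → g x = 0) := by
  choose g hg hg' using fun i => pltp_scalar hX ((continuous_apply i).comp hu)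
    (show 0 < ε / 4 by positivity)
  refine ⟨fun x i => g i x - clamp (g i x) (ε / 2),
    TP.pi fun i => (hg i).sub ((hg i).clamp (TP.const _)), fun x hx => ⟨⟨?_, ?_⟩, fun h => ?_⟩⟩
  · refine (pi_norm_le_iff_of_nonneg (norm_nonneg _)).2 fun i => ?_
    exact (pltp_soft hε.le (hg' i x hx)).trans (norm_le_pi_norm (u x) i)
  · refine (pi_norm_le_iff_of_nonneg hε.le).2 fun i => ?_
    have h1 : |g i x - u x i| ≤ ε / 4 := hg' i x hx
    have h2 := abs_clamp_le (c := g i x) (show 0 ≤ ε / 2 by positivity)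
    rw [abs_le] at h1 h2
    rw [Real.norm_eq_abs, abs_le, Pi.sub_apply]
    constructor <;> linarith [h1.1, h1.2, h2.1, h2.2]
  · funext i
    have h1 : |g i x - u x i| ≤ ε / 4 := hg' i x hx
    have h2 : |u x i| ≤ ε / 4 := (norm_le_pi_norm (u x) i).trans h
    rw [abs_le] at h1 h2
    exact sub_eq_zero.2
      (clamp_eq_self (abs_le.2 ⟨by linarith [h1.1, h2.1], by linarith [h1.2, h2.2]⟩)).symm

theorem pltp_ll {E F : Type} [NormedAddCommGroup E] [NormedSpace ℝ E] [NormedAddCommGroup F]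
    [NormedSpace ℝ F] {f : E → F} (hf : TP f) (P : Set E) : LocallyLipschitzOn P f := by
  obtain ⟨L, hL⟩ := hf.lip
  exact hL.locallyLipschitz.locallyLipschitzOn

theorem pltp_sum {κ F : Type} [Fintype κ] [NormedAddCommGroup F] [NormedSpace ℝ F] (c : κ → ℝ)
    (w : κ → F) : ‖∑ j, c j • w j‖ ≤ Fintype.card κ * ‖c‖ * ‖w‖ := by
  refine (norm_sum_le _ _).trans ?_
  have := Finset.sum_le_card_nsmul Finset.univ (fun j => ‖c j • w j‖) (‖c‖ * ‖w‖) fun j _ => by
    rw [norm_smul]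
    gcongr
    · exact norm_le_pi_norm c j
    · exact norm_le_pi_norm w j
  rwa [nsmul_eq_mul, ← mul_assoc] at this

/-- Small generic perturbation. -/
theorem exists_pert {X St : Set (Fin n → ℝ)} (hX : Poly X) (hm : PC m X) (hn : 2 * m < n')
    (hSt : Poly St) {g : (Fin n → ℝ) → Fin n' → ℝ} (hg : TP g) {η : ℝ} (hη : 0 < η)
    (hi : InjOn g {x ∈ X | St.Nonempty ∧ infDist x St < η}) {θ : ℝ≥0} (hθ : 0 < θ) :
    ∃ δ : (Fin n → ℝ) → Fin n' → ℝ, TP δ ∧ LipschitzWith θ δ ∧ (∀ x, ‖δ x‖ ≤ θ) ∧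
      (∀ x ∈ St, δ x = 0) ∧ InjOn (fun x => g x + δ x) X := by
  obtain ⟨lam, l1, l2, l3⟩ := exists_sep hX hSt hη
  obtain ⟨B0, hB0⟩ := hX.1.exists_bound_of_continuousOn
    (continuous_pi fun j => (l1 j).continuous).continuousOn
  obtain ⟨B, hB, hB'⟩ : ∃ B : ℝ, 0 ≤ B ∧ ∀ x ∈ X, ∀ j, |lam j x| ≤ B :=
    ⟨max B0 0, le_max_right _ _, fun x hx j =>
      ((norm_le_pi_norm (fun j => lam j x) j).trans (hB0 x hx)).trans (le_max_left _ _)⟩
  obtain ⟨Λ, hΛ⟩ : ∃ Λ : (Fin n → ℝ) → Option (Fin n) → ℝ, Λ = fun x j => clamp (lam j x) B :=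
    ⟨_, rfl⟩
  have t0 : TP Λ := TP.pi fun j => by
    rw [hΛ]
    exact (l1 j).clamp (TP.const _)
  have b0 : ∀ x, ‖Λ x‖ ≤ B := fun x => (pi_norm_le_iff_of_nonneg hB).2 fun j => by
    rw [hΛ]
    exact abs_clamp_le hB
  have e0 : ∀ x ∈ X, ∀ j, Λ x j = lam j x := fun x hx j => by
    rw [hΛ]
    exact clamp_eq_self (hB' x hx j)
  obtain ⟨L, hL1, hL⟩ := t0.exists_bound
  have t1 : TP fun p : (Fin n → ℝ) × (Fin n → ℝ) => p.1 := TP.id'.fst
  have t2 : TP fun p : (Fin n → ℝ) × (Fin n → ℝ) => p.2 := TP.id'.snd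
  obtain ⟨N, hN⟩ : ∃ N : ℝ, N = Fintype.card (Option (Fin n)) := ⟨_, rfl⟩
  have hN0 : 0 ≤ N := by
    rw [hN]
    positivity
  have hθ' : (0 : ℝ) < θ := hθ
  obtain ⟨w, hw1, hw⟩ := Thin.exists_near (gp (hm.sm.prod hm.sm)
    (pltp_ll ((hg.comp t1).sub (hg.comp t2)) _)
    (fun j => pltp_ll (((t0.comp t1).apply j).sub ((t0.comp t2).apply j)) _)
    (by rw [Module.finrank_fin_fun]; omega)) 0 (show 0 < θ / (N * (L + B) + 1) by positivity)
  rw [sub_zero, lt_div_iff₀ (by positivity)] at hw1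
  have hw0 := norm_nonneg w
  have hw2 : N * L * ‖w‖ ≤ θ := by nlinarith [mul_nonneg (mul_nonneg hN0 hB) hw0]
  have hw3 : N * B * ‖w‖ ≤ θ := by
    nlinarith [mul_nonneg (mul_nonneg hN0 (zero_le_one.trans hL1)) hw0]
  refine ⟨fun x => ∑ j, Λ x j • w j, TP.sum _ fun j _ => (t0.apply j).smul_const _,
    LipschitzWith.of_dist_le_mul fun x y => ?_, fun x => ?_, fun x hx => ?_,
    fun x hx y hy h => ?_⟩
  · rw [dist_eq_norm, dist_eq_norm, ← Finset.sum_sub_distrib]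
    simp only [← sub_smul]
    refine (pltp_sum (Λ x - Λ y) w).trans ?_
    rw [← hN]
    calc N * ‖Λ x - Λ y‖ * ‖w‖ ≤ N * (L * ‖x - y‖) * ‖w‖ := by gcongr; exact hL x y
      _ = N * L * ‖w‖ * ‖x - y‖ := by ring
      _ ≤ θ * ‖x - y‖ := by gcongr
  · refine (pltp_sum (Λ x) w).trans (le_trans ?_ hw3)
    rw [← hN]
    gcongr
    exact b0 x
  · simp [hΛ, l2 x hx, clamp_eq_self, hB]
  · have h1 : ∀ j, Λ x j = Λ y j := fun j => by_contra fun hj => by
      refine hw ⟨(x, y), ⟨hx, hy⟩, ⟨j, sub_ne_zero.2 hj⟩, ?_⟩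
      rw [← sub_eq_zero.2 h]
      simp only [fam, sub_smul, Finset.sum_sub_distrib]
      abel
    rcases l3 x hx y hy (fun j => by rw [← e0 x hx, ← e0 y hy, h1]) with h2 | ⟨h2, h3, h4⟩
    · exact h2
    · exact hi ⟨hx, h2, h3⟩ ⟨hy, h2, h4⟩ (by simpa [h1] using h)

theorem tpify {X St : Set (Fin n → ℝ)} (hX : Poly X) (hm : PC m X) (hn : 2 * m < n')
    (hSt : Poly St) (hSX : St ⊆ X) {a u : (Fin n → ℝ) → Fin n' → ℝ} (ha : TP a) (hi : InjOn a X)
    (hu : Continuous u) (he : EqOn u a St) {ε : ℝ} (hε : 0 < ε) :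
    ∃ g : (Fin n → ℝ) → Fin n' → ℝ, TP g ∧ InjOn g X ∧ EqOn g a St ∧
      ∀ x ∈ X, ‖g x - u x‖ ≤ ε := by
  have hv : Continuous fun x => u x - a x := hu.sub ha.continuous
  obtain ⟨g, hg, hg'⟩ := tp_approx hX.1 hv (half_pos hε)
  obtain ⟨η, hη, hη'⟩ := Metric.uniformContinuousOn_iff.1
    (hX.1.uniformContinuousOn_of_continuous hv.continuousOn) (ε / 2 / 4) (by positivity)
  have h0 : ∀ x ∈ X, St.Nonempty → infDist x St < η → g x = 0 := by
    intro x hx hne h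
    obtain ⟨y, hy, hxy⟩ := (infDist_lt_iff hne).1 h
    have := hη' x hx y (hSX hy) hxy
    simp only [he hy, sub_self, dist_zero_right] at this
    exact (hg' x hx).2 this.le
  obtain ⟨δ, d1, -, d2, d3, d4⟩ := exists_pert hX hm hn hSt (ha.add hg) hη
    (fun x hx y hy h => hi hx.1 hy.1 (by
      simpa [h0 x hx.1 hx.2.1 hx.2.2, h0 y hy.1 hy.2.1 hy.2.2] using h))
    (θ := ⟨ε / 2, by positivity⟩) (half_pos hε)
  refine ⟨_, (ha.add hg).add d1, d4, fun x hx => ?_, fun x hx => ?_⟩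
  · simp [d3 x hx, h0 x (hSX hx) ⟨x, hx⟩ (by rwa [infDist_zero_of_mem hx])]
  · have h1 : a x + g x + δ x - u x = g x - (u x - a x) + δ x := by abel
    have h2 : ‖δ x‖ ≤ ε / 2 := d2 x
    rw [h1]
    linarith [norm_add_le (g x - (u x - a x)) (δ x), (hg' x hx).1.2]

end BEp
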