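import Pool.Agent.Work.MP_f0515e_an.Pos.Defs
import Pool.Agent.Work.MP_f0515e_an.Stmt
import Pool.Agent.Work.MP_f0515e_an.Sob
import Pool.Agent.Work.MP_f0515e_an.Per1b
import Pool.Agent.Work.MP_f0515e_an.Meas1b

-- merged part: Pool.Agent.Work.MP_f0515e_an.Pos.BDefs
section
/-! Definitions for the analytic part. -/

open Set Metric Filter Topology Function BEv MeasureTheory
open scoped NNReal ENNReal ContDiff

noncomputable section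
namespace BEp

variable {n : ℕ}

/-- Bi-Lipschitz bijection. -/
def BL (w : (Fin n → ℝ) → Fin n → ℝ) : Prop :=
  Bijective w ∧ (∃ L : ℝ≥0, LipschitzWith L w) ∧ ∃ L : ℝ≥0, LipschitzWith L (invFun w)

/-- Global bi-Lipschitz diffeomorphism. -/
def GD (w : (Fin n → ℝ) → Fin n → ℝ) : Prop := BL w ∧ ContDiff ℝ ∞ w ∧ ContDiff ℝ ∞ (invFun w)

/-- `T` is a limit of equi-Lipschitz maps of the class `Kd`, with convergence of derivatives. -/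
def App (Kd : ((Fin n → ℝ) → Fin n → ℝ) → Prop) (T : (Fin n → ℝ) → Fin n → ℝ) : Prop :=
  TP T ∧ ∃ L : ℝ≥0, ∀ R ε : ℝ, 0 < ε → ∃ w, Kd w ∧ LipschitzWith L w ∧
    (∀ x ∈ closedBall (0 : Fin n → ℝ) R, ‖w x - T x‖ ≤ ε) ∧
    ∫⁻ x in closedBall (0 : Fin n → ℝ) R, ‖fderiv ℝ w x - fderiv ℝ T x‖ₑ ≤ ENNReal.ofReal ε

/-- Piecewise affine homeomorphisms which are limits of diffeomorphisms. -/
def WW (w : (Fin n → ℝ) → Fin n → ℝ) : Prop := LH w ∧ App GD w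

/-- Limits of such homeomorphisms. -/
def CC (T : (Fin n → ℝ) → Fin n → ℝ) : Prop := App WW T

/-- Sobolev distance on `Ω`. -/
def sdist (p : ℝ≥0∞) (Ω : Set (Fin n → ℝ)) (g f : (Fin n → ℝ) → Fin n → ℝ)
    (Dg D : (Fin n → ℝ) → (Fin n → ℝ) →L[ℝ] (Fin n → ℝ)) : ℝ≥0∞ :=
  eLpNorm (g - f) p (volume.restrict Ω) + eLpNorm (Dg - D) p (volume.restrict Ω)

/-- Coordinate embedding. -/
def emb (I : Finset (Fin n)) : (I → ℝ) →L[ℝ] (Fin n → ℝ) :=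
  ContinuousLinearMap.pi fun l => if h : l ∈ I then ContinuousLinearMap.proj ⟨l, h⟩ else 0

/-- The maximal function of `φ` along the directions in `I`, with radii at most `ρ0`, is at
most `lam` at `z`. -/
def MaxLe (I : Finset (Fin n)) (φ : (Fin n → ℝ) → ℝ) (ρ0 lam : ℝ) (z : Fin n → ℝ) : Prop :=
  ∀ ρ ∈ Ioc (0 : ℝ) ρ0, ∫ y in closedBall (0 : I → ℝ) ρ, φ (z + emb I y) ≤ lam * (2 * ρ) ^ I.card

end BEp
end
end

-- merged part: Pool.Agent.Work.MP_f0515e_an.Pos.ADefs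
section
/-! Definitions for the analytic part of the positive approximation theorem. -/

open Set Metric Filter Topology Function BEv MeasureTheory
open scoped NNReal ENNReal

noncomputable section
namespace BEp

abbrev Ix (m : ℕ) : Type := Fin (2 * m + 1)

variable {m : ℕ}

/-- Order statistic of the distances to the integers of the coordinates in `I`. -/
def muI (I : Finset (Ix m)) (x : V m) : ℝ :=
  cmin (Finset.powersetCard (m + 1) I) (1 / 2) (fun S => ‖pr S (fun i => dd (x i))‖)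

/-- Distance to the dual skeleton. -/
def beI (I : Finset (Ix m)) (x : V m) : ℝ := muI I (x - hlf)

/-- Retraction of depth `K` onto the points with at most `m` non-integer coordinates in `I`. -/
def RI (I : Finset (Ix m)) (K : ℕ) (x : V m) : V m := fun i =>
  if i ∈ I then 1 / 2 + oext (QQ (fun _ => 1 / 2) (1 / 2) K (beI I x)) (x i - 1 / 2) else x i

/-- The limit retraction. -/
def RL (I : Finset (Ix m)) (x : V m) : V m := RI I ⌈(beI I x)⁻¹⌉₊ x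

open Classical in
def SkI (I : Finset (Ix m)) : Set (V m) := {x | (I.filter (fun l => dd (x l) ≠ 0)).card ≤ m}

/-- Affine chart. -/
def xi (L : V m ≃L[ℝ] V m) (c : V m) (s : ℝ) (ω z : V m) : V m := s⁻¹ • L (z - c) - ω

/-- Conjugation by the chart. -/
def cj (L : V m ≃L[ℝ] V m) (c : V m) (s : ℝ) (ω : V m) (Φ : V m → V m) (z : V m) : V m :=
  c + L.symm (s • (Φ (xi L c s ω z) + ω))

/-- Gluing of maps with disjoint supports. -/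
def gl {κ : Type} [Fintype κ] (φ : κ → V m → V m) (z : V m) : V m := z + ∑ a, (φ a z - z)

/-- Collapse of the inner part of the unit cube onto the slice. -/
def psi (I : Finset (Ix m)) (N : ℕ) : V m → V m := (loc (fun x => max (1 - ‖x‖) 0) (pr I))^[N]

/-- Data attached to a matrix. -/
structure Typ (m : ℕ) where
  A : V m →L[ℝ] V m
  I : Finset (Ix m)
  Sh : V m ≃L[ℝ] V m
  Λ : ℝ
  γ : ℝ
  N : ℕ
  M : ℕ
  σ : ℝ
  th : ℝ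
  u : ℝ

namespace Typ
variable (T : Typ m)

structure Ok : Prop where
  shI : ∀ z l, l ∉ T.I → T.Sh z l = z l
  shF : ∀ z, T.Sh (pr T.I z) = pr T.I z
  ker : ∀ z, T.A (T.Sh.symm z) = T.A (pr T.I z)
  vol : MeasurePreserving T.Sh volume volume
  Λ1 : 1 ≤ T.Λ
  nS : ∀ z, ‖T.Sh z‖ ≤ T.Λ * ‖z‖
  nS' : ∀ z, ‖T.Sh.symm z‖ ≤ T.Λ * ‖z‖
  nA : ‖T.A‖ ≤ T.Λ
  γ0 : 0 < T.γ
  γ1 : T.γ ≤ 1 / 8
  γN : 1 ≤ T.γ * T.N
  M9 : 9 ≤ T.M
  σ0 : 0 < T.σ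
  σ1 : T.σ ≤ 1
  low : ∀ z, T.σ * ‖pr T.I z‖ ≤ ‖T.A (pr T.I z)‖

/-- Packing of the unit cube by sheared cells. -/
def Pack : Prop :=
  ∃ (hr : ℝ) (Fc : Finset (V m)), 0 < hr ∧
    (∀ e ∈ Fc, ∀ z, ‖T.Sh (z - e)‖ ≤ (1 + T.γ) * hr → ‖z‖ < 1) ∧
    (∀ e ∈ Fc, ∀ e' ∈ Fc, e ≠ e' → ∀ z, ‖T.Sh (z - e)‖ ≤ hr → hr < ‖T.Sh (z - e')‖) ∧
    (Fc.card : ℝ) * hr ^ (2 * m + 1) ≤ 1 ∧
    volume {z : V m | ‖z‖ ≤ 1 ∧ ∀ e ∈ Fc, (1 - 3 * T.γ) * hr ≤ ‖T.Sh (z - e)‖} ≤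
      ENNReal.ofReal (T.u * 2 ^ (2 * m + 1))

def aT (p : ℝ) : ℝ≥0∞ := ENNReal.ofReal (96 * T.Λ ^ 4 * 2 ^ T.N) ^ p

def aR (p : ℝ) : ℝ≥0∞ := ENNReal.ofReal (120 * T.Λ ^ 3) ^ p

/-- Fraction lost in the frames of the fine cubes. -/
def fr : ℝ := 11 * (2 * m + 1) * 2 ^ (2 * m + 1) / T.M

structure Small (p r : ℝ) (CW e0 : ℝ≥0∞) : Prop where
  th0 : 0 < T.th
  u0 : 0 ≤ T.u
  t1 : T.aR p * ENNReal.ofReal T.th ^ (p - r) * CW ≤ e0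
  t2 : T.aR p * ENNReal.ofReal T.th ^ p * ENNReal.ofReal T.u ≤ e0
  t3 : T.aR p * ENNReal.ofReal T.th ^ p * ENNReal.ofReal T.fr ≤ e0
  t4 : T.aT p * ENNReal.ofReal (2 * T.σ) ^ p * CW ≤ e0

end Typ

/-- A sheared cell. -/
structure Cel (m : ℕ) extends Typ m where
  c : V m
  h : ℝ

namespace Cel
variable (C : Cel m)

def nr (z : V m) : ℝ := ‖C.Sh (z - C.c)‖

def cell (j : ℝ) : Set (V m) := {z | C.nr z ≤ (1 - j * C.γ) * C.h}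

def opn (j : ℝ) : Set (V m) := {z | C.nr z < (1 - j * C.γ) * C.h}

def ψ : V m → V m := cj C.Sh C.c C.h 0 (psi C.I C.N)

/-- Projection onto the slice. -/
def π (z : V m) : V m := C.c + pr C.I (C.Sh (z - C.c))

/-- Columns over the neighbourhood of `Y`. -/
def Wd (Y : Set (V m)) (ρ : ℝ) : Set (V m) := {z | z ∈ C.cell 0 ∧ ∃ y ∈ Y, ‖y - C.π z‖ ≤ 2 * ρ}

end Cel

/-- A cell with its grid. -/
structure Gr (m : ℕ) extends Cel m where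
  s : ℝ
  ω : V m

namespace Gr
variable (G : Gr m)

structure Ok : Prop extends G.toTyp.Ok where
  h0 : 0 < G.h
  s0 : 0 < G.s
  sh : 64 * G.M * G.s ≤ G.γ * G.h

def ξ : V m → V m := xi G.Sh G.c (16 * G.s) G.ω

def ctr (b : Ix m → ℤ) : V m := fun l => G.M * (b l + 1 / 2)

def cb (b : Ix m → ℤ) : V m := G.c + (16 * G.s) • pr G.I (G.ctr b + G.ω)

def cut (kp : Finset (Ix m → ℤ)) (x : V m) : ℝ :=
  min (max ((1 - G.γ) * G.h / (16 * G.s) - ‖x + G.ω‖) 0)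
    (cmin kp 1 (fun b => max (‖pr G.I (x - G.ctr b)‖ - (G.M / 2 - 21 / 4)) 0))

def rB (kp : Finset (Ix m → ℤ)) (R : V m → V m) : V m → V m :=
  cj G.Sh G.c (16 * G.s) G.ω (loc (G.cut kp) R)

def τ (kp : Finset (Ix m → ℤ)) (R : V m → V m) (z : V m) : V m := G.ψ (G.rB kp R z)

def b2 (z : V m) : ℝ := beI G.I (G.ξ z)

def box (f : V m → V m) (b : Ix m → ℤ) : Box m := ⟨G.cb b, G.I, 8 * G.M - 56, G.A, f (G.cb b)⟩

def ε : ℝ := G.σ * G.s / 1000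

def Zs : Set (V m) := {z | (∀ l, l ∉ G.I → z l = G.c l) ∧ z ∈ G.cell 1 ∧ G.ξ z ∈ SkI G.I}

def ful : Set (Ix m → ℤ) := {b | (∀ l, l ∉ G.I → b l = 0) ∧ G.cb b ∈ G.cell 0}

def sharp (kp : Finset (Ix m → ℤ)) : Set (V m) :=
  {z | z ∈ G.opn 3 ∧
    (G.I.card ≤ m ∨ ∃ b ∈ kp, ‖pr G.I (G.ξ z - G.ctr b)‖ < G.M / 2 - 21 / 4)}

/-- Volume of a column. -/
def col : ℝ≥0∞ :=
  ENNReal.ofReal ((16 * G.M * G.s) ^ G.I.card * (2 * G.h) ^ (2 * m + 1 - G.I.card))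

/-- Positions of the big squares with directions `J`. -/
def pos (J : Finset (Ix m)) : Finset (Ix m → ℤ) :=
  Fintype.piFinset fun l => if l ∈ G.I \ J then Finset.Icc (-(8 * G.M : ℤ)) (8 * G.M) else {0}

def sq (b : Ix m → ℤ) (J : Finset (Ix m)) (v : Ix m → ℤ) (y : J → ℝ) : V m :=
  G.cb b + G.s • (fun l => (v l : ℝ)) + emb J y

/-- Energy of the fine skeleton of a fine cube. -/
def esk (Φ : V m → ℝ≥0∞) (b : Ix m → ℤ) : ℝ≥0∞ :=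
  ∑ J ∈ Finset.powersetCard m G.I, ∑ v ∈ G.pos J,
    ∫⁻ y in closedBall (0 : J → ℝ) (8 * G.M * G.s), Φ (G.sq b J v y)

/-- Properties of the kept fine cubes inside one slice. -/
structure Kept (f : V m → V m) (F kp : Finset (Ix m → ℤ)) : Prop where
  sub : kp ⊆ F
  close : ∀ b ∈ kp, ∀ x ∈ (G.box f b).fine G.s ∩ (G.box f b).Q G.s 56,
    ‖f x - (G.box f b).aff x‖ ≤ G.ε
  nohit : ∀ b ∈ kp, ∀ b' ∈ F, ∀ y ∈ (G.box f b').Sk G.s ∩ (G.box f b').Q G.s 56,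
    y ∉ (G.box f b).Q G.s 16 → ∀ x ∈ (G.box f b).Q G.s 12,
      10 * G.ε < ‖f y - (G.box f b).aff x‖
  sep : ∀ b ∈ kp, ∀ b' ∈ kp, b ≠ b' → ∀ x ∈ (G.box f b).Q G.s 12, ∀ y ∈ (G.box f b').Q G.s 12,
    10 * G.ε < ‖(G.box f b').aff y - (G.box f b).aff x‖

end Gr

/-- The selection property of a type, with constant `Cs`. -/
def Typ.Sel (T : Typ m) (p : ℝ) (Cs : ℝ≥0∞) : Prop :=
  ∀ G : Gr m, G.toTyp = T → G.Ok → m < G.I.card → ∀ F : Finset (Ix m → ℤ),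
    (∀ b, b ∈ F ↔ b ∈ G.ful) → ∀ (o : V m) (η : ℝ), G.cell 0 ⊆ closedBall o η →
    64 * G.M * G.s ≤ η → ∀ u : V m → V m, ContDiff ℝ 1 u →
    ∃ E : V m → ℝ≥0∞, Measurable E ∧
      ∫⁻ t in closedBall (0 : V m) η, E t ≤ Cs * ENNReal.ofReal ((2 * G.h) ^ (2 * m + 1)) *
        ∫⁻ y in closedBall o (9 * η), ‖fderiv ℝ u y - G.A‖ₑ ^ p ∧
      ∀ t ∈ closedBall (0 : V m) η, ∀ f : V m → V m,
        (∀ y ∈ closedBall o (9 * η), ‖u y - f y‖ ≤ G.ε / 8) →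
        ∃ kp, G.Kept (fun x => f (x + t)) F kp ∧ ((F \ kp).card : ℝ≥0∞) * G.col ≤ E t

/-- Cubes, cells and the first mesh. -/
structure Cf0 (m : ℕ) (ι κ : Type) where
  o : ι → V m
  ty : ι → Typ m
  η : ℝ
  q : κ → ι
  c : κ → V m
  h : κ → ℝ
  η1 : ℝ

namespace Cf0
variable {ι κ : Type} [Fintype ι] [Fintype κ] (X : Cf0 m ι κ)

def C (a : κ) : Cel m := ⟨X.ty (X.q a), X.c a, X.h a⟩

def Qc (q : ι) (j : ℝ) : Set (V m) := closedBall (X.o q) (j * X.η)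

open Classical in
structure Ok : Prop where
  ty : ∀ q, (X.ty q).Ok
  η0 : 0 < X.η
  far : ∀ q q', q ≠ q' → 2 * X.η ≤ ‖X.o q - X.o q'‖
  h0 : ∀ a, 0 < X.h a
  ins : ∀ a, (X.C a).cell (-1) ⊆ ball (X.o (X.q a)) X.η
  disj : ∀ a a', a ≠ a' → Disjoint ((X.C a).cell 0) ((X.C a').cell 0)
  η10 : 0 < X.η1
  η1η : X.η1 ≤ X.η
  η1h : ∀ a, 2 * (X.C a).Λ * X.η1 ≤ (X.C a).γ * X.h a
  sum : ∀ q, ∑ a ∈ Finset.univ.filter (fun a => X.q a = q), X.h a ^ (2 * m + 1) ≤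
    X.η ^ (2 * m + 1)
  unc : ∀ q, volume (X.Qc q 1 \ ⋃ a, (X.C a).opn 3) ≤
    ENNReal.ofReal ((X.ty q).u * (2 * X.η) ^ (2 * m + 1))

def cut1 (x : V m) : ℝ :=
  cmin Finset.univ 1 (fun a => max ((X.C a).nr (X.η1 • x) - (1 - 3 * (X.C a).γ) * X.h a) 0 /
    ((X.C a).Λ * X.η1))

def r1 (R : V m → V m) (z : V m) : V m := X.η1 • loc X.cut1 R (X.η1⁻¹ • z)

def b1 (z : V m) : ℝ := beI Finset.univ (X.η1⁻¹ • z)

def Reg : Set (V m) := ⋃ q, X.Qc q 2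

def Z1 : Set (V m) :=
  {z | z ∈ X.Reg ∧ X.η1⁻¹ • z ∈ SkI Finset.univ ∧ ∀ a, z ∉ (X.C a).opn 2}

def Y : Set (V m) := gl (fun a => (X.C a).ψ) '' X.Z1

def gr (s : ℝ) (ω : κ → V m) (a : κ) : Gr m := ⟨X.C a, s, ω a⟩

/-- The weight. -/
def wt (s : ℝ) (ω : κ → V m) (z : V m) : ℝ≥0∞ :=
  (ENNReal.ofReal (X.b1 z))⁻¹ * (1 + ∑ a, indicator ((X.C a).cell 0)
    (fun y => (ENNReal.ofReal ((X.gr s ω a).b2 y))⁻¹) (X.r1 (RL Finset.univ) z))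

end Cf0

/-- The full configuration. -/
structure Cfg (m : ℕ) (ι κ : Type) extends Cf0 m ι κ where
  ρ : ℝ
  s : ℝ
  ω : κ → V m
  K0 : ℕ
  F : κ → Finset (Ix m → ℤ)

namespace Cfg
variable {ι κ : Type} [Fintype ι] [Fintype κ] (X : Cfg m ι κ)

def G (a : κ) : Gr m := X.gr X.s X.ω a

def W : V m → ℝ≥0∞ := X.wt X.s X.ω

structure Ok : Prop extends X.toCf0.Ok where
  ρ0 : 0 < X.ρ
  ρη : X.ρ ≤ X.η
  ρh : ∀ a, (X.C a).Λ * X.ρ ≤ (X.C a).γ * X.h a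
  s0 : 0 < X.s
  sρ : ∀ a, 64 * (X.C a).M * X.s ≤ X.ρ
  hF : ∀ a b, b ∈ X.F a ↔ b ∈ (X.G a).ful
  hK : ∀ a, ∀ z ∈ X.Z1, z ∈ (X.C a).cell 1 → dl X.K0 ≤ (X.G a).b2 z

def T (kp : κ → Finset (Ix m → ℤ)) (R1 : V m → V m) (R2 : Finset (Ix m) → V m → V m)
    (z : V m) : V m :=
  gl (fun a => (X.G a).τ (kp a) (R2 (X.C a).I)) (X.r1 R1 z)

def TK (kp : κ → Finset (Ix m → ℤ)) (K1 K2 : ℕ) : V m → V m :=
  X.T kp (RI Finset.univ K1) (fun I => RI I K2)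

def TL (kp : κ → Finset (Ix m → ℤ)) : V m → V m := X.T kp (RL Finset.univ) RL

/-- The map without the collapse. -/
def RK (kp : κ → Finset (Ix m → ℤ)) (K1 K2 : ℕ) (z : V m) : V m :=
  gl (fun a => (X.G a).rB (kp a) (RI (X.C a).I K2)) (X.r1 (RI Finset.univ K1) z)

def Za : Set (V m) := gl (fun a => (X.G a).τ ∅ (RI (X.C a).I X.K0)) '' X.Z1

def Z : Set (V m) := X.Za ∪ ⋃ a, (X.G a).Zs

def cand (a : κ) : Set (Ix m → ℤ) :=
  {b | b ∈ (X.G a).ful ∧ m < (X.C a).I.card ∧ (X.G a).cb b ∈ (X.C a).cell 2 ∧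
    ∀ y ∈ X.Y, X.ρ < ‖y - (X.G a).cb b‖}

/-- The kept cubes are candidates. -/
def Kp (kp : κ → Finset (Ix m → ℤ)) : Prop := ∀ a, ∀ b ∈ kp a, b ∈ X.cand a

def sharp (kp : κ → Finset (Ix m → ℤ)) : Set (V m) := ⋃ a, (X.G a).sharp (kp a)

/-- Index type of the rigid boxes. -/
def Bx (kp : κ → Finset (Ix m → ℤ)) : Type := {p : κ × (Ix m → ℤ) // p.2 ∈ kp p.1}

instance (kp : κ → Finset (Ix m → ℤ)) : Finite (Bx kp) := by
  have h : {p : κ × (Ix m → ℤ) | p.2 ∈ kp p.1}.Finite := by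
    refine (finite_iUnion fun a : κ => (kp a).finite_toSet.image (Prod.mk a)).subset ?_
    rintro ⟨a, b⟩ h
    exact mem_iUnion.2 ⟨a, b, h, rfl⟩
  exact h.to_subtype

def box (f : V m → V m) (kp : κ → Finset (Ix m → ℤ)) (i : Bx kp) : Box m :=
  (X.G i.1.1).box f i.1.2

/-- Energy of the two reference maps on a cube. -/
def E1 (p : ℝ) (Φ : ι → V m → ℝ≥0∞) (q : ι) : ℝ≥0∞ :=
  ∫⁻ z in X.Qc q 1, (Φ q (X.TL X.F z) + Φ q (X.TL (fun _ => ∅) z)) * X.W z ^ p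

open Classical in
/-- Total energy controlled by the choice of the translation. -/
def Etot (p : ℝ) (Φ : ι → V m → ℝ≥0∞) (kp : κ → Finset (Ix m → ℤ)) : ℝ≥0∞ :=
  ∑ q, (X.ty q).aT p * X.E1 p Φ q +
    ∑ a, (X.C a).aR p * ENNReal.ofReal (X.C a).th ^ p *
      (if m < (X.C a).I.card then ((X.F a \ kp a).card : ℝ≥0∞) * (X.G a).col else 0)

/-- What is used of the homeomorphism given by the topological theorem. -/
structure Gd (kp : κ → Finset (Ix m → ℤ)) (f G gd : V m → V m) (φ : ι → V m → ℝ)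
    (θ ϑ : ℝ) : Prop where
  lipG : ∃ L : ℝ≥0, LipschitzWith L G
  lipg : ∃ L : ℝ≥0, LipschitzWith L gd
  onZ : EqOn G gd X.Z
  onQ : ∀ i : Bx kp, EqOn G (X.box f kp i).aff ((X.box f kp i).Q X.s 4)
  φ0 : ∀ q y, 0 ≤ φ q y
  θ0 : 0 ≤ θ
  ll : ∀ q, ∀ y ∈ X.Qc q 2, (∀ a, y ∈ (X.C a).cell 0 → X.q a = q) →
    LL (fun x => gd x - (X.ty q).A x) y (2 * φ q y + θ + (X.ty q).σ)
  sup : ∀ y, (y ∈ X.Z ∨ ∃ i : Bx kp, y ∈ (X.box f kp i).Q X.s 4) →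
    ∃ y', ‖y' - y‖ ≤ X.η ∧ ‖G y - f y'‖ ≤ ϑ

end Cfg

end BEp
end
end
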