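import Pool.Agent.Work.MP_f0515e_an.Pos.AG1

-- merged part: Pool.Agent.Work.MP_f0515e_an.Pos.ASl0
section
/-! TASK ASl0. Lattice facts for the fine cubes of one slice.
Plan. r = 8 M - 56 (M >= 9), so s (r + 56) = 8 M s is half the side 16 M s of a fine cube. mem_Sk: for l in I, ((x l - cb l) / s - (r + 8)) / 16 = xi x l - M b_l - M + 3 differs from xi x l by an integer (dd is invariant).
exists_col: b l = floor (xi z l / M) on I, 0 off I. card_F: nr (cb b) = 16 s norm (pr I (ctr b + omega)) <= h confines each b l, l in I, to an interval of length 2 h / (16 M s), so at most 4 h / (16 M s) integers.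
mem_sq: extend the set of non-integer coordinates to J inside I of cardinality m (Finset.exists_subsuperset_card_eq), v l = (x l - cb l) / s on I minus J. -/

open Set Metric Filter Topology Function BEv MeasureTheory
open scoped NNReal ENNReal

noncomputable section
namespace BEp

variable {m : ℕ}

namespace Gr
variable {G : Gr m} (f : V m → V m) {b b' : Ix m → ℤ}

theorem ASl0_cb (G : Gr m) (b : Ix m → ℤ) {l : Ix m} (hl : l ∈ G.I) :
    G.cb b l = G.c l + 16 * G.s * (G.M * (b l + 1 / 2) + G.ω l) := by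
  simp [cb, pr, hl, ctr]

theorem ASl0_M (hG : G.Ok) : (9 : ℝ) ≤ G.M := by exact_mod_cast hG.M9

theorem ASl0_dd (t : ℝ) (k : ℤ) : dd (t - k) = 0 ↔ dd t = 0 := by
  rw [BEv.dd_eq_zero_iff, BEv.dd_eq_zero_iff]
  exact ⟨fun ⟨j, h⟩ => ⟨j + k, by push_cast; linarith⟩,
    fun ⟨j, h⟩ => ⟨j - k, by push_cast; linarith⟩⟩

theorem ASl0_emb (J : Finset (Ix m)) (y : J → ℝ) (l : Ix m) :
    emb J y l = if h : l ∈ J then y ⟨l, h⟩ else 0 := by
  simp only [emb, ContinuousLinearMap.pi_apply]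
  split_ifs <;> rfl

theorem ASl0_ne (hb : ∀ l, l ∉ G.I → b l = 0) (hb' : ∀ l, l ∉ G.I → b' l = 0) (h : b ≠ b') :
    ∃ l ∈ G.I, b l ≠ b' l := by
  obtain ⟨l, hl⟩ := Function.ne_iff.1 h
  exact ⟨l, by_contra fun k => hl ((hb l k).trans (hb' l k).symm), hl⟩

theorem box_r (hG : G.Ok) (b : Ix m → ℤ) : ((G.box f b).r : ℝ) = 8 * G.M - 56 := by
  have h := hG.M9
  change ((8 * G.M - 56 : ℕ) : ℝ) = _
  rw [Nat.cast_sub (by omega)]
  push_cast
  rfl

theorem cb_off (G : Gr m) (b : Ix m → ℤ) {l : Ix m} (hl : l ∉ G.I) : G.cb b l = G.c l := by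
  simp [cb, pr, hl]

theorem cb_sub (G : Gr m) (b b' : Ix m → ℤ) {l : Ix m} (hl : l ∈ G.I) :
    G.cb b l - G.cb b' l = 16 * G.M * G.s * (b l - b' l) := by
  rw [G.ASl0_cb b hl, G.ASl0_cb b' hl]
  ring

theorem mem_slice {x : V m} : x ∈ (G.box f b).slice ↔ ∀ l, l ∉ G.I → x l = G.c l := by
  exact forall₂_congr fun l hl => by rw [← G.cb_off b hl]; rfl

theorem mem_Q (hG : G.Ok) {x : V m} {ρ : ℝ} (hρ : 0 ≤ ρ) : x ∈ (G.box f b).Q G.s ρ ↔
    (∀ l, l ∉ G.I → x l = G.c l) ∧ ‖x - G.cb b‖ ≤ G.s * (8 * G.M - 56 + ρ) := by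
  have h1 : 0 ≤ G.s * (8 * G.M - 56 + ρ) := mul_nonneg hG.s0.le (by linarith [ASl0_M hG])
  refine (and_congr_left' (mem_slice f)).trans (and_congr_right fun hx => ?_)
  rw [box_r f hG, pi_norm_le_iff_of_nonneg h1]
  refine ⟨fun h l => ?_, fun h l _ => h l⟩
  by_cases hl : l ∈ G.I
  · exact h l hl
  · rwa [Pi.sub_apply, hx l hl, G.cb_off b hl, sub_self, norm_zero]

theorem mem_Sk (hG : G.Ok) {x : V m} : x ∈ (G.box f b).Sk G.s ↔
    (∀ l, l ∉ G.I → x l = G.c l) ∧ G.ξ x ∈ SkI G.I := by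
  classical
  refine (and_congr_left' (mem_slice f)).trans (and_congr_right fun hx => ?_)
  have h1 : ∀ l ∈ G.I, dd (((x l - G.cb b l) / G.s - (((G.box f b).r : ℝ) + 8)) / 16) ≠ 0 ↔
      dd (G.ξ x l) ≠ 0 := fun l hl => by
    have h2 := hG.s0.ne'
    refine not_congr (Iff.trans (Iff.of_eq (congrArg (fun t => dd t = 0) ?_))
      (ASl0_dd (G.ξ x l) (G.M * b l + G.M - 3)))
    rw [box_r f hG, ξ_slice hG hx, G.ASl0_cb b hl]
    push_cast
    field_simp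
    ring
  exact Iff.of_eq (congrArg (fun S : Finset (Ix m) => S.card ≤ m) (Finset.filter_congr h1))

theorem Sk_sub_fine (hG : G.Ok) : (G.box f b).Sk G.s ⊆ (G.box f b).fine G.s := by
  have _ := hG
  refine fun x hx => ⟨hx.1, le_trans (Finset.card_le_card fun l hl => ?_) hx.2⟩
  rw [Finset.mem_filter] at hl ⊢
  refine ⟨hl.1, fun k => hl.2 ?_⟩
  obtain ⟨j, hj⟩ := BEv.dd_eq_zero_iff.1 k
  exact BEv.dd_eq_zero_iff.2 ⟨16 * j + (G.box f b).r + 8, by push_cast; linarith⟩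

theorem norm_thick (hG : G.Ok) {x : V m} {ρ : ℝ} (hρ : ρ ≤ 56)
    (hx : x ∈ (G.box f b).thick G.s ρ (2 * G.s)) : ‖x - G.cb b‖ ≤ 8 * G.M * G.s := by
  have h1 := ASl0_M hG
  have h2 := hG.s0
  refine (pi_norm_le_iff_of_nonneg (by positivity)).2 fun l => ?_
  by_cases hl : l ∈ G.I
  · have h3 := hx.1 l hl
    rw [box_r f hG] at h3
    exact le_trans h3 (by nlinarith)
  · exact le_trans (hx.2 l hl) (by nlinarith)

theorem cb_far (hG : G.Ok) (hb : ∀ l, l ∉ G.I → b l = 0) (hb' : ∀ l, l ∉ G.I → b' l = 0)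
    (h : b ≠ b') : ∃ l ∈ G.I, 16 * G.M * G.s ≤ |G.cb b l - G.cb b' l| := by
  obtain ⟨l, h1, h2⟩ := ASl0_ne hb hb' h
  have h3 : (1 : ℝ) ≤ |(b l : ℝ) - b' l| := by exact_mod_cast Int.one_le_abs (sub_ne_zero.2 h2)
  have h4 : 0 ≤ 16 * G.M * G.s := mul_nonneg (by positivity) hG.s0.le
  refine ⟨l, h1, ?_⟩
  rw [G.cb_sub b b' h1, abs_mul, abs_of_nonneg h4]
  exact le_mul_of_one_le_right h4 h3

theorem low_slice (hG : G.Ok) {x y : V m} (hx : ∀ l, l ∉ G.I → x l = G.c l)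
    (hy : ∀ l, l ∉ G.I → y l = G.c l) : G.σ * ‖x - y‖ ≤ ‖G.A (x - y)‖ := by
  have h1 : pr G.I (x - y) = x - y := funext fun l => by
    unfold pr
    split_ifs with hl
    · rfl
    · rw [Pi.sub_apply, hx l hl, hy l hl, sub_self]
  exact h1 ▸ hG.low (x - y)

theorem exists_col (hG : G.Ok) (z : V m) : ∃ b : Ix m → ℤ, (∀ l, l ∉ G.I → b l = 0) ∧
    ‖pr G.I (G.ξ z - G.ctr b)‖ ≤ G.M / 2 ∧
    ∀ b' : Ix m → ℤ, (∀ l, l ∉ G.I → b' l = 0) → b' ≠ b →
      (G.M : ℝ) / 2 ≤ ‖pr G.I (G.ξ z - G.ctr b')‖ := by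
  have hM : (0 : ℝ) < G.M := by linarith [ASl0_M hG]
  have h1 : ∀ l, G.M * (⌊G.ξ z l / G.M⌋ : ℝ) ≤ G.ξ z l ∧
      G.ξ z l < G.M * ((⌊G.ξ z l / G.M⌋ : ℝ) + 1) := fun l =>
    ⟨(le_div_iff₀' hM).1 (Int.floor_le _), (div_lt_iff₀' hM).1 (Int.lt_floor_add_one _)⟩
  refine ⟨fun l => if l ∈ G.I then ⌊G.ξ z l / G.M⌋ else 0, fun l hl => if_neg hl,
    (norm_pr_le_iff (by positivity)).2 fun l hl => ?_, fun b' h2 h3 => ?_⟩
  · simp only [Pi.sub_apply, ctr, if_pos hl]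
    exact abs_le.2 ⟨by linarith [(h1 l).1], by linarith [(h1 l).2]⟩
  · obtain ⟨l, h4, h5⟩ := ASl0_ne h2 (fun l hl => if_neg hl) h3
    refine le_trans ?_ (abs_le_norm_pr _ h4)
    simp only [if_pos h4] at h5
    simp only [Pi.sub_apply, ctr]
    rcases h5.lt_or_gt with h | h
    · have h6 : (b' l : ℝ) + 1 ≤ ⌊G.ξ z l / G.M⌋ := by exact_mod_cast h
      exact le_abs.2 (Or.inl (by nlinarith [(h1 l).1]))
    · have h6 : (⌊G.ξ z l / G.M⌋ : ℝ) + 1 ≤ b' l := by exact_mod_cast h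
      exact le_abs.2 (Or.inr (by nlinarith [(h1 l).2]))

theorem ASl0_box (hG : G.Ok) : ∃ S : Finset (Ix m → ℤ), (∀ b ∈ G.ful, b ∈ S) ∧
    (S.card : ℝ) * (16 * G.M * G.s) ^ G.I.card ≤ (4 * G.h) ^ G.I.card := by
  have hM := ASl0_M hG
  have hs := hG.s0
  have h0 : 0 < 16 * G.M * G.s := by positivity
  obtain ⟨β, hβ⟩ : ∃ β, β * (16 * G.M * G.s) = G.h := ⟨_, div_mul_cancel₀ _ h0.ne'⟩
  have h1 : 1 / 2 ≤ β := le_of_mul_le_mul_right
    (by nlinarith [hG.sh, mul_le_mul_of_nonneg_right hG.γ1 hG.h0.le, hG.h0]) h0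
  obtain ⟨α, hα⟩ : ∃ α : Ix m → ℝ, ∀ l, G.M * (α l + 1 / 2) + G.ω l = 0 :=
    ⟨fun l => -G.ω l / G.M - 1 / 2, fun l => by field_simp; ring⟩
  refine ⟨Fintype.piFinset fun l => if l ∈ G.I then Finset.Icc ⌈α l - β⌉ ⌊α l + β⌋ else {0},
    fun b hb => Fintype.mem_piFinset.2 fun l => ?_, ?_⟩
  · split_ifs with hl
    · have h2 : G.nr (G.cb b) ≤ (1 - 0 * G.γ) * G.h := hb.2
      rw [Cel.nr_slice hG.toOk fun l hl => G.cb_off b hl, zero_mul, sub_zero, one_mul] at h2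
      have h3 := (norm_le_pi_norm _ l).trans h2
      have e : (G.cb b - G.c) l = (b l - α l) * (16 * G.M * G.s) := by
        rw [Pi.sub_apply, G.ASl0_cb b hl]
        linear_combination 16 * G.s * hα l
      rw [e, Real.norm_eq_abs, abs_mul, abs_of_pos h0, ← hβ] at h3
      have h4 := abs_le.1 (le_of_mul_le_mul_right h3 h0)
      exact Finset.mem_Icc.2 ⟨Int.ceil_le.2 (by linarith), Int.le_floor.2 (by linarith)⟩
    · exact Finset.mem_singleton.2 (hb.1 l hl)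
  rw [← hβ, ← mul_assoc, mul_pow (4 * β)]
  refine mul_le_mul_of_nonneg_right ?_ (by positivity)
  rw [Fintype.card_piFinset, Nat.cast_prod, ← Finset.prod_const, ← Fintype.prod_ite_mem G.I]
  refine Finset.prod_le_prod (fun l _ => by positivity) fun l _ => ?_
  split_ifs
  · rw [Int.card_Icc]
    rcases le_total (⌊α l + β⌋ + 1 - ⌈α l - β⌉) 0 with h | h
    · rw [Int.toNat_of_nonpos h, Nat.cast_zero]
      linarith
    · rw [← Int.cast_natCast, Int.toNat_of_nonneg h]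
      push_cast
      linarith [Int.floor_le (α l + β), Int.le_ceil (α l - β)]
  · simp

theorem exists_F (hG : G.Ok) : ∃ F : Finset (Ix m → ℤ), ∀ b, b ∈ F ↔ b ∈ G.ful := by
  classical
  obtain ⟨S, h1, -⟩ := ASl0_box hG
  exact ⟨S.filter (· ∈ G.ful), fun b => Finset.mem_filter.trans (and_iff_right_of_imp (h1 b))⟩

theorem card_F (hG : G.Ok) {F : Finset (Ix m → ℤ)} (hF : ∀ b ∈ F, b ∈ G.ful) :
    (F.card : ℝ≥0∞) * G.col ≤ ENNReal.ofReal (2 ^ (2 * m + 1) * (2 * G.h) ^ (2 * m + 1)) := by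
  obtain ⟨S, h1, h2⟩ := ASl0_box hG
  have h0 := hG.h0
  have hs := hG.s0
  have h3 : (F.card : ℝ) ≤ S.card := Nat.cast_le.2 (Finset.card_le_card fun b hb => h1 b (hF b hb))
  have h4 : G.I.card ≤ 2 * m + 1 := (Finset.card_le_univ _).trans_eq (Fintype.card_fin _)
  rw [col, ← ENNReal.ofReal_natCast, ← ENNReal.ofReal_mul (Nat.cast_nonneg _), ← mul_assoc]
  refine ENNReal.ofReal_le_ofReal ((mul_le_mul_of_nonneg_right
    ((mul_le_mul_of_nonneg_right h3 (by positivity)).trans h2) (by positivity)).trans ?_)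
  rw [show 4 * G.h = 2 * (2 * G.h) by ring, mul_pow 2 (2 * G.h), mul_assoc, ← pow_add,
    Nat.add_sub_cancel' h4]
  exact mul_le_mul_of_nonneg_right (pow_le_pow_right₀ one_le_two h4) (by positivity)

theorem mem_sq (hG : G.Ok) (hm : m ≤ G.I.card) {x : V m}
    (hx : x ∈ (G.box f b).fine G.s ∩ (G.box f b).Q G.s 56) :
    ∃ J ∈ Finset.powersetCard m G.I, ∃ v ∈ G.pos J,
      ∃ y ∈ closedBall (0 : J → ℝ) (8 * G.M * G.s), x = G.sq b J v y := by
  classical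
  have hs := hG.s0
  obtain ⟨h1, h2⟩ := (mem_Q f hG (by norm_num)).1 hx.2
  have h3 : ∀ l, |x l - G.cb b l| ≤ 8 * G.M * G.s := fun l =>
    ((norm_le_pi_norm (x - G.cb b) l).trans h2).trans_eq (by ring)
  obtain ⟨J, h4, h5, h6⟩ := Finset.exists_subsuperset_card_eq (Finset.filter_subset _ _) hx.1.2 hm
  have h7 : ∀ l, ∃ k : ℤ, (l ∈ G.I \ J → x l - G.cb b l = G.s * k) ∧ (l ∉ G.I \ J → k = 0) := by
    intro l
    by_cases hl : l ∈ G.I \ J
    · obtain ⟨k, hk⟩ := BEv.dd_eq_zero_iff.1 (by_contra fun k => (Finset.mem_sdiff.1 hl).2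
        (h4 (Finset.mem_filter.2 ⟨(Finset.mem_sdiff.1 hl).1, k⟩)))
      exact ⟨k, fun _ => (div_eq_iff hs.ne').1 hk |>.trans (mul_comm _ _), fun k => absurd hl k⟩
    · exact ⟨0, fun k => absurd k hl, fun _ => rfl⟩
  choose v v1 v2 using h7
  refine ⟨J, Finset.mem_powersetCard.2 ⟨h5, h6⟩, v, Fintype.mem_piFinset.2 fun l => ?_,
    fun j => x j - G.cb b j, mem_closedBall_zero_iff.2
      ((pi_norm_le_iff_of_nonneg (by positivity)).2 fun j => h3 j), funext fun l => ?_⟩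
  · split_ifs with hl
    · have h8 := h3 l
      rw [v1 l hl, abs_mul, abs_of_pos hs, mul_comm] at h8
      have h9 : |v l| ≤ 8 * G.M := by exact_mod_cast le_of_mul_le_mul_right h8 hs
      exact Finset.mem_Icc.2 (abs_le.1 h9)
    · exact Finset.mem_singleton.2 (v2 l hl)
  · change x l = G.cb b l + G.s * v l + emb J _ l
    rw [ASl0_emb]
    split_ifs with hl
    · rw [v2 l fun k => (Finset.mem_sdiff.1 k).2 hl]
      simp
    · by_cases k : l ∈ G.I
      · linarith [v1 l (Finset.mem_sdiff.2 ⟨k, hl⟩)]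
      · rw [v2 l fun k' => k (Finset.mem_sdiff.1 k').1, h1 l k, G.cb_off b k]
        simp

theorem norm_sq_sub (hG : G.Ok) (b : Ix m → ℤ) {J : Finset (Ix m)} {v : Ix m → ℤ}
    (hv : v ∈ G.pos J) {y : J → ℝ} (hy : y ∈ closedBall (0 : J → ℝ) (8 * G.M * G.s)) :
    ‖G.sq b J v y - G.cb b‖ ≤ 8 * G.M * G.s := by
  have hs := hG.s0
  refine (pi_norm_le_iff_of_nonneg (by positivity)).2 fun l => ?_
  have h1 := Fintype.mem_piFinset.1 hv l
  change ‖G.cb b l + G.s * v l + emb J y l - G.cb b l‖ ≤ _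
  rw [add_assoc, add_sub_cancel_left, ASl0_emb]
  split_ifs at h1 ⊢ with h2 h3 h3
  · exact absurd h2 (Finset.mem_sdiff.1 h3).2
  · rw [Finset.mem_singleton.1 h1, Int.cast_zero, mul_zero, zero_add]
    exact (norm_le_pi_norm y _).trans (mem_closedBall_zero_iff.1 hy)
  · have h4 : |(v l : ℝ)| ≤ 8 * G.M := by exact_mod_cast abs_le.2 (Finset.mem_Icc.1 h1)
    rw [add_zero, Real.norm_eq_abs, abs_mul, abs_of_pos hs, mul_comm]
    exact mul_le_mul_of_nonneg_right h4 hs.le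
  · rw [Finset.mem_singleton.1 h1, Int.cast_zero, mul_zero, zero_add, norm_zero]
    positivity

theorem card_sq (G : Gr m) : ∑ J ∈ Finset.powersetCard m G.I, (G.pos J).card ≤
    2 ^ (2 * m + 1) * (16 * G.M + 1) ^ (2 * m + 1) := by
  refine (Finset.sum_le_card_nsmul _ _ ((16 * G.M + 1) ^ (2 * m + 1)) fun J _ => ?_).trans
    (Nat.mul_le_mul_right _ ((Finset.card_le_univ _).trans_eq (by simp)))
  rw [pos, Fintype.card_piFinset]
  refine (Finset.prod_le_pow_card _ _ (16 * G.M + 1) fun l _ => ?_).trans_eq (by simp)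
  split_ifs
  · rw [Int.card_Icc]
    omega
  · simp

theorem Kept.mono {F kp kp' : Finset (Ix m → ℤ)} (h : G.Kept f F kp) (hs : kp' ⊆ kp) :
    G.Kept f F kp' := by
  exact ⟨hs.trans h.sub, fun b hb => h.close b (hs hb), fun b hb => h.nohit b (hs hb),
    fun b hb b' hb' => h.sep b (hs hb) b' (hs hb')⟩

end Gr

end BEp
end
end

-- merged part: Pool.Agent.Work.MP_f0515e_an.Pos.AG2
section
/-! TASK AG2. One cell: dichotomy, landing, sharp zone, local Lipschitz bounds.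
Plan. dich: take b from exists_col; every other index b' has term >= 21/4 >= 1, so the cmin over kp equals that over F if b is in kp, and equals 1 otherwise. land: on opn 2 the first term of cut is
at least gamma h / (16 s) >= 1. If all terms of kp are >= 1 then cut = 1, loc = RI (loc_eq_of_le, abs_RI_sub_le), RI_mem; rB z is in cell 1, so tau z = pi (rB z) (psi_eq), use xi_pi, SkI_congr, nr_pi_le.
Otherwise norm (pr I (xi z - ctr b)) < M/2 - 21/4 + 1, the move is at most 1, so norm (pi (rB z) - cb b) <= 16 s (M/2 - 13/4) = s (8 M - 56 + 4) (norm_pi_sub_cb, mem_Q).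
sharp: open set on which cut = 0 or RI = id. LL: LL.loc with c = 2 / b2 >= 4, ll_cj. -/

open Set Metric Filter Topology Function BEv MeasureTheory
open scoped NNReal ENNReal

noncomputable section
namespace BEp

variable {m : ℕ}

namespace Gr
variable {G : Gr m} {kp F : Finset (Ix m → ℤ)} {z : V m}

theorem AG2_one {κ : Type} {S : Finset κ} {f : κ → ℝ} (h : ∀ b ∈ S, 1 ≤ f b) : cmin S 1 f = 1 :=
  le_antisymm (cmin_le_cap _ _ _) (le_cmin _ _ _ le_rfl h)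

theorem AG2_cut (R : V m → V m)
    (h : cmin kp 1 (fun b => max (‖pr G.I (G.ξ z - G.ctr b)‖ - (G.M / 2 - 21 / 4)) 0) =
      cmin F 1 (fun b => max (‖pr G.I (G.ξ z - G.ctr b)‖ - (G.M / 2 - 21 / 4)) 0)) :
    G.rB kp R z = G.rB F R z :=
  cj_congr _ _ _ (loc_congr (η := G.cut kp) (η' := G.cut F) (x := G.ξ z)
    (by unfold cut; rw [h]) rfl)

theorem AG2_empty (R : V m → V m)
    (h : ∀ b ∈ kp, (G.M : ℝ) / 2 ≤ ‖pr G.I (G.ξ z - G.ctr b)‖) : G.rB kp R z = G.rB ∅ R z := by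
  refine AG2_cut R ((AG2_one fun b hb => ?_).trans (AG2_one fun b hb => ?_).symm)
  · exact le_max_of_le_left (by linarith [h b hb])
  · exact absurd hb (Finset.notMem_empty b)

theorem dich (hG : G.Ok) (hs : kp ⊆ F) (hF : ∀ b ∈ F, ∀ l, l ∉ G.I → b l = 0) (R : V m → V m)
    (z : V m) : G.rB kp R z = G.rB F R z ∨ G.rB kp R z = G.rB ∅ R z := by
  obtain ⟨b, -, -, hb⟩ := exists_col hG z
  by_cases hk : b ∈ kp
  · refine Or.inl (AG2_cut R (le_antisymm ?_ ?_))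
    · refine le_cmin _ _ _ (cmin_le_cap _ _ _) fun b' hb' => ?_
      by_cases e : b' = b
      · rw [e]
        exact cmin_le kp 1 _ hk
      · exact (cmin_le_cap _ _ _).trans (le_max_of_le_left (by linarith [hb b' (hF b' hb') e]))
    · exact le_cmin _ _ _ (cmin_le_cap _ _ _) fun b' hb' => cmin_le F 1 _ (hs hb')
  · exact Or.inr (AG2_empty R fun b' hb' => hb b' (hF b' (hs hb')) fun e => hk (e ▸ hb'))

theorem rB_far (hG : G.Ok) (R : V m → V m)
    (h : ∀ b ∈ kp, (G.M : ℝ) ≤ ‖pr G.I (G.ξ z - G.ctr b)‖) : G.rB kp R z = G.rB ∅ R z := by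
  have h0 : (0 : ℝ) ≤ G.M := Nat.cast_nonneg _
  exact AG2_empty R fun b hb => by linarith [h b hb]

theorem land (hG : G.Ok) (f : V m → V m) (kp : Finset (Ix m → ℤ)) {K : ℕ} (hz : z ∈ G.opn 2)
    (hK : dl K ≤ G.b2 z) :
    G.τ kp (RI G.I K) z ∈ G.Zs ∨ ∃ b ∈ kp, G.τ kp (RI G.I K) z ∈ (G.box f b).Q G.s 4 := by
  have hT : G.toCel.toTyp.Ok := hG.toOk
  have z1 : z ∈ G.cell 1 := Cel.cell_mono hT hG.h0 (by norm_num) (Cel.opn_subset _ _ hz)
  have y1 := rB_maps kp (RI G.I K) hG z1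
  have e : G.τ kp (RI G.I K) z = G.π (G.rB kp (RI G.I K) z) := Cel.ψ_eq_π hT hG.h0 y1
  have eξ := ξ_rB kp (RI G.I K) hG z
  have s0 := hG.s0
  rw [e]
  by_cases h : ∀ b ∈ kp, 1 ≤ max (‖pr G.I (G.ξ z - G.ctr b)‖ - (G.M / 2 - 21 / 4)) 0
  · have c1 : G.cut kp (G.ξ z) = 1 := by
      unfold cut
      rw [AG2_one h]
      refine min_eq_right (le_max_of_le_left ?_)
      have k1 : G.nr z < (1 - 2 * G.γ) * G.h := hz
      have k2 : (9 : ℝ) ≤ G.M := by exact_mod_cast hG.M9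
      have k3 := hG.sh
      rw [nr_eq hG] at k1
      rw [le_sub_iff_add_le, le_div_iff₀ (by linarith)]
      nlinarith [mul_le_mul_of_nonneg_right k2 s0.le]
    rw [loc_eq_of_le fun i => c1 ▸ abs_RI_sub_le G.I K (G.ξ z) i] at eξ
    refine Or.inl ⟨fun l hl => Cel.π_off _ _ hl, (Cel.nr_π_le hT _).trans y1, ?_⟩
    exact (SkI_congr fun l hl => ξ_π hG _ hl).2 (eξ ▸ RI_mem hK)
  · push Not at h
    obtain ⟨b, hb, h⟩ := h
    refine Or.inr ⟨b, hb, (mem_Q f hG (by norm_num)).2 ⟨fun l hl => Cel.π_off _ _ hl, ?_⟩⟩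
    have k1 : ‖G.ξ (G.rB kp (RI G.I K) z) - G.ξ z‖ ≤ 1 := by
      rw [eξ]
      exact (norm_loc_sub_le _ (cut_nonneg G kp _)).trans (cut_le_one G kp _)
    have k2 : pr G.I (G.ξ (G.rB kp (RI G.I K) z) - G.ctr b) =
        pr G.I (G.ξ (G.rB kp (RI G.I K) z) - G.ξ z) + pr G.I (G.ξ z - G.ctr b) := by
      rw [pr_sub, pr_sub, pr_sub, sub_add_sub_cancel]
    have k3 := norm_add_le (pr G.I (G.ξ (G.rB kp (RI G.I K) z) - G.ξ z))
      (pr G.I (G.ξ z - G.ctr b))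
    have k4 := norm_pr_le G.I (G.ξ (G.rB kp (RI G.I K) z) - G.ξ z)
    have k5 := (le_max_left _ _).trans_lt h
    have k6 : ‖pr G.I (G.ξ (G.rB kp (RI G.I K) z) - G.ctr b)‖ ≤ G.M / 2 - 13 / 4 := by
      rw [k2]
      linarith
    rw [norm_π_sub_cb hG]
    nlinarith [mul_le_mul_of_nonneg_left k6 s0.le]

theorem isOpen_sharp (G : Gr m) (kp : Finset (Ix m → ℤ)) : IsOpen (G.sharp kp) := by
  refine (Cel.isOpen_opn _ 3).inter (isOpen_const.union ?_)
  have h : IsOpen (⋃ b ∈ kp, {z | ‖pr G.I (G.ξ z - G.ctr b)‖ < G.M / 2 - 21 / 4}) :=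
    isOpen_biUnion fun b _ =>
      isOpen_lt (((tp_ξ G).sub (TP.const (G.ctr b))).pr G.I).continuous.norm continuous_const
  convert h using 1
  ext z
  simp only [mem_iUnion, mem_ofPred_eq, exists_prop]
  rfl

theorem rB_sharp (hG : G.Ok) (K : ℕ) (hz : z ∈ G.sharp kp) : G.rB kp (RI G.I K) z = z := by
  have s0 := hG.s0
  refine cj_eq_self _ _ _ (by linarith : (0 : ℝ) < 16 * G.s).ne' ?_
  rcases hz.2 with h | ⟨b, hb, h⟩
  · exact loc_of_fix (cut_nonneg G kp _) (RI_id h K _)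
  · refine loc_eq_self (le_antisymm ?_ (cut_nonneg G kp _))
    exact (min_le_right _ _).trans ((cmin_le kp 1 _ hb).trans (max_le (sub_nonpos.2 h.le) le_rfl))

theorem ll_rB (hG : G.Ok) (kp : Finset (Ix m → ℤ)) (K : ℕ) (hz : 0 < G.b2 z) :
    LL (G.rB kp (RI G.I K)) z (G.Λ ^ 2 * (2 / G.b2 z)) := by
  have s0 := hG.s0
  have h1 : G.b2 z ≤ 1 / 2 := beI_le_half _ _
  have h2 : 1 + 1 ≤ 2 / G.b2 z := by
    rw [le_div_iff₀ hz]
    linarith
  refine ll_cj _ _ _ (by linarith) (by linarith [hG.Λ1]) (by linarith) hG.nS hG.nS' ?_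
  exact (ll_RI K hz).loc (LL.of_forall (fun x y => by
    rw [one_mul]
    exact abs_cut_sub_le G kp x y) _) zero_le_one h2

theorem ll_τ (hG : G.Ok) (kp : Finset (Ix m → ℤ)) (K : ℕ) (hz : 0 < G.b2 z) :
    LL (G.τ kp (RI G.I K)) z (G.Λ ^ 4 * 2 ^ G.N * (2 / G.b2 z)) := by
  refine ((Cel.ll_ψ hG.toOk hG.h0 _).comp (ll_rB hG kp K hz) (by positivity)).mono (le_of_eq ?_)
  ring

end Gr

end BEp
end
end
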