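import Pool.Agent.Work.MP_f0515e_an.Pos.Defs

/-!
EXPORT (PL). The group SG.

Plan.  `SG.lh`: `id + d` is expanding with constant `1 - K` and onto (`ContractingWith.fixedPoint` of
`x ↦ y - d x`), `LH.of_expanding`, `LH.comp`.
Splitting lemma: for `ε > 0` and `Small d` the map `id + d` is a `Word` in factors `d'` with `TP d'`,
`LipschitzWith ε d'`: with `f r = id + r • d` one has `f r' = (id + d') ∘ f r` for
`d' = (r' - r) • d ∘ invFun (f r)`, which is Lipschitz with constant `|r' - r| K / (1 - K)`; induct on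
`r = min 1 (k δ)`.  So `SG Φ` gives `Word (small ε) Φ`.
`SG.inv`: for `ε = 1/4`, `invFun (id + d) = id + d'` with `d' = -d ∘ invFun (id + d)`, `LH.inv_comp`.
`SG.conj`: take `ε` with `‖L‖ ε ‖L.symm‖ < 1`.  `SG.isotopy`: replace every factor `d` by
`max 0 (min r 1) • d`.
-/

open Set Metric Filter Topology Function BEv
open scoped NNReal

noncomputable section
namespace BEp

variable {E F G : Type} [NormedAddCommGroup E] [NormedSpace ℝ E] [FiniteDimensional ℝ E]
  [NormedAddCommGroup F] [NormedSpace ℝ F] [FiniteDimensional ℝ F]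
  [NormedAddCommGroup G] [NormedSpace ℝ G] [FiniteDimensional ℝ G]

omit [FiniteDimensional ℝ E] [NormedSpace ℝ E] in
theorem Word.mono {P P' : (E → E) → Prop} (h : ∀ d, P d → P' d) {Φ : E → E} (hΦ : Word P Φ) :
    Word P' Φ := by
  induction hΦ with
  | id => exact Word.id
  | step _ hd ih => exact Word.step ih (h _ hd)

omit [FiniteDimensional ℝ E] [NormedSpace ℝ E] in
theorem Word.comp {P : (E → E) → Prop} {Φ Ψ : E → E} (hΦ : Word P Φ) (hΨ : Word P Ψ) :
    Word P (Φ ∘ Ψ) := by
  induction hΦ with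
  | id => exact hΨ
  | step _ hd ih => exact Word.step ih hd

omit [FiniteDimensional ℝ E] in
theorem Word.sg {ε : ℝ≥0} (hε : ε < 1) {H : Submodule ℝ E} {cut : E → ℝ} {Φ : E → E}
    (h : Word (Fac ε H cut) Φ) : SG Φ :=
  Word.mono (fun _ hd => ⟨hd.1, ε, hε, hd.2.1⟩) h

omit [FiniteDimensional ℝ E] in
theorem Word.fix {ε : ℝ≥0} {H : Submodule ℝ E} {cut : E → ℝ} {Φ : E → E}
    (h : Word (Fac ε H cut) Φ) {z : E} (hz : cut z = 0) : Φ z = z := by
  induction h with
  | id => rfl
  | step _ hd ih =>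
    beta_reduce
    rw [ih, hd.2.2.2 z hz, add_zero]

omit [FiniteDimensional ℝ E] in
theorem SG.id' : SG (id : E → E) := Word.id

omit [FiniteDimensional ℝ E] [NormedSpace ℝ E] in
theorem plsg_exp {d : E → E} {K : ℝ≥0} (h : LipschitzWith K d) (x y : E) :
    (1 - (K : ℝ)) * ‖x - y‖ ≤ ‖(x + d x) - (y + d y)‖ := by
  have h1 := h.dist_le_mul x y
  rw [dist_eq_norm, dist_eq_norm] at h1
  have h2 : x - y = ((x + d x) - (y + d y)) - (d x - d y) := by abel
  have h3 := norm_sub_le ((x + d x) - (y + d y)) (d x - d y)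
  rw [← h2] at h3
  linarith

theorem plsg_lh {d : E → E} {K : ℝ≥0} (ht : TP d) (hK : K < 1) (h : LipschitzWith K d) :
    LH (fun x => x + d x) := by
  have := FiniteDimensional.complete ℝ E
  have hK' : (K : ℝ) < 1 := hK
  refine LH.of_expanding (TP.id'.add ht) (fun y => ?_) (sub_pos.2 hK') (plsg_exp h)
  have hc : ContractingWith K (fun x => y - d x) := by
    refine ⟨hK, LipschitzWith.of_dist_le_mul fun a b => ?_⟩
    rw [dist_sub_left]
    exact h.dist_le_mul a b
  have h1 : y - d (hc.fixedPoint _) = hc.fixedPoint _ := hc.fixedPoint_isFixedPt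
  exact ⟨hc.fixedPoint _, (sub_eq_iff_eq_add.1 h1).symm⟩

theorem plsg_inv {d : E → E} {K : ℝ≥0} (ht : TP d) (hK : K < 1) (h : LipschitzWith K d)
    (y z : E) : (1 - (K : ℝ)) * ‖invFun (fun x => x + d x) y - invFun (fun x => x + d x) z‖ ≤
      ‖y - z‖ := by
  have h1 := plsg_exp h (invFun (fun x => x + d x) y) (invFun (fun x => x + d x) z)
  have h2 := (plsg_lh ht hK h).ri y
  have h3 := (plsg_lh ht hK h).ri z
  beta_reduce at h2 h3
  rwa [h2, h3] at h1

omit [FiniteDimensional ℝ E] in
theorem plsg_smul {d : E → E} {K : ℝ≥0} (h : LipschitzWith K d) {r : ℝ} (h0 : 0 ≤ r)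
    (h1 : r ≤ 1) : LipschitzWith K (fun x => r • d x) := by
  refine LipschitzWith.of_dist_le_mul fun a b => ?_
  rw [dist_smul₀, Real.norm_of_nonneg h0]
  exact (mul_le_of_le_one_left dist_nonneg h1).trans (h.dist_le_mul a b)

theorem SG.lh {Φ : E → E} (h : SG Φ) : LH Φ := by
  induction h with
  | id => exact LH.id'
  | step _ hd ih =>
    obtain ⟨ht, K, hK, hl⟩ := hd
    exact (plsg_lh ht hK hl).comp ih

omit [FiniteDimensional ℝ E] in
theorem SG.comp {Φ Ψ : E → E} (hΦ : SG Φ) (hΨ : SG Ψ) : SG (Φ ∘ Ψ) := Word.comp hΦ hΨ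

theorem plsg_split {ε : ℝ≥0} (hε : 0 < ε) {d : E → E} (hd : Small d) :
    Word (fun d' : E → E => TP d' ∧ LipschitzWith ε d') (fun x => x + d x) := by
  obtain ⟨ht, K, hK, hl⟩ := hd
  have hK' : (K : ℝ) < 1 := hK
  have hε' : (0 : ℝ) < ε := hε
  have hδ : (0 : ℝ) < ε * (1 - K) := mul_pos hε' (sub_pos.2 hK')
  have key : ∀ k : ℕ, Word (fun d' : E → E => TP d' ∧ LipschitzWith ε d')
      (fun x => x + (min 1 (k * (ε * (1 - K))) : ℝ) • d x) := by
    intro k
    induction k with
    | zero =>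
      have : (fun x => x + (min 1 ((0 : ℕ) * (ε * (1 - K))) : ℝ) • d x) = id := by
        funext x
        simp
      rw [this]
      exact Word.id
    | succ k ih =>
      set r : ℝ := min 1 (k * (ε * (1 - K))) with hr
      set r' : ℝ := min 1 ((k + 1 : ℕ) * (ε * (1 - K))) with hr'
      have r0 : 0 ≤ r := le_min zero_le_one (by positivity)
      have r1 : r ≤ 1 := min_le_left _ _
      have hl' := plsg_smul hl r0 r1
      have ht' := ht.const_smul r
      have lh := plsg_lh ht' hK hl'
      have rr : |r' - r| ≤ ε * (1 - K) := by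
        refine (abs_min_sub_min_le_max _ _ _ _).trans (max_le ?_ ?_)
        · rw [sub_self, abs_zero]
          exact hδ.le
        · push_cast
          rw [show ((k : ℝ) + 1) * (ε * (1 - K)) - k * (ε * (1 - K)) = ε * (1 - K) by ring,
            abs_of_pos hδ]
      have st := Word.step (d := fun y => (r' - r) • d (invFun (fun x => x + r • d x) y)) ih
        ⟨(ht.comp lh.tpi).const_smul _, LipschitzWith.of_dist_le_mul fun a b => ?_⟩
      · convert st using 2 with x
        have := lh.li x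
        beta_reduce at this
        rw [this, sub_smul]
        abel
      · rw [dist_smul₀, Real.norm_eq_abs]
        have h1 := hl.dist_le_mul (invFun (fun x => x + r • d x) a)
          (invFun (fun x => x + r • d x) b)
        have h2 := plsg_inv ht' hK hl' a b
        rw [dist_eq_norm (invFun _ a)] at h1
        rw [dist_eq_norm a b]
        have h3 : dist (d (invFun (fun x => x + r • d x) a)) (d (invFun (fun x => x + r • d x) b)) ≤
            ‖invFun (fun x => x + r • d x) a - invFun (fun x => x + r • d x) b‖ :=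
          h1.trans (mul_le_of_le_one_left (norm_nonneg _) hK'.le)
        calc _ ≤ ε * (1 - K) *
              ‖invFun (fun x => x + r • d x) a - invFun (fun x => x + r • d x) b‖ :=
            mul_le_mul rr h3 dist_nonneg hδ.le
          _ ≤ ε * ‖a - b‖ := by
            rw [mul_assoc]
            exact mul_le_mul_of_nonneg_left h2 hε'.le
  obtain ⟨k, hk⟩ := exists_nat_ge (1 / (ε * (1 - K)) : ℝ)
  have := key k
  rw [min_eq_left ((div_le_iff₀ hδ).1 hk)] at this
  simpa only [one_smul] using this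

theorem plsg_word {ε : ℝ≥0} (hε : 0 < ε) {Φ : E → E} (h : SG Φ) :
    Word (fun d' : E → E => TP d' ∧ LipschitzWith ε d') Φ := by
  induction h with
  | id => exact Word.id
  | step _ hd ih => exact Word.comp (plsg_split hε hd) ih

theorem SG.inv {Φ : E → E} (h : SG Φ) : SG (invFun Φ) := by
  have hq : (1 / 4 : ℝ≥0) < 1 := by norm_num
  have h1 := plsg_word (ε := 1 / 4) (by norm_num) h
  clear h
  induction h1 with
  | id =>
    have : invFun (id : E → E) = id := funext fun y => LH.id'.inv_eq rfl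
    rw [this]
    exact Word.id
  | @step Φ d hΦ hd ih =>
    have lΦ : LH Φ := SG.lh (Word.mono (fun _ h => ⟨h.1, _, hq, h.2⟩) hΦ)
    have ld := plsg_lh hd.1 hq hd.2
    have e : invFun (fun x => Φ x + d (Φ x)) = invFun Φ ∘ invFun (fun x => x + d x) :=
      funext fun y => ld.inv_comp lΦ y
    rw [e]
    refine SG.comp ih ?_
    have st := Word.step (P := Small) (d := fun y => -d (invFun (fun x => x + d x) y)) Word.id
      ⟨(hd.1.comp ld.tpi).neg, 1 / 2, by norm_num, LipschitzWith.of_dist_le_mul fun a b => ?_⟩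
    · have e2 : invFun (fun x => x + d x) = fun y => id y + -d (invFun (fun x => x + d x) (id y)) := by
        funext y
        have := ld.ri y
        beta_reduce at this
        rw [id, ← sub_eq_add_neg, eq_sub_iff_add_eq]
        exact this
      rw [e2]
      exact st
    · rw [dist_neg_neg]
      have h1 := hd.2.dist_le_mul (invFun (fun x => x + d x) a) (invFun (fun x => x + d x) b)
      have h2 := plsg_inv hd.1 hq hd.2 a b
      rw [dist_eq_norm (invFun _ a)] at h1
      rw [dist_eq_norm a b]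
      push_cast at h1 h2 ⊢
      have := norm_nonneg (a - b)
      linarith

omit [FiniteDimensional ℝ F] in
/-- Conjugation by an affine isomorphism, possibly between different spaces. -/
theorem SG.conj {Φ : E → E} (h : SG Φ) (L : E ≃L[ℝ] F) (b : F) :
    SG (fun y => L (Φ (L.symm (y - b))) + b) := by
  obtain ⟨A, hA⟩ : ∃ A, LipschitzWith A L := ⟨_, L.lipschitz⟩
  obtain ⟨B, hB⟩ : ∃ B, LipschitzWith B L.symm := ⟨_, L.symm.lipschitz⟩
  have hp : (0 : ℝ≥0) < A * B + 1 := by positivity
  have h1 := plsg_word (ε := 1 / (A * B + 1)) (by positivity) h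
  clear h
  induction h1 with
  | id =>
    have : (fun y => L (id (L.symm (y - b))) + b) = id := by
      funext y
      simp
    rw [this]
    exact Word.id
  | @step Φ d hΦ hd ih =>
    have hs : LipschitzWith 1 fun z : F => z - b :=
      LipschitzWith.of_dist_le_mul fun a c => by simp
    have st := Word.step (d := fun z => L (d (L.symm (z - b)))) ih
      ⟨(TP.clm (L : E →L[ℝ] F)).comp (hd.1.comp ((TP.clm (L.symm : F →L[ℝ] E)).comp
        (TP.id'.sub (TP.const b)))), _, ?_, hA.comp (hd.2.comp (hB.comp hs))⟩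
    · unfold SG
      convert st using 2 with y
      rw [add_sub_cancel_right, L.symm_apply_apply, map_add]
      abel
    · rw [mul_one, one_div, mul_left_comm, inv_mul_lt_iff₀ hp, mul_one]
      exact lt_add_one _

omit [FiniteDimensional ℝ E] in
theorem SG.isotopy {Φ : E → E} (h : SG Φ) : ∃ Θ : E × ℝ → E, Continuous Θ ∧
    (∀ x, Θ (x, 0) = x) ∧ (∀ x, Θ (x, 1) = Φ x) ∧ ∀ r, Injective fun x => Θ (x, r) := by
  induction h with
  | id => exact ⟨Prod.fst, continuous_fst, fun _ => rfl, fun _ => rfl, fun _ => injective_id⟩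
  | @step Φ d hΦ hd ih =>
    obtain ⟨Θ, h1, h2, h3, h4⟩ := ih
    obtain ⟨ht, K, hK, hl⟩ := hd
    have hc := ht.continuous
    refine ⟨fun p => Θ p + (max 0 (min p.2 1)) • d (Θ p), by fun_prop, fun x => ?_, fun x => ?_,
      fun r x y e => h4 r ?_⟩
    · simp [h2]
    · simp [h3]
    · have hl' := plsg_smul hl (le_max_left 0 (min r 1)) (max_le zero_le_one (min_le_right r 1))
      have h5 := plsg_exp hl' (Θ (x, r)) (Θ (y, r))
      have e' : Θ (x, r) + (max 0 (min r 1)) • d (Θ (x, r)) =
        Θ (y, r) + (max 0 (min r 1)) • d (Θ (y, r)) := e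
      rw [e', sub_self, norm_zero] at h5
      have hK' : (0 : ℝ) < 1 - K := sub_pos.2 hK
      have h6 : ‖Θ (x, r) - Θ (y, r)‖ ≤ 0 := by
        by_contra hn
        exact absurd h5 (not_le.2 (mul_pos hK' (not_le.1 hn)))
      exact sub_eq_zero.1 (norm_le_zero_iff.1 h6)

omit [NormedAddCommGroup E] [NormedSpace ℝ E] [FiniteDimensional ℝ E] [FiniteDimensional ℝ F] in
theorem Eqv.refl' {Z C : Set E} {u u' : E → F} (h : EqOn u u' Z) : Eqv Z C u u' :=
  ⟨id, SG.id', fun _ _ => EventuallyEq.rfl, fun _ hx => h hx⟩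

omit [NormedAddCommGroup E] [NormedSpace ℝ E] [FiniteDimensional ℝ E] in
theorem Eqv.symm {Z C : Set E} {u u' : E → F} (hC : C ⊆ Z) (h : Eqv Z C u u') :
    Eqv Z C u' u := by
  obtain ⟨Φ, h1, h2, h3⟩ := h
  refine ⟨invFun Φ, h1.inv, fun c hc => ?_, fun x hx => h1.lh.inv_eq (h3 x hx)⟩
  have e : u' c = u c := (h3 c (hC hc)).symm.trans (h2 c hc).self_of_nhds
  rw [e]
  exact (h2 c hc).mono fun y hy => h1.lh.inv_eq hy

omit [NormedAddCommGroup E] [NormedSpace ℝ E] [FiniteDimensional ℝ E] [FiniteDimensional ℝ F] in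
theorem Eqv.trans {Z C : Set E} {u u' u'' : E → F} (hC : C ⊆ Z) (h : Eqv Z C u u')
    (h' : Eqv Z C u' u'') : Eqv Z C u u'' := by
  obtain ⟨Φ, h1, h2, h3⟩ := h
  obtain ⟨Ψ, g1, g2, g3⟩ := h'
  refine ⟨Ψ ∘ Φ, g1.comp h1, fun c hc => ?_, fun x hx => ?_⟩
  · have e : u' c = u c := (h3 c (hC hc)).symm.trans (h2 c hc).self_of_nhds
    have g4 := g2 c hc
    rw [e] at g4
    filter_upwards [h2 c hc, g4] with y a b
    rw [comp_apply, a]
    exact b
  · rw [comp_apply, h3 x hx, g3 x hx]

end BEp
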