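import Pool.Agent.Work.MP_f0515e_an.Pos.PLIE0

/-!
EXPORT (PL). Isotopy extension.

Plan.  `ie`, local step at `r₀`: extend `lam j` along `u r₀` (`Poly.ext`), clamp it by `L * cut`; put
`d r z = ∑ j, lam' j z • (w r j - w r₀ j)`; for `|r - r₀| < δ` it is Lipschitz with constant
`ε' ≤ min (1/2) (ε/4)` and `(id + d r) (u r₀ x) = u r x`.  For `s, r` near `r₀` the factor
`(d r - d s) ∘ invFun (id + d s)` is `Fac ε H cut` and moves `u s x` to `u r x`.  Let `A s` say that `Φ`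
exists for `r ∈ Icc 0 s`; if `A s` and `s ≤ s'` near `r₀`, then
`Φ' (z, r) = y + (d (max s (min r s')) - d s) (invFun (id + d s) y)` with `y = Φ (z, min r s)` proves
`A s'`.  Conclude with `IsPreconnected.induction₂'` on `Icc 0 1`.
`ie_germ`: `cut z = max 0 (dcap (φ0 '' C) 1 z - δ)`; by compactness of `Icc 0 1 ×ˢ (X \ O)` a point with
`‖u r x - φ0 c‖ ≤ δ` has `lam j x = 0`, then `Poly.loj`.
`sg_of_segment`: `X = closedBall 0 R`, `cut z = max 0 (R - ‖z‖)`, `lam j = (T - id) j`, `w r j = r • e j`.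
`eqv_line`: `lam j = (b - a) j`, `w r j = r • e j`.  `eqv_vert`: `eqv_line`, apply `l` to a coincidence.
-/

open Set Metric Filter Topology Function BEv
open scoped NNReal

noncomputable section
namespace BEp

variable {n n' : ℕ} {κ : Type} [Fintype κ]

theorem plie_tp {φ0 : (Fin n → ℝ) → Fin n' → ℝ} (h0 : TP φ0) {lam : κ → (Fin n → ℝ) → ℝ}
    (hl : ∀ j, TP (lam j)) (w : κ → Fin n' → ℝ) : TP (fam φ0 lam w) :=
  h0.add (TP.sum _ fun j _ => (hl j).smul_const (w j))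

theorem plie_zero {φ0 : (Fin n → ℝ) → Fin n' → ℝ} {lam : κ → (Fin n → ℝ) → ℝ}
    (w : κ → Fin n' → ℝ) {x : Fin n → ℝ} (h : ∀ j, lam j x = 0) : fam φ0 lam w x = φ0 x := by
  simp [fam, h]

theorem plie_fam (a d : (Fin n → ℝ) → Fin n' → ℝ) (r : ℝ) :
    fam a (fun j x => d x j) (fun j => r • Pi.single j 1) = fun x => a x + r • d x := by
  funext x i
  simp [fam, Pi.single_apply, mul_comm]

theorem plie_loj {X : Set (Fin n → ℝ)} (hX : Poly X) {lam : κ → (Fin n → ℝ) → ℝ}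
    (hl : ∀ j, TP (lam j)) {D : (Fin n → ℝ) → ℝ} (hD : TP D) (h0 : ∀ x, 0 ≤ D x)
    (h : ∀ x ∈ X, D x = 0 → ∀ j, lam j x = 0) : ∃ L : ℝ, ∀ x ∈ X, ∀ j, |lam j x| ≤ L * D x := by
  obtain ⟨M, -, hM⟩ := hX.loj (u := fun x j => lam j x) (TP.pi hl) hD fun x hx e =>
    funext (h x hx e)
  refine ⟨M, fun x hx j => ?_⟩
  have h1 := hM x hx
  rw [abs_of_nonneg (h0 x)] at h1
  exact (norm_le_pi_norm (fun j => lam j x) j).trans h1

theorem plie_gap {X C : Set (Fin n → ℝ)} (hX : IsCompact X) (hC : C.Finite) (hCX : C ⊆ X)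
    {φ0 : (Fin n → ℝ) → Fin n' → ℝ} (h0 : Continuous φ0)
    {lam : κ → (Fin n → ℝ) → ℝ} (hl : ∀ j, Continuous (lam j)) {w : ℝ → κ → Fin n' → ℝ}
    (hw : Continuous w) (hi : ∀ r ∈ Icc (0 : ℝ) 1, InjOn (fam φ0 lam (w r)) X)
    (hz : ∀ c ∈ C, ∀ᶠ x in 𝓝[X] c, ∀ j, lam j x = 0) :
    ∃ δ : ℝ, 0 < δ ∧ δ < 1 ∧ ∀ c ∈ C, ∀ r ∈ Icc (0 : ℝ) 1, ∀ x ∈ X,
      ‖fam φ0 lam (w r) x - φ0 c‖ ≤ δ → ∀ j, lam j x = 0 := by
  have h1 : ∀ c ∈ C, ∀ᶠ δ in 𝓝 (0 : ℝ), ∀ r ∈ Icc (0 : ℝ) 1, ∀ x ∈ X,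
      ‖fam φ0 lam (w r) x - φ0 c‖ ≤ δ → ∀ j, lam j x = 0 := fun c hc => by
    obtain ⟨O, hO, hcO, hs⟩ := mem_nhdsWithin.1 (hz c hc)
    have hg : Continuous fun p : ℝ × (Fin n → ℝ) => fam φ0 lam (w p.1) p.2 := by
      unfold fam
      fun_prop
    have hK := (((isCompact_Icc (a := (0 : ℝ)) (b := 1)).prod (hX.diff hO)).image hg).isClosed
    refine (eventually_closedBall_subset (hK.isOpen_compl.mem_nhds (x := φ0 c) ?_)).mono
      fun δ hδ r hr x hx h => hs ⟨?_, hx⟩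
    · rintro ⟨p, hp, e⟩
      refine hp.2.2 (hi p.1 hp.1 hp.2.1 (hCX hc) (e.trans ?_) ▸ hcO)
      exact (plie_zero _ (hs ⟨hcO, hCX hc⟩)).symm
    · by_contra hn
      exact hδ (mem_closedBall_iff_norm.2 h) ⟨(r, x), ⟨hr, hx, hn⟩, rfl⟩
  obtain ⟨δ, h2, h3, h4⟩ := ((((eventually_all_finite hC).2 h1).and
    (gt_mem_nhds one_pos)).filter_mono (nhdsWithin_le_nhds (s := Ioi 0))).and
      self_mem_nhdsWithin |>.exists |>.imp fun δ h => And.intro h.2 (And.intro h.1.2 h.1.1)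
  exact ⟨δ, h2, h3, h4⟩

/-- Germ version, with the isotopy. -/
theorem ie_germ {X C : Set (Fin n → ℝ)} (hX : Poly X) (hC : C.Finite) (hCX : C ⊆ X)
    {φ0 : (Fin n → ℝ) → Fin n' → ℝ} (h0 : TP φ0)
    {lam : κ → (Fin n → ℝ) → ℝ} (hl : ∀ j, TP (lam j)) {w : ℝ → κ → Fin n' → ℝ}
    (hw : Continuous w) (hi : ∀ r ∈ Icc (0 : ℝ) 1, InjOn (fam φ0 lam (w r)) X)
    (hz : ∀ c ∈ C, ∀ᶠ x in 𝓝[X] c, ∀ j, lam j x = 0) :
    ∃ Φ : (Fin n' → ℝ) × ℝ → Fin n' → ℝ, Continuous Φ ∧ (∀ z, Φ (z, 0) = z) ∧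
      ∀ r ∈ Icc (0 : ℝ) 1, SG (fun z => Φ (z, r)) ∧
        (∀ c ∈ C, (fun z => Φ (z, r)) =ᶠ[𝓝 (φ0 c)] id) ∧
        ∀ x ∈ X, Φ (fam φ0 lam (w 0) x, r) = fam φ0 lam (w r) x := by
  obtain ⟨δ, h1, h2, h3⟩ := plie_gap hX.1 hC hCX h0.continuous (fun j => (hl j).continuous) hw hi hz
  have hc : TP fun z => max 0 (dcap (hC.image φ0).toFinset 1 z - δ) :=
    (TP.const 0).max ((TP.dcap _ _).sub (TP.const δ))
  obtain ⟨Φ, h4, h5, h6⟩ := ie hX h0 hl hw hi hc (fun _ => le_max_left _ _) (fun r hr =>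
    plie_loj hX hl (hc.comp (plie_tp h0 hl (w r))) (fun _ => le_max_left _ _) fun x hx e => by
      have h7 := sub_nonpos.1 (max_eq_left_iff.1 e)
      obtain ⟨p, hp, e'⟩ := exists_of_dcap_lt (h7.trans_lt h2)
      obtain ⟨c, hc, rfl⟩ := (Finite.mem_toFinset _).1 hp
      exact h3 c hc r hr x hx (e' ▸ h7)) ⊤ (fun _ _ _ => trivial) (ε := 1 / 2) (by norm_num)
  refine ⟨Φ, h4, h5, fun r hr => ⟨(h6 r hr).1.sg (by norm_num), fun c hc => ?_, (h6 r hr).2⟩⟩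
  filter_upwards [closedBall_mem_nhds (φ0 c) h1] with z hz'
  exact (h6 r hr).1.fix (max_eq_left (sub_nonpos.2 ((dcap_le 1 z
    ((Finite.mem_toFinset _).2 (mem_image_of_mem φ0 hc))).trans (mem_closedBall_iff_norm.1 hz'))))

theorem eqv_of_fam {X C : Set (Fin n → ℝ)} (hX : Poly X) (hC : C.Finite) (hCX : C ⊆ X)
    {φ0 : (Fin n → ℝ) → Fin n' → ℝ} (h0 : TP φ0)
    {lam : κ → (Fin n → ℝ) → ℝ} (hl : ∀ j, TP (lam j)) {w : ℝ → κ → Fin n' → ℝ}
    (hw : Continuous w) (hi : ∀ r ∈ Icc (0 : ℝ) 1, InjOn (fam φ0 lam (w r)) X)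
    (hz : ∀ c ∈ C, ∀ᶠ x in 𝓝[X] c, ∀ j, lam j x = 0) :
    Eqv X C (fam φ0 lam (w 0)) (fam φ0 lam (w 1)) := by
  obtain ⟨Φ, -, -, h⟩ := ie_germ hX hC hCX h0 hl hw hi hz
  obtain ⟨h1, h2, h3⟩ := h 1 (right_mem_Icc.2 zero_le_one)
  refine ⟨_, h1, fun c hc => ?_, h3⟩
  rw [plie_zero _ ((hz c hc).self_of_nhdsWithin (hCX hc))]
  exact h2 c hc

/-- PL9: a map supported in a polyhedron whose segment to the identity is injective. -/
theorem sg_of_segment {T : (Fin n → ℝ) → Fin n → ℝ} (hT : TP T) {R : ℝ}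
    (hs : ∀ x, R ≤ ‖x‖ → T x = x)
    (hi : ∀ r ∈ Icc (0 : ℝ) 1, Injective fun x => x + r • (T x - x)) : SG T := by
  have hc : TP fun z : Fin n → ℝ => max 0 (R - ‖z‖) :=
    (TP.const 0).max ((TP.const R).sub TP.id'.norm_pi)
  have hl : ∀ j, TP fun x => (T x - x) j := fun j => (hT.sub TP.id').apply j
  obtain ⟨Φ, -, -, h⟩ := ie (Poly.closedBall (0 : Fin n → ℝ) R) TP.id' hl
    (w := fun r j => r • Pi.single j 1) (by fun_prop)
    (fun r hr => by rw [plie_fam]; exact (hi r hr).injOn) hc (fun _ => le_max_left _ _)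
    (fun r hr => plie_loj (Poly.closedBall _ _) hl (hc.comp (plie_tp TP.id' hl _))
      (fun _ => le_max_left _ _) fun x _ e j => by
        rw [plie_fam] at e
        have h1 : R ≤ ‖x + r • (T x - x)‖ := sub_nonpos.1 (max_eq_left_iff.1 e)
        have h2 : x + r • (T x - x) = x := hi r hr (by simp only [hs _ h1, sub_self, smul_zero,
          add_zero])
        rw [h2] at h1
        rw [hs x h1, sub_self]
        rfl) ⊤ (fun _ _ _ => trivial) (ε := 1 / 2) (by norm_num)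
  obtain ⟨h1, h2⟩ := h 1 (right_mem_Icc.2 zero_le_one)
  have e : T = fun z => Φ (z, 1) := funext fun x => by
    rcases le_total ‖x‖ R with hx | hx
    · have h3 := (h2 x (mem_closedBall_zero_iff.2 hx)).symm
      rw [plie_fam, plie_fam] at h3
      simpa using h3
    · exact (hs x hx).trans (h1.fix (max_eq_left (sub_nonpos.2 hx))).symm
  rw [e]
  exact h1.sg (by norm_num)

/-- Straight line homotopies of embeddings. -/
theorem eqv_line {X C : Set (Fin n → ℝ)} (hX : Poly X) (hC : C.Finite) (hCX : C ⊆ X)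
    {a b : (Fin n → ℝ) → Fin n' → ℝ} (ha : TP a) (hb : TP b)
    (hi : ∀ r ∈ Icc (0 : ℝ) 1, InjOn (fun x => (1 - r) • a x + r • b x) X)
    (hz : ∀ c ∈ C, ∀ᶠ x in 𝓝[X] c, a x = b x) : Eqv X C a b := by
  have h := eqv_of_fam hX hC hCX ha (fun j => (hb.sub ha).apply j)
    (w := fun r j => r • Pi.single j 1) (by fun_prop) (fun r hr => by
      rw [plie_fam]
      convert hi r hr using 2
      module) fun c hc => (hz c hc).mono fun x hx j => by rw [hx, sub_self]; rfl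
  rw [plie_fam, plie_fam] at h
  simpa using h

/-- Change of the height function which keeps the order at double points of the projection. -/
theorem eqv_vert {X C : Set (Fin n → ℝ)} (hX : Poly X) (hC : C.Finite) (hCX : C ⊆ X)
    {P : (Fin n → ℝ) → Fin n' → ℝ} (hP : TP P) {w : Fin n' → ℝ} {l : (Fin n' → ℝ) →L[ℝ] ℝ}
    (hw : l w = 1) (hl : ∀ x, l (P x) = 0) {h h' : (Fin n → ℝ) → ℝ} (hh : TP h) (hh' : TP h')
    (ho : ∀ x ∈ X, ∀ y ∈ X, x ≠ y → P x = P y →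
      (h x < h y ∧ h' x < h' y) ∨ (h y < h x ∧ h' y < h' x))
    (hz : ∀ c ∈ C, ∀ᶠ x in 𝓝[X] c, h x = h' x) :
    Eqv X C (fun x => P x + h x • w) (fun x => P x + h' x • w) := by
  refine eqv_line hX hC hCX (hP.add (hh.smul_const w)) (hP.add (hh'.smul_const w))
    (fun r hr x hx y hy e => ?_) fun c hc => (hz c hc).mono fun x hx => by rw [hx]
  have e1 : ∀ x, (1 - r) • (P x + h x • w) + r • (P x + h' x • w) =
      P x + ((1 - r) * h x + r * h' x) • w := fun x => by module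
  simp only [e1] at e
  have e2 := congrArg l e
  simp only [map_add, map_smul, hl, hw, zero_add, smul_eq_mul, mul_one] at e2
  rw [e2, add_left_inj] at e
  by_contra hne
  obtain ⟨h1, h2⟩ := hr
  rcases ho x hx y hy hne e with ⟨h3, h4⟩ | ⟨h3, h4⟩ <;>
    rcases h1.eq_or_lt with rfl | h5 <;> nlinarith

end BEp
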