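import Pool.Agent.Work.MP_f0515e_an.Pos.BMoll
import Pool.Agent.Work.MP_f0515e_an.Pos.PLIE
import Pool.Agent.Work.MP_f0515e_an.Pos.ADefs

-- merged part: Pool.Agent.Work.MP_f0515e_an.Pos.BClass
section
/-! TASK BClass. Members and closure properties of the classes WW and CC.
Plan. GD.comp, WW.comp, CC.comp from App.comp (LH gives BL; invFun of a composition: LH.inv_comp or a direct argument). An affine isomorphism is GD and LH, App by the constant sequence.
id + d with Lip d < 1 is Accr and LH, so SG.ww by induction on the word. cc_of_accr: mix c Phi is Accr, TP and LH (Accr.lh), c = 1/(j+1), App.of_seq. cc_of_segment: the map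
x + r (T x - x), r < 1, is SG by sg_of_segment (its own segment is a part of the segment of T); r = 1 - 1/(j+2). -/

open Set Metric Filter Topology Function BEv MeasureTheory
open scoped NNReal ENNReal ContDiff

noncomputable section
namespace BEp

variable {n : ℕ}

theorem BClass_inv {w w' : (Fin n → ℝ) → Fin n → ℝ} (h : Bijective w) (h' : Bijective w') :
    invFun (w ∘ w') = invFun w' ∘ invFun w := by
  funext y
  have h1 := leftInverse_invFun (h.comp h').1 (invFun w' (invFun w y))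
  rwa [comp_apply, rightInverse_invFun h'.2, rightInverse_invFun h.2] at h1

theorem BClass_self {Kd : ((Fin n → ℝ) → Fin n → ℝ) → Prop} {T : (Fin n → ℝ) → Fin n → ℝ}
    (hT : TP T) (h : Kd T) : App Kd T := by
  obtain ⟨L, hL⟩ := hT.lip
  exact ⟨hT, L, fun R ε hε => ⟨T, h, hL, fun x _ => by simpa using hε.le, by
    simp only [sub_self, ← ofReal_norm, norm_zero, ENNReal.ofReal_zero, lintegral_zero,
      zero_le]⟩⟩

theorem GD.comp {w w' : (Fin n → ℝ) → Fin n → ℝ} (h : GD w) (h' : GD w') : GD (w ∘ w') := by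
  obtain ⟨⟨h1, ⟨L, h2⟩, M, h3⟩, h4, h5⟩ := h
  obtain ⟨⟨k1, ⟨L', k2⟩, M', k3⟩, k4, k5⟩ := h'
  refine ⟨⟨h1.comp k1, ⟨_, h2.comp k2⟩, ?_⟩, h4.comp k4, ?_⟩
  · rw [BClass_inv h1 k1]
    exact ⟨_, k3.comp h3⟩
  · rw [BClass_inv h1 k1]
    exact k5.comp h5

theorem lh_bl {w : (Fin n → ℝ) → Fin n → ℝ} (h : LH w) : BL w := ⟨h.1, h.tp.lip, h.tpi.lip⟩

theorem WW.comp {w w' : (Fin n → ℝ) → Fin n → ℝ} (h : WW w) (h' : WW w') : WW (w ∘ w') :=
  ⟨h.1.comp h'.1, App.comp (Kd := GD) (fun _ h => h.1) (fun _ _ => GD.comp) h.2 h'.2⟩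

theorem ww_affine (L : (Fin n → ℝ) ≃L[ℝ] (Fin n → ℝ)) (b : Fin n → ℝ) :
    WW (fun x => L x + b) := by
  have h : LH (fun x => L x + b) :=
    pa2_of_inv ((TP.clm (L : (Fin n → ℝ) →L[ℝ] (Fin n → ℝ))).add (TP.const b))
      ((TP.clm (L.symm : (Fin n → ℝ) →L[ℝ] (Fin n → ℝ))).comp (TP.id'.sub (TP.const b)))
      (fun x => by simp) fun x => by simp
  have e : invFun (fun x => L x + b) = fun y => L.symm (y - b) :=
    funext fun y => h.inv_eq (by simp)
  refine ⟨h, BClass_self h.tp ⟨lh_bl h, L.contDiff.add contDiff_const, ?_⟩⟩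
  rw [e]
  exact L.symm.contDiff.comp (contDiff_id.sub contDiff_const)

theorem BClass_id : WW (id : (Fin n → ℝ) → Fin n → ℝ) := by
  have h := ww_affine (ContinuousLinearEquiv.refl ℝ (Fin n → ℝ)) 0
  have e : (fun x => ContinuousLinearEquiv.refl ℝ (Fin n → ℝ) x + 0) = id := funext fun x => by simp
  rwa [e] at h

theorem SG.ww {Φ : (Fin n → ℝ) → Fin n → ℝ} (h : SG Φ) : WW Φ := by
  induction h with
  | id => exact BClass_id
  | @step Φ d _ hd ih =>
    obtain ⟨ht, K, hK, hl⟩ := hd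
    have h1 : Accr fun x => x + d x := fun x y i hi => by
      have h2 := hl.dist_le_mul y x
      have h3 : d y i - d x i ≤ ‖d y - d x‖ :=
        (Real.le_norm_self _).trans (norm_le_pi_norm (d y - d x) i)
      have h4 : (K : ℝ) ≤ 1 := hK.le
      rw [dist_eq_norm, dist_eq_norm, norm_sub_rev y x] at h2
      have h5 := mul_le_of_le_one_left (norm_nonneg (x - y)) h4
      simp only [Pi.add_apply]
      linarith
    exact WW.comp ⟨plsg_lh ht hK hl, app_gd_of_accr h1 (TP.id'.add ht)⟩ ih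

theorem WW.cc {w : (Fin n → ℝ) → Fin n → ℝ} (h : WW w) : CC w := BClass_self h.1.tp h

theorem CC.tp {T : (Fin n → ℝ) → Fin n → ℝ} (h : CC T) : TP T := h.1

theorem CC.comp {T T' : (Fin n → ℝ) → Fin n → ℝ} (h : CC T) (h' : CC T') : CC (T ∘ T') :=
  App.comp (Kd := WW) (fun _ h => lh_bl h.1) (fun _ _ => WW.comp) h h'

theorem CC.id' : CC (id : (Fin n → ℝ) → Fin n → ℝ) := BClass_id.cc

theorem cc_sign {Φ : (Fin n → ℝ) → Fin n → ℝ} (h : SG Φ) {σ : ℝ} (hσ : σ = 1 ∨ σ = -1) :
    CC (fun x => σ • Φ x) := by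
  rcases hσ with rfl | rfl
  · simpa only [one_smul] using h.ww.cc
  · have h1 := ((ww_affine (ContinuousLinearEquiv.neg ℝ) 0).comp h.ww).cc
    have e : (fun x => ContinuousLinearEquiv.neg ℝ x + 0) ∘ Φ = fun x => (-1 : ℝ) • Φ x :=
      funext fun x => by simp
    rwa [e] at h1

theorem CC.conj {T : (Fin n → ℝ) → Fin n → ℝ} (h : CC T) (L : (Fin n → ℝ) ≃L[ℝ] (Fin n → ℝ))
    (b : Fin n → ℝ) : CC (fun y => L (T (L.symm (y - b))) + b) := by
  have h1 := (ww_affine L b).cc.comp (h.comp (ww_affine L.symm (-L.symm b)).cc)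
  have e : ((fun x => L x + b) ∘ T ∘ fun x => L.symm x + -L.symm b) =
      fun y => L (T (L.symm (y - b))) + b :=
    funext fun y => by simp only [comp_apply, map_sub, sub_eq_add_neg (L.symm y)]
  rwa [e] at h1

theorem BClass_lim {T : (Fin n → ℝ) → Fin n → ℝ} (hT : TP T)
    (h : ∀ c : ℝ, 0 < c → c ≤ 1 → WW (mix c T)) : CC T := by
  obtain ⟨L, hL⟩ := hT.lip
  have h0 : ∀ j : ℕ, (0 : ℝ) < 1 / ((j : ℝ) + 1) := fun j => Nat.one_div_pos_of_nat
  have h1 : ∀ j : ℕ, 1 / ((j : ℝ) + 1) ≤ 1 := fun j =>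
    (div_le_one (by positivity)).2 (le_add_of_nonneg_left j.cast_nonneg)
  have hc : Tendsto (fun j : ℕ => 1 / ((j : ℝ) + 1)) atTop (𝓝 0) :=
    tendsto_one_div_add_atTop_nhds_zero_nat
  refine App.of_seq hT (L := 1 + L) (w := fun j => mix (1 / ((j : ℝ) + 1)) T)
    (fun j => h _ (h0 j) (h1 j)) (fun j => ?_) (fun x => ?_) ?_
  · exact (plsg_smul LipschitzWith.id (h0 j).le (h1 j)).add
      (plsg_smul hL (sub_nonneg.2 (h1 j)) (sub_le_self _ (h0 j).le))
  · have h2 := (hc.smul_const x).add ((hc.const_sub 1).smul_const (T x))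
    rwa [zero_smul, sub_zero, one_smul, zero_add] at h2
  · filter_upwards [hL.ae_differentiableAt (μ := volume)] with x hx
    have h2 := (hc.smul_const (ContinuousLinearMap.id ℝ (Fin n → ℝ))).add
      ((hc.const_sub 1).smul_const (fderiv ℝ T x))
    rw [zero_smul, sub_zero, one_smul, zero_add] at h2
    refine h2.congr fun j => (HasFDerivAt.fderiv ?_).symm
    exact ((hasFDerivAt_id x).const_smul (1 / ((j : ℝ) + 1))).add
      (hx.hasFDerivAt.const_smul (1 - 1 / ((j : ℝ) + 1)))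

theorem cc_of_accr {Φ : (Fin n → ℝ) → Fin n → ℝ} (h : Accr Φ) (hΦ : TP Φ) : CC Φ := by
  refine BClass_lim hΦ fun c h0 h1 => ⟨h.lh hΦ h0 h1, app_gd_of_accr (fun x y i hi => ?_) (hΦ.mix c)⟩
  have h2 := mul_le_mul_of_nonneg_left (h x y i hi) (sub_nonneg.2 h1)
  have h3 := mul_nonneg h0.le ((norm_nonneg _).trans hi)
  simp only [mix, Pi.add_apply, Pi.smul_apply, smul_eq_mul]
  linarith

theorem cc_of_segment {T : (Fin n → ℝ) → Fin n → ℝ} (hT : TP T) {R : ℝ}
    (hs : ∀ x, R ≤ ‖x‖ → T x = x)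
    (hi : ∀ r ∈ Ico (0 : ℝ) 1, Injective fun x => x + r • (T x - x)) : CC T := by
  refine BClass_lim hT fun c h0 h1 => (sg_of_segment (hT.mix c) (R := R) (fun x hx => ?_)
    fun r hr => ?_).ww
  · rw [mix, hs x hx, ← add_smul, add_sub_cancel, one_smul]
  · have e : (fun x => x + r • (mix c T x - x)) = fun x => x + (r * (1 - c)) • (T x - x) :=
      funext fun x => by
        rw [mix]
        module
    rw [e]
    refine hi _ ⟨mul_nonneg hr.1 (sub_nonneg.2 h1), ?_⟩
    nlinarith [mul_le_mul_of_nonneg_right hr.2 (sub_nonneg.2 h1)]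

end BEp
end
end

-- merged part: Pool.Agent.Work.MP_f0515e_an.Pos.ACj
section
/-! Conjugation by charts, gluing, localisation, and the collapse psi. -/

open Set Metric Filter Topology Function BEv MeasureTheory
open scoped NNReal ENNReal

noncomputable section
namespace BEp

variable {m : ℕ}

theorem norm_loc_sub_le {η : V m → ℝ} (Φ : V m → V m) {x : V m} (h : 0 ≤ η x) :
    ‖loc η Φ x - x‖ ≤ η x := by
  refine (pi_norm_le_iff_of_nonneg h).2 fun i => ?_
  rw [Pi.sub_apply, Real.norm_eq_abs, loc, abs_le]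
  constructor
  · have := le_max_left (x i - η x) (min (Φ x i) (x i + η x))
    linarith
  · have : max (x i - η x) (min (Φ x i) (x i + η x)) ≤ x i + η x :=
      max_le (by linarith) (min_le_right _ _)
    linarith

theorem loc_congr {η η' : V m → ℝ} {Φ Φ' : V m → V m} {x : V m} (h : η x = η' x)
    (h' : Φ x = Φ' x) : loc η Φ x = loc η' Φ' x := by
  funext i
  rw [loc, loc, h, h']

theorem loc_of_fix {η : V m → ℝ} {Φ : V m → V m} {x : V m} (h : 0 ≤ η x) (h' : Φ x = x) :
    loc η Φ x = x := by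
  rw [loc_eq_of_le fun i => by rw [h', sub_self, abs_zero]; exact h, h']

theorem measurable_loc {η : V m → ℝ} {Φ : V m → V m} (h : Measurable η) (h' : Measurable Φ) :
    Measurable (loc η Φ) := by
  refine measurable_pi_lambda _ fun i => ?_
  have h1 : Measurable fun x : V m => x i := measurable_pi_apply i
  exact (h1.sub h).max (((measurable_pi_apply i).comp h').min (h1.add h))

section
variable (L : V m ≃L[ℝ] V m) (c : V m) {s : ℝ} (ω : V m) {Φ Φ' : V m → V m} {z : V m}

theorem xi_cj (hs : s ≠ 0) (Φ : V m → V m) (z : V m) :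
    xi L c s ω (cj L c s ω Φ z) = Φ (xi L c s ω z) := by
  rw [xi, cj, add_sub_cancel_left, L.apply_symm_apply, inv_smul_smul₀ hs, add_sub_cancel_right]

theorem cj_eq_self (hs : s ≠ 0) (h : Φ (xi L c s ω z) = xi L c s ω z) : cj L c s ω Φ z = z :=
  by rw [cj, h, xi, sub_add_cancel, smul_inv_smul₀ hs, L.symm_apply_apply, add_sub_cancel]

theorem cj_congr (h : Φ (xi L c s ω z) = Φ' (xi L c s ω z)) :
    cj L c s ω Φ z = cj L c s ω Φ' z := by
  rw [cj, cj, h]

theorem tp_xi (s : ℝ) : TP (xi L c s ω) := by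
  have h1 : TP fun z : V m => L (z - c) :=
    (TP.clm (L : V m →L[ℝ] V m)).comp (TP.id'.sub (TP.const c))
  exact (h1.const_smul s⁻¹).sub (TP.const ω)

theorem tp_cj (s : ℝ) (h : TP Φ) : TP (cj L c s ω Φ) := by
  have h1 : TP fun z : V m => s • (Φ (xi L c s ω z) + ω) :=
    ((h.comp (tp_xi L c ω s)).add (TP.const ω)).const_smul s
  exact (TP.const c).add ((TP.clm (L.symm : V m →L[ℝ] V m)).comp h1)

theorem cc_cj (hs : s ≠ 0) (h : CC Φ) : CC (cj L c s ω Φ) := by
  let M : V m ≃L[ℝ] V m := ContinuousLinearEquiv.equivOfInverse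
    (s • (L.symm : V m →L[ℝ] V m)) (s⁻¹ • (L : V m →L[ℝ] V m))
    (fun x => by simp [smul_smul, hs]) (fun x => by simp [smul_smul, hs])
  have hM : ∀ x, M x = s • L.symm x := fun x => rfl
  have hM' : ∀ x, M.symm x = s⁻¹ • L x := fun x => rfl
  have e : cj L c s ω Φ = fun y => M (Φ (M.symm (y - (c + M ω)))) + (c + M ω) := by
    funext y
    have e1 : M.symm (y - (c + M ω)) = xi L c s ω y := by
      rw [← sub_sub, map_sub, M.symm_apply_apply, hM', xi]
    rw [e1, cj, hM, hM, map_smul, map_add, smul_add]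
    abel
  rw [e]
  exact h.conj M _

theorem measurable_cj (s : ℝ) (h : Measurable Φ) : Measurable (cj L c s ω Φ) := by
  have h1 : Measurable fun z : V m => Φ (xi L c s ω z) :=
    h.comp (tp_xi L c ω s).continuous.measurable
  have h2 : Continuous fun y : V m => c + L.symm (s • (y + ω)) := by fun_prop
  exact h2.measurable.comp h1

theorem ll_cj (hs : 0 < s) {Λ k : ℝ} (hΛ : 0 ≤ Λ) (hk : 0 ≤ k) (h1 : ∀ y, ‖L y‖ ≤ Λ * ‖y‖)
    (h2 : ∀ y, ‖L.symm y‖ ≤ Λ * ‖y‖) (h : LL Φ (xi L c s ω z) k) :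
    LL (cj L c s ω Φ) z (Λ ^ 2 * k) := by
  have a1 : LL (xi L c s ω) z (s⁻¹ * Λ) := LL.of_forall (fun y y' => by
    have e : xi L c s ω y - xi L c s ω y' = s⁻¹ • L (y - y') := by
      rw [xi, xi, sub_sub_sub_cancel_right, ← smul_sub, ← map_sub, sub_sub_sub_cancel_right]
    rw [e, norm_smul, Real.norm_of_nonneg (inv_pos.2 hs).le, mul_assoc]
    exact mul_le_mul_of_nonneg_left (h1 _) (inv_pos.2 hs).le) z
  have a2 : LL (fun y : V m => c + L.symm (s • (y + ω))) (Φ (xi L c s ω z)) (Λ * s) :=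
    LL.of_forall (fun y y' => by
      rw [add_sub_add_left_eq_sub, ← map_sub, ← smul_sub, add_sub_add_right_eq_sub]
      refine (h2 _).trans (le_of_eq ?_)
      rw [norm_smul, Real.norm_of_nonneg hs.le, mul_assoc]) _
  have a3 := LL.comp (g := fun y : V m => c + L.symm (s • (y + ω)))
    (f := fun y => Φ (xi L c s ω y)) a2 (h.comp a1 hk) (mul_nonneg hΛ hs.le)
  refine a3.mono (le_of_eq ?_)
  field_simp

end

section
variable {κ : Type} [Fintype κ] {φ : κ → V m → V m} {U : κ → Set (V m)} {z : V m}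

theorem gl_eq_self (h : ∀ a, φ a z = z) : gl φ z = z := by
  rw [gl, Finset.sum_eq_zero fun a _ => by rw [h a, sub_self], add_zero]

theorem gl_eq (a : κ) (h : ∀ a', a' ≠ a → φ a' z = z) : gl φ z = φ a z := by
  rw [gl, Finset.sum_eq_single a (fun b _ hb => by rw [h b hb, sub_self])
    (fun ha => absurd (Finset.mem_univ a) ha), add_sub_cancel]

theorem gl_congr {φ' : κ → V m → V m} (h : ∀ a, φ a z = φ' a z) : gl φ z = gl φ' z := by
  rw [gl, gl, Finset.sum_congr rfl fun a _ => by rw [h a]]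

theorem tp_gl (h : ∀ a, TP (φ a)) : TP (gl φ) :=
  TP.id'.add (TP.sum Finset.univ fun a _ => (h a).sub TP.id')

theorem measurable_gl (h : ∀ a, Measurable (φ a)) : Measurable (gl φ) :=
  measurable_id.add (Finset.measurable_sum Finset.univ fun a _ => (h a).sub measurable_id)

theorem cc_gl (hd : ∀ a a', a ≠ a' → Disjoint (U a) (U a')) (h1 : ∀ a z, z ∉ U a → φ a z = z)
    (h2 : ∀ a, MapsTo (φ a) (U a) (U a)) (hc : ∀ a, CC (φ a)) : CC (gl φ) := by
  classical
  have key : ∀ S : Finset κ, CC fun z => z + ∑ a ∈ S, (φ a z - z) := by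
    intro S
    induction S using Finset.induction_on with
    | empty =>
      simp only [Finset.sum_empty, add_zero]
      exact CC.id'
    | insert a S ha ih =>
      have e : (fun z => z + ∑ b ∈ insert a S, (φ b z - z)) =
          φ a ∘ fun z => z + ∑ b ∈ S, (φ b z - z) := by
        funext z
        rw [Finset.sum_insert ha, comp_apply]
        by_cases hz : ∃ b ∈ S, z ∈ U b
        · obtain ⟨b, hb, hzb⟩ := hz
          have hab : a ≠ b := fun h => ha (h ▸ hb)
          have e1 : ∑ b' ∈ S, (φ b' z - z) = φ b z - z :=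
            Finset.sum_eq_single b (fun b' _ hb' => by
              rw [h1 b' z (disjoint_right.1 (hd b' b hb') hzb), sub_self])
              (fun h => absurd hb h)
          rw [e1, h1 a z (disjoint_right.1 (hd a b hab) hzb), sub_self, zero_add, add_sub_cancel,
            h1 a _ (disjoint_right.1 (hd a b hab) (h2 b hzb))]
        · have e1 : ∑ b' ∈ S, (φ b' z - z) = 0 :=
            Finset.sum_eq_zero fun b hb => by rw [h1 b z fun h => hz ⟨b, hb, h⟩, sub_self]
          rw [e1, add_zero, add_zero, add_sub_cancel]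
      rw [e]
      exact (hc a).comp ih
  exact key Finset.univ

theorem gl_ev (hU : ∀ a, IsClosed (U a)) (hd : ∀ a a', a ≠ a' → Disjoint (U a) (U a'))
    (h1 : ∀ a z, z ∉ U a → φ a z = z) {a : κ} (hz : z ∈ U a) : gl φ =ᶠ[𝓝 z] φ a := by
  have h : ∀ᶠ y in 𝓝 z, ∀ a', a' ≠ a → y ∉ U a' := by
    refine eventually_all.2 fun a' => ?_
    by_cases ha : a' = a
    · exact Eventually.of_forall fun y h => absurd ha h
    · filter_upwards [(hU a').isOpen_compl.mem_nhds (disjoint_right.1 (hd a' a ha) hz)]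
        with y hy _ using hy
  filter_upwards [h] with y hy using gl_eq a fun a' ha => h1 a' y (hy a' ha)

theorem gl_ev_id (hU : ∀ a, IsClosed (U a)) (h1 : ∀ a z, z ∉ U a → φ a z = z)
    (hz : ∀ a, z ∉ U a) : gl φ =ᶠ[𝓝 z] id := by
  have h : ∀ᶠ y in 𝓝 z, ∀ a, y ∉ U a :=
    eventually_all.2 fun a => (hU a).isOpen_compl.mem_nhds (hz a)
  filter_upwards [h] with y hy using gl_eq_self fun a => h1 a y (hy a)

end

section
variable (I : Finset (Ix m)) (N : ℕ)

theorem ACj_eta (x y : V m) : |max (1 - ‖x‖) 0 - max (1 - ‖y‖) 0| ≤ ‖x - y‖ := by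
  refine (abs_max_sub_max_le_abs _ _ _).trans ?_
  rw [sub_sub_sub_cancel_left, abs_sub_comm]
  exact abs_norm_sub_norm_le x y

theorem ACj_succ (x : V m) :
    psi I (N + 1) x = loc (fun x => max (1 - ‖x‖) 0) (pr I) (psi I N x) :=
  iterate_succ_apply' _ N x

theorem ACj_cc : CC (loc (fun x : V m => max (1 - ‖x‖) 0) (pr I)) := by
  refine cc_of_accr (Accr.loc (fun x y i hi => ?_) ACj_eta) (TP.loc (TP.id'.pr I) ?_)
  · have := norm_nonneg (x - y)
    rw [pr, pr]
    split_ifs <;> linarith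
  · exact ((TP.const 1).sub TP.id'.norm_pi).max (TP.const 0)

theorem ACj_lip (x y : V m) :
    ‖loc (fun x : V m => max (1 - ‖x‖) 0) (pr I) x - loc (fun x : V m => max (1 - ‖x‖) 0) (pr I) y‖
      ≤ 2 * ‖x - y‖ := by
  have h0 := norm_nonneg (x - y)
  refine (pi_norm_le_iff_of_nonneg (by linarith)).2 fun i => ?_
  have h1 := abs_le.1 (ACj_eta x y)
  have h2 : |x i - y i| ≤ ‖x - y‖ := norm_le_pi_norm (x - y) i
  have h3 : |pr I x i - pr I y i| ≤ ‖x - y‖ := by
    have := (norm_le_pi_norm (pr I (x - y)) i).trans (norm_pr_le I (x - y))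
    rwa [pr_sub] at this
  have h4 := abs_le.1 h2
  rw [Pi.sub_apply, Real.norm_eq_abs, loc, loc]
  refine (abs_max_sub_max_le_max _ _ _ _).trans (max_le ?_
    ((abs_min_sub_min_le_max _ _ _ _).trans (max_le (by linarith) ?_))) <;>
  exact abs_le.2 ⟨by linarith [h1.1, h1.2, h4.1], by linarith [h1.1, h1.2, h4.2]⟩

theorem ACj_in (x : V m) {l : Ix m} (hl : l ∈ I) :
    loc (fun x : V m => max (1 - ‖x‖) 0) (pr I) x l = x l := by
  have h0 := le_max_right (1 - ‖x‖) 0
  rw [loc, pr, if_pos hl, min_eq_left (by linarith), max_eq_right (by linarith)]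

theorem ACj_out (x : V m) {l : Ix m} (hl : l ∉ I) :
    |loc (fun x : V m => max (1 - ‖x‖) 0) (pr I) x l| ≤ max (|x l| - max (1 - ‖x‖) 0) 0 := by
  have h0 := le_max_right (1 - ‖x‖) 0
  have h1 := le_max_left (|x l| - max (1 - ‖x‖) 0) 0
  have h2 := le_max_right (|x l| - max (1 - ‖x‖) 0) 0
  have h3 := le_abs_self (x l)
  have h4 := neg_abs_le (x l)
  rw [loc, pr, if_neg hl, abs_le]
  exact ⟨le_max_of_le_right (le_min (by linarith) (by linarith)),
    max_le (by linarith) (min_le_of_left_le h2)⟩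

theorem cc_psi : CC (psi I N) := by
  induction N with
  | zero => exact CC.id'
  | succ N ih =>
    rw [psi, iterate_succ']
    exact (ACj_cc I).comp ih

theorem psi_lip (x y : V m) : ‖psi I N x - psi I N y‖ ≤ 2 ^ N * ‖x - y‖ := by
  induction N with
  | zero => simp [psi]
  | succ N ih =>
    rw [ACj_succ, ACj_succ, pow_succ]
    refine (ACj_lip I _ _).trans ?_
    linarith

theorem psi_off {x : V m} (hx : 1 ≤ ‖x‖) : psi I N x = x :=
  iterate_fixed (loc_eq_self (max_eq_right (by linarith))) N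

theorem pr_psi (x : V m) : pr I (psi I N x) = pr I x := by
  induction N with
  | zero => rfl
  | succ N ih =>
    rw [ACj_succ, ← ih]
    funext l
    rw [pr, pr]
    split_ifs with hl
    · exact ACj_in I _ hl
    · rfl

theorem norm_psi_le (x : V m) : ‖psi I N x‖ ≤ ‖x‖ := by
  induction N with
  | zero => exact le_rfl
  | succ N ih =>
    rw [ACj_succ]
    refine le_trans ((pi_norm_le_iff_of_nonneg (norm_nonneg _)).2 fun l => ?_) ih
    refine le_trans ?_ (norm_le_pi_norm (psi I N x) l)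
    by_cases hl : l ∈ I
    · rw [ACj_in I _ hl]
    · refine (ACj_out I _ hl).trans (max_le ?_ (norm_nonneg _))
      have := le_max_right (1 - ‖psi I N x‖) 0
      rw [Real.norm_eq_abs]
      linarith

theorem psi_eq_pr {γ : ℝ} (hγ : 0 < γ) (hN : 1 ≤ γ * N) {x : V m} (hx : ‖x‖ ≤ 1 - γ) :
    psi I N x = pr I x := by
  have key : ∀ (k : ℕ) (l : Ix m), l ∉ I → |psi I k x l| ≤ max (|x l| - γ * k) 0 := by
    intro k l hl
    induction k with
    | zero =>
      rw [Nat.cast_zero, mul_zero, sub_zero]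
      exact le_max_left _ _
    | succ k ih =>
      rw [ACj_succ]
      refine (ACj_out I _ hl).trans (max_le ?_ (le_max_right _ _))
      have h1 := le_max_left (1 - ‖psi I k x‖) 0
      have h2 := norm_psi_le I k x
      rcases le_max_iff.1 ih with h | h
      · refine le_max_of_le_left ?_
        push_cast
        linarith
      · exact le_max_of_le_right (by linarith)
  funext l
  by_cases hl : l ∈ I
  · have h := congrFun (pr_psi I N x) l
    rwa [pr, if_pos hl] at h
  · have h1 : |x l| ≤ ‖x‖ := norm_le_pi_norm x l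
    have h2 := key N l hl
    rw [max_eq_right (by linarith)] at h2
    rw [pr, if_neg hl]
    exact abs_nonpos_iff.1 h2

end

end BEp
end
end
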