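import Pool.Agent.Work.MP_f0515e_an.Pos.ADefs

-- merged part: Pool.Agent.Work.MP_f0515e_an.Pos.ACo1
section
/-! Small tools for the final assembly. -/

open Set Metric Filter Topology Function BEv MeasureTheory
open scoped NNReal ENNReal

noncomputable section
namespace BEp

variable {m : ℕ}

theorem ACo_small {c e : ℝ≥0∞} (hc : c ≠ ⊤) (he : e ≠ 0) :
    ∃ d : ℝ≥0∞, d ≠ 0 ∧ d ≠ ⊤ ∧ c * d ≤ e := by
  obtain ⟨n, h0, h⟩ := ENNReal.exists_nnreal_pos_mul_lt hc he
  exact ⟨n, by exact_mod_cast h0.ne', ENNReal.coe_ne_top, by rw [mul_comm]; exact h.le⟩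

theorem ACo_rpow {F : Type} [NormedAddCommGroup F] {p : ℝ} (hp : 1 ≤ p) (a b c : F) :
    ‖a - c‖ₑ ^ p ≤ 2 ^ p * (‖a - b‖ₑ ^ p + ‖b - c‖ₑ ^ p) := by
  have h : ‖a - c‖ₑ ≤ ‖a - b‖ₑ + ‖b - c‖ₑ := by
    have e : a - c = (a - b) + (b - c) := by abel
    rw [e]
    exact enorm_add_le _ _
  refine (ENNReal.rpow_le_rpow h (by linarith)).trans
    ((ENNReal.rpow_add_le_mul_rpow_add_rpow _ _ hp).trans ?_)
  gcongr
  · norm_num
  · linarith

theorem ACo_e1 {p : ℝ} (hp : 0 < p) {e : ℝ≥0∞} (he : e ≠ 0) :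
    ∃ x : ℝ, 0 < x ∧ ENNReal.ofReal (3 * (x + x)) ^ p ≤ e := by
  have h : Tendsto (fun x : ℝ => ENNReal.ofReal (3 * (x + x)) ^ p) (𝓝[>] 0) (𝓝 0) := by
    have h1 : Continuous fun x : ℝ => ENNReal.ofReal (3 * (x + x)) ^ p :=
      ENNReal.continuous_rpow_const.comp (ENNReal.continuous_ofReal.comp (by fun_prop))
    have := (h1.tendsto 0).mono_left (nhdsWithin_le_nhds (s := Ioi 0))
    simpa [ENNReal.zero_rpow_of_pos hp] using this
  obtain ⟨x, h1, h2⟩ := ((h.eventually (ge_mem_nhds (pos_iff_ne_zero.2 he))).and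
    self_mem_nhdsWithin).exists
  exact ⟨x, h2, h1⟩

theorem ACo_mod {S : Set (V m)} (hS : IsCompact S) {f : V m → V m} (hf : Continuous f)
    (hi : InjOn f S) {ρ : ℝ} (hρ : 0 < ρ) :
    ∃ μ : ℝ, 0 < μ ∧ ∀ x ∈ S, ∀ y ∈ S, ρ / 2 ≤ ‖x - y‖ → μ ≤ ‖f x - f y‖ := by
  have hc : IsCompact (S ×ˢ S ∩ {q : V m × V m | ρ / 2 ≤ ‖q.1 - q.2‖}) :=
    (hS.prod hS).inter_right (isClosed_le continuous_const (by fun_prop))
  obtain ⟨μ, h0, h⟩ := hc.exists_forall_le' (f := fun q : V m × V m => ‖f q.1 - f q.2‖)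
    (by fun_prop) (a := 0) (by
      rintro ⟨x, y⟩ ⟨⟨hx, hy⟩, h⟩
      refine norm_pos_iff.2 (sub_ne_zero.2 fun e => ?_)
      have : x = y := hi hx hy e
      simp only [mem_ofPred_eq, this, sub_self, norm_zero] at h
      linarith)
  exact ⟨μ, h0, fun x hx y hy hxy => h (x, y) ⟨⟨hx, hy⟩, hxy⟩⟩

theorem ACo_cover {ι : Type} [Fintype ι] {K : Set (V m)} {Q : ι → Set (V m)}
    (hQ : ∀ q, MeasurableSet (Q q)) (t : V m) (h : ∀ x ∈ K, ∃ q, x - t ∈ Q q)
    (F : V m → ℝ≥0∞) : ∫⁻ x in K, F x ≤ ∑ q, ∫⁻ z in Q q, F (z + t) := by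
  have h1 : K ⊆ ⋃ q, (fun x => x - t) ⁻¹' Q q := fun x hx => mem_iUnion.2 (h x hx)
  refine (lintegral_mono_set h1).trans ((lintegral_iUnion_le _ _).trans (le_of_eq ?_))
  rw [tsum_fintype]
  refine Finset.sum_congr rfl fun q _ => ?_
  rw [← lintegral_indicator (measurable_sub_const t (hQ q)), ← lintegral_indicator (hQ q),
    ← lintegral_add_right_eq_self _ t]
  refine lintegral_congr fun z => ?_
  by_cases hz : z ∈ Q q <;> simp [indicator, hz]

theorem ACo_shift {Q U : Set (V m)} (hQ : MeasurableSet Q) (hU : MeasurableSet U) (t : V m)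
    (h : ∀ z ∈ Q, z + t ∈ U) (F : V m → ℝ≥0∞) : ∫⁻ z in Q, F (z + t) ≤ ∫⁻ y in U, F y := by
  rw [← lintegral_indicator hQ, ← lintegral_indicator hU,
    ← lintegral_add_right_eq_self (U.indicator F) t]
  refine lintegral_mono fun z => ?_
  by_cases hz : z ∈ Q
  · simp [indicator, hz, h z hz]
  · simp [indicator, hz]

theorem Typ.aT_ne_top (T : Typ m) {p : ℝ} (hp : 0 ≤ p) : T.aT p ≠ ⊤ :=
  ENNReal.rpow_ne_top_of_nonneg hp ENNReal.ofReal_ne_top

theorem Typ.aR_ne_top (T : Typ m) {p : ℝ} (hp : 0 ≤ p) : T.aR p ≠ ⊤ :=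
  ENNReal.rpow_ne_top_of_nonneg hp ENNReal.ofReal_ne_top

end BEp
end
end

-- merged part: Pool.Agent.Work.MP_f0515e_an.Pos.ATyp
section
/-! TASK ATyp. The shear attached to a matrix, and the packing of the unit cube.
Plan. exists_shear: choose I such that the columns A e_l, l in I, are a basis of the range (exists_linearIndependent on the finite family, or I maximal independent); for l outside I pick w_l supported in I
with A w_l = A e_l; N z = sum over l outside I of z_l w_l, N N = 0, Sh = 1 + N, inverse 1 - N. det = 1: with P = pr I as a linear map, N = P N and N P = 0, Matrix.det_one_add_mul_comm;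
measure preserving by Real.map_linearMap_volume_pi_eq_smul_volume_pi or Measure.map_linearMap_addHaar_eq_smul_addHaar. A is injective on the range of pr I, so bounded below (finite dimension).
exists_pack: n = 2m+1, H small, centres e_a = Sh.symm (2 H a), a integer, hr = (1 - gamma) H, Fc = those with norm e_a <= 1 - 3 Lambda H. For norm z <= 1 - 4 Lambda H take a = round (Sh z / (2 H)).
The open cells of radius H are disjoint inside the unit ball, so card (2H)^n <= 2^n. The uncovered set lies in the shell 1 - 4 Lambda H < norm z <= 1 and the frames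
(1 - 4 gamma) H <= norm (Sh (z - e)) <= H; volumes by Real.volume_pi_closedBall, Real.volume_pi_ball and 1 - (1 - t)^n <= n t (one_add_mul_le_pow). -/

open Set Metric Filter Topology Function BEv MeasureTheory
open scoped NNReal ENNReal

noncomputable section
namespace BEp

variable {m : ℕ}

/-- The projection as a linear map. -/
def ATyp_P (I : Finset (Ix m)) : V m →ₗ[ℝ] V m where
  toFun := pr I
  map_add' x y := by
    funext i
    simp only [pr, Pi.add_apply]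
    split_ifs <;> simp
  map_smul' c x := by
    funext i
    simp only [pr, Pi.smul_apply, RingHom.id_apply]
    split_ifs <;> simp

theorem ATyp_basis (A : V m →L[ℝ] V m) : ∃ I : Finset (Ix m),
    (∀ z, A (pr I z) = 0 → pr I z = 0) ∧ ∀ l, ∃ w, l ∉ I → A (Pi.single l 1) = A (pr I w) := by
  classical
  obtain ⟨I, hI, hm⟩ := Finset.exists_max_image
    (Finset.univ.filter fun I : Finset (Ix m) => ∀ z, A (pr I z) = 0 → pr I z = 0) Finset.card
    ⟨∅, Finset.mem_filter.2 ⟨Finset.mem_univ _, fun z _ => by funext i; simp [pr]⟩⟩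
  have hI := (Finset.mem_filter.1 hI).2
  refine ⟨I, hI, fun l => ?_⟩
  by_cases hl : l ∈ I
  · exact ⟨0, fun h => absurd hl h⟩
  have k : ¬ ∀ z, A (pr (insert l I) z) = 0 → pr (insert l I) z = 0 := fun k => by
    have := hm _ (Finset.mem_filter.2 ⟨Finset.mem_univ _, k⟩)
    rw [Finset.card_insert_of_notMem hl] at this
    omega
  push Not at k
  obtain ⟨z, h0, h1⟩ := k
  have e : pr (insert l I) z = pr I z + z l • Pi.single l 1 := by
    funext i
    by_cases hi : i = l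
    · subst hi
      simp [pr, hl]
    · simp [pr, hi]
  rw [e] at h0 h1
  have hz : z l ≠ 0 := fun h => by
    rw [h, zero_smul, add_zero] at h0 h1
    exact h1 (hI z h0)
  refine ⟨-(z l)⁻¹ • z, fun _ => ?_⟩
  rw [map_add, map_smul] at h0
  rw [show pr I (-(z l)⁻¹ • z) = -(z l)⁻¹ • pr I z from (ATyp_P I).map_smul _ _, map_smul,
    eq_neg_of_add_eq_zero_left h0, neg_smul, smul_neg, neg_neg, inv_smul_smul₀ hz]

theorem ATyp_det {N P : V m →ₗ[ℝ] V m} (h1 : P * N = N) (h2 : N * P = 0) :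
    LinearMap.det (1 + N) = 1 := by
  rw [← LinearMap.det_toMatrix', map_add, ← h1, LinearMap.toMatrix'_mul, LinearMap.toMatrix'_one,
    Matrix.det_one_add_mul_comm, ← LinearMap.toMatrix'_mul, h2, map_zero, add_zero, Matrix.det_one]

theorem ATyp_low (A : V m →L[ℝ] V m) {I : Finset (Ix m)} (h : ∀ z, A (pr I z) = 0 → pr I z = 0) :
    ∃ σ : ℝ, 0 < σ ∧ ∀ z, σ * ‖pr I z‖ ≤ ‖A (pr I z)‖ := by
  obtain ⟨K, K0, hK⟩ := LinearMap.exists_antilipschitzWith
    ((A : V m →ₗ[ℝ] V m) ∘ₗ (LinearMap.range (ATyp_P I)).subtype) (by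
      rw [LinearMap.ker_eq_bot']
      rintro ⟨_, z, rfl⟩ hz
      exact Subtype.ext (h z hz))
  have K0 : (0 : ℝ) < K := K0
  refine ⟨(K : ℝ)⁻¹, inv_pos.2 K0, fun z => ?_⟩
  rw [inv_mul_le_iff₀ K0]
  exact ZeroHomClass.bound_of_antilipschitz _ hK ⟨_, z, rfl⟩

theorem exists_shear (A : V m →L[ℝ] V m) : ∃ (I : Finset (Ix m)) (Sh : V m ≃L[ℝ] V m) (Λ σ : ℝ),
    (∀ z l, l ∉ I → Sh z l = z l) ∧ (∀ z, Sh (pr I z) = pr I z) ∧
    (∀ z, A (Sh.symm z) = A (pr I z)) ∧ MeasurePreserving Sh volume volume ∧ 1 ≤ Λ ∧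
    (∀ z, ‖Sh z‖ ≤ Λ * ‖z‖) ∧ (∀ z, ‖Sh.symm z‖ ≤ Λ * ‖z‖) ∧ ‖A‖ ≤ Λ ∧ 0 < σ ∧
    ∀ z, σ * ‖pr I z‖ ≤ ‖A (pr I z)‖ := by
  obtain ⟨I, hI, hw⟩ := ATyp_basis A
  choose w hw using hw
  obtain ⟨σ, σ0, hσ⟩ := ATyp_low A hI
  let N : V m →ₗ[ℝ] V m := ∑ l ∈ Iᶜ, (LinearMap.proj l : V m →ₗ[ℝ] ℝ).smulRight (pr I (w l))
  have hN : ∀ z, N z = ∑ l ∈ Iᶜ, z l • pr I (w l) := fun z => by
    simp only [N, LinearMap.sum_apply, LinearMap.smulRight_apply, LinearMap.proj_apply]
  have out : ∀ z l, l ∉ I → N z l = 0 := fun z l hl => by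
    rw [hN, Finset.sum_apply]
    exact Finset.sum_eq_zero fun k _ => by simp [pr, hl]
  have zero : ∀ z : V m, (∀ l, l ∉ I → z l = 0) → N z = 0 := fun z hz => by
    rw [hN]
    exact Finset.sum_eq_zero fun l hl => by rw [hz l (Finset.mem_compl.1 hl), zero_smul]
  have NN : N * N = 0 := LinearMap.ext fun z => zero _ (out z)
  have NP : ∀ z, N (pr I z) = 0 := fun z => zero _ fun l hl => if_neg hl
  have PN : ATyp_P I * N = N := LinearMap.ext fun z => funext fun l => by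
    change (if l ∈ I then N z l else 0) = N z l
    split_ifs with hl
    exacts [rfl, (out z l hl).symm]
  have e1 : (1 + N) * (1 - N) = 1 := by rw [add_mul, one_mul, mul_sub, mul_one, NN]; abel
  have e2 : (1 - N) * (1 + N) = 1 := by rw [sub_mul, one_mul, mul_add, mul_one, NN]; abel
  let Sh : V m ≃L[ℝ] V m := (LinearEquiv.ofLinearMap (1 + N) (1 - N) e1 e2).toContinuousLinearEquiv
  have s1 : ∀ z, Sh z = z + N z := fun _ => rfl
  have s2 : ∀ z, Sh.symm z = z - N z := fun _ => rfl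
  have d : LinearMap.det (1 + N) = 1 := ATyp_det PN (LinearMap.ext NP)
  have n1 := norm_nonneg (Sh : V m →L[ℝ] V m)
  have n2 := norm_nonneg (Sh.symm : V m →L[ℝ] V m)
  have n3 := norm_nonneg A
  refine ⟨I, Sh, 1 + ‖(Sh : V m →L[ℝ] V m)‖ + ‖(Sh.symm : V m →L[ℝ] V m)‖ + ‖A‖, σ,
    fun z l hl => ?_, fun z => ?_, fun z => ?_, ⟨Sh.continuous.measurable, ?_⟩, by linarith,
    fun z => ((Sh : V m →L[ℝ] V m).le_opNorm z).trans
      (mul_le_mul_of_nonneg_right (by linarith) (norm_nonneg z)),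
    fun z => ((Sh.symm : V m →L[ℝ] V m).le_opNorm z).trans
      (mul_le_mul_of_nonneg_right (by linarith) (norm_nonneg z)), by linarith, σ0, hσ⟩
  · rw [s1, Pi.add_apply, out z l hl, add_zero]
  · rw [s1, NP, add_zero]
  · have e : z = pr I z + ∑ l ∈ Iᶜ, z l • (Pi.single l 1 : V m) := by
      funext i
      by_cases hi : i ∈ I <;> simp [pr, hi, Finset.sum_apply, Pi.single_apply]
    have k : A (N z) = A (∑ l ∈ Iᶜ, z l • (Pi.single l 1 : V m)) := by
      rw [hN, map_sum, map_sum]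
      exact Finset.sum_congr rfl fun l hl => by
        rw [map_smul, map_smul, hw l (Finset.mem_compl.1 hl)]
    rw [s2, map_sub, k, ← map_sub, sub_eq_of_eq_add e]
  · have := Real.map_linearMap_volume_pi_eq_smul_volume_pi (f := 1 + N) (by rw [d]; exact one_ne_zero)
    rw [d, inv_one, abs_one, ENNReal.ofReal_one, one_smul] at this
    exact this

/-- The centres of the cells. -/
theorem ATyp_net (Sh : V m ≃L[ℝ] V m) {Λ H : ℝ} (H0 : 0 < H) (Λ0 : 0 ≤ Λ)
    (hΛ : ∀ z, ‖Sh.symm z‖ ≤ Λ * ‖z‖) : ∃ Fc : Finset (V m), (∀ e ∈ Fc, ‖e‖ ≤ 1 - 2 * (Λ * H)) ∧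
      (∀ e ∈ Fc, ∀ e' ∈ Fc, e ≠ e' → 2 * H ≤ ‖Sh e - Sh e'‖) ∧
      ∀ z, ‖z‖ ≤ 1 - 3 * (Λ * H) → ∃ e ∈ Fc, ‖Sh z - Sh e‖ ≤ H := by
  have H2 : 0 < 2 * H := by linarith
  have fin : {e : V m | ‖e‖ ≤ 1 - 2 * (Λ * H) ∧
      ∃ a : Ix m → ℤ, Sh e = fun l => 2 * H * a l}.Finite := by
    let K : ℤ := ⌈‖(Sh : V m →L[ℝ] V m)‖ / (2 * H)⌉
    refine ((Fintype.piFinset fun _ : Ix m => Finset.Icc (-K) K).finite_toSet.image
      fun a : Ix m → ℤ => Sh.symm fun l => 2 * H * a l).subset ?_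
    rintro e ⟨h1, a, h2⟩
    refine ⟨a, Fintype.mem_piFinset.2 fun l => Finset.mem_Icc.2 (abs_le.1 ?_), ?_⟩
    · have k1 : ‖Sh e‖ ≤ ‖(Sh : V m →L[ℝ] V m)‖ := ((Sh : V m →L[ℝ] V m).le_opNorm e).trans
        (mul_le_of_le_one_right (norm_nonneg _) (by nlinarith [mul_nonneg Λ0 H0.le]))
      have k2 := (norm_le_pi_norm (Sh e) l).trans k1
      rw [h2, Real.norm_eq_abs, abs_mul, abs_of_pos H2, mul_comm, ← le_div_iff₀ H2] at k2
      have k3 := k2.trans (Int.le_ceil _)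
      exact_mod_cast k3
    · simp only [← h2, ContinuousLinearEquiv.symm_apply_apply]
  refine ⟨fin.toFinset, fun e he => (fin.mem_toFinset.1 he).1, fun e he e' he' ne => ?_,
    fun z hz => ?_⟩
  · obtain ⟨-, a, h⟩ := fin.mem_toFinset.1 he
    obtain ⟨-, a', h'⟩ := fin.mem_toFinset.1 he'
    obtain ⟨l, hl⟩ : ∃ l, a l ≠ a' l := by
      by_contra k
      push Not at k
      exact ne (Sh.injective (by rw [h, h', funext k]))
    refine le_trans ?_ (norm_le_pi_norm (Sh e - Sh e') l)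
    rw [h, h', Pi.sub_apply, ← mul_sub, Real.norm_eq_abs, abs_mul, abs_of_pos H2]
    refine le_mul_of_one_le_right H2.le ?_
    exact_mod_cast Int.one_le_abs (sub_ne_zero.2 hl)
  · let y : V m := fun l => 2 * H * (round (Sh z l / (2 * H)) : ℤ)
    have k : ‖Sh z - y‖ ≤ H := (pi_norm_le_iff_of_nonneg H0.le).2 fun l => by
      have e : (Sh z - y) l = 2 * H * (Sh z l / (2 * H) - round (Sh z l / (2 * H))) := by
        simp only [y, Pi.sub_apply]
        field_simp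
      rw [e, Real.norm_eq_abs, abs_mul, abs_of_pos H2]
      nlinarith [abs_sub_round (Sh z l / (2 * H))]
    refine ⟨Sh.symm y, fin.mem_toFinset.2 ⟨?_, _, Sh.apply_symm_apply y⟩, by
      rwa [Sh.apply_symm_apply]⟩
    have k1 := (hΛ (Sh z - y)).trans (mul_le_mul_of_nonneg_left k Λ0)
    rw [map_sub, Sh.symm_apply_apply] at k1
    linarith [norm_sub_norm_le (Sh.symm y) z, norm_sub_rev (Sh.symm y) z]

theorem exists_pack {Sh : V m ≃L[ℝ] V m} (hv : MeasurePreserving Sh volume volume) {u : ℝ}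
    (hu : 0 < u) : ∃ γ : ℝ, 0 < γ ∧ γ ≤ 1 / 8 ∧ ∀ T : Typ m, T.Sh = Sh → T.γ = γ → T.u = u →
      T.Pack := by
  have n0 : (0 : ℝ) < (2 * m + 1 : ℕ) := by positivity
  let γ : ℝ := min (1 / 8) (u / (8 * (2 * m + 1 : ℕ)))
  have γ0 : 0 < γ := lt_min (by norm_num) (by positivity)
  have γ1 : γ ≤ 1 / 8 := min_le_left _ _
  have γ2 : γ * (8 * (2 * m + 1 : ℕ)) ≤ u := (le_div_iff₀ (by positivity)).1 (min_le_right _ _)
  clear_value γ
  refine ⟨γ, γ0, γ1, fun T e1 e2 e3 => ?_⟩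
  unfold Typ.Pack
  rw [e1, e2, e3]
  obtain ⟨Λ, Λ0, hΛ⟩ : ∃ Λ : ℝ, 0 < Λ ∧ ∀ z, ‖Sh.symm z‖ ≤ Λ * ‖z‖ :=
    (Sh.symm : V m →L[ℝ] V m).bound
  obtain ⟨H, H0, hH⟩ : ∃ H : ℝ, 0 < H ∧ Λ * H = γ :=
    ⟨γ / Λ, div_pos γ0 Λ0, mul_div_cancel₀ _ Λ0.ne'⟩
  obtain ⟨Fc, p1, p2, p3⟩ := ATyp_net Sh H0 Λ0.le hΛ
  rw [hH] at p1 p3
  have ins : ∀ e ∈ Fc, ∀ z, ‖Sh (z - e)‖ ≤ H → ‖z‖ < 1 := fun e he z hz => by
    have k := (hΛ (Sh (z - e))).trans (mul_le_mul_of_nonneg_left hz Λ0.le)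
    rw [Sh.symm_apply_apply, hH] at k
    linarith [p1 e he, norm_sub_norm_le z e]
  have ms : ∀ e r, MeasurableSet (Sh ⁻¹' ball (Sh e) r) := fun e r =>
    hv.measurable measurableSet_ball
  have vol : ∀ r, 0 < r → r ≤ H → volume (⋃ e ∈ Fc, Sh ⁻¹' ball (Sh e) r) =
      ENNReal.ofReal (Fc.card * (2 * r) ^ (2 * m + 1)) := fun r r0 rH => by
    rw [measure_biUnion_finset (fun e he e' he' ne => (ball_disjoint_ball (by
      rw [dist_eq_norm]
      linarith [p2 e he e' he' ne])).preimage Sh) fun e _ => ms e r]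
    simp only [hv.measure_preimage measurableSet_ball.nullMeasurableSet,
      Real.volume_pi_ball _ r0, Fintype.card_fin, Finset.sum_const, nsmul_eq_mul]
    rw [ENNReal.ofReal_mul (Nat.cast_nonneg _), ENNReal.ofReal_natCast]
  have sub : ∀ r, r ≤ H → (⋃ e ∈ Fc, Sh ⁻¹' ball (Sh e) r) ⊆ closedBall 0 1 := fun r rH z hz => by
    obtain ⟨e, he, k⟩ := mem_iUnion₂.1 hz
    rw [mem_preimage, mem_ball, dist_eq_norm, ← map_sub] at k
    exact mem_closedBall_zero_iff.2 (ins e he z (k.le.trans rH)).le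
  have vB : ∀ r, 0 ≤ r → volume (closedBall (0 : V m) r) =
      ENNReal.ofReal ((2 * r) ^ (2 * m + 1)) := fun r hr => by
    rw [Real.volume_pi_closedBall _ hr, Fintype.card_fin]
  have h0 : 0 < (1 - γ) * H := mul_pos (by linarith) H0
  have h1 : (1 - γ) * H < H := by nlinarith
  refine ⟨(1 - γ) * H, Fc, h0, fun e he z hz => ins e he z (hz.trans (by nlinarith)),
    fun e he e' he' ne z hz => ?_, ?_, ?_⟩
  · have k := norm_sub_le (Sh (z - e')) (Sh (z - e))
    rw [← map_sub, sub_sub_sub_cancel_left, map_sub] at k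
    linarith [p2 e he e' he' ne]
  · have k := measure_mono (μ := volume) (sub _ h1.le)
    rw [vol _ h0 h1.le, vB 1 zero_le_one, ENNReal.ofReal_le_ofReal_iff (by positivity), mul_pow,
      mul_one, mul_left_comm] at k
    exact (mul_le_iff_le_one_right (by positivity)).1 k
  · have c0 : 0 < (1 - 3 * γ) * (1 - γ) := mul_pos (by linarith) (by linarith)
    have r0 : 0 < (1 - 3 * γ) * ((1 - γ) * H) := mul_pos (by linarith) h0
    have r1 : (1 - 3 * γ) * ((1 - γ) * H) ≤ H := by nlinarith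
    have cov : (2 * (1 - 3 * γ)) ^ (2 * m + 1) ≤ Fc.card * (2 * H) ^ (2 * m + 1) := by
      have k : closedBall (0 : V m) (1 - 3 * γ) ⊆ ⋃ e ∈ Fc, Sh ⁻¹' closedBall (Sh e) H :=
        fun z hz => by
          obtain ⟨e, he, k⟩ := p3 z (mem_closedBall_zero_iff.1 hz)
          exact mem_iUnion₂.2 ⟨e, he, mem_closedBall_iff_norm.2 k⟩
      have k1 := (measure_mono (μ := volume) k).trans (measure_biUnion_finset_le _ _)
      simp only [hv.measure_preimage measurableSet_closedBall.nullMeasurableSet,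
        Real.volume_pi_closedBall _ H0.le, Fintype.card_fin, Finset.sum_const, nsmul_eq_mul] at k1
      rwa [vB _ (by linarith), ← ENNReal.ofReal_natCast, ← ENNReal.ofReal_mul (Nat.cast_nonneg _),
        ENNReal.ofReal_le_ofReal_iff (by positivity)] at k1
    have dj : Disjoint
        {z : V m | ‖z‖ ≤ 1 ∧ ∀ e ∈ Fc, (1 - 3 * γ) * ((1 - γ) * H) ≤ ‖Sh (z - e)‖}
        (⋃ e ∈ Fc, Sh ⁻¹' ball (Sh e) ((1 - 3 * γ) * ((1 - γ) * H))) :=
      disjoint_left.2 fun z hz hz' => by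
        obtain ⟨e, he, k⟩ := mem_iUnion₂.1 hz'
        rw [mem_preimage, mem_ball, dist_eq_norm, ← map_sub] at k
        exact absurd (hz.2 e he) (not_le.2 k)
    have k := measure_mono (μ := volume) (union_subset
      (s := {z : V m | ‖z‖ ≤ 1 ∧ ∀ e ∈ Fc, (1 - 3 * γ) * ((1 - γ) * H) ≤ ‖Sh (z - e)‖})
      (fun z hz => mem_closedBall_zero_iff.2 hz.1) (sub _ r1))
    rw [measure_union dj (Finset.measurableSet_biUnion _ fun e _ => ms e _), vol _ r0 r1,
      vB 1 zero_le_one] at k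
    refine (ENNReal.le_sub_of_add_le_right ENNReal.ofReal_ne_top k).trans ?_
    rw [← ENNReal.ofReal_sub _ (by positivity)]
    refine ENNReal.ofReal_le_ofReal ?_
    have b1 : 1 - u ≤ (1 - 7 * γ) ^ (2 * m + 1) := by
      have := one_add_mul_le_pow (a := -(7 * γ)) (by linarith) (2 * m + 1)
      rw [← sub_eq_add_neg] at this
      nlinarith
    have b2 : (1 - 7 * γ) ^ (2 * m + 1) ≤ ((1 - 3 * γ) * (1 - γ) * (1 - 3 * γ)) ^ (2 * m + 1) :=
      pow_le_pow_left₀ (by linarith) (by nlinarith [mul_pos γ0 γ0]) _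
    have b3 := mul_le_mul_of_nonneg_left cov (pow_pos c0 (2 * m + 1)).le
    have b4 := mul_le_mul_of_nonneg_right (b1.trans b2) (pow_pos two_pos (2 * m + 1)).le
    simp only [mul_pow, mul_one] at b3 b4 ⊢
    linarith

end BEp
end
end

-- merged part: Pool.Agent.Work.MP_f0515e_an.Pos.ATy
section
/-! TASK ATy. Existence of a good type for every matrix.
Plan. exists_shear gives I, Sh, Lambda, sigma0; aR depends only on Lambda and is finite. Choose th large (ofReal th ^ (p - r) tends to 0), then u > 0 small, gamma from exists_pack, N = ceil (1 / gamma),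
M large (fr tends to 0, M >= 9), finally sigma <= min sigma0 1 small (ofReal (2 sigma) ^ p tends to 0). A helper: for a finite c and e nonzero there is delta > 0 with c * ofReal x <= e for 0 <= x <= delta. -/

open Set Metric Filter Topology Function BEv MeasureTheory
open scoped NNReal ENNReal

noncomputable section
namespace BEp

variable {m : ℕ}

theorem ATy_ev {α : Type} {l : Filter α} {f : α → ℝ≥0∞} (hf : Tendsto f l (𝓝 0)) {c e : ℝ≥0∞}
    (hc : c ≠ ⊤) (he : e ≠ 0) : ∀ᶠ x in l, c * f x ≤ e := by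
  have h := ENNReal.Tendsto.const_mul (a := c) hf (Or.inr hc)
  rw [mul_zero] at h
  exact (h.eventually (gt_mem_nhds he.bot_lt)).mono fun _ => le_of_lt

theorem exists_typ {p r : ℝ} (hp : 0 < p) (hr : p < r) {CW e0 : ℝ≥0∞} (hC : CW ≠ ⊤)
    (he : e0 ≠ 0) (A : V m →L[ℝ] V m) :
    ∃ T : Typ m, T.A = A ∧ T.Ok ∧ T.Pack ∧ T.Small p r CW e0 := by
  obtain ⟨I, Sh, Λ, σ0, h1, h2, h3, h4, h5, h6, h7, h8, h9, h10⟩ := exists_shear A
  have fin : ∀ x : ℝ, ENNReal.ofReal x ^ p ≠ ⊤ := fun x =>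
    ENNReal.rpow_ne_top_of_nonneg hp.le ENNReal.ofReal_ne_top
  have t1 : Tendsto (fun th : ℝ => ENNReal.ofReal th ^ (p - r)) atTop (𝓝 0) := by
    rw [← ENNReal.top_rpow_of_neg (sub_neg.2 hr)]
    exact (ENNReal.continuous_rpow_const.tendsto _).comp ENNReal.tendsto_ofReal_atTop
  obtain ⟨th, k1, k2⟩ := ((ATy_ev t1 (ENNReal.mul_ne_top (fin (120 * Λ ^ 3)) hC) he).and
    (eventually_gt_atTop 0)).exists
  have hc := ENNReal.mul_ne_top (fin (120 * Λ ^ 3)) (fin th)
  have t2 : Tendsto ENNReal.ofReal (𝓝 0) (𝓝 0) := by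
    simpa using ENNReal.continuous_ofReal.tendsto 0
  obtain ⟨u, k3, k4⟩ := ((ATy_ev (t2.mono_left (nhdsWithin_le_nhds (s := Ioi 0))) hc he).and
    self_mem_nhdsWithin).exists
  obtain ⟨γ, g1, g2, g3⟩ := exists_pack h4 k4
  obtain ⟨M, k5, k6⟩ := ((ATy_ev (t2.comp (tendsto_const_div_atTop_nhds_zero_nat
    (11 * (2 * m + 1) * 2 ^ (2 * m + 1) : ℝ))) hc he).and (eventually_ge_atTop 9)).exists
  have t4 : Tendsto (fun σ : ℝ => ENNReal.ofReal (2 * σ) ^ p) (𝓝 0) (𝓝 0) := by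
    have := (ENNReal.continuous_rpow_const (y := p)).comp
      (ENNReal.continuous_ofReal.comp (continuous_const_mul (2 : ℝ)))
    simpa [Function.comp_def, hp] using this.tendsto 0
  obtain ⟨σ, k7, k8⟩ := ((ATy_ev (t4.mono_left (nhdsWithin_le_nhds (s := Ioi 0)))
    (ENNReal.mul_ne_top (fin (96 * Λ ^ 4 * 2 ^ ⌈γ⁻¹⌉₊)) hC) he).and
      (Ioc_mem_nhdsGT (lt_min h9 one_pos))).exists
  refine ⟨⟨A, I, Sh, Λ, γ, ⌈γ⁻¹⌉₊, M, σ, th, u⟩, rfl, ⟨h1, h2, h3, h4, h5, h6, h7, h8, g1, g2, ?_,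
    k6, k8.1, k8.2.trans (min_le_right _ _), fun z => le_trans ?_ (h10 z)⟩, g3 _ rfl rfl rfl,
    k2, le_of_lt k4, ?_, k3, k5, ?_⟩
  · exact (mul_inv_cancel₀ g1.ne').ge.trans (mul_le_mul_of_nonneg_left (Nat.le_ceil _) g1.le)
  · exact mul_le_mul_of_nonneg_right (k8.2.trans (min_le_left _ _)) (norm_nonneg _)
  · exact (mul_right_comm _ _ _).trans_le k1
  · exact (mul_right_comm _ _ _).trans_le k7

end BEp
end
end

-- merged part: Pool.Agent.Work.MP_f0515e_an.Pos.ALeb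
section
/-! TASK ALeb. Lebesgue points in L^p and the selection of cubes.
Plan. ae_leb: for B in a countable dense set of matrices the function norm (D y - B) ^ p is locally integrable, so its averages converge a.e. (Besicovitch.vitaliFamily or IsUnifLocDoublingMeasure.vitaliFamily,
VitaliFamily.ae_tendsto_lintegral_div or IsUnifLocDoublingMeasure.ae_tendsto_average); (a + b) ^ p <= 2 ^ p (a ^ p + b ^ p).
exists_cubes: eta_k = eta0' / 2^k with closedBall x (12 eta0') inside U for x in K; o q = 2 eta q, q integer, index set = those q with closedBall (o q) (10 eta) inside U (finite; Fintype on the subtype).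
Call q good if some B has cc B * integral over the ball of radius 10 eta <= e' (2 eta)^n, where e' volume U <= e / 2; else put B = 0. Let Bad k be the union of the balls of radius 10 eta_k around bad centres (measurable).
A Lebesgue point x is outside Bad k for large k (the ball lies in closedBall x (20 eta), take B = D x). Dominated convergence: the integral of norm D ^ p over Bad k tends to 0; every point lies in at most 11^n of the balls.
The open balls of radius eta are disjoint inside U. -/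

open Set Metric Filter Topology Function BEv MeasureTheory
open scoped NNReal ENNReal

noncomputable section
namespace BEp

variable {m : ℕ}

theorem ALeb_tri {F : Type} [NormedAddCommGroup F] {p : ℝ} (hp : 1 ≤ p) (a b c : F) :
    ‖a - c‖ₑ ^ p ≤ 2 ^ (p - 1) * (‖a - b‖ₑ ^ p + ‖c - b‖ₑ ^ p) := by
  refine le_trans (ENNReal.rpow_le_rpow ?_ (zero_le_one.trans hp))
    (ENNReal.rpow_add_le_mul_rpow_add_rpow _ _ hp)
  rw [← sub_sub_sub_cancel_right a c b]
  exact enorm_sub_le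

theorem ALeb_int {p : ℝ} (hp : 1 ≤ p) {D : V m → V m →L[ℝ] V m} (s : Set (V m))
    (B B' : V m →L[ℝ] V m) : ∫⁻ y in s, ‖D y - B‖ₑ ^ p ≤
      2 ^ (p - 1) * ((∫⁻ y in s, ‖D y - B'‖ₑ ^ p) + ‖B - B'‖ₑ ^ p * volume s) := by
  refine (lintegral_mono fun y => ALeb_tri hp (D y) B' B).trans_eq ?_
  rw [lintegral_const_mul' _ _ (ENNReal.rpow_ne_top_of_nonneg (sub_nonneg.2 hp) (by simp)),
    lintegral_add_right _ measurable_const, setLIntegral_const]

theorem ALeb_one {p : ℝ} (hp : 1 ≤ p) {D : V m → V m →L[ℝ] V m}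
    (hD : AEStronglyMeasurable D volume) (hi : ∫⁻ x, ‖D x‖ₑ ^ p ≠ ⊤) (B : V m →L[ℝ] V m) :
    ∀ᵐ x, Tendsto (fun r : ℝ => (∫⁻ y in closedBall x r, ‖D y - B‖ₑ ^ p) / volume (closedBall x r))
      (𝓝[>] 0) (𝓝 (‖D x - B‖ₑ ^ p)) := by
  have hm : AEMeasurable (fun y => ‖D y - B‖ₑ ^ p) volume :=
    (hD.sub aestronglyMeasurable_const).enorm.pow_const p
  have h1 : ∀ n : ℕ, ∫⁻ y, (ball (0 : V m) n).indicator (fun y => ‖D y - B‖ₑ ^ p) y ≠ ⊤ := by
    intro n
    rw [lintegral_indicator measurableSet_ball]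
    refine ne_top_of_le_ne_top ?_ (ALeb_int hp _ B 0)
    refine ENNReal.mul_ne_top
      (ENNReal.rpow_ne_top_of_nonneg (sub_nonneg.2 hp) (by simp)) (ENNReal.add_ne_top.2
        ⟨ne_top_of_le_ne_top hi ?_, ENNReal.mul_ne_top (ENNReal.rpow_ne_top_of_nonneg
          (zero_le_one.trans hp) enorm_ne_top) measure_ball_lt_top.ne⟩)
    simp only [sub_zero]
    exact setLIntegral_le_lintegral _ _
  filter_upwards [ae_all_iff.2 fun n : ℕ =>
    (Besicovitch.vitaliFamily (volume : Measure (V m))).ae_tendsto_lintegral_div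
      (hm.indicator measurableSet_ball) (h1 n)] with x hx
  obtain ⟨n, hn⟩ := exists_nat_gt ‖x‖
  have hx' : x ∈ ball (0 : V m) n := mem_ball_zero_iff.2 hn
  have h2 := (hx n).comp (Besicovitch.tendsto_filterAt volume x)
  rw [indicator_of_mem hx'] at h2
  refine h2.congr' ?_
  filter_upwards [nhdsWithin_le_nhds (gt_mem_nhds (sub_pos.2 hn))] with r hr
  have h3 : closedBall x r ⊆ ball (0 : V m) n :=
    closedBall_subset_ball' (by rw [dist_zero_right]; exact lt_sub_iff_add_lt.1 hr)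
  exact congrArg (· / volume (closedBall x r)) (setLIntegral_congr_fun measurableSet_closedBall
    fun y hy => indicator_of_mem (h3 hy) _)

theorem ae_leb {p : ℝ} (hp : 1 ≤ p) {D : V m → V m →L[ℝ] V m}
    (hD : AEStronglyMeasurable D volume) (hi : ∫⁻ x, ‖D x‖ₑ ^ p ≠ ⊤) :
    ∀ᵐ x, Tendsto (fun r : ℝ => (∫⁻ y in closedBall x r, ‖D y - D x‖ₑ ^ p) / volume (closedBall x r))
      (𝓝[>] 0) (𝓝 0) := by
  obtain ⟨S, hS, hd⟩ := TopologicalSpace.exists_countable_dense (V m →L[ℝ] V m)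
  have hC : (2 : ℝ≥0∞) ^ (p - 1) ≠ ⊤ := ENNReal.rpow_ne_top_of_nonneg (sub_nonneg.2 hp) (by simp)
  filter_upwards [(ae_ball_iff hS).2 fun B _ => ALeb_one hp hD hi B] with x hx
  refine ENNReal.tendsto_nhds_zero.2 fun ε hε => ?_
  have c1 : Continuous fun B : V m →L[ℝ] V m => ‖D x - B‖ₑ ^ p :=
    ENNReal.continuous_rpow_const.comp (continuous_const.sub continuous_id).enorm
  obtain ⟨B, hB, hBS⟩ := hd.inter_open_nonempty _
    (isOpen_lt ((ENNReal.continuous_const_mul hC).comp (c1.add c1)) (continuous_const (y := ε)))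
    ⟨D x, by
      have z : ‖D x - D x‖ₑ = 0 := by
        rw [sub_self, ← ofReal_norm, norm_zero, ENNReal.ofReal_zero]
      simpa only [mem_ofPred_eq, comp_apply, Pi.add_apply, z, add_zero, mul_zero,
        ENNReal.zero_rpow_of_pos (one_pos.trans_le hp)] using hε⟩
  have h1 := ENNReal.Tendsto.const_mul (a := 2 ^ (p - 1))
    ((hx B hBS).add (tendsto_const_nhds (x := ‖D x - B‖ₑ ^ p))) (Or.inr hC)
  filter_upwards [h1.eventually (gt_mem_nhds hB), self_mem_nhdsWithin] with r hr hr0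
  refine le_trans ?_ hr.le
  have v0 : volume (closedBall x r) ≠ 0 := (measure_closedBall_pos volume x hr0).ne'
  have v1 : volume (closedBall x r) ≠ ⊤ := measure_closedBall_lt_top.ne
  rw [ENNReal.div_le_iff v0 v1, mul_assoc, add_mul, ENNReal.div_mul_cancel v0 v1]
  exact ALeb_int hp _ _ B

/-- The centres. -/
def ALeb_o (η : ℝ) (q : Ix m → ℤ) : V m := fun l => 2 * η * q l

theorem ALeb_near {η : ℝ} (hη : 0 < η) (N : ℕ) {x : V m} {q : Ix m → ℤ}
    (h : x ∈ closedBall (ALeb_o η q) (2 * η * N)) :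
    q ∈ Fintype.piFinset fun l => Finset.Icc (⌈x l / (2 * η)⌉ - N) (⌈x l / (2 * η)⌉ + N) := by
  refine Fintype.mem_piFinset.2 fun l => Finset.mem_Icc.2 ?_
  have h1 := abs_le.1 ((norm_le_pi_norm (x - ALeb_o η q) l).trans (mem_closedBall_iff_norm.1 h))
  simp only [Pi.sub_apply, ALeb_o] at h1
  have h2 : 0 < 2 * η := by linarith
  constructor
  · rw [sub_le_iff_le_add, Int.ceil_le, div_le_iff₀ h2]
    push_cast
    linarith [h1.2]
  · rw [← sub_le_iff_le_add, Int.le_ceil_iff, lt_div_iff₀ h2]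
    push_cast
    linarith [h1.1]

theorem ALeb_sep {η : ℝ} (hη : 0 < η) {q q' : Ix m → ℤ} (h : q ≠ q') :
    2 * η ≤ ‖ALeb_o η q - ALeb_o η q'‖ := by
  obtain ⟨l, hl⟩ := Function.ne_iff.1 h
  refine le_trans ?_ (norm_le_pi_norm _ l)
  have h1 : (1 : ℝ) ≤ |(q l : ℝ) - q' l| := by exact_mod_cast Int.one_le_abs (sub_ne_zero.2 hl)
  simp only [Pi.sub_apply, ALeb_o, ← mul_sub]
  rw [Real.norm_eq_abs, abs_mul, abs_of_pos (by linarith : 0 < 2 * η)]
  exact le_mul_of_one_le_right (by linarith) h1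

theorem ALeb_cov {η : ℝ} (hη : 0 < η) (y : V m) : ∃ q, y ∈ closedBall (ALeb_o η q) η := by
  refine ⟨fun l => round (y l / (2 * η)), mem_closedBall_iff_norm.2
    ((pi_norm_le_iff_of_nonneg hη.le).2 fun l => ?_)⟩
  have h2 : 0 < 2 * η := by linarith
  have e : (y - ALeb_o η fun l => round (y l / (2 * η))) l =
      2 * η * (y l / (2 * η) - round (y l / (2 * η))) := by
    simp only [Pi.sub_apply, ALeb_o, mul_sub, mul_div_cancel₀ _ h2.ne']
  rw [e, Real.norm_eq_abs, abs_mul, abs_of_pos h2]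
  linarith [mul_le_mul_of_nonneg_left (abs_sub_round (y l / (2 * η))) h2.le]

theorem ALeb_fin {U : Set (V m)} (hb : Bornology.IsBounded U) {η : ℝ} (hη : 0 < η) :
    ∃ s : Finset (Ix m → ℤ), ∀ q, q ∈ s ↔ closedBall (ALeb_o η q) (10 * η) ⊆ U := by
  obtain ⟨R, hR⟩ := hb.subset_closedBall 0
  obtain ⟨N, hN⟩ := exists_nat_ge (R / (2 * η))
  have h : {q : Ix m → ℤ | closedBall (ALeb_o η q) (10 * η) ⊆ U}.Finite :=
    (Finset.finite_toSet _).subset fun q hq => ALeb_near hη N (x := 0) (mem_closedBall_comm.1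
      (closedBall_subset_closedBall (by rwa [div_le_iff₀' (by linarith)] at hN)
        (hR (hq (mem_closedBall_self (by linarith))))))
  exact ⟨h.toFinset, fun q => h.mem_toFinset⟩

theorem ALeb_vol {U : Set (V m)} {η : ℝ} (hη : 0 < η) {s : Finset (Ix m → ℤ)}
    (hs : ∀ q ∈ s, closedBall (ALeb_o η q) (10 * η) ⊆ U) :
    (s.card : ℝ≥0∞) * ENNReal.ofReal ((2 * η) ^ (2 * m + 1)) ≤ volume U := by
  have h1 := measure_biUnion_finset (μ := volume) (s := s) (f := fun q => ball (ALeb_o η q) η)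
    (fun q _ q' _ h => ball_disjoint_ball (by
      rw [dist_eq_norm, ← two_mul]
      exact ALeb_sep hη h)) fun _ _ => measurableSet_ball
  simp only [Real.volume_pi_ball _ hη, Fintype.card_fin, Finset.sum_const, nsmul_eq_mul] at h1
  rw [← h1]
  exact measure_mono (iUnion₂_subset fun q hq =>
    (ball_subset_closedBall.trans (closedBall_subset_closedBall (by linarith))).trans (hs q hq))

theorem ALeb_over {η : ℝ} (hη : 0 < η) (s : Finset (Ix m → ℤ)) (g : V m → ℝ≥0∞) (x : V m) :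
    ∑ q ∈ s, (closedBall (ALeb_o η q) (10 * η)).indicator g x ≤ 11 ^ (2 * m + 1) * g x := by
  classical
  have h : (s.filter fun q => x ∈ closedBall (ALeb_o η q) (10 * η)).card ≤ 11 ^ (2 * m + 1) := by
    refine (Finset.card_le_card fun q hq => ALeb_near hη 5 (x := x) ?_).trans_eq ?_
    · rw [show 2 * η * (5 : ℕ) = 10 * η by push_cast; ring]
      exact (Finset.mem_filter.1 hq).2
    · have : ∀ c : ℤ, (c + (5 : ℕ) + 1 - (c - (5 : ℕ))).toNat = 11 := fun c => by omega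
      simp only [Fintype.card_piFinset, Int.card_Icc, this, Finset.prod_const, Finset.card_univ,
        Fintype.card_fin]
  simp only [indicator_apply]
  rw [← Finset.sum_filter, Finset.sum_const, nsmul_eq_mul]
  exact mul_le_mul_left (by exact_mod_cast h) _

/-- Good cubes. -/
def ALeb_G (p : ℝ) (D : V m → V m →L[ℝ] V m) (cc : (V m →L[ℝ] V m) → ℝ≥0∞) (e : ℝ≥0∞) (η : ℝ)
    (q : Ix m → ℤ) : Prop :=
  ∃ B, cc B * ∫⁻ y in closedBall (ALeb_o η q) (10 * η), ‖D y - B‖ₑ ^ p ≤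
    e * ENNReal.ofReal ((2 * η) ^ (2 * m + 1))

theorem ALeb_good {p : ℝ} {D : V m → V m →L[ℝ] V m} {cc : (V m →L[ℝ] V m) → ℝ≥0∞}
    (hcc : ∀ B, cc B ≠ ⊤) {e : ℝ≥0∞} (he : e ≠ 0) {x : V m}
    (hx : Tendsto (fun r : ℝ => (∫⁻ y in closedBall x r, ‖D y - D x‖ₑ ^ p) /
      volume (closedBall x r)) (𝓝[>] 0) (𝓝 0)) :
    ∀ᶠ η in 𝓝[>] (0 : ℝ), ∀ q, x ∈ closedBall (ALeb_o η q) (10 * η) → ALeb_G p D cc e η q := by
  obtain ⟨ε, hε, h1⟩ := ENNReal.exists_nnreal_pos_mul_lt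
    (ENNReal.mul_ne_top (hcc (D x)) (ENNReal.ofReal_ne_top (r := 20 ^ (2 * m + 1)))) he
  have h2 : Tendsto (fun η : ℝ => 20 * η) (𝓝[>] 0) (𝓝[>] 0) :=
    tendsto_nhdsWithin_iff.2 ⟨by
      simpa using ((continuous_const_mul (20 : ℝ)).tendsto 0).mono_left nhdsWithin_le_nhds,
      by filter_upwards [self_mem_nhdsWithin] with η hη using mul_pos (by norm_num : (0 : ℝ) < 20) hη⟩
  filter_upwards [h2.eventually (ENNReal.tendsto_nhds_zero.1 hx ε (by exact_mod_cast hε)),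
    self_mem_nhdsWithin] with η h3 hη q hq
  have hη : 0 < η := hη
  rw [ENNReal.div_le_iff (measure_closedBall_pos volume x (by linarith)).ne'
    measure_closedBall_lt_top.ne, Real.volume_pi_closedBall _ (by linarith), Fintype.card_fin,
    show 2 * (20 * η) = 20 * (2 * η) by ring, mul_pow,
    ENNReal.ofReal_mul (by positivity)] at h3
  refine ⟨D x, (mul_le_mul_right ((lintegral_mono_set (closedBall_subset_closedBall' ?_)).trans h3)
    _).trans (le_trans (le_of_eq ?_) (mul_le_mul_left h1.le _))⟩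
  · linarith [mem_closedBall'.1 hq]
  · ring

theorem exists_cubes {p : ℝ} (hp : 1 ≤ p) {D : V m → V m →L[ℝ] V m}
    (hD : AEStronglyMeasurable D volume) (hi : ∫⁻ x, ‖D x‖ₑ ^ p ≠ ⊤) {K U : Set (V m)}
    (hK : IsCompact K) (hU : IsOpen U) (hb : Bornology.IsBounded U) (hKU : K ⊆ U)
    {cc : (V m →L[ℝ] V m) → ℝ≥0∞} (hcc : ∀ B, cc B ≠ ⊤) {e : ℝ≥0∞} (he : e ≠ 0) {η0 : ℝ}
    (h0 : 0 < η0) :
    ∃ (ι : Type) (_ : Fintype ι) (o : ι → V m) (Aq : ι → V m →L[ℝ] V m) (η : ℝ), 0 < η ∧ η ≤ η0 ∧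
      (∀ q q', q ≠ q' → 2 * η ≤ ‖o q - o q'‖) ∧ (∀ q, closedBall (o q) (10 * η) ⊆ U) ∧
      (∀ x ∈ K, ∀ t : V m, ‖t‖ ≤ η → ∃ q, x - t ∈ closedBall (o q) η) ∧
      (Fintype.card ι : ℝ≥0∞) * ENNReal.ofReal ((2 * η) ^ (2 * m + 1)) ≤ volume U ∧
      ∑ q, cc (Aq q) * ∫⁻ y in closedBall (o q) (10 * η), ‖D y - Aq q‖ₑ ^ p ≤ e := by
  classical
  obtain ⟨δ, hδ, hδU⟩ := hK.exists_cthickening_subset_open hU hKU
  have he2 : e / 2 ≠ 0 := ENNReal.div_ne_zero.2 ⟨he, by simp⟩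
  obtain ⟨e1, he1, h1⟩ := ENNReal.exists_nnreal_pos_mul_lt (hb.measure_lt_top (μ := volume)).ne he2
  obtain ⟨e2, he2', h2⟩ := ENNReal.exists_nnreal_pos_mul_lt (hcc 0) he2
  have a0 : 0 < min η0 (δ / 12) := lt_min h0 (by linarith)
  let η : ℕ → ℝ := fun k => min η0 (δ / 12) / ((k : ℝ) + 1)
  have hη : ∀ k, 0 < η k := fun k => by positivity
  have hη1 : ∀ k, η k ≤ min η0 (δ / 12) := fun k =>
    div_le_self a0.le (le_add_of_nonneg_left k.cast_nonneg)
  have hηt : Tendsto η atTop (𝓝[>] 0) := tendsto_nhdsWithin_iff.2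
    ⟨tendsto_const_nhds.div_atTop (tendsto_natCast_atTop_atTop.atTop_add tendsto_const_nhds),
      Eventually.of_forall hη⟩
  choose s hs using fun k => ALeb_fin hb (hη k)
  have hm : AEMeasurable (fun y => ‖D y‖ₑ ^ p) volume := hD.enorm.pow_const p
  have hF := tendsto_lintegral_of_dominated_convergence' (μ := volume) (f := fun _ => 0)
    (F := fun k x => ∑ q ∈ (s k).filter (fun q => ¬ ALeb_G p D cc e1 (η k) q),
      (closedBall (ALeb_o (η k) q) (10 * η k)).indicator (fun y => ‖D y‖ₑ ^ p) x)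
    (fun x => 11 ^ (2 * m + 1) * ‖D x‖ₑ ^ p)
    (fun k => Finset.aemeasurable_fun_sum _ fun q _ => hm.indicator measurableSet_closedBall)
    (fun k => Eventually.of_forall fun x => ALeb_over (hη k) _ _ x)
    (by
      rw [lintegral_const_mul' _ _ (by simp)]
      exact ENNReal.mul_ne_top (by simp) hi)
    (by
      filter_upwards [ae_leb hp hD hi] with x hx
      refine tendsto_const_nhds.congr' ?_
      filter_upwards [hηt.eventually (ALeb_good hcc (ENNReal.coe_ne_zero.2 he1.ne') hx)] with k hk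
      refine (Finset.sum_eq_zero fun q hq => indicator_of_notMem (fun c => ?_) _).symm
      exact (Finset.mem_filter.1 hq).2 (hk q c))
  rw [lintegral_zero] at hF
  obtain ⟨k, hk⟩ := (ENNReal.tendsto_nhds_zero.1 hF e2 (by exact_mod_cast he2')).exists
  rw [lintegral_finsetSum' _ fun q _ => hm.indicator measurableSet_closedBall] at hk
  simp only [lintegral_indicator measurableSet_closedBall] at hk
  have hv := ALeb_vol (hη k) fun q hq => (hs k q).1 hq
  let A : (Ix m → ℤ) → V m →L[ℝ] V m := fun q =>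
    if h : ALeb_G p D cc e1 (η k) q then h.choose else 0
  refine ⟨s k, inferInstance, fun q => ALeb_o (η k) q, fun q => A q, η k, hη k,
    (hη1 k).trans (min_le_left _ _), fun q q' h => ALeb_sep (hη k) fun c => h (Subtype.ext c),
    fun q => (hs k q).1 q.2, fun x hx t ht => ?_, by rwa [Fintype.card_coe], ?_⟩
  · obtain ⟨q, hq⟩ := ALeb_cov (hη k) (x - t)
    refine ⟨⟨q, (hs k q).2 (((closedBall_subset_closedBall' ?_).trans
      (closedBall_subset_cthickening hx δ)).trans hδU)⟩, hq⟩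
    have a1 := dist_triangle (ALeb_o (η k) q) (x - t) x
    have a2 : dist (x - t) x = ‖t‖ := by rw [dist_eq_norm, sub_sub_cancel_left, norm_neg]
    linarith [mem_closedBall'.1 hq, (hη1 k).trans (min_le_right _ _)]
  rw [Finset.sum_coe_sort (s k) fun q =>
    cc (A q) * ∫⁻ y in closedBall (ALeb_o (η k) q) (10 * η k), ‖D y - A q‖ₑ ^ p,
    ← Finset.sum_filter_add_sum_filter_not (s k) (ALeb_G p D cc e1 (η k)), ← ENNReal.add_halves e]
  refine add_le_add ?_ ?_
  · refine (Finset.sum_le_card_nsmul _ _ (e1 * ENNReal.ofReal ((2 * η k) ^ (2 * m + 1)))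
      fun q hq => ?_).trans ?_
    · have hq' := (Finset.mem_filter.1 hq).2
      simp only [A, dif_pos hq']
      exact hq'.choose_spec
    · rw [nsmul_eq_mul, mul_left_comm]
      refine le_trans (mul_le_mul_right (le_trans (mul_le_mul_left ?_ _) hv) _) h1.le
      exact_mod_cast Finset.card_filter_le _ _
  · rw [Finset.sum_congr rfl (g := fun q =>
      cc 0 * ∫⁻ y in closedBall (ALeb_o (η k) q) (10 * η k), ‖D y‖ₑ ^ p) fun q hq => by
        simp only [A, dif_neg (Finset.mem_filter.1 hq).2, sub_zero], ← Finset.mul_sum, mul_comm]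
    exact (mul_le_mul_left hk _).trans h2.le

end BEp
end
end
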