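import Pool.Agent.Work.MP_f0515e_an.Pos.ADefs

-- merged part: Pool.Agent.Work.MP_f0515e_an.Pos.BComp
section
/-! TASK BComp. The approximable maps are closed under composition.
Plan. bl_null / bl_lintegral: invFun w is K-Lipschitz, volume = Hausdorff measure of dimension n on Fin n -> R (hausdorffMeasure_pi_real,
LipschitzWith.hausdorffMeasure_image_le), so map w volume <= K^n volume. App.seq: take R = j, eps = 2^-j, monotone convergence / Borel-Cantelli gives a sequence w j with pointwise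
convergence and a.e. convergence of fderiv. comp_left: for a.e. x and every piece (B, beta) of T' (countably many, over all balls): either T' (T x) != B (T x) + beta or T' o T = B o T + beta near x
(TP.ae_ne_or), all w j and T are differentiable at x, and T' is locally affine at w j x (for a.e. y T' equals one piece near y by TP.ae_ne_or; pull back by bl_null). Then fderiv (T' o w j) x = B_j o fderiv (w j) x
with B_j a piece active at w j x; for large j only pieces active at T x are active at w j x (finitely many pieces in a ball), so the difference is at most max norm B times norm (fderiv (w j) x - fderiv T x).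
Dominated convergence. App.comp: first choose w with comp_left, then w' for the ball containing w (closedBall R), chain rule a.e., bl_lintegral. -/

open Set Metric Filter Topology Function BEv MeasureTheory
open scoped NNReal ENNReal ContDiff

noncomputable section
namespace BEp

variable {n : ℕ}

theorem BComp_pre {w : (Fin n → ℝ) → Fin n → ℝ} (h : BL w) :
    ∃ C : ℝ≥0, ∀ s : Set (Fin n → ℝ), volume (w ⁻¹' s) ≤ C * volume s := by
  obtain ⟨hb, -, K, hK⟩ := h
  refine ⟨K ^ n, fun s => ?_⟩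
  have e : w ⁻¹' s ⊆ invFun w '' s := fun x hx => ⟨w x, hx, leftInverse_invFun hb.1 x⟩
  have h1 := hK.hausdorffMeasure_image_le (d := (Fintype.card (Fin n) : ℝ)) (by positivity) s
  rw [hausdorffMeasure_pi_real, Fintype.card_fin, ENNReal.rpow_natCast] at h1
  exact (measure_mono e).trans (by rwa [ENNReal.coe_pow])

theorem bl_lintegral {w : (Fin n → ℝ) → Fin n → ℝ} (h : BL w) :
    ∃ C : ℝ≥0, ∀ φ : (Fin n → ℝ) → ℝ≥0∞, Measurable φ → ∫⁻ x, φ (w x) ≤ C * ∫⁻ y, φ y := by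
  obtain ⟨C, hC⟩ := BComp_pre h
  obtain ⟨-, ⟨L, hL⟩, -⟩ := h
  have hm : Measurable w := hL.continuous.measurable
  have h1 : Measure.map w volume ≤ (C : ℝ≥0∞) • volume := Measure.le_iff.2 fun s hs => by
    rw [Measure.map_apply hm hs, Measure.smul_apply, smul_eq_mul]
    exact hC s
  refine ⟨C, fun φ hφ => ?_⟩
  rw [← lintegral_map hφ hm, ← smul_eq_mul, ← lintegral_smul_measure]
  exact lintegral_mono' h1 le_rfl

theorem bl_null {w : (Fin n → ℝ) → Fin n → ℝ} (h : BL w) {P : (Fin n → ℝ) → Prop}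
    (hP : ∀ᵐ y, P y) : ∀ᵐ x, P (w x) := by
  obtain ⟨C, hC⟩ := BComp_pre h
  have := hC {y | ¬ P y}
  rw [ae_iff.1 hP, mul_zero] at this
  exact ae_iff.2 (le_zero_iff.1 this)

theorem BComp_meas (f g : (Fin n → ℝ) → Fin n → ℝ) :
    Measurable fun x => ‖fderiv ℝ f x - fderiv ℝ g x‖ₑ :=
  ((measurable_fderiv ℝ f).sub (measurable_fderiv ℝ g)).enorm

theorem BComp_ev {T : (Fin n → ℝ) → Fin n → ℝ} {L L' : ℝ≥0} (hT : LipschitzWith L' T)
    {w : ℕ → (Fin n → ℝ) → Fin n → ℝ}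
    (h2 : ∀ j, LipschitzWith L (w j)) (h3 : ∀ x, Tendsto (fun j => w j x) atTop (𝓝 (T x)))
    (h4 : ∀ᵐ x, Tendsto (fun j => fderiv ℝ (w j) x) atTop (𝓝 (fderiv ℝ T x))) (R : ℝ) {ε : ℝ}
    (hε : 0 < ε) : ∃ j, (∀ x ∈ closedBall (0 : Fin n → ℝ) R, ‖w j x - T x‖ ≤ ε) ∧
      ∫⁻ x in closedBall (0 : Fin n → ℝ) R, ‖fderiv ℝ (w j) x - fderiv ℝ T x‖ₑ ≤
        ENNReal.ofReal ε := by
  have a1 : ∀ᶠ j in atTop, ∀ x ∈ closedBall (0 : Fin n → ℝ) R, ‖w j x - T x‖ ≤ ε := by
    refine (isCompact_closedBall (0 : Fin n → ℝ) R).induction_on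
      (p := fun s => ∀ᶠ j in atTop, ∀ x ∈ s, ‖w j x - T x‖ ≤ ε) (by simp)
      (fun s t e k => k.mono fun j k x hx => k x (e hx))
      (fun s t k k' => (k.and k').mono fun j k x hx => hx.elim (k.1 x) (k.2 x)) fun x _ => ?_
    have hp : 0 < (L : ℝ) + L' + 1 := by positivity
    refine ⟨ball x (ε / 2 / (L + L' + 1)),
      mem_nhdsWithin_of_mem_nhds (ball_mem_nhds x (by positivity)), ?_⟩
    filter_upwards [Metric.tendsto_nhds.1 (h3 x) (ε / 2) (by positivity)] with j hj y hy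
    have e1 := (h2 j).dist_le_mul y x
    have e2 := hT.dist_le_mul x y
    have e3 := dist_triangle4 (w j y) (w j x) (T x) (T y)
    rw [mem_ball, lt_div_iff₀ hp] at hy
    rw [dist_comm x y] at e2
    rw [← dist_eq_norm]
    nlinarith [dist_nonneg (x := y) (y := x)]
  have a2 := tendsto_lintegral_of_dominated_convergence
    (μ := volume.restrict (closedBall (0 : Fin n → ℝ) R))
    (F := fun j x => ‖fderiv ℝ (w j) x - fderiv ℝ T x‖ₑ) (f := fun _ => 0)
    (fun _ => ((L + L' : ℝ≥0) : ℝ≥0∞)) (fun j => BComp_meas _ _)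
    (fun j => Eventually.of_forall fun x => by
      change ‖fderiv ℝ (w j) x - fderiv ℝ T x‖ₑ ≤ ((L + L' : ℝ≥0) : ℝ≥0∞)
      rw [enorm_le_coe, ← NNReal.coe_le_coe, coe_nnnorm, NNReal.coe_add]
      exact (norm_sub_le _ _).trans
        (add_le_add (norm_fderiv_le_of_lipschitz ℝ (h2 j)) (norm_fderiv_le_of_lipschitz ℝ hT)))
    (by
      rw [setLIntegral_const]
      exact ENNReal.mul_ne_top ENNReal.coe_ne_top measure_closedBall_lt_top.ne)
    (ae_restrict_of_ae (h4.mono fun x hx =>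
      tendsto_zero_iff_enorm_tendsto_zero.1 (tendsto_sub_nhds_zero_iff.2 hx)))
  rw [lintegral_zero] at a2
  exact (a1.and (a2.eventually_le_const (ENNReal.ofReal_pos.2 hε))).exists

theorem BComp_seq {Kd : ((Fin n → ℝ) → Fin n → ℝ) → Prop} {T : (Fin n → ℝ) → Fin n → ℝ}
    (h : App Kd T) : ∃ (L : ℝ≥0) (w : ℕ → (Fin n → ℝ) → Fin n → ℝ), (∀ j, Kd (w j)) ∧
      (∀ j, LipschitzWith L (w j)) ∧ (∀ x, Tendsto (fun j => w j x) atTop (𝓝 (T x))) ∧
      ∀ᵐ x, Tendsto (fun j => fderiv ℝ (w j) x) atTop (𝓝 (fderiv ℝ T x)) := by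
  obtain ⟨-, L, h⟩ := h
  choose w h1 h2 h3 h4 using fun j : ℕ => h j ((1 / 2) ^ j) (by positivity)
  have ev : ∀ x : Fin n → ℝ, ∀ᶠ j : ℕ in atTop, x ∈ closedBall (0 : Fin n → ℝ) j := fun x =>
    (tendsto_natCast_atTop_atTop.eventually_ge_atTop ‖x‖).mono fun j k =>
      mem_closedBall_zero_iff.2 k
  refine ⟨L, w, h1, h2, fun x => ?_, ?_⟩
  · rw [tendsto_iff_norm_sub_tendsto_zero]
    exact squeeze_zero' (Eventually.of_forall fun _ => norm_nonneg _)
      ((ev x).mono fun j k => h3 j x k)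
      (tendsto_pow_atTop_nhds_zero_of_lt_one (by norm_num) (by norm_num))
  have m : ∀ j : ℕ, Measurable (indicator (closedBall (0 : Fin n → ℝ) j)
      fun x => ‖fderiv ℝ (w j) x - fderiv ℝ T x‖ₑ) := fun j =>
    (BComp_meas _ _).indicator measurableSet_closedBall
  have fin : ∫⁻ x, ∑' j : ℕ, indicator (closedBall (0 : Fin n → ℝ) j)
      (fun x => ‖fderiv ℝ (w j) x - fderiv ℝ T x‖ₑ) x ≠ ⊤ := by
    rw [lintegral_tsum fun j => (m j).aemeasurable]
    refine ne_top_of_le_ne_top (b := ∑' j : ℕ, ENNReal.ofReal ((1 / 2) ^ j)) ?_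
      (ENNReal.tsum_le_tsum fun j => ?_)
    · rw [← ENNReal.ofReal_tsum_of_nonneg (fun _ => by positivity) summable_geometric_two]
      exact ENNReal.ofReal_ne_top
    · rw [lintegral_indicator measurableSet_closedBall]
      exact h4 j
  filter_upwards [ae_lt_top (Measurable.ennreal_tsum m) fin] with x hx
  have := (ENNReal.tendsto_atTop_zero_of_tsum_ne_top hx.ne).congr'
    ((ev x).mono fun j k => indicator_of_mem k _)
  exact tendsto_sub_nhds_zero_iff.1 (tendsto_zero_iff_enorm_tendsto_zero.2 this)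

theorem BComp_left {T T' : (Fin n → ℝ) → Fin n → ℝ} (hT : TP T) (hT' : TP T')
    {w : ℕ → (Fin n → ℝ) → Fin n → ℝ} (h1 : ∀ j, BL (w j))
    (h3 : ∀ x, Tendsto (fun j => w j x) atTop (𝓝 (T x)))
    (h4 : ∀ᵐ x, Tendsto (fun j => fderiv ℝ (w j) x) atTop (𝓝 (fderiv ℝ T x))) :
    ∀ᵐ x, Tendsto (fun j => fderiv ℝ (T' ∘ w j) x) atTop (𝓝 (fderiv ℝ (T' ∘ T) x)) := by
  choose S hS hp using hT'.pa
  have t : ∀ B : ((Fin n → ℝ) →L[ℝ] (Fin n → ℝ)) × (Fin n → ℝ),
      TP fun y => T' y - (B.1 y + B.2) := fun B => hT'.sub ((TP.clm B.1).add (TP.const _))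
  have a1 : ∀ᵐ x, ∀ R : ℕ, ∀ B ∈ S R, T' (T x) - (B.1 (T x) + B.2) ≠ 0 ∨
      ∀ᶠ y in 𝓝 x, T' (T y) - (B.1 (T y) + B.2) = 0 :=
    ae_all_iff.2 fun R => (ae_ball_iff (hS R).countable).2 fun B _ => ((t B).comp hT).ae_ne_or
  have a2 : ∀ᵐ x, ∀ R : ℕ, ∀ B ∈ S R, T' x - (B.1 x + B.2) ≠ 0 ∨
      ∀ᶠ y in 𝓝 x, T' y - (B.1 y + B.2) = 0 :=
    ae_all_iff.2 fun R => (ae_ball_iff (hS R).countable).2 fun B _ => (t B).ae_ne_or
  have a3 := ae_all_iff.2 fun j => bl_null (h1 j) a2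
  have a4 : ∀ᵐ x, ∀ j, DifferentiableAt ℝ (w j) x := ae_all_iff.2 fun j => by
    obtain ⟨-, ⟨L, hL⟩, -⟩ := h1 j
    exact hL.ae_differentiableAt
  have a5 : ∀ᵐ x, DifferentiableAt ℝ T x := by
    obtain ⟨L, hL⟩ := hT.lip
    exact hL.ae_differentiableAt
  have key : ∀ (B : ((Fin n → ℝ) →L[ℝ] (Fin n → ℝ)) × (Fin n → ℝ)) (f : (Fin n → ℝ) → Fin n → ℝ)
      (x : Fin n → ℝ), DifferentiableAt ℝ f x → (∀ᶠ y in 𝓝 x, T' (f y) - (B.1 (f y) + B.2) = 0) →
      fderiv ℝ (T' ∘ f) x = B.1.comp (fderiv ℝ f x) := fun B f x d e =>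
    (((B.1.hasFDerivAt.comp x d.hasFDerivAt).add_const B.2).congr_of_eventuallyEq
      (e.mono fun y k => sub_eq_zero.1 k)).fderiv
  filter_upwards [a1, a3, a4, a5, h4] with x b1 b3 b4 b5 b6
  obtain ⟨R, hR⟩ := exists_nat_gt ‖T x‖
  refine Metric.tendsto_nhds.2 fun ε hε => ?_
  have c1 := (h3 x).eventually (closedBall_mem_nhds_of_mem (mem_ball_zero_iff.2 hR))
  have c2 : ∀ᶠ j in atTop, ∀ B ∈ S R, T' (w j x) - (B.1 (w j x) + B.2) = 0 →
      T' (T x) - (B.1 (T x) + B.2) = 0 := (eventually_all_finite (hS R)).2 fun B _ => by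
    by_cases k : T' (T x) - (B.1 (T x) + B.2) = 0
    · exact Eventually.of_forall fun _ _ => k
    · exact (((t B).continuous.tendsto _).comp (h3 x)).eventually_ne k |>.mono
        fun j e e' => absurd e' e
  have c3 : ∀ᶠ j in atTop, ∀ B ∈ S R,
      dist (B.1.comp (fderiv ℝ (w j) x)) (B.1.comp (fderiv ℝ T x)) < ε :=
    (eventually_all_finite (hS R)).2 fun B _ => Metric.tendsto_nhds.1
      (((continuous_const.clm_comp continuous_id).tendsto _).comp b6) ε hε
  filter_upwards [c1, c2, c3] with j d1 d2 d3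
  obtain ⟨B, hB, e⟩ := hp R _ d1
  have e := sub_eq_zero.2 e
  rw [key B T x b5 ((b1 R B hB).resolve_left (not_not.2 (d2 B hB e))),
    key B (w j) x (b4 j) ((b4 j).continuousAt.eventually
      ((b3 j R B hB).resolve_left (not_not.2 e)))]
  exact d3 B hB

theorem App.comp {Kd : ((Fin n → ℝ) → Fin n → ℝ) → Prop} (hK : ∀ w, Kd w → BL w)
    (hc : ∀ w w', Kd w → Kd w' → Kd (w ∘ w')) {T T' : (Fin n → ℝ) → Fin n → ℝ}
    (h' : App Kd T') (h : App Kd T) : App Kd (T' ∘ T) := by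
  obtain ⟨L, ws, h1, h2, h3, h4⟩ := BComp_seq h
  obtain ⟨hT, -⟩ := h
  obtain ⟨hT', L', h'⟩ := h'
  obtain ⟨K, hK0⟩ := hT.lip
  obtain ⟨K', hK'⟩ := hT'.lip
  refine ⟨hT'.comp hT, L' * L, fun R ε hε => ?_⟩
  obtain ⟨j, a1, a2⟩ := BComp_ev (w := fun j => T' ∘ ws j) (hK'.comp hK0) (fun j => hK'.comp (h2 j))
    (fun x => (hK'.continuous.tendsto _).comp (h3 x))
    (BComp_left hT hT' (fun j => hK _ (h1 j)) h3 h4) R (half_pos hε)
  have k1 := h1 j
  have k2 := h2 j
  generalize ws j = w at a1 a2 k1 k2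
  obtain ⟨C, hC⟩ := bl_lintegral (hK w k1)
  obtain ⟨R', hR'⟩ := ((isCompact_closedBall (0 : Fin n → ℝ) R).image
    k2.continuous).isBounded.subset_closedBall 0
  have hp : 0 < (L : ℝ) * C + 1 := by positivity
  obtain ⟨w', b1, b2, b3, b4⟩ := h' R' (ε / 2 / (L * C + 1)) (by positivity)
  have e0 : ε / 2 / (L * C + 1) * (L * C + 1) = ε / 2 := div_mul_cancel₀ _ hp.ne'
  have e1 : 0 < ε / 2 / (L * C + 1) := by positivity
  have e2 : 0 ≤ (L : ℝ) * C := by positivity
  generalize ε / 2 / (L * C + 1) = δ at b3 b4 e0 e1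
  refine ⟨w' ∘ w, hc _ _ b1 k1, b2.comp k2, fun x hx => ?_, ?_⟩
  · have := norm_sub_le_norm_sub_add_norm_sub (w' (w x)) (T' (w x)) (T' (T x))
    have c1 : ‖T' (w x) - T' (T x)‖ ≤ ε / 2 := a1 x hx
    have c2 := b3 (w x) (hR' ⟨x, hx, rfl⟩)
    change ‖w' (w x) - T' (T x)‖ ≤ ε
    nlinarith
  have d1 : ∀ᵐ x, DifferentiableAt ℝ w x := k2.ae_differentiableAt
  have d2 := bl_null (hK w k1) (b2.ae_differentiableAt (μ := volume))
  have d3 := bl_null (hK w k1) (hK'.ae_differentiableAt (μ := volume))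
  have m := (BComp_meas w' T').indicator (measurableSet_closedBall (x := (0 : Fin n → ℝ)) (ε := R'))
  have f1 : ∫⁻ x in closedBall (0 : Fin n → ℝ) R, ‖fderiv ℝ (w' ∘ w) x - fderiv ℝ (T' ∘ w) x‖ₑ ≤
      ENNReal.ofReal (ε / 2) :=
    calc _ ≤ ∫⁻ x in closedBall (0 : Fin n → ℝ) R, L * indicator (closedBall (0 : Fin n → ℝ) R')
          (fun y => ‖fderiv ℝ w' y - fderiv ℝ T' y‖ₑ) (w x) := by
          refine setLIntegral_mono_ae' measurableSet_closedBall ?_
          filter_upwards [d1, d2, d3] with x c1 c2 c3 hx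
          rw [indicator_of_mem (hR' ⟨x, hx, rfl⟩), fderiv_comp x c2 c1, fderiv_comp x c3 c1,
            ← ContinuousLinearMap.sub_comp, ← ofReal_norm_eq_enorm, ← ofReal_norm_eq_enorm,
            ← ENNReal.ofReal_coe_nnreal, ← ENNReal.ofReal_mul L.coe_nonneg, mul_comm]
          refine ENNReal.ofReal_le_ofReal ((ContinuousLinearMap.opNorm_comp_le _ _).trans ?_)
          gcongr
          exact norm_fderiv_le_of_lipschitz ℝ k2
      _ ≤ L * ∫⁻ x, indicator (closedBall (0 : Fin n → ℝ) R')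
          (fun y => ‖fderiv ℝ w' y - fderiv ℝ T' y‖ₑ) (w x) := by
          rw [lintegral_const_mul' _ _ ENNReal.coe_ne_top]
          gcongr
          exact Measure.restrict_le_self
      _ ≤ L * (C * ENNReal.ofReal δ) := by
          gcongr
          refine (hC _ m).trans ?_
          rw [lintegral_indicator measurableSet_closedBall]
          gcongr
      _ ≤ _ := by
          rw [← ENNReal.ofReal_coe_nnreal, ← ENNReal.ofReal_coe_nnreal (p := C),
            ← ENNReal.ofReal_mul C.coe_nonneg, ← ENNReal.ofReal_mul L.coe_nonneg]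
          exact ENNReal.ofReal_le_ofReal (by nlinarith)
  calc _ ≤ ∫⁻ x in closedBall (0 : Fin n → ℝ) R, (‖fderiv ℝ (w' ∘ w) x - fderiv ℝ (T' ∘ w) x‖ₑ +
        ‖fderiv ℝ (T' ∘ w) x - fderiv ℝ (T' ∘ T) x‖ₑ) := by
        refine lintegral_mono fun x => ?_
        simp only [← edist_eq_enorm_sub]
        exact edist_triangle _ _ _
    _ ≤ ENNReal.ofReal (ε / 2) + ENNReal.ofReal (ε / 2) := by
        rw [lintegral_add_left (BComp_meas _ _)]
        exact add_le_add f1 a2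
    _ = _ := by rw [← ENNReal.ofReal_add (half_pos hε).le (half_pos hε).le, add_halves]

/-- Criterion by sequences. -/
theorem App.of_seq {Kd : ((Fin n → ℝ) → Fin n → ℝ) → Prop} {T : (Fin n → ℝ) → Fin n → ℝ}
    (hT : TP T) {L : ℝ≥0} {w : ℕ → (Fin n → ℝ) → Fin n → ℝ} (h1 : ∀ j, Kd (w j))
    (h2 : ∀ j, LipschitzWith L (w j)) (h3 : ∀ x, Tendsto (fun j => w j x) atTop (𝓝 (T x)))
    (h4 : ∀ᵐ x, Tendsto (fun j => fderiv ℝ (w j) x) atTop (𝓝 (fderiv ℝ T x))) :
    App Kd T := by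
  obtain ⟨L', hL'⟩ := hT.lip
  refine ⟨hT, L, fun R ε hε => ?_⟩
  obtain ⟨j, a1, a2⟩ := BComp_ev hL' h2 h3 h4 R hε
  exact ⟨w j, h1 j, h2 j, a1, a2⟩

end BEp
end
end

-- merged part: Pool.Agent.Work.MP_f0515e_an.Pos.BMoll
section
/-! TASK BMoll. Accretive piecewise affine maps are limits of diffeomorphisms.
Plan. phi j : ContDiffBump 0 with rOut -> 0, Phi_j = normed (phi j) convolved with Phi (Phi continuous). Phi_j x = integral of rho t Phi (x - t): smooth
(HasCompactSupport.contDiff_convolution_left), L-Lipschitz, Accr (the inequality holds for x - t, y - t), converges pointwise; where Phi is affine on a ball around x (a.e. x, TP.ae_ne_or for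
the pieces) Phi_j = Phi + const near x for large j. w j = mix (1/(j+1)) Phi_j is expanding and onto (Accr.expanding, Accr.surjective), so BL; its derivative is injective, hence an
isomorphism, and invFun is smooth (ContDiffAt.to_localInverse or Homeomorph.contDiff_symm). App.of_seq. -/

open Set Metric Filter Topology Function BEv MeasureTheory
open scoped NNReal ENNReal ContDiff

noncomputable section
namespace BEp

variable {n : ℕ}

theorem BMoll_inj {w : (Fin n → ℝ) → Fin n → ℝ} {x : Fin n → ℝ}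
    {A : (Fin n → ℝ) →L[ℝ] (Fin n → ℝ)} (hA : HasFDerivAt w A x) {c : ℝ} (hc : 0 < c)
    (he : ∀ x y, c * ‖x - y‖ ≤ ‖w x - w y‖) : Injective A := by
  refine (injective_iff_map_eq_zero A).2 fun v hv => ?_
  by_contra hne
  have hv0 : 0 < ‖v‖ := norm_pos_iff.2 hne
  have h1 : HasDerivAt (fun t : ℝ => x + t • v) v 0 := by
    simpa using ((hasDerivAt_id (0 : ℝ)).smul_const v).const_add x
  have h2 : HasDerivAt (fun t : ℝ => w (x + t • v)) 0 0 := by
    have hA' : HasFDerivAt w A (x + (0 : ℝ) • v) := by simpa using hA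
    have := hA'.comp_hasDerivAt (0 : ℝ) h1
    rw [hv] at this
    exact this
  have h3 := (hasDerivAt_iff_isLittleO.1 h2).def (c := c * ‖v‖ / 2) (by positivity)
  have h4 : ∀ᶠ t : ℝ in 𝓝[≠] 0, False := by
    filter_upwards [nhdsWithin_le_nhds h3, self_mem_nhdsWithin] with t ht ht0
    have ht1 : 0 < ‖t‖ := norm_pos_iff.2 ht0
    have h5 := he (x + t • v) x
    simp only [zero_smul, add_zero, sub_zero, smul_zero] at ht
    rw [add_sub_cancel_left, norm_smul] at h5
    have h6 : 0 < c * ‖v‖ * ‖t‖ := by positivity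
    nlinarith
  exact (h4.exists).elim fun _ h => h

theorem gd_of_expanding {w : (Fin n → ℝ) → Fin n → ℝ} (hw : ContDiff ℝ ∞ w)
    (hL : ∃ L : ℝ≥0, LipschitzWith L w) (hs : Surjective w) {c : ℝ} (hc : 0 < c)
    (he : ∀ x y, c * ‖x - y‖ ≤ ‖w x - w y‖) : GD w := by
  have hi : Injective w := fun x y e => by
    have := he x y
    rw [e, sub_self, norm_zero] at this
    have h2 : ‖x - y‖ ≤ 0 := by
      by_contra h
      have := mul_pos hc (not_le.1 h)
      linarith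
    exact sub_eq_zero.1 (norm_le_zero_iff.1 h2)
  have hr : RightInverse (invFun w) w := rightInverse_invFun hs
  have hl : LeftInverse (invFun w) w := leftInverse_invFun hi
  have hlip : LipschitzWith (Real.toNNReal c⁻¹) (invFun w) := by
    refine LipschitzWith.of_dist_le' fun x y => ?_
    have := he (invFun w x) (invFun w y)
    rw [hr x, hr y] at this
    rw [dist_eq_norm, dist_eq_norm, inv_mul_eq_div, le_div_iff₀ hc, mul_comm]
    exact this
  refine ⟨⟨⟨hi, hs⟩, hL, _, hlip⟩, hw, ?_⟩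
  let H : (Fin n → ℝ) ≃ₜ (Fin n → ℝ) :=
    { toFun := w
      invFun := invFun w
      left_inv := hl
      right_inv := hr
      continuous_toFun := hw.continuous
      continuous_invFun := hlip.continuous }
  have hd : ∀ x, HasFDerivAt w (fderiv ℝ w x) x := fun x =>
    (hw.differentiable (by simp) x).hasFDerivAt
  have hb : ∀ x, Bijective (fderiv ℝ w x) := fun x => by
    have h1 := BMoll_inj (hd x) hc he
    exact ⟨h1, (LinearMap.injective_iff_surjective
      (f := (fderiv ℝ w x : (Fin n → ℝ) →ₗ[ℝ] (Fin n → ℝ)))).1 h1⟩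
  let e : (Fin n → ℝ) → (Fin n → ℝ) ≃L[ℝ] (Fin n → ℝ) := fun x =>
    (LinearEquiv.ofBijective (fderiv ℝ w x : (Fin n → ℝ) →ₗ[ℝ] (Fin n → ℝ))
      (hb x)).toContinuousLinearEquiv
  have he' : ∀ x, (e x : (Fin n → ℝ) →L[ℝ] (Fin n → ℝ)) = fderiv ℝ w x := fun x => by
    ext v i
    rfl
  exact H.contDiff_symm (f₀' := e) (fun x => by rw [he']; exact hd x) hw

/-- Mollification. -/
def BMoll_cv (φ : ContDiffBump (0 : Fin n → ℝ)) (Φ : (Fin n → ℝ) → Fin n → ℝ) (x : Fin n → ℝ) :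
    Fin n → ℝ := ∫ t, φ.normed volume t • Φ (x - t)

theorem BMoll_cv_eq (φ : ContDiffBump (0 : Fin n → ℝ)) (Φ : (Fin n → ℝ) → Fin n → ℝ) :
    BMoll_cv φ Φ = convolution (φ.normed volume) Φ (ContinuousLinearMap.lsmul ℝ ℝ) volume := rfl

theorem BMoll_int (φ : ContDiffBump (0 : Fin n → ℝ)) {G : Type} [NormedAddCommGroup G]
    [NormedSpace ℝ G] {Φ : (Fin n → ℝ) → G} (hΦ : Continuous Φ) :
    Integrable (fun t => φ.normed volume t • Φ t) :=
  (φ.continuous_normed.smul hΦ).integrable_of_hasCompactSupport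
    (φ.hasCompactSupport_normed.smul_right)

theorem BMoll_smooth (φ : ContDiffBump (0 : Fin n → ℝ)) {Φ : (Fin n → ℝ) → Fin n → ℝ}
    (hΦ : Continuous Φ) : ContDiff ℝ ∞ (BMoll_cv φ Φ) := by
  rw [BMoll_cv_eq]
  exact φ.hasCompactSupport_normed.contDiff_convolution_left _ φ.contDiff_normed
    hΦ.locallyIntegrable

theorem BMoll_sub (φ : ContDiffBump (0 : Fin n → ℝ)) {Φ : (Fin n → ℝ) → Fin n → ℝ}
    (hΦ : Continuous Φ) (x y : Fin n → ℝ) :
    BMoll_cv φ Φ x - BMoll_cv φ Φ y = ∫ t, φ.normed volume t • (Φ (x - t) - Φ (y - t)) := by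
  unfold BMoll_cv
  rw [← integral_sub (BMoll_int φ (Φ := fun t => Φ (x - t)) (by fun_prop))
    (BMoll_int φ (Φ := fun t => Φ (y - t)) (by fun_prop))]
  simp only [smul_sub]

theorem BMoll_lip (φ : ContDiffBump (0 : Fin n → ℝ)) {Φ : (Fin n → ℝ) → Fin n → ℝ} {L : ℝ≥0}
    (hΦ : LipschitzWith L Φ) : LipschitzWith L (BMoll_cv φ Φ) := by
  refine LipschitzWith.of_dist_le_mul fun x y => ?_
  rw [dist_eq_norm, BMoll_sub φ hΦ.continuous]
  have h1 : ∫ t, φ.normed volume t • ((L : ℝ) * dist x y) = L * dist x y := by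
    rw [integral_smul_const, φ.integral_normed, one_smul]
  rw [← h1]
  refine norm_integral_le_of_norm_le (BMoll_int φ continuous_const)
    (Eventually.of_forall fun t => ?_)
  rw [norm_smul, Real.norm_of_nonneg (φ.nonneg_normed t), smul_eq_mul]
  refine mul_le_mul_of_nonneg_left ?_ (φ.nonneg_normed t)
  have := hΦ.dist_le_mul (x - t) (y - t)
  rwa [dist_sub_right, dist_eq_norm] at this

theorem BMoll_accr (φ : ContDiffBump (0 : Fin n → ℝ)) {Φ : (Fin n → ℝ) → Fin n → ℝ}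
    (hΦ : Continuous Φ) (h : Accr Φ) : Accr (BMoll_cv φ Φ) := by
  intro x y i hxy
  have h1 : 0 ≤ (BMoll_cv φ Φ x - BMoll_cv φ Φ y) i := by
    rw [BMoll_sub φ hΦ]
    have hI := BMoll_int φ (Φ := fun t => Φ (x - t) - Φ (y - t)) (by fun_prop)
    have h2 := (ContinuousLinearMap.proj (R := ℝ) (φ := fun _ : Fin n => ℝ) i).integral_comp_comm hI
    simp only [ContinuousLinearMap.proj_apply] at h2
    rw [← h2]
    refine integral_nonneg fun t => ?_
    have h3 := h (x - t) (y - t) i (by simpa using hxy)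
    simp only [Pi.zero_apply, Pi.smul_apply, Pi.sub_apply, smul_eq_mul]
    exact mul_nonneg (φ.nonneg_normed t) (sub_nonneg.2 h3)
  simpa using h1

theorem BMoll_loc (φ : ContDiffBump (0 : Fin n → ℝ)) {Φ : (Fin n → ℝ) → Fin n → ℝ}
    (hΦ : Continuous Φ) {x : Fin n → ℝ} {A : (Fin n → ℝ) →L[ℝ] (Fin n → ℝ)} {b : Fin n → ℝ}
    {r : ℝ} (hr : φ.rOut < r) (hA : ∀ y ∈ ball x (2 * r), Φ y = A y + b) :
    HasFDerivAt (BMoll_cv φ Φ) A x := by
  have hr0 : 0 < r := φ.rOut_pos.trans hr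
  have h1 : BMoll_cv φ Φ =ᶠ[𝓝 x] fun y => BMoll_cv φ Φ x + A (y - x) := by
    filter_upwards [ball_mem_nhds x hr0] with y hy
    rw [← sub_eq_iff_eq_add', BMoll_sub φ hΦ]
    have h2 : ∀ t, φ.normed volume t • (Φ (y - t) - Φ (x - t)) =
        φ.normed volume t • A (y - x) := by
      intro t
      by_cases ht : φ.normed volume t = 0
      · rw [ht, zero_smul, zero_smul]
      · have h3 : t ∈ ball (0 : Fin n → ℝ) φ.rOut := by
          rw [← φ.support_normed_eq (μ := volume)]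
          exact ht
        rw [mem_ball_zero_iff] at h3
        rw [mem_ball_iff_norm] at hy
        rw [hA (y - t), hA (x - t)]
        · congr 1
          simp only [map_sub]
          abel
        · rw [mem_ball_iff_norm, sub_sub_cancel_left, norm_neg]
          linarith
        · rw [mem_ball_iff_norm, sub_right_comm]
          linarith [norm_sub_le (y - x) t]
    simp only [h2]
    rw [integral_smul_const, φ.integral_normed, one_smul]
  refine HasFDerivAt.congr_of_eventuallyEq ?_ h1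
  have h4 : HasFDerivAt (fun y => A (y - x)) A x := by
    simpa only [map_sub] using A.hasFDerivAt.sub_const (A x)
  exact h4.const_add _

theorem BMoll_ae {Φ : (Fin n → ℝ) → Fin n → ℝ} (hΦ : TP Φ) :
    ∀ᵐ x, ∃ (A : (Fin n → ℝ) →L[ℝ] (Fin n → ℝ)) (b : Fin n → ℝ), ∀ᶠ y in 𝓝 x, Φ y = A y + b := by
  choose S hS hp using hΦ.pa
  have h1 : ∀ᵐ x, ∀ R : ℕ, ∀ A ∈ S R, Φ x - (A.1 x + A.2) ≠ 0 ∨
      ∀ᶠ y in 𝓝 x, Φ y - (A.1 y + A.2) = 0 :=
    ae_all_iff.2 fun R => (ae_ball_iff (hS R).countable).2 fun A _ =>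
      (hΦ.sub ((TP.clm A.1).add (TP.const A.2))).ae_ne_or
  filter_upwards [h1] with x hx
  obtain ⟨R, hR⟩ := exists_nat_gt ‖x‖
  obtain ⟨A, hA, e⟩ := hp R x (mem_closedBall_zero_iff.2 hR.le)
  refine ⟨A.1, A.2, ?_⟩
  rcases hx R A hA with h | h
  · exact absurd (sub_eq_zero.2 e) h
  · exact h.mono fun y hy => sub_eq_zero.1 hy

theorem BMoll_mix_lip {Ψ : (Fin n → ℝ) → Fin n → ℝ} {L : ℝ≥0} (h : LipschitzWith L Ψ) {c : ℝ}
    (h0 : 0 ≤ c) (h1 : c ≤ 1) : LipschitzWith (L + 1) (mix c Ψ) := by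
  refine LipschitzWith.of_dist_le_mul fun x y => ?_
  have h2 := h.dist_le_mul x y
  rw [dist_eq_norm, dist_eq_norm] at h2
  rw [dist_eq_norm, dist_eq_norm]
  have h3 : mix c Ψ x - mix c Ψ y = c • (x - y) + (1 - c) • (Ψ x - Ψ y) := by
    simp only [mix, smul_sub]
    abel
  rw [h3]
  refine (norm_add_le _ _).trans ?_
  rw [norm_smul, norm_smul, Real.norm_of_nonneg h0, Real.norm_of_nonneg (sub_nonneg.2 h1)]
  push_cast
  have h4 := norm_nonneg (x - y)
  have h5 := norm_nonneg (Ψ x - Ψ y)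
  nlinarith [mul_nonneg h0 h5, mul_nonneg (sub_nonneg.2 h1) h4]

theorem app_gd_of_accr {Φ : (Fin n → ℝ) → Fin n → ℝ} (h : Accr Φ) (hΦ : TP Φ) : App GD Φ := by
  obtain ⟨L, hL⟩ := hΦ.lip
  have hcont := hL.continuous
  let c : ℕ → ℝ := fun j => 1 / ((j : ℝ) + 1)
  have hc0 : ∀ j, 0 < c j := fun j => by positivity
  have hc1 : ∀ j, c j ≤ 1 := fun j => by
    rw [div_le_one (by positivity)]
    linarith [Nat.cast_nonneg (α := ℝ) j]
  have hc : Tendsto c atTop (𝓝 0) := tendsto_one_div_add_atTop_nhds_zero_nat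
  let φ : ℕ → ContDiffBump (0 : Fin n → ℝ) := fun j =>
    ⟨c j / 2, c j, half_pos (hc0 j), half_lt_self (hc0 j)⟩
  have hφ : Tendsto (fun j => (φ j).rOut) atTop (𝓝 0) := hc
  refine App.of_seq hΦ (L := L + 1) (w := fun j => mix (c j) (BMoll_cv (φ j) Φ))
    (fun j => ?_) (fun j => BMoll_mix_lip (BMoll_lip _ hL) (hc0 j).le (hc1 j)) (fun x => ?_) ?_
  · have ha := BMoll_accr (φ j) hcont h
    refine gd_of_expanding ?_ ⟨_, BMoll_mix_lip (BMoll_lip _ hL) (hc0 j).le (hc1 j)⟩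
      (ha.surjective ⟨_, BMoll_lip _ hL⟩ (hc0 j) (hc1 j)) (hc0 j)
      (ha.expanding (hc0 j).le (hc1 j))
    exact (contDiff_id.const_smul (c j)).add ((BMoll_smooth (φ j) hcont).const_smul (1 - c j))
  · have h1 : Tendsto (fun j => BMoll_cv (φ j) Φ x) atTop (𝓝 (Φ x)) :=
      ContDiffBump.convolution_tendsto_right_of_continuous (μ := volume) hφ hcont x
    have h2 := (hc.smul_const x).add (((tendsto_const_nhds (x := (1 : ℝ))).sub hc).smul h1)
    simpa [mix] using h2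
  · filter_upwards [BMoll_ae hΦ] with x hx
    obtain ⟨A, b, hx⟩ := hx
    have hA : HasFDerivAt Φ A x :=
      (A.hasFDerivAt.add_const b).congr_of_eventuallyEq hx
    obtain ⟨r, hr, hx⟩ := Metric.eventually_nhds_iff_ball.1 hx
    rw [hA.fderiv]
    have h2 := (hc.smul_const (ContinuousLinearMap.id ℝ (Fin n → ℝ))).add
      (((tendsto_const_nhds (x := (1 : ℝ))).sub hc).smul_const A)
    simp only [zero_smul, sub_zero, one_smul, zero_add] at h2
    refine h2.congr' ?_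
    filter_upwards [hφ.eventually (gt_mem_nhds (half_pos hr))] with j hj
    have h3 := BMoll_loc (φ j) hcont (x := x) (A := A) (b := b) hj
      (by rwa [mul_div_cancel₀ _ (two_ne_zero)])
    exact (((hasFDerivAt_id x).const_smul (c j)).add (h3.const_smul (1 - c j))).fderiv.symm

end BEp
end
end
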