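import Pool.Agent.Work.MP_f0515e_an.Pos.ADefs
import Pool.Agent.Work.MP_f0515e_an.Pos.ACj

-- merged part: Pool.Agent.Work.MP_f0515e_an.Pos.ARet
section
/-! TASK ARet. The retraction with index set I.
Plan. Copy the proofs for mu, be, per, r0 in Per1, Per1b, Per2 (mu_le_iff, accr_per, per_lip, tp_per, per_nested, ll_per with h = 1/2, cap = 1/2) with univ replaced by I;
coordinates outside I are fixed. 2 / beI >= 4 since beI <= 1/2. RI_mem: QQ c d = 1/2 when d >= c and 1/2 <= 2^K c, so such a coordinate goes to an integer; at most m coordinates of I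
have dd (x i - 1/2) < beI. RI_eq_RL: both depths satisfy dl <= beI, use RI_nested with the maximum. RI_id: muI = 1/2 (empty family), QQ (1/2) d = d on [0, 1/2] (term k = 0).
measurable_RL: measurable_from_prod_countable or a countable partition by the value of the ceiling. -/

open Set Metric Filter Topology Function BEv MeasureTheory
open scoped NNReal ENNReal

noncomputable section
namespace BEp

variable {m : ℕ} {I : Finset (Ix m)} {K : ℕ} {x : V m}

theorem ARet_tp (𝒮 : Finset (Finset (Ix m))) :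
    TP fun x : V m => cmin 𝒮 (1 / 2) fun S => ‖pr S fun i => dd (x i)‖ :=
  TP.cmin _ (TP.const _) fun S _ =>
    ((TP.pi (f := fun (x : V m) i => dd (x i)) fun i => tp_dd.comp (TP.id'.apply i)).pr S).norm_pi

theorem ARet_zero (I : Finset (Ix m)) (r : ℕ) (x : V m) :
    (cmin (Finset.powersetCard r I) (1 / 2) fun S => ‖pr S fun i => dd (x i)‖) = 0 ↔
      r + (I.filter fun l => dd (x l) ≠ 0).card ≤ I.card := by
  rw [← Finset.card_filter_add_card_filter_not (s := I) fun l => dd (x l) ≠ 0, add_comm r,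
    add_le_add_iff_left]
  constructor
  · intro h
    rcases cmin_eq (Finset.powersetCard r I) (1 / 2) (fun S => ‖pr S fun i => dd (x i)‖) with
      h1 | ⟨S, hS, h1⟩
    · norm_num [h] at h1
    · obtain ⟨h2, h3⟩ := Finset.mem_powersetCard.1 hS
      refine h3.ge.trans (Finset.card_le_card fun i hi => Finset.mem_filter.2 ⟨h2 hi, ?_⟩)
      exact not_not.2 (abs_nonpos_iff.1 ((norm_pr_le_iff le_rfl).1 (h1.symm.trans h).le i hi))
  · intro h
    obtain ⟨S, h2, hS⟩ := Finset.exists_subset_card_eq h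
    refine le_antisymm ((cmin_le _ _ _ (Finset.mem_powersetCard.2
      ⟨h2.trans (Finset.filter_subset _ _), hS⟩)).trans ((norm_pr_le_iff le_rfl).2 fun i hi => ?_))
      (le_cmin _ _ _ (by norm_num) fun _ _ => norm_nonneg _)
    exact abs_nonpos_iff.2 (not_not.1 (Finset.mem_filter.1 (h2 hi)).2)

theorem tp_muI (I : Finset (Ix m)) : TP (muI I) := ARet_tp _

theorem muI_nonneg (I : Finset (Ix m)) (x : V m) : 0 ≤ muI I x :=
  le_cmin _ _ _ (by norm_num) fun _ _ => norm_nonneg _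

theorem ARet_mem : x ∈ SkI I ↔ (I.filter fun l => dd (x l) ≠ 0).card ≤ m := Iff.rfl

theorem exists_SkI_zero (I : Finset (Ix m)) :
    ∃ D : V m → ℝ, TP D ∧ (∀ x, 0 ≤ D x) ∧ ∀ x, x ∈ SkI I ↔ D x = 0 := by
  refine ⟨_, ARet_tp (Finset.powersetCard (I.card - m) I),
    fun x => le_cmin _ _ _ (by norm_num) fun _ _ => norm_nonneg _, fun x => ?_⟩
  have : (I.filter fun l => dd (x l) ≠ 0).card ≤ I.card := Finset.card_filter_le _ _
  rw [ARet_zero, ARet_mem]
  omega

theorem mem_SkI_of_muI (h : muI I x = 0) : x ∈ SkI I := by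
  have h1 := (ARet_zero I (m + 1) x).1 h
  have h2 := Finset.card_le_univ I
  rw [Fintype.card_fin] at h2
  rw [ARet_mem]
  omega

theorem mem_SkI_iff (h : I.card = 2 * m + 1) : x ∈ SkI I ↔ muI I x = 0 := by
  rw [muI, ARet_zero, ARet_mem]
  omega

theorem SkI_eq_univ (h : I.card ≤ m) : SkI I = univ :=
  eq_univ_of_forall fun _ => ARet_mem.2 ((Finset.card_filter_le _ _).trans h)

theorem SkI_congr {y : V m} (h : ∀ l ∈ I, x l = y l) : x ∈ SkI I ↔ y ∈ SkI I := by
  rw [ARet_mem, ARet_mem, Finset.filter_congr fun l hl => by rw [h l hl]]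

theorem beI_nonneg (I : Finset (Ix m)) (x : V m) : 0 ≤ beI I x := muI_nonneg _ _

theorem beI_le_half (I : Finset (Ix m)) (x : V m) : beI I x ≤ 1 / 2 := cmin_le_cap _ _ _

theorem abs_beI_sub_le (I : Finset (Ix m)) (x y : V m) : |beI I x - beI I y| ≤ ‖x - y‖ := by
  refine abs_cmin_sub_le _ _ _ (by simp) fun S _ => (per1_pr S _ _).trans ?_
  refine (pi_norm_le_iff_of_nonneg (norm_nonneg _)).2 fun i => (abs_dd_sub_le _ _).trans ?_
  rw [Pi.sub_apply, Pi.sub_apply, sub_sub_sub_cancel_right]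
  exact norm_le_pi_norm (x - y) i

theorem tp_beI (I : Finset (Ix m)) : TP (beI I) :=
  (tp_muI I).comp (TP.id'.sub (TP.const hlf))

theorem be_le_beI (I : Finset (Ix m)) (x : V m) : be x ≤ beI I x :=
  le_cmin _ _ _ (be_le_half x) fun _ hS =>
    cmin_le _ _ (fun S => ‖pr S fun i => dd ((x - hlf : V m) i)‖)
      (Finset.powersetCard_mono (Finset.subset_univ I) hS)

theorem exists_of_beI_eq_zero (h : beI I x = 0) :
    ∃ S : Finset (Ix m), S.card = m + 1 ∧ ∀ i ∈ S, ∃ k : ℤ, x i - 1 / 2 = k := by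
  have h1 := (ARet_zero I (m + 1) (x - hlf)).1 h
  rw [← Finset.card_filter_add_card_filter_not (s := I) fun l => dd ((x - hlf : V m) l) ≠ 0,
    add_comm (m + 1), add_le_add_iff_left] at h1
  obtain ⟨S, h2, hS⟩ := Finset.exists_subset_card_eq h1
  exact ⟨S, hS, fun i hi => dd_eq_zero_iff.1 (not_not.1 (Finset.mem_filter.1 (h2 hi)).2)⟩

theorem ARet_cap : Cap (fun _ => 1 / 2) (1 / 2) :=
  ⟨by norm_num, TP.const _, monotone_const, fun d d' => by simp, fun _ _ h1 => ⟨h1, le_rfl⟩⟩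

theorem ARet_dl (h : dl K ≤ beI I x) : (1 / 2 : ℝ) ≤ 2 ^ K * beI I x := by
  refine le_trans (le_of_eq ?_) (mul_le_mul_of_nonneg_left h (by positivity))
  rw [dl, pow_succ]
  field_simp

theorem ARet_lip_i (I : Finset (Ix m)) (K : ℕ) (x y : V m) (i : Ix m) :
    |RI I K x i - RI I K y i| ≤ 2 ^ (K + 1) * ‖x - y‖ := by
  have h3 : |x i - y i| ≤ ‖x - y‖ := norm_le_pi_norm (x - y) i
  unfold RI
  split_ifs
  swap
  · exact h3.trans (le_mul_of_one_le_left (norm_nonneg _) (per1b_one_le _))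
  have h1 := oext_lip (adm_QQ ARet_cap K (beI I x)) (per1b_one_le K)
    (fun d d' _ _ _ _ => per1b_lip_d ARet_cap K (beI I x) d d') (x i - 1 / 2) (y i - 1 / 2)
  have h2 := (abs_oext_sub_oext (QQ (fun _ => 1 / 2) (1 / 2) K (beI I x))
    (QQ (fun _ => 1 / 2) (1 / 2) K (beI I y)) (y i - 1 / 2)).trans_le (per1b_lip_c _ _ K _ _ _)
  have h5 : (0 : ℝ) ≤ 2 ^ K := by positivity
  have h6 := mul_le_mul_of_nonneg_left h3 h5
  have h7 := mul_le_mul_of_nonneg_left (abs_beI_sub_le I x y) h5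
  rw [sub_sub_sub_cancel_right] at h1
  rw [add_sub_add_left_eq_sub, pow_succ]
  exact (abs_sub_le _ _ _).trans ((add_le_add h1 h2).trans (by linarith))

theorem ARet_lip (I : Finset (Ix m)) (K : ℕ) (x y : V m) :
    ‖RI I K x - RI I K y‖ ≤ 2 ^ (K + 1) * ‖x - y‖ :=
  (pi_norm_le_iff_of_nonneg (by positivity)).2 fun i => ARet_lip_i I K x y i

theorem accr_RI (I : Finset (Ix m)) (K : ℕ) : Accr (RI I K) := by
  intro x y i hi
  have h0 := norm_nonneg (x - y)
  have h1 : |beI I x - beI I y| ≤ x i - 1 / 2 - (y i - 1 / 2) := by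
    linarith [abs_beI_sub_le I x y]
  unfold RI
  split_ifs
  · refine add_le_add le_rfl (oext_mono (adm_QQ ARet_cap K _) (adm_QQ ARet_cap K _) (by linarith)
      (fun d d' _ _ hd => per1b_mono ARet_cap K (h1.trans hd))
      fun d d' _ _ hd => per1b_mono ARet_cap K ?_)
    rw [abs_sub_comm]
    exact h1.trans hd
  · linarith

theorem tp_RI (I : Finset (Ix m)) (K : ℕ) : TP (RI I K) := by
  refine TP.pi fun i => ?_
  by_cases h : i ∈ I
  swap
  · simpa only [RI, if_neg h] using TP.id'.apply i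
  have hi : TP (fun x : V m => x i - 1 / 2) := (TP.id'.apply i).sub (TP.const _)
  have hd := tp_dd.comp hi
  simp only [RI, if_pos h]
  refine (TP.const _).add (tp_oext (D := fun x : V m => QQ (fun _ => 1 / 2) (1 / 2) K (beI I x))
    hi ?_ ⟨2 ^ (K + 1), LipschitzWith.of_dist_le_mul fun x y => ?_⟩)
  · exact TP.cmin (Finset.range K)
      (f := fun k (x : V m) => 2 ^ k * dd (x i - 1 / 2) + max (1 / 2 - 2 ^ k * beI I x) 0)
      ((TP.const _).min (hd.const_mul _)) fun k _ =>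
      (hd.const_mul _).add (((TP.const _).sub ((tp_beI I).const_mul _)).max (TP.const 0))
  · have h2 := ARet_lip_i I K x y i
    simp only [RI, if_pos h, add_sub_add_left_eq_sub] at h2
    rw [Real.dist_eq, dist_eq_norm]
    exact_mod_cast h2

theorem ARet_nested {K1 : ℕ} (hK : K1 ≤ K) (h : 1 / 2 ≤ 2 ^ K1 * beI I x) :
    RI I K x = RI I K1 x := by
  funext i
  rw [RI, RI, oext_congr (QQ_nested hK (dd_nonneg _) (beI_nonneg I x) h)]

theorem ll_RI (K : ℕ) (hx : 0 < beI I x) : LL (RI I K) x (2 / beI I x) := by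
  have hex : ∃ n : ℕ, 1 / 2 < 2 ^ n * beI I x := by
    obtain ⟨n, hn⟩ := pow_unbounded_of_one_lt (1 / 2 / beI I x) (one_lt_two (α := ℝ))
    exact ⟨n, (div_lt_iff₀ hx).1 hn⟩
  classical
  have hK1 := Nat.find_spec hex
  have hb : (2 : ℝ) ^ (Nat.find hex + 1) ≤ 2 / beI I x := by
    rw [le_div_iff₀ hx]
    rcases hn : Nat.find hex with _ | j
    · have := beI_le_half I x
      norm_num
      linarith
    · have := not_lt.1 (Nat.find_min hex (show j < Nat.find hex by omega))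
      rw [pow_succ, pow_succ]
      linarith
  generalize Nat.find hex = K1 at hK1 hb
  have hev : ∀ᶠ y in 𝓝 x, 1 / 2 < 2 ^ K1 * beI I y :=
    ((tp_beI I).continuous.const_mul _).continuousAt.eventually (lt_mem_nhds hK1)
  rcases le_total K K1 with e | e
  · exact (LL.of_forall (ARet_lip I K) x).mono ((per1b_pow_le (Nat.succ_le_succ e)).trans hb)
  · exact ((LL.of_forall (ARet_lip I K1) x).mono hb).congr
      (hev.mono fun y hy => ARet_nested e hy.le)

theorem abs_RI_sub_le (I : Finset (Ix m)) (K : ℕ) (x : V m) (i : Ix m) :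
    |RI I K x i - x i| ≤ 1 := by
  unfold RI
  split_ifs
  · have h2 := (adm_QQ ARet_cap K (beI I x)).2.2 _ (dd_nonneg (x i - 1 / 2)) (dd_le_half _)
    have h3 := dd_nonneg (x i - 1 / 2)
    have h4 := dd_le_half (x i - 1 / 2)
    rw [add_sub_right_comm, add_comm, ← neg_sub (x i), ← sub_eq_add_neg, abs_oext_sub, abs_le]
    constructor <;> linarith [h2.1, h2.2]
  · simp

theorem RI_mem (h : dl K ≤ beI I x) : RI I K x ∈ SkI I := by
  have h0 := ARet_dl h
  rw [ARet_mem]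
  by_contra hc
  obtain ⟨S, h2, hS⟩ := Finset.exists_subset_card_eq (n := m + 1) (not_le.1 hc)
  obtain ⟨i, hi, h3⟩ := S.exists_max_image (fun i => dd (x i - 1 / 2))
    (Finset.card_pos.1 (by omega))
  obtain ⟨hI, h4⟩ := Finset.mem_filter.1 (h2 hi)
  have h5 : beI I x ≤ dd (x i - 1 / 2) := (cmin_le _ _ _ (Finset.mem_powersetCard.2
    ⟨h2.trans (Finset.filter_subset _ _), hS⟩)).trans ((norm_pr_le_iff (dd_nonneg _)).2
      fun j hj => (abs_of_nonneg (dd_nonneg _)).trans_le (h3 j hj))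
  have h6 : 1 / 2 ≤ QQ (fun _ => 1 / 2) (1 / 2) K (beI I x) (dd (x i - 1 / 2)) :=
    per1b_le_QQ le_rfl (h0.trans (mul_le_mul_of_nonneg_left h5 (by positivity))) fun k _ => by
      have h7 := mul_le_mul_of_nonneg_left h5 (show (0 : ℝ) ≤ 2 ^ k by positivity)
      linarith [le_max_left (1 / 2 - 2 ^ k * beI I x) 0]
  have h7 := dd_sub_half (RI I K x i)
  have h8 := dd_nonneg (RI I K x i)
  rw [show RI I K x i - 1 / 2 = _ from by rw [RI, if_pos hI, add_sub_cancel_left],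
    dd_oext (adm_QQ ARet_cap K _)] at h7
  exact h4 (by linarith)

theorem RI_nested {K1 : ℕ} (hK : K1 ≤ K) (h : dl K1 ≤ beI I x) : RI I K x = RI I K1 x :=
  ARet_nested hK (ARet_dl h)

theorem RI_eq_RL (h : dl K ≤ beI I x) : RI I K x = RL I x := by
  have h0 : 0 < beI I x := lt_of_lt_of_le (by unfold dl; positivity) h
  have h1 : 1 / 2 ≤ 2 ^ ⌈(beI I x)⁻¹⌉₊ * beI I x := by
    have h2 : (⌈(beI I x)⁻¹⌉₊ : ℝ) ≤ 2 ^ ⌈(beI I x)⁻¹⌉₊ := by
      exact_mod_cast Nat.lt_two_pow_self.le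
    have h3 := mul_le_mul_of_nonneg_right ((Nat.le_ceil _).trans h2) h0.le
    rw [inv_mul_cancel₀ h0.ne'] at h3
    linarith
  exact (RI_nested (le_max_left _ _) h).symm.trans (ARet_nested (le_max_right _ _) h1)

theorem RI_id (h : I.card ≤ m) (K : ℕ) (x : V m) : RI I K x = x := by
  funext i
  have h1 : beI I x = 1 / 2 := by
    rw [beI, muI, Finset.powersetCard_eq_empty.2 (by omega)]
    rfl
  have h2 := abs_oext_sub (QQ (fun _ => 1 / 2) (1 / 2) K (beI I x)) (x i - 1 / 2)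
  have h3 := (le_QQ ARet_cap K (beI I x) (dd_nonneg (x i - 1 / 2)) (dd_le_half _)).1
  have h4 := per1b_le_pow (fun _ => 1 / 2) (1 / 2) 0 (beI I x) (dd (x i - 1 / 2))
  rw [← QQ_nested (Nat.zero_le K) (dd_nonneg _) (beI_nonneg I x) (by simp [h1]), pow_zero,
    one_mul] at h4
  rw [le_antisymm h4 h3, sub_self, abs_zero, abs_eq_zero] at h2
  unfold RI
  split_ifs
  · linarith
  · rfl

theorem measurable_RL (I : Finset (Ix m)) : Measurable (RL I) := by
  have h1 : Measurable fun p : V m × ℕ => RI I p.2 p.1 :=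
    measurable_from_prod_countable_left fun K => (tp_RI I K).continuous.measurable
  have h2 : Measurable fun x : V m => ⌈(beI I x)⁻¹⌉₊ :=
    (tp_beI I).continuous.measurable.inv.nat_ceil
  have h3 := h1.comp (measurable_id.prodMk h2)
  exact h3

end BEp
end
end

-- merged part: Pool.Agent.Work.MP_f0515e_an.Pos.AG1
section
/-! TASK AG1. One cell: the collapse psi, the projection, the inner retraction rB.
Plan. Unfold cj and xi. Sh (cj .. Phi z - c) = s (Phi (xi z) + omega). For psi use the lemmas of ACj at x = h inverse Sh (z - c), norm x = nr z / h. A_psi: ker twice and pr_psi.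
nr z = 16 s norm (xi z + omega). cut is a minimum of 1-Lipschitz nonnegative functions (abs_cmin_sub_le, per1_pr), at most 1. Off cell 1 the first term of cut vanishes (loc_eq_self); on cell 1 the move is
at most the first term (norm_loc_sub_le). shF gives Sh.symm (pr I y) = pr I y. -/

open Set Metric Filter Topology Function BEv MeasureTheory
open scoped NNReal ENNReal

noncomputable section
namespace BEp

variable {m : ℕ}

theorem AG1_sh (L : V m ≃L[ℝ] V m) (c : V m) (s : ℝ) (ω : V m) (Φ : V m → V m) (z : V m) :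
    L (cj L c s ω Φ z - c) = s • (Φ (xi L c s ω z) + ω) := by
  rw [cj, add_sub_cancel_left, L.apply_symm_apply]

theorem AG1_xi (L : V m ≃L[ℝ] V m) (c : V m) {s : ℝ} (hs : s ≠ 0) (ω z : V m) :
    s • (xi L c s ω z + ω) = L (z - c) := by
  rw [xi, sub_add_cancel, smul_inv_smul₀ hs]

theorem AG1_smul (I : Finset (Ix m)) (s : ℝ) (x : V m) : pr I (s • x) = s • pr I x := by
  funext l
  simp only [pr, Pi.smul_apply]
  split_ifs <;> simp

theorem AG1_symm {T : Typ m} (hT : T.Ok) (y : V m) : T.Sh.symm (pr T.I y) = pr T.I y := by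
  rw [ContinuousLinearEquiv.symm_apply_eq, hT.shF]

theorem AG1_slice {T : Typ m} (hT : T.Ok) {x c : V m} (hx : ∀ l, l ∉ T.I → x l = c l) :
    T.Sh (x - c) = x - c := by
  have e : pr T.I (x - c) = x - c := by
    funext l
    rw [pr]
    split_ifs with hl
    · rfl
    · rw [Pi.sub_apply, hx l hl, sub_self]
  rw [← e, hT.shF]

namespace Cel
variable {C : Cel m}

theorem AG1_nr (h0 : 0 < C.h) (z : V m) : C.nr z = C.h * ‖xi C.Sh C.c C.h 0 z‖ := by
  rw [nr, ← AG1_xi C.Sh C.c h0.ne' 0 z, add_zero, norm_smul, Real.norm_of_nonneg h0.le]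

theorem AG1_π (hT : C.toTyp.Ok) (z : V m) :
    C.Sh (C.π z - C.c) = pr C.I (C.Sh (z - C.c)) := by
  rw [π, add_sub_cancel_left, hT.shF]

theorem abs_nr_sub_le (hT : C.toTyp.Ok) (x y : V m) : |C.nr x - C.nr y| ≤ C.Λ * ‖x - y‖ := by
  refine (abs_norm_sub_norm_le _ _).trans ?_
  rw [← map_sub, sub_sub_sub_cancel_right]
  exact hT.nS _

theorem tp_nr (C : Cel m) : TP C.nr :=
  ((TP.clm (C.Sh : V m →L[ℝ] V m)).comp (TP.id'.sub (TP.const C.c))).norm_pi

theorem isClosed_cell (C : Cel m) (j : ℝ) : IsClosed (C.cell j) :=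
  isClosed_le C.tp_nr.continuous continuous_const

theorem isOpen_opn (C : Cel m) (j : ℝ) : IsOpen (C.opn j) :=
  isOpen_lt C.tp_nr.continuous continuous_const

theorem opn_subset (C : Cel m) (j : ℝ) : C.opn j ⊆ C.cell j :=
  fun z hz => (le_of_lt hz : C.nr z ≤ _)

theorem cell_mono (hT : C.toTyp.Ok) (h0 : 0 < C.h) {i j : ℝ} (h : i ≤ j) : C.cell j ⊆ C.cell i :=
  fun _ hz => le_trans hz (mul_le_mul_of_nonneg_right
    (sub_le_sub_left (mul_le_mul_of_nonneg_right h hT.γ0.le) 1) h0.le)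

theorem isCompact_cell (C : Cel m) (j : ℝ) : IsCompact (C.cell j) := by
  refine ((isCompact_closedBall (0 : V m) ((1 - j * C.γ) * C.h)).image
    (f := fun y => C.c + C.Sh.symm y) (by fun_prop)).of_isClosed_subset (C.isClosed_cell j)
    fun z hz => ⟨C.Sh (z - C.c), mem_closedBall_zero_iff.2 hz, ?_⟩
  simp

theorem cc_ψ (h0 : 0 < C.h) : CC C.ψ := cc_cj _ _ _ h0.ne' (cc_psi _ _)

theorem ψ_off (h0 : 0 < C.h) {z : V m} (hz : z ∉ C.cell 0) : C.ψ z = z := by
  refine cj_eq_self _ _ _ h0.ne' (psi_off _ _ ?_)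
  have h1 : (1 - 0 * C.γ) * C.h < C.nr z := not_le.1 hz
  rw [AG1_nr h0] at h1
  nlinarith

theorem nr_ψ_le (h0 : 0 < C.h) (z : V m) : C.nr (C.ψ z) ≤ C.nr z := by
  rw [AG1_nr h0 z, nr, ψ, AG1_sh, add_zero, norm_smul, Real.norm_of_nonneg h0.le]
  exact mul_le_mul_of_nonneg_left (norm_psi_le _ _ _) h0.le

theorem ψ_eq_π (hT : C.toTyp.Ok) (h0 : 0 < C.h) {z : V m} (hz : z ∈ C.cell 1) : C.ψ z = C.π z := by
  have h1 : C.nr z ≤ (1 - 1 * C.γ) * C.h := hz
  rw [AG1_nr h0] at h1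
  rw [ψ, cj, psi_eq_pr C.I C.N hT.γ0 hT.γN (by nlinarith), add_zero, ← AG1_smul, AG1_symm hT, π,
    ← AG1_xi C.Sh C.c h0.ne' 0 z, add_zero]

theorem A_ψ (hT : C.toTyp.Ok) (h0 : 0 < C.h) (z : V m) : C.A (C.ψ z) = C.A z := by
  have h1 := hT.ker (C.Sh (z - C.c))
  rw [ContinuousLinearEquiv.symm_apply_apply, ← AG1_xi C.Sh C.c h0.ne' 0 z, add_zero] at h1
  rw [ψ, cj, map_add, hT.ker, add_zero, AG1_smul, pr_psi, ← AG1_smul, ← h1, map_sub,
    add_sub_cancel]

theorem ll_ψ (hT : C.toTyp.Ok) (h0 : 0 < C.h) (z : V m) : LL C.ψ z (C.Λ ^ 2 * 2 ^ C.N) :=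
  ll_cj _ _ _ h0 (by linarith [hT.Λ1]) (by positivity) hT.nS hT.nS'
    (LL.of_forall (psi_lip _ _) _)

theorem π_off (C : Cel m) (z : V m) {l : Ix m} (hl : l ∉ C.I) : C.π z l = C.c l := by
  rw [π, Pi.add_apply, pr, if_neg hl, add_zero]

theorem nr_π_le (hT : C.toTyp.Ok) (z : V m) : C.nr (C.π z) ≤ C.nr z := by
  rw [nr, AG1_π hT]
  exact norm_pr_le _ _

theorem nr_slice (hT : C.toTyp.Ok) {x : V m} (hx : ∀ l, l ∉ C.I → x l = C.c l) :
    C.nr x = ‖x - C.c‖ := by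
  rw [nr, AG1_slice hT hx]

end Cel

namespace Gr
variable {G : Gr m} (kp : Finset (Ix m → ℤ)) (R : V m → V m)

theorem nr_eq (hG : G.Ok) (z : V m) : G.nr z = 16 * G.s * ‖G.ξ z + G.ω‖ := by
  have hs : 0 < 16 * G.s := by linarith [hG.s0]
  rw [Cel.nr, ← AG1_xi G.Sh G.c hs.ne' G.ω z, norm_smul, Real.norm_of_nonneg hs.le, ξ]

theorem tp_ξ (G : Gr m) : TP G.ξ := tp_xi _ _ _ _

theorem ξ_slice (hG : G.Ok) {x : V m} (hx : ∀ l, l ∉ G.I → x l = G.c l) (l : Ix m) :
    G.ξ x l = (x l - G.c l) / (16 * G.s) - G.ω l := by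
  rw [ξ, xi, AG1_slice hG.toOk hx, div_eq_inv_mul]
  rfl

theorem ξ_π (hG : G.Ok) (z : V m) {l : Ix m} (hl : l ∈ G.I) : G.ξ (G.π z) l = G.ξ z l := by
  rw [ξ, xi, xi, Cel.AG1_π hG.toOk]
  simp only [Pi.sub_apply, Pi.smul_apply, pr, if_pos hl]

theorem norm_π_sub_cb (hG : G.Ok) (z : V m) (b : Ix m → ℤ) :
    ‖G.π z - G.cb b‖ = 16 * G.s * ‖pr G.I (G.ξ z - G.ctr b)‖ := by
  have hs : 0 < 16 * G.s := by linarith [hG.s0]
  rw [Cel.π, cb, add_sub_add_left_eq_sub, ← AG1_xi G.Sh G.c hs.ne' G.ω z, AG1_smul, ← smul_sub,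
    ← pr_sub, add_sub_add_right_eq_sub, norm_smul, Real.norm_of_nonneg hs.le, ξ]

theorem cut_nonneg (G : Gr m) (kp : Finset (Ix m → ℤ)) (x : V m) : 0 ≤ G.cut kp x :=
  le_min (le_max_right _ _) (le_cmin _ _ _ zero_le_one fun _ _ => le_max_right _ _)

theorem cut_le_one (G : Gr m) (kp : Finset (Ix m → ℤ)) (x : V m) : G.cut kp x ≤ 1 :=
  (min_le_right _ _).trans (cmin_le_cap _ _ _)

theorem abs_cut_sub_le (G : Gr m) (kp : Finset (Ix m → ℤ)) (x y : V m) :
    |G.cut kp x - G.cut kp y| ≤ ‖x - y‖ := by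
  refine (abs_min_sub_min_le_max _ _ _ _).trans (max_le ?_ ?_)
  · refine (abs_max_sub_max_le_abs _ _ _).trans ?_
    rw [sub_sub_sub_cancel_left, abs_sub_comm]
    refine (abs_norm_sub_norm_le _ _).trans ?_
    rw [add_sub_add_right_eq_sub]
  · refine abs_cmin_sub_le _ _ _ (by simp) fun b _ => (abs_max_sub_max_le_abs _ _ _).trans ?_
    rw [sub_sub_sub_cancel_right]
    refine (per1_pr _ _ _).trans ?_
    rw [sub_sub_sub_cancel_right]

theorem tp_cut (G : Gr m) (kp : Finset (Ix m → ℤ)) : TP (G.cut kp) :=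
  (((TP.const _).sub (TP.id'.add (TP.const G.ω)).norm_pi).max (TP.const 0)).min
    (TP.cmin kp (TP.const 1) fun b _ =>
      (((TP.id'.sub (TP.const (G.ctr b))).pr G.I).norm_pi.sub (TP.const _)).max (TP.const 0))

theorem ξ_rB (hG : G.Ok) (z : V m) : G.ξ (G.rB kp R z) = loc (G.cut kp) R (G.ξ z) :=
  xi_cj _ _ _ (by linarith [hG.s0]) _ _

theorem rB_off (hG : G.Ok) {z : V m} (hz : z ∉ G.cell 1) : G.rB kp R z = z := by
  have hs : 0 < 16 * G.s := by linarith [hG.s0]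
  refine cj_eq_self _ _ _ hs.ne' (loc_eq_self (le_antisymm ((min_le_left _ _).trans
    (max_le ?_ le_rfl)) (G.cut_nonneg kp _)))
  have h1 : (1 - 1 * G.γ) * G.h < G.nr z := not_le.1 hz
  rw [nr_eq hG, one_mul] at h1
  rw [sub_nonpos, div_le_iff₀ hs, mul_comm _ (16 * G.s)]
  exact h1.le

theorem rB_maps (hG : G.Ok) {z : V m} (hz : z ∈ G.cell 1) : G.rB kp R z ∈ G.cell 1 := by
  have hs : 0 < 16 * G.s := by linarith [hG.s0]
  have h1 : G.nr z ≤ (1 - 1 * G.γ) * G.h := hz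
  change G.nr _ ≤ (1 - 1 * G.γ) * G.h
  rw [nr_eq hG, one_mul, mul_comm, ← le_div_iff₀ hs] at h1 ⊢
  rw [ξ_rB kp R hG]
  have h2 := norm_loc_sub_le R (G.cut_nonneg kp (G.ξ z))
  have h3 : G.cut kp (G.ξ z) ≤ (1 - G.γ) * G.h / (16 * G.s) - ‖G.ξ z + G.ω‖ :=
    (min_le_left _ _).trans (max_le le_rfl (by linarith))
  have h4 := norm_add_le (loc (G.cut kp) R (G.ξ z) - G.ξ z) (G.ξ z + G.ω)
  rw [← add_assoc, sub_add_cancel] at h4
  linarith

theorem rB_off0 (hG : G.Ok) {z : V m} (hz : z ∉ G.cell 0) : G.rB kp R z = z :=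
  rB_off kp R hG fun h => hz (Cel.cell_mono hG.toOk hG.h0 zero_le_one h)

theorem rB_maps0 (hG : G.Ok) {z : V m} (hz : z ∈ G.cell 0) : G.rB kp R z ∈ G.cell 0 := by
  by_cases h : z ∈ G.cell 1
  · exact Cel.cell_mono hG.toOk hG.h0 zero_le_one (rB_maps kp R hG h)
  · rwa [rB_off kp R hG h]

theorem τ_off (hG : G.Ok) {z : V m} (hz : z ∉ G.cell 0) : G.τ kp R z = z := by
  rw [τ, rB_off0 kp R hG hz, Cel.ψ_off hG.h0 hz]

theorem τ_maps (hG : G.Ok) {z : V m} (hz : z ∈ G.cell 0) : G.τ kp R z ∈ G.cell 0 :=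
  (Cel.nr_ψ_le hG.h0 _).trans (rB_maps0 kp R hG hz)

theorem norm_τ_sub_ψ (hG : G.Ok) (z : V m) : ‖G.τ kp R z - G.ψ z‖ ≤ 16 * G.s := by
  have hs : 0 < 16 * G.s := by linarith [hG.s0]
  by_cases h : z ∈ G.cell 1
  · rw [τ, Cel.ψ_eq_π hG.toOk hG.h0 (rB_maps kp R hG h), Cel.ψ_eq_π hG.toOk hG.h0 h, Cel.π, Cel.π,
      add_sub_add_left_eq_sub, ← pr_sub, rB, AG1_sh, ← AG1_xi G.Sh G.c hs.ne' G.ω z, ← smul_sub,
      add_sub_add_right_eq_sub]
    refine (norm_pr_le _ _).trans ?_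
    rw [norm_smul, Real.norm_of_nonneg hs.le]
    exact mul_le_of_le_one_right hs.le
      ((norm_loc_sub_le R (G.cut_nonneg kp _)).trans (G.cut_le_one kp _))
  · rw [τ, rB_off kp R hG h, sub_self, norm_zero]
    exact hs.le

theorem rB_congr {R' : V m → V m} {z : V m} (h : R (G.ξ z) = R' (G.ξ z)) :
    G.rB kp R z = G.rB kp R' z :=
  cj_congr _ _ _ (loc_congr rfl h)

theorem cc_rB (hG : G.Ok) (K : ℕ) : CC (G.rB kp (RI G.I K)) :=
  cc_cj _ _ _ (by linarith [hG.s0]) (cc_of_accr ((accr_RI _ _).loc (G.abs_cut_sub_le kp))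
    ((tp_RI _ _).loc (G.tp_cut kp)))

theorem cc_τ (hG : G.Ok) (K : ℕ) : CC (G.τ kp (RI G.I K)) :=
  (Cel.cc_ψ hG.h0).comp (cc_rB kp hG K)

theorem measurable_τ (hG : G.Ok) (hR : Measurable R) : Measurable (G.τ kp R) :=
  (Cel.cc_ψ hG.h0).tp.continuous.measurable.comp
    (measurable_cj _ _ _ _ (measurable_loc (G.tp_cut kp).continuous.measurable hR))

theorem measurable_b2 (G : Gr m) : Measurable G.b2 :=
  ((tp_beI G.I).comp G.tp_ξ).continuous.measurable

end Gr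

end BEp
end
end
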