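import Pool.Agent.Work.MP_f0515e_an.Pos.ADefs
import Pool.Agent.Work.MP_f0515e_an.Pos.AG2

-- merged part: Pool.Agent.Work.MP_f0515e_an.Pos.BX4
section
-- merged part: Pool.Agent.Work.MP_f0515e_an.Pos.BHat
section
/-! TASK BHat. Piecewise affine approximation in the C^1 sense.
Plan. Scalar lemma: phi C^2 on a big closed ball B containing K, with second derivative bounded by M. With Q y = sum of y l ^ 2, both phi + N Q and N Q (N large) are strongly convex on B:
psi y >= psi a + D psi a (y - a) + c norm (y - a) ^ 2, and psi y <= tangent + C norm (y - a) ^ 2. For a finite delta-net of K let psi^ = max of the tangent planes at the net points. If the plane at a is active at y in K then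
c norm (y - a) ^ 2 <= C delta ^ 2, so D psi a is close to D psi y. g l = (phi + N Q)^ - (N Q)^. For tau TP and a.e. z: for each net point a either the plane is not active at tau z or psi^ o tau = plane o tau near z (TP.ae_ne_or),
and tau is differentiable at z. The operator norm on Fin n -> R is the maximum over the coordinates. -/

open Set Metric Filter Topology Function BEv MeasureTheory
open scoped NNReal ENNReal ContDiff

noncomputable section
namespace BEp

/-- `g` approximates `ψ` and its pieces approximate `D`. -/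
def BHat_H {n : ℕ} (K : Set (Fin n → ℝ)) (θ : ℝ) (ψ : (Fin n → ℝ) → ℝ)
    (D : (Fin n → ℝ) → (Fin n → ℝ) →L[ℝ] ℝ) (g : (Fin n → ℝ) → ℝ) : Prop :=
  TP g ∧ (∀ y ∈ K, |g y - ψ y| ≤ θ) ∧ ∀ τ : (Fin n → ℝ) → Fin n → ℝ, TP τ → ∀ᵐ z, τ z ∈ K →
    ∃ (A : (Fin n → ℝ) →L[ℝ] ℝ) (b : ℝ), ‖A - D (τ z)‖ ≤ θ ∧ ∀ᶠ x in 𝓝 z, g (τ x) = A (τ x) + b

theorem BHat_core {n : ℕ} {K : Set (Fin n → ℝ)} (hK : IsCompact K) (h0 : 0 ∈ K)
    {ψ : (Fin n → ℝ) → ℝ} {D : (Fin n → ℝ) → (Fin n → ℝ) →L[ℝ] ℝ} (hD : ContinuousOn D K) {C : ℝ}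
    (h : ∀ a ∈ K, ∀ y ∈ K, ‖y - a‖ ^ 2 ≤ ψ a + D a (y - a) - ψ y ∧
      ψ a + D a (y - a) - ψ y ≤ C * ‖y - a‖ ^ 2) {θ : ℝ} (hθ : 0 < θ) : ∃ g, BHat_H K θ ψ D g := by
  classical
  obtain ⟨η, hη, h1⟩ := uniformContinuousOn_iff.1 (hK.uniformContinuousOn_of_continuous hD) θ hθ
  have hc : Continuous fun t : ℝ => C * t ^ 2 := by fun_prop
  obtain ⟨δ, hδ, h2⟩ := Metric.eventually_nhds_iff.1 (hc.continuousAt.eventually_lt
    (continuousAt_const (x := (0 : ℝ)) (y := min θ (η ^ 2))) (by simp [hθ, hη]))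
  obtain ⟨t, ht, hf, hn⟩ := finite_cover_balls_of_compact hK hδ
  let P : (Fin n → ℝ) → (Fin n → ℝ) → ℝ := fun a y => ψ a + D a (y - a)
  have hP : ∀ a, TP (P a) := fun a =>
    (TP.const _).add ((TP.clm (D a)).comp (TP.id'.sub (TP.const a)))
  have hg : TP fun y => cmin hf.toFinset (P 0 y) fun a => P a y :=
    TP.cmin _ (hP 0) fun a _ => hP a
  have h3 : ∀ y ∈ K, ∃ a ∈ insert 0 t, cmin hf.toFinset (P 0 y) (fun a => P a y) = P a y ∧
      ‖y - a‖ ^ 2 ≤ P a y - ψ y ∧ P a y - ψ y < min θ (η ^ 2) := fun y hy => by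
    obtain ⟨a, ha, e⟩ : ∃ a ∈ insert 0 t, cmin hf.toFinset (P 0 y) (fun a => P a y) = P a y :=
      (cmin_eq _ _ _).elim (fun e => ⟨0, mem_insert _ _, e⟩) fun ⟨a, ha, e⟩ =>
        ⟨a, Or.inr (hf.mem_toFinset.1 ha), e⟩
    obtain ⟨a', ha', hb⟩ := mem_iUnion₂.1 (hn hy)
    have h4 := cmin_le hf.toFinset (P 0 y) (fun a => P a y) (hf.mem_toFinset.2 ha')
    have h5 := h2 (y := ‖y - a'‖) (by simpa [dist_eq_norm] using hb)
    have h6 : P a' y - ψ y ≤ _ := (h a' (ht ha') y hy).2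
    exact ⟨a, ha, e, (h a (insert_subset h0 ht ha) y hy).1, by linarith only [hf, e, h4, h5, h6]⟩
  refine ⟨_, hg, fun y hy => ?_, fun τ hτ => ?_⟩
  · obtain ⟨a, -, e, h4, h5⟩ := h3 y hy
    rw [e, abs_of_nonneg ((sq_nonneg _).trans h4)]
    exact (h5.trans_le (min_le_left _ _)).le
  filter_upwards [(ae_ball_iff (hf.insert 0).countable).2 fun a _ =>
    ((hg.comp hτ).sub ((hP a).comp hτ)).ae_ne_or] with z hz hzK
  obtain ⟨a, ha, e, h4, h5⟩ := h3 _ hzK
  refine ⟨D a, ψ a - D a a, ?_, ((hz a ha).resolve_left fun c => c (sub_eq_zero.2 e)).mono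
    fun x hx => ?_⟩
  · rw [← dist_eq_norm]
    refine (h1 a (insert_subset h0 ht ha) _ hzK ?_).le
    rw [dist_comm, dist_eq_norm]
    exact lt_of_pow_lt_pow_left₀ 2 hη.le ((h4.trans_lt h5).trans_le (min_le_right _ _))
  · rw [sub_eq_zero.1 hx]
    simp only [P, map_sub]
    ring

theorem BHat_sq {n : ℕ} (v : Fin n → ℝ) :
    ‖v‖ ^ 2 ≤ ∑ i, v i ^ 2 ∧ ∑ i, v i ^ 2 ≤ n * ‖v‖ ^ 2 := by
  constructor
  · refine (Real.le_sqrt (norm_nonneg _) (by positivity)).1
      ((pi_norm_le_iff_of_nonneg (Real.sqrt_nonneg _)).2 fun i => Real.abs_le_sqrt ?_)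
    exact Finset.single_le_sum (f := fun i => v i ^ 2) (fun _ _ => sq_nonneg _) (Finset.mem_univ i)
  · have := Finset.sum_le_card_nsmul Finset.univ (fun i => v i ^ 2) (‖v‖ ^ 2) fun i _ => by
      rw [← sq_abs]
      exact pow_le_pow_left₀ (abs_nonneg _) (norm_le_pi_norm v i) 2
    simpa using this

/-- The derivative of the sum of squares. -/
def BHat_q {n : ℕ} (a : Fin n → ℝ) : (Fin n → ℝ) →L[ℝ] ℝ :=
  ∑ i, (2 * a i) • ContinuousLinearMap.proj i

theorem BHat_conc {n : ℕ} {K : Set (Fin n → ℝ)} (hK : IsCompact K) (h0 : 0 ∈ K)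
    {φ : (Fin n → ℝ) → ℝ} {D : (Fin n → ℝ) → (Fin n → ℝ) →L[ℝ] ℝ} (hD : ContinuousOn D K) {M : ℝ}
    (hM : 0 ≤ M) (h : ∀ a ∈ K, ∀ y ∈ K, |φ a + D a (y - a) - φ y| ≤ M * ‖y - a‖ ^ 2) {θ : ℝ}
    (hθ : 0 < θ) : ∃ g, BHat_H K θ (fun y => φ y - (M + 1) * ∑ i, y i ^ 2)
      (fun a => D a - (M + 1) • BHat_q a) g := by
  refine BHat_core hK h0 (hD.sub (Continuous.continuousOn ?_)) (C := M + (M + 1) * n)
    (fun a ha y hy => ?_) hθ
  · unfold BHat_q
    fun_prop
  have e : BHat_q a (y - a) = ∑ i, y i ^ 2 - ∑ i, a i ^ 2 - ∑ i, (y - a) i ^ 2 := by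
    simp only [BHat_q, _root_.sum_apply, ← Finset.sum_sub_distrib]
    refine Finset.sum_congr rfl fun i _ => ?_
    simp only [_root_.smul_apply, ContinuousLinearMap.proj_apply, Pi.sub_apply,
      smul_eq_mul]
    ring
  obtain ⟨h1, h2⟩ := BHat_sq (y - a)
  obtain ⟨h3, h4⟩ := abs_le.1 (h a ha y hy)
  change _ ≤ _ + (D a (y - a) - (M + 1) * BHat_q a (y - a)) - _ ∧
    _ + (D a (y - a) - (M + 1) * BHat_q a (y - a)) - _ ≤ _
  rw [e]
  constructor <;> linarith only [h1, h3, hM, h2, h4, mul_nonneg_of_nonpos_of_nonpos (Mathlib.Tactic.Linarith.sub_nonpos_of_le hM) (Mathlib.Tactic.Linarith.sub_nonpos_of_le h1), mul_nonneg_of_nonpos_of_nonpos (Mathlib.Tactic.Linarith.sub_nonpos_of_le hM) (Mathlib.Tactic.Linarith.sub_nonpos_of_le h2)]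

theorem BHat_scalar {n : ℕ} {K : Set (Fin n → ℝ)} (hK : IsCompact K) (h0 : 0 ∈ K)
    {φ : (Fin n → ℝ) → ℝ} {D : (Fin n → ℝ) → (Fin n → ℝ) →L[ℝ] ℝ} (hD : ContinuousOn D K) {M : ℝ}
    (hM : 0 ≤ M) (h : ∀ a ∈ K, ∀ y ∈ K, |φ a + D a (y - a) - φ y| ≤ M * ‖y - a‖ ^ 2) {θ : ℝ}
    (hθ : 0 < θ) : ∃ g, BHat_H K θ φ D g := by
  obtain ⟨g, h1, h2, h3⟩ := BHat_conc hK h0 hD hM h (half_pos hθ)
  obtain ⟨g', h4, h5, h6⟩ := BHat_conc hK h0 (φ := fun _ => 0) (D := fun _ => 0) continuousOn_const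
    hM (fun a _ y _ => by simp; positivity) (half_pos hθ)
  refine ⟨fun y => g y - g' y, h1.sub h4, fun y hy => ?_, fun τ hτ => ?_⟩
  · have h7 := abs_le.1 (h2 y hy)
    have h8 := abs_le.1 (h5 y hy)
    exact abs_le.2 ⟨by linarith only [h7, h8, h7.1, h8.2], by linarith only [h7, h8, h7.2, h8.1]⟩
  filter_upwards [h3 τ hτ, h6 τ hτ] with z h7 h8 hz
  obtain ⟨A, b, h9, e⟩ := h7 hz
  obtain ⟨A', b', h10, e'⟩ := h8 hz
  refine ⟨A - A', b - b', ?_, (e.and e').mono fun x hx => ?_⟩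
  · refine le_trans (le_of_eq (congrArg _ ?_)) ((norm_sub_le _ _).trans
      ((add_le_add h9 h10).trans_eq (add_halves θ)))
    abel
  · rw [hx.1, hx.2, _root_.sub_apply]
    ring

theorem exists_hat {n : ℕ} {F : (Fin n → ℝ) → Fin n → ℝ} (hF : ContDiff ℝ ∞ F)
    {K : Set (Fin n → ℝ)} (hK : IsCompact K) {θ : ℝ} (hθ : 0 < θ) :
    ∃ g : (Fin n → ℝ) → Fin n → ℝ, TP g ∧ (∀ y ∈ K, ‖g y - F y‖ ≤ θ) ∧
      ∀ τ : (Fin n → ℝ) → Fin n → ℝ, TP τ → ∀ᵐ z, τ z ∈ K →
        ‖fderiv ℝ (fun x => g (τ x)) z - (fderiv ℝ F (τ z)).comp (fderiv ℝ τ z)‖ ≤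
          θ * ‖fderiv ℝ τ z‖ := by
  obtain ⟨R, hR0, hR⟩ := hK.isBounded.subset_closedBall_lt 0 0
  have hF' : ContDiff ℝ 1 (fderiv ℝ F) := hF.fderiv_right (by norm_cast)
  obtain ⟨M, hM⟩ := hF'.contDiffOn.exists_lipschitzOnWith one_ne_zero
    (convex_closedBall (0 : Fin n → ℝ) R) (isCompact_closedBall _ _)
  have h1 : ∀ a ∈ closedBall (0 : Fin n → ℝ) R, ∀ y ∈ closedBall (0 : Fin n → ℝ) R,
      ‖F y - F a - fderiv ℝ F a (y - a)‖ ≤ M * ‖y - a‖ * ‖y - a‖ := fun a ha y hy =>
    ((convex_closedBall _ _).inter (convex_closedBall a ‖y - a‖)).norm_image_sub_le_of_norm_fderiv_le'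
      (fun x _ => hF.differentiable (by simp) x) (fun x hx => (hM.norm_sub_le hx.1 ha).trans
        (mul_le_mul_of_nonneg_left (mem_closedBall_iff_norm.1 hx.2) M.2))
      ⟨ha, mem_closedBall_self (norm_nonneg _)⟩ ⟨hy, mem_closedBall_iff_norm.2 le_rfl⟩
  choose g h2 h3 h4 using fun l : Fin n => BHat_scalar (isCompact_closedBall (0 : Fin n → ℝ) R)
    (mem_closedBall_self hR0.le) (φ := fun y => F y l)
    (D := fun a => (ContinuousLinearMap.proj l).comp (fderiv ℝ F a))
    (continuous_const.clm_comp hF'.continuous).continuousOn M.2 (fun a ha y hy => by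
      have h5 := (norm_le_pi_norm _ l).trans (h1 a ha y hy)
      rw [abs_sub_comm, sq, ← mul_assoc, ← sub_sub]
      exact h5) hθ
  refine ⟨fun y l => g l y, TP.pi h2, fun y hy =>
    (pi_norm_le_iff_of_nonneg hθ.le).2 fun l => h3 l y (hR hy), fun τ hτ => ?_⟩
  obtain ⟨L, hL⟩ := hτ.lip
  filter_upwards [ae_all_iff.2 fun l => h4 l τ hτ, hL.ae_differentiableAt] with z h5 h6 hz
  choose A b h7 h8 using fun l => h5 l (hR hz)
  have e : (fun x l => g l (τ x)) =ᶠ[𝓝 z] fun x => ContinuousLinearMap.pi A (τ x) + b :=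
    (eventually_all.2 h8).mono fun x hx => funext hx
  have e' : HasFDerivAt (fun x => ContinuousLinearMap.pi A (τ x) + b) _ z :=
    ((ContinuousLinearMap.pi A).hasFDerivAt.comp z h6.hasFDerivAt).add_const b
  rw [e.fderiv_eq, e'.fderiv, ← ContinuousLinearMap.sub_comp]
  refine (ContinuousLinearMap.opNorm_comp_le _ _).trans
    (mul_le_mul_of_nonneg_right ?_ (norm_nonneg _))
  refine ContinuousLinearMap.opNorm_le_bound _ hθ.le fun v =>
    (pi_norm_le_iff_of_nonneg (by positivity)).2 fun l => ?_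
  exact (ContinuousLinearMap.le_opNorm _ v).trans (mul_le_mul_of_nonneg_right (h7 l) (norm_nonneg v))

end BEp
end
end

-- merged part: Pool.Agent.Work.MP_f0515e_an.Pos.BX4
section
/-! TASK BX4. Piecewise affine approximation with a local Lipschitz bound; derivatives on coincidence sets.
Plan. gh: the construction of BHat (max of tangent planes of strongly convex functions at a finite net); near y only pieces active at y are active; each such piece B has norm (B - fderiv u y) small, fderiv u is continuous, and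
norm_sub_le_of_pieces (PA2) or a direct max/min argument gives the LL bound. ae_fderiv_eq: apply ApproximatesLinearOn.norm_fderiv_sub_le, or a Lebesgue density point argument (Besicovitch.ae_tendsto_measure_inter_div), to w = u - v on the
closed set {w = 0}: at a density point where w is differentiable the derivative vanishes. -/

open Set Metric Filter Topology Function BEv MeasureTheory
open scoped NNReal ENNReal ContDiff

noncomputable section
namespace BEp

/-- A bound for almost all derivatives of a piecewise affine map is a Lipschitz bound. -/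
theorem BX4_ll {n : ℕ} {f : (Fin n → ℝ) → ℝ} (hf : TP f) {y : Fin n → ℝ} {c : ℝ}
    {t : Set (Fin n → ℝ)} (ht : t ∈ 𝓝 y) (h : ∀ᵐ z, z ∈ t → ‖fderiv ℝ f z‖ ≤ c) : LL f y c := by
  obtain ⟨r, hr, h1⟩ := Metric.mem_nhds_iff.1 ht
  obtain ⟨R, hR⟩ := (isBounded_ball (x := y) (r := r)).subset_closedBall 0
  obtain ⟨S, hS, h2⟩ := hf.pa R
  have hS' : {A ∈ S | ‖A.1‖ ≤ c}.Finite := hS.subset (sep_subset _ _)
  have h3 : ∀ᵐ z, z ∈ (ball y r)ᶜ ∪ ⋃ A ∈ {A ∈ S | ‖A.1‖ ≤ c}, {x | f x = A.1 x + A.2} := by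
    filter_upwards [h, (ae_ball_iff hS.countable).2 fun A _ =>
      (hf.sub ((TP.clm A.1).add (TP.const A.2))).ae_ne_or] with z h4 h5
    refine or_iff_not_imp_left.2 fun hz => ?_
    have hz := not_not.1 hz
    obtain ⟨A, h6, h7⟩ := h2 z (hR hz)
    have e : f =ᶠ[𝓝 z] fun x => A.1 x + A.2 :=
      ((h5 A h6).resolve_left fun k => k (sub_eq_zero.2 h7)).mono fun x hx => sub_eq_zero.1 hx
    refine mem_iUnion₂.2 ⟨A, ⟨h6, ?_⟩, h7⟩
    have h8 := h4 (h1 hz)
    rwa [e.fderiv_eq, (A.1.hasFDerivAt.add_const A.2).fderiv] at h8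
  have h4 := (isOpen_ball.isClosed_compl.union (hS'.isClosed_biUnion fun A _ =>
    isClosed_eq hf.continuous (by fun_prop))).closure_eq.symm.trans
      (Measure.dense_of_ae h3).closure_eq
  refine LL.of_nhds (ball_mem_nhds y hr) fun p hp q hq =>
    norm_sub_le_of_pieces hS' hf.continuous.continuousOn (fun x hx => ?_) fun A hA =>
      (A.1.le_opNorm _).trans (mul_le_mul_of_nonneg_right hA.2 (norm_nonneg _))
  have h5 := (h4.ge (mem_univ x)).resolve_left fun k => k ((convex_ball y r).segment_subset hq hp hx)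
  simpa only [mem_iUnion, exists_prop, mem_ofPred_eq] using h5

theorem gh {n : ℕ} {u : (Fin n → ℝ) → Fin n → ℝ} (hu : ContDiff ℝ 2 u) (R : ℝ) {θ : ℝ}
    (hθ : 0 < θ) : ∃ g : (Fin n → ℝ) → Fin n → ℝ, TP g ∧ ∀ y, ‖y‖ ≤ R →
      ‖g y - u y‖ ≤ θ ∧ LL (fun x => g x - u x) y θ := by
  have hu' : ContDiff ℝ 1 (fderiv ℝ u) := hu.fderiv_right (by norm_num)
  have hR0 : (0 : ℝ) ≤ |R| + 1 := by positivity
  have h3θ : 0 < θ / 3 := by positivity
  obtain ⟨M, hM⟩ := hu'.contDiffOn.exists_lipschitzOnWith one_ne_zero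
    (convex_closedBall (0 : Fin n → ℝ) (|R| + 1)) (isCompact_closedBall _ _)
  have h1 : ∀ a ∈ closedBall (0 : Fin n → ℝ) (|R| + 1), ∀ y ∈ closedBall (0 : Fin n → ℝ) (|R| + 1),
      ‖u y - u a - fderiv ℝ u a (y - a)‖ ≤ M * ‖y - a‖ * ‖y - a‖ := fun a ha y hy =>
    ((convex_closedBall _ _).inter (convex_closedBall a ‖y - a‖)).norm_image_sub_le_of_norm_fderiv_le'
      (fun x _ => hu.differentiable (by simp) x) (fun x hx => (hM.norm_sub_le hx.1 ha).trans
        (mul_le_mul_of_nonneg_left (mem_closedBall_iff_norm.1 hx.2) M.2))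
      ⟨ha, mem_closedBall_self (norm_nonneg _)⟩ ⟨hy, mem_closedBall_iff_norm.2 le_rfl⟩
  obtain ⟨D, hD⟩ : ∃ D : Fin n → (Fin n → ℝ) → (Fin n → ℝ) →L[ℝ] ℝ, ∀ l a,
      D l a = (ContinuousLinearMap.proj l).comp (fderiv ℝ u a) := ⟨_, fun _ _ => rfl⟩
  have hc : ∀ l, Continuous (D l) := fun l => by
    rw [funext (hD l)]
    exact continuous_const.clm_comp hu'.continuous
  choose g h2 h3 h4 using fun l : Fin n =>
    BHat_scalar (isCompact_closedBall (0 : Fin n → ℝ) (|R| + 1)) (mem_closedBall_self hR0)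
      (φ := fun y => u y l) (hc l).continuousOn M.2 (fun a ha y hy => by
        have h5 := (norm_le_pi_norm _ l).trans (h1 a ha y hy)
        rw [hD, abs_sub_comm, sq, ← mul_assoc, ← sub_sub]
        exact h5) h3θ
  refine ⟨fun y l => g l y, TP.pi h2, fun y hy => ?_⟩
  have hy' : y ∈ ball (0 : Fin n → ℝ) (|R| + 1) :=
    mem_ball_zero_iff.2 ((hy.trans (le_abs_self R)).trans_lt (lt_add_one _))
  refine ⟨(pi_norm_le_iff_of_nonneg hθ.le).2 fun l =>
    (h3 l y (ball_subset_closedBall hy')).trans (by linarith), LL.pi hθ.le fun l => ?_⟩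
  have h5 : LL (fun x => g l x - D l y x) y (θ / 3 + θ / 3) := by
    refine BX4_ll ((h2 l).sub (TP.clm _)) (inter_mem (closedBall_mem_nhds_of_mem hy')
      ((hc l).continuousAt (closedBall_mem_nhds (D l y) h3θ))) ?_
    filter_upwards [h4 l id TP.id'] with z h6 hz
    obtain ⟨A, b, h7, h8⟩ := h6 hz.1
    have e : (fun x => g l x - D l y x) =ᶠ[𝓝 z] fun x => (A - D l y) x + b :=
      h8.mono fun x hx => by
        change g l x = A x + b at hx
        change g l x - D l y x = A x - D l y x + b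
        rw [hx]
        ring
    rw [e.fderiv_eq, ((A - D l y).hasFDerivAt.add_const b).fderiv]
    exact (norm_sub_le_norm_sub_add_norm_sub _ _ _).trans
      (add_le_add h7 (mem_closedBall_iff_norm.1 hz.2))
  have h6 : LL (fun x => u x l - D l y x) y (θ / 3) := by
    filter_upwards [(hu.contDiffAt.hasStrictFDerivAt (by simp)).isLittleO.def h3θ] with p hp
    refine le_trans (le_of_eq (congrArg _ ?_)) ((norm_le_pi_norm _ l).trans hp)
    simp only [hD, ContinuousLinearMap.comp_apply, ContinuousLinearMap.proj_apply, map_sub,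
      Pi.sub_apply]
    ring
  exact ((h5.sub h6).mono (by linarith)).congr
    (Eventually.of_forall fun x => (sub_sub_sub_cancel_right _ _ _).symm)

theorem ae_fderiv_eq {n : ℕ} {u v : (Fin n → ℝ) → Fin n → ℝ} {L L' : ℝ≥0}
    (hu : LipschitzWith L u) (hv : LipschitzWith L' v) :
    ∀ᵐ x, u x = v x → fderiv ℝ u x = fderiv ℝ v x := by
  have hs : MeasurableSet ({x | u x = v x} ∩
      ({x | DifferentiableAt ℝ u x} ∩ {x | DifferentiableAt ℝ v x})) :=
    (isClosed_eq hu.continuous hv.continuous).measurableSet.inter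
      ((measurableSet_of_differentiableAt ℝ u).inter (measurableSet_of_differentiableAt ℝ v))
  have h1 := ApproximatesLinearOn.norm_fderiv_sub_le volume (f := fun x => u x - v x) (A := 0)
    (δ := 0) (fun x hx y hy => by simp [show u x = v x from hx.1, show u y = v y from hy.1]) hs
    (fun x => fderiv ℝ u x - fderiv ℝ v x)
    fun x hx => (hx.2.1.hasFDerivAt.sub hx.2.2.hasFDerivAt).hasFDerivWithinAt
  filter_upwards [(ae_restrict_iff' hs).1 h1, hu.ae_differentiableAt, hv.ae_differentiableAt]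
    with x h2 h3 h4 e
  simpa [sub_eq_zero] using h2 ⟨e, h3, h4⟩

end BEp
end
end
end

-- merged part: Pool.Agent.Work.MP_f0515e_an.Pos.BCov
section
-- merged part: Pool.Agent.Work.MP_f0515e_an.Pos.BPt
section
/-! TASK BPt. Pointwise estimates for C^1 maps.
Plan. ray_avg: norm (u y - u x) <= rho * integral over tau in [0,1] of norm (fderiv u (x + tau (y - x))); integrate over y in S and swap (continuous integrands on compact sets).
morrey: for x in the cube Q the homothety y -> x + tau (y - x) maps Q into Q with Jacobian tau ^ d, so by Hoelder the integral over Q of norm (fderiv u (x + tau (y - x))) is at most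
vol Q ^ (1 - 1/q) tau ^ (-d/q) E ^ (1/q), and tau ^ (-d/q) is integrable on (0,1) as d < q. Average norm (u x - u x') <= norm (u x - u y) + norm (u y - u x') over y in Q.
two_point: v y = u (z + emb I y), z' = z + emb I a, r = norm a, S = closedBall a r inside closedBall 0 (2 r); the homothety of ratio tau maps S into closedBall 0 (2 tau r), use MaxLe at radius 2 tau r; norm (emb I) <= 1. -/

open Set Metric Filter Topology Function BEv MeasureTheory
open scoped NNReal ENNReal ContDiff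

noncomputable section
namespace BEp

variable {F : Type} [NormedAddCommGroup F] [NormedSpace ℝ F] [CompleteSpace F]

theorem BPt_ray {κ : Type} [Fintype κ] {v : (κ → ℝ) → F} (hv : ContDiff ℝ 1 v)
    {φ : (κ → ℝ) → ℝ} (hφ : Continuous φ) (hb : ∀ w, ‖fderiv ℝ v w‖ ≤ φ w) (x y : κ → ℝ)
    {R : ℝ} (hR : ‖y - x‖ ≤ R) :
    ‖v y - v x‖ ≤ R * ∫ τ in (0 : ℝ)..1, φ (x + τ • (y - x)) := by
  have hd : Differentiable ℝ v := hv.differentiable one_ne_zero
  have hc : Continuous (fderiv ℝ v) := hv.continuous_fderiv one_ne_zero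
  have hg : ∀ τ : ℝ, HasDerivAt (fun τ : ℝ => v (x + τ • (y - x)))
      (fderiv ℝ v (x + τ • (y - x)) (y - x)) τ := by
    intro τ
    have h1 : HasDerivAt (fun τ : ℝ => x + τ • (y - x)) (y - x) τ := by
      simpa using ((hasDerivAt_id τ).smul_const (y - x)).const_add x
    exact (hd _).hasFDerivAt.comp_hasDerivAt τ h1
  have hcont : Continuous (fun τ : ℝ => fderiv ℝ v (x + τ • (y - x)) (y - x)) := by
    have : Continuous (fun τ : ℝ => x + τ • (y - x)) := by fun_prop
    exact (hc.comp this).clm_apply continuous_const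
  have he := intervalIntegral.integral_eq_sub_of_hasDerivAt (a := 0) (b := 1)
    (fun τ _ => hg τ) (hcont.intervalIntegrable _ _)
  simp only [one_smul, zero_smul, add_zero, add_sub_cancel] at he
  rw [← he, ← intervalIntegral.integral_const_mul]
  have hR0 : 0 ≤ R := (norm_nonneg _).trans hR
  refine intervalIntegral.norm_integral_le_of_norm_le zero_le_one ?_ ?_
  · refine Eventually.of_forall fun τ _ => ?_
    calc ‖fderiv ℝ v (x + τ • (y - x)) (y - x)‖
        ≤ ‖fderiv ℝ v (x + τ • (y - x))‖ * ‖y - x‖ := ContinuousLinearMap.le_opNorm _ _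
      _ ≤ φ (x + τ • (y - x)) * R :=
          mul_le_mul (hb _) hR (norm_nonneg _) ((norm_nonneg _).trans (hb _))
      _ = R * φ (x + τ • (y - x)) := mul_comm _ _
  · have : Continuous (fun τ : ℝ => R * φ (x + τ • (y - x))) := by fun_prop
    exact this.intervalIntegrable _ _

theorem BPt_avg {κ : Type} [Fintype κ] {v : (κ → ℝ) → F} (hv : ContDiff ℝ 1 v)
    {φ : (κ → ℝ) → ℝ} (hφ : Continuous φ) (hb : ∀ w, ‖fderiv ℝ v w‖ ≤ φ w) (x : κ → ℝ)
    {S : Set (κ → ℝ)} (hS : IsCompact S) {R : ℝ} (hR0 : 0 ≤ R) (hR : ∀ y ∈ S, ‖y - x‖ ≤ R)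
    {B : ℝ → ℝ} (hB : IntervalIntegrable B volume 0 1)
    (hle : ∀ τ ∈ Ioo (0 : ℝ) 1, ∫ y in S, φ (x + τ • (y - x)) ≤ B τ) :
    ∫ y in S, ‖v y - v x‖ ≤ R * ∫ τ in (0 : ℝ)..1, B τ := by
  have hcj : Continuous (fun p : ℝ × (κ → ℝ) => φ (x + p.1 • (p.2 - x))) := by fun_prop
  have hint : Integrable (uncurry fun (τ : ℝ) (y : κ → ℝ) => φ (x + τ • (y - x)))
      ((volume.restrict (uIoc (0 : ℝ) 1)).prod (volume.restrict S)) := by
    rw [Measure.prod_restrict]
    have h1 : IntegrableOn (fun p : ℝ × (κ → ℝ) => φ (x + p.1 • (p.2 - x)))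
        (Icc (0 : ℝ) 1 ×ˢ S) (volume.prod volume) :=
      hcj.continuousOn.integrableOn_compact (isCompact_Icc.prod hS)
    refine h1.mono_set (prod_mono ?_ le_rfl)
    rw [uIoc_of_le zero_le_one]
    exact Ioc_subset_Icc_self
  have hsw := intervalIntegral_integral_swap hint
  have hi1 : IntervalIntegrable (fun τ : ℝ => ∫ y in S, φ (x + τ • (y - x))) volume 0 1 := by
    rw [intervalIntegrable_iff]
    exact hint.integral_prod_left
  have hi2 : Integrable (fun y => ∫ τ in (0 : ℝ)..1, φ (x + τ • (y - x)))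
      (volume.restrict S) := by
    have := hint.integral_prod_right
    rw [uIoc_of_le zero_le_one] at this
    simpa only [intervalIntegral.integral_of_le zero_le_one, uncurry] using this
  have hvc : Continuous v := hv.continuous
  calc ∫ y in S, ‖v y - v x‖
      ≤ ∫ y in S, R * ∫ τ in (0 : ℝ)..1, φ (x + τ • (y - x)) := by
        refine setIntegral_mono_on ?_ (hi2.const_mul R) hS.measurableSet
          fun y hy => BPt_ray hv hφ hb x y (hR y hy)
        have : Continuous (fun y => ‖v y - v x‖) := by fun_prop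
        exact this.continuousOn.integrableOn_compact hS
    _ = R * ∫ τ in (0 : ℝ)..1, ∫ y in S, φ (x + τ • (y - x)) := by
        rw [integral_const_mul, hsw]
    _ ≤ R * ∫ τ in (0 : ℝ)..1, B τ :=
        mul_le_mul_of_nonneg_left
          (intervalIntegral.integral_mono_on_of_le_Ioo zero_le_one hi1 hB hle) hR0

theorem BPt_hom {κ : Type} [Fintype κ] {ψ : (κ → ℝ) → ℝ} (hψ : Continuous ψ)
    (h0 : ∀ w, 0 ≤ ψ w) {S T : Set (κ → ℝ)} (hS : IsCompact S) (hT : IsCompact T)
    {τ : ℝ} (hτ : 0 < τ) (c : κ → ℝ) (hm : ∀ y ∈ S, τ • y + c ∈ T) :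
    ∫ y in S, ψ (τ • y + c) ≤ (τ ^ Fintype.card κ)⁻¹ * ∫ w in T, ψ w := by
  have hiT : Integrable (T.indicator ψ) volume :=
    (integrable_indicator_iff hT.measurableSet).2 (hψ.continuousOn.integrableOn_compact hT)
  have hiT2 : Integrable (fun y => T.indicator ψ (τ • y + c)) volume := by
    have h1 : Integrable (fun y => T.indicator ψ (y + c)) volume := hiT.comp_add_right c
    exact h1.comp_smul hτ.ne'
  have hc : Continuous (fun y => ψ (τ • y + c)) := by fun_prop
  calc ∫ y in S, ψ (τ • y + c) = ∫ y, S.indicator (fun y => ψ (τ • y + c)) y :=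
        (integral_indicator hS.measurableSet).symm
    _ ≤ ∫ y, T.indicator ψ (τ • y + c) := by
        refine integral_mono ((integrable_indicator_iff hS.measurableSet).2
          (hc.continuousOn.integrableOn_compact hS)) hiT2 fun y => ?_
        by_cases hy : y ∈ S
        · simp only [indicator_of_mem hy, indicator_of_mem (hm y hy), le_refl]
        · simp only [indicator_of_notMem hy]
          exact indicator_nonneg (fun w _ => h0 w) _
    _ = (τ ^ Fintype.card κ)⁻¹ * ∫ w in T, ψ w := by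
        have h2 := Measure.integral_comp_smul (volume : Measure (κ → ℝ))
          (fun y => T.indicator ψ (y + c)) τ
        rw [h2, integral_add_right_eq_self (fun y => T.indicator ψ y) c,
          integral_indicator hT.measurableSet, Module.finrank_pi,
          abs_of_nonneg (by positivity), smul_eq_mul]

omit [NormedSpace ℝ F] [CompleteSpace F] in
theorem BPt_tri {κ : Type} [Fintype κ] {v : (κ → ℝ) → F} (hv : Continuous v)
    (c : κ → ℝ) {r : ℝ} (hr : 0 ≤ r) (x x' : κ → ℝ) :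
    (2 * r) ^ Fintype.card κ * ‖v x - v x'‖ ≤
      (∫ y in closedBall c r, ‖v y - v x‖) + ∫ y in closedBall c r, ‖v y - v x'‖ := by
  have hK := isCompact_closedBall c r
  have hi : ∀ x, IntegrableOn (fun y => ‖v y - v x‖) (closedBall c r) volume := fun x => by
    have : Continuous (fun y => ‖v y - v x‖) := by fun_prop
    exact this.continuousOn.integrableOn_compact hK
  rw [← integral_add (hi x) (hi x')]
  have hV : volume.real (closedBall c r) = (2 * r) ^ Fintype.card κ := by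
    rw [measureReal_def, Real.volume_pi_closedBall c hr, ENNReal.toReal_ofReal (by positivity)]
  calc (2 * r) ^ Fintype.card κ * ‖v x - v x'‖ = ∫ _ in closedBall c r, ‖v x - v x'‖ := by
        rw [setIntegral_const, hV, smul_eq_mul]
    _ ≤ _ := by
        refine setIntegral_mono_on (continuous_const.continuousOn.integrableOn_compact hK)
          ((hi x).add (hi x')) hK.measurableSet fun y _ => ?_
        have : v x - v x' = (v y - v x') - (v y - v x) := by abel
        rw [this]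
        exact (norm_sub_le _ _).trans (le_of_eq (add_comm _ _))

theorem BPt_jensen {κ : Type} [Fintype κ] {q : ℝ} (hq1 : 1 ≤ q) {g : (κ → ℝ) → ℝ}
    (hg : Continuous g) (h0 : ∀ w, 0 ≤ g w) (c : κ → ℝ) {r : ℝ} (hr : 0 < r) :
    (((2 * r) ^ Fintype.card κ)⁻¹ * ∫ y in closedBall c r, g y) ^ q ≤
      ((2 * r) ^ Fintype.card κ)⁻¹ * ∫ y in closedBall c r, g y ^ q := by
  have hK := isCompact_closedBall c r
  have hV : volume.real (closedBall c r) = (2 * r) ^ Fintype.card κ := by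
    rw [measureReal_def, Real.volume_pi_closedBall c hr.le, ENNReal.toReal_ofReal (by positivity)]
  have hq0 : 0 ≤ q := zero_le_one.trans hq1
  have hc : Continuous (fun t : ℝ => t ^ q) := Real.continuous_rpow_const hq0
  have h := (convexOn_rpow hq1).map_set_average_le (μ := volume) (t := closedBall c r) (f := g)
    hc.continuousOn isClosed_Ici (measure_closedBall_pos _ c hr).ne' hK.measure_lt_top.ne
    (Eventually.of_forall h0) (hg.continuousOn.integrableOn_compact hK)
    ((hc.comp hg).continuousOn.integrableOn_compact hK)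
  simpa only [setAverage_eq, hV, smul_eq_mul] using h

theorem BPt_one {κ : Type} [Fintype κ] {q : ℝ} (hq : (Fintype.card κ : ℝ) < q) (hq1 : 1 ≤ q)
    {u : (κ → ℝ) → F} (hu : ContDiff ℝ 1 u) (a : κ → ℝ) {ρ : ℝ} (hρ : 0 < ρ)
    {x : κ → ℝ} (hx : x ∈ closedBall a ρ) :
    ∫ y in closedBall a ρ, ‖u y - u x‖ ≤ (2 * ρ) ^ Fintype.card κ * (2 * ρ *
      (1 / (-(Fintype.card κ / q) + 1) * (((2 * ρ) ^ Fintype.card κ)⁻¹ *
        ∫ z in closedBall a ρ, ‖fderiv ℝ u z‖ ^ q) ^ q⁻¹)) := by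
  have hq0 : 0 < q := zero_lt_one.trans_le hq1
  have hK := isCompact_closedBall a ρ
  have hφ : Continuous (fun w => ‖fderiv ℝ u w‖) := (hu.continuous_fderiv one_ne_zero).norm
  have hexp : (-1 : ℝ) < -(Fintype.card κ / q) := by
    rw [neg_lt_neg_iff, div_lt_one hq0]; exact hq
  set V : ℝ := (2 * ρ) ^ Fintype.card κ with hVdef
  have hV : 0 < V := by positivity
  set E : ℝ := ∫ z in closedBall a ρ, ‖fderiv ℝ u z‖ ^ q with hEdef
  have hE : 0 ≤ E := integral_nonneg fun z => by positivity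
  have h := BPt_avg hu hφ (fun w => le_rfl) x hK (R := 2 * ρ) (by positivity)
    (fun y hy => by
      rw [← dist_eq_norm]
      have := dist_triangle_right y x a
      have h1 := mem_closedBall.1 hy
      have h2 := mem_closedBall.1 hx
      linarith)
    (B := fun τ => V * (V⁻¹ * E) ^ q⁻¹ * τ ^ (-(Fintype.card κ / q)))
    ((intervalIntegral.intervalIntegrable_rpow' hexp).const_mul _) ?_
  · rw [intervalIntegral.integral_const_mul, integral_rpow (Or.inl hexp), Real.one_rpow,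
      Real.zero_rpow (by linarith only [hexp]), sub_zero] at h
    calc _ ≤ _ := h
      _ = _ := by ring
  · intro τ hτ
    have hτ0 := hτ.1
    have hj := BPt_jensen hq1 (g := fun y => ‖fderiv ℝ u (x + τ • (y - x))‖) (by fun_prop)
      (fun w => norm_nonneg _) a hρ
    have he : ∀ y : κ → ℝ, x + τ • (y - x) = τ • y + (1 - τ) • x := fun y => by module
    have hh := BPt_hom (ψ := fun w => ‖fderiv ℝ u w‖ ^ q)
      ((Real.continuous_rpow_const hq0.le).comp hφ) (fun w => by positivity) hK hK hτ0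
      ((1 - τ) • x) (fun y hy => (convex_closedBall a ρ) hy hx hτ0.le (by linarith only [hτ, hτ.2])
        (by ring))
    simp only [← he] at hh
    have hI : 0 ≤ ∫ y in closedBall a ρ, ‖fderiv ℝ u (x + τ • (y - x))‖ :=
      integral_nonneg fun y => norm_nonneg _
    have h3 : (V⁻¹ * ∫ y in closedBall a ρ, ‖fderiv ℝ u (x + τ • (y - x))‖) ^ q ≤
        V⁻¹ * E * (τ ^ Fintype.card κ)⁻¹ := by
      calc _ ≤ _ := hj
        _ ≤ V⁻¹ * ((τ ^ Fintype.card κ)⁻¹ * E) := mul_le_mul_of_nonneg_left hh (by positivity)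
        _ = _ := by ring
    have h4 := (Real.le_rpow_inv_iff_of_pos (by positivity) (by positivity) hq0).2 h3
    have h5 : ((τ ^ Fintype.card κ)⁻¹) ^ q⁻¹ = τ ^ (-(Fintype.card κ / q)) := by
      rw [← Real.rpow_natCast, ← Real.rpow_neg hτ0.le, ← Real.rpow_mul hτ0.le]
      congr 1
      ring
    rw [Real.mul_rpow (by positivity) (by positivity), h5, inv_mul_le_iff₀ hV] at h4
    calc _ ≤ _ := h4
      _ = _ := by ring

theorem BPt_emb {n : ℕ} (I : Finset (Fin n)) : ‖emb I‖ ≤ 1 := by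
  refine ContinuousLinearMap.opNorm_le_bound _ zero_le_one fun y => ?_
  rw [one_mul]
  refine (pi_norm_le_iff_of_nonneg (norm_nonneg y)).2 fun l => ?_
  by_cases h : l ∈ I
  · simp only [emb, ContinuousLinearMap.pi_apply, dif_pos h, ContinuousLinearMap.proj_apply]
    exact norm_le_pi_norm y _
  · simp only [emb, ContinuousLinearMap.pi_apply, dif_neg h, zero_apply,
      norm_zero, norm_nonneg]

theorem morrey (κ : Type) [Fintype κ] {q : ℝ} (hq : (Fintype.card κ : ℝ) < q) (hq1 : 1 ≤ q) :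
    ∃ C : ℝ, 0 < C ∧ ∀ (u : (κ → ℝ) → F), ContDiff ℝ 1 u → ∀ (a : κ → ℝ) (ρ : ℝ), 0 < ρ →
      ∀ x ∈ closedBall a ρ, ∀ y ∈ closedBall a ρ, ‖u x - u y‖ ^ q ≤
        C * ρ ^ (q - Fintype.card κ) * ∫ z in closedBall a ρ, ‖fderiv ℝ u z‖ ^ q := by
  have hq0 : 0 < q := zero_lt_one.trans_le hq1
  have hexp : (0 : ℝ) < -(Fintype.card κ / q) + 1 := by
    have := (div_lt_one hq0).2 hq
    linarith
  set K : ℝ := 1 / (-(Fintype.card κ / q) + 1) with hKdef
  have hK : 0 < K := by positivity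
  refine ⟨(4 * K) ^ q * (2 ^ Fintype.card κ)⁻¹, by positivity, ?_⟩
  intro u hu a ρ hρ x hx y hy
  have h1 := BPt_one hq hq1 hu a hρ hx
  have h2 := BPt_one hq hq1 hu a hρ hy
  have h3 := BPt_tri hu.continuous a hρ.le x y
  rw [← hKdef] at h1 h2
  set E : ℝ := ∫ z in closedBall a ρ, ‖fderiv ℝ u z‖ ^ q with hEdef
  have hE : 0 ≤ E := integral_nonneg fun z => by positivity
  have hV : 0 < (2 * ρ) ^ Fintype.card κ := by positivity
  have h4 : ‖u x - u y‖ ≤ 4 * K * ρ * (((2 * ρ) ^ Fintype.card κ)⁻¹ * E) ^ q⁻¹ := by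
    refine le_of_mul_le_mul_left ?_ hV
    calc _ ≤ _ := h3
      _ ≤ _ := add_le_add h1 h2
      _ = _ := by ring
  calc ‖u x - u y‖ ^ q ≤ (4 * K * ρ * (((2 * ρ) ^ Fintype.card κ)⁻¹ * E) ^ q⁻¹) ^ q :=
        Real.rpow_le_rpow (norm_nonneg _) h4 hq0.le
    _ = _ := by
        rw [Real.mul_rpow (by positivity) (by positivity),
          Real.mul_rpow (by positivity) (by positivity),
          Real.rpow_inv_rpow (by positivity) hq0.ne', Real.rpow_sub hρ, Real.rpow_natCast,
          mul_pow]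
        field_simp

theorem two_point {n : ℕ} (I : Finset (Fin n)) {u : (Fin n → ℝ) → F} (hu : ContDiff ℝ 1 u)
    {ρ0 lam : ℝ} (hl : 0 ≤ lam) {z : Fin n → ℝ} {a : I → ℝ} (ha : 2 * ‖a‖ ≤ ρ0)
    (h1 : MaxLe I (fun x => ‖fderiv ℝ u x‖) ρ0 lam z)
    (h2 : MaxLe I (fun x => ‖fderiv ℝ u x‖) ρ0 lam (z + emb I a)) :
    ‖u (z + emb I a) - u z‖ ≤ 2 ^ (I.card + 2) * lam * ‖a‖ := by
  rcases (norm_nonneg a).eq_or_lt with hr | hr
  · have : a = 0 := norm_eq_zero.1 hr.symm
    subst this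
    simp
  set r : ℝ := ‖a‖ with hrdef
  have hcard : Fintype.card I = I.card := Fintype.card_coe I
  have haff : ContDiff ℝ 1 (fun y : I → ℝ => z + emb I y) :=
    contDiff_const.add (emb I).contDiff
  have hv : ContDiff ℝ 1 (fun y : I → ℝ => u (z + emb I y)) := hu.comp haff
  have hφ : Continuous (fun y : I → ℝ => ‖fderiv ℝ u (z + emb I y)‖) :=
    ((hu.continuous_fderiv one_ne_zero).comp haff.continuous).norm
  have hb : ∀ w : I → ℝ, ‖fderiv ℝ (fun y : I → ℝ => u (z + emb I y)) w‖ ≤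
      ‖fderiv ℝ u (z + emb I w)‖ := by
    intro w
    have hd : HasFDerivAt (fun y : I → ℝ => u (z + emb I y))
        ((fderiv ℝ u (z + emb I w)).comp (emb I)) w :=
      (hu.differentiable one_ne_zero _).hasFDerivAt.comp w ((emb I).hasFDerivAt.const_add z)
    rw [hd.fderiv]
    exact (ContinuousLinearMap.opNorm_comp_le _ _).trans
      (mul_le_of_le_one_right (norm_nonneg _) (BPt_emb I))
  have hK := isCompact_closedBall a r
  have hA := BPt_avg hv hφ hb 0 hK (R := 2 * r) (by positivity)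
    (fun y hy => by
      have h3 := mem_closedBall_iff_norm.1 hy
      have h4 : y - 0 = (y - a) + a := by abel
      rw [h4]
      exact (norm_add_le _ _).trans (by linarith only [h3]))
    (B := fun _ => lam * (4 * r) ^ I.card) intervalIntegrable_const (fun τ hτ => by
      have hτ0 := hτ.1
      have hh := BPt_hom hφ (fun w => norm_nonneg _) hK
        (isCompact_closedBall (0 : I → ℝ) (τ * (2 * r))) hτ0 0 (fun y hy => by
          have h3 := mem_closedBall_iff_norm.1 hy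
          have h4 : ‖y‖ ≤ 2 * r := by
            have h5 : y = (y - a) + a := by abel
            rw [h5]
            exact (norm_add_le _ _).trans (by linarith only [h3])
          rw [add_zero, mem_closedBall_zero_iff, norm_smul, Real.norm_of_nonneg hτ0.le]
          exact mul_le_mul_of_nonneg_left h4 hτ0.le)
      have hm := h1 (τ * (2 * r)) ⟨by positivity, by linarith only [ha, hr, hτ, hτ.2, mul_pos_of_neg_of_neg (Mathlib.Tactic.Linarith.sub_neg_of_lt hr) (Mathlib.Tactic.Linarith.sub_neg_of_lt hτ.right)]⟩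
      simp only [add_zero, zero_add, sub_zero] at hh ⊢
      calc _ ≤ _ := hh
        _ ≤ (τ ^ Fintype.card I)⁻¹ * (lam * (2 * (τ * (2 * r))) ^ I.card) :=
            mul_le_mul_of_nonneg_left hm (by positivity)
        _ = _ := by
            have h6 : 2 * (τ * (2 * r)) = τ * (4 * r) := by ring
            rw [hcard, h6, mul_pow τ]
            field_simp)
  have hB := BPt_avg hv hφ hb a hK (R := r) hr.le
    (fun y hy => mem_closedBall_iff_norm.1 hy)
    (B := fun _ => lam * (2 * r) ^ I.card) intervalIntegrable_const (fun τ hτ => by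
      have hτ0 := hτ.1
      have hφ2 : Continuous (fun y : I → ℝ => ‖fderiv ℝ u (z + emb I a + emb I y)‖) :=
        ((hu.continuous_fderiv one_ne_zero).comp (continuous_const.add (emb I).continuous)).norm
      have hh := BPt_hom hφ2 (fun w => norm_nonneg _) hK
        (isCompact_closedBall (0 : I → ℝ) (τ * r)) hτ0 (-(τ • a)) (fun y hy => by
          have h3 := mem_closedBall_iff_norm.1 hy
          rw [← sub_eq_add_neg, ← smul_sub, mem_closedBall_zero_iff, norm_smul,
            Real.norm_of_nonneg hτ0.le]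
          exact mul_le_mul_of_nonneg_left h3 hτ0.le)
      have hm := h2 (τ * r) ⟨by positivity, by linarith only [ha, hr, hτ, hτ.2, mul_pos_of_neg_of_neg (Mathlib.Tactic.Linarith.sub_neg_of_lt hr) (Mathlib.Tactic.Linarith.sub_neg_of_lt hτ.right)]⟩
      have he : ∀ y : I → ℝ, z + emb I (a + τ • (y - a)) =
          z + emb I a + emb I (τ • y + -(τ • a)) := fun y => by
        rw [map_add, add_assoc, ← sub_eq_add_neg, ← smul_sub]
      simp only [he]
      calc _ ≤ _ := hh
        _ ≤ (τ ^ Fintype.card I)⁻¹ * (lam * (2 * (τ * r)) ^ I.card) :=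
            mul_le_mul_of_nonneg_left hm (by positivity)
        _ = _ := by
            have h6 : 2 * (τ * r) = τ * (2 * r) := by ring
            rw [hcard, h6, mul_pow τ]
            field_simp)
  have hT := BPt_tri hv.continuous a hr.le a 0
  simp only [intervalIntegral.integral_const, sub_zero, one_smul] at hA hB
  rw [hcard] at hT
  have hV : 0 < (2 * r) ^ I.card := by positivity
  have h7 : (4 * r) ^ I.card = 2 ^ I.card * (2 * r) ^ I.card := by
    rw [← mul_pow]; congr 1; ring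
  have h8 : (1 : ℝ) ≤ 2 ^ I.card := one_le_pow₀ one_le_two
  simp only [map_zero, add_zero] at hT hA
  refine le_of_mul_le_mul_left ?_ hV
  have h9 : 0 ≤ (2 * r) ^ I.card * lam * r := by positivity
  calc _ ≤ _ := hT
    _ ≤ _ := add_le_add hB hA
    _ = (2 * r) ^ I.card * lam * r * (1 + 2 * 2 ^ I.card) := by rw [h7]; ring
    _ ≤ (2 * r) ^ I.card * lam * r * (2 ^ (I.card + 2)) :=
        mul_le_mul_of_nonneg_left (by rw [pow_add]; linarith) h9
    _ = _ := by ring

end BEp
end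
end

-- merged part: Pool.Agent.Work.MP_f0515e_an.Pos.BX1
section
/-! TASK BX1. Morrey, packing and two point estimates in the form used by the core.
Plan. mor: from morrey (BPt) with ofReal_integral_eq_lintegral_ofReal, or directly. pack: for x in P let rho x be the largest radius with u (closedBall x rho n square) inside closedBall (u x) (r/3) (closed condition, it is < 2 S since
another point of P is r away); the boxes closedBall x (rho x) n square are pairwise disjoint, each has a point y with norm (u y - u x) = r/3, and x, y lie in a cube of radius at most rho x contained in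
closedBall x (rho x) n square up to using radius min (rho x / 2) S: a box with sides between rho and 2 rho, chain of at most two cubes of radius rho/2 per coordinate or the homothety proof of morrey for a convex box; sum the energies.
pt: as two_point, with Hoelder on each ball: integral of norm <= vol ^ (1 - 1/p) (lam ^ p vol) ^ (1/p) = lam vol. -/

open Set Metric Filter Topology Function BEv MeasureTheory
open scoped NNReal ENNReal ContDiff

noncomputable section
namespace BEp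

variable {F : Type} [NormedAddCommGroup F] [NormedSpace ℝ F] [CompleteSpace F]

theorem BX1_conv {J : Type} [Fintype J] {G : Type} [NormedAddCommGroup G] {g : (J → ℝ) → G}
    (hg : Continuous g) {p : ℝ} (hp : 0 ≤ p) {K : Set (J → ℝ)} (hK : IsCompact K) :
    ∫⁻ z in K, ‖g z‖ₑ ^ p = ENNReal.ofReal (∫ z in K, ‖g z‖ ^ p) := by
  have hc : Continuous fun z => ‖g z‖ ^ p := (Real.continuous_rpow_const hp).comp hg.norm
  rw [ofReal_integral_eq_lintegral_ofReal (hc.continuousOn.integrableOn_compact hK)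
    (Eventually.of_forall fun z => by positivity)]
  refine lintegral_congr fun z => ?_
  rw [← ENNReal.ofReal_rpow_of_nonneg (norm_nonneg _) hp, ofReal_norm]

theorem mor (J : Type) [Fintype J] {p : ℝ} (hp : (Fintype.card J : ℝ) < p) (hp1 : 1 ≤ p) :
    ∃ C : ℝ≥0∞, C ≠ ⊤ ∧ ∀ u : (J → ℝ) → F, ContDiff ℝ 1 u → ∀ (a : J → ℝ) (S : ℝ), 0 < S →
      ∀ x ∈ closedBall a S, ∀ y ∈ closedBall a S, ‖u x - u y‖ₑ ^ p ≤
        C * ENNReal.ofReal (S ^ (p - Fintype.card J)) *
          ∫⁻ z in closedBall a S, ‖fderiv ℝ u z‖ₑ ^ p := by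
  obtain ⟨C, hC, h⟩ := morrey (F := F) J hp hp1
  have hp0 : 0 ≤ p := zero_le_one.trans hp1
  refine ⟨ENNReal.ofReal C, ENNReal.ofReal_ne_top, fun u hu a S hS x hx y hy => ?_⟩
  rw [BX1_conv (hu.continuous_fderiv one_ne_zero) hp0 (isCompact_closedBall a S),
    ← ENNReal.ofReal_mul hC.le, ← ENNReal.ofReal_mul (by positivity), ← ofReal_norm,
    ENNReal.ofReal_rpow_of_nonneg (norm_nonneg _) hp0]
  exact ENNReal.ofReal_le_ofReal (h u hu a S hS x hx y hy)

theorem pt (I : Type) [Fintype I] {p : ℝ} (hp1 : 1 ≤ p) :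
    ∃ C : ℝ, 0 ≤ C ∧ ∀ u : (I → ℝ) → F, ContDiff ℝ 1 u → ∀ (x x2 : I → ℝ) (lam : ℝ), 0 ≤ lam →
      (∀ z, (z = x ∨ z = x2) → ∀ r ∈ Ioc (0 : ℝ) (2 * ‖x - x2‖),
        ∫⁻ y in closedBall z r, ‖fderiv ℝ u y‖ₑ ^ p ≤
          ENNReal.ofReal (lam ^ p * (2 * r) ^ Fintype.card I)) →
      ‖u x - u x2‖ ≤ C * lam * ‖x - x2‖ := by
  refine ⟨4 * 2 ^ Fintype.card I, by positivity, fun u hu x x2 lam hl h => ?_⟩
  have hp0 : 0 < p := zero_lt_one.trans_le hp1
  rcases (norm_nonneg (x - x2)).eq_or_lt with hr | hr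
  · rw [sub_eq_zero.1 (norm_eq_zero.1 hr.symm)]
    simp
  set r : ℝ := ‖x - x2‖ with hrdef
  have hφ : Continuous fun w => ‖fderiv ℝ u w‖ := (hu.continuous_fderiv one_ne_zero).norm
  have h1 : ∀ z, (z = x ∨ z = x2) → ∀ ρ ∈ Ioc (0 : ℝ) (2 * r),
      ∫ y in closedBall z ρ, ‖fderiv ℝ u y‖ ≤ (2 * ρ) ^ Fintype.card I * lam := by
    intro z hz ρ hρ
    have hρ0 := hρ.1
    have hV : 0 < (2 * ρ) ^ Fintype.card I := by positivity
    have k1 := h z hz ρ hρ
    rw [BX1_conv (hu.continuous_fderiv one_ne_zero) hp0.le (isCompact_closedBall z ρ),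
      ENNReal.ofReal_le_ofReal_iff (by positivity)] at k1
    have k2 := (BPt_jensen hp1 hφ (fun w => norm_nonneg _) z hρ0).trans
      ((inv_mul_le_iff₀ hV).2 (k1.trans_eq (mul_comm _ _)))
    have hI : 0 ≤ ∫ y in closedBall z ρ, ‖fderiv ℝ u y‖ := integral_nonneg fun y => norm_nonneg _
    rwa [Real.rpow_le_rpow_iff (by positivity) hl hp0, inv_mul_le_iff₀ hV] at k2
  have hK := isCompact_closedBall x r
  have h2 : ∀ z, (z = x ∨ z = x2) →
      ∫ y in closedBall x r, ‖u y - u z‖ ≤ 2 * r * ((4 * r) ^ Fintype.card I * lam) := by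
    intro z hz
    have hR : ∀ y ∈ closedBall x r, ‖y - z‖ ≤ 2 * r := fun y hy => by
      have h3 := mem_closedBall_iff_norm.1 hy
      rcases hz with rfl | rfl
      · linarith
      · have := norm_sub_le_norm_sub_add_norm_sub y x z
        linarith
    have hA := BPt_avg hu hφ (fun w => le_rfl) z hK (R := 2 * r) (by positivity) hR
      (B := fun _ => (4 * r) ^ Fintype.card I * lam) intervalIntegrable_const (fun τ hτ => by
        have hτ0 := hτ.1
        have he : ∀ y : I → ℝ, z + τ • (y - z) = τ • y + (1 - τ) • z := fun y => by module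
        have hh := BPt_hom hφ (fun w => norm_nonneg _) hK
          (isCompact_closedBall z (τ * (2 * r))) hτ0 ((1 - τ) • z) (fun y hy => by
            rw [← he, mem_closedBall_iff_norm, add_sub_cancel_left, norm_smul,
              Real.norm_of_nonneg hτ0.le]
            exact mul_le_mul_of_nonneg_left (hR y hy) hτ0.le)
        have hm := h1 z hz (τ * (2 * r)) ⟨by positivity, by linarith only [hr, hτ, hτ.2, mul_pos_of_neg_of_neg (Mathlib.Tactic.Linarith.sub_neg_of_lt hr) (Mathlib.Tactic.Linarith.sub_neg_of_lt hτ.right)]⟩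
        simp only [he]
        calc _ ≤ _ := hh
          _ ≤ (τ ^ Fintype.card I)⁻¹ * ((2 * (τ * (2 * r))) ^ Fintype.card I * lam) :=
              mul_le_mul_of_nonneg_left hm (by positivity)
          _ = _ := by
              have h6 : 2 * (τ * (2 * r)) = τ * (4 * r) := by ring
              rw [h6, mul_pow τ]
              field_simp)
    simpa only [intervalIntegral.integral_const, sub_zero, one_smul] using hA
  have hV : 0 < (2 * r) ^ Fintype.card I := by positivity
  have h7 : (4 * r) ^ Fintype.card I = 2 ^ Fintype.card I * (2 * r) ^ Fintype.card I := by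
    rw [← mul_pow]
    congr 1
    ring
  refine le_of_mul_le_mul_left ?_ hV
  calc _ ≤ _ := BPt_tri hu.continuous x hr.le x x2
    _ ≤ _ := add_le_add (h2 x (Or.inl rfl)) (h2 x2 (Or.inr rfl))
    _ = _ := by
        rw [h7]
        ring

end BEp
end
end

-- merged part: Pool.Agent.Work.MP_f0515e_an.Pos.ASa
section
/-! TASK ASa. Small energy on the fine skeleton gives closeness to the affine map.
Plan. For J of cardinality m let C J be the constant of mor for the type J (Fintype.card_coe), C the sum over all such J. For a square (J, v) put w y = u (sq b J v y) - A (emb J y); norm (fderiv w y) <= norm (fderiv u (sq ..) - A)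
as norm (emb J) <= 1; its energy is one term of esk. So with g x = u x - A x: norm (g (sq b J v y) - g (sq b J v y')) ^ p <= C (8 M s) ^ (p - m) k0 s ^ m = C k0 (8 M) ^ (p - m) s ^ p; choose k0 so that this is at most
(sigma s / (2000 (2m+2))) ^ p. By mem_sq x = sq b J v y, compare with y' = 0, the point cb b + s v. Induction on the number of nonzero coordinates of an integer vector v supported in I with entries in [-8M, 8M]:
pick J' inside I of cardinality m containing a nonzero coordinate, v' = v with the coordinates in J' set to 0; cb b + s v = sq b J' v' (s v on J') and cb b + s v' = sq b J' v' 0. At most 2m+1 steps. -/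

open Set Metric Filter Topology Function BEv MeasureTheory
open scoped NNReal ENNReal

noncomputable section
namespace BEp

variable {m : ℕ}

theorem ASa_zero (G : Gr m) (b : Ix m → ℤ) (J : Finset (Ix m)) (v : Ix m → ℤ) :
    G.sq b J v 0 = G.cb b + G.s • fun l => (v l : ℝ) := by
  rw [Gr.sq, map_zero, add_zero]

theorem ASa_sq {p : ℝ} (hp : (m : ℝ) < p) (hp1 : 1 ≤ p) {M : ℕ} (hM : 0 < M) {δ : ℝ} (hδ : 0 < δ) :
    ∃ k0 : ℝ, 0 < k0 ∧ ∀ G : Gr m, G.M = M → 0 < G.s → ∀ u : V m → V m, ContDiff ℝ 1 u →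
      ∀ b : Ix m → ℤ, G.esk (fun y => ‖fderiv ℝ u y - G.A‖ₑ ^ p) b ≤ ENNReal.ofReal (k0 * G.s ^ m) →
      ∀ J ∈ Finset.powersetCard m G.I, ∀ v ∈ G.pos J,
        ∀ y ∈ closedBall (0 : J → ℝ) (8 * G.M * G.s),
          ‖(u (G.sq b J v y) - G.A (G.sq b J v y)) - (u (G.sq b J v 0) - G.A (G.sq b J v 0))‖ ≤
            δ * G.s := by
  choose C hC hmor using fun J : {J : Finset (Ix m) // J.card = m} =>
    mor (F := V m) J.1 (p := p) (by rw [Fintype.card_coe, J.2]; exact hp) hp1
  obtain ⟨c, c0, hc⟩ : ∃ c : ℝ, 0 < c ∧ ∀ J, C J ≤ ENNReal.ofReal c := by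
    refine ⟨(∑ J, C J).toReal + 1, by positivity, fun J => ?_⟩
    refine le_trans ?_ (ENNReal.ofReal_le_ofReal (le_add_of_nonneg_right zero_le_one))
    rw [ENNReal.ofReal_toReal (ENNReal.sum_ne_top.2 fun J _ => hC J)]
    exact Finset.single_le_sum (fun _ _ => zero_le) (Finset.mem_univ J)
  have hM' : (0 : ℝ) < 8 * M := by positivity
  have hp0 : 0 < p := one_pos.trans_le hp1
  refine ⟨δ ^ p / (c * (8 * M) ^ (p - m)), by positivity,
    fun G e hs u hu b hE J hJ v hv y hy => ?_⟩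
  have hS : 0 < 8 * (G.M : ℝ) * G.s := by
    rw [e]
    positivity
  have hcd := (Finset.mem_powersetCard.1 hJ).2
  have hsq : ∀ z, HasFDerivAt (G.sq b J v) (emb J) z := fun z =>
    (emb J).hasFDerivAt.const_add _
  have hsq' : ContDiff ℝ 1 (G.sq b J v) := contDiff_const.add (emb J).contDiff
  have h1 := hmor ⟨J, hcd⟩ (fun y => u (G.sq b J v y) - G.A (G.sq b J v y))
    ((hu.sub G.A.contDiff).comp hsq') 0 _ hS y hy 0 (mem_closedBall_self hS.le)
  have h2 : ∫⁻ z in closedBall (0 : J → ℝ) (8 * G.M * G.s),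
      ‖fderiv ℝ (fun y => u (G.sq b J v y) - G.A (G.sq b J v y)) z‖ₑ ^ p ≤
        ENNReal.ofReal (δ ^ p / (c * (8 * M) ^ (p - m)) * G.s ^ m) := by
    refine le_trans ?_ hE
    refine le_trans (le_trans (lintegral_mono fun z => ?_) (Finset.single_le_sum
      (f := fun v => ∫⁻ y in closedBall (0 : J → ℝ) (8 * G.M * G.s),
        ‖fderiv ℝ u (G.sq b J v y) - G.A‖ₑ ^ p) (fun _ _ => zero_le) hv))
      (Finset.single_le_sum (f := fun J => ∑ v ∈ G.pos J,
        ∫⁻ y in closedBall (0 : J → ℝ) (8 * G.M * G.s), ‖fderiv ℝ u (G.sq b J v y) - G.A‖ₑ ^ p)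
        (fun _ _ => zero_le) hJ)
    have h3 := (((hu.differentiable one_ne_zero _).hasFDerivAt.sub G.A.hasFDerivAt).comp z
      (hsq z)).fderiv
    refine ENNReal.rpow_le_rpow ?_ hp0.le
    rw [show fderiv ℝ (fun y => u (G.sq b J v y) - G.A (G.sq b J v y)) z = _ from h3,
      ← ofReal_norm, ← ofReal_norm]
    exact ENNReal.ofReal_le_ofReal ((ContinuousLinearMap.opNorm_comp_le _ _).trans
      (mul_le_of_le_one_right (norm_nonneg _) (BPt_emb J)))
  have h3 := h1.trans (mul_le_mul' (mul_le_mul' (hc _) le_rfl) h2)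
  have h4 : c * (8 * G.M * G.s) ^ (p - m) * (δ ^ p / (c * (8 * M) ^ (p - m)) * G.s ^ m) =
      (δ * G.s) ^ p := by
    rw [e, Real.mul_rpow hM'.le hs.le, Real.mul_rpow hδ.le hs.le, Real.rpow_sub hs,
      Real.rpow_natCast]
    have := Real.rpow_pos_of_pos hM' (p - m)
    field_simp
  rw [Fintype.card_coe, hcd, ← ENNReal.ofReal_mul c0.le, ← ENNReal.ofReal_mul (by positivity), h4,
    ← ENNReal.ofReal_rpow_of_nonneg (by positivity) hp0.le, ENNReal.rpow_le_rpow_iff hp0,
    ← ofReal_norm, ENNReal.ofReal_le_ofReal_iff (by positivity)] at h3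
  exact h3

theorem ASa_walk (hm : 1 ≤ m) {G : Gr m} (hs : 0 < G.s) (hI : m ≤ G.I.card) {g : V m → V m}
    {d : ℝ} {b : Ix m → ℤ} (H : ∀ J ∈ Finset.powersetCard m G.I, ∀ v ∈ G.pos J,
      ∀ y ∈ closedBall (0 : J → ℝ) (8 * G.M * G.s), ‖g (G.sq b J v y) - g (G.sq b J v 0)‖ ≤ d)
    (S : Finset (Ix m)) : S ⊆ G.I → ∀ v : Ix m → ℤ,
      (∀ l, v l ∈ Finset.Icc (-(8 * G.M : ℤ)) (8 * G.M)) → (∀ l, l ∉ S → v l = 0) →
      ‖g (G.cb b + G.s • fun l => (v l : ℝ)) - g (G.cb b)‖ ≤ S.card * d := by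
  induction S using Finset.induction_on with
  | empty =>
    intro _ v _ h
    have h1 : (fun l => (v l : ℝ)) = 0 := funext fun l => by simp [h l]
    simp [h1]
  | insert a S ha ih =>
    intro hS v h1 h2
    obtain ⟨J, j1, j2, j3⟩ := Finset.exists_subsuperset_card_eq
      (Finset.singleton_subset_iff.2 (hS (Finset.mem_insert_self a S)))
      (by rw [Finset.card_singleton]; exact hm) hI
    have h3 := ih ((Finset.subset_insert a S).trans hS) (fun l => if l ∈ J then 0 else v l)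
      (fun l => by
        split_ifs
        · simp
        · exact h1 l)
      (fun l hl => by
        split_ifs with h
        · rfl
        · exact h2 l fun k => (Finset.mem_insert.1 k).elim
            (fun k => h (k ▸ j1 (Finset.mem_singleton_self a))) hl)
    have h4 := H J (Finset.mem_powersetCard.2 ⟨j2, j3⟩) (fun l => if l ∈ J then 0 else v l)
      (Fintype.mem_piFinset.2 fun l => by
        by_cases h : l ∈ J
        · simp [h]
        · by_cases h' : l ∈ G.I
          · simpa [h, h'] using h1 l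
          · simp [h, h', h2 l fun k => h' (hS k)])
      (fun l => G.s * v l) (by
        rw [mem_closedBall_zero_iff, pi_norm_le_iff_of_nonneg (by positivity)]
        intro l
        have h5 : |(v l : ℝ)| ≤ 8 * G.M := by
          exact_mod_cast abs_le.2 (Finset.mem_Icc.1 (h1 l))
        rw [Real.norm_eq_abs, abs_mul, abs_of_pos hs, mul_comm]
        exact mul_le_mul_of_nonneg_right h5 hs.le)
    have h5 : G.sq b J (fun l => if l ∈ J then 0 else v l) (fun l => G.s * v l) =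
        G.cb b + G.s • fun l => (v l : ℝ) := funext fun l => by
      by_cases h : l ∈ J <;> simp [Gr.sq, Gr.ASl0_emb, h]
    rw [h5, ASa_zero] at h4
    rw [Finset.card_insert_of_notMem ha]
    push_cast
    linarith only [h3, h4, norm_sub_le_norm_sub_add_norm_sub (g (G.cb b + G.s • fun l => (v l : ℝ)))
      (g (G.cb b + G.s • fun l => ((if l ∈ J then 0 else v l : ℤ) : ℝ))) (g (G.cb b))]

theorem skel_close (hm : 1 ≤ m) {p : ℝ} (hp : (m : ℝ) < p) {T : Typ m} (hT : T.Ok) :
    ∃ k0 : ℝ, 0 < k0 ∧ ∀ G : Gr m, G.toTyp = T → G.Ok → m ≤ G.I.card → ∀ u : V m → V m,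
      ContDiff ℝ 1 u → ∀ b : Ix m → ℤ,
      G.esk (fun y => ‖fderiv ℝ u y - G.A‖ₑ ^ p) b ≤ ENNReal.ofReal (k0 * G.s ^ m) →
      ∀ x ∈ (G.box u b).fine G.s ∩ (G.box u b).Q G.s 56,
        ‖u x - (G.box u b).aff x‖ ≤ G.ε / 2 := by
  have hm' : (1 : ℝ) ≤ m := by exact_mod_cast hm
  have hσ := hT.σ0
  obtain ⟨k0, k1, hk⟩ := ASa_sq hp (hm'.trans hp.le) (M := T.M) (by have := hT.M9; omega)
    (δ := T.σ / (2000 * (2 * m + 2))) (by positivity)
  refine ⟨k0, k1, fun G e hG hI u hu b hE x hx => ?_⟩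
  subst e
  have hs := hG.s0
  have H := hk G rfl hs u hu b hE
  obtain ⟨J, hJ, v, hv, y, hy, rfl⟩ := Gr.mem_sq u hG hI hx
  have h0 := Fintype.mem_piFinset.1 hv
  have h1 := H J hJ v hv y hy
  have h2 := ASa_walk hm hs hI (g := fun x => u x - G.A x) H G.I subset_rfl v
    (fun l => by
      have h3 := h0 l
      split_ifs at h3
      · exact h3
      · simp [Finset.mem_singleton.1 h3])
    (fun l hl => by simpa [hl] using h0 l)
  have h3 : (G.I.card : ℝ) ≤ 2 * m + 1 := by
    exact_mod_cast (Finset.card_le_univ G.I).trans_eq (Fintype.card_fin _)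
  have h4 : u (G.sq b J v y) - (G.box u b).aff (G.sq b J v y) =
      (u (G.sq b J v y) - G.A (G.sq b J v y)) - (u (G.cb b) - G.A (G.cb b)) := by
    simp only [Box.aff, Gr.box, map_sub]
    abel
  have h5 : G.ε / 2 = (2 * m + 1 + 1) * (G.σ / (2000 * (2 * m + 2)) * G.s) := by
    rw [Gr.ε]
    field_simp
    ring
  rw [ASa_zero] at h1
  rw [h4, h5, add_mul _ 1, one_mul]
  exact (norm_sub_le_norm_sub_add_norm_sub _ _ _).trans ((add_le_add h1
    (h2.trans (mul_le_mul_of_nonneg_right h3 (by positivity)))).trans_eq (add_comm _ _))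

end BEp
end
end

-- merged part: Pool.Agent.Work.MP_f0515e_an.Pos.BCov
section
/-! TASK BCov. Covering the image of a cube by few small sets.
Plan. With C0 from morrey and d = card kappa, choose C with 2 ^ d (1 + stuff) absorbing the geometric series of ratio 2 ^ (d - q) < 1. Induction on the depth J: claim (J): for every cube of radius rho such that all
subcubes of radius rho 2 ^ (-J) have oscillation <= r, there is Y with card Y <= max 1 (C rho ^ (q - d) E / r ^ q), E the energy of the cube. If the oscillation on the cube is <= r take one point. Otherwise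
r ^ q <= C0 rho ^ (q - d) E, split into 2 ^ d subcubes (a.e. disjoint, energies add up to E): card <= 2 ^ d + C (rho/2) ^ (q - d) E / r ^ q <= (2 ^ d C0 + C 2 ^ (d - q)) rho ^ (q - d) E / r ^ q, so C (1 - 2 ^ (d - q)) >= 2 ^ d C0 suffices.
Uniform continuity gives a J. -/

open Set Metric Filter Topology Function BEv MeasureTheory
open scoped NNReal ENNReal ContDiff

noncomputable section
namespace BEp

/-- Centres of the subcubes. -/
def BCov_c {κ : Type} (a : κ → ℝ) (ρ : ℝ) (σ : κ → Bool) : κ → ℝ :=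
  fun i => if σ i then a i + ρ / 2 else a i - ρ / 2

theorem BCov_mem {κ : Type} [Fintype κ] {a x : κ → ℝ} {ρ : ℝ} (hρ : 0 ≤ ρ) :
    x ∈ closedBall a ρ ↔ ∀ i, a i - ρ ≤ x i ∧ x i ≤ a i + ρ := by
  rw [closedBall_pi _ hρ]
  simp [Real.closedBall_eq_Icc, Pi.le_def, forall_and]

theorem BCov_sub {κ : Type} [Fintype κ] (a : κ → ℝ) {ρ : ℝ} (hρ : 0 < ρ) (σ : κ → Bool) :
    closedBall (BCov_c a ρ σ) (ρ / 2) ⊆ closedBall a ρ := by
  intro x hx
  rw [BCov_mem (by positivity)] at hx ⊢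
  intro i
  have := hx i
  unfold BCov_c at this
  split_ifs at this <;> constructor <;> linarith only [hρ, this, this.1, this.2]

theorem BCov_cov {κ : Type} [Fintype κ] {a x : κ → ℝ} {ρ : ℝ} (hρ : 0 < ρ)
    (hx : x ∈ closedBall a ρ) : ∃ σ, x ∈ closedBall (BCov_c a ρ σ) (ρ / 2) := by
  refine ⟨fun i => decide (a i ≤ x i), ?_⟩
  rw [BCov_mem (by positivity)] at hx ⊢
  intro i
  have := hx i
  simp only [BCov_c, decide_eq_true_eq]
  split_ifs <;> constructor <;> linarith [this.1, this.2]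

theorem BCov_sum {κ : Type} [Fintype κ] [DecidableEq κ] {f : (κ → ℝ) → ℝ} (hf : Continuous f)
    (a : κ → ℝ) {ρ : ℝ} (hρ : 0 < ρ) :
    ∑ σ, ∫ z in closedBall (BCov_c a ρ σ) (ρ / 2), f z = ∫ z in closedBall a ρ, f z := by
  have e : ⋃ σ, closedBall (BCov_c a ρ σ) (ρ / 2) = closedBall a ρ :=
    Subset.antisymm (iUnion_subset (BCov_sub a hρ)) fun x hx => mem_iUnion.2 (BCov_cov hρ hx)
  have := hasSum_integral_iUnion_ae (μ := volume) (f := f)
    (s := fun σ => closedBall (BCov_c a ρ σ) (ρ / 2))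
    (fun σ => isClosed_closedBall.measurableSet.nullMeasurableSet) (fun σ τ h => ?_)
    (by
      rw [e]
      exact hf.continuousOn.integrableOn_compact (isCompact_closedBall a ρ))
  · rw [e] at this
    exact (hasSum_fintype _).unique this
  obtain ⟨i, hi⟩ := Function.ne_iff.1 h
  refine measure_mono_null (fun x hx => ?_) (Measure.pi_hyperplane (fun _ => volume) i (a i))
  have h1 := (BCov_mem (by positivity)).1 hx.1 i
  have h2 := (BCov_mem (by positivity)).1 hx.2 i
  unfold BCov_c at h1 h2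
  change x i = a i
  cases h3 : σ i <;> cases h4 : τ i <;> simp only [h3, h4] at hi h1 h2
  · exact absurd rfl hi
  · simp only [Bool.false_eq_true, if_true, if_false] at h1 h2
    linarith only [h2, h1, h1.2, h2.1]
  · simp only [Bool.false_eq_true, if_true, if_false] at h1 h2
    linarith only [h1, h2, h1.1, h2.2]
  · exact absurd rfl hi

theorem cover_count {F : Type} [NormedAddCommGroup F] [NormedSpace ℝ F] [CompleteSpace F]
    (κ : Type) [Fintype κ] {q : ℝ} (hq : (Fintype.card κ : ℝ) < q) (hq1 : 1 ≤ q) :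
    ∃ C : ℝ, 0 < C ∧ ∀ (u : (κ → ℝ) → F), ContDiff ℝ 1 u → ∀ (a : κ → ℝ) (ρ r : ℝ), 0 < ρ →
      0 < r → ∃ Y : Finset (κ → ℝ), (∀ y ∈ Y, y ∈ closedBall a ρ) ∧
        (∀ x ∈ closedBall a ρ, ∃ y ∈ Y, ‖u x - u y‖ ≤ r) ∧ (Y.card : ℝ) ≤ 1 +
          C * ρ ^ (q - Fintype.card κ) * (∫ z in closedBall a ρ, ‖fderiv ℝ u z‖ ^ q) / r ^ q := by
  classical
  obtain ⟨C0, hC0, hM⟩ := morrey (F := F) κ hq hq1
  obtain ⟨θ, hθ⟩ : ∃ θ : ℝ, θ = (1 / 2) ^ (q - Fintype.card κ) := ⟨_, rfl⟩
  have hθ1 : θ < 1 := by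
    rw [hθ]
    exact Real.rpow_lt_one (by norm_num) (by norm_num) (by linarith)
  have hθ2 : 0 < 1 - θ := sub_pos.2 hθ1
  obtain ⟨C, hC, hC'⟩ : ∃ C : ℝ, 0 < C ∧ C * (1 - θ) = 2 ^ Fintype.card κ * C0 :=
    ⟨2 ^ Fintype.card κ * C0 / (1 - θ), by positivity, div_mul_cancel₀ _ hθ2.ne'⟩
  refine ⟨C, hC, fun u hu a ρ r hρ hr => ?_⟩
  have hf : Continuous fun z => ‖fderiv ℝ u z‖ ^ q :=
    (hu.continuous_fderiv one_ne_zero).norm.rpow_const fun _ => Or.inr (by linarith)
  have hE : ∀ a ρ, 0 ≤ ∫ z in closedBall a ρ, ‖fderiv ℝ u z‖ ^ q := fun a ρ =>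
    integral_nonneg fun z => by positivity
  have one : ∀ (a : κ → ℝ) (ρ : ℝ), 0 < ρ → (∀ x ∈ closedBall a ρ, ‖u x - u a‖ ≤ r) →
      ∃ Y : Finset (κ → ℝ), (∀ y ∈ Y, y ∈ closedBall a ρ) ∧
        (∀ x ∈ closedBall a ρ, ∃ y ∈ Y, ‖u x - u y‖ ≤ r) ∧ (Y.card : ℝ) ≤ 1 +
          C * ρ ^ (q - Fintype.card κ) * (∫ z in closedBall a ρ, ‖fderiv ℝ u z‖ ^ q) / r ^ q := by
    intro a ρ hρ h
    refine ⟨{a}, fun y hy => ?_, fun x hx => ⟨a, Finset.mem_singleton_self a, h x hx⟩, ?_⟩
    · rw [Finset.mem_singleton.1 hy]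
      exact mem_closedBall_self hρ.le
    · have := hE a ρ
      rw [Finset.card_singleton, Nat.cast_one, le_add_iff_nonneg_right]
      positivity
  obtain ⟨δ, hδ, hδ'⟩ := Metric.uniformContinuousOn_iff.1
    ((isCompact_closedBall a ρ).uniformContinuousOn_of_continuous hu.continuous.continuousOn) r hr
  obtain ⟨J, hJ⟩ := exists_pow_lt_of_lt_one (div_pos hδ hρ) (show (1 / 2 : ℝ) < 1 by norm_num)
  have h : ∀ x ∈ closedBall a ρ, ∀ y ∈ closedBall a ρ, dist x y ≤ (1 / 2) ^ J * ρ →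
      ‖u x - u y‖ ≤ r := fun x hx y hy h => by
    rw [← dist_eq_norm]
    exact (hδ' x hx y hy (h.trans_lt ((lt_div_iff₀ hρ).1 hJ))).le
  clear hJ hδ'
  induction J generalizing a ρ with
  | zero => exact one a ρ hρ fun x hx => h x hx a (mem_closedBall_self hρ.le) (by simpa using hx)
  | succ J ih =>
    by_cases h1 : ∀ x ∈ closedBall a ρ, ‖u x - u a‖ ≤ r
    · exact one a ρ hρ h1
    push Not at h1
    obtain ⟨x, hx, h1⟩ := h1
    have h2 := (Real.rpow_le_rpow hr.le h1.le (by linarith : 0 ≤ q)).trans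
      (hM u hu a ρ hρ x hx a (mem_closedBall_self hρ.le))
    choose Y y1 y2 y3 using fun σ : κ → Bool => ih (BCov_c a ρ σ) (ρ / 2) (half_pos hρ)
      fun x hx y hy hxy => h x (BCov_sub a hρ σ hx) y (BCov_sub a hρ σ hy)
        (hxy.trans_eq (by ring))
    refine ⟨Finset.univ.biUnion Y, fun y hy => ?_, fun x hx => ?_, ?_⟩
    · obtain ⟨σ, -, hσ⟩ := Finset.mem_biUnion.1 hy
      exact BCov_sub a hρ σ (y1 σ y hσ)
    · obtain ⟨σ, hσ⟩ := BCov_cov hρ hx
      obtain ⟨y, hy, hy'⟩ := y2 σ x hσ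
      exact ⟨y, Finset.mem_biUnion.2 ⟨σ, Finset.mem_univ _, hy⟩, hy'⟩
    have h3 : ((Finset.univ.biUnion Y).card : ℝ) ≤ ∑ σ, ((Y σ).card : ℝ) := by
      exact_mod_cast Finset.card_biUnion_le
    refine (h3.trans (Finset.sum_le_sum fun σ _ => y3 σ)).trans ?_
    have h4 : (ρ / 2) ^ (q - Fintype.card κ) = θ * ρ ^ (q - Fintype.card κ) := by
      rw [hθ, ← Real.mul_rpow (by norm_num) hρ.le]
      congr 1
      ring
    rw [Finset.sum_add_distrib, ← Finset.sum_div, ← Finset.mul_sum, BCov_sum hf a hρ, h4]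
    simp only [Finset.sum_const, Finset.card_univ, Fintype.card_fun, Fintype.card_bool,
      nsmul_eq_mul, mul_one, Nat.cast_pow, Nat.cast_ofNat]
    have h5 : 0 < r ^ q := by positivity
    rw [← one_le_div h5] at h2
    generalize ∫ z in closedBall a ρ, ‖fderiv ℝ u z‖ ^ q = E at h2 ⊢
    generalize ρ ^ (q - Fintype.card κ) = s at h2 ⊢
    have h6 := mul_le_mul_of_nonneg_left h2 (show (0 : ℝ) ≤ 2 ^ Fintype.card κ by positivity)
    have h7 : 2 ^ Fintype.card κ * (C0 * s * E / r ^ q) =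
        C * s * E / r ^ q - C * (θ * s) * E / r ^ q := by
      rw [mul_assoc C0, mul_div_assoc, ← mul_assoc, ← hC']
      ring
    linarith only [h6, h7]

end BEp
end
end
end

-- merged part: Pool.Agent.Work.MP_f0515e_an.Pos.ASb
section
-- merged part: Pool.Agent.Work.MP_f0515e_an.Pos.AAe
section
/-! TASK AAe. Almost everywhere identities for derivatives, averaging lemmas.
Plan. Use ae_fderiv_eq (BX4) and LipschitzWith.ae_differentiableAt. ae_bound: D(G T) = D(g T), D(A T) = D(A R) = A DR a.e. on the agreement sets, and x -> g (T x) - A (T x) has the local bound c w (LL.comp).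
av: lintegral_lintegral_swap and translation invariance. exists_freq: otherwise liminf >= 2 c on B, lintegral_liminf_le. The last two: compare w with the threshold pointwise. -/

open Set Metric Filter Topology Function BEv MeasureTheory
open scoped NNReal ENNReal

noncomputable section
namespace BEp

variable {m : ℕ}

theorem ll_norm_fderiv_le {E F : Type} [NormedAddCommGroup E] [NormedSpace ℝ E]
    [NormedAddCommGroup F] [NormedSpace ℝ F] {f : E → F} {x : E} {c : ℝ} (h : LL f x c)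
    (hc : 0 ≤ c) : ‖fderiv ℝ f x‖ ≤ c :=
  norm_fderiv_le_of_lip' ℝ hc
    (((continuous_id.prodMk continuous_const).tendsto' x (x, x) rfl).eventually h)

theorem ae_bound {G g T R : V m → V m} (hG : ∃ L : ℝ≥0, LipschitzWith L G)
    (hg : ∃ L : ℝ≥0, LipschitzWith L g) (hT : ∃ L : ℝ≥0, LipschitzWith L T)
    (hR : ∃ L : ℝ≥0, LipschitzWith L R) (A : V m →L[ℝ] V m) :
    ∀ᵐ z, G (T z) = g (T z) → A (T z) = A (R z) → ∀ c w : ℝ, 0 ≤ c → 0 ≤ w →
      LL (fun x => g x - A x) (T z) c → LL T z w →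
      ‖fderiv ℝ (fun x => G (T x)) z - A.comp (fderiv ℝ R z)‖ ≤ c * w := by
  obtain ⟨_, hG⟩ := hG
  obtain ⟨_, hg⟩ := hg
  obtain ⟨_, hT⟩ := hT
  obtain ⟨_, hR⟩ := hR
  filter_upwards [ae_fderiv_eq (hG.comp hT) (hg.comp hT),
    ae_fderiv_eq (A.lipschitz.comp hT) (A.lipschitz.comp hR), (hg.comp hT).ae_differentiableAt,
    (A.lipschitz.comp hT).ae_differentiableAt, hR.ae_differentiableAt]
    with z e1 e2 d1 d2 d3 h1 h2 c w hc hw l1 l2
  have k := ll_norm_fderiv_le (l1.comp l2 hc) (mul_nonneg hc hw)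
  have e3 : fderiv ℝ (A ∘ R) z = A.comp (fderiv ℝ R z) :=
    (A.hasFDerivAt.comp z d3.hasFDerivAt).fderiv
  rw [← e3, ← e2 h2, show fderiv ℝ (fun x => G (T x)) z = _ from e1 h1, ← fderiv_sub d1 d2]
  exact k

theorem AAe_meas {Y : Type} [MeasurableSpace Y] {τ : Y → V m} (hτ : Measurable τ)
    {w : Y → ℝ≥0∞} (hw : Measurable w) {Φ : V m → ℝ≥0∞} (hΦ : Measurable Φ) :
    Measurable (uncurry fun (t : V m) (y : Y) => Φ (τ y + t) * w y) :=
  (hΦ.comp ((hτ.comp measurable_snd).add measurable_fst)).mul (hw.comp measurable_snd)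

theorem av_meas {Y : Type} [MeasurableSpace Y] (ν : Measure Y) [SFinite ν] {τ : Y → V m}
    (hτ : Measurable τ) {w : Y → ℝ≥0∞} (hw : Measurable w) {Φ : V m → ℝ≥0∞} (hΦ : Measurable Φ)
    (E : Set Y) : Measurable fun t : V m => ∫⁻ y in E, Φ (τ y + t) * w y ∂ν :=
  (AAe_meas hτ hw hΦ).lintegral_prod_right

theorem av {Y : Type} [MeasurableSpace Y] (ν : Measure Y) [SFinite ν] {τ : Y → V m}
    (hτ : Measurable τ) {w : Y → ℝ≥0∞} (hw : Measurable w) {Φ : V m → ℝ≥0∞} (hΦ : Measurable Φ)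
    {B U : Set (V m)} (hB : MeasurableSet B) {E : Set Y} (hE : MeasurableSet E)
    (h : ∀ y ∈ E, ∀ t ∈ B, τ y + t ∈ U) :
    ∫⁻ t in B, ∫⁻ y in E, Φ (τ y + t) * w y ∂ν ≤ (∫⁻ y in E, w y ∂ν) * ∫⁻ x in U, Φ x := by
  rw [lintegral_lintegral_swap (AAe_meas hτ hw hΦ).aemeasurable, ← lintegral_mul_const _ hw]
  refine setLIntegral_mono' hE fun y hy => ?_
  rw [lintegral_mul_const _ (f := fun t => Φ (τ y + t)) (hΦ.comp (measurable_const_add _)), mul_comm,
    (measurePreserving_add_left volume (τ y)).setLIntegral_comp_emb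
      (measurableEmbedding_addLeft _)]
  exact mul_le_mul_right (lintegral_mono_set (image_subset_iff.2 (h y hy))) _

theorem exists_freq {E : ℕ → V m → ℝ≥0∞} (hE : ∀ j, Measurable (E j)) {B : Set (V m)}
    (hB : MeasurableSet B) (h0 : volume B ≠ 0) (h1 : volume B ≠ ⊤) {c : ℝ≥0∞} (hc : c ≠ 0)
    (hc' : c ≠ ⊤) (h : ∀ᶠ j in atTop, ∫⁻ t in B, E j t ≤ c * volume B) :
    ∃ t ∈ B, ∃ᶠ j in atTop, E j t ≤ 2 * c := by
  by_contra hn
  have h2 : ∀ t ∈ B, 2 * c ≤ liminf (fun j => E j t) atTop := fun t ht =>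
    le_liminf_of_le (h := (not_frequently.1 fun k => hn ⟨t, ht, k⟩).mono fun j hj => le_of_not_ge hj)
  have h3 := ((setLIntegral_mono' hB h2).trans (lintegral_liminf_le hE)).trans
    (liminf_le_of_frequently_le' h.frequently)
  rw [setLIntegral_const, mul_assoc, two_mul] at h3
  exact (ENNReal.lt_add_right (ENNReal.mul_ne_top hc' h1) (mul_ne_zero hc h0)).not_ge h3

theorem freq_pigeon {α : Type} {S : Set α} (hS : S.Finite) {P : ℕ → α → Prop}
    (h : ∃ᶠ j in atTop, ∃ k ∈ S, P j k) : ∃ k ∈ S, ∃ᶠ j in atTop, P j k :=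
  (frequently_exists_finite hS).1 h

theorem lintegral_rpow_le {w : V m → ℝ≥0∞} (hw : Measurable w) {th p r : ℝ} (hth : 0 < th)
    (hp : 0 ≤ p) (hr : p ≤ r) {E Q : Set (V m)} (hE : E ⊆ Q) :
    ∫⁻ z in E, w z ^ p ≤
      ENNReal.ofReal th ^ p * volume E + ENNReal.ofReal th ^ (p - r) * ∫⁻ z in Q, w z ^ r := by
  have h0 : ENNReal.ofReal th ≠ 0 := (ENNReal.ofReal_pos.2 hth).ne'
  have k : ∀ z, w z ^ p ≤ ENNReal.ofReal th ^ p + ENNReal.ofReal th ^ (p - r) * w z ^ r := fun z => by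
    rcases le_total (w z) (ENNReal.ofReal th) with h | h
    · exact (ENNReal.rpow_le_rpow h hp).trans le_self_add
    · refine le_trans ?_ le_add_self
      have e : w z ^ r = w z ^ (r - p) * w z ^ p := by
        rw [← ENNReal.rpow_add_of_nonneg _ _ (sub_nonneg.2 hr) hp, sub_add_cancel]
      rw [e, ← mul_assoc]
      refine le_mul_of_one_le_left zero_le ?_
      refine le_trans (le_of_eq ?_) (mul_le_mul_right (ENNReal.rpow_le_rpow h (sub_nonneg.2 hr)) _)
      rw [← ENNReal.rpow_add _ _ h0 ENNReal.ofReal_ne_top, sub_add_sub_cancel, sub_self,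
        ENNReal.rpow_zero]
  refine (lintegral_mono k).trans ?_
  rw [lintegral_add_left measurable_const, setLIntegral_const,
    lintegral_const_mul _ (hw.pow_const r)]
  exact add_le_add_right (mul_le_mul_right (lintegral_mono_set hE) _) _

theorem tail_tendsto {w : V m → ℝ≥0∞} (hw : Measurable w) {p r : ℝ} (hp : 0 < p) (hr : p < r)
    {Q : Set (V m)} (hQ : ∫⁻ z in Q, w z ^ r ≠ ⊤) {c : ℝ≥0∞} (hc : c ≠ ⊤) :
    Tendsto (fun K : ℕ => ∫⁻ z in Q, indicator {y | (2 : ℝ≥0∞) ^ K ≤ w y} (fun y => c * w y) z ^ p)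
      atTop (𝓝 0) := by
  have h := tendsto_lintegral_of_dominated_convergence (μ := volume.restrict Q)
    (F := fun (K : ℕ) z => indicator {y | (2 : ℝ≥0∞) ^ K ≤ w y} (fun y => c * w y) z ^ p)
    (f := fun _ => 0) (fun z => c ^ p * w z ^ r)
    (fun K => ((hw.const_mul c).indicator (measurableSet_le measurable_const hw)).pow_const p)
    (fun K => Eventually.of_forall fun z => ?_) ?_ ?_
  · rwa [lintegral_zero] at h
  · by_cases hz : z ∈ {y | (2 : ℝ≥0∞) ^ K ≤ w y}
    · simp only [indicator_of_mem hz, ENNReal.mul_rpow_of_nonneg _ _ hp.le]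
      exact mul_le_mul_right
        (ENNReal.rpow_le_rpow_of_exponent_le ((one_le_pow₀ one_le_two).trans hz) hr.le) _
    · simp only [indicator_of_notMem hz, ENNReal.zero_rpow_of_pos hp]
      exact zero_le
  · rw [lintegral_const_mul _ (hw.pow_const r)]
    exact ENNReal.mul_ne_top (ENNReal.rpow_ne_top_of_nonneg hp.le hc) hQ
  · filter_upwards [ae_lt_top (hw.pow_const r) hQ] with z hz
    have h1 : w z < ⊤ := lt_top_iff_ne_top.2 fun e => by
      rw [e, ENNReal.top_rpow_of_pos (hp.trans hr)] at hz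
      exact hz.false
    refine tendsto_const_nhds.congr' ?_
    filter_upwards [(ENNReal.tendsto_pow_atTop_nhds_top_iff.2 ENNReal.one_lt_two).eventually
      (lt_mem_nhds h1)] with K hK
    rw [indicator_of_notMem (show z ∉ {y | (2 : ℝ≥0∞) ^ K ≤ w y} from hK.not_ge),
      ENNReal.zero_rpow_of_pos hp]

end BEp
end
end

-- merged part: Pool.Agent.Work.MP_f0515e_an.Pos.BMax
section
/-! TASK BMax. Weak type estimate for the maximal function along a coordinate subspace.
Plan. isOpen: for fixed rho the integral is continuous in z (continuous_parametric_integral_of_continuous on the compact ball). weak_slice: in kappa -> R, the set of y in closedBall a R having a radius rho <= rho0 with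
integral over closedBall y rho > lam (2 rho) ^ k; Vitali.exists_disjoint_subfamily_covering_enlargement_closedBall; volume of a closed ball of radius 5 rho is (10 rho) ^ k. Then Fubini along
MeasurableEquiv.piEquivPiSubtypeProd (volume_preserving_piEquivPiSubtypeProd) with the predicate l in I. -/

open Set Metric Filter Topology Function BEv MeasureTheory
open scoped NNReal ENNReal ContDiff

noncomputable section
namespace BEp

variable {n : ℕ}

theorem BMax_slice {κ : Type} [Fintype κ] (ψ : (κ → ℝ) → ℝ≥0∞) (ρ0 : ℝ) (lam : ℝ≥0∞)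
    (S : Set (κ → ℝ)) (hS : ∀ y ∈ S, ∃ ρ ∈ Ioc 0 ρ0,
      lam * ENNReal.ofReal ((2 * ρ) ^ Fintype.card κ) ≤ ∫⁻ x in closedBall 0 ρ, ψ (y + x)) :
    lam * volume S ≤ 5 ^ Fintype.card κ * ∫⁻ x, ψ x := by
  choose! r hr h using hS
  obtain ⟨u, hu, hd, hc⟩ := Vitali.exists_disjoint_subfamily_covering_enlargement_closedBall
    S id r ρ0 (fun y hy => (hr y hy).2) 5 (by norm_num)
  have hcount : u.Countable := hd.countable_of_nonempty_interior fun y hy =>
    ⟨y, ball_subset_interior_closedBall (mem_ball_self (hr y (hu hy)).1)⟩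
  have h1 : S ⊆ ⋃ b ∈ u, closedBall b (5 * r b) := fun y hy => by
    obtain ⟨b, hb, e⟩ := hc y hy
    exact mem_biUnion hb (e (mem_closedBall_self (hr y hy).1.le))
  have h2 : ∀ b : u, lam * volume (closedBall b.1 (5 * r b)) ≤
      5 ^ Fintype.card κ * ∫⁻ x in closedBall b.1 (r b), ψ x := by
    rintro ⟨b, hb⟩
    have h0 := (hr b (hu hb)).1
    have e := (measurePreserving_add_left volume b).setLIntegral_comp_preimage_emb
      (measurableEmbedding_addLeft b) ψ (closedBall b (r b))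
    have e' : (fun x => b + x) ⁻¹' closedBall b (r b) = closedBall 0 (r b) := by
      ext x
      simp [dist_eq_norm]
    rw [e'] at e
    rw [← e, Real.volume_pi_closedBall _ (by positivity),
      show 2 * (5 * r b) = 5 * (2 * r b) by ring, mul_pow, ENNReal.ofReal_mul (by positivity),
      mul_left_comm, ENNReal.ofReal_pow (by norm_num), ENNReal.ofReal_ofNat]
    exact mul_le_mul_right (h b (hu hb)) _
  calc lam * volume S ≤ lam * ∑' b : u, volume (closedBall b.1 (5 * r b)) :=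
        mul_le_mul_right ((measure_mono h1).trans (measure_biUnion_le _ hcount _)) _
    _ ≤ 5 ^ Fintype.card κ * ∑' b : u, ∫⁻ x in closedBall b.1 (r b), ψ x := by
        rw [← ENNReal.tsum_mul_left, ← ENNReal.tsum_mul_left]
        exact ENNReal.tsum_le_tsum h2
    _ ≤ _ := by
        refine mul_le_mul_right ?_ _
        exact (lintegral_biUnion hcount (fun _ _ => measurableSet_closedBall) hd ψ).ge.trans
          (setLIntegral_le_lintegral _ _)

theorem BMax_emb (I : Finset (Fin n)) (y : I → ℝ) : ‖emb I y‖ ≤ ‖y‖ := by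
  refine (pi_norm_le_iff_of_nonneg (norm_nonneg y)).2 fun l => ?_
  simp only [emb, ContinuousLinearMap.pi_apply]
  split_ifs with h
  · exact norm_le_pi_norm y ⟨l, h⟩
  · simp

/-- gluing the coordinates in `I` and the other ones -/
def BMax_j (I : Finset (Fin n)) (p : (I → ℝ) × ({l // l ∉ I} → ℝ)) : Fin n → ℝ :=
  (MeasurableEquiv.piEquivPiSubtypeProd (fun _ : Fin n => ℝ) (· ∈ I)).symm p

theorem BMax_mp (I : Finset (Fin n)) :
    MeasurePreserving (BMax_j I) ((volume : Measure (I → ℝ)).prod volume) volume := by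
  have h := (volume_preserving_piEquivPiSubtypeProd (fun _ : Fin n => ℝ) (· ∈ I)).symm
  rw [Measure.volume_eq_prod] at h
  refine ⟨h.1, ?_⟩
  have h2 := h.2
  unfold BMax_j
  convert h2 using 4
  all_goals first | rfl | congr 1 <;> exact Subsingleton.elim _ _

theorem BMax_add (I : Finset (Fin n)) (y y' : I → ℝ) (w : {l // l ∉ I} → ℝ) :
    BMax_j I (y + y', w) = BMax_j I (y, w) + emb I y' := by
  funext l
  change (if h : l ∈ I then (y + y') ⟨l, h⟩ else w ⟨l, h⟩) =
    (if h : l ∈ I then y ⟨l, h⟩ else w ⟨l, h⟩) + _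
  simp only [emb, ContinuousLinearMap.pi_apply]
  split_ifs <;> simp

theorem isOpen_not_maxLe (I : Finset (Fin n)) {φ : (Fin n → ℝ) → ℝ} (hφ : Continuous φ)
    (ρ0 lam : ℝ) : IsOpen {z | ¬ MaxLe I φ ρ0 lam z} := by
  have e : {z | ¬ MaxLe I φ ρ0 lam z} = ⋃ ρ ∈ Ioc (0 : ℝ) ρ0,
      {z | lam * (2 * ρ) ^ I.card < ∫ y in closedBall (0 : I → ℝ) ρ, φ (z + emb I y)} := by
    ext z
    simp only [MaxLe, not_forall, not_le, mem_ofPred_eq, mem_iUnion]
  rw [e]
  refine isOpen_biUnion fun ρ _ => isOpen_lt continuous_const ?_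
  exact continuous_parametric_integral_of_continuous
    (f := fun (z : Fin n → ℝ) (y : I → ℝ) => φ (z + emb I y))
    (hφ.comp (continuous_fst.add ((emb I).continuous.comp continuous_snd)))
    (isCompact_closedBall _ _)

theorem max_weak (I : Finset (Fin n)) {φ : (Fin n → ℝ) → ℝ} (hφ : Continuous φ)
    (h0 : ∀ x, 0 ≤ φ x) {ρ0 lam : ℝ} (hρ : 0 < ρ0) (hl : 0 < lam) (a : Fin n → ℝ) (R : ℝ) :
    ENNReal.ofReal lam * volume {z ∈ closedBall a R | ¬ MaxLe I φ ρ0 lam z} ≤
      5 ^ I.card * ∫⁻ x in closedBall a (R + ρ0), ENNReal.ofReal (φ x) := by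
  have hT : MeasurableSet {z ∈ closedBall a R | ¬ MaxLe I φ ρ0 lam z} :=
    measurableSet_closedBall.inter (isOpen_not_maxLe I hφ ρ0 lam).measurableSet
  have hf : Measurable ((closedBall a (R + ρ0)).indicator fun x => ENNReal.ofReal (φ x)) :=
    (ENNReal.measurable_ofReal.comp hφ.measurable).indicator measurableSet_closedBall
  rw [← (BMax_mp I).measure_preimage hT.nullMeasurableSet,
    Measure.prod_apply_symm ((BMax_mp I).measurable hT),
    ← lintegral_indicator measurableSet_closedBall, ← (BMax_mp I).lintegral_comp hf,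
    lintegral_prod_symm' (fun p => (closedBall a (R + ρ0)).indicator
      (fun x => ENNReal.ofReal (φ x)) (BMax_j I p)) (hf.comp (BMax_mp I).measurable),
    ← lintegral_const_mul' _ _ ENNReal.ofReal_ne_top,
    ← lintegral_const_mul' _ _ (ENNReal.pow_ne_top (by norm_num))]
  refine lintegral_mono fun w => ?_
  have h := BMax_slice (κ := I) (fun y => (closedBall a (R + ρ0)).indicator
    (fun x => ENNReal.ofReal (φ x)) (BMax_j I (y, w))) ρ0 (ENNReal.ofReal lam)
    ((fun y => (y, w)) ⁻¹' (BMax_j I ⁻¹' {z ∈ closedBall a R | ¬ MaxLe I φ ρ0 lam z})) ?_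
  · rwa [Fintype.card_coe] at h
  rintro y ⟨h1, h2⟩
  simp only [MaxLe, not_forall, not_le] at h2
  obtain ⟨ρ, h2, h3⟩ := h2
  refine ⟨ρ, h2, ?_⟩
  have hc : Continuous fun y' : I → ℝ => φ (BMax_j I (y, w) + emb I y') :=
    hφ.comp (continuous_const.add (emb I).continuous)
  rw [Fintype.card_coe, ← ENNReal.ofReal_mul hl.le]
  refine (ENNReal.ofReal_le_ofReal h3.le).trans ?_
  rw [ofReal_integral_eq_lintegral_ofReal
    (hc.continuousOn.integrableOn_compact (isCompact_closedBall _ _))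
    (Eventually.of_forall fun _ => h0 _)]
  refine le_of_eq (setLIntegral_congr_fun measurableSet_closedBall fun y' hy => ?_)
  simp only [BMax_add]
  rw [indicator_of_mem]
  rw [mem_closedBall_zero_iff] at hy
  have h4 := BMax_emb I y'
  rw [mem_closedBall] at h1 ⊢
  have h5 := dist_triangle (BMax_j I (y, w) + emb I y') (BMax_j I (y, w)) a
  rw [dist_self_add_left] at h5
  linarith [h2.2]

end BEp
end
end

-- merged part: Pool.Agent.Work.MP_f0515e_an.Pos.BX3
section
/-! TASK BX3. Weak type estimate along a coordinate subspace for measurable functions.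
Plan. Bad = union over rational r in (0, R] and r = R of {z | integral over closedBall 0 r of Phi (z + emb I y) > a (2 r) ^ k}, measurable (Measurable.lintegral_prod_right). For z off Bad and real r in (0, R) pass to rational r' decreasing to r
(monotone in r, the bound is continuous). Slicewise Vitali (exhaust by bounded parts) and Fubini along MeasurableEquiv.piEquivPiSubtypeProd; 5 ^ card I <= 10 ^ n. See the proof in BMax. -/

open Set Metric Filter Topology Function BEv MeasureTheory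
open scoped NNReal ENNReal ContDiff

noncomputable section
namespace BEp

theorem max_bad {n : ℕ} (I : Finset (Fin n)) {Φ : (Fin n → ℝ) → ℝ≥0∞} (hΦ : Measurable Φ)
    {R a : ℝ} (hR : 0 < R) (ha : 0 < a) :
    ∃ Bad : Set (Fin n → ℝ), MeasurableSet Bad ∧
      ENNReal.ofReal a * volume Bad ≤ 10 ^ n * ∫⁻ z, Φ z ∧
      ∀ z, z ∉ Bad → ∀ r ∈ Ioc (0 : ℝ) R, ∫⁻ y in closedBall (0 : I → ℝ) r, Φ (z + emb I y) ≤
        ENNReal.ofReal (a * (2 * r) ^ I.card) := by
  have hB : MeasurableSet (⋃ q : ℚ, ⋃ _ : (0 : ℝ) < q,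
      {z : Fin n → ℝ | ENNReal.ofReal (a * (2 * min (q : ℝ) R) ^ I.card) <
        ∫⁻ y in closedBall (0 : I → ℝ) (min (q : ℝ) R), Φ (z + emb I y)}) :=
    MeasurableSet.iUnion fun q => MeasurableSet.iUnion fun _ => measurableSet_lt measurable_const
      (Measurable.lintegral_prod_right' (f := fun p : (Fin n → ℝ) × (I → ℝ) => Φ (p.1 + emb I p.2))
        (hΦ.comp (continuous_fst.add ((emb I).continuous.comp continuous_snd)).measurable))
  refine ⟨_, hB, ?_, fun z hz r hr => ?_⟩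
  · refine le_trans ?_ (mul_le_mul_left (show (5 : ℝ≥0∞) ^ I.card ≤ _ from ?_) _)
    · rw [← (BMax_mp I).measure_preimage hB.nullMeasurableSet,
        Measure.prod_apply_symm ((BMax_mp I).measurable hB), ← (BMax_mp I).lintegral_comp hΦ,
        lintegral_prod_symm' (fun p => Φ (BMax_j I p)) (hΦ.comp (BMax_mp I).measurable),
        ← lintegral_const_mul' _ _ ENNReal.ofReal_ne_top,
        ← lintegral_const_mul' _ _ (ENNReal.pow_ne_top (by norm_num))]
      refine lintegral_mono fun w => ?_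
      rw [← Fintype.card_coe I]
      refine BMax_slice (κ := I) (fun y => Φ (BMax_j I (y, w))) R (ENNReal.ofReal a) _
        fun y hy => ?_
      simp only [mem_preimage, mem_iUnion, mem_ofPred_eq] at hy
      obtain ⟨q, hq, h⟩ := hy
      refine ⟨min q R, ⟨lt_min hq hR, min_le_right _ _⟩, ?_⟩
      rw [← ENNReal.ofReal_mul ha.le]
      simpa only [BMax_add] using h.le
    · exact (pow_le_pow_left' (by norm_num) _).trans
        (pow_le_pow_right' (by norm_num) (by simpa using I.card_le_univ))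
  · simp only [mem_iUnion, mem_ofPred_eq, not_exists, not_lt] at hz
    have hc : Continuous fun t : ℝ => ENNReal.ofReal (a * (2 * t) ^ I.card) :=
      ENNReal.continuous_ofReal.comp (by fun_prop)
    refine ge_of_tendsto ((hc.tendsto r).mono_left (nhdsWithin_le_nhds (s := Ioi r)))
      (eventually_nhdsWithin_of_forall fun t ht => ?_)
    obtain ⟨q, h1, h2⟩ := exists_rat_btwn (show r < t from ht)
    have h3 : r ≤ min (q : ℝ) R := le_min h1.le hr.2
    have h4 := hr.1
    refine (lintegral_mono_set (closedBall_subset_closedBall h3)).trans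
      ((hz q (hr.1.trans h1)).trans (ENNReal.ofReal_le_ofReal ?_))
    have h5 : min (q : ℝ) R ≤ t := (min_le_left _ _).trans h2.le
    gcongr
    linarith

end BEp
end
end

-- merged part: Pool.Agent.Work.MP_f0515e_an.Pos.ASb
section
/-! TASK ASb. Good vertices via the maximal function; averaging of the skeleton energy.
Plan. exists_bad: C from pt for the type I, lam = sigma / (M (C + 1)), max_bad with Phi = indicator of closedBall o (9 eta) of norm (fderiv u - A) ^ p, R = 4 eta, a = lam ^ p. Apply pt to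
w y = u (z0 + emb I y) - A (emb I y), z0 = cb b' + t, x2 = 0, x = restriction of cb b - cb b' to I (emb I x = cb b - cb b' by cb_off, same norm, at most 2 eta); translate the ball (lintegral_add_left_eq_self or
measure preserving translation); all points are within 6 eta of o. esk_meas, esk_avg: av_meas and av with w = 1 for each square, volume of the ball is (16 M s) ^ m, norm_sq_sub, card_sq. -/

open Set Metric Filter Topology Function BEv MeasureTheory
open scoped NNReal ENNReal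

noncomputable section
namespace BEp

variable {m : ℕ}

theorem ASb_core {p : ℝ} (hp : 1 ≤ p) (I : Finset (Ix m)) : ∃ C : ℝ, 0 ≤ C ∧
    ∀ (A : V m →L[ℝ] V m) (u : V m → V m), ContDiff ℝ 1 u → ∀ (Φ : V m → ℝ≥0∞) (z0 : V m)
      (x : I → ℝ) (lam : ℝ), 0 ≤ lam →
      (∀ y : I → ℝ, ‖y‖ ≤ 3 * ‖x‖ → ‖fderiv ℝ u (z0 + emb I y) - A‖ₑ ^ p ≤ Φ (z0 + emb I y)) →
      (∀ z, z = x ∨ z = 0 → ∀ r ∈ Ioc (0 : ℝ) (2 * ‖x‖),
        ∫⁻ y in closedBall (0 : I → ℝ) r, Φ (z0 + emb I z + emb I y) ≤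
          ENNReal.ofReal (lam ^ p * (2 * r) ^ I.card)) →
      ‖u (z0 + emb I x) - u z0 - A (emb I x)‖ ≤ C * lam * ‖x‖ := by
  obtain ⟨C, hC, h⟩ := pt (F := V m) I hp
  refine ⟨C, hC, fun A u hu Φ z0 x lam hl h1 h2 => ?_⟩
  have hw : ContDiff ℝ 1 fun y : I → ℝ => u (z0 + emb I y) - A (emb I y) :=
    (hu.comp (contDiff_const.add (emb I).contDiff)).sub (A.comp (emb I)).contDiff
  have hd : ∀ y : I → ℝ, ‖fderiv ℝ (fun y : I → ℝ => u (z0 + emb I y) - A (emb I y)) y‖ ≤
      ‖fderiv ℝ u (z0 + emb I y) - A‖ := by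
    intro y
    have k1 : HasFDerivAt (fun y : I → ℝ => u (z0 + emb I y) - A (emb I y))
        ((fderiv ℝ u (z0 + emb I y)).comp (emb I) - A.comp (emb I)) y :=
      ((hu.differentiable one_ne_zero (z0 + emb I y)).hasFDerivAt.comp y
        ((emb I).hasFDerivAt.const_add z0)).sub (A.comp (emb I)).hasFDerivAt
    rw [k1.fderiv, ← ContinuousLinearMap.sub_comp]
    refine ContinuousLinearMap.opNorm_le_bound _ (norm_nonneg _) fun v => ?_
    exact ((fderiv ℝ u (z0 + emb I y) - A).le_opNorm (emb I v)).trans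
      (mul_le_mul_of_nonneg_left (BMax_emb I v) (norm_nonneg _))
  have k := h _ hw x 0 lam hl fun z hz r hr => by
    rw [sub_zero] at hr
    have hz' : ‖z‖ ≤ ‖x‖ := by
      rcases hz with rfl | rfl
      · exact le_rfl
      · simp
    have e1 : (fun y : I → ℝ => z + y) ⁻¹' closedBall z r = closedBall 0 r := by
      ext y
      simp [mem_closedBall, dist_eq_norm]
    calc ∫⁻ y in closedBall z r,
          ‖fderiv ℝ (fun y : I → ℝ => u (z0 + emb I y) - A (emb I y)) y‖ₑ ^ p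
        ≤ ∫⁻ y in closedBall z r, Φ (z0 + emb I y) := by
          refine setLIntegral_mono' measurableSet_closedBall fun y hy => ?_
          refine le_trans ?_ (h1 y ?_)
          · refine ENNReal.rpow_le_rpow ?_ (by linarith only [hp])
            rw [← ofReal_norm, ← ofReal_norm]
            exact ENNReal.ofReal_le_ofReal (hd y)
          · have k1 := mem_closedBall_iff_norm.1 hy
            have k2 := norm_sub_norm_le y z
            linarith [hr.2]
      _ = ∫⁻ y in closedBall (0 : I → ℝ) r, Φ (z0 + emb I z + emb I y) := by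
          rw [← (measurePreserving_add_left volume z).setLIntegral_comp_preimage_emb
            (measurableEmbedding_addLeft z), e1]
          simp only [map_add, add_assoc]
      _ ≤ _ := by
          rw [Fintype.card_coe]
          exact h2 z hz r hr
  simp only [map_zero, add_zero, sub_zero] at k
  rwa [sub_right_comm] at k

theorem exists_bad {p : ℝ} (hp : 1 ≤ p) {T : Typ m} (hT : T.Ok) : ∃ Cb : ℝ≥0∞, Cb ≠ ⊤ ∧
    ∀ G : Gr m, G.toTyp = T → G.Ok → ∀ (o : V m) (η : ℝ), 0 < η → G.cell 0 ⊆ closedBall o η →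
      ∀ u : V m → V m, ContDiff ℝ 1 u → ∃ Bad : Set (V m), MeasurableSet Bad ∧
        volume Bad ≤ Cb * ∫⁻ y in closedBall o (9 * η), ‖fderiv ℝ u y - G.A‖ₑ ^ p ∧
        ∀ t ∈ closedBall (0 : V m) η, ∀ b ∈ G.ful, ∀ b' ∈ G.ful, G.cb b + t ∉ Bad →
          G.cb b' + t ∉ Bad → ‖u (G.cb b + t) - u (G.cb b' + t) - G.A (G.cb b - G.cb b')‖ ≤
            G.σ / G.M * ‖G.cb b - G.cb b'‖ := by
  obtain ⟨C, hC, h⟩ := ASb_core hp T.I
  have hM : (9 : ℝ) ≤ T.M := by exact_mod_cast hT.M9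
  have hσ := hT.σ0
  set lam : ℝ := T.σ / (T.M * (C + 1)) with hlam
  have hl : 0 < lam := by positivity
  have ha : 0 < lam ^ p := Real.rpow_pos_of_pos hl p
  have ha' : ENNReal.ofReal (lam ^ p) ≠ 0 := by simpa using ha
  refine ⟨(ENNReal.ofReal (lam ^ p))⁻¹ * 10 ^ (2 * m + 1), ENNReal.mul_ne_top
    (ENNReal.inv_ne_top.2 ha') (by simp), ?_⟩
  rintro G rfl hG o η hη hcell u hu
  have hΦ : Measurable (indicator (closedBall o (9 * η)) fun y => ‖fderiv ℝ u y - G.A‖ₑ ^ p) :=
    (((hu.continuous_fderiv one_ne_zero).sub continuous_const).enorm.measurable.pow_const p).indicator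
      measurableSet_closedBall
  obtain ⟨Bad, b1, b2, b3⟩ := max_bad G.I hΦ (R := 4 * η) (by positivity) ha
  refine ⟨Bad, b1, ?_, fun t ht b hb b' hb' n1 n2 => ?_⟩
  · rw [lintegral_indicator measurableSet_closedBall] at b2
    rw [mul_assoc, ← ENNReal.mul_le_iff_le_inv ha' ENNReal.ofReal_ne_top]
    exact b2
  · have e1 : emb G.I (fun l : G.I => G.cb b l - G.cb b' l) = G.cb b - G.cb b' := by
      funext l
      rw [Gr.ASl0_emb]
      split_ifs with k
      · rfl
      · rw [Pi.sub_apply, G.cb_off b k, G.cb_off b' k, sub_self]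
    have e2 : ‖(fun l : G.I => G.cb b l - G.cb b' l)‖ ≤ ‖G.cb b - G.cb b'‖ :=
      (pi_norm_le_iff_of_nonneg (norm_nonneg _)).2 fun l => norm_le_pi_norm (G.cb b - G.cb b') l
    have k1 := mem_closedBall_iff_norm.1 (hcell hb.2)
    have k2 := mem_closedBall_iff_norm.1 (hcell hb'.2)
    have k3 := mem_closedBall_zero_iff.1 ht
    have e3 : ‖G.cb b - G.cb b'‖ ≤ 2 * η := by
      have := norm_sub_le_norm_sub_add_norm_sub (G.cb b) o (G.cb b')
      rw [norm_sub_rev o] at this
      linarith only [k1, k2, this]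
    have e4 : G.cb b' + t + (G.cb b - G.cb b') = G.cb b + t := by abel
    have k := h G.A u hu (indicator (closedBall o (9 * η)) fun y => ‖fderiv ℝ u y - G.A‖ₑ ^ p)
      (G.cb b' + t) (fun l : G.I => G.cb b l - G.cb b' l) lam hl.le
      (fun y hy => by
        rw [indicator_of_mem]
        rw [mem_closedBall_iff_norm]
        have k4 := BMax_emb G.I y
        have k5 : G.cb b' + t + emb G.I y - o = (G.cb b' - o) + t + emb G.I y := by abel
        rw [k5]
        have k6 := norm_add₃_le (a := G.cb b' - o) (b := t) (c := emb G.I y)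
        linarith only [hη, e2, k2, k3, e3, hy, k4, k6])
      (fun z hz r hr => by
        refine b3 _ ?_ r ⟨hr.1, by linarith [hr.2]⟩
        rcases hz with rfl | rfl
        · rwa [e1, e4]
        · rwa [map_zero, add_zero])
    rw [e1, e4] at k
    refine k.trans (mul_le_mul ?_ e2 (norm_nonneg _) (by positivity))
    rw [hlam, mul_div_assoc', div_le_div_iff₀ (by positivity) (by positivity)]
    have k7 : 0 ≤ G.σ * G.M := by positivity
    linarith only [k7]

theorem ASb_sq (G : Gr m) (b : Ix m → ℤ) (J : Finset (Ix m)) (v : Ix m → ℤ) :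
    Measurable (G.sq b J v) :=
  (continuous_const.add (emb J).continuous).measurable

theorem Gr.esk_meas (G : Gr m) {Φ : V m → ℝ≥0∞} (hΦ : Measurable Φ) (b : Ix m → ℤ) :
    Measurable fun t : V m => G.esk (fun y => Φ (y + t)) b := by
  unfold Gr.esk
  refine Finset.measurable_fun_sum _ fun J _ => Finset.measurable_fun_sum _ fun v _ => ?_
  simpa only [mul_one] using av_meas (volume : Measure (J → ℝ)) (ASb_sq G b J v)
    (w := fun _ => 1) measurable_const hΦ (closedBall 0 (8 * G.M * G.s))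

theorem Gr.esk_avg {G : Gr m} (hG : G.Ok) {Φ : V m → ℝ≥0∞} (hΦ : Measurable Φ) (b : Ix m → ℤ)
    {B U : Set (V m)} (hB : MeasurableSet B)
    (h : ∀ y, ‖y - G.cb b‖ ≤ 8 * G.M * G.s → ∀ t ∈ B, y + t ∈ U) :
    ∫⁻ t in B, G.esk (fun y => Φ (y + t)) b ≤
      ENNReal.ofReal (2 ^ (2 * m + 1) * (16 * G.M + 1) ^ (2 * m + 1) * (16 * G.M * G.s) ^ m) *
        ∫⁻ y in U, Φ y := by
  have hs := hG.s0
  have hm : ∀ (J : Finset (Ix m)) (v : Ix m → ℤ), Measurable fun t : V m =>
      ∫⁻ y in closedBall (0 : J → ℝ) (8 * G.M * G.s), Φ (G.sq b J v y + t) := fun J v => by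
    simpa only [mul_one] using av_meas (volume : Measure (J → ℝ)) (ASb_sq G b J v)
      (w := fun _ => 1) measurable_const hΦ (closedBall 0 (8 * G.M * G.s))
  unfold Gr.esk
  rw [lintegral_finsetSum _ fun J _ => Finset.measurable_fun_sum _ fun v _ => hm J v]
  calc ∑ J ∈ Finset.powersetCard m G.I, ∫⁻ t in B, ∑ v ∈ G.pos J,
        ∫⁻ y in closedBall (0 : J → ℝ) (8 * G.M * G.s), Φ (G.sq b J v y + t)
      ≤ ∑ J ∈ Finset.powersetCard m G.I, ((G.pos J).card : ℝ≥0∞) *
          (ENNReal.ofReal ((16 * G.M * G.s) ^ m) * ∫⁻ y in U, Φ y) := by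
        refine Finset.sum_le_sum fun J hJ => ?_
        rw [lintegral_finsetSum _ fun v _ => hm J v, ← nsmul_eq_mul]
        refine Finset.sum_le_card_nsmul _ _ _ fun v hv => ?_
        have k := av (volume : Measure (J → ℝ)) (ASb_sq G b J v) (w := fun _ => 1)
          measurable_const hΦ hB (U := U) (E := closedBall 0 (8 * G.M * G.s))
          measurableSet_closedBall fun y hy t ht => h _ (Gr.norm_sq_sub hG b hv hy) t ht
        simp only [mul_one] at k
        rw [setLIntegral_one, Real.volume_pi_closedBall _ (by positivity), Fintype.card_coe,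
          (Finset.mem_powersetCard.1 hJ).2] at k
        have e : 2 * (8 * (G.M : ℝ) * G.s) = 16 * G.M * G.s := by ring
        rwa [e] at k
    _ ≤ _ := by
        rw [← Finset.sum_mul, ← mul_assoc, ENNReal.ofReal_mul (by positivity)]
        gcongr
        rw [← Nat.cast_sum, ← ENNReal.ofReal_natCast]
        refine ENNReal.ofReal_le_ofReal ?_
        exact_mod_cast G.card_sq

end BEp
end
end
end

-- merged part: Pool.Agent.Work.MP_f0515e_an.Pos.ASe
section
-- merged part: Pool.Agent.Work.MP_f0515e_an.Pos.BX2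
section
/-! TASK BX2. Packing estimate: separated values cost energy.
Plan. For x in P let rho x be the supremum of the radii with u (closedBall x rho n square) inside closedBall (u x) (r/3); it is attained, and rho x <= 2 S because another point of P has image r away. The boxes
B x = closedBall x (rho x) n square are pairwise disjoint, and B x has a point y with norm (u y - u x) >= r/3. B x is a box with sides between rho x and 2 rho x (or 2 S); rescale the coordinates (diagonal linear map with entries in [1/2, 1])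
to a cube and use mor, so (r/3) ^ p <= C (rho x) ^ (p - d) E (B x) <= C (2 S) ^ (p - d) E (B x). Sum over P. Alternative: deduce it from cover_count (BCov) with radius r/3: card P <= card Y <= 1 + .., and 2 <= card P. -/

open Set Metric Filter Topology Function BEv MeasureTheory
open scoped NNReal ENNReal ContDiff

noncomputable section
namespace BEp

theorem pack {F : Type} [NormedAddCommGroup F] [NormedSpace ℝ F] [CompleteSpace F]
    (J : Type) [Fintype J] {p : ℝ} (hp : (Fintype.card J : ℝ) < p) (hp1 : 1 ≤ p) :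
    ∃ C : ℝ≥0∞, C ≠ ⊤ ∧ ∀ u : (J → ℝ) → F, ContDiff ℝ 1 u → ∀ (a : J → ℝ) (S : ℝ), 0 < S →
      ∀ (P : Finset (J → ℝ)) (r : ℝ), 0 ≤ r → (∀ x ∈ P, x ∈ closedBall a S) → 2 ≤ P.card →
      (∀ x ∈ P, ∀ y ∈ P, x ≠ y → r ≤ ‖u x - u y‖) →
      (P.card : ℝ≥0∞) * ENNReal.ofReal (r ^ p) ≤ C * ENNReal.ofReal (S ^ (p - Fintype.card J)) *
        ∫⁻ z in closedBall a S, ‖fderiv ℝ u z‖ₑ ^ p := by
  obtain ⟨C, hC, H⟩ := cover_count (F := F) J hp hp1
  refine ⟨ENNReal.ofReal (2 * 3 ^ p * C), ENNReal.ofReal_ne_top,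
    fun u hu a S hS P r hr hP h2 hsep => ?_⟩
  rcases hr.eq_or_lt with rfl | hr
  · rw [Real.zero_rpow (by linarith), ENNReal.ofReal_zero, mul_zero]
    exact zero_le
  obtain ⟨Y, -, hY, hc⟩ := H u hu a S (r / 3) hS (by positivity)
  choose! f f1 f2 using hY
  have hcard : P.card ≤ Y.card := Finset.card_le_card_of_injOn f (fun x hx => f1 x (hP x hx))
    fun x hx y hy e => by
      by_contra ne
      have h1 := hsep x hx y hy ne
      have h3 := f2 x (hP x hx)
      have h4 := f2 y (hP y hy)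
      have h5 := norm_sub_le_norm_sub_add_norm_sub (u x) (u (f x)) (u y)
      rw [← e, norm_sub_rev] at h4
      linarith only [hr, h1, h3, h4, h5]
  have hcont : Continuous fun z => ‖fderiv ℝ u z‖ ^ p :=
    (hu.continuous_fderiv one_ne_zero).norm.rpow_const fun _ => Or.inr (by linarith only [hp])
  have hE : ENNReal.ofReal (∫ z in closedBall a S, ‖fderiv ℝ u z‖ ^ p) =
      ∫⁻ z in closedBall a S, ‖fderiv ℝ u z‖ₑ ^ p := by
    rw [ofReal_integral_eq_lintegral_ofReal
      (hcont.continuousOn.integrableOn_compact (isCompact_closedBall a S))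
      (Eventually.of_forall fun z => by positivity)]
    exact lintegral_congr fun z => by
      rw [← ENNReal.ofReal_rpow_of_nonneg (norm_nonneg _) (by linarith), ofReal_norm]
  rw [← hE, ← ENNReal.ofReal_mul (by positivity), ← ENNReal.ofReal_mul (by positivity),
    ← ENNReal.ofReal_natCast, ← ENNReal.ofReal_mul (by positivity)]
  refine ENNReal.ofReal_le_ofReal ?_
  have h3 : (2 : ℝ) ≤ P.card := by exact_mod_cast h2
  have h4 : (P.card : ℝ) ≤ Y.card := by exact_mod_cast hcard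
  have h5 : 0 < r ^ p := by positivity
  rw [Real.div_rpow hr.le (by norm_num), div_div_eq_mul_div, ← sub_le_iff_le_add',
    le_div_iff₀ h5] at hc
  linarith only [hc, h3, h5, h4, mul_nonneg_of_nonpos_of_nonpos (Mathlib.Tactic.Linarith.sub_nonpos_of_le h3) (le_of_lt (Mathlib.Tactic.Linarith.sub_neg_of_lt h5)), mul_nonneg_of_nonpos_of_nonpos (Mathlib.Tactic.Linarith.sub_nonpos_of_le h4) (le_of_lt (Mathlib.Tactic.Linarith.sub_neg_of_lt h5))]

end BEp
end
end

-- merged part: Pool.Agent.Work.MP_f0515e_an.Pos.ASc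
section
/-! TASK ASc. The image of the skeleton of one fine cube comes close to few good centres.
Plan. d = 16 M s, r = Lambda d, N0 = ceil (6 Lambda / sigma). For b in H choose (J, v, y) by mem_sq and colour b by (J, v, l -> b l mod N0). Inside a colour class two distinct b, b'' differ by at least N0 in a coordinate of I, so
norm (cb b - cb b'') >= N0 d (cb_sub), norm (u (cb b) - u (cb b'')) >= sigma/2 N0 d >= 3 r (low_slice, cb_off), hence the chosen points have images at least r apart (so they are distinct). pack for w y = u (sq b' J v y), with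
norm (fderiv w) ^ p <= 2 ^ p (norm (fderiv u - A) ^ p + Lambda ^ p): card (class) r ^ p <= C (8 M s) ^ (p - m) 2 ^ p (E (J, v) + Lambda ^ p d ^ m), or card <= 1. The powers of s give card s ^ m <= C' (s ^ m + E (J, v)).
Sum over at most N0 ^ (2m+1) residues and the squares (card_sq); Finset.card_eq_sum_card_fiberwise. Constants of pack: sum over the finitely many J. -/

open Set Metric Filter Topology Function BEv MeasureTheory
open scoped NNReal ENNReal

noncomputable section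
namespace BEp

variable {m : ℕ}

theorem ASc_emb (J : Finset (Ix m)) : ‖emb J‖ ≤ 1 := by
  refine ContinuousLinearMap.opNorm_le_bound _ zero_le_one fun y => ?_
  rw [one_mul]
  refine (pi_norm_le_iff_of_nonneg (norm_nonneg _)).2 fun l => ?_
  rw [Gr.ASl0_emb]
  split_ifs
  · exact norm_le_pi_norm y _
  · simp

theorem ASc_sq {p : ℝ} (hp : (m : ℝ) < p) (hp1 : 1 ≤ p) (J : Finset (Ix m)) :
    ∃ C : ℝ≥0∞, C ≠ ⊤ ∧ (J.card = m → ∀ (u : V m → V m), ContDiff ℝ 1 u →
      ∀ (o : V m) (A : V m →L[ℝ] V m) (Λ S s : ℝ), ‖A‖ ≤ Λ → 0 < s → s ≤ S →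
      ∀ (H : Finset (Ix m → ℤ)) (y : (Ix m → ℤ) → J → ℝ), (∀ b ∈ H, y b ∈ closedBall 0 S) →
      (∀ b ∈ H, ∀ b' ∈ H, b ≠ b' → S ≤ ‖u (o + emb J (y b)) - u (o + emb J (y b'))‖) →
      (H.card : ℝ≥0∞) * ENNReal.ofReal (s ^ m) ≤ ENNReal.ofReal (s ^ m) +
        C * (ENNReal.ofReal Λ ^ p * ENNReal.ofReal ((2 * S) ^ m) +
          ∫⁻ z in closedBall (0 : J → ℝ) S, ‖fderiv ℝ u (o + emb J z) - A‖ₑ ^ p)) := by
  classical
  by_cases hJ : J.card = m
  swap
  · exact ⟨0, ENNReal.zero_ne_top, fun h => absurd h hJ⟩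
  have hc : Fintype.card J = m := by simpa using hJ
  obtain ⟨C, hC, hpk⟩ := pack (F := V m) J (p := p) (by rwa [hc]) hp1
  refine ⟨C * 2 ^ (p - 1), ENNReal.mul_ne_top hC (ENNReal.rpow_ne_top_of_nonneg (by linarith only [hp1])
    ENNReal.ofNat_ne_top), fun _ u hu o A Λ S s hA hs hS H y h1 h2 => ?_⟩
  have S0 : 0 < S := hs.trans_le hS
  rcases le_or_gt H.card 1 with k | k
  · exact le_add_right (mul_le_of_le_one_left' (by exact_mod_cast k))
  refine le_add_left ?_
  have inj : InjOn y H := fun b hb b' hb' e => by_contra fun c => by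
    have := h2 b hb b' hb' c
    rw [e, sub_self, norm_zero] at this
    linarith only [hs, hS, this]
  have hw : ContDiff ℝ 1 fun z : J → ℝ => u (o + emb J z) :=
    hu.comp (contDiff_const.add (emb J).contDiff)
  have key := hpk _ hw 0 S S0 (H.image y) S S0.le (by
      intro x hx
      obtain ⟨b, hb, rfl⟩ := Finset.mem_image.1 hx
      exact h1 b hb) (by rw [Finset.card_image_of_injOn inj]; exact k) (by
      intro x hx x' hx' e
      obtain ⟨b, hb, rfl⟩ := Finset.mem_image.1 hx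
      obtain ⟨b', hb', rfl⟩ := Finset.mem_image.1 hx'
      exact h2 b hb b' hb' fun c => e (by rw [c]))
  rw [Finset.card_image_of_injOn inj, hc] at key
  have pt : ∀ z : J → ℝ, ‖fderiv ℝ (fun z : J → ℝ => u (o + emb J z)) z‖ₑ ^ p ≤
      2 ^ (p - 1) * (ENNReal.ofReal Λ ^ p + ‖fderiv ℝ u (o + emb J z) - A‖ₑ ^ p) := fun z => by
    refine le_trans (ENNReal.rpow_le_rpow ?_ (by linarith only [hp]))
      (ENNReal.rpow_add_le_mul_rpow_add_rpow _ _ hp1)
    have d := ((hu.differentiable one_ne_zero (o + emb J z)).hasFDerivAt.comp z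
      ((emb J).hasFDerivAt.const_add o)).fderiv
    have e : (fun z : J → ℝ => u (o + emb J z)) = u ∘ fun z => o + emb J z := rfl
    rw [e, d, ← ofReal_norm, ← ofReal_norm,
      ← ENNReal.ofReal_add ((norm_nonneg _).trans hA) (norm_nonneg _)]
    refine ENNReal.ofReal_le_ofReal (((fderiv ℝ u _).opNorm_comp_le _).trans ?_)
    have k1 := mul_le_of_le_one_right (norm_nonneg (fderiv ℝ u (o + emb J z))) (ASc_emb J)
    linarith only [hA, k1, norm_sub_norm_le (fderiv ℝ u (o + emb J z)) A]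
  have it : ∫⁻ z in closedBall (0 : J → ℝ) S, ‖fderiv ℝ (fun z : J → ℝ => u (o + emb J z)) z‖ₑ ^ p ≤
      2 ^ (p - 1) * (ENNReal.ofReal Λ ^ p * ENNReal.ofReal ((2 * S) ^ m) +
        ∫⁻ z in closedBall (0 : J → ℝ) S, ‖fderiv ℝ u (o + emb J z) - A‖ₑ ^ p) := by
    refine (lintegral_mono pt).trans (le_of_eq ?_)
    rw [lintegral_const_mul' _ _ (ENNReal.rpow_ne_top_of_nonneg (by linarith only [hp1]) ENNReal.ofNat_ne_top),
      lintegral_add_left measurable_const, setLIntegral_const, Real.volume_pi_closedBall _ S0.le, hc]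
  have pw : ENNReal.ofReal (S ^ (p - m)) * ENNReal.ofReal (s ^ m) ≤ ENNReal.ofReal (S ^ p) := by
    rw [← ENNReal.ofReal_mul (by positivity)]
    refine ENNReal.ofReal_le_ofReal ?_
    calc S ^ (p - m) * s ^ m ≤ S ^ (p - m) * S ^ m := by gcongr
      _ = S ^ p := by rw [← Real.rpow_natCast, ← Real.rpow_add S0, sub_add_cancel]
  refine (ENNReal.mul_le_mul_iff_right (a := ENNReal.ofReal (S ^ (p - m)))
    (ENNReal.ofReal_pos.2 (by positivity)).ne' ENNReal.ofReal_ne_top).1 ?_
  calc _ = (H.card : ℝ≥0∞) * (ENNReal.ofReal (S ^ (p - m)) * ENNReal.ofReal (s ^ m)) := by ring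
    _ ≤ _ := mul_le_mul_right pw _
    _ ≤ _ := key
    _ ≤ _ := mul_le_mul_right it _
    _ = _ := by ring

theorem ASc_far {G : Gr m} (hG : G.Ok) {u : V m → V m} {b b' : Ix m → ℤ} {N : ℕ}
    (hN : 6 * G.Λ / G.σ ≤ N) (hb : ∀ l, l ∉ G.I → b l = 0) (hb' : ∀ l, l ∉ G.I → b' l = 0)
    (h : b ≠ b') (hr : ∀ l, b l % N = b' l % N)
    (hu : ‖u (G.cb b) - u (G.cb b') - G.A (G.cb b - G.cb b')‖ ≤ G.σ / 2 * ‖G.cb b - G.cb b'‖) :
    3 * (16 * G.Λ * G.M * G.s) ≤ ‖u (G.cb b) - u (G.cb b')‖ := by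
  obtain ⟨l, h1, h2⟩ := Gr.ASl0_ne hb hb' h
  have h3 : (N : ℝ) ≤ |(b l : ℝ) - b' l| := by
    exact_mod_cast Int.le_of_dvd (abs_pos.2 (sub_ne_zero.2 h2))
      ((dvd_abs _ _).2 (Int.ModEq.dvd (hr l).symm))
  have hs := hG.s0
  have hσ := hG.σ0
  have h4 : 0 ≤ 16 * G.M * G.s := by positivity
  have h5 : 16 * G.M * G.s * N ≤ ‖G.cb b - G.cb b'‖ := by
    refine le_trans ?_ (norm_le_pi_norm _ l)
    rw [Pi.sub_apply, G.cb_sub b b' h1, Real.norm_eq_abs, abs_mul, abs_of_nonneg h4]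
    exact mul_le_mul_of_nonneg_left h3 h4
  have h6 := Gr.low_slice hG (x := G.cb b) (y := G.cb b') (fun l hl => G.cb_off b hl)
    fun l hl => G.cb_off b' hl
  have h7 := norm_sub_norm_le (G.A (G.cb b - G.cb b')) (u (G.cb b) - u (G.cb b'))
  rw [norm_sub_rev (G.A _)] at h7
  have h8 := mul_le_mul_of_nonneg_left ((div_le_iff₀ hσ).1 hN) h4
  have h9 := mul_le_mul_of_nonneg_left h5 hσ.le
  linarith only [hu, h6, h7, h8, h9]

theorem hit_count {p : ℝ} (hp : (m : ℝ) < p) (hp1 : 1 ≤ p) {T : Typ m} (hT : T.Ok) :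
    ∃ Ch : ℝ≥0∞, Ch ≠ ⊤ ∧ ∀ G : Gr m, G.toTyp = T → G.Ok → m ≤ G.I.card → ∀ u : V m → V m,
      ContDiff ℝ 1 u → ∀ (b' : Ix m → ℤ) (H : Finset (Ix m → ℤ)),
      (∀ b ∈ H, ∀ l, l ∉ G.I → b l = 0) →
      (∀ b ∈ H, ∀ b'' ∈ H, ‖u (G.cb b) - u (G.cb b'') - G.A (G.cb b - G.cb b'')‖ ≤
        G.σ / 2 * ‖G.cb b - G.cb b''‖) →
      (∀ b ∈ H, ∃ y ∈ (G.box u b').fine G.s ∩ (G.box u b').Q G.s 56,
        ‖u y - u (G.cb b)‖ ≤ 16 * G.Λ * G.M * G.s) →
      (H.card : ℝ≥0∞) * ENNReal.ofReal (G.s ^ m) ≤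
        Ch * (ENNReal.ofReal (G.s ^ m) + G.esk (fun y => ‖fderiv ℝ u y - G.A‖ₑ ^ p) b') := by
  classical
  choose C hC hsq using ASc_sq hp hp1
  obtain ⟨N, hN⟩ : ∃ N : ℕ, N = ⌈6 * T.Λ / T.σ⌉₊ := ⟨_, rfl⟩
  obtain ⟨K, hK⟩ : ∃ K : ℝ≥0∞, K = 1 + (∑ J, C J) *
    (1 + ENNReal.ofReal T.Λ ^ p * ENNReal.ofReal ((16 * T.M) ^ m)) := ⟨_, rfl⟩
  have Kt : K ≠ ⊤ := hK ▸ ENNReal.add_ne_top.2 ⟨ENNReal.one_ne_top, ENNReal.mul_ne_top
    (ENNReal.sum_ne_top.2 fun J _ => hC J) (ENNReal.add_ne_top.2 ⟨ENNReal.one_ne_top,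
      ENNReal.mul_ne_top (ENNReal.rpow_ne_top_of_nonneg (by linarith only [hp]) ENNReal.ofReal_ne_top)
        ENNReal.ofReal_ne_top⟩)⟩
  refine ⟨((N ^ (2 * m + 1) : ℕ) * K) *
    ((2 ^ (2 * m + 1) * (16 * T.M + 1) ^ (2 * m + 1) + 1 : ℕ) : ℝ≥0∞),
    ENNReal.mul_ne_top (ENNReal.mul_ne_top (ENNReal.natCast_ne_top _) Kt)
      (ENNReal.natCast_ne_top _), fun G e hG hm u hu b' H h1 h2 h3 => ?_⟩
  subst e
  have hs := hG.s0
  have hM := Gr.ASl0_M hG
  have hΛ := hG.Λ1
  have N0 : 0 < N := hN ▸ Nat.ceil_pos.2 (div_pos (by linarith only [hΛ]) hG.σ0)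
  obtain ⟨R, hR⟩ : ∃ R : Finset (Ix m → ℤ), R = Fintype.piFinset fun _ => Finset.Ico 0 (N : ℤ) :=
    ⟨_, rfl⟩
  obtain ⟨Hc, hH⟩ : ∃ Hc : Finset (Ix m) → (Ix m → ℤ) → (Ix m → ℤ) → Finset (Ix m → ℤ),
      Hc = fun (J : Finset (Ix m)) (v ρ : Ix m → ℤ) => H.filter fun b => (∀ l, b l % N = ρ l) ∧
        ∃ y ∈ closedBall (0 : J → ℝ) (8 * G.M * G.s),
          ‖u (G.sq b' J v y) - u (G.cb b)‖ ≤ 16 * G.Λ * G.M * G.s := ⟨_, rfl⟩
  have cov : H.card ≤ ∑ J ∈ Finset.powersetCard m G.I, ∑ v ∈ G.pos J, ∑ ρ ∈ R, (Hc J v ρ).card := by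
    refine le_trans (Finset.card_le_card (t := (Finset.powersetCard m G.I).biUnion fun J =>
      (G.pos J).biUnion fun v => R.biUnion fun ρ => Hc J v ρ) fun b hb => ?_)
      (Finset.card_biUnion_le.trans (Finset.sum_le_sum fun J _ => Finset.card_biUnion_le.trans
        (Finset.sum_le_sum fun v _ => Finset.card_biUnion_le)))
    obtain ⟨y, y1, y2⟩ := h3 b hb
    obtain ⟨J, hJ, v, hv, z, hz, rfl⟩ := Gr.mem_sq u hG hm y1
    have N1 : (0 : ℤ) < N := by exact_mod_cast N0
    refine Finset.mem_biUnion.2 ⟨J, hJ, Finset.mem_biUnion.2 ⟨v, hv, Finset.mem_biUnion.2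
      ⟨fun l => b l % N, ?_, ?_⟩⟩⟩
    · rw [hR]
      exact Fintype.mem_piFinset.2 fun l =>
        Finset.mem_Ico.2 ⟨Int.emod_nonneg _ N1.ne', Int.emod_lt_of_pos _ N1⟩
    · rw [hH]
      exact Finset.mem_filter.2 ⟨hb, fun _ => rfl, z, hz, y2⟩
  have cls : ∀ J ∈ Finset.powersetCard m G.I, ∀ v ρ,
      ((Hc J v ρ).card : ℝ≥0∞) * ENNReal.ofReal (G.s ^ m) ≤ K * (ENNReal.ofReal (G.s ^ m) +
        ∫⁻ y in closedBall (0 : J → ℝ) (8 * G.M * G.s),
          ‖fderiv ℝ u (G.sq b' J v y) - G.A‖ₑ ^ p) := by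
    intro J hJ v ρ
    have ex : ∀ b, ∃ y : J → ℝ, b ∈ Hc J v ρ → y ∈ closedBall (0 : J → ℝ) (8 * G.M * G.s) ∧
        ‖u (G.sq b' J v y) - u (G.cb b)‖ ≤ 16 * G.Λ * G.M * G.s := fun b => by
      by_cases hb : b ∈ Hc J v ρ
      · rw [hH] at hb
        obtain ⟨y, hy⟩ := (Finset.mem_filter.1 hb).2.2
        exact ⟨y, fun _ => hy⟩
      · exact ⟨0, fun c => absurd c hb⟩
    choose y hy using ex
    refine (hsq J (Finset.mem_powersetCard.1 hJ).2 u hu (G.cb b' + G.s • fun l => (v l : ℝ)) G.A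
      G.Λ (8 * G.M * G.s) G.s hG.nA hs (by linarith only [hs, hM, mul_nonneg_of_nonpos_of_nonpos (le_of_lt (Mathlib.Tactic.Linarith.sub_neg_of_lt hs)) (Mathlib.Tactic.Linarith.sub_nonpos_of_le hM)]) (Hc J v ρ) y (fun b hb => (hy b hb).1)
      fun b hb c hc e => ?_).trans ?_
    · have k1 := (hy b hb).2
      have k2 := (hy c hc).2
      rw [hH] at hb hc
      obtain ⟨a1, a2, -⟩ := Finset.mem_filter.1 hb
      obtain ⟨c1, c2, -⟩ := Finset.mem_filter.1 hc
      have k3 := ASc_far hG (hN ▸ Nat.le_ceil _) (h1 b a1) (h1 c c1) e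
        (fun l => (a2 l).trans (c2 l).symm) (h2 b a1 c c1)
      have k4 := norm_sub_le_norm_sub_add_norm_sub (u (G.cb b)) (u (G.sq b' J v (y b))) (u (G.cb c))
      have k5 := norm_sub_le_norm_sub_add_norm_sub (u (G.sq b' J v (y b))) (u (G.sq b' J v (y c)))
        (u (G.cb c))
      rw [norm_sub_rev (u (G.cb b)) (u (G.sq b' J v (y b)))] at k4
      have k6 : 8 * G.M * G.s ≤ 16 * G.Λ * G.M * G.s := by
        linarith only [hΛ, hM, hs, mul_nonneg (sub_nonneg.2 hΛ) (mul_pos (by linarith : (0 : ℝ) < G.M) hs).le, mul_nonneg_of_nonpos_of_nonpos (Mathlib.Tactic.Linarith.sub_nonpos_of_le (Mathlib.Tactic.Linarith.natCast_nonneg ℝ G.M)) (le_of_lt (Mathlib.Tactic.Linarith.sub_neg_of_lt hs))]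
      change _ ≤ ‖u (G.sq b' J v (y b)) - u (G.sq b' J v (y c))‖
      linarith only [k1, k2, k3, k4, k5, k6]
    · have e1 : ENNReal.ofReal ((2 * (8 * G.M * G.s)) ^ m) =
          ENNReal.ofReal ((16 * G.M) ^ m) * ENNReal.ofReal (G.s ^ m) := by
        rw [← ENNReal.ofReal_mul (by positivity), ← mul_pow]
        congr 2
        ring
      rw [e1, hK, add_mul, one_mul]
      refine add_le_add le_self_add ?_
      rw [mul_assoc (∑ J, C J)]
      refine mul_le_mul' (Finset.single_le_sum (fun _ _ => zero_le) (Finset.mem_univ J)) ?_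
      rw [add_mul, one_mul, add_comm, ← mul_assoc (ENNReal.ofReal G.Λ ^ p)]
      exact add_le_add le_add_self (mul_le_mul_right le_self_add _)
  have cR : R.card = N ^ (2 * m + 1) := by simp [hR]
  calc (H.card : ℝ≥0∞) * ENNReal.ofReal (G.s ^ m)
      ≤ (∑ J ∈ Finset.powersetCard m G.I, ∑ v ∈ G.pos J, ∑ ρ ∈ R, ((Hc J v ρ).card : ℝ≥0∞)) *
          ENNReal.ofReal (G.s ^ m) := mul_le_mul_left (by exact_mod_cast cov) _
    _ ≤ ∑ J ∈ Finset.powersetCard m G.I, ∑ v ∈ G.pos J, ((N ^ (2 * m + 1) : ℕ) * K) *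
          (ENNReal.ofReal (G.s ^ m) + ∫⁻ y in closedBall (0 : J → ℝ) (8 * G.M * G.s),
            ‖fderiv ℝ u (G.sq b' J v y) - G.A‖ₑ ^ p) := by
        simp only [Finset.sum_mul]
        refine Finset.sum_le_sum fun J hJ => Finset.sum_le_sum fun v _ =>
          (Finset.sum_le_card_nsmul _ _ _ fun ρ _ => cls J hJ v ρ).trans (le_of_eq ?_)
        rw [cR, nsmul_eq_mul, mul_assoc _ K]
    _ = ((N ^ (2 * m + 1) : ℕ) * K) *
          (((∑ J ∈ Finset.powersetCard m G.I, (G.pos J).card : ℕ) : ℝ≥0∞) *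
            ENNReal.ofReal (G.s ^ m) + G.esk (fun y => ‖fderiv ℝ u y - G.A‖ₑ ^ p) b') := by
        simp only [← Finset.mul_sum, Finset.sum_add_distrib, Finset.sum_const, nsmul_eq_mul,
          Gr.esk, Nat.cast_sum, Finset.sum_mul]
    _ ≤ _ := by
        rw [mul_assoc _ ((_ : ℕ) : ℝ≥0∞), mul_add ((_ : ℕ) : ℝ≥0∞)]
        refine mul_le_mul_right (add_le_add (mul_le_mul_left ?_ _)
          (le_mul_of_one_le_left' ?_)) _
        · exact_mod_cast G.card_sq.trans (Nat.le_succ _)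
        · exact_mod_cast Nat.le_add_left 1 _

end BEp
end
end

-- merged part: Pool.Agent.Work.MP_f0515e_an.Pos.ASd
section
/-! TASK ASd. Good cubes which are not hit are kept.
Plan. sigma s = 1000 eps. aff b' y - aff b x = A (y - x) + (f (cb b') - f (cb b) - A (cb b' - cb b)). For b' other than b, d = norm (cb b - cb b') >= 16 M s (cb_far) and norm (y - x) >= d - 16 M s + 44 s (mem_Q), so by low_slice the
lower bound is sigma (d - 16 M s + 44 s) - sigma d / M - 2 eps >= 28 sigma s - 2 eps. For b' = b, norm (y - x) >= 4 s. Sk_sub_fine. -/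

open Set Metric Filter Topology Function BEv MeasureTheory
open scoped NNReal ENNReal

noncomputable section
namespace BEp

variable {m : ℕ}

theorem ASd_far {G : Gr m} (hG : G.Ok) (f : V m → V m) {b b' : Ix m → ℤ}
    (h0 : ∀ l, l ∉ G.I → b l = 0) (h0' : ∀ l, l ∉ G.I → b' l = 0) (hne : b ≠ b')
    (hb : ‖f (G.cb b) - f (G.cb b') - G.A (G.cb b - G.cb b')‖ ≤
      G.σ / G.M * ‖G.cb b - G.cb b'‖ + G.ε) {x y : V m} (hx : x ∈ (G.box f b).Q G.s 12)
    (hy : y ∈ (G.box f b').Q G.s 56) :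
    12 * G.ε < ‖(G.box f b').aff y - (G.box f b).aff x‖ := by
  have hM := Gr.ASl0_M hG
  have hs := hG.s0
  have hσ := hG.σ0
  obtain ⟨x1, x2⟩ := (Gr.mem_Q f hG (by norm_num)).1 hx
  obtain ⟨y1, y2⟩ := (Gr.mem_Q f hG (by norm_num)).1 hy
  obtain ⟨l, -, hl⟩ := Gr.cb_far hG h0 h0' hne
  have d1 : 16 * G.M * G.s ≤ ‖G.cb b - G.cb b'‖ :=
    hl.trans (norm_le_pi_norm (G.cb b - G.cb b') l)
  have d2 : ‖G.cb b - G.cb b'‖ ≤ ‖y - x‖ + ‖x - G.cb b‖ + ‖y - G.cb b'‖ := by
    have e : G.cb b - G.cb b' = -(y - x) + -(x - G.cb b) + (y - G.cb b') := by abel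
    rw [e, ← norm_neg (y - x), ← norm_neg (x - G.cb b)]
    exact norm_add₃_le
  have d3 := Gr.low_slice hG y1 x1
  have e : G.A (y - x) = ((G.box f b').aff y - (G.box f b).aff x) +
      (f (G.cb b) - f (G.cb b') - G.A (G.cb b - G.cb b')) := by
    change _ = G.A (y - G.cb b') + f (G.cb b') - (G.A (x - G.cb b) + f (G.cb b)) + _
    simp only [map_sub]
    abel
  have d4 := norm_add_le ((G.box f b').aff y - (G.box f b).aff x)
    (f (G.cb b) - f (G.cb b') - G.A (G.cb b - G.cb b'))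
  rw [← e] at d4
  obtain ⟨t, ht⟩ : ∃ t, ‖G.cb b - G.cb b'‖ = G.M * t :=
    ⟨_, (mul_div_cancel₀ _ (by linarith only [hM] : (G.M : ℝ) ≠ 0)).symm⟩
  rw [ht] at hb d1 d2
  have d5 : 16 * G.s ≤ t := le_of_mul_le_mul_left (by linarith only [d1]) (by linarith only [hM] : (0 : ℝ) < G.M)
  have d6 : G.σ / G.M * (G.M * t) = G.σ * t := by field_simp
  have d7 : 16 * G.s * (G.M - 1) ≤ t * (G.M - 1) := mul_le_mul_of_nonneg_right d5 (by linarith only [hM])
  have d8 : t + 28 * G.s ≤ ‖y - x‖ := by linarith only [x2, y2, d2, d7]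
  have d9 := mul_le_mul_of_nonneg_left d8 hσ.le
  have d10 := mul_pos hσ hs
  rw [d6] at hb
  unfold Gr.ε at hb ⊢
  linarith only [d3, d4, hb, d9, d10]

theorem Gr.kept_of_good {G : Gr m} (hG : G.Ok) (f : V m → V m) {F Gd kp : Finset (Ix m → ℤ)}
    (hF : ∀ b ∈ F, ∀ l, l ∉ G.I → b l = 0) (h1 : Gd ⊆ F) (h2 : kp ⊆ Gd)
    (ha : ∀ b ∈ Gd, ∀ x ∈ (G.box f b).fine G.s ∩ (G.box f b).Q G.s 56,
      ‖f x - (G.box f b).aff x‖ ≤ G.ε)
    (hb : ∀ b ∈ Gd, ∀ b' ∈ Gd, ‖f (G.cb b) - f (G.cb b') - G.A (G.cb b - G.cb b')‖ ≤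
      G.σ / G.M * ‖G.cb b - G.cb b'‖ + G.ε)
    (hc : ∀ b ∈ kp, ∀ b' ∈ F, b' ∉ Gd → ∀ y ∈ (G.box f b').Sk G.s ∩ (G.box f b').Q G.s 56,
      ∀ x ∈ (G.box f b).Q G.s 12, 10 * G.ε < ‖f y - (G.box f b).aff x‖) :
    G.Kept f F kp := by
  have hM := Gr.ASl0_M hG
  have hs := hG.s0
  have hσ := hG.σ0
  have hε : 0 < G.ε := div_pos (mul_pos hσ hs) (by norm_num)
  refine ⟨h2.trans h1, fun b k => ha b (h2 k), fun b k b' k' y hy hy' x hx => ?_,
    fun b k b' k' hne x hx y hy => ?_⟩
  · by_cases g : b' ∈ Gd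
    swap
    · exact hc b k b' k' g y hy x hx
    have a1 := ha b' g y ⟨Gr.Sk_sub_fine f hG hy.1, hy.2⟩
    have a2 : ‖(G.box f b').aff y - (G.box f b).aff x‖ ≤
        ‖f y - (G.box f b').aff y‖ + ‖f y - (G.box f b).aff x‖ := by
      rw [norm_sub_rev (f y) ((G.box f b').aff y)]
      exact norm_sub_le_norm_sub_add_norm_sub _ _ _
    suffices h : 12 * G.ε < ‖(G.box f b').aff y - (G.box f b).aff x‖ by linarith
    by_cases hne : b = b'
    swap
    · exact ASd_far hG f (hF b (h1 (h2 k))) (hF b' k') hne (hb b (h2 k) b' g) hx hy.2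
    subst hne
    obtain ⟨x1, x2⟩ := (Gr.mem_Q f hG (by norm_num)).1 hx
    obtain ⟨y1, -⟩ := (Gr.mem_Q f hG (by norm_num)).1 hy.2
    have y2 : G.s * (8 * G.M - 56 + 16) < ‖y - G.cb b‖ :=
      not_le.1 fun c => hy' ((Gr.mem_Q f hG (by norm_num)).2 ⟨y1, c⟩)
    have d2 := norm_sub_le_norm_sub_add_norm_sub y x (G.cb b)
    have d3 := Gr.low_slice hG y1 x1
    have e : (G.box f b).aff y - (G.box f b).aff x = G.A (y - x) := by
      change G.A (y - G.cb b) + f (G.cb b) - (G.A (x - G.cb b) + f (G.cb b)) = _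
      simp only [map_sub]
      abel
    have d8 : 4 * G.s ≤ ‖y - x‖ := by linarith only [x2, y2, d2]
    have d9 := mul_le_mul_of_nonneg_left d8 hσ.le
    have d10 := mul_pos hσ hs
    rw [e]
    unfold Gr.ε
    linarith only [d3, d9, d10]
  · obtain ⟨y1, y2⟩ := (Gr.mem_Q f hG (by norm_num)).1 hy
    have := ASd_far hG f (hF b (h1 (h2 k))) (hF b' (h1 (h2 k'))) hne (hb b (h2 k) b' (h2 k')) hx
      ((Gr.mem_Q f hG (by norm_num)).2 ⟨y1, by linarith⟩)
    linarith

end BEp
end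
end

-- merged part: Pool.Agent.Work.MP_f0515e_an.Pos.ASe
section
/-! TASK ASe. Selection of the kept cubes in one slice.
Plan. k0, Cb, Ch from the three lemmas. Phi = norm (fderiv u - A) ^ p, e t b = esk (Phi (. + t)) b / ofReal (s ^ m), E t = col * ((1 + Ch) * (sum e t b / k0 + sum indicator Bad (cb b + t)) + Ch * sum e t b), sums over F.
Integral: esk_avg gives C(M) times the integral of Phi for each e, the indicator gives volume Bad, card_F. For fixed t apply the lemmas to u (. + t) (fderiv_comp_add_right); Gd = the b in F with esk <= k0 s ^ m and cb b + t off Bad,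
card (F minus Gd) <= sum e / k0 + sum indicator. For b' in F minus Gd let H b' be the b in Gd hit by Sk and Q 56 of b' (distance <= 10 eps); hit_count bounds card (H b') by Ch (1 + e t b') (norm (A (x - cb b)) <= 8 Lambda M s,
errors between u and f at most eps / 8 each; the sets fine, Sk, Q of box do not depend on the function). kp = Gd minus the union of the H b'; kept_of_good. -/

open Set Metric Filter Topology Function BEv MeasureTheory
open scoped NNReal ENNReal

noncomputable section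
namespace BEp

variable {m : ℕ}

theorem ASe_cnt {α : Type} [DecidableEq α] {F Gd : Finset α} (H : α → Finset α) {x y : α → ℝ≥0∞}
    {K Ch : ℝ≥0∞} (h1 : ∀ b ∈ F \ Gd, 1 ≤ K * x b + y b)
    (h2 : ∀ b ∈ F \ Gd, ((H b).card : ℝ≥0∞) ≤ Ch * (1 + x b)) :
    ((F \ (Gd \ (F \ Gd).biUnion H)).card : ℝ≥0∞) ≤
      ∑ b ∈ F, (((1 + Ch) * K + Ch) * x b + (1 + Ch) * y b) := by
  have h3 : F \ (Gd \ (F \ Gd).biUnion H) ⊆ (F \ Gd) ∪ (F \ Gd).biUnion H := fun b hb => by
    simp only [Finset.mem_sdiff, Finset.mem_union, not_and, not_not] at hb ⊢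
    by_cases hg : b ∈ Gd
    exacts [Or.inr (hb.2 hg), Or.inl ⟨hb.1, hg⟩]
  have h4 : (F \ (Gd \ (F \ Gd).biUnion H)).card ≤ ∑ b ∈ F \ Gd, (1 + (H b).card) := by
    rw [Finset.sum_add_distrib, ← Finset.card_eq_sum_ones]
    exact (Finset.card_le_card h3).trans ((Finset.card_union_le _ _).trans
      (Nat.add_le_add_left Finset.card_biUnion_le _))
  calc ((F \ (Gd \ (F \ Gd).biUnion H)).card : ℝ≥0∞)
      ≤ ∑ b ∈ F \ Gd, (1 + ((H b).card : ℝ≥0∞)) := by exact_mod_cast h4
    _ ≤ ∑ b ∈ F \ Gd, (((1 + Ch) * K + Ch) * x b + (1 + Ch) * y b) := by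
      refine Finset.sum_le_sum fun b hb => ?_
      calc 1 + ((H b).card : ℝ≥0∞) ≤ 1 + Ch * (1 + x b) := by gcongr; exact h2 b hb
        _ = (1 + Ch) * 1 + Ch * x b := by ring
        _ ≤ (1 + Ch) * (K * x b + y b) + Ch * x b := by gcongr; exact h1 b hb
        _ = _ := by ring
    _ ≤ _ := Finset.sum_le_sum_of_subset Finset.sdiff_subset

theorem ASe_tri {E : Type} [NormedAddCommGroup E] {a b c d : E} {r s t : ℝ} (ha : ‖a‖ ≤ r)
    (hb : ‖b‖ ≤ s) (hc : ‖c‖ ≤ t) (h : d = a - b + c) : ‖d‖ ≤ r + s + t := by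
  rw [h]
  exact (norm_add_le _ _).trans (add_le_add ((norm_sub_le _ _).trans (add_le_add ha hb)) hc)

theorem sel (hm : 1 ≤ m) {p : ℝ} (hp : (m : ℝ) < p) {T : Typ m} (hT : T.Ok) :
    ∃ Cs : ℝ≥0∞, Cs ≠ ⊤ ∧ T.Sel p Cs := by
  classical
  have hp1 : 1 ≤ p := le_trans (by exact_mod_cast hm) hp.le
  obtain ⟨k0, k0p, hk⟩ := skel_close hm hp hT
  obtain ⟨Cb, hCb, hb⟩ := exists_bad hp1 hT
  obtain ⟨Ch, hCh, hh⟩ := hit_count hp hp1 hT
  have hk0 : ENNReal.ofReal k0 ≠ 0 := by simpa using k0p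
  have hK : (ENNReal.ofReal k0)⁻¹ ≠ ⊤ := ENNReal.inv_ne_top.2 hk0
  refine ⟨ENNReal.ofReal (2 ^ (2 * m + 1)) * (((1 + Ch) * (ENNReal.ofReal k0)⁻¹ + Ch) *
    ENNReal.ofReal (2 ^ (2 * m + 1) * (16 * T.M + 1) ^ (2 * m + 1) * (16 * T.M) ^ m) +
      (1 + Ch) * Cb), by finiteness, ?_⟩
  rintro G rfl hG hI F hF o η ho hη u hu
  have s0 := hG.s0
  have M9 := Gr.ASl0_M hG
  have hMs : 0 < G.M * G.s := by positivity
  have η0 : 0 < η := by linarith only [hη, hMs]
  have hS0 : ENNReal.ofReal (G.s ^ m) ≠ 0 := by simpa using pow_pos s0 m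
  have hS1 : ENNReal.ofReal (G.s ^ m) ≠ ⊤ := ENNReal.ofReal_ne_top
  obtain ⟨Bad, mB, vB, hB⟩ := hb G rfl hG o η η0 ho u hu
  have mΦ : Measurable fun y => ‖fderiv ℝ u y - G.A‖ₑ ^ p :=
    (((hu.continuous_fderiv one_ne_zero).sub continuous_const).enorm.measurable).pow_const p
  have hin : ∀ b ∈ F, ∀ y, ‖y - G.cb b‖ ≤ 8 * G.M * G.s → ∀ t ∈ closedBall (0 : V m) η,
      y + t ∈ closedBall o (9 * η) := fun b hbF y hy t ht => by
    have h1 := mem_closedBall_iff_norm.1 (ho ((hF b).1 hbF).2)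
    have h2 := ASe_tri (d := y + t - o) hy (norm_neg (G.cb b - o) ▸ h1 : ‖-(G.cb b - o)‖ ≤ η)
      (mem_closedBall_zero_iff.1 ht) (by abel)
    rw [mem_closedBall_iff_norm]
    linarith only [hη, hMs, h2]
  have me : ∀ b, Measurable fun t : V m =>
      G.esk (fun y => ‖fderiv ℝ u (y + t) - G.A‖ₑ ^ p) b / ENNReal.ofReal (G.s ^ m) :=
    fun b => (G.esk_meas mΦ b).div_const _
  have mi : ∀ b, Measurable fun t : V m => Bad.indicator (1 : V m → ℝ≥0∞) (G.cb b + t) :=
    fun b => (measurable_one.indicator mB).comp (measurable_const_add _)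
  have ms : ∀ b, Measurable fun t : V m => ((1 + Ch) * (ENNReal.ofReal k0)⁻¹ + Ch) *
      (G.esk (fun y => ‖fderiv ℝ u (y + t) - G.A‖ₑ ^ p) b / ENNReal.ofReal (G.s ^ m)) +
      (1 + Ch) * Bad.indicator 1 (G.cb b + t) :=
    fun b => ((me b).const_mul _).add ((mi b).const_mul _)
  refine ⟨fun t => (∑ b ∈ F, (((1 + Ch) * (ENNReal.ofReal k0)⁻¹ + Ch) *
      (G.esk (fun y => ‖fderiv ℝ u (y + t) - G.A‖ₑ ^ p) b / ENNReal.ofReal (G.s ^ m)) +
      (1 + Ch) * Bad.indicator 1 (G.cb b + t))) * G.col,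
    (Finset.measurable_sum _ fun b _ => ms b).mul_const _, ?_, fun t ht f hf => ?_⟩
  · rw [lintegral_mul_const _ (Finset.measurable_sum _ fun b _ => ms b),
      lintegral_finsetSum _ fun b _ => ms b]
    refine (mul_le_mul_left (Finset.sum_le_card_nsmul _ _
      ((((1 + Ch) * (ENNReal.ofReal k0)⁻¹ + Ch) *
        ENNReal.ofReal (2 ^ (2 * m + 1) * (16 * G.M + 1) ^ (2 * m + 1) * (16 * G.M) ^ m) +
        (1 + Ch) * Cb) * ∫⁻ y in closedBall o (9 * η), ‖fderiv ℝ u y - G.A‖ₑ ^ p)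
      fun b hbF => ?_) _).trans ?_
    · rw [lintegral_add_left ((me b).const_mul _), lintegral_const_mul _ (me b),
        lintegral_const_mul _ (mi b), add_mul _ ((1 + Ch) * Cb), mul_assoc, mul_assoc (1 + Ch) Cb]
      gcongr
      · simp only [div_eq_mul_inv]
        rw [lintegral_mul_const _ (G.esk_meas mΦ b), ← div_eq_mul_inv,
          ENNReal.div_le_iff hS0 hS1]
        refine (Gr.esk_avg hG mΦ b measurableSet_closedBall (hin b hbF)).trans (le_of_eq ?_)
        rw [mul_right_comm (ENNReal.ofReal _) _ (ENNReal.ofReal (G.s ^ m)),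
          ← ENNReal.ofReal_mul (by positivity), mul_pow _ G.s, ← mul_assoc]
      · refine (setLIntegral_le_lintegral _ _).trans ?_
        rw [lintegral_add_left_eq_self (fun x => Bad.indicator (1 : V m → ℝ≥0∞) x),
          lintegral_indicator_one mB]
        exact vB
    · rw [nsmul_eq_mul, mul_right_comm]
      refine (mul_le_mul_left (Gr.card_F hG fun b hbF => (hF b).1 hbF) _).trans (le_of_eq ?_)
      rw [ENNReal.ofReal_mul (by positivity)]
      ring
  · have hut : ContDiff ℝ 1 fun x => u (x + t) := hu.comp (contDiff_id.add contDiff_const)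
    have hd : (fun y => ‖fderiv ℝ (fun x => u (x + t)) y - G.A‖ₑ ^ p) =
        fun y => ‖fderiv ℝ u (y + t) - G.A‖ₑ ^ p := by
      funext y
      rw [fderiv_comp_add_right]
    have ε0 : 0 < G.ε := by have := hG.σ0; unfold Gr.ε; positivity
    have ε1 : G.ε ≤ G.s / 1000 := by
      have := hG.σ1
      unfold Gr.ε
      linarith only [s0, this, mul_nonneg_of_nonpos_of_nonpos (le_of_lt (Mathlib.Tactic.Linarith.sub_neg_of_lt s0)) (Mathlib.Tactic.Linarith.sub_nonpos_of_le this)]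
    have e1 : ∀ b ∈ F, ∀ y ∈ (G.box (fun x => f (x + t)) b).Q G.s 56,
        ‖u (y + t) - f (y + t)‖ ≤ G.ε / 8 := fun b hbF y hy =>
      hf _ (hin b hbF y (by have := ((Gr.mem_Q _ hG (by norm_num)).1 hy).2; linarith only [this]) t ht)
    have e2 : ∀ b ∈ F, ‖u (G.cb b + t) - f (G.cb b + t)‖ ≤ G.ε / 8 := fun b hbF =>
      hf _ (hin b hbF _ (by rw [sub_self, norm_zero]; linarith only [hMs]) t ht)
    obtain ⟨Gd, hGd⟩ : ∃ Gd : Finset (Ix m → ℤ), ∀ b, b ∈ Gd ↔ b ∈ F ∧
        G.esk (fun y => ‖fderiv ℝ u (y + t) - G.A‖ₑ ^ p) b ≤ ENNReal.ofReal (k0 * G.s ^ m) ∧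
        G.cb b + t ∉ Bad := ⟨F.filter _, fun b => Finset.mem_filter⟩
    obtain ⟨H, hH⟩ : ∃ H : (Ix m → ℤ) → Finset (Ix m → ℤ), ∀ b' b, b ∈ H b' ↔ b ∈ Gd ∧
        ∃ y ∈ (G.box (fun x => f (x + t)) b').Sk G.s ∩ (G.box (fun x => f (x + t)) b').Q G.s 56,
          ∃ x ∈ (G.box (fun x => f (x + t)) b).Q G.s 12,
            ‖f (y + t) - (G.box (fun x => f (x + t)) b).aff x‖ ≤ 10 * G.ε :=
      ⟨fun b' => Gd.filter _, fun b' b => Finset.mem_filter⟩
    have g1 : ∀ b ∈ Gd, ∀ b' ∈ Gd, ‖u (G.cb b + t) - u (G.cb b' + t) - G.A (G.cb b - G.cb b')‖ ≤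
        G.σ / G.M * ‖G.cb b - G.cb b'‖ := fun b h1 b' h2 =>
      hB t ht b ((hF b).1 ((hGd b).1 h1).1) b' ((hF b').1 ((hGd b').1 h2).1) ((hGd b).1 h1).2.2
        ((hGd b').1 h2).2.2
    refine ⟨Gd \ (F \ Gd).biUnion H, Gr.kept_of_good hG _ (fun b hbF => ((hF b).1 hbF).1)
      (fun b h1 => ((hGd b).1 h1).1) Finset.sdiff_subset (fun b h1 x hx => ?_)
      (fun b h1 b' h2 => ?_) (fun b h1 b' h2 h3 y hy x hx => ?_),
      mul_le_mul_left (ASe_cnt H (fun b h1 => ?_) fun b' h1 => ?_) _⟩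
    · obtain ⟨h2, h3, -⟩ := (hGd b).1 h1
      have h4 := ASe_tri (d := f (x + t) - (G.A (x - G.cb b) + f (G.cb b + t)))
        (hk G rfl hG hI.le _ hut b (hd ▸ h3) x hx) (e1 b h2 x hx.2) (e2 b h2)
        (by simp only [Gr.box, Box.aff]; abel)
      exact h4.trans (by linarith only [ε0])
    · have h4 := ASe_tri (d := f (G.cb b + t) - f (G.cb b' + t) - G.A (G.cb b - G.cb b'))
        (g1 b h1 b' h2) (e2 b ((hGd b).1 h1).1) (e2 b' ((hGd b').1 h2).1) (by abel)
      exact h4.trans (by linarith only [ε0])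
    · obtain ⟨h4, h5⟩ := Finset.mem_sdiff.1 h1
      exact lt_of_not_ge fun h6 => h5 (Finset.mem_biUnion.2
        ⟨b', Finset.mem_sdiff.2 ⟨h2, h3⟩, (hH b' b).2 ⟨h4, y, hy, x, hx, h6⟩⟩)
    · obtain ⟨h2, h3⟩ := Finset.mem_sdiff.1 h1
      by_cases h4 : G.cb b + t ∈ Bad
      · rw [indicator_of_mem h4]
        exact le_add_self
      · refine le_trans ?_ le_self_add
        rw [← ENNReal.inv_mul_cancel hk0 ENNReal.ofReal_ne_top]
        gcongr
        rw [ENNReal.le_div_iff_mul_le (Or.inl hS0) (Or.inl hS1), ← ENNReal.ofReal_mul k0p.le]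
        exact le_of_not_ge fun h5 => h3 ((hGd b).2 ⟨h2, h5, h4⟩)
    · have h2 := (Finset.mem_sdiff.1 h1).1
      have h3 := hh G rfl hG hI.le _ hut b' (H b')
        (fun b h4 => ((hF b).1 ((hGd b).1 ((hH b' b).1 h4).1).1).1)
        (fun b h4 b'' h5 => (g1 b ((hH b' b).1 h4).1 b'' ((hH b' b'').1 h5).1).trans (by
          have := hG.σ0
          gcongr
          linarith only [M9])) fun b h4 => by
          obtain ⟨h5, y, hy, x, hx, h6⟩ := (hH b' b).1 h4
          refine ⟨y, ⟨Gr.Sk_sub_fine _ hG hy.1, hy.2⟩, ?_⟩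
          have h7 := ((Gr.mem_Q _ hG (by norm_num)).1 hx).2
          have h8 : ‖G.A (x - G.cb b)‖ ≤ G.Λ * (8 * G.M * G.s) :=
            (G.A.le_of_opNorm_le hG.nA _).trans
              (mul_le_mul_of_nonneg_left (by linarith only [ε0, ε1, h7]) (by linarith only [hG, hG.Λ1]))
          have h9 := ASe_tri (d := u (y + t) - u (G.cb b + t) - G.A (x - G.cb b))
            (e1 b' h2 y hy.2) (e2 b ((hGd b).1 h5).1) h6 (by simp only [Gr.box, Box.aff]; abel)
          have h10 := norm_add_le (u (y + t) - u (G.cb b + t) - G.A (x - G.cb b)) (G.A (x - G.cb b))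
          rw [sub_add_cancel] at h10
          have h11 : G.M * G.s ≤ G.Λ * (G.M * G.s) := le_mul_of_one_le_left hMs.le hG.Λ1
          have h12 : 9 * G.s ≤ G.M * G.s := mul_le_mul_of_nonneg_right M9 s0.le
          show ‖u (y + t) - u (G.cb b + t)‖ ≤ _
          linarith only [ε0, ε1, h8, h9, h10, h11, h12]
      rw [hd, ← ENNReal.le_div_iff_mul_le (Or.inl hS0) (Or.inl hS1), mul_div_assoc,
        ENNReal.add_div, ENNReal.div_self hS0 hS1] at h3
      exact h3

end BEp
end
end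
end
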