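import Pool.Agent.Work.MP_f0515e_an.PAMin
import Pool.Agent.Work.MP_f0515e_an.Accr

/-! Shared definitions for the positive approximation theorem. -/

open Set Metric Filter Topology Function BEv
open scoped NNReal

noncomputable section
namespace BEp

section General
variable {E F : Type} [NormedAddCommGroup E] [NormedSpace ℝ E] [NormedAddCommGroup F]
  [NormedSpace ℝ F]

/-- Finite compositions of maps `id + d` with `P d`. -/
inductive Word (P : (E → E) → Prop) : (E → E) → Prop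
  | id : Word P id
  | step {Φ d : E → E} : Word P Φ → P d → Word P (fun x => Φ x + d (Φ x))

def Small (d : E → E) : Prop := TP d ∧ ∃ K : ℝ≥0, K < 1 ∧ LipschitzWith K d

/-- The group generated by small piecewise affine perturbations of the identity. -/
def SG (Φ : E → E) : Prop := Word Small Φ

/-- Factors produced by the isotopy extension lemma. -/
def Fac (ε : ℝ≥0) (H : Submodule ℝ E) (cut : E → ℝ) (d : E → E) : Prop :=
  TP d ∧ LipschitzWith ε d ∧ (∀ z, d z ∈ H) ∧ ∀ z, cut z = 0 → d z = 0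

/-- Compact polyhedron (for a polyhedral norm). -/
def Poly (X : Set E) : Prop := IsCompact X ∧ TP (fun x => infDist x X)

/-- Covered by finitely many affine planes of dimension at most `d`. -/
def PC (d : ℕ) (X : Set E) : Prop :=
  ∃ S : Set (AffineSubspace ℝ E), S.Finite ∧ (∀ P ∈ S, Module.finrank ℝ P.direction ≤ d) ∧
    ∀ x ∈ X, ∃ P ∈ S, x ∈ P

/-- Covered by countably many Lipschitz images of subsets of `ℝ^d`. -/
def Sm (d : ℕ) (S : Set E) : Prop :=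
  ∃ (φ : ℕ → (Fin d → ℝ) → E) (A : ℕ → Set (Fin d → ℝ)),
    (∀ i, ∃ K : ℝ≥0, LipschitzOnWith K (φ i) (A i)) ∧ S ⊆ ⋃ i, φ i '' A i

/-- Null set for the Hausdorff measure of top dimension. -/
def Thin (S : Set E) : Prop :=
  ∀ [MeasurableSpace E] [BorelSpace E],
    MeasureTheory.Measure.hausdorffMeasure (Module.finrank ℝ E : ℝ) S = 0

/-- Linear family of maps. -/
def fam {κ : Type} [Fintype κ] (φ0 : E → F) (lam : κ → E → ℝ) (w : κ → F) (x : E) : F :=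
  φ0 x + ∑ j, lam j x • w j

/-- Ambient equivalence on `Z`, rigid near the images of the points of `C`. -/
def Eqv (Z C : Set E) (u u' : E → F) : Prop :=
  ∃ Φ : F → F, SG Φ ∧ (∀ c ∈ C, Φ =ᶠ[𝓝 (u c)] id) ∧ ∀ x ∈ Z, Φ (u x) = u' x

/-- A convex flat piece of `Z` of dimension `m`, open in `Z`. -/
def Flat (m : ℕ) (Z C U : Set E) : Prop :=
  Convex ℝ U ∧ Disjoint U C ∧ (∃ O, IsOpen O ∧ U = Z ∩ O) ∧
    ∃ P : AffineSubspace ℝ E, Module.finrank ℝ P.direction = m ∧ U ⊆ P ∧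
      ∀ x ∈ U, ∃ ε > 0, (P : Set E) ∩ ball x ε ⊆ U

/-- Near pairs of points. -/
def Nr (m : ℕ) (Z C Z1 : Set E) (x y : E) : Prop :=
  ∃ v ∈ Z1, v ∉ C ∧ v ∈ Z ∧ ∃ U U', Flat m Z C U ∧ Flat m Z C U' ∧ x ∈ U ∧ y ∈ U' ∧
    v ∈ closure U ∧ v ∈ closure U'

/-- A convex open cell with an affine chart. -/
structure Cell (d : ℕ) (E : Type) [NormedAddCommGroup E] [NormedSpace ℝ E] where
  M : (Fin d → ℝ) →L[ℝ] E
  o : E
  inj : Injective M
  U : Set (Fin d → ℝ)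
  conv : Convex ℝ U
  op : IsOpen U
  bdd : Bornology.IsBounded U
  ne : U.Nonempty

def Cell.φ {d : ℕ} (c : Cell d E) (y : Fin d → ℝ) : E := c.M y + c.o

def Cell.car {d : ℕ} (c : Cell d E) : Set E := c.φ '' c.U

def Cell.cl {d : ℕ} (c : Cell d E) : Set E := c.φ '' closure c.U

def Cell.bd {d : ℕ} (c : Cell d E) : Set E := c.φ '' frontier c.U

/-- The two top layers of a cell structure. -/
structure Strat (m : ℕ) (Z : Set E) where
  nT : ℕ
  top : Fin nT → Cell m E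
  nM : ℕ
  mid : Fin nM → Cell (m - 1) E
  Z1 : Set E
  Z2 : Set E
  p1 : Poly Z1
  pc1 : PC (m - 1) Z1
  c2 : IsCompact Z2
  pc2 : PC (m - 2) Z2
  s21 : Z2 ⊆ Z1
  s1 : Z1 ⊆ Z
  top_sub : ∀ i, (top i).car ⊆ Z \ Z1
  top_cov : ∀ x ∈ Z \ Z1, ∃ i, x ∈ (top i).car
  top_disj : ∀ i j, i ≠ j → Disjoint (top i).car (top j).car
  top_bd : ∀ i, (top i).bd ⊆ Z1
  top_cl : ∀ i, Poly (top i).cl
  top_rest : ∀ i, Poly (Z \ (top i).car)
  mid_sub : ∀ e, (mid e).car ⊆ Z1 \ Z2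
  mid_cov : ∀ x ∈ Z1 \ Z2, ∃ e, x ∈ (mid e).car
  mid_disj : ∀ e e', e ≠ e' → Disjoint (mid e).car (mid e').car
  mid_bd : ∀ e, (mid e).bd ⊆ Z2
  mid_rest : ∀ e, IsClosed (Z1 \ (mid e).car)
  front : ∀ e i, ((mid e).car ∩ (top i).cl).Nonempty → (mid e).car ⊆ (top i).cl

/-- The affine functional `A` has constant sign on `s`. -/
def SignConst (A : (E →L[ℝ] ℝ) × ℝ) (s : Set E) : Prop :=
  ∀ x ∈ s, ∀ y ∈ s, SignType.sign (A.1 x + A.2) = SignType.sign (A.1 y + A.2)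

/-- Difference map on pairs. -/
def tl {X : Type} (u : X → F) (p : X × X) : F := u p.1 - u p.2

/-- Concatenation of two homotopies; always continuous, and the usual one where
`H (x, 1) = K (x, 0)`. -/
def cat {X : Type} (H K : X × ℝ → F) (p : X × ℝ) : F :=
  H (p.1, min (2 * p.2) 1) + K (p.1, max (2 * p.2 - 1) 0) - K (p.1, 0)

/-- Reversed homotopy. -/
def rev {X : Type} (H : X × ℝ → F) (p : X × ℝ) : F := H (p.1, 1 - p.2)

/-- Odd nonvanishing homotopy on a set of pairs. -/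
structure OH (D : Set (E × E)) (F0 F1 : E × E → F) (H : (E × E) × ℝ → F) : Prop where
  cont : Continuous H
  odd : ∀ p s, H (Prod.swap p, s) = -H (p, s)
  ne : ∀ p ∈ D, ∀ s ∈ Icc (0 : ℝ) 1, H (p, s) ≠ 0
  zero : ∀ p ∈ D, H (p, 0) = F0 p
  one : ∀ p ∈ D, H (p, 1) = F1 p

/-- The loop `H` on `J` is oddly homotopic, relative to its ends, to the constant loop. -/
def Fill (J : Set (E × E)) (H : (E × E) × ℝ → F) : Prop :=
  ∃ K : ((E × E) × ℝ) × ℝ → F, Continuous K ∧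
    (∀ p s r, K ((Prod.swap p, s), r) = -K ((p, s), r)) ∧
    ∀ p ∈ J, ∀ s ∈ Icc (0 : ℝ) 1,
      (∀ r ∈ Icc (0 : ℝ) 1, K ((p, s), r) ≠ 0) ∧ K ((p, s), 0) = H (p, s) ∧
      K ((p, s), 1) = H (p, 0) ∧ K ((p, 0), s) = H (p, 0) ∧ K ((p, 1), s) = H (p, 0)

def Symm {X : Type} (D : Set (X × X)) : Prop := ∀ p ∈ D, Prod.swap p ∈ D

/-- Admissible pair for the degree. -/
def Adm (O : Set E) (G : E → F) : Prop :=
  IsOpen O ∧ Bornology.IsBounded O ∧ Continuous G ∧ ∀ x ∈ frontier O, G x ≠ 0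

/-- Defining properties of the degree. -/
structure IsDeg (dg : Set E → (E → F) → ℤ) : Prop where
  htp : ∀ (O : Set E) (H : E × ℝ → F), IsOpen O → Bornology.IsBounded O → Continuous H →
    (∀ x ∈ frontier O, ∀ s ∈ Icc (0 : ℝ) 1, H (x, s) ≠ 0) →
    dg O (fun x => H (x, 0)) = dg O (fun x => H (x, 1))
  add : ∀ (O O1 O2 : Set E) (G : E → F), Adm O G → IsOpen O1 → IsOpen O2 → O1 ⊆ O → O2 ⊆ O →
    Disjoint O1 O2 → (∀ x ∈ O, G x = 0 → x ∈ O1 ∪ O2) → dg O G = dg O1 G + dg O2 G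
  aff : ∃ e0 : F ≃L[ℝ] E, ∀ (O : Set E) (M : E ≃L[ℝ] F) (x0 : E), IsOpen O →
    Bornology.IsBounded O → x0 ∈ O → dg O (fun x => M (x - x0)) =
      (SignType.sign (ContinuousLinearMap.det ((e0 : F →L[ℝ] E).comp (M : E →L[ℝ] F))) : ℤ)

end General

section Grid
variable {ι : Type} [Fintype ι]

open Classical in
/-- Skeleton of the integer grid. -/
def Skel (d : ℕ) : Set (ι → ℝ) := {x | (Finset.univ.filter (fun l => dd (x l) ≠ 0)).card ≤ d}

/-- `x` lies in the smallest closed grid cell containing `q`. -/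
def InCar (x q : ι → ℝ) : Prop := ∀ l, (⌊q l⌋ : ℝ) ≤ x l ∧ x l ≤ (⌈q l⌉ : ℝ)

end Grid

/-- A rigid box with its affine map. -/
structure Box (m : ℕ) where
  c : V m
  I : Finset (Fin (2 * m + 1))
  r : ℕ
  A : V m →L[ℝ] V m
  b : V m

namespace Box
variable {m : ℕ} (B : Box m) (s : ℝ)

def slice : Set (V m) := {x | ∀ l, l ∉ B.I → x l = B.c l}

def Q (ρ : ℝ) : Set (V m) := {x | x ∈ B.slice ∧ ∀ l ∈ B.I, |x l - B.c l| ≤ s * (B.r + ρ)}

def thick (ρ e : ℝ) : Set (V m) :=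
  {x | (∀ l ∈ B.I, |x l - B.c l| ≤ s * (B.r + ρ)) ∧ ∀ l, l ∉ B.I → |x l - B.c l| ≤ e}

def aff (x : V m) : V m := B.A (x - B.c) + B.b

open Classical in
/-- Skeleton of the fine grid (mesh `s`) in the slice. -/
def fine : Set (V m) :=
  {x | x ∈ B.slice ∧ (B.I.filter (fun l => dd ((x l - B.c l) / s) ≠ 0)).card ≤ m}

open Classical in
/-- Skeleton of the coarse grid (mesh `16 s`) in the slice. -/
def Sk : Set (V m) :=
  {x | x ∈ B.slice ∧
    (B.I.filter (fun l => dd (((x l - B.c l) / s - (B.r + 8)) / 16) ≠ 0)).card ≤ m}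

end Box

/-- The difference map of `f` is oddly homotopic to plus or minus that of the inclusion. -/
def NatP {m : ℕ} (S : Set (V m)) (f : V m → V m) : Prop :=
  ∃ σ : ℝ, (σ = 1 ∨ σ = -1) ∧ ∀ D : Set (V m × V m), IsCompact D → Symm D →
    (∀ p ∈ D, p.1 ∈ S ∧ p.2 ∈ S ∧ p.1 ≠ p.2) → ∃ H, OH D (tl fun x => σ • f x) (tl id) H

/-- Hypotheses of the topological theorem (the point `c0` is not used). -/
structure TopHyp {m : ℕ} {ι : Type} (S Z : Set (V m)) (_c0 : V m) (f : V m → V m)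
    (B : ι → Box m) (s : ℝ) (ε : ι → ℝ) : Prop where
  nat : NatP S f
  cont : Continuous f
  inj : InjOn f S
  poly : Poly Z
  pc : PC m Z
  ZS : Z ⊆ S
  s0 : 0 < s
  ε0 : ∀ i, 0 < ε i
  card : ∀ i, m < (B i).I.card
  r8 : ∀ i, 8 ∣ (B i).r ∧ 16 ≤ (B i).r
  QS : ∀ i, (B i).Q s 40 ⊆ S
  disj : ∀ i j, i ≠ j → Disjoint ((B i).Q s 40) ((B j).Q s 40)
  thick : ∀ i, ∃ e > 0, Z ∩ (B i).thick s 30 e ⊆ (B i).slice
  sk : ∀ i, ∀ x ∈ (B i).Q s 30, (∃ l ∈ (B i).I, s * ((B i).r + 4) ≤ |x l - (B i).c l|) →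
    (x ∈ Z ↔ x ∈ (B i).Sk s)
  low : ∀ i, ∀ z : V m, (∀ l, l ∉ (B i).I → z l = 0) → 1000 * ε i * ‖z‖ ≤ s * ‖(B i).A z‖
  close : ∀ i, ∀ x ∈ (B i).fine s ∩ (B i).Q s 40, ‖f x - (B i).aff x‖ ≤ ε i
  nohit : ∀ i, ∀ x ∈ (B i).Q s 12, ∀ y ∈ Z, y ∉ (B i).Q s 16 → 10 * ε i < ‖f y - (B i).aff x‖
  sep : ∀ i j, i ≠ j → ∀ x ∈ (B i).Q s 12, ∀ y ∈ (B j).Q s 12,
    10 * ε i < ‖(B j).aff y - (B i).aff x‖

end BEp
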