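import Pool.Agent.Work.MP_f0515e_an.Pos.AG2
import Pool.Agent.Work.MP_f0515e_an.Pos.PLPoly
import Pool.Agent.Work.MP_f0515e_an.Pos.ASe
import Pool.Agent.Work.MP_f0515e_an.Pos.AG1
import Pool.Agent.Work.MP_f0515e_an.Pos.ADefs
import Pool.Agent.Work.MP_f0515e_an.Pos.ACj
import Pool.Agent.Work.MP_f0515e_an.Pos.Defs

-- merged part: Pool.Agent.Work.MP_f0515e_an.Pos.AZ
section
-- merged part: Pool.Agent.Work.MP_f0515e_an.Pos.AG3
section
/-! TASK AG3. The first retraction r1, the cubes, the weight.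
Plan. cut1 is a cmin of nonnegative 1-Lipschitz functions (abs_nr_sub_le), capped by 1. r1 moves by at most eta1. r1_land: if cut1 = 1 then loc = RI and RI_mem, the image lies in Qc q 2; it is in Z1 or in some opn 2.
If cut1 < 1 then nr z < (1 - 3 gamma) h + Lambda eta1 for some a, and the image has nr < (1 - 3 gamma) h + 2 Lambda eta1 <= (1 - 2 gamma) h. r1_cube: z is in cell (-1), hence in the open ball around o (q a); use far.
cc_r1: r1 is cj with the identity equivalence, c = 0, omega = 0, or directly CC.comp with scalings. W: at most one indicator is nonzero is not needed here; b1 <= 1/2 gives 2 <= W. -/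

open Set Metric Filter Topology Function BEv MeasureTheory
open scoped NNReal ENNReal

noncomputable section
namespace BEp

variable {m : ℕ} {ι κ : Type} [Fintype ι] [Fintype κ]

namespace Cf0
variable {X : Cf0 m ι κ} {z : V m}

theorem Ok.cty (hX : X.Ok) (a : κ) : (X.C a).toTyp.Ok := hX.ty _

theorem AG3_pos (hX : X.Ok) (a : κ) : 0 < (X.C a).Λ * X.η1 :=
  mul_pos (lt_of_lt_of_le one_pos (hX.cty a).Λ1) hX.η10

theorem AG3_cut0 (hX : X.Ok) (x : V m) : 0 ≤ X.cut1 x :=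
  le_cmin _ _ _ zero_le_one fun a _ => div_nonneg (le_max_right _ _) (AG3_pos hX a).le

theorem AG3_cut1 (x : V m) : X.cut1 x ≤ 1 := cmin_le_cap _ _ _

theorem AG3_lip (hX : X.Ok) (x y : V m) : |X.cut1 x - X.cut1 y| ≤ ‖x - y‖ := by
  refine abs_cmin_sub_le _ _ _ (by simp) fun a _ => ?_
  rw [← sub_div, abs_div, abs_of_pos (AG3_pos hX a), div_le_iff₀ (AG3_pos hX a)]
  refine (abs_max_sub_max_le_abs _ _ _).trans ?_
  rw [sub_sub_sub_cancel_right]
  refine (Cel.abs_nr_sub_le (hX.cty a) _ _).trans (le_of_eq ?_)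
  rw [← smul_sub, norm_smul, Real.norm_eq_abs, abs_of_pos hX.η10]
  ring

theorem AG3_tp (X : Cf0 m ι κ) : TP X.cut1 :=
  TP.cmin _ (TP.const 1) fun a _ =>
    (((((X.C a).tp_nr.comp (TP.id'.const_smul X.η1)).sub (TP.const _)).max
      (TP.const 0)).div_const _)

theorem AG3_cj (X : Cf0 m ι κ) (R : V m → V m) :
    X.r1 R = cj (ContinuousLinearEquiv.refl ℝ (V m)) 0 X.η1 0 (loc X.cut1 R) := by
  funext z
  simp [r1, cj, xi]

theorem AG3_sm (hX : X.Ok) (z : V m) : X.η1 • X.η1⁻¹ • z = z := smul_inv_smul₀ hX.η10.ne' z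

theorem cell_sub (hX : X.Ok) (a : κ) : (X.C a).cell 0 ⊆ X.Qc (X.q a) 1 := fun z hz => by
  have h1 := hX.ins a (Cel.cell_mono (hX.cty a) (hX.h0 a) (by norm_num : (-1 : ℝ) ≤ 0) hz)
  unfold Qc
  rw [one_mul]
  exact ball_subset_closedBall h1

theorem norm_r1_sub_le (hX : X.Ok) (R : V m → V m) (z : V m) : ‖X.r1 R z - z‖ ≤ X.η1 := by
  have e : X.r1 R z - z = X.η1 • (loc X.cut1 R (X.η1⁻¹ • z) - X.η1⁻¹ • z) := by
    rw [smul_sub, AG3_sm hX]
    rfl
  rw [e, norm_smul, Real.norm_eq_abs, abs_of_pos hX.η10]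
  have := (norm_loc_sub_le R (AG3_cut0 hX (X.η1⁻¹ • z))).trans (AG3_cut1 _)
  nlinarith [hX.η10]

theorem r1_eq_self (hX : X.Ok) (R : V m → V m) {a : κ} (hz : z ∈ (X.C a).cell 3) :
    X.r1 R z = z := by
  have h0 : X.cut1 (X.η1⁻¹ • z) = 0 := by
    refine le_antisymm ((cmin_le _ _ _ (Finset.mem_univ a)).trans (le_of_eq ?_)) (AG3_cut0 hX _)
    have h1 : (X.C a).nr z ≤ (1 - 3 * (X.C a).γ) * X.h a := hz
    rw [AG3_sm hX, max_eq_right (by linarith), zero_div]
  unfold r1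
  rw [loc_eq_self h0, AG3_sm hX]

theorem r1_mem (hX : X.Ok) (R : V m → V m) {q : ι} (hz : z ∈ X.Qc q 1) : X.r1 R z ∈ X.Qc q 2 := by
  have h1 := norm_r1_sub_le hX R z
  have h2 : dist z (X.o q) ≤ 1 * X.η := hz
  have h3 := dist_triangle (X.r1 R z) z (X.o q)
  rw [← dist_eq_norm] at h1
  change dist _ _ ≤ 2 * X.η
  linarith [hX.η1η]

theorem AG3_nr (hX : X.Ok) (R : V m → V m) (z : V m) (a : κ) :
    |(X.C a).nr (X.r1 R z) - (X.C a).nr z| ≤ (X.C a).Λ * X.η1 :=
  (Cel.abs_nr_sub_le (hX.cty a) _ _).trans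
    (mul_le_mul_of_nonneg_left (norm_r1_sub_le hX R z) (zero_le_one.trans (hX.cty a).Λ1))

theorem r1_cube (hX : X.Ok) (R : V m → V m) {q : ι} (hz : z ∈ X.Qc q 1) {a : κ}
    (h : X.r1 R z ∈ (X.C a).cell 0) : X.q a = q := by
  by_contra hne
  have h1 : (X.C a).nr (X.r1 R z) ≤ (1 - 0 * (X.C a).γ) * X.h a := h
  have h2 := (abs_le.1 (AG3_nr hX R z a)).1
  have h3 := hX.η1h a
  have h4 := AG3_pos hX a
  have h5 : z ∈ (X.C a).cell (-1) := by
    change (X.C a).nr z ≤ (1 - (-1) * (X.C a).γ) * X.h a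
    nlinarith
  have h6 : dist z (X.o (X.q a)) < X.η := hX.ins a h5
  have h7 : dist z (X.o q) ≤ 1 * X.η := hz
  have h8 := hX.far _ _ hne
  rw [← dist_eq_norm] at h8
  linarith [dist_triangle_left (X.o (X.q a)) (X.o q) z]

theorem r1_land (hX : X.Ok) {K : ℕ} (hK : dl K ≤ X.b1 z) {q : ι} (hz : z ∈ X.Qc q 1) :
    X.r1 (RI Finset.univ K) z ∈ X.Z1 ∨ ∃ a, X.r1 (RI Finset.univ K) z ∈ (X.C a).opn 2 := by
  by_cases hc : ∃ a, X.r1 (RI Finset.univ K) z ∈ (X.C a).opn 2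
  · exact Or.inr hc
  left
  have h1 : X.cut1 (X.η1⁻¹ • z) = 1 := by
    refine le_antisymm (AG3_cut1 _) (le_cmin _ _ _ le_rfl fun a _ => ?_)
    rw [le_div_iff₀ (AG3_pos hX a), AG3_sm hX]
    refine le_trans ?_ (le_max_left _ _)
    have h2 : ¬ (X.C a).nr (X.r1 (RI Finset.univ K) z) < (1 - 2 * (X.C a).γ) * X.h a :=
      fun h => hc ⟨a, h⟩
    have h3 := (abs_le.1 (AG3_nr hX (RI Finset.univ K) z a)).2
    have h4 := hX.η1h a
    nlinarith
  refine ⟨mem_iUnion.2 ⟨q, r1_mem hX _ hz⟩, ?_, fun a h => hc ⟨a, h⟩⟩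
  unfold r1
  rw [inv_smul_smul₀ hX.η10.ne', loc_eq_of_le fun i => by
    rw [h1]; exact abs_RI_sub_le _ _ _ i]
  exact RI_mem hK

theorem r1_KL {K : ℕ} (hK : dl K ≤ X.b1 z) :
    X.r1 (RI Finset.univ K) z = X.r1 (RL Finset.univ) z := by
  unfold r1
  rw [loc_congr rfl (RI_eq_RL hK)]

theorem ll_r1 (hX : X.Ok) (K : ℕ) (hz : 0 < X.b1 z) :
    LL (X.r1 (RI Finset.univ K)) z (2 / X.b1 z) := by
  rw [AG3_cj]
  have h1 : X.b1 z ≤ 1 / 2 := beI_le_half _ _
  have h2 : 1 + 1 ≤ 2 / X.b1 z := by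
    rw [le_div_iff₀ hz]
    linarith
  have h3 : LL (loc X.cut1 (RI Finset.univ K)) (X.η1⁻¹ • z) (2 / X.b1 z) :=
    LL.loc (ll_RI K hz) (LL.of_forall (c := 1) (fun x y => by
      rw [one_mul, Real.norm_eq_abs]; exact AG3_lip hX x y) _) zero_le_one h2
  have h4 := ll_cj (ContinuousLinearEquiv.refl ℝ (V m)) 0 0 (z := z)
    (Φ := loc X.cut1 (RI Finset.univ K)) hX.η10 (Λ := 1) (k := 2 / X.b1 z) zero_le_one
    (by linarith) (fun y => by simp) (fun y => by simp) (by simpa [xi] using h3)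
  simpa using h4

theorem cc_r1 (hX : X.Ok) (K : ℕ) : CC (X.r1 (RI Finset.univ K)) := by
  rw [AG3_cj]
  exact cc_cj _ _ _ hX.η10.ne'
    (cc_of_accr ((accr_RI _ K).loc (AG3_lip hX)) ((tp_RI _ K).loc (AG3_tp X)))

theorem measurable_r1 (hX : X.Ok) : Measurable (X.r1 (RL Finset.univ)) := by
  rw [AG3_cj]
  exact measurable_cj _ _ _ _ (measurable_loc (AG3_tp X).continuous.measurable (measurable_RL _))

theorem measurable_b1 (X : Cf0 m ι κ) : Measurable X.b1 :=
  ((tp_beI _).continuous.comp (continuous_const_smul X.η1⁻¹)).measurable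

theorem measurable_wt (hX : X.Ok) (s : ℝ) (ω : κ → V m) : Measurable (X.wt s ω) := by
  refine (measurable_b1 X).ennreal_ofReal.inv.mul (Measurable.const_add
    (Finset.measurable_sum _ fun a _ => ?_) 1)
  exact (((X.gr s ω a).measurable_b2.ennreal_ofReal.inv).indicator
    ((X.C a).isClosed_cell 0).measurableSet).comp (measurable_r1 hX)

omit [Fintype ι] in
theorem AG3_w1 (X : Cf0 m ι κ) (s : ℝ) (ω : κ → V m) (z : V m) :
    (ENNReal.ofReal (X.b1 z))⁻¹ ≤ X.wt s ω z :=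
  le_mul_of_one_le_right' le_self_add

omit [Fintype ι] in
theorem AG3_w2 {s : ℝ} {ω : κ → V m} {a : κ}
    (ha : X.r1 (RL Finset.univ) z ∈ (X.C a).cell 0) :
    (ENNReal.ofReal (X.b1 z))⁻¹ *
      (ENNReal.ofReal ((X.gr s ω a).b2 (X.r1 (RL Finset.univ) z)))⁻¹ ≤ X.wt s ω z := by
  refine mul_le_mul_right (le_trans ?_ le_add_self) _
  refine le_trans (le_of_eq ?_) (Finset.single_le_sum (f := fun a => indicator ((X.C a).cell 0)
    (fun y => (ENNReal.ofReal ((X.gr s ω a).b2 y))⁻¹) (X.r1 (RL Finset.univ) z))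
    (fun _ _ => zero_le) (Finset.mem_univ a))
  rw [indicator_of_mem ha]

theorem AG3_dl {K : ℕ} {b : ℝ} (hb : 0 < b) (h : 1 / b ≤ 2 ^ K) : dl K ≤ b := by
  unfold dl
  rw [div_le_iff₀ hb] at h
  rw [div_le_iff₀ (by positivity), pow_succ]
  nlinarith

theorem AG3_lt {w : ℝ≥0∞} {K : ℕ} (h : w < 2 ^ K) : w ≠ ⊤ ∧ w.toReal ≤ 2 ^ K := by
  refine ⟨ne_top_of_lt h, ?_⟩
  have := ENNReal.toReal_mono (by finiteness) h.le
  simpa using this

theorem two_le_wt (X : Cf0 m ι κ) (s : ℝ) (ω : κ → V m) (z : V m) : 2 ≤ X.wt s ω z := by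
  refine le_trans ?_ (AG3_w1 X s ω z)
  rw [ENNReal.le_inv_iff_le_inv]
  refine (ENNReal.ofReal_le_ofReal (beI_le_half _ _)).trans (le_of_eq ?_)
  rw [ENNReal.ofReal_div_of_pos two_pos]
  simp

theorem b1_of_wt {s : ℝ} {ω : κ → V m} (h : X.wt s ω z ≠ ⊤) :
    0 < X.b1 z ∧ 1 / X.b1 z ≤ (X.wt s ω z).toReal := by
  have h1 := AG3_w1 X s ω z
  have h0 : 0 < X.b1 z := by
    by_contra hc
    rw [ENNReal.ofReal_of_nonpos (not_lt.1 hc), ENNReal.inv_zero] at h1
    exact h (top_le_iff.1 h1)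
  refine ⟨h0, (ENNReal.ofReal_le_iff_le_toReal h).1 ?_⟩
  rwa [one_div, ENNReal.ofReal_inv_of_pos h0]

theorem b2_of_wt {s : ℝ} {ω : κ → V m} (h : X.wt s ω z ≠ ⊤) {a : κ}
    (ha : X.r1 (RL Finset.univ) z ∈ (X.C a).cell 0) :
    0 < (X.gr s ω a).b2 (X.r1 (RL Finset.univ) z) ∧
      1 / X.b1 z * (1 / (X.gr s ω a).b2 (X.r1 (RL Finset.univ) z)) ≤ (X.wt s ω z).toReal := by
  have h1 := AG3_w2 (s := s) (ω := ω) ha
  have h2 := (b1_of_wt h).1
  have h0 : 0 < (X.gr s ω a).b2 (X.r1 (RL Finset.univ) z) := by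
    by_contra hc
    rw [ENNReal.ofReal_of_nonpos (not_lt.1 hc), ENNReal.inv_zero,
      ENNReal.mul_top (ENNReal.inv_ne_zero.2 ENNReal.ofReal_ne_top)] at h1
    exact h (top_le_iff.1 h1)
  refine ⟨h0, (ENNReal.ofReal_le_iff_le_toReal h).1 ?_⟩
  rwa [ENNReal.ofReal_mul (by positivity), one_div, one_div, ENNReal.ofReal_inv_of_pos h0,
    ENNReal.ofReal_inv_of_pos h2]

theorem dl_le_b1 {s : ℝ} {ω : κ → V m} {K : ℕ} (h : X.wt s ω z < 2 ^ K) : dl K ≤ X.b1 z := by
  obtain ⟨h1, h2⟩ := AG3_lt h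
  obtain ⟨h3, h4⟩ := b1_of_wt h1
  exact AG3_dl h3 (h4.trans h2)

theorem dl_le_b2 {s : ℝ} {ω : κ → V m} {K : ℕ} (h : X.wt s ω z < 2 ^ K) {a : κ}
    (ha : X.r1 (RL Finset.univ) z ∈ (X.C a).cell 0) :
    dl K ≤ (X.gr s ω a).b2 (X.r1 (RL Finset.univ) z) := by
  obtain ⟨h1, h2⟩ := AG3_lt h
  obtain ⟨h3, h4⟩ := b2_of_wt h1 ha
  have h5 := (b1_of_wt h1).1
  have h6 : X.b1 z ≤ 1 / 2 := beI_le_half _ _
  have h7 : 1 ≤ 1 / X.b1 z := by
    rw [le_div_iff₀ h5]
    linarith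
  refine AG3_dl h3 (le_trans ?_ (h4.trans h2))
  exact le_mul_of_one_le_left (by positivity) h7

theorem isCompact_Reg (X : Cf0 m ι κ) : IsCompact X.Reg :=
  isCompact_iUnion fun _ => isCompact_closedBall _ _

end Cf0

theorem Cfg.Ok.gok {X : Cfg m ι κ} (hX : X.Ok) (a : κ) : (X.G a).Ok := by
  refine ⟨hX.toOk.cty a, hX.h0 a, hX.s0, ?_⟩
  have h1 := hX.sρ a
  have h2 := hX.ρh a
  have h3 := (hX.toOk.cty a).Λ1
  have h4 := hX.ρ0
  change 64 * (X.C a).M * X.s ≤ (X.C a).γ * X.h a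
  nlinarith

end BEp
end
end

-- merged part: Pool.Agent.Work.MP_f0515e_an.Pos.AZ
section
/-! TASK AZ. The polyhedra Z1, Y, Zs, Z.
Plan. pc_sk: for x in the set extend the non-integer coordinates to J inside I with card J = min m (card I); x lies in the plane {y l = k l on I minus J, y l = v l off I}, finitely many integer vectors k occur;
the direction is spanned by card J <= m basis vectors. Z1 = Reg cut by finitely many TP inequalities (Poly.biUnion, Poly.closedBall, poly_le with muI univ and (1 - 2 gamma) h - nr; mem_SkI_iff; m < 2m+1).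
PC: Z1 is the image of the set of pc_sk under scaling, Zs under the inverse chart (PC.image, PC.mono); on the slice xi x l = - omega l off I. Zs: poly_zero or poly_le, two cases m < card I or SkI = univ.
Images: Poly.image, PC.image with tp_gl and CC.tp. Z inside Reg: tau preserves cells (inside Qc (q a) 1) and fixes the other points. -/

open Set Metric Filter Topology Function BEv MeasureTheory
open scoped NNReal ENNReal

noncomputable section
namespace BEp

variable {m : ℕ} {ι κ : Type} [Fintype ι] [Fintype κ]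

theorem pc_sk (I : Finset (Ix m)) (v : V m) (R : ℝ) :
    PC m {x : V m | ‖x‖ ≤ R ∧ x ∈ SkI I ∧ ∀ l, l ∉ I → x l = v l} := by
  classical
  let P : Finset (Ix m) × (Ix m → ℤ) → AffineSubspace ℝ (V m) := fun p =>
    AffineSubspace.mk' (fun l => if l ∈ I then (p.2 l : ℝ) else v l)
      (LinearMap.range (emb p.1 : (p.1 → ℝ) →ₗ[ℝ] V m))
  refine ⟨P '' ({J | J.card ≤ m} ×ˢ Icc (fun _ => -(⌈R⌉ + 1)) fun _ => ⌈R⌉ + 1),
    ((toFinite _).prod (finite_Icc _ _)).image _, ?_, ?_⟩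
  · rintro _ ⟨p, hp, rfl⟩
    rw [AffineSubspace.direction_mk']
    refine (LinearMap.finrank_range_le _).trans ?_
    rw [Module.finrank_fintype_fun_eq_card, Fintype.card_coe]
    exact hp.1
  · rintro x ⟨h1, h2, h3⟩
    have hb : ∀ l, |round (x l)| ≤ ⌈R⌉ + 1 := fun l => by
      have k1 : |x l| ≤ R := (norm_le_pi_norm x l).trans h1
      have k2 := abs_sub_round (x l)
      have k3 := Int.le_ceil R
      have k4 : |(round (x l) : ℝ)| ≤ ⌈R⌉ + 1 := by
        rw [abs_le] at k1 k2 ⊢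
        constructor <;> linarith [k1.1, k1.2, k2.1, k2.2]
      exact_mod_cast k4
    refine ⟨_, ⟨(I.filter fun l => dd (x l) ≠ 0, fun l => round (x l)), ⟨h2,
      fun l => (abs_le.1 (hb l)).1, fun l => (abs_le.1 (hb l)).2⟩, rfl⟩, ?_⟩
    refine AffineSubspace.mem_mk'.2 ⟨fun l => x l - round (x l), funext fun l => ?_⟩
    simp only [emb, ContinuousLinearMap.coe_coe, ContinuousLinearMap.pi_apply, vsub_eq_sub,
      Pi.sub_apply]
    by_cases hl : l ∈ I.filter fun l => dd (x l) ≠ 0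
    · rw [dif_pos hl, if_pos (Finset.mem_filter.1 hl).1]
      rfl
    · rw [dif_neg hl, _root_.zero_apply]
      split_ifs with hI
      · have : dd (x l) = 0 := by_contra fun k => hl (Finset.mem_filter.2 ⟨hI, k⟩)
        exact (abs_eq_zero.1 this).symm
      · rw [h3 l hI, sub_self]

/-- Finitely many inequalities cut out a polyhedron. -/
theorem AZ_all {α : Type} [Fintype α] {X : Set (V m)} (hX : Poly X) {D : α → V m → ℝ}
    (hD : ∀ a, TP (D a)) : Poly {x ∈ X | ∀ a, D a x ≤ 0} := by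
  convert poly_le hX (TP.sum Finset.univ fun a _ => (hD a).max (TP.const 0)) using 1
  ext x
  simp only [mem_ofPred_eq]
  refine and_congr_right fun _ => ⟨fun h => ?_, fun h a => ?_⟩
  · exact Finset.sum_nonpos fun a _ => max_le (h a) le_rfl
  · exact (le_max_left _ _).trans ((Finset.single_le_sum (f := fun a => max (D a x) 0)
      (fun a _ => le_max_right _ _) (Finset.mem_univ a)).trans h)

theorem AZ_bdd (I : Finset (Ix m)) (v : V m) (R : ℝ) :
    Bornology.IsBounded {x : V m | ‖x‖ ≤ R ∧ x ∈ SkI I ∧ ∀ l, l ∉ I → x l = v l} :=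
  (isBounded_closedBall (x := (0 : V m)) (r := R)).subset fun _ h => mem_closedBall_zero_iff.2 h.1

theorem Cf0.poly_Z1 {X : Cf0 m ι κ} (hX : X.Ok) : Poly X.Z1 := by
  have h1 : Poly X.Reg := by
    have := Poly.biUnion (finite_univ (α := ι)) fun q _ => Poly.closedBall (X.o q) (2 * X.η)
    simpa only [mem_univ, iUnion_true, Cf0.Reg, Cf0.Qc] using this
  have h2 := AZ_all (poly_le h1 ((tp_muI Finset.univ).comp (TP.id'.const_smul X.η1⁻¹)))
    fun a => (TP.const ((1 - 2 * (X.C a).γ) * (X.C a).h)).sub (X.C a).tp_nr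
  convert h2 using 1
  ext z
  have hc : (Finset.univ : Finset (Ix m)).card = 2 * m + 1 := by
    rw [Finset.card_univ, Fintype.card_fin]
  simp only [Cf0.Z1, mem_ofPred_eq, mem_SkI_iff hc, Cel.opn, not_lt, sub_nonpos, and_assoc]
  exact and_congr_right fun _ => and_congr_left fun _ =>
    ⟨fun k => k.le, fun k => le_antisymm k (muI_nonneg _ _)⟩

theorem Cf0.pc_Z1 {X : Cf0 m ι κ} (hX : X.Ok) : PC m X.Z1 := by
  obtain ⟨R, hR⟩ := ((Cf0.poly_Z1 hX).1.image
    (TP.id'.const_smul X.η1⁻¹).continuous).isBounded.exists_norm_le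
  refine ((pc_sk Finset.univ 0 R).image (AZ_bdd _ _ _) (TP.id'.const_smul X.η1)).mono
    fun z hz => ⟨X.η1⁻¹ • z, ⟨hR _ ⟨z, hz, rfl⟩, hz.2.1, fun l hl => (hl (Finset.mem_univ l)).elim⟩,
      smul_inv_smul₀ hX.η10.ne' z⟩

theorem Cf0.isCompact_Y {X : Cf0 m ι κ} (hX : X.Ok) : IsCompact X.Y :=
  (Cf0.poly_Z1 hX).1.image (tp_gl fun a => (Cel.cc_ψ (C := X.C a) (hX.h0 a)).tp).continuous

theorem Cf0.pc_Y {X : Cf0 m ι κ} (hX : X.Ok) : PC m X.Y :=
  (Cf0.pc_Z1 hX).image (Cf0.poly_Z1 hX).1.isBounded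
    (tp_gl fun a => (Cel.cc_ψ (C := X.C a) (hX.h0 a)).tp)

theorem Gr.poly_Zs {G : Gr m} (hG : G.Ok) : Poly G.Zs := by
  classical
  obtain ⟨R, hR⟩ := (G.isCompact_cell 1).isBounded.subset_closedBall 0
  have h1 : Poly (G.cell 1) := by
    convert poly_le (Poly.closedBall 0 R) (G.tp_nr.sub (TP.const ((1 - 1 * G.γ) * G.h))) using 1
    ext z
    simp only [mem_ofPred_eq, sub_nonpos]
    exact ⟨fun k => ⟨hR k, k⟩, fun k => k.2⟩
  have h2 : Poly {z ∈ G.cell 1 | ∀ l, l ∉ G.I → z l = G.c l} := by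
    convert AZ_all h1 (D := fun l z => if l ∈ G.I then 0 else |z l - G.c l|) fun l => ?_ using 1
    · ext z
      simp only [mem_ofPred_eq]
      refine and_congr_right fun _ => forall_congr' fun l => ?_
      split_ifs with hl
      · simp [hl]
      · simp [hl, sub_eq_zero]
    · split_ifs with hl
      exacts [TP.const 0, ((TP.id'.apply l).sub (TP.const _)).abs]
  obtain ⟨D, hD, hD0, hD1⟩ := exists_SkI_zero G.I
  convert poly_le h2 (hD.comp G.tp_ξ) using 1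
  ext z
  simp only [Gr.Zs, mem_ofPred_eq, hD1]
  exact ⟨fun k => ⟨⟨k.2.1, k.1⟩, k.2.2.le⟩,
    fun k => ⟨k.1.2, k.1.1, le_antisymm k.2 (hD0 _)⟩⟩

theorem Gr.pc_Zs {G : Gr m} (hG : G.Ok) : PC m G.Zs := by
  obtain ⟨R, hR⟩ := ((Gr.poly_Zs hG).1.image G.tp_ξ.continuous).isBounded.exists_norm_le
  have hu : TP fun x : V m => G.c + G.Sh.symm ((16 * G.s) • (x + G.ω)) :=
    (TP.const G.c).add ((TP.clm (G.Sh.symm : V m →L[ℝ] V m)).comp
      ((TP.id'.add (TP.const G.ω)).const_smul (16 * G.s)))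
  have hs : 16 * G.s ≠ 0 := by have := hG.s0; positivity
  refine ((pc_sk G.I (-G.ω) R).image (AZ_bdd _ _ _) hu).mono
    fun z hz => ⟨G.ξ z, ⟨hR _ ⟨z, hz, rfl⟩, hz.2.2, fun l hl => ?_⟩, ?_⟩
  · rw [Gr.ξ_slice hG hz.1, hz.1 l hl, sub_self, zero_div, zero_sub, Pi.neg_apply]
  · exact cj_eq_self (Φ := id) _ _ _ hs rfl

theorem Cfg.poly_Z {X : Cfg m ι κ} (hX : X.Ok) : Poly X.Z := by
  refine ((Cf0.poly_Z1 hX.toOk).image (tp_gl fun a => (Gr.cc_τ ∅ (hX.gok a) X.K0).tp)).union ?_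
  have := Poly.biUnion (finite_univ (α := κ)) fun a _ => Gr.poly_Zs (hX.gok a)
  simpa only [mem_univ, iUnion_true] using this

theorem Cfg.pc_Z {X : Cfg m ι κ} (hX : X.Ok) : PC m X.Z := by
  refine ((Cf0.pc_Z1 hX.toOk).image (Cf0.poly_Z1 hX.toOk).1.isBounded
    (tp_gl fun a => (Gr.cc_τ ∅ (hX.gok a) X.K0).tp)).union ?_
  have := PC.biUnion (finite_univ (α := κ)) fun a _ => Gr.pc_Zs (hX.gok a)
  simpa only [mem_univ, iUnion_true] using this

theorem Cfg.Z_sub {X : Cfg m ι κ} (hX : X.Ok) : X.Z ⊆ X.Reg := by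
  have h1 : ∀ a, (X.C a).cell 0 ⊆ X.Reg := fun a z hz =>
    mem_iUnion.2 ⟨X.q a, closedBall_subset_closedBall (by have := hX.η0; linarith)
      (Cf0.cell_sub hX.toOk a hz)⟩
  rintro z (⟨y, hy, rfl⟩ | hz)
  · by_cases h : ∃ a, y ∈ (X.C a).cell 0
    · obtain ⟨a, ha⟩ := h
      rw [gl_eq a fun a' h' => Gr.τ_off _ _ (hX.gok a')
        fun k => disjoint_left.1 (hX.disj a' a h') k ha]
      exact h1 a (Gr.τ_maps _ _ (hX.gok a) ha)
    · rw [gl_eq_self fun a => Gr.τ_off _ _ (hX.gok a) fun k => h ⟨a, k⟩]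
      exact hy.1
  · obtain ⟨a, ha⟩ := mem_iUnion.1 hz
    exact h1 a (Cel.cell_mono (hX.toOk.cty a) (hX.h0 a) zero_le_one ha.2.1)

end BEp
end
end
end

-- merged part: Pool.Agent.Work.MP_f0515e_an.Pos.ATop
section
/-! TASK ATop. The hypotheses of the topological theorem.
Plan. near_cell: cb is in cell 2 and Lambda rho <= gamma h (abs_nr_sub_le). Z_near: a point of Za is within 16 s <= rho / 2 of a point of Y (same y in Z1: norm_tau_sub_psi in the cell of y, equal otherwise), so it is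
farther than rho / 2 from cb; a point of Zs a', a' other than a, lies in cell 0 of a', disjoint from cell 0 of a. thick: norm_thick, 8 M s <= rho / 2. disj: same cell by cb_far, other cells by near_cell and disj.
nohit: if rho / 2 <= norm (y - cb) use the modulus: norm (aff x - f cb) <= Lambda 8 M s <= mu / 4 and 10 eps <= s / 100. Else y is in Zs a, exists_col gives b' in ful with y in Sk and Q 56 of b' (pi y = y, norm_pi_sub_cb), Kept.nohit.
sep: same cell Kept.sep; different cells: the centres are more than rho apart (near_cell, disj), modulus. -/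

open Set Metric Filter Topology Function BEv MeasureTheory
open scoped NNReal ENNReal

noncomputable section
namespace BEp

variable {m : ℕ} {ι κ : Type} [Fintype ι] [Fintype κ]

namespace Cfg
variable {X : Cfg m ι κ} {kp : κ → Finset (Ix m → ℤ)} {f : V m → V m}

theorem ATop_10 (hX : X.Ok) (a : κ) : (X.C a).cell 1 ⊆ (X.C a).cell 0 :=
  Cel.cell_mono (hX.toOk.cty a) (hX.h0 a) zero_le_one

theorem ATop_M (hX : X.Ok) (a : κ) : (9 : ℝ) ≤ (X.C a).M := by
  exact_mod_cast (hX.toOk.cty a).M9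

theorem ATop_Ms (hX : X.Ok) (a : κ) : 9 * X.s ≤ (X.C a).M * X.s :=
  mul_le_mul_of_nonneg_right (ATop_M hX a) hX.s0.le

theorem ATop_reg (hX : X.Ok) (a : κ) : (X.C a).cell 0 ⊆ X.Reg := fun z hz =>
  mem_iUnion.2 ⟨X.q a, closedBall_subset_closedBall (by linarith [hX.η0])
    (Cf0.cell_sub hX.toOk a hz)⟩

theorem ATop_same (hX : X.Ok) {a a' : κ} {z : V m} (h : z ∈ (X.C a).cell 0)
    (h' : z ∈ (X.C a').cell 0) : a = a' := by
  by_contra e
  exact disjoint_left.1 (hX.disj a a' e) h h'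

theorem ATop_Q {B : Box m} {s ρ e : ℝ} (he : 0 ≤ e) : B.Q s ρ ⊆ B.thick s ρ e :=
  fun x hx => ⟨hx.2, fun l hl => by rw [hx.1 l hl, sub_self, abs_zero]; exact he⟩

theorem near_cell (hX : X.Ok) {a : κ} {b : Ix m → ℤ} (hb : b ∈ X.cand a) {y : V m}
    (hy : ‖y - (X.G a).cb b‖ ≤ X.ρ) : y ∈ (X.C a).cell 1 := by
  have h1 := (abs_le.1 (Cel.abs_nr_sub_le (hX.toOk.cty a) y ((X.G a).cb b))).2
  have h2 : (X.C a).nr ((X.G a).cb b) ≤ (1 - 2 * (X.C a).γ) * X.h a := hb.2.2.1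
  have h3 := mul_le_mul_of_nonneg_left hy (zero_le_one.trans (hX.toOk.cty a).Λ1)
  have h4 := hX.ρh a
  change (X.C a).nr y ≤ (1 - 1 * (X.C a).γ) * X.h a
  linarith

theorem ATop_Za (hX : X.Ok) {y : V m} (hy : y ∈ X.Za) : ∃ y' ∈ X.Y, ‖y - y'‖ ≤ 16 * X.s := by
  obtain ⟨z, hz, rfl⟩ := hy
  refine ⟨_, ⟨z, hz, rfl⟩, ?_⟩
  by_cases h : ∃ a, z ∈ (X.C a).cell 0
  · obtain ⟨a, ha⟩ := h
    have h1 : ∀ a', a' ≠ a → z ∉ (X.C a').cell 0 := fun a' e h' => e (ATop_same hX h' ha)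
    rw [gl_eq a fun a' e => Gr.τ_off _ _ (hX.gok a') (h1 a' e),
      gl_eq a fun a' e => Cel.ψ_off (hX.h0 a') (h1 a' e)]
    exact Gr.norm_τ_sub_ψ _ _ (hX.gok a) z
  · have h1 : ∀ a, z ∉ (X.C a).cell 0 := fun a ha => h ⟨a, ha⟩
    rw [gl_eq_self fun a => Gr.τ_off _ _ (hX.gok a) (h1 a),
      gl_eq_self fun a => Cel.ψ_off (hX.h0 a) (h1 a), sub_self, norm_zero]
    linarith [hX.s0]

theorem Z_near (hX : X.Ok) {a : κ} {b : Ix m → ℤ} (hb : b ∈ X.cand a) {y : V m} (hZ : y ∈ X.Z)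
    (hy : ‖y - (X.G a).cb b‖ ≤ X.ρ / 2) : y ∈ (X.G a).Zs := by
  rcases hZ with hZ | hZ
  · obtain ⟨y', h1, h2⟩ := ATop_Za hX hZ
    have h3 := hb.2.2.2 y' h1
    have h4 := norm_sub_le_norm_sub_add_norm_sub y' y ((X.G a).cb b)
    rw [norm_sub_rev y' y] at h4
    have h5 := hX.sρ a
    have h6 := ATop_Ms hX a
    have h7 := hX.s0
    linarith
  · obtain ⟨a', h1⟩ := mem_iUnion.1 hZ
    have h2 := near_cell hX hb (hy.trans (by linarith [hX.ρ0]))
    rwa [ATop_same hX (ATop_10 hX a h2) (ATop_10 hX a' h1.2.1)]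

theorem ATop_norm (hX : X.Ok) (f : V m → V m) (i : Bx kp) {x : V m} {ρ : ℝ} (hρ : ρ ≤ 56)
    (hx : x ∈ (X.box f kp i).thick X.s ρ (2 * X.s)) :
    ‖x - (X.G i.1.1).cb i.1.2‖ ≤ 8 * (X.C i.1.1).M * X.s :=
  Gr.norm_thick f (hX.gok i.1.1) hρ hx

theorem ATop_cell (hX : X.Ok) (hk : X.Kp kp) (f : V m → V m) (i : Bx kp) {x : V m} {ρ : ℝ}
    (hρ : ρ ≤ 56) (hx : x ∈ (X.box f kp i).thick X.s ρ (2 * X.s)) : x ∈ (X.C i.1.1).cell 1 := by
  refine near_cell hX (hk _ _ i.2) ((ATop_norm hX f i hρ hx).trans ?_)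
  linarith [hX.sρ i.1.1, hX.ρ0]

theorem thick_cell (hX : X.Ok) (hk : X.Kp kp) (f : V m → V m) (i : Bx kp) :
    (X.box f kp i).thick X.s 12 (2 * X.s) ⊆ (X.C i.1.1).cell 0 :=
  fun _ hx => ATop_10 hX _ (ATop_cell hX hk f i (by norm_num) hx)

theorem thick_disj (hX : X.Ok) (hk : X.Kp kp) (f : V m → V m) {i j : Bx kp} (h : i ≠ j) :
    Disjoint ((X.box f kp i).thick X.s 40 (2 * X.s)) ((X.box f kp j).thick X.s 40 (2 * X.s)) := by
  refine disjoint_left.2 fun x h1 h2 => ?_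
  have e := ATop_same hX (ATop_10 hX _ (ATop_cell hX hk f i (by norm_num) h1))
    (ATop_10 hX _ (ATop_cell hX hk f j (by norm_num) h2))
  obtain ⟨⟨a, b⟩, hb⟩ := i
  obtain ⟨⟨a', b'⟩, hb'⟩ := j
  obtain rfl : a = a' := e
  obtain ⟨l, hl, h3⟩ := Gr.cb_far (hX.gok a) (hk a b hb).1.1 (hk a b' hb').1.1
    fun e => h (by subst e; rfl)
  have h4 : |x l - (X.G a).cb b l| ≤ X.s * ((((X.G a).box f b).r : ℝ) + 40) := h1.1 l hl
  have h5 : |x l - (X.G a).cb b' l| ≤ X.s * ((((X.G a).box f b').r : ℝ) + 40) := h2.1 l hl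
  rw [Gr.box_r f (hX.gok a)] at h4 h5
  have h6 := abs_sub_le ((X.G a).cb b l) (x l) ((X.G a).cb b' l)
  rw [abs_sub_comm ((X.G a).cb b l) (x l)] at h6
  have h7 : (X.G a).s = X.s := rfl
  rw [h7] at h3
  linarith [hX.s0]

theorem Z_thick (hX : X.Ok) (hk : X.Kp kp) (f : V m → V m) (i : Bx kp) {x : V m} (hZ : x ∈ X.Z)
    {ρ : ℝ} (hρ : ρ ≤ 56) (hx : x ∈ (X.box f kp i).thick X.s ρ (2 * X.s)) :
    x ∈ (X.box f kp i).Q X.s ρ ∧ x ∈ (X.box f kp i).Sk X.s := by
  have h := Z_near hX (hk _ _ i.2) hZ ((ATop_norm hX f i hρ hx).trans (by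
    linarith [hX.sρ i.1.1, hX.ρ0]))
  exact ⟨⟨(Gr.mem_slice f).2 h.1, hx.1⟩, (Gr.mem_Sk f (hX.gok i.1.1)).2 ⟨h.1, h.2.2⟩⟩

theorem ATop_aff (hX : X.Ok) (f : V m → V m) (i : Bx kp) {x : V m}
    (hx : x ∈ (X.box f kp i).Q X.s 12) {μ : ℝ}
    (hs : 32 * (X.C i.1.1).Λ * (X.C i.1.1).M * X.s ≤ μ) :
    ‖(X.box f kp i).aff x - f ((X.G i.1.1).cb i.1.2)‖ ≤ μ / 4 := by
  have h1 := ATop_norm hX f i (by norm_num) (ATop_Q (by linarith [hX.s0]) hx)
  have h2 : (X.box f kp i).aff x - f ((X.G i.1.1).cb i.1.2) =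
      (X.C i.1.1).A (x - (X.G i.1.1).cb i.1.2) := add_sub_cancel_right _ _
  have h3 := (hX.toOk.cty i.1.1).nA
  have h4 := mul_le_mul h3 h1 (norm_nonneg _) ((norm_nonneg _).trans h3)
  rw [h2]
  refine ((X.C i.1.1).A.le_opNorm _).trans (h4.trans ?_)
  linarith

theorem ATop_eps (hX : X.Ok) (a : κ) {μ : ℝ} (hs : 32 * (X.C a).Λ * (X.C a).M * X.s ≤ μ) :
    10 * (X.G a).ε < μ / 2 := by
  have h1 := ATop_Ms hX a
  have h2 := hX.s0
  have h3 := mul_le_mul_of_nonneg_right (hX.toOk.cty a).σ1 h2.le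
  have h4 := mul_le_mul_of_nonneg_right (hX.toOk.cty a).Λ1
    (show 0 ≤ (X.C a).M * X.s by linarith)
  change 10 * ((X.C a).σ * X.s / 1000) < μ / 2
  linarith

theorem ATop_pi {G : Gr m} (hG : G.Ok) {y : V m} (hy : ∀ l, l ∉ G.I → y l = G.c l) :
    G.π y = y := by
  have h : pr G.I (y - G.c) = y - G.c := funext fun l => by
    unfold pr
    split_ifs with hl
    · rfl
    · rw [Pi.sub_apply, hy l hl, sub_self]
  have h1 := hG.shF (y - G.c)
  rw [h] at h1
  rw [Cel.π, h1, h, add_sub_cancel]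

theorem ATop_col (hX : X.Ok) (f : V m → V m) {a : κ} {b : Ix m → ℤ} (hb : b ∈ X.cand a) {y : V m}
    (hZ : y ∈ X.Z) (hy : ‖y - (X.G a).cb b‖ ≤ X.ρ / 2) : ∃ b' ∈ X.F a,
      y ∈ ((X.G a).box f b').Sk X.s ∩ ((X.G a).box f b').Q X.s 56 := by
  have hG := hX.gok a
  have h := Z_near hX hb hZ hy
  obtain ⟨b', h1, h2, -⟩ := Gr.exists_col hG y
  have h3 := Gr.norm_π_sub_cb hG y b'
  rw [ATop_pi hG h.1] at h3
  have h4 := mul_le_mul_of_nonneg_left h2 (show 0 ≤ 16 * (X.G a).s by linarith [hG.s0])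
  rw [← h3] at h4
  refine ⟨b', (hX.hF a b').2 ⟨h1, ATop_10 hX a (near_cell hX hb ?_)⟩,
    (Gr.mem_Sk f hG).2 ⟨h.1, h.2.2⟩, (Gr.mem_Q f hG (by norm_num)).2 ⟨h.1, by linarith⟩⟩
  have h5 := norm_sub_le_norm_sub_add_norm_sub ((X.G a).cb b') y ((X.G a).cb b)
  rw [norm_sub_rev ((X.G a).cb b') y] at h5
  have h6 : 64 * (X.G a).M * (X.G a).s ≤ X.ρ := hX.sρ a
  linarith [hX.ρ0]

theorem tophyp (hX : X.Ok) (hk : X.Kp kp) (hK : ∀ a, (X.G a).Kept f (X.F a) (kp a))
    {S : Set (V m)} (h1 : NatP S f) (h3 : Continuous f)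
    (h4 : InjOn f S) (h5 : X.Reg ⊆ S) {μ : ℝ}
    (hμ : ∀ x ∈ X.Reg, ∀ y ∈ X.Reg, X.ρ / 2 ≤ ‖x - y‖ → μ ≤ ‖f x - f y‖)
    (hs : ∀ a, 32 * (X.C a).Λ * (X.C a).M * X.s ≤ μ) :
    TopHyp S X.Z 0 f (X.box f kp) X.s (fun i => (X.G i.1.1).ε) := by
  have hs0 := hX.s0
  have h2s : 0 ≤ 2 * X.s := by linarith
  have hc : ∀ i : Bx kp, (X.G i.1.1).cb i.1.2 ∈ (X.C i.1.1).cell 0 := fun i => (hk _ _ i.2).1.2
  refine ⟨h1, h3, h4, poly_Z hX, pc_Z hX, (Z_sub hX).trans h5, hs0, fun i => ?_,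
    fun i => (hk _ _ i.2).2.1, fun i => ?_, fun i x hx => ?_,
    fun i j h => (thick_disj hX hk f h).mono (ATop_Q h2s) (ATop_Q h2s),
    fun i => ⟨2 * X.s, by linarith, fun x hx => (Z_thick hX hk f i hx.1 (by norm_num) hx.2).1.1⟩,
    fun i x hx _ => ⟨fun h => (Z_thick hX hk f i h (by norm_num) (ATop_Q h2s hx)).2, fun h => ?_⟩,
    fun i z hz => ?_, fun i x hx => ?_, fun i x hx y hy hy' => ?_, fun i j h x hx y hy => ?_⟩
  · exact div_pos (mul_pos (hX.gok i.1.1).σ0 hs0) (by norm_num)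
  · have h := (hX.gok i.1.1).M9
    change 8 ∣ 8 * (X.G i.1.1).M - 56 ∧ 16 ≤ 8 * (X.G i.1.1).M - 56
    omega
  · exact h5 (ATop_reg hX _ (ATop_10 hX _ (ATop_cell hX hk f i (by norm_num) (ATop_Q h2s hx))))
  · have h' := (Gr.mem_Sk f (hX.gok i.1.1)).1 h
    exact Or.inr (mem_iUnion.2 ⟨i.1.1, h'.1, ATop_cell hX hk f i (by norm_num) (ATop_Q h2s hx),
      h'.2⟩)
  · have e : pr (X.G i.1.1).I z = z := funext fun l => by
      unfold pr
      split_ifs with hl
      · rfl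
      · exact (hz l hl).symm
    have h := (hX.gok i.1.1).low z
    rw [e] at h
    have h' := mul_le_mul_of_nonneg_left h hs0.le
    change 1000 * ((X.G i.1.1).σ * X.s / 1000) * ‖z‖ ≤ X.s * ‖(X.G i.1.1).A z‖
    linarith
  · refine (hK i.1.1).close _ i.2 x ⟨hx.1, hx.2.1, fun l hl => (hx.2.2 l hl).trans ?_⟩
    exact mul_le_mul_of_nonneg_left (add_le_add le_rfl (by norm_num)) hs0.le
  · rcases le_total (X.ρ / 2) ‖y - (X.G i.1.1).cb i.1.2‖ with h | h
    · have a1 := hμ y (Z_sub hX hy) _ (ATop_reg hX _ (hc i)) h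
      have a2 := ATop_aff hX f i hx (hs _)
      have a3 := ATop_eps hX _ (hs i.1.1)
      have a4 := norm_sub_le_norm_sub_add_norm_sub (f y) ((X.box f kp i).aff x)
        (f ((X.G i.1.1).cb i.1.2))
      have a5 := norm_nonneg ((X.box f kp i).aff x - f ((X.G i.1.1).cb i.1.2))
      linarith
    · obtain ⟨b', a1, a2⟩ := ATop_col hX f (hk _ _ i.2) hy h
      exact (hK i.1.1).nohit _ i.2 b' a1 y a2 hy' x hx
  · by_cases e : i.1.1 = j.1.1
    · obtain ⟨⟨a, b⟩, hb⟩ := i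
      obtain ⟨⟨a', b'⟩, hb'⟩ := j
      obtain rfl : a = a' := e
      exact (hK a).sep b hb b' hb' (fun e => h (by subst e; rfl)) x hx y hy
    · have a0 : X.ρ / 2 ≤ ‖(X.G j.1.1).cb j.1.2 - (X.G i.1.1).cb i.1.2‖ := by
        by_contra k
        exact e (ATop_same hX (ATop_10 hX _ (near_cell hX (hk _ _ i.2)
          (by linarith [hX.ρ0, not_le.1 k]))) (hc j))
      have a1 := hμ _ (ATop_reg hX _ (hc j)) _ (ATop_reg hX _ (hc i)) a0
      have a2 := ATop_aff hX f i hx (hs _)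
      have a3 := ATop_aff hX f j hy (hs _)
      have a4 := ATop_eps hX _ (hs i.1.1)
      have a5 := norm_sub_le_norm_sub_add_norm_sub (f ((X.G j.1.1).cb j.1.2))
        ((X.box f kp j).aff y) (f ((X.G i.1.1).cb i.1.2))
      have a6 := norm_sub_le_norm_sub_add_norm_sub ((X.box f kp j).aff y)
        ((X.box f kp i).aff x) (f ((X.G i.1.1).cb i.1.2))
      rw [norm_sub_rev (f ((X.G j.1.1).cb j.1.2)) ((X.box f kp j).aff y)] at a5
      linarith

end Cfg

end BEp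
end
end

-- merged part: Pool.Agent.Work.MP_f0515e_an.Pos.ASt1
section
-- merged part: Pool.Agent.Work.MP_f0515e_an.Pos.AG4
section
/-! TASK AG4. The global maps T and R.
Plan. With y = r1 z: either y lies in exactly one cell a and gl phi y = phi a y (gl_eq, disj, tau_off), or in none and gl phi y = y. cc_gl with U a = cell 0. A_T: if y is in cell a then q a = q (r1_cube) and A_psi.
TK_dich: r1_KL, rB_congr with RI_eq_RL (dl_le_b1, dl_le_b2), Gr.dich with kp a inside F a (Kp, hF). TK_land: r1_land. In the case opn 2 use Gr.land. In the case y in Z1 show T z = gl (tau empty (RI K0)) y by gl_congr: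
for a with y outside cell 1 both rB are the identity at y; for y in cell 1, hK and RI_nested give rB_congr, and gl psi y = psi a y = pi y lies in Y, so for kept b
rho < norm (pi y - cb b) = 16 s norm (pr I (xi y - ctr b)) with 64 M s <= rho, and rB_far applies. LL: gl_ev, gl_ev_id, LL.congr, LL.comp, b1_of_wt, b2_of_wt. ll_TK0: global Lipschitz constant of the glued map (TP.exists_bound). -/

open Set Metric Filter Topology Function BEv MeasureTheory
open scoped NNReal ENNReal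

noncomputable section
namespace BEp

variable {m : ℕ} {ι κ : Type} [Fintype ι] [Fintype κ]

namespace Cfg
variable {X : Cfg m ι κ} {z : V m} {kp : κ → Finset (Ix m → ℤ)} {K1 K2 : ℕ} {q : ι}

theorem AG4_gl (hX : X.Ok) {φ : κ → V m → V m} (h : ∀ a z, z ∉ (X.C a).cell 0 → φ a z = z)
    {a : κ} {y : V m} (hy : y ∈ (X.C a).cell 0) : gl φ y = φ a y :=
  gl_eq a fun a' k => h a' y (Set.disjoint_left.1 (hX.disj a a' k.symm) hy)

theorem AG4_τ (hX : X.Ok) (kp : κ → Finset (Ix m → ℤ)) (R : κ → V m → V m) (a : κ) (z : V m)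
    (hz : z ∉ (X.C a).cell 0) : (X.G a).τ (kp a) (R a) z = z :=
  Gr.τ_off _ _ (hX.gok a) hz

theorem AG4_rB (hX : X.Ok) (kp : κ → Finset (Ix m → ℤ)) (R : κ → V m → V m) (a : κ) (z : V m)
    (hz : z ∉ (X.C a).cell 0) : (X.G a).rB (kp a) (R a) z = z :=
  Gr.rB_off0 _ _ (hX.gok a) hz

theorem AG4_in (hX : X.Ok) (kp : κ → Finset (Ix m → ℤ)) (R1 : V m → V m)
    (R2 : Finset (Ix m) → V m → V m) {a : κ} (hy : X.r1 R1 z ∈ (X.C a).cell 0) :
    X.T kp R1 R2 z = (X.G a).τ (kp a) (R2 (X.C a).I) (X.r1 R1 z) :=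
  AG4_gl hX (AG4_τ hX kp fun a => R2 (X.C a).I) hy

theorem AG4_out (hX : X.Ok) (kp : κ → Finset (Ix m → ℤ)) (R1 : V m → V m)
    (R2 : Finset (Ix m) → V m → V m) (hy : ¬ ∃ a, X.r1 R1 z ∈ (X.C a).cell 0) :
    X.T kp R1 R2 z = X.r1 R1 z :=
  gl_eq_self fun a => AG4_τ hX kp (fun a => R2 (X.C a).I) a _ fun k => hy ⟨a, k⟩

theorem AG4_cell (hX : X.Ok) {a : κ} {j : ℝ} (hj : 0 ≤ j) : (X.C a).cell j ⊆ (X.C a).cell 0 :=
  Cel.cell_mono (hX.toOk.cty a) (hX.h0 a) hj

theorem cc_TK (hX : X.Ok) (kp : κ → Finset (Ix m → ℤ)) (K1 K2 : ℕ) : CC (X.TK kp K1 K2) := by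
  have h := CC.comp (cc_gl hX.disj (AG4_τ hX kp fun a => RI (X.C a).I K2)
    (fun a _ hz => Gr.τ_maps _ _ (hX.gok a) hz) (fun a => Gr.cc_τ _ (hX.gok a) K2))
    (Cf0.cc_r1 hX.toOk K1)
  exact h

theorem tp_RK (hX : X.Ok) (kp : κ → Finset (Ix m → ℤ)) (K1 K2 : ℕ) : TP (X.RK kp K1 K2) := by
  have h := TP.comp (tp_gl fun a => (Gr.cc_rB (kp a) (hX.gok a) K2).tp)
    (Cf0.cc_r1 hX.toOk K1).tp
  exact h

theorem measurable_TL (hX : X.Ok) (kp : κ → Finset (Ix m → ℤ)) : Measurable (X.TL kp) :=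
  (measurable_gl fun a => Gr.measurable_τ (kp a) _ (hX.gok a) (measurable_RL (X.C a).I)).comp
    (Cf0.measurable_r1 hX.toOk)

theorem T_mem (hX : X.Ok) (kp : κ → Finset (Ix m → ℤ)) (R1 : V m → V m)
    (R2 : Finset (Ix m) → V m → V m) (hz : z ∈ X.Qc q 1) : X.T kp R1 R2 z ∈ X.Qc q 2 := by
  by_cases hy : ∃ a, X.r1 R1 z ∈ (X.C a).cell 0
  · obtain ⟨a, ha⟩ := hy
    rw [AG4_in hX kp R1 R2 ha]
    have h1 := Cf0.cell_sub hX.toOk a (Gr.τ_maps (kp a) (R2 (X.C a).I) (hX.gok a) ha)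
    rw [Cf0.r1_cube hX.toOk R1 hz ha] at h1
    exact closedBall_subset_closedBall (by linarith [hX.η0]) h1
  · rw [AG4_out hX kp R1 R2 hy]
    exact Cf0.r1_mem hX.toOk R1 hz

theorem T_cube (hX : X.Ok) (kp : κ → Finset (Ix m → ℤ)) (R1 : V m → V m)
    (R2 : Finset (Ix m) → V m → V m) (hz : z ∈ X.Qc q 1) {a : κ}
    (h : X.T kp R1 R2 z ∈ (X.C a).cell 0) : X.q a = q := by
  by_cases hy : ∃ a, X.r1 R1 z ∈ (X.C a).cell 0
  · obtain ⟨a', ha⟩ := hy
    rw [AG4_in hX kp R1 R2 ha] at h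
    have h1 : a = a' := by
      by_contra k
      exact Set.disjoint_left.1 (hX.disj a a' k) h
        (Gr.τ_maps (kp a') (R2 (X.C a').I) (hX.gok a') ha)
    rw [h1]
    exact Cf0.r1_cube hX.toOk R1 hz ha
  · rw [AG4_out hX kp R1 R2 hy] at h
    exact absurd ⟨a, h⟩ hy

theorem A_T (hX : X.Ok) (kp : κ → Finset (Ix m → ℤ)) (K1 K2 : ℕ) (hz : z ∈ X.Qc q 1) :
    (X.ty q).A (X.TK kp K1 K2 z) = (X.ty q).A (X.RK kp K1 K2 z) := by
  by_cases hy : ∃ a, X.r1 (RI Finset.univ K1) z ∈ (X.C a).cell 0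
  · obtain ⟨a, ha⟩ := hy
    rw [TK, AG4_in hX kp _ _ ha, RK, AG4_gl hX (AG4_rB hX kp fun a => RI (X.C a).I K2) ha,
      ← Cf0.r1_cube hX.toOk _ hz ha]
    exact Cel.A_ψ (hX.toOk.cty a) (hX.h0 a) _
  · rw [TK, AG4_out hX kp _ _ hy, RK,
      gl_eq_self fun a => AG4_rB hX kp (fun a => RI (X.C a).I K2) a _ fun k => hy ⟨a, k⟩]

theorem TK_dich (hX : X.Ok) (hk : X.Kp kp) (h1 : X.W z < 2 ^ K1) (h2 : X.W z < 2 ^ K2) :
    X.TK kp K1 K2 z = X.TL X.F z ∨ X.TK kp K1 K2 z = X.TL (fun _ => ∅) z := by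
  have e := Cf0.r1_KL (Cf0.dl_le_b1 h1)
  by_cases hy : ∃ a, X.r1 (RL Finset.univ) z ∈ (X.C a).cell 0
  · obtain ⟨a, ha⟩ := hy
    rw [TK, TL, TL, AG4_in hX kp _ _ (e ▸ ha), AG4_in hX _ _ _ ha, AG4_in hX _ _ _ ha, e]
    have h3 : (X.G a).rB (kp a) (RI (X.C a).I K2) (X.r1 (RL Finset.univ) z) =
        (X.G a).rB (kp a) (RL (X.C a).I) (X.r1 (RL Finset.univ) z) :=
      Gr.rB_congr _ _ (RI_eq_RL (Cf0.dl_le_b2 h2 ha))
    simp only [Gr.τ, h3]
    exact (Gr.dich (hX.gok a) (fun b hb => (hX.hF a b).2 (hk a b hb).1)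
      (fun b hb => ((hX.hF a b).1 hb).1) _ _).imp (congrArg _) (congrArg _)
  · left
    rw [TK, TL, AG4_out hX kp _ _ (e ▸ hy), AG4_out hX _ _ _ hy, e]

theorem TK_land (hX : X.Ok) (hk : X.Kp kp) (f : V m → V m) (hK : X.K0 ≤ K2) (hz : z ∈ X.Qc q 1)
    (h1 : X.W z < 2 ^ K1) (h2 : X.W z < 2 ^ K2) :
    X.TK kp K1 K2 z ∈ X.Z ∨ ∃ i : Bx kp, X.TK kp K1 K2 z ∈ (X.box f kp i).Q X.s 4 := by
  have e := Cf0.r1_KL (Cf0.dl_le_b1 h1)
  rcases Cf0.r1_land hX.toOk (Cf0.dl_le_b1 h1) hz with hy | ⟨a, ha⟩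
  · refine Or.inl (Or.inl ⟨_, hy, gl_congr fun a => ?_⟩)
    generalize X.r1 (RI Finset.univ K1) z = y at hy
    refine congrArg (X.G a).ψ ?_
    by_cases ha : y ∈ (X.C a).cell 1
    · have h3 : (X.G a).rB (kp a) (RI (X.C a).I K2) y = (X.G a).rB (kp a) (RI (X.C a).I X.K0) y :=
        Gr.rB_congr _ _ (RI_nested hK (hX.hK a y hy ha))
      rw [h3]
      refine (Gr.rB_far (hX.gok a) _ fun b hb => ?_).symm
      have h4 : (X.C a).π y ∈ X.Y := ⟨y, hy, by
        rw [AG4_gl hX (fun a z k => Cel.ψ_off (hX.h0 a) k) (AG4_cell hX zero_le_one ha)]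
        exact Cel.ψ_eq_π (hX.toOk.cty a) (hX.h0 a) ha⟩
      have h5 := (hk a b hb).2.2.2 _ h4
      have h6 : ‖(X.C a).π y - (X.G a).cb b‖ =
          16 * X.s * ‖pr (X.G a).I ((X.G a).ξ y - (X.G a).ctr b)‖ :=
        Gr.norm_π_sub_cb (hX.gok a) y b
      have h7 : 64 * ((X.G a).M : ℝ) * X.s ≤ X.ρ := hX.sρ a
      have h8 : (0 : ℝ) ≤ (X.G a).M := Nat.cast_nonneg _
      have h9 := hX.s0
      rw [h6] at h5
      by_contra k
      rw [not_le] at k
      nlinarith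
    · rw [Gr.rB_off _ _ (hX.gok a) ha, Gr.rB_off _ _ (hX.gok a) ha]
  · have ha0 := AG4_cell hX zero_le_two (Cel.opn_subset _ _ ha)
    rw [TK, AG4_in hX kp _ _ ha0]
    rcases Gr.land (hX.gok a) f (kp a) ha (K := K2) (e ▸ Cf0.dl_le_b2 h2 (e ▸ ha0)) with
      k | ⟨b, hb, k⟩
    · exact Or.inl (Or.inr (mem_iUnion.2 ⟨a, k⟩))
    · exact Or.inr ⟨⟨(a, b), hb⟩, k⟩

theorem ll_TK (hX : X.Ok) (kp : κ → Finset (Ix m → ℤ)) (K2 : ℕ) (hz : z ∈ X.Qc q 1)
    (h1 : X.W z < 2 ^ K1) :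
    LL (X.TK kp K1 K2) z (4 * (X.ty q).Λ ^ 4 * 2 ^ (X.ty q).N * (X.W z).toReal) ∧
      LL (X.RK kp K1 K2) z (4 * (X.ty q).Λ ^ 2 * (X.W z).toReal) := by
  have e := Cf0.r1_KL (Cf0.dl_le_b1 h1)
  have hW : X.W z ≠ ⊤ := ne_top_of_lt h1
  obtain ⟨b0, b1⟩ := Cf0.b1_of_wt hW
  have l1 := Cf0.ll_r1 hX.toOk K1 b0
  have hΛ := (hX.ty q).Λ1
  have hU : ∀ a, IsClosed ((X.C a).cell 0) := fun a => Cel.isClosed_cell _ _
  by_cases hy : ∃ a, X.r1 (RI Finset.univ K1) z ∈ (X.C a).cell 0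
  · obtain ⟨a, ha⟩ := hy
    obtain ⟨c0, c1⟩ := Cf0.b2_of_wt hW (e ▸ ha)
    rw [← e] at c0 c1
    obtain rfl := Cf0.r1_cube hX.toOk _ hz ha
    have key : ∀ c : ℝ, 0 ≤ c → c * (2 / (X.G a).b2 (X.r1 (RI Finset.univ K1) z)) * (2 / X.b1 z) ≤
        4 * c * (X.W z).toReal := fun c hc => by
      calc c * (2 / (X.G a).b2 (X.r1 (RI Finset.univ K1) z)) * (2 / X.b1 z)
          = 4 * c * (1 / X.b1 z * (1 / (X.G a).b2 (X.r1 (RI Finset.univ K1) z))) := by ring
        _ ≤ _ := mul_le_mul_of_nonneg_left c1 (by positivity)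
    have c2 : 0 ≤ 2 / (X.G a).b2 (X.r1 (RI Finset.univ K1) z) := div_nonneg zero_le_two c0.le
    have p1 : 0 ≤ (X.G a).Λ ^ 4 * 2 ^ (X.G a).N := by positivity
    have p2 : 0 ≤ (X.G a).Λ ^ 2 := by positivity
    constructor
    · refine (((Gr.ll_τ (hX.gok a) (kp a) K2 c0).congr
        (gl_ev hU hX.disj (AG4_τ hX kp fun a => RI (X.C a).I K2) ha)).comp l1
        (mul_nonneg p1 c2)).mono ((key _ p1).trans (le_of_eq ?_))
      rw [← mul_assoc]
      rfl
    · exact (((Gr.ll_rB (hX.gok a) (kp a) K2 c0).congr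
        (gl_ev hU hX.disj (AG4_rB hX kp fun a => RI (X.C a).I K2) ha)).comp l1
        (mul_nonneg p2 c2)).mono (key _ p2)
  · have key : ∀ c : ℝ, 1 ≤ c → 1 * (2 / X.b1 z) ≤ 4 * c * (X.W z).toReal := fun c hc => by
      have h2 : 0 ≤ (X.W z).toReal := ENNReal.toReal_nonneg
      have h3 : 1 / X.b1 z ≤ (X.W z).toReal := b1
      have h4 : 1 * (2 / X.b1 z) = 2 * (1 / X.b1 z) := by ring
      nlinarith
    constructor
    · refine (((LL.id' _).congr (gl_ev_id hU (AG4_τ hX kp fun a => RI (X.C a).I K2)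
        fun a k => hy ⟨a, k⟩)).comp l1 zero_le_one).mono ((key ((X.ty q).Λ ^ 4 * 2 ^ (X.ty q).N)
          (one_le_mul_of_one_le_of_one_le (one_le_pow₀ hΛ) (one_le_pow₀ one_le_two))).trans
            (le_of_eq ?_))
      rw [← mul_assoc]
    · exact (((LL.id' _).congr (gl_ev_id hU (AG4_rB hX kp fun a => RI (X.C a).I K2)
        fun a k => hy ⟨a, k⟩)).comp l1 zero_le_one).mono (key _ (one_le_pow₀ hΛ))

theorem ll_TK0 (hX : X.Ok) (kp : κ → Finset (Ix m → ℤ)) (K2 : ℕ) : ∃ L : ℝ, 0 ≤ L ∧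
    ∀ K1 z, X.W z ≠ ⊤ → LL (X.TK kp K1 K2) z (L * (X.W z).toReal) := by
  obtain ⟨L, hL, h⟩ := (tp_gl fun a => (Gr.cc_τ (kp a) (hX.gok a) K2).tp).exists_bound
  refine ⟨2 * L, by linarith, fun K1 z hW => ?_⟩
  obtain ⟨b0, b1⟩ := Cf0.b1_of_wt hW
  refine ((LL.of_forall h _).comp (Cf0.ll_r1 hX.toOk K1 b0) (by linarith)).mono ?_
  calc L * (2 / X.b1 z) = 2 * L * (1 / X.b1 z) := by ring
    _ ≤ _ := mul_le_mul_of_nonneg_left b1 (by linarith)

theorem isOpen_sharp (X : Cfg m ι κ) (kp : κ → Finset (Ix m → ℤ)) : IsOpen (X.sharp kp) :=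
  isOpen_iUnion fun a => Gr.isOpen_sharp _ (kp a)

theorem RK_sharp (hX : X.Ok) (K1 K2 : ℕ) (hz : z ∈ X.sharp kp) : X.RK kp K1 K2 z = z := by
  obtain ⟨a, ha⟩ := mem_iUnion.1 hz
  have h3 : z ∈ (X.C a).cell 3 := Cel.opn_subset _ _ ha.1
  rw [RK, Cf0.r1_eq_self hX.toOk _ h3,
    AG4_gl hX (AG4_rB hX kp fun a => RI (X.C a).I K2) (AG4_cell hX (by norm_num) h3)]
  exact Gr.rB_sharp (hX.gok a) K2 ha

end Cfg

end BEp
end
end

-- merged part: Pool.Agent.Work.MP_f0515e_an.Pos.AEn1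
section
/-! TASK AEn1. Pointwise bounds for the approximating map.
Plan. W = ofReal w with w = W.toReal >= 2. Case 2^K1 <= W: ll_TK0, Lipschitz G, ll_norm_fderiv_le, norm A <= Lambda; c0 absorbs the sum over q of Lambda. Case W < 2^K1, 2^K2 <= W: ll_TK, c1 a sum over q.
Main case: TK_land. If T z is in Z use ae_bound with g = gd and the field ll (T_mem, T_cube), TK_dich and phi >= 0. If T z is in Q 4 of box i use ae_bound with g = aff i, c = 0 (Q 4 inside thick 12 inside the cell, T_cube,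
so the matrix is that of q; ae_all_iff over the finite type Bx kp). Then A.comp (fderiv R z) - A vanishes on the open set sharp (RK_sharp) and has norm <= Lambda (4 Lambda^2 w + 1) <= 5 Lambda^3 w elsewhere.
pw_sup: main case by the field sup, y' and z are in Qc q 3; otherwise both G on Reg and f on Reg are bounded (isCompact_Reg) and W >= 1. -/

open Set Metric Filter Topology Function BEv MeasureTheory
open scoped NNReal ENNReal

noncomputable section
namespace BEp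

variable {m : ℕ} {ι κ : Type} [Fintype ι] [Fintype κ]

theorem AEn1_en {E : Type} [NormedAddCommGroup E] {x : E} {W : ℝ≥0∞} (hW : W ≠ ⊤) {c : ℝ}
    (hc : 0 ≤ c) (h : ‖x‖ ≤ c * W.toReal) : ‖x‖ₑ ≤ ENNReal.ofReal c * W := by
  rw [← ofReal_norm, ← ENNReal.ofReal_toReal hW, ← ENNReal.ofReal_mul hc]
  exact ENNReal.ofReal_le_ofReal h

theorem AEn1_tri {E : Type} [NormedAddCommGroup E] (x y z : E) :
    ‖x - z‖ₑ ≤ ‖x - y‖ₑ + ‖y - z‖ₑ := by
  rw [← sub_add_sub_cancel x y z]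
  exact enorm_add_le _ _

theorem AEn1_lip {G T : V m → V m} {L : ℝ≥0} (hL : LipschitzWith L G) {z : V m} {W : ℝ≥0∞}
    {c Λ C : ℝ} (hT : LL T z (c * W.toReal)) (hc : 0 ≤ c) (hW : W ≠ ⊤) (hw : 1 ≤ W.toReal)
    {A : V m →L[ℝ] V m} (hA : ‖A‖ ≤ Λ) (h : L * c + Λ ≤ C) :
    ‖fderiv ℝ (fun x => G (T x)) z - A‖ₑ ≤ ENNReal.ofReal C * W := by
  have h0 := (norm_nonneg A).trans hA
  have hl := L.coe_nonneg
  have h5 : LL G (T z) L := LL.of_forall (fun x y => by
    simpa only [dist_eq_norm] using hL.dist_le_mul x y) _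
  have h1 := ll_norm_fderiv_le (h5.comp hT hl) (mul_nonneg hl (mul_nonneg hc ENNReal.toReal_nonneg))
  refine AEn1_en hW ((add_nonneg (mul_nonneg hl hc) h0).trans h) ((norm_sub_le _ _).trans ?_)
  have h2 := le_mul_of_one_le_right h0 hw
  have h3 := mul_le_mul_of_nonneg_right h (zero_le_one.trans hw)
  linarith

theorem AEn1_aff (B : Box m) : TP B.aff :=
  ((TP.clm B.A).comp (TP.id'.sub (TP.const B.c))).add (TP.const B.b)

namespace Cfg
variable {X : Cfg m ι κ} {kp : κ → Finset (Ix m → ℤ)} {f G gd : V m → V m} {φ : ι → V m → ℝ}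
  {θ ϑ : ℝ}

theorem pw_der (hX : X.Ok) (hk : X.Kp kp) (hG : X.Gd kp f G gd φ θ ϑ) :
    ∃ c1 : ℝ≥0∞, c1 ≠ ⊤ ∧ ∀ K2, X.K0 ≤ K2 → ∃ c0 : ℝ≥0∞, c0 ≠ ⊤ ∧ ∀ K1 q, ∀ᵐ z, z ∈ X.Qc q 1 →
      X.W z ≠ ⊤ → ‖fderiv ℝ (fun x => G (X.TK kp K1 K2 x)) z - (X.ty q).A‖ₑ ≤
        indicator {y | (2 : ℝ≥0∞) ^ K1 ≤ X.W y} (fun y => c0 * X.W y) z +
        indicator {y | (2 : ℝ≥0∞) ^ K2 ≤ X.W y} (fun y => c1 * X.W y) z +
        ENNReal.ofReal (2 * φ q (X.TL X.F z) + 2 * φ q (X.TL (fun _ => ∅) z) + θ + (X.ty q).σ) *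
          ENNReal.ofReal (4 * (X.ty q).Λ ^ 4 * 2 ^ (X.ty q).N) * X.W z +
        indicator (X.sharp kp)ᶜ (fun y => ENNReal.ofReal (5 * (X.ty q).Λ ^ 3) * X.W y) z := by
  obtain ⟨L, hL⟩ := hG.lipG
  have hΛ : ∀ q, 0 ≤ (X.ty q).Λ := fun q => zero_le_one.trans (hX.ty q).Λ1
  refine ⟨ENNReal.ofReal (∑ q, (L * (4 * (X.ty q).Λ ^ 4 * 2 ^ (X.ty q).N) + (X.ty q).Λ)),
    ENNReal.ofReal_ne_top, fun K2 hK => ?_⟩
  obtain ⟨L0, hL0, hT0⟩ := ll_TK0 hX kp K2
  refine ⟨ENNReal.ofReal (L * L0 + ∑ q, (X.ty q).Λ), ENNReal.ofReal_ne_top, fun K1 q => ?_⟩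
  have hT := (cc_TK hX kp K1 K2).tp.lip
  have hR := (tp_RK hX kp K1 K2).lip
  filter_upwards [ae_bound hG.lipG hG.lipg hT hR (X.ty q).A, ae_all_iff.2 fun i : Bx kp =>
    ae_bound hG.lipG (AEn1_aff (X.box f kp i)).lip hT hR (X.ty q).A] with z a1 a2 hz hW
  have hw : 1 ≤ (X.W z).toReal := by
    simpa using ENNReal.toReal_mono hW (one_le_two.trans (X.two_le_wt X.s X.ω z))
  by_cases h1 : (2 : ℝ≥0∞) ^ K1 ≤ X.W z
  · refine le_add_right (le_add_right (le_add_right ?_))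
    rw [indicator_of_mem (show z ∈ {y | (2 : ℝ≥0∞) ^ K1 ≤ X.W y} from h1)]
    exact AEn1_lip hL (hT0 K1 z hW) hL0 hW hw (hX.ty q).nA (add_le_add le_rfl
      (Finset.single_le_sum (fun q _ => hΛ q) (Finset.mem_univ q)))
  rw [not_le] at h1
  obtain ⟨l1, l2⟩ := ll_TK hX kp K2 hz h1
  have hq := hΛ q
  by_cases h2 : (2 : ℝ≥0∞) ^ K2 ≤ X.W z
  · refine le_add_right (le_add_right (le_add_left ?_))
    rw [indicator_of_mem (show z ∈ {y | (2 : ℝ≥0∞) ^ K2 ≤ X.W y} from h2)]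
    refine AEn1_lip hL l1 (by positivity) hW hw (hX.ty q).nA (Finset.single_le_sum
      (f := fun q => L * (4 * (X.ty q).Λ ^ 4 * 2 ^ (X.ty q).N) + (X.ty q).Λ)
      (fun q _ => ?_) (Finset.mem_univ q))
    have := hΛ q
    positivity
  rw [not_le] at h2
  have p1 := hG.φ0 q (X.TL X.F z)
  have p2 := hG.φ0 q (X.TL (fun _ => ∅) z)
  have p3 := hG.θ0
  have p4 := (hX.ty q).σ0.le
  have c1 : ‖fderiv ℝ (fun x => G (X.TK kp K1 K2 x)) z -
      (X.ty q).A.comp (fderiv ℝ (X.RK kp K1 K2) z)‖ ≤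
      (2 * φ q (X.TL X.F z) + 2 * φ q (X.TL (fun _ => ∅) z) + θ + (X.ty q).σ) *
        (4 * (X.ty q).Λ ^ 4 * 2 ^ (X.ty q).N * (X.W z).toReal) := by
    rcases TK_land hX hk f hK hz h1 h2 with h | ⟨i, h⟩
    · have := hG.φ0 q (X.TK kp K1 K2 z)
      refine (a1 (hG.onZ h) (A_T hX kp K1 K2 hz) _ _ (by positivity) (by positivity)
        (hG.ll q _ (T_mem hX kp _ _ hz) fun a ha => T_cube hX kp _ _ hz ha) l1).trans
        (mul_le_mul_of_nonneg_right ?_ (by positivity))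
      rcases TK_dich hX hk h1 h2 with e | e <;> rw [e] <;> linarith
    · have e : X.q i.1.1 = q := T_cube hX kp _ _ hz (ATop_10 hX _
        (ATop_cell hX hk f i (by norm_num) (ATop_Q (by linarith [hX.s0]) h)))
      refine (a2 i (hG.onQ i h) (A_T hX kp K1 K2 hz) 0 _ le_rfl (by positivity)
        (LL.of_forall (fun y y' => ?_) _) l1).trans
        (mul_le_mul_of_nonneg_right (by positivity) (by positivity))
      have e' : (X.box f kp i).A = (X.ty q).A := e ▸ rfl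
      simp only [Box.aff, e', map_sub, zero_mul, norm_le_zero_iff]
      abel
  have c2 : ‖(X.ty q).A.comp (fderiv ℝ (X.RK kp K1 K2) z) - (X.ty q).A‖ₑ ≤
      indicator (X.sharp kp)ᶜ (fun y => ENNReal.ofReal (5 * (X.ty q).Λ ^ 3) * X.W y) z := by
    by_cases hs : z ∈ X.sharp kp
    · have e : X.RK kp K1 K2 =ᶠ[𝓝 z] id :=
        eventually_of_mem ((X.isOpen_sharp kp).mem_nhds hs) fun y hy => RK_sharp hX K1 K2 hy
      rw [e.fderiv_eq, fderiv_id, ContinuousLinearMap.comp_id, sub_self, ← ofReal_norm,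
        norm_zero, ENNReal.ofReal_zero]
      exact zero_le
    · rw [indicator_of_mem (mem_compl hs)]
      refine AEn1_en hW (by positivity) ((norm_sub_le _ _).trans ?_)
      have b1 := ((X.ty q).A.opNorm_comp_le _).trans (mul_le_mul (hX.ty q).nA
        (ll_norm_fderiv_le l2 (by positivity)) (norm_nonneg _) hq)
      have b2 := (hX.ty q).nA
      have b3 : (X.ty q).Λ ≤ (X.ty q).Λ ^ 3 := le_self_pow₀ (hX.ty q).Λ1 (by norm_num)
      have b4 := le_mul_of_one_le_right (pow_nonneg hq 3) hw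
      linarith
  refine (AEn1_tri _ _ _).trans (add_le_add (le_add_left ?_) c2)
  rw [← ENNReal.ofReal_mul (by positivity)]
  exact AEn1_en hW (by positivity) (c1.trans_eq (mul_assoc _ _ _).symm)

theorem pw_sup (hX : X.Ok) (hk : X.Kp kp) (hG : X.Gd kp f G gd φ θ ϑ) (hf : Continuous f)
    {e1 : ℝ} (ho : ∀ q, ∀ x ∈ X.Qc q 3, ∀ y ∈ X.Qc q 3, ‖f x - f y‖ ≤ e1) :
    ∃ c2 : ℝ≥0∞, c2 ≠ ⊤ ∧ ∀ K1 K2, X.K0 ≤ K2 → ∀ q, ∀ z ∈ X.Qc q 1,
      ‖G (X.TK kp K1 K2 z) - f z‖ₑ ≤ ENNReal.ofReal (ϑ + e1) +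
        indicator {y | (2 : ℝ≥0∞) ^ K1 ≤ X.W y} (fun y => c2 * X.W y) z +
        indicator {y | (2 : ℝ≥0∞) ^ K2 ≤ X.W y} (fun y => c2 * X.W y) z := by
  obtain ⟨L, hL⟩ := hG.lipG
  obtain ⟨B1, b1⟩ := X.isCompact_Reg.exists_bound_of_continuousOn hL.continuous.continuousOn
  obtain ⟨B2, b2⟩ := X.isCompact_Reg.exists_bound_of_continuousOn hf.continuousOn
  refine ⟨ENNReal.ofReal (B1 + B2), ENNReal.ofReal_ne_top, fun K1 K2 hK q z hz => ?_⟩
  have hη := hX.η0
  have hT : X.TK kp K1 K2 z ∈ X.Qc q 2 := T_mem hX kp _ _ hz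
  have h0 : ‖G (X.TK kp K1 K2 z) - f z‖ₑ ≤ ENNReal.ofReal (B1 + B2) * X.W z := by
    refine le_trans ?_ (le_mul_of_one_le_right' (one_le_two.trans (X.two_le_wt X.s X.ω z)))
    rw [← ofReal_norm]
    exact ENNReal.ofReal_le_ofReal ((norm_sub_le _ _).trans (add_le_add
      (b1 _ (mem_iUnion.2 ⟨q, hT⟩))
      (b2 _ (mem_iUnion.2 ⟨q, closedBall_subset_closedBall (by linarith) hz⟩))))
  by_cases h1 : (2 : ℝ≥0∞) ^ K1 ≤ X.W z
  · rw [indicator_of_mem (show z ∈ {y | (2 : ℝ≥0∞) ^ K1 ≤ X.W y} from h1)]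
    exact le_add_right (le_add_left h0)
  by_cases h2 : (2 : ℝ≥0∞) ^ K2 ≤ X.W z
  · rw [indicator_of_mem (show z ∈ {y | (2 : ℝ≥0∞) ^ K2 ≤ X.W y} from h2)]
    exact le_add_left h0
  refine le_add_right (le_add_right ?_)
  obtain ⟨y, h3, h4⟩ := hG.sup _ (TK_land hX hk f hK hz (not_le.1 h1) (not_le.1 h2))
  have h5 := ho q y (closedBall_subset_closedBall' (by
    linarith [mem_closedBall.1 hT]) (mem_closedBall_iff_norm.2 h3)) z
    (closedBall_subset_closedBall (by linarith) hz)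
  rw [← ofReal_norm]
  exact ENNReal.ofReal_le_ofReal ((norm_sub_le_norm_sub_add_norm_sub _ (f y) _).trans
    (add_le_add h4 h5))

end Cfg

end BEp
end
end

-- merged part: Pool.Agent.Work.MP_f0515e_an.Pos.AEn2
section
/-! TASK AEn2. The energy estimate.
Plan. (a + b + c + d) ^ p <= 4 ^ p (a^p + b^p + c^p + d^p) in ENNReal (bound by 4 times the maximum), likewise for three terms. W is finite a.e. on Qc q 1 (ae_lt_top, r > 0). With a = phi (TL F z), b = phi (TL empty z):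
ofReal (2a + 2b + theta + sigma) ^ p <= 6 ^ p (ofReal a ^ p + ofReal b ^ p + ofReal (2 sigma) ^ p). 24 * 4 = 96 and 24 * 5 = 120 give aT and aR (4 * 5 <= 120). W ^ p <= W ^ r since W >= 1. lintegral_rpow_le on Qc q 1 minus sharp (measurable, isOpen_sharp).
tail_tendsto: choose K2 >= K0 for c1, c2 and all q (finitely many), then K1 for c0, c2. Volume of Qc q 1 is (2 eta) ^ (2m+1) (Real.volume_pi_closedBall). -/

open Set Metric Filter Topology Function BEv MeasureTheory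
open scoped NNReal ENNReal

noncomputable section
namespace BEp

variable {m : ℕ} {ι κ : Type} [Fintype ι] [Fintype κ]

theorem AEn2_max {x a b c d n : ℝ≥0∞} {p : ℝ} (hp : 0 ≤ p) (h : x ≤ n * max (max a b) (max c d)) :
    x ^ p ≤ n ^ p * (a ^ p + b ^ p + c ^ p + d ^ p) := by
  refine (ENNReal.rpow_le_rpow h hp).trans ?_
  rw [ENNReal.mul_rpow_of_nonneg _ _ hp]
  refine mul_le_mul_right ?_ _
  rcases max_choice (max a b) (max c d) with e | e <;> rw [e]
  · rcases max_choice a b with e | e <;> rw [e]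
    · exact le_self_add.trans (le_self_add.trans le_self_add)
    · exact le_add_self.trans (le_self_add.trans le_self_add)
  · rcases max_choice c d with e | e <;> rw [e]
    · exact le_add_self.trans le_self_add
    · exact le_add_self

theorem AEn2_four (a b c d : ℝ≥0∞) {p : ℝ} (hp : 0 ≤ p) :
    (a + b + c + d) ^ p ≤ 4 ^ p * (a ^ p + b ^ p + c ^ p + d ^ p) := by
  refine AEn2_max hp ?_
  calc a + b + c + d ≤ _ + _ + _ + _ := add_le_add (add_le_add (add_le_add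
        (le_max_of_le_left (le_max_left a b)) (le_max_of_le_left (le_max_right a b)))
        (le_max_of_le_right (le_max_left c d))) (le_max_of_le_right (le_max_right c d))
    _ = _ := by ring

theorem AEn2_three (a b c : ℝ≥0∞) {p : ℝ} (hp : 0 < p) :
    (a + b + c) ^ p ≤ 3 ^ p * (a ^ p + b ^ p + c ^ p) := by
  have := AEn2_max (x := a + b + c) (a := a) (b := b) (c := c) (d := 0) (n := 3) hp.le (by
    calc a + b + c ≤ _ + _ + _ := add_le_add (add_le_add
          (le_max_of_le_left (le_max_left a b)) (le_max_of_le_left (le_max_right a b)))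
          (le_max_of_le_right (le_max_left c 0))
      _ = _ := by ring)
  rwa [ENNReal.zero_rpow_of_pos hp, add_zero] at this

/-- The tail of the weight. -/
def AEn2_t (w : V m → ℝ≥0∞) (K : ℕ) (c : ℝ≥0∞) (z : V m) : ℝ≥0∞ :=
  indicator {y | (2 : ℝ≥0∞) ^ K ≤ w y} (fun y => c * w y) z

theorem AEn2_meas {w : V m → ℝ≥0∞} (hw : Measurable w) (K : ℕ) (c : ℝ≥0∞) :
    Measurable (AEn2_t w K c) :=
  (hw.const_mul c).indicator (measurableSet_le measurable_const hw)

theorem AEn2_tail {w : V m → ℝ≥0∞} (hw : Measurable w) {p r : ℝ} (hp : 0 < p) (hr : p < r)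
    {Q : ι → Set (V m)} (hQ : ∀ q, ∫⁻ z in Q q, w z ^ r ≠ ⊤) {c c' e : ℝ≥0∞} (hc : c ≠ ⊤)
    (hc' : c' ≠ ⊤) (he : e ≠ 0) : ∀ᶠ K in atTop, ∀ q,
      ∫⁻ z in Q q, 4 ^ p * (AEn2_t w K c z ^ p + AEn2_t w K c' z ^ p) ≤ e := by
  refine eventually_all.2 fun q => ?_
  have h := ENNReal.Tendsto.const_mul (a := 4 ^ p) ((tail_tendsto hw hp hr (hQ q) hc).add
    (tail_tendsto hw hp hr (hQ q) hc'))
    (Or.inr (ENNReal.rpow_ne_top_of_nonneg hp.le ENNReal.ofNat_ne_top))
  rw [add_zero, mul_zero] at h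
  filter_upwards [h.eventually_le_const (pos_iff_ne_zero.2 he)] with K hK
  rwa [lintegral_const_mul _ (((AEn2_meas hw K c).pow_const p).fun_add
    ((AEn2_meas hw K c').pow_const p)), lintegral_add_left ((AEn2_meas hw K c).pow_const p)]

theorem AEn2_mid {a b θ σ L p r : ℝ} (hp : 0 < p) (hr : p ≤ r) (hθ : θ ≤ σ) (hσ : 0 ≤ σ)
    {w : ℝ≥0∞} (hw : 1 ≤ w) :
    4 ^ p * (ENNReal.ofReal (2 * a + 2 * b + θ + σ) * ENNReal.ofReal (4 * L) * w) ^ p ≤
      ENNReal.ofReal (96 * L) ^ p * ((ENNReal.ofReal a ^ p + ENNReal.ofReal b ^ p) * w ^ p +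
        ENNReal.ofReal (2 * σ) ^ p * w ^ r) := by
  have h1 : ENNReal.ofReal (2 * a + 2 * b + θ + σ) ≤
      2 * (ENNReal.ofReal a + ENNReal.ofReal b + ENNReal.ofReal (2 * σ)) := by
    calc _ ≤ ENNReal.ofReal (2 * (a + b + 2 * σ)) := ENNReal.ofReal_le_ofReal (by linarith)
      _ = 2 * ENNReal.ofReal (a + b + 2 * σ) := by
        rw [ENNReal.ofReal_mul zero_le_two, ENNReal.ofReal_ofNat]
      _ ≤ _ := mul_le_mul_right (ENNReal.ofReal_add_le.trans
        (add_le_add_left ENNReal.ofReal_add_le _)) _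
  have h2 := ENNReal.rpow_le_rpow h1 hp.le
  rw [ENNReal.mul_rpow_of_nonneg _ _ hp.le] at h2
  have h3 := h2.trans (mul_le_mul_right (AEn2_three _ _ _ hp) _)
  have h4 : ENNReal.ofReal (96 * L) = 4 * (2 * 3 * ENNReal.ofReal (4 * L)) := by
    rw [show 96 * L = 24 * (4 * L) by ring, ENNReal.ofReal_mul (by norm_num), ENNReal.ofReal_ofNat]
    ring
  have h5 : w ^ p ≤ w ^ r := ENNReal.rpow_le_rpow_of_exponent_le hw hr
  simp only [h4, ENNReal.mul_rpow_of_nonneg _ _ hp.le]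
  calc _ ≤ 4 ^ p * (2 ^ p * (3 ^ p * (ENNReal.ofReal a ^ p + ENNReal.ofReal b ^ p +
        ENNReal.ofReal (2 * σ) ^ p)) * ENNReal.ofReal (4 * L) ^ p * w ^ p) := by gcongr
    _ = 4 ^ p * (2 ^ p * 3 ^ p * ENNReal.ofReal (4 * L) ^ p) *
        ((ENNReal.ofReal a ^ p + ENNReal.ofReal b ^ p) * w ^ p +
          ENNReal.ofReal (2 * σ) ^ p * w ^ p) := by ring
    _ ≤ _ := by gcongr

theorem AEn2_out {L p : ℝ} (hp : 0 < p) (hL : 0 ≤ L) (w : V m → ℝ≥0∞) (S : Set (V m)) (z : V m) :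
    4 ^ p * indicator S (fun y => ENNReal.ofReal (5 * L) * w y) z ^ p ≤
      ENNReal.ofReal (120 * L) ^ p * indicator S (fun y => w y ^ p) z := by
  by_cases hz : z ∈ S
  · rw [indicator_of_mem hz, indicator_of_mem hz, ← ENNReal.mul_rpow_of_nonneg _ _ hp.le,
      ← ENNReal.mul_rpow_of_nonneg _ _ hp.le, ← mul_assoc]
    refine ENNReal.rpow_le_rpow (mul_le_mul_left ?_ _) hp.le
    rw [← ENNReal.ofReal_ofNat, ← ENNReal.ofReal_mul (by norm_num)]
    exact ENNReal.ofReal_le_ofReal (by linarith)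
  · rw [indicator_of_notMem hz, ENNReal.zero_rpow_of_pos hp, mul_zero]
    exact zero_le

theorem Cfg.energy {X : Cfg m ι κ} {kp : κ → Finset (Ix m → ℤ)} {f G gd : V m → V m}
    {φ : ι → V m → ℝ} {θ ϑ : ℝ} (hX : X.Ok) (hk : X.Kp kp) (hG : X.Gd kp f G gd φ θ ϑ)
    {p r : ℝ} (hp : 1 ≤ p) (hr : p < r) (hφ : ∀ q, Measurable (φ q)) (hθ : ∀ q, θ ≤ (X.ty q).σ)
    (hth : ∀ q, 0 < (X.ty q).th) {CW : ℝ≥0∞} (hC : CW ≠ ⊤)
    (hW : ∀ q, ∫⁻ z in X.Qc q 1, X.W z ^ r ≤ CW * ENNReal.ofReal ((2 * X.η) ^ (2 * m + 1)))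
    (hf : Continuous f) {e1 : ℝ} (ho : ∀ q, ∀ x ∈ X.Qc q 3, ∀ y ∈ X.Qc q 3, ‖f x - f y‖ ≤ e1)
    {e' : ℝ≥0∞} (he : e' ≠ 0) :
    ∃ K1 K2, ∀ q, ∫⁻ z in X.Qc q 1, (‖G (X.TK kp K1 K2 z) - f z‖ₑ ^ p +
        ‖fderiv ℝ (fun x => G (X.TK kp K1 K2 x)) z - (X.ty q).A‖ₑ ^ p) ≤
      e' + ENNReal.ofReal (3 * (ϑ + e1)) ^ p * ENNReal.ofReal ((2 * X.η) ^ (2 * m + 1)) +
        (X.ty q).aT p * (X.E1 p (fun q y => ENNReal.ofReal (φ q y) ^ p) q +
          ENNReal.ofReal (2 * (X.ty q).σ) ^ p * (CW * ENNReal.ofReal ((2 * X.η) ^ (2 * m + 1)))) +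
        (X.ty q).aR p * (ENNReal.ofReal (X.ty q).th ^ p * volume (X.Qc q 1 \ X.sharp kp) +
          ENNReal.ofReal (X.ty q).th ^ (p - r) *
            (CW * ENNReal.ofReal ((2 * X.η) ^ (2 * m + 1)))) := by
  have p0 : 0 < p := by linarith
  have mW : Measurable X.W := Cf0.measurable_wt hX.toOk X.s X.ω
  have w1 : ∀ z, 1 ≤ X.W z := fun z => one_le_two.trans (Cf0.two_le_wt _ _ _ z)
  have hQ : ∀ q, ∫⁻ z in X.Qc q 1, X.W z ^ r ≠ ⊤ := fun q =>
    ne_top_of_le_ne_top (ENNReal.mul_ne_top hC ENNReal.ofReal_ne_top) (hW q)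
  obtain ⟨c1, k1, H1⟩ := Cfg.pw_der hX hk hG
  obtain ⟨c2, k2, H2⟩ := Cfg.pw_sup hX hk hG hf ho
  have he2 := (ENNReal.half_pos he).ne'
  obtain ⟨K2, a1, a2⟩ := ((eventually_ge_atTop X.K0).and
    (AEn2_tail mW p0 hr hQ k1 k2 he2)).exists
  obtain ⟨c0, k0, H0⟩ := H1 K2 a1
  obtain ⟨K1, a3⟩ := (AEn2_tail mW p0 hr hQ k0 k2 he2).exists
  refine ⟨K1, K2, fun q => ?_⟩
  have ok := hX.toOk.ty q
  have mQ : MeasurableSet (X.Qc q 1) := measurableSet_closedBall
  have mS : MeasurableSet (X.sharp kp)ᶜ := (X.isOpen_sharp kp).measurableSet.compl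
  have mt : ∀ K c c', Measurable fun z =>
      (4 : ℝ≥0∞) ^ p * (AEn2_t X.W K c z ^ p + AEn2_t X.W K c' z ^ p) := fun K c c' =>
    (((AEn2_meas mW K c).pow_const p).add ((AEn2_meas mW K c').pow_const p)).const_mul _
  have mE : Measurable fun z => (ENNReal.ofReal (φ q (X.TL X.F z)) ^ p +
      ENNReal.ofReal (φ q (X.TL (fun _ => ∅) z)) ^ p) * X.W z ^ p :=
    ((((hφ q).comp (Cfg.measurable_TL hX _)).ennreal_ofReal.pow_const p).add
      (((hφ q).comp (Cfg.measurable_TL hX _)).ennreal_ofReal.pow_const p)).mul (mW.pow_const p)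
  have fin : ∀ᵐ z ∂volume.restrict (X.Qc q 1), X.W z ^ r < ⊤ := ae_lt_top (mW.pow_const r) (hQ q)
  have vol : volume (X.Qc q 1) = ENNReal.ofReal ((2 * X.η) ^ (2 * m + 1)) := by
    rw [Cf0.Qc, one_mul, Real.volume_pi_closedBall _ hX.toOk.η0.le, Fintype.card_fin]
  calc _ ≤ ∫⁻ z in X.Qc q 1, (4 ^ p * (AEn2_t X.W K1 c0 z ^ p + AEn2_t X.W K1 c2 z ^ p) +
        (4 ^ p * (AEn2_t X.W K2 c1 z ^ p + AEn2_t X.W K2 c2 z ^ p) +
        ((X.ty q).aT p * ((ENNReal.ofReal (φ q (X.TL X.F z)) ^ p +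
          ENNReal.ofReal (φ q (X.TL (fun _ => ∅) z)) ^ p) * X.W z ^ p +
          ENNReal.ofReal (2 * (X.ty q).σ) ^ p * X.W z ^ r) +
        ((X.ty q).aR p * indicator (X.sharp kp)ᶜ (fun y => X.W y ^ p) z +
          ENNReal.ofReal (3 * (ϑ + e1)) ^ p)))) := by
        refine lintegral_mono_ae ?_
        filter_upwards [fin, ae_restrict_mem mQ, ae_restrict_of_ae (H0 K1 q)] with z z1 z2 z3
        have b1 := (ENNReal.rpow_le_rpow (H2 K1 K2 a1 q z z2) p0.le).trans (AEn2_three _ _ _ p0)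
        have b2 := (ENNReal.rpow_le_rpow (z3 z2 fun k => by
          rw [k, ENNReal.top_rpow_of_pos (p0.trans hr)] at z1
          exact z1.false) p0.le).trans (AEn2_four _ _ _ _ p0.le)
        have b3 := AEn2_mid (a := φ q (X.TL X.F z)) (b := φ q (X.TL (fun _ => ∅) z))
          (L := (X.ty q).Λ ^ 4 * 2 ^ (X.ty q).N) p0 hr.le (hθ q) ok.σ0.le (w1 z)
        have b4 := AEn2_out (L := (X.ty q).Λ ^ 3) p0 (pow_nonneg (zero_le_one.trans ok.Λ1) 3)
          X.W (X.sharp kp)ᶜ z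
        have b5 : (3 : ℝ≥0∞) ^ p ≤ 4 ^ p := ENNReal.rpow_le_rpow (by norm_num) p0.le
        have b6 : ENNReal.ofReal (3 * (ϑ + e1)) ^ p = 3 ^ p * ENNReal.ofReal (ϑ + e1) ^ p := by
          rw [ENNReal.ofReal_mul (by norm_num), ENNReal.ofReal_ofNat,
            ENNReal.mul_rpow_of_nonneg _ _ p0.le]
        rw [← mul_assoc, ← mul_assoc 96] at b3
        rw [add_assoc, mul_add] at b1
        rw [mul_add, mul_add] at b2
        refine (add_le_add (b1.trans (add_le_add_right (mul_le_mul_left b5 _) _))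
          (b2.trans (add_le_add (add_le_add_right b3 _) b4))).trans (le_of_eq ?_)
        rw [b6, Typ.aT, Typ.aR]
        unfold AEn2_t
        ring
    _ ≤ e' / 2 + (e' / 2 + ((X.ty q).aT p * (X.E1 p (fun q y => ENNReal.ofReal (φ q y) ^ p) q +
          ENNReal.ofReal (2 * (X.ty q).σ) ^ p * (CW * ENNReal.ofReal ((2 * X.η) ^ (2 * m + 1)))) +
        ((X.ty q).aR p * (ENNReal.ofReal (X.ty q).th ^ p * volume (X.Qc q 1 \ X.sharp kp) +
          ENNReal.ofReal (X.ty q).th ^ (p - r) *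
            (CW * ENNReal.ofReal ((2 * X.η) ^ (2 * m + 1)))) +
          ENNReal.ofReal (3 * (ϑ + e1)) ^ p * ENNReal.ofReal ((2 * X.η) ^ (2 * m + 1))))) := by
        rw [lintegral_add_left (mt _ _ _), lintegral_add_left (mt _ _ _),
          lintegral_add_left ((mE.fun_add ((mW.pow_const r).const_mul _)).const_mul _),
          lintegral_add_right _ measurable_const, setLIntegral_const, vol,
          lintegral_const_mul _ (mE.fun_add ((mW.pow_const r).const_mul _)), lintegral_add_left mE,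
          lintegral_const_mul _ (mW.pow_const r),
          lintegral_const_mul _ ((mW.pow_const p).indicator mS), lintegral_indicator mS,
          Measure.restrict_restrict mS, inter_comm, ← sdiff_eq]
        have b1 := lintegral_rpow_le mW (hth q) p0.le hr.le
          (sdiff_subset : X.Qc q 1 \ X.sharp kp ⊆ X.Qc q 1)
        exact add_le_add (a3 q) (add_le_add (a2 q) (add_le_add
          (mul_le_mul_right (add_le_add_right (mul_le_mul_right (hW q) _) _) _)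
          (add_le_add_left (mul_le_mul_right (b1.trans
            (add_le_add_right (mul_le_mul_right (hW q) _) _)) _) _)))
    _ = _ := by
        rw [← add_assoc, ENNReal.add_halves]
        ring

end BEp
end
end

-- merged part: Pool.Agent.Work.MP_f0515e_an.Pos.ASt1
section
/-! TASK ASt1. Choice of the translation and of the kept cubes.
Plan. For each j and each cell a with m < card I choose E j a from Sel (G a, o (q a), eta; cell_sub, 64 M s <= rho <= eta), 0 for the other cells. Put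
EE j t = sum over q of aT * E1 p (Phi j q (. + t)) q + sum over a of aR th^p E j a t, measurable by av_meas (split E1 into two integrals). By av (T_mem puts TL z + t into Qc q 9), W^p <= W^r (two_le_wt), the field sum
(Finset.sum_fiberwise) and volume (closedBall 0 eta) = (2 eta)^(2m+1): integral of EE j <= c * volume. exists_freq gives t. Eventually u j is eps / 8 close to f on every Qc q 9, so frequently there is kp
(empty for the cells with card I <= m, Kept is trivial there) in the finite set {kp | for all a, kp a inside F a}; freq_pigeon. fderiv_comp_add_right. -/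

open Set Metric Filter Topology Function BEv MeasureTheory
open scoped NNReal ENNReal

noncomputable section
namespace BEp

variable {m : ℕ} {ι κ : Type} [Fintype ι] [Fintype κ]

theorem ASt1_sum {X : Cfg m ι κ} (hX : X.Ok) (g : ι → ℝ≥0∞) :
    ∑ a, g (X.q a) * ENNReal.ofReal ((2 * X.h a) ^ (2 * m + 1)) ≤
      ∑ q, g q * ENNReal.ofReal ((2 * X.η) ^ (2 * m + 1)) := by
  classical
  rw [← Finset.sum_fiberwise Finset.univ X.q]
  refine Finset.sum_le_sum fun q _ => ?_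
  rw [Finset.sum_congr rfl fun a ha => by rw [(Finset.mem_filter.1 ha).2], ← Finset.mul_sum,
    ← ENNReal.ofReal_sum_of_nonneg fun a _ => by have := hX.h0 a; positivity]
  refine mul_le_mul_right (ENNReal.ofReal_le_ofReal ?_) _
  simp only [mul_pow, ← Finset.mul_sum]
  refine mul_le_mul_of_nonneg_left (le_trans (le_of_eq ?_) (hX.sum q)) (by positivity)
  exact Finset.sum_congr (Finset.ext fun a => by simp) fun _ _ => rfl

theorem ASt1_av {X : Cfg m ι κ} (hX : X.Ok) {p r : ℝ} (hr : p ≤ r) {C B : ℝ≥0∞} {q : ι}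
    (hW : ∫⁻ z in X.Qc q 1, X.W z ^ r ≤ C) {Φ : V m → ℝ≥0∞} (hΦ : Measurable Φ)
    (hB : ∫⁻ y in X.Qc q 9, Φ y ≤ B) (kp : κ → Finset (Ix m → ℤ)) :
    ∫⁻ t in closedBall (0 : V m) X.η, ∫⁻ z in X.Qc q 1, Φ (X.TL kp z + t) * X.W z ^ p ≤ C * B := by
  refine (av volume (Cfg.measurable_TL hX kp) ((Cf0.measurable_wt hX.toOk _ _).pow_const p) hΦ
    measurableSet_closedBall measurableSet_closedBall (U := X.Qc q 9) fun z hz t ht => ?_).trans
    (mul_le_mul' (le_trans (lintegral_mono fun z => ENNReal.rpow_le_rpow_of_exponent_le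
      (one_le_two.trans (X.two_le_wt _ _ z)) hr) hW) hB)
  have h1 : ‖X.TL kp z - X.o q‖ ≤ 2 * X.η := mem_closedBall_iff_norm.1 (Cfg.T_mem hX kp _ _ hz)
  have h2 := mem_closedBall_zero_iff.1 ht
  have h3 := hX.η0
  refine mem_closedBall_iff_norm.2 ?_
  rw [add_sub_right_comm]
  linarith [norm_add_le (X.TL kp z - X.o q) t]

theorem Cfg.stage_t {X : Cfg m ι κ} (hX : X.Ok) {p r : ℝ} (hp : 0 ≤ p) (hr : p ≤ r) {CW : ℝ≥0∞}
    (hW : ∀ q, ∫⁻ z in X.Qc q 1, X.W z ^ r ≤ CW * ENNReal.ofReal ((2 * X.η) ^ (2 * m + 1)))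
    {Cs : ι → ℝ≥0∞} (hS : ∀ q, (X.ty q).Sel p (Cs q)) {f : V m → V m} {u : ℕ → V m → V m}
    (hu : ∀ j, ContDiff ℝ 1 (u j)) (hu' : ∀ q, TendstoUniformlyOn u f atTop (X.Qc q 9))
    {B : ι → ℝ≥0∞}
    (hB : ∀ᶠ j in atTop, ∀ q, ∫⁻ y in X.Qc q 9, ‖fderiv ℝ (u j) y - (X.ty q).A‖ₑ ^ p ≤ B q)
    {c : ℝ≥0∞} (h0 : c ≠ 0) (h1 : c ≠ ⊤)
    (hc : ∑ q, (2 * (X.ty q).aT p * CW +
      (X.ty q).aR p * ENNReal.ofReal (X.ty q).th ^ p * Cs q) * B q ≤ c) :
    ∃ t ∈ closedBall (0 : V m) X.η, ∃ kp : κ → Finset (Ix m → ℤ),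
      (∀ a, (X.G a).Kept (fun x => f (x + t)) (X.F a) (kp a)) ∧ ∃ᶠ j in atTop,
        X.Etot p (fun q y => ‖fderiv ℝ (fun x => u j (x + t)) y - (X.ty q).A‖ₑ ^ p) kp ≤ 2 * c := by
  classical
  let Φ : ℕ → ι → V m → ℝ≥0∞ := fun j q y => ‖fderiv ℝ (u j) y - (X.ty q).A‖ₑ ^ p
  have mΦ : ∀ j q, Measurable (Φ j q) := fun j q =>
    (((hu j).continuous_fderiv one_ne_zero).sub continuous_const).enorm.measurable.pow_const p
  have mW : Measurable fun z => X.W z ^ p := (Cf0.measurable_wt hX.toOk _ _).pow_const p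
  have hE : ∀ j a, ∃ E : V m → ℝ≥0∞, Measurable E ∧
      ∫⁻ t in closedBall (0 : V m) X.η, E t ≤ Cs (X.q a) *
        ENNReal.ofReal ((2 * X.h a) ^ (2 * m + 1)) * ∫⁻ y in X.Qc (X.q a) 9, Φ j (X.q a) y ∧
      ∀ t ∈ closedBall (0 : V m) X.η, (∀ y ∈ X.Qc (X.q a) 9, ‖u j y - f y‖ ≤ (X.G a).ε / 8) →
        ∃ kp, (X.G a).Kept (fun x => f (x + t)) (X.F a) kp ∧
          (if m < (X.C a).I.card then ((X.F a \ kp).card : ℝ≥0∞) * (X.G a).col else 0) ≤ E t := by
    intro j a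
    by_cases h : m < (X.C a).I.card
    · obtain ⟨E, k1, k2, k3⟩ := hS (X.q a) (X.G a) rfl (hX.gok a) h (X.F a) (hX.hF a) (X.o (X.q a))
        X.η ((Cf0.cell_sub hX.toOk a).trans (closedBall_subset_closedBall (one_mul _).le))
        ((hX.sρ a).trans hX.ρη) (u j) (hu j)
      exact ⟨E, k1, k2, fun t ht hf => by simpa only [if_pos h] using k3 t ht f hf⟩
    · exact ⟨0, measurable_zero, by simp, fun t _ _ =>
        ⟨∅, ⟨Finset.empty_subset _, by simp, by simp, by simp⟩, by simp [h]⟩⟩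
  choose E e1 e2 e3 using hE
  have mI := fun j q kp => av_meas volume (Cfg.measurable_TL hX kp) mW (mΦ j q) (X.Qc q 1)
  let I : ℕ → ι → V m → ℝ≥0∞ := fun j q t =>
    (∫⁻ z in X.Qc q 1, Φ j q (X.TL X.F z + t) * X.W z ^ p) +
      ∫⁻ z in X.Qc q 1, Φ j q (X.TL (fun _ => ∅) z + t) * X.W z ^ p
  have m1 : ∀ j q, Measurable fun t => (X.ty q).aT p * I j q t := fun j q =>
    ((mI j q _).add (mI j q _)).const_mul _
  have m2 : ∀ j a, Measurable fun t => (X.C a).aR p * ENNReal.ofReal (X.C a).th ^ p * E j a t :=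
    fun j a => (e1 j a).const_mul _
  have hv : volume (closedBall (0 : V m) X.η) = ENNReal.ofReal ((2 * X.η) ^ (2 * m + 1)) := by
    rw [Real.volume_pi_closedBall _ hX.η0.le, Fintype.card_fin]
  obtain ⟨t, ht, hf⟩ := exists_freq (E := fun j t => ∑ q, (X.ty q).aT p * I j q t +
      ∑ a, (X.C a).aR p * ENNReal.ofReal (X.C a).th ^ p * E j a t)
    (fun j => (Finset.measurable_sum _ fun q _ => m1 j q).add
      (Finset.measurable_sum _ fun a _ => m2 j a)) measurableSet_closedBall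
    (measure_closedBall_pos volume _ hX.η0).ne' measure_closedBall_lt_top.ne h0 h1
    (hB.mono fun j hj => by
      rw [lintegral_add_left (Finset.measurable_sum _ fun q _ => m1 j q),
        lintegral_finsetSum _ fun q _ => m1 j q, lintegral_finsetSum _ fun a _ => m2 j a, hv]
      refine le_trans (add_le_add (Finset.sum_le_sum (g := fun q => (X.ty q).aT p *
          (CW * ENNReal.ofReal ((2 * X.η) ^ (2 * m + 1)) * B q +
            CW * ENNReal.ofReal ((2 * X.η) ^ (2 * m + 1)) * B q)) fun q _ => ?_)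
        ((Finset.sum_le_sum fun a _ => ?_).trans (ASt1_sum hX fun q =>
          (X.ty q).aR p * ENNReal.ofReal (X.ty q).th ^ p * Cs q * B q)))
        (le_trans (le_of_eq ?_) (mul_le_mul_left hc _))
      · rw [lintegral_const_mul _ ((mI j q _).fun_add (mI j q _)), lintegral_add_left (mI j q _)]
        exact mul_le_mul_right (add_le_add (ASt1_av hX hr (hW q) (mΦ j q) (hj q) _)
          (ASt1_av hX hr (hW q) (mΦ j q) (hj q) _)) _
      · rw [lintegral_const_mul _ (e1 j a)]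
        refine (mul_le_mul_right ((e2 j a).trans (mul_le_mul_right (hj _) _)) _).trans
          (le_of_eq ?_)
        change (X.ty (X.q a)).aR p * ENNReal.ofReal (X.ty (X.q a)).th ^ p * _ = _
        ring
      · rw [← Finset.sum_add_distrib, Finset.sum_mul]
        exact Finset.sum_congr rfl fun q _ => by ring)
  have hc' : ∀ᶠ j in atTop, ∀ a, ∀ y ∈ X.Qc (X.q a) 9, ‖u j y - f y‖ ≤ (X.G a).ε / 8 :=
    eventually_all.2 fun a => (Metric.tendstoUniformlyOn_iff.1 (hu' (X.q a)) ((X.G a).ε / 8)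
      (div_pos (div_pos (mul_pos (hX.gok a).σ0 hX.s0) (by norm_num)) (by norm_num))).mono
        fun j hj y hy => by rw [← dist_eq_norm, dist_comm]; exact (hj y hy).le
  obtain ⟨kp, -, hk⟩ := freq_pigeon (Set.Finite.pi' fun a => (X.F a).powerset.finite_toSet)
    (P := fun j kp => (∀ a, (X.G a).Kept (fun x => f (x + t)) (X.F a) (kp a)) ∧
      X.Etot p (fun q y => ‖fderiv ℝ (fun x => u j (x + t)) y - (X.ty q).A‖ₑ ^ p) kp ≤ 2 * c)
    ((hf.and_eventually hc').mono fun j hj => by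
      choose kp k1 k2 using fun a => e3 j a t ht (hj.2 a)
      refine ⟨kp, fun a => Finset.mem_coe.2 (Finset.mem_powerset.2 (k1 a).sub), k1,
        le_trans (add_le_add (Finset.sum_le_sum fun q _ => mul_le_mul_right (le_of_eq ?_) _)
          (Finset.sum_le_sum fun a _ => mul_le_mul_right (k2 a) _)) hj.1⟩
      simp only [Cfg.E1, fderiv_comp_add_right, add_mul]
      exact lintegral_add_left
        (((mΦ j q).comp ((Cfg.measurable_TL hX _).add_const t)).mul mW) _)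
  exact ⟨t, ht, kp, hk.exists.choose_spec.1, hk.mono fun j hj => hj.2⟩

end BEp
end
end
end

-- merged part: Pool.Agent.Work.MP_f0515e_an.Pos.ACfg
section
-- merged part: Pool.Agent.Work.MP_f0515e_an.Pos.ANs
section
/-! TASK ANs. Measure of the zone where the map is not sharp.
Plan. vol_col: the set is the preimage under z -> Sh (z - c) (measure preserving) of a subset of a box with sides 32 s t in the directions of I and 2 h in the others (Real.volume_pi_Icc or volume_pi_pi).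
vol_frame: difference of two such boxes, (16 M s)^k - (16 M s - 168 s)^k <= k (168 s) (16 M s)^(k-1), 168 / 16 <= 11; cover the frame by k slabs pairs if simpler. ns_cell: for z in opn 3 take b from exists_col; cb b is in cell 2 (nr_slice,
norm_pi_sub_cb, nr_pi_le, 8 M s <= gamma h), so b is in F. If b is not in kp0, z is in its column; if some y in Y is within rho of cb b, z is in Wd; else b is in kp and z is in the frame; sum with card_F.
Wd_small: the sets Wd Y rho are compact (closed: Y compact) and decrease to {z in cell 0, pi z in Y}, which lies in finitely many proper affine subspaces (preimage under pi of a plane of dimension <= m < card I: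
dimension at most m + (n - card I) < n; Measure.addHaar_affineSubspace), or use Sm.null; tendsto_measure_iInter. -/

open Set Metric Filter Topology Function BEv MeasureTheory
open scoped NNReal ENNReal

noncomputable section
namespace BEp

variable {m : ℕ} {ι κ : Type} [Fintype ι] [Fintype κ]

theorem ANs_box (I : Finset (Ix m)) (a : V m) {r h : ℝ} (hr : 0 ≤ r) (hh : 0 ≤ h) :
    volume (Icc (fun l => if l ∈ I then a l - r else -h) (fun l => if l ∈ I then a l + r else h) :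
      Set (V m)) = ENNReal.ofReal ((2 * r) ^ I.card * (2 * h) ^ (2 * m + 1 - I.card)) := by
  rw [Real.volume_Icc_pi, ← ENNReal.ofReal_prod_of_nonneg]
  · congr 1
    have e : ∀ l : Ix m, ((if l ∈ I then a l + r else h) - if l ∈ I then a l - r else -h) =
        if l ∈ I then 2 * r else 2 * h := fun l => by split_ifs <;> ring
    simp only [e]
    rw [Finset.prod_ite, Finset.prod_const, Finset.prod_const]
    congr 2
    · simp
    · rw [Finset.filter_not, Finset.card_univ_sdiff]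
      simp
  · intro l _
    split_ifs <;> linarith

/-- The full column of radius `t`. -/
def ANs_T (G : Gr m) (b : Ix m → ℤ) (t : ℝ) : Set (V m) :=
  (fun z => G.Sh (z - G.c)) ⁻¹'
    Icc (fun l => if l ∈ G.I then 16 * G.s * (G.ctr b l + G.ω l) - 16 * G.s * t else -G.h)
      (fun l => if l ∈ G.I then 16 * G.s * (G.ctr b l + G.ω l) + 16 * G.s * t else G.h)

theorem ANs_meas (G : Gr m) (b : Ix m → ℤ) (t : ℝ) : MeasurableSet (ANs_T G b t) :=
  (G.Sh.continuous.comp (continuous_id.sub continuous_const)).measurable measurableSet_Icc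

theorem ANs_vol {G : Gr m} (hG : G.Ok) (b : Ix m → ℤ) {t : ℝ} (ht : 0 ≤ t) :
    volume (ANs_T G b t) =
      ENNReal.ofReal ((32 * G.s * t) ^ G.I.card * (2 * G.h) ^ (2 * m + 1 - G.I.card)) := by
  have hs := hG.s0
  have h1 := (hG.vol.comp (measurePreserving_sub_right volume G.c)).measure_preimage
    (s := Icc (fun l => if l ∈ G.I then 16 * G.s * (G.ctr b l + G.ω l) - 16 * G.s * t else -G.h)
      (fun l => if l ∈ G.I then 16 * G.s * (G.ctr b l + G.ω l) + 16 * G.s * t else G.h))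
    measurableSet_Icc.nullMeasurableSet
  rw [ANs_box G.I (fun l => 16 * G.s * (G.ctr b l + G.ω l)) (by positivity) hG.h0.le] at h1
  rw [show 32 * G.s * t = 2 * (16 * G.s * t) by ring]
  exact h1

theorem ANs_mem {G : Gr m} (hG : G.Ok) (b : Ix m → ℤ) {t : ℝ} (ht : 0 ≤ t) (z : V m) :
    z ∈ ANs_T G b t ↔ ‖pr G.I (G.ξ z - G.ctr b)‖ ≤ t ∧
      ∀ l, l ∉ G.I → |G.Sh (z - G.c) l| ≤ G.h := by
  have hs : 0 < 16 * G.s := by linarith [hG.s0]
  have e : ∀ l, (G.ξ z - G.ctr b) l =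
      (G.Sh (z - G.c) l - 16 * G.s * (G.ctr b l + G.ω l)) / (16 * G.s) := fun l => by
    have hs' := hG.s0.ne'
    simp only [Gr.ξ, xi, Pi.sub_apply, Pi.smul_apply, smul_eq_mul]
    field_simp
    ring
  rw [norm_pr_le_iff ht]
  simp only [e, abs_div, abs_of_pos hs, div_le_iff₀ hs, ANs_T, mem_preimage, mem_Icc, Pi.le_def,
    abs_le]
  constructor
  · rintro ⟨h1, h2⟩
    refine ⟨fun l hl => ?_, fun l hl => ?_⟩
    · have a1 := h1 l
      have a2 := h2 l
      rw [if_pos hl] at a1 a2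
      constructor <;> linarith
    · have a1 := h1 l
      have a2 := h2 l
      rw [if_neg hl] at a1 a2
      exact ⟨a1, a2⟩
  · rintro ⟨h1, h2⟩
    refine ⟨fun l => ?_, fun l => ?_⟩ <;> split_ifs with hl
    · linarith [(h1 l hl).1]
    · exact (h2 l hl).1
    · linarith [(h1 l hl).2]
    · exact (h2 l hl).2

theorem ANs_cell {G : Gr m} {z : V m} (hz : z ∈ G.cell 0) (l : Ix m) :
    |G.Sh (z - G.c) l| ≤ G.h := by
  have h1 : ‖G.Sh (z - G.c)‖ ≤ (1 - 0 * G.γ) * G.h := hz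
  have h2 := norm_le_pi_norm (G.Sh (z - G.c)) l
  rw [Real.norm_eq_abs] at h2
  linarith

theorem ANs_null (C : Cel m) (hm : m < C.I.card) (P : AffineSubspace ℝ (V m))
    (hP : Module.finrank ℝ P.direction ≤ m) : volume (C.π ⁻¹' (P : Set (V m))) = 0 := by
  rcases (C.π ⁻¹' (P : Set (V m))).eq_empty_or_nonempty with h | ⟨z0, h0⟩
  · rw [h, measure_empty]
  let L : V m →ₗ[ℝ] V m :=
    { toFun := pr C.I
      map_add' := fun x y => by
        funext l
        simp only [pr, Pi.add_apply]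
        split_ifs <;> simp
      map_smul' := fun c x => by
        funext l
        simp only [pr, Pi.smul_apply, RingHom.id_apply]
        split_ifs <;> simp }
  let K : Submodule ℝ (V m) := P.direction.comap (L.comp (C.Sh.toLinearEquiv : V m →ₗ[ℝ] V m))
  have hK : K ≠ ⊤ := by
    intro hK
    have hv : ∀ l : C.I, (Pi.basisFun ℝ (Ix m)) l ∈ P.direction := by
      intro l
      have h1 : C.Sh.symm ((Pi.basisFun ℝ (Ix m)) l) ∈ K := hK ▸ Submodule.mem_top
      have h2 : pr C.I (C.Sh (C.Sh.symm ((Pi.basisFun ℝ (Ix m)) l))) ∈ P.direction := h1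
      rw [C.Sh.apply_symm_apply] at h2
      convert h2 using 1
      funext i
      simp only [pr, Pi.basisFun_apply]
      split_ifs with hi
      · rfl
      · exact Pi.single_eq_of_ne (fun k : i = l.1 => hi (by rw [k]; exact l.2)) _
    have hli : LinearIndependent ℝ fun l : C.I => (⟨_, hv l⟩ : P.direction) :=
      LinearIndependent.of_comp P.direction.subtype
        ((Pi.basisFun ℝ (Ix m)).linearIndependent.comp _ Subtype.val_injective)
    have := hli.fintype_card_le_finrank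
    rw [Fintype.card_coe] at this
    omega
  have hne : AffineSubspace.mk' z0 K ≠ ⊤ := by
    intro h
    apply hK
    rw [← AffineSubspace.direction_mk' z0 K, h, AffineSubspace.direction_top]
  refine measure_mono_null (fun z hz => ?_) (Measure.addHaar_affineSubspace volume _ hne)
  have h1 := AffineSubspace.vsub_mem_direction (show C.π z ∈ P from hz) (show C.π z0 ∈ P from h0)
  have h2 : pr C.I (C.Sh (z - z0)) ∈ P.direction := by
    convert h1 using 1
    rw [vsub_eq_sub, Cel.π, Cel.π, add_sub_add_left_eq_sub, ← pr_sub, ← map_sub]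
    congr 2
    abel
  exact AffineSubspace.mem_mk'.2 h2

theorem Gr.vol_col {G : Gr m} (hG : G.Ok) (b : Ix m → ℤ) :
    volume {z | z ∈ G.cell 0 ∧ ‖pr G.I (G.ξ z - G.ctr b)‖ ≤ G.M / 2} ≤ G.col := by
  have hM : (0 : ℝ) ≤ G.M / 2 := by positivity
  refine le_trans (measure_mono fun z hz => (ANs_mem hG b hM z).2
    ⟨hz.2, fun l _ => ANs_cell hz.1 l⟩) (le_of_eq ?_)
  rw [ANs_vol hG b hM, Gr.col]
  congr 3
  ring

theorem Gr.vol_frame {G : Gr m} (hG : G.Ok) (b : Ix m → ℤ) :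
    volume {z | z ∈ G.cell 0 ∧ ‖pr G.I (G.ξ z - G.ctr b)‖ ≤ G.M / 2 ∧
      G.M / 2 - 21 / 4 ≤ ‖pr G.I (G.ξ z - G.ctr b)‖} ≤
      ENNReal.ofReal (11 * (2 * m + 1) / G.M) * G.col := by
  have hM9 : (9 : ℝ) ≤ G.M := by exact_mod_cast hG.M9
  have hM : (0 : ℝ) < G.M := by linarith
  have hm : (0 : ℝ) ≤ m := Nat.cast_nonneg m
  have hs := hG.s0
  have hh := hG.h0
  by_cases h11 : (G.M : ℝ) ≤ 11
  · refine le_trans (measure_mono ?_) ((Gr.vol_col hG b).trans ?_)
    · exact fun z hz => ⟨hz.1, hz.2.1⟩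
    refine le_mul_of_one_le_left' ?_
    rw [← ENNReal.ofReal_one]
    refine ENNReal.ofReal_le_ofReal ?_
    rw [le_div_iff₀ hM]
    linarith
  have h0 : (0 : ℝ) ≤ G.M / 2 - 11 / 2 := by linarith
  have h1 : (0 : ℝ) ≤ G.M / 2 := by linarith
  have hsub : ANs_T G b (G.M / 2 - 11 / 2) ⊆ ANs_T G b (G.M / 2) := fun z hz => by
    rw [ANs_mem hG b h0] at hz
    exact (ANs_mem hG b h1 z).2 ⟨by linarith [hz.1], hz.2⟩
  refine le_trans (measure_mono (t := ANs_T G b (G.M / 2) \ ANs_T G b (G.M / 2 - 11 / 2))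
    fun z hz => ⟨(ANs_mem hG b h1 z).2 ⟨hz.2.1, fun l _ => ANs_cell hz.1 l⟩, fun k => ?_⟩) ?_
  · have := ((ANs_mem hG b h0 z).1 k).1
    linarith [hz.2.2]
  rw [measure_sdiff hsub (ANs_meas G b _).nullMeasurableSet
    (by rw [ANs_vol hG b h0]; exact ENNReal.ofReal_ne_top), ANs_vol hG b h0, ANs_vol hG b h1,
    ← ENNReal.ofReal_sub _ (by positivity), Gr.col, ← ENNReal.ofReal_mul (by positivity)]
  refine ENNReal.ofReal_le_ofReal ?_
  have hk : (G.I.card : ℝ) ≤ 2 * m + 1 := by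
    have := G.I.card_le_univ
    rw [Fintype.card_fin] at this
    exact_mod_cast this
  have hb : 1 + (G.I.card : ℝ) * (-(11 / G.M)) ≤ (1 + -(11 / G.M)) ^ G.I.card := by
    refine one_add_mul_le_pow ?_ _
    have : 11 / (G.M : ℝ) ≤ 1 := by rw [div_le_one hM]; linarith
    linarith
  have e1 : 32 * G.s * (G.M / 2 - 11 / 2) = 16 * G.M * G.s * (1 + -(11 / G.M)) := by
    field_simp
    ring
  have e2 : 32 * G.s * (G.M / 2) = 16 * G.M * G.s := by ring
  rw [e1, e2, mul_pow (16 * G.M * G.s)]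
  have hp : 0 ≤ (16 * G.M * G.s) ^ G.I.card * (2 * G.h) ^ (2 * m + 1 - G.I.card) := by positivity
  have hc : 1 - (1 + -(11 / (G.M : ℝ))) ^ G.I.card ≤ 11 * (2 * m + 1) / G.M := by
    have : (G.I.card : ℝ) * (11 / G.M) ≤ (2 * m + 1) * (11 / G.M) :=
      mul_le_mul_of_nonneg_right hk (by positivity)
    have e3 : 11 * (2 * (m : ℝ) + 1) / G.M = (2 * m + 1) * (11 / G.M) := by ring
    linarith
  nlinarith [mul_le_mul_of_nonneg_right hc hp]

theorem Gr.ns_cell {G : Gr m} (hG : G.Ok) {F kp0 kp : Finset (Ix m → ℤ)}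
    (hF : ∀ b, b ∈ F ↔ b ∈ G.ful) {Y : Set (V m)} {ρ : ℝ} (hρ : 8 * G.M * G.s ≤ ρ)
    (hk : ∀ b ∈ kp0, G.cb b ∈ G.cell 2 → (∀ y ∈ Y, ρ < ‖y - G.cb b‖) → b ∈ kp) :
    volume (G.opn 3 \ G.sharp kp) ≤ ENNReal.ofReal (G.fr * (2 * G.h) ^ (2 * m + 1)) +
      volume (G.Wd Y ρ) + ((F \ kp0).card : ℝ≥0∞) * G.col := by
  have hT : G.toCel.toTyp.Ok := hG.toOk
  have hs := hG.s0
  have hh := hG.h0
  have hM : (0 : ℝ) < G.M := by exact_mod_cast lt_of_lt_of_le (by norm_num) hG.M9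
  have hsub : G.opn 3 \ G.sharp kp ⊆
      ((⋃ b ∈ F, {z | z ∈ G.cell 0 ∧ ‖pr G.I (G.ξ z - G.ctr b)‖ ≤ G.M / 2 ∧
        G.M / 2 - 21 / 4 ≤ ‖pr G.I (G.ξ z - G.ctr b)‖}) ∪ G.Wd Y ρ) ∪
      ⋃ b ∈ F \ kp0, {z | z ∈ G.cell 0 ∧ ‖pr G.I (G.ξ z - G.ctr b)‖ ≤ G.M / 2} := by
    rintro z ⟨hz, hn⟩
    obtain ⟨b, hb0, hb1, -⟩ := Gr.exists_col hG z
    have hz0 : z ∈ G.cell 0 :=
      Cel.cell_mono hT hh (by norm_num : (0 : ℝ) ≤ 3) (G.toCel.opn_subset 3 hz)
    have hd : ‖G.π z - G.cb b‖ ≤ 8 * G.M * G.s := by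
      rw [Gr.norm_π_sub_cb hG]
      nlinarith
    have hc2 : G.cb b ∈ G.cell 2 := by
      have a1 := Cel.nr_slice hT (x := G.cb b) fun l hl => G.cb_off b hl
      have a2 := Cel.nr_slice hT (x := G.π z) fun l hl => G.toCel.π_off z hl
      have a3 := Cel.nr_π_le hT z
      have a4 : G.nr z < (1 - 3 * G.γ) * G.h := hz
      have a5 := norm_sub_le_norm_sub_add_norm_sub (G.cb b) (G.π z) G.c
      rw [norm_sub_rev (G.cb b) (G.π z)] at a5
      have a6 := hG.sh
      have a7 : 0 < G.M * G.s := mul_pos hM hs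
      show G.nr (G.cb b) ≤ (1 - 2 * G.γ) * G.h
      linarith
    have hbF : b ∈ F :=
      (hF b).2 ⟨hb0, Cel.cell_mono hT hh (by norm_num : (0 : ℝ) ≤ 2) hc2⟩
    by_cases h0 : b ∈ kp0
    · left
      by_cases hy : ∀ y ∈ Y, ρ < ‖y - G.cb b‖
      · left
        refine mem_biUnion hbF ⟨hz0, hb1, not_lt.1 fun k => hn ⟨hz, Or.inr ⟨b, hk b h0 hc2 hy, k⟩⟩⟩
      · right
        push Not at hy
        obtain ⟨y, hy, hy'⟩ := hy
        refine ⟨hz0, y, hy, ?_⟩
        have a5 := norm_sub_le_norm_sub_add_norm_sub y (G.cb b) (G.π z)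
        rw [norm_sub_rev (G.cb b) (G.π z)] at a5
        linarith
    · right
      exact mem_biUnion (Finset.mem_sdiff.2 ⟨hbF, h0⟩) ⟨hz0, hb1⟩
  refine (measure_mono hsub).trans ((measure_union_le _ _).trans
    (add_le_add ((measure_union_le _ _).trans (add_le_add ?_ le_rfl)) ?_))
  · refine (measure_biUnion_finset_le _ _).trans
      ((Finset.sum_le_sum fun b _ => Gr.vol_frame hG b).trans ?_)
    rw [Finset.sum_const, nsmul_eq_mul, mul_left_comm]
    refine (mul_le_mul_right (Gr.card_F hG fun b hb => (hF b).1 hb) _).trans (le_of_eq ?_)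
    rw [← ENNReal.ofReal_mul (by positivity), Typ.fr]
    congr 1
    ring
  · refine (measure_biUnion_finset_le _ _).trans
      ((Finset.sum_le_sum fun b _ => Gr.vol_col hG b).trans ?_)
    rw [Finset.sum_const, nsmul_eq_mul]

theorem Gr.ns_low {G : Gr m} (h : G.I.card ≤ m) (kp : Finset (Ix m → ℤ)) :
    G.opn 3 \ G.sharp kp = ∅ := sdiff_eq_empty.2 fun _ hz => ⟨hz, Or.inl h⟩

open Classical in
theorem Cfg.ns_cube {X : Cfg m ι κ} (hX : X.Ok) (kp : κ → Finset (Ix m → ℤ)) (q : ι) :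
    volume (X.Qc q 1 \ X.sharp kp) ≤ ENNReal.ofReal ((X.ty q).u * (2 * X.η) ^ (2 * m + 1)) +
      ∑ a ∈ Finset.univ.filter (fun a => X.q a = q),
        volume ((X.G a).opn 3 \ (X.G a).sharp (kp a)) := by
  have hsub : X.Qc q 1 \ X.sharp kp ⊆ (X.Qc q 1 \ ⋃ a, (X.C a).opn 3) ∪
      ⋃ a ∈ Finset.univ.filter (fun a => X.q a = q), ((X.G a).opn 3 \ (X.G a).sharp (kp a)) := by
    rintro z ⟨hz, hn⟩
    by_cases h : z ∈ ⋃ a, (X.C a).opn 3
    · right
      obtain ⟨a, ha⟩ := mem_iUnion.1 h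
      have hq : X.q a = q := by
        by_contra hq
        have a1 := hX.far _ _ hq
        have a2 := hX.ins a (Cel.cell_mono (hX.toOk.cty a) (hX.h0 a)
          (by norm_num : (-1 : ℝ) ≤ 3) ((X.C a).opn_subset 3 ha))
        have a3 : dist z (X.o q) ≤ 1 * X.η := hz
        have a4 := dist_triangle_left (X.o (X.q a)) (X.o q) z
        rw [mem_ball] at a2
        rw [← dist_eq_norm] at a1
        linarith
      exact mem_biUnion (Finset.mem_filter.2 ⟨Finset.mem_univ a, hq⟩)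
        ⟨ha, fun k => hn (mem_iUnion.2 ⟨a, k⟩)⟩
    · exact Or.inl ⟨hz, h⟩
  exact (measure_mono hsub).trans ((measure_union_le _ _).trans
    (add_le_add (hX.unc q) (measure_biUnion_finset_le _ _)))

theorem Cel.Wd_small {C : Cel m} (hT : C.toTyp.Ok) (hm : m < C.I.card) {Y : Set (V m)}
    (hY : IsCompact Y) (hpc : PC m Y) {e : ℝ≥0∞} (he : e ≠ 0) :
    ∀ᶠ ρ in 𝓝[>] (0 : ℝ), volume (C.Wd Y ρ) ≤ e := by
  have hπ : Continuous C.π := by
    refine continuous_const.add (continuous_pi fun l => ?_)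
    unfold pr
    split_ifs
    · exact (continuous_apply l).comp (C.Sh.continuous.comp (continuous_id.sub continuous_const))
    · exact continuous_const
  have hμ : ∀ S : Set (V m), MeasurableSet S →
      Measure.map C.π (volume.restrict (C.cell 0)) S = volume (C.π ⁻¹' S ∩ C.cell 0) := by
    intro S hS
    rw [Measure.map_apply hπ.measurable hS, Measure.restrict_apply (hπ.measurable hS)]
  have h0 : Measure.map C.π (volume.restrict (C.cell 0)) Y = 0 := by
    obtain ⟨S, hS, hd, hc⟩ := hpc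
    rw [hμ Y hY.measurableSet]
    refine measure_mono_null (t := ⋃ P ∈ S, C.π ⁻¹' (P : Set (V m))) (fun z hz => ?_)
      ((measure_biUnion_null_iff hS.countable).2 fun P hP => ANs_null C hm P (hd P hP))
    obtain ⟨P, hP, hz'⟩ := hc _ hz.1
    exact mem_biUnion hP hz'
  have ht := tendsto_measure_cthickening_of_isClosed
    (μ := Measure.map C.π (volume.restrict (C.cell 0))) (s := Y) ⟨1, one_pos, by
      rw [hμ _ isClosed_cthickening.measurableSet]
      exact ((measure_mono inter_subset_right).trans_lt (C.isCompact_cell 0).measure_lt_top).ne⟩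
    hY.isClosed
  rw [h0] at ht
  have h2 : Tendsto (fun ρ : ℝ => 2 * ρ) (𝓝[>] 0) (𝓝 0) := by
    have : Tendsto (fun ρ : ℝ => 2 * ρ) (𝓝 0) (𝓝 (2 * 0)) := tendsto_id.const_mul 2
    rw [mul_zero] at this
    exact this.mono_left nhdsWithin_le_nhds
  filter_upwards [(ht.comp h2).eventually (ge_mem_nhds (pos_iff_ne_zero.2 he))] with ρ hρ
  refine le_trans ?_ hρ
  rw [comp_apply, hμ _ isClosed_cthickening.measurableSet]
  refine measure_mono fun z hz => ⟨?_, hz.1⟩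
  obtain ⟨y, hy, hd⟩ := hz.2
  exact mem_cthickening_of_dist_le _ y _ _ hy (by rwa [dist_comm, dist_eq_norm])

end BEp
end
end

-- merged part: Pool.Agent.Work.MP_f0515e_an.Pos.AWt
section
/-! TASK AWt. Integrability of the weight and the choice of the offset.
Plan. wt_unit: be <= beI, volume_mu_le and a dyadic decomposition as in lintegral_wt_unit (meas1_wt_le), now with a real exponent: the series 2^((k+1) r) C 2^(-k (m+1)) is geometric.
wt_scaled: change of variables z = delta x (lintegral under smul, Measure.map_addHaar_smul), cover the ball of radius R / delta >= 1 by at most (C R / delta)^n unit balls centred at integer points.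
bad_null: exists_of_beI_eq_zero; for S and an integer vector k the bad offsets lie in the image of P x {y | y = 0 on S} under (x, y) -> pr S x + y + const, which is Sm (m + m)
(PC.sm, Sm.prod, Sm.image, the second factor is a Lipschitz image of Fin m -> R or PC m), Sm.iUnion, Sm.null. exists_omega1: Tonelli over omega in the closed unit ball, wt_unit after reflection,
exists_notMem_null_le_laverage style lemma for the restricted measure (volume of the ball is at least 1). -/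

open Set Metric Filter Topology Function BEv MeasureTheory
open scoped NNReal ENNReal

noncomputable section
namespace BEp

variable {m : ℕ}

theorem AWt_meas (I : Finset (Ix m)) (r : ℝ) :
    Measurable fun y : V m => (ENNReal.ofReal (beI I y))⁻¹ ^ r :=
  (ENNReal.measurable_ofReal.comp (tp_beI I).continuous.measurable).inv.pow_const r

theorem AWt_le {r : ℝ} (hr0 : 0 ≤ r) (x : V m) : (ENNReal.ofReal (mu x))⁻¹ ^ r ≤ ∑' k : ℕ,
    indicator {y : V m | mu y ≤ (1 / 2) ^ k} (fun _ => ENNReal.ofReal ((2 ^ (k + 1)) ^ r)) x := by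
  rcases (mu_nonneg x).eq_or_lt with h0 | h0
  · have h1 : ∑' _ : ℕ, (1 : ℝ≥0∞) = ⊤ := ENNReal.tsum_const_eq_top_of_ne_zero one_ne_zero
    refine le_top.trans (h1.symm.le.trans (ENNReal.tsum_le_tsum fun k => ?_))
    have h2 : x ∈ {y : V m | mu y ≤ (1 / 2) ^ k} := by
      show mu x ≤ _
      rw [← h0]
      positivity
    rw [indicator_of_mem h2, ← ENNReal.ofReal_one]
    exact ENNReal.ofReal_le_ofReal (Real.one_le_rpow (one_le_pow₀ (by norm_num)) hr0)
  · obtain ⟨k, hk1, hk2⟩ := exists_nat_pow_near_of_lt_one h0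
      ((mu_le_half x).trans (by norm_num)) (by norm_num : (0 : ℝ) < 1 / 2) (by norm_num)
    refine le_trans ?_ (ENNReal.le_tsum k)
    rw [indicator_of_mem (show x ∈ {y : V m | mu y ≤ (1 / 2) ^ k} from hk2),
      ← ENNReal.ofReal_rpow_of_pos (by positivity)]
    refine ENNReal.rpow_le_rpow ?_ hr0
    rw [← ENNReal.ofReal_inv_of_pos h0]
    refine ENNReal.ofReal_le_ofReal ?_
    rw [inv_le_comm₀ h0 (by positivity), ← inv_pow, ← one_div]
    exact hk1.le

theorem AWt_mu {r : ℝ} (hr0 : 0 ≤ r) (hr : r < m + 1) : ∃ C : ℝ≥0∞, C ≠ ⊤ ∧ ∀ p : V m,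
    ∫⁻ x in closedBall p 1, (ENNReal.ofReal (mu x))⁻¹ ^ r ≤ C := by
  obtain ⟨C, hC, h⟩ := volume_mu_le m
  have hq : (2 : ℝ) ^ r * (1 / 2) ^ (m + 1) < 1 := by
    have h1 : (2 : ℝ) ^ r < 2 ^ (m + 1) := by
      rw [← Real.rpow_natCast]
      exact Real.rpow_lt_rpow_of_exponent_lt one_lt_two (by exact_mod_cast hr)
    rw [one_div, inv_pow, ← div_eq_mul_inv, div_lt_one (by positivity)]
    exact h1
  have hs : Summable fun k : ℕ => C * 2 ^ r * ((2 : ℝ) ^ r * (1 / 2) ^ (m + 1)) ^ k :=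
    (summable_geometric_of_lt_one (by positivity) hq).mul_left _
  refine ⟨∑' k : ℕ, ENNReal.ofReal (C * 2 ^ r * ((2 : ℝ) ^ r * (1 / 2) ^ (m + 1)) ^ k), ?_,
    fun p => ?_⟩
  · rw [← ENNReal.ofReal_tsum_of_nonneg (fun k => by positivity) hs]
    exact ENNReal.ofReal_ne_top
  · have hm : ∀ k : ℕ, MeasurableSet {y : V m | mu y ≤ (1 / 2) ^ k} := fun k =>
      measurableSet_le (tp_mu (m := m)).continuous.measurable measurable_const
    refine (lintegral_mono fun x => AWt_le hr0 x).trans ?_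
    rw [lintegral_tsum fun k => (measurable_const.indicator (hm k)).aemeasurable]
    refine ENNReal.tsum_le_tsum fun k => ?_
    rw [lintegral_indicator_const (hm k), Measure.restrict_apply (hm k)]
    refine (mul_le_mul_right (h p _ (by positivity)) _).trans (le_of_eq ?_)
    rw [← ENNReal.ofReal_mul (by positivity), ← Real.rpow_pow_comm (by norm_num), mul_pow,
      ← pow_mul, ← pow_mul, mul_comm k (m + 1)]
    congr 1
    ring

theorem AWt_cover {f : V m → ℝ≥0∞} {C : ℝ≥0∞} (h : ∀ a, ∫⁻ x in closedBall a 1, f x ≤ C)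
    (b : V m) {ρ : ℝ} (hρ : 1 ≤ ρ) :
    ∫⁻ x in closedBall b ρ, f x ≤ ENNReal.ofReal ((4 * ρ) ^ (2 * m + 1)) * C := by
  classical
  let Q : Finset (Ix m → ℤ) := Fintype.piFinset fun i => Finset.Icc ⌊b i - ρ⌋ ⌊b i + ρ⌋
  have h1 : closedBall b ρ ⊆ ⋃ q ∈ Q.image (fun q i => (q i : ℝ)), closedBall q 1 := by
    intro x hx
    refine mem_iUnion₂.2 ⟨fun i => (⌊x i⌋ : ℝ), Finset.mem_image.2 ⟨fun i => ⌊x i⌋, ?_, rfl⟩, ?_⟩
    · refine Fintype.mem_piFinset.2 fun i => ?_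
      have h2 : dist (x i) (b i) ≤ ρ := (dist_le_pi_dist x b i).trans hx
      rw [Real.dist_eq, abs_le] at h2
      exact Finset.mem_Icc.2 ⟨Int.floor_mono (by linarith [h2.1]),
        Int.floor_mono (by linarith [h2.2])⟩
    · rw [mem_closedBall, dist_eq_norm]
      exact (meas1b_dist (meas1b_floor x) (meas1b_corner _)).le
  have h2 : (Q.card : ℝ) ≤ (4 * ρ) ^ (2 * m + 1) := by
    rw [Fintype.card_piFinset, Nat.cast_prod]
    refine (Finset.prod_le_prod (g := fun _ => 4 * ρ) (fun i _ => Nat.cast_nonneg _)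
      fun i _ => ?_).trans (by simp)
    have h3 := Int.floor_le (b i + ρ)
    have h4 := Int.lt_floor_add_one (b i - ρ)
    have h5 : ⌊b i - ρ⌋ ≤ ⌊b i + ρ⌋ := Int.floor_mono (by linarith)
    have h6 : ((Finset.Icc ⌊b i - ρ⌋ ⌊b i + ρ⌋).card : ℤ) = ⌊b i + ρ⌋ + 1 - ⌊b i - ρ⌋ :=
      Int.card_Icc_of_le _ _ (by omega)
    have h7 : ((Finset.Icc ⌊b i - ρ⌋ ⌊b i + ρ⌋).card : ℝ) = ⌊b i + ρ⌋ + 1 - ⌊b i - ρ⌋ := by
      exact_mod_cast h6
    rw [h7]
    linarith
  refine (lintegral_mono_set h1).trans ((meas1_lintegral_biUnion _ _ _).trans ?_)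
  refine (Finset.sum_le_card_nsmul _ _ _ fun q _ => h q).trans ?_
  rw [nsmul_eq_mul]
  refine mul_le_mul_left ?_ _
  rw [← ENNReal.ofReal_natCast]
  exact ENNReal.ofReal_le_ofReal (le_trans (by exact_mod_cast Finset.card_image_le) h2)

theorem wt_unit {r : ℝ} (hr0 : 0 ≤ r) (hr : r < m + 1) : ∃ C : ℝ≥0∞, C ≠ ⊤ ∧
    ∀ (I : Finset (Ix m)) (a : V m),
      ∫⁻ x in closedBall a 1, (ENNReal.ofReal (beI I x))⁻¹ ^ r ≤ C := by
  obtain ⟨C, hC, h⟩ := AWt_mu hr0 hr
  refine ⟨C, hC, fun I a => le_trans ?_ (h (a - hlf))⟩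
  have hm : Measurable fun y : V m => (ENNReal.ofReal (mu y))⁻¹ ^ r :=
    (ENNReal.measurable_ofReal.comp (tp_mu (m := m)).continuous.measurable).inv.pow_const r
  rw [← (measurePreserving_sub_right volume (hlf : V m)).setLIntegral_comp_preimage
    measurableSet_closedBall hm]
  have e : (fun x : V m => x - hlf) ⁻¹' closedBall (a - hlf) 1 = closedBall a 1 := by
    ext x
    simp [dist_eq_norm]
  rw [e]
  refine lintegral_mono fun x => ENNReal.rpow_le_rpow ?_ hr0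
  exact ENNReal.inv_le_inv.2 (ENNReal.ofReal_le_ofReal (be_le_beI I x))

theorem wt_scaled {r : ℝ} (hr0 : 0 ≤ r) (hr : r < m + 1) : ∃ C : ℝ≥0∞, C ≠ ⊤ ∧
    ∀ (I : Finset (Ix m)) (a : V m) (R δ : ℝ), 0 < δ → δ ≤ R →
      ∫⁻ z in closedBall a R, (ENNReal.ofReal (beI I (δ⁻¹ • z)))⁻¹ ^ r ≤
        C * ENNReal.ofReal ((2 * R) ^ (2 * m + 1)) := by
  obtain ⟨C, hC, h⟩ := wt_unit hr0 hr
  refine ⟨2 ^ (2 * m + 1) * C, ENNReal.mul_ne_top (by simp) hC, fun I a R δ hδ hR => ?_⟩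
  have hρ : 1 ≤ R / δ := (one_le_div hδ).2 hR
  have h1 : closedBall a R ⊆ (fun z : V m => δ⁻¹ • z) ⁻¹' closedBall (δ⁻¹ • a) (R / δ) := by
    intro z hz
    rw [mem_preimage, mem_closedBall, dist_smul₀, Real.norm_eq_abs, abs_of_pos (inv_pos.2 hδ),
      div_eq_inv_mul]
    exact mul_le_mul_of_nonneg_left hz (inv_pos.2 hδ).le
  refine (lintegral_mono_set h1).trans ?_
  rw [← setLIntegral_map measurableSet_closedBall (AWt_meas I r) (measurable_const_smul δ⁻¹),
    Measure.map_addHaar_smul volume (inv_pos.2 hδ).ne', Measure.restrict_smul,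
    lintegral_smul_measure, smul_eq_mul]
  refine (mul_le_mul_right (AWt_cover (h I) _ hρ) _).trans (le_of_eq ?_)
  have hn : Module.finrank ℝ (V m) = 2 * m + 1 := by simp
  rw [hn, inv_pow, inv_inv, abs_of_pos (by positivity), ← mul_assoc,
    ← ENNReal.ofReal_mul (by positivity), ← mul_pow,
    show δ * (4 * (R / δ)) = 2 * (2 * R) by field_simp; ring, mul_pow,
    ENNReal.ofReal_mul (by positivity), ENNReal.ofReal_pow (by norm_num), ENNReal.ofReal_ofNat]
  ring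

theorem bad_null (I : Finset (Ix m)) {P : Set (V m)} (hP : PC m P) :
    volume {ω : V m | ∃ x ∈ P, beI I (x - ω) = 0} = 0 := by
  classical
  let φ : ∀ S : Finset (Ix m), (Ix m → ℤ) → V m × (↥(Sᶜ) → ℝ) → V m := fun S k p i =>
    if h : i ∈ Sᶜ then p.2 ⟨i, h⟩ else p.1 i - 1 / 2 - k i
  have key : ∀ q : {S : Finset (Ix m) // S.card = m + 1} × (Ix m → ℤ),
      Sm (m + m) (φ q.1.1 q.2 '' (P ×ˢ univ)) := by
    rintro ⟨⟨S, hS⟩, k⟩
    have h1 : Sm m (univ : Set (↥(Sᶜ) → ℝ)) := by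
      have h2 := Sm.univ (E := ↥(Sᶜ) → ℝ)
      have h3 : Module.finrank ℝ (↥(Sᶜ) → ℝ) = m := by
        rw [Module.finrank_fintype_fun_eq_card, Fintype.card_coe, Finset.card_compl, hS,
          Fintype.card_fin]
        omega
      rwa [h3] at h2
    refine (hP.sm.prod h1).image (LocallyLipschitz.locallyLipschitzOn ?_)
    refine ContDiff.locallyLipschitz (𝕂 := ℝ) (contDiff_pi.2 fun i => ?_)
    simp only [φ]
    split_ifs
    · fun_prop
    · fun_prop
  refine Sm.null ((Sm.iUnion key).mono ?_) (by omega)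
  rintro ω ⟨x, hx, h0⟩
  obtain ⟨S, hS, hk⟩ := exists_of_beI_eq_zero h0
  choose! k hk using hk
  refine mem_iUnion.2 ⟨(⟨S, hS⟩, k), (x, fun i => ω i), ⟨hx, mem_univ _⟩, ?_⟩
  funext i
  simp only [φ]
  split_ifs with hi
  · rfl
  · have h1 := hk i (by simpa using hi)
    rw [Pi.sub_apply] at h1
    linarith

theorem exists_omega1 {r : ℝ} (hr0 : 0 ≤ r) (hr : r < m + 1) : ∃ C : ℝ≥0∞, C ≠ ⊤ ∧
    ∀ (I : Finset (Ix m)) (τ : V m → V m) (w : V m → ℝ≥0∞) (E P : Set (V m)), Measurable τ →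
      Measurable w → ∫⁻ z in E, w z ≠ ⊤ → PC m P → ∃ ω : V m,
        ∫⁻ z in E, (ENNReal.ofReal (beI I (τ z - ω)))⁻¹ ^ r * w z ≤ C * ∫⁻ z in E, w z ∧
        ∀ x ∈ P, 0 < beI I (x - ω) := by
  obtain ⟨C, hC, h⟩ := wt_unit hr0 hr
  refine ⟨C, hC, fun I τ w E P hτ hw _ hP => ?_⟩
  have hm : Measurable (uncurry fun (ω z : V m) =>
      (ENNReal.ofReal (beI I (τ z - ω)))⁻¹ ^ r * w z) :=
    ((AWt_meas I r).comp ((hτ.comp measurable_snd).sub measurable_fst)).mul
      (hw.comp measurable_snd)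
  have hv : volume (closedBall (0 : V m) 1) = ENNReal.ofReal ((2 * 1) ^ (2 * m + 1)) := by
    rw [Real.volume_pi_closedBall _ zero_le_one, Fintype.card_fin]
  have hv1 : 1 ≤ volume (closedBall (0 : V m) 1) := by
    rw [hv, ← ENNReal.ofReal_one]
    exact ENNReal.ofReal_le_ofReal (one_le_pow₀ (by norm_num))
  have hfin : IsFiniteMeasure (volume.restrict (closedBall (0 : V m) 1)) :=
    isFiniteMeasure_restrict.2 (by rw [hv]; exact ENNReal.ofReal_ne_top)
  obtain ⟨ω, hω, hle⟩ := exists_notMem_null_le_laverage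
    (μ := volume.restrict (closedBall (0 : V m) 1))
    (f := fun ω => ∫⁻ z in E, (ENNReal.ofReal (beI I (τ z - ω)))⁻¹ ^ r * w z)
    (N := {ω : V m | ∃ x ∈ P, beI I (x - ω) = 0})
    (fun e => (zero_lt_one.trans_le hv1).ne' (Measure.restrict_eq_zero.1 e))
    hm.lintegral_prod_right.aemeasurable
    (le_antisymm ((Measure.restrict_apply_le _ _).trans (bad_null I hP).le) bot_le)
  refine ⟨ω, hle.trans ?_, fun x hx => (beI_nonneg I _).lt_of_ne fun e => hω ⟨x, hx, e.symm⟩⟩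
  rw [setLAverage_eq]
  refine (ENNReal.div_le_of_le_mul (le_mul_of_one_le_right' hv1)).trans ?_
  rw [lintegral_lintegral_swap hm.aemeasurable, ← lintegral_const_mul _ hw]
  refine lintegral_mono fun z => ?_
  have h1 : Measurable fun ω : V m => (ENNReal.ofReal (beI I (τ z - ω)))⁻¹ ^ r :=
    (AWt_meas I r).comp (measurable_const.sub measurable_id)
  show ∫⁻ ω in closedBall (0 : V m) 1, (ENNReal.ofReal (beI I (τ z - ω)))⁻¹ ^ r * w z ≤ C * w z
  rw [lintegral_mul_const _ h1]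
  refine mul_le_mul_left (le_trans (le_of_eq ?_) (h I (τ z))) _
  rw [← (Measure.measurePreserving_sub_left volume (τ z)).setLIntegral_comp_preimage
    measurableSet_closedBall (AWt_meas I r)]
  congr 2
  ext ω
  simp [dist_eq_norm]

end BEp
end
end

-- merged part: Pool.Agent.Work.MP_f0515e_an.Pos.ACfg
section
/-! TASK ACfg. Existence of configurations.
Plan. exists_cf0: choose hr q, Fc q from Pack; kappa = Sigma q, Fc q; c = o q + eta e, h = eta hr q; nr z = eta norm (Sh (eta inverse (z - o q) - e)). Cells of different cubes lie in disjoint open balls. unc: image of the unit set under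
x -> o q + eta x (Measure.addHaar_image_homothety, addHaar_smul). eta1 = a positive lower bound of finitely many positive numbers. exists_omega: W1 = (ofReal b1) inverse; for a cell a use exists_omega1 with
tau z = (16 s) inverse Sh (r1 z - c a), w = W1 ^ r, E = {z in Qc (q a) 1 with r1 z in cell a}, P = image of Z1 under the chart (PC.image, pc_Z1). On Qc q 1 at most one indicator is nonzero and its cell belongs to q (r1_cube),
(1 + x) ^ r <= 2 ^ r (1 + x ^ r), the sets E are disjoint, wt_scaled. K0: b2 is continuous and positive on the compact set Z1. exists_cfg: rho from Wd_small (finite intersection of eventually), then s, then exists_omega, exists_F. -/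

open Set Metric Filter Topology Function BEv MeasureTheory
open scoped NNReal ENNReal

noncomputable section
namespace BEp

variable {m : ℕ}

theorem ACfg_ev (c : ℝ) {d : ℝ} (hd : 0 < d) : ∀ᶠ t in 𝓝[>] (0 : ℝ), c * t ≤ d := by
  have h : Tendsto (fun t : ℝ => c * t) (𝓝 0) (𝓝 (c * 0)) := tendsto_id.const_mul c
  rw [mul_zero] at h
  exact (h.eventually_le_const hd).filter_mono nhdsWithin_le_nhds

theorem ACfg_nr (L : V m ≃L[ℝ] V m) (o e z : V m) {η : ℝ} (hη : 0 < η) :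
    ‖L (z - (o + η • e))‖ = η * ‖L (η⁻¹ • (z - o) - e)‖ := by
  have h : z - (o + η • e) = η • (η⁻¹ • (z - o) - e) := by
    rw [smul_sub, smul_inv_smul₀ hη.ne', sub_sub]
  rw [h, map_smul, norm_smul, Real.norm_eq_abs, abs_of_pos hη]

theorem ACfg_norm (o z : V m) {η : ℝ} (hη : 0 < η) : ‖z - o‖ = η * ‖η⁻¹ • (z - o)‖ := by
  rw [norm_smul, Real.norm_eq_abs, abs_of_pos (inv_pos.2 hη), mul_inv_cancel_left₀ hη.ne']

theorem ACfg_vol (o : V m) {η : ℝ} (hη : 0 < η) (U : Set (V m)) :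
    volume {z : V m | η⁻¹ • (z - o) ∈ U} = ENNReal.ofReal (η ^ (2 * m + 1)) * volume U := by
  have h : {z : V m | η⁻¹ • (z - o) ∈ U} = (fun z => z + -o) ⁻¹' ((fun z => η⁻¹ • z) ⁻¹' U) := by
    ext z
    simp [sub_eq_add_neg]
  have hn : Module.finrank ℝ (V m) = 2 * m + 1 := by simp
  rw [h, measure_preimage_add_right, Measure.addHaar_preimage_smul volume (inv_pos.2 hη).ne', hn,
    inv_pow, inv_inv, abs_of_pos (by positivity)]

theorem exists_cf0 {ι : Type} [Fintype ι] (o : ι → V m) (ty : ι → Typ m) {η : ℝ} (hη : 0 < η)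
    (h1 : ∀ q, (ty q).Ok) (h2 : ∀ q, (ty q).Pack)
    (far : ∀ q q', q ≠ q' → 2 * η ≤ ‖o q - o q'‖) :
    ∃ (κ : Type) (_ : Fintype κ) (X : Cf0 m ι κ), X.Ok ∧ X.o = o ∧ X.ty = ty ∧ X.η = η := by
  choose hr Fc hr0 hin hdj hcard hunc using h2
  have e1 : ∀ᶠ t in 𝓝[>] (0 : ℝ), ∀ q, 2 * (ty q).Λ * t ≤ (ty q).γ * (η * hr q) :=
    eventually_all.2 fun q => ACfg_ev _ (mul_pos (h1 q).γ0 (mul_pos hη (hr0 q)))
  obtain ⟨η1, k1, k2, k3⟩ := (e1.and ((ACfg_ev 1 hη).and self_mem_nhdsWithin)).exists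
  let X : Cf0 m ι (Σ q : ι, {e // e ∈ Fc q}) :=
    ⟨o, ty, η, fun a => a.1, fun a => o a.1 + η • a.2.1, fun a => η * hr a.1, η1⟩
  have hnr : ∀ a z, (X.C a).nr z = η * ‖(ty a.1).Sh (η⁻¹ • (z - o a.1) - a.2.1)‖ :=
    fun a z => ACfg_nr _ _ _ _ hη
  have hcell : ∀ a j z, z ∈ (X.C a).cell j ↔
      ‖(ty a.1).Sh (η⁻¹ • (z - o a.1) - a.2.1)‖ ≤ (1 - j * (ty a.1).γ) * hr a.1 := by
    intro a j z
    show (X.C a).nr z ≤ (1 - j * (ty a.1).γ) * (η * hr a.1) ↔ _
    rw [hnr, mul_left_comm, mul_le_mul_iff_right₀ hη]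
  have hins : ∀ a, (X.C a).cell (-1) ⊆ ball (o a.1) η := by
    intro a z hz
    have h3 := hin a.1 a.2.1 a.2.2 _ (((hcell a _ z).1 hz).trans (le_of_eq (by ring)))
    rw [mem_ball, dist_eq_norm, ACfg_norm _ _ hη]
    exact mul_lt_of_lt_one_right hη h3
  have h0 : ∀ a, 0 < X.h a := fun a => mul_pos hη (hr0 a.1)
  refine ⟨_, inferInstance, X, ⟨h1, hη, far, h0, hins, ?_, k3, by simpa using k2,
    fun a => k1 a.1, fun q => ?_, fun q => ?_⟩, rfl, rfl, rfl⟩
  · rintro ⟨q, e, he⟩ ⟨q', e', he'⟩ hne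
    refine disjoint_left.2 fun z hz hz' => ?_
    by_cases hq : q = q'
    · subst hq
      have h3 : e ≠ e' := by
        rintro rfl
        exact hne rfl
      have h4 := (hcell _ _ z).1 hz
      have h5 := (hcell _ _ z).1 hz'
      simp only [zero_mul, sub_zero, one_mul] at h4 h5
      exact (hdj q e he e' he' h3 _ h4).not_ge h5
    · have h3 := hins _ (Cel.cell_mono (h1 q) (h0 _) (by norm_num : (-1 : ℝ) ≤ 0) hz)
      have h4 := hins _ (Cel.cell_mono (h1 q') (h0 _) (by norm_num : (-1 : ℝ) ≤ 0) hz')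
      have h5 := far q q' hq
      have h6 := dist_triangle_left (o q) (o q') z
      rw [← dist_eq_norm] at h5
      rw [mem_ball] at h3 h4
      exact absurd h5 (not_le.2 (by linarith))
  · rw [Finset.sum_filter, Fintype.sum_sigma, Finset.sum_eq_single q]
    · refine (Finset.sum_congr rfl fun e _ => if_pos rfl).trans_le ?_
      show ∑ _e : {e // e ∈ Fc q}, (η * hr q) ^ (2 * m + 1) ≤ η ^ (2 * m + 1)
      rw [Finset.sum_const, Finset.card_univ, Fintype.card_coe, nsmul_eq_mul, mul_pow,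
        mul_left_comm]
      exact mul_le_of_le_one_right (by positivity) (hcard q)
    · intro q' _ hq
      exact Finset.sum_eq_zero fun e _ => if_neg hq
    · exact fun h => absurd (Finset.mem_univ q) h
  · have h3 : X.Qc q 1 \ ⋃ a, (X.C a).opn 3 ⊆ {z : V m | η⁻¹ • (z - o q) ∈ {z : V m | ‖z‖ ≤ 1 ∧
        ∀ e ∈ Fc q, (1 - 3 * (ty q).γ) * hr q ≤ ‖(ty q).Sh (z - e)‖}} := by
      rintro z ⟨hz, hz'⟩
      refine ⟨?_, fun e he => ?_⟩
      · have h4 : dist z (o q) ≤ 1 * η := hz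
        rw [dist_eq_norm, ACfg_norm _ _ hη, mul_comm 1 η] at h4
        exact le_of_mul_le_mul_left h4 hη
      · have h4 : ¬ (X.C ⟨q, e, he⟩).nr z < (1 - 3 * (ty q).γ) * (η * hr q) :=
          fun h => hz' (mem_iUnion.2 ⟨⟨q, e, he⟩, h⟩)
        rw [hnr, not_lt, mul_left_comm] at h4
        exact le_of_mul_le_mul_left h4 hη
    refine (measure_mono h3).trans ?_
    rw [ACfg_vol _ hη]
    refine (mul_le_mul_right (hunc q) _).trans (le_of_eq ?_)
    rw [← ENNReal.ofReal_mul (by positivity)]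
    congr 1
    show _ = (ty q).u * (2 * η) ^ (2 * m + 1)
    ring

theorem ACfg_pow {r : ℝ} (hr0 : 0 ≤ r) (x : ℝ≥0∞) : (1 + x) ^ r ≤ 2 ^ r * (1 + x ^ r) := by
  rcases le_total x 1 with h | h
  · refine (ENNReal.rpow_le_rpow ((add_le_add_right h 1).trans one_add_one_eq_two.le) hr0).trans ?_
    exact le_mul_of_one_le_right' le_self_add
  · refine (ENNReal.rpow_le_rpow ((add_le_add_left h x).trans (two_mul x).symm.le) hr0).trans ?_
    rw [ENNReal.mul_rpow_of_nonneg _ _ hr0]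
    exact mul_le_mul_right le_add_self _

theorem ACfg_wt {ι κ : Type} [Fintype ι] [Fintype κ] {X : Cf0 m ι κ} (hX : X.Ok) {r : ℝ}
    (hr0 : 0 ≤ r) (s : ℝ) (ω : κ → V m) (z : V m) :
    X.wt s ω z ^ r ≤ 2 ^ r * ((ENNReal.ofReal (X.b1 z))⁻¹ ^ r +
      ∑ a, indicator (X.r1 (RL Finset.univ) ⁻¹' (X.C a).cell 0) (fun z =>
        (ENNReal.ofReal ((X.gr s ω a).b2 (X.r1 (RL Finset.univ) z)))⁻¹ ^ r *
          (ENNReal.ofReal (X.b1 z))⁻¹ ^ r) z) := by
  rw [Cf0.wt, ENNReal.mul_rpow_of_nonneg _ _ hr0]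
  by_cases h : ∃ a, X.r1 (RL Finset.univ) z ∈ (X.C a).cell 0
  · obtain ⟨a, ha⟩ := h
    have h1 : ∀ b, b ≠ a → X.r1 (RL Finset.univ) z ∉ (X.C b).cell 0 :=
      fun b hb h => disjoint_left.1 (hX.disj b a hb) h ha
    rw [Finset.sum_eq_single a (fun b _ hb => indicator_of_notMem (h1 b hb) _)
      (fun h => absurd (Finset.mem_univ a) h), indicator_of_mem ha,
      Finset.sum_eq_single a (fun b _ hb => indicator_of_notMem (mt mem_preimage.1 (h1 b hb)) _)
      (fun h => absurd (Finset.mem_univ a) h), indicator_of_mem (mem_preimage.2 ha)]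
    refine (mul_le_mul_right (ACfg_pow hr0 _) _).trans (le_of_eq ?_)
    ring
  · rw [Finset.sum_eq_zero fun a _ => indicator_of_notMem (fun ha => h ⟨a, ha⟩) _, add_zero,
      ENNReal.one_rpow, mul_one]
    refine le_self_add.trans (le_mul_of_one_le_left' ?_)
    rw [← ENNReal.one_rpow r]
    exact ENNReal.rpow_le_rpow one_le_two hr0

theorem ACfg_dl {S : Set (V m)} (hS : IsCompact S) {b : V m → ℝ} (hb : Continuous b)
    (h : ∀ z ∈ S, 0 < b z) : ∀ᶠ K in atTop, ∀ z ∈ S, dl K ≤ b z := by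
  obtain ⟨δ, hδ, h1⟩ := hS.exists_forall_le' hb.continuousOn h
  have h2 : Tendsto (fun K : ℕ => (1 / 2 : ℝ) ^ K) atTop (𝓝 0) :=
    tendsto_pow_atTop_nhds_zero_of_lt_one (by norm_num) (by norm_num)
  filter_upwards [h2.eventually_le_const hδ] with K hK z hz
  refine le_trans ?_ (hK.trans (h1 z hz))
  rw [dl, ← one_div_pow]
  exact pow_le_pow_of_le_one (by norm_num) (by norm_num) (Nat.le_succ K)

theorem exists_omega {r : ℝ} (hr0 : 0 ≤ r) (hr : r < m + 1) : ∃ CW : ℝ≥0∞, CW ≠ ⊤ ∧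
    ∀ (ι κ : Type) [Fintype ι] [Fintype κ] (X : Cf0 m ι κ), X.Ok → ∀ s : ℝ, 0 < s →
      ∃ (ω : κ → V m) (K0 : ℕ),
        (∀ q, ∫⁻ z in X.Qc q 1, X.wt s ω z ^ r ≤ CW * ENNReal.ofReal ((2 * X.η) ^ (2 * m + 1))) ∧
        ∀ a, ∀ z ∈ X.Z1, dl K0 ≤ (X.gr s ω a).b2 z := by
  obtain ⟨C1, hC1, k1⟩ := wt_scaled hr0 hr
  obtain ⟨C2, hC2, k2⟩ := exists_omega1 hr0 hr
  refine ⟨2 ^ r * (1 + C2) * C1, ENNReal.mul_ne_top (ENNReal.mul_ne_top
    (ENNReal.rpow_ne_top_of_nonneg hr0 ENNReal.ofNat_ne_top)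
    (ENNReal.add_ne_top.2 ⟨ENNReal.one_ne_top, hC2⟩)) hC1, fun ι κ _ _ X hX s _ => ?_⟩
  let w : V m → ℝ≥0∞ := fun z => (ENNReal.ofReal (X.b1 z))⁻¹ ^ r
  let D : κ → Set (V m) := fun a => X.r1 (RL Finset.univ) ⁻¹' (X.C a).cell 0
  let u : κ → V m → V m := fun a => xi (X.C a).Sh (X.c a) (16 * s) 0
  have hu : ∀ a, TP (u a) := fun a => tp_xi _ _ _ _
  have hw : Measurable w := (ENNReal.measurable_ofReal.comp X.measurable_b1).inv.pow_const r
  have hD : ∀ a, MeasurableSet (D a) :=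
    fun a => Cf0.measurable_r1 hX (X.C a |>.isClosed_cell 0).measurableSet
  have hQ : ∀ q, ∫⁻ z in X.Qc q 1, w z ≤ C1 * ENNReal.ofReal ((2 * X.η) ^ (2 * m + 1)) := by
    intro q
    have h := k1 Finset.univ (X.o q) (1 * X.η) X.η1 hX.η10 (by rw [one_mul]; exact hX.η1η)
    rwa [show 2 * (1 * X.η) = 2 * X.η by ring] at h
  have hZ := (Cf0.poly_Z1 hX).1
  have key := fun a => k2 (X.C a).I (fun z => u a (X.r1 (RL Finset.univ) z)) w
    (D a ∩ X.Qc (X.q a) 1) (u a '' X.Z1)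
    ((hu a).continuous.measurable.comp (Cf0.measurable_r1 hX)) hw
    (((lintegral_mono_set inter_subset_right).trans (hQ _)).trans_lt
      (ENNReal.mul_lt_top hC1.lt_top ENNReal.ofReal_lt_top)).ne
    ((Cf0.pc_Z1 hX).image hZ.isBounded (hu a))
  choose ω h1 h2 using key
  have hb : ∀ a y, (X.gr s ω a).b2 y = beI (X.C a).I (u a y - ω a) := by
    intro a y
    show beI _ (xi _ _ _ _ y) = beI _ (xi _ _ _ _ y - _)
    rw [xi, xi, sub_zero]
    rfl
  have hK : ∀ᶠ K in atTop, ∀ a, ∀ z ∈ X.Z1, dl K ≤ (X.gr s ω a).b2 z :=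
    eventually_all.2 fun a => ACfg_dl hZ
      ((tp_beI _).continuous.comp (X.gr s ω a).tp_ξ.continuous)
      fun z hz => by rw [hb]; exact h2 a _ (mem_image_of_mem _ hz)
  obtain ⟨K0, hK0⟩ := hK.exists
  refine ⟨ω, K0, fun q => ?_, hK0⟩
  let g : κ → V m → ℝ≥0∞ := fun a z =>
    (ENNReal.ofReal ((X.gr s ω a).b2 (X.r1 (RL Finset.univ) z)))⁻¹ ^ r * w z
  have hg : ∀ a, Measurable (g a) := fun a => ((ENNReal.measurable_ofReal.comp
    ((X.gr s ω a).measurable_b2.comp (Cf0.measurable_r1 hX))).inv.pow_const r).mul hw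
  have h3 : ∀ a, ∫⁻ z in X.Qc q 1, indicator (D a) (g a) z ≤ C2 * ∫⁻ z in D a ∩ X.Qc q 1, w z := by
    intro a
    rw [lintegral_indicator (hD a), Measure.restrict_restrict (hD a)]
    by_cases hq : X.q a = q
    · subst hq
      simpa only [g, hb] using h1 a
    · have e : D a ∩ X.Qc q 1 = ∅ :=
        eq_empty_of_forall_notMem fun z hz => hq (Cf0.r1_cube hX _ hz.2 hz.1)
      simp [e]
  have h4 : ∑ a, ∫⁻ z in D a ∩ X.Qc q 1, w z ≤ ∫⁻ z in X.Qc q 1, w z := by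
    rw [← tsum_fintype (L := SummationFilter.unconditional κ), ← lintegral_iUnion
      (s := fun a => D a ∩ X.Qc q 1) (fun a => (hD a).inter measurableSet_closedBall)]
    · exact lintegral_mono_set (iUnion_subset fun a => inter_subset_right)
    · intro a b hab
      exact ((hX.disj a b hab).preimage _).mono inter_subset_left inter_subset_left
  refine (lintegral_mono fun z => ACfg_wt hX hr0 s ω z).trans ?_
  have h5 : Measurable fun z => ∑ a, indicator (D a) (g a) z :=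
    Finset.measurable_sum _ fun a _ => (hg a).indicator (hD a)
  show ∫⁻ z in X.Qc q 1, 2 ^ r * (w z + ∑ a, indicator (D a) (g a) z) ≤ _
  rw [lintegral_const_mul _ (hw.fun_add h5), lintegral_add_left hw,
    lintegral_finsetSum _ fun a _ => (hg a).indicator (hD a), mul_assoc, mul_assoc]
  refine mul_le_mul_right ?_ _
  refine le_trans ?_ (mul_le_mul_right (hQ q) _)
  rw [add_mul, one_mul]
  refine add_le_add_right ((Finset.sum_le_sum fun a _ => h3 a).trans ?_) _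
  rw [← Finset.mul_sum]
  exact mul_le_mul_right h4 _

theorem exists_cfg {r : ℝ} (hr0 : 0 ≤ r) (hr : r < m + 1) : ∃ CW : ℝ≥0∞, CW ≠ ⊤ ∧
    ∀ (ι κ : Type) [Fintype ι] [Fintype κ] (X0 : Cf0 m ι κ), X0.Ok → ∀ e : ℝ≥0∞, e ≠ 0 →
      ∀ s0 : ℝ → ℝ, (∀ ρ, 0 < ρ → 0 < s0 ρ) → ∃ X : Cfg m ι κ, X.toCf0 = X0 ∧ X.Ok ∧
        X.s ≤ s0 X.ρ ∧
        (∀ q, ∫⁻ z in X.Qc q 1, X.W z ^ r ≤ CW * ENNReal.ofReal ((2 * X.η) ^ (2 * m + 1))) ∧
        ∀ a, m < (X.C a).I.card → volume ((X.C a).Wd X.Y X.ρ) ≤ e := by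
  obtain ⟨CW, hC, h⟩ := exists_omega hr0 hr
  refine ⟨CW, hC, fun ι κ _ _ X0 hX e he s0 hs0 => ?_⟩
  have e1 : ∀ᶠ ρ in 𝓝[>] (0 : ℝ), ∀ a, (X0.C a).Λ * ρ ≤ (X0.C a).γ * X0.h a :=
    eventually_all.2 fun a => ACfg_ev _ (mul_pos (hX.cty a).γ0 (hX.h0 a))
  have e2 : ∀ᶠ ρ in 𝓝[>] (0 : ℝ), ∀ a, m < (X0.C a).I.card →
      volume ((X0.C a).Wd X0.Y ρ) ≤ e := by
    refine eventually_all.2 fun a => ?_
    by_cases hm : m < (X0.C a).I.card
    · exact (Cel.Wd_small (hX.cty a) hm (Cf0.isCompact_Y hX) (Cf0.pc_Y hX) he).mono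
        fun ρ h _ => h
    · exact Eventually.of_forall fun ρ h => absurd h hm
  obtain ⟨ρ, r1, r2, r3, r4⟩ :=
    (e1.and (e2.and ((ACfg_ev 1 hX.η0).and self_mem_nhdsWithin))).exists
  have r5 : 0 < ρ := r4
  have e3 : ∀ᶠ s in 𝓝[>] (0 : ℝ), ∀ a, 64 * (X0.C a).M * s ≤ ρ :=
    eventually_all.2 fun a => ACfg_ev _ r5
  obtain ⟨s, s1, s2, s3⟩ := (e3.and ((ACfg_ev 1 (hs0 ρ r5)).and self_mem_nhdsWithin)).exists
  obtain ⟨ω, K0, h1, h2⟩ := h ι κ X0 hX s s3
  have hG : ∀ a, (X0.gr s ω a).Ok := fun a => ⟨hX.cty a, hX.h0 a, s3,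
    (s1 a).trans ((le_mul_of_one_le_left r5.le (hX.cty a).Λ1).trans (r1 a))⟩
  choose F hF using fun a => Gr.exists_F (hG a)
  rw [one_mul] at r3 s2
  exact ⟨⟨X0, ρ, s, ω, K0, F⟩, rfl, ⟨hX, r5, r3, r1, s3, s1, hF, fun a z hz _ => h2 a z hz⟩, s2,
    h1, r2⟩

end BEp
end
end
end

-- merged part: Pool.Agent.Work.MP_f0515e_an.Pos.BRed
section
-- merged part: Pool.Agent.Work.MP_f0515e_an.Pos.BSimp
section
/-! TASK BSimp. A bounded polyhedron which is the closure of its interior is a finite union of simplices.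
Plan. P = {x | forall A in S, A.1 x + A.2 <= 0} compact convex. Its extreme points are finitely many (an extreme point is determined by its set of active constraints: two extreme points with the same
active set T, the line through them extends slightly beyond either end inside P). Krein-Milman (closure_convexHull_extremePoints) and compactness of the hull of a finite set give P = convexHull F.
If P has nonempty interior F affinely spans. Caratheodory (eq_pos_convex_span_of_mem_convexHull or convexHull_eq_union) puts x in the hull of an affinely independent subset of F, which extends inside F to an affine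
basis (exists_subset_affineIndependent_affineSpan_eq_top style lemma relative to F, or exists_affineIndependent); it has n + 1 points, giving an Affine.Simplex. -/

open Set Metric Filter Topology Function BEv MeasureTheory
open scoped NNReal ENNReal ContDiff

noncomputable section
namespace BEp

theorem BSimp_fin {E : Type} [NormedAddCommGroup E] [NormedSpace ℝ E]
    {S : Set ((E →L[ℝ] ℝ) × ℝ)} (hS : S.Finite) :
    ({x | ∀ A ∈ S, A.1 x + A.2 ≤ 0}.extremePoints ℝ).Finite := by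
  refine Finite.of_finite_image (f := fun x => {A ∈ S | A.1 x + A.2 = 0})
    (hS.finite_subsets.subset ?_) fun x hx y hy e => ?_
  · rintro _ ⟨x, -, rfl⟩
    exact sep_subset _ _
  have k : ∀ᶠ t in 𝓝[>] (0 : ℝ), ∀ A ∈ S, A.1 (x + t • (x - y)) + A.2 ≤ 0 := by
    refine nhdsWithin_le_nhds ((eventually_all_finite hS).2 fun A hA => ?_)
    rcases (hx.1 A hA).eq_or_lt with h | h
    · refine .of_forall fun t => ?_
      have h' : A.1 y + A.2 = 0 := (e.subset ⟨hA, h⟩).2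
      rw [map_add, map_smul, map_sub, smul_eq_mul, show A.1 x - A.1 y = 0 by linarith]
      linarith
    · have c : Continuous fun t : ℝ => A.1 (x + t • (x - y)) + A.2 := by fun_prop
      exact (c.continuousAt.eventually_lt continuousAt_const (by simpa using h)).mono
        fun _ m => m.le
  obtain ⟨t, h1, h2⟩ := (k.and self_mem_nhdsWithin).exists
  have h3 : (0 : ℝ) < t := h2
  have h4 : 1 + t ≠ 0 := by positivity
  refine ((mem_extremePoints.1 hx).2 y hy.1 _ h1 ⟨t / (1 + t), 1 / (1 + t), by positivity,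
    by positivity, by field_simp; ring, ?_⟩).1.symm
  match_scalars
  · field_simp
    ring
  · field_simp

theorem BSimp_ext {E : Type} [AddCommGroup E] [Module ℝ E] {F t : Set E} (hF : F.Finite)
    (h : affineSpan ℝ F = ⊤) (ht : t ⊆ F) (hi : AffineIndependent ℝ ((↑) : t → E)) :
    ∃ u, t ⊆ u ∧ u ⊆ F ∧ AffineIndependent ℝ ((↑) : u → E) ∧ affineSpan ℝ u = ⊤ := by
  obtain ⟨u, h1, ⟨h2, h3⟩, h4⟩ := (hF.finite_subsets.subset (sep_subset _
    fun u : Set E => AffineIndependent ℝ ((↑) : u → E))).exists_le_maximal ⟨ht, hi⟩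
  refine ⟨u, h1, h2, h3, top_unique (h ▸ affineSpan_le.2 fun p hp => by_contra fun k => ?_)⟩
  have h5 : AffineIndependent ℝ ((↑) : ↥(insert p u) → E) := by
    have h6 := h3.comp_embedding ⟨fun y : {y : ↥(insert p u) // y ≠ ⟨p, mem_insert _ _⟩} =>
      ⟨y.1.1, (mem_insert_iff.1 y.1.2).resolve_left fun e => y.2 (Subtype.ext e)⟩,
        fun a b e => Subtype.ext (Subtype.ext (Subtype.mk.inj e))⟩
    refine AffineIndependent.affineIndependent_of_notMem_span (i := ⟨p, mem_insert _ _⟩) h6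
      fun m => k (affineSpan_mono _ ?_ m)
    rintro _ ⟨y, hy, rfl⟩
    exact y.2.resolve_left fun e => hy (Subtype.ext e)
  exact k (mem_affineSpan _ (h4 ⟨insert_subset hp h2, h5⟩ (subset_insert _ _) (mem_insert _ _)))

theorem polytope_simplices {n : ℕ} {S : Set (((Fin n → ℝ) →L[ℝ] ℝ) × ℝ)} (hS : S.Finite)
    {P : Set (Fin n → ℝ)} (hP : P = {x | ∀ A ∈ S, A.1 x + A.2 ≤ 0})
    (hb : Bornology.IsBounded P) (hi : (interior P).Nonempty) :
    ∃ T : Set (Affine.Simplex ℝ (Fin n → ℝ) n), T.Finite ∧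
      (⋃ σ ∈ T, convexHull ℝ (range σ.points)) = P := by
  have hF := hP ▸ BSimp_fin hS
  have hc : IsClosed P := by
    rw [hP, ofPred_forall]
    exact isClosed_iInter fun A => by
      rw [ofPred_forall]
      exact isClosed_iInter fun _ => isClosed_le (by fun_prop) continuous_const
  have hv : Convex ℝ P := by
    rw [hP]
    intro x hx y hy a b ha hb hab A hA
    have h1 := mul_nonpos_of_nonneg_of_nonpos ha (hx A hA)
    have h2 := mul_nonpos_of_nonneg_of_nonpos hb (hy A hA)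
    rw [map_add, map_smul, map_smul, smul_eq_mul, smul_eq_mul]
    linear_combination h1 + h2 - A.2 * hab
  have e := closure_convexHull_extremePoints (isCompact_of_isClosed_isBounded hc hb) hv
  rw [(hF.isClosed_convexHull ℝ).closure_eq] at e
  generalize P.extremePoints ℝ = F at hF e
  subst e
  refine ⟨{σ | ∀ i, σ.points i ∈ F}, (Finite.pi' fun _ => hF).preimage
    (f := Affine.Simplex.points) fun σ _ τ _ k => Affine.Simplex.ext (congrFun k), Subset.antisymm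
      (iUnion₂_subset fun σ h => convexHull_mono (range_subset_iff.2 h)) fun x hx => ?_⟩
  rw [convexHull_eq_union] at hx
  obtain ⟨t, h1, h2, h3⟩ : ∃ t : Finset (Fin n → ℝ), ↑t ⊆ F ∧
    AffineIndependent ℝ ((↑) : t → Fin n → ℝ) ∧ x ∈ convexHull ℝ (t : Set (Fin n → ℝ)) := by
    simpa only [mem_iUnion, exists_prop] using hx
  obtain ⟨u, k1, k2, k3, k4⟩ := BSimp_ext hF (affineSpan_eq_top_of_nonempty_interior hi) h1 h2
  have := (hF.subset k2).fintype
  have c := k3.affineSpan_eq_top_iff_card_eq_finrank_add_one.1 (by rwa [Subtype.range_coe])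
  rw [Module.finrank_fin_fun] at c
  let ε := (Fintype.equivFinOfCardEq c).symm
  refine mem_iUnion₂.2 ⟨⟨fun i => ε i, k3.comp_embedding ε.toEmbedding⟩, fun i => k2 (ε i).2,
    convexHull_mono (s := t) (fun y hy => ?_) h3⟩
  exact ⟨ε.symm ⟨y, k1 hy⟩, congrArg Subtype.val (ε.apply_symm_apply _)⟩

end BEp
end
end

-- merged part: Pool.Agent.Work.MP_f0515e_an.Pos.BPA
section
/-! TASK BPA. A global piecewise affine homeomorphism is piecewise affine on every open set.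
Plan. cube_simplices: pieces S of g on a ball containing the cube Q; functionals: coordinates of differences of pieces which are not identically zero. For a sign vector s let P s = Q n {s_A (A x) <= 0 for all A}.
The P s with nonempty interior cover Q (the complement of finitely many hyperplanes is dense in Q; finite union of closed sets). On the interior of P s the closed sets {g = piece} which are nonempty are
equal or disjoint, connectedness gives one piece; pass to the closure. polytope_simplices. whitney_cover: for Omega open, a countable family of closed balls (sup norm, positive radius) inside Omega, covering, locally finite in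
Omega: K_j compact exhaustion (norm <= j, distance to the complement >= 1/j), cover K_(j+1) minus interior K_j by finitely many closed balls inside Omega missing K_(j-1). -/

open Set Metric Filter Topology Function BEv MeasureTheory
open scoped NNReal ENNReal ContDiff

noncomputable section
namespace BEp

variable {n : ℕ}

/-- The polyhedron cut out by a set of affine functionals. -/
def BPA_H (K : Set (((Fin n → ℝ) →L[ℝ] ℝ) × ℝ)) : Set (Fin n → ℝ) :=
  {x | ∀ A ∈ K, A.1 x + A.2 ≤ 0}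

/-- A coordinate of the difference of two pieces. -/
def BPA_f (A B : ((Fin n → ℝ) →L[ℝ] (Fin n → ℝ)) × (Fin n → ℝ)) (i : Fin n) :
    ((Fin n → ℝ) →L[ℝ] ℝ) × ℝ :=
  ((ContinuousLinearMap.proj i).comp (A.1 - B.1), (A.2 - B.2) i)

theorem BPA_closed (K : Set (((Fin n → ℝ) →L[ℝ] ℝ) × ℝ)) : IsClosed (BPA_H K) := by
  have : BPA_H K = ⋂ A ∈ K, {x | A.1 x + A.2 ≤ 0} := by
    ext x
    simp [BPA_H]
  rw [this]
  exact isClosed_biInter fun A _ => isClosed_le (by fun_prop) continuous_const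

theorem BPA_convex (K : Set (((Fin n → ℝ) →L[ℝ] ℝ) × ℝ)) : Convex ℝ (BPA_H K) :=
  fun x hx y hy s t hs ht hst A hA => by
    have h1 := mul_nonneg hs (neg_nonneg.2 (hx A hA))
    have h2 := mul_nonneg ht (neg_nonneg.2 (hy A hA))
    have h3 : A.2 = s * A.2 + t * A.2 := by rw [← add_mul, hst, one_mul]
    rw [map_add, map_smul, map_smul, smul_eq_mul, smul_eq_mul]
    linarith

theorem BPA_zero {K : Set (((Fin n → ℝ) →L[ℝ] ℝ) × ℝ)} {A : ((Fin n → ℝ) →L[ℝ] ℝ) × ℝ}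
    (hA : A ∈ K) {x : Fin n → ℝ} (hx : x ∈ interior (BPA_H K)) (h0 : A.1 x + A.2 = 0)
    (y : Fin n → ℝ) : A.1 y + A.2 = 0 := by
  have h1 : IsLocalMax (fun y => A.1 y + A.2) x := by
    filter_upwards [mem_interior_iff_mem_nhds.1 hx] with y hy
    exact (hy A hA).trans h0.ge
  have h2 : A.1 = 0 := h1.hasFDerivAt_eq_zero (A.1.hasFDerivAt.add_const _)
  rw [h2] at h0 ⊢
  exact h0

theorem BPA_piece {g : (Fin n → ℝ) → Fin n → ℝ} (hg : Continuous g)
    {S : Set (((Fin n → ℝ) →L[ℝ] (Fin n → ℝ)) × (Fin n → ℝ))} (hS : S.Finite)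
    {K : Set (((Fin n → ℝ) →L[ℝ] ℝ) × ℝ)} (h : ∀ x ∈ BPA_H K, ∃ A ∈ S, g x = A.1 x + A.2)
    (hK : ∀ A ∈ S, ∀ B ∈ S, ∀ i, BPA_f A B i ∈ K ∨ -BPA_f A B i ∈ K)
    (hi : (interior (BPA_H K)).Nonempty) :
    ∃ A : (Fin n → ℝ) →ᵃ[ℝ] (Fin n → ℝ), EqOn g A (BPA_H K) := by
  obtain ⟨x0, h0⟩ := id hi
  obtain ⟨A, hA, e0⟩ := h x0 (interior_subset h0)
  have ev : ∀ B i y, (BPA_f A B i).1 y + (BPA_f A B i).2 = (A.1 y + A.2) i - (B.1 y + B.2) i :=
    fun B i y => by
      simp only [BPA_f, ContinuousLinearMap.comp_apply, ContinuousLinearMap.proj_apply,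
        _root_.sub_apply, Pi.sub_apply, Pi.add_apply]
      ring
  have key : ∀ B ∈ S, ∀ x ∈ interior (BPA_H K), A.1 x + A.2 = B.1 x + B.2 →
      ∀ y, A.1 y + A.2 = B.1 y + B.2 := fun B hB x hx e y => funext fun i => by
    have e1 := ev B i x
    rw [e, sub_self] at e1
    rw [← sub_eq_zero, ← ev]
    rcases hK A hA B hB i with k | k
    · exact BPA_zero k hx e1 y
    · have := BPA_zero k hx (by
        simp only [Prod.fst_neg, Prod.snd_neg, _root_.neg_apply]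
        linarith) y
      simp only [Prod.fst_neg, Prod.snd_neg, _root_.neg_apply] at this
      linarith
  have cl : ∀ B : ((Fin n → ℝ) →L[ℝ] (Fin n → ℝ)) × (Fin n → ℝ),
      IsClosed {x | g x = B.1 x + B.2} := fun B => isClosed_eq hg (by fun_prop)
  have dis : ∀ x ∈ interior (BPA_H K), g x = A.1 x + A.2 →
      x ∉ ⋃ B ∈ {B ∈ S | ¬ ∀ y, A.1 y + A.2 = B.1 y + B.2}, {x | g x = B.1 x + B.2} := by
    intro x hx e k
    obtain ⟨B, hB, e'⟩ := mem_iUnion₂.1 k
    exact hB.2 (key B hB.1 x hx (e.symm.trans e'))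
  have h1 := isPreconnected_iff_subset_of_disjoint_closed.1
    (BPA_convex K).interior.isPreconnected _ _ (cl A)
    ((hS.subset (sep_subset _ fun B => ¬ ∀ y, A.1 y + A.2 = B.1 y + B.2)).isClosed_biUnion
      fun B _ => cl B) (fun x hx => by
        obtain ⟨B, hB, e⟩ := h x (interior_subset hx)
        by_cases k : ∀ y, A.1 y + A.2 = B.1 y + B.2
        · exact Or.inl (e.trans (k x).symm)
        · exact Or.inr (mem_iUnion₂.2 ⟨B, ⟨hB, k⟩, e⟩))
    (eq_empty_of_forall_notMem fun x hx => dis x hx.1 hx.2.1 hx.2.2)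
  have h2 := closure_minimal (h1.resolve_right fun k => dis x0 h0 e0 (k h0)) (cl A)
  rw [(BPA_convex K).closure_interior_eq_closure_of_nonempty_interior hi] at h2
  exact ⟨(A.1 : (Fin n → ℝ) →ₗ[ℝ] (Fin n → ℝ)).toAffineMap + AffineMap.const ℝ (Fin n → ℝ) A.2,
    fun x hx => h2 (subset_closure hx)⟩

theorem BPA_cube (a : Fin n → ℝ) {ρ : ℝ} (hρ : 0 ≤ ρ) :
    ∃ K, K.Finite ∧ BPA_H K = closedBall a ρ := by
  refine ⟨range (fun i => (ContinuousLinearMap.proj i, -a i - ρ)) ∪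
    range (fun i => (-ContinuousLinearMap.proj i, a i - ρ)),
    (finite_range _).union (finite_range _), Set.ext fun x => ?_⟩
  simp only [BPA_H, mem_ofPred_eq, mem_union, or_imp, forall_and, forall_mem_range,
    ContinuousLinearMap.proj_apply, _root_.neg_apply, mem_closedBall,
    dist_pi_le_iff hρ, Real.dist_eq, abs_le]
  exact ⟨fun h => ⟨fun i => by linarith [h.2 i], fun i => by linarith [h.1 i]⟩,
    fun h => ⟨fun i => by linarith [h.2 i], fun i => by linarith [h.1 i]⟩⟩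

theorem cube_simplices {g : (Fin n → ℝ) → Fin n → ℝ} (hg : TP g) (a : Fin n → ℝ) {ρ : ℝ}
    (hρ : 0 < ρ) : ∃ T : Set (Affine.Simplex ℝ (Fin n → ℝ) n), T.Finite ∧
      (⋃ σ ∈ T, convexHull ℝ (range σ.points)) = closedBall a ρ ∧
      ∀ σ ∈ T, ∃ A : (Fin n → ℝ) →ᵃ[ℝ] (Fin n → ℝ), EqOn g A (convexHull ℝ (range σ.points)) := by
  obtain ⟨S, hS, hp⟩ := hg.pa (‖a‖ + ρ)
  obtain ⟨K, hK, eK⟩ := BPA_cube a hρ.le
  let L : Set (((Fin n → ℝ) →L[ℝ] ℝ) × ℝ) :=
    (fun p : (_ × _) × Fin n => BPA_f p.1.1 p.1.2 p.2) '' (S ×ˢ S) ×ˢ univ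
  have hL : L.Finite := ((hS.prod hS).prod finite_univ).image _
  let M : Set (((Fin n → ℝ) →L[ℝ] ℝ) × ℝ) → Set (((Fin n → ℝ) →L[ℝ] ℝ) × ℝ) :=
    fun s => K ∪ (s ∪ Neg.neg '' (L \ s))
  have sub : ∀ s, BPA_H (M s) ⊆ closedBall a ρ := fun s x hx =>
    eK ▸ fun A hA => hx A (Or.inl hA)
  have hQ : closedBall a ρ ⊆ closedBall 0 (‖a‖ + ρ) :=
    closedBall_subset_closedBall' (by rw [dist_zero_right, add_comm])
  let G := {s ∈ 𝒫 L | (interior (BPA_H (M s))).Nonempty}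
  have hG : G.Finite := hL.finite_subsets.subset fun s hs => hs.1
  have h1 : ∀ s ∈ G, ∃ T : Set (Affine.Simplex ℝ (Fin n → ℝ) n), T.Finite ∧
      (⋃ σ ∈ T, convexHull ℝ (range σ.points)) = BPA_H (M s) := fun s hs =>
    polytope_simplices (hK.union ((hL.subset hs.1).union ((hL.subset sdiff_subset).image _))) rfl
      (isBounded_closedBall.subset (sub s)) hs.2
  choose! T hT eT using h1
  have hd : Dense (⋂ s ∈ 𝒫 L \ G, (BPA_H (M s))ᶜ) :=
    dense_biInter_of_isOpen (fun s _ => (BPA_closed _).isOpen_compl)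
      (hL.finite_subsets.subset fun s hs => hs.1).countable fun s hs =>
        interior_eq_empty_iff_dense_compl.1 (not_nonempty_iff_eq_empty.1 fun k => hs.2 ⟨hs.1, k⟩)
  have cov : closedBall a ρ ⊆ ⋃ s ∈ G, BPA_H (M s) := by
    have hc : IsClosed (⋃ s ∈ G, BPA_H (M s)) := hG.isClosed_biUnion fun s _ => BPA_closed _
    rw [← closure_ball a hρ.ne']
    refine closure_minimal ((hd.open_subset_closure_inter isOpen_ball).trans
      (closure_minimal (fun x hx => ?_) hc)) hc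
    have h2 : x ∈ BPA_H (M {A ∈ L | A.1 x + A.2 ≤ 0}) := by
      rintro A (hA | hA | ⟨B, hB, rfl⟩)
      · exact (eK.symm ▸ ball_subset_closedBall hx.1 : x ∈ BPA_H K) A hA
      · exact hA.2
      · have := not_le.1 fun k => hB.2 ⟨hB.1, k⟩
        simp only [Prod.fst_neg, Prod.snd_neg, _root_.neg_apply]
        linarith
    refine mem_iUnion₂.2 ⟨_, ?_, h2⟩
    by_contra k
    exact mem_iInter₂.1 hx.2 _ ⟨sep_subset _ _, k⟩ h2
  refine ⟨⋃ s ∈ G, T s, hG.biUnion hT, ?_, fun σ hσ => ?_⟩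
  · rw [biUnion_iUnion]
    simp only [biUnion_iUnion]
    exact (iUnion₂_congr eT).trans ((iUnion₂_subset fun s _ => sub s).antisymm cov)
  · obtain ⟨s, hs, k⟩ := mem_iUnion₂.1 hσ
    obtain ⟨A, hA⟩ := BPA_piece hg.continuous hS (K := M s) (fun x hx => hp x (hQ (sub s hx)))
      (fun A hA B hB i => by
        by_cases e : BPA_f A B i ∈ s
        · exact Or.inl (Or.inr (Or.inl e))
        · exact Or.inr (Or.inr (Or.inr ⟨_, ⟨⟨((A, B), i), ⟨⟨hA, hB⟩, trivial⟩, rfl⟩, e⟩, rfl⟩)))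
      hs.2
    exact ⟨A, hA.mono (eT s hs ▸ subset_biUnion_of_mem
      (u := fun σ : Affine.Simplex ℝ (Fin n → ℝ) n => convexHull ℝ (range σ.points)) k)⟩

theorem whitney_cover {Ω : Set (Fin n → ℝ)} (hΩ : IsOpen Ω) :
    ∃ S : Set ((Fin n → ℝ) × ℝ), S.Countable ∧ (∀ q ∈ S, 0 < q.2) ∧
      (⋃ q ∈ S, closedBall q.1 q.2) = Ω ∧
      ∀ x ∈ Ω, ∃ t ∈ 𝓝 x, {q ∈ S | (closedBall q.1 q.2 ∩ t).Nonempty}.Finite := by
  have := hΩ.locallyCompactSpace
  obtain ⟨α, c, r, h1, h2, h3⟩ := refinement_of_locallyCompact_sigmaCompact_of_nhds_basis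
    (X := Ω) (p := fun x r => 0 < r ∧ closedBall x.1 r ⊆ Ω)
    (B := fun x (r : ℝ) => Subtype.val ⁻¹' closedBall x.1 r) fun x => by
      rw [nhds_subtype]
      exact (nhds_basis_closedBall.restrict_subset (hΩ.mem_nhds x.2)).comap _
  have h4 := h3.countable_univ fun i => ⟨c i, mem_closedBall_self (h1 i).1.le⟩
  refine ⟨(fun i => ((c i).1, r i)) '' univ, h4.image _, ?_, ?_, fun x hx => ?_⟩
  · rintro _ ⟨i, -, rfl⟩
    exact (h1 i).1
  · refine (iUnion₂_subset ?_).antisymm fun x hx => ?_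
    · rintro _ ⟨i, -, rfl⟩
      exact (h1 i).2
    · obtain ⟨i, hi⟩ := mem_iUnion.1 (h2.symm.subset (mem_univ ⟨x, hx⟩))
      exact mem_iUnion₂.2 ⟨_, ⟨i, trivial, rfl⟩, hi⟩
  · obtain ⟨t, ht, hf⟩ := h3 ⟨x, hx⟩
    refine ⟨Subtype.val '' t, hΩ.isOpenMap_subtype_val.image_mem_nhds ht,
      (hf.image fun i => ((c i).1, r i)).subset ?_⟩
    rintro _ ⟨⟨i, -, rfl⟩, _, hy, y, hy', rfl⟩
    exact ⟨i, ⟨y, hy, hy'⟩, rfl⟩

theorem lh_isPAHomeo {g : (Fin n → ℝ) → Fin n → ℝ} (hg : LH g) {Ω : Set (Fin n → ℝ)}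
    (hΩ : IsOpen Ω) : IsPAHomeo Ω g := by
  obtain ⟨S, h1, h2, h3, h4⟩ := whitney_cover hΩ
  choose! T hT eT aT using fun q (hq : q ∈ S) => cube_simplices hg.tp q.1 (h2 q hq)
  refine ⟨(LeftInverse.isEmbedding hg.li hg.tpi.continuous hg.tp.continuous).comp
    IsEmbedding.subtypeVal, ⋃ q ∈ S, T q, h1.biUnion fun q hq => (hT q hq).countable, ?_,
    fun x hx => ?_, fun σ hσ => ?_⟩
  · rw [biUnion_iUnion]
    simp only [biUnion_iUnion]
    exact (iUnion₂_congr eT).trans h3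
  · obtain ⟨t, ht, hf⟩ := h4 x hx
    refine ⟨t, ht, (hf.biUnion fun q hq => hT q hq.1).subset ?_⟩
    rintro σ ⟨hσ, y, hy, hy'⟩
    obtain ⟨q, hq, k⟩ := mem_iUnion₂.1 hσ
    exact mem_iUnion₂.2 ⟨q, ⟨hq, y, (eT q hq).subset (mem_iUnion₂.2 ⟨σ, k, hy⟩), hy'⟩, k⟩
  · obtain ⟨q, hq, k⟩ := mem_iUnion₂.1 hσ
    exact aT q hq σ k

end BEp
end
end

-- merged part: Pool.Agent.Work.MP_f0515e_an.Pos.BFin
section
/-! TASK BFin. From the class CC to approximability.
Plan. memW1p_lip: bounded measurable derivative on a set of finite measure, sob_lip. App.sdist_le: Omega in closedBall 0 R; norm (w - T) <= eps there; the derivative difference h is bounded by L + L', so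
the integral of norm h ^ q is at most (L + L') ^ (q - 1) times the integral of norm h (q = p.toReal >= 1). approx_of_cc: for j choose F in CC at distance 1/(j+1), then w in WW (LH, so IsPAHomeo by lh_isPAHomeo), then a GD map
(IsDiffeo on Omega: image open since it is a homeomorphism, left inverse invFun). Triangle inequality for eLpNorm (eLpNorm_add_le, measurability from MemLp). -/

open Set Metric Filter Topology Function BEv MeasureTheory
open scoped NNReal ENNReal ContDiff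

noncomputable section
namespace BEp

variable {n : ℕ}

theorem memW1p_lip {p : ℝ≥0∞} {Ω : Set (Fin n → ℝ)} (hb : Bornology.IsBounded Ω)
    {u : (Fin n → ℝ) → Fin n → ℝ} {L : ℝ≥0} (hu : LipschitzWith L u) :
    MemW1p p Ω u (fderiv ℝ u) := by
  have := isFiniteMeasure_restrict.2 (hb.measure_lt_top (μ := volume)).ne
  obtain ⟨R, hR⟩ := hb.subset_closedBall 0
  obtain ⟨C, hC⟩ := (isCompact_closedBall (0 : Fin n → ℝ) R).exists_bound_of_continuousOn
    hu.continuous.continuousOn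
  exact ⟨.of_bound hu.continuous.aestronglyMeasurable C (ae_restrict_of_ae_restrict_of_subset hR
      ((ae_restrict_mem measurableSet_closedBall).mono hC)),
    .of_bound (measurable_fderiv ℝ u).aestronglyMeasurable L
      (.of_forall fun _ => norm_fderiv_le_of_lipschitz ℝ hu), sob_lip hu Ω⟩

theorem App.sdist_le {Kd : ((Fin n → ℝ) → Fin n → ℝ) → Prop} {T : (Fin n → ℝ) → Fin n → ℝ}
    (h : App Kd T) {p : ℝ≥0∞} (hp1 : 1 ≤ p) (hp : p ≠ ⊤) {Ω : Set (Fin n → ℝ)}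
    (hb : Bornology.IsBounded Ω) {ε : ℝ≥0∞} (hε : 0 < ε) :
    ∃ w, Kd w ∧ (∃ L : ℝ≥0, LipschitzWith L w) ∧
      sdist p Ω w T (fderiv ℝ w) (fderiv ℝ T) ≤ ε := by
  obtain ⟨R, hR⟩ := hb.subset_closedBall 0
  obtain ⟨⟨⟨L', hT⟩, -⟩, L, h⟩ := h
  have p0 : p ≠ 0 := (zero_lt_one.trans_le hp1).ne'
  have q1 : 1 ≤ p.toReal := by simpa using ENNReal.toReal_mono hp hp1
  have hM : ((L + L' : ℝ≥0) : ℝ≥0∞) ^ (p.toReal - 1) ≠ ⊤ :=
    ENNReal.rpow_ne_top_of_nonneg (by linarith) ENNReal.coe_ne_top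
  have hV : volume Ω ^ p.toReal⁻¹ ≠ ⊤ :=
    ENNReal.rpow_ne_top_of_nonneg (by positivity) hb.measure_lt_top.ne
  have t0 : Tendsto ENNReal.ofReal (𝓝 0) (𝓝 0) := by
    simpa using ENNReal.continuous_ofReal.tendsto 0
  have t1 := (ENNReal.Tendsto.const_mul t0 (Or.inr hV)).add
    ((ENNReal.Tendsto.const_mul t0 (Or.inr hM)).ennrpow_const (1 / p.toReal))
  rw [mul_zero, mul_zero, ENNReal.zero_rpow_of_pos (by positivity), add_zero] at t1
  obtain ⟨δ, h1, h0⟩ := (((t1.eventually (gt_mem_nhds hε)).filter_mono nhdsWithin_le_nhds).and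
    (self_mem_nhdsWithin (s := Ioi (0 : ℝ)))).exists
  obtain ⟨w, k1, k2, k3, k4⟩ := h R δ h0
  refine ⟨w, k1, ⟨L, k2⟩, le_trans (add_le_add ?_ ?_) h1.le⟩
  · rw [← Measure.restrict_apply_univ]
    exact eLpNorm_le_of_ae_bound (ae_restrict_of_ae_restrict_of_subset hR
      ((ae_restrict_mem measurableSet_closedBall).mono k3))
  · rw [eLpNorm_eq_lintegral_rpow_enorm_toReal p0 hp]
    refine ENNReal.rpow_le_rpow ?_ (by positivity)
    refine le_trans ?_ (mul_le_mul_right ((lintegral_mono_set hR).trans k4) _)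
    rw [← lintegral_const_mul' _ _ hM]
    refine lintegral_mono fun x => ?_
    have e : ‖fderiv ℝ w x - fderiv ℝ T x‖ₑ ≤ ((L + L' : ℝ≥0) : ℝ≥0∞) :=
      ENNReal.coe_le_coe.2 ((norm_sub_le _ _).trans
        (add_le_add (norm_fderiv_le_of_lipschitz ℝ k2) (norm_fderiv_le_of_lipschitz ℝ hT)))
    calc ‖fderiv ℝ w x - fderiv ℝ T x‖ₑ ^ p.toReal
        = ‖fderiv ℝ w x - fderiv ℝ T x‖ₑ ^ (p.toReal - 1) * ‖fderiv ℝ w x - fderiv ℝ T x‖ₑ ^ (1 : ℝ) := by
          rw [← ENNReal.rpow_add_of_nonneg _ _ (by linarith) zero_le_one, sub_add_cancel]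
      _ ≤ _ := by
          rw [ENNReal.rpow_one]
          exact mul_le_mul_left (ENNReal.rpow_le_rpow e (by linarith)) _

theorem BFin_tri {α F : Type} [MeasurableSpace α] [NormedAddCommGroup F] {μ : Measure α}
    {p : ℝ≥0∞} (hp1 : 1 ≤ p) {u v w : α → F} (hu : MemLp u p μ) (hv : MemLp v p μ)
    (hw : MemLp w p μ) : eLpNorm (u - w) p μ ≤ eLpNorm (u - v) p μ + eLpNorm (v - w) p μ := by
  rw [← sub_add_sub_cancel u v w]
  exact eLpNorm_add_le (hu.1.sub hv.1) (hv.1.sub hw.1) hp1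

theorem sdist_triangle {p : ℝ≥0∞} (hp1 : 1 ≤ p) {Ω : Set (Fin n → ℝ)}
    {u v w : (Fin n → ℝ) → Fin n → ℝ} {Du Dv Dw : (Fin n → ℝ) → (Fin n → ℝ) →L[ℝ] (Fin n → ℝ)}
    (hu : MemW1p p Ω u Du) (hv : MemW1p p Ω v Dv) (hw : MemW1p p Ω w Dw) :
    sdist p Ω u w Du Dw ≤ sdist p Ω u v Du Dv + sdist p Ω v w Dv Dw := by
  exact (add_le_add (BFin_tri hp1 hu.1 hv.1 hw.1) (BFin_tri hp1 hu.2.1 hv.2.1 hw.2.1)).trans_eq
    (add_add_add_comm _ _ _ _)

theorem approx_of_cc {p : ℝ≥0∞} (hp1 : 1 ≤ p) (hp : p ≠ ⊤) {Ω : Set (Fin n → ℝ)} (hΩ : IsOpen Ω)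
    (hb : Bornology.IsBounded Ω) {f : (Fin n → ℝ) → Fin n → ℝ}
    {D : (Fin n → ℝ) → (Fin n → ℝ) →L[ℝ] (Fin n → ℝ)} (hW : MemW1p p Ω f D)
    (h : ∀ ε : ℝ≥0∞, 0 < ε → ∃ F, CC F ∧ sdist p Ω F f (fderiv ℝ F) D ≤ ε) :
    Approximable IsDiffeo p Ω f D ∧ Approximable IsPAHomeo p Ω f D := by
  have step : ∀ Kd : ((Fin n → ℝ) → Fin n → ℝ) → Prop,
      (∀ ε : ℝ≥0∞, 0 < ε → ∃ F, App Kd F ∧ sdist p Ω F f (fderiv ℝ F) D ≤ ε) →
      ∀ ε : ℝ≥0∞, 0 < ε → ∃ w, Kd w ∧ MemW1p p Ω w (fderiv ℝ w) ∧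
        sdist p Ω w f (fderiv ℝ w) D ≤ ε := fun Kd h ε hε => by
    obtain ⟨F, h1, h2⟩ := h _ (ENNReal.half_pos hε.ne')
    obtain ⟨w, h3, ⟨L, h4⟩, h5⟩ := h1.sdist_le hp1 hp hb (ENNReal.half_pos hε.ne')
    obtain ⟨L', h6⟩ := h1.1.lip
    exact ⟨w, h3, memW1p_lip hb h4, (sdist_triangle hp1 (memW1p_lip hb h4) (memW1p_lip hb h6)
      hW).trans ((add_le_add h5 h2).trans_eq (ENNReal.add_halves ε))⟩
  have fin : ∀ Kind : Set (Fin n → ℝ) → ((Fin n → ℝ) → Fin n → ℝ) → Prop,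
      (∀ ε : ℝ≥0∞, 0 < ε → ∃ w, Kind Ω w ∧ MemW1p p Ω w (fderiv ℝ w) ∧
        sdist p Ω w f (fderiv ℝ w) D ≤ ε) → Approximable Kind p Ω f D := fun Kind h => by
    choose g h1 h2 h3 using fun j : ℕ => h (j : ℝ≥0∞)⁻¹
      (ENNReal.inv_pos.2 (ENNReal.natCast_ne_top j))
    exact ⟨g, fun j => fderiv ℝ (g j), fun j => ⟨h1 j, h2 j⟩,
      tendsto_of_tendsto_of_tendsto_of_le_of_le tendsto_const_nhds
        ENNReal.tendsto_inv_nat_nhds_zero (fun _ => zero_le) h3⟩
  have h1 := step WW h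
  have h2 := step GD fun ε hε => (h1 ε hε).imp fun w k => ⟨k.1.2, k.2.2⟩
  refine ⟨fin _ fun ε hε => (h2 ε hε).imp fun w k => ⟨?_, k.2⟩,
    fin _ fun ε hε => (h1 ε hε).imp fun w k => ⟨lh_isPAHomeo k.1.1 hΩ, k.2⟩⟩
  obtain ⟨⟨b, -, -⟩, c1, c2⟩ := k.1
  refine ⟨c1.contDiffOn, ?_, invFun w, c2.contDiffOn, (leftInverse_invFun b.1).leftInvOn _⟩
  rw [image_eq_preimage_of_inverse (leftInverse_invFun b.1) (rightInverse_invFun b.2)]
  exact hΩ.preimage c2.continuous

end BEp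
end
end

-- merged part: Pool.Agent.Work.MP_f0515e_an.Pos.BSm
section
/-! TASK BSm. Mollification of the Sobolev map.
Plan. phi j : ContDiffBump 0 with rOut = 1/(j+1) (rIn half of it), rho j = normed, F j = rho j convolved with f (f continuous, so locally integrable): smooth; uniform convergence on compact sets from uniform
continuity (ContDiffBump.dist_normed_convolution_le). If closedBall x (1/(j+1)) lies in Omega, the test function y -> rho j (x - y) in IsWeakDeriv gives fderiv (F j) x w = integral of rho j (x - y) D y w.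
Jensen (or Hoelder) for the probability density rho j: norm (fderiv (F j) x - A) ^ q <= integral of rho j (x - y) norm (D y - A) ^ q; Tonelli. -/

open Set Metric Filter Topology Function BEv MeasureTheory
open scoped NNReal ENNReal ContDiff

noncomputable section
namespace BEp

theorem BSm_jensen {α : Type} [MeasurableSpace α] {μ : Measure α} {w h : α → ℝ≥0∞}
    (hw : AEMeasurable w μ) (hh : AEMeasurable h μ) (h1 : ∫⁻ a, w a ∂μ ≤ 1) {q : ℝ} (hq : 1 ≤ q) :
    (∫⁻ a, w a * h a ∂μ) ^ q ≤ ∫⁻ a, w a * h a ^ q ∂μ := by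
  have hq0 : 0 < q := one_pos.trans_le hq
  have a1 : 0 ≤ q⁻¹ := inv_nonneg.2 hq0.le
  have a2 : 0 ≤ 1 - q⁻¹ := sub_nonneg.2 (inv_le_one_of_one_le₀ hq)
  have h2 := ENNReal.lintegral_mul_norm_pow_le (hw.mul (hh.pow_const q)) hw a1 a2
    (add_sub_cancel _ _)
  have e : ∀ a, (w a * h a ^ q) ^ q⁻¹ * w a ^ (1 - q⁻¹) = w a * h a := fun a => by
    rw [ENNReal.mul_rpow_of_nonneg _ _ a1, ENNReal.rpow_rpow_inv hq0.ne', mul_right_comm,
      ← ENNReal.rpow_add_of_nonneg _ _ a1 a2, add_sub_cancel, ENNReal.rpow_one]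
  simp only [Pi.mul_apply, e] at h2
  have h3 := h2.trans (mul_le_of_le_one_right' (ENNReal.rpow_le_one h1 a2))
  exact (ENNReal.rpow_le_rpow h3 hq0.le).trans_eq (ENNReal.rpow_inv_rpow hq0.ne' _)

open scoped Convolution in
theorem BSm_fderiv {n : ℕ} {p : ℝ≥0∞} (hp1 : 1 ≤ p) {Ω : Set (Fin n → ℝ)}
    (hΩ : IsOpen Ω) {f : (Fin n → ℝ) → Fin n → ℝ}
    {D : (Fin n → ℝ) → (Fin n → ℝ) →L[ℝ] (Fin n → ℝ)} (hf : Continuous f)
    (hW : MemW1p p Ω f D) (φ : ContDiffBump (0 : Fin n → ℝ)) {B : Set (Fin n → ℝ)}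
    (hB : IsCompact B) (hBΩ : B ⊆ Ω) {x : Fin n → ℝ} (hx : closedBall x φ.rOut ⊆ B)
    (A : (Fin n → ℝ) →L[ℝ] (Fin n → ℝ)) :
    fderiv ℝ (φ.normed volume ⋆[ContinuousLinearMap.lsmul ℝ ℝ, volume] f) x - A =
      ∫ y in B, φ.normed volume (x - y) • (D y - A) := by
  have hρ : ContDiff ℝ ∞ (φ.normed volume) := φ.contDiff_normed
  have hρ1 : ContDiff ℝ 1 (φ.normed volume) := φ.contDiff_normed (n := 1)
  have hψ : ContDiff ℝ ∞ fun y => φ.normed volume (x - y) := hρ.comp (contDiff_const.sub contDiff_id)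
  have hout : ∀ y, y ∉ closedBall x φ.rOut → x - y ∉ tsupport (φ.normed volume) := fun y hy c => by
    rw [φ.tsupport_normed_eq, mem_closedBall_zero_iff, ← dist_eq_norm, dist_comm] at c
    exact hy c
  have hts : tsupport (fun y => φ.normed volume (x - y)) ⊆ closedBall x φ.rOut :=
    closure_minimal (fun y hy => by_contra fun c => hy (image_eq_zero_of_notMem_tsupport (hout y c)))
      isClosed_closedBall
  have h0 : ∀ y, y ∉ B → φ.normed volume (x - y) = 0 := fun y hy =>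
    image_eq_zero_of_notMem_tsupport (hout y fun c => hy (hx c))
  have : IsFiniteMeasure (volume.restrict B) := isFiniteMeasure_restrict.2 hB.measure_lt_top.ne
  have hD : IntegrableOn D B :=
    (hW.2.1.mono_measure (Measure.restrict_mono hBΩ le_rfl)).integrable hp1
  have i1 := hD.continuousOn_smul hψ.continuous.continuousOn hB
  have i2 : IntegrableOn (fun y => φ.normed volume (x - y) • A) B :=
    (hψ.continuous.smul continuous_const).continuousOn.integrableOn_compact hB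
  have e1 : ∫ y in B, φ.normed volume (x - y) • A = A := by
    rw [integral_smul_const, setIntegral_eq_integral_of_forall_compl_eq_zero h0,
      integral_sub_left_eq_self, φ.integral_normed, one_smul]
  simp only [smul_sub]
  rw [integral_sub i1 i2, e1, sub_left_inj, ← convolution_flip,
    (φ.hasCompactSupport_normed.hasFDerivAt_convolution_right _ hf.locallyIntegrable hρ1 x).fderiv]
  refine ContinuousLinearMap.ext fun w => ?_
  rw [convolution_precompR_apply _ hf.locallyIntegrable (φ.hasCompactSupport_normed.fderiv ℝ)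
    (hρ1.continuous_fderiv one_ne_zero), ContinuousLinearMap.integral_apply i1, convolution_def]
  have h1 := hW.2.2 _ hψ ((isCompact_closedBall x φ.rOut).of_isClosed_subset (isClosed_tsupport _)
    hts) (hts.trans (hx.trans hBΩ)) w
  have e2 : ∀ y, fderiv ℝ (fun y => φ.normed volume (x - y)) y w =
      -fderiv ℝ (φ.normed volume) (x - y) w := fun y => by
    have := (hρ1.differentiable one_ne_zero (x - y)).hasFDerivAt.comp y
      ((hasFDerivAt_id y).const_sub x)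
    rw [show (fun y => φ.normed volume (x - y)) = φ.normed volume ∘ HSub.hSub x from rfl,
      this.fderiv]
    simp
  simp only [e2, neg_smul, integral_neg, neg_inj] at h1
  rw [setIntegral_eq_integral_of_forall_compl_eq_zero fun y hy => by
      rw [fderiv_of_notMem_tsupport ℝ (hout y fun c => hy (hBΩ (hx c)))]
      simp,
    setIntegral_eq_of_subset_of_forall_sdiff_eq_zero hΩ.measurableSet hBΩ fun y hy => by
      rw [h0 y hy.2, zero_smul]] at h1
  exact h1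

theorem exists_moll {n : ℕ} {p : ℝ≥0∞} (hp1 : 1 ≤ p) (hp : p ≠ ⊤) {Ω : Set (Fin n → ℝ)}
    (hΩ : IsOpen Ω) {f : (Fin n → ℝ) → Fin n → ℝ}
    {D : (Fin n → ℝ) → (Fin n → ℝ) →L[ℝ] (Fin n → ℝ)} (hf : Continuous f)
    (hW : MemW1p p Ω f D) :
    ∃ F : ℕ → (Fin n → ℝ) → Fin n → ℝ, (∀ j, ContDiff ℝ ∞ (F j)) ∧
      (∀ K, IsCompact K → TendstoUniformlyOn F f atTop K) ∧
      ∀ (j : ℕ) (A : (Fin n → ℝ) →L[ℝ] (Fin n → ℝ)) (a : Fin n → ℝ) (R : ℝ),
        closedBall a (R + 1 / ((j : ℝ) + 1)) ⊆ Ω →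
        ∫⁻ x in closedBall a R, ‖fderiv ℝ (F j) x - A‖ₑ ^ p.toReal ≤
          ∫⁻ x in closedBall a (R + 1 / ((j : ℝ) + 1)), ‖D x - A‖ₑ ^ p.toReal := by
  have hr : ∀ j : ℕ, (0 : ℝ) < 1 / ((j : ℝ) + 1) := fun j => by positivity
  let φ : ℕ → ContDiffBump (0 : Fin n → ℝ) := fun j =>
    ⟨1 / ((j : ℝ) + 1) / 2, 1 / ((j : ℝ) + 1), half_pos (hr j), half_lt_self (hr j)⟩
  refine ⟨fun j => convolution ((φ j).normed volume) f (ContinuousLinearMap.lsmul ℝ ℝ) volume,
    fun j => (φ j).hasCompactSupport_normed.contDiff_convolution_left _ (φ j).contDiff_normed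
      hf.locallyIntegrable, fun K hK => Metric.tendstoUniformlyOn_iff.2 fun ε hε => ?_,
    fun j A a R hB => ?_⟩
  · obtain ⟨δ, hδ, h⟩ := Metric.mem_uniformity_dist.1
      (hK.uniformContinuousAt_of_continuousAt f (fun _ _ => hf.continuousAt)
        (Metric.dist_mem_uniformity (half_pos hε)))
    filter_upwards [(tendsto_one_div_add_atTop_nhds_zero_nat (𝕜 := ℝ)).eventually
      (gt_mem_nhds hδ)] with j hj x hx
    rw [dist_comm]
    refine ((φ j).dist_normed_convolution_le hf.aestronglyMeasurable fun y hy => ?_).trans_lt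
      (half_lt_self hε)
    rw [dist_comm]
    exact le_of_lt (h (a := x) (b := y) ((mem_ball'.1 hy).trans hj) hx)
  have hq : 1 ≤ p.toReal := by
    simpa using ENNReal.toReal_mono hp hp1
  have hc := isCompact_closedBall a (R + 1 / ((j : ℝ) + 1))
  have hh : AEMeasurable (fun y => ‖D y - A‖ₑ)
      (volume.restrict (closedBall a (R + 1 / ((j : ℝ) + 1)))) :=
    ((hW.2.1.1.mono_measure (Measure.restrict_mono hB le_rfl)).sub aestronglyMeasurable_const).enorm
  have hm : Measurable fun y => ENNReal.ofReal ((φ j).normed volume y) :=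
    (φ j).continuous_normed.measurable.ennreal_ofReal
  have h1 : ∫⁻ y, ENNReal.ofReal ((φ j).normed volume y) = 1 := by
    rw [← ofReal_integral_eq_lintegral_ofReal (φ j).integrable_normed
      (Eventually.of_forall (φ j).nonneg_normed), (φ j).integral_normed, ENNReal.ofReal_one]
  calc _ ≤ ∫⁻ x in closedBall a R, ∫⁻ y in closedBall a (R + 1 / ((j : ℝ) + 1)),
        ENNReal.ofReal ((φ j).normed volume (x - y)) * ‖D y - A‖ₑ ^ p.toReal := by
        refine setLIntegral_mono' measurableSet_closedBall fun x hx => ?_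
        rw [BSm_fderiv hp1 hΩ hf hW (φ j) hc hB (closedBall_subset_closedBall'
          ((add_comm _ _).trans_le (add_le_add (mem_closedBall.1 hx) le_rfl))) A]
        refine le_trans (ENNReal.rpow_le_rpow ((enorm_integral_le_lintegral_enorm _).trans_eq
          (lintegral_congr fun y => ?_)) ENNReal.toReal_nonneg)
          (BSm_jensen (hm.comp (measurable_const.sub measurable_id)).aemeasurable hh
            ((setLIntegral_le_lintegral _ _).trans_eq
              ((lintegral_sub_left_eq_self _ x).trans h1)) hq)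
        rw [enorm_smul, Real.enorm_eq_ofReal ((φ j).nonneg_normed _)]
        rfl
    _ ≤ ∫⁻ x, ∫⁻ y in closedBall a (R + 1 / ((j : ℝ) + 1)),
        ENNReal.ofReal ((φ j).normed volume (x - y)) * ‖D y - A‖ₑ ^ p.toReal :=
        setLIntegral_le_lintegral _ _
    _ = ∫⁻ y in closedBall a (R + 1 / ((j : ℝ) + 1)), ∫⁻ x,
        ENNReal.ofReal ((φ j).normed volume (x - y)) * ‖D y - A‖ₑ ^ p.toReal :=
        lintegral_lintegral_swap ((hm.comp (measurable_fst.sub measurable_snd)).aemeasurable.mul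
          (hh.pow_const _).comp_snd)
    _ = _ := lintegral_congr fun y => by
        have hm' : Measurable fun x => ENNReal.ofReal ((φ j).normed volume (x - y)) :=
          hm.comp (measurable_id.sub measurable_const)
        rw [lintegral_mul_const _ hm',
          lintegral_sub_right_eq_self (fun x => ENNReal.ofReal ((φ j).normed volume x)) y, h1,
          one_mul]

end BEp
end
end

-- merged part: Pool.Agent.Work.MP_f0515e_an.Pos.BX5
section
/-! TASK BX5. Mollification with convergence of the derivatives in L^p on a compact set.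
Plan. Same F j as in BSm (reuse its auxiliary lemmas). Let delta > 0 with cthickening delta S inside Omega and D0 = indicator Omega D, in L^p of the whole space. For x in S and j large fderiv (F j) x - D0 x = integral of rho j t (D0 (x - t) - D0 x);
Jensen and Tonelli bound the integral by the supremum over norm t <= 1/(j+1) of the L^p norm of D0 (. - t) - D0, which tends to 0 (density of continuous compactly supported functions, MemLp.exists_hasCompactSupport_eLpNorm_sub_le, or the continuity of the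
translation action on Lp). -/

open Set Metric Filter Topology Function BEv MeasureTheory
open scoped NNReal ENNReal ContDiff

noncomputable section
namespace BEp

theorem BX5_trans {n : ℕ} {p : ℝ≥0∞} (hp1 : 1 ≤ p) (hp : p ≠ ⊤) {F : Type}
    [NormedAddCommGroup F] {g : (Fin n → ℝ) → F} (hg : MemLp g p volume) :
    Tendsto (fun t => ∫⁻ x, ‖g (x - t) - g x‖ₑ ^ p.toReal) (𝓝 0) (𝓝 0) := by
  have : Fact (1 ≤ p) := ⟨hp1⟩
  have hp0 : p ≠ 0 := (zero_lt_one.trans_le hp1).ne'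
  have hq : 0 < p.toReal := ENNReal.toReal_pos hp0 hp
  let τ : (Fin n → ℝ) → C(Fin n → ℝ, Fin n → ℝ) := fun t => ⟨fun x => x - t, by fun_prop⟩
  have hτ : Continuous τ :=
    ContinuousMap.continuous_of_continuous_uncurry τ (continuous_snd.sub continuous_fst)
  have hm : ∀ t, MeasurePreserving (τ t) volume volume := fun t =>
    measurePreserving_sub_right volume t
  have e : ∀ t, ⇑(Lp.compMeasurePreserving (τ t) (hm t) (hg.toLp g)) =ᵐ[volume]
      fun x => g (x - t) := fun t =>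
    (Lp.coeFn_compMeasurePreserving _ _).trans
      ((hm t).quasiMeasurePreserving.ae_eq_comp hg.coeFn_toLp)
  have h := (Lp.tendsto_Lp_iff_tendsto_eLpNorm' _ _).1
    ((tendsto_const_nhds (x := hg.toLp g)).compMeasurePreservingLp (hτ.tendsto 0) hm (hm 0) hp)
  have h2 := ((ENNReal.continuous_rpow_const (y := p.toReal)).tendsto 0).comp h
  rw [ENNReal.zero_rpow_of_pos hq] at h2
  refine h2.congr fun t => ?_
  rw [comp_apply, eLpNorm_congr_ae ((e t).sub (e 0)), eLpNorm_eq_eLpNorm' hp0 hp,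
    ← lintegral_rpow_enorm_eq_rpow_eLpNorm' hq]
  simp

theorem BX5_ind {n : ℕ} {p : ℝ≥0∞} {F : Type} [NormedAddCommGroup F] {D : (Fin n → ℝ) → F}
    {B : Set (Fin n → ℝ)} (hB : MeasurableSet B) (hD : MemLp D p (volume.restrict B)) :
    ∃ g : (Fin n → ℝ) → F, MemLp g p volume ∧ ∀ y ∈ B, D y = g y :=
  ⟨B.indicator D, (memLp_indicator_iff_restrict hB).2 hD, fun _ hy => (indicator_of_mem hy _).symm⟩

theorem BX5_pt {n : ℕ} {q : ℝ} (hq : 1 ≤ q) {F : Type} [NormedAddCommGroup F] [NormedSpace ℝ F]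
    {g : (Fin n → ℝ) → F} (hg : AEStronglyMeasurable g volume) {ρ : (Fin n → ℝ) → ℝ}
    (h0 : ∀ y, 0 ≤ ρ y) (hm : Measurable fun y => ENNReal.ofReal (ρ y))
    (h1 : ∫⁻ y, ENNReal.ofReal (ρ y) = 1) (B : Set (Fin n → ℝ)) (x : Fin n → ℝ) :
    ‖∫ y in B, ρ (x - y) • (g y - g x)‖ₑ ^ q ≤
      ∫⁻ t, ENNReal.ofReal (ρ t) * ‖g (x - t) - g x‖ₑ ^ q := by
  have h2 : ‖∫ y in B, ρ (x - y) • (g y - g x)‖ₑ ≤
      ∫⁻ y, ENNReal.ofReal (ρ (x - y)) * ‖g y - g x‖ₑ := by
    refine (enorm_integral_le_lintegral_enorm _).trans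
      ((setLIntegral_le_lintegral _ _).trans_eq (lintegral_congr fun y => ?_))
    rw [enorm_smul, Real.enorm_eq_ofReal (h0 _)]
  have h3 : AEMeasurable (fun y => ‖g y - g x‖ₑ) volume :=
    (hg.sub aestronglyMeasurable_const).enorm
  have h4 : Measurable fun y => ENNReal.ofReal (ρ (x - y)) :=
    hm.comp (measurable_const.sub measurable_id)
  refine (ENNReal.rpow_le_rpow h2 (zero_le_one.trans hq)).trans ((BSm_jensen h4.aemeasurable h3
    ((lintegral_sub_left_eq_self (fun y => ENNReal.ofReal (ρ y)) x).trans h1).le hq).trans_eq ?_)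
  rw [← lintegral_sub_left_eq_self _ x]
  simp only [sub_sub_cancel]

theorem BX5_swap {n : ℕ} {F : Type} [NormedAddCommGroup F] {g : (Fin n → ℝ) → F}
    (hg : AEStronglyMeasurable g volume) {w : (Fin n → ℝ) → ℝ≥0∞} (hw : Measurable w) (q : ℝ) :
    ∫⁻ x, ∫⁻ t, w t * ‖g (x - t) - g x‖ₑ ^ q = ∫⁻ t, ∫⁻ x, w t * ‖g (x - t) - g x‖ₑ ^ q := by
  have h1 : AEStronglyMeasurable (fun z : (Fin n → ℝ) × (Fin n → ℝ) => g (z.1 - z.2))
      (volume.prod volume) :=
    hg.comp_quasiMeasurePreserving (quasiMeasurePreserving_sub volume volume)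
  have h2 : AEMeasurable (fun z : (Fin n → ℝ) × (Fin n → ℝ) => ‖g (z.1 - z.2) - g z.1‖ₑ)
      (volume.prod volume) := (h1.sub hg.comp_fst).enorm
  have h3 : Measurable fun z : (Fin n → ℝ) × (Fin n → ℝ) => w z.2 := hw.comp measurable_snd
  exact lintegral_lintegral_swap (h3.aemeasurable.mul (h2.pow_const q))

theorem exists_moll_lp {n : ℕ} {p : ℝ≥0∞} (hp1 : 1 ≤ p) (hp : p ≠ ⊤) {Ω S : Set (Fin n → ℝ)}
    (hΩ : IsOpen Ω) (hS : IsCompact S) (hSΩ : S ⊆ Ω) {f : (Fin n → ℝ) → Fin n → ℝ}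
    {D : (Fin n → ℝ) → (Fin n → ℝ) →L[ℝ] (Fin n → ℝ)} (hf : Continuous f)
    (hW : MemW1p p Ω f D) :
    ∃ u : ℕ → (Fin n → ℝ) → Fin n → ℝ, (∀ j, ContDiff ℝ 2 (u j)) ∧
      TendstoUniformlyOn u f atTop S ∧
      Tendsto (fun j => ∫⁻ x in S, ‖fderiv ℝ (u j) x - D x‖ₑ ^ p.toReal) atTop (𝓝 0) := by
  have hr : ∀ j : ℕ, (0 : ℝ) < 1 / ((j : ℝ) + 1) := fun j => by positivity
  let φ : ℕ → ContDiffBump (0 : Fin n → ℝ) := fun j =>
    ⟨1 / ((j : ℝ) + 1) / 2, 1 / ((j : ℝ) + 1), half_pos (hr j), half_lt_self (hr j)⟩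
  refine ⟨fun j => convolution ((φ j).normed volume) f (ContinuousLinearMap.lsmul ℝ ℝ) volume,
    fun j => (φ j).hasCompactSupport_normed.contDiff_convolution_left _
      ((φ j).contDiff_normed (n := 2)) hf.locallyIntegrable,
    Metric.tendstoUniformlyOn_iff.2 fun ε hε => ?_, ENNReal.tendsto_nhds_zero.2 fun ε hε => ?_⟩
  · obtain ⟨δ, hδ, h⟩ := Metric.mem_uniformity_dist.1
      (hS.uniformContinuousAt_of_continuousAt f (fun _ _ => hf.continuousAt)
        (Metric.dist_mem_uniformity (half_pos hε)))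
    filter_upwards [(tendsto_one_div_add_atTop_nhds_zero_nat (𝕜 := ℝ)).eventually
      (gt_mem_nhds hδ)] with j hj x hx
    rw [dist_comm]
    refine ((φ j).dist_normed_convolution_le hf.aestronglyMeasurable fun y hy => ?_).trans_lt
      (half_lt_self hε)
    rw [dist_comm]
    exact le_of_lt (h (a := x) (b := y) ((mem_ball'.1 hy).trans hj) hx)
  have hq : 1 ≤ p.toReal := by
    simpa using ENNReal.toReal_mono hp hp1
  obtain ⟨δ, hδ, hB⟩ := hS.exists_cthickening_subset_open hΩ hSΩ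
  have hc : IsCompact (cthickening δ S) := hS.cthickening
  obtain ⟨g, hD0, hg'⟩ := BX5_ind hc.measurableSet
    (hW.2.1.mono_measure (Measure.restrict_mono hB le_rfl))
  obtain ⟨r, hr0, hT⟩ := Metric.eventually_nhds_iff.1
    (ENNReal.tendsto_nhds_zero.1 (BX5_trans hp1 hp hD0) ε hε)
  filter_upwards [(tendsto_one_div_add_atTop_nhds_zero_nat (𝕜 := ℝ)).eventually
    (gt_mem_nhds (lt_min hδ hr0))] with j hj
  have hm : Measurable fun y => ENNReal.ofReal ((φ j).normed volume y) :=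
    (φ j).continuous_normed.measurable.ennreal_ofReal
  have h1 : ∫⁻ y, ENNReal.ofReal ((φ j).normed volume y) = 1 := by
    rw [← ofReal_integral_eq_lintegral_ofReal (φ j).integrable_normed
      (Eventually.of_forall (φ j).nonneg_normed), (φ j).integral_normed, ENNReal.ofReal_one]
  calc _ ≤ ∫⁻ x in S, ∫⁻ t,
        ENNReal.ofReal ((φ j).normed volume t) * ‖g (x - t) - g x‖ₑ ^ p.toReal := by
        refine setLIntegral_mono' hS.measurableSet fun x hx => ?_
        rw [BSm_fderiv hp1 hΩ hf hW (φ j) hc hB ((closedBall_subset_closedBall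
          (hj.le.trans (min_le_left _ _))).trans (closedBall_subset_cthickening hx δ)) (D x),
          hg' x (self_subset_cthickening S hx),
          setIntegral_congr_fun hc.measurableSet fun y hy => by rw [hg' y hy]]
        exact BX5_pt hq hD0.1 (φ j).nonneg_normed hm h1 _ x
    _ ≤ ∫⁻ x, ∫⁻ t, ENNReal.ofReal ((φ j).normed volume t) * ‖g (x - t) - g x‖ₑ ^ p.toReal :=
        setLIntegral_le_lintegral _ _
    _ = ∫⁻ t, ∫⁻ x, ENNReal.ofReal ((φ j).normed volume t) * ‖g (x - t) - g x‖ₑ ^ p.toReal :=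
        BX5_swap hD0.1 hm _
    _ ≤ ∫⁻ t, ENNReal.ofReal ((φ j).normed volume t) * ε := by
        refine lintegral_mono fun t => ?_
        rw [lintegral_const_mul' _ _ ENNReal.ofReal_ne_top]
        by_cases ht : t ∈ support ((φ j).normed volume)
        · rw [(φ j).support_normed_eq] at ht
          exact mul_le_mul_right (hT ((mem_ball.1 ht).trans (hj.trans_le (min_le_right _ _)))) _
        · simp [notMem_support.1 ht]
    _ = ε := by rw [lintegral_mul_const _ hm, h1, one_mul]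

end BEp
end
end

-- merged part: Pool.Agent.Work.MP_f0515e_an.Pos.TH
section
/-! Stability of the homotopy hypothesis. -/

open Set Metric Filter Topology Function BEv
open scoped NNReal

noncomputable section
namespace BEp

theorem NatP.mono {m : ℕ} {S S' : Set (V m)} {f : V m → V m} (h : NatP S f) (hS : S' ⊆ S) :
    NatP S' f := by
  obtain ⟨σ, h1, h2⟩ := h
  exact ⟨σ, h1, fun D a b c => h2 D a b fun p hp =>
    ⟨hS (c p hp).1, hS (c p hp).2.1, (c p hp).2.2⟩⟩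

theorem NatP.shift {m : ℕ} {S : Set (V m)} {f : V m → V m} (h : NatP S f) (t : V m) :
    NatP {x | x + t ∈ S} (fun x => f (x + t)) := by
  obtain ⟨σ, h1, h2⟩ := h
  refine ⟨σ, h1, fun D a b c => ?_⟩
  have hc : Continuous fun p : V m × V m => (p.1 + t, p.2 + t) := by fun_prop
  obtain ⟨H, hH⟩ := h2 ((fun p : V m × V m => (p.1 + t, p.2 + t)) '' D) (a.image hc)
    (by rintro _ ⟨p, hp, rfl⟩; exact ⟨p.swap, b p hp, rfl⟩)
    (by
      rintro _ ⟨p, hp, rfl⟩
      exact ⟨(c p hp).1, (c p hp).2.1, fun e => (c p hp).2.2 (add_right_cancel e)⟩)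
  refine ⟨fun q => H ((q.1.1 + t, q.1.2 + t), q.2), ?_, fun p s => ?_, fun p hp s hs => ?_,
    fun p hp => ?_, fun p hp => ?_⟩
  · exact hH.cont.comp (by fun_prop)
  · exact hH.odd (p.1 + t, p.2 + t) s
  · exact hH.ne _ ⟨p, hp, rfl⟩ s hs
  · exact hH.zero _ ⟨p, hp, rfl⟩
  · rw [hH.one _ ⟨p, hp, rfl⟩]
    simp [tl]

theorem NatP.neg {m : ℕ} {S : Set (V m)} {f : V m → V m} (h : NatP S f) :
    NatP S (fun x => -f x) := by
  obtain ⟨σ, h1, h2⟩ := h
  refine ⟨-σ, ?_, by simpa using h2⟩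
  rcases h1 with rfl | rfl <;> simp

end BEp
end
end

-- merged part: Pool.Agent.Work.MP_f0515e_an.Pos.BCore
section
/-! The core statement, in the form proved by the files A*. -/

open Set Metric Filter Topology Function BEv MeasureTheory
open scoped NNReal ENNReal ContDiff

noncomputable section
namespace BEp

def CoreStmt (m : ℕ) (p : ℝ) : Prop :=
  ∀ (S K : Set (V m)) (f : V m → V m) (D : V m → V m →L[ℝ] V m) (u : ℕ → V m → V m)
    (e : ℝ≥0∞), IsCompact S → IsCompact K → K ⊆ interior S → NatP S f →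
    Continuous f → InjOn f S → Measurable D → ∫⁻ x in S, ‖D x‖ₑ ^ p ≠ ⊤ →
    (∀ j, ContDiff ℝ 2 (u j)) → TendstoUniformlyOn u f atTop S →
    Tendsto (fun j => ∫⁻ x in S, ‖fderiv ℝ (u j) x - D x‖ₑ ^ p) atTop (𝓝 0) → e ≠ 0 →
    ∃ T, CC T ∧ ∫⁻ x in K, (‖T x - f x‖ₑ ^ p + ‖fderiv ℝ T x - D x‖ₑ ^ p) ≤ e

theorem cc_aff {n : ℕ} (L : (Fin n → ℝ) ≃L[ℝ] (Fin n → ℝ)) (b : Fin n → ℝ) :
    CC (fun x => L x + b) := (ww_affine L b).cc

theorem SG.cc {n : ℕ} {Φ : (Fin n → ℝ) → Fin n → ℝ} (h : SG Φ) : CC Φ := h.ww.cc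

end BEp
end
end

-- merged part: Pool.Agent.Work.MP_f0515e_an.Pos.BRed
section
/-! Reduction to the core statement. -/

open Set Metric Filter Topology Function BEv MeasureTheory
open scoped NNReal ENNReal ContDiff

noncomputable section
namespace BEp

theorem BRed_lp {n : ℕ} {G : Type} [NormedAddCommGroup G] {p : ℝ≥0∞} (hp1 : 1 ≤ p) (hp : p ≠ ⊤)
    {μ : Measure (Fin n → ℝ)} {g : (Fin n → ℝ) → G} {a : ℝ≥0∞}
    (h : ∫⁻ x, ‖g x‖ₑ ^ p.toReal ∂μ ≤ a ^ p.toReal) : eLpNorm g p μ ≤ a := by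
  have hp0 : p ≠ 0 := (lt_of_lt_of_le zero_lt_one hp1).ne'
  have hq : 0 < p.toReal := ENNReal.toReal_pos hp0 hp
  rw [eLpNorm_eq_lintegral_rpow_enorm_toReal hp0 hp]
  refine (ENNReal.rpow_le_rpow h (by positivity)).trans ?_
  rw [← ENNReal.rpow_mul, mul_one_div_cancel hq.ne', ENNReal.rpow_one]

theorem core_of_stmt {m : ℕ} {p : ℝ≥0∞} (hp1 : 1 ≤ p) (hp : p ≠ ⊤) (hcore : CoreStmt m p.toReal)
    {Ω Ω' : Set (V m)} (hΩ : IsOpen Ω) (hΩ' : IsOpen Ω') (hb : Bornology.IsBounded Ω')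
    (hsub : closure Ω ⊆ Ω') {f : V m → V m} (hs : NatP Ω' f)
    {D : V m → V m →L[ℝ] V m} (hf : Continuous f) (hi : InjOn f Ω') (hW : MemW1p p Ω' f D)
    {ε : ℝ≥0∞} (hε : 0 < ε) : ∃ F, CC F ∧ sdist p Ω F f (fderiv ℝ F) D ≤ ε := by
  have hp0 : p ≠ 0 := (lt_of_lt_of_le zero_lt_one hp1).ne'
  have hq : 0 < p.toReal := ENNReal.toReal_pos hp0 hp
  have hK : IsCompact (closure Ω) := (hb.subset (subset_closure.trans hsub)).isCompact_closure
  obtain ⟨S, hS, hKS, hSΩ⟩ := exists_compact_between hK hΩ' hsub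
  obtain ⟨u, hu, hu1, hu2⟩ := exists_moll_lp hp1 hp hΩ' hS hSΩ hf hW
  have hD := hW.2.1.1
  have hae : D =ᵐ[volume.restrict Ω'] hD.mk D := hD.ae_eq_mk
  have haeS : D =ᵐ[volume.restrict S] hD.mk D := ae_restrict_of_ae_restrict_of_subset hSΩ hae
  have haeΩ : D =ᵐ[volume.restrict Ω] hD.mk D :=
    ae_restrict_of_ae_restrict_of_subset (subset_closure.trans hsub) hae
  obtain ⟨T, hT, hTe⟩ := hcore S (closure Ω) f (hD.mk D) u ((ε / 2) ^ p.toReal) hS hK hKS
    (hs.mono hSΩ) hf (hi.mono hSΩ) hD.stronglyMeasurable_mk.measurable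
    (by
      have h1 := lintegral_rpow_enorm_lt_top_of_eLpNorm_lt_top hp0 hp hW.2.1.2
      refine ne_of_lt (lt_of_le_of_lt ?_ h1)
      refine le_trans (le_of_eq (lintegral_congr_ae ?_)) (lintegral_mono_set hSΩ)
      filter_upwards [haeS] with x hx
      rw [hx]) hu hu1
    (hu2.congr fun j => lintegral_congr_ae (by
      filter_upwards [haeS] with x hx
      rw [hx]))
    (ENNReal.rpow_pos_of_nonneg (ENNReal.half_pos hε.ne') hq.le).ne'
  refine ⟨T, hT, ?_⟩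
  have h1 : eLpNorm (T - f) p (volume.restrict Ω) ≤ ε / 2 := BRed_lp hp1 hp
    (((lintegral_mono_set subset_closure).trans (lintegral_mono fun x => le_self_add)).trans hTe)
  have h2 : eLpNorm (fderiv ℝ T - hD.mk D) p (volume.restrict Ω) ≤ ε / 2 := BRed_lp hp1 hp
    (((lintegral_mono_set subset_closure).trans (lintegral_mono fun x => le_add_self)).trans hTe)
  have h3 : eLpNorm (fderiv ℝ T - D) p (volume.restrict Ω) =
      eLpNorm (fderiv ℝ T - hD.mk D) p (volume.restrict Ω) :=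
    eLpNorm_congr_ae (by
      filter_upwards [haeΩ] with x hx
      simp only [Pi.sub_apply, hx])
  rw [sdist, h3, ← ENNReal.add_halves ε]
  exact add_le_add h1 h2

end BEp
end
end
end
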