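import Pool.Agent.Work.MP_f0515e_an.Pos.BRed
import Pool.Agent.Work.MP_f0515e_an.Pos.HBor

-- merged part: Pool.Agent.Work.MP_f0515e_an.Pos.UChart
section
/-! Bi-Lipschitz extensions of diffeomorphisms and of piecewise affine homeomorphisms. -/

open Set Metric Filter Topology Function BEv MeasureTheory
open scoped NNReal ENNReal ContDiff

noncomputable section
namespace BEp

variable {n : ℕ}

/-- Lipschitz maps, inverse to each other on `K`, compatible with a kind of approximants. -/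
structure Chart (Kind : Set (Fin n → ℝ) → ((Fin n → ℝ) → Fin n → ℝ) → Prop)
    (Kd : ((Fin n → ℝ) → Fin n → ℝ) → Prop) (K : Set (Fin n → ℝ))
    (ψ k : (Fin n → ℝ) → Fin n → ℝ) (L : ℝ≥0) : Prop where
  l1 : LipschitzWith L ψ
  l2 : LipschitzWith L k
  one : 1 ≤ L
  inv : ∀ x ∈ K, k (ψ x) = x
  comp : ∀ w θ Ω, Kd w → Kd θ → IsOpen Ω → MapsTo θ Ω K → Kind Ω (w ∘ ψ ∘ θ)

variable {U K : Set (Fin n → ℝ)} {Ψ : (Fin n → ℝ) → Fin n → ℝ}

theorem UChart_ext (hU : IsOpen U) (h : ContDiffOn ℝ ∞ Ψ U) (hK : IsCompact K) (hs : K ⊆ U) :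
    ∃ ψ L, LipschitzWith L ψ ∧ EqOn Ψ ψ K := by
  have h1 : LocallyLipschitzOn K Ψ := fun x hx => by
    obtain ⟨L, t, a, b⟩ := ((h.contDiffAt (hU.mem_nhds (hs hx))).of_le
      (m := 1) (by simp)).exists_lipschitzOnWith
    exact ⟨L, t, mem_nhdsWithin_of_mem_nhds a, b⟩
  obtain ⟨L, hL⟩ := h1.exists_lipschitzOnWith_of_compact hK
  obtain ⟨g, g1, g2⟩ := hL.extend_pi
  exact ⟨g, L, g1, g2⟩

theorem chart_diffeo (hU : IsOpen U) (h : IsDiffeo U Ψ) (hK : IsCompact K) (hs : K ⊆ U) :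
    ∃ ψ k L, EqOn Ψ ψ K ∧ Chart IsDiffeo GD K ψ k L := by
  obtain ⟨h1, h2, Ψ', h3, h4⟩ := h
  obtain ⟨ψ, L, a1, a2⟩ := UChart_ext hU h1 hK hs
  obtain ⟨k, L', b1, b2⟩ := UChart_ext h2 h3 (hK.image_of_continuousOn (h1.continuousOn.mono hs))
    (image_mono hs)
  refine ⟨ψ, k, max (max L L') 1, a2, a1.weaken (le_max_of_le_left (le_max_left _ _)),
    b1.weaken (le_max_of_le_left (le_max_right _ _)), le_max_right _ _,
    fun x hx => by rw [← a2 hx, ← b2 ⟨x, hx, rfl⟩, h4 (hs hx)], ?_⟩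
  rintro w θ Ω ⟨⟨w1, -, -⟩, w2, w3⟩ ⟨⟨t1, -, -⟩, t2, t3⟩ hΩ hm
  have e : LeftInvOn (invFun θ ∘ Ψ' ∘ invFun w) (w ∘ ψ ∘ θ) Ω := fun x hx => by
    simp only [comp_apply]
    rw [leftInverse_invFun w1.1, ← a2 (hm hx), h4 (hs (hm hx)), leftInverse_invFun t1.1]
  refine ⟨w2.comp_contDiffOn ((h1.comp t2.contDiffOn (hm.mono_right hs)).congr
    fun x hx => (a2 (hm hx)).symm), inv_domain rfl hΩ
      (w2.continuous.comp (a1.continuous.comp t2.continuous)) e.injOn, _,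
    t3.comp_contDiffOn (h3.comp w3.contDiffOn ?_), e⟩
  rintro _ ⟨x, hx, rfl⟩
  exact ⟨θ x, hs (hm hx), (a2 (hm hx)).trans (leftInverse_invFun w1.1 _).symm⟩

theorem tp_isPAHomeo {g : (Fin n → ℝ) → Fin n → ℝ} (hg : TP g) (hU : IsOpen U)
    (he : IsEmbedding fun x : U => g x) : IsPAHomeo U g := by
  obtain ⟨S, h1, h2, h3, h4⟩ := whitney_cover hU
  choose! T hT eT aT using fun q (hq : q ∈ S) => cube_simplices hg q.1 (h2 q hq)
  refine ⟨he, ⋃ q ∈ S, T q, h1.biUnion fun q hq => (hT q hq).countable, ?_,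
    fun x hx => ?_, fun σ hσ => ?_⟩
  · rw [biUnion_iUnion]
    simp only [biUnion_iUnion]
    exact (iUnion₂_congr eT).trans h3
  · obtain ⟨t, ht, hf⟩ := h4 x hx
    refine ⟨t, ht, (hf.biUnion fun q hq => hT q hq.1).subset ?_⟩
    rintro σ ⟨hσ, y, hy, hy'⟩
    obtain ⟨q, hq, k⟩ := mem_iUnion₂.1 hσ
    exact mem_iUnion₂.2 ⟨q, ⟨hq, y, (eT q hq).subset (mem_iUnion₂.2 ⟨σ, k, hy⟩), hy'⟩, k⟩
  · obtain ⟨q, hq, k⟩ := mem_iUnion₂.1 hσ
    exact aT q hq σ k

theorem poly_hull {d : ℕ} (a : Fin d → Fin n → ℝ) : Poly (convexHull ℝ (range a)) := by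
  have h1 : Poly (stdSimplex ℝ (Fin d)) := by
    have e : stdSimplex ℝ (Fin d) =
        {x | ‖x‖ ≤ 1 ∧ ‖(fun i => |x i|) - x‖ + |∑ i, x i - 1| = 0} := by
      ext x
      refine ⟨fun hx => ⟨mem_closedBall_zero_iff.1 (stdSimplex_subset_closedBall hx), ?_⟩,
        fun hx => ?_⟩
      · rw [hx.2, show (fun i => |x i|) = x from funext fun i => abs_of_nonneg (hx.1 i)]
        simp
      · obtain ⟨k1, k2⟩ := (add_eq_zero_iff_of_nonneg (norm_nonneg _) (abs_nonneg _)).1 hx.2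
        exact ⟨fun i => abs_eq_self.1 (congrFun (sub_eq_zero.1 (norm_eq_zero.1 k1)) i),
          sub_eq_zero.1 (abs_eq_zero.1 k2)⟩
    rw [e]
    exact poly_zero (((TP.pi fun i => (TP.id'.apply i).abs).sub TP.id').norm_pi.add
      ((TP.sum _ fun i _ => TP.id'.apply i).sub (TP.const _)).abs) 1
  have h2 := h1.image (TP.clm (Fintype.linearCombination ℝ a).toContinuousLinearMap)
  rwa [← convexHull_rangle_single_eq_stdSimplex, LinearMap.coe_toContinuousLinearMap',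
    LinearMap.image_convexHull, ← range_comp, show _ ∘ _ = a from funext fun i => by simp] at h2

theorem chart_pa (h : IsPAHomeo U Ψ) (hK : IsCompact K) (hs : K ⊆ U) :
    ∃ ψ k L, EqOn Ψ ψ K ∧ Chart IsPAHomeo LH K ψ k L := by
  obtain ⟨h1, S, -, h2, h3, h4⟩ := h
  have hT : {σ ∈ S | (convexHull ℝ (range σ.points) ∩ K).Nonempty}.Finite :=
    hK.induction_on (p := fun s => {σ ∈ S | (convexHull ℝ (range σ.points) ∩ s).Nonempty}.Finite)
      (by simp) (fun s t e k => k.subset fun σ j => ⟨j.1, j.2.mono (inter_subset_inter_right _ e)⟩)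
      (fun s t j k => (j.union k).subset fun σ ⟨a, y, b, c⟩ =>
        c.imp (fun c => ⟨a, y, b, c⟩) fun c => ⟨a, y, b, c⟩)
      fun x hx => (h3 x (hs hx)).imp fun t k => ⟨mem_nhdsWithin_of_mem_nhds k.1, k.2⟩
  obtain ⟨ψ, a1, a2⟩ : ∃ ψ, TP ψ ∧ EqOn Ψ ψ (⋃ σ ∈ {σ ∈ S |
      (convexHull ℝ (range σ.points) ∩ K).Nonempty}, convexHull ℝ (range σ.points)) := by
    refine hT.induction_on_subset _ ⟨fun _ => 0, TP.const _, by simp⟩ ?_
    rintro σ T hσ hTS - ⟨ψ, b1, b2⟩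
    obtain ⟨A, hA⟩ := h4 σ hσ.1
    have b3 : TP A := by
      rw [A.decomp]
      exact (TP.clm A.linear.toContinuousLinearMap).add (TP.const _)
    obtain ⟨d, d1, d2, d3⟩ := (poly_hull σ.points).glue
      (Poly.biUnion (hT.subset hTS) fun τ _ => poly_hull τ.points) (b3.sub b1)
      fun x hx => by rw [← hA hx.1, ← b2 hx.2, sub_self]
    refine ⟨fun x => ψ x + d x, b1.add d1, fun x hx => ?_⟩
    rw [biUnion_insert] at hx
    rcases hx with hx | hx
    · simp only [d2 hx, hA hx, add_sub_cancel]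
    · simp only [d3 x hx, b2 hx, add_zero]
  obtain ⟨P, hP⟩ : ∃ P, P = ⋃ σ ∈ {σ ∈ S | (convexHull ℝ (range σ.points) ∩ K).Nonempty},
    convexHull ℝ (range σ.points) := ⟨_, rfl⟩
  have p1 : Poly P := hP ▸ Poly.biUnion hT fun τ _ => poly_hull τ.points
  have p2 : K ⊆ P := fun x hx => by
    obtain ⟨σ, a, b⟩ := mem_iUnion₂.1 (h2.ge (hs hx))
    exact hP ▸ mem_iUnion₂.2 ⟨σ, ⟨a, x, b, hx⟩, b⟩
  have p3 : P ⊆ U := hP ▸ h2 ▸ biUnion_subset_biUnion_left fun _ k => k.1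
  rw [← hP] at a2
  have hi : InjOn ψ P := ((injOn_iff_injective.2 h1.injective).mono p3).congr a2
  obtain ⟨c, c0, hc⟩ := p1.expand a1 hi
  obtain ⟨k, k1, k2⟩ := (LipschitzOnWith.of_dist_le_mul (K := ⟨c⁻¹, by positivity⟩)
    (f := invFunOn ψ P) (s := ψ '' P) (by
      rintro _ ⟨x, hx, rfl⟩ _ ⟨y, hy, rfl⟩
      rw [hi.leftInvOn_invFunOn hx, hi.leftInvOn_invFunOn hy, dist_eq_norm, dist_eq_norm]
      exact (le_inv_mul_iff₀ c0).2 (hc x hx y hy))).extend_pi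
  have k3 : ∀ x ∈ K, k (ψ x) = x := fun x hx => by
    rw [← k2 ⟨x, p2 hx, rfl⟩, hi.leftInvOn_invFunOn (p2 hx)]
  obtain ⟨L, hL⟩ := a1.lip
  refine ⟨ψ, k, max (max L _) 1, a2.mono p2, hL.weaken (le_max_of_le_left (le_max_left _ _)),
    k1.weaken (le_max_of_le_left (le_max_right _ _)), le_max_right _ _, k3,
    fun w θ Ω hw hθ hΩ hm => ?_⟩
  have g1 : TP (w ∘ ψ ∘ θ) := hw.tp.comp (a1.comp hθ.tp)
  refine tp_isPAHomeo g1 hΩ (IsEmbedding.of_comp (g1.continuous.comp continuous_subtype_val)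
    (hθ.tpi.continuous.comp (k1.continuous.comp hw.tpi.continuous)) ?_)
  rw [show _ ∘ _ = Subtype.val from funext fun x => by
    simp only [comp_apply, hw.li, k3 _ (hm x.2), hθ.li]]
  exact IsEmbedding.subtypeVal

end BEp
end
end

-- merged part: Pool.Agent.Work.MP_f0515e_an.Pos.UCmp
section
/-! Composition of Sobolev maps with bi-Lipschitz maps. -/

open Set Metric Filter Topology Function BEv MeasureTheory
open scoped NNReal ENNReal ContDiff

noncomputable section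
namespace BEp

variable {n : ℕ}

/-- `G` is Lipschitz, maps `Ω` into `O`, and has a Lipschitz inverse on the image of `Ω`. -/
structure Tr (G : (Fin n → ℝ) → Fin n → ℝ) (Ω O : Set (Fin n → ℝ)) (L : ℝ≥0) : Prop where
  lip : LipschitzWith L G
  anti : ∀ x ∈ Ω, ∀ y ∈ Ω, ‖x - y‖ ≤ L * ‖G x - G y‖
  maps : MapsTo G Ω O
  one : 1 ≤ L
  m1 : MeasurableSet Ω
  m2 : MeasurableSet O

/-- The derivative given by the chain rule. -/
def chd (D : (Fin n → ℝ) → (Fin n → ℝ) →L[ℝ] (Fin n → ℝ)) (G : (Fin n → ℝ) → Fin n → ℝ)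
    (x : Fin n → ℝ) : (Fin n → ℝ) →L[ℝ] (Fin n → ℝ) := (D (G x)).comp (fderiv ℝ G x)

variable {G : (Fin n → ℝ) → Fin n → ℝ} {Ω O : Set (Fin n → ℝ)} {L : ℝ≥0} {p : ℝ≥0∞}

theorem Tr.map_le (h : Tr G Ω O L) :
    Measure.map G (volume.restrict Ω) ≤ ((L : ℝ≥0∞) ^ n) • volume.restrict O := by
  refine Measure.le_iff.2 fun s hs => ?_
  have hm := h.lip.continuous.measurable
  have hi : InjOn G Ω := fun x hx y hy e => by
    have := h.anti x hx y hy
    rw [e, sub_self, norm_zero, mul_zero] at this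
    exact sub_eq_zero.1 (norm_le_zero_iff.1 this)
  have h1 : LipschitzOnWith L (invFunOn G Ω) (s ∩ G '' Ω) :=
    LipschitzOnWith.of_dist_le_mul (by
      rintro _ ⟨-, x, hx, rfl⟩ _ ⟨-, y, hy, rfl⟩
      rw [hi.leftInvOn_invFunOn hx, hi.leftInvOn_invFunOn hy, dist_eq_norm, dist_eq_norm]
      exact h.anti x hx y hy)
  have h2 := h1.hausdorffMeasure_image_le (d := (Fintype.card (Fin n) : ℝ)) (by positivity)
  rw [hausdorffMeasure_pi_real, Fintype.card_fin, ENNReal.rpow_natCast] at h2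
  rw [Measure.map_apply hm hs, Measure.restrict_apply (hm hs), Measure.smul_apply,
    Measure.restrict_apply hs, smul_eq_mul]
  refine (measure_mono fun x hx => ?_).trans (h2.trans (mul_le_mul_right
    (measure_mono (inter_subset_inter_right _ h.maps.image_subset)) _))
  exact ⟨G x, ⟨hx.1, x, hx.2, rfl⟩, hi.leftInvOn_invFunOn hx.2⟩

theorem Tr.qmp (h : Tr G Ω O L) :
    Measure.QuasiMeasurePreserving G (volume.restrict Ω) (volume.restrict O) :=
  ⟨h.lip.continuous.measurable, Measure.absolutelyContinuous_of_le_smul h.map_le⟩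

theorem Tr.eLp (h : Tr G Ω O L) (hp1 : 1 ≤ p) {F : Type} [NormedAddCommGroup F]
    {u : (Fin n → ℝ) → F} (hu : AEStronglyMeasurable u (volume.restrict O)) :
    eLpNorm (u ∘ G) p (volume.restrict Ω) ≤ (L : ℝ≥0∞) ^ n * eLpNorm u p (volume.restrict O) := by
  rw [← eLpNorm_map_measure (hu.mono_ac h.qmp.absolutelyContinuous) h.qmp.measurable.aemeasurable]
  refine (eLpNorm_mono_measure u h.map_le).trans ((eLpNorm_smul_measure_le _ u p _).trans ?_)
  refine mul_le_mul_left ?_ _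
  have h1 : (1 : ℝ≥0∞) ≤ (L : ℝ≥0∞) ^ n := one_le_pow₀ (by exact_mod_cast h.one)
  have h2 : (1 / p).toReal ≤ 1 := by
    simpa using ENNReal.toReal_mono ENNReal.one_ne_top (show 1 / p ≤ 1 by simpa using hp1)
  simpa using ENNReal.rpow_le_rpow_of_exponent_le h1 h2

theorem Tr.aesm_chd (h : Tr G Ω O L) {D : (Fin n → ℝ) → (Fin n → ℝ) →L[ℝ] (Fin n → ℝ)}
    (hD : AEStronglyMeasurable D (volume.restrict O)) :
    AEStronglyMeasurable (chd D G) (volume.restrict Ω) :=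
  (ContinuousLinearMap.compL ℝ (Fin n → ℝ) (Fin n → ℝ) (Fin n → ℝ)).aestronglyMeasurable_comp₂
    (hD.comp_quasiMeasurePreserving h.qmp) (measurable_fderiv ℝ G).aestronglyMeasurable

theorem Tr.eLp_chd (h : Tr G Ω O L) (hp1 : 1 ≤ p)
    {D : (Fin n → ℝ) → (Fin n → ℝ) →L[ℝ] (Fin n → ℝ)}
    (hD : AEStronglyMeasurable D (volume.restrict O)) :
    eLpNorm (chd D G) p (volume.restrict Ω) ≤
      (L : ℝ≥0∞) ^ (n + 1) * eLpNorm D p (volume.restrict O) := by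
  refine (eLpNorm_le_mul_eLpNorm_of_ae_le_mul (g := D ∘ G) (c := L) (.of_forall fun x => ?_) p).trans ?_
  · rw [mul_comm]
    exact (ContinuousLinearMap.opNorm_comp_le _ _).trans
      (mul_le_mul_of_nonneg_left (norm_fderiv_le_of_lipschitz ℝ h.lip) (norm_nonneg _))
  · rw [ENNReal.ofReal_coe_nnreal, pow_succ', mul_assoc]
    exact mul_le_mul_right (h.eLp hp1 hD) _

theorem Tr.sdist_le (h : Tr G Ω O L) (hp1 : 1 ≤ p) {w v : (Fin n → ℝ) → Fin n → ℝ}
    {Dw Dv : (Fin n → ℝ) → (Fin n → ℝ) →L[ℝ] (Fin n → ℝ)} (hw : MemW1p p O w Dw)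
    (hv : MemW1p p O v Dv) : sdist p Ω (w ∘ G) (v ∘ G) (chd Dw G) (chd Dv G) ≤
      (L : ℝ≥0∞) ^ (n + 1) * sdist p O w v Dw Dv := by
  have e : chd Dw G - chd Dv G = chd (Dw - Dv) G :=
    funext fun x => (ContinuousLinearMap.sub_comp _ _ _).symm
  rw [sdist, sdist, mul_add, e]
  refine add_le_add ((h.eLp hp1 (hw.1.1.sub hv.1.1)).trans (mul_le_mul_left ?_ _))
    (h.eLp_chd hp1 (hw.2.1.1.sub hv.2.1.1))
  exact pow_le_pow_right₀ (by exact_mod_cast h.one) n.le_succ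

theorem Tr.chain (h : Tr G Ω O L) {w : (Fin n → ℝ) → Fin n → ℝ} {M : ℝ≥0}
    (hw : LipschitzWith M w) : fderiv ℝ (w ∘ G) =ᵐ[volume.restrict Ω] chd (fderiv ℝ w) G := by
  filter_upwards [h.qmp.ae (ae_restrict_of_ae hw.ae_differentiableAt),
    ae_restrict_of_ae h.lip.ae_differentiableAt] with x h1 h2
  exact fderiv_comp x h1 h2

theorem sdist_congr {w w' v v' : (Fin n → ℝ) → Fin n → ℝ}
    {Dw Dw' Dv Dv' : (Fin n → ℝ) → (Fin n → ℝ) →L[ℝ] (Fin n → ℝ)}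
    (h1 : w =ᵐ[volume.restrict Ω] w') (h2 : v =ᵐ[volume.restrict Ω] v')
    (h3 : Dw =ᵐ[volume.restrict Ω] Dw') (h4 : Dv =ᵐ[volume.restrict Ω] Dv') :
    sdist p Ω w v Dw Dv = sdist p Ω w' v' Dw' Dv' := by
  rw [sdist, sdist, eLpNorm_congr_ae (h1.sub h2), eLpNorm_congr_ae (h3.sub h4)]

theorem memW1p_restrict {f f' : (Fin n → ℝ) → Fin n → ℝ}
    {D : (Fin n → ℝ) → (Fin n → ℝ) →L[ℝ] (Fin n → ℝ)} (h : MemW1p p Ω f D)
    (hΩ : MeasurableSet Ω) (hO : MeasurableSet O) (hs : O ⊆ Ω) (hf : EqOn f' f O) :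
    MemW1p p O f' D := by
  refine ⟨(memLp_congr_ae ((ae_restrict_mem hO).mono hf)).2
    (h.1.mono_measure (Measure.restrict_mono hs le_rfl)),
    h.2.1.mono_measure (Measure.restrict_mono hs le_rfl), fun φ h1 h2 h3 w => ?_⟩
  have h4 := h.2.2 φ h1 h2 (h3.trans hs) w
  rw [setIntegral_eq_of_subset_of_forall_sdiff_eq_zero hΩ hs (fun x hx => by
      rw [fderiv_of_notMem_tsupport ℝ fun k => hx.2 (h3 k)]
      simp),
    setIntegral_eq_of_subset_of_forall_sdiff_eq_zero hΩ hs (fun x hx => by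
      rw [image_eq_zero_of_notMem_tsupport fun k => hx.2 (h3 k), zero_smul])] at h4
  rw [← h4]
  exact setIntegral_congr_fun hO fun x hx => by simp only [hf hx]

theorem UCmp_lim {α F F' : Type} [MeasurableSpace α] {μ : Measure α} [IsFiniteMeasure μ]
    [NormedAddCommGroup F] [NormedSpace ℝ F] [NormedAddCommGroup F'] [NormedSpace ℝ F']
    (hp1 : 1 ≤ p) {a : α → ℝ} (ha : AEStronglyMeasurable a μ) {C : ℝ} (hC : ∀ x, ‖a x‖ ≤ C)
    (T : F →L[ℝ] F') {v : ℕ → α → F} {f : α → F} (hv : ∀ j, MemLp (v j) p μ) (hf : MemLp f p μ)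
    (h : Tendsto (fun j => eLpNorm (v j - f) p μ) atTop (𝓝 0)) :
    Tendsto (fun j => ∫ x, a x • T (v j x) ∂μ) atTop (𝓝 (∫ x, a x • T (f x) ∂μ)) := by
  have : Fact (1 ≤ p) := ⟨hp1⟩
  have h1 := (Lp.tendsto_Lp_iff_tendsto_eLpNorm'' v hv f hf).2 h
  have key : ∀ u : α → F, MemLp u p μ → Integrable (fun x => a x • T (u x)) μ := fun u hu =>
    (T.integrable_comp (hu.integrable hp1)).bdd_smul C ha (.of_forall hC)
  refine tendsto_integral_of_L1 _ (key f hf).1 (.of_forall fun j => key _ (hv j)) ?_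
  have h2 := ENNReal.Tendsto.const_mul (a := ENNReal.ofReal (C * ‖T‖))
    (ENNReal.Tendsto.mul_const (b := μ univ ^ (1 / (1 : ℝ≥0∞).toReal - 1 / p.toReal)) h
      (Or.inr (ENNReal.rpow_ne_top_of_nonneg (by
        rcases eq_or_ne p ⊤ with rfl | k
        · simp
        · have : 1 ≤ p.toReal := by simpa using ENNReal.toReal_mono k hp1
          simpa using inv_le_one_of_one_le₀ this) (measure_ne_top _ _))))
    (Or.inr ENNReal.ofReal_ne_top)
  rw [zero_mul, mul_zero] at h2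
  refine tendsto_of_tendsto_of_tendsto_of_le_of_le tendsto_const_nhds h2 (fun _ => zero_le)
    fun j => ?_
  rw [← eLpNorm_one_eq_lintegral_enorm]
  refine (eLpNorm_le_mul_eLpNorm_of_ae_le_mul (g := v j - f) (.of_forall fun x => ?_) 1).trans
    (mul_le_mul_right (eLpNorm_le_eLpNorm_mul_rpow_measure_univ hp1 ((hv j).1.sub hf.1)) _)
  rw [← smul_sub, ← map_sub, norm_smul, mul_assoc]
  exact mul_le_mul (hC x) (T.le_opNorm _) (norm_nonneg _) ((norm_nonneg _).trans (hC x))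

theorem memW1p_lim (hp1 : 1 ≤ p) (hb : Bornology.IsBounded Ω) {f : (Fin n → ℝ) → Fin n → ℝ}
    {D : (Fin n → ℝ) → (Fin n → ℝ) →L[ℝ] (Fin n → ℝ)} (hf : MemLp f p (volume.restrict Ω))
    (hD : MemLp D p (volume.restrict Ω))
    (h : ∀ ε : ℝ≥0∞, 0 < ε → ∃ v Dv, MemW1p p Ω v Dv ∧ sdist p Ω v f Dv D ≤ ε) :
    MemW1p p Ω f D := by
  have := isFiniteMeasure_restrict.2 (hb.measure_lt_top (μ := volume)).ne
  refine ⟨hf, hD, fun φ h1 h2 h3 w => ?_⟩
  choose v Dv k1 k2 using fun j : ℕ => h (j : ℝ≥0∞)⁻¹ (ENNReal.inv_pos.2 (ENNReal.natCast_ne_top j))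
  have c1 : Continuous fun x => fderiv ℝ φ x w := (h1.continuous_fderiv (by simp)).clm_apply
    continuous_const
  obtain ⟨C, hC⟩ := c1.bounded_above_of_compact_support (h2.fderiv_apply ℝ w)
  obtain ⟨C', hC'⟩ := h1.continuous.bounded_above_of_compact_support h2
  have t1 := UCmp_lim hp1 c1.aestronglyMeasurable hC (ContinuousLinearMap.id ℝ _)
    (fun j => (k1 j).1) hf (tendsto_of_tendsto_of_tendsto_of_le_of_le tendsto_const_nhds
      ENNReal.tendsto_inv_nat_nhds_zero (fun _ => zero_le) fun j => le_self_add.trans (k2 j))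
  have t2 := UCmp_lim hp1 h1.continuous.aestronglyMeasurable hC'
    (ContinuousLinearMap.apply ℝ (Fin n → ℝ) w) (fun j => (k1 j).2.1) hD
    (tendsto_of_tendsto_of_tendsto_of_le_of_le tendsto_const_nhds
      ENNReal.tendsto_inv_nat_nhds_zero (fun _ => zero_le) fun j => le_add_self.trans (k2 j))
  exact tendsto_nhds_unique t1 (t2.neg.congr fun j => ((k1 j).2.2 φ h1 h2 h3 w).symm)

end BEp
end
end
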