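import Pool.Agent.Work.MP_f0515e_an.Pos.HHEP0

/-!
EXPORT (HOM). Concatenation, fillings of loops.

Plan.  `GFill.free`: let `K` fill `Λ (·, 1)`.  Apply `hep_gen` on `(E × ℝ) × ℝ` with the involution
`((p, s), r) ↦ ((i p, s), r)`, `j = -1`, `O = {0}ᶜ`, `u = K`, `B = ∅`,
`A = {((p, s), r) | p ∈ J, s, r ∈ [0, 1], s = 0 ∨ s = 1 ∨ r = 0 ∨ r = 1}` and
`h (((p, s), r), t) = (1 - r) • Λ ((p, s), 1 - t) + r • Λ ((p, 0), 1 - t)`; the filling is `H (·, 1)`.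
`Fill.conj`: with `C = cat H (cat L (rev H))` use `Λ ((p, s), t) = C (p, (1 - s) * (t / 2) + s * (1 - t / 4))`
(both ends are `H (p, t)`; for `t = 1` it is `L (p, s)`).
`OH.static`: `hep_gen` on `(E × E) × ℝ` with `u = H`, `A = J ×ˢ [0, 1]`, `B = {s = 0 ∨ s = 1}`, `h = K`.
-/

open Set Metric Filter Topology Function BEv
open scoped NNReal

noncomputable section
namespace BEp

variable {E F G : Type} [NormedAddCommGroup E] [NormedSpace ℝ E] [FiniteDimensional ℝ E]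
  [NormedAddCommGroup F] [NormedSpace ℝ F] [FiniteDimensional ℝ F]
  [NormedAddCommGroup G] [NormedSpace ℝ G] [FiniteDimensional ℝ G]

theorem cat_cont {H K : E × ℝ → F} (hH : Continuous H) (hK : Continuous K) :
    Continuous (cat H K) := by
  unfold cat
  fun_prop

theorem cat_left {X : Type} (H K : X × ℝ → F) (x : X) {s : ℝ} (hs : s ≤ 1 / 2) :
    cat H K (x, s) = H (x, 2 * s) := by
  simp only [cat]
  rw [min_eq_left (by linarith), max_eq_right (by linarith), add_sub_cancel_right]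

theorem cat_right {X : Type} {H K : X × ℝ → F} {x : X} (h : H (x, 1) = K (x, 0)) {s : ℝ}
    (hs : 1 / 2 ≤ s) : cat H K (x, s) = K (x, 2 * s - 1) := by
  simp only [cat]
  rw [min_eq_right (by linarith), max_eq_left (by linarith), h, add_sub_cancel_left]

theorem OH.mono {D D' : Set (E × E)} {F0 F1 : E × E → F} {H : (E × E) × ℝ → F}
    (h : OH D F0 F1 H) (hD : D' ⊆ D) : OH D' F0 F1 H :=
  ⟨h.cont, h.odd, fun p hp => h.ne p (hD hp), fun p hp => h.zero p (hD hp),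
    fun p hp => h.one p (hD hp)⟩

theorem OH.cat {D : Set (E × E)} {F0 F1 F2 : E × E → F} {H K : (E × E) × ℝ → F}
    (h : OH D F0 F1 H) (k : OH D F1 F2 K) : OH D F0 F2 (cat H K) := by
  have e : ∀ p ∈ D, H (p, 1) = K (p, 0) := fun p hp => (h.one p hp).trans (k.zero p hp).symm
  refine ⟨cat_cont h.cont k.cont, fun p s => ?_, fun p hp s hs => ?_, fun p hp => ?_,
    fun p hp => ?_⟩
  · simp only [BEp.cat, h.odd, k.odd]
    abel
  · rcases le_total s (1 / 2) with h1 | h1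
    · rw [cat_left _ _ _ h1]
      exact h.ne p hp _ ⟨by linarith [hs.1], by linarith⟩
    · rw [cat_right (e p hp) h1]
      exact k.ne p hp _ ⟨by linarith, by linarith [hs.2]⟩
  · rw [cat_left _ _ _ (by norm_num), mul_zero, h.zero p hp]
  · rw [cat_right (e p hp) (by norm_num), ← k.one p hp]
    norm_num

theorem OH.rev {D : Set (E × E)} {F0 F1 : E × E → F} {H : (E × E) × ℝ → F}
    (h : OH D F0 F1 H) : OH D F1 F0 (rev H) :=
  ⟨h.cont.comp (by fun_prop), fun p s => h.odd p _,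
    fun p hp s hs => h.ne p hp _ ⟨by linarith [hs.2], by linarith [hs.1]⟩,
    fun p hp => by simp [BEp.rev, h.one p hp], fun p hp => by simp [BEp.rev, h.zero p hp]⟩

/-- `Fill` for an arbitrary involution. -/
def GFill {X : Type} [TopologicalSpace X] (i : X → X) (J : Set X) (H : X × ℝ → F) : Prop :=
  ∃ K : (X × ℝ) × ℝ → F, Continuous K ∧ (∀ p s r, K ((i p, s), r) = -K ((p, s), r)) ∧
    ∀ p ∈ J, ∀ s ∈ Icc (0 : ℝ) 1,
      (∀ r ∈ Icc (0 : ℝ) 1, K ((p, s), r) ≠ 0) ∧ K ((p, s), 0) = H (p, s) ∧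
      K ((p, s), 1) = H (p, 0) ∧ K ((p, 0), s) = H (p, 0) ∧ K ((p, 1), s) = H (p, 0)

theorem fill_iff {J : Set (E × E)} {H : (E × E) × ℝ → F} : Fill J H ↔ GFill Prod.swap J H :=
  Iff.rfl

theorem GFill.congr {X : Type} [TopologicalSpace X] {i : X → X} {J : Set X} {H H' : X × ℝ → F}
    (h : GFill i J H) (e : ∀ p ∈ J, ∀ s ∈ Icc (0 : ℝ) 1, H' (p, s) = H (p, s)) :
    GFill i J H' := by
  obtain ⟨K, k1, k2, k3⟩ := h
  refine ⟨K, k1, k2, fun p hp s hs => ?_⟩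
  rw [e p hp s hs, e p hp 0 ⟨le_rfl, zero_le_one⟩]
  exact k3 p hp s hs

theorem GFill.comp {X X' : Type} [TopologicalSpace X] [TopologicalSpace X'] {i : X → X}
    {i' : X' → X'} {J : Set X} {J' : Set X'} {H : X × ℝ → F} (h : GFill i J H) {φ : X' → X}
    (hφ : Continuous φ) (ho : ∀ p, φ (i' p) = i (φ p)) (hm : MapsTo φ J' J) :
    GFill i' J' (fun q => H (φ q.1, q.2)) := by
  obtain ⟨K, k1, k2, k3⟩ := h
  exact ⟨fun q => K ((φ q.1.1, q.1.2), q.2), by fun_prop, fun p s r => by simp only [ho, k2],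
    fun p hp s hs => k3 _ (hm hp) s hs⟩

/-- Invariance under free homotopies of loops. -/
theorem GFill.free {i : E → E} (hic : Continuous i) (hi : ∀ x, i (i x) = x) {J : Set E}
    (hJ : IsClosed J) (hiJ : ∀ x ∈ J, i x ∈ J) {Λ : (E × ℝ) × ℝ → F} (hΛ : Continuous Λ)
    (ho : ∀ p ∈ J, ∀ s ∈ Icc (0 : ℝ) 1, ∀ t ∈ Icc (0 : ℝ) 1, Λ ((i p, s), t) = -Λ ((p, s), t))
    (hne : ∀ p ∈ J, ∀ s ∈ Icc (0 : ℝ) 1, ∀ t ∈ Icc (0 : ℝ) 1, Λ ((p, s), t) ≠ 0)
    (hl : ∀ p ∈ J, ∀ t ∈ Icc (0 : ℝ) 1, Λ ((p, 1), t) = Λ ((p, 0), t))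
    (h1 : GFill i J (fun q => Λ (q, 1))) : GFill i J (fun q => Λ (q, 0)) := by
  obtain ⟨K, k1, k2, k3⟩ := h1
  have i0 : (0 : ℝ) ∈ Icc (0 : ℝ) 1 := ⟨le_rfl, zero_le_one⟩
  have i1 : (1 : ℝ) ∈ Icc (0 : ℝ) 1 := ⟨zero_le_one, le_rfl⟩
  have i2 : ∀ t ∈ Icc (0 : ℝ) 1, 1 - t ∈ Icc (0 : ℝ) 1 := fun t ht =>
    ⟨by linarith [ht.2], by linarith [ht.1]⟩
  have hA : IsClosed {x : (E × ℝ) × ℝ | x.1.1 ∈ J ∧ x.1.2 ∈ Icc (0 : ℝ) 1 ∧ x.2 ∈ Icc (0 : ℝ) 1 ∧
      (x.2 = 0 ∨ x.2 = 1 ∨ x.1.2 = 0 ∨ x.1.2 = 1)} :=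
    (hJ.preimage (by fun_prop)).inter <| (isClosed_Icc.preimage (by fun_prop)).inter <|
      (isClosed_Icc.preimage continuous_snd).inter <|
        (isClosed_eq continuous_snd continuous_const).union <|
        (isClosed_eq continuous_snd continuous_const).union <|
        (isClosed_eq continuous_fst.snd continuous_const).union
          (isClosed_eq continuous_fst.snd continuous_const)
  have e1 : ∀ p ∈ J, ∀ s r : ℝ, (r = 1 ∨ s = 0 ∨ s = 1) → ∀ t ∈ Icc (0 : ℝ) 1,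
      (1 - r) • Λ ((p, s), t) + r • Λ ((p, 0), t) = Λ ((p, 0), t) := by
    rintro p hp s r (rfl | rfl | rfl) t ht
    · simp
    · rw [← add_smul, sub_add_cancel, one_smul]
    · rw [hl p hp t ht, ← add_smul, sub_add_cancel, one_smul]
  obtain ⟨H, g1, g2, -, g3, -, g4⟩ := hep_gen (i := fun x : (E × ℝ) × ℝ => ((i x.1.1, x.1.2), x.2))
    (by fun_prop) (fun x => by simp [hi]) (-ContinuousLinearMap.id ℝ F) (fun y => by simp) hA
    isClosed_empty (fun x hx => ⟨hiJ _ hx.1, hx.2⟩) (fun _ hx => hx.elim)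
    (O := {0}ᶜ) isOpen_compl_singleton (fun y hy => by simpa using hy) k1
    (fun x => by simpa using k2 x.1.1 x.1.2 x.2)
    (h := fun q => (1 - q.1.2) • Λ (q.1.1, 1 - q.2) + q.1.2 • Λ ((q.1.1.1, 0), 1 - q.2))
    (by fun_prop)
    (by
      rintro ⟨⟨p, s⟩, r⟩ ⟨hp, hs, -⟩ t ht
      simp only [ho p hp s hs _ (i2 t ht), ho p hp 0 i0 _ (i2 t ht)]
      simp [add_comm])
    (by
      rintro ⟨⟨p, s⟩, r⟩ ⟨hp, hs, hr, rfl | h⟩
      · simpa using (k3 p hp s hs).2.1.symm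
      · simp only [sub_zero, e1 p hp s r h 1 i1]
        rcases h with rfl | rfl | rfl
        · exact (k3 p hp s hs).2.2.1.symm
        · exact (k3 p hp r hr).2.2.2.1.symm
        · exact (k3 p hp r hr).2.2.2.2.symm)
    (by
      rintro ⟨⟨p, s⟩, r⟩ ⟨hp, hs, hr, rfl | h⟩ t ht
      · simpa using hne p hp s hs _ (i2 t ht)
      · simp only [e1 p hp s r h _ (i2 t ht)]
        exact hne p hp 0 i0 _ (i2 t ht))
    (fun _ hx => hx.2.elim)
  refine ⟨fun q => H (q, 1), by fun_prop, fun p s r => by simpa using g2 ((p, s), r) 1,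
    fun p hp s hs => ⟨fun r hr => g4 _ ((k3 p hp s hs).1 r hr) 1 i1, ?_, ?_, ?_, ?_⟩⟩
  · simpa using g3 ((p, s), 0) ⟨hp, hs, i0, Or.inl rfl⟩ 1 i1
  · simpa using g3 ((p, s), 1) ⟨hp, hs, i1, Or.inr (Or.inl rfl)⟩ 1 i1
  · have := g3 ((p, 0), s) ⟨hp, i0, hs, Or.inr (Or.inr (Or.inl rfl))⟩ 1 i1
    simp only [sub_self, e1 p hp 0 s (Or.inr (Or.inl rfl)) 0 i0] at this
    exact this
  · have := g3 ((p, 1), s) ⟨hp, i1, hs, Or.inr (Or.inr (Or.inr rfl))⟩ 1 i1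
    simp only [sub_self, e1 p hp 1 s (Or.inr (Or.inr rfl)) 0 i0] at this
    exact this

theorem cat_zero {X : Type} (H K : X × ℝ → F) (x : X) : cat H K (x, 0) = H (x, 0) := by
  rw [cat_left _ _ _ (by norm_num), mul_zero]

theorem cat_one {X : Type} {H K : X × ℝ → F} {x : X} (h : H (x, 1) = K (x, 0)) :
    cat H K (x, 1) = K (x, 1) := by
  rw [cat_right h (by norm_num)]
  norm_num

theorem cat_mem {X : Type} {H K : X × ℝ → F} {x : X} {S : Set F} (h : H (x, 1) = K (x, 0))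
    (hH : ∀ s ∈ Icc (0 : ℝ) 1, H (x, s) ∈ S) (hK : ∀ s ∈ Icc (0 : ℝ) 1, K (x, s) ∈ S) :
    ∀ s ∈ Icc (0 : ℝ) 1, cat H K (x, s) ∈ S := by
  intro s hs
  rcases le_total s (1 / 2) with h1 | h1
  · rw [cat_left _ _ _ h1]
    exact hH _ ⟨by linarith [hs.1], by linarith⟩
  · rw [cat_right h h1]
    exact hK _ ⟨by linarith, by linarith [hs.2]⟩

theorem cat_ne {X : Type} {H K : X × ℝ → F} {x : X} (h : H (x, 1) = K (x, 0))
    (hH : ∀ s ∈ Icc (0 : ℝ) 1, H (x, s) ≠ 0) (hK : ∀ s ∈ Icc (0 : ℝ) 1, K (x, s) ≠ 0) :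
    ∀ s ∈ Icc (0 : ℝ) 1, cat H K (x, s) ≠ 0 :=
  cat_mem (S := {0}ᶜ) h hH hK

theorem cat_eqv {X : Type} {H K : X × ℝ → F} {i : X → X} (j : F →L[ℝ] F)
    (hH : ∀ x s, H (i x, s) = j (H (x, s))) (hK : ∀ x s, K (i x, s) = j (K (x, s))) (x : X)
    (s : ℝ) : cat H K (i x, s) = j (cat H K (x, s)) := by
  simp only [cat, hH, hK, map_sub, map_add]

theorem cat_odd {X : Type} {H K : X × ℝ → F} {i : X → X}
    (hH : ∀ x s, H (i x, s) = -H (x, s)) (hK : ∀ x s, K (i x, s) = -K (x, s)) (x : X)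
    (s : ℝ) : cat H K (i x, s) = -cat H K (x, s) := by
  simp only [cat, hH, hK]
  abel

/-- A loop conjugate to a fillable loop is fillable. -/
theorem Fill.conj {J : Set (E × E)} {F0 F1 : E × E → F} {H L : (E × E) × ℝ → F}
    (hJ : IsCompact J) (hs : Symm J) (h : OH J F0 F1 H) (l : OH J F1 F1 L) (hL : Fill J L) :
    Fill J (cat H (cat L (rev H))) := by
  have c := h.cat (l.cat h.rev)
  have e1 : ∀ p ∈ J, H (p, 1) = cat L (rev H) (p, 0) := fun p hp =>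
    (h.one p hp).trans ((l.cat h.rev).zero p hp).symm
  have e2 : ∀ p ∈ J, L (p, 1) = rev H (p, 0) := fun p hp =>
    (l.one p hp).trans (h.rev.zero p hp).symm
  have hc := c.cont
  refine GFill.congr (GFill.free continuous_swap Prod.swap_swap hJ.isClosed hs
    (Λ := fun q => cat H (cat L (rev H))
      (q.1.1, (1 - q.1.2) * (q.2 / 2) + q.1.2 * (1 - q.2 / 4))) (by fun_prop)
    (fun p _ s _ t _ => c.odd p _)
    (fun p hp s hs t ht => c.ne p hp _ ⟨by nlinarith [hs.1, hs.2, ht.1, ht.2],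
      by nlinarith [hs.1, hs.2, ht.1, ht.2]⟩)
    (fun p hp t ht => ?_) (GFill.congr hL fun p hp s hs => ?_)) fun p _ s _ => by simp
  · simp only
    rw [cat_right (e1 p hp) (by linarith [ht.2]), cat_right (e2 p hp) (by linarith [ht.2]),
      cat_left _ _ _ (by linarith [ht.2]), rev]
    congr 2
    ring
  · simp only
    rw [cat_right (e1 p hp) (by linarith [hs.1]), cat_left _ _ _ (by linarith [hs.2])]
    congr 2
    ring

theorem Fill.congr {J : Set (E × E)} {H H' : (E × E) × ℝ → F} (h : Fill J H)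
    (e : ∀ p ∈ J, ∀ s ∈ Icc (0 : ℝ) 1, H' (p, s) = H (p, s)) : Fill J H' :=
  GFill.congr h e

/-- A homotopy whose restriction to `J` is a fillable loop can be made static on `J`. -/
theorem OH.static {D J : Set (E × E)} {F0 F1 : E × E → F} {H : (E × E) × ℝ → F}
    (hD : IsCompact D) (hsD : Symm D) (hJ : IsClosed J) (hJD : J ⊆ D) (hsJ : Symm J)
    (h : OH D F0 F1 H) (hF : Fill J H) :
    ∃ H', OH D F0 F1 H' ∧ ∀ p ∈ J, ∀ s ∈ Icc (0 : ℝ) 1, H' (p, s) = F0 p := by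
  obtain ⟨K, k1, k2, k3⟩ := hF
  have i0 : (0 : ℝ) ∈ Icc (0 : ℝ) 1 := ⟨le_rfl, zero_le_one⟩
  have i1 : (1 : ℝ) ∈ Icc (0 : ℝ) 1 := ⟨zero_le_one, le_rfl⟩
  obtain ⟨W, g1, g2, -, g3, g4, g5⟩ := hep_gen (i := fun x : (E × E) × ℝ => (x.1.swap, x.2))
    (by fun_prop) (fun x => by simp) (-ContinuousLinearMap.id ℝ F) (fun y => by simp)
    (hJ.prod isClosed_Icc) (B := {x | x.2 = 0 ∨ x.2 = 1})
    ((isClosed_eq continuous_snd continuous_const).union
      (isClosed_eq continuous_snd continuous_const))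
    (fun x hx => ⟨hsJ _ hx.1, hx.2⟩) (fun _ hx => hx)
    (O := {0}ᶜ) isOpen_compl_singleton (fun y hy => by simpa using hy) h.cont
    (fun x => by simpa using h.odd x.1 x.2) k1 (fun x _ s _ => by simpa using k2 x.1 x.2 s)
    (fun x hx => (k3 x.1 hx.1 x.2 hx.2).2.1) (fun x hx => (k3 x.1 hx.1 x.2 hx.2).1)
    (by
      rintro ⟨p, r⟩ ⟨⟨hp, -⟩, rfl | rfl⟩ s hs
      · exact (k3 p hp s hs).2.2.2.1
      · exact (k3 p hp s hs).2.2.2.2.trans
          ((k3 p hp 0 i0).2.2.2.2.symm.trans (k3 p hp 1 i1).2.1))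
  exact ⟨fun q => W (q, 1), ⟨by fun_prop, fun p s => by simpa using g2 (p, s) 1,
    fun p hp s hs => g5 _ (h.ne p hp s hs) 1 i1,
    fun p hp => (g4 (p, 0) (Or.inl rfl) 1).trans (h.zero p hp),
    fun p hp => (g4 (p, 1) (Or.inr rfl) 1).trans (h.one p hp)⟩,
    fun p hp s hs => (g3 (p, s) ⟨hp, hs⟩ 1 i1).trans
      ((k3 p hp s hs).2.2.1.trans (h.zero p (hJD hp)))⟩

end BEp
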