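import Pool.Agent.Work.MP_f0515e_an.Pos.PLGP
import Pool.Agent.Work.MP_f0515e_an.Pos.HHEP

/-!
EXPORT (HOM). Avoiding small closed sets: H2 of the plan.

Plan.  `avoid`: (`Bad = ∅` trivial.)  Take `0 < η ≤ ε` with `2 η ≤ infDist (u x) Bad` on the compact set
`A ∩ P`; `C = {x ∈ P | infDist (u x) Bad ≤ η}` is compact and disjoint from `A`; Urysohn `χ = 1` on `C`,
`0` on `A`; `g` smooth with `‖g - u‖ < η / 2` (`Continuous.exists_contDiff_approx`); the image of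
`(P \ A) ×ˢ Bad` under `(x, b) ↦ b - g x` is `Sm (d + d')` (`ContDiff.locallyLipschitz`), so some
`‖w‖ < η / 2` avoids it (`Sm.dense`); `v = u + χ • (g + w - u)`.
`avoid_gen`: `IsCompact.induction_on` for the property of `S`: for all `A u ε` as in the statement there is
`v` as in the statement but missing `Bad` only on `closure S ∩ P`.  Union: apply to `S` with `ε / 2`, then to
`T` with `A ∪ closure S ∪ i ⁻¹' closure S`.  Local step at `x₀`: `r` with `i` mapping `ball x₀ (2 r)` off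
itself; `avoid` on `P ∩ closedBall x₀ r` gives `v₀`; `δ = χ • (v₀ - u)` with `χ = 1` on the small ball and
`0` off the large one; `v x = u x + δ x + j (δ (i x))` (use `ε / (1 + ‖j‖)`).
`GFill.of_sm`: `avoid_gen` on `(J ×ˢ [0,1]) ×ˢ [0,1]` relative to `{s = 0 ∨ s = 1 ∨ r = 0 ∨ r = 1}` for
`(1 - r) • H (p, s) + r • H (p, 0)`, `Bad = {0}`; `i` is free on `J` because `H` is odd and nonzero.
`odd_htp_of_sm`: the same on `J ×ˢ [0,1]` for `(1 - s) • u + s • v`.
-/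

open Set Metric Filter Topology Function BEv
open scoped NNReal

noncomputable section
namespace BEp

variable {E F G : Type} [NormedAddCommGroup E] [NormedSpace ℝ E] [FiniteDimensional ℝ E]
  [NormedAddCommGroup F] [NormedSpace ℝ F] [FiniteDimensional ℝ F]
  [NormedAddCommGroup G] [NormedSpace ℝ G] [FiniteDimensional ℝ G]

theorem avoid {d d' : ℕ} {P A : Set E} (hP : IsCompact P) (hd : Sm d (P \ A))
    (hA : IsClosed A)
    {Bad : Set F} (hB : IsClosed Bad) (hd' : Sm d' Bad) (hdim : d + d' < Module.finrank ℝ F)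
    {u : E → F} (hu : Continuous u) (huA : ∀ x ∈ A ∩ P, u x ∉ Bad) {ε : ℝ} (hε : 0 < ε) :
    ∃ v : E → F, Continuous v ∧ EqOn v u A ∧ (∀ x, ‖v x - u x‖ ≤ ε) ∧ ∀ x ∈ P, v x ∉ Bad := by
  obtain ⟨δ, hδ, hdj⟩ := Disjoint.exists_cthickenings (s := u '' (A ∩ P)) (t := Bad)
    (Set.disjoint_left.2 (by
      rintro _ ⟨x, hx, rfl⟩
      exact huA x hx)) ((hP.inter_left hA).image hu) hB
  have hη : 0 < min δ ε := lt_min hδ hε
  have hη1 : min δ ε ≤ δ := min_le_left _ _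
  have hη2 : min δ ε ≤ ε := min_le_right _ _
  generalize min δ ε = η at hη hη1 hη2
  have hAC : Disjoint A (P ∩ u ⁻¹' cthickening η Bad) := Set.disjoint_left.2 fun x hx hx' =>
    Set.disjoint_left.1 hdj (self_subset_cthickening _ ⟨x, ⟨hx, hx'.1⟩, rfl⟩)
      (cthickening_mono hη1 _ hx'.2)
  obtain ⟨χ, h0, h1, h01⟩ := exists_continuous_zero_one_of_isClosed hA
    (hP.isClosed.inter (isClosed_cthickening.preimage hu)) hAC
  obtain ⟨g, hg, hgu, -⟩ := hu.exists_contDiff_approx 1 (continuous_const (y := η / 2))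
    fun _ => half_pos hη
  have hφ : ContDiff ℝ 1 fun q : E × F => q.2 - g q.1 := contDiff_snd.sub (hg.comp contDiff_fst)
  obtain ⟨w, hw, hw'⟩ := (((hd.prod hd').image hφ.locallyLipschitz.locallyLipschitzOn).dense
    hdim).exists_mem_open isOpen_ball ⟨0, mem_ball_self (half_pos hη)⟩
  have hn : ∀ x, ‖u x + χ x • (g x + w - u x) - u x‖ ≤ η := fun x => by
    have e1 := hgu x
    rw [dist_eq_norm] at e1
    rw [mem_ball_zero_iff] at hw'
    have e2 : ‖g x + w - u x‖ ≤ ‖g x - u x‖ + ‖w‖ := by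
      rw [add_sub_right_comm]
      exact norm_add_le _ _
    rw [add_sub_cancel_left, norm_smul, Real.norm_of_nonneg (h01 x).1]
    nlinarith [(h01 x).1, (h01 x).2, norm_nonneg (g x + w - u x)]
  refine ⟨fun x => u x + χ x • (g x + w - u x),
    hu.add (χ.continuous.smul ((hg.continuous.add continuous_const).sub hu)), fun x hx => ?_,
    fun x => (hn x).trans hη2, fun x hx hb => ?_⟩
  · simp [h0 hx]
  · have hc : x ∈ P ∩ u ⁻¹' cthickening η Bad :=
      ⟨hx, mem_cthickening_of_dist_le _ _ _ _ hb (by rw [dist_comm, dist_eq_norm]; exact hn x)⟩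
    refine hw ⟨(x, _), ⟨⟨hx, fun h => Set.disjoint_left.1 hAC h hc⟩, hb⟩, ?_⟩
    simp [h1 hc]

theorem avoid_gen {i : E → E} (hic : Continuous i) (hi : ∀ x, i (i x) = x) (j : F →L[ℝ] F)
    (hj : ∀ y, j (j y) = y) {d d' : ℕ} {P A : Set E} (hP : IsCompact P) (hd : Sm d (P \ A))
    (hA : IsClosed A) (hiP : ∀ x ∈ P, i x ∈ P) (hiA : ∀ x ∈ A, i x ∈ A)
    (hfree : ∀ x ∈ P, i x ≠ x) {Bad : Set F} (hB : IsClosed Bad) (hd' : Sm d' Bad)
    (hBs : ∀ y ∈ Bad, j y ∈ Bad) (hdim : d + d' < Module.finrank ℝ F) {u : E → F}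
    (hu : Continuous u) (ho : ∀ x, u (i x) = j (u x)) (huA : ∀ x ∈ A ∩ P, u x ∉ Bad)
    {ε : ℝ} (hε : 0 < ε) :
    ∃ v : E → F, Continuous v ∧ (∀ x, v (i x) = j (v x)) ∧ EqOn v u A ∧
      (∀ x, ‖v x - u x‖ ≤ ε) ∧ ∀ x ∈ P, v x ∉ Bad := by
  have key : ∀ A : Set E, IsClosed A → Sm d (P \ A) → (∀ x ∈ A, i x ∈ A) → ∀ u : E → F,
      Continuous u → (∀ x, u (i x) = j (u x)) → (∀ x ∈ A ∩ P, u x ∉ Bad) → ∀ ε : ℝ, 0 < ε →
      ∃ v : E → F, Continuous v ∧ (∀ x, v (i x) = j (v x)) ∧ EqOn v u A ∧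
        (∀ x, ‖v x - u x‖ ≤ ε) ∧ ∀ x ∈ closure P ∩ P, v x ∉ Bad := by
    refine hP.induction_on (p := fun S => ∀ A : Set E, IsClosed A → Sm d (P \ A) →
      (∀ x ∈ A, i x ∈ A) → ∀ u : E → F, Continuous u → (∀ x, u (i x) = j (u x)) →
      (∀ x ∈ A ∩ P, u x ∉ Bad) → ∀ ε : ℝ, 0 < ε →
      ∃ v : E → F, Continuous v ∧ (∀ x, v (i x) = j (v x)) ∧ EqOn v u A ∧
        (∀ x, ‖v x - u x‖ ≤ ε) ∧ ∀ x ∈ closure S ∩ P, v x ∉ Bad) ?_ ?_ ?_ ?_
    · intro A _ _ _ u hu ho _ ε hε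
      exact ⟨u, hu, ho, fun _ _ => rfl, fun x => by simpa using hε.le, by simp⟩
    · intro S T hST h A hA hd hiA u hu ho huA ε hε
      obtain ⟨v, h1, h2, h3, h4, h5⟩ := h A hA hd hiA u hu ho huA ε hε
      exact ⟨v, h1, h2, h3, h4, fun x hx => h5 x ⟨closure_mono hST hx.1, hx.2⟩⟩
    · intro S T hS hT A hA hd hiA u hu ho huA ε hε
      obtain ⟨v, h1, h2, h3, h4, h5⟩ := hS A hA hd hiA u hu ho huA _ (half_pos hε)
      obtain ⟨w, k1, k2, k3, k4, k5⟩ := hT (A ∪ closure S ∪ i ⁻¹' closure S)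
        ((hA.union isClosed_closure).union (isClosed_closure.preimage hic))
        (hd.mono fun x hx => ⟨hx.1, fun h => hx.2 (Or.inl (Or.inl h))⟩)
        (by
          rintro x ((hx | hx) | hx)
          · exact Or.inl (Or.inl (hiA x hx))
          · exact Or.inr (by rwa [mem_preimage, hi])
          · exact Or.inl (Or.inr hx)) v h1 h2
        (by
          rintro x ⟨(hx | hx) | hx, hxP⟩
          · rw [h3 hx]
            exact huA x ⟨hx, hxP⟩
          · exact h5 x ⟨hx, hxP⟩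
          · exact fun hb => h5 (i x) ⟨hx, hiP x hxP⟩ (h2 x ▸ hBs _ hb)) _ (half_pos hε)
      refine ⟨w, k1, k2, fun x hx => (k3 (Or.inl (Or.inl hx))).trans (h3 hx), fun x => ?_,
        fun x hx => ?_⟩
      · have := norm_sub_le_norm_sub_add_norm_sub (w x) (v x) (u x)
        linarith [h4 x, k4 x]
      · rw [closure_union] at hx
        rcases hx.1 with h | h
        · rw [k3 (Or.inl (Or.inr h))]
          exact h5 x ⟨h, hx.2⟩
        · exact k5 x ⟨h, hx.2⟩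
    · intro x₀ hx₀
      have hD : 0 < dist (i x₀) x₀ := dist_pos.2 (hfree x₀ hx₀)
      obtain ⟨δ, hδ, hδ'⟩ := Metric.continuous_iff.1 hic x₀ _ (half_pos hD)
      obtain ⟨R, hR, hoff⟩ : ∃ R > 0, ∀ x ∈ ball x₀ R, i x ∉ ball x₀ R := by
        refine ⟨min δ (dist (i x₀) x₀ / 2), lt_min hδ (half_pos hD), fun x hx hx' => ?_⟩
        rw [mem_ball, lt_min_iff] at hx hx'
        have := dist_triangle_left (i x₀) x₀ (i x)
        linarith [hδ' x hx.1, hx'.2]
      have hsub : closedBall x₀ (R / 2) ⊆ ball x₀ R := closedBall_subset_ball (half_lt_self hR)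
      refine ⟨ball x₀ (R / 2), mem_nhdsWithin_of_mem_nhds (ball_mem_nhds _ (half_pos hR)), ?_⟩
      intro A hA hd hiA u hu ho huA ε hε
      have hj1 : 0 < 1 + ‖j‖ := by positivity
      obtain ⟨v, h1, h2, h3, h4⟩ := avoid (hP.inter_right (isClosed_closedBall (x := x₀) (ε := R / 2)))
        (hd.mono fun x hx => ⟨hx.1.1, hx.2⟩) hA hB hd' hdim hu
        (fun x hx => huA x ⟨hx.1, hx.2.1⟩) (div_pos hε hj1)
      obtain ⟨χ, h0, h1', h01⟩ := exists_continuous_zero_one_of_isClosed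
        (isOpen_ball (x := x₀) (ε := R)).isClosed_compl (isClosed_closedBall (x := x₀) (ε := R / 2))
        (Set.disjoint_left.2 fun x hx hx' => hx (hsub hx'))
      have hc : Continuous fun x => χ x • (v x - u x) := χ.continuous.smul (h1.sub hu)
      have hn : ∀ x, ‖χ x • (v x - u x)‖ ≤ ε / (1 + ‖j‖) := fun x => by
        rw [norm_smul, Real.norm_of_nonneg (h01 x).1]
        nlinarith [(h01 x).1, (h01 x).2, norm_nonneg (v x - u x), h3 x]
      refine ⟨fun x => u x + χ x • (v x - u x) + j (χ (i x) • (v (i x) - u (i x))),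
        (hu.add hc).add (j.continuous.comp (hc.comp hic)), fun x => ?_, fun x hx => ?_,
        fun x => ?_, fun x hx => ?_⟩
      · simp only [hi, map_add, hj, ho x]
        abel
      · simp [h2 hx, h2 (hiA x hx)]
      · dsimp only
        rw [add_assoc, add_sub_cancel_left]
        refine (norm_add_le _ _).trans ?_
        have e1 := (j.le_opNorm _).trans (mul_le_mul_of_nonneg_left (hn (i x)) (norm_nonneg j))
        have e2 : ε / (1 + ‖j‖) + ‖j‖ * (ε / (1 + ‖j‖)) = ε := by field_simp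
        linarith [hn x]
      · have hx' := closure_ball_subset_closedBall hx.1
        have e1 : χ x = 1 := h1' hx'
        have e2 : χ (i x) = 0 := h0 (hoff x (hsub hx'))
        simpa [e1, e2] using h4 x ⟨hx.2, hx'⟩
  obtain ⟨v, h1, h2, h3, h4, h5⟩ := key A hA hd hiA u hu ho huA ε hε
  exact ⟨v, h1, h2, h3, h4, fun x hx => h5 x ⟨subset_closure hx, hx⟩⟩

theorem avoid_odd (i : E →L[ℝ] E) (hi : ∀ x, i (i x) = x) {d d' : ℕ} {P A : Set E}
    (hP : IsCompact P) (hd : Sm d (P \ A)) (hA : IsClosed A) (hiP : ∀ x ∈ P, i x ∈ P)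
    (hiA : ∀ x ∈ A, i x ∈ A) (hfree : ∀ x ∈ P, i x ≠ x) {Bad : Set F} (hB : IsClosed Bad)
    (hd' : Sm d' Bad) (hBs : ∀ y ∈ Bad, -y ∈ Bad) (hdim : d + d' < Module.finrank ℝ F)
    {u : E → F} (hu : Continuous u) (ho : ∀ x, u (i x) = -u x) (huA : ∀ x ∈ A ∩ P, u x ∉ Bad)
    {ε : ℝ} (hε : 0 < ε) :
    ∃ v : E → F, Continuous v ∧ (∀ x, v (i x) = -v x) ∧ EqOn v u A ∧ (∀ x, ‖v x - u x‖ ≤ ε) ∧
      ∀ x ∈ P, v x ∉ Bad :=
  avoid_gen i.continuous hi (-ContinuousLinearMap.id ℝ F) (fun y => by simp) hP hd hA hiP hiA hfree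
    hB hd' hBs hdim hu ho huA hε

omit [FiniteDimensional ℝ F] in
theorem havoid_neg {y : F} (h : y = -y) : y = 0 := by
  have : (2 : ℝ) • y = 0 := by
    rw [two_smul]
    exact add_eq_zero_iff_eq_neg.2 h
  simpa using this

/-- Odd loops on a small set are fillable. -/
theorem GFill.of_sm {i : E → E} (hic : Continuous i) (hi : ∀ x, i (i x) = x) {d : ℕ} {J : Set E}
    (hJ : IsCompact J) (hd : Sm d J) (hiJ : ∀ x ∈ J, i x ∈ J)
    (hdim : d + 2 < Module.finrank ℝ F) {H : E × ℝ → F} (hH : Continuous H)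
    (ho : ∀ x s, H (i x, s) = -H (x, s)) (hne : ∀ x ∈ J, ∀ s ∈ Icc (0 : ℝ) 1, H (x, s) ≠ 0)
    (hl : ∀ x ∈ J, H (x, 1) = H (x, 0)) : GFill i J H := by
  have h0 : (0 : ℝ) ∈ Icc (0 : ℝ) 1 := ⟨le_rfl, zero_le_one⟩
  have e : ∀ (r : ℝ) (y : F), (1 - r) • y + r • y = y := fun r y => by module
  obtain ⟨K, h1, h2, h3, -, h4⟩ := avoid_gen (E := (E × ℝ) × ℝ)
    (i := fun q => ((i q.1.1, q.1.2), q.2)) (by fun_prop) (fun q => by simp [hi])
    (-ContinuousLinearMap.id ℝ F) (fun y => by simp) (d := d + 1 + 1) (d' := 0)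
    (P := (J ×ˢ Icc 0 1) ×ˢ Icc 0 1) (A := {q | q.1.2 = 0 ∨ q.1.2 = 1 ∨ q.2 = 0 ∨ q.2 = 1})
    ((hJ.prod isCompact_Icc).prod isCompact_Icc)
    (((hd.prod (Sm.real _)).prod (Sm.real _)).mono sdiff_subset)
    ((isClosed_eq (by fun_prop) (by fun_prop)).union ((isClosed_eq (by fun_prop) (by fun_prop)).union
      ((isClosed_eq (by fun_prop) (by fun_prop)).union (isClosed_eq (by fun_prop) (by fun_prop)))))
    (fun q hq => ⟨⟨hiJ _ hq.1.1, hq.1.2⟩, hq.2⟩) (fun q hq => hq)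
    (fun q hq h => hne _ hq.1.1 0 h0 (havoid_neg (by
      have h' : i q.1.1 = q.1.1 := congrArg (fun z : (E × ℝ) × ℝ => z.1.1) h
      rw [← ho, h'])))
    (Bad := {0}) isClosed_singleton (Sm.finite (finite_singleton _)) (by simp) (by omega)
    (u := fun q => (1 - q.2) • H (q.1.1, q.1.2) + q.2 • H (q.1.1, 0)) (by fun_prop)
    (fun q => by simp [ho, add_comm])
    (by
      rintro ⟨⟨p, s⟩, r⟩ ⟨h, ⟨hp, hs⟩, -⟩
      rcases h with h | h | h | h <;> dsimp only at h hp hs ⊢ <;> subst h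
      · rw [e]
        exact hne p hp 0 h0
      · rw [hl p hp, e]
        exact hne p hp 0 h0
      · simpa using hne p hp s hs
      · simpa using hne p hp 0 h0) one_pos
  refine ⟨K, h1, fun p s r => h2 ((p, s), r), fun p hp s hs =>
    ⟨fun r hr => h4 ((p, s), r) ⟨⟨hp, hs⟩, hr⟩, ?_, ?_, ?_, ?_⟩⟩
  · simpa using h3 (x := ((p, s), 0)) (Or.inr (Or.inr (Or.inl rfl)))
  · simpa using h3 (x := ((p, s), 1)) (Or.inr (Or.inr (Or.inr rfl)))
  · exact (h3 (x := ((p, 0), s)) (Or.inl rfl)).trans (e _ _)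
  · refine (h3 (x := ((p, 1), s)) (Or.inr (Or.inl rfl))).trans ?_
    dsimp only
    rw [hl p hp, e]

/-- Two odd nonvanishing maps on a small set are oddly homotopic. -/
theorem odd_htp_of_sm {i : E → E} (hic : Continuous i) (hi : ∀ x, i (i x) = x) {d : ℕ}
    {J : Set E} (hJ : IsCompact J) (hd : Sm d J) (hiJ : ∀ x ∈ J, i x ∈ J)
    (hdim : d + 1 < Module.finrank ℝ F) {u v : E → F} (hu : Continuous u) (hv : Continuous v)
    (huo : ∀ x, u (i x) = -u x) (hvo : ∀ x, v (i x) = -v x) (hu0 : ∀ x ∈ J, u x ≠ 0)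
    (hv0 : ∀ x ∈ J, v x ≠ 0) :
    ∃ H : E × ℝ → F, Continuous H ∧ (∀ x s, H (i x, s) = -H (x, s)) ∧ (∀ x, H (x, 0) = u x) ∧
      (∀ x, H (x, 1) = v x) ∧ ∀ x ∈ J, ∀ s ∈ Icc (0 : ℝ) 1, H (x, s) ≠ 0 := by
  obtain ⟨K, h1, h2, h3, -, h4⟩ := avoid_gen (E := E × ℝ)
    (i := fun q => (i q.1, q.2)) (by fun_prop) (fun q => by simp [hi])
    (-ContinuousLinearMap.id ℝ F) (fun y => by simp) (d := d + 1) (d' := 0)
    (P := J ×ˢ Icc 0 1) (A := {q | q.2 = 0 ∨ q.2 = 1}) (hJ.prod isCompact_Icc)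
    ((hd.prod (Sm.real _)).mono sdiff_subset)
    ((isClosed_eq (by fun_prop) (by fun_prop)).union (isClosed_eq (by fun_prop) (by fun_prop)))
    (fun q hq => ⟨hiJ _ hq.1, hq.2⟩) (fun q hq => hq)
    (fun q hq h => hu0 _ hq.1 (havoid_neg (by
      have h' : i q.1 = q.1 := congrArg Prod.fst h
      rw [← huo, h'])))
    (Bad := {0}) isClosed_singleton (Sm.finite (finite_singleton _)) (by simp) (by omega)
    (u := fun q => (1 - q.2) • u q.1 + q.2 • v q.1) (by fun_prop)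
    (fun q => by simp [huo, hvo, add_comm])
    (by
      rintro ⟨p, s⟩ ⟨h, hp, -⟩
      rcases h with h | h <;> dsimp only at h hp ⊢ <;> subst h
      · simpa using hu0 p hp
      · simpa using hv0 p hp) one_pos
  refine ⟨K, h1, fun p s => h2 (p, s), fun p => ?_, fun p => ?_,
    fun p hp s hs => h4 (p, s) ⟨hp, hs⟩⟩
  · simpa using h3 (x := (p, 0)) (Or.inl rfl)
  · simpa using h3 (x := (p, 1)) (Or.inr rfl)

end BEp
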