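import Pool.Agent.Work.MP_f0515e_an.Pos.Defs

/-!
EXPORT (PL). Small sets.

Plan.  Prove first a constructor from a countable index type and domains in any finite-dimensional space
`G` of `finrank ≤ d` (enumerate `Option κ` by `exists_surjective_nat`; choose a continuous linear
surjection `(Fin d → ℝ) → G`).  `Sm.image`: cover each `A i` by countably many relative neighbourhoods on
which `φ ∘ φ i` is Lipschitz (`TopologicalSpace.countable_cover_nhdsWithin`).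
`Sm.thin`: `dimH` of each piece is at most `d` (`LipschitzOnWith.dimH_image_le`, `Real.dimH_univ_pi_fin`),
`hausdorffMeasure_of_dimH_lt`.  `Thin.dense`: the measure is an additive Haar measure
(`MeasureTheory.Measure.isAddHaarMeasure_hausdorffMeasure`, `Measure.dense_of_ae`, with `borelize`).
-/

open Set Metric Filter Topology Function BEv
open scoped NNReal

noncomputable section
namespace BEp

variable {E F G : Type} [NormedAddCommGroup E] [NormedSpace ℝ E] [FiniteDimensional ℝ E]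
  [NormedAddCommGroup F] [NormedSpace ℝ F] [FiniteDimensional ℝ F]
  [NormedAddCommGroup G] [NormedSpace ℝ G] [FiniteDimensional ℝ G]

theorem plsm_surj (d : ℕ) (hG : Module.finrank ℝ G ≤ d) :
    ∃ L : (Fin d → ℝ) →L[ℝ] G, Surjective L := by
  have h1 : Module.finrank ℝ G ≤ Module.finrank ℝ (Fin d → ℝ) := by simpa using hG
  obtain ⟨f, hf⟩ := finrank_le_iff_exists_linearMap.1 h1
  obtain ⟨g, hg⟩ := f.exists_leftInverse_of_injective (LinearMap.ker_eq_bot.2 hf)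
  refine ⟨LinearMap.toContinuousLinearMap g, fun y => ⟨f y, ?_⟩⟩
  have := LinearMap.congr_fun hg y
  simpa using this

omit [FiniteDimensional ℝ E] in
theorem plsm_mk0 {d : ℕ} {κ : Type} [Countable κ] {S : Set E} (φ : κ → (Fin d → ℝ) → E)
    (A : κ → Set (Fin d → ℝ)) (h : ∀ k, ∃ K : ℝ≥0, LipschitzOnWith K (φ k) (A k))
    (hS : S ⊆ ⋃ k, φ k '' A k) : Sm d S := by
  obtain ⟨e, he⟩ := exists_surjective_nat (Option κ)
  refine ⟨fun i => (e i).elim (fun _ => 0) φ, fun i => (e i).elim ∅ A, fun i => ?_, ?_⟩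
  · cases hi : e i with
    | none => exact ⟨0, by simp [hi]⟩
    | some k => simpa [hi] using h k
  · intro x hx
    obtain ⟨k, hk⟩ := mem_iUnion.1 (hS hx)
    obtain ⟨i, hi⟩ := he (some k)
    refine mem_iUnion.2 ⟨i, ?_⟩
    simpa [hi] using hk

omit [FiniteDimensional ℝ E] in
theorem plsm_mk {d : ℕ} (hG : Module.finrank ℝ G ≤ d) {κ : Type} [Countable κ] {S : Set E}
    (φ : κ → G → E) (A : κ → Set G) (h : ∀ k, ∃ K : ℝ≥0, LipschitzOnWith K (φ k) (A k))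
    (hS : S ⊆ ⋃ k, φ k '' A k) : Sm d S := by
  obtain ⟨L, hL⟩ := plsm_surj d hG
  refine plsm_mk0 (fun k => φ k ∘ L) (fun k => L ⁻¹' A k) (fun k => ?_) ?_
  · obtain ⟨K, hK⟩ := h k
    exact ⟨_, hK.comp L.lipschitz.lipschitzOnWith (fun _ hx => hx)⟩
  · intro x hx
    obtain ⟨k, y, hy, rfl⟩ := mem_iUnion.1 (hS hx)
    obtain ⟨z, rfl⟩ := hL y
    exact mem_iUnion.2 ⟨k, z, hy, rfl⟩

omit [FiniteDimensional ℝ E] in
theorem plsm_dim {d : ℕ} {S : Set E} (h : Sm d S) : dimH S ≤ d := by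
  obtain ⟨φ, A, hL, hS⟩ := h
  refine (dimH_mono hS).trans ?_
  rw [dimH_iUnion]
  refine iSup_le fun i => ?_
  obtain ⟨K, hK⟩ := hL i
  refine hK.dimH_image_le.trans ?_
  rw [← Real.dimH_univ_pi_fin d]
  exact dimH_mono (subset_univ _)

theorem Sm.mono {d : ℕ} {S T : Set E} (h : Sm d T) (hS : S ⊆ T) : Sm d S := by
  obtain ⟨φ, A, hL, hT⟩ := h
  exact ⟨φ, A, hL, hS.trans hT⟩

theorem Sm.le {d d' : ℕ} {S : Set E} (h : Sm d S) (hd : d ≤ d') : Sm d' S := by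
  obtain ⟨φ, A, hL, hT⟩ := h
  exact plsm_mk (G := Fin d → ℝ) (by simpa using hd) φ A hL hT

theorem Sm.empty (d : ℕ) : Sm d (∅ : Set E) :=
  ⟨fun _ _ => 0, fun _ => ∅, fun _ => ⟨0, by simp⟩, empty_subset _⟩

theorem Sm.union {d : ℕ} {S T : Set E} (hS : Sm d S) (hT : Sm d T) : Sm d (S ∪ T) := by
  obtain ⟨φ, A, hL, hS⟩ := hS
  obtain ⟨ψ, B, hM, hT⟩ := hT
  refine plsm_mk0 (κ := ℕ ⊕ ℕ) (Sum.elim φ ψ) (Sum.elim A B) ?_ ?_
  · rintro (k | k)
    · exact hL k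
    · exact hM k
  · rintro x (hx | hx)
    · obtain ⟨k, hk⟩ := mem_iUnion.1 (hS hx)
      exact mem_iUnion.2 ⟨Sum.inl k, hk⟩
    · obtain ⟨k, hk⟩ := mem_iUnion.1 (hT hx)
      exact mem_iUnion.2 ⟨Sum.inr k, hk⟩

theorem Sm.iUnion {d : ℕ} {κ : Type} [Countable κ] {S : κ → Set E} (h : ∀ k, Sm d (S k)) :
    Sm d (⋃ k, S k) := by
  choose φ A hL hS using h
  refine plsm_mk0 (κ := κ × ℕ) (fun p => φ p.1 p.2) (fun p => A p.1 p.2)
    (fun p => hL p.1 p.2) ?_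
  intro x hx
  obtain ⟨k, hk⟩ := mem_iUnion.1 hx
  obtain ⟨i, hi⟩ := mem_iUnion.1 (hS k hk)
  exact mem_iUnion.2 ⟨(k, i), hi⟩

theorem Sm.prod {d d' : ℕ} {S : Set E} {T : Set F} (hS : Sm d S) (hT : Sm d' T) :
    Sm (d + d') (S ×ˢ T) := by
  obtain ⟨φ, A, hL, hS⟩ := hS
  obtain ⟨ψ, B, hM, hT⟩ := hT
  refine plsm_mk (G := (Fin d → ℝ) × (Fin d' → ℝ)) (by simp) (κ := ℕ × ℕ)
    (fun p z => (φ p.1 z.1, ψ p.2 z.2)) (fun p => A p.1 ×ˢ B p.2) (fun p => ?_) ?_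
  · obtain ⟨K, hK⟩ := hL p.1
    obtain ⟨K', hK'⟩ := hM p.2
    have h1 := hK.comp (s := A p.1 ×ˢ B p.2) (LipschitzWith.prod_fst.lipschitzOnWith)
      (fun _ hx => hx.1)
    have h2 := hK'.comp (s := A p.1 ×ˢ B p.2) (LipschitzWith.prod_snd.lipschitzOnWith)
      (fun _ hx => hx.2)
    exact ⟨_, h1.prodMk h2⟩
  · rintro ⟨x, y⟩ ⟨hx, hy⟩
    obtain ⟨i, a, ha, hxa⟩ := mem_iUnion.1 (hS hx)
    obtain ⟨j, b, hb, hyb⟩ := mem_iUnion.1 (hT hy)
    refine mem_iUnion.2 ⟨(i, j), (a, b), ⟨ha, hb⟩, ?_⟩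
    exact Prod.ext hxa hyb

theorem Sm.image {d : ℕ} {S : Set E} (h : Sm d S) {φ : E → F}
    (hφ : LocallyLipschitzOn S φ) : Sm d (φ '' S) := by
  obtain ⟨ψ, A, hL, hS⟩ := h
  have key : ∀ i, Sm d (φ '' (ψ i '' (A i ∩ ψ i ⁻¹' S))) := by
    intro i
    obtain ⟨K, hK⟩ := hL i
    have hloc : ∀ x ∈ A i ∩ ψ i ⁻¹' S, ∃ t ∈ 𝓝[A i ∩ ψ i ⁻¹' S] x,
        ∃ C : ℝ≥0, LipschitzOnWith C (φ ∘ ψ i) t := by
      intro x hx
      obtain ⟨C, t, ht, hC⟩ := hφ hx.2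
      have hc : ContinuousWithinAt (ψ i) (A i ∩ ψ i ⁻¹' S) x :=
        (hK.continuousOn x hx.1).mono inter_subset_left
      have ht' : ψ i ⁻¹' t ∈ 𝓝[A i ∩ ψ i ⁻¹' S] x :=
        hc.tendsto_nhdsWithin (fun _ hy => hy.2) ht
      refine ⟨(A i ∩ ψ i ⁻¹' S) ∩ ψ i ⁻¹' t, inter_mem self_mem_nhdsWithin ht', _,
        hC.comp (hK.mono (fun _ hy => hy.1.1)) (fun _ hy => hy.2)⟩
    choose! t ht C hC using hloc
    obtain ⟨u, hus, huc, hu⟩ := TopologicalSpace.countable_cover_nhdsWithin ht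
    have : Countable u := huc.to_subtype
    refine plsm_mk0 (κ := u) (fun _ => φ ∘ ψ i) (fun x => t x) (fun x => ⟨_, hC x (hus x.2)⟩) ?_
    rintro _ ⟨_, ⟨y, hy, rfl⟩, rfl⟩
    obtain ⟨x, hx, hyx⟩ := mem_iUnion₂.1 (hu hy)
    exact mem_iUnion.2 ⟨⟨x, hx⟩, y, hyx, rfl⟩
  refine (Sm.iUnion key).mono ?_
  rintro _ ⟨x, hx, rfl⟩
  obtain ⟨i, a, ha, rfl⟩ := mem_iUnion.1 (hS hx)
  exact mem_iUnion.2 ⟨i, _, ⟨a, ⟨ha, hx⟩, rfl⟩, rfl⟩

theorem Sm.univ : Sm (Module.finrank ℝ E) (univ : Set E) :=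
  plsm_mk (G := E) le_rfl (κ := Unit) (fun _ => id) (fun _ => Set.univ)
    (fun _ => ⟨1, LipschitzWith.id.lipschitzOnWith⟩)
    (fun x _ => mem_iUnion.2 ⟨(), x, mem_univ _, rfl⟩)

theorem Sm.real (S : Set ℝ) : Sm 1 S := by
  have h := Sm.univ (E := ℝ)
  rw [Module.finrank_self] at h
  exact h.mono (subset_univ _)

theorem Sm.finite {S : Set E} (h : S.Finite) : Sm 0 S := by
  have : Countable S := h.countable.to_subtype
  refine plsm_mk0 (κ := S) (fun x _ => x) (fun _ => Set.univ)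
    (fun x => ⟨0, (LipschitzWith.const _).lipschitzOnWith⟩) ?_
  intro x hx
  exact mem_iUnion.2 ⟨⟨x, hx⟩, 0, mem_univ _, rfl⟩

theorem PC.sm {d : ℕ} {S : Set E} (h : PC d S) : Sm d S := by
  obtain ⟨T, hT, hd, hS⟩ := h
  have : Countable T := hT.countable.to_subtype
  have key : ∀ P : T, Sm d ((P : AffineSubspace ℝ E) : Set E) := by
    rintro ⟨P, hP⟩
    rcases Set.eq_empty_or_nonempty (P : Set E) with h0 | ⟨p, hp⟩
    · show Sm d (P : Set E)
      rw [h0]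
      exact Sm.empty d
    · refine plsm_mk (G := P.direction) (hd P hP) (κ := Unit) (fun _ v => (v : E) + p)
        (fun _ => Set.univ) (fun _ => ⟨1, ?_⟩) ?_
      · refine LipschitzWith.lipschitzOnWith (LipschitzWith.of_dist_le_mul fun a b => ?_)
        simp [Subtype.dist_eq]
      · intro x hx
        refine mem_iUnion.2 ⟨(), ⟨x - p, ?_⟩, mem_univ _, by simp⟩
        simpa using AffineSubspace.vsub_mem_direction hx hp
  refine (Sm.iUnion key).mono ?_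
  intro x hx
  obtain ⟨P, hP, hxP⟩ := hS x hx
  exact mem_iUnion.2 ⟨⟨P, hP⟩, hxP⟩

theorem Sm.dense {d : ℕ} {S : Set E} (h : Sm d S) (hd : d < Module.finrank ℝ E) :
    Dense Sᶜ :=
  dense_compl_of_dimH_lt_finrank ((plsm_dim h).trans_lt (Nat.cast_lt.2 hd))

theorem Sm.thin {d : ℕ} {S : Set E} (h : Sm d S) (hd : d < Module.finrank ℝ E) : Thin S := by
  intro _ _
  have h1 : dimH S < ((Module.finrank ℝ E : ℝ≥0) : ENNReal) := by
    refine (plsm_dim h).trans_lt ?_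
    exact_mod_cast hd
  simpa using hausdorffMeasure_of_dimH_lt h1

theorem Thin.empty : Thin (∅ : Set E) := by
  intro _ _
  simp

theorem Thin.mono {S T : Set E} (h : Thin T) (hS : S ⊆ T) : Thin S := by
  intro _ _
  exact MeasureTheory.measure_mono_null hS h

theorem Thin.union {S T : Set E} (hS : Thin S) (hT : Thin T) : Thin (S ∪ T) := by
  intro _ _
  exact MeasureTheory.measure_union_null hS hT

theorem Thin.iUnion {κ : Type} [Countable κ] {S : κ → Set E} (h : ∀ k, Thin (S k)) :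
    Thin (⋃ k, S k) := by
  intro _ _
  exact MeasureTheory.measure_iUnion_null fun k => h k

theorem Thin.dense {S : Set E} (h : Thin S) : Dense Sᶜ := by
  borelize E
  have h1 : MeasureTheory.Measure.hausdorffMeasure (Module.finrank ℝ E : ℝ) S = 0 := h
  have h2 : ∀ᵐ x ∂(MeasureTheory.Measure.hausdorffMeasure (Module.finrank ℝ E : ℝ)), x ∉ S :=
    MeasureTheory.compl_mem_ae_iff.2 h1
  exact MeasureTheory.Measure.dense_of_ae h2

theorem Thin.exists_near {S : Set E} (h : Thin S) (x : E) {ε : ℝ} (hε : 0 < ε) :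
    ∃ y, ‖y - x‖ < ε ∧ y ∉ S := by
  obtain ⟨y, hy, hyS⟩ := h.dense.inter_open_nonempty (ball x ε) isOpen_ball (nonempty_ball.2 hε)
  exact ⟨y, by simpa [dist_eq_norm] using hy, hyS⟩

theorem Sm.null {d n : ℕ} {S : Set (Fin n → ℝ)} (h : Sm d S) (hd : d < n) :
    MeasureTheory.volume S = 0 := by
  have h1 : dimH S < ((Fintype.card (Fin n) : ℝ≥0) : ENNReal) := by
    refine (plsm_dim h).trans_lt ?_
    rw [Fintype.card_fin]
    exact_mod_cast hd
  rw [← MeasureTheory.hausdorffMeasure_pi_real]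
  simpa using hausdorffMeasure_of_dimH_lt h1

end BEp
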