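import Pool.Agent.Work.MP_f0515e_an.Pos.GV4a
import Pool.Agent.Work.MP_f0515e_an.Pos.HDeg3
import Pool.Agent.Work.MP_f0515e_an.Pos.HDM
import Pool.Agent.Work.MP_f0515e_an.Pos.HAvoid
import Pool.Agent.Work.MP_f0515e_an.Pos.PLSm

-- merged part: Pool.Agent.Work.MP_f0515e_an.Pos.HCanc
section
/-! Cancelling all zeros when the degree vanishes.

PLAN. `exists_axis`: for `v ≠ 0` extend `v` to coordinates (complement of `span {v}`, or `Cell.coords`
style argument). `cancel_fin`: strong induction on `S.card`, generalizing `W, S`. If `S = ∅` take the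
constant homotopy, `T = ∅`. Otherwise both signs occur (`sg_cases`, the sum is `0`); choose `(p, q)` in
`S ×ˢ S` with `sg (M p) = -sg (M q)` and `‖q - p‖` minimal (`Finset.exists_min_image`). No other point `z`
of `S` is on the segment (it would form a closer pair with `p` or `q`). Let `Λ` be from `exists_axis` for
`v = (1/2) • (q - p)`, `a x = Λ x + midpoint`; apply `pair_cancel` to `W ∘ a`, `Bad = K ∪ SgP`,
`Mp = Λ.trans (M p)`, `Mq = Λ.trans (M q)` (signs: `M p = (M q).trans N`, `sg_post` twice),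
`V = a ⁻¹' (O \ (S \ {p, q}))`; transport back with `Λ.symm`; apply the induction hypothesis to
`H (·, 1)` and `(S.erase p).erase q` (germs survive because `T` is closed); `cat`.
`cancel_all`: `T0 = {p ∈ closure O | (W p).1 ∈ closure U ∧ (W p).2 = 0}` is compact, inside `O`, and
`C = (W ·).1 '' T0 ⊆ U`. `exists_tube` gives `U', r`. If `T0 = ∅` take the constant homotopy.
`O1 = {p ∈ O | W p ∈ U' ×ˢ ball 0 (r/2)}`; `Adm (U ×ˢ O) _` from `frontier_prod_eq`; `deg_tube` gives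
`deg O1 (W ·).2 = 0`; `fin_approx` with `ε = r/2` gives `v`; the straight line from `W` to `((W ·).1, v)`
stays in the tube; `cancel_fin` with `SgP = U ×ˢ {0}` (`K ∪ SgP = K ∪ closure U ×ˢ {0}` is closed; `Sm.le`,
`Sm.prod`, `Sm.univ`, `Sm.finite`, `d = max d' (finrank G)`); `deg_sum`, `deg_eqOn`; `cat`.
About 300 lines (a helper file is welcome). -/

open Set Metric Filter Topology Function BEv
open scoped NNReal

noncomputable section
namespace BEp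

variable {E F G : Type} [NormedAddCommGroup E] [NormedSpace ℝ E] [FiniteDimensional ℝ E]
  [NormedAddCommGroup F] [NormedSpace ℝ F] [FiniteDimensional ℝ F]
  [NormedAddCommGroup G] [NormedSpace ℝ G] [FiniteDimensional ℝ G]

theorem exists_axis {v : E} (hv : v ≠ 0) :
    ∃ Λ : (ℝ × (Fin (Module.finrank ℝ E - 1) → ℝ)) ≃L[ℝ] E, Λ (1, 0) = v := by
  obtain ⟨q, hq⟩ := Submodule.exists_isCompl (Submodule.span ℝ {v})
  have h1 := Submodule.finrank_add_eq_of_isCompl hq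
  rw [finrank_span_singleton hv] at h1
  let e1 := LinearEquiv.toSpanNonzeroSingleton ℝ E v hv
  let e2 : (Fin (Module.finrank ℝ E - 1) → ℝ) ≃ₗ[ℝ] q :=
    LinearEquiv.ofFinrankEq _ _ (by rw [Module.finrank_fin_fun]; omega)
  refine ⟨((e1.prodCongr e2).trans
    (Submodule.prodEquivOfIsCompl _ _ hq)).toContinuousLinearEquiv, ?_⟩
  rw [LinearEquiv.coe_toContinuousLinearEquiv', LinearEquiv.trans_apply,
    Submodule.coe_prodEquivOfIsCompl']
  simp [e1]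

omit [NormedSpace ℝ E] [FiniteDimensional ℝ E] in
theorem hcanc_cat {O : Set E} {K SgP : Set F} {W W1 : E → F} {H1 : E × ℝ → F} {T1 : Set E}
    (c1 : Continuous H1) (k1 : IsCompact T1) (s1 : T1 ⊆ O) (z1 : ∀ p, H1 (p, 0) = W p)
    (o1 : ∀ p, p ∉ T1 → ∀ s, H1 (p, s) = W p)
    (a1 : ∀ p ∈ O, ∀ s ∈ Icc (0 : ℝ) 1, H1 (p, s) ∉ K) (e1 : ∀ p, H1 (p, 1) = W1 p)
    (h2 : ∃ (H : E × ℝ → F) (T : Set E), Continuous H ∧ IsCompact T ∧ T ⊆ O ∧
      (∀ p, H (p, 0) = W1 p) ∧ (∀ p, p ∉ T → ∀ s, H (p, s) = W1 p) ∧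
      (∀ p ∈ O, ∀ s ∈ Icc (0 : ℝ) 1, H (p, s) ∉ K) ∧ ∀ p ∈ O, H (p, 1) ∉ SgP) :
    ∃ (H : E × ℝ → F) (T : Set E), Continuous H ∧ IsCompact T ∧ T ⊆ O ∧
      (∀ p, H (p, 0) = W p) ∧ (∀ p, p ∉ T → ∀ s, H (p, s) = W p) ∧
      (∀ p ∈ O, ∀ s ∈ Icc (0 : ℝ) 1, H (p, s) ∉ K) ∧ ∀ p ∈ O, H (p, 1) ∉ SgP := by
  obtain ⟨H2, T2, c2, k2, s2, z2, o2, a2, f2⟩ := h2
  have e : ∀ p, H1 (p, 1) = H2 (p, 0) := fun p => (e1 p).trans (z2 p).symm
  refine ⟨cat H1 H2, T1 ∪ T2, ?_, k1.union k2, union_subset s1 s2,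
    fun p => (cat_zero _ _ p).trans (z1 p), fun p hp s => ?_,
    fun p hp => cat_mem (S := Kᶜ) (e p) (a1 p hp) (a2 p hp),
    fun p hp => by rw [cat_one (e p)]; exact f2 p hp⟩
  · unfold cat
    fun_prop
  · simp only [cat, o1 p fun c => hp (Or.inl c), o2 p fun c => hp (Or.inr c),
      add_sub_cancel_right]

omit [FiniteDimensional ℝ E] [FiniteDimensional ℝ F] [FiniteDimensional ℝ G] in
theorem hcanc_germ (Λ : G ≃L[ℝ] E) (m : E) {y : G} {z : E} (hy : Λ y + m = z) {u : E → F}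
    {M : E ≃L[ℝ] F} (h : u =ᶠ[𝓝 z] fun x => M (x - z)) :
    (fun x => u (Λ x + m)) =ᶠ[𝓝 y] fun x => (Λ.trans M) (x - y) := by
  have ht : Tendsto (fun x => Λ x + m) (𝓝 y) (𝓝 z) :=
    hy ▸ (by fun_prop : Continuous fun x => Λ x + m).tendsto y
  filter_upwards [h.comp_tendsto ht] with x hx
  refine hx.trans ?_
  simp only [comp, ContinuousLinearEquiv.trans_apply, ← hy, add_sub_add_right_eq_sub, map_sub]

omit [FiniteDimensional ℝ G] in
/-- A closest pair of zeros of opposite signs. -/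
theorem hcanc_pair {S : Finset E} {M : E → E ≃L[ℝ] F} (hne : S.Nonempty)
    (h0 : ∑ z ∈ S, sg (M z) = 0) : ∃ p ∈ S, ∃ q ∈ S, sg (M p) = -sg (M q) ∧ p ≠ q ∧
      ∀ t ∈ Ioo (0 : ℝ) 1, p + t • (q - p) ∉ S := by
  classical
  have h1 : ((S ×ˢ S).filter fun y => sg (M y.1) = -sg (M y.2)).Nonempty := by
    obtain ⟨p, hp⟩ := hne
    by_contra hc
    have e : ∀ z ∈ S, sg (M z) = sg (M p) := fun z hz => by
      by_contra c
      refine hc ⟨(p, z), Finset.mem_filter.2 ⟨Finset.mem_product.2 ⟨hp, hz⟩, ?_⟩⟩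
      rcases sg_cases (M p) with a | a <;> rcases sg_cases (M z) with b | b <;>
        simp only [a, b] at c ⊢ <;> first | rfl | exact absurd rfl c | exact absurd trivial c
    rw [Finset.sum_congr rfl e, Finset.sum_const, nsmul_eq_mul, mul_eq_zero] at h0
    rcases h0 with k | k
    · exact (Finset.card_pos.2 ⟨p, hp⟩).ne' (by exact_mod_cast k)
    · rcases sg_cases (M p) with a | a <;> omega
  obtain ⟨⟨p, q⟩, hy, hm⟩ := Finset.exists_min_image _ (fun y : E × E => ‖y.2 - y.1‖) h1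
  obtain ⟨hy, hs⟩ := Finset.mem_filter.1 hy
  obtain ⟨hp, hq⟩ := Finset.mem_product.1 hy
  have hpq : p ≠ q := by
    rintro rfl
    rcases sg_cases (M p) with a | a <;> simp only [a] at hs <;> omega
  have hn : 0 < ‖q - p‖ := norm_pos_iff.2 (sub_ne_zero.2 hpq.symm)
  refine ⟨p, hp, q, hq, hs, hpq, fun t ht hz => ?_⟩
  dsimp only at hs hm hp hq
  by_cases c : sg (M p) = -sg (M (p + t • (q - p)))
  · have := hm (p, p + t • (q - p)) (Finset.mem_filter.2 ⟨Finset.mem_product.2 ⟨hp, hz⟩, c⟩)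
    simp only [add_sub_cancel_left, norm_smul, Real.norm_of_nonneg ht.1.le] at this
    linarith only [this, hn, ht, ht.2, mul_pos_of_neg_of_neg (Mathlib.Tactic.Linarith.sub_neg_of_lt hn) (Mathlib.Tactic.Linarith.sub_neg_of_lt ht.right)]
  · have c' : sg (M (p + t • (q - p))) = -sg (M q) := by
      rcases sg_cases (M p) with a | a <;> rcases sg_cases (M (p + t • (q - p))) with b | b <;>
        omega
    have := hm (p + t • (q - p), q) (Finset.mem_filter.2 ⟨Finset.mem_product.2 ⟨hz, hq⟩, c'⟩)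
    have e : q - (p + t • (q - p)) = (1 - t) • (q - p) := by module
    simp only [e, norm_smul, Real.norm_of_nonneg (sub_nonneg.2 ht.2.le)] at this
    linarith only [this, hn, ht, ht.1, mul_pos_of_neg_of_neg (Mathlib.Tactic.Linarith.sub_neg_of_lt hn) (Mathlib.Tactic.Linarith.sub_neg_of_lt ht.left)]

/-- One cancellation, in the coordinates of `E`. -/
theorem hcanc_step {N1 : Set G} (hN : IsOpen N1) (hNc : Convex ℝ N1) {r : ℝ} (hr : 0 < r)
    {d : ℕ} {Bad : Set (G × F)} (hB : IsClosed Bad) (hd : Sm d Bad)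
    (hdim : d + 2 < Module.finrank ℝ (G × F))
    (hNB : ∀ z ∈ N1 ×ˢ ball (0 : F) r, z ∈ Bad → z.2 = 0) {W : E → G × F}
    (hW : Continuous W) {p q : E} (hpq : p ≠ q) (Mp Mq : E ≃L[ℝ] F) (hsg : sg Mp = -sg Mq)
    (hp : (fun x => (W x).2) =ᶠ[𝓝 p] fun x => Mp (x - p))
    (hq : (fun x => (W x).2) =ᶠ[𝓝 q] fun x => Mq (x - q))
    (hp1 : (W p).1 ∈ N1) (hq1 : (W q).1 ∈ N1)
    (hseg : ∀ t ∈ Ioo (0 : ℝ) 1, W (p + t • (q - p)) ∉ Bad) {V : Set E} (hV : IsOpen V)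
    (hsV : ∀ t ∈ Icc (0 : ℝ) 1, p + t • (q - p) ∈ V) :
    ∃ (H : E × ℝ → G × F) (T : Set E), Continuous H ∧ IsCompact T ∧ T ⊆ V ∧
      (∀ x, H (x, 0) = W x) ∧ (∀ x, x ∉ T → ∀ s, H (x, s) = W x) ∧
      (∀ x ∈ T, ∀ s ∈ Icc (0 : ℝ) 1, H (x, s) ∉ Bad ∨ H (x, s) ∈ N1 ×ˢ ball (0 : F) r) ∧
      (∀ x ∈ T, H (x, 1) ∉ Bad) ∧ p ∈ T ∧ q ∈ T := by
  obtain ⟨Λ, hΛ⟩ := exists_axis (v := (1 / 2 : ℝ) • (q - p))
    (smul_ne_zero (by norm_num) (sub_ne_zero.2 hpq.symm))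
  obtain ⟨m, hm⟩ : ∃ m, m = p + (1 / 2 : ℝ) • (q - p) := ⟨_, rfl⟩
  have ha : ∀ t : ℝ, Λ (t, 0) + m = p + ((t + 1) / 2) • (q - p) := fun t => by
    have e : Λ (t, 0) = t • Λ (1, 0) := by
      rw [← map_smul]
      simp
    rw [e, hΛ, hm]
    module
  have h1 : Λ (-1, 0) + m = p := by simp [ha]
  have h2 : Λ (1, 0) + m = q := by simp [ha]
  obtain ⟨H, T, c, k, s, z, o, a, f, t1, t2⟩ := pair_cancel hN hNc hr hB hd hdim hNB
    (W := fun x => W (Λ x + m)) (by fun_prop) (Λ.trans Mp) (Λ.trans Mq)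
    (by rw [hdeg1_pre Λ Mp Mp, hdeg1_pre Λ Mp Mq, ← mul_neg, ← hsg])
    (hcanc_germ Λ m h1 hp) (hcanc_germ Λ m h2 hq) (by simpa only [h1] using hp1)
    (by simpa only [h2] using hq1)
    (fun t ht => by
      simpa only [ha] using hseg _ ⟨by linarith only [ht, ht.1], by linarith only [ht, ht.2]⟩)
    (V := (fun x => Λ x + m) ⁻¹' V) (hV.preimage (by fun_prop))
    (fun t ht => by
      simpa only [mem_preimage, ha] using hsV _ ⟨by linarith only [ht, ht.1], by linarith only [ht, ht.2]⟩)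
  have e : ∀ x, Λ (Λ.symm (x - m)) + m = x := fun x => by simp
  have e' : ∀ x, x ∈ (fun y => Λ y + m) '' T ↔ Λ.symm (x - m) ∈ T := fun x =>
    ⟨by rintro ⟨y, hy, rfl⟩; simpa using hy, fun hx => ⟨_, hx, e x⟩⟩
  refine ⟨fun y => H (Λ.symm (y.1 - m), y.2), (fun y => Λ y + m) '' T, by fun_prop,
    k.image (by fun_prop), image_subset_iff.2 s, fun x => ?_, fun x hx t => ?_,
    fun x hx => a _ ((e' x).1 hx), fun x hx => f _ ((e' x).1 hx), ⟨_, t1, h1⟩, ⟨_, t2, h2⟩⟩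
  · simp only [z, e]
  · simp only [o _ (mt (e' x).2 hx), e]

theorem cancel_fin {O : Set E} (hO : IsOpen O) (hOc : Convex ℝ O) {N1 : Set G} (hN : IsOpen N1)
    (hNc : Convex ℝ N1) {r : ℝ} (hr : 0 < r) {d : ℕ} {K SgP : Set (G × F)}
    (hB : IsClosed (K ∪ SgP)) (hd : Sm d (K ∪ SgP)) (hdim : d + 2 < Module.finrank ℝ (G × F))
    (hNK : Disjoint (N1 ×ˢ ball (0 : F) r) K) (hSg : ∀ z ∈ SgP, z.2 = 0) {W : E → G × F}
    (hW : Continuous W) (hWO : ∀ p ∈ O, W p ∉ K) {S : Finset E} {M : E → E ≃L[ℝ] F}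
    (hSO : (↑S : Set E) ⊆ O) (hS : ∀ p ∈ O, W p ∈ SgP → p ∈ S)
    (hg : ∀ z ∈ S, (W z).1 ∈ N1 ∧ (fun x => (W x).2) =ᶠ[𝓝 z] fun x => M z (x - z))
    (h0 : ∑ z ∈ S, sg (M z) = 0) :
    ∃ (H : E × ℝ → G × F) (T : Set E), Continuous H ∧ IsCompact T ∧ T ⊆ O ∧
      (∀ p, H (p, 0) = W p) ∧ (∀ p, p ∉ T → ∀ s, H (p, s) = W p) ∧
      (∀ p ∈ O, ∀ s ∈ Icc (0 : ℝ) 1, H (p, s) ∉ K) ∧ ∀ p ∈ O, H (p, 1) ∉ SgP := by
  classical
  induction S using Finset.strongInduction generalizing W with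
  | H S ih =>
  rcases S.eq_empty_or_nonempty with rfl | hne
  · exact ⟨fun y => W y.1, ∅, by fun_prop, isCompact_empty, empty_subset _, fun _ => rfl,
      fun _ _ _ => rfl, fun p hp _ _ => hWO p hp, fun p hp c => by simpa using hS p hp c⟩
  obtain ⟨p, hp, q, hq, hs, hpq, hm⟩ := hcanc_pair hne h0
  have hO' : ∀ t ∈ Icc (0 : ℝ) 1, p + t • (q - p) ∈ O := fun t ht =>
    hOc.add_smul_sub_mem (hSO hp) (hSO hq) ht
  obtain ⟨H, T, c, k, s, z, o, a, f, t1, t2⟩ := hcanc_step hN hNc hr hB hd hdim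
    (fun z hz hb => hb.elim (fun c => absurd c (disjoint_left.1 hNK hz)) (hSg z)) hW hpq
    (M p) (M q) hs (hg p hp).2 (hg q hq).2 (hg p hp).1 (hg q hq).1
    (fun t ht c => c.elim (hWO _ (hO' t (Ioo_subset_Icc_self ht)))
      fun c => hm t ht (hS _ (hO' t (Ioo_subset_Icc_self ht)) c))
    (V := O \ ↑((S.erase p).erase q)) (hO.sdiff (Finset.finite_toSet _).isClosed)
    (fun t ht => ⟨hO' t ht, fun c => by
      obtain ⟨c1, c2⟩ := Finset.mem_erase.1 (Finset.mem_coe.1 c)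
      obtain ⟨c2, c3⟩ := Finset.mem_erase.1 c2
      refine hm t ⟨ht.1.lt_of_ne ?_, ht.2.lt_of_ne ?_⟩ c3
      · rintro rfl
        exact c2 (by simp)
      · rintro rfl
        exact c1 (by simp)⟩)
  have a1 : ∀ x ∈ O, ∀ s ∈ Icc (0 : ℝ) 1, H (x, s) ∉ K := fun x hx t ht c => by
    by_cases b : x ∈ T
    · exact (a x b t ht).elim (fun n => n (Or.inl c)) fun n => disjoint_left.1 hNK n c
    · exact hWO x hx (o x b t ▸ c)
  have sub : (S.erase p).erase q ⊆ S := (Finset.erase_subset _ _).trans (Finset.erase_subset _ _)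
  refine hcanc_cat c k (s.trans sdiff_subset) z o a1 (fun _ => rfl)
    (ih ((S.erase p).erase q) (Finset.ssubset_of_subset_of_ssubset (Finset.erase_subset _ _)
      (Finset.erase_ssubset hp)) (by fun_prop) (fun x hx => a1 x hx 1 (by simp))
      ((Finset.coe_subset.2 sub).trans hSO) (fun x hx c => ?_) (fun x hx => ?_) ?_)
  · have b : x ∉ T := fun b => f x b (Or.inr c)
    refine Finset.mem_erase.2 ⟨?_, Finset.mem_erase.2 ⟨?_, hS x hx (o x b 1 ▸ c)⟩⟩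
    · rintro rfl
      exact b t2
    · rintro rfl
      exact b t1
  · have b : x ∉ T := fun b => (s b).2 (Finset.mem_coe.2 hx)
    refine ⟨by simpa only [o x b] using (hg x (sub hx)).1, ?_⟩
    filter_upwards [(hg x (sub hx)).2, k.isClosed.isOpen_compl.mem_nhds b] with y h1 h2
    rw [o y h2]
    exact h1
  · rw [← Finset.add_sum_erase _ _ hp,
      ← Finset.add_sum_erase _ _ (Finset.mem_erase.2 ⟨hpq.symm, hq⟩)] at h0
    omega

theorem cancel_all (h : Module.finrank ℝ E = Module.finrank ℝ F)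
    (h3 : 3 ≤ Module.finrank ℝ F) {O : Set E} (hO : IsOpen O) (hOb : Bornology.IsBounded O)
    (hOc : Convex ℝ O) {U : Set G} (hU : IsOpen U) (hUb : Bornology.IsBounded U)
    (hUc : Convex ℝ U) {d' : ℕ} {K : Set (G × F)} (hK : IsClosed K) (hKs : Sm d' K)
    (hd' : d' + 2 < Module.finrank ℝ (G × F)) (hKU : ∀ y ∈ U, ((y, 0) : G × F) ∉ K)
    (hbd : ∀ y ∈ frontier U, ((y, 0) : G × F) ∈ K) {W : E → G × F} (hW : Continuous W)
    (hWO : ∀ p ∈ O, W p ∉ K)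
    (hWf : ∀ p ∈ frontier O, ¬ ((W p).1 ∈ closure U ∧ (W p).2 = 0))
    (h0 : deg (U ×ˢ O) (fun q : G × E => ((q.1, 0) : G × F) - W q.2) = 0) :
    ∃ (H : E × ℝ → G × F) (T : Set E), Continuous H ∧ IsCompact T ∧ T ⊆ O ∧
      (∀ p, H (p, 0) = W p) ∧ (∀ p, p ∉ T → ∀ s, H (p, s) = W p) ∧
      (∀ p ∈ O, ∀ s ∈ Icc (0 : ℝ) 1, H (p, s) ∉ K) ∧
      ∀ p ∈ O, ¬ ((H (p, 1)).1 ∈ U ∧ (H (p, 1)).2 = 0) := by
  have := FiniteDimensional.proper_real E
  obtain ⟨T0, hT0⟩ : ∃ T0 : Set E,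
    T0 = {p | p ∈ closure O ∧ (W p).1 ∈ closure U ∧ (W p).2 = 0} := ⟨_, rfl⟩
  have m0 : ∀ p, p ∈ T0 ↔ p ∈ closure O ∧ (W p).1 ∈ closure U ∧ (W p).2 = 0 := fun p => by
    rw [hT0]
    rfl
  have k0 : IsCompact T0 := by
    refine hOb.isCompact_closure.of_isClosed_subset ?_ fun p hp => ((m0 p).1 hp).1
    rw [hT0]
    exact isClosed_closure.inter ((isClosed_closure.preimage hW.fst).inter
      (isClosed_eq hW.snd continuous_const))
  have s0 : T0 ⊆ O := fun p hp => by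
    by_contra c
    exact hWf p (hO.frontier_eq ▸ ⟨((m0 p).1 hp).1, c⟩) ((m0 p).1 hp).2
  have u0 : ∀ p ∈ T0, (W p).1 ∈ U := fun p hp => by
    by_contra c
    have h1 := hbd (W p).1 (hU.frontier_eq ▸ ⟨((m0 p).1 hp).2.1, c⟩)
    rw [← ((m0 p).1 hp).2.2] at h1
    exact hWO p (s0 hp) h1
  have i0 : ∀ p ∈ O, (W p).1 ∈ U → (W p).2 = 0 → p ∈ T0 := fun p hp h1 h2 =>
    (m0 p).2 ⟨subset_closure hp, subset_closure h1, h2⟩
  rcases T0.eq_empty_or_nonempty with rfl | hne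
  · exact ⟨fun y => W y.1, ∅, by fun_prop, isCompact_empty, empty_subset _, fun _ => rfl,
      fun _ _ _ => rfl, fun p hp _ _ => hWO p hp, fun p hp c => i0 p hp c.1 c.2⟩
  obtain ⟨U', r, hr, oU, cU, sC, sU, dK⟩ := exists_tube hU hUb hUc (k0.image hW.fst)
    (image_subset_iff.2 u0) hK hKU
  have hA : Adm (U ×ˢ O) (fun q : G × E => ((q.1, 0) : G × F) - W q.2) := by
    refine ⟨hU.prod hO, hUb.prod hOb, by fun_prop, fun q hq c => ?_⟩
    have e := sub_eq_zero.1 c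
    have e1 : q.1 = (W q.2).1 := congrArg Prod.fst e
    have e2 : (W q.2).2 = 0 := (congrArg Prod.snd e).symm
    rw [frontier_prod_eq] at hq
    rcases hq with hq | hq
    · exact hWf _ hq.2 ⟨e1 ▸ hq.1, e2⟩
    · have h1 : q.1 ∈ closure U \ U := hU.frontier_eq ▸ hq.1
      exact h1.2 (e1 ▸ u0 _ ((m0 _).2 ⟨hq.2, e1 ▸ h1.1, e2⟩))
  obtain ⟨O1, hO1⟩ : ∃ O1 : Set E, O1 = O ∩ W ⁻¹' (U' ×ˢ ball (0 : F) (r / 2)) := ⟨_, rfl⟩
  have m1 : ∀ p, p ∈ O1 ↔ p ∈ O ∧ (W p).1 ∈ U' ∧ ‖(W p).2‖ < r / 2 := fun p => by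
    simp [hO1]
  have i1 : ∀ p ∈ O, (W p).1 ∈ U → (W p).2 = 0 → p ∈ O1 := fun p hp h1 h2 =>
    (m1 p).2 ⟨hp, sC ⟨p, i0 p hp h1 h2, rfl⟩, by rw [h2, norm_zero]; positivity⟩
  have s1 : O1 ⊆ O := fun p hp => ((m1 p).1 hp).1
  obtain ⟨e, he, ht⟩ := deg_tube (G := G) h
  obtain ⟨a1, d1⟩ := ht U U' O O1 W hU hUb cU ((hne.image _).mono sC) sU hO
    (hO1 ▸ hO.inter ((oU.prod isOpen_ball).preimage hW)) s1 hW hA i1
    fun p hp => ((m1 p).1 hp).2.1
  obtain ⟨v, T, S, M, c, k, s, o, n, f⟩ := fin_approx h a1 (half_pos hr)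
  have e1 : EqOn (fun p => (W p).2) v (frontier O1) := fun x hx =>
    (o x fun c => (a1.1.frontier_eq ▸ hx : x ∈ closure O1 \ O1).2 (s c)).symm
  have d2 : ∑ z ∈ S, sg (M z) = 0 := by
    rw [← deg_sum h (a1.of_eqOn c e1) f, ← deg_eqOn h a1 c e1]
    rw [h0] at d1
    rcases he with rfl | rfl <;> omega
  have o1 : ∀ p, p ∉ T → ∀ s : ℝ, (((W p).1, (W p).2 + s • (v p - (W p).2)) : G × F) = W p :=
    fun p hp s => by simp [o p hp]
  have a2 : ∀ p ∈ O, ∀ s ∈ Icc (0 : ℝ) 1,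
      (((W p).1, (W p).2 + s • (v p - (W p).2)) : G × F) ∉ K := fun p hp t ht => by
    by_cases b : p ∈ T
    · refine disjoint_left.1 dK ⟨((m1 p).1 (s b)).2.1, mem_ball_zero_iff.2 ?_⟩
      have h1 := ((m1 p).1 (s b)).2.2
      have h2 : ‖t • (v p - (W p).2)‖ ≤ r / 2 := by
        rw [norm_smul, Real.norm_of_nonneg ht.1]
        exact (mul_le_of_le_one_left (norm_nonneg _) ht.2).trans (n p)
      linarith only [h1, h2, norm_add_le (W p).2 (t • (v p - (W p).2))]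
    · rw [o1 p b]
      exact hWO p hp
  refine hcanc_cat (SgP := U ×ˢ {0}) (W1 := fun p => ((W p).1, v p))
    (H1 := fun y => ((W y.1).1, (W y.1).2 + y.2 • (v y.1 - (W y.1).2))) (by fun_prop) k
    (s.trans s1) (fun p => by simp) o1 a2 (fun p => by simp)
    (cancel_fin hO hOc oU cU hr (d := max d' (Module.finrank ℝ G)) ?_ ?_ ?_ dK (fun z hz => hz.2)
      (by fun_prop) (fun p hp => by simpa using a2 p hp 1 (by simp)) (f.1.trans s1)
      (fun p hp c => ?_) (fun z hz => ⟨((m1 z).1 (f.1 hz)).2.1, f.2.2 z hz⟩) d2)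
  · have e : K ∪ U ×ˢ {0} = K ∪ closure U ×ˢ {0} := by
      refine Subset.antisymm (union_subset_union_right _ (prod_mono subset_closure Subset.rfl))
        (union_subset subset_union_left ?_)
      rintro ⟨y, w⟩ ⟨h1, rfl⟩
      by_cases b : y ∈ U
      · exact Or.inr ⟨b, rfl⟩
      · exact Or.inl (hbd y (hU.frontier_eq ▸ ⟨h1, b⟩))
    rw [e]
    exact hK.union (isClosed_closure.prod isClosed_singleton)
  · exact (hKs.le (le_max_left _ _)).union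
      ((((Sm.univ (E := G)).prod (Sm.finite (finite_singleton (0 : F)))).mono
        (prod_mono (subset_univ _) Subset.rfl)).le (le_max_right _ _))
  · rw [Module.finrank_prod] at hd' ⊢
    omega
  · by_cases b : p ∈ O1
    · exact f.2.1 p b c.2
    · exact absurd (i1 p hp c.1 ((o p fun k => b (s k)).symm.trans c.2)) b

end BEp
end
end

-- merged part: Pool.Agent.Work.MP_f0515e_an.Pos.HSph0
section
-- merged part: Pool.Agent.Work.MP_f0515e_an.Pos.HHopf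
section
/-! EXPORT (HOM). Hopf extension theorem: H4 of the plan.

PLAN. `hopf`: `cancel_all` with `G = Fin 0 → ℝ`, `U = univ`, `K = ∅`, `W p = (0, u p)`; the degree
hypothesis from `deg_prod` (`M1 = refl`, `y0 = 0`) and `deg_target_self` for `neg` (or `deg_tube` with
`U' = univ`, `O1 = O`); `v p = (H (p, 1)).2`. `hopf_img`: `deg_homeo`, `frontier_image`, `hopf` for
`u ∘ φ`, then `v ∘ k` with the left inverse `k` of `exists_left_inv`. About 100 lines. -/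

open Set Metric Filter Topology Function BEv
open scoped NNReal

noncomputable section
namespace BEp

variable {E F G : Type} [NormedAddCommGroup E] [NormedSpace ℝ E] [FiniteDimensional ℝ E]
  [NormedAddCommGroup F] [NormedSpace ℝ F] [FiniteDimensional ℝ F]
  [NormedAddCommGroup G] [NormedSpace ℝ G] [FiniteDimensional ℝ G]

theorem hopf (h : Module.finrank ℝ E = Module.finrank ℝ F) (h3 : 3 ≤ Module.finrank ℝ F)
    {O : Set E} (hc : Convex ℝ O) {u : E → F} (hu : Adm O u) (h0 : deg O u = 0) :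
    ∃ v : E → F, Continuous v ∧ EqOn v u (frontier O) ∧ ∀ x ∈ closure O, v x ≠ 0 := by
  have huc := hu.2.2.1
  have hUb : Bornology.IsBounded (univ : Set (Fin 0 → ℝ)) := (Set.toFinite _).isBounded
  have hn : Adm O fun x => -u x :=
    ⟨hu.1, hu.2.1, huc.neg, fun x hx e => hu.2.2.2 x hx (neg_eq_zero.1 e)⟩
  have hn0 : deg O (fun x => -u x) = 0 := by
    have := deg_target_self h (ContinuousLinearEquiv.neg ℝ : F ≃L[ℝ] F) hu
    rw [h0, mul_zero] at this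
    exact this
  have hd := (deg_prod (ContinuousLinearEquiv.refl ℝ (Fin 0 → ℝ))
    (ContinuousLinearEquiv.ofFinrankEq h) isOpen_univ hUb (mem_univ 0) hn).2
  rw [hn0, mul_zero] at hd
  obtain ⟨H, T, hH, -, hTO, -, hT, -, h1⟩ := cancel_all (G := Fin 0 → ℝ) h h3 hu.1 hu.2.1 hc
    isOpen_univ hUb convex_univ (d' := 0) (K := ∅) isClosed_empty (Sm.empty 0)
    (by simp; omega) (fun _ _ => notMem_empty _) (by simp) (W := fun p => (0, u p))
    (by fun_prop) (fun _ _ => notMem_empty _) (fun p hp e => hu.2.2.2 p hp e.2)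
    (by
      refine Eq.trans ?_ hd
      congr 1
      funext q
      simp)
  have key : ∀ x ∈ frontier O, (H (x, 1)).2 = u x := fun x hx => by
    rw [hT x fun c => (hu.1.frontier_eq ▸ hx : x ∈ closure O \ O).2 (hTO c)]
  refine ⟨fun x => (H (x, 1)).2, by fun_prop, key, fun x hx e => ?_⟩
  by_cases hO : x ∈ O
  · exact h1 x hO ⟨mem_univ _, e⟩
  · have hf : x ∈ frontier O := by
      rw [hu.1.frontier_eq]
      exact ⟨hx, hO⟩
    exact hu.2.2.2 x hf ((key x hf).symm.trans e)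

/-- The same on the homeomorphic image of a convex set. -/
theorem hopf_img (h : Module.finrank ℝ E = Module.finrank ℝ F)
    (hG : Module.finrank ℝ G = Module.finrank ℝ E) (h3 : 3 ≤ Module.finrank ℝ F) {O : Set G}
    (hO : IsOpen O) (hb : Bornology.IsBounded O) (hc : Convex ℝ O) {φ : G → E}
    (hφ : Continuous φ) (hi : InjOn φ (closure O)) {u : E → F} (hu : Adm (φ '' O) u)
    (h0 : deg (φ '' O) u = 0) :
    ∃ v : E → F, Continuous v ∧ EqOn v u (φ '' frontier O) ∧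
      ∀ x ∈ closure O, v (φ x) ≠ 0 := by
  obtain ⟨-, -, -, hfr⟩ := frontier_image hG hO hb hφ hi
  obtain ⟨-, e, -, he⟩ := deg_homeo h hG hO hb hc.isPreconnected hφ hi
  have ha : Adm O fun x => u (φ x) :=
    ⟨hO, hb, hu.2.2.1.comp hφ, fun x hx => hu.2.2.2 _ (hfr ▸ mem_image_of_mem φ hx)⟩
  obtain ⟨v, hv, hvu, hne⟩ := hopf (hG.trans h) h3 hc ha (by rw [he u hu, h0, mul_zero])
  obtain ⟨k, hk, hkφ⟩ := exists_left_inv hb.isCompact_closure hφ hi
  refine ⟨fun y => v (k y), hv.comp hk, ?_, fun x hx => ?_⟩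
  · rintro _ ⟨x, hx, rfl⟩
    simp only
    rw [hkφ x (frontier_subset_closure hx)]
    exact hvu hx
  · simp only
    rw [hkφ x hx]
    exact hne x hx

end BEp
end
end

-- merged part: Pool.Agent.Work.MP_f0515e_an.Pos.HWh
section
/-! EXPORT (HOM). Removing an algebraically trivial intersection: H4 of the plan.

PLAN. `Cell.coords σ` with `G := E` gives `Λ : F ≃L (Fin c → ℝ) × E`. Apply `cancel_all` to
`W' p = Λ (W p - σ.o)`, `U = σ.U`, `K' = (fun z => Λ (z - σ.o)) '' K` (closed: image under a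
homeomorphism; `Sm.image`), using `Λ (σ.φ y - W p) = (y, 0) - W' p` and `deg_target` (the pair is
admissible by `frontier_prod_eq`). Transport back: `H (p, r) = Λ.symm (H' (p, r)) + σ.o`.
About 120 lines. -/

open Set Metric Filter Topology Function BEv
open scoped NNReal

noncomputable section
namespace BEp

variable {E F G : Type} [NormedAddCommGroup E] [NormedSpace ℝ E] [FiniteDimensional ℝ E]
  [NormedAddCommGroup F] [NormedSpace ℝ F] [FiniteDimensional ℝ F]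
  [NormedAddCommGroup G] [NormedSpace ℝ G] [FiniteDimensional ℝ G]

theorem whitney {c d' : ℕ} (σ : Cell c F)
    (hdim : c + Module.finrank ℝ E = Module.finrank ℝ F) (h3 : 3 ≤ Module.finrank ℝ E)
    {O : Set E} (hO : IsOpen O) (hOb : Bornology.IsBounded O) (hOc : Convex ℝ O) {K : Set F}
    (hK : IsClosed K) (hKs : Sm d' K) (hd' : d' + 2 < Module.finrank ℝ F)
    (hKσ : Disjoint K σ.car) (hbd : σ.bd ⊆ K) {W : E → F} (hW : Continuous W)
    (hWO : ∀ p ∈ O, W p ∉ K) (hWf : ∀ p ∈ frontier O, W p ∉ σ.cl)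
    (h0 : deg (σ.U ×ˢ O) (fun q : (Fin c → ℝ) × E => σ.φ q.1 - W q.2) = 0) :
    ∃ H : E × ℝ → F, Continuous H ∧ (∀ p, H (p, 0) = W p) ∧
      (∀ p, p ∉ O → ∀ r, H (p, r) = W p) ∧ (∀ p ∈ O, ∀ r ∈ Icc (0 : ℝ) 1, H (p, r) ∉ K) ∧
      ∀ p ∈ O, H (p, 1) ∉ σ.car := by
  obtain ⟨Λ, hΛ⟩ := σ.coords (G := E) hdim
  let ψ : F ≃ₜ (Fin c → ℝ) × E := (Homeomorph.subRight σ.o).trans Λ.toHomeomorph
  have h1 : ∀ z, ψ z = Λ (z - σ.o) := fun _ => rfl
  have h2 : ∀ y, ψ (σ.φ y) = (y, 0) := fun y => by rw [h1, Cell.φ, add_sub_cancel_right, hΛ]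
  have h4 : ∀ z, ψ z ∈ ψ '' K ↔ z ∈ K := fun _ => ψ.injective.mem_set_image
  have h5 : Module.finrank ℝ ((Fin c → ℝ) × E) = Module.finrank ℝ F :=
    Λ.toLinearEquiv.finrank_eq.symm
  obtain ⟨e, -, he⟩ := deg_target h5 Λ
  have h6 : Adm (σ.U ×ˢ O) fun q : (Fin c → ℝ) × E => σ.φ q.1 - W q.2 := by
    refine ⟨σ.op.prod hO, σ.bdd.prod hOb, (σ.cont.comp continuous_fst).sub (hW.comp continuous_snd),
      fun q hq h => ?_⟩
    by_cases a : q.2 ∈ frontier O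
    · exact hWf _ a ⟨q.1, (closure_prod_eq.subset hq.1).1, sub_eq_zero.1 h⟩
    · rw [frontier_prod_eq] at hq
      obtain ⟨b1, b2⟩ := hq.resolve_left fun b => a b.2
      rw [closure_eq_self_union_frontier] at b2
      exact hWO _ (b2.resolve_right a) (hbd ⟨q.1, b1, sub_eq_zero.1 h⟩)
  obtain ⟨H, T, a1, -, a2, a3, a4, a5, a6⟩ := cancel_all rfl h3 hO hOb hOc σ.op σ.bdd σ.conv
    (ψ.isClosedMap K hK) (hKs.image (Λ.lipschitz.comp (LipschitzWith.of_dist_le_mul (K := 1)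
      (f := (· - σ.o)) fun x y => by simp)).locallyLipschitz.locallyLipschitzOn) (h5 ▸ hd')
    (fun y hy h => disjoint_left.1 hKσ ((h4 _).1 (h2 y ▸ h)) ⟨y, hy, rfl⟩)
    (fun y hy => h2 y ▸ (h4 _).2 (hbd ⟨y, hy, rfl⟩)) (ψ.continuous.comp hW)
    (fun p hp h => hWO p hp ((h4 _).1 h))
    (fun p hp h => hWf p hp ⟨_, h.1, ψ.injective ((h2 _).trans (Prod.ext rfl h.2.symm))⟩) (by
      rw [← mul_zero e, ← h0, ← he _ _ h6]
      refine congrArg _ (funext fun q => ?_)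
      rw [← h2, comp_apply, h1, h1, ← map_sub, sub_sub_sub_cancel_right])
  refine ⟨ψ.symm ∘ H, ψ.symm.continuous.comp a1, fun p => ψ.symm_apply_eq.2 (a3 p),
    fun p hp r => ψ.symm_apply_eq.2 (a4 p (fun h => hp (a2 h)) r),
    fun p hp r hr h => a5 p hp r hr ⟨_, h, ψ.apply_symm_apply _⟩, fun p hp ⟨y, h7, h8⟩ => ?_⟩
  have := a6 p hp
  rw [← ψ.apply_symm_apply (H (p, 1)), ← show σ.φ y = ψ.symm (H (p, 1)) from h8, h2] at this
  exact this ⟨h7, rfl⟩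

end BEp
end
end

-- merged part: Pool.Agent.Work.MP_f0515e_an.Pos.GV5b
section
/-! TASK GV5b. Clearing all far cells, one at a time.
Plan. Finset induction on S inside L: there is W' continuous, equal to W off O, with W' O missing Z1 and the cars of S, and with degree 0 against every l in L.
Step for l: whitney with K = Z1 u union over l' in S of cl l' (closed, Sm m, misses car l by cl_disj and top_sub, contains bd l; W' O misses it since cl = car u bd).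
The degree against l' in L is unchanged along the homotopy H: on the frontier of U l' x O either phi y is in bd l' inside Z1 inside K and p in O, or p is in the frontier of O where H is W
(frontier of a product, O open so frontier points are not in O); isDeg.htp. -/

open Set Metric Filter Topology Function BEv
open scoped NNReal

noncomputable section
namespace BEp

theorem Ctx.clear {m : ℕ} (X : Ctx m) {O : Set ((Fin m → ℝ) × ℝ)} (hO : IsOpen O)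
    (hOb : Bornology.IsBounded O) (hOc : Convex ℝ O) (L : Set X.T) {W : (Fin m → ℝ) × ℝ → V m}
    (hW : Continuous W) (hWO : ∀ p ∈ O, W p ∉ X.st.Z1)
    (hWf : ∀ l ∈ L, ∀ p ∈ frontier O, W p ∉ (X.top l).cl)
    (h0 : ∀ l ∈ L, deg ((X.top l).U ×ˢ O)
      (fun q : (Fin m → ℝ) × ((Fin m → ℝ) × ℝ) => (X.top l).φ q.1 - W q.2) = 0) :
    ∃ W' : (Fin m → ℝ) × ℝ → V m, Continuous W' ∧ (∀ p, p ∉ O → W' p = W p) ∧
      ∀ l ∈ L, ∀ p ∈ O, W' p ∉ (X.top l).cl := by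
  have hfr : ∀ p ∈ frontier O, p ∉ O := fun p hp => (hO.frontier_eq ▸ hp).2
  have key : ∀ S : Set X.T, S.Finite → S ⊆ L →
      ∃ W' : (Fin m → ℝ) × ℝ → V m, Continuous W' ∧ (∀ p, p ∉ O → W' p = W p) ∧
        (∀ p ∈ O, W' p ∉ X.st.Z1) ∧ (∀ l ∈ S, ∀ p ∈ O, W' p ∉ (X.top l).car) ∧
        ∀ l ∈ L, deg ((X.top l).U ×ˢ O)
          (fun q : (Fin m → ℝ) × ((Fin m → ℝ) × ℝ) => (X.top l).φ q.1 - W' q.2) = 0 := by
    intro S hS
    induction S, hS using Set.Finite.induction_on with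
    | empty => exact fun _ => ⟨W, hW, fun _ _ => rfl, hWO, fun _ h => h.elim, h0⟩
    | @insert l S hl hS ih =>
      intro hL
      obtain ⟨W1, c1, e1, z1, s1, d1⟩ := ih ((subset_insert _ _).trans hL)
      have hm := X.hm
      have hf1 : ∀ l ∈ L, ∀ p ∈ frontier O, W1 p ∉ (X.top l).cl := fun l h p hp =>
        (e1 p (hfr p hp)).symm ▸ hWf l h p hp
      obtain ⟨H, cH, H0, H1, H2, H3⟩ := whitney (d' := m) (X.top l) (by simp; omega)
        (by simp; omega) hO hOb hOc (K := X.st.Z1 ∪ ⋃ j : S, (X.top j).cl)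
        (X.st.p1.1.isClosed.union
          (isClosed_iUnion_of_finite fun j => (X.top j).compact_cl.isClosed))
        ((X.st.pc1.sm.le (Nat.sub_le _ _)).union (Sm.iUnion fun j => (X.top j).pc_cl.sm))
        (by simp; omega)
        (disjoint_union_left.2 ⟨disjoint_left.2 fun x h h' => (X.st.top_sub l h').2 h,
          disjoint_iUnion_left.2 fun j => (X.cl_disj fun (e : l = j.1) => hl (e ▸ j.2)).symm⟩)
        ((X.st.top_bd l).trans subset_union_left) c1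
        (fun p hp h => h.elim (z1 p hp) fun h => by
          obtain ⟨j, hj⟩ := mem_iUnion.1 h
          rw [Cell.cl_eq] at hj
          exact hj.elim (s1 j j.2 p hp) fun h => z1 p hp (X.st.top_bd j h))
        (hf1 l (hL (mem_insert _ _))) (d1 l (hL (mem_insert _ _)))
      have h01 : (1 : ℝ) ∈ Icc (0 : ℝ) 1 := ⟨zero_le_one, le_rfl⟩
      refine ⟨fun p => H (p, 1), by fun_prop, fun p hp => (H1 p hp 1).trans (e1 p hp),
        fun p hp h => H2 p hp 1 h01 (Or.inl h), fun j hj p hp h => ?_, fun j hj => ?_⟩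
      · rcases hj with rfl | hj
        · exact H3 p hp h
        · exact H2 p hp 1 h01 (Or.inr (mem_iUnion.2 ⟨⟨j, hj⟩, image_mono subset_closure h⟩))
      · have cφ := (X.top j).cont
        have h1 := (isDeg (E := (Fin m → ℝ) × ((Fin m → ℝ) × ℝ)) (F := V m)
          (by simp; omega)).htp ((X.top j).U ×ˢ O)
          (fun q => (X.top j).φ q.1.1 - H (q.1.2, q.2)) ((X.top j).op.prod hO)
          ((X.top j).bdd.prod hOb) (by fun_prop) fun q hq s hs h => by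
            have h2 : H (q.2, s) = (X.top j).φ q.1 := (sub_eq_zero.1 h).symm
            have h3 : q.1 ∈ closure (X.top j).U ∧ q.2 ∈ closure O := by
              have := frontier_subset_closure hq
              rwa [closure_prod_eq] at this
            by_cases h4 : q.2 ∈ O
            · refine H2 _ h4 s hs (Or.inl (X.st.top_bd j ⟨q.1, ?_, h2.symm⟩))
              rw [(X.top j).op.frontier_eq]
              rw [((X.top j).op.prod hO).frontier_eq] at hq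
              exact ⟨h3.1, fun h5 => hq.2 ⟨h5, h4⟩⟩
            · refine hf1 j hj q.2 (hO.frontier_eq ▸ ⟨h3.2, h4⟩) ⟨q.1, h3.1, ?_⟩
              rw [← h2, H1 _ h4]
        simp only [H0] at h1
        exact h1.symm.trans (d1 j hj)
  obtain ⟨W', c1, e1, z1, s1, -⟩ := key L (toFinite _) Subset.rfl
  refine ⟨W', c1, e1, fun l hl p hp h => ?_⟩
  rw [Cell.cl_eq] at h
  exact h.elim (s1 l hl p hp) fun h => z1 p hp (X.st.top_bd l h)

end BEp
end
end

-- merged part: Pool.Agent.Work.MP_f0515e_an.Pos.HSph0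
section
/-!
A model sphere, its hemispheres and its equator.

Plan.  `sm_sphere`: for `x` on the sphere choose `φ : Y →L[ℝ] ℝ` with `φ x = 1` among the finitely many
`± c • coordinate`, or simply cover by the sets `{± b.coord l > 0}`; such a piece is the image of the affine
hyperplane `{± b.coord l = 1}` (`PC.sm`, or a translate of `ker`, whose `finrank` is one less) under
`y ↦ ‖y‖⁻¹ • y`, which is locally Lipschitz away from `0`.  `sm_sg`: `SgP ⊆ hem '' univ ∪ (-hem) '' univ`, `hem` is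
Lipschitz.  `dg_frontier`: `frontier_lt_subset_eq`.  `hemi_glue`: `glue_odd` with `i (x, z) = (-x, z)`,
`A = Eqt ×ˢ Q ∪ SgP ×ˢ Qb`, `B = {x ∈ SgP | 0 ≤ x.2} ×ˢ Q`, `u = K0`, second map `(x, z) ↦ v (x.1, z)`;
a point of `SgP` with `0 ≤ x.2` is `hem x.1`.
-/

open Set Metric Filter Topology Function BEv
open scoped NNReal

noncomputable section
namespace BEp

variable {Y F : Type} [NormedAddCommGroup Y] [NormedSpace ℝ Y] [FiniteDimensional ℝ Y]
  [NormedAddCommGroup F] [NormedSpace ℝ F] [FiniteDimensional ℝ F]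

/-- The suspension norm. -/
def N1 (x : Y × ℝ) : ℝ := ‖x.1‖ + |x.2|

def SgP (Y : Type) [NormedAddCommGroup Y] : Set (Y × ℝ) := {x | N1 x = 1}

def Dg (Y : Type) [NormedAddCommGroup Y] : Set (Y × ℝ) := {x | N1 x < 1}

def Eqt (Y : Type) [NormedAddCommGroup Y] : Set (Y × ℝ) := {x | ‖x.1‖ = 1 ∧ x.2 = 0}

/-- Chart of the upper hemisphere. -/
def hem (y : Y) : Y × ℝ := (y, 1 - ‖y‖)

theorem hsph0_piece (φ : Y →L[ℝ] ℝ) :
    Sm (Module.finrank ℝ Y - 1) {x : Y | ‖x‖ = 1 ∧ 0 < φ x} := by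
  rcases eq_empty_or_nonempty {x : Y | ‖x‖ = 1 ∧ 0 < φ x} with e | ⟨x₀, -, h0⟩
  · rw [e]
    exact Sm.empty _
  have h1 := LinearMap.finrank_range_add_finrank_ker (φ : Y →ₗ[ℝ] ℝ)
  rw [LinearMap.range_eq_top.2 fun y => ⟨(y / φ x₀) • x₀, by simp [h0.ne']⟩, finrank_top,
    Module.finrank_self] at h1
  set K := LinearMap.ker (φ : Y →ₗ[ℝ] ℝ) with hK
  have h2 : Sm (Module.finrank ℝ K) (K.subtypeL '' univ) :=
    Sm.univ.image K.subtypeL.lipschitz.locallyLipschitz.locallyLipschitzOn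
  refine (plgp_inv h2 (π := fun x => (φ x)⁻¹ • x - (φ x₀)⁻¹ • x₀)
    (fun x hx => ⟨⟨_, ?_⟩, mem_univ _, rfl⟩) (K := 2 * ‖φ‖) ?_).le (by omega)
  · change φ ((φ x)⁻¹ • x - (φ x₀)⁻¹ • x₀) = 0
    simp [hx.2.ne', h0.ne']
  rintro x ⟨a1, a2⟩ x' ⟨b1, b2⟩
  rw [sub_sub_sub_cancel_right]
  have e : x - x' = φ x • ((φ x)⁻¹ • x - (φ x')⁻¹ • x') + (φ x * ((φ x')⁻¹ - (φ x)⁻¹)) • x' := by
    rw [smul_sub, smul_inv_smul₀ a2.ne', mul_sub, mul_inv_cancel₀ a2.ne', sub_smul, mul_smul,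
      one_smul]
    abel
  have c1 : φ x ≤ ‖φ‖ := (le_abs_self _).trans ((φ.le_opNorm x).trans_eq (by rw [a1, mul_one]))
  have c2 := abs_norm_sub_norm_le ((φ x')⁻¹ • x') ((φ x)⁻¹ • x)
  rw [norm_sub_rev, norm_smul, norm_smul, a1, b1, mul_one, mul_one,
    Real.norm_of_nonneg (inv_nonneg.2 a2.le), Real.norm_of_nonneg (inv_nonneg.2 b2.le)] at c2
  have c3 := (congrArg norm e).trans_le (norm_add_le _ _)
  rw [norm_smul, norm_smul, b1, mul_one, norm_mul, Real.norm_of_nonneg a2.le,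
    Real.norm_eq_abs] at c3
  have c4 := mul_le_mul_of_nonneg_left c2 a2.le
  have c5 := mul_le_mul_of_nonneg_right c1 (norm_nonneg ((φ x)⁻¹ • x - (φ x')⁻¹ • x'))
  linarith only [c3, c4, c5]

theorem sm_sphere : Sm (Module.finrank ℝ Y - 1) (sphere (0 : Y) 1) := by
  let b := Module.finBasis ℝ Y
  refine ((Sm.iUnion fun l => hsph0_piece (LinearMap.toContinuousLinearMap (b.coord l))).union
    (Sm.iUnion fun l => hsph0_piece (-LinearMap.toContinuousLinearMap (b.coord l)))).mono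
    fun x hx => ?_
  have h1 : ‖x‖ = 1 := mem_sphere_zero_iff_norm.1 hx
  obtain ⟨l, hl⟩ : ∃ l, b.coord l x ≠ 0 := by
    by_contra h
    push Not at h
    rw [b.forall_coord_eq_zero_iff.1 h, norm_zero] at h1
    exact zero_ne_one h1
  rcases hl.lt_or_gt with h | h
  · exact Or.inr (mem_iUnion.2 ⟨l, h1, neg_pos.2 h⟩)
  · exact Or.inl (mem_iUnion.2 ⟨l, h1, h⟩)

theorem n1_cont : Continuous (N1 : Y × ℝ → ℝ) :=
  continuous_fst.norm.add continuous_snd.abs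

theorem n1_smul (t : ℝ) (x : Y × ℝ) : N1 (t • x) = |t| * N1 x := by
  simp [N1, norm_smul, abs_mul, mul_add]

theorem n1_neg (x : Y × ℝ) : N1 (-x) = N1 x := by
  simp [N1]

theorem n1_pos {x : Y × ℝ} (h : x ≠ 0) : 0 < N1 x :=
  (norm_pos_iff.2 h).trans_le (norm_prod_le_iff.2
    ⟨le_add_of_nonneg_right (abs_nonneg _), le_add_of_nonneg_left (norm_nonneg _)⟩)

theorem norm_le_n1 (x : Y × ℝ) : ‖x‖ ≤ N1 x :=
  norm_prod_le_iff.2
    ⟨le_add_of_nonneg_right (abs_nonneg _), le_add_of_nonneg_left (norm_nonneg _)⟩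

theorem hem_cont : Continuous (hem : Y → Y × ℝ) :=
  continuous_id.prodMk (continuous_const.sub continuous_norm)

theorem hem_mem {y : Y} (h : ‖y‖ ≤ 1) : hem y ∈ SgP Y := by
  change ‖y‖ + |1 - ‖y‖| = 1
  rw [abs_of_nonneg (sub_nonneg.2 h), add_sub_cancel]

theorem hem_eqt {y : Y} (h : ‖y‖ = 1) : hem y ∈ Eqt Y := ⟨h, sub_eq_zero.2 h.symm⟩

theorem eqt_sub : Eqt Y ⊆ SgP Y := fun x hx => by
  change ‖x.1‖ + |x.2| = 1
  rw [hx.1, hx.2, abs_zero, add_zero]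

theorem sg_compact : IsCompact (SgP Y) :=
  (isCompact_closedBall 0 1).of_isClosed_subset (isClosed_eq n1_cont continuous_const)
    fun x hx => mem_closedBall_zero_iff.2 ((norm_le_n1 x).trans_eq hx)

theorem eqt_compact : IsCompact (Eqt Y) :=
  sg_compact.of_isClosed_subset ((isClosed_eq continuous_fst.norm continuous_const).inter
    (isClosed_eq continuous_snd continuous_const)) eqt_sub

theorem sg_neg {x : Y × ℝ} (h : x ∈ SgP Y) : -x ∈ SgP Y := (n1_neg x).trans h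

theorem eqt_neg {x : Y × ℝ} (h : x ∈ Eqt Y) : -x ∈ Eqt Y :=
  ⟨(norm_neg x.1).trans h.1, neg_eq_zero.2 h.2⟩

omit [NormedSpace ℝ Y] [FiniteDimensional ℝ Y] in
theorem hsph0_hem {x : Y × ℝ} (h : x ∈ SgP Y) (h0 : 0 ≤ x.2) : ‖x.1‖ ≤ 1 ∧ hem x.1 = x := by
  have h1 : ‖x.1‖ + |x.2| = 1 := h
  rw [abs_of_nonneg h0] at h1
  exact ⟨by linarith, Prod.ext rfl (by change 1 - ‖x.1‖ = x.2; linarith)⟩

omit [NormedSpace ℝ Y] [FiniteDimensional ℝ Y] in
theorem hsph0_lip : LocallyLipschitz (hem : Y → Y × ℝ) :=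
  (LipschitzWith.id.prodMk ((LipschitzWith.const (1 : ℝ)).sub lipschitzWith_one_norm)).locallyLipschitz

theorem sm_sg : Sm (Module.finrank ℝ Y) (SgP Y) := by
  refine ((Sm.univ.image hsph0_lip.locallyLipschitzOn).union
    (Sm.univ.image hsph0_lip.neg.locallyLipschitzOn)).mono fun x hx => ?_
  rcases le_total 0 x.2 with h | h
  · exact Or.inl ⟨x.1, mem_univ _, (hsph0_hem hx h).2⟩
  · exact Or.inr ⟨(-x).1, mem_univ _,
      neg_eq_iff_eq_neg.2 (hsph0_hem (sg_neg hx) (neg_nonneg.2 h)).2⟩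

theorem sm_eqt : Sm (Module.finrank ℝ Y - 1) (Eqt Y) :=
  (sm_sphere.image hsph0_lip.locallyLipschitzOn).mono fun x hx =>
    ⟨x.1, mem_sphere_zero_iff_norm.2 hx.1, (hsph0_hem (eqt_sub hx) hx.2.ge).2⟩

theorem dg_open : IsOpen (Dg Y) := isOpen_lt n1_cont continuous_const

theorem dg_bdd : Bornology.IsBounded (Dg Y) :=
  (isBounded_ball (x := 0) (r := 1)).subset fun x hx =>
    mem_ball_zero_iff.2 ((norm_le_n1 x).trans_lt hx)

theorem dg_convex : Convex ℝ (Dg Y) := by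
  have h : ConvexOn ℝ univ (N1 : Y × ℝ → ℝ) := by
    refine ⟨convex_univ, fun x _ y _ a b ha hb _ => ?_⟩
    have h1 := norm_add_le (a • x).1 (b • y).1
    have h2 := abs_add_le (a • x).2 (b • y).2
    have h3 := n1_smul a x
    have h4 := n1_smul b y
    rw [abs_of_nonneg ha] at h3
    rw [abs_of_nonneg hb] at h4
    rw [smul_eq_mul, smul_eq_mul, ← h3, ← h4]
    change ‖(a • x).1 + (b • y).1‖ + |(a • x).2 + (b • y).2| ≤ _
    unfold N1
    linarith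
  simpa [Dg] using h.convex_lt 1

theorem dg_frontier : frontier (Dg Y) ⊆ SgP Y := frontier_lt_subset_eq n1_cont continuous_const

theorem dg_closure : closure (Dg Y) ⊆ {x | N1 x ≤ 1} := closure_lt_subset_le n1_cont continuous_const

/-- An extension over the upper hemisphere gives an odd extension over the sphere. -/
theorem hemi_glue {Z : Type} [NormedAddCommGroup Z] [NormedSpace ℝ Z] [FiniteDimensional ℝ Z]
    {Q Qb : Set Z} (hQ : IsClosed Q) (hQb : IsClosed Qb) (hs : Qb ⊆ Q)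
    {K0 : (Y × ℝ) × Z → F} (hK : Continuous K0) (ho : ∀ x z, K0 (-x, z) = -K0 (x, z))
    {v : Y × Z → F} (hv : Continuous v) (hne : ∀ y, ‖y‖ ≤ 1 → ∀ z ∈ Q, v (y, z) ≠ 0)
    (he : ∀ y, ‖y‖ ≤ 1 → ∀ z ∈ Q, ‖y‖ = 1 ∨ z ∈ Qb → v (y, z) = K0 (hem y, z)) :
    ∃ K : (Y × ℝ) × Z → F, Continuous K ∧ (∀ x z, K (-x, z) = -K (x, z)) ∧
      (∀ x ∈ SgP Y, ∀ z ∈ Q, K (x, z) ≠ 0) ∧ ∀ x ∈ SgP Y, ∀ z ∈ Qb, K (x, z) = K0 (x, z) := by
  obtain ⟨g, h1, h2, h3, h4⟩ := glue_odd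
    ((-ContinuousLinearMap.id ℝ (Y × ℝ)).prodMap (ContinuousLinearMap.id ℝ Z))
    (fun x => Prod.ext (neg_neg x.1) rfl) (A := Eqt Y ×ˢ Q ∪ SgP Y ×ˢ Qb)
    (B := (SgP Y ∩ {x | 0 ≤ x.2}) ×ˢ Q)
    ((eqt_compact.isClosed.prod hQ).union (sg_compact.isClosed.prod hQb))
    ((sg_compact.isClosed.inter (isClosed_le continuous_const continuous_snd)).prod hQ)
    (fun x hx => hx.imp (fun h => ⟨eqt_neg h.1, h.2⟩) fun h => ⟨sg_neg h.1, h.2⟩)
    (fun x hx hx' => by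
      have a1 : x.1.2 = 0 := le_antisymm (neg_nonneg.1 hx'.1.2) hx.1.2
      have a2 : ‖x.1.1‖ + |x.1.2| = 1 := hx.1.1
      rw [a1, abs_zero, add_zero] at a2
      exact Or.inl ⟨⟨a2, a1⟩, hx.2⟩)
    hK (v := fun x => v (x.1.1, x.2)) (by fun_prop) (fun x => ho x.1 x.2) (fun x hx => by
      obtain ⟨a1, a2⟩ := hsph0_hem hx.2.1.1 hx.2.1.2
      have a3 := he _ a1 _ hx.2.2 (hx.1.imp (fun h => h.1.1) fun h => h.2)
      rw [a2] at a3
      exact a3.symm)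
  have h5 : ∀ x ∈ SgP Y, 0 ≤ x.2 → ∀ z ∈ Q, g (x, z) ≠ 0 := fun x hx h z hz =>
    (h4 (x := (x, z)) ⟨⟨hx, h⟩, hz⟩).trans_ne (hne _ (hsph0_hem hx h).1 z hz)
  refine ⟨g, h1, fun x z => h2 (x, z), fun x hx z hz => ?_, fun x hx z hz => h3 (Or.inr ⟨hx, hz⟩)⟩
  rcases le_total 0 x.2 with h | h
  · exact h5 x hx h z hz
  · exact neg_ne_zero.1 ((h2 (x, z)).symm.trans_ne (h5 _ (sg_neg hx) (neg_nonneg.2 h) z hz))

end BEp
end
end
end

-- merged part: Pool.Agent.Work.MP_f0515e_an.Pos.HPush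
section
-- merged part: Pool.Agent.Work.MP_f0515e_an.Pos.HGrid
section
/-!
Facts on the integer grid.

Plan.  `skel_closed`: `mem_skel`, finite union over `T`, `Int.isClosedEmbedding_coe_real.isClosed_range`.
`sm_coord`: image of `univ : Set (T → ℝ)` (`Sm.univ`, `finrank = T.card`) under the Lipschitz map extending
by `a`.  `sm_skel`: countable union over `(T, k : ι → ℤ)`.  `del_iff`: `Int.le_floor`, `Int.ceil_le`.
`del_closed`: finite union over `l` of `{(a, b) | ∃ k : ℤ, a ≤ k ∧ k + 1 ≤ b}`, whose complement is open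
(at `(a, b)` take `a' > ⌈a⌉ - 1`, `b' < ⌈a⌉ + 1`).  `ctr_finite`: subset of the image of a finite box of
`ι → ℤ`.  `exists_ctr`: `q l = (⌊y l⌋ + ⌈y l⌉) / 2` has the same floor and ceiling as `y l`.
`ctr_inter`: if `y` has `d + 1` non-integer coordinates, then these are exactly the non-integer coordinates
of `q` (an integer coordinate of `q` forces `y l = q l`), and `q l = ⌊y l⌋ + 1 / 2` there, `q l = y l`
elsewhere; so `q = q'`.
-/

open Set Metric Filter Topology Function BEv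
open scoped NNReal

noncomputable section
namespace BEp

variable {ι : Type} [Fintype ι]

theorem dd_eq_zero_iff {t : ℝ} : dd t = 0 ↔ ∃ k : ℤ, t = k := by
  unfold dd
  constructor
  · intro h
    exact ⟨round t, by have := abs_eq_zero.1 h; linarith⟩
  · rintro ⟨k, rfl⟩
    simp

theorem dd_cont : Continuous dd := by
  refine (LipschitzWith.of_le_add (f := dd) fun s t => ?_).continuous
  unfold dd
  have h1 := round_le s (round t)
  have h2 : |s - round t| ≤ |s - t| + |t - round t| := abs_sub_le s t (round t)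
  rw [Real.dist_eq]
  linarith

theorem mem_skel {d : ℕ} {x : ι → ℝ} :
    x ∈ Skel d ↔ ∃ T : Finset ι, T.card ≤ d ∧ ∀ l, l ∉ T → ∃ k : ℤ, x l = k := by
  classical
  constructor
  · intro h
    refine ⟨_, h, fun l hl => ?_⟩
    apply dd_eq_zero_iff.1
    by_contra hc
    exact hl (Finset.mem_filter.2 ⟨Finset.mem_univ _, hc⟩)
  · rintro ⟨T, hT, h⟩
    refine le_trans (Finset.card_le_card fun l hl => ?_) hT
    by_contra hc
    exact (Finset.mem_filter.1 hl).2 (dd_eq_zero_iff.2 (h l hc))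

theorem skel_closed (d : ℕ) : IsClosed (Skel d : Set (ι → ℝ)) := by
  have e : (Skel d : Set (ι → ℝ)) =
      ⋃ T : {T : Finset ι // T.card ≤ d}, ⋂ l : {l : ι // l ∉ T.1}, {x | dd (x l.1) = 0} := by
    ext x
    simp only [mem_skel, mem_iUnion, mem_iInter, mem_ofPred_eq, dd_eq_zero_iff, Subtype.forall,
      Subtype.exists, exists_prop]
  rw [e]
  exact isClosed_iUnion_of_finite fun T => isClosed_iInter fun l =>
    isClosed_eq (dd_cont.comp (continuous_apply l.1)) continuous_const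

theorem skel_mono {d d' : ℕ} (h : d ≤ d') : (Skel d : Set (ι → ℝ)) ⊆ Skel d' := fun _ hx =>
  le_trans hx h

theorem skel_int (d : ℕ) {x : ι → ℝ} (h : ∀ l, ∃ k : ℤ, x l = k) : x ∈ Skel d :=
  mem_skel.2 ⟨∅, by simp, fun l _ => h l⟩

theorem skel_card {d : ℕ} (h : Fintype.card ι ≤ d) (x : ι → ℝ) : x ∈ Skel d :=
  mem_skel.2 ⟨Finset.univ, by simpa using h, fun l hl => absurd (Finset.mem_univ l) hl⟩

theorem sm_coord (T : Finset ι) (a : ι → ℝ) :
    Sm T.card {x : ι → ℝ | ∀ l, l ∉ T → x l = a l} := by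
  classical
  refine plsm_mk (G := T → ℝ) (κ := Unit) (by simp)
    (fun _ z l => if h : l ∈ T then z ⟨l, h⟩ else a l) (fun _ => univ) (fun _ => ⟨1, ?_⟩) ?_
  · refine (LipschitzWith.of_dist_le_mul fun z w => ?_).lipschitzOnWith
    rw [NNReal.coe_one, one_mul]
    refine (dist_pi_le_iff dist_nonneg).2 fun l => ?_
    by_cases h : l ∈ T
    · simpa [h] using dist_le_pi_dist z w ⟨l, h⟩
    · simp [h]
  · intro x hx
    refine mem_iUnion.2 ⟨(), fun l => x l.1, mem_univ _, ?_⟩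
    funext l
    by_cases h : l ∈ T
    · simp [h]
    · simp [h, hx l h]

theorem sm_skel (d : ℕ) : Sm d (Skel d : Set (ι → ℝ)) := by
  classical
  refine Sm.mono (Sm.iUnion (κ := {T : Finset ι // T.card ≤ d} × (ι → ℤ))
    (S := fun p => {x : ι → ℝ | ∀ l, l ∉ p.1.1 → x l = (fun l => (p.2 l : ℝ)) l})
    fun p => (sm_coord p.1.1 _).le p.1.2) ?_
  intro x hx
  obtain ⟨T, hT, h⟩ := mem_skel.1 hx
  refine mem_iUnion.2 ⟨(⟨T, hT⟩, fun l => ⌊x l⌋), fun l hl => ?_⟩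
  obtain ⟨k, hk⟩ := h l hl
  simp [hk]

theorem inCar_iff {x q : ι → ℝ} :
    InCar x q ↔ ∀ l (k : ℤ), (q l ≤ k → x l ≤ k) ∧ ((k : ℝ) ≤ q l → (k : ℝ) ≤ x l) := by
  constructor
  · intro h l k
    refine ⟨fun hk => (h l).2.trans ?_, fun hk => le_trans ?_ (h l).1⟩
    · exact_mod_cast Int.ceil_le.2 hk
    · exact_mod_cast Int.le_floor.2 hk
  · intro h l
    exact ⟨(h l _).2 (Int.floor_le _), (h l _).1 (Int.le_ceil _)⟩

theorem InCar.refl (x : ι → ℝ) : InCar x x :=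
  fun _ => ⟨Int.floor_le _, Int.le_ceil _⟩

theorem InCar.trans {x y z : ι → ℝ} (h : InCar x y) (h' : InCar y z) : InCar x z := by
  rw [inCar_iff] at h h' ⊢
  exact fun l k => ⟨fun hk => (h l k).1 ((h' l k).1 hk), fun hk => (h l k).2 ((h' l k).2 hk)⟩

theorem InCar.combo {x y q : ι → ℝ} (h : InCar x q) (h' : InCar y q) {t : ℝ}
    (ht : t ∈ Icc (0 : ℝ) 1) : InCar ((1 - t) • x + t • y) q := by
  intro l
  obtain ⟨h1, h2⟩ := h l
  obtain ⟨h3, h4⟩ := h' l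
  obtain ⟨t0, t1⟩ := ht
  simp only [Pi.add_apply, Pi.smul_apply, smul_eq_mul]
  constructor <;> linarith only [h1, t1, h3, t0, h2, h4, mul_nonneg_of_nonpos_of_nonpos (Mathlib.Tactic.Linarith.sub_nonpos_of_le h1) (Mathlib.Tactic.Linarith.sub_nonpos_of_le t1), mul_nonneg_of_nonpos_of_nonpos (Mathlib.Tactic.Linarith.sub_nonpos_of_le h3) (Mathlib.Tactic.Linarith.sub_nonpos_of_le t0), mul_nonneg_of_nonpos_of_nonpos (Mathlib.Tactic.Linarith.sub_nonpos_of_le h2) (Mathlib.Tactic.Linarith.sub_nonpos_of_le t1), mul_nonneg_of_nonpos_of_nonpos (Mathlib.Tactic.Linarith.sub_nonpos_of_le h4) (Mathlib.Tactic.Linarith.sub_nonpos_of_le t0)]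

theorem InCar.ball {x q : ι → ℝ} (h : InCar x q) {R : ℝ} (hR : ∃ k : ℕ, R = k)
    (hq : q ∈ closedBall (0 : ι → ℝ) R) : x ∈ closedBall (0 : ι → ℝ) R := by
  obtain ⟨k, rfl⟩ := hR
  rw [mem_closedBall_zero_iff] at hq ⊢
  refine (pi_norm_le_iff_of_nonneg (Nat.cast_nonneg k)).2 fun l => ?_
  have h1 := (norm_le_pi_norm q l).trans hq
  rw [Real.norm_eq_abs, abs_le] at h1 ⊢
  have h2 := (inCar_iff.1 h l (k : ℤ)).1 (by simpa using h1.2)
  have h3 := (inCar_iff.1 h l (-(k : ℤ))).2 (by simpa using h1.1)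
  exact ⟨by simpa using h3, by simpa using h2⟩

theorem InCar.skel {x q : ι → ℝ} (h : InCar x q) {d : ℕ} (hq : q ∈ Skel d) : x ∈ Skel d := by
  obtain ⟨T, hT, hl⟩ := mem_skel.1 hq
  refine mem_skel.2 ⟨T, hT, fun l hn => ?_⟩
  obtain ⟨k, hk⟩ := hl l hn
  exact ⟨k, le_antisymm ((inCar_iff.1 h l k).1 hk.le) ((inCar_iff.1 h l k).2 hk.ge)⟩

theorem inCar_closed (q : ι → ℝ) : IsClosed {x : ι → ℝ | InCar x q} := by
  have e : {x : ι → ℝ | InCar x q} =
      ⋂ l, ({x : ι → ℝ | (⌊q l⌋ : ℝ) ≤ x l} ∩ {x : ι → ℝ | x l ≤ (⌈q l⌉ : ℝ)}) := by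
    ext x
    simp [InCar]
  rw [e]
  exact isClosed_iInter fun l => (isClosed_le continuous_const (continuous_apply l)).inter
    (isClosed_le (continuous_apply l) continuous_const)

/-- Pairs of points with disjoint closed carriers. -/
def Del : Set ((ι → ℝ) × (ι → ℝ)) :=
  {p | ∃ l, ∃ k : ℤ, (p.1 l ≤ k ∧ (k : ℝ) + 1 ≤ p.2 l) ∨ (p.2 l ≤ k ∧ (k : ℝ) + 1 ≤ p.1 l)}

theorem del_iff {x q : ι → ℝ} :
    (x, q) ∈ Del ↔ ∃ l, x l ≤ (⌊q l⌋ : ℝ) - 1 ∨ (⌈q l⌉ : ℝ) + 1 ≤ x l := by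
  constructor
  · rintro ⟨l, k, ⟨h1, h2⟩ | ⟨h1, h2⟩⟩
    · refine ⟨l, Or.inl ?_⟩
      have h3 : k + 1 ≤ ⌊q l⌋ := Int.le_floor.2 (by simpa using h2)
      have h4 : (k : ℝ) + 1 ≤ ⌊q l⌋ := by exact_mod_cast h3
      simp only at h1
      linarith
    · refine ⟨l, Or.inr ?_⟩
      have h3 : ⌈q l⌉ ≤ k := Int.ceil_le.2 h1
      have h4 : (⌈q l⌉ : ℝ) ≤ k := by exact_mod_cast h3
      simp only at h2
      linarith
  · rintro ⟨l, h | h⟩
    · refine ⟨l, ⌊q l⌋ - 1, Or.inl ⟨by simpa using h, ?_⟩⟩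
      simpa using Int.floor_le (q l)
    · exact ⟨l, ⌈q l⌉, Or.inr ⟨Int.le_ceil _, h⟩⟩

theorem hgrid_closed : IsClosed {z : ℝ × ℝ | ∃ k : ℤ, z.1 ≤ k ∧ (k : ℝ) + 1 ≤ z.2} := by
  rw [← isOpen_compl_iff, isOpen_iff_mem_nhds]
  intro z hz
  have h1 : z.2 < (⌈z.1⌉ : ℝ) + 1 := by
    by_contra hc
    exact hz ⟨⌈z.1⌉, Int.le_ceil _, not_lt.1 hc⟩
  have h2 : (⌈z.1⌉ : ℝ) - 1 < z.1 := by linarith [Int.ceil_lt_add_one z.1]
  filter_upwards [continuous_fst.continuousAt.eventually (Ioi_mem_nhds h2),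
    continuous_snd.continuousAt.eventually (Iio_mem_nhds h1)] with w hw1 hw2
  rintro ⟨k, hk1, hk2⟩
  have h3 : (⌈z.1⌉ : ℝ) - 1 < k := lt_of_lt_of_le hw1 hk1
  have h4 : (k : ℝ) + 1 < ⌈z.1⌉ + 1 := lt_of_le_of_lt hk2 hw2
  have h5 : ⌈z.1⌉ - 1 < k := by exact_mod_cast h3
  have h6 : k + 1 < ⌈z.1⌉ + 1 := by exact_mod_cast h4
  omega

theorem del_closed : IsClosed (Del : Set ((ι → ℝ) × (ι → ℝ))) := by
  have e : (Del : Set ((ι → ℝ) × (ι → ℝ))) = ⋃ l : ι,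
      ((fun p => (p.1 l, p.2 l)) ⁻¹' {z : ℝ × ℝ | ∃ k : ℤ, z.1 ≤ k ∧ (k : ℝ) + 1 ≤ z.2} ∪
        (fun p => (p.2 l, p.1 l)) ⁻¹' {z : ℝ × ℝ | ∃ k : ℤ, z.1 ≤ k ∧ (k : ℝ) + 1 ≤ z.2}) := by
    ext p
    simp only [Del, mem_ofPred_eq, mem_iUnion, mem_union, mem_preimage, exists_or]
  rw [e]
  exact isClosed_iUnion_of_finite fun l =>
    (hgrid_closed.preimage (by fun_prop)).union (hgrid_closed.preimage (by fun_prop))

theorem del_swap {p : (ι → ℝ) × (ι → ℝ)} (h : p ∈ Del) : p.swap ∈ Del := by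
  obtain ⟨l, k, h⟩ := h
  exact ⟨l, k, h.symm⟩

theorem del_of_two {x y : ι → ℝ} (h : 2 ≤ ‖x - y‖) : (x, y) ∈ Del := by
  have : ∃ l, 2 ≤ |x l - y l| := by
    by_contra hc
    push Not at hc
    have := (pi_norm_lt_iff (x := x - y) two_pos).2 fun l => by
      simpa [Real.norm_eq_abs] using hc l
    linarith
  obtain ⟨l, hl⟩ := this
  rcases le_abs.1 hl with h1 | h1
  · refine ⟨l, ⌈y l⌉, Or.inr ⟨Int.le_ceil _, ?_⟩⟩
    have := Int.ceil_lt_add_one (y l)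
    simp only
    linarith
  · refine ⟨l, ⌈x l⌉, Or.inl ⟨Int.le_ceil _, ?_⟩⟩
    have := Int.ceil_lt_add_one (x l)
    simp only
    linarith

theorem del_one {x y : ι → ℝ} (h : (x, y) ∈ Del) : 1 ≤ ‖x - y‖ := by
  obtain ⟨l, k, h⟩ := h
  refine le_trans ?_ (norm_le_pi_norm (x - y) l)
  rw [Real.norm_eq_abs, Pi.sub_apply, le_abs]
  simp only at h
  rcases h with ⟨h1, h2⟩ | ⟨h1, h2⟩
  · right; linarith
  · left; linarith

theorem del_inCar {x y x' y' : ι → ℝ} (h : (x, y) ∈ Del) (hx : InCar x' x) (hy : InCar y' y) :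
    (x', y') ∈ Del := by
  obtain ⟨l, k, h⟩ := h
  refine ⟨l, k, ?_⟩
  simp only at h ⊢
  rcases h with ⟨h1, h2⟩ | ⟨h1, h2⟩
  · exact Or.inl ⟨(inCar_iff.1 hx l k).1 h1,
      by simpa using (inCar_iff.1 hy l (k + 1)).2 (by simpa using h2)⟩
  · exact Or.inr ⟨(inCar_iff.1 hy l k).1 h1,
      by simpa using (inCar_iff.1 hx l (k + 1)).2 (by simpa using h2)⟩

/-- Skeleton of the product grid. -/
def Skel2 (d : ℕ) : Set ((ι → ℝ) × (ι → ℝ)) :=
  {p | ∃ a b, a + b ≤ d ∧ p.1 ∈ Skel a ∧ p.2 ∈ Skel b}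

theorem skel2_iff {d : ℕ} {x y : ι → ℝ} :
    (x, y) ∈ Skel2 d ↔ (Sum.elim x y : ι ⊕ ι → ℝ) ∈ Skel d := by
  constructor
  · rintro ⟨a, b, hab, hx, hy⟩
    obtain ⟨T1, h1, hx⟩ := mem_skel.1 hx
    obtain ⟨T2, h2, hy⟩ := mem_skel.1 hy
    refine mem_skel.2 ⟨T1.disjSum T2, by rw [Finset.card_disjSum]; omega, ?_⟩
    rintro (l | l) hl
    · exact hx l (by simpa using hl)
    · exact hy l (by simpa using hl)
  · intro h
    obtain ⟨T, hT, h⟩ := mem_skel.1 h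
    refine ⟨T.toLeft.card, T.toRight.card, by rw [Finset.card_toLeft_add_card_toRight]; exact hT,
      mem_skel.2 ⟨T.toLeft, le_rfl, fun l hl => h (Sum.inl l) (by simpa using hl)⟩,
      mem_skel.2 ⟨T.toRight, le_rfl, fun l hl => h (Sum.inr l) (by simpa using hl)⟩⟩

/-- Centres of the cells of dimension at most `d` in a box. -/
def Ctr (d : ℕ) (R : ℝ) : Set (ι → ℝ) :=
  {q | q ∈ Skel d ∧ q ∈ closedBall (0 : ι → ℝ) R ∧ ∀ l, ∃ k : ℤ, q l = k / 2}

theorem ctr_finite (d : ℕ) (R : ℝ) : (Ctr d R : Set (ι → ℝ)).Finite := by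
  have hf : ((fun k : ℤ => (k : ℝ) / 2) '' Icc (-⌈2 * R⌉) ⌈2 * R⌉).Finite :=
    (finite_Icc _ _).image _
  refine (Set.Finite.pi' fun _ : ι => hf).subset ?_
  rintro q ⟨-, hq, hk⟩ l
  obtain ⟨k, hk⟩ := hk l
  have h1 := (norm_le_pi_norm q l).trans (mem_closedBall_zero_iff.1 hq)
  rw [Real.norm_eq_abs, abs_le, hk] at h1
  have h2 := Int.le_ceil (2 * R)
  refine ⟨k, ⟨?_, ?_⟩, hk.symm⟩
  · have : (-⌈2 * R⌉ : ℝ) ≤ k := by linarith only [h1, h2, h1.1]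
    exact_mod_cast this
  · have : (k : ℝ) ≤ ⌈2 * R⌉ := by linarith only [h1, h2, h1.2]
    exact_mod_cast this

theorem exists_ctr {d : ℕ} {R : ℝ} (hR : ∃ k : ℕ, R = k) {y : ι → ℝ} (hy : y ∈ Skel d)
    (hyR : y ∈ closedBall (0 : ι → ℝ) R) : ∃ q ∈ Ctr d R, InCar y q ∧ InCar q y := by
  set q : ι → ℝ := fun l => ((⌊y l⌋ + ⌈y l⌉ : ℤ) : ℝ) / 2 with hq
  have h1 : InCar q y := by
    intro l
    have : (⌊y l⌋ : ℝ) ≤ ⌈y l⌉ := by exact_mod_cast Int.floor_le_ceil (y l)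
    simp only [hq, Int.cast_add]
    constructor <;> linarith only [this]
  have h2 : InCar y q := by
    refine inCar_iff.2 fun l k => ⟨fun hk => ?_, fun hk => ?_⟩
    · have h3 : ((⌊y l⌋ + ⌈y l⌉ : ℤ) : ℝ) ≤ ((2 * k : ℤ) : ℝ) := by
        simp only [hq] at hk
        push_cast at hk ⊢
        linarith only [hk]
      have h4 : ⌊y l⌋ + ⌈y l⌉ ≤ 2 * k := by exact_mod_cast h3
      have h5 := Int.ceil_le_floor_add_one (y l)
      exact Int.ceil_le.1 (by omega)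
    · have h3 : ((2 * k : ℤ) : ℝ) ≤ ((⌊y l⌋ + ⌈y l⌉ : ℤ) : ℝ) := by
        simp only [hq] at hk
        push_cast at hk ⊢
        linarith only [hk]
      have h4 : 2 * k ≤ ⌊y l⌋ + ⌈y l⌉ := by exact_mod_cast h3
      have h5 := Int.ceil_le_floor_add_one (y l)
      exact Int.le_floor.1 (by omega)
  exact ⟨q, ⟨h1.skel hy, h1.ball hR hyR, fun l => ⟨_, rfl⟩⟩, h2, h1⟩

theorem hgrid_half {q y : ℝ} (hq : ∃ k : ℤ, q = k / 2) (hn : dd q ≠ 0) (hy : dd y ≠ 0)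
    (h1 : (⌊q⌋ : ℝ) ≤ y) (h2 : y ≤ (⌈q⌉ : ℝ)) : q = ⌊y⌋ + 1 / 2 := by
  obtain ⟨k, hk⟩ := hq
  obtain ⟨j, rfl | rfl⟩ := Int.even_or_odd' k
  · exact absurd (dd_eq_zero_iff.2 ⟨j, by rw [hk]; push_cast; ring⟩) hn
  · have e : q = j + 1 / 2 := by rw [hk]; push_cast; ring
    have f1 : ⌊q⌋ = j := Int.floor_eq_iff.2 ⟨by linarith only [e], by linarith only [e]⟩
    have f2 : ⌈q⌉ = j + 1 := Int.ceil_eq_iff.2 ⟨by push_cast; linarith only [e], by push_cast; linarith only [e]⟩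
    rw [f1] at h1
    rw [f2] at h2
    have h3 : y ≠ ((j + 1 : ℤ) : ℝ) := fun h => hy (dd_eq_zero_iff.2 ⟨_, h⟩)
    have h4 := lt_of_le_of_ne h2 h3
    have f3 : ⌊y⌋ = j := Int.floor_eq_iff.2 ⟨h1, by simpa using h4⟩
    rw [f3, e]

theorem ctr_inter {d : ℕ} {R : ℝ} {q q' y : ι → ℝ} (hq : q ∈ Ctr (d + 1) R)
    (hq' : q' ∈ Ctr (d + 1) R) (hne : q ≠ q') (h : InCar y q) (h' : InCar y q') :
    y ∈ Skel d := by
  classical
  by_contra hy
  apply hne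
  have key : ∀ {p : ι → ℝ}, p ∈ Ctr (d + 1) R → InCar y p → ∀ l,
      p l = if dd (y l) = 0 then y l else ⌊y l⌋ + 1 / 2 := by
    intro p hp hyp l
    have hsub : (Finset.univ.filter (fun l => dd (y l) ≠ 0)) ⊆
        (Finset.univ.filter (fun l => dd (p l) ≠ 0)) := by
      intro l hl
      refine Finset.mem_filter.2 ⟨Finset.mem_univ _, fun h0 => (Finset.mem_filter.1 hl).2 ?_⟩
      obtain ⟨k, hk⟩ := dd_eq_zero_iff.1 h0
      exact dd_eq_zero_iff.2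
        ⟨k, le_antisymm ((inCar_iff.1 hyp l k).1 hk.le) ((inCar_iff.1 hyp l k).2 hk.ge)⟩
    have hc1 : (Finset.univ.filter (fun l => dd (p l) ≠ 0)).card ≤ d + 1 := hp.1
    have hc2 : ¬ (Finset.univ.filter (fun l => dd (y l) ≠ 0)).card ≤ d := hy
    have heq := Finset.eq_of_subset_of_card_le hsub (by omega)
    have hiff : dd (y l) ≠ 0 ↔ dd (p l) ≠ 0 := by
      have := congrArg (fun S => l ∈ S) heq
      simpa using this
    split_ifs with h0
    · have h1 : dd (p l) = 0 := by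
        by_contra hc
        exact hiff.2 hc h0
      obtain ⟨k, hk⟩ := dd_eq_zero_iff.1 h1
      rw [hk]
      exact (le_antisymm ((inCar_iff.1 hyp l k).1 hk.le) ((inCar_iff.1 hyp l k).2 hk.ge)).symm
    · exact hgrid_half (hp.2.2 l) (hiff.1 h0) h0 (hyp l).1 (hyp l).2
  funext l
  rw [key hq h l, key hq' h' l]

/-- The part of the deleted product used for a rigid box. -/
def PK (m : ℕ) (R : ℝ) : Set ((ι → ℝ) × (ι → ℝ)) :=
  {p | p ∈ Del ∧ p ∈ Skel2 (2 * m) ∧ p.1 ∈ closedBall (0 : ι → ℝ) R ∧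
    p.2 ∈ closedBall (0 : ι → ℝ) R}

theorem pk_swap {m : ℕ} {R : ℝ} {p : (ι → ℝ) × (ι → ℝ)} (h : p ∈ PK m R) :
    p.swap ∈ PK m R := by
  obtain ⟨h1, ⟨a, b, hab, ha, hb⟩, h3, h4⟩ := h
  exact ⟨del_swap h1, ⟨b, a, by omega, hb, ha⟩, h4, h3⟩

end BEp
end
end

-- merged part: Pool.Agent.Work.MP_f0515e_an.Pos.HSnap
section
/-!
The dual skeleton and the snapping map.

Plan.  `snap θ t = ⌊t⌋ + clamp ((fract t - θ) / (1 - 2 θ)) 0 1` for `0 ≤ θ ≤ c < 1 / 2`.  It equals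
`t + w θ (fract t)` with `w θ 0 = w θ 1 = 0`, so it is jointly continuous (`ContinuousOn.comp_fract'`; replace
`θ` by `max 0 (min θ c)`); `snap 0 t = t`; `dd t ≤ θ` makes `snap θ t` an integer; `t ≤ k + θ` gives
`snap θ t ≤ k` and `k - θ ≤ t` gives `k ≤ snap θ t` (`k : ℤ`).
`μ y = inf'` over `T` with `T.card ≤ d` of `‖fun l => if l ∈ T then 0 else dd (y l)‖` is continuous, invariant
under permutations, zero on `Skel d`, and `< 1 / 2` off `Dual d` (`T` = set of `l` with `dd = 1 / 2`).  On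
the compact set `C` it is at most some `c ∈ [1/4, 1/2)`.  `Sn (x, y) l = snap (max ‖y - x‖ (μ y)) (y l)`;
use `inCar_iff`, `mem_skel`.  `sm_dual`: countable union over `(T, k)` of `sm_coord Tᶜ (k + 1/2)`.
-/

open Set Metric Filter Topology Function BEv
open scoped NNReal

noncomputable section
namespace BEp

variable {ι : Type} [Fintype ι]

/-- The dual skeleton of `Skel d`. -/
def Dual (d : ℕ) : Set (ι → ℝ) :=
  {x | ∃ T : Finset ι, T.card = d + 1 ∧ ∀ l ∈ T, dd (x l) = 1 / 2}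

theorem dual_closed (d : ℕ) : IsClosed (Dual d : Set (ι → ℝ)) := by
  have : (Dual d : Set (ι → ℝ)) =
      ⋃ T : Finset ι, ⋃ _ : T.card = d + 1, ⋂ l ∈ T, {x | dd (x l) = 1 / 2} := by
    ext x
    simp [Dual]
  rw [this]
  exact isClosed_iUnion_of_finite fun T => isClosed_iUnion_of_finite fun _ =>
    isClosed_biInter fun l _ => isClosed_eq (dd_cont.comp (continuous_apply l)) continuous_const

theorem sm_dual (d : ℕ) : Sm (Fintype.card ι - (d + 1)) (Dual d : Set (ι → ℝ)) := by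
  classical
  refine (Sm.iUnion (S := fun q : {T : Finset ι // T.card = d + 1} × (ι → ℤ) =>
    {x : ι → ℝ | ∀ l, l ∉ q.1.1ᶜ → x l = (q.2 l : ℝ) + 1 / 2}) fun q => ?_).mono ?_
  · exact (sm_coord _ _).le (by rw [Finset.card_compl, q.1.2])
  · rintro x ⟨T, h1, h2⟩
    have h3 : ∀ l, ∃ k : ℤ, l ∈ T → x l = k + 1 / 2 := fun l => by
      by_cases h : l ∈ T
      · rcases (abs_eq (by norm_num)).1 (h2 l h) with e | e
        · exact ⟨round (x l), fun _ => by linarith only [e]⟩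
        · exact ⟨round (x l) - 1, fun _ => by push_cast; linarith only [e]⟩
      · exact ⟨0, fun h' => absurd h' h⟩
    choose k hk using h3
    exact mem_iUnion.2 ⟨(⟨T, h1⟩, k), fun l hl => hk l (by simpa using hl)⟩

theorem skel_not_dual {d : ℕ} {x : ι → ℝ} (h : x ∈ Skel d) : x ∉ Dual d := by
  classical
  rintro ⟨T, h1, h2⟩
  have := (Finset.card_le_card (s := T) fun l hl =>
    Finset.mem_filter.2 ⟨Finset.mem_univ _, by rw [h2 l hl]; norm_num⟩).trans h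
  omega

theorem dual_perm {d : ℕ} (σ : Equiv.Perm ι) {x : ι → ℝ} (h : x ∈ Dual d) :
    x ∘ σ ∈ Dual d := by
  obtain ⟨T, h1, h2⟩ := h
  exact ⟨T.map σ.symm.toEmbedding, by rw [Finset.card_map, h1],
    fun l hl => h2 _ (Finset.mem_map_equiv.1 hl)⟩

/-- The displacement, as a function of the fractional part. -/
def snapW (M θ u : ℝ) : ℝ := max (-min u θ) (min (M * (u - 1 / 2)) (min (1 - u) θ))

/-- The snapping map of the line. -/
def snapR (M θ t : ℝ) : ℝ := t + snapW M θ (Int.fract t)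

theorem snap_cont {X : Type} [TopologicalSpace X] {M : ℝ} (hM : 0 ≤ M) {θ t : X → ℝ}
    (hθ : Continuous θ) (h0 : ∀ x, 0 ≤ θ x) (ht : Continuous t) :
    Continuous fun x => snapR M (θ x) (t x) := by
  refine ht.add (ContinuousOn.comp_fract (f := fun x u => snapW M (θ x) u)
    (Continuous.continuousOn ?_) ht fun x => ?_)
  · unfold snapW uncurry
    fun_prop
  · have := h0 x
    rw [snapW, snapW, sub_self, min_eq_left this, neg_zero, min_eq_right (a := M * (1 - 1 / 2))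
      (by linarith only [hM]), max_eq_left (min_le_of_left_le (by linarith)),
      max_eq_right (neg_nonpos.2 (le_min zero_le_one this))]

theorem snap_zero (M t : ℝ) : snapR M 0 t = t := by
  rw [snapR, snapW, min_eq_right (Int.fract_nonneg t), neg_zero,
    max_eq_left (min_le_of_right_le (min_le_right _ _)), add_zero]

theorem snap_le {M θ t : ℝ} (hM : 0 ≤ M) (h1 : θ < 1 / 2) (h2 : 1 / 2 ≤ M * (1 / 2 - θ)) {k : ℤ}
    (h : t ≤ k + θ) (h0 : 0 ≤ θ) : snapR M θ t ≤ k := by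
  have a1 := Int.fract_nonneg t
  have a2 := Int.fract_lt_one t
  have a3 := Int.floor_add_fract t
  have a4 := le_min a1 h0
  rw [snapR, snapW, ← le_sub_iff_add_le', max_le_iff]
  rcases lt_or_ge ⌊t⌋ k with c | c
  · have : (⌊t⌋ : ℝ) + 1 ≤ k := by exact_mod_cast c
    exact ⟨by linarith only [a2, a3, a4, this], min_le_of_right_le (min_le_of_left_le (by linarith only [a3, this]))⟩
  · have c1 : (k : ℝ) ≤ ⌊t⌋ := by exact_mod_cast c
    have c2 : (⌊t⌋ : ℝ) ≤ k := by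
      exact_mod_cast Int.lt_add_one_iff.1 (Int.floor_lt.2 (by push_cast; linarith only [h1, h]))
    rw [min_eq_left (by linarith only [h, a3, c1])]
    exact ⟨by linarith only [a3, c2], min_le_of_left_le (by linarith only [h1, h2, h, hM, a3, c1, mul_nonneg_of_nonpos_of_nonpos (Mathlib.Tactic.Linarith.sub_nonpos_of_le hM) (Mathlib.Tactic.Linarith.sub_nonpos_of_le h), Mathlib.Tactic.Linarith.mul_zero_eq (Mathlib.Tactic.Linarith.sub_nonpos_of_le hM) (sub_eq_zero_of_eq a3), mul_nonneg_of_nonpos_of_nonpos (Mathlib.Tactic.Linarith.sub_nonpos_of_le hM) (Mathlib.Tactic.Linarith.sub_nonpos_of_le c1)])⟩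

theorem snap_ge {M θ t : ℝ} (hM : 0 ≤ M) (h1 : θ < 1 / 2) (h2 : 1 / 2 ≤ M * (1 / 2 - θ)) {k : ℤ}
    (h : k ≤ t + θ) : k ≤ snapR M θ t := by
  have a1 := Int.fract_nonneg t
  have a2 := Int.fract_lt_one t
  have a3 := Int.floor_add_fract t
  have a4 := min_le_left (Int.fract t) θ
  rw [snapR, snapW, ← sub_le_iff_le_add', le_max_iff]
  rcases lt_or_ge ⌊t⌋ k with c | c
  · have c1 : (⌊t⌋ : ℝ) + 1 ≤ k := by exact_mod_cast c
    have c2 : (k : ℝ) ≤ ⌊t⌋ + 1 := by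
      have : (k : ℝ) < ⌊t⌋ + 1 + 1 := by linarith only [h1, h, a2, a3, c1]
      exact_mod_cast Int.lt_add_one_iff.1 (by exact_mod_cast this)
    exact Or.inr (le_min (by linarith only [h1, h2, h, hM, a3, c1, mul_nonneg_of_nonpos_of_nonpos (Mathlib.Tactic.Linarith.sub_nonpos_of_le hM) (Mathlib.Tactic.Linarith.sub_nonpos_of_le h), Mathlib.Tactic.Linarith.mul_zero_eq (Mathlib.Tactic.Linarith.sub_nonpos_of_le hM) (sub_eq_zero_of_eq a3), mul_nonneg_of_nonpos_of_nonpos (Mathlib.Tactic.Linarith.sub_nonpos_of_le hM) (Mathlib.Tactic.Linarith.sub_nonpos_of_le c1)]) (le_min (by linarith only [a3, c2]) (by linarith only [h])))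
  · have c1 : (k : ℝ) ≤ ⌊t⌋ := by exact_mod_cast c
    exact Or.inl (by linarith only [a3, a4, c1])

theorem snap_near (d : ℕ) (y : ι → ℝ) : ∃ z ∈ Skel d, infDist y (Skel d) = dist y z :=
  (skel_closed d).exists_infDist_eq_dist ⟨0, skel_int d fun _ => ⟨0, by simp⟩⟩ y

theorem snap_perm (d : ℕ) (σ : Equiv.Perm ι) (y : ι → ℝ) :
    infDist (y ∘ σ) (Skel d) ≤ infDist y (Skel d) := by
  obtain ⟨z, h1, h2⟩ := snap_near d y
  obtain ⟨T, h3, h4⟩ := mem_skel.1 h1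
  refine h2 ▸ (infDist_le_dist_of_mem (y := z ∘ σ) (mem_skel.2 ⟨T.map σ.symm.toEmbedding,
    by rwa [Finset.card_map], fun l hl => h4 _ fun h => hl (Finset.mem_map_equiv.2 h)⟩)).trans ?_
  exact (dist_pi_le_iff dist_nonneg).2 fun l => dist_le_pi_dist y z _

theorem snap_lt {d : ℕ} {y : ι → ℝ} (h : y ∉ Dual d) : infDist y (Skel d) < 1 / 2 := by
  classical
  refine (infDist_le_dist_of_mem (y := fun l => if dd (y l) = 1 / 2 then y l else round (y l))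
    (mem_skel.2 ⟨Finset.univ.filter fun l => dd (y l) = 1 / 2, not_lt.1 fun e => ?_,
      fun l hl => ⟨_, if_neg (by simpa using hl)⟩⟩)).trans_lt
    ((dist_pi_lt_iff (by norm_num)).2 fun l => ?_)
  · obtain ⟨T, h1, h2⟩ := Finset.exists_subset_card_eq (Nat.succ_le_of_lt e)
    exact h ⟨T, h2, fun l hl => (Finset.mem_filter.1 (h1 hl)).2⟩
  · split_ifs with e
    · simp
    · exact lt_of_le_of_ne (abs_sub_round _) e

theorem exists_snap (d : ℕ) {C : Set ((ι → ℝ) × (ι → ℝ))} (hC : IsCompact C)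
    (h1 : ∀ p ∈ C, ‖p.2 - p.1‖ ≤ 1 / 4) (h2 : ∀ p ∈ C, p.2 ∉ Dual d) :
    ∃ Sn : (ι → ℝ) × (ι → ℝ) → ι → ℝ, Continuous Sn ∧
      (∀ (σ : Equiv.Perm ι) (x y : ι → ℝ), Sn (x ∘ σ, y ∘ σ) = Sn (x, y) ∘ σ) ∧
      (∀ x ∈ Skel d, Sn (x, x) = x) ∧ ∀ p ∈ C, Sn p ∈ Skel d ∧ InCar (Sn p) p.1 := by
  let θ : (ι → ℝ) × (ι → ℝ) → ℝ := fun p => max ‖p.2 - p.1‖ (infDist p.2 (Skel d))
  have c1 : Continuous θ := (continuous_snd.sub continuous_fst).norm.max
    ((continuous_infDist_pt _).comp continuous_snd)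
  have c2 : ∀ p, 0 ≤ θ p := fun p => le_max_of_le_left (norm_nonneg _)
  have c3 : ∀ p ∈ C, θ p < 1 / 2 := fun p hp =>
    max_lt ((h1 p hp).trans_lt (by norm_num)) (snap_lt (h2 p hp))
  obtain ⟨M, hM⟩ := hC.bddAbove_image (f := fun p => 1 / 2 / (1 / 2 - θ p))
    (continuousOn_const.div (continuous_const.sub c1).continuousOn
      fun p hp => (sub_pos.2 (c3 p hp)).ne')
  have c4 : ∀ p ∈ C, 1 / 2 ≤ |M| * (1 / 2 - θ p) := fun p hp =>
    (div_le_iff₀ (sub_pos.2 (c3 p hp))).1 ((hM ⟨p, hp, rfl⟩).trans (le_abs_self M))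
  have c5 : ∀ p ∈ C, ∀ l (k : ℤ) (a : ℝ), |p.2 l - a| ≤ θ p →
      (a ≤ k → snapR |M| (θ p) (p.2 l) ≤ k) ∧ (k ≤ a → k ≤ snapR |M| (θ p) (p.2 l)) :=
    fun p hp l k a ha =>
      ⟨fun h => snap_le (abs_nonneg M) (c3 p hp) (c4 p hp) (by linarith [abs_le.1 ha]) (c2 p),
        fun h => snap_ge (abs_nonneg M) (c3 p hp) (c4 p hp) (by linarith [abs_le.1 ha])⟩
  refine ⟨fun p l => snapR |M| (θ p) (p.2 l), continuous_pi fun l => snap_cont (abs_nonneg M) c1 c2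
    ((continuous_apply l).comp continuous_snd), fun σ x y => funext fun l => ?_,
    fun x hx => funext fun l => ?_, fun p hp => ⟨?_, inCar_iff.2 fun l k =>
      c5 p hp l k _ ((norm_le_pi_norm (p.2 - p.1) l).trans (le_max_left _ _))⟩⟩
  · refine congrArg (snapR _ · _) (congrArg₂ max (σ.surjective.pi_norm_comp (y - x))
      ((snap_perm d σ y).antisymm ?_))
    simpa [comp_assoc] using snap_perm d σ.symm (y ∘ σ)
  · simp only [θ, sub_self, norm_zero, infDist_zero_of_mem hx, max_self, snap_zero]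
  · obtain ⟨z, a1, a2⟩ := snap_near d p.2
    obtain ⟨T, a3, a4⟩ := mem_skel.1 a1
    refine mem_skel.2 ⟨T, a3, fun l hl => (a4 l hl).imp fun k hk => ?_⟩
    have := c5 p hp l k _ ((dist_le_pi_dist p.2 z l).trans (a2.ge.trans (le_max_right _ _)))
    exact (this.1 hk.le).antisymm (this.2 hk.ge)

end BEp
end
end

-- merged part: Pool.Agent.Work.MP_f0515e_an.Pos.HPush
section
/-!
EXPORT (HOM). Pushing into a skeleton of the integer grid: H6 of the plan.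

Plan.  If `card ι ≤ d` take `q' = q` (`skel_card`).  Otherwise `avoid` (resp. `avoid_gen` with
`j x = x ∘ σ`) with `Bad = Dual d`, `ε = 1 / 4` gives `q₁`; `exists_snap` on the image of `P` under
`(q, q₁)`; `q' x = Sn (q x, q₁ x)`.  `push2` is `push_gen` for `ι ⊕ ι`, `σ = Equiv.sumComm ι ι`,
`x ↦ Sum.elim (q x).1 (q x).2` (`skel2_iff`).
-/

open Set Metric Filter Topology Function BEv
open scoped NNReal

noncomputable section
namespace BEp

variable {E : Type} [NormedAddCommGroup E] [NormedSpace ℝ E] [FiniteDimensional ℝ E]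
  {ι : Type} [Fintype ι]

omit [NormedSpace ℝ E] [FiniteDimensional ℝ E] in
theorem hpush_fin {d : ℕ} {P A : Set E} (hP : IsCompact P) {q v : E → ι → ℝ} (hq : Continuous q)
    (hv : Continuous v) (hvA : EqOn v q A) (hn : ∀ x, ‖v x - q x‖ ≤ 1 / 4)
    (hvP : ∀ x ∈ P, v x ∉ Dual d) (hqA : ∀ x ∈ A ∩ P, q x ∈ Skel d) :
    ∃ Sn : (ι → ℝ) × (ι → ℝ) → ι → ℝ, Continuous Sn ∧
      (∀ (σ : Equiv.Perm ι) (x y : ι → ℝ), Sn (x ∘ σ, y ∘ σ) = Sn (x, y) ∘ σ) ∧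
      EqOn (fun x => Sn (q x, v x)) q (A ∩ P) ∧
      ∀ x ∈ P, Sn (q x, v x) ∈ Skel d ∧ InCar (Sn (q x, v x)) (q x) := by
  obtain ⟨Sn, c1, c2, c3, c4⟩ := exists_snap d (hP.image (hq.prodMk hv))
    (by rintro _ ⟨x, -, rfl⟩; exact hn x) (by rintro _ ⟨x, hx, rfl⟩; exact hvP x hx)
  refine ⟨Sn, c1, c2, fun x hx => ?_, fun x hx => c4 _ ⟨x, hx, rfl⟩⟩
  show Sn (q x, v x) = q x
  rw [hvA hx.1]
  exact c3 _ (hqA x hx)

theorem hpush_dim {d : ℕ} (h : ¬ Fintype.card ι ≤ d) :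
    d + (Fintype.card ι - (d + 1)) < Module.finrank ℝ (ι → ℝ) := by
  rw [Module.finrank_fintype_fun_eq_card]
  omega

theorem pushP {d : ℕ} {P A : Set E} (hP : IsCompact P) (hd : Sm d (P \ A)) (hA : IsClosed A)
    {q : E → ι → ℝ} (hq : Continuous q) (hqA : ∀ x ∈ A ∩ P, q x ∈ Skel d) :
    ∃ q' : E → ι → ℝ, Continuous q' ∧ EqOn q' q (A ∩ P) ∧
      ∀ x ∈ P, q' x ∈ Skel d ∧ InCar (q' x) (q x) := by
  by_cases hc : Fintype.card ι ≤ d
  · exact ⟨q, hq, fun _ _ => rfl, fun x _ => ⟨skel_card hc _, InCar.refl _⟩⟩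
  obtain ⟨v, hv, hvA, hn, hvP⟩ := avoid hP hd hA (dual_closed d) (sm_dual d) (hpush_dim hc) hq
    (fun x hx => skel_not_dual (hqA x hx)) (ε := 1 / 4) (by norm_num)
  obtain ⟨Sn, c1, -, c3, c4⟩ := hpush_fin hP hq hv hvA hn hvP hqA
  exact ⟨fun x => Sn (q x, v x), c1.comp (hq.prodMk hv), c3, c4⟩

theorem push_gen {i : E → E} (hic : Continuous i) (hi : ∀ x, i (i x) = x) (σ : Equiv.Perm ι)
    (hσ : ∀ l, σ (σ l) = l) {d : ℕ} {P A : Set E} (hP : IsCompact P) (hd : Sm d (P \ A))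
    (hA : IsClosed A) (hiP : ∀ x ∈ P, i x ∈ P) (hiA : ∀ x ∈ A, i x ∈ A)
    (hfree : ∀ x ∈ P, i x ≠ x) {q : E → ι → ℝ} (hq : Continuous q)
    (ho : ∀ x, q (i x) = q x ∘ σ) (hqA : ∀ x ∈ A ∩ P, q x ∈ Skel d) :
    ∃ q' : E → ι → ℝ, Continuous q' ∧ (∀ x, q' (i x) = q' x ∘ σ) ∧ EqOn q' q (A ∩ P) ∧
      ∀ x ∈ P, q' x ∈ Skel d ∧ InCar (q' x) (q x) := by
  by_cases hc : Fintype.card ι ≤ d
  · exact ⟨q, hq, ho, fun _ _ => rfl, fun x _ => ⟨skel_card hc _, InCar.refl _⟩⟩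
  let j : (ι → ℝ) →L[ℝ] (ι → ℝ) :=
    ContinuousLinearMap.pi fun l => ContinuousLinearMap.proj (R := ℝ) (φ := fun _ : ι => ℝ) (σ l)
  have hj : ∀ y, j y = y ∘ σ := fun y => rfl
  obtain ⟨v, hv, hvo, hvA, hn, hvP⟩ := avoid_gen hic hi j
    (fun y => by funext l; simp only [hj, Function.comp_apply, hσ]) hP hd hA hiP hiA hfree
    (dual_closed d) (sm_dual d) (fun y hy => dual_perm σ hy) (hpush_dim hc) hq ho
    (fun x hx => skel_not_dual (hqA x hx)) (ε := 1 / 4) (by norm_num)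
  obtain ⟨Sn, c1, c2, c3, c4⟩ := hpush_fin hP hq hv hvA hn hvP hqA
  refine ⟨fun x => Sn (q x, v x), c1.comp (hq.prodMk hv), fun x => ?_, c3, c4⟩
  show Sn (q (i x), v (i x)) = Sn (q x, v x) ∘ σ
  rw [ho, hvo, hj, c2]

theorem push2 {i : E → E} (hic : Continuous i) (hi : ∀ x, i (i x) = x) {d : ℕ} {P A : Set E}
    (hP : IsCompact P) (hd : Sm d (P \ A)) (hA : IsClosed A) (hiP : ∀ x ∈ P, i x ∈ P)
    (hiA : ∀ x ∈ A, i x ∈ A) (hfree : ∀ x ∈ P, i x ≠ x) {q : E → (ι → ℝ) × (ι → ℝ)}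
    (hq : Continuous q) (ho : ∀ x, q (i x) = (q x).swap) (hqA : ∀ x ∈ A ∩ P, q x ∈ Skel2 d) :
    ∃ q' : E → (ι → ℝ) × (ι → ℝ), Continuous q' ∧ (∀ x, q' (i x) = (q' x).swap) ∧
      EqOn q' q (A ∩ P) ∧
      ∀ x ∈ P, q' x ∈ Skel2 d ∧ InCar (q' x).1 (q x).1 ∧ InCar (q' x).2 (q x).2 := by
  have hQ : Continuous fun x => (Sum.elim (q x).1 (q x).2 : ι ⊕ ι → ℝ) :=
    continuous_pi fun l => by
      cases l with
      | inl l => exact (continuous_apply l).comp hq.fst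
      | inr l => exact (continuous_apply l).comp hq.snd
  obtain ⟨Q, c1, c2, c3, c4⟩ := push_gen hic hi (Equiv.sumComm ι ι) (fun l => by cases l <;> rfl)
    hP hd hA hiP hiA hfree hQ
    (fun x => by
      funext l
      rw [ho]
      cases l <;> rfl)
    (fun x hx => skel2_iff.1 (hqA x hx))
  refine ⟨fun x => (fun l => Q x (Sum.inl l), fun l => Q x (Sum.inr l)), by fun_prop,
    fun x => ?_, fun x hx => ?_, fun x hx => ⟨skel2_iff.2 ?_, fun l => (c4 x hx).2 (Sum.inl l),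
      fun l => (c4 x hx).2 (Sum.inr l)⟩⟩
  · simp only [c2]
    rfl
  · simp only [c3 hx]
    rfl
  · have e : (Sum.elim (fun l => Q x (Sum.inl l)) (fun l => Q x (Sum.inr l)) : ι ⊕ ι → ℝ) = Q x := by
      funext l
      cases l <;> rfl
    rw [e]
    exact (c4 x hx).1

end BEp
end
end
end

-- merged part: Pool.Agent.Work.MP_f0515e_an.Pos.HRL2
section
/-!
Factoring a family of pairs through a sphere (H9 of the plan).

Plan.  `rl_hyper`: if `card J ≤ 2 m` take `k = card J`, `i0 v = v ∘ Fintype.equivFin J`, `φ = i0⁻¹ ∘ u`, `G` static.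
Otherwise `card J = 2 m + 1`, `k = 2 m`; with `σ : J ≃ Fin (2 m + 1)` let `i0 v = Fin.cons 0 v ∘ σ`; let `c > 0` bound
`‖u‖` below on `Jn`; `avoid_gen` (`j = -1`, `A = ∅`, `Bad` = the line of the coordinate `σ⁻¹ 0`, `sm_coord`,
`ε = c / 2`) gives `u₁`; `φ p = Fin.tail (u₁ p ∘ σ⁻¹)`, `G = cat ((1 - s) u + s u₁) ((1 - s) u₁ + s i0 φ)`.
`rl_kappa`: `i1` is `push2` (`A = ∅`, `sm_sphere`) applied to `v ↦ (2 • i0 v, -2 • i0 v)` on the sphere.
For `Jn`, `κ`: `u p = (1/2) • ((κ p).1 - (κ p).2)`, `‖u‖ ≥ 1`; `φ₀`, `G` from `rl_hyper`; `c > 0` a lower bound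
of `‖G‖` on `Jn ×ˢ I`; `nm v = (max c ‖v‖)⁻¹ • v`; `φ = nm ∘ φ₀`.  Concatenate (`cat_eqv` with the swap, `cat_mem` for
`S = Del ∩ closedBall 0 R ×ˢ closedBall 0 R`):
1. `κ p - (t / 2) • (x + y, x + y)`; 2. `± ((1 - t) • u + (2 t) • nm u)`; 3. `± 2 • nm (G (p, t))`;
4. `(1 - t) • (2 • i0 φ, -2 • i0 φ) + t • i1 φ` (`InCar.combo`, `del_inCar`).  In 1-3 the two points are at distance
at least `2` (`del_of_two`).  Finally `push2` on `Jn ×ˢ I` (`Sm (2 m - 1 + 1)`) relative to `{t = 0 ∨ t = 1}`.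
-/

open Set Metric Filter Topology Function BEv
open scoped NNReal

noncomputable section
namespace BEp

variable {J : Type} [Fintype J] {E : Type} [NormedAddCommGroup E] [NormedSpace ℝ E]
  [FiniteDimensional ℝ E]

theorem hrl2_low {X F : Type} [TopologicalSpace X] [NormedAddCommGroup F] {K : Set X}
    (hK : IsCompact K) {g : X → F} (hg : Continuous g) (h : ∀ x ∈ K, g x ≠ 0) :
    ∃ c : ℝ, 0 < c ∧ ∀ x ∈ K, c ≤ ‖g x‖ :=
  hK.exists_forall_le' hg.norm.continuousOn fun x hx => norm_pos_iff.2 (h x hx)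

theorem hrl2_emb (T : Finset J) : ∃ (k : ℕ) (i0 : (Fin k → ℝ) →L[ℝ] (J → ℝ))
    (π : (J → ℝ) →L[ℝ] (Fin k → ℝ)), k + T.card = Fintype.card J ∧ (∀ v, ‖i0 v‖ = ‖v‖) ∧
      ∀ y l, l ∉ T → i0 (π y) l = y l := by
  classical
  let σ := Fintype.equivFin {l // l ∉ T}
  let i0 : (Fin (Fintype.card {l // l ∉ T}) → ℝ) →L[ℝ] (J → ℝ) := ContinuousLinearMap.pi fun l =>
    if h : l ∉ T then ContinuousLinearMap.proj (σ ⟨l, h⟩) else 0
  have h1 : ∀ v l (h : l ∉ T), i0 v l = v (σ ⟨l, h⟩) := fun v l h => by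
    simp only [i0, ContinuousLinearMap.pi_apply, dif_pos h, ContinuousLinearMap.proj_apply]
  have h2 : ∀ v l, ¬ l ∉ T → i0 v l = 0 := fun v l h => by
    simp only [i0, ContinuousLinearMap.pi_apply, dif_neg h]
    rfl
  refine ⟨_, i0, ContinuousLinearMap.pi fun j => ContinuousLinearMap.proj (σ.symm j).1, ?_,
    fun v => le_antisymm ((pi_norm_le_iff_of_nonneg (norm_nonneg _)).2 fun l => ?_)
      ((pi_norm_le_iff_of_nonneg (norm_nonneg _)).2 fun j => ?_), fun y l h => ?_⟩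
  · rw [Fintype.card_subtype_compl, Fintype.card_coe]
    exact Nat.sub_add_cancel T.card_le_univ
  · by_cases h : l ∉ T
    · rw [h1 v l h]
      exact norm_le_pi_norm v _
    · rw [h2 v l h, norm_zero]
      exact norm_nonneg _
  · have := norm_le_pi_norm (i0 v) (σ.symm j).1
    rwa [h1 v _ (σ.symm j).2, Subtype.coe_eta, Equiv.apply_symm_apply] at this
  · rw [h1 _ l h]
    simp

theorem hrl2_av {d : ℕ} {T : Finset J} (hT : T = ∅ ∨ d + T.card < Fintype.card J) {i : E → E}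
    (hic : Continuous i) (hi : ∀ x, i (i x) = x) {Jn : Set E} (hc : IsCompact Jn)
    (hiJ : ∀ x ∈ Jn, i x ∈ Jn) (hd : Sm d Jn) {u : E → J → ℝ} (hu : Continuous u)
    (ho : ∀ x, u (i x) = -u x) (h0 : ∀ x ∈ Jn, u x ≠ 0) :
    ∃ v : E → J → ℝ, Continuous v ∧ (∀ x, v (i x) = -v x) ∧ ∀ x ∈ Jn,
      (∀ s ∈ Icc (0 : ℝ) 1, u x + s • (v x - u x) ≠ 0) ∧ ∃ l, l ∉ T ∧ v x l ≠ 0 := by
  rcases hT with rfl | hT
  · refine ⟨u, hu, ho, fun x hx => ⟨fun s _ => by simpa using h0 x hx, ?_⟩⟩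
    obtain ⟨l, hl⟩ := Function.ne_iff.1 (h0 x hx)
    exact ⟨l, Finset.notMem_empty l, hl⟩
  obtain ⟨c, hc0, hcu⟩ := hrl2_low hc hu h0
  have hB : IsClosed {x : J → ℝ | ∀ l, l ∉ T → x l = (0 : J → ℝ) l} := by
    simp only [ofPred_forall]
    exact isClosed_iInter fun l => isClosed_iInter fun _ =>
      isClosed_eq (continuous_apply l) continuous_const
  obtain ⟨v, v1, v2, -, v4, v5⟩ := avoid_gen hic hi (-ContinuousLinearMap.id ℝ (J → ℝ))
    (fun y => neg_neg y) hc (hd.mono sdiff_subset) isClosed_empty hiJ (fun _ hx => hx.elim)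
    (fun x hx e => h0 x hx (havoid_neg (by rw [← ho, e]))) hB (sm_coord T 0)
    (fun y hy l hl => neg_eq_zero.2 (hy l hl))
    (by rwa [Module.finrank_fintype_fun_eq_card]) hu ho (fun _ hx => hx.1.elim) (half_pos hc0)
  refine ⟨v, v1, v2, fun x hx => ⟨fun s hs e => ?_, ?_⟩⟩
  · have a1 := hcu x hx
    have a2 := v4 x
    rw [eq_neg_of_add_eq_zero_left e, norm_neg, norm_smul, Real.norm_eq_abs,
      abs_of_nonneg hs.1] at a1
    have a3 := mul_le_of_le_one_left (norm_nonneg (v x - u x)) hs.2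
    linarith only [hc0, a1, a2, a3]
  · by_contra hn
    exact v5 x hx fun l hl => by_contra fun c => hn ⟨l, hl, c⟩

theorem rl_hyper {m : ℕ} (hm : 1 ≤ m) (hJ : Fintype.card J ≤ 2 * m + 1) :
    ∃ (k : ℕ) (i0 : (Fin k → ℝ) →L[ℝ] (J → ℝ)), k ≤ 2 * m ∧ (∀ v, ‖i0 v‖ = ‖v‖) ∧
      ∀ (i : E → E), Continuous i → (∀ x, i (i x) = x) → ∀ Jn : Set E, IsCompact Jn →
        (∀ x ∈ Jn, i x ∈ Jn) → Sm (2 * m - 1) Jn → ∀ u : E → J → ℝ, Continuous u →
        (∀ x, u (i x) = -u x) → (∀ x ∈ Jn, u x ≠ 0) →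
        ∃ (φ : E → Fin k → ℝ) (G : E × ℝ → J → ℝ), Continuous φ ∧ (∀ x, φ (i x) = -φ x) ∧
          Continuous G ∧ (∀ x s, G (i x, s) = -G (x, s)) ∧ ∀ x ∈ Jn, G (x, 0) = u x ∧
            G (x, 1) = i0 (φ x) ∧ ∀ s ∈ Icc (0 : ℝ) 1, G (x, s) ≠ 0 := by
  obtain ⟨T, t1, t2⟩ : ∃ T : Finset J, Fintype.card J ≤ 2 * m + T.card ∧
      (T = ∅ ∨ 2 * m - 1 + T.card < Fintype.card J) := by
    by_cases h : Fintype.card J ≤ 2 * m
    · exact ⟨∅, h, Or.inl rfl⟩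
    · obtain ⟨l⟩ := Fintype.card_pos_iff.1 (show 0 < Fintype.card J by omega)
      exact ⟨{l}, hJ, Or.inr (by rw [Finset.card_singleton]; omega)⟩
  obtain ⟨k, i0, π, k1, k2, k3⟩ := hrl2_emb T
  refine ⟨k, i0, by omega, k2, fun i hic hi Jn hc hiJ hd u hu ho h0 => ?_⟩
  obtain ⟨v, v1, v2, v3⟩ := hrl2_av t2 hic hi hc hiJ hd hu ho h0
  have j : ∀ x, (fun q : E × ℝ => u q.1 + q.2 • (v q.1 - u q.1)) (x, 1) =
      (fun q : E × ℝ => v q.1 + q.2 • (i0 (π (v q.1)) - v q.1)) (x, 0) := fun x => by simp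
  refine ⟨fun x => π (v x), cat (fun q : E × ℝ => u q.1 + q.2 • (v q.1 - u q.1))
    (fun q : E × ℝ => v q.1 + q.2 • (i0 (π (v q.1)) - v q.1)), by fun_prop,
    fun x => by simp only [v2, map_neg], cat_cont (by fun_prop) (by fun_prop),
    cat_odd (fun x s => ?_) fun x s => ?_, fun x hx => ⟨?_, ?_, cat_ne (j x) (v3 x hx).1 ?_⟩⟩
  · simp only [ho, v2]
    module
  · simp only [v2, map_neg]
    module
  · rw [cat_zero]
    simp
  · rw [cat_one (j x)]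
    simp
  · intro s _ e
    obtain ⟨l, hl, hv⟩ := (v3 x hx).2
    have := congrFun e l
    simp only [Pi.add_apply, Pi.smul_apply, Pi.sub_apply, k3 _ l hl, sub_self, smul_zero, add_zero,
      Pi.zero_apply] at this
    exact hv this

/-- Separated pairs in a ball. -/
def hrl2_S (R : ℝ) : Set ((J → ℝ) × (J → ℝ)) :=
  {p | p ∈ Del ∧ p.1 ∈ closedBall (0 : J → ℝ) R ∧ p.2 ∈ closedBall (0 : J → ℝ) R}

theorem hrl2_pm {R : ℝ} {a : J → ℝ} (h1 : 1 ≤ ‖a‖) (h2 : ‖a‖ ≤ R) : (a, -a) ∈ hrl2_S R := by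
  refine ⟨del_of_two ?_, mem_closedBall_zero_iff.2 h2,
    mem_closedBall_zero_iff.2 ((norm_neg a).trans_le h2)⟩
  rw [sub_neg_eq_add, ← two_smul ℝ a, norm_smul, Real.norm_two]
  linarith

theorem hrl2_car {R : ℝ} (hR : ∃ k : ℕ, R = k) {p q : (J → ℝ) × (J → ℝ)} (h : q ∈ hrl2_S R)
    (h1 : InCar p.1 q.1) (h2 : InCar p.2 q.2) : p ∈ hrl2_S R :=
  ⟨del_inCar (x := q.1) (y := q.2) h.1 h1 h2, h1.ball hR h.2.1, h2.ball hR h.2.2⟩

/-- Equivariant homotopy of pairs. -/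
def hrl2_P (i : E → E) (Jn : Set E) (R : ℝ) (f g : E → (J → ℝ) × (J → ℝ))
    (H : E × ℝ → (J → ℝ) × (J → ℝ)) : Prop :=
  Continuous H ∧ (∀ x s, H (i x, s) = (H (x, s)).swap) ∧ ∀ x ∈ Jn, H (x, 0) = f x ∧
    H (x, 1) = g x ∧ ∀ s ∈ Icc (0 : ℝ) 1, H (x, s) ∈ hrl2_S R

theorem hrl2_cat {i : E → E} {Jn : Set E} {R : ℝ} {f g k : E → (J → ℝ) × (J → ℝ)}
    {H K : E × ℝ → (J → ℝ) × (J → ℝ)} (h : hrl2_P i Jn R f g H) (h' : hrl2_P i Jn R g k K) :
    hrl2_P i Jn R f k (cat H K) := by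
  refine ⟨cat_cont h.1 h'.1, cat_eqv
    (ContinuousLinearEquiv.prodComm ℝ (J → ℝ) (J → ℝ)).toContinuousLinearMap h.2.1 h'.2.1,
    fun x hx => ?_⟩
  obtain ⟨a1, a2, a3⟩ := h.2.2 x hx
  obtain ⟨b1, b2, b3⟩ := h'.2.2 x hx
  have j := a2.trans b1.symm
  exact ⟨(cat_zero _ _ x).trans a1, (cat_one j).trans b2, cat_mem j a3 b3⟩

omit [NormedSpace ℝ E] [FiniteDimensional ℝ E] in
theorem hrl2_odd {i : E → E} {Jn : Set E} {R : ℝ} {f g : E → J → ℝ} {H : E × ℝ → J → ℝ}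
    (hc : Continuous H) (ho : ∀ x s, H (i x, s) = -H (x, s))
    (h : ∀ x ∈ Jn, H (x, 0) = f x ∧ H (x, 1) = g x ∧
      ∀ s ∈ Icc (0 : ℝ) 1, 1 ≤ ‖H (x, s)‖ ∧ ‖H (x, s)‖ ≤ R) :
    hrl2_P i Jn R (fun x => (f x, -f x)) (fun x => (g x, -g x)) (fun q => (H q, -H q)) :=
  ⟨hc.prodMk hc.neg, fun x s => by simp only [ho, neg_neg, Prod.swap_prod_mk], fun x hx =>
    ⟨by simp only [(h x hx).1], by simp only [(h x hx).2.1], fun s hs =>
      hrl2_pm ((h x hx).2.2 s hs).1 ((h x hx).2.2 s hs).2⟩⟩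

section
variable {F : Type} [NormedAddCommGroup F] [NormedSpace ℝ F]

/-- Normalisation. -/
def hrl2_nm (c : ℝ) (v : F) : F := (max c ‖v‖)⁻¹ • v

theorem hrl2_nm_cont {c : ℝ} (hc : 0 < c) : Continuous (hrl2_nm c : F → F) :=
  ((continuous_const.max continuous_norm).inv₀ fun _ => (lt_max_of_lt_left hc).ne').smul
    continuous_id

theorem hrl2_nm_neg (c : ℝ) (v : F) : hrl2_nm c (-v) = -hrl2_nm c v := by
  rw [hrl2_nm, hrl2_nm, norm_neg, smul_neg]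

theorem hrl2_nm_norm {c : ℝ} (hc : 0 < c) {v : F} (h : c ≤ ‖v‖) : ‖hrl2_nm c v‖ = 1 := by
  rw [hrl2_nm, max_eq_right h, norm_smul, norm_inv, norm_norm, inv_mul_cancel₀ (hc.trans_le h).ne']

theorem hrl2_nm_mix {c : ℝ} (hc : 0 < c) {v : F} (h : c ≤ ‖v‖) {s : ℝ} (hs : s ∈ Icc (0 : ℝ) 1) :
    ‖(1 - s) • v + (2 * s) • hrl2_nm c v‖ = (1 - s) * ‖v‖ + 2 * s := by
  have h0 := hc.trans_le h
  have h1 : 0 ≤ 1 - s + 2 * s * ‖v‖⁻¹ :=
    add_nonneg (sub_nonneg.2 hs.2) (mul_nonneg (mul_nonneg zero_le_two hs.1) (inv_nonneg.2 h0.le))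
  rw [hrl2_nm, max_eq_right h, smul_smul, ← add_smul, norm_smul, Real.norm_eq_abs, abs_of_nonneg h1,
    add_mul, mul_assoc, inv_mul_cancel₀ h0.ne', mul_one]

theorem hrl2_ball {x y : F} {R t : ℝ} (hx : ‖x‖ ≤ R) (hy : ‖y‖ ≤ R) (ht : t ∈ Icc (0 : ℝ) 1) :
    ‖x - (t / 2) • (x + y)‖ ≤ R := by
  have e : x - (t / 2) • (x + y) = (1 - t / 2) • x - (t / 2) • y := by module
  have a1 : 0 ≤ 1 - t / 2 := by linarith only [ht, ht.2]
  have a2 : 0 ≤ t / 2 := by linarith only [ht, ht.1]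
  refine e ▸ (norm_sub_le _ _).trans ?_
  rw [norm_smul, norm_smul, Real.norm_eq_abs, Real.norm_eq_abs, abs_of_nonneg a1, abs_of_nonneg a2]
  linarith only [hx, a1, hy, a2, mul_le_mul_of_nonneg_left hx a1, mul_le_mul_of_nonneg_left hy a2]

end

theorem rl_kappa {m : ℕ} (hm : 1 ≤ m) (hJ : Fintype.card J ≤ 2 * m + 1) {R : ℝ}
    (hR : ∃ k : ℕ, R = k) (hR2 : 2 ≤ R) :
    ∃ (k : ℕ) (i1 : (Fin k → ℝ) → (J → ℝ) × (J → ℝ)), k ≤ 2 * m ∧ Continuous i1 ∧
      (∀ v, i1 (-v) = (i1 v).swap) ∧ MapsTo i1 (sphere 0 1) (PK m R) ∧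
      ∀ (i : E → E), Continuous i → (∀ x, i (i x) = x) → ∀ Jn : Set E, IsCompact Jn →
        (∀ x ∈ Jn, i x ∈ Jn) → Sm (2 * m - 1) Jn → ∀ κ : E → (J → ℝ) × (J → ℝ), Continuous κ →
        (∀ x, κ (i x) = (κ x).swap) →
        (∀ x ∈ Jn, κ x ∈ PK m R ∧ 2 ≤ ‖(κ x).1 - (κ x).2‖) →
        ∃ (φ : E → Fin k → ℝ) (Γ : E × ℝ → (J → ℝ) × (J → ℝ)), Continuous φ ∧
          (∀ x, φ (i x) = -φ x) ∧ MapsTo φ Jn (sphere 0 1) ∧ Continuous Γ ∧
          (∀ x s, Γ (i x, s) = (Γ (x, s)).swap) ∧ ∀ x ∈ Jn, Γ (x, 0) = κ x ∧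
            Γ (x, 1) = i1 (φ x) ∧ ∀ s ∈ Icc (0 : ℝ) 1, Γ (x, s) ∈ PK m R := by
  obtain ⟨k, i0, k1, k2, k3⟩ := rl_hyper (E := E) hm hJ
  have n2 : ∀ a : J → ℝ, ‖a‖ = 1 → 1 ≤ ‖(2 : ℝ) • a‖ ∧ ‖(2 : ℝ) • a‖ ≤ R := fun a ha => by
    rw [norm_smul, ha, Real.norm_two, mul_one]
    exact ⟨one_le_two, hR2⟩
  have s0 : ∀ v ∈ sphere (0 : Fin k → ℝ) 1, ((2 : ℝ) • i0 v, -((2 : ℝ) • i0 v)) ∈ hrl2_S R :=
    fun v hv => by
      have := n2 _ ((k2 v).trans (mem_sphere_zero_iff_norm.1 hv))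
      exact hrl2_pm this.1 this.2
  obtain ⟨i1, c1, c2, -, c4⟩ := push2 (i := fun v : Fin k → ℝ => -v) continuous_neg neg_neg
    (d := 2 * m) (isCompact_sphere (0 : Fin k → ℝ) 1)
    ((sm_sphere.le (by rw [Module.finrank_fin_fun]; omega)).mono sdiff_subset) isClosed_empty
    (fun x hx => by simpa using hx) (fun _ hx => hx.elim)
    (fun x hx e => by
      rw [havoid_neg e.symm, mem_sphere_zero_iff_norm, norm_zero] at hx
      exact zero_ne_one hx)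
    (q := fun v => ((2 : ℝ) • i0 v, -((2 : ℝ) • i0 v))) (by fun_prop) (fun x => by simp)
    (fun _ hx => hx.1.elim)
  have m1 : MapsTo i1 (sphere 0 1) (PK m R) := fun v hv => by
    have := hrl2_car hR (s0 v hv) (c4 v hv).2.1 (c4 v hv).2.2
    exact ⟨this.1, (c4 v hv).1, this.2⟩
  refine ⟨k, i1, k1, c1, c2, m1, fun i hic hi Jn hc hiJ hd κ hκ ho h => ?_⟩
  let u : E → J → ℝ := fun x => (1 / 2 : ℝ) • ((κ x).1 - (κ x).2)
  have hu : Continuous u := by fun_prop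
  have uo : ∀ x, u (i x) = -u x := fun x => by
    simp only [u, ho, Prod.fst_swap, Prod.snd_swap]
    module
  have b1 : ∀ x ∈ Jn, ‖(κ x).1‖ ≤ R := fun x hx => mem_closedBall_zero_iff.1 (h x hx).1.2.2.1
  have b2 : ∀ x ∈ Jn, ‖(κ x).2‖ ≤ R := fun x hx => mem_closedBall_zero_iff.1 (h x hx).1.2.2.2
  have un : ∀ x ∈ Jn, 1 ≤ ‖u x‖ ∧ ‖u x‖ ≤ R := fun x hx => by
    have e : ‖u x‖ = 1 / 2 * ‖(κ x).1 - (κ x).2‖ := by
      rw [norm_smul, Real.norm_eq_abs, abs_of_pos one_half_pos]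
    have := norm_sub_le (κ x).1 (κ x).2
    constructor <;> linarith only [e, h, hx, this, b1, b2, (h x hx).2, b1 x hx, b2 x hx]
  have u0 : ∀ x ∈ Jn, u x ≠ 0 := fun x hx => norm_pos_iff.1 (one_pos.trans_le (un x hx).1)
  obtain ⟨φ, G, g1, g2, g3, g4, g5⟩ := k3 i hic hi Jn hc hiJ hd u hu uo u0
  obtain ⟨c, hc0, hcG⟩ := hrl2_low (hc.prod (isCompact_Icc (a := (0 : ℝ)) (b := 1))) g3
    fun q hq => (g5 q.1 hq.1).2.2 q.2 hq.2
  have I0 : (0 : ℝ) ∈ Icc (0 : ℝ) 1 := ⟨le_rfl, zero_le_one⟩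
  have I1 : (1 : ℝ) ∈ Icc (0 : ℝ) 1 := ⟨zero_le_one, le_rfl⟩
  have nc : ∀ {F : Type} [NormedAddCommGroup F] [NormedSpace ℝ F],
      Continuous (hrl2_nm c : F → F) := hrl2_nm_cont hc0
  have hφ : Continuous fun x => hrl2_nm c (φ x) := nc.comp g1
  have φo : ∀ x, hrl2_nm c (φ (i x)) = -hrl2_nm c (φ x) := fun x => by rw [g2, hrl2_nm_neg]
  have φs : ∀ x ∈ Jn, hrl2_nm c (φ x) ∈ sphere (0 : Fin k → ℝ) 1 := fun x hx =>
    mem_sphere_zero_iff_norm.2 (hrl2_nm_norm hc0 (by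
      rw [← k2, ← (g5 x hx).2.1]
      exact hcG (x, 1) ⟨hx, I1⟩))
  have p1 : hrl2_P i Jn R κ (fun x => (u x, -u x)) fun q =>
      ((κ q.1).1 - (q.2 / 2) • ((κ q.1).1 + (κ q.1).2),
        (κ q.1).2 - (q.2 / 2) • ((κ q.1).2 + (κ q.1).1)) := by
    refine ⟨by fun_prop, fun x s => by simp only [ho]; rfl, fun x hx => ⟨by simp, ?_, fun s hs =>
      ⟨del_of_two ?_, mem_closedBall_zero_iff.2 (hrl2_ball (b1 x hx) (b2 x hx) hs),
        mem_closedBall_zero_iff.2 (hrl2_ball (b2 x hx) (b1 x hx) hs)⟩⟩⟩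
    · refine Prod.ext ?_ ?_ <;> simp only [u] <;> module
    · rw [add_comm (κ x).2, sub_sub_sub_cancel_right]
      exact (h x hx).2
  have p2 := hrl2_odd (i := i) (Jn := Jn) (R := R) (f := u)
    (g := fun x => (2 : ℝ) • hrl2_nm c (u x))
    (H := fun q => (1 - q.2) • u q.1 + (2 * q.2) • hrl2_nm c (u q.1))
    (((continuous_const.sub continuous_snd).smul (hu.comp continuous_fst)).add
      ((continuous_const.mul continuous_snd).smul (nc.comp (hu.comp continuous_fst))))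
    (fun x s => by
      simp only [uo, hrl2_nm_neg]
      module)
    fun x hx => ⟨by simp, by simp, fun s hs => by
      have a := hcG (x, 0) ⟨hx, I0⟩
      rw [(g5 x hx).1] at a
      have a1 := mul_le_mul_of_nonneg_left (un x hx).1 (sub_nonneg.2 hs.2)
      have a2 := mul_le_mul_of_nonneg_left (un x hx).2 (sub_nonneg.2 hs.2)
      have a3 := mul_le_mul_of_nonneg_left hR2 hs.1
      dsimp only
      rw [hrl2_nm_mix hc0 a hs]
      constructor <;> linarith only [a1, hs, a2, a3, hs.1]⟩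
  have p3 := hrl2_odd (i := i) (Jn := Jn) (R := R) (f := fun x => (2 : ℝ) • hrl2_nm c (u x))
    (g := fun x => (2 : ℝ) • i0 (hrl2_nm c (φ x))) (H := fun q => (2 : ℝ) • hrl2_nm c (G q))
    ((nc.comp g3).const_smul (2 : ℝ)) (fun x s => by simp only [g4, hrl2_nm_neg, smul_neg])
    fun x hx => ⟨by simp only [(g5 x hx).1], by simp only [(g5 x hx).2.1, hrl2_nm, k2, map_smul],
      fun s hs => n2 _ (hrl2_nm_norm hc0 (hcG (x, s) ⟨hx, hs⟩))⟩
  have p4 : hrl2_P i Jn R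
      (fun x => ((2 : ℝ) • i0 (hrl2_nm c (φ x)), -((2 : ℝ) • i0 (hrl2_nm c (φ x)))))
      (fun x => i1 (hrl2_nm c (φ x))) fun q =>
      (1 - q.2) • ((2 : ℝ) • i0 (hrl2_nm c (φ q.1)), -((2 : ℝ) • i0 (hrl2_nm c (φ q.1)))) +
        q.2 • i1 (hrl2_nm c (φ q.1)) := by
    refine ⟨by fun_prop, fun x s => ?_, fun x hx => ⟨by simp, by simp, fun s hs =>
      hrl2_car hR (s0 _ (φs x hx)) ((InCar.refl _).combo (c4 _ (φs x hx)).2.1 hs)
        ((InCar.refl _).combo (c4 _ (φs x hx)).2.2 hs)⟩⟩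
    simp only [φo, c2, map_neg, smul_neg, neg_neg]
    rfl
  obtain ⟨q1, q2, q3⟩ := hrl2_cat p1 (hrl2_cat p2 (hrl2_cat p3 p4))
  obtain ⟨Γ, r1, r2, r3, r4⟩ := push2 (i := fun q : E × ℝ => (i q.1, q.2)) (by fun_prop)
    (fun q => by simp only [hi]) (d := 2 * m) (A := {q : E × ℝ | q.2 = 0 ∨ q.2 = 1})
    (hc.prod (isCompact_Icc (a := (0 : ℝ)) (b := 1)))
    (((hd.prod (Sm.real _)).le (by omega)).mono sdiff_subset)
    ((isClosed_eq continuous_snd continuous_const).union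
      (isClosed_eq continuous_snd continuous_const))
    (fun q hq => ⟨hiJ _ hq.1, hq.2⟩) (fun _ hq => hq)
    (fun q hq e => u0 q.1 hq.1 (havoid_neg
      ((congrArg (fun z : E × ℝ => u z.1) e).symm.trans (uo _)))) q1
    (fun q => q2 q.1 q.2) (by
      rintro ⟨x, s⟩ ⟨rfl | rfl, hx, -⟩
      · rw [(q3 x hx).1]
        exact (h x hx).1.2.1
      · rw [(q3 x hx).2.1]
        exact (m1 (φs x hx)).2.1)
  refine ⟨_, Γ, hφ, φo, φs, r1, fun x s => r2 (x, s), fun x hx =>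
    ⟨(r3 (x := (x, 0)) ⟨Or.inl rfl, hx, I0⟩).trans (q3 x hx).1,
      (r3 (x := (x, 1)) ⟨Or.inr rfl, hx, I1⟩).trans (q3 x hx).2.1, fun s hs => ?_⟩⟩
  have a := r4 (x, s) ⟨hx, hs⟩
  have := hrl2_car hR ((q3 x hx).2.2 s hs) a.2.1 a.2.2
  exact ⟨this.1, a.1, this.2⟩

end BEp
end
end
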