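import Pool.Agent.Work.MP_f0515e_an.Pos.PLCone
import Pool.Agent.Work.MP_f0515e_an.Pos.PLCD

-- merged part: Pool.Agent.Work.MP_f0515e_an.Pos.PLLP
section
/-!
The cone lemma.

Plan.  Let `b u = coff v r P u + k • w`.  For small `u`, `coff v r P u = P` (`tp_homog`, `coff_ray`).
`lp_local`: on the compact set `K = {ξ | r ξ = 1, v + ξ ∈ Z}` use the tube lemma
(`IsCompact.eventually_forall_of_forall_eventually`): near `(ξ, η)` with `ξ ≠ η` by continuity, because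
`P (v + u₁ • ξ) ≠ P (v + u₁ • η)`; near the diagonal by `Good` at `v + u₁ • ξ`.
Then `eqv_line` and `inj_core` give `Eqv (b u) (b u')` for `u, u'` near `u₁`, and
`IsPreconnected.induction₂'` on `Ioc 0 1` concludes.
-/

open Set Metric Filter Topology Function BEv
open scoped NNReal

noncomputable section
namespace BEp

variable {n n' : ℕ}


theorem lp_local {Z : Set (Fin n → ℝ)} (hZ : IsCompact Z) {v : Fin n → ℝ}
    {r : (Fin n → ℝ) → ℝ} (hr : Gauge r) {P : (Fin n → ℝ) → Fin n' → ℝ} (hP : Continuous P)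
    (hi : ∀ x ∈ Z, ∀ y ∈ Z, r (x - v) = r (y - v) → r (x - v) ≤ 1 → P x = P y → x = y)
    (hg : ∀ z, r (z - v) ≤ 1 → Good Z v P z) {u₁ : ℝ} (hu : u₁ ∈ Ioc (0 : ℝ) 1) :
    ∀ᶠ a : ℝ × ℝ in 𝓝 (u₁, u₁), ∀ p ∈ {ξ | r ξ = 1 ∧ v + ξ ∈ Z} ×ˢ {ξ | r ξ = 1 ∧ v + ξ ∈ Z},
      p.1 ≠ p.2 → a.1 ≤ 1 → a.2 ≤ 1 → ∀ s s' : ℝ, 0 ≤ s → 0 ≤ s' → 0 < s + s' →
        s • (P (v + a.1 • p.1) - P (v + a.1 • p.2)) +
          s' • (P (v + a.2 • p.1) - P (v + a.2 • p.2)) ≠ 0 := by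
  have hrc := hr.tp.continuous
  have hst : ∀ ξ, r ξ = 1 → v + ξ ∈ Z → ∀ a : ℝ, 0 < a → a ≤ 1 → v + a • ξ ∈ Z := by
    intro ξ h1 h2 a ha ha1
    have := star hZ.isClosed hr (fun z hz h => (hg z h).2 hz) h2 (by simp [h1]) ha
      (by simpa [h1] using ha1)
    simpa using this
  have hK : IsCompact {ξ | r ξ = 1 ∧ v + ξ ∈ Z} := by
    have h1 : IsCompact ((fun x => x - v) '' Z) := hZ.image (by fun_prop)
    refine h1.of_isClosed_subset ((isClosed_eq hrc continuous_const).inter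
      (hZ.isClosed.preimage (by fun_prop))) fun ξ h => ⟨v + ξ, h.2, by simp⟩
  refine ((hK.prod hK).eventually_forall_of_forall_eventually
    (P := fun (a : ℝ × ℝ) p => p ∈ {ξ | r ξ = 1 ∧ v + ξ ∈ Z} ×ˢ {ξ | r ξ = 1 ∧ v + ξ ∈ Z} →
      p.1 ≠ p.2 → a.1 ≤ 1 → a.2 ≤ 1 → ∀ s s' : ℝ, 0 ≤ s → 0 ≤ s' → 0 < s + s' →
        s • (P (v + a.1 • p.1) - P (v + a.1 • p.2)) +
          s' • (P (v + a.2 • p.1) - P (v + a.2 • p.2)) ≠ 0) ?_).mono fun a h p hp => h p hp hp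
  rintro ⟨ξ, η⟩ ⟨⟨hξ, hξ'⟩, hη, hη'⟩
  simp only at hξ hξ' hη hη'
  have hpos : ∀ᶠ q : (ℝ × ℝ) × (Fin n → ℝ) × (Fin n → ℝ) in 𝓝 ((u₁, u₁), ξ, η),
      0 < q.1.1 ∧ 0 < q.1.2 :=
    (continuousAt_const.eventually_lt (by fun_prop) hu.1).and
      (continuousAt_const.eventually_lt (by fun_prop) hu.1)
  by_cases e : ξ = η
  · subst e
    obtain ⟨N, hN, hno⟩ := (hg (v + u₁ • ξ) (by
      rw [add_sub_cancel_left, hr.hom _ _ hu.1.le, hξ, mul_one]; exact hu.2)).1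
    have t : ∀ f : (ℝ × ℝ) × (Fin n → ℝ) × (Fin n → ℝ) → Fin n → ℝ, Continuous f →
        f ((u₁, u₁), ξ, ξ) = v + u₁ • ξ → ∀ᶠ q in 𝓝 ((u₁, u₁), ξ, ξ), f q ∈ N :=
      fun f hf he => hf.continuousAt.eventually (he ▸ hN)
    filter_upwards [hpos, t (fun q => v + q.1.1 • q.2.1) (by fun_prop) rfl,
      t (fun q => v + q.1.1 • q.2.2) (by fun_prop) rfl,
      t (fun q => v + q.1.2 • q.2.1) (by fun_prop) rfl,
      t (fun q => v + q.1.2 • q.2.2) (by fun_prop) rfl] with q h0 h1 h2 h3 h4 hq hne ha ha'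
    exact hno _ _ hne _ _ h0.1 h0.2 ⟨hst _ hq.1.1 hq.1.2 _ h0.1 ha, h1⟩
      ⟨hst _ hq.2.1 hq.2.2 _ h0.1 ha, h2⟩ ⟨hst _ hq.1.1 hq.1.2 _ h0.2 ha', h3⟩
      ⟨hst _ hq.2.1 hq.2.2 _ h0.2 ha', h4⟩
  · set Δ := P (v + u₁ • ξ) - P (v + u₁ • η) with hΔ
    have hne : 0 < ‖Δ‖ := by
      refine norm_pos_iff.2 (sub_ne_zero.2 fun h => e ?_)
      have := hi _ (hst ξ hξ hξ' _ hu.1 hu.2) _ (hst η hη hη' _ hu.1 hu.2)
        (by simp [hr.hom _ _ hu.1.le, hξ, hη]) (by simpa [hr.hom _ _ hu.1.le, hξ] using hu.2) h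
      exact smul_right_injective _ hu.1.ne' (add_left_cancel this)
    have t : ∀ f : (ℝ × ℝ) × (Fin n → ℝ) × (Fin n → ℝ) → Fin n' → ℝ, Continuous f →
        f ((u₁, u₁), ξ, η) = Δ → ∀ᶠ q in 𝓝 ((u₁, u₁), ξ, η), ‖f q - Δ‖ < ‖Δ‖ :=
      fun f hf he => ContinuousAt.eventually_lt (by fun_prop) continuousAt_const
        (by simpa [he] using hne)
    filter_upwards [t (fun q => P (v + q.1.1 • q.2.1) - P (v + q.1.1 • q.2.2)) (by fun_prop) rfl,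
      t (fun q => P (v + q.1.2 • q.2.1) - P (v + q.1.2 • q.2.2)) (by fun_prop) rfl]
      with q h1 h2 _ _ _ _ s s' hs hs' hss h
    set X := P (v + q.1.1 • q.2.1) - P (v + q.1.1 • q.2.2)
    set Y := P (v + q.1.2 • q.2.1) - P (v + q.1.2 • q.2.2)
    have e1 : (s + s') • Δ = -(s • (X - Δ) + s' • (Y - Δ)) := by
      clear_value X Y Δ
      rw [← sub_eq_zero, ← h]
      module
    have e2 : (s + s') * ‖Δ‖ ≤ s * ‖X - Δ‖ + s' * ‖Y - Δ‖ := by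
      have := congrArg norm e1
      rw [norm_smul, norm_neg, Real.norm_of_nonneg hss.le] at this
      rw [this]
      refine (norm_add_le _ _).trans ?_
      rw [norm_smul, norm_smul, Real.norm_of_nonneg hs, Real.norm_of_nonneg hs']
    rcases hs.eq_or_lt with h3 | h3
    · subst h3
      linarith only [e2, h2, hss, mul_pos_of_neg_of_neg (Mathlib.Tactic.Linarith.sub_neg_of_lt h2) (Mathlib.Tactic.Linarith.sub_neg_of_lt hss)]
    · linarith only [e2, h2, hs', h1, h3, mul_le_mul_of_nonneg_left h2.le hs', mul_pos_of_neg_of_neg (Mathlib.Tactic.Linarith.sub_neg_of_lt h1) (Mathlib.Tactic.Linarith.sub_neg_of_lt h3)]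

theorem cone_off {Z C : Set (Fin n → ℝ)} (hZ : Poly Z) (hC : C.Finite) (hCZ : C ⊆ Z)
    {v : Fin n → ℝ} {r k : (Fin n → ℝ) → ℝ} (hr : Gauge r) (hk : TP k)
    {P : (Fin n → ℝ) → Fin n' → ℝ} (hP : TP P) {w : Fin n' → ℝ} {l : (Fin n' → ℝ) →L[ℝ] ℝ}
    (hw : l w = 1) (hl : ∀ x, l (P x) = 0) {t0 L : ℝ} (hL : 0 < L)
    (hk1 : ∀ x ∈ Z, r (x - v) ≤ 1 → k x = t0 + L * (r (x - v) - 1))
    (hk2 : ∀ x ∈ Z, 1 ≤ r (x - v) → t0 ≤ k x)
    (hi : InjOn (fun x => P x + k x • w) Z)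
    (hg : ∀ z, r (z - v) ≤ 1 → Good Z v P z) (hC1 : ∀ c ∈ C, 1 < r (c - v)) :
    Eqv Z C (fun x => P x + k x • w) (fun x => coff v r P 1 x + k x • w) := by
  have hrc := hr.tp.continuous
  obtain ⟨κ, hκ, hlow⟩ := hr.low
  have hi' : ∀ x ∈ Z, ∀ y ∈ Z, r (x - v) = r (y - v) → r (x - v) ≤ 1 → P x = P y → x = y :=
    fun x hx y hy e h1 h => hi hx hy (by
      simp only [h, hk1 x hx h1, hk1 y hy (e ▸ h1), e])
  have hray : ∀ x, r (x - v) ≠ 0 → 0 < r (x - v) ∧ r ((r (x - v))⁻¹ • (x - v)) = 1 ∧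
      x = v + r (x - v) • ((r (x - v))⁻¹ • (x - v)) := fun x h => by
    have h1 : 0 < r (x - v) :=
      lt_of_le_of_ne ((mul_nonneg hκ.le (norm_nonneg _)).trans (hlow _)) h.symm
    refine ⟨h1, by rw [hr.hom _ _ (inv_pos.2 h1).le, inv_mul_cancel₀ h], ?_⟩
    rw [smul_inv_smul₀ h, add_sub_cancel]
  have hzero : ∀ x, r (x - v) = 0 → x = v := fun x h => by
    have := hlow (x - v)
    rw [h] at this
    exact sub_eq_zero.1 (norm_eq_zero.1 (le_antisymm (by (refine le_of_not_gt fun h_nl => ?_; linarith only [h_nl, this, hκ, norm_nonneg (x - v), mul_pos_of_neg_of_neg (Mathlib.Tactic.Linarith.sub_neg_of_lt hκ) (Mathlib.Tactic.Linarith.sub_neg_of_lt h_nl)]))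
      (norm_nonneg _)))
  have key : ∀ u ∈ Ioc (0 : ℝ) 1, ∀ᶠ u' in 𝓝[Ioc 0 1] u,
      Eqv Z C (fun x => coff v r P u x + k x • w) (fun x => coff v r P u' x + k x • w) := by
    intro u hu
    have h1 := lp_local hZ.1 hr hP.continuous hi' hg hu
    obtain ⟨δ, hδ, h1⟩ := Metric.eventually_nhds_iff.1 h1
    filter_upwards [self_mem_nhdsWithin, mem_nhdsWithin_of_mem_nhds (ball_mem_nhds u hδ)]
      with u' hu' hd
    refine eqv_line hZ hC hCZ ((coff_tp hr hP hu.1).add (hk.smul_const w))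
      ((coff_tp hr hP hu'.1).add (hk.smul_const w)) (fun t ht => ?_) (fun c hc => ?_)
    · have e : (fun x => (1 - t) • (coff v r P u x + k x • w) + t • (coff v r P u' x + k x • w)) =
          fun x => ((1 - t) • coff v r P u x + t • coff v r P u' x) + k x • w := by
        funext x
        module
      rw [e]
      refine inj_core (r := r) (v := v) hw (fun x => by simp [coff_l hl]) hL hk1 hk2 ?_ ?_
      · intro x hx y hy h
        refine hi hx.1 hy.1 ?_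
        simp only [coff_above hu.1 (hu.2.trans hx.2), coff_above hu'.1 (hu'.2.trans hx.2),
          coff_above hu.1 (hu.2.trans hy.2), coff_above hu'.1 (hu'.2.trans hy.2), ← add_smul,
          sub_add_cancel, one_smul] at h
        exact h
      · intro x hx y hy e h2 h
        by_cases h0 : r (x - v) = 0
        · rw [hzero x h0, hzero y (e ▸ h0)]
        obtain ⟨a1, a2, a3⟩ := hray x h0
        obtain ⟨-, b2, b3⟩ := hray y (e ▸ h0)
        rw [← e] at b2 b3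
        have hxZ := star hZ.1.isClosed hr (fun z hz h => (hg z h).2 hz) hx h2.le (inv_pos.2 a1)
          (by rw [inv_mul_cancel₀ h0])
        have hyZ := star hZ.1.isClosed hr (fun z hz h => (hg z h).2 hz) hy (e ▸ h2.le)
          (inv_pos.2 a1) (by rw [← e, inv_mul_cancel₀ h0])
        generalize r (x - v) = ρ at *
        generalize ρ⁻¹ • (x - v) = ξ at *
        generalize ρ⁻¹ • (y - v) = η at *
        by_cases hρ : max u u' ≤ ρ
        · refine hi' x hx y hy (by rw [a3, b3]; simp [hr.hom _ _ a1.le, a2, b2])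
            (by rw [a3]; simpa [hr.hom _ _ a1.le, a2] using h2.le) ?_
          have c1 : u ≤ ρ := (le_max_left _ _).trans hρ
          have c2 : u' ≤ ρ := (le_max_right _ _).trans hρ
          rw [a3, b3] at h ⊢
          simp only [coff_ray hr a2 hu.1 a1, coff_ray hr a2 hu'.1 a1, coff_ray hr b2 hu.1 a1,
            coff_ray hr b2 hu'.1 a1, max_eq_right c1, max_eq_right c2, div_self a1.ne', one_smul,
            add_sub_cancel, ← add_smul, sub_add_cancel] at h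
          exact h
        · by_contra hne
          have hξη : ξ ≠ η := fun h => hne (by rw [a3, b3, h])
          rw [not_le] at hρ
          have hd' := abs_lt.1 (Real.dist_eq _ _ ▸ mem_ball.1 hd)
          have hm : 0 < max u ρ := lt_max_of_lt_left hu.1
          have hm' : 0 < max u' ρ := lt_max_of_lt_left hu'.1
          have h3 := @h1 (max u ρ, max u' ρ) (by
            rw [Prod.dist_eq, max_lt_iff, Real.dist_eq, Real.dist_eq, abs_lt, abs_lt]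
            rcases lt_max_iff.1 hρ with c | c <;> rcases le_total u ρ with c1 | c1 <;>
              rcases le_total u' ρ with c2 | c2 <;>
              simp only [max_eq_left, max_eq_right, c1, c2] <;>
              refine ⟨⟨?_, ?_⟩, ?_, ?_⟩ <;> linarith only [c, c1, hd', c2, hδ, hd'.1, hd'.2])
            (ξ, η) ⟨⟨a2, hxZ⟩, b2, hyZ⟩ hξη (max_le hu.2 h2.le) (max_le hu'.2 h2.le)
            ((1 - t) * (ρ / max u ρ)) (t * (ρ / max u' ρ))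
            (mul_nonneg (sub_nonneg.2 ht.2) (by positivity)) (mul_nonneg ht.1 (by positivity))
            (by
              have c1 : 0 < ρ / max u ρ := by positivity
              have c2 : 0 < ρ / max u' ρ := by positivity
              rcases ht.1.eq_or_lt with c | c
              · rw [← c]; simpa using c1
              · exact add_pos_of_nonneg_of_pos (mul_nonneg (sub_nonneg.2 ht.2) c1.le)
                  (mul_pos c c2))
          apply h3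
          rw [a3, b3] at h
          simp only [coff_ray hr a2 hu.1 a1, coff_ray hr a2 hu'.1 a1, coff_ray hr b2 hu.1 a1,
            coff_ray hr b2 hu'.1 a1] at h
          rw [← sub_eq_zero] at h
          rw [← h]
          simp only
          module
    · refine mem_nhdsWithin_of_mem_nhds ?_
      have : ∀ᶠ x in 𝓝 c, 1 < r (x - v) :=
        continuousAt_const.eventually_lt (by fun_prop) (hC1 c hc)
      filter_upwards [this] with x hx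
      rw [coff_above hu.1 (hu.2.trans hx.le), coff_above hu'.1 (hu'.2.trans hx.le)]
  obtain ⟨ρ₀, hρ₀, hh⟩ := tp_homog hP v
  have hu₀ : min 1 (κ * ρ₀) ∈ Ioc (0 : ℝ) 1 := ⟨lt_min one_pos (by positivity), min_le_left _ _⟩
  have h0 : ∀ x, coff v r P (min 1 (κ * ρ₀)) x = P x := fun x => by
    have hle : min 1 (κ * ρ₀) ≤ κ * ρ₀ := min_le_right _ _
    generalize min 1 (κ * ρ₀) = u at *
    by_cases h0 : r (x - v) = 0
    · have := hzero x h0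
      subst this
      simp [coff]
    obtain ⟨a1, a2, a3⟩ := hray x h0
    rcases le_total u (r (x - v)) with c | c
    · exact coff_above hu₀.1 c
    generalize r (x - v) = ρ at *
    generalize ρ⁻¹ • (x - v) = ξ at *
    rw [a3, coff_ray hr a2 hu₀.1 a1, max_eq_left c]
    have h1 := hh (u • ξ) (by
      have := hlow ξ
      rw [norm_smul, Real.norm_of_nonneg hu₀.1.le]
      rw [a2] at this
      linarith only [hρ₀, this, hle, norm_nonneg ξ, hu₀.1, mul_nonneg_of_nonpos_of_nonpos (le_of_lt (Mathlib.Tactic.Linarith.sub_neg_of_lt hρ₀)) (Mathlib.Tactic.Linarith.sub_nonpos_of_le this), mul_nonneg_of_nonpos_of_nonpos (Mathlib.Tactic.Linarith.sub_nonpos_of_le hle) (Mathlib.Tactic.Linarith.sub_nonpos_of_le (norm_nonneg ξ))]) (ρ / u) ⟨by have := hu₀.1; positivity,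
        (div_le_one hu₀.1).2 c⟩
    rw [← h1, smul_smul, div_mul_cancel₀ _ hu₀.1.ne']
  have h2 := (isPreconnected_Ioc (a := (0 : ℝ)) (b := 1)).induction₂'
    (fun u u' => Eqv Z C (fun x => coff v r P u x + k x • w) (fun x => coff v r P u' x + k x • w))
    (fun u hu => (key u hu).mono fun u' h => ⟨h, h.symm hCZ⟩)
    (fun _ _ _ _ _ _ h h' => h.trans hCZ h') hu₀ ⟨one_pos, le_rfl⟩
  simpa only [h0] using h2

end BEp
end
end

-- merged part: Pool.Agent.Work.MP_f0515e_an.Pos.PLCrease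
section
/-!
A single crease.

Plan.  Let `S` be the finite set of pieces of `P` on `closedBall 0 R`; `𝓕` consists of the coordinates
`((M - M') i, (b - b') i)` of differences of two pieces which do not vanish identically on `A`.
Let `z` satisfy `OneH`.  Choose `f₀ ∈ 𝓕` with `z ∈ zs f₀` (if there is none take the constant `1`) and `ε` such
that the other functionals have no zero in `ball z ε`.  On each of the convex sets
`A ∩ ball z ε ∩ {± f₀ > 0}` no member of `𝓕` vanishes, so two pieces which agree at a point agree on `A`;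
the closed sets `{P = piece}` cover this preconnected set, hence `P` is one piece there, and on the closed
side by continuity (a point of `A ∩ zs f₀` is a limit from both sides).  For `x, y` in `A ∩ ball z ε`, cutting the
segment gives `P x - P y = (1 - μ) • M₁ (x - y) + μ • M₂ (x - y)`, `μ ∈ [0, 1]`.  A vanishing combination gives
`(1 - μ) • M₁ ζ + μ • M₂ ζ = 0` with `ζ ≠ 0` in the direction of `A`, say `0 ≤ f₀.1 ζ`; then the points
`z + (c (1 - μ)) • ζ` and `z - (c μ) • ζ` have the same image for small `c > 0`.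
-/

open Set Metric Filter Topology Function BEv
open scoped NNReal

noncomputable section
namespace BEp

variable {n n' : ℕ}


section
variable {E F : Type} [NormedAddCommGroup E] [NormedSpace ℝ E] [NormedAddCommGroup F]
  [NormedSpace ℝ F] {P : E → F} {A : AffineSubspace ℝ E} {z : E} {ε : ℝ}

/-- One piece on a preconnected set. -/
theorem PLCrease_one (hP : Continuous P) {S : Set ((E →L[ℝ] F) × F)} (hS : S.Finite) {T : Set E}
    (hT : IsPreconnected T) (h1 : ∀ x ∈ T, ∃ B ∈ S, P x = B.1 x + B.2)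
    (h2 : ∀ B ∈ S, ∀ B' ∈ S, ∀ x ∈ T, B.1 x + B.2 = B'.1 x + B'.2 →
      ∀ y ∈ T, B.1 y + B.2 = B'.1 y + B'.2) :
    ∃ B : (E →L[ℝ] F) × F, ∀ x ∈ T, P x = B.1 x + B.2 := by
  rcases T.eq_empty_or_nonempty with rfl | ⟨x₀, hx₀⟩
  · exact ⟨0, fun _ h => h.elim⟩
  obtain ⟨B₀, hB₀, e₀⟩ := h1 x₀ hx₀
  have hc : ∀ B : (E →L[ℝ] F) × F, IsClosed {x | P x = B.1 x + B.2} := fun B =>
    isClosed_eq hP (by fun_prop)
  have hd : ∀ x ∈ T, P x = B₀.1 x + B₀.2 → x ∉ ⋃ B ∈ {B ∈ S | ¬ ∀ y ∈ T,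
      B.1 y + B.2 = B₀.1 y + B₀.2}, {x | P x = B.1 x + B.2} := by
    intro x hx e h
    obtain ⟨B, hB, e'⟩ := mem_iUnion₂.1 h
    exact hB.2 (h2 B hB.1 B₀ hB₀ x hx (e'.symm.trans e))
  refine ⟨B₀, (isPreconnected_iff_subset_of_disjoint_closed.1 hT _ _ (hc B₀)
    ((hS.subset (sep_subset _ _)).isClosed_biUnion fun B _ => hc B) (fun x hx => ?_)
    (eq_empty_of_forall_notMem fun x hx => hd x hx.1 hx.2.1 hx.2.2)).resolve_right
      fun h => hd x₀ hx₀ e₀ (h hx₀)⟩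
  obtain ⟨B, hB, e⟩ := h1 x hx
  by_cases k : ∀ y ∈ T, B.1 y + B.2 = B₀.1 y + B₀.2
  · exact Or.inl (e.trans (k x hx))
  · exact Or.inr (mem_iUnion₂.2 ⟨B, ⟨hB, k⟩, e⟩)

/-- One piece on a closed half ball. -/
theorem PLCrease_half (hP : Continuous P) {S : Set ((E →L[ℝ] F) × F)} (hS : S.Finite)
    (φ : E →L[ℝ] ℝ) (hz : z ∈ A) {x₁ : E} (hx₁ : x₁ ∈ A) (h0 : φ (x₁ - z) ≠ 0)
    (h1 : ∀ x ∈ ball z ε, ∃ B ∈ S, P x = B.1 x + B.2)
    (h2 : ∀ B ∈ S, ∀ B' ∈ S, ∀ x ∈ (A : Set E) ∩ ball z ε, φ (x - z) ≠ 0 →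
      B.1 x + B.2 = B'.1 x + B'.2 → ∀ y ∈ A, B.1 y + B.2 = B'.1 y + B'.2) :
    ∃ B : (E →L[ℝ] F) × F, ∀ x ∈ (A : Set E) ∩ ball z ε, 0 ≤ φ (x - z) → P x = B.1 x + B.2 := by
  have hc : Convex ℝ {x | φ z < φ x} := convex_halfSpace_gt φ.toLinearMap.isLinear _
  obtain ⟨B, hB⟩ := PLCrease_one hP hS ((A.convex.inter (convex_ball z ε)).inter hc).isPreconnected
    (fun x hx => h1 x hx.1.2) fun B hB B' hB' x hx e y hy =>
      h2 B hB B' hB' x hx.1 (by rw [map_sub]; exact (sub_pos.2 hx.2).ne') e y hy.1.1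
  refine ⟨B, fun x hx h3 => ?_⟩
  have ht : Tendsto (fun t : ℝ => (t * φ (x₁ - z)) • (x₁ - z) + x) (𝓝[>] 0) (𝓝 x) :=
    (Continuous.tendsto' (by fun_prop) _ _ (by simp)).mono_left nhdsWithin_le_nhds
  refine (isClosed_eq hP (by fun_prop : Continuous fun x => B.1 x + B.2)).mem_of_tendsto ht ?_
  filter_upwards [self_mem_nhdsWithin, ht.eventually (isOpen_ball.mem_nhds hx.2)] with t k1 k2
  refine hB _ ⟨⟨A.smul_vsub_vadd_mem _ hx₁ hz hx.1, k2⟩, ?_⟩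
  have k3 := mul_pos (show 0 < t from k1) (mul_self_pos.2 h0)
  rw [map_sub] at h3
  simp only [mem_ofPred_eq, map_add, map_smul, smul_eq_mul]
  linarith

variable {φ : E →L[ℝ] ℝ} {B₁ B₂ : (E →L[ℝ] F) × F}

/-- Secants of a map with one crease. -/
theorem PLCrease_sec
    (h1 : ∀ x ∈ (A : Set E) ∩ ball z ε, 0 ≤ φ (x - z) → P x = B₁.1 x + B₁.2)
    (h2 : ∀ x ∈ (A : Set E) ∩ ball z ε, φ (x - z) ≤ 0 → P x = B₂.1 x + B₂.2) :
    ∀ x ∈ (A : Set E) ∩ ball z ε, ∀ y ∈ (A : Set E) ∩ ball z ε, ∃ α β : ℝ, 0 ≤ α ∧ 0 ≤ β ∧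
      α + β = 1 ∧ P x - P y = α • B₁.1 (x - y) + β • B₂.1 (x - y) := by
  have key : ∀ x ∈ (A : Set E) ∩ ball z ε, ∀ y ∈ (A : Set E) ∩ ball z ε, 0 ≤ φ (x - z) →
      φ (y - z) < 0 → ∃ α β : ℝ, 0 ≤ α ∧ 0 ≤ β ∧
        α + β = 1 ∧ P x - P y = α • B₁.1 (x - y) + β • B₂.1 (x - y) := by
    intro x hx y hy k1 k2
    have k3 : 0 < φ (x - z) - φ (y - z) := by linarith
    obtain ⟨α, β, a0, b0, ab, e⟩ : ∃ α β : ℝ, 0 ≤ α ∧ 0 ≤ β ∧ β + α = 1 ∧
        β * φ (x - z) + α * φ (y - z) = 0 :=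
      ⟨φ (x - z) / (φ (x - z) - φ (y - z)), -φ (y - z) / (φ (x - z) - φ (y - z)),
        div_nonneg k1 k3.le, div_nonneg (by linarith) k3.le, by field_simp; ring,
        by field_simp; ring⟩
    have hm := (A.convex.inter (convex_ball z ε)) hx hy b0 a0 ab
    have e1 : φ (β • x + α • y - z) = 0 := by
      rw [← e]
      simp only [map_sub, map_add, map_smul, smul_eq_mul]
      linear_combination φ z * ab
    have e2 := (h1 _ hm e1.ge).symm.trans (h2 _ hm e1.le)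
    refine ⟨α, β, a0, b0, by linarith only [ab], ?_⟩
    rw [h1 x hx k1, h2 y hy k2.le]
    obtain rfl : β = 1 - α := by linarith
    simp only [map_sub, map_add, map_smul] at e2 ⊢
    linear_combination (norm := module) e2
  intro x hx y hy
  rcases le_or_gt 0 (φ (x - z)) with k1 | k1 <;> rcases le_or_gt 0 (φ (y - z)) with k2 | k2
  · exact ⟨1, 0, zero_le_one, le_rfl, add_zero _, by simp [h1 x hx k1, h1 y hy k2]⟩
  · exact key x hx y hy k1 k2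
  · obtain ⟨α, β, a0, b0, ab, e⟩ := key y hy x hx k2 k1
    refine ⟨α, β, a0, b0, ab, ?_⟩
    simp only [map_sub] at e ⊢
    linear_combination (norm := module) -e
  · exact ⟨0, 1, le_rfl, zero_le_one, zero_add _, by simp [h2 x hx k1.le, h2 y hy k2.le]⟩

theorem PLCrease_ne (hz : z ∈ A) (hε : 0 < ε) (hi : InjOn P ((A : Set E) ∩ ball z ε))
    (h1 : ∀ x ∈ (A : Set E) ∩ ball z ε, 0 ≤ φ (x - z) → P x = B₁.1 x + B₁.2)
    (h2 : ∀ x ∈ (A : Set E) ∩ ball z ε, φ (x - z) ≤ 0 → P x = B₂.1 x + B₂.2)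
    {x y : E} (hx : x ∈ A) (hy : y ∈ A) (hxy : x ≠ y) (h3 : 0 ≤ φ (x - y)) {a b : ℝ} (ha : 0 ≤ a)
    (hb : 0 ≤ b) (hab : 0 < a + b) : a • B₁.1 (x - y) + b • B₂.1 (x - y) ≠ 0 := by
  intro e
  have ht : ∀ c : ℝ, ∀ᶠ t in 𝓝[>] (0 : ℝ), (t * c) • (x - y) + z ∈ ball z ε := fun c =>
    ((Continuous.tendsto' (f := fun t : ℝ => (t * c) • (x - y) + z) (by fun_prop) 0 z
      (by simp)).mono_left nhdsWithin_le_nhds).eventually (ball_mem_nhds z hε)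
  obtain ⟨t, t0, k1, k2⟩ := ((show ∀ᶠ t in 𝓝[>] (0 : ℝ), 0 < t from self_mem_nhdsWithin).and
    ((ht a).and (ht (-b)))).exists
  have m1 : _ ∈ (A : Set E) ∩ ball z ε := ⟨A.smul_vsub_vadd_mem (t * a) hx hy hz, k1⟩
  have m2 : _ ∈ (A : Set E) ∩ ball z ε := ⟨A.smul_vsub_vadd_mem (t * -b) hx hy hz, k2⟩
  simp only [vsub_eq_sub, vadd_eq_add] at m1 m2
  have e0 := (h1 z ⟨hz, mem_ball_self hε⟩ (by simp)).symm.trans
    (h2 z ⟨hz, mem_ball_self hε⟩ (by simp))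
  have e1 := h1 _ m1 (by
    rw [add_sub_cancel_right, map_smul]
    exact mul_nonneg (mul_nonneg t0.le ha) h3)
  have e2 := h2 _ m2 (by
    rw [add_sub_cancel_right, map_smul, smul_eq_mul]
    linarith only [t0, hb, h3, mul_nonneg (mul_nonneg t0.le hb) h3])
  have e3 := hi m1 m2 (by
    rw [e1, e2, map_add, map_add, map_smul, map_smul]
    linear_combination (norm := module) t • e + e0)
  have e4 : (t * (a + b)) • (x - y) = 0 := by linear_combination (norm := module) e3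
  exact hxy (sub_eq_zero.1 ((smul_eq_zero.1 e4).resolve_left (mul_pos t0 hab).ne'))

theorem PLCrease_pno (hz : z ∈ A) (hε : 0 < ε) (hi : InjOn P ((A : Set E) ∩ ball z ε))
    (h1 : ∀ x ∈ (A : Set E) ∩ ball z ε, 0 ≤ φ (x - z) → P x = B₁.1 x + B₁.2)
    (h2 : ∀ x ∈ (A : Set E) ∩ ball z ε, φ (x - z) ≤ 0 → P x = B₂.1 x + B₂.2) :
    PNO ((A : Set E) ∩ ball z ε) P := by
  intro x hx y hy x' hx' y' hy' hxy a ha e s s' hs hs' hss h
  obtain ⟨α, β, a0, b0, ab, e1⟩ := PLCrease_sec h1 h2 x hx y hy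
  obtain ⟨α', β', a0', b0', ab', e2⟩ := PLCrease_sec h1 h2 x' hx' y' hy'
  rw [e1, e2, e, map_smul, map_smul] at h
  have k1 : 0 ≤ s * α + s' * α' * a := by positivity
  have k2 : 0 ≤ s * β + s' * β' * a := by positivity
  have k3 : 0 < s * α + s' * α' * a + (s * β + s' * β' * a) := by
    have : s * α + s' * α' * a + (s * β + s' * β' * a) = s + s' * a := by
      linear_combination s * ab + s' * a * ab'
    rw [this]
    rcases hs.eq_or_lt with rfl | k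
    · simpa using mul_pos (by simpa using hss) ha
    · positivity
  rcases le_total 0 (φ (x - y)) with k | k
  · exact PLCrease_ne hz hε hi h1 h2 hx.1 hy.1 hxy k k1 k2 k3
      (by linear_combination (norm := module) h)
  · refine PLCrease_ne hz hε hi h1 h2 hy.1 hx.1 hxy.symm
      (by rw [← neg_sub, map_neg]; linarith) k1 k2 k3 ?_
    rw [← neg_sub, map_neg, map_neg]
    linear_combination (norm := module) -h

end

theorem crease (A : AffineSubspace ℝ (Fin n → ℝ)) {P : (Fin n → ℝ) → Fin n' → ℝ} (hP : TP P)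
    (R : ℝ) : ∃ 𝓕 : Set (((Fin n → ℝ) →L[ℝ] ℝ) × ℝ), 𝓕.Finite ∧ (∀ f ∈ 𝓕, ∃ x ∈ A, x ∉ zs f) ∧
      ∀ z ∈ A, ‖z‖ < R → OneH A 𝓕 z → (∃ N ∈ 𝓝 z, InjOn P ((A : Set (Fin n → ℝ)) ∩ N)) →
        ∃ N ∈ 𝓝 z, PNO ((A : Set (Fin n → ℝ)) ∩ N) P := by
  obtain ⟨S, hS, hp⟩ := hP.pa R
  let co : (((Fin n → ℝ) →L[ℝ] Fin n' → ℝ) × (Fin n' → ℝ)) ×
      (((Fin n → ℝ) →L[ℝ] Fin n' → ℝ) × (Fin n' → ℝ)) × Fin n' → ((Fin n → ℝ) →L[ℝ] ℝ) × ℝ :=
    fun q => ((ContinuousLinearMap.proj q.2.2).comp (q.1.1 - q.2.1.1), (q.1.2 - q.2.1.2) q.2.2)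
  have hco : ∀ B B' x, (∀ i, x ∈ zs (co (B, B', i))) ↔ B.1 x + B.2 = B'.1 x + B'.2 := by
    intro B B' x
    rw [funext_iff]
    refine forall_congr' fun i => ?_
    simp only [zs, co, mem_ofPred_eq, ContinuousLinearMap.comp_apply, ContinuousLinearMap.proj_apply,
      sub_apply, Pi.sub_apply, Pi.add_apply]
    constructor <;> intro h <;> linarith only [h]
  have hF : {f ∈ co '' S ×ˢ S ×ˢ univ | ∃ x ∈ A, x ∉ zs f}.Finite :=
    ((hS.prod (hS.prod finite_univ)).image co).subset (sep_subset _ _)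
  refine ⟨_, hF, fun f hf => hf.2, fun z hz hR h1 ⟨N, hN, hi⟩ => ?_⟩
  set 𝓕 := {f ∈ co '' S ×ˢ S ×ˢ univ | ∃ x ∈ A, x ∉ zs f}
  have key : ∀ B ∈ S, ∀ B' ∈ S, ∀ x, (∀ f ∈ 𝓕, x ∉ zs f) → B.1 x + B.2 = B'.1 x + B'.2 →
      ∀ y ∈ A, B.1 y + B.2 = B'.1 y + B'.2 := by
    intro B hB B' hB' x hx e y hy
    refine (hco B B' y).1 fun i => ?_
    by_contra k
    exact hx _ ⟨⟨(B, B', i), ⟨hB, hB', trivial⟩, rfl⟩, y, hy, k⟩ ((hco B B' x).2 e i)
  have ev : ∀ᶠ x in 𝓝 z, (∀ f ∈ 𝓕, z ∉ zs f → x ∉ zs f) ∧ x ∈ ball 0 R ∧ x ∈ N := by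
    refine ((eventually_all_finite hF).2 fun f _ => ?_).and
      ((show ∀ᶠ x in 𝓝 z, x ∈ ball 0 R from
        isOpen_ball.mem_nhds (mem_ball_zero_iff.2 hR)).and hN)
    by_cases k : z ∈ zs f
    · exact Eventually.of_forall fun _ h => absurd k h
    · have : IsClosed (zs f) := isClosed_eq (by fun_prop) continuous_const
      filter_upwards [this.isOpen_compl.mem_nhds k] with x hx _ using hx
  obtain ⟨ε, hε, he⟩ := Metric.eventually_nhds_iff_ball.1 ev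
  have hi' : InjOn P ((A : Set (Fin n → ℝ)) ∩ ball z ε) :=
    hi.mono (inter_subset_inter_right _ fun x hx => (he x hx).2.2)
  have hp' : ∀ x ∈ ball z ε, ∃ B ∈ S, P x = B.1 x + B.2 := fun x hx =>
    hp x (ball_subset_closedBall (he x hx).2.1)
  refine ⟨ball z ε, ball_mem_nhds z hε, ?_⟩
  by_cases h0 : ∃ f₀ ∈ 𝓕, z ∈ zs f₀
  · obtain ⟨f₀, hf₀, hz₀⟩ := h0
    have e0 : ∀ x, f₀.1 (x - z) ≠ 0 ↔ x ∉ zs f₀ := fun x => by
      have : f₀.1 z + f₀.2 = 0 := hz₀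
      rw [map_sub, show f₀.1 x - f₀.1 z = f₀.1 x + f₀.2 by linarith only [this]]
      rfl
    have k : ∀ B ∈ S, ∀ B' ∈ S, ∀ x ∈ (A : Set (Fin n → ℝ)) ∩ ball z ε, f₀.1 (x - z) ≠ 0 →
        B.1 x + B.2 = B'.1 x + B'.2 → ∀ y ∈ A, B.1 y + B.2 = B'.1 y + B'.2 :=
      fun B hB B' hB' x hx h => key B hB B' hB' x fun f hf hxf => by
        by_cases k : z ∈ zs f
        · exact (e0 x).1 h (h1 f hf f₀ hf₀ k hz₀ x hx.1 hxf)
        · exact (he x hx.2).1 f hf k hxf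
    obtain ⟨x₁, hx₁, k1⟩ := hf₀.2
    obtain ⟨B₁, b1⟩ := PLCrease_half hP.continuous hS f₀.1 hz hx₁ ((e0 _).2 k1) hp' k
    obtain ⟨B₂, b2⟩ := PLCrease_half hP.continuous hS (-f₀.1) hz hx₁
      (neg_ne_zero.2 ((e0 _).2 k1)) hp' fun B hB B' hB' x hx h => k B hB B' hB' x hx
        (neg_ne_zero.1 h)
    exact PLCrease_pno hz hε hi' b1 fun x hx h => b2 x hx (neg_nonneg.2 h)
  · obtain ⟨B, hB⟩ := PLCrease_one hP.continuous hS
      (A.convex.inter (convex_ball z ε)).isPreconnected (fun x hx => hp' x hx.2)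
      fun B hB B' hB' x hx e y hy => key B hB B' hB' x
        (fun f hf => (he x hx.2).1 f hf fun k => h0 ⟨f, hf, k⟩) e y hy.1
    exact PLCrease_pno (φ := 0) hz hε hi' (fun x hx _ => hB x hx) fun x hx _ => hB x hx

end BEp
end
end

-- merged part: Pool.Agent.Work.MP_f0515e_an.Pos.PLGen
section
/-!
Generic rays and thin gauges.

Plan.  Lemma: finitely many affine subspaces `W` (closed sets such that `x ∈ W` and `x + t • (p - x) ∈ W` for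
one `t ≠ 0` give `p ∈ W`) which do not contain `A` miss a point of `A ∩ O` for every open `O` meeting `A`
(induction; move from `x` towards `p ∈ A \\ W`).
`exists_ray`: avoid the lines through `v` and `s` (they have dimension at most one), the point `v`, the sets
`zs f`, and the sets `zs (f v • f' - f' v • f)` which do not contain `A`.  If `f, f'` vanish at
`v + t • (x - v)` then so does `g = f v • f' - f' v • f`, which vanishes at `v`, hence at `x`, hence on `A`;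
`f v ≠ 0` because otherwise `f x = 0`.
`exists_gauge`: `r = min r₁ r₂`, `rᵢ ξ = max (ℓᵢ ξ) (M * ‖ξ - max (ℓᵢ ξ) 0 • eᵢ‖)` with `ℓᵢ eᵢ = 1` (a multiple of
a coordinate); `rᵢ ξ ≤ 1` puts `ξ` within `1 / M` of the segment (`IsCompact.exists_cthickening_subset_open`).
-/

open Set Metric Filter Topology Function BEv
open scoped NNReal

noncomputable section
namespace BEp

variable {n n' : ℕ}

/-- closed and stable under lines -/
def plgenAff (W : Set (Fin n → ℝ)) : Prop :=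
  IsClosed W ∧ ∀ x ∈ W, ∀ y ∈ W, ∀ t : ℝ, x + t • (y - x) ∈ W

theorem plgen_back {W : Set (Fin n → ℝ)} (hW : plgenAff W) {x p : Fin n → ℝ} {t : ℝ} (ht : t ≠ 0)
    (hx : x ∈ W) (h : x + t • (p - x) ∈ W) : p ∈ W := by
  have := hW.2 x hx _ h t⁻¹
  rwa [add_sub_cancel_left, smul_smul, inv_mul_cancel₀ ht, one_smul, add_sub_cancel] at this

theorem plgen_sub (A : AffineSubspace ℝ (Fin n → ℝ)) : plgenAff (A : Set (Fin n → ℝ)) :=
  ⟨A.closed_of_finiteDimensional, fun x hx y hy t => by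
    have := A.smul_vsub_vadd_mem t hy hx hx
    rwa [vsub_eq_sub, vadd_eq_add, add_comm] at this⟩

theorem plgen_zs (f : ((Fin n → ℝ) →L[ℝ] ℝ) × ℝ) : plgenAff (zs f) :=
  ⟨isClosed_eq (f.1.continuous.add continuous_const) continuous_const, fun x hx y hy t => by
    simp only [zs, mem_ofPred_eq, map_add, map_smul, map_sub, smul_eq_mul] at hx hy ⊢
    linear_combination (1 - t) * hx + t * hy⟩

theorem plgen_step {A W O : Set (Fin n → ℝ)} (hA : plgenAff A) (hW : plgenAff W) (hO : IsOpen O)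
    {x p : Fin n → ℝ} (hx : x ∈ A) (hxO : x ∈ O) (hp : p ∈ A) (hpW : p ∉ W) :
    ∃ y ∈ A, y ∈ O ∧ y ∉ W := by
  by_cases h : x ∈ W
  · have hc : Continuous fun t : ℝ => x + t • (p - x) := by fun_prop
    have h1 : ∀ᶠ t in 𝓝 (0 : ℝ), x + t • (p - x) ∈ O :=
      hc.continuousAt.eventually_mem (by simpa using hO.mem_nhds hxO)
    obtain ⟨t, ht, ht0⟩ := ((h1.filter_mono nhdsWithin_le_nhds).and
      (self_mem_nhdsWithin : {(0 : ℝ)}ᶜ ∈ 𝓝[≠] (0 : ℝ))).exists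
    exact ⟨_, hA.2 x hx p hp t, ht, fun h2 => hpW (plgen_back hW ht0 h h2)⟩
  · exact ⟨x, hx, hxO, h⟩

theorem plgen_avoid {A : Set (Fin n → ℝ)} (hA : plgenAff A) {𝓦 : Set (Set (Fin n → ℝ))}
    (h : 𝓦.Finite) : (∀ W ∈ 𝓦, plgenAff W) → ∀ O : Set (Fin n → ℝ), IsOpen O → ∀ x ∈ A, x ∈ O →
      ∃ y ∈ A, y ∈ O ∧ ∀ W ∈ 𝓦, ¬ A ⊆ W → y ∉ W := by
  induction 𝓦, h using Set.Finite.induction_on with
  | empty => exact fun _ O _ x hx hxO => ⟨x, hx, hxO, fun W hW => absurd hW (notMem_empty W)⟩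
  | @insert W 𝓦 _ _ ih =>
    intro hW O hO x hx hxO
    have hW' : ∀ W' ∈ 𝓦, plgenAff W' := fun W' h' => hW W' (mem_insert_of_mem _ h')
    by_cases hAW : A ⊆ W
    · obtain ⟨y, hy, hyO, hy'⟩ := ih hW' O hO x hx hxO
      refine ⟨y, hy, hyO, fun W' h' h'' => ?_⟩
      rcases h' with rfl | h'
      · exact absurd hAW h''
      · exact hy' W' h' h''
    · obtain ⟨p, hp, hpW⟩ := not_subset.1 hAW
      have hW0 := hW W (mem_insert _ _)
      obtain ⟨x', hx', hxO', hxW⟩ := plgen_step hA hW0 hO hx hxO hp hpW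
      obtain ⟨y, hy, hyO, hy'⟩ := ih hW' (O ∩ Wᶜ) (hO.inter hW0.1.isOpen_compl) x' hx' ⟨hxO', hxW⟩
      refine ⟨y, hy, hyO.1, fun W' h' h'' => ?_⟩
      rcases h' with rfl | h'
      · exact hyO.2
      · exact hy' W' h' h''

theorem plgen_line {A : AffineSubspace ℝ (Fin n → ℝ)} (hA : 2 ≤ Module.finrank ℝ A.direction)
    (v s : Fin n → ℝ) : ¬ (A : Set (Fin n → ℝ)) ⊆ (line[ℝ, v, s] : AffineSubspace ℝ (Fin n → ℝ)) := by
  intro h
  have h1 := Submodule.finrank_mono (AffineSubspace.direction_le (h : A ≤ line[ℝ, v, s]))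
  rw [direction_affineSpan] at h1
  have h2 := (collinear_pair ℝ v s).finrank_le_one
  omega

theorem plgen_gauge {e e' : Fin n → ℝ} (h : e ≠ 0) (h' : ∀ t : ℝ, e' ≠ t • e)
    {O : Set (Fin n → ℝ)} (hO : IsOpen O) (h1 : ∀ t ∈ Icc (0 : ℝ) 1, t • e ∈ O) :
    ∃ r : (Fin n → ℝ) → ℝ, Gauge r ∧ r e = 1 ∧ 1 ≤ r e' ∧ ∀ ξ, r ξ ≤ 1 → ξ ∈ O := by
  obtain ⟨i, hi⟩ := Function.ne_iff.1 h
  replace hi : e i ≠ 0 := hi
  have hK : IsCompact ((fun t : ℝ => t • e) '' Icc 0 1) :=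
    isCompact_Icc.image (by fun_prop)
  obtain ⟨δ, hδ, hδO⟩ := hK.exists_cthickening_subset_open hO (by
    rintro _ ⟨t, ht, rfl⟩; exact h1 t ht)
  have hd : 0 < ‖e' - max (e' i / e i) 0 • e‖ := norm_pos_iff.2 (sub_ne_zero.2 (h' _))
  obtain ⟨c, hc, hc1, hc2⟩ : ∃ c : ℝ, 0 < c ∧ c ≤ δ ∧ c ≤ ‖e' - max (e' i / e i) 0 • e‖ :=
    ⟨_, lt_min hδ hd, min_le_left _ _, min_le_right _ _⟩
  have hl : TP fun ξ : Fin n → ℝ => ξ i / e i := (TP.id'.apply i).div_const _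
  refine ⟨fun ξ => max (ξ i / e i) (‖ξ - max (ξ i / e i) 0 • e‖ / c), ⟨?_, ?_, ?_⟩, ?_, ?_, ?_⟩
  · exact hl.max ((TP.id'.sub ((hl.max (TP.const 0)).smul_const e)).norm_pi.div_const c)
  · intro ξ t ht
    have e1 : (t • ξ) i / e i = t * (ξ i / e i) := by
      rw [Pi.smul_apply, smul_eq_mul, mul_div_assoc]
    have e2 : max (t * (ξ i / e i)) 0 = t * max (ξ i / e i) 0 := by
      rw [mul_max_of_nonneg _ _ ht, mul_zero]
    rw [e1, e2, mul_smul, ← smul_sub, norm_smul, Real.norm_of_nonneg ht, mul_div_assoc,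
      mul_max_of_nonneg _ _ ht]
  · have hp : 0 < c + ‖e‖ := by positivity
    refine ⟨(c + ‖e‖)⁻¹, inv_pos.2 hp, fun ξ => ?_⟩
    rw [inv_mul_le_iff₀ hp]
    set ρ := max (ξ i / e i) (‖ξ - max (ξ i / e i) 0 • e‖ / c) with hρ
    have a1 : ‖ξ - max (ξ i / e i) 0 • e‖ / c ≤ ρ := le_max_right _ _
    have a2 : max (ξ i / e i) 0 ≤ ρ := max_le (le_max_left _ _) (le_trans (by positivity) a1)
    rw [div_le_iff₀ hc] at a1
    have a3 : ‖ξ‖ ≤ ‖ξ - max (ξ i / e i) 0 • e‖ + ‖max (ξ i / e i) 0 • e‖ := by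
      simpa using norm_add_le (ξ - max (ξ i / e i) 0 • e) (max (ξ i / e i) 0 • e)
    rw [norm_smul, Real.norm_of_nonneg (le_max_right _ _)] at a3
    linarith only [a1, a3, a2, mul_le_mul_of_nonneg_right a2 (norm_nonneg e)]
  · simp [hi]
  · exact le_max_of_le_right ((one_le_div hc).2 hc2)
  · intro ξ hξ
    have a1 := (le_max_left _ _).trans hξ
    have a2 := (le_max_right _ _).trans hξ
    rw [div_le_one hc] at a2
    refine hδO (mem_cthickening_of_dist_le ξ (max (ξ i / e i) 0 • e) δ _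
      ⟨_, ⟨le_max_right _ _, max_le a1 zero_le_one⟩, rfl⟩ ?_)
    rw [dist_eq_norm]
    exact a2.trans hc1

theorem exists_ray {A : AffineSubspace ℝ (Fin n → ℝ)} (hA : 2 ≤ Module.finrank ℝ A.direction)
    {v x₀ : Fin n → ℝ} (hv : v ∈ A) (hx : x₀ ∈ A) {𝓕 : Set (((Fin n → ℝ) →L[ℝ] ℝ) × ℝ)}
    (h𝓕 : 𝓕.Finite) (h0 : ∀ f ∈ 𝓕, ∃ x ∈ A, x ∉ zs f) {S : Set (Fin n → ℝ)} (hS : S.Finite)
    (hvS : v ∉ S) {ε : ℝ} (hε : 0 < ε) :
    ∃ x ∈ A, ‖x - x₀‖ < ε ∧ x ≠ v ∧ (∀ s ∈ S, ∀ t : ℝ, s ≠ v + t • (x - v)) ∧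
      ∀ t : ℝ, 0 < t → OneH A 𝓕 (v + t • (x - v)) := by
  let g : (((Fin n → ℝ) →L[ℝ] ℝ) × ℝ) × (((Fin n → ℝ) →L[ℝ] ℝ) × ℝ) → ((Fin n → ℝ) →L[ℝ] ℝ) × ℝ :=
    fun p => (p.1.1 v + p.1.2) • p.2 - (p.2.1 v + p.2.2) • p.1
  have hg : ∀ p y, y ∈ zs (g p) ↔
      (p.1.1 v + p.1.2) * (p.2.1 y + p.2.2) - (p.2.1 v + p.2.2) * (p.1.1 y + p.1.2) = 0 := by
    intro p y
    simp only [g, zs, mem_ofPred_eq, Prod.fst_sub, Prod.snd_sub, Prod.smul_fst, Prod.smul_snd,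
      sub_apply, smul_apply, smul_eq_mul]
    constructor <;> intro h <;> linear_combination h
  let L : (Fin n → ℝ) → Set (Fin n → ℝ) := fun s => (line[ℝ, v, s] : AffineSubspace ℝ (Fin n → ℝ))
  obtain ⟨x, hxA, hxO, hx'⟩ := plgen_avoid (plgen_sub A)
    (𝓦 := L '' insert v S ∪ zs '' (𝓕 ∪ g '' (𝓕 ×ˢ 𝓕)))
    (((hS.insert v).image _).union ((h𝓕.union ((h𝓕.prod h𝓕).image _)).image _)) (by
      rintro _ (⟨s, -, rfl⟩ | ⟨f, -, rfl⟩)
      · exact plgen_sub _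
      · exact plgen_zs f) (ball x₀ ε) isOpen_ball x₀ hx (mem_ball_self hε)
  have hL : ∀ s ∈ insert v S, x ∉ L s := fun s hs =>
    hx' _ (Or.inl ⟨s, hs, rfl⟩) (plgen_line hA v s)
  refine ⟨x, hxA, by rwa [mem_ball, dist_eq_norm] at hxO, ?_, ?_, ?_⟩
  · rintro rfl
    exact hL x (mem_insert _ _) (left_mem_affineSpan_pair ℝ x x)
  · intro s hs t e
    have ht : t ≠ 0 := by
      rintro rfl
      rw [zero_smul, add_zero] at e
      exact hvS (e ▸ hs)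
    refine hL s (mem_insert_of_mem _ hs) (plgen_back (plgen_sub _) ht
      (left_mem_affineSpan_pair ℝ v s) ?_)
    rw [← e]
    exact right_mem_affineSpan_pair ℝ v s
  · intro t ht f hf f' hf' h1 h2 y hy hyf
    have h3 : x ∉ zs f := hx' _ (Or.inr ⟨f, Or.inl hf, rfl⟩) fun h => by
      obtain ⟨y, hy, hy'⟩ := h0 f hf
      exact hy' (h hy)
    have h4 : f.1 v + f.2 ≠ 0 := fun h => h3 (plgen_back (plgen_zs f) ht.ne' h h1)
    have h5 : x ∈ zs (g (f, f')) := by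
      refine plgen_back (plgen_zs _) ht.ne' (x := v) ((hg _ _).2 (by ring)) ((hg _ _).2 ?_)
      rw [show f'.1 (v + t • (x - v)) + f'.2 = 0 from h2,
        show f.1 (v + t • (x - v)) + f.2 = 0 from h1]
      ring
    have h6 : (A : Set (Fin n → ℝ)) ⊆ zs (g (f, f')) := by
      by_contra h
      exact hx' _ (Or.inr ⟨_, Or.inr ⟨(f, f'), ⟨hf, hf'⟩, rfl⟩, rfl⟩) h h5
    have h7 := (hg _ _).1 (h6 hy)
    rw [show f.1 y + f.2 = 0 from hyf, mul_zero, sub_zero] at h7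
    exact (mul_eq_zero.1 h7).resolve_left h4

theorem exists_gauge {e e' : Fin n → ℝ} (h : ∀ t : ℝ, e ≠ t • e') (h' : ∀ t : ℝ, e' ≠ t • e)
    {O : Set (Fin n → ℝ)} (hO : IsOpen O) (h1 : ∀ t ∈ Icc (0 : ℝ) 1, t • e ∈ O)
    (h2 : ∀ t ∈ Icc (0 : ℝ) 1, t • e' ∈ O) :
    ∃ r : (Fin n → ℝ) → ℝ, Gauge r ∧ r e = 1 ∧ r e' = 1 ∧ ∀ ξ, r ξ ≤ 1 → ξ ∈ O := by
  obtain ⟨r, hr, a1, a2, a3⟩ := plgen_gauge (e := e) (by simpa using h 0) h' hO h1
  obtain ⟨r', hr', b1, b2, b3⟩ := plgen_gauge (e := e') (by simpa using h' 0) h hO h2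
  refine ⟨fun ξ => min (r ξ) (r' ξ), ⟨hr.tp.min hr'.tp, fun ξ t ht => ?_, ?_⟩, ?_, ?_, ?_⟩
  · rw [hr.hom ξ t ht, hr'.hom ξ t ht, mul_min_of_nonneg _ _ ht]
  · obtain ⟨κ, hκ, c1⟩ := hr.low
    obtain ⟨κ', hκ', c2⟩ := hr'.low
    exact ⟨min κ κ', lt_min hκ hκ', fun ξ => le_min
      ((mul_le_mul_of_nonneg_right (min_le_left _ _) (norm_nonneg ξ)).trans (c1 ξ))
      ((mul_le_mul_of_nonneg_right (min_le_right _ _) (norm_nonneg ξ)).trans (c2 ξ))⟩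
  · change min (r e) (r' e) = 1
    rw [a1, min_eq_left b2]
  · change min (r e') (r' e') = 1
    rw [b1, min_eq_right a2]
  · intro ξ hξ
    exact (min_le_iff.1 hξ).elim (a3 ξ) (b3 ξ)

end BEp
end
end

-- merged part: Pool.Agent.Work.MP_f0515e_an.Pos.PLLoc
section
/-!
Local lemmas for the crossing lemma.

Plan.  `flat_seg`: with `A ∩ ball x ε ⊆ U` and `v' ∈ U` close to `v`, the point is
`(1 - t) • v' + t • x'` for `x' = x + ((1 - t) / t) • (v - v') ∈ A ∩ ball x ε` (`A` is closed, so `v ∈ A`).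
`dbl_loc`: take `ε` smaller than half of all the distances `dist p.1 p.2`, `p ∈ Dbl`.
`good_flat`: on a ball `B` around `z` inside `N` on which `Z = A`; `PNO` gives `NO` with the ratio `a' / a`;
the ray from `v` through a point of `A` lies in `A`.
`good_ball`: `tp_homog`, `Poly.homog`, `dbl_loc`; on a small ball around `v`, for `a ≤ a'`,
`P (v + a • ξ) - P (v + a • η) = (a / a') • (P (v + a' • ξ) - P (v + a' • η))` and the last difference is not `0`.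
`exists_height`: `k = min h (t0 + L * (r (· - v) - 1))`, `t0 ≤ h` on `Z`, `L` so large that
`h s < t0 + L * (r (s - v) - 1)` on `S`.
-/

open Set Metric Filter Topology Function BEv
open scoped NNReal

noncomputable section
namespace BEp

variable {n n' : ℕ}


theorem flat_data {m : ℕ} {Z C U : Set (Fin n → ℝ)} (h : Flat m Z C U) :
    ∃ A : AffineSubspace ℝ (Fin n → ℝ), Module.finrank ℝ A.direction = m ∧
      (∀ v ∈ closure U, v ∈ A) ∧ (∀ x ∈ U, FlatAt Z A x ∧ ∀ᶠ y in 𝓝 x, y ∈ A → y ∈ U) ∧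
      ∀ v ∈ closure U, ∀ x ∈ U, ∀ t ∈ Ioc (0 : ℝ) 1, v + t • (x - v) ∈ U := by
  obtain ⟨hc, -, ⟨O, hO, hUO⟩, A, hA, hUA, hb⟩ := h
  have h1 : ∀ v ∈ closure U, v ∈ A := fun v hv =>
    closure_minimal hUA A.closed_of_finiteDimensional hv
  refine ⟨A, hA, h1, fun x hx => ?_, fun v hv x hx t ht => ?_⟩
  · obtain ⟨ε, h0, h2⟩ := hb x hx
    have h3 : ∀ᶠ y in 𝓝 x, y ∈ A → y ∈ U :=
      mem_of_superset (ball_mem_nhds x h0) fun y hy k => h2 ⟨k, hy⟩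
    refine ⟨⟨hUA hx, ?_⟩, h3⟩
    filter_upwards [h3, hO.mem_nhds (hUO ▸ hx).2] with y k1 k2
    exact ⟨fun k => hUA (hUO ▸ ⟨k, k2⟩), fun k => (hUO ▸ k1 k).1⟩
  · obtain ⟨ε, h0, h2⟩ := hb x hx
    obtain ⟨v', h3, h4⟩ := Metric.mem_closure_iff.1 hv (ε * t) (mul_pos h0 ht.1)
    have h5 : ((1 - t) / t) • (v - v') + x ∈ U := by
      refine h2 ⟨A.smul_vsub_vadd_mem _ (h1 v hv) (hUA h3) (hUA hx), ?_⟩
      rw [mem_ball_iff_norm, add_sub_cancel_right, norm_smul, ← dist_eq_norm, Real.norm_eq_abs,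
        abs_of_nonneg (div_nonneg (sub_nonneg.2 ht.2) ht.1.le), div_mul_eq_mul_div,
        div_lt_iff₀ ht.1]
      nlinarith only [h0, h4, dist_nonneg (x := v) (y := v'), ht.1]
    convert hc h3 h5 (sub_nonneg.2 ht.2) ht.1.le (sub_add_cancel _ _) using 1
    rw [smul_add, smul_smul, mul_div_cancel₀ _ ht.1.ne']
    module

theorem dbl_loc {Z : Set (Fin n → ℝ)} {P : (Fin n → ℝ) → Fin n' → ℝ} (h : (Dbl Z P).Finite)
    (z : Fin n → ℝ) : ∃ ε > 0, InjOn P (Z ∩ ball z ε) := by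
  have h1 : ∀ᶠ ε in 𝓝[>] (0 : ℝ), ∀ p ∈ Dbl Z P, ε < dist p.1 p.2 / 2 :=
    (eventually_all_finite h).2 fun p hp =>
      nhdsWithin_le_nhds (Iio_mem_nhds (half_pos (dist_pos.2 hp.2.2.1)))
  obtain ⟨ε, h2, h3⟩ := (h1.and self_mem_nhdsWithin).exists
  refine ⟨ε, h3, fun x hx y hy e => by_contra fun hne => ?_⟩
  have h4 := h2 (x, y) ⟨hx.1, hy.1, hne, e⟩
  have h5 := dist_triangle_right x y z
  have h6 := mem_ball.1 hx.2
  have h7 := mem_ball.1 hy.2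
  linarith only [h4, h5, h6, h7]

theorem plloc_ne {E : Type} [AddCommGroup E] [Module ℝ E] (v : E) {ξ η : E} (h : ξ ≠ η) {a : ℝ}
    (ha : 0 < a) : v + a • ξ ≠ v + a • η := fun e =>
  h (smul_right_injective _ ha.ne' (add_left_cancel e))

theorem plloc_ray (v y : Fin n → ℝ) : Tendsto (fun t : ℝ => v + t • (y - v)) (𝓝 1) (𝓝 y) :=
  Continuous.tendsto' (by fun_prop) _ _ (by simp)

theorem good_flat {Z N : Set (Fin n → ℝ)} {A : AffineSubspace ℝ (Fin n → ℝ)} {v z : Fin n → ℝ}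
    (hv : v ∈ A) (hz : FlatAt Z A z) (hN : N ∈ 𝓝 z) {P : (Fin n → ℝ) → Fin n' → ℝ}
    (hP : PNO ((A : Set (Fin n → ℝ)) ∩ N) P) : ∀ᶠ y in 𝓝 z, Good Z v P y := by
  refine (hz.2.and hN).eventually_nhds.mono fun y hy => ⟨⟨_, hy, ?_⟩, fun k => ?_⟩
  · intro ξ η hne a a' ha ha' k1 k2 k3 k4
    refine hP _ ⟨k1.2.1.1 k1.1, k1.2.2⟩ _ ⟨k2.2.1.1 k2.1, k2.2.2⟩ _ ⟨k3.2.1.1 k3.1, k3.2.2⟩ _
      ⟨k4.2.1.1 k4.1, k4.2.2⟩ (plloc_ne v hne ha) (a' / a) (div_pos ha' ha) ?_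
    rw [add_sub_add_left_eq_sub, add_sub_add_left_eq_sub, ← smul_sub, ← smul_sub, smul_smul,
      div_mul_cancel₀ _ ha.ne']
  · refine ((plloc_ray v y).eventually hy).mono fun t ht => ht.1.2 ?_
    rw [add_comm]
    exact A.smul_vsub_vadd_mem t (hy.self_of_nhds.1.1 k) hv hv

theorem good_ball {Z : Set (Fin n → ℝ)} (hZ : Poly Z) {v : Fin n → ℝ} (hv : v ∈ Z)
    {P : (Fin n → ℝ) → Fin n' → ℝ} (hP : TP P) (h : ∃ ε > 0, InjOn P (Z ∩ ball v ε)) :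
    ∀ᶠ y in 𝓝 v, Good Z v P y := by
  obtain ⟨ρ, h0, h1⟩ := tp_homog hP v
  obtain ⟨ρ', h0', h2⟩ := hZ.homog hv
  obtain ⟨ε, h3, h4⟩ := h
  have h5 : ball v ρ ∩ ball v ρ' ∩ ball v ε ∈ 𝓝 v :=
    inter_mem (inter_mem (ball_mem_nhds v h0) (ball_mem_nhds v h0')) (ball_mem_nhds v h3)
  have k0 : ∀ {ξ : Fin n → ℝ} {r : ℝ}, v + ξ ∈ ball v r → ‖ξ‖ ≤ r := fun k => by
    simpa using (mem_ball_iff_norm.1 k).le
  have k1 : ∀ (ξ : Fin n → ℝ) (a a' : ℝ), 0 < a → a ≤ a' → v + a' • ξ ∈ ball v ρ →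
      P (v + a • ξ) = P v + (a / a') • (P (v + a' • ξ) - P v) := fun ξ a a' ha ha' k => by
    have h6 := ha.trans_le ha'
    rw [← h1 _ (k0 k) _ ⟨(div_pos ha h6).le, (div_le_one h6).2 ha'⟩, smul_smul,
      div_mul_cancel₀ _ h6.ne']
  have k2 : ∀ ξ η : Fin n → ℝ, ξ ≠ η → ∀ a a' : ℝ, 0 < a → a ≤ a' →
      v + a' • ξ ∈ Z ∩ (ball v ρ ∩ ball v ρ' ∩ ball v ε) →
      v + a' • η ∈ Z ∩ (ball v ρ ∩ ball v ρ' ∩ ball v ε) → ∀ s s' : ℝ, 0 ≤ s → 0 ≤ s' →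
      0 < s + s' →
      s • (P (v + a • ξ) - P (v + a • η)) + s' • (P (v + a' • ξ) - P (v + a' • η)) ≠ 0 := by
    intro ξ η hne a a' ha ha' m1 m2 s s' hs hs' hss e
    have h6 := ha.trans_le ha'
    rw [k1 ξ a a' ha ha' m1.2.1.1, k1 η a a' ha ha' m2.2.1.1] at e
    have h7 : (s * (a / a') + s') • (P (v + a' • ξ) - P (v + a' • η)) = 0 := by
      rw [← e]
      module
    rcases smul_eq_zero.1 h7 with h8 | h8
    · have h9 := div_pos ha h6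
      rcases hs.eq_or_lt with rfl | hs1
      · linarith only [hss, h8]
      · linarith only [hs', h8, hs1, h9, mul_pos hs1 h9]
    · exact plloc_ne v hne h6 (h4 ⟨m1.1, m1.2.2⟩ ⟨m2.1, m2.2.2⟩ (sub_eq_zero.1 h8))
  refine (eventually_mem_nhds_iff.2 h5).mono fun y hy => ⟨⟨_, hy, ?_⟩, fun k => ?_⟩
  · intro ξ η hne a a' ha ha' m1 m2 m3 m4 s s' hs hs' hss
    rcases le_total a a' with h6 | h6
    · exact k2 ξ η hne a a' ha h6 m3 m4 s s' hs hs' hss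
    · rw [add_comm]
      exact k2 ξ η hne a' a ha' h6 m1 m2 s' s hs' hs (by rwa [add_comm])
  · filter_upwards [(plloc_ray v y).eventually hy, Ioi_mem_nhds (zero_lt_one' ℝ)] with t m1 m2
    rcases le_total t 1 with h6 | h6
    · refine (h2 (y - v) (k0 ?_) t ⟨m2, h6⟩).2 (by simpa using k)
      simpa using (mem_of_mem_nhds hy).1.2
    · refine (h2 _ (k0 m1.1.2) t⁻¹ ⟨inv_pos.2 m2, inv_le_one_of_one_le₀ h6⟩).1 ?_
      rw [inv_smul_smul₀ (ne_of_gt m2)]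
      simpa using k

theorem Good.congr {Z : Set (Fin n → ℝ)} {v z : Fin n → ℝ} {P P' : (Fin n → ℝ) → Fin n' → ℝ}
    (h : Good Z v P z) (e : P' =ᶠ[𝓝 z] P) : Good Z v P' z := by
  obtain ⟨⟨N, hN, h1⟩, h2⟩ := h
  refine ⟨⟨N ∩ {y | P' y = P y}, inter_mem hN e, ?_⟩, h2⟩
  intro ξ η hne a a' ha ha' k1 k2 k3 k4
  rw [k1.2.2, k2.2.2, k3.2.2, k4.2.2]
  exact h1 ξ η hne a a' ha ha' ⟨k1.1, k1.2.1⟩ ⟨k2.1, k2.2.1⟩ ⟨k3.1, k3.2.1⟩ ⟨k4.1, k4.2.1⟩

theorem exists_height {Z S : Set (Fin n → ℝ)} (hZ : IsCompact Z) (hS : S.Finite) {v : Fin n → ℝ}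
    {r h : (Fin n → ℝ) → ℝ} (hr : TP r) (hh : TP h) (h1 : ∀ s ∈ S, 1 < r (s - v)) :
    ∃ (k : (Fin n → ℝ) → ℝ) (t0 L : ℝ), TP k ∧ 0 < L ∧
      (∀ x ∈ Z, r (x - v) ≤ 1 → k x = t0 + L * (r (x - v) - 1)) ∧
      (∀ x ∈ Z, 1 ≤ r (x - v) → t0 ≤ k x) ∧ ∀ s ∈ S, k =ᶠ[𝓝 s] h := by
  obtain ⟨t0, h2⟩ := hZ.bddBelow_image hh.continuous.continuousOn
  have h3 : ∀ x ∈ Z, t0 ≤ h x := fun x hx => h2 ⟨x, hx, rfl⟩
  have h4 : ∀ᶠ L : ℝ in atTop, ∀ s ∈ S, h s < t0 + L * (r (s - v) - 1) :=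
    (eventually_all_finite hS).2 fun s hs =>
      (tendsto_atTop_add_const_left _ t0
        (tendsto_id.atTop_mul_const (sub_pos.2 (h1 s hs)))).eventually_gt_atTop _
  obtain ⟨L, h5, h6⟩ := (h4.and (eventually_gt_atTop 0)).exists
  have h7 : TP fun x => t0 + L * (r (x - v) - 1) :=
    (TP.const t0).add (((hr.comp (TP.id'.sub (TP.const v))).sub (TP.const 1)).const_mul L)
  refine ⟨_, t0, L, hh.min h7, h6, fun x hx k => min_eq_right ?_, fun x hx k => le_min (h3 x hx) ?_,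
    fun s hs => ?_⟩
  · linarith only [h3, hx, h6, k, h3 x hx, mul_nonneg_of_nonpos_of_nonpos (le_of_lt (Mathlib.Tactic.Linarith.sub_neg_of_lt h6)) (Mathlib.Tactic.Linarith.sub_nonpos_of_le k)]
  · nlinarith
  · exact (hh.continuous.continuousAt.eventually_lt h7.continuous.continuousAt (h5 s hs)).mono
      fun y hy => min_eq_left hy.le

end BEp
end
end

-- merged part: Pool.Agent.Work.MP_f0515e_an.Pos.PLSlide
section
/-!
Sliding a double point.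

Plan.  `slide1`: choose `ρ` with `Z = A`, `P = M · + b` and `P` injective on `Z ∩ ball x₀ ρ`; `M` is injective on
the direction of `A`.  `χ x = max 0 (min 1 (2 - 4 * ‖x - x₀‖ / ρ))` is Lipschitz with constant `4 / ρ`, and
`θ x = x + χ x • δ` is a perturbation of the identity with constant `1 / 2`.  For `PNO`, the images are
`M (θ x - θ y)`, so a vanishing combination gives `(s + s' a) ‖x - y‖ ≤ (s + s' a) ‖x - y‖ / 2`.
`slide2`: take the common radius so small that the balls are disjoint and contain no double point except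
`x₀`, `y₀`.  The map `Θ` (`θ'` on `ball y₀ ρ`, `θ` elsewhere) is injective on `Z`, maps `Z` into `Z`, keeps the balls,
and `slid … x = P (Θ x)` on `Z`.
-/

open Set Metric Filter Topology Function BEv
open scoped NNReal

noncomputable section
namespace BEp

variable {n n' : ℕ}

theorem slide_lip {x₀ : Fin n → ℝ} {ρ : ℝ} (hρ : 0 < ρ) (x y : Fin n → ℝ) :
    |max 0 (min 1 (2 - 4 * ‖x - x₀‖ / ρ)) - max 0 (min 1 (2 - 4 * ‖y - x₀‖ / ρ))| ≤
      4 * ‖x - y‖ / ρ := by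
  have h1 : |‖x - x₀‖ - ‖y - x₀‖| ≤ ‖x - y‖ := by
    simpa using abs_norm_sub_norm_le (x - x₀) (y - x₀)
  have h2 : |(2 - 4 * ‖x - x₀‖ / ρ) - (2 - 4 * ‖y - x₀‖ / ρ)| ≤ 4 * ‖x - y‖ / ρ := by
    have e : (2 - 4 * ‖x - x₀‖ / ρ) - (2 - 4 * ‖y - x₀‖ / ρ) =
        -(4 / ρ * (‖x - x₀‖ - ‖y - x₀‖)) := by ring
    rw [e, abs_neg, abs_mul, abs_of_pos (by positivity : 0 < 4 / ρ)]
    calc 4 / ρ * |‖x - x₀‖ - ‖y - x₀‖| ≤ 4 / ρ * ‖x - y‖ := by gcongr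
      _ = _ := by ring
  refine le_trans ?_ h2
  generalize 2 - 4 * ‖x - x₀‖ / ρ = u
  generalize 2 - 4 * ‖y - x₀‖ / ρ = v
  refine (abs_max_sub_max_le_max _ _ _ _).trans (max_le (by simp) ?_)
  exact (abs_min_sub_min_le_max _ _ _ _).trans (max_le (by simp) le_rfl)

theorem slide_pno {T : Set (Fin n → ℝ)} {P Q : (Fin n → ℝ) → Fin n' → ℝ} (h : PNO T P)
    (e : ∀ x ∈ T, Q x = P x) : PNO T Q := fun x hx y hy x' hx' y' hy' hne a ha ea s s' h1 h2 h3 => by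
  rw [e x hx, e y hy, e x' hx', e y' hy']
  exact h x hx y hy x' hx' y' hy' hne a ha ea s s' h1 h2 h3

theorem slide_far {D : Set (Fin n → ℝ)} (hD : D.Finite) (x₀ : Fin n → ℝ) :
    ∃ ε > 0, ∀ u ∈ D, u ∈ ball x₀ ε → u = x₀ := by
  have h := (hD.subset (sdiff_subset (t := {x₀}))).isClosed.isOpen_compl
  obtain ⟨ε, h0, h1⟩ := Metric.isOpen_iff.1 h x₀ fun k => k.2 rfl
  exact ⟨ε, h0, fun u hu k => by_contra fun m => h1 k ⟨hu, m⟩⟩

theorem slide1 {Z : Set (Fin n → ℝ)} {A : AffineSubspace ℝ (Fin n → ℝ)} {x₀ : Fin n → ℝ}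
    (hA : FlatAt Z A x₀) {P : (Fin n → ℝ) → Fin n' → ℝ} (ha : AffAt Z P x₀)
    (hi : ∃ ε > 0, InjOn P (Z ∩ ball x₀ ε)) :
    ∃ ε > 0, ∃ M : (Fin n → ℝ) →L[ℝ] (Fin n' → ℝ), ∀ ρ, 0 < ρ → ρ ≤ ε →
      (∀ y ∈ ball x₀ ρ, (y ∈ Z ↔ y ∈ A)) ∧ ∃ χ : (Fin n → ℝ) → ℝ, TP χ ∧
        (∀ x, x ∉ ball x₀ (ρ / 2) → χ x = 0) ∧ ∀ δ ∈ A.direction, ‖δ‖ ≤ ρ / 8 →
          χ (x₀ - δ) = 1 ∧ Injective (fun x => x + χ x • δ) ∧
          (∀ x ∈ Z ∩ ball x₀ ρ, x + χ x • δ ∈ Z ∩ ball x₀ ρ) ∧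
          (∀ x ∈ Z, P x + χ x • M δ = P (x + χ x • δ)) ∧
          PNO ((A : Set (Fin n → ℝ)) ∩ ball x₀ ρ) (fun x => P x + χ x • M δ) := by
  obtain ⟨hx₀, hA⟩ := hA
  obtain ⟨M, b, ha⟩ := ha
  obtain ⟨e3, h3, hi⟩ := hi
  obtain ⟨e1, h1, hA⟩ := Metric.eventually_nhds_iff_ball.1 hA
  obtain ⟨e2, h2, ha⟩ := Metric.eventually_nhds_iff_ball.1 (eventually_nhdsWithin_iff.1 ha)
  have hε : 0 < min e1 (min e2 e3) := by positivity
  have s1 : ball x₀ (min e1 (min e2 e3)) ⊆ ball x₀ e1 := ball_subset_ball (min_le_left _ _)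
  have s2 : ball x₀ (min e1 (min e2 e3)) ⊆ ball x₀ e2 :=
    ball_subset_ball ((min_le_right _ _).trans (min_le_left _ _))
  have s3 : ball x₀ (min e1 (min e2 e3)) ⊆ ball x₀ e3 :=
    ball_subset_ball ((min_le_right _ _).trans (min_le_right _ _))
  generalize min e1 (min e2 e3) = ε at hε s1 s2 s3
  have add : ∀ x ∈ A, ∀ w ∈ A.direction, x + w ∈ A := fun x hx w hw => by
    have := AffineSubspace.vadd_mem_of_mem_direction hw hx
    rwa [vadd_eq_add, add_comm] at this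
  have hM : ∀ w ∈ A.direction, M w = 0 → w = 0 := fun w hw e => by
    by_contra hne
    have hn : 0 < ‖w‖ := norm_pos_iff.2 hne
    have ht : 0 < ε / (2 * ‖w‖) := by positivity
    have hb : x₀ + (ε / (2 * ‖w‖)) • w ∈ ball x₀ ε := by
      rw [mem_ball_iff_norm, add_sub_cancel_left, norm_smul, Real.norm_of_nonneg ht.le]
      have : ε / (2 * ‖w‖) * ‖w‖ = ε / 2 := by field_simp
      rw [this]; linarith only [hε]
    have hz : x₀ + (ε / (2 * ‖w‖)) • w ∈ Z :=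
      (hA _ (s1 hb)).2 (add _ hx₀ _ (A.direction.smul_mem _ hw))
    have hz0 : x₀ ∈ Z := (hA _ (mem_ball_self h1)).2 hx₀
    have := hi ⟨hz, s3 hb⟩ ⟨hz0, mem_ball_self h3⟩ (by
      rw [ha _ (s2 hb) hz, ha _ (mem_ball_self h2) hz0, map_add, map_smul, e, smul_zero, add_zero])
    rw [add_eq_left, smul_eq_zero] at this
    exact this.elim ht.ne' hne
  refine ⟨ε, hε, M, fun ρ hρ hρε => ?_⟩
  have s0 : ball x₀ ρ ⊆ ball x₀ ε := ball_subset_ball hρε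
  have sh : ball x₀ (ρ / 2) ⊆ ball x₀ ρ := ball_subset_ball (by linarith)
  have hZ : ∀ y ∈ ball x₀ ρ, (y ∈ Z ↔ y ∈ A) := fun y hy => hA y (s1 (s0 hy))
  obtain ⟨χ, hχ⟩ : ∃ χ : (Fin n → ℝ) → ℝ, χ = fun x => max 0 (min 1 (2 - 4 * ‖x - x₀‖ / ρ)) :=
    ⟨_, rfl⟩
  have c0 : ∀ x, x ∉ ball x₀ (ρ / 2) → χ x = 0 := fun x hx => by
    rw [mem_ball_iff_norm, not_lt] at hx
    have : 2 ≤ 4 * ‖x - x₀‖ / ρ := by rw [le_div_iff₀ hρ]; linarith only [hx]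
    rw [hχ]
    exact max_eq_left ((min_le_right _ _).trans (by linarith only [this]))
  have c1 : ∀ x, |χ x| ≤ 1 := fun x => by
    rw [hχ, abs_of_nonneg (le_max_left _ _)]
    exact max_le zero_le_one (min_le_left _ _)
  refine ⟨hZ, χ, ?_, c0, fun δ hδ hn => ?_⟩
  · rw [hχ]
    exact (TP.const 0).max ((TP.const 1).min ((TP.const 2).sub
      ((((TP.id'.sub (TP.const x₀)).norm_pi).const_mul 4).div_const ρ)))
  have c2 : ∀ x y, |χ x - χ y| * ‖δ‖ ≤ ‖x - y‖ / 2 := fun x y => by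
    have := slide_lip (x₀ := x₀) hρ x y
    calc |χ x - χ y| * ‖δ‖ ≤ (4 * ‖x - y‖ / ρ) * (ρ / 8) := by
          rw [hχ]; gcongr
      _ = ‖x - y‖ / 2 := by field_simp; ring
  have c3 : ∀ x ∈ Z ∩ ball x₀ ρ, x + χ x • δ ∈ Z ∩ ball x₀ ρ := fun x hx => by
    by_cases k : x ∈ ball x₀ (ρ / 2)
    · have hb : x + χ x • δ ∈ ball x₀ ρ := by
        rw [mem_ball_iff_norm] at k ⊢
        have e : x + χ x • δ - x₀ = (x - x₀) + χ x • δ := by abel
        have : ‖χ x • δ‖ ≤ ρ / 8 := by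
          rw [norm_smul, Real.norm_eq_abs]
          calc |χ x| * ‖δ‖ ≤ 1 * (ρ / 8) := by gcongr; exact c1 x
            _ = _ := one_mul _
        rw [e]
        linarith only [hρ, k, this, norm_add_le (x - x₀) (χ x • δ)]
      exact ⟨(hZ _ hb).2 (add _ ((hZ x hx.2).1 hx.1) _ (A.direction.smul_mem _ hδ)), hb⟩
    · rw [c0 x k, zero_smul, add_zero]; exact hx
  refine ⟨?_, fun x y e => ?_, c3, fun x hx => ?_, ?_⟩
  · rw [hχ]
    have : 4 * ‖x₀ - δ - x₀‖ / ρ ≤ 1 := by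
      rw [div_le_iff₀ hρ, sub_sub_cancel_left, norm_neg]; linarith only [hρ, hn]
    change max 0 (min 1 (2 - 4 * ‖x₀ - δ - x₀‖ / ρ)) = 1
    rw [min_eq_left (by linarith only [this]), max_eq_right zero_le_one]
  · have e : x + χ x • δ = y + χ y • δ := e
    have e' : x - y = -((χ x - χ y) • δ) := by
      rw [sub_smul, eq_neg_iff_add_eq_zero]
      calc x - y + (χ x • δ - χ y • δ) = (x + χ x • δ) - (y + χ y • δ) := by abel
        _ = 0 := by rw [e, sub_self]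
    have h := c2 x y
    rw [← Real.norm_eq_abs, ← norm_smul, ← norm_neg, ← e'] at h
    exact sub_eq_zero.1 (norm_le_zero_iff.1 (by linarith only [h]))
  · by_cases k : x ∈ ball x₀ (ρ / 2)
    · have := c3 x ⟨hx, sh k⟩
      rw [ha _ (s2 (s0 this.2)) this.1, ha _ (s2 (s0 (sh k))) hx, map_add, map_smul]
      abel
    · rw [c0 x k, zero_smul, zero_smul, add_zero, add_zero]
  · intro x hx y hy x' hx' y' hy' hne a ha0 ea s s' k1 k2 k3 e
    have hP : ∀ z ∈ (A : Set (Fin n → ℝ)) ∩ ball x₀ ρ, P z = M z + b := fun z hz =>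
      ha z (s2 (s0 hz.2)) ((hZ z hz.2).2 hz.1)
    have hd : x - y ∈ A.direction := AffineSubspace.vsub_mem_direction hx.1 hy.1
    have hw := hM ((s + s' * a) • (x - y) + (s * (χ x - χ y) + s' * (χ x' - χ y')) • δ)
      (A.direction.add_mem (A.direction.smul_mem _ hd) (A.direction.smul_mem _ hδ)) (by
        have e1 : M x' - M y' = a • (M x - M y) := by rw [← map_sub, ea, map_smul, map_sub]
        rw [← e]
        simp only [hP x hx, hP y hy, hP x' hx', hP y' hy', map_add, map_smul, map_sub]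
        rw [sub_eq_iff_eq_add.1 e1]
        module)
    have hn0 : 0 < ‖x - y‖ := norm_pos_iff.2 (sub_ne_zero.2 hne)
    have hs : 0 < s + s' * a := by
      rcases k1.eq_or_lt with k | k
      · have : 0 < s' := by linarith only [k3, k]
        rw [← k]; positivity
      · positivity
    have n1 : (s + s' * a) * ‖x - y‖ = |s * (χ x - χ y) + s' * (χ x' - χ y')| * ‖δ‖ := by
      have := congrArg norm (eq_neg_of_add_eq_zero_left hw)
      rwa [norm_neg, norm_smul, norm_smul, Real.norm_of_nonneg hs.le, Real.norm_eq_abs] at this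
    have n2 : |s * (χ x - χ y) + s' * (χ x' - χ y')| ≤ s * |χ x - χ y| + s' * |χ x' - χ y'| := by
      refine (abs_add_le _ _).trans ?_
      rw [abs_mul, abs_mul, abs_of_nonneg k1, abs_of_nonneg k2]
    have n3 := c2 x y
    have n4 := c2 x' y'
    rw [ea, norm_smul, Real.norm_of_nonneg ha0.le] at n4
    have n5 : |s * (χ x - χ y) + s' * (χ x' - χ y')| * ‖δ‖ ≤
        s * (‖x - y‖ / 2) + s' * (a * ‖x - y‖ / 2) :=
      calc _ ≤ (s * |χ x - χ y| + s' * |χ x' - χ y'|) * ‖δ‖ := by gcongr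
        _ = s * (|χ x - χ y| * ‖δ‖) + s' * (|χ x' - χ y'| * ‖δ‖) := by ring
        _ ≤ _ := by gcongr
    have n6 : 0 < (s + s' * a) * ‖x - y‖ := by positivity
    linarith only [n1, n5, n6]

theorem slide2 {Z : Set (Fin n → ℝ)} {A A' : AffineSubspace ℝ (Fin n → ℝ)} {x₀ y₀ : Fin n → ℝ}
    (hA : FlatAt Z A x₀) (hA' : FlatAt Z A' y₀) {P : (Fin n → ℝ) → Fin n' → ℝ}
    (ha : AffAt Z P x₀) (ha' : AffAt Z P y₀) (hfin : (Dbl Z P).Finite)
    (htri : ∀ x y z, (x, y) ∈ Dbl Z P → (x, z) ∈ Dbl Z P → y = z) (h0 : (x₀, y₀) ∈ Dbl Z P)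
    {l : (Fin n' → ℝ) →L[ℝ] ℝ} (hl : ∀ x, l (P x) = 0) {ε : ℝ} (hε : 0 < ε) :
    ∃ (ρ : ℝ) (χ χ' : (Fin n → ℝ) → ℝ) (M M' : (Fin n → ℝ) →L[ℝ] (Fin n' → ℝ)),
      0 < ρ ∧ ρ ≤ ε ∧ TP χ ∧ TP χ' ∧ (∀ x, x ∉ ball x₀ (ρ / 2) → χ x = 0) ∧
      (∀ x, x ∉ ball y₀ (ρ / 2) → χ' x = 0) ∧ (∀ y ∈ ball x₀ ρ, (y ∈ Z ↔ y ∈ A)) ∧
      (∀ y ∈ ball y₀ ρ, (y ∈ Z ↔ y ∈ A')) ∧
      ∀ δ ∈ A.direction, ∀ δ' ∈ A'.direction, ‖δ‖ ≤ ρ / 8 → ‖δ'‖ ≤ ρ / 8 →
        (∀ x, l (slid P χ χ' (M δ) (M' δ') x) = 0) ∧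
        (∀ p ∈ Dbl Z (slid P χ χ' (M δ) (M' δ')), p = (x₀ - δ, y₀ - δ') ∨ p = (y₀ - δ', x₀ - δ) ∨
          (p ∈ Dbl Z P ∧ p.1 ≠ x₀ ∧ p.1 ≠ y₀ ∧ p.2 ≠ x₀ ∧ p.2 ≠ y₀)) ∧
        PNO ((A : Set (Fin n → ℝ)) ∩ ball x₀ ρ) (slid P χ χ' (M δ) (M' δ')) ∧
        PNO ((A' : Set (Fin n → ℝ)) ∩ ball y₀ ρ) (slid P χ χ' (M δ) (M' δ')) := by
  obtain ⟨e1, h1, M, H⟩ := slide1 hA ha (dbl_loc hfin x₀)
  obtain ⟨e2, h2, M', H'⟩ := slide1 hA' ha' (dbl_loc hfin y₀)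
  obtain ⟨e3, h3, F⟩ := slide_far (hfin.image Prod.fst) x₀
  obtain ⟨e4, h4, F'⟩ := slide_far (hfin.image Prod.fst) y₀
  have sym : ∀ u v, (u, v) ∈ Dbl Z P → (v, u) ∈ Dbl Z P := fun u v k =>
    ⟨k.2.1, k.1, k.2.2.1.symm, k.2.2.2.symm⟩
  have hd : 0 < dist x₀ y₀ := dist_pos.2 h0.2.2.1
  obtain ⟨ρ, hρ, r0, r1, r2, r3, r4, r5⟩ : ∃ ρ : ℝ, 0 < ρ ∧ ρ ≤ ε ∧ ρ ≤ e1 ∧ ρ ≤ e2 ∧ ρ ≤ e3 ∧
      ρ ≤ e4 ∧ ρ ≤ dist x₀ y₀ / 2 :=
    ⟨min ε (min e1 (min e2 (min e3 (min e4 (dist x₀ y₀ / 2))))), by positivity, by simp, by simp,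
      by simp, by simp, by simp, by simp⟩
  obtain ⟨hZ, χ, t, c0, K⟩ := H ρ hρ r1
  obtain ⟨hZ', χ', t', c0', K'⟩ := H' ρ hρ r2
  have dis : ∀ x, x ∈ ball x₀ ρ → x ∈ ball y₀ ρ → False := fun x k k' =>
    Set.disjoint_left.1 (ball_disjoint_ball (by linarith only [r5])) k k'
  have sh : ∀ z : Fin n → ℝ, ball z (ρ / 2) ⊆ ball z ρ := fun z => ball_subset_ball (by linarith)
  have z1 : ∀ x ∈ ball y₀ ρ, χ x = 0 := fun x k => c0 x fun m => dis x (sh _ m) k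
  have z2 : ∀ x ∈ ball x₀ ρ, χ' x = 0 := fun x k => c0' x fun m => dis x k (sh _ m)
  refine ⟨ρ, χ, χ', M, M', hρ, r0, t, t', c0, c0', hZ, hZ', fun δ hδ δ' hδ' hn hn' => ?_⟩
  obtain ⟨a1, a2, a3, a4, a5⟩ := K δ hδ hn
  obtain ⟨b1, b2, b3, b4, b5⟩ := K' δ' hδ' hn'
  have sub : ∀ (B : AffineSubspace ℝ (Fin n → ℝ)), ∀ x ∈ B, ∀ w ∈ B.direction, x - w ∈ B :=
    fun B x hx w hw => by
      have := AffineSubspace.vadd_mem_of_mem_direction (B.direction.neg_mem hw) hx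
      rwa [vadd_eq_add, neg_add_eq_sub] at this
  have m1 : x₀ - δ ∈ ball x₀ ρ := by
    rw [mem_ball_iff_norm, sub_sub_cancel_left, norm_neg]; linarith only [hρ, hn]
  have m2 : y₀ - δ' ∈ ball y₀ ρ := by
    rw [mem_ball_iff_norm, sub_sub_cancel_left, norm_neg]; linarith only [hρ, hn']
  have m3 : x₀ - δ ∈ Z := (hZ _ m1).2 (sub A _ hA.1 _ hδ)
  have m4 : y₀ - δ' ∈ Z := (hZ' _ m2).2 (sub A' _ hA'.1 _ hδ')
  obtain ⟨Θ, hΘ⟩ : ∃ Θ : (Fin n → ℝ) → Fin n → ℝ, Θ = fun x => x + χ x • δ + χ' x • δ' := ⟨_, rfl⟩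
  have T1 : ∀ x, x ∉ ball y₀ ρ → Θ x = x + χ x • δ := fun x k => by
    rw [hΘ]; simp only [c0' x fun m => k (sh _ m), zero_smul, add_zero]
  have T2 : ∀ x ∈ ball y₀ ρ, Θ x = x + χ' x • δ' := fun x k => by
    rw [hΘ]; simp only [z1 x k, zero_smul, add_zero]
  have T3 : ∀ x, x ∉ ball x₀ ρ → x ∉ ball y₀ ρ → Θ x = x := fun x k k' => by
    rw [T1 x k', c0 x fun m => k (sh _ m), zero_smul, add_zero]
  have T4 : ∀ x ∈ Z, x ∈ ball x₀ ρ → Θ x ∈ Z ∩ ball x₀ ρ := fun x hx k => by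
    rw [T1 x (dis x k)]; exact a3 x ⟨hx, k⟩
  have T5 : ∀ x ∈ Z, x ∈ ball y₀ ρ → Θ x ∈ Z ∩ ball y₀ ρ := fun x hx k => by
    rw [T2 x k]; exact b3 x ⟨hx, k⟩
  have T6 : ∀ x ∈ Z, Θ x ∈ Z := fun x hx => by
    by_cases k : x ∈ ball x₀ ρ
    · exact (T4 x hx k).1
    by_cases k' : x ∈ ball y₀ ρ
    · exact (T5 x hx k').1
    rwa [T3 x k k']
  have T7 : ∀ x ∈ Z, Θ x ∈ ball y₀ ρ → x ∈ ball y₀ ρ := fun x hx m => by
    by_contra k'
    by_cases k : x ∈ ball x₀ ρ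
    · exact dis _ (T4 x hx k).2 m
    · rw [T3 x k k'] at m; exact k' m
  have T8 : InjOn Θ Z := fun x hx y hy e => by
    by_cases k : x ∈ ball y₀ ρ
    · have k' := T7 y hy (e ▸ (T5 x hx k).2)
      rw [T2 x k, T2 y k'] at e
      exact b2 e
    · have k' : y ∉ ball y₀ ρ := fun m => k (T7 x hx (e ▸ (T5 y hy m).2))
      rw [T1 x k, T1 y k'] at e
      exact a2 e
  have T9 : ∀ x ∈ Z, slid P χ χ' (M δ) (M' δ') x = P (Θ x) := fun x hx => by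
    by_cases k : x ∈ ball y₀ ρ
    · rw [T2 x k, ← b4 x hx, slid, z1 x k, zero_smul, add_zero]
    · rw [T1 x k, ← a4 x hx, slid, c0' x fun m => k (sh _ m), zero_smul, add_zero]
  have U1 : Θ (x₀ - δ) = x₀ := by rw [T1 _ (dis _ m1), a1, one_smul, sub_add_cancel]
  have U2 : Θ (y₀ - δ') = y₀ := by rw [T2 _ m2, b1, one_smul, sub_add_cancel]
  refine ⟨fun x => ?_, fun p hp => ?_, slide_pno a5 fun x hx => ?_, slide_pno b5 fun x hx => ?_⟩
  · have l1 : l (M δ) = 0 := by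
      have := congrArg l (a4 _ m3)
      rwa [map_add, hl, hl, a1, one_smul, zero_add] at this
    have l2 : l (M' δ') = 0 := by
      have := congrArg l (b4 _ m4)
      rwa [map_add, hl, hl, b1, one_smul, zero_add] at this
    rw [slid, map_add, map_add, map_smul, map_smul, hl, l1, l2]
    simp
  · obtain ⟨p1, p2, p3, p4⟩ := hp
    have q : (Θ p.1, Θ p.2) ∈ Dbl Z P :=
      ⟨T6 _ p1, T6 _ p2, fun e => p3 (T8 p1 p2 e), by rw [← T9 _ p1, ← T9 _ p2, p4]⟩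
    by_cases k1 : Θ p.1 = x₀
    · have k2 : Θ p.2 = y₀ := htri x₀ _ _ (k1 ▸ q) h0
      exact Or.inl (Prod.ext (T8 p1 m3 (k1.trans U1.symm)) (T8 p2 m4 (k2.trans U2.symm)))
    by_cases k2 : Θ p.1 = y₀
    · have k3 : Θ p.2 = x₀ := htri y₀ _ _ (k2 ▸ q) (sym _ _ h0)
      exact Or.inr (Or.inl
        (Prod.ext (T8 p1 m4 (k2.trans U2.symm)) (T8 p2 m3 (k3.trans U1.symm))))
    have k3 : Θ p.2 ≠ x₀ := fun e => k2 (htri x₀ _ _ (e ▸ sym _ _ q) h0)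
    have k4 : Θ p.2 ≠ y₀ := fun e => k1 (htri y₀ _ _ (e ▸ sym _ _ q) (sym _ _ h0))
    have fix : ∀ x ∈ Z, Θ x ∈ Prod.fst '' Dbl Z P → Θ x ≠ x₀ → Θ x ≠ y₀ → Θ x = x :=
      fun x hx hD j1 j2 => T3 x
        (fun m => j1 (F _ hD (ball_subset_ball r3 (T4 x hx m).2)))
        (fun m => j2 (F' _ hD (ball_subset_ball r4 (T5 x hx m).2)))
    have f1 := fix _ p1 ⟨_, q, rfl⟩ k1 k2
    have f2 := fix _ p2 ⟨_, sym _ _ q, rfl⟩ k3 k4
    rw [f1] at k1 k2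
    rw [f2] at k3 k4
    rw [f1, f2] at q
    exact Or.inr (Or.inr ⟨q, k1, k2, k3, k4⟩)
  · rw [slid, z2 x hx.2, zero_smul, add_zero]
  · rw [slid, z1 x hx.2, zero_smul, add_zero]

end BEp
end
end

-- merged part: Pool.Agent.Work.MP_f0515e_an.Pos.PLCL
section
/-!
The crossing lemma: the order of the heights at a near double point may be changed.
-/

open Set Metric Filter Topology Function BEv
open scoped NNReal

noncomputable section
namespace BEp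

variable {n n' : ℕ}


theorem cl_pno_mono {T T' : Set (Fin n → ℝ)} {P Q : (Fin n → ℝ) → Fin n' → ℝ} (h : PNO T P)
    (hT : T' ⊆ T) (e : EqOn Q P T') : PNO T' Q := fun x hx y hy x' hx' y' hy' => by
  rw [e hx, e hy, e hx', e hy']
  exact h x (hT hx) y (hT hy) x' (hT hx') y' (hT hy')

theorem cl_good {Z : Set (Fin n → ℝ)} {A B B' : AffineSubspace ℝ (Fin n → ℝ)}
    {x₀ y₀ v z : Fin n → ℝ} {ρ : ℝ} (hρ : 0 < ρ) {P Q : (Fin n → ℝ) → Fin n' → ℝ} (hv : v ∈ A)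
    (hz : FlatAt Z A z) (hB : ∀ y ∈ ball x₀ ρ, (y ∈ Z ↔ y ∈ B))
    (hB' : ∀ y ∈ ball y₀ ρ, (y ∈ Z ↔ y ∈ B'))
    (hQ : PNO ((B : Set (Fin n → ℝ)) ∩ ball x₀ ρ) Q)
    (hQ' : PNO ((B' : Set (Fin n → ℝ)) ∩ ball y₀ ρ) Q)
    (hPQ : ∀ x, x ∉ ball x₀ (ρ / 2) → x ∉ ball y₀ (ρ / 2) → Q x = P x)
    (hP : ∃ N ∈ 𝓝 z, PNO ((A : Set (Fin n → ℝ)) ∩ N) P) : ∀ᶠ y in 𝓝 z, Good Z v Q y := by
  by_cases h1 : z ∈ ball x₀ ρ
  · exact good_flat hv hz (inter_mem (isOpen_ball.mem_nhds h1) hz.2) (cl_pno_mono hQ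
      (fun y hy => ⟨(hB y hy.2.1).1 (hy.2.2.2 hy.1), hy.2.1⟩) fun _ _ => rfl)
  by_cases h2 : z ∈ ball y₀ ρ
  · exact good_flat hv hz (inter_mem (isOpen_ball.mem_nhds h2) hz.2) (cl_pno_mono hQ'
      (fun y hy => ⟨(hB' y hy.2.1).1 (hy.2.2.2 hy.1), hy.2.1⟩) fun _ _ => rfl)
  obtain ⟨N, hN, hP⟩ := hP
  have h3 : ∀ x : Fin n → ℝ, z ∉ ball x ρ → (closedBall x (ρ / 2))ᶜ ∈ 𝓝 z := fun x hx =>
    isClosed_closedBall.isOpen_compl.mem_nhds fun h =>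
      hx (closedBall_subset_ball (by linarith only [hρ]) h)
  exact good_flat hv hz (inter_mem hN (inter_mem (h3 _ h1) (h3 _ h2))) (cl_pno_mono hP
    (fun y hy => ⟨hy.1, hy.2.1⟩) fun y hy => hPQ y (fun h => hy.2.2.1 (ball_subset_closedBall h))
      fun h => hy.2.2.2 (ball_subset_closedBall h))

theorem cl_inj {T : Set (Fin n → ℝ)} {Q : (Fin n → ℝ) → Fin n' → ℝ} {w : Fin n' → ℝ}
    {l : (Fin n' → ℝ) →L[ℝ] ℝ} (hw : l w = 1) (hl : ∀ x, l (Q x) = 0) {g : (Fin n → ℝ) → ℝ}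
    (h : ∀ p ∈ Dbl T Q, g p.1 ≠ g p.2) : InjOn (fun x => Q x + g x • w) T := by
  intro x hx y hy e
  have e1 : g x = g y := by simpa [hl, hw] using congrArg l e
  by_contra hne
  simp only [e1, add_left_inj] at e
  exact h (x, y) ⟨hx, hy, hne, e⟩ e1

theorem cl_half {Z C : Set (Fin n → ℝ)} (hZ : Poly Z) (hC : C.Finite) (hCZ : C ⊆ Z)
    {v : Fin n → ℝ} {r k g : (Fin n → ℝ) → ℝ} (hr : Gauge r) (hk : TP k) (hg : TP g)
    {P Q : (Fin n → ℝ) → Fin n' → ℝ} (hP : TP P) (hQ : TP Q) {w : Fin n' → ℝ}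
    {l : (Fin n' → ℝ) →L[ℝ] ℝ} (hw : l w = 1) (hl : ∀ x, l (P x) = 0) (hl' : ∀ x, l (Q x) = 0)
    {t0 L : ℝ} (hL : 0 < L) (hk1 : ∀ x ∈ Z, r (x - v) ≤ 1 → k x = t0 + L * (r (x - v) - 1))
    (hk2 : ∀ x ∈ Z, 1 ≤ r (x - v) → t0 ≤ k x)
    (h1 : ∀ t ∈ Icc (0 : ℝ) 1, ∀ p ∈ Dbl Z (fun x => (1 - t) • P x + t • Q x), g p.1 ≠ g p.2)
    (h2 : ∀ p ∈ Dbl Z Q, (g p.1 < g p.2 ∧ k p.1 < k p.2) ∨ (g p.2 < g p.1 ∧ k p.2 < k p.1))
    (h3 : ∀ c ∈ C, ∀ᶠ x in 𝓝[Z] c, P x = Q x ∧ g x = k x)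
    (h4 : ∀ z, r (z - v) ≤ 1 → Good Z v Q z) (h5 : ∀ c ∈ C, 1 < r (c - v)) :
    Eqv Z C (fun x => P x + g x • w) (fun x => coff v r Q 1 x + k x • w) := by
  refine Eqv.trans hCZ (u' := fun x => Q x + g x • w) ?_ (Eqv.trans hCZ
    (eqv_vert hZ hC hCZ hQ hw hl' hg hk (fun x hx y hy hne e => h2 (x, y) ⟨hx, hy, hne, e⟩)
      fun c hc => (h3 c hc).mono fun x hx => hx.2)
    (cone_off hZ hC hCZ hr hk hQ hw hl' hL hk1 hk2 (cl_inj hw hl' fun p hp => ?_) h4 h5))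
  · refine eqv_line hZ hC hCZ (hP.add (hg.smul_const w)) (hQ.add (hg.smul_const w))
      (fun t ht => ?_) fun c hc => (h3 c hc).mono fun x hx => by rw [hx.1]
    have e : (fun x => (1 - t) • (P x + g x • w) + t • (Q x + g x • w)) =
        fun x => ((1 - t) • P x + t • Q x) + g x • w := by
      funext x
      module
    rw [e]
    exact cl_inj hw (fun x => by simp [hl, hl']) (h1 t ht)
  · rcases h2 p hp with h | h
    · exact h.2.ne
    · exact h.2.ne'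

theorem cl_tp {P : (Fin n → ℝ) → Fin n' → ℝ} (hP : TP P) {χ χ' : (Fin n → ℝ) → ℝ} (h : TP χ)
    (h' : TP χ') (a a' : Fin n' → ℝ) : TP (slid P χ χ' a a') :=
  (hP.add (h.smul_const a)).add (h'.smul_const a')

theorem cl_mix (P : (Fin n → ℝ) → Fin n' → ℝ) (χ χ' : (Fin n → ℝ) → ℝ) (a b a' b' : Fin n' → ℝ)
    (t : ℝ) : (fun x => (1 - t) • slid P χ χ' a a' x + t • slid P χ χ' b b' x) =
      slid P χ χ' ((1 - t) • a + t • b) ((1 - t) • a' + t • b') := by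
  funext x
  simp only [slid]
  module

theorem crossing {m : ℕ} (hm : 2 ≤ m) {Z C Z1 : Set (Fin n → ℝ)} (hZ : Poly Z) (hC : C.Finite)
    (hCZ : C ⊆ Z) {P : (Fin n → ℝ) → Fin n' → ℝ} (hP : TP P) {w : Fin n' → ℝ}
    {l : (Fin n' → ℝ) →L[ℝ] ℝ} (hw : l w = 1) (hl : ∀ x, l (P x) = 0) (hfin : (Dbl Z P).Finite)
    (htri : ∀ x y z, (x, y) ∈ Dbl Z P → (x, z) ∈ Dbl Z P → y = z)
    (h1 : ∀ p ∈ Dbl Z P, p.1 ∉ Z1) {x₀ y₀ : Fin n → ℝ} (h0 : (x₀, y₀) ∈ Dbl Z P)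
    (hN : Nr m Z C Z1 x₀ y₀) (ha : AffAt Z P x₀) (ha' : AffAt Z P y₀)
    {h h' : (Fin n → ℝ) → ℝ} (hh : TP h) (hh' : TP h')
    (hz : ∀ c ∈ C, ∀ᶠ x in 𝓝[Z] c, h x = h' x) (hx : h y₀ < h x₀) (hx' : h' x₀ < h' y₀)
    (ho : ∀ p ∈ Dbl Z P, p ≠ (x₀, y₀) → p ≠ (y₀, x₀) →
      (h p.1 < h p.2 ∧ h' p.1 < h' p.2) ∨ (h p.2 < h p.1 ∧ h' p.2 < h' p.1)) :
    Eqv Z C (fun x => P x + h x • w) (fun x => P x + h' x • w) := by
  obtain ⟨v, hv1, hvC, hvZ, U, U', hU, hU', hxU, hyU, hvU, hvU'⟩ := hN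
  obtain ⟨A, hAm, hAv, hAf, hAs⟩ := flat_data hU
  obtain ⟨A', hAm', hAv', hAf', hAs'⟩ := flat_data hU'
  have hUZ : U ⊆ Z := by
    obtain ⟨O, -, e⟩ := hU.2.2.1
    exact e ▸ inter_subset_left
  have hUZ' : U' ⊆ Z := by
    obtain ⟨O, -, e⟩ := hU'.2.2.1
    exact e ▸ inter_subset_left
  have hsw : ∀ p ∈ Dbl Z P, p.swap ∈ Dbl Z P := fun p hp =>
    ⟨hp.2.1, hp.1, hp.2.2.1.symm, hp.2.2.2.symm⟩
  set S : Set (Fin n → ℝ) := (Prod.fst '' Dbl Z P \ {x₀, y₀}) ∪ C with hSd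
  have hS : S.Finite := ((hfin.image _).subset sdiff_subset).union hC
  have hvS : v ∉ S := by
    rintro (⟨⟨p, hp, e⟩, -⟩ | h)
    · exact h1 p hp (e ▸ hv1)
    · exact hvC h
  have hxS : x₀ ∉ insert v S := by
    rintro (e | ⟨-, h⟩ | h)
    · exact h1 _ h0 (e ▸ hv1)
    · exact h (Or.inl rfl)
    · exact disjoint_left.1 hU.2.1 hxU h
  have hyS : y₀ ∉ insert v S := by
    rintro (e | ⟨-, h⟩ | h)
    · exact h1 _ (hsw _ h0) (e ▸ hv1)
    · exact h (Or.inr rfl)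
    · exact disjoint_left.1 hU'.2.1 hyU h
  have hhc := hh.continuous
  have hhc' := hh'.continuous
  have e1 : ∀ᶠ p : (Fin n → ℝ) × (Fin n → ℝ) in 𝓝 (x₀, y₀), (h p.2 < h p.1 ∧ h' p.1 < h' p.2) ∧
      ((p.1 ∈ A → p.1 ∈ U) ∧ p.1 ∉ insert v S) ∧ (p.2 ∈ A' → p.2 ∈ U') ∧ p.2 ∉ insert v S :=
    ((ContinuousAt.eventually_lt (by fun_prop) (by fun_prop) hx).and
      (ContinuousAt.eventually_lt (by fun_prop) (by fun_prop) hx')).and
      (((hAf _ hxU).2.and ((hS.insert v).isClosed.isOpen_compl.mem_nhds hxS)).prod_nhds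
        ((hAf' _ hyU).2.and ((hS.insert v).isClosed.isOpen_compl.mem_nhds hyS)))
  obtain ⟨ε, hε, he⟩ := Metric.eventually_nhds_iff_ball.1 e1
  obtain ⟨ρ, χ, χ', M, M', hρ, hρε, hχ, hχ', hχ0, hχ0', hZA, hZA', hsl⟩ :=
    slide2 (hAf _ hxU).1 (hAf' _ hyU).1 ha ha' hfin htri h0 hl hε
  replace he : ∀ x ∈ ball x₀ ρ, ∀ y ∈ ball y₀ ρ, (h y < h x ∧ h' x < h' y) ∧
      ((x ∈ A → x ∈ U) ∧ x ∉ insert v S) ∧ (y ∈ A' → y ∈ U') ∧ y ∉ insert v S :=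
    fun x hx y hy => he (x, y) (by
      rw [← ball_prod_same]
      exact ⟨ball_subset_ball hρε hx, ball_subset_ball hρε hy⟩)
  have hoff : ∀ z ∈ insert v S, ∀ᶠ x in 𝓝 z, ∀ a a', slid P χ χ' a a' x = P x := by
    intro z hz
    have h3 : ∀ x : Fin n → ℝ, z ∉ ball x ρ → (closedBall x (ρ / 2))ᶜ ∈ 𝓝 z := fun x hx =>
      isClosed_closedBall.isOpen_compl.mem_nhds fun h =>
        hx (closedBall_subset_ball (by linarith only [hρ]) h)
    filter_upwards [h3 x₀ fun h => (he _ h _ (mem_ball_self hρ)).2.1.2 hz,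
      h3 y₀ fun h => (he _ (mem_ball_self hρ) _ h).2.2.2 hz] with x a1 a2 a a'
    simp [slid, hχ0 x fun h => a1 (ball_subset_closedBall h),
      hχ0' x fun h => a2 (ball_subset_closedBall h)]
  obtain ⟨R, hR⟩ : ∃ R, ∀ x ∈ Z, ‖x‖ < R := by
    obtain ⟨R, hR⟩ := hZ.1.isBounded.subset_ball 0
    exact ⟨R, fun x hx => by simpa using hR hx⟩
  obtain ⟨𝓕, h𝓕, h𝓕0, hcr⟩ := crease A hP R
  obtain ⟨𝓖, h𝓖, h𝓖0, hcr'⟩ := crease A' hP R
  have hρ' : 0 < ρ / 16 := by positivity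
  obtain ⟨x₁, hx₁A, hx₁, hx₁v, hx₁S, hx₁H⟩ := exists_ray (hAm ▸ hm) (hAv v hvU) (hAf _ hxU).1.1
    h𝓕 h𝓕0 hS hvS hρ'
  obtain ⟨y₁, hy₁A, hy₁, hy₁v, hy₁S, hy₁H⟩ := exists_ray (hAm' ▸ hm) (hAv' v hvU') (hAf' _ hyU).1.1
    h𝓖 h𝓖0 (hS.insert x₁) (by
      rintro (e | e)
      · exact hx₁v e.symm
      · exact hvS e) hρ'
  obtain ⟨η, hη, hη1, hηx, hηy⟩ : ∃ η : ℝ, 0 < η ∧ η < 1 ∧ 2 * η * ‖x₁ - v‖ < ρ / 16 ∧
      2 * η * ‖y₁ - v‖ < ρ / 16 := by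
    have : ∀ᶠ η : ℝ in 𝓝[>] 0, 0 < η ∧ η < 1 ∧ 2 * η * ‖x₁ - v‖ < ρ / 16 ∧
        2 * η * ‖y₁ - v‖ < ρ / 16 :=
      Eventually.and self_mem_nhdsWithin (mem_nhdsWithin_of_mem_nhds
        ((ContinuousAt.eventually_lt (by fun_prop) (by fun_prop) one_pos).and
        ((ContinuousAt.eventually_lt (by fun_prop) (by fun_prop) (by simpa using hρ)).and
        (ContinuousAt.eventually_lt (by fun_prop) (by fun_prop) (by simpa using hρ)))))
    exact this.exists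
  have hnear : ∀ (a b : Fin n → ℝ) (τ : ℝ), ‖b - a‖ < ρ / 16 → 2 * η * ‖b - v‖ < ρ / 16 →
      |τ| ≤ 2 * η → ‖a - (v + (1 + τ) • (b - v))‖ ≤ ρ / 8 := fun a b τ a1 a2 a3 => by
    have e : a - (v + (1 + τ) • (b - v)) = -((b - a) + τ • (b - v)) := by module
    rw [e, norm_neg]
    refine (norm_add_le _ _).trans ?_
    rw [norm_smul, Real.norm_eq_abs]
    linarith only [a1, a2, a3, mul_le_mul_of_nonneg_right a3 (norm_nonneg (b - v))]
  have hray : ∀ (B : AffineSubspace ℝ (Fin n → ℝ)), v ∈ B → ∀ b ∈ B, ∀ t : ℝ,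
      v + t • (b - v) ∈ B := fun B a1 b a2 t => by
    simpa [add_comm] using B.smul_vsub_vadd_mem t a2 a1 a1
  set δ : ℝ → Fin n → ℝ := fun τ => x₀ - (v + (1 + τ) • (x₁ - v)) with hδ
  have hδA : ∀ τ, δ τ ∈ A.direction := fun τ =>
    AffineSubspace.vsub_mem_direction (hAf _ hxU).1.1 (hray A (hAv v hvU) _ hx₁A _)
  have hδn : ∀ τ, |τ| ≤ η → ‖δ τ‖ ≤ ρ / 8 := fun τ hτ => hnear _ _ _ hx₁ hηx (by linarith only [hη, hτ])
  have hδA' : y₀ - y₁ ∈ A'.direction := AffineSubspace.vsub_mem_direction (hAf' _ hyU).1.1 hy₁A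
  have hδn' : ‖y₀ - y₁‖ ≤ ρ / 8 := by
    rw [norm_sub_rev]
    linarith only [hρ, hy₁]
  set Q : ℝ → (Fin n → ℝ) → Fin n' → ℝ := fun τ => slid P χ χ' (M (δ τ)) (M' (y₀ - y₁)) with hQ
  have hη2 : 0 < 1 + 2 * η := by linarith only [hη, hη1]
  have harm : ∀ (B : AffineSubspace ℝ (Fin n → ℝ)) (W : Set (Fin n → ℝ)) (b : Fin n → ℝ),
      v ∈ B → (∀ x ∈ W, FlatAt Z B x) → (∀ t ∈ Ioc (0 : ℝ) 1, v + t • (1 + 2 * η) • (b - v) ∈ W) →
      (∀ s ∈ S, ∀ t : ℝ, s ≠ v + t • (b - v)) →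
      (∀ t : ℝ, 0 < t → v + t • (b - v) ∈ W → (∃ N ∈ 𝓝 (v + t • (b - v)),
        InjOn P ((B : Set (Fin n → ℝ)) ∩ N)) → ∃ N ∈ 𝓝 (v + t • (b - v)),
          PNO ((B : Set (Fin n → ℝ)) ∩ N) P) →
      ∀ t ∈ Icc (0 : ℝ) 1, ∀ᶠ z in 𝓝 (v + t • (1 + 2 * η) • (b - v)),
        z ∉ S ∧ Good Z v (Q η) z ∧ Good Z v (Q (-η)) z := by
    intro B W b a1 a2 a3 a4 a5 t ht
    refine Eventually.and (hS.isClosed.isOpen_compl.mem_nhds fun h => a4 _ h (t * (1 + 2 * η))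
      (by rw [smul_smul])) ?_
    have a6 : ∀ τ, |τ| ≤ η → ∀ᶠ z in 𝓝 (v + t • (1 + 2 * η) • (b - v)), Good Z v (Q τ) z := by
      intro τ hτ
      rcases ht.1.eq_or_lt with e | e
      · rw [← e, zero_smul, add_zero]
        filter_upwards [good_ball hZ hvZ hP (dbl_loc hfin v),
          (hoff v (Or.inl rfl)).eventually_nhds] with z b1 b2
        exact b1.congr (b2.mono fun x hx => hx _ _)
      · have b1 := a3 t ⟨e, ht.2⟩
        obtain ⟨-, -, b2, b3⟩ := hsl _ (hδA τ) _ hδA' (hδn τ hτ) hδn'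
        refine cl_good (P := P) hρ a1 (a2 _ b1) hZA hZA' b2 b3
          (fun x c1 c2 => by simp [hQ, slid, hχ0 x c1, hχ0' x c2]) ?_
        rw [smul_smul] at b1 ⊢
        obtain ⟨ε', c1, c2⟩ := dbl_loc hfin (v + (t * (1 + 2 * η)) • (b - v))
        exact a5 _ (mul_pos e hη2) b1 ⟨_, inter_mem (ball_mem_nhds _ c1) (a2 _ b1).2,
          c2.mono fun y hy => mem_inter (hy.2.2.2 hy.1) hy.2.1⟩
    exact (a6 η (abs_of_pos hη).le).and (a6 (-η) (by rw [abs_neg, abs_of_pos hη]))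
  have htip : ∀ a b : Fin n → ℝ, ‖b - a‖ < ρ / 16 → 2 * η * ‖b - v‖ < ρ / 16 →
      v + (1 + 2 * η) • (b - v) ∈ ball a ρ := fun a b a1 a2 => by
    rw [mem_ball, dist_comm, dist_eq_norm]
    have := hnear a b (2 * η) a1 a2 (abs_of_pos (by linarith only [hη])).le
    linarith only [hρ, this]
  have hxy : ∀ t : ℝ, x₁ - v ≠ t • (y₁ - v) := fun t e =>
    hy₁S x₁ (Or.inl rfl) t (by rw [← e, add_sub_cancel])
  obtain ⟨r, hr, hr1, hr2, hrO⟩ := exists_gauge (e := (1 + 2 * η) • (x₁ - v))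
    (e' := (1 + 2 * η) • (y₁ - v))
    (O := {ξ | ∀ᶠ z in 𝓝 (v + ξ), z ∉ S ∧ Good Z v (Q η) z ∧ Good Z v (Q (-η)) z})
    (fun t e => hxy t (smul_right_injective _ hη2.ne' (by simpa only [smul_comm t] using e)))
    (fun t e => by
      have e' : y₁ - v = t • (x₁ - v) :=
        smul_right_injective _ hη2.ne' (by simpa only [smul_comm t] using e)
      have ht : t ≠ 0 := fun h => hy₁v (by simpa [h, sub_eq_zero] using e')
      exact hxy t⁻¹ (by rw [e', inv_smul_smul₀ ht]))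
    (isOpen_setOfPred_eventually_nhds.preimage (f := fun ξ => v + ξ) (by fun_prop))
    (harm A U x₁ (hAv v hvU) (fun x hx => (hAf x hx).1) (fun t ht => by
      simpa using hAs v hvU _ ((he _ (htip _ _ hx₁ hηx) _ (mem_ball_self hρ)).2.1.1
        (hray A (hAv v hvU) _ hx₁A _)) t ht) hx₁S fun t ht a1 =>
      hcr _ (hAf _ a1).1.1 (hR _ (hUZ a1)) (hx₁H t ht))
    (harm A' U' y₁ (hAv' v hvU') (fun x hx => (hAf' x hx).1) (fun t ht => by
      simpa using hAs' v hvU' _ ((he _ (mem_ball_self hρ) _ (htip _ _ hy₁ hηy)).2.2.1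
        (hray A' (hAv' v hvU') _ hy₁A _)) t ht) (fun s hs => hy₁S s (Or.inr hs)) fun t ht a1 =>
      hcr' _ (hAf' _ a1).1.1 (hR _ (hUZ' a1)) (hy₁H t ht))
  replace hrO : ∀ z, r (z - v) ≤ 1 → z ∉ S ∧ Good Z v (Q η) z ∧ Good Z v (Q (-η)) z :=
    fun z hz => by simpa using (hrO _ hz).self_of_nhds
  have hS1 : ∀ s ∈ S, 1 < r (s - v) := fun s hs => not_le.1 fun h => (hrO s h).1 hs
  obtain ⟨k, t0, L, hk, hL, hk1, hk2, hk3⟩ := exists_height hZ.1 hS hr.tp hh hS1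
  rw [hr.hom _ _ hη2.le] at hr1 hr2
  have hrx : ∀ τ, |τ| ≤ η → (1 + 2 * η) * r (x₀ - δ τ - v) = 1 + τ := fun τ hτ => by
    have e : x₀ - δ τ - v = (1 + τ) • (x₁ - v) := by
      simp only [hδ]
      module
    rw [e, hr.hom _ _ (by linarith only [hη1, hτ, (abs_le.1 hτ).1]), mul_left_comm, hr1, mul_one]
  have hrx1 : ∀ τ, |τ| ≤ η → r (x₀ - δ τ - v) < 1 := fun τ hτ => by
    have := hrx τ hτ
    by_contra a
    linarith only [hη, this, hτ, a, hη2, (abs_le.1 hτ).2, mul_le_mul_of_nonneg_left (not_lt.1 a) hη2.le]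
  have hry1 : r (y₁ - v) < 1 := by
    by_contra a
    linarith only [hη, hr2, a, hη2, mul_le_mul_of_nonneg_left (not_lt.1 a) hη2.le]
  have hmem : ∀ p ∈ Dbl Z P, p.1 ≠ x₀ → p.1 ≠ y₀ → p.1 ∈ S := fun p hp a1 a2 =>
    Or.inl ⟨⟨p, hp, rfl⟩, by simp [a1, a2]⟩
  have hball : ∀ (a d : Fin n → ℝ), ‖d‖ ≤ ρ / 8 → a - d ∈ ball a ρ := fun a d hd => by
    rw [mem_ball, dist_eq_norm, sub_sub_cancel_left, norm_neg]
    linarith only [hρ, hd]
  have half : ∀ g : (Fin n → ℝ) → ℝ, TP g → ∀ τ, |τ| ≤ η →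
      (∀ x ∈ ball x₀ ρ, ∀ y ∈ ball y₀ ρ, (g y < g x ∧ 0 < τ) ∨ (g x < g y ∧ τ < 0)) →
      (∀ p ∈ Dbl Z P, p ≠ (x₀, y₀) → p ≠ (y₀, x₀) →
        (g p.1 < g p.2 ∧ h p.1 < h p.2) ∨ (g p.2 < g p.1 ∧ h p.2 < h p.1)) →
      (∀ c ∈ C, ∀ᶠ x in 𝓝[Z] c, h x = g x) → (∀ z, r (z - v) ≤ 1 → Good Z v (Q τ) z) →
      Eqv Z C (fun x => P x + g x • w) (fun x => coff v r (Q τ) 1 x + k x • w) := by
    intro g hg τ hτ a1 a2 a3 a4
    obtain ⟨b1, b2, -⟩ := hsl _ (hδA τ) _ hδA' (hδn τ hτ) hδn'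
    refine cl_half hZ hC hCZ hr hk hg hP (cl_tp hP hχ hχ' _ _) hw hl b1 hL hk1 hk2
      (fun t ht p hp => ?_) (fun p hp => ?_) (fun c hc => ?_) a4 fun c hc => hS1 c (Or.inr hc)
    · have c0 : ∀ d : Fin n → ℝ, ‖d‖ ≤ ρ / 8 → ‖t • d‖ ≤ ρ / 8 := fun d hd => by
        rw [norm_smul, Real.norm_of_nonneg ht.1]
        (refine le_of_not_gt fun h_nl => ?_; linarith only [h_nl, hd, hη, hη1, ht, ht.2, norm_nonneg d, mul_pos_of_neg_of_neg (Mathlib.Tactic.Linarith.sub_neg_of_lt hη) (Mathlib.Tactic.Linarith.sub_neg_of_lt h_nl), mul_pos_of_neg_of_neg (Mathlib.Tactic.Linarith.sub_neg_of_lt hη1) (Mathlib.Tactic.Linarith.sub_neg_of_lt h_nl), mul_nonneg_of_nonpos_of_nonpos (Mathlib.Tactic.Linarith.sub_nonpos_of_le ht.right) (Mathlib.Tactic.Linarith.sub_nonpos_of_le (norm_nonneg d))])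
      have e : (fun x => (1 - t) • P x + t • slid P χ χ' (M (δ τ)) (M' (y₀ - y₁)) x) =
          slid P χ χ' (M (t • δ τ)) (M' (t • (y₀ - y₁))) := by
        funext x
        simp only [slid, map_smul]
        module
      rw [e] at hp
      have c1 := a1 _ (hball x₀ _ (c0 _ (hδn τ hτ))) _ (hball y₀ _ (c0 _ hδn'))
      rcases (hsl _ (A.direction.smul_mem t (hδA τ)) _ (A'.direction.smul_mem t hδA')
        (c0 _ (hδn τ hτ)) (c0 _ hδn')).2.1 p hp with rfl | rfl | ⟨c2, c3, c4, -⟩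
      · exact c1.elim (fun c => c.1.ne') fun c => c.1.ne
      · exact c1.elim (fun c => c.1.ne) fun c => c.1.ne'
      · exact (a2 p c2 (fun c => c3 (by rw [c])) fun c => c4 (by rw [c])).elim
          (fun c => c.1.ne) fun c => c.1.ne'
    · have c1 := a1 _ (hball x₀ _ (hδn τ hτ)) _ (hball y₀ _ hδn')
      have c5 : x₀ - δ τ ∈ Z := (hZA _ (hball x₀ _ (hδn τ hτ))).2 (by
        simpa [hδ] using hray A (hAv v hvU) _ hx₁A (1 + τ))
      have c6 : y₁ ∈ Z := (hZA' _ (by simpa using hball y₀ _ hδn')).2 hy₁A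
      have c7 := hk1 _ c5 (hrx1 τ hτ).le
      have c8 := hk1 _ c6 hry1.le
      have c9 := hrx τ hτ
      rw [sub_sub_cancel y₀] at c1 b2
      have d1 : 0 < τ → k y₁ < k (x₀ - δ τ) := fun c => by
        have : r (y₁ - v) < r (x₀ - δ τ - v) := lt_of_mul_lt_mul_left (by linarith only [hr2, c9, c]) hη2.le
        (refine lt_of_not_ge fun h_nl => ?_; linarith only [h_nl, c7, c8, hη, hr2, hL, c9, c, Mathlib.Tactic.Linarith.mul_zero_eq (Mathlib.Tactic.Linarith.sub_neg_of_lt hη) (sub_eq_zero_of_eq c7), Mathlib.Tactic.Linarith.mul_zero_eq (Mathlib.Tactic.Linarith.sub_neg_of_lt hη) (sub_eq_zero_of_eq c8), mul_nonneg_of_nonpos_of_nonpos (le_of_lt (Mathlib.Tactic.Linarith.sub_neg_of_lt hη)) (Mathlib.Tactic.Linarith.sub_nonpos_of_le h_nl), Mathlib.Tactic.Linarith.zero_mul_eq (sub_eq_zero_of_eq hr2) (Mathlib.Tactic.Linarith.sub_neg_of_lt hL), Mathlib.Tactic.Linarith.mul_zero_eq (Mathlib.Tactic.Linarith.sub_neg_of_lt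 hL) (sub_eq_zero_of_eq c9), mul_pos_of_neg_of_neg (Mathlib.Tactic.Linarith.sub_neg_of_lt hL) (Mathlib.Tactic.Linarith.sub_neg_of_lt c)])
      have d2 : τ < 0 → k (x₀ - δ τ) < k y₁ := fun c => by
        have : r (x₀ - δ τ - v) < r (y₁ - v) := lt_of_mul_lt_mul_left (by linarith only [hr2, c9, c]) hη2.le
        (refine lt_of_not_ge fun h_nl => ?_; linarith only [h_nl, c7, c8, hη, hr2, hL, c9, c, Mathlib.Tactic.Linarith.mul_zero_eq (Mathlib.Tactic.Linarith.sub_neg_of_lt hη) (sub_eq_zero_of_eq c7), Mathlib.Tactic.Linarith.mul_zero_eq (Mathlib.Tactic.Linarith.sub_neg_of_lt hη) (sub_eq_zero_of_eq c8), mul_nonneg_of_nonpos_of_nonpos (le_of_lt (Mathlib.Tactic.Linarith.sub_neg_of_lt hη)) (Mathlib.Tactic.Linarith.sub_nonpos_of_le h_nl), Mathlib.Tactic.Linarith.zero_mul_eq (sub_eq_zero_of_eq hr2) (Mathlib.Tactic.Linarith.sub_neg_of_lt hL), Mathlib.Tactic.Linarith.mul_zero_eq (Mathlib.Tactic.Linarith.sub_neg_of_lt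 hL) (sub_eq_zero_of_eq c9), mul_pos_of_neg_of_neg (Mathlib.Tactic.Linarith.sub_neg_of_lt hL) (Mathlib.Tactic.Linarith.sub_neg_of_lt c)])
      rcases b2 p hp with rfl | rfl | ⟨c2, c3, c4, c3', c4'⟩
      · exact c1.elim (fun c => Or.inr ⟨c.1, d1 c.2⟩) fun c => Or.inl ⟨c.1, d2 c.2⟩
      · exact c1.elim (fun c => Or.inl ⟨c.1, d1 c.2⟩) fun c => Or.inr ⟨c.1, d2 c.2⟩
      · rw [(hk3 _ (hmem p c2 c3 c4)).self_of_nhds,
          (hk3 p.2 (hmem _ (hsw p c2) c3' c4')).self_of_nhds]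
        exact a2 p c2 (fun c => c3 (by rw [c])) fun c => c4 (by rw [c])
    · filter_upwards [a3 c hc, mem_nhdsWithin_of_mem_nhds (hoff c (Or.inr (Or.inr hc))),
        mem_nhdsWithin_of_mem_nhds (hk3 c (Or.inr hc))] with x c1 c2 c3
      exact ⟨(c2 _ _).symm, c1.symm.trans c3.symm⟩
  have hp1 : |η| ≤ η := (abs_of_pos hη).le
  have hp2 : |-η| ≤ η := by rw [abs_neg, abs_of_pos hη]
  refine (half h hh η hp1 (fun x a1 y a2 => Or.inl ⟨(he x a1 y a2).1.1, hη⟩)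
    (fun p a1 a2 a3 => (ho p a1 a2 a3).imp (fun c => ⟨c.1, c.1⟩) fun c => ⟨c.1, c.1⟩)
    (fun _ _ => Eventually.of_forall fun _ => rfl) fun z a => (hrO z a).2.1).trans hCZ
    (Eqv.trans hCZ ?_ ((half h' hh' (-η) hp2
      (fun x a1 y a2 => Or.inr ⟨(he x a1 y a2).1.2, by linarith only [hη]⟩)
      (fun p a1 a2 a3 => (ho p a1 a2 a3).imp And.symm And.symm) hz
      fun z a => (hrO z a).2.2).symm hCZ))
  refine eqv_line hZ hC hCZ ((coff_tp hr (cl_tp hP hχ hχ' _ _) one_pos).add (hk.smul_const w))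
    ((coff_tp hr (cl_tp hP hχ hχ' _ _) one_pos).add (hk.smul_const w)) (fun t ht => ?_)
    fun c hc => mem_nhdsWithin_of_mem_nhds ?_
  · have hτ : |(1 - t) * η + t * -η| ≤ η :=
      abs_le.2 ⟨by linarith only [hη, ht, ht.1, ht.2, mul_nonneg_of_nonpos_of_nonpos (le_of_lt (Mathlib.Tactic.Linarith.sub_neg_of_lt hη)) (Mathlib.Tactic.Linarith.sub_nonpos_of_le ht.right)], by linarith only [hη, ht, ht.1, ht.2, mul_nonneg_of_nonpos_of_nonpos (le_of_lt (Mathlib.Tactic.Linarith.sub_neg_of_lt hη)) (Mathlib.Tactic.Linarith.sub_nonpos_of_le ht.left)]⟩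
    have e0 : (fun y => (1 - t) • Q η y + t • Q (-η) y) = Q ((1 - t) * η + t * -η) := by
      simp only [hQ, cl_mix, ← map_smul, ← map_add]
      congr 2
      · simp only [hδ]
        module
      · module
    have e : (fun x => (1 - t) • (coff v r (Q η) 1 x + k x • w) +
        t • (coff v r (Q (-η)) 1 x + k x • w)) =
        fun x => coff v r (Q ((1 - t) * η + t * -η)) 1 x + k x • w := by
      funext x
      rw [← e0, coff_mix]
      module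
    rw [e]
    obtain ⟨b1, b2, -⟩ := hsl _ (hδA _) _ hδA' (hδn _ hτ) hδn'
    refine cone_inj hZ.1.isClosed hr (fun z a1 a2 => (hrO z a2).2.1.2 a1) hw b1 hL hk1 hk2
      (cl_inj hw b1 fun p hp => ?_)
    rcases b2 p ⟨hp.1.1, hp.2.1.1, hp.2.2⟩ with rfl | rfl | ⟨c2, c3, c4, c3', c4'⟩
    · exact absurd hp.1.2 (not_le.2 (hrx1 _ hτ))
    · exact absurd hp.2.1.2 (not_le.2 (hrx1 _ hτ))
    · rw [(hk3 _ (hmem p c2 c3 c4)).self_of_nhds,
        (hk3 p.2 (hmem _ (hsw p c2) c3' c4')).self_of_nhds]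
      exact (ho p c2 (fun c => c3 (by rw [c])) fun c => c4 (by rw [c])).elim
        (fun c => c.1.ne) fun c => c.1.ne'
  · have hrc := hr.tp.continuous
    have : ∀ᶠ x in 𝓝 c, 1 < r (x - v) :=
      continuousAt_const.eventually_lt (by fun_prop) (hS1 c (Or.inr hc))
    filter_upwards [this, hoff c (Or.inr (Or.inr hc))] with x a1 a2
    rw [coff_above one_pos a1.le, coff_above one_pos a1.le, hQ]
    simp only [a2]

end BEp
end
end
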