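import Pool.Agent.Work.MP_f0515e_an.Pos.GV4a
import Pool.Agent.Work.MP_f0515e_an.Pos.PLIE
import Pool.Agent.Work.MP_f0515e_an.Pos.PLTP
import Pool.Agent.Work.MP_f0515e_an.Pos.PLGP
import Pool.Agent.Work.MP_f0515e_an.Pos.PLPoly
import Pool.Agent.Work.MP_f0515e_an.Pos.PLCL
import Pool.Agent.Work.MP_f0515e_an.Pos.HRL2
import Pool.Agent.Work.MP_f0515e_an.Pos.HHEP

-- merged part: Pool.Agent.Work.MP_f0515e_an.Pos.GP0b
section
/-! TASK GP0b. Phase 0, second step: push the open cells off the polyhedron.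
Plan. chi = infDist . (Z1 u In) is TP and 1-Lipschitz (if Z1 u In is empty take chi = 1). Poly.expand gives c > 0 for b on Z; for
norm w < c every b + r chi w is injective on Z. gp1 on P = Z x Z (Sm (2m)) with Phi (x, y) = b x - y and scalar chi x gives such a
w with b x + chi x w not in Z whenever chi x != 0. ie_germ with kappa = Unit, scalar chi, vector r w. -/

open Set Metric Filter Topology Function BEv
open scoped NNReal

noncomputable section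
namespace BEp

theorem GP0b_chi {n : ℕ} {W : Set (Fin n → ℝ)} (hW : Poly W) : ∃ χ : (Fin n → ℝ) → ℝ, TP χ ∧
    (∀ x y, |χ x - χ y| ≤ ‖x - y‖) ∧ ∀ x, χ x = 0 ↔ x ∈ W := by
  rcases W.eq_empty_or_nonempty with rfl | hne
  · exact ⟨fun _ => 1, TP.const _, fun x y => by simp, fun x => by simp⟩
  · refine ⟨fun x => infDist x W, hW.2, fun x y => ?_,
      fun x => (hW.1.isClosed.mem_iff_infDist_zero hne).symm⟩
    have := (lipschitz_infDist_pt W).dist_le_mul x y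
    rwa [NNReal.coe_one, one_mul, Real.dist_eq, dist_eq_norm] at this

theorem GP0b_ll {E F : Type} [NormedAddCommGroup E] [NormedSpace ℝ E] [NormedAddCommGroup F]
    [NormedSpace ℝ F] {f : E → F} (h : TP f) (P : Set E) : LocallyLipschitzOn P f := by
  obtain ⟨L, hL⟩ := h.lip
  exact hL.locallyLipschitz.locallyLipschitzOn

theorem Ctx.p0b {m : ℕ} (X : Ctx m) {b : V m → V m} (hb : TP b) (hib : InjOn b X.Z)
    (hfix : ∀ x ∈ X.st.Z1 ∪ X.In, b x = x) :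
    ∃ Φ : V m × ℝ → V m, Continuous Φ ∧ (∀ z, Φ (z, 0) = z) ∧
      (∀ r ∈ Icc (0 : ℝ) 1, SG (fun z => Φ (z, r)) ∧ ∀ x ∈ X.st.Z1 ∪ X.In, Φ (x, r) = x) ∧
      (∀ c ∈ X.C, (fun z => Φ (z, 1)) =ᶠ[𝓝 c] id) ∧
      ∀ x ∈ X.Z \ (X.st.Z1 ∪ X.In), Φ (b x, 1) ∉ X.Z := by
  obtain ⟨χ, c1, c2, c3⟩ := GP0b_chi (X.st.p1.union X.hIn)
  obtain ⟨c, c0, hc⟩ := X.hZ.expand hb hib
  have t1 : TP fun p : V m × V m => p.1 := TP.id'.fst
  have t2 : TP fun p : V m × V m => p.2 := TP.id'.snd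
  have th : Thin {w : V m | ∃ p ∈ X.Z ×ˢ X.Z, χ p.1 ≠ 0 ∧ b p.1 - p.2 + χ p.1 • w = 0} :=
    gp1 (X.hpc.sm.prod X.hpc.sm) (GP0b_ll ((hb.comp t1).sub t2) _)
      (GP0b_ll (c1.comp t1) _) (by simp; omega)
  obtain ⟨w, w1, w2⟩ := Thin.exists_near th 0 c0
  rw [sub_zero] at w1
  have hf : ∀ (r : ℝ) x, fam b (fun _ : Unit => χ) (fun _ => r • w) x = b x + χ x • r • w :=
    fun r x => by simp [fam]
  have hW : X.st.Z1 ∪ X.In ⊆ X.Z := union_subset X.st.s1 X.hIZ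
  obtain ⟨Φ, p1, p2, p3⟩ := ie_germ X.hZ X.hC (X.hC1.trans X.st.s1) hb (lam := fun _ : Unit => χ)
    (fun _ => c1) (w := fun r _ => r • w) (by fun_prop) (fun r hr x hx y hy e => by
      rw [hf, hf] at e
      have e1 : b x - b y = -((χ x - χ y) • r • w) := by
        rw [eq_sub_of_add_eq e]
        module
      have h1 := hc x hx y hy
      rw [e1, norm_neg, norm_smul, norm_smul, Real.norm_of_nonneg hr.1, Real.norm_eq_abs] at h1
      have h2 : r * ‖w‖ ≤ ‖w‖ := mul_le_of_le_one_left (norm_nonneg _) hr.2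
      have h3 := mul_le_mul (c2 x y) h2 (mul_nonneg hr.1 (norm_nonneg _)) (norm_nonneg _)
      have h4 := norm_nonneg (x - y)
      have h5 : ‖x - y‖ = 0 := by nlinarith
      exact sub_eq_zero.1 (norm_eq_zero.1 h5))
    (fun z hz => Filter.mem_of_superset (X.hnb z hz) fun x hx _ => (c3 x).2 (Or.inr hx))
  have q : ∀ r ∈ Icc (0 : ℝ) 1, ∀ x ∈ X.Z, Φ (b x, r) = b x + χ x • r • w := fun r hr x hx => by
    have := (p3 r hr).2.2 x hx
    rw [hf, hf] at this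
    simpa using this
  have h1 : (1 : ℝ) ∈ Icc (0 : ℝ) 1 := right_mem_Icc.2 zero_le_one
  refine ⟨Φ, p1, p2, fun r hr => ⟨(p3 r hr).1, fun x hx => ?_⟩, fun z hz => ?_, fun x hx h => ?_⟩
  · have := q r hr x (hW hx)
    rwa [hfix x hx, (c3 x).2 hx, zero_smul, add_zero] at this
  · have := (p3 1 h1).2.1 z hz
    rwa [hfix z (Or.inl (X.hC1 hz))] at this
  · refine w2 ⟨(x, Φ (b x, 1)), ⟨hx.1, h⟩, fun e => hx.2 ((c3 x).1 e), ?_⟩
    simp only [q 1 h1 x hx.1, one_smul]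
    abel

end BEp
end
end

-- merged part: Pool.Agent.Work.MP_f0515e_an.Pos.PLFD
section
-- merged part: Pool.Agent.Work.MP_f0515e_an.Pos.PLFD0
section
/-! Generic directions: definitions, and the locus where a map is affine.

Plan for `exists_aff`. Let `S` be the finite set of planes covering `Z` and `T` the finite set of
pieces of `g` on a ball containing `Z`. `Z1` is the union of: the planes of `S` of dimension
`< m`; the planes `P ⊓ P'` (`P, P' ∈ S`) of dimension `< m`; the planes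
`{z ∈ P | A z + b = A' z + b'}` of dimension `< m`. Let `x ∈ Z \ Z1`. Two planes of `S` through `x`
meet in dimension `≥ m`, so they are equal (`AffineSubspace.eq_of_direction_eq_of_nonempty_of_le`,
`Submodule.eq_of_le_of_finrank_le`); planes not through `x` are closed and miss a ball; pieces
that differ from `g` at `x` differ from `g` near `x`; two pieces equal to `g` at `x` agree on the
plane through `x`. `thin_submodule`: `PC.sm`, `Sm.thin`. -/

open Set Metric Filter Topology Function BEv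
open scoped NNReal

noncomputable section
namespace BEp

variable {E F : Type} [NormedAddCommGroup E] [NormedSpace ℝ E] [FiniteDimensional ℝ E]
  [NormedAddCommGroup F] [NormedSpace ℝ F] [FiniteDimensional ℝ F]

/-- Pairs of distinct points whose secant is parallel to `w`. -/
def Dw (Z : Set E) (g : E → F) (w : F) : Set (E × E) :=
  {p | p.1 ∈ Z ∧ p.2 ∈ Z ∧ p.1 ≠ p.2 ∧ ∃ t : ℝ, g p.1 - g p.2 = t • w}

/-- `w` is a generic direction for `g` on `Z`. -/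
structure FD (Z Z1 : Set E) (g : E → F) (w : F) : Prop where
  fin : (Dw Z g w).Finite
  off : ∀ p ∈ Dw Z g w, p.1 ∉ Z1
  uniq : ∀ p ∈ Dw Z g w, ∀ q ∈ Dw Z g w, p.1 = q.1 → p.2 = q.2
  aff : ∀ p ∈ Dw Z g w, ∃ (A : E →L[ℝ] F) (b : F), ∀ᶠ z in 𝓝[Z] p.1, g z = A z + b

theorem Dw.swap {Z : Set E} {g : E → F} {w : F} {p : E × E} (h : p ∈ Dw Z g w) :
    p.swap ∈ Dw Z g w := by
  obtain ⟨h1, h2, h3, t, h4⟩ := h
  refine ⟨h2, h1, h3.symm, -t, ?_⟩
  rw [neg_smul, ← h4, neg_sub]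
  rfl

theorem thin_submodule {W : Submodule ℝ F} (h : Module.finrank ℝ W < Module.finrank ℝ F) :
    Thin (W : Set F) := by
  refine Sm.thin (PC.sm (d := Module.finrank ℝ W) ⟨{W.toAffineSubspace}, finite_singleton _, ?_,
    fun x hx => ⟨_, rfl, hx⟩⟩) h
  rintro P rfl
  rw [Submodule.toAffineSubspace_direction]

/-- the locus where two affine maps agree -/
def plfd0Eq (A A' : (E →L[ℝ] F) × F) : AffineSubspace ℝ E where
  carrier := {z | A.1 z + A.2 = A'.1 z + A'.2}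
  smul_vsub_vadd_mem' := fun c x y z hx hy hz => by
    change A.1 x + A.2 = A'.1 x + A'.2 at hx
    change A.1 y + A.2 = A'.1 y + A'.2 at hy
    change A.1 z + A.2 = A'.1 z + A'.2 at hz
    change A.1 (c • (x - y) + z) + A.2 = A'.1 (c • (x - y) + z) + A'.2
    simp only [map_add, map_smul, map_sub]
    linear_combination (norm := module) c • hx - c • hy + hz

theorem exists_aff {m : ℕ} {Z : Set E} (hb : Bornology.IsBounded Z) (hpc : PC m Z) (hm : 1 ≤ m)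
    {g : E → F} (hg : TP g) : ∃ Z1 : Set E, PC (m - 1) Z1 ∧ ∀ x ∈ Z, x ∉ Z1 →
      ∃ (A : E →L[ℝ] F) (b : F), ∀ᶠ z in 𝓝[Z] x, g z = A z + b := by
  obtain ⟨S, hS, hd, hZ⟩ := hpc
  obtain ⟨R, hR⟩ := hb.subset_closedBall 0
  obtain ⟨T, hT, hg'⟩ := hg.pa R
  let Q : AffineSubspace ℝ E × ((E →L[ℝ] F) × F) × ((E →L[ℝ] F) × F) → AffineSubspace ℝ E :=
    fun q => q.1 ⊓ plfd0Eq q.2.1 q.2.2
  let 𝓠 : Set (AffineSubspace ℝ E) :=
    {P ∈ Q '' (S ×ˢ T ×ˢ T) | Module.finrank ℝ P.direction ≤ m - 1}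
  refine ⟨{x | ∃ P ∈ 𝓠, x ∈ P}, ⟨𝓠, ((hS.prod (hT.prod hT)).image Q).subset (sep_subset _ _),
    fun P hP => hP.2, fun x hx => hx⟩, fun x hx hx1 => ?_⟩
  obtain ⟨A, hA, hAx⟩ := hg' x (hR hx)
  refine ⟨A.1, A.2, ?_⟩
  have h1 : ∀ᶠ z in 𝓝 x, ∀ P ∈ S, x ∉ P → z ∉ P := by
    refine (eventually_all_finite hS).2 fun P _ => ?_
    by_cases h : x ∈ P
    · exact Eventually.of_forall fun z h' => absurd h h'
    · filter_upwards [P.closed_of_finiteDimensional.isOpen_compl.mem_nhds h] with z hz _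
      exact hz
  have h2 : ∀ᶠ z in 𝓝 x, ∀ B ∈ T, g x ≠ B.1 x + B.2 → g z ≠ B.1 z + B.2 := by
    refine (eventually_all_finite hT).2 fun B _ => ?_
    by_cases h : g x = B.1 x + B.2
    · exact Eventually.of_forall fun z h' => absurd h h'
    · filter_upwards [(isOpen_ne_fun hg.continuous
        (B.1.continuous.add continuous_const)).mem_nhds h] with z hz _
      exact hz
  filter_upwards [self_mem_nhdsWithin, h1.filter_mono nhdsWithin_le_nhds,
    h2.filter_mono nhdsWithin_le_nhds] with z hz a1 a2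
  obtain ⟨P, hP, hzP⟩ := hZ z hz
  obtain ⟨B, hB, hBz⟩ := hg' z (hR hz)
  have hxP : x ∈ P := by
    by_contra h
    exact a1 P hP h hzP
  have hBx : g x = B.1 x + B.2 := by
    by_contra h
    exact a2 B hB h hBz
  have hxQ : x ∈ Q (P, B, A) := ⟨hxP, hBx.symm.trans hAx⟩
  have hle : Q (P, B, A) ≤ P := inf_le_left
  have hm' : ¬ Module.finrank ℝ (Q (P, B, A)).direction ≤ m - 1 := fun h =>
    hx1 ⟨_, ⟨⟨(P, B, A), ⟨hP, hB, hA⟩, rfl⟩, h⟩, hxQ⟩
  have he : Q (P, B, A) = P := AffineSubspace.eq_of_direction_eq_of_nonempty_of_le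
    (Submodule.eq_of_le_of_finrank_le (AffineSubspace.direction_le hle) (by
      have := hd P hP
      omega)) ⟨x, hxQ⟩ hle
  rw [← he] at hzP
  exact hBz.trans hzP.2

end BEp
end
end

-- merged part: Pool.Agent.Work.MP_f0515e_an.Pos.PLFD1
section
/-! Generic directions for a subset `Y` of a space of dimension `2 m + 1`.

Plan. `pair_alt` (two planes `P`, `P'` of dimension `≤ m`; trivial if one is empty, else fix
`a0 ∈ P`, `b0 ∈ P'`, `W0 = P.direction ⊔ P'.direction`): if `finrank W0 < 2 m` or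
`a0 - b0 ∈ W0` take `W = W0 ⊔ span {a0 - b0}`, which contains all `a - b`; otherwise
`finrank W0 = 2 m` forces `P.direction ⊓ P'.direction = ⊥`
(`Submodule.finrank_sup_add_finrank_inf_eq`) and `W0 ⊔ span {a0 - b0} = ⊤`; take for `ν` the
coordinate along `a0 - b0` and for `pr` the component in `P.direction`.
`thin_inf`: for each pair of planes remove `W`, resp. `ker ν`; then each pair of planes carries
at most one secant parallel to `w`.
`thin_off`: `gp1` on `(Y1 ×ˢ Y) ×ˢ univ`, of dimension `(m - 1) + m + 1`, with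
`Φ = a - b`, `lam = -t` (`t ≠ 0` since `a ≠ b`).
`thin_tri`: apply `pair_alt` to the planes of `b` and `c`. In the first case `w ∈ W`. In the
second, `a - c = t • (b - c)` with `t ≠ 0`, so `ν (a - c0) = t`, `pr (a - c0) = t • (b - b0)` and
`w` is a multiple of `q a = ν (a - c0) • (b0 - a) + pr (a - c0) = t • (b - a)`; the map
`(a, r) ↦ r • q a` is smooth (`ContDiff.locallyLipschitz`), so the image of `P1 ×ˢ univ` is
`Sm (m + 1)`. -/

open Set Metric Filter Topology Function BEv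
open scoped NNReal

noncomputable section
namespace BEp

variable {F : Type} [NormedAddCommGroup F] [NormedSpace ℝ F] [FiniteDimensional ℝ F] {m : ℕ}

theorem pair_alt (hF : Module.finrank ℝ F = 2 * m + 1) {P P' : AffineSubspace ℝ F}
    (hP : Module.finrank ℝ P.direction ≤ m) (hP' : Module.finrank ℝ P'.direction ≤ m) :
    (∃ W : Submodule ℝ F, Module.finrank ℝ W < Module.finrank ℝ F ∧
      ∀ a ∈ P, ∀ b ∈ P', a - b ∈ W) ∨
    ∃ (a0 b0 : F) (ν : F →L[ℝ] ℝ) (pr : F →L[ℝ] F), a0 ∈ P ∧ b0 ∈ P' ∧ ν (a0 - b0) = 1 ∧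
      pr (a0 - b0) = 0 ∧ (∀ ξ ∈ P.direction, ν ξ = 0 ∧ pr ξ = ξ) ∧
      ∀ ξ ∈ P'.direction, ν ξ = 0 ∧ pr ξ = 0 := by
  rcases Set.eq_empty_or_nonempty (P : Set F) with h0 | ⟨a0, ha0⟩
  · refine Or.inl ⟨⊥, by rw [finrank_bot]; omega, fun a ha => ?_⟩
    exact absurd (show a ∈ (P : Set F) from ha) (by rw [h0]; exact notMem_empty a)
  rcases Set.eq_empty_or_nonempty (P' : Set F) with h0 | ⟨b0, hb0⟩
  · refine Or.inl ⟨⊥, by rw [finrank_bot]; omega, fun a _ b hb => ?_⟩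
    exact absurd (show b ∈ (P' : Set F) from hb) (by rw [h0]; exact notMem_empty b)
  set D := P.direction with hD
  set D' := P'.direction with hD'
  by_cases h : Module.finrank ℝ ↥((D ⊔ D') ⊔ Submodule.span ℝ {a0 - b0}) < Module.finrank ℝ F
  · refine Or.inl ⟨_, h, fun a ha b hb => ?_⟩
    have e : a - b = (a - a0) - (b - b0) + (a0 - b0) := by abel
    rw [e]
    refine Submodule.add_mem _ (Submodule.mem_sup_left (Submodule.sub_mem _ ?_ ?_))
      (Submodule.mem_sup_right (Submodule.mem_span_singleton_self _))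
    · exact Submodule.mem_sup_left (AffineSubspace.vsub_mem_direction ha ha0)
    · exact Submodule.mem_sup_right (AffineSubspace.vsub_mem_direction hb hb0)
  have h1 := Submodule.finrank_sup_add_finrank_inf_eq D D'
  have h2 := Submodule.finrank_sup_add_finrank_inf_eq (D ⊔ D') (Submodule.span ℝ {a0 - b0})
  have h3 : Module.finrank ℝ (Submodule.span ℝ ({a0 - b0} : Set F)) ≤ 1 := by
    simpa using finrank_span_le_card (R := ℝ) ({a0 - b0} : Set F)
  have h4 : a0 - b0 ∉ D ⊔ D' := by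
    intro hv
    rw [sup_eq_left.2 ((Submodule.span_singleton_le_iff_mem _ _).2 hv)] at h
    omega
  have h5 : D ⊓ D' = ⊥ := Submodule.finrank_eq_zero.1 (by omega)
  obtain ⟨ν, n1, n2⟩ := LinearMap.exists_extend_of_notMem (0 : ↥(D ⊔ D') →ₗ[ℝ] ℝ) h4 1
  have n3 : ∀ ξ ∈ D ⊔ D', ν ξ = 0 := fun ξ hξ => LinearMap.congr_fun n1 ⟨ξ, hξ⟩
  obtain ⟨l, hl⟩ := (D'.mkQ ∘ₗ D.subtype).exists_leftInverse_of_injective (by
    rw [LinearMap.ker_eq_bot']
    intro x hx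
    have hx' : (x : F) ∈ D ⊓ D' := ⟨x.2, (Submodule.Quotient.mk_eq_zero D').1 hx⟩
    rw [h5] at hx'
    exact Subtype.ext hx')
  set g : F →ₗ[ℝ] F := D.subtype ∘ₗ l ∘ₗ D'.mkQ with hg
  have g1 : ∀ ξ ∈ D, g ξ = ξ := fun ξ hξ =>
    congrArg Subtype.val (LinearMap.congr_fun hl ⟨ξ, hξ⟩)
  have g2 : ∀ ξ ∈ D', g ξ = 0 := fun ξ hξ => by
    have : D'.mkQ ξ = 0 := (Submodule.Quotient.mk_eq_zero D').2 hξ
    simp only [hg, LinearMap.comp_apply, this, map_zero]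
  refine Or.inr ⟨a0, b0, LinearMap.toContinuousLinearMap ν,
    LinearMap.toContinuousLinearMap (g - ν.smulRight (g (a0 - b0))), ha0, hb0, n2, ?_,
    fun ξ hξ => ⟨n3 ξ (Submodule.mem_sup_left hξ), ?_⟩,
    fun ξ hξ => ⟨n3 ξ (Submodule.mem_sup_right hξ), ?_⟩⟩
  · change g (a0 - b0) - ν (a0 - b0) • g (a0 - b0) = 0
    rw [n2, one_smul, sub_self]
  · change g ξ - ν ξ • g (a0 - b0) = ξ
    rw [n3 ξ (Submodule.mem_sup_left hξ), zero_smul, sub_zero, g1 ξ hξ]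
  · change g ξ - ν ξ • g (a0 - b0) = 0
    rw [n3 ξ (Submodule.mem_sup_right hξ), zero_smul, sub_zero, g2 ξ hξ]

omit [FiniteDimensional ℝ F] in
theorem plfd1_mem {W : Submodule ℝ F} {v w : F} {t : ℝ} (hv : v ∈ W) (h0 : v ≠ 0)
    (e : v = t • w) : w ∈ W := by
  have ht : t ≠ 0 := fun h => h0 (by rw [e, h, zero_smul])
  rw [e] at hv
  exact (W.smul_mem_iff ht).1 hv

omit [FiniteDimensional ℝ F] in
theorem plfd1_val {P P' : AffineSubspace ℝ F} {a0 b0 a b : F} {ν : F →L[ℝ] ℝ} {pr : F →L[ℝ] F}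
    (ha0 : a0 ∈ P) (hb0 : b0 ∈ P') (h1 : ν (a0 - b0) = 1) (h2 : pr (a0 - b0) = 0)
    (h3 : ∀ ξ ∈ P.direction, ν ξ = 0 ∧ pr ξ = ξ) (h4 : ∀ ξ ∈ P'.direction, ν ξ = 0 ∧ pr ξ = 0)
    (ha : a ∈ P) (hb : b ∈ P') : ν (a - b) = 1 ∧ pr (a - b) = a - a0 := by
  have e : a - b = (a - a0) - (b - b0) + (a0 - b0) := by abel
  have k1 := h3 (a - a0) (AffineSubspace.vsub_mem_direction ha ha0)
  have k2 := h4 (b - b0) (AffineSubspace.vsub_mem_direction hb hb0)
  rw [e, map_add, map_add, map_sub ν (a - a0), map_sub pr (a - a0), k1.1, k1.2, k2.1, k2.2, h1, h2]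
  simp

theorem plfd1_pair (hF : Module.finrank ℝ F = 2 * m + 1) {P P' : AffineSubspace ℝ F}
    (hP : Module.finrank ℝ P.direction ≤ m) (hP' : Module.finrank ℝ P'.direction ≤ m) (Y : Set F) :
    Thin {w : F | ¬ {p ∈ Dw Y id w | p.1 ∈ P ∧ p.2 ∈ P'}.Subsingleton} := by
  rcases pair_alt hF hP hP' with ⟨W, hW, h⟩ | ⟨a0, b0, ν, pr, ha0, hb0, h1, h2, h3, h4⟩
  · intro _ _
    refine Thin.mono (thin_submodule hW) fun w hw => ?_
    by_contra hc
    refine hw fun p hp => ?_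
    obtain ⟨⟨_, _, hne, t, e⟩, k1, k2⟩ := hp
    exact absurd (plfd1_mem (h _ k1 _ k2) (sub_ne_zero.2 hne) e) hc
  · intro _ _
    refine Thin.mono (T := ∅) Thin.empty fun w hw => absurd ?_ hw
    rintro ⟨a, b⟩ ⟨⟨_, _, _, t, e⟩, k1, k2⟩ ⟨a', b'⟩ ⟨⟨_, _, _, t', e'⟩, k1', k2'⟩
    dsimp only [id] at e e' k1 k2 k1' k2'
    have v1 := plfd1_val ha0 hb0 h1 h2 h3 h4 k1 k2
    have v2 := plfd1_val ha0 hb0 h1 h2 h3 h4 k1' k2'
    have c1 : t * ν w = 1 := by rw [← v1.1, e, map_smul, smul_eq_mul]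
    have c2 : t' * ν w = 1 := by rw [← v2.1, e', map_smul, smul_eq_mul]
    have c3 : t = t' := mul_right_cancel₀ (right_ne_zero_of_mul_eq_one c1) (c1.trans c2.symm)
    have c4 : a - b = a' - b' := by rw [e, e', c3]
    have c5 : a = a' := sub_left_injective (show a - a0 = a' - a0 by rw [← v1.2, c4, v2.2])
    rw [c5] at c4
    exact Prod.ext c5 (sub_right_injective c4)

theorem plfd1_two {T : Set (AffineSubspace ℝ F)} (hT : T.Finite)
    {B : AffineSubspace ℝ F → AffineSubspace ℝ F → Set F} (h : ∀ P ∈ T, ∀ P' ∈ T, Thin (B P P')) :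
    Thin {w | ∃ P ∈ T, ∃ P' ∈ T, w ∈ B P P'} := by
  have : Countable T := hT.countable.to_subtype
  intro _ _
  refine Thin.mono (Thin.iUnion fun p : T × T => h _ p.1.2 _ p.2.2) ?_
  rintro w ⟨P, hP, P', hP', hw⟩
  exact mem_iUnion.2 ⟨(⟨P, hP⟩, ⟨P', hP'⟩), hw⟩

theorem thin_inf (hF : Module.finrank ℝ F = 2 * m + 1) {Y : Set F} (hY : PC m Y) :
    Thin {w : F | (Dw Y id w).Infinite} := by
  obtain ⟨T, hT, hd, hc⟩ := hY
  intro _ _
  refine Thin.mono (plfd1_two hT fun P hP P' hP' => plfd1_pair hF (hd P hP) (hd P' hP') Y) ?_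
  intro w hw
  by_contra hn
  refine hw (Finite.subset (hT.biUnion fun P hP => hT.biUnion fun P' hP' =>
    Set.Subsingleton.finite (s := {p ∈ Dw Y id w | p.1 ∈ P ∧ p.2 ∈ P'})
      (by_contra fun h => hn ⟨P, hP, P', hP', h⟩)) fun p hp => ?_)
  obtain ⟨P, hP, k1⟩ := hc _ hp.1
  obtain ⟨P', hP', k2⟩ := hc _ hp.2.1
  exact mem_iUnion₂.2 ⟨P, hP, mem_iUnion₂.2 ⟨P', hP', hp, k1, k2⟩⟩

theorem thin_off (hF : Module.finrank ℝ F = 2 * m + 1) (hm : 1 ≤ m) {Y Y1 : Set F} (hY : PC m Y)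
    (hY1 : PC (m - 1) Y1) : Thin {w : F | ∃ p ∈ Dw Y id w, p.1 ∈ Y1} := by
  have h1 := (hY1.sm.prod hY.sm).prod (Sm.real univ)
  have h2 : ContDiff ℝ 1 fun p : (F × F) × ℝ => p.1.1 - p.1.2 := by fun_prop
  have h3 : ContDiff ℝ 1 fun p : (F × F) × ℝ => -p.2 := by fun_prop
  intro _ _
  refine Thin.mono (gp1 h1 h2.locallyLipschitz.locallyLipschitzOn
    h3.locallyLipschitz.locallyLipschitzOn (by omega)) ?_
  rintro w ⟨p, ⟨_, k2, hne, t, e⟩, k1⟩
  dsimp only [id] at e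
  refine ⟨(p, t), ⟨⟨k1, k2⟩, mem_univ _⟩, neg_ne_zero.2 fun h => hne ?_, ?_⟩
  · change t = 0 at h
    rw [h, zero_smul] at e
    exact sub_eq_zero.1 e
  · change p.1 - p.2 + (-t) • w = 0
    rw [e, neg_smul, add_neg_cancel]

theorem plfd1_tri (hF : Module.finrank ℝ F = 2 * m + 1) (hm : 1 ≤ m) {Y : Set F} (hY : Sm m Y)
    {P P' : AffineSubspace ℝ F} (hP : Module.finrank ℝ P.direction ≤ m)
    (hP' : Module.finrank ℝ P'.direction ≤ m) :
    Thin {w : F | ∃ a ∈ Y, ∃ b ∈ P, ∃ c ∈ P', a ≠ b ∧ a ≠ c ∧ b ≠ c ∧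
      ∃ s s' : ℝ, a - b = s • w ∧ a - c = s' • w} := by
  have key : ∀ {a b c w : F} {s s' : ℝ}, a - b = s • w → a - c = s' • w →
      b - c = (s' - s) • w := fun e e' => by rw [sub_smul, ← e, ← e']; abel
  rcases pair_alt hF hP hP' with ⟨W, hW, h⟩ | ⟨b0, c0, ν, pr, hb0, hc0, h1, h2, h3, h4⟩
  · intro _ _
    refine Thin.mono (thin_submodule hW) ?_
    rintro w ⟨a, _, b, hb, c, hc, _, _, hne, s, s', e, e'⟩
    exact plfd1_mem (h _ hb _ hc) (sub_ne_zero.2 hne) (key e e')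
  · have d1 : ContDiff ℝ 1 fun p : F × ℝ =>
        p.2 • (ν (p.1 - c0) • (b0 - p.1) + pr (p.1 - c0)) := by fun_prop
    intro _ _
    refine Thin.mono (Sm.thin ((hY.prod (Sm.real univ)).image
      d1.locallyLipschitz.locallyLipschitzOn) (by omega)) ?_
    rintro w ⟨a, ha, b, hb, c, hc, n1, n2, hne, s, s', e, e'⟩
    have e2 := key e e'
    have s0 : s ≠ 0 := fun h => n1 (sub_eq_zero.1 (by rw [e, h, zero_smul]))
    have s1 : s' ≠ 0 := fun h => n2 (sub_eq_zero.1 (by rw [e', h, zero_smul]))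
    have s2 : s' - s ≠ 0 := fun h => hne (sub_eq_zero.1 (by rw [e2, h, zero_smul]))
    have v := plfd1_val hb0 hc0 h1 h2 h3 h4 hb hc
    have k := h4 (c - c0) (AffineSubspace.vsub_mem_direction hc hc0)
    have e3 : a - c0 = (s' / (s' - s)) • (b - c) + (c - c0) := by
      rw [e2, smul_smul, div_mul_cancel₀ _ s2, ← e']
      abel
    have e4 : ν (a - c0) • (b0 - a) + pr (a - c0) = (-(s' / (s' - s) * s)) • w := by
      rw [e3, map_add, map_add, map_smul, map_smul, v.1, v.2, k.1, k.2, neg_smul, mul_smul, ← e]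
      simp only [smul_eq_mul, mul_one, add_zero, ← smul_add, ← smul_neg]
      congr 1
      abel
    refine ⟨(a, (-(s' / (s' - s) * s))⁻¹), ⟨ha, mem_univ _⟩, ?_⟩
    dsimp only
    rw [e4, smul_smul, inv_mul_cancel₀ (neg_ne_zero.2 (mul_ne_zero (div_ne_zero s1 s2) s0)),
      one_smul]

theorem thin_tri (hF : Module.finrank ℝ F = 2 * m + 1) (hm : 1 ≤ m) {Y : Set F} (hY : PC m Y) :
    Thin {w : F | ∃ p ∈ Dw Y id w, ∃ q ∈ Dw Y id w, p.1 = q.1 ∧ p.2 ≠ q.2} := by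
  have hs := hY.sm
  obtain ⟨T, hT, hd, hc⟩ := hY
  intro _ _
  refine Thin.mono (plfd1_two hT fun P hP P' hP' => plfd1_tri hF hm hs (hd P hP) (hd P' hP')) ?_
  rintro w ⟨⟨a, b⟩, ⟨k1, k2, n1, s, e⟩, ⟨a', c⟩, ⟨_, k3, n2, s', e'⟩, h, n3⟩
  dsimp only [id] at k1 k2 k3 n1 n2 n3 e e' h
  subst h
  obtain ⟨P, hP, q1⟩ := hc _ k2
  obtain ⟨P', hP', q2⟩ := hc _ k3
  exact ⟨P, hP, P', hP', a, k1, b, q1, c, q2, n1, n2, n3, s, s', e, e'⟩

end BEp
end
end

-- merged part: Pool.Agent.Work.MP_f0515e_an.Pos.PLFD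
section
/-! Generic directions for a piecewise affine embedding: PL5 of the plan. -/

open Set Metric Filter Topology Function BEv
open scoped NNReal

noncomputable section
namespace BEp

variable {F : Type} [NormedAddCommGroup F] [NormedSpace ℝ F] [FiniteDimensional ℝ F] {n m : ℕ}

theorem thin_fd (hF : Module.finrank ℝ F = 2 * m + 1) (hm : 1 ≤ m) {Z Z1 : Set (Fin n → ℝ)}
    (hb : Bornology.IsBounded Z) (hpc : PC m Z) (h1 : Z1 ⊆ Z) (hpc1 : PC (m - 1) Z1)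
    {g : (Fin n → ℝ) → F} (hg : TP g) (hi : InjOn g Z) : Thin {w : F | ¬ FD Z Z1 g w} := by
  obtain ⟨Z2, hZ2, haff⟩ := exists_aff hb hpc hm hg
  have hY : PC m (g '' Z) := hpc.image hb hg
  have hY1 : PC (m - 1) (g '' (Z1 ∪ Z2 ∩ Z)) :=
    (hpc1.union (hZ2.mono inter_subset_left)).image
      (hb.subset (union_subset h1 inter_subset_right)) hg
  intro _ _
  refine Thin.mono (Thin.union (Thin.union (thin_inf hF hY) (thin_off hF hm hY hY1))
    (thin_tri hF hm hY)) ?_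
  intro w hw
  by_contra hcon
  simp only [mem_union, mem_ofPred_eq, not_or, not_infinite] at hcon
  obtain ⟨⟨c1, c2⟩, c3⟩ := hcon
  have hmap : ∀ p ∈ Dw Z g w, (g p.1, g p.2) ∈ Dw (g '' Z) id w := fun p hp =>
    ⟨mem_image_of_mem _ hp.1, mem_image_of_mem _ hp.2.1, fun e => hp.2.2.1 (hi hp.1 hp.2.1 e),
      hp.2.2.2⟩
  refine hw ⟨?_, fun p hp h => ?_, fun p hp q hq e => ?_, fun p hp => ?_⟩
  · refine Finite.of_injOn (f := Prod.map g g) (fun p hp => hmap p hp) (fun p hp q hq e => ?_) c1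
    exact Prod.ext (hi hp.1 hq.1 (congrArg Prod.fst e)) (hi hp.2.1 hq.2.1 (congrArg Prod.snd e))
  · exact c2 ⟨_, hmap p hp, mem_image_of_mem _ (Or.inl h)⟩
  · by_contra hne
    exact c3 ⟨_, hmap p hp, _, hmap q hq, congrArg g e, fun e' => hne (hi hp.2.1 hq.2.1 e')⟩
  · exact haff p.1 hp.1 fun h => c2 ⟨_, hmap p hp, mem_image_of_mem _ (Or.inr ⟨h, hp.1⟩)⟩

end BEp
end
end
end

-- merged part: Pool.Agent.Work.MP_f0515e_an.Pos.PLMv
section
/-! One vertical move: all changes of order happen at near pairs. -/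

open Set Metric Filter Topology Function BEv
open scoped NNReal

noncomputable section
namespace BEp

variable {n n' : ℕ}

theorem plmv_bump (x₀ : Fin n → ℝ) {S : Set (Fin n → ℝ)} (hS : S.Finite) (hx : x₀ ∉ S) (c : ℝ) :
    ∃ β : (Fin n → ℝ) → ℝ, TP β ∧ β x₀ = c ∧ ∀ s ∈ S, ∀ᶠ x in 𝓝 s, β x = 0 := by
  obtain ⟨ρ, hρ, hb⟩ := Metric.isOpen_iff.1 hS.isClosed.isOpen_compl x₀ hx
  refine ⟨fun x => c * max (1 - 2 * ‖x - x₀‖ / ρ) 0, ?_, by simp, fun s hs => ?_⟩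
  · exact (((TP.const 1).sub ((((TP.id'.sub (TP.const x₀)).norm_pi).const_mul 2).div_const ρ)).max
      (TP.const 0)).const_mul c
  · have h1 : ρ ≤ ‖s - x₀‖ := not_lt.1 fun h => hb (mem_ball_iff_norm.2 h) hs
    have h2 : ∀ᶠ x in 𝓝 s, ρ / 2 < ‖x - x₀‖ :=
      continuousAt_const.eventually_lt (by fun_prop) (by linarith)
    filter_upwards [h2] with x hx
    have h3 : 1 - 2 * ‖x - x₀‖ / ρ ≤ 0 := by
      rw [sub_nonpos, le_div_iff₀ hρ]
      linarith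
    rw [max_eq_right h3, mul_zero]

theorem plmv_swap {Z : Set (Fin n → ℝ)} {P : (Fin n → ℝ) → Fin n' → ℝ}
    {p : (Fin n → ℝ) × (Fin n → ℝ)} (h : p ∈ Dbl Z P) : (p.2, p.1) ∈ Dbl Z P :=
  ⟨h.2.1, h.1, h.2.2.1.symm, h.2.2.2.symm⟩

theorem flip_all {m : ℕ} (hm : 2 ≤ m) {Z C Z1 : Set (Fin n → ℝ)} (hZ : Poly Z) (hC : C.Finite)
    (hC1 : C ⊆ Z1) (hCZ : C ⊆ Z) {P : (Fin n → ℝ) → Fin n' → ℝ} (hP : TP P) {w : Fin n' → ℝ}
    {l : (Fin n' → ℝ) →L[ℝ] ℝ} (hw : l w = 1) (hl : ∀ x, l (P x) = 0) (hfin : (Dbl Z P).Finite)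
    (htri : ∀ x y z, (x, y) ∈ Dbl Z P → (x, z) ∈ Dbl Z P → y = z)
    (h1 : ∀ p ∈ Dbl Z P, p.1 ∉ Z1) (ha : ∀ p ∈ Dbl Z P, AffAt Z P p.1)
    {h' : (Fin n → ℝ) → ℝ} (hh' : TP h') (hne' : ∀ p ∈ Dbl Z P, h' p.1 ≠ h' p.2) (N : ℕ) :
    ∀ h : (Fin n → ℝ) → ℝ, TP h → (∀ p ∈ Dbl Z P, h p.1 ≠ h p.2) →
      (∀ c ∈ C, ∀ᶠ x in 𝓝[Z] c, h x = h' x) →
      {p ∈ Dbl Z P | h p.2 < h p.1 ∧ h' p.1 < h' p.2}.ncard = N →
      (∀ p ∈ Dbl Z P, h p.2 < h p.1 → h' p.1 < h' p.2 → Nr m Z C Z1 p.1 p.2) →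
      Eqv Z C (fun x => P x + h x • w) (fun x => P x + h' x • w) := by
  induction N using Nat.strong_induction_on with
  | _ N ih =>
  intro h hh hne hz hN hnr
  by_cases hS : ∃ p ∈ Dbl Z P, h p.2 < h p.1 ∧ h' p.1 < h' p.2
  swap
  · refine eqv_vert hZ hC hCZ hP hw hl hh hh' (fun x hx y hy hxy e => ?_) hz
    have hp : (x, y) ∈ Dbl Z P := ⟨hx, hy, hxy, e⟩
    rcases lt_or_gt_of_ne (hne _ hp) with c | c
    · exact Or.inl ⟨c, lt_of_le_of_ne (not_lt.1 fun c' => hS ⟨_, plmv_swap hp, c, c'⟩) (hne' _ hp)⟩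
    · exact Or.inr ⟨c, lt_of_le_of_ne (not_lt.1 fun c' => hS ⟨_, hp, c, c'⟩) (hne' _ hp).symm⟩
  obtain ⟨⟨x₀, y₀⟩, h0, hx, hx'⟩ := hS
  simp only at hx hx'
  obtain ⟨β, hβ, hβ0, hβs⟩ := plmv_bump x₀ (S := C ∪ (Prod.fst '' Dbl Z P \ {x₀}))
    (hC.union ((hfin.image _).subset sdiff_subset))
    (fun h => h.elim (fun h => h1 _ h0 (hC1 h)) fun h => h.2 rfl) (h y₀ - h x₀ - 1)
  have hβ1 : ∀ p ∈ Dbl Z P, p.1 ≠ x₀ → β p.1 = 0 := fun p hp e =>
    (hβs p.1 (Or.inr ⟨mem_image_of_mem _ hp, e⟩)).self_of_nhds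
  have hy0 : β y₀ = 0 := hβ1 _ (plmv_swap h0) h0.2.2.1.symm
  have hoth : ∀ p ∈ Dbl Z P, p ≠ (x₀, y₀) → p ≠ (y₀, x₀) → β p.1 = 0 ∧ β p.2 = 0 := by
    rintro ⟨a, b⟩ hp e e'
    refine ⟨hβ1 _ hp ?_, hβ1 _ (plmv_swap hp) ?_⟩
    · intro (c : a = x₀)
      subst c
      exact e (Prod.ext rfl (htri _ _ _ hp h0))
    · intro (c : b = x₀)
      subst c
      exact e' (Prod.ext (htri _ _ _ (plmv_swap hp) h0) rfl)
  have hk : TP fun x => h x + β x := hh.add hβ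
  have hkx : h x₀ + β x₀ < h y₀ + β y₀ := by rw [hβ0, hy0]; linarith
  have hzk : ∀ c ∈ C, ∀ᶠ x in 𝓝[Z] c, h x = h x + β x := fun c hc =>
    mem_nhdsWithin_of_mem_nhds ((hβs c (Or.inl hc)).mono fun x hx => by rw [hx, add_zero])
  have e1 := crossing hm hZ hC hCZ hP hw hl hfin htri h1 h0 (hnr _ h0 hx hx') (ha _ h0)
    (ha _ (plmv_swap h0)) hh hk hzk hx hkx (fun p hp e e' => by
      obtain ⟨a, b⟩ := hoth p hp e e'
      simp only [a, b, add_zero, and_self]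
      exact lt_or_gt_of_ne (hne p hp))
  have hsub : ∀ p ∈ Dbl Z P, h p.2 + β p.2 < h p.1 + β p.1 → h' p.1 < h' p.2 →
      h p.2 < h p.1 ∧ p ≠ (x₀, y₀) := by
    intro p hp c c'
    by_cases e : p = (x₀, y₀)
    · subst e
      exact absurd c hkx.not_gt
    by_cases e' : p = (y₀, x₀)
    · subst e'
      exact absurd c' hx'.not_gt
    obtain ⟨a, b⟩ := hoth p hp e e'
    rw [a, b, add_zero, add_zero] at c
    exact ⟨c, e⟩
  refine e1.trans hCZ (ih _ ?_ _ hk (fun p hp => ?_) (fun c hc => ?_) rfl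
    fun p hp c c' => hnr p hp (hsub p hp c c').1 c')
  · rw [← hN]
    refine ncard_lt_ncard ⟨fun p hp => ⟨hp.1, (hsub p hp.1 hp.2.1 hp.2.2).1, hp.2.2⟩, fun hs => ?_⟩
      (hfin.subset fun p hp => hp.1)
    exact absurd (hs (show (x₀, y₀) ∈ _ from ⟨h0, hx, hx'⟩)).2.1 hkx.not_gt
  · by_cases e : p = (x₀, y₀)
    · subst e
      exact hkx.ne
    by_cases e' : p = (y₀, x₀)
    · subst e'
      exact hkx.ne'
    obtain ⟨a, b⟩ := hoth p hp e e'
    simpa only [a, b, add_zero] using hne p hp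
  · filter_upwards [hz c hc, hzk c hc] with x a b
    rw [← b, a]

theorem vert_move {m : ℕ} (hm : 2 ≤ m) {Z C Z1 : Set (Fin n → ℝ)} (hZ : Poly Z) (hC : C.Finite)
    (hC1 : C ⊆ Z1) (h1 : Z1 ⊆ Z) {g : (Fin n → ℝ) → Fin n' → ℝ} (hg : TP g) (hi : InjOn g Z)
    {w : Fin n' → ℝ} (hw : w ≠ 0) (hfd : FD Z Z1 g w) {φ : (Fin n → ℝ) → ℝ} (hφ : TP φ)
    (hz : ∀ c ∈ C, ∀ᶠ x in 𝓝[Z] c, φ x = 0) (hi' : InjOn (fun x => g x + φ x • w) Z)
    (hnr : ∀ x ∈ Z \ Z1, ∀ y ∈ Z \ Z1, x ≠ y → φ x ≠ φ y →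
      ‖g x - g y‖ ≤ |φ x - φ y| * ‖w‖ → Nr m Z C Z1 x y) :
    Eqv Z C g (fun x => g x + φ x • w) := by
  obtain ⟨l, hl⟩ : ∃ l : (Fin n' → ℝ) →L[ℝ] ℝ, l w = 1 := SeparatingDual.exists_eq_one hw
  set P : (Fin n → ℝ) → Fin n' → ℝ := fun x => g x - l (g x) • w with hPdef
  have hh : TP fun x => l (g x) := (TP.clm l).comp hg
  have hP : TP P := hg.sub (hh.smul_const w)
  have hlP : ∀ x, l (P x) = 0 := fun x => by simp [hPdef, hl]
  have hsec : ∀ p ∈ Dbl Z P, g p.1 - g p.2 = (l (g p.1) - l (g p.2)) • w := fun p hp => by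
    have e : g p.1 - l (g p.1) • w = g p.2 - l (g p.2) • w := hp.2.2.2
    rw [sub_smul]
    linear_combination (exp := 1) e
  have hD : ∀ p ∈ Dbl Z P, p ∈ Dw Z g w := fun p hp => ⟨hp.1, hp.2.1, hp.2.2.1, _, hsec p hp⟩
  have key := flip_all hm hZ hC hC1 (hC1.trans h1) hP hl hlP (hfd.fin.subset hD)
    (fun x y z a b => hfd.uniq _ (hD _ a) _ (hD _ b) rfl) (fun p hp => hfd.off p (hD p hp))
    (fun p hp => by
      obtain ⟨A, b, hA⟩ := hfd.aff p (hD p hp)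
      refine ⟨A - (l.comp A).smulRight w, b - l b • w, hA.mono fun y hy => ?_⟩
      simp only [hPdef, hy, map_add, sub_apply,
        ContinuousLinearMap.smulRight_apply, ContinuousLinearMap.comp_apply]
      module)
    (hh.add hφ) (fun p hp e => hp.2.2.1 (hi' hp.1 hp.2.1 (by
      have e1 := hsec p hp
      have e2 : l (g p.1) - l (g p.2) = φ p.2 - φ p.1 := by linarith
      rw [e2, sub_smul] at e1
      linear_combination (exp := 1) e1))) _ _ hh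
    (fun p hp e => hp.2.2.1 (hi hp.1 hp.2.1 (by
      have e1 := hsec p hp
      rwa [e, sub_self, zero_smul, sub_eq_zero] at e1)))
    (fun c hc => (hz c hc).mono fun x hx => by rw [hx, add_zero]) rfl
    (fun p hp c c' => hnr _ ⟨hp.1, hfd.off p (hD p hp)⟩ _
      ⟨hp.2.1, hfd.off _ (hD _ (plmv_swap hp))⟩ hp.2.2.1 (fun e => by linarith) (by
        rw [hsec p hp, norm_smul, Real.norm_eq_abs, abs_of_pos (sub_pos.2 c), abs_sub_comm]
        exact mul_le_mul_of_nonneg_right ((by linarith : _ ≤ φ p.2 - φ p.1).trans (le_abs_self _))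
          (norm_nonneg _)))
  convert key using 2 with x x
  · simp [hPdef]
  · simp only [hPdef]
    module

end BEp
end
end

-- merged part: Pool.Agent.Work.MP_f0515e_an.Pos.GV5
section
-- merged part: Pool.Agent.Work.MP_f0515e_an.Pos.PLStep
section
/-! Two close embeddings are equivalent if only near pairs have close images. -/

open Set Metric Filter Topology Function BEv
open scoped NNReal

noncomputable section
namespace BEp

theorem plst_gen {m : ℕ} (hm : 2 ≤ m) {Z Z1 : Set (V m)} (hZ : Poly Z) (hpc : PC m Z)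
    (h1 : Z1 ⊆ Z) (hpc1 : PC (m - 1) Z1) {g : V m → V m} (hg : TP g) (hi : InjOn g Z)
    {φ : V m → ℝ} (hφ : TP φ) (e : V m) {θ : ℝ} (hθ : 0 < θ) :
    ∃ w : V m, ‖w - e‖ < θ ∧ FD Z Z1 g w ∧ InjOn (fun x => g x + φ x • w) Z := by
  have hF : Module.finrank ℝ (V m) = 2 * m + 1 := by simp
  have hl : ∀ {F : Type} [NormedAddCommGroup F] [NormedSpace ℝ F] {u : V m → F}, TP u →
      LocallyLipschitzOn (Z ×ˢ Z) fun p : V m × V m => u p.1 - u p.2 := fun hu => by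
    obtain ⟨L, hL⟩ := hu.lip
    exact ((hL.comp LipschitzWith.prod_fst).sub
      (hL.comp LipschitzWith.prod_snd)).locallyLipschitz.locallyLipschitzOn
  have h2 : Thin {w : V m | ∃ p ∈ Z ×ˢ Z, φ p.1 - φ p.2 ≠ 0 ∧
      g p.1 - g p.2 + (φ p.1 - φ p.2) • w = 0} := by
    intro _ _
    exact gp1 (hpc.sm.prod hpc.sm) (hl hg) (hl hφ) (by omega)
  have h3 : Thin {w : V m | ¬ FD Z Z1 g w} := by
    intro _ _
    exact thin_fd hF (by omega) hZ.1.isBounded hpc h1 hpc1 hg hi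
  have h5 : Thin ({w : V m | ∃ p ∈ Z ×ˢ Z, φ p.1 - φ p.2 ≠ 0 ∧
      g p.1 - g p.2 + (φ p.1 - φ p.2) • w = 0} ∪ {w : V m | ¬ FD Z Z1 g w}) := by
    intro _ _
    exact Thin.union @h2 @h3
  obtain ⟨w, hw, hn⟩ := Thin.exists_near @h5 e hθ
  simp only [mem_union, mem_ofPred_eq, not_or, not_not] at hn
  refine ⟨w, hw, hn.2, fun x hx y hy h => ?_⟩
  have h4 : g x + φ x • w = g y + φ y • w := h
  by_cases c : φ x = φ y
  · rw [c] at h4
    exact hi hx hy (add_right_cancel h4)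
  · refine absurd ⟨(x, y), ⟨hx, hy⟩, sub_ne_zero.2 c, ?_⟩ hn.1
    simp only [sub_smul]
    linear_combination (exp := 1) h4

theorem ae_step {m : ℕ} (hm : 2 ≤ m) {Z C Z1 : Set (V m)} (hZ : Poly Z) (hpc : PC m Z)
    (hC : C.Finite) (hC1 : C ⊆ Z1) (h1 : Z1 ⊆ Z) (hpc1 : PC (m - 1) Z1) {g g' : V m → V m}
    (hg : TP g) (hg' : TP g') (hi : InjOn g Z) (hi' : InjOn g' Z)
    (hz : ∀ c ∈ C, ∀ᶠ x in 𝓝[Z] c, g x = g' x) {δ : ℝ} (hδ : ∀ x ∈ Z, ‖g' x - g x‖ ≤ δ)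
    (hnr : ∀ x ∈ Z \ Z1, ∀ y ∈ Z \ Z1, x ≠ y → g' x - g x ≠ g' y - g y →
      ‖g x - g y‖ ≤ (8 * m + 8) * δ → Nr m Z C Z1 x y) :
    Eqv Z C g g' := by
  classical
  have hCZ := hC1.trans h1
  set φ : Fin (2 * m + 1) → V m → ℝ := fun j x => (g' x - g x) j with hφdef
  have hφ : ∀ j, TP (φ j) := fun j => (hg'.sub hg).apply j
  have hφδ : ∀ j, ∀ x ∈ Z, |φ j x| ≤ δ := fun j x hx =>
    (norm_le_pi_norm (g' x - g x) j).trans (hδ x hx)
  have hφz : ∀ c ∈ C, ∀ᶠ x in 𝓝[Z] c, ∀ j, φ j x = 0 := fun c hc =>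
    (hz c hc).mono fun x hx j => by simp [hφdef, hx]
  obtain ⟨c, hc0, hc⟩ := hZ.expand hg' hi'
  obtain ⟨L, hL1, hL⟩ := (hg'.sub hg).exists_bound
  set θ : ℝ := min 1 (c / (2 * ((2 * m + 1) * L))) with hθdef
  have hθ : 0 < θ := lt_min one_pos (by positivity)
  have key : ∀ S : Finset (Fin (2 * m + 1)), ∃ w : Fin (2 * m + 1) → V m,
      (∀ j, ‖w j - Pi.single j 1‖ < θ) ∧ InjOn (fun x => g x + ∑ j ∈ S, φ j x • w j) Z ∧
      Eqv Z C g (fun x => g x + ∑ j ∈ S, φ j x • w j) := by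
    intro S
    induction S using Finset.induction_on with
    | empty => exact ⟨fun j => Pi.single j 1, fun j => by simpa using hθ, by simpa using hi,
        Eqv.refl' fun x _ => by simp⟩
    | insert k S hk ih =>
      obtain ⟨w, hw, hiw, he⟩ := ih
      have hG : TP fun x => g x + ∑ j ∈ S, φ j x • w j :=
        hg.add (TP.sum S fun j _ => (hφ j).smul_const _)
      obtain ⟨w', hw', hfd, hi2⟩ := plst_gen hm hZ hpc h1 hpc1 hG hiw (hφ k) (Pi.single k 1) hθ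
      have hn : ∀ (j) (u : V m), ‖u - Pi.single j 1‖ < θ → u ≠ 0 ∧ ‖u‖ ≤ 2 := fun j u hu => by
        have a1 : ‖(Pi.single j 1 : V m)‖ = 1 := by rw [Pi.norm_single, norm_one]
        have a2 : θ ≤ 1 := min_le_left _ _
        refine ⟨fun h => ?_, ?_⟩
        · rw [h, zero_sub, norm_neg, a1] at hu
          linarith
        · have := norm_add_le (u - Pi.single j 1) (Pi.single j 1)
          rw [sub_add_cancel, a1] at this
          linarith
      have hsum : ∀ x ∈ Z, ‖∑ j ∈ S, φ j x • w j‖ ≤ (2 * m + 1) * (δ * 2) := fun x hx => by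
        have a1 : 0 ≤ δ := (abs_nonneg _).trans (hφδ k x hx)
        refine (norm_sum_le _ _).trans ((Finset.sum_le_card_nsmul S _ (δ * 2) fun j _ => ?_).trans ?_)
        · rw [norm_smul, Real.norm_eq_abs]
          exact mul_le_mul (hφδ j x hx) (hn j _ (hw j)).2 (norm_nonneg _) a1
        · rw [nsmul_eq_mul]
          have a2 : (S.card : ℝ) ≤ 2 * m + 1 := by
            have := S.card_le_univ
            rw [Fintype.card_fin] at this
            exact_mod_cast this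
          exact mul_le_mul_of_nonneg_right a2 (by positivity)
      have e2 := vert_move hm hZ hC hC1 h1 hG hiw (hn k _ hw').1 hfd (hφ k)
        (fun c hc => (hφz c hc).mono fun x hx => hx k) hi2 (fun x hx y hy hxy hne hle => by
          refine hnr x hx y hy hxy (fun e => hne (congrFun e k)) ?_
          have a1 := hsum x hx.1
          have a2 := hsum y hy.1
          have a3 : |φ k x - φ k y| ≤ 2 * δ :=
            (abs_sub _ _).trans (by linarith [hφδ k x hx.1, hφδ k y hy.1])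
          have a4 : |φ k x - φ k y| * ‖w'‖ ≤ 2 * δ * 2 :=
            mul_le_mul a3 (hn k _ hw').2 (norm_nonneg _) ((abs_nonneg _).trans a3)
          have a5 : g x - g y = ((g x + ∑ j ∈ S, φ j x • w j) - (g y + ∑ j ∈ S, φ j y • w j)) -
              ∑ j ∈ S, φ j x • w j + ∑ j ∈ S, φ j y • w j := by abel
          have a6 := norm_add_le (((g x + ∑ j ∈ S, φ j x • w j) - (g y + ∑ j ∈ S, φ j y • w j)) -
              ∑ j ∈ S, φ j x • w j) (∑ j ∈ S, φ j y • w j)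
          have a7 := norm_sub_le ((g x + ∑ j ∈ S, φ j x • w j) - (g y + ∑ j ∈ S, φ j y • w j))
              (∑ j ∈ S, φ j x • w j)
          rw [← a5] at a6
          linarith)
      have e3 : (fun x => g x + ∑ j ∈ insert k S, φ j x • update w k w' j) =
          fun x => g x + ∑ j ∈ S, φ j x • w j + φ k x • w' := by
        funext x
        rw [Finset.sum_insert hk, update_self, Finset.sum_congr rfl fun j hj => by
          rw [update_of_ne (ne_of_mem_of_not_mem hj hk)]]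
        abel
      refine ⟨update w k w', fun j => ?_, ?_, ?_⟩
      · by_cases h : j = k
        · subst h
          rwa [update_self]
        · rw [update_of_ne h]
          exact hw j
      · rw [e3]
        exact hi2
      · rw [e3]
        exact he.trans hCZ e2
  obtain ⟨w, hw, -, he⟩ := key Finset.univ
  have hg2 : ∀ x, g' x = g x + ∑ j, φ j x • (Pi.single j 1 : V m) := fun x => by
    have := (pi_eq_sum_univ' (g' x - g x))
    rw [← sub_eq_iff_eq_add', this]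
  refine he.trans hCZ (eqv_line hZ hC hCZ (hg.add (TP.sum _ fun j _ => (hφ j).smul_const _)) hg'
    (fun r hr x hx y hy h => ?_) fun c hc => ?_)
  · have a0 : (1 - r) • (g x + ∑ j, φ j x • w j) + r • g' x =
        (1 - r) • (g y + ∑ j, φ j y • w j) + r • g' y := h
    have a1 : ∀ z, g z + ∑ j, φ j z • w j = g' z + ∑ j, φ j z • (w j - Pi.single j 1) := fun z => by
      rw [hg2 z]
      simp only [smul_sub, Finset.sum_sub_distrib]
      abel
    have a2 : g' x - g' y = -((1 - r) • ∑ j, (φ j x - φ j y) • (w j - Pi.single j 1)) := by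
      rw [a1, a1] at a0
      simp only [sub_smul (φ _ x), Finset.sum_sub_distrib]
      linear_combination (norm := module) a0
    have a3 : ‖∑ j, (φ j x - φ j y) • (w j - Pi.single j 1)‖ ≤
        (2 * m + 1) * (L * ‖x - y‖ * θ) := by
      refine (norm_sum_le _ _).trans ((Finset.sum_le_card_nsmul _ _ (L * ‖x - y‖ * θ)
        fun j _ => ?_).trans ?_)
      · rw [norm_smul]
        exact mul_le_mul ((norm_le_pi_norm (g' x - g x - (g' y - g y)) j).trans (hL x y)) (hw j).le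
          (norm_nonneg _) (by positivity)
      · simp
    have a4 : ‖g' x - g' y‖ ≤ (2 * m + 1) * (L * ‖x - y‖ * θ) := by
      rw [a2, norm_neg, norm_smul, Real.norm_of_nonneg (sub_nonneg.2 hr.2)]
      exact (mul_le_of_le_one_left (norm_nonneg _) (by linarith [hr.1])).trans a3
    have a5 : (2 * m + 1) * L * θ ≤ c / 2 := by
      have b1 : θ ≤ c / (2 * ((2 * m + 1) * L)) := min_le_right _ _
      rw [le_div_iff₀ (by positivity)] at b1
      linarith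
    have a6 := hc x hx y hy
    have a7 : ‖x - y‖ ≤ 0 := by nlinarith [norm_nonneg (x - y)]
    exact sub_eq_zero.1 (norm_le_zero_iff.1 a7)
  · filter_upwards [hz c hc, hφz c hc] with x a b
    simp [b, a]

end BEp
end
end

-- merged part: Pool.Agent.Work.MP_f0515e_an.Pos.PLAE
section
/-! EXPORT (PL). Almost embedding principle: PL4 to PL7 of the plan. -/

open Set Metric Filter Topology Function BEv
open scoped NNReal

noncomputable section
namespace BEp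

theorem ae_principle {m : ℕ} (hm : 2 ≤ m) {Z C Z1 In : Set (V m)} (hZ : Poly Z) (hpc : PC m Z)
    (hC : C.Finite) (hC1 : C ⊆ Z1) (h1 : Z1 ⊆ Z) (hpc1 : PC (m - 1) Z1) (hIn : Poly In)
    (hIZ : In ⊆ Z) (hnb : ∀ c ∈ C, In ∈ 𝓝[Z] c) {a b : V m → V m} (ha : TP a) (hb : TP b)
    (hia : InjOn a Z) (hib : InjOn b Z) {U : V m × ℝ → V m} (hU : Continuous U)
    (hU0 : ∀ x ∈ Z, U (x, 0) = a x) (hU1 : ∀ x ∈ Z, U (x, 1) = b x)
    (hst : ∀ x ∈ In, ∀ s ∈ Icc (0 : ℝ) 1, U (x, s) = a x) {D : Set (V m × V m)}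
    (hD : IsCompact D) (hne : ∀ p ∈ D, ∀ s ∈ Icc (0 : ℝ) 1, U (p.1, s) ≠ U (p.2, s))
    (hDZ : D ⊆ Z ×ˢ Z)
    (hnr : ∀ x ∈ Z \ Z1, ∀ y ∈ Z \ Z1, x ≠ y →
      (x, y) ∈ D ∨ Nr m Z C Z1 x y ∨ (x ∈ In ∧ y ∈ In)) :
    Eqv Z C a b := by
  have hCZ := hC1.trans h1
  obtain ⟨μ, hμ, hsep⟩ := (hD.prod (isCompact_Icc (a := (0 : ℝ)) (b := 1))).exists_forall_le'
    (f := fun q : (V m × V m) × ℝ => ‖U (q.1.1, q.2) - U (q.1.2, q.2)‖) (a := 0) (by fun_prop)
    fun q hq => norm_pos_iff.2 (sub_ne_zero.2 (hne _ hq.1 _ hq.2))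
  set ε : ℝ := μ / (24 * m + 27) with hεdef
  have hε : 0 < ε := by positivity
  have hμε : μ = (24 * m + 27) * ε := by rw [hεdef]; field_simp
  have hex : ∀ s : ℝ, ∃ g : V m → V m, s ∈ Icc (0 : ℝ) 1 → TP g ∧ InjOn g Z ∧ EqOn g a In ∧
      (∀ x ∈ Z, ‖g x - U (x, s)‖ ≤ ε) ∧ (s = 0 → g = a) ∧ (s = 1 → g = b) := by
    intro s
    by_cases h0 : s = 0
    · exact ⟨a, fun _ => ⟨ha, hia, fun _ _ => rfl, fun x hx => by simp [h0, hU0 x hx, hε.le],
        fun _ => rfl, fun h => by simp [h0] at h⟩⟩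
    by_cases h1' : s = 1
    · exact ⟨b, fun hs => ⟨hb, hib, fun x hx => by rw [← hU1 x (hIZ hx), hst x hx 1 (h1' ▸ hs)],
        fun x hx => by simp [h1', hU1 x hx, hε.le], fun h => absurd h h0, fun _ => rfl⟩⟩
    by_cases hs : s ∈ Icc (0 : ℝ) 1
    · obtain ⟨g, c1, c2, c3, c4⟩ := tpify (u := fun x => U (x, s)) hZ hpc (by omega) hIn hIZ ha hia
        (by fun_prop) (fun x hx => hst x hx s hs) hε
      exact ⟨g, fun _ => ⟨c1, c2, c3, c4, fun h => absurd h h0, fun h => absurd h h1'⟩⟩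
    · exact ⟨a, fun h => absurd h hs⟩
  choose g hg using hex
  have key : ∀ s ∈ Icc (0 : ℝ) 1, ∀ᶠ s' in 𝓝[Icc 0 1] s, Eqv Z C (g s) (g s') := by
    intro s hs
    have h2 : ∀ᶠ s' in 𝓝 s, ∀ x ∈ Z, ‖U (x, s') - U (x, s)‖ < ε :=
      hZ.1.eventually_forall_of_forall_eventually
        (P := fun s' x => ‖U (x, s') - U (x, s)‖ < ε) fun x _ =>
          ContinuousAt.eventually_lt (by fun_prop) continuousAt_const (by simpa using hε)
    filter_upwards [self_mem_nhdsWithin, mem_nhdsWithin_of_mem_nhds h2] with s' hs' hcl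
    obtain ⟨a1, a2, a3, a4, -⟩ := hg s hs
    obtain ⟨b1, b2, b3, b4, -⟩ := hg s' hs'
    refine ae_step hm hZ hpc hC hC1 h1 hpc1 a1 b1 a2 b2 (fun c hc => ?_) (δ := 3 * ε)
      (fun x hx => ?_) fun x hx y hy hxy hd hle => ?_
    · filter_upwards [hnb c hc] with x hx
      rw [a3 hx, b3 hx]
    · have e : g s' x - g s x = (g s' x - U (x, s')) + (U (x, s') - U (x, s)) -
          (g s x - U (x, s)) := by abel
      rw [e]
      linarith [norm_sub_le ((g s' x - U (x, s')) + (U (x, s') - U (x, s))) (g s x - U (x, s)),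
        norm_add_le (g s' x - U (x, s')) (U (x, s') - U (x, s)), a4 x hx, b4 x hx, hcl x hx]
    · rcases hnr x hx y hy hxy with h | h | h
      · exfalso
        have c1 : μ ≤ ‖U (x, s) - U (y, s)‖ := hsep ((x, y), s) ⟨h, hs⟩
        have e : U (x, s) - U (y, s) = (g s x - g s y) - (g s x - U (x, s)) +
          (g s y - U (y, s)) := by abel
        rw [e] at c1
        nlinarith [norm_add_le ((g s x - g s y) - (g s x - U (x, s))) (g s y - U (y, s)),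
          norm_sub_le (g s x - g s y) (g s x - U (x, s)), a4 x hx.1, a4 y hy.1]
      · exact h
      · exact absurd (by rw [a3 h.1, b3 h.1, a3 h.2, b3 h.2, sub_self, sub_self]) hd
  have h0 : (0 : ℝ) ∈ Icc (0 : ℝ) 1 := ⟨le_rfl, zero_le_one⟩
  have h1' : (1 : ℝ) ∈ Icc (0 : ℝ) 1 := ⟨zero_le_one, le_rfl⟩
  have h2 := (isPreconnected_Icc (a := (0 : ℝ)) (b := 1)).induction₂'
    (fun s s' => Eqv Z C (g s) (g s'))
    (fun s hs => (key s hs).mono fun s' h => ⟨h, h.symm hCZ⟩)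
    (fun _ _ _ _ _ _ h h' => h.trans hCZ h') h0 h1'
  rwa [(hg 0 h0).2.2.2.2.1 rfl, (hg 1 h1').2.2.2.2.2 rfl] at h2

end BEp
end
end

-- merged part: Pool.Agent.Work.MP_f0515e_an.Pos.GV5
section
/-! TASK GV5. The phases.
Plan. phase: if j is inner, w' = w on Z (b = id on cl j inside In), Eqv.refl' and trans. If j is outer take Phi from Eqv w id; note w c = c on C and w = id on cl j and on Z1, so Phi fixes cl j
and Z1 pointwise. W (x, s) = Phi (U (phi_j x, s)), O = U j x Ioo 0 1, L = {l, far j l}; W O misses Z1 (av, Phi injective); frontier condition from far_disj and mix_inj for w'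
(at s = 1: Phi (b x) = y = Phi (w y) gives w' x = b x = w y = w' y); phase_deg; clear gives W'. patch (Y = R, Y0 = Icc 0 1) for G (x, s) = W' (x, s) - phi_j x gives
U' (z, s) = z + G' (z, s), a homotopy from id to Phi o w' on Z, static off car j. ae_principle with D = Ds gives Eqv id (Phi o w'); conclude Eqv w' id with the map
invFun Phi' o Phi (SG.inv, SG.comp; or Eqv.symm and Eqv.trans with Eqv w' (Phi o w')). v5: induction on n with S = {k, k.val < n}; S empty gives w = id on Z,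
S = univ gives w = b on Z (top_cov, fix). -/

open Set Metric Filter Topology Function BEv
open scoped NNReal

noncomputable section
namespace BEp

namespace Ctx
variable {m : ℕ} (X : Ctx m) {b : V m → V m} {U : V m × ℝ → V m}

theorem GV5_car (k : X.T) : (X.top k).car ⊆ (X.top k).cl := by
  rw [Cell.cl_eq]
  exact subset_union_left

theorem GV5_Z1 {S : Set X.T} {w : V m → V m} (hw : X.Mix b S w) {z : V m} (hz : z ∈ X.st.Z1) :
    w z = z :=
  hw.2.2 z (X.st.s1 hz) fun k _ hk => (X.st.top_sub k hk).2 hz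

theorem GV5_off {j : X.T} {w w' : V m → V m} (hw : X.Mix b {k | k < j} w)
    (hw' : X.Mix b {k | k ≤ j} w') {z : V m} (hz : z ∈ X.Z) (hj : z ∉ (X.top j).car) :
    w' z = w z := by
  by_cases hk : ∃ k, k < j ∧ z ∈ (X.top k).car
  · obtain ⟨k, h1, h2⟩ := hk
    rw [hw.2.1 k h1 (X.GV5_car k h2), hw'.2.1 k h1.le (X.GV5_car k h2)]
  · rw [hw.2.2 z hz fun k h1 h2 => hk ⟨k, h1, h2⟩]
    refine hw'.2.2 z hz fun k h1 h2 => ?_
    rcases lt_or_eq_of_le (show k ≤ j from h1) with h3 | h3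
    · exact hk ⟨k, h3, h2⟩
    · exact hj (h3 ▸ h2)

theorem GV5_cl {j : X.T} {w : V m → V m} (hw : X.Mix b {k | k < j} w) {z : V m}
    (hz : z ∈ (X.top j).cl) : w z = z :=
  hw.2.2 z (X.cl_sub j hz) fun _ h1 h2 =>
    disjoint_left.1 (X.cl_disj (ne_of_lt h1)) h2 hz

theorem phase (h : X.Cfg b U) (j : X.T)
    (h0 : ∀ l, X.far j l → X.outer j → ((j < l ∨ ¬ X.outer l) → X.bot U j l = 0) ∧
      (l < j → X.outer l → X.rgt b U l j = 0)) {w w' : V m → V m}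
    (hw : X.Mix b {k | k < j} w) (hw' : X.Mix b {k | k ≤ j} w') (he : Eqv X.Z X.C w id) :
    Eqv X.Z X.C w' id := by
  have hCZ : X.C ⊆ X.Z := X.hC1.trans X.st.s1
  by_cases hj : X.outer j
  swap
  · refine Eqv.trans hCZ (Eqv.refl' fun z hz => ?_) he
    by_cases hc : z ∈ (X.top j).car
    · have h1 := X.GV5_car j hc
      rw [X.GV5_cl hw h1, hw'.2.1 j (le_refl j) h1]
      exact h.fix z (Or.inr (X.inner_of_not_outer hj h1))
    · exact X.GV5_off hw hw' hz hc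
  obtain ⟨Φ, hΦ, hΦC, hΦw⟩ := he
  have hΦw' : ∀ z ∈ X.Z, Φ (w z) = z := hΦw
  have hinj : Injective Φ := hΦ.lh.1.1
  have hΦc : Continuous Φ := hΦ.lh.2.1.continuous
  have f1 : ∀ z ∈ X.st.Z1, Φ z = z := fun z hz => by
    have := hΦw' z (X.st.s1 hz)
    rwa [X.GV5_Z1 hw hz] at this
  have fj : ∀ z ∈ (X.top j).cl, Φ z = z := fun z hz => by
    have := hΦw' z (X.cl_sub j hz)
    rwa [X.GV5_cl hw hz] at this
  have hφ := (X.top j).cont
  have hU := h.cont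
  have hi' := X.mix_inj h.toEmb hw'
  obtain ⟨O, hO⟩ : ∃ O : Set ((Fin m → ℝ) × ℝ), O = (X.top j).U ×ˢ Ioo (0 : ℝ) 1 := ⟨_, rfl⟩
  obtain ⟨W, hW⟩ : ∃ W : (Fin m → ℝ) × ℝ → V m,
      W = fun p => Φ (U ((X.top j).φ p.1, p.2)) := ⟨_, rfl⟩
  have hOo : IsOpen O := hO ▸ (X.top j).op.prod isOpen_Ioo
  have hWb : ∀ x ∈ frontier (X.top j).U, ∀ s ∈ Icc (0 : ℝ) 1, W (x, s) = (X.top j).φ x := by
    intro x hx s hs
    have h1 : (X.top j).φ x ∈ X.st.Z1 := X.st.top_bd j (mem_image_of_mem _ hx)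
    rw [hW]
    beta_reduce
    rw [h.stat _ (Or.inl h1) s hs, f1 _ h1]
  have hW0 : ∀ x ∈ closure (X.top j).U, W (x, 0) = (X.top j).φ x := by
    intro x hx
    have h1 : (X.top j).φ x ∈ (X.top j).cl := mem_image_of_mem _ hx
    rw [hW]
    beta_reduce
    rw [h.u0 _ (X.cl_sub j h1), fj _ h1]
  have hW1 : ∀ x ∈ closure (X.top j).U, W (x, 1) = Φ (w' ((X.top j).φ x)) := by
    intro x hx
    have h1 : (X.top j).φ x ∈ (X.top j).cl := mem_image_of_mem _ hx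
    rw [hW]
    beta_reduce
    rw [h.u1 _ (X.cl_sub j h1), hw'.2.1 j (le_refl j) h1]
  have hWf : ∀ l ∈ {l | X.far j l}, ∀ p ∈ frontier O, W p ∉ (X.top l).cl := by
    rintro l hl ⟨x, s⟩ hp hy
    have hd := disjoint_left.1 (X.far_disj hl)
    rw [hO, frontier_prod_eq, frontier_Ioo zero_lt_one, closure_Ioo zero_ne_one] at hp
    rcases hp with ⟨hx, hs⟩ | ⟨hx, hs⟩
    · have h1 : (X.top j).φ x ∈ (X.top j).cl := mem_image_of_mem _ hx
      rcases hs with hs | hs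
      · obtain rfl : s = 0 := hs
        rw [hW0 x hx] at hy
        exact hd h1 hy
      · obtain rfl : s = 1 := hs
        have hz := X.cl_sub l hy
        have h2 := hΦw' _ hz
        have h3 := X.GV5_off hw hw' hz fun hc => hd (X.GV5_car j hc) hy
        rw [← h3] at h2
        have h4 := hi' hz (X.cl_sub j h1) (hinj (h2.trans (hW1 x hx)))
        exact hd h1 (h4 ▸ hy)
    · rw [hWb x hx s hs] at hy
      exact hd (mem_image_of_mem _ (frontier_subset_closure hx)) hy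
  obtain ⟨W', c1, c2, c3⟩ := X.clear hOo
    (hO ▸ (X.top j).bdd.prod (Metric.isBounded_Ioo 0 1))
    (hO ▸ (X.top j).conv.prod (convex_Ioo 0 1)) {l | X.far j l} (W := W)
    (by rw [hW]; fun_prop)
    (by
      rintro ⟨x, s⟩ hp hy
      rw [hO] at hp
      have h1 := f1 _ hy
      rw [hW] at h1 hy
      beta_reduce at h1 hy
      have h2 := hinj h1
      exact h.av _ (X.st.top_sub j (mem_image_of_mem _ hp.1)) s (Ioo_subset_Icc_self hp.2)
        (h2 ▸ hy))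
    hWf
    (by
      intro l hl
      rw [hO, hW]
      exact X.phase_deg h hl hj (h0 l hl hj).1 (h0 l hl hj).2 hw hΦ hΦw')
  have c4 : ∀ l, X.far j l → ∀ x ∈ (X.top j).U, ∀ s ∈ Icc (0 : ℝ) 1,
      W' (x, s) ∉ (X.top l).cl := by
    intro l hl x hx s hs
    by_cases hp : (x, s) ∈ O
    · exact c3 l hl _ hp
    · rw [c2 _ hp]
      refine hWf l hl _ ?_
      rw [hOo.frontier_eq]
      refine ⟨?_, hp⟩
      rw [hO, closure_prod_eq, closure_Ioo zero_ne_one]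
      exact ⟨subset_closure hx, hs⟩
  obtain ⟨G, g1, g2, g3⟩ := X.patch j (Y := ℝ) (Y0 := Icc 0 1) isClosed_Icc
    (G := fun p => W' p - (X.top j).φ p.1) (by fun_prop) (by
      intro x hx s hs
      have hp : (x, s) ∉ O := by
        rw [hO]
        rw [(X.top j).op.frontier_eq] at hx
        exact fun hc => hx.2 hc.1
      beta_reduce
      rw [c2 _ hp, hWb x hx s hs, sub_self])
  have u1 : ∀ x ∈ (X.top j).U, ∀ s ∈ Icc (0 : ℝ) 1,
      (X.top j).φ x + G ((X.top j).φ x, s) = W' (x, s) := by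
    intro x hx s hs
    rw [g2 x (subset_closure hx) s hs]
    exact add_sub_cancel _ _
  have u2 : ∀ z ∈ X.Z, z ∉ (X.top j).car → ∀ s ∈ Icc (0 : ℝ) 1, z + G (z, s) = z := by
    intro z hz hc s hs
    rw [g3 z ⟨hz, hc⟩ s hs, add_zero]
  have key : ∀ k l, X.far k l → ∀ x ∈ (X.top k).cl, ∀ y ∈ (X.top l).cl, x ∈ (X.top j).car →
      ∀ s ∈ Icc (0 : ℝ) 1, x + G (x, s) ≠ y + G (y, s) := by
    intro k l hf x hx y hy hc s hs
    obtain rfl : j = k := by
      by_contra hn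
      exact disjoint_left.1 (X.cl_disj hn) hc hx
    obtain ⟨x0, hx0, rfl⟩ := hc
    rw [u1 x0 hx0 s hs, u2 y (X.cl_sub l hy)
      (fun hc => disjoint_left.1 (X.far_disj hf) (X.GV5_car j hc) hy) s hs]
    exact fun e => c4 l hf x0 hx0 s hs (e ▸ hy)
  have hE : Eqv X.Z X.C id (fun z => Φ (w' z)) := by
    refine ae_principle X.hm X.hZ X.hpc X.hC X.hC1 X.st.s1 X.st.pc1 X.hIn X.hIZ X.hnb TP.id'
      (hΦ.lh.2.1.comp hw'.1) (injOn_id _) (fun x hx y hy e => hi' hx hy (hinj e))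
      (U := fun p => p.1 + G p) (by fun_prop) (fun z hz => ?_) (fun z hz => ?_)
      (fun z hz s hs => ?_) X.Ds_compact ?_ X.Ds_sub X.Ds_nr
    · by_cases hc : z ∈ (X.top j).car
      · obtain ⟨x, hx, rfl⟩ := hc
        refine (u1 x hx 0 (left_mem_Icc.2 zero_le_one)).trans ?_
        rw [c2 _ (by rw [hO]; exact fun hc => lt_irrefl _ hc.2.1), hW0 x (subset_closure hx)]
        rfl
      · exact u2 z hz hc 0 (left_mem_Icc.2 zero_le_one)
    · by_cases hc : z ∈ (X.top j).car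
      · obtain ⟨x, hx, rfl⟩ := hc
        refine (u1 x hx 1 (right_mem_Icc.2 zero_le_one)).trans ?_
        rw [c2 _ (by rw [hO]; exact fun hc => lt_irrefl _ hc.2.2), hW1 x (subset_closure hx)]
      · refine (u2 z hz hc 1 (right_mem_Icc.2 zero_le_one)).trans ?_
        beta_reduce
        rw [X.GV5_off hw hw' hz hc, hΦw' z hz]
    · exact u2 z (X.hIZ hz) (fun hc => disjoint_left.1 hj hc hz) s hs
    · rintro ⟨x, y⟩ ⟨k, l, hf, hx, hy⟩ s hs
      by_cases hc : x ∈ (X.top j).car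
      · exact key k l hf x hx y hy hc s hs
      by_cases hc' : y ∈ (X.top j).car
      · exact (key l k (X.far_symm hf) y hy x hx hc' s hs).symm
      have e1 := u2 x (X.cl_sub k hx) hc s hs
      have e2 := u2 y (X.cl_sub l hy) hc' s hs
      intro e
      exact disjoint_left.1 (X.far_disj hf) hx ((e1.symm.trans (e.trans e2)) ▸ hy)
  refine Eqv.trans hCZ ⟨Φ, hΦ, fun c hc => ?_, fun _ _ => rfl⟩ (hE.symm hCZ)
  have := hΦC c hc
  rwa [X.GV5_Z1 hw (X.hC1 hc), ← X.GV5_Z1 hw' (X.hC1 hc)] at this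

theorem v5 (h : X.Cfg b U)
    (h0 : ∀ j l, X.far j l → X.outer j → ((j < l ∨ ¬ X.outer l) → X.bot U j l = 0) ∧
      (l < j → X.outer l → X.rgt b U l j = 0)) : Eqv X.Z X.C b id := by
  have hCZ : X.C ⊆ X.Z := X.hC1.trans X.st.s1
  have key : ∀ n, n ≤ X.st.nT → ∀ w, X.Mix b {k | k.val < n} w → Eqv X.Z X.C w id := by
    intro n
    induction n with
    | zero =>
      exact fun _ w hw => Eqv.refl' fun z hz => hw.2.2 z hz fun k hk => absurd hk (Nat.not_lt_zero _)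
    | succ n ih =>
      intro hn w hw
      obtain ⟨w0, hw0⟩ := X.exists_mix h.toEmb {k | k.val < n}
      refine X.phase h ⟨n, hn⟩ (h0 _) (w := w0) hw0 ?_ (ih (by omega) w0 hw0)
      have e : {k : X.T | k ≤ ⟨n, hn⟩} = {k | k.val < n + 1} :=
        Set.ext fun k => Nat.lt_succ_iff.symm
      rw [e]
      exact hw
  obtain ⟨w, hw⟩ := X.exists_mix h.toEmb {k | k.val < X.st.nT}
  refine Eqv.trans hCZ (Eqv.refl' fun z hz => ?_) (key _ le_rfl w hw)
  by_cases h1 : z ∈ X.st.Z1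
  · rw [X.GV5_Z1 hw h1]
    exact h.fix z (Or.inl h1)
  · obtain ⟨k, hk⟩ := X.st.top_cov z ⟨hz, h1⟩
    exact (hw.2.1 k k.isLt (X.GV5_car k hk)).symm

end Ctx

end BEp
end
end
end

-- merged part: Pool.Agent.Work.MP_f0515e_an.Pos.GT
section
-- merged part: Pool.Agent.Work.MP_f0515e_an.Pos.GP0a
section
/-! TASK GP0a. Phase 0, first step: move the codimension one skeleton to its place.
Plan. X1 = Z1 u In (Poly). eta > 0 with x in Z, infDist x In < eta => x in N (In compact, N open; if In is empty any eta).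
lam from exists_sep (X := X1) (St := In). Family u_r x = b x + r (x - b x) + r (1 - r) sum lam_j x w_j, written as fam with
index Fin n + Option (Fin n): scalars (x - b x) l with vectors r e_l, scalars lam_j with vectors r (1 - r) w_j.
gp on P = (Z1 x Z1 u Z1 x In u In x Z1) x Ioo 0 1 (Sm (2m), use PC.sm, hpc, Sm.prod, m - 1 + m + 1 = 2m), scalars
r (1 - r) (lam_j x - lam_j y), gives w with no double point having lam x != lam y; pairs in In x In are static; pairs with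
lam x = lam y are equal or both in N where u_r x - u_r y = x - y. r = 0: b injective, r = 1: identity. Then ie_germ on X1
(all scalars vanish on In, which is a neighbourhood of c in Z hence in X1; b c = c). -/

open Set Metric Filter Topology Function BEv
open scoped NNReal

noncomputable section
namespace BEp

theorem GP0a_ll {E F G : Type} [NormedAddCommGroup E] [NormedSpace ℝ E] [NormedAddCommGroup F]
    [NormedSpace ℝ F] [NormedAddCommGroup G] [NormedSpace ℝ G] {g : F → G} {f : E → F}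
    (hg : ContDiff ℝ 1 g) (hf : TP f) (P : Set E) : LocallyLipschitzOn P fun x => g (f x) := by
  obtain ⟨L, hL⟩ := hf.lip
  exact (hg.locallyLipschitz.comp hL.locallyLipschitz).locallyLipschitzOn

theorem GP0a_gen {m : ℕ} (X : Ctx m) {b : V m → V m} (hb : TP b) {κ : Type} [Fintype κ]
    {lam : κ → V m → ℝ} (hl : ∀ j, TP (lam j)) :
    ∃ w : κ → V m, ∀ r ∈ Ioo (0 : ℝ) 1, ∀ x ∈ X.st.Z1, ∀ y ∈ X.Z,
      b x + r • (x - b x) + ∑ j, lam j x • (r * (1 - r)) • w j =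
        b y + r • (y - b y) + ∑ j, lam j y • (r * (1 - r)) • w j → ∀ j, lam j x = lam j y := by
  have t1 : TP fun p : (V m × V m) × ℝ => p.1.1 := TP.id'.fst.fst
  have t2 : TP fun p : (V m × V m) × ℝ => p.1.2 := TP.id'.fst.snd
  have t3 : TP fun p : (V m × V m) × ℝ => p.2 := TP.id'.snd
  have hm := X.hm
  obtain ⟨w, -, hw⟩ := Thin.exists_near (gp ((X.st.pc1.sm.prod X.hpc.sm).prod (Sm.real (Ioo 0 1)))
    (GP0a_ll (g := fun q : V m × V m × ℝ => q.1 + q.2.2 • q.2.1) (by fun_prop)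
      (((hb.comp t1).sub (hb.comp t2)).prod
        (((t1.sub (hb.comp t1)).sub (t2.sub (hb.comp t2))).prod t3)) _)
    (fun j => GP0a_ll (g := fun q : ℝ × ℝ => q.1 * (q.2 * (1 - q.2))) (by fun_prop)
      ((((hl j).comp t1).sub ((hl j).comp t2)).prod t3) _) (by simp; omega)) 0 one_pos
  refine ⟨w, fun r hr x hx y hy e j => by_contra fun hj => hw ⟨((x, y), r), ⟨⟨hx, hy⟩, hr⟩,
    ⟨j, mul_ne_zero (sub_ne_zero.2 hj) (mul_pos hr.1 (sub_pos.2 hr.2)).ne'⟩, ?_⟩⟩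
  rw [← sub_eq_zero.2 e]
  simp only [fam, smul_smul, sub_mul, sub_smul, Finset.sum_sub_distrib, smul_sub]
  abel

theorem Ctx.p0a {m : ℕ} (X : Ctx m) {b : V m → V m} (hb : TP b) (hib : InjOn b X.Z)
    {N : Set (V m)} (hN : IsOpen N) (hIN : X.In ⊆ N) (hbN : ∀ x ∈ X.Z ∩ N, b x = x) :
    ∃ Φ : V m × ℝ → V m, Continuous Φ ∧ (∀ z, Φ (z, 0) = z) ∧
      (∀ r ∈ Icc (0 : ℝ) 1, SG (fun z => Φ (z, r)) ∧ ∀ x ∈ X.In, Φ (x, r) = x) ∧
      (∀ c ∈ X.C, (fun z => Φ (z, 1)) =ᶠ[𝓝 c] id) ∧ ∀ x ∈ X.st.Z1, Φ (b x, 1) = x := by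
  have hX : Poly (X.st.Z1 ∪ X.In) := X.st.p1.union X.hIn
  have hXZ : X.st.Z1 ∪ X.In ⊆ X.Z := union_subset X.st.s1 X.hIZ
  obtain ⟨η, hη, hηN⟩ := X.hIn.1.exists_thickening_subset_open hN hIN
  obtain ⟨lam, l1, l2, l3⟩ := exists_sep hX X.hIn hη
  obtain ⟨w, hw⟩ := GP0a_gen X hb l1
  have bI : ∀ x ∈ X.In, b x = x := fun x hx => hbN x ⟨X.hIZ hx, hIN hx⟩
  have e : ∀ (r : ℝ) x, fam b (Sum.elim (fun l x => (x - b x) l) lam)
      (Sum.elim (fun l => r • Pi.single l 1) fun j => (r * (1 - r)) • w j) x =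
      b x + r • (x - b x) + ∑ j, lam j x • (r * (1 - r)) • w j := by
    intro r x
    rw [← congrFun (plie_fam b (fun x => x - b x) r) x]
    simp only [fam, Fintype.sum_sum_type, Sum.elim_inl, Sum.elim_inr, add_assoc]
  have eI : ∀ (r : ℝ), ∀ x ∈ X.In,
      b x + r • (x - b x) + ∑ j, lam j x • (r * (1 - r)) • w j = x := by
    intro r x hx
    simp [bI x hx, l2 x hx]
  have key : ∀ r ∈ Ioo (0 : ℝ) 1, ∀ x ∈ X.st.Z1, ∀ y ∈ X.st.Z1 ∪ X.In,
      b x + r • (x - b x) + ∑ j, lam j x • (r * (1 - r)) • w j =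
        b y + r • (y - b y) + ∑ j, lam j y • (r * (1 - r)) • w j → x = y := by
    intro r hr x hx y hy h
    have h1 := hw r hr x hx y (hXZ hy) h
    rcases l3 x (Or.inl hx) y hy h1 with h2 | ⟨h2, h3, h4⟩
    · exact h2
    · simpa [h1, hbN x ⟨X.st.s1 hx, hηN ((mem_thickening_iff_infDist_lt h2).2 h3)⟩,
        hbN y ⟨hXZ hy, hηN ((mem_thickening_iff_infDist_lt h2).2 h4)⟩] using h
  obtain ⟨Φ, h1, h2, h3⟩ := ie_germ hX X.hC (X.hC1.trans subset_union_left) hb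
    (lam := Sum.elim (fun l x => (x - b x) l) lam)
    (w := fun r => Sum.elim (fun l => r • Pi.single l 1) fun j => (r * (1 - r)) • w j)
    (fun j => by
      cases j with
      | inl l => exact (TP.id'.sub hb).apply l
      | inr j => exact l1 j)
    (continuous_pi fun j => by cases j <;> simp only [Sum.elim_inl, Sum.elim_inr] <;> fun_prop)
    (fun r hr x hx y hy h => by
      rw [e, e] at h
      rcases hr.1.eq_or_lt with rfl | h0
      · exact hib (hXZ hx) (hXZ hy) (by simpa using h)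
      rcases hr.2.eq_or_lt with rfl | h1
      · simpa using h
      rcases hx with hx | hx
      · exact key r ⟨h0, h1⟩ x hx y hy h
      rcases hy with hy | hy
      · exact (key r ⟨h0, h1⟩ y hy x (Or.inr hx) h.symm).symm
      · rwa [eI r x hx, eI r y hy] at h)
    (fun c hc => mem_of_superset (nhdsWithin_mono c hXZ (X.hnb c hc)) fun x hx j => by
      cases j with
      | inl l => simp [bI x hx]
      | inr j => exact l2 x hx j)
  refine ⟨Φ, h1, h2, fun r hr => ⟨(h3 r hr).1, fun x hx => ?_⟩, fun c hc => ?_, fun x hx => ?_⟩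
  · have := (h3 r hr).2.2 x (Or.inr hx)
    rwa [e, e, eI _ x hx, eI _ x hx] at this
  · have := (h3 1 (right_mem_Icc.2 zero_le_one)).2.1 c hc
    rwa [bI c (mem_of_mem_nhdsWithin (X.st.s1 (X.hC1 hc)) (X.hnb c hc))] at this
  · have := (h3 1 (right_mem_Icc.2 zero_le_one)).2.2 x (Or.inl hx)
    rw [e, e] at this
    simpa using this

end BEp
end
end

-- merged part: Pool.Agent.Work.MP_f0515e_an.Pos.GP0
section
/-! TASK GP0. Phase 0 and the initial homotopy.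
Plan. transport: H (p, r) = Phi (b p.1, r) - Phi (b p.2, r) is odd and nonzero on D (b p.1 != b p.2 because Psi (p, 1) != 0, SG maps
are injective by SG.lh); take cat Psi H (OH.cat, cat_left, cat_right). p0: apply p0a, transport, p0b, transport; b'' is TP by
SG.lh; points of C lie in In (hnb, mem_of_mem_nhdsWithin). exists_cfg: U (x, s) = (1 - s) x + s b x + s (1 - s) chi x w with
chi = infDist . (Z1 u In), gp1 on P = (Z x Ioo 0 1) x Z1 (dimension m + 1 + (m - 1) = 2m); if Z1 is empty there is nothing to avoid;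
a point of In minus Z1 is static. -/

open Set Metric Filter Topology Function BEv
open scoped NNReal

noncomputable section
namespace BEp

theorem transport {m : ℕ} {D : Set (V m × V m)} {b : V m → V m} (hb : Continuous b)
    {Ψ : (V m × V m) × ℝ → V m} (hΨ : OH D (tl id) (tl b) Ψ) {Φ : V m × ℝ → V m}
    (hΦ : Continuous Φ) (h0 : ∀ z, Φ (z, 0) = z)
    (hi : ∀ r ∈ Icc (0 : ℝ) 1, Injective fun z => Φ (z, r)) :
    ∃ Ψ', OH D (tl id) (tl fun x => Φ (b x, 1)) Ψ' ∧ ∀ p ∈ D,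
      (∀ s ∈ Icc (0 : ℝ) 1, Ψ (p, s) = p.1 - p.2 ∧ Φ (b p.1, s) = p.1 ∧ Φ (b p.2, s) = p.2) →
      ∀ s ∈ Icc (0 : ℝ) 1, Ψ' (p, s) = p.1 - p.2 := by
  have hH : OH D (tl b) (tl fun x => Φ (b x, 1))
      fun q => Φ (b q.1.1, q.2) - Φ (b q.1.2, q.2) := by
    refine ⟨by fun_prop, fun p s => by simp, fun p hp s hs h => ?_, fun p _ => by simp [h0, tl],
      fun p _ => rfl⟩
    have h1 : b p.1 = b p.2 := hi s hs (sub_eq_zero.1 h)
    refine hΨ.ne p hp 1 ⟨zero_le_one, le_rfl⟩ ?_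
    rw [hΨ.one p hp, tl, h1, sub_self]
  refine ⟨_, hΨ.cat hH, fun p hp h s hs => ?_⟩
  rcases le_total s (1 / 2) with h1 | h1
  · rw [cat_left _ _ _ h1]
    exact (h _ ⟨by linarith [hs.1], by linarith⟩).1
  · rw [cat_right ((hΨ.one p hp).trans (hH.zero p hp).symm) h1]
    obtain ⟨-, h2, h3⟩ := h (2 * s - 1) ⟨by linarith, by linarith [hs.2]⟩
    simp only [h2, h3]

theorem Ctx.p0 {m : ℕ} (X : Ctx m) {b : V m → V m} (hb : TP b) (hib : InjOn b X.Z)
    {N : Set (V m)} (hN : IsOpen N) (hIN : X.In ⊆ N) (hbN : ∀ x ∈ X.Z ∩ N, b x = x)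
    {D : Set (V m × V m)} {Ψ : (V m × V m) × ℝ → V m} (hΨ : OH D (tl id) (tl b) Ψ) :
    ∃ b' Ψ', X.Emb b' ∧ Eqv X.Z X.C b b' ∧ OH D (tl id) (tl b') Ψ' ∧
      ∀ p ∈ D, p.1 ∈ X.In → p.2 ∈ X.In → (∀ s ∈ Icc (0 : ℝ) 1, Ψ (p, s) = p.1 - p.2) →
        ∀ s ∈ Icc (0 : ℝ) 1, Ψ' (p, s) = p.1 - p.2 := by
  have i1 : (1 : ℝ) ∈ Icc (0 : ℝ) 1 := ⟨zero_le_one, le_rfl⟩
  have hCZ : X.C ⊆ X.Z := X.hC1.trans X.st.s1
  have hCI : X.C ⊆ X.In := fun c hc => mem_of_mem_nhdsWithin (hCZ hc) (X.hnb c hc)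
  have hbI : ∀ x ∈ X.In, b x = x := fun x hx => hbN x ⟨X.hIZ hx, hIN hx⟩
  obtain ⟨Φ, c1, z1, g1, e1, f1⟩ := X.p0a hb hib hN hIN hbN
  obtain ⟨Ψ1, o1, s1⟩ := transport hb.continuous hΨ c1 z1 fun r hr => (g1 r hr).1.lh.inj
  have t1 : TP fun x => Φ (b x, 1) := (g1 1 i1).1.lh.tp.comp hb
  have j1 : InjOn (fun x => Φ (b x, 1)) X.Z := fun x hx y hy h =>
    hib hx hy ((g1 1 i1).1.lh.inj h)
  have k1 : ∀ x ∈ X.st.Z1 ∪ X.In, Φ (b x, 1) = x := by
    rintro x (hx | hx)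
    · exact f1 x hx
    · rw [hbI x hx, (g1 1 i1).2 x hx]
  obtain ⟨Θ, c2, z2, g2, e2, f2⟩ := X.p0b t1 j1 k1
  obtain ⟨Ψ2, o2, s2⟩ := transport t1.continuous o1 c2 z2 fun r hr => (g2 r hr).1.lh.inj
  refine ⟨_, Ψ2, ⟨(g2 1 i1).1.lh.tp.comp t1, fun x hx y hy h => j1 hx hy ((g2 1 i1).1.lh.inj h),
    fun x hx => ?_, f2⟩, Eqv.trans (u' := fun x => Φ (b x, 1)) hCZ
      ⟨_, (g1 1 i1).1, fun c hc => ?_, fun _ _ => rfl⟩
      ⟨_, (g2 1 i1).1, fun c hc => ?_, fun _ _ => rfl⟩, o2, fun p hp h1 h2 h => ?_⟩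
  · rw [k1 x hx, (g2 1 i1).2 x hx]
  · rw [hbI c (hCI hc)]
    exact e1 c hc
  · simp only [k1 c (Or.inr (hCI hc))]
    exact e2 c hc
  · refine s2 p hp fun s hs => ⟨s1 p hp (fun r hr => ⟨h r hr, ?_, ?_⟩) s hs, ?_, ?_⟩
    · rw [hbI _ h1, (g1 r hr).2 _ h1]
    · rw [hbI _ h2, (g1 r hr).2 _ h2]
    · rw [k1 _ (Or.inr h1), (g2 s hs).2 _ (Or.inr h1)]
    · rw [k1 _ (Or.inr h2), (g2 s hs).2 _ (Or.inr h2)]

theorem Ctx.exists_cfg {m : ℕ} (X : Ctx m) {b : V m → V m} (hb : X.Emb b) :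
    ∃ U, X.Cfg b U := by
  obtain ⟨L, hL⟩ := hb.tp.lip
  have hm := X.hm
  have hcl : IsClosed (X.st.Z1 ∪ X.In) := X.st.p1.1.isClosed.union X.hIn.1.isClosed
  have hP : Sm (m + 1 + (m - 1)) ((X.Z ×ˢ Ioo (0 : ℝ) 1) ×ˢ X.st.Z1) :=
    (X.hpc.sm.prod (Sm.real _)).prod X.st.pc1.sm
  have l0 : LocallyLipschitz fun p : (V m × ℝ) × V m => p.1.1 :=
    (LipschitzWith.prod_fst.comp LipschitzWith.prod_fst).locallyLipschitz
  have l1 : LocallyLipschitz fun p : (V m × ℝ) × V m =>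
      (1 - p.1.2) • p.1.1 + p.1.2 • b p.1.1 - p.2 := by
    have := (ContDiff.locallyLipschitz (𝕂 := ℝ) (f := fun q : ((V m × ℝ) × V m) × V m =>
      (1 - q.1.1.2) • q.1.1.1 + q.1.1.2 • q.2 - q.1.2) (by fun_prop)).comp
      (LocallyLipschitz.id.prodMk (hL.locallyLipschitz.comp l0))
    exact this
  have l2 : LocallyLipschitz fun p : (V m × ℝ) × V m =>
      p.1.2 * (1 - p.1.2) * infDist p.1.1 (X.st.Z1 ∪ X.In) := by
    have := (ContDiff.locallyLipschitz (𝕂 := ℝ) (f := fun q : ((V m × ℝ) × V m) × ℝ =>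
      q.1.1.2 * (1 - q.1.1.2) * q.2) (by fun_prop)).comp
      (LocallyLipschitz.id.prodMk
        ((lipschitz_infDist_pt (X.st.Z1 ∪ X.In)).locallyLipschitz.comp l0))
    exact this
  obtain ⟨w, -, hw⟩ := Thin.exists_near (gp1 hP l1.locallyLipschitzOn l2.locallyLipschitzOn
    (by rw [Module.finrank_fin_fun]; omega)) 0 one_pos
  have hc := hb.tp.continuous
  have hd := continuous_infDist_pt (X.st.Z1 ∪ X.In)
  have hs : ∀ x ∈ X.st.Z1 ∪ X.In, ∀ s : ℝ, (1 - s) • x + s • b x +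
      (s * (1 - s) * infDist x (X.st.Z1 ∪ X.In)) • w = x := fun x hx s => by
    rw [hb.fix x hx, infDist_zero_of_mem hx, ← add_smul]
    simp
  refine ⟨fun q => (1 - q.2) • q.1 + q.2 • b q.1 +
    (q.2 * (1 - q.2) * infDist q.1 (X.st.Z1 ∪ X.In)) • w, hb, by fun_prop, fun x _ => by simp,
    fun x _ => by simp, fun x hx s _ => hs x hx s, fun x hx s hs' h => ?_⟩
  by_cases hI : x ∈ X.In
  · have h1 := hs x (Or.inr hI) s
    simp only at h
    rw [h1] at h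
    exact hx.2 h
  have hx' : x ∉ X.st.Z1 ∪ X.In := fun h => h.elim hx.2 hI
  rcases hs'.1.eq_or_lt with rfl | h0
  · exact hx.2 (by simpa using h)
  rcases hs'.2.eq_or_lt with rfl | h1
  · exact hb.off x ⟨hx.1, hx'⟩ (X.st.s1 (by simpa using h))
  refine hw ⟨((x, s), _), ⟨⟨hx.1, h0, h1⟩, h⟩, ?_, ?_⟩
  · have := (hcl.notMem_iff_infDist_pos ⟨_, Or.inl h⟩).1 hx'
    have h2 : 0 < 1 - s := sub_pos.2 h1
    positivity
  · simp only
    abel

end BEp
end
end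

-- merged part: Pool.Agent.Work.MP_f0515e_an.Pos.GV3c
section
/-! TASK GV3c. Extending the square over one pair (mid cell, outer top cell).
Plan. O' = U e x (U t x Ioo 0 1), pi (y, (x, s)) = ((phi_e y, phi_t x), s). k q = K (pi q.1, q.2) is admissible on O' x Ioo 0 1 (frontier pairs are in A by
hbd; r = 0: points of cl e are static and U avoids Z1; r = 1: Psi; s = 0, 1). finger_mid with d = deg k. Mt ((p, s), r) = M ((p.1, s), r) - M ((p.2, s), r),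
K1 = cat (rev Mt) K is a square for U' = M (., 1) over A (hA and Symm A: if p.2 is in car t then p.1 is a static point of Z1 minus car e). Its pull back has
degree - d + d = 0 (deg_cat, deg_rev, deg_congr; on cl e the map M is the identity). hopf on the convex set O' x Ioo 0 1 gives v. glue_odd with invariant closed
set (A x I x I) u (D x boundary of the square) carrying K1 and B = (cl e x cl t) x I x I carrying v composed with the left inverses of the charts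
(Cell.exists_inv); a point of B in the first set comes from the frontier; B meets its mirror image only in pairs of Z1 x Z1, which are in A by hbd. -/

open Set Metric Filter Topology Function BEv
open scoped NNReal

noncomputable section
namespace BEp

/-- The parameter domain. -/
def GV3c_O {m : ℕ} (c : Cell (m - 1) (V m)) (c' : Cell m (V m)) :
    Set ((Fin (m - 1) → ℝ) × ((Fin m → ℝ) × ℝ)) := c.U ×ˢ (c'.U ×ˢ Ioo (0 : ℝ) 1)

/-- The chart of the pairs. -/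
def GV3c_pi {m : ℕ} (c : Cell (m - 1) (V m)) (c' : Cell m (V m))
    (q : (Fin (m - 1) → ℝ) × ((Fin m → ℝ) × ℝ)) : (V m × V m) × ℝ :=
  ((c.φ q.1, c'.φ q.2.1), q.2.2)

section
variable {m : ℕ} (c : Cell (m - 1) (V m)) (c' : Cell m (V m))

theorem GV3c_open : IsOpen (GV3c_O c c' ×ˢ Ioo (0 : ℝ) 1) :=
  (c.op.prod (c'.op.prod isOpen_Ioo)).prod isOpen_Ioo

theorem GV3c_clO : closure (GV3c_O c c') = closure c.U ×ˢ (closure c'.U ×ˢ Icc (0 : ℝ) 1) := by
  rw [GV3c_O, closure_prod_eq, closure_prod_eq, closure_Ioo zero_ne_one]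

theorem GV3c_cl : closure (GV3c_O c c' ×ˢ Ioo (0 : ℝ) 1) =
    (closure c.U ×ˢ (closure c'.U ×ˢ Icc (0 : ℝ) 1)) ×ˢ Icc (0 : ℝ) 1 := by
  rw [closure_prod_eq, GV3c_clO, closure_Ioo zero_ne_one]

theorem GV3c_cont : Continuous (GV3c_pi c c') :=
  ((c.cont.comp continuous_fst).prodMk (c'.cont.comp continuous_snd.fst)).prodMk
    continuous_snd.snd

theorem GV3c_end {s : ℝ} (hs : s ∈ Icc (0 : ℝ) 1) (h : s ∉ Ioo (0 : ℝ) 1) : s = 0 ∨ s = 1 := by
  rcases hs.1.eq_or_lt with e | e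
  · exact Or.inl e.symm
  · exact Or.inr (hs.2.eq_or_lt.resolve_right fun e' => h ⟨e, e'⟩)

theorem GV3c_adm {A : Set (V m × V m)}
    (hbd : ∀ x ∈ c.cl, ∀ y ∈ c'.cl, x ∈ c.bd ∨ y ∈ c'.bd → (x, y) ∈ A)
    {F : ((V m × V m) × ℝ) × ℝ → V m} (hF : Continuous F)
    (h : ∀ x ∈ c.cl, ∀ y ∈ c'.cl, ∀ s ∈ Icc (0 : ℝ) 1, ∀ r ∈ Icc (0 : ℝ) 1,
      (x, y) ∈ A ∨ s = 0 ∨ s = 1 ∨ r = 0 ∨ r = 1 → F (((x, y), s), r) ≠ 0) :
    Adm (GV3c_O c c' ×ˢ Ioo (0 : ℝ) 1) (fun q => F (GV3c_pi c c' q.1, q.2)) := by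
  refine ⟨GV3c_open c c', (c.bdd.prod (c'.bdd.prod (isBounded_Ioo 0 1))).prod (isBounded_Ioo 0 1),
    hF.comp (((GV3c_cont c c').comp continuous_fst).prodMk continuous_snd), fun q hq => ?_⟩
  rw [(GV3c_open c c').frontier_eq, GV3c_cl] at hq
  obtain ⟨⟨⟨h1, h2, h3⟩, h4⟩, h5⟩ := hq
  have hx : c.φ q.1.1 ∈ c.cl := ⟨_, h1, rfl⟩
  have hy : c'.φ q.1.2.1 ∈ c'.cl := ⟨_, h2, rfl⟩
  refine h _ hx _ hy _ h3 _ h4 ?_
  by_cases a1 : q.1.1 ∈ c.U
  · by_cases a2 : q.1.2.1 ∈ c'.U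
    · by_cases a3 : q.1.2.2 ∈ Ioo (0 : ℝ) 1
      · exact Or.inr (Or.inr (Or.inr (GV3c_end h4 fun a4 => h5 ⟨⟨a1, a2, a3⟩, a4⟩)))
      · exact Or.inr ((GV3c_end h3 a3).imp_right Or.inl)
    · exact Or.inl (hbd _ hx _ hy (Or.inr ⟨_, c'.op.frontier_eq ▸ ⟨h2, a2⟩, rfl⟩))
  · exact Or.inl (hbd _ hx _ hy (Or.inl ⟨_, c.op.frontier_eq ▸ ⟨h1, a1⟩, rfl⟩))

end

theorem GV3c_rank {m : ℕ} (hm : 2 ≤ m) :
    Module.finrank ℝ (((Fin (m - 1) → ℝ) × ((Fin m → ℝ) × ℝ)) × ℝ) = Module.finrank ℝ (V m) := by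
  simp only [Module.finrank_prod, Module.finrank_fin_fun, Module.finrank_self]
  omega

/-- Concatenation of a square with a reversed homotopy of configurations. -/
theorem GV3c_sq {m : ℕ} {b : V m → V m} {U U' : V m × ℝ → V m}
    {D A : Set (V m × V m)} {Ψ : (V m × V m) × ℝ → V m} {K L : ((V m × V m) × ℝ) × ℝ → V m}
    (hK : Ctx.Sq D A b U Ψ K) (hL : Ctx.Sq D A b U (fun q => U' (q.1.1, q.2) - U' (q.1.2, q.2)) L)
    (hAD : A ⊆ D) : Ctx.Sq D A b U' Ψ (cat (rev L) K) := by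
  have j : ∀ p ∈ D, ∀ s ∈ Icc (0 : ℝ) 1, rev L ((p, s), 1) = K ((p, s), 0) := fun p hp s hs => by
    rw [hK.r0 p hp s hs, ← hL.r0 p hp s hs]
    exact congrArg (fun r => L ((p, s), r)) (sub_self 1)
  have key : ∀ p ∈ D, ∀ s ∈ Icc (0 : ℝ) 1, ∀ r ∈ Icc (0 : ℝ) 1, ∃ r' ∈ Icc (0 : ℝ) 1,
      cat (rev L) K ((p, s), r) = L ((p, s), r') ∨ cat (rev L) K ((p, s), r) = K ((p, s), r') := by
    intro p hp s hs r hr
    rcases le_total r (1 / 2) with a | a
    · exact ⟨1 - 2 * r, ⟨by linarith, by linarith [hr.1]⟩, Or.inl (cat_left _ _ _ a)⟩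
    · exact ⟨2 * r - 1, ⟨by linarith, by linarith [hr.2]⟩, Or.inr (cat_right (j p hp s hs) a)⟩
  refine ⟨cat_cont (hL.cont.comp (continuous_fst.prodMk (continuous_const.sub continuous_snd)))
    hK.cont, fun p s r => ?_, fun p hp s hs r hr => ?_, fun p hp s hs => ?_, fun p hp s hs => ?_,
    fun p hp r hr => ?_, fun p hp r hr => ?_⟩
  · simp only [cat, rev, hK.odd, hL.odd]
    abel
  · obtain ⟨r', hr', e | e⟩ := key p (hAD hp) s hs r hr
    · exact e ▸ hL.ne p hp s hs r' hr'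
    · exact e ▸ hK.ne p hp s hs r' hr'
  · rw [cat_left _ _ _ (by norm_num), ← hL.r1 p hp s hs]
    exact congrArg (fun r => L ((p, s), r)) (by norm_num)
  · rw [cat_right (j p hp s hs) (by norm_num), ← hK.r1 p hp s hs]
    exact congrArg (fun r => K ((p, s), r)) (by norm_num)
  · obtain ⟨r', hr', e | e⟩ := key p hp 0 ⟨le_rfl, zero_le_one⟩ r hr
    · exact e.trans (hL.s0 p hp r' hr')
    · exact e.trans (hK.s0 p hp r' hr')
  · obtain ⟨r', hr', e | e⟩ := key p hp 1 ⟨zero_le_one, le_rfl⟩ r hr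
    · exact e.trans (hL.s1 p hp r' hr')
    · exact e.trans (hK.s1 p hp r' hr')

/-- Filling in a square whose boundary has degree zero. -/
theorem GV3c_fill {m : ℕ} (hm : 2 ≤ m) {b : V m → V m} {U : V m × ℝ → V m}
    {D A : Set (V m × V m)} {Ψ : (V m × V m) × ℝ → V m} {K : ((V m × V m) × ℝ) × ℝ → V m}
    (hK : Ctx.Sq D A b U Ψ K) (hDc : IsClosed D) (hDs : Symm D) (hAc : IsClosed A)
    (hAs : Symm A) (c : Cell (m - 1) (V m)) (c' : Cell m (V m))
    (hBB : ∀ x ∈ c.cl, ∀ y ∈ c'.cl, y ∈ c.cl → (x, y) ∈ A)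
    (hA : ∀ x ∈ c.car, ∀ y ∈ c'.car, (x, y) ∉ A)
    (ha : Adm (GV3c_O c c' ×ˢ Ioo (0 : ℝ) 1) (fun q => K (GV3c_pi c c' q.1, q.2)))
    (h0 : deg (GV3c_O c c' ×ˢ Ioo (0 : ℝ) 1) (fun q => K (GV3c_pi c c' q.1, q.2)) = 0) :
    ∃ K', Ctx.Sq D (A ∪ c.cl ×ˢ c'.cl ∪ c'.cl ×ˢ c.cl) b U Ψ K' := by
  obtain ⟨v, v1, v2, v3⟩ := hopf (GV3c_rank hm) (by
    rw [Module.finrank_fin_fun]; omega) (O := GV3c_O c c' ×ˢ Ioo (0 : ℝ) 1)
    ((c.conv.prod (c'.conv.prod (convex_Ioo 0 1))).prod (convex_Ioo 0 1)) ha h0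
  obtain ⟨N, hN⟩ := c.exists_inv
  obtain ⟨N', hN'⟩ := c'.exists_inv
  let i : (((V m × V m) × ℝ) × ℝ) →L[ℝ] (((V m × V m) × ℝ) × ℝ) :=
    ((ContinuousLinearEquiv.prodComm ℝ (V m) (V m) : V m × V m →L[ℝ] V m × V m).prodMap
      (ContinuousLinearMap.id ℝ ℝ)).prodMap (ContinuousLinearMap.id ℝ ℝ)
  let P : Set (((V m × V m) × ℝ) × ℝ) := {w | (w.1.2 ∈ Icc (0 : ℝ) 1 ∧ w.2 ∈ Icc (0 : ℝ) 1) ∧
    (w.1.1 ∈ A ∨ w.1.1 ∈ D ∧ (w.1.2 = 0 ∨ w.1.2 = 1 ∨ w.2 = 0 ∨ w.2 = 1))}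
  have c1 : Continuous fun w : ((V m × V m) × ℝ) × ℝ => w.1.1 := continuous_fst.fst
  have c2 : Continuous fun w : ((V m × V m) × ℝ) × ℝ => w.1.2 := continuous_fst.snd
  have hP : IsClosed P :=
    ((isClosed_Icc.preimage c2).inter (isClosed_Icc.preimage continuous_snd)).inter
      ((hAc.preimage c1).union ((hDc.preimage c1).inter
        ((isClosed_eq c2 continuous_const).union ((isClosed_eq c2 continuous_const).union
          ((isClosed_eq continuous_snd continuous_const).union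
            (isClosed_eq continuous_snd continuous_const))))))
  have hB : IsClosed (((c.cl ×ˢ c'.cl) ×ˢ Icc (0 : ℝ) 1) ×ˢ Icc (0 : ℝ) 1) :=
    ((c.compact_cl.isClosed.prod c'.compact_cl.isClosed).prod isClosed_Icc).prod isClosed_Icc
  obtain ⟨g, g1, g2, g3, g4⟩ := glue_odd i (fun _ => rfl) hP hB
    (fun w hw => ⟨hw.1, hw.2.imp (hAs _) (And.imp_left (hDs _))⟩)
    (fun w hw hw' => ⟨⟨hw.1.2, hw.2⟩, Or.inl (hBB _ hw.1.1.1 _ hw.1.1.2 hw'.1.1.1)⟩) hK.cont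
    (v := fun w => v ((N (w.1.1.1 - c.o), (N' (w.1.1.2 - c'.o), w.1.2)), w.2))
    (v1.comp (((N.continuous.comp (c1.fst.sub continuous_const)).prodMk
      ((N'.continuous.comp (c1.snd.sub continuous_const)).prodMk c2)).prodMk continuous_snd))
    (fun w => hK.odd w.1.1 w.1.2 w.2) (by
      rintro ⟨⟨⟨_, _⟩, s⟩, r⟩ ⟨hw, ⟨⟨⟨x, hx, rfl⟩, y, hy, rfl⟩, hs⟩, hr⟩
      dsimp only
      rw [hN, hN']
      refine (v2 (x := ((x, (y, s)), r)) ?_).symm
      rw [(GV3c_open c c').frontier_eq, GV3c_cl]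
      refine ⟨⟨⟨hx, hy, hs⟩, hr⟩, ?_⟩
      rintro ⟨⟨a1, a2, a3⟩, a4⟩
      rcases hw.2 with a | ⟨-, a | a | a | a⟩
      · exact hA _ ⟨x, a1, rfl⟩ _ ⟨y, a2, rfl⟩ a
      · exact a3.1.ne' a
      · exact a3.2.ne a
      · exact a4.1.ne' a
      · exact a4.2.ne a)
  have I0 : (0 : ℝ) ∈ Icc (0 : ℝ) 1 := ⟨le_rfl, zero_le_one⟩
  have I1 : (1 : ℝ) ∈ Icc (0 : ℝ) 1 := ⟨zero_le_one, le_rfl⟩
  have key : ∀ p ∈ c.cl ×ˢ c'.cl, ∀ s ∈ Icc (0 : ℝ) 1, ∀ r ∈ Icc (0 : ℝ) 1,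
      g ((p, s), r) ≠ 0 := by
    rintro ⟨_, _⟩ ⟨⟨x, hx, rfl⟩, y, hy, rfl⟩ s hs r hr
    rw [g4 (x := (((c.φ x, c'.φ y), s), r)) ⟨⟨⟨⟨x, hx, rfl⟩, y, hy, rfl⟩, hs⟩, hr⟩]
    dsimp only
    rw [hN, hN']
    refine v3 _ ?_
    rw [GV3c_cl]
    exact ⟨⟨hx, hy, hs⟩, hr⟩
  refine ⟨g, g1, fun p s r => g2 ((p, s), r), ?_, fun p hp s hs => ?_, fun p hp s hs => ?_,
    fun p hp r hr => ?_, fun p hp r hr => ?_⟩
  · rintro p ((hp | hp) | hp) s hs r hr
    · rw [g3 (x := ((p, s), r)) ⟨⟨hs, hr⟩, Or.inl hp⟩]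
      exact hK.ne p hp s hs r hr
    · exact key p hp s hs r hr
    · intro e
      refine key p.swap ⟨hp.2, hp.1⟩ s hs r hr ((g2 ((p, s), r)).trans ?_)
      rw [e, neg_zero]
  · exact (g3 (x := ((p, s), 0)) ⟨⟨hs, I0⟩, Or.inr ⟨hp, by simp⟩⟩).trans (hK.r0 p hp s hs)
  · exact (g3 (x := ((p, s), 1)) ⟨⟨hs, I1⟩, Or.inr ⟨hp, by simp⟩⟩).trans (hK.r1 p hp s hs)
  · exact (g3 (x := ((p, 0), r)) ⟨⟨I0, hr⟩, Or.inr ⟨hp, by simp⟩⟩).trans (hK.s0 p hp r hr)
  · exact (g3 (x := ((p, 1), r)) ⟨⟨I1, hr⟩, Or.inr ⟨hp, by simp⟩⟩).trans (hK.s1 p hp r hr)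

theorem Ctx.sq_step {m : ℕ} (X : Ctx m) {b : V m → V m} {U : V m × ℝ → V m}
    {D A : Set (V m × V m)} {Ψ : (V m × V m) × ℝ → V m} {K : ((V m × V m) × ℝ) × ℝ → V m}
    (h : X.Cfg b U) (hD : X.Dat D b Ψ) (hK : Ctx.Sq D A b U Ψ K) (hAc : IsCompact A)
    (hAs : Symm A) (hAD : A ⊆ D) (e : Fin X.st.nM) {t : X.T} (ht : X.outer t)
    (hsub : (X.mid e).cl ×ˢ (X.top t).cl ⊆ D)
    (hbd : ∀ x ∈ (X.mid e).cl, ∀ y ∈ (X.top t).cl, x ∈ X.st.Z2 ∨ y ∈ X.st.Z1 → (x, y) ∈ A)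
    (hA : ∀ p ∈ A, p.2 ∈ (X.top t).car → p.1 ∈ X.st.Z1 \ (X.mid e).car) :
    ∃ U' K', X.Cfg b U' ∧ Ctx.Sq D (A ∪ (X.mid e).cl ×ˢ (X.top t).cl ∪
      (X.top t).cl ×ˢ (X.mid e).cl) b U' Ψ K' := by
  have I0 : (0 : ℝ) ∈ Icc (0 : ℝ) 1 := ⟨le_rfl, zero_le_one⟩
  have I1 : (1 : ℝ) ∈ Icc (0 : ℝ) 1 := ⟨zero_le_one, le_rfl⟩
  have n0 : ∀ p ∈ D, p.1 - p.2 ≠ 0 := fun p hp => by
    have := hD.oh.ne p hp 0 I0
    rwa [hD.oh.zero p hp] at this
  have n1 : ∀ p ∈ D, b p.1 - b p.2 ≠ 0 := fun p hp => by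
    have := hD.oh.ne p hp 1 I1
    rwa [hD.oh.one p hp] at this
  have hbd' : ∀ x ∈ (X.mid e).cl, ∀ y ∈ (X.top t).cl,
      x ∈ (X.mid e).bd ∨ y ∈ (X.top t).bd → (x, y) ∈ A := fun x hx y hy a =>
    hbd x hx y hy (a.imp (fun a => X.st.mid_bd e a) fun a => X.st.top_bd t a)
  have nU : ∀ U' : V m × ℝ → V m, X.Cfg b U' → ∀ x ∈ (X.mid e).cl, ∀ y ∈ (X.top t).cl,
      (x, y) ∉ A → ∀ s ∈ Icc (0 : ℝ) 1, U' (x, s) - U' (y, s) ≠ 0 := by
    intro U' h' x hx y hy a s hs e0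
    have hx1 := X.mid_cl_sub e hx
    rw [h'.stat x (Or.inl hx1) s hs, sub_eq_zero] at e0
    exact h'.av y ⟨X.cl_sub t hy, fun c => a (hbd x hx y hy (Or.inr c))⟩ s hs (e0 ▸ hx1)
  have adm : ∀ (Φ : (V m × V m) × ℝ → V m) (L : ((V m × V m) × ℝ) × ℝ → V m),
      Ctx.Sq D A b U Φ L → (∀ x ∈ (X.mid e).cl, ∀ y ∈ (X.top t).cl, (x, y) ∉ A →
        ∀ s ∈ Icc (0 : ℝ) 1, Φ ((x, y), s) ≠ 0) →
      Adm (GV3c_O (X.mid e) (X.top t) ×ˢ Ioo (0 : ℝ) 1)
        (fun q => L (GV3c_pi (X.mid e) (X.top t) q.1, q.2)) := by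
    intro Φ L hL hΦ
    refine GV3c_adm _ _ hbd' hL.cont fun x hx y hy s hs r hr a => ?_
    have hp : (x, y) ∈ D := hsub ⟨hx, hy⟩
    by_cases c : (x, y) ∈ A
    · exact hL.ne _ c s hs r hr
    rcases a with a | rfl | rfl | rfl | rfl
    · exact absurd a c
    · rw [hL.s0 _ hp r hr]
      exact n0 _ hp
    · rw [hL.s1 _ hp r hr]
      exact n1 _ hp
    · rw [hL.r0 _ hp s hs]
      exact nU U h x hx y hy c s hs
    · rw [hL.r1 _ hp s hs]
      exact hΦ x hx y hy c s hs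
  have aK := adm Ψ K hK fun x hx y hy _ s hs => hD.oh.ne _ (hsub ⟨hx, hy⟩) s hs
  obtain ⟨M, m1, m2, m3, m4, m5, m6, m7⟩ := X.finger_mid h e ht
    (disjoint_left.2 fun x hx hx' => n0 (x, x) (hsub ⟨hx, hx'⟩) (sub_self x))
    (deg (GV3c_O (X.mid e) (X.top t) ×ˢ Ioo (0 : ℝ) 1)
      (fun q => K (GV3c_pi (X.mid e) (X.top t) q.1, q.2)))
  have st : ∀ x ∈ X.st.Z1, ∀ s ∈ Icc (0 : ℝ) 1, ∀ r, M ((x, s), r) = x := fun x hx s hs r =>
    (m4 x ⟨X.st.s1 hx, fun c => (X.st.top_sub t c).2 hx⟩ s r).trans (h.stat x (Or.inl hx) s hs)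
  have one : ∀ p ∈ A, p.2 ∈ (X.top t).car → ∀ s ∈ Icc (0 : ℝ) 1, ∀ r ∈ Icc (0 : ℝ) 1,
      M ((p.1, s), r) ≠ M ((p.2, s), r) := fun p hp c s hs r hr e0 => by
    have a := hA p hp c
    rw [st _ a.1 s hs] at e0
    exact m6 _ c s hs r hr (e0 ▸ a)
  have hL : Ctx.Sq D A b U (fun q => M ((q.1.1, q.2), 1) - M ((q.1.2, q.2), 1))
      (fun w => M ((w.1.1.1, w.1.2), w.2) - M ((w.1.1.2, w.1.2), w.2)) := by
    refine ⟨by fun_prop, fun p s r => (neg_sub _ _).symm, fun p hp s hs r hr => ?_,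
      fun p hp s hs => ?_, fun _ _ _ _ => rfl, fun p hp r hr => ?_, fun p hp r hr => ?_⟩
    · by_cases c2 : p.2 ∈ (X.top t).car
      · exact sub_ne_zero.2 (one p hp c2 s hs r hr)
      by_cases c1 : p.1 ∈ (X.top t).car
      · exact sub_ne_zero.2 (one p.swap (hAs p hp) c1 s hs r hr).symm
      have hz := hD.sub (hAD hp)
      dsimp only
      rw [m4 _ ⟨hz.1, c1⟩, m4 _ ⟨hz.2, c2⟩, ← hK.r0 p (hAD hp) s hs]
      exact hK.ne p hp s hs 0 I0
    · dsimp only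
      rw [m3 _ (hD.sub hp).1, m3 _ (hD.sub hp).2]
    · dsimp only
      rw [(m5 _ (hD.sub hp).1 r).1, (m5 _ (hD.sub hp).2 r).1]
    · dsimp only
      rw [(m5 _ (hD.sub hp).1 r).2, (m5 _ (hD.sub hp).2 r).2]
  have aL := adm _ _ hL fun x hx y hy c s hs => nU _ m2 x hx y hy c s hs
  have rk := GV3c_rank X.hm
  have dL := (deg_congr rk aL (v := fun q : ((Fin (m - 1) → ℝ) × ((Fin m → ℝ) × ℝ)) × ℝ =>
      (X.mid e).φ q.1.1 - M (((X.top t).φ q.1.2.1, q.1.2.2), q.2)) (by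
    have := (X.mid e).cont
    have := (X.top t).cont
    fun_prop) fun q hq => by
      have a := frontier_subset_closure hq
      rw [GV3c_cl] at a
      exact congrArg (· - _) (st _ (X.mid_cl_sub e ⟨_, a.1.1, rfl⟩) _ a.1.2.2 _)).trans m7
  obtain ⟨r1, r2⟩ := deg_rev rk aL
  obtain ⟨k1, k2⟩ := deg_cat rk r1 aK fun q hq => by
    rw [GV3c_clO] at hq
    have hp : ((X.mid e).φ q.1, (X.top t).φ q.2.1) ∈ D := hsub ⟨⟨_, hq.1, rfl⟩, _, hq.2.1, rfl⟩
    refine Eq.trans ?_ ((hL.r0 _ hp _ hq.2.2).trans (hK.r0 _ hp _ hq.2.2).symm)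
    simp only [rev, sub_self, GV3c_pi]
  rw [r2, dL, neg_add_cancel] at k2
  obtain ⟨K', hK'⟩ := GV3c_fill X.hm (GV3c_sq (U' := fun q => M (q, 1)) hK hL hAD)
    hD.cpt.isClosed hD.symm hAc.isClosed hAs (X.mid e) (X.top t)
    (fun x hx y hy c => hbd x hx y hy (Or.inr (X.mid_cl_sub e c)))
    (fun x hx y hy c => (hA _ c hy).2 hx) k1 k2
  exact ⟨_, K', m2, hK'⟩

end BEp
end
end

-- merged part: Pool.Agent.Work.MP_f0515e_an.Pos.GV3
section
/-! TASK GV3. All diagonal intersection numbers can be made zero.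
Plan. Let Need be the finite set of pairs (e, t) with t outer and cl e x cl t inside D. Finset induction on S inside Need: there are U, K with Cfg b U and
Sq D (A S) where A S = A0 D u union over (e, t) in S of (cl e x cl t u cl t x cl e). Step: sq_step; hA: a pair p of A S with p.2 in car t (so not in Z1, not in In):
from A0 p.1 is in Z2; from cl e' x cl t' get t' = t (cl_disj), so e' != e and mid_cl_disj; from cl t' x cl e' impossible. End: diag_zero; for x in cl k n Z1,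
y in cl l: if x in Z2 or y in Z1 then A0; else x in car e (mid_cov), cl e inside cl k (mid_cl_front); l outer: (e, l) is in Need; l inner: k is outer
(far_outer), outer_cl and inner_of_not_outer give Stat. The other case is symmetric. -/

open Set Metric Filter Topology Function BEv
open scoped NNReal

noncomputable section
namespace BEp

/-- The set of pairs treated after the pairs of cells in `S`. -/
def Ctx.GV3_set {m : ℕ} (X : Ctx m) (D : Set (V m × V m)) (S : Finset (Fin X.st.nM × X.T)) :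
    Set (V m × V m) :=
  X.A0 D ∪ ⋃ q ∈ S, ((X.mid q.1).cl ×ˢ (X.top q.2).cl ∪ (X.top q.2).cl ×ˢ (X.mid q.1).cl)

theorem Ctx.GV3_mem {m : ℕ} (X : Ctx m) {D : Set (V m × V m)} {S : Finset (Fin X.st.nM × X.T)}
    {p : V m × V m} : p ∈ X.GV3_set D S ↔ p ∈ X.A0 D ∨ ∃ q ∈ S,
      (p.1 ∈ (X.mid q.1).cl ∧ p.2 ∈ (X.top q.2).cl) ∨
        (p.1 ∈ (X.top q.2).cl ∧ p.2 ∈ (X.mid q.1).cl) := by
  simp only [Ctx.GV3_set, mem_union, mem_iUnion, mem_prod, exists_prop]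

theorem Ctx.GV3_compact {m : ℕ} (X : Ctx m) {b : V m → V m} {D : Set (V m × V m)}
    {Ψ : (V m × V m) × ℝ → V m} (hD : X.Dat D b Ψ) (S : Finset (Fin X.st.nM × X.T)) :
    IsCompact (X.GV3_set D S) :=
  (X.A0_compact hD).union (S.isCompact_biUnion fun q _ =>
    ((X.mid q.1).compact_cl.prod (X.top q.2).compact_cl).union
      ((X.top q.2).compact_cl.prod (X.mid q.1).compact_cl))

theorem Ctx.GV3_symm {m : ℕ} (X : Ctx m) {b : V m → V m} {D : Set (V m × V m)}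
    {Ψ : (V m × V m) × ℝ → V m} (hD : X.Dat D b Ψ) (S : Finset (Fin X.st.nM × X.T)) :
    Symm (X.GV3_set D S) := by
  intro p hp
  rw [X.GV3_mem] at hp ⊢
  rcases hp with hp | ⟨q, hq, hp | hp⟩
  · exact Or.inl (X.A0_symm hD p hp)
  · exact Or.inr ⟨q, hq, Or.inr ⟨hp.2, hp.1⟩⟩
  · exact Or.inr ⟨q, hq, Or.inl ⟨hp.2, hp.1⟩⟩

theorem Ctx.GV3_ind {m : ℕ} (X : Ctx m) {b : V m → V m} {U : V m × ℝ → V m}
    {D : Set (V m × V m)} {Ψ : (V m × V m) × ℝ → V m} (h : X.Cfg b U) (hD : X.Dat D b Ψ)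
    (S : Finset (Fin X.st.nM × X.T))
    (hS : ∀ q ∈ S, X.outer q.2 ∧ (X.mid q.1).cl ×ˢ (X.top q.2).cl ⊆ D) :
    ∃ U' K, X.Cfg b U' ∧ Ctx.Sq D (X.GV3_set D S) b U' Ψ K := by
  classical
  induction S using Finset.induction_on with
  | empty =>
    obtain ⟨K, hK⟩ := X.sq_init h hD
    refine ⟨U, K, h, ?_⟩
    have e : X.GV3_set D ∅ = X.A0 D := by simp [Ctx.GV3_set]
    rw [e]
    exact hK
  | insert q S hq ih =>
    obtain ⟨U1, K1, h1, hK1⟩ := ih fun r hr => hS r (Finset.mem_insert_of_mem hr)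
    obtain ⟨ht, hsub⟩ := hS q (Finset.mem_insert_self _ _)
    have hAD : X.GV3_set D S ⊆ D := by
      intro p hp
      rw [X.GV3_mem] at hp
      rcases hp with hp | ⟨r, hr, hp | hp⟩
      · exact hp.1
      · exact (hS r (Finset.mem_insert_of_mem hr)).2 hp
      · exact hD.symm p.swap ((hS r (Finset.mem_insert_of_mem hr)).2 ⟨hp.2, hp.1⟩)
    have hbd : ∀ x ∈ (X.mid q.1).cl, ∀ y ∈ (X.top q.2).cl, x ∈ X.st.Z2 ∨ y ∈ X.st.Z1 →
        (x, y) ∈ X.GV3_set D S := by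
      intro x hx y hy hxy
      rw [X.GV3_mem]
      refine Or.inl ⟨hsub ⟨hx, hy⟩, ?_⟩
      rcases hxy with h2 | h2
      · exact Or.inr (Or.inl h2)
      · exact Or.inl ⟨X.mid_cl_sub _ hx, h2⟩
    have hA : ∀ p ∈ X.GV3_set D S, p.2 ∈ (X.top q.2).car →
        p.1 ∈ X.st.Z1 \ (X.mid q.1).car := by
      intro p hp hp2
      have n1 : p.2 ∉ X.st.Z1 := (X.st.top_sub q.2 hp2).2
      have n2 : p.2 ∉ X.In := Set.disjoint_left.1 ht hp2
      rw [X.GV3_mem] at hp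
      rcases hp with hp | ⟨r, hr, hp | hp⟩
      · rcases hp.2 with h2 | h2 | h2 | h2 | h2 | h2
        · exact absurd h2.2 n1
        · exact ⟨X.st.s21 h2, fun hc => (X.st.mid_sub q.1 hc).2 h2⟩
        · exact absurd (X.st.s21 h2) n1
        · exact absurd h2.2 n2
        · exact absurd h2.2 n2
        · exact absurd h2.2.1 n1
      · have e2 : q.2 = r.2 := by
          by_contra hne
          exact Set.disjoint_left.1 (X.cl_disj hne) hp2 hp.2
        have e1 : q.1 ≠ r.1 := by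
          intro e1
          exact hq (by rw [Prod.ext e1 e2]; exact hr)
        exact ⟨X.mid_cl_sub _ hp.1,
          fun hc => Set.disjoint_left.1 (X.mid_cl_disj e1) hc hp.1⟩
      · exact absurd (X.mid_cl_sub _ hp.2) n1
    obtain ⟨U2, K2, h2, hK2⟩ := X.sq_step h1 hD hK1 (X.GV3_compact hD S) (X.GV3_symm hD S) hAD
      q.1 ht hsub hbd hA
    refine ⟨U2, K2, h2, ⟨hK2.cont, hK2.odd, ?_, hK2.r0, hK2.r1, hK2.s0, hK2.s1⟩⟩
    intro p hp
    apply hK2.ne p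
    rw [X.GV3_mem] at hp
    rcases hp with hp | ⟨r, hr, hp⟩
    · exact Or.inl (Or.inl (X.GV3_mem.2 (Or.inl hp)))
    · rcases Finset.mem_insert.1 hr with rfl | hr
      · rcases hp with hp | hp
        · exact Or.inl (Or.inr hp)
        · exact Or.inr hp
      · exact Or.inl (Or.inl (X.GV3_mem.2 (Or.inr ⟨r, hr, hp⟩)))

theorem Ctx.v3 {m : ℕ} (X : Ctx m) {b : V m → V m} {U : V m × ℝ → V m}
    {D : Set (V m × V m)} {Ψ : (V m × V m) × ℝ → V m} (h : X.Cfg b U) (hD : X.Dat D b Ψ) :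
    ∃ U', X.Cfg b U' ∧ ∀ k l, X.far k l → X.diag U' k l = 0 := by
  classical
  let S : Finset (Fin X.st.nM × X.T) := Finset.univ.filter
    fun q => X.outer q.2 ∧ (X.mid q.1).cl ×ˢ (X.top q.2).cl ⊆ D
  obtain ⟨U', K, h', hK⟩ := X.GV3_ind h hD S fun q hq => (Finset.mem_filter.1 hq).2
  have key : ∀ k l, X.far k l → ∀ x ∈ (X.top k).cl, ∀ y ∈ (X.top l).cl, x ∈ X.st.Z1 →
      (x, y) ∈ X.GV3_set D S := by
    intro k l hf x hx y hy h1
    have hd : (x, y) ∈ D := hD.ds ⟨k, l, hf, hx, hy⟩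
    rw [X.GV3_mem]
    by_cases h2 : x ∈ X.st.Z2
    · exact Or.inl ⟨hd, Or.inr (Or.inl h2)⟩
    obtain ⟨e, he⟩ := X.st.mid_cov x ⟨h1, h2⟩
    have hs : (X.mid e).cl ⊆ (X.top k).cl := X.mid_cl_front he hx
    by_cases hl : X.outer l
    · refine Or.inr ⟨(e, l), Finset.mem_filter.2 ⟨Finset.mem_univ _, hl, ?_⟩, Or.inl ⟨?_, hy⟩⟩
      · intro p hp
        exact hD.ds ⟨k, l, hf, hs hp.1, hp.2⟩
      · show x ∈ (X.mid e).cl
        rw [(X.mid e).cl_eq]
        exact Or.inl he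
    · have hk : X.outer k := (X.far_outer hf).resolve_right hl
      exact Or.inl ⟨hd, Or.inr (Or.inr (Or.inr (Or.inr (Or.inl
        ⟨⟨h1, X.outer_cl hk hx⟩, X.inner_of_not_outer hl hy⟩))))⟩
  refine ⟨U', h', fun k l hf => X.diag_zero h' hD hK hf ?_⟩
  intro x hx y hy hxy
  rcases hxy with h1 | h1
  · exact X.GV3_symm hD S (x, y) (key k l hf x hx y hy h1)
  · exact key l k (X.far_symm hf) y hy x hx h1

end BEp
end
end

-- merged part: Pool.Agent.Work.MP_f0515e_an.Pos.GV4b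
section
/-! TASK GV4b. Effect of the end finger on the intersection numbers.
Plan. finger_end with d = - bot U j k, U' = cat U M. Cfg: cat_left, cat_right; Z1 u In misses car j; Z1 is inside Z minus car k. Eqv by ae_principle with the
homotopy M, D = Ds (Ds_compact, Ds_sub, Ds_nr): for a far pair at most one point is in car j (far_disj, cl_disj). diagF U' and botF U' agree on the closure of the
domain with cat (diagF U) (diagF M) and cat (botF U) (botF M); deg_cat (admissibility of the M parts: same case analysis, emb_ne for b and b'); diagF M has no zero;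
botF M j' k' has no zero unless (j', k') = (j, k) (for j' = j use cl k' inside Z minus car k). -/

open Set Metric Filter Topology Function BEv
open scoped NNReal

noncomputable section
namespace BEp

section
variable {m : ℕ} (X : Ctx m) {b b' : V m → V m} {U M : V m × ℝ → V m} {j k : X.T}

theorem GV4b_idx {i i' : X.T} {x : V m} (h : x ∈ (X.top i).car) (h' : x ∈ (X.top i').cl) :
    i' = i := by
  by_contra e
  exact disjoint_left.1 (X.cl_disj (Ne.symm e)) h h'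

theorem GV4b_ne (h : X.Emb b)
    (hst : ∀ z ∈ X.Z \ (X.top j).car, ∀ r ∈ Icc (0 : ℝ) 1, M (z, r) = b z)
    (hav : ∀ z ∈ (X.top j).car, ∀ r ∈ Icc (0 : ℝ) 1,
      M (z, r) ∉ X.Z \ (X.top k).car ∧ M (z, r) ∉ b '' (X.Z \ (X.top j).car))
    {j' k' : X.T} (hf : X.far j' k') {x y : V m} (hx : x ∈ (X.top j').cl) (hy : y ∈ (X.top k').cl)
    {r : ℝ} (hr : r ∈ Icc (0 : ℝ) 1) : M (x, r) ≠ M (y, r) := by
  intro e
  by_cases h1 : x ∈ (X.top j).car <;> by_cases h2 : y ∈ (X.top j).car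
  · exact X.far_ne hf ((GV4b_idx X h1 hx).trans (GV4b_idx X h2 hy).symm)
  · have h3 : y ∈ X.Z \ (X.top j).car := ⟨X.cl_sub _ hy, h2⟩
    exact (hav x h1 r hr).2 ⟨y, h3, (hst y h3 r hr).symm.trans e.symm⟩
  · have h3 : x ∈ X.Z \ (X.top j).car := ⟨X.cl_sub _ hx, h1⟩
    exact (hav y h2 r hr).2 ⟨x, h3, (hst x h3 r hr).symm.trans e⟩
  · rw [hst x ⟨X.cl_sub _ hx, h1⟩ r hr, hst y ⟨X.cl_sub _ hy, h2⟩ r hr] at e
    exact (X.emb_ne h hf hx hy).2.1 e

theorem GV4b_bot (h : X.Emb b)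
    (hst : ∀ z ∈ X.Z \ (X.top j).car, ∀ r ∈ Icc (0 : ℝ) 1, M (z, r) = b z)
    (hav : ∀ z ∈ (X.top j).car, ∀ r ∈ Icc (0 : ℝ) 1,
      M (z, r) ∉ X.Z \ (X.top k).car ∧ M (z, r) ∉ b '' (X.Z \ (X.top j).car))
    {j' k' : X.T} (hf : X.far j' k') {x y : V m} (hx : x ∈ (X.top j').cl) (hy : y ∈ (X.top k').cl)
    {r : ℝ} (hr : r ∈ Icc (0 : ℝ) 1) (e : y = M (x, r)) :
    x ∈ (X.top j).car ∧ y ∈ (X.top k).car := by
  by_cases h1 : x ∈ (X.top j).car
  · refine ⟨h1, ?_⟩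
    by_contra h2
    exact (hav x h1 r hr).1 (e ▸ ⟨X.cl_sub _ hy, h2⟩)
  · rw [hst x ⟨X.cl_sub _ hx, h1⟩ r hr] at e
    exact absurd e.symm (X.emb_ne h hf hx hy).2.2.1

theorem GV4b_cd (hM : Continuous M) (j' k' : X.T) : Continuous (X.diagF M j' k') := by
  have h1 := (X.top j').cont
  have h2 := (X.top k').cont
  unfold Ctx.diagF
  fun_prop

theorem GV4b_cb (hM : Continuous M) (j' k' : X.T) : Continuous (X.botF M j' k') := by
  have h1 := (X.top j').cont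
  have h2 := (X.top k').cont
  unfold Ctx.botF
  fun_prop

theorem GV4b_diag_cat (j' k' : X.T) :
    X.diagF (cat U M) j' k' = cat (X.diagF U j' k') (X.diagF M j' k') := by
  funext q
  simp only [Ctx.diagF, cat]
  abel

theorem GV4b_bot_cat (j' k' : X.T) :
    X.botF (cat U M) j' k' = cat (X.botF U j' k') (X.botF M j' k') := by
  funext q
  simp only [Ctx.botF, cat]
  abel

theorem GV4b_dom {j' k' : X.T} {q : ((Fin m → ℝ) × (Fin m → ℝ)) × ℝ} (hq : q ∈ X.dom j' k') :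
    (X.top j').φ q.1.2 ∈ (X.top j').cl ∧ (X.top k').φ q.1.1 ∈ (X.top k').cl ∧
      q.2 ∈ Icc (0 : ℝ) 1 :=
  ⟨mem_image_of_mem _ (subset_closure hq.1.2), mem_image_of_mem _ (subset_closure hq.1.1),
    Ioo_subset_Icc_self hq.2⟩

theorem GV4b_clo {j' k' : X.T} {q : (Fin m → ℝ) × (Fin m → ℝ)}
    (hq : q ∈ closure ((X.top k').U ×ˢ (X.top j').U)) :
    (X.top j').φ q.2 ∈ X.Z ∧ (X.top k').φ q.1 ∈ X.Z := by
  rw [closure_prod_eq] at hq
  exact ⟨X.cl_sub _ (mem_image_of_mem _ hq.2), X.cl_sub _ (mem_image_of_mem _ hq.1)⟩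

end

theorem Ctx.v4_step {m : ℕ} (X : Ctx m) {b : V m → V m} {U : V m × ℝ → V m} (h : X.Cfg b U)
    {j k : X.T} (hf : X.far j k) (hj : X.outer j) (hk : X.outer k) :
    ∃ b' U', X.Cfg b' U' ∧ Eqv X.Z X.C b b' ∧
      (∀ j' k', X.far j' k' → X.diag U' j' k' = X.diag U j' k') ∧ X.bot U' j k = 0 ∧
      ∀ j' k', X.far j' k' → (j', k') ≠ (j, k) → X.bot U' j' k' = X.bot U j' k' := by
  obtain ⟨b', M, hb', hM, h01, hst, hav, hd⟩ := X.finger_end h.toEmb hf hj hk (-X.bot U j k)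
  have glue : ∀ x ∈ X.Z, U (x, 1) = M (x, 0) := fun x hx => (h.u1 x hx).trans (h01 x hx).1.symm
  have off : ∀ x ∈ X.st.Z1 ∪ X.In, x ∈ X.Z \ (X.top j).car := by
    rintro x (hx | hx)
    · exact ⟨X.st.s1 hx, fun e => (X.st.top_sub j e).2 hx⟩
    · exact ⟨X.hIZ hx, fun e => disjoint_left.1 hj e hx⟩
  have iL : ∀ s ∈ Icc (0 : ℝ) 1, s ≤ 1 / 2 → 2 * s ∈ Icc (0 : ℝ) 1 := fun s hs e =>
    ⟨by linarith [hs.1], by linarith⟩
  have iR : ∀ s ∈ Icc (0 : ℝ) 1, 1 / 2 ≤ s → 2 * s - 1 ∈ Icc (0 : ℝ) 1 := fun s hs e =>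
    ⟨by linarith, by linarith [hs.2]⟩
  have aB : ∀ j' k', X.far j' k' → Adm (X.dom j' k') (X.botF M j' k') := by
    intro j' k' hf'
    obtain ⟨a1, a2, -⟩ := X.adm_bot h hf'
    refine ⟨a1, a2, GV4b_cb X hM j' k', fun q hq e => ?_⟩
    obtain ⟨q1, q2, q3, q4⟩ := X.frontier_dom hq
    have hx : (X.top j').φ q.1.2 ∈ (X.top j').cl := mem_image_of_mem _ q2
    have hy : (X.top k').φ q.1.1 ∈ (X.top k').cl := mem_image_of_mem _ q1
    have e' := sub_eq_zero.1 e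
    obtain ⟨c1, c2⟩ := GV4b_bot X h.toEmb hst hav hf' hx hy q3 e'
    rcases q4 with q4 | q4 | q4 | q4
    · exact (X.st.top_sub k c2).2 q4
    · exact (X.st.top_sub j c1).2 q4
    · rw [q4, (h01 _ (X.cl_sub _ hx)).1] at e'
      exact (X.emb_ne h.toEmb hf' hx hy).2.2.1 e'.symm
    · rw [q4, (h01 _ (X.cl_sub _ hx)).2] at e'
      exact (X.emb_ne hb' hf' hx hy).2.2.1 e'.symm
  have sB : ∀ j' k', X.far j' k' → X.bot (cat U M) j' k' = X.bot U j' k' + X.bot M j' k' := by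
    intro j' k' hf'
    rw [Ctx.bot, GV4b_bot_cat]
    refine (deg_cat Ctx.rank_dom (X.adm_bot h hf') (aB j' k' hf') fun q hq => ?_).2
    simp only [Ctx.botF]
    rw [glue _ (GV4b_clo X hq).1]
  refine ⟨b', cat U M, ⟨hb', cat_cont h.cont hM, fun x hx => ?_, fun x hx => ?_,
    fun x hx s hs => ?_, fun x hx s hs => ?_⟩, ?_, fun j' k' hf' => ?_, ?_,
    fun j' k' hf' hne => ?_⟩
  · rw [cat_left _ _ _ (by norm_num), mul_zero, h.u0 x hx]
  · rw [cat_right (glue x hx) (by norm_num), show (2 : ℝ) * 1 - 1 = 1 by norm_num, (h01 x hx).2]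
  · rcases le_total s (1 / 2) with e | e
    · rw [cat_left _ _ _ e, h.stat x hx _ (iL s hs e)]
    · rw [cat_right (glue x (off x hx).1) e, hst x (off x hx) _ (iR s hs e), h.fix x hx]
  · rcases le_total s (1 / 2) with e | e
    · rw [cat_left _ _ _ e]
      exact h.av x hx _ (iL s hs e)
    · rw [cat_right (glue x hx.1) e]
      by_cases c : x ∈ (X.top j).car
      · exact fun c' => (hav x c _ (iR s hs e)).1
          ⟨X.st.s1 c', fun c'' => (X.st.top_sub k c'').2 c'⟩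
      · rw [hst x ⟨hx.1, c⟩ _ (iR s hs e), ← h.u1 x hx.1]
        exact h.av x hx 1 ⟨zero_le_one, le_rfl⟩
  · refine ae_principle X.hm X.hZ X.hpc X.hC X.hC1 X.st.s1 X.st.pc1 X.hIn X.hIZ X.hnb h.tp hb'.tp
      h.inj hb'.inj hM (fun x hx => (h01 x hx).1) (fun x hx => (h01 x hx).2)
      (fun x hx => hst x (off x (Or.inr hx))) X.Ds_compact ?_ X.Ds_sub X.Ds_nr
    rintro p ⟨j', k', hf', hx, hy⟩ s hs
    exact GV4b_ne X h.toEmb hst hav hf' hx hy hs
  · have aD : Adm (X.dom j' k') (X.diagF M j' k') := by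
      obtain ⟨a1, a2, -⟩ := X.adm_diag h hf'
      refine ⟨a1, a2, GV4b_cd X hM j' k', fun q hq e => ?_⟩
      obtain ⟨q1, q2, q3, -⟩ := X.frontier_dom hq
      exact GV4b_ne X h.toEmb hst hav hf' (mem_image_of_mem _ q2) (mem_image_of_mem _ q1) q3
        (sub_eq_zero.1 e).symm
    have z : deg (X.dom j' k') (X.diagF M j' k') = 0 := by
      refine deg_zero Ctx.rank_dom aD fun q hq e => ?_
      obtain ⟨q1, q2, q3⟩ := GV4b_dom X hq
      exact GV4b_ne X h.toEmb hst hav hf' q1 q2 q3 (sub_eq_zero.1 e).symm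
    have c := (deg_cat Ctx.rank_dom (X.adm_diag h hf') aD fun q hq => by
      simp only [Ctx.diagF]
      rw [glue _ (GV4b_clo X hq).1, glue _ (GV4b_clo X hq).2]).2
    rw [Ctx.diag, GV4b_diag_cat]
    refine c.trans ?_
    change X.diag U j' k' + deg (X.dom j' k') (X.diagF M j' k') = _
    rw [z, add_zero]
  · rw [sB j k hf, hd, add_neg_cancel]
  · have z : X.bot M j' k' = 0 := by
      refine deg_zero Ctx.rank_dom (aB j' k' hf') fun q hq e => ?_
      obtain ⟨q1, q2, q3⟩ := GV4b_dom X hq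
      obtain ⟨c1, c2⟩ := GV4b_bot X h.toEmb hst hav hf' q1 q2 q3 (sub_eq_zero.1 e)
      exact hne (Prod.ext (GV4b_idx X c1 q1) (GV4b_idx X c2 q2))
    rw [sB j' k' hf', z, add_zero]

end BEp
end
end

-- merged part: Pool.Agent.Work.MP_f0515e_an.Pos.GV4
section
/-! TASK GV4. All intersection numbers met in the phases vanish.
Plan. Finset induction over the pairs (j, k) with far j k, j < k, both outer, using v4_step and Eqv.trans (C in Z by hC1, s1). For j outer and k inner: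
bot = diag - rgt = 0 by diag_eq and rgt_inner. For l < j both outer and far: rgt l j = diag l j - bot l j = 0. -/

open Set Metric Filter Topology Function BEv
open scoped NNReal

noncomputable section
namespace BEp

theorem Ctx.GV4_ind {m : ℕ} (X : Ctx m) {b : V m → V m} {U : V m × ℝ → V m} (h : X.Cfg b U)
    (S : Finset (X.T × X.T)) (hS : ∀ p ∈ S, X.far p.1 p.2 ∧ X.outer p.1 ∧ X.outer p.2) :
    ∃ b' U', X.Cfg b' U' ∧ Eqv X.Z X.C b b' ∧
      (∀ j k, X.far j k → X.diag U' j k = X.diag U j k) ∧ ∀ p ∈ S, X.bot U' p.1 p.2 = 0 := by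
  classical
  induction S using Finset.induction_on with
  | empty => exact ⟨b, U, h, Eqv.refl' fun _ _ => rfl, fun _ _ _ => rfl, by simp⟩
  | insert q S hq ih =>
    obtain ⟨b1, U1, c1, e1, d1, z1⟩ := ih fun p hp => hS p (Finset.mem_insert_of_mem hp)
    obtain ⟨f, o, o'⟩ := hS q (Finset.mem_insert_self _ _)
    obtain ⟨b2, U2, c2, e2, d2, z2, k2⟩ := X.v4_step c1 f o o'
    refine ⟨b2, U2, c2, Eqv.trans (X.hC1.trans X.st.s1) e1 e2,
      fun j k hf => (d2 j k hf).trans (d1 j k hf), fun p hp => ?_⟩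
    by_cases e : p = q
    · rw [e]; exact z2
    · have hp' : p ∈ S := (Finset.mem_insert.1 hp).resolve_left e
      rw [k2 p.1 p.2 (hS p hp).1 e, z1 p hp']

theorem Ctx.v4 {m : ℕ} (X : Ctx m) {b : V m → V m} {U : V m × ℝ → V m} (h : X.Cfg b U)
    (h0 : ∀ k l, X.far k l → X.diag U k l = 0) :
    ∃ b' U', X.Cfg b' U' ∧ Eqv X.Z X.C b b' ∧ ∀ j l, X.far j l → X.outer j →
      ((j < l ∨ ¬ X.outer l) → X.bot U' j l = 0) ∧
      (l < j → X.outer l → X.rgt b' U' l j = 0) := by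
  classical
  obtain ⟨b', U', c, e, d, z⟩ := X.GV4_ind h
    (Finset.univ.filter fun p : X.T × X.T => X.far p.1 p.2 ∧ X.outer p.1 ∧ X.outer p.2 ∧ p.1 < p.2)
    fun p hp => by
      have := (Finset.mem_filter.1 hp).2
      exact ⟨this.1, this.2.1, this.2.2.1⟩
  have z' : ∀ j l, X.far j l → X.outer j → X.outer l → j < l → X.bot U' j l = 0 :=
    fun j l h1 h2 h3 h4 => z (j, l) (Finset.mem_filter.2 ⟨Finset.mem_univ _, h1, h2, h3, h4⟩)
  refine ⟨b', U', c, e, fun j l hf hj => ⟨fun k => ?_, fun k hl => ?_⟩⟩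
  · by_cases hl : X.outer l
    · exact z' j l hf hj hl (k.resolve_right fun n => n hl)
    · have h1 := X.diag_eq c hf
      rw [d j l hf, h0 j l hf, X.rgt_inner c hf hl] at h1
      omega
  · have hf' := X.far_symm hf
    have h1 := X.diag_eq c hf'
    rw [d l j hf', h0 l j hf', z' l j hf' hl hj k] at h1
    omega

end BEp
end
end

-- merged part: Pool.Agent.Work.MP_f0515e_an.Pos.GT
section
/-! EXPORT (GT). The germ theorem: section 3 of the plan. -/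

open Set Metric Filter Topology Function BEv
open scoped NNReal

noncomputable section
namespace BEp

theorem germ_thm {m : ℕ} (hm : 2 ≤ m) {Z : Set (V m)} (hZ : Poly Z) (hpc : PC m Z)
    (st : Strat m Z) {ι : Type} [Finite ι] {c : ι → V m} {In : ι → Set (V m)}
    (hc1 : ∀ i, c i ∈ st.Z1) (hIn : ∀ i, Poly (In i)) (hIZ : ∀ i, In i ⊆ Z)
    (hstar : ∀ i, StarConvex ℝ (c i) (In i)) (hnb : ∀ i, In i ∈ 𝓝[Z] c i)
    (hdj : ∀ i j, i ≠ j → Disjoint (In i) (In j))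
    (hio : ∀ k, (st.top k).car ⊆ ⋃ i, In i ∨ Disjoint (st.top k).car (⋃ i, In i))
    {b : V m → V m} (hb : TP b) (hib : InjOn b Z) {N : Set (V m)} (hN : IsOpen N)
    (hIN : ∀ i, In i ⊆ N) (hbN : ∀ x ∈ Z ∩ N, b x = x) {D : Set (V m × V m)} (hD : IsCompact D)
    (hDs : Symm D) (hDZ : D ⊆ Z ×ˢ Z) {Ψ : (V m × V m) × ℝ → V m} (hΨ : OH D (tl id) (tl b) Ψ)
    (d1 : ∀ k l, (st.top k).cl ×ˢ (st.top l).cl ⊆ D ∨
      (∀ x ∈ (st.top k).car, ∀ y ∈ (st.top l).car, Nr m Z (range c) st.Z1 x y) ∨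
      ((st.top k).car ⊆ ⋃ i, In i ∧ (st.top l).car ⊆ ⋃ i, In i))
    (d2 : ∀ i, ∀ p ∈ D, p.1 ∈ closure (Z \ ⋃ j, In j) → p.2 ∈ In i → ∀ t ∈ Icc (0 : ℝ) 1,
      (p.1, c i + t • (p.2 - c i)) ∈ D)
    (d3 : ∀ i, ∀ p ∈ D, p.1 ∈ In i → p.2 ∈ In i → ∀ s ∈ Icc (0 : ℝ) 1, Ψ (p, s) = p.1 - p.2)
    (d4 : ∀ i j, i ≠ j → In i ×ˢ In j ⊆ D) :
    Eqv Z (range c) b id := by
  have hc : ∀ i, c i ∈ In i := fun i => mem_of_mem_nhdsWithin (st.s1 (hc1 i)) (hnb i)
  have hP : Poly (⋃ i, In i) := by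
    have := Poly.biUnion (finite_univ (α := ι)) (X := In) (fun i _ => hIn i)
    simpa using this
  let X : Ctx m :=
    { Z := Z, st := st, C := range c, In := ⋃ i, In i, hm := hm, hZ := hZ, hpc := hpc
      hC := finite_range c
      hC1 := by rintro _ ⟨i, rfl⟩; exact hc1 i
      hIn := hP
      hIZ := iUnion_subset hIZ
      hnb := by rintro _ ⟨i, rfl⟩; exact mem_of_superset (hnb i) (subset_iUnion In i)
      hio := hio }
  have hCZ : X.C ⊆ X.Z := X.hC1.trans st.s1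
  have hds : X.Ds ⊆ D := by
    rintro p ⟨k, l, hf, h1, h2⟩
    rcases d1 k l with h | h | h
    · exact h ⟨h1, h2⟩
    · exact absurd h hf.1
    · exact absurd h hf.2
  obtain ⟨b1, Ψ1, e1, q1, o1, s1⟩ := X.p0 hb hib hN (iUnion_subset hIN) hbN hΨ
  obtain ⟨Ψ2, hDat⟩ := X.make_static (c := c) (In := In) rfl rfl (fun i => (hIn i).1) hc hstar
    hdj e1 hD hDs hDZ hds o1 d2
    (fun i p hp h1 h2 => s1 p hp (mem_iUnion.2 ⟨i, h1⟩) (mem_iUnion.2 ⟨i, h2⟩) (d3 i p hp h1 h2))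
    d4
  obtain ⟨U1, c1⟩ := X.exists_cfg e1
  obtain ⟨U2, c2, z2⟩ := X.v3 c1 hDat
  obtain ⟨b3, U3, c3, q3, z3⟩ := X.v4 c2 z2
  exact (q1.trans hCZ q3).trans hCZ (X.v5 c3 z3)

end BEp
end
end
end
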