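import Pool.Agent.Work.MP_f0515e_an.Pos.HD5

/-! EXPORT (HOM). Existence of the degree: H3 of the plan. -/

open Set Metric Filter Topology Function BEv
open scoped NNReal

noncomputable section
namespace BEp

theorem exists_deg (E F : Type) [NormedAddCommGroup E] [NormedSpace ℝ E] [FiniteDimensional ℝ E]
    [NormedAddCommGroup F] [NormedSpace ℝ F] [FiniteDimensional ℝ F] :
    ∃ dg : Set E → (E → F) → ℤ, Module.finrank ℝ E = Module.finrank ℝ F → IsDeg dg := by
  by_cases h : Module.finrank ℝ E = Module.finrank ℝ F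
  · obtain ⟨dz, hz⟩ := exists_isDeg h
    exact ⟨dz, fun _ => hz⟩
  · exact ⟨fun _ _ => 0, fun h' => absurd h' h⟩

variable {E F : Type} [NormedAddCommGroup E] [NormedSpace ℝ E] [FiniteDimensional ℝ E]
  [NormedAddCommGroup F] [NormedSpace ℝ F] [FiniteDimensional ℝ F]

def deg (O : Set E) (G : E → F) : ℤ := (exists_deg E F).choose O G

theorem isDeg (h : Module.finrank ℝ E = Module.finrank ℝ F) :
    IsDeg (deg : Set E → (E → F) → ℤ) := (exists_deg E F).choose_spec h

end BEp
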