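import Pool.Agent.Work.MP_f0515e_an.Pos.HDeg1
import Pool.Agent.Work.MP_f0515e_an.Pos.HAvoid

/-! EXPORT (HOM). Properties of the degree: D2, D5, D6, D7 of the plan.

PLAN. The first four are `deg_eqOn`, `deg_nz`, `deg_domain_eq`, `deg_target_eq` of `Pos/HDeg1.lean`
(take any `M0`, `ContinuousLinearEquiv.ofFinrankEq`). `frontier_prod_Ioo`: `frontier_prod_eq`,
`closure_Ioo`, `frontier_Ioo`. `deg_cat`: `deg_add` with `O ×ˢ Ioo 0 (1/2)` and `O ×ˢ Ioo (1/2) 1` (at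
time `1/2` the value `H (x, 1)` is nonzero because `(x, 1)` is a frontier point); each half is the
preimage of `O ×ˢ Ioo 0 1` under `(x, t) ↦ (x, 2 t)`, `(x, 2 t - 1)`: `deg_domain_self` with
`L = (refl).prodCongr (2 • ·)` (`sdet_prod`), `cat_left`, `cat_right`, `deg_eqOn`. `deg_rev`: the same
with `(x, t) ↦ (x, 1 - t)` and `sdet_neg`. About 150 lines. -/

open Set Metric Filter Topology Function BEv
open scoped NNReal

noncomputable section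
namespace BEp

variable {E F G : Type} [NormedAddCommGroup E] [NormedSpace ℝ E] [FiniteDimensional ℝ E]
  [NormedAddCommGroup F] [NormedSpace ℝ F] [FiniteDimensional ℝ F]
  [NormedAddCommGroup G] [NormedSpace ℝ G] [FiniteDimensional ℝ G]

theorem hd2_pm {a b : ℤ} (ha : a = 1 ∨ a = -1) (hb : b = 1 ∨ b = -1) :
    a * b = 1 ∨ a * b = -1 := by
  rcases ha with rfl | rfl <;> rcases hb with rfl | rfl <;> simp

theorem hd2_fr {X : Type} [TopologicalSpace X] {O : Set X} {a b : ℝ} (hab : a < b) {p : X × ℝ} :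
    p ∈ frontier (O ×ˢ Ioo a b) ↔
      (p.1 ∈ closure O ∧ (p.2 = a ∨ p.2 = b)) ∨ (p.1 ∈ frontier O ∧ p.2 ∈ Icc a b) := by
  rw [frontier_prod_eq, frontier_Ioo hab, closure_Ioo hab.ne]
  rfl

/-- Multiplication by a nonzero real number. -/
def hd2_sc (c : ℝ) (hc : c ≠ 0) : ℝ ≃L[ℝ] ℝ :=
  ContinuousLinearEquiv.equivOfInverse (c • ContinuousLinearMap.id ℝ ℝ)
    (c⁻¹ • ContinuousLinearMap.id ℝ ℝ) (fun x => by simp [hc]) (fun x => by simp [hc])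

theorem hd2_sdet (c : ℝ) (hc : c ≠ 0) : sdet (hd2_sc c hc) = SignType.sign c := by
  have h : ContinuousLinearMap.det (hd2_sc c hc : ℝ →L[ℝ] ℝ) = c := by
    show LinearMap.det (c • (LinearMap.id : ℝ →ₗ[ℝ] ℝ)) = c
    rw [LinearMap.det_smul]
    simp
  rw [sdet, h]

theorem hd2_refl : sdet (ContinuousLinearEquiv.refl ℝ E) = 1 := by
  refine sdet_eq_one.2 ?_
  show 0 < LinearMap.det (LinearMap.id : E →ₗ[ℝ] E)
  simp

theorem hd2_aff (h : Module.finrank ℝ (E × ℝ) = Module.finrank ℝ F) {O : Set E}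
    {H : E × ℝ → F} (hH : Adm (O ×ˢ Ioo (0 : ℝ) 1) H) {c d : ℝ} (hc : c ≠ 0) {I : Set ℝ}
    (hI : ∀ t, t ∈ I ↔ c * t + d ∈ Ioo (0 : ℝ) 1) :
    Adm (O ×ˢ I) (fun p => H (p.1, c * p.2 + d)) ∧
      deg (O ×ˢ I) (fun p => H (p.1, c * p.2 + d)) =
        SignType.sign c * deg (O ×ˢ Ioo (0 : ℝ) 1) H := by
  let L : (E × ℝ) ≃L[ℝ] (E × ℝ) := (ContinuousLinearEquiv.refl ℝ E).prodCongr (hd2_sc c hc)
  have e : ∀ p : E × ℝ, L p + (0, d) = (p.1, c * p.2 + d) := fun p =>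
    Prod.ext (add_zero p.1) rfl
  have e1 : (fun p => L p + (0, d)) ⁻¹' (O ×ˢ Ioo (0 : ℝ) 1) = O ×ˢ I := by
    ext p
    rw [mem_preimage, e, mem_prod, mem_prod, hI]
  have h1 := (deg_domain_eq L (0, d) (ContinuousLinearEquiv.ofFinrankEq h) hH).1
  have h2 := deg_domain_self h L (0, d) hH
  rw [e1] at h1 h2
  simp only [e] at h1 h2
  refine ⟨h1, h2.trans ?_⟩
  rw [sdet_prod, hd2_refl, hd2_sdet, one_mul]

theorem deg_congr (h : Module.finrank ℝ E = Module.finrank ℝ F) {O : Set E} {u v : E → F}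
    (hu : Adm O u) (hv : Continuous v) (e : EqOn u v (frontier O)) : deg O u = deg O v :=
  deg_eqOn h hu hv e

theorem deg_zero (h : Module.finrank ℝ E = Module.finrank ℝ F) {O : Set E} {u : E → F}
    (hu : Adm O u) (h0 : ∀ x ∈ O, u x ≠ 0) : deg O u = 0 :=
  deg_nz h hu h0

theorem deg_domain (h : Module.finrank ℝ E = Module.finrank ℝ F) (L : G ≃L[ℝ] E) (b : E) :
    ∃ e : ℤ, (e = 1 ∨ e = -1) ∧ ∀ (O : Set E) (u : E → F), Adm O u →
      deg ((fun x => L x + b) ⁻¹' O) (fun x => u (L x + b)) = e * deg O u := by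
  have M0 : E ≃L[ℝ] F := ContinuousLinearEquiv.ofFinrankEq h
  exact ⟨sg (L.trans M0) * sg M0, hd2_pm (sg_cases _) (sg_cases _),
    fun O u hu => (deg_domain_eq L b M0 hu).2⟩

theorem deg_target (h : Module.finrank ℝ E = Module.finrank ℝ F) (L : F ≃L[ℝ] G) :
    ∃ e : ℤ, (e = 1 ∨ e = -1) ∧ ∀ (O : Set E) (u : E → F), Adm O u →
      deg O (fun x => L (u x)) = e * deg O u := by
  have M0 : E ≃L[ℝ] F := ContinuousLinearEquiv.ofFinrankEq h
  exact ⟨sg (M0.trans L) * sg M0, hd2_pm (sg_cases _) (sg_cases _),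
    fun O u hu => (deg_target_eq L M0 hu).2⟩

theorem frontier_prod_Ioo {O : Set E} (hO : IsOpen O) {p : E × ℝ}
    (hp : p ∈ frontier (O ×ˢ Ioo (0 : ℝ) 1)) :
    (p.1 ∈ frontier O ∧ p.2 ∈ Icc (0 : ℝ) 1) ∨ (p.1 ∈ closure O ∧ (p.2 = 0 ∨ p.2 = 1)) :=
  ((hd2_fr zero_lt_one).1 hp).symm

theorem deg_cat (h : Module.finrank ℝ (E × ℝ) = Module.finrank ℝ F) {O : Set E}
    {H K : E × ℝ → F} (hH : Adm (O ×ˢ Ioo (0 : ℝ) 1) H) (hK : Adm (O ×ˢ Ioo (0 : ℝ) 1) K)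
    (e : ∀ x ∈ closure O, H (x, 1) = K (x, 0)) :
    Adm (O ×ˢ Ioo (0 : ℝ) 1) (cat H K) ∧
      deg (O ×ˢ Ioo (0 : ℝ) 1) (cat H K) =
        deg (O ×ˢ Ioo (0 : ℝ) 1) H + deg (O ×ˢ Ioo (0 : ℝ) 1) K := by
  have hO : IsOpen O := by
    rcases isOpen_prod_iff'.1 hH.1 with h1 | h1 | h1
    · exact h1.1
    · rw [h1]
      exact isOpen_empty
    · exact absurd h1 (nonempty_Ioo.2 zero_lt_one).ne_empty
  have hA : Adm (O ×ˢ Ioo (0 : ℝ) 1) (cat H K) := by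
    refine ⟨hH.1, hH.2.1, cat_cont hH.2.2.1 hK.2.2.1, ?_⟩
    rintro ⟨x, s⟩ hp
    rcases (hd2_fr zero_lt_one).1 hp with ⟨hx, hs | hs⟩ | ⟨hx, hs⟩
    · obtain rfl : s = 0 := hs
      rw [cat_left H K x (by norm_num)]
      exact hH.2.2.2 _ ((hd2_fr zero_lt_one).2 (Or.inl ⟨hx, Or.inl (by norm_num)⟩))
    · obtain rfl : s = 1 := hs
      rw [cat_right (e x hx) (by norm_num)]
      exact hK.2.2.2 _ ((hd2_fr zero_lt_one).2 (Or.inl ⟨hx, Or.inr (by norm_num)⟩))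
    · have h0 : 0 ≤ s := hs.1
      have h1 : s ≤ 1 := hs.2
      rcases le_total s (1 / 2) with h2 | h2
      · rw [cat_left H K x h2]
        exact hH.2.2.2 _ ((hd2_fr zero_lt_one).2
          (Or.inr ⟨hx, by show 0 ≤ 2 * s; linarith, by show 2 * s ≤ 1; linarith⟩))
      · rw [cat_right (e x (frontier_subset_closure hx)) h2]
        exact hK.2.2.2 _ ((hd2_fr zero_lt_one).2
          (Or.inr ⟨hx, by show 0 ≤ 2 * s - 1; linarith, by show 2 * s - 1 ≤ 1; linarith⟩))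
  refine ⟨hA, ?_⟩
  obtain ⟨a1, a2, h12⟩ := deg_add h (O1 := O ×ˢ Ioo (0 : ℝ) (1 / 2))
    (O2 := O ×ˢ Ioo (1 / 2 : ℝ) 1) hA (hO.prod isOpen_Ioo) (hO.prod isOpen_Ioo)
    (prod_mono Subset.rfl (Ioo_subset_Ioo_right (by norm_num)))
    (prod_mono Subset.rfl (Ioo_subset_Ioo_left (by norm_num)))
    (Set.disjoint_left.2 fun p h1 h2 => lt_asymm h1.2.2 h2.2.1) (by
      rintro ⟨x, s⟩ ⟨hx, h0, h1⟩ hz
      rcases lt_trichotomy s (1 / 2) with h2 | h2 | h2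
      · exact Or.inl ⟨hx, h0, h2⟩
      · rw [cat_left H K x h2.le] at hz
        refine absurd hz (hH.2.2.2 _ ((hd2_fr zero_lt_one).2
          (Or.inl ⟨subset_closure hx, Or.inr ?_⟩)))
        show 2 * s = 1
        linarith
      · exact Or.inr ⟨hx, h2, h1⟩)
  obtain ⟨b1, c1⟩ := hd2_aff h hH (c := 2) (d := 0) two_ne_zero (I := Ioo (0 : ℝ) (1 / 2))
    (fun t => by
      simp only [mem_Ioo]
      constructor <;> rintro ⟨h1, h2⟩ <;> constructor <;> linarith)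
  obtain ⟨b2, c2⟩ := hd2_aff h hK (c := 2) (d := -1) two_ne_zero (I := Ioo (1 / 2 : ℝ) 1)
    (fun t => by
      simp only [mem_Ioo]
      constructor <;> rintro ⟨h1, h2⟩ <;> constructor <;> linarith)
  rw [sign_pos two_pos, SignType.coe_one, one_mul] at c1 c2
  rw [h12, ← c1, ← c2]
  congr 1
  · refine deg_eqOn h a1 b1.2.2.1 ?_
    rintro ⟨x, s⟩ hp
    have h2 : s ≤ 1 / 2 := by
      rcases (hd2_fr (by norm_num)).1 hp with ⟨-, hs | hs⟩ | ⟨-, hs⟩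
      · exact hs.le.trans (by norm_num)
      · exact hs.le
      · exact hs.2
    rw [cat_left H K x h2]
    simp
  · refine deg_eqOn h a2 b2.2.2.1 ?_
    rintro ⟨x, s⟩ hp
    have h2 : x ∈ closure O ∧ 1 / 2 ≤ s := by
      rcases (hd2_fr (by norm_num)).1 hp with ⟨hx, hs | hs⟩ | ⟨hx, hs⟩
      · exact ⟨hx, hs.ge⟩
      · exact ⟨hx, le_trans (by norm_num) hs.ge⟩
      · exact ⟨frontier_subset_closure hx, hs.1⟩
    rw [cat_right (e x h2.1) h2.2]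
    simp [sub_eq_add_neg]

theorem deg_rev (h : Module.finrank ℝ (E × ℝ) = Module.finrank ℝ F) {O : Set E}
    {H : E × ℝ → F} (hH : Adm (O ×ˢ Ioo (0 : ℝ) 1) H) :
    Adm (O ×ˢ Ioo (0 : ℝ) 1) (rev H) ∧
      deg (O ×ˢ Ioo (0 : ℝ) 1) (rev H) = -deg (O ×ˢ Ioo (0 : ℝ) 1) H := by
  obtain ⟨b1, c1⟩ := hd2_aff h hH (c := -1) (d := 1) (by norm_num) (I := Ioo (0 : ℝ) 1)
    (fun t => by
      simp only [mem_Ioo]
      constructor <;> rintro ⟨h1, h2⟩ <;> constructor <;> linarith)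
  have e : (fun p : E × ℝ => H (p.1, -1 * p.2 + 1)) = rev H := by
    funext p
    simp only [rev]
    congr 2
    ring
  rw [e] at b1 c1
  refine ⟨b1, ?_⟩
  rw [c1, sign_neg (by norm_num)]
  simp

end BEp
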