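import Pool.Agent.Work.MP_f0515e_an.Pos.HAvoid
import Pool.Agent.Work.MP_f0515e_an.Pos.HGL
import Pool.Agent.Work.MP_f0515e_an.Pos.PLSt2
import Pool.Agent.Work.MP_f0515e_an.Pos.PLSt3
import Pool.Agent.Work.MP_f0515e_an.Pos.HDeg
import Pool.Agent.Work.MP_f0515e_an.Pos.HHEP
import Pool.Agent.Work.MP_f0515e_an.Pos.HDeg2
import Pool.Agent.Work.MP_f0515e_an.Pos.PLSG
import Pool.Agent.Work.MP_f0515e_an.Pos.PLPoly
import Pool.Agent.Work.MP_f0515e_an.Pos.HDeg3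
import Pool.Agent.Work.MP_f0515e_an.Pos.PLTP

-- merged part: Pool.Agent.Work.MP_f0515e_an.Pos.HArc
section
/-! Changing a map along a segment; replacing a model with two zeros.

PLAN. `arc`: `u (t, s) = (1 - s) • W (t, 0) + s • η t` on `ℝ × ℝ`; `avoid` with
`P = Icc a b ×ˢ Icc 0 1`, `A = {q | q.1 = a ∨ q.1 = b ∨ q.2 = 0 ∨ q.2 = 1}` (`Sm.univ`, rank `2`) gives `v`.
`H (x, r) = W x + v (c x.1, r * χ x) - v (c x.1, 0)`, `c t = max a (min b t)`,
`χ x = max 0 (1 - ‖x.2‖ / τ)`. The compact set `v '' P` has a `μ`-thickening missing `Bad`; choose `τ` with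
`‖W (t, y) - W (t, 0)‖ < μ` for `t ∈ [a,b]`, `‖y‖ ≤ τ` (uniform continuity or the tube lemma).
`path_avoid`: `avoid` on `ℝ` with `P = Icc 0 1`, `A = {0, 1}`, `Sm.real`.
`box_replace`: `mo x = (max (|x.1| - 1) (-δ), x.2)`, `w x = g x - L x.1 (mo x)` vanishes on the axis for
`|t| ≤ 1 + δ` and on the two end boxes. With `s = ‖x.2‖ / τ`, `κ = max 0 (min 1 ((1 + δ - |x.1|) / δ))`,
`ψ = max 0 (1 - 2 s)`, `θ = max 0 (min 1 (2 - 2 s))` put
`g' x = g x + κ • ((2 δ ψ) • L x.1 (1, 0) - θ • w x)`. In the box `κ • w = w`. For `s ≤ 1/2`: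
`g' = L x.1 (mo x + (2 δ κ ψ, 0))`, nonzero (if `x.2 = 0` then `ψ = 1` and the first entry is positive).
For `s ≥ 1/2`: `g' = L x.1 (mo x) + (1 - θ) • w x`; on the end boxes `w = 0`, `x.2 ≠ 0`; in the middle
choose `τ` by the tube lemma (the function `(x, λ) ↦ L x.1 (mo x) + λ • w x` is nonzero on the compact
set `x.2 = 0, |x.1| ≤ 1 - δ, λ ∈ [0,1]`), and so that `‖w x‖ < r - 3 δ ‖L x.1‖` on the box.
About 300 lines. -/

open Set Metric Filter Topology Function BEv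
open scoped NNReal

noncomputable section
namespace BEp

variable {E F G : Type} [NormedAddCommGroup E] [NormedSpace ℝ E] [FiniteDimensional ℝ E]
  [NormedAddCommGroup F] [NormedSpace ℝ F] [FiniteDimensional ℝ F]
  [NormedAddCommGroup G] [NormedSpace ℝ G] [FiniteDimensional ℝ G]

omit [NormedSpace ℝ E] [FiniteDimensional ℝ E] in
theorem harc_tube {Y : Type} [TopologicalSpace Y] {K : Set Y} (hK : IsCompact K)
    {N : Set (Y × E)} (hN : IsOpen N) (h : ∀ y ∈ K, (y, (0 : E)) ∈ N) {τ0 : ℝ} (hτ0 : 0 < τ0) :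
    ∃ τ : ℝ, 0 < τ ∧ τ ≤ τ0 ∧ ∀ y ∈ K, ∀ e : E, ‖e‖ ≤ τ → (y, e) ∈ N := by
  obtain ⟨u, v, -, hv, h1, h2, h3⟩ := generalized_tube_lemma hK (isCompact_singleton (x := (0 : E)))
    hN (by
      rintro ⟨y, e⟩ ⟨hy, he⟩
      rw [mem_singleton_iff] at he
      simp only at he hy
      rw [he]
      exact h y hy)
  obtain ⟨ρ, hρ, h4⟩ := Metric.isOpen_iff.1 hv 0 (h2 rfl)
  refine ⟨min (ρ / 2) τ0, lt_min (half_pos hρ) hτ0, min_le_right _ _, fun y hy e he => ?_⟩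
  refine h3 ⟨h1 hy, h4 ?_⟩
  rw [mem_ball_zero_iff]
  linarith only [hρ, he, min_le_left (ρ / 2) τ0]

theorem path_avoid {d : ℕ} {Bad : Set F} (hB : IsClosed Bad) (hd : Sm d Bad)
    (hdim : d + 1 < Module.finrank ℝ F) {z0 z1 : F} (h0 : z0 ∉ Bad) (h1 : z1 ∉ Bad) :
    ∃ β : ℝ → F, Continuous β ∧ β 0 = z0 ∧ β 1 = z1 ∧ ∀ t ∈ Icc (0 : ℝ) 1, β t ∉ Bad := by
  obtain ⟨v, hv, hvA, -, hvP⟩ := avoid (E := ℝ) (d := 1) (P := Icc 0 1) (A := {0, 1})
    isCompact_Icc (Sm.real _) (Set.toFinite _).isClosed hB hd (by omega)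
    (u := fun t => (1 - t) • z0 + t • z1) (by fun_prop)
    (by
      rintro x ⟨hx | hx, -⟩
      · rw [hx]
        simpa using h0
      · rw [mem_singleton_iff.1 hx]
        simpa using h1) one_pos
  refine ⟨v, hv, ?_, ?_, hvP⟩
  · rw [hvA (by simp)]
    simp
  · rw [hvA (by simp)]
    simp

theorem arc {d : ℕ} {Bad : Set F} (hB : IsClosed Bad) (hd : Sm d Bad)
    (hdim : d + 2 < Module.finrank ℝ F) {W : ℝ × E → F} (hW : Continuous W) {a b : ℝ}
    (hab : a < b) {η : ℝ → F} (hη : Continuous η) (ha : η a = W (a, 0)) (hb : η b = W (b, 0))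
    (hWB : ∀ t ∈ Icc a b, W (t, 0) ∉ Bad) (hηB : ∀ t ∈ Icc a b, η t ∉ Bad) {τ0 : ℝ}
    (hτ0 : 0 < τ0) :
    ∃ (H : (ℝ × E) × ℝ → F) (τ : ℝ), 0 < τ ∧ τ ≤ τ0 ∧ Continuous H ∧ (∀ x, H (x, 0) = W x) ∧
      (∀ x r, (x.1 ≤ a ∨ b ≤ x.1 ∨ τ ≤ ‖x.2‖) → H (x, r) = W x) ∧
      (∀ x, x.1 ∈ Icc a b → ‖x.2‖ ≤ τ → ∀ r ∈ Icc (0 : ℝ) 1, H (x, r) ∉ Bad) ∧
      ∀ t ∈ Icc a b, H ((t, 0), 1) = η t := by
  have hs2 : Sm 2 (univ : Set (ℝ × ℝ)) := by
    have := Sm.univ (E := ℝ × ℝ)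
    rwa [show Module.finrank ℝ (ℝ × ℝ) = 2 by simp] at this
  have hP : IsCompact (Icc a b ×ˢ Icc (0 : ℝ) 1) := isCompact_Icc.prod isCompact_Icc
  obtain ⟨v, hv, hvA, -, hvP⟩ := avoid (E := ℝ × ℝ) (d := 2) (P := Icc a b ×ˢ Icc 0 1)
    (A := {q | q.1 = a ∨ q.1 = b ∨ q.2 = 0 ∨ q.2 = 1}) hP (hs2.mono (subset_univ _))
    ((isClosed_eq continuous_fst continuous_const).union
      ((isClosed_eq continuous_fst continuous_const).union
        ((isClosed_eq continuous_snd continuous_const).union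
          (isClosed_eq continuous_snd continuous_const)))) hB hd (by omega)
    (u := fun q => (1 - q.2) • W (q.1, 0) + q.2 • η q.1) (by fun_prop)
    (by
      rintro ⟨t, s⟩ ⟨hx, h1, -⟩
      simp only at h1 ⊢
      rcases hx with hx | hx | hx | hx <;> simp only at hx
      · rw [hx, ha, ← add_smul, sub_add_cancel, one_smul]
        exact hWB a ⟨le_rfl, hab.le⟩
      · rw [hx, hb, ← add_smul, sub_add_cancel, one_smul]
        exact hWB b ⟨hab.le, le_rfl⟩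
      · rw [hx]
        simpa using hWB t h1
      · rw [hx]
        simpa using hηB t h1) one_pos
  have va : ∀ s, v (a, s) = W (a, 0) := fun s => by
    rw [hvA (Or.inl rfl)]
    simp only
    rw [ha, ← add_smul, sub_add_cancel, one_smul]
  have vb : ∀ s, v (b, s) = W (b, 0) := fun s => by
    rw [hvA (Or.inr (Or.inl rfl))]
    simp only
    rw [hb, ← add_smul, sub_add_cancel, one_smul]
  have v0 : ∀ t, v (t, 0) = W (t, 0) := fun t => by
    rw [hvA (Or.inr (Or.inr (Or.inl rfl)))]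
    simp
  have v1 : ∀ t, v (t, 1) = η t := fun t => by
    rw [hvA (Or.inr (Or.inr (Or.inr rfl)))]
    simp
  obtain ⟨τ, hτ, hτ1, hτN⟩ := harc_tube (E := E) hP
    (N := {p | W (p.1.1, p.2) + v p.1 - v (p.1.1, 0) ∉ Bad})
    (hB.isOpen_compl.preimage
      (f := fun p : (ℝ × ℝ) × E => W (p.1.1, p.2) + v p.1 - v (p.1.1, 0)) (by fun_prop))
    (fun y hy => by
      show W (y.1, 0) + v y - v (y.1, 0) ∉ Bad
      rw [v0, add_sub_cancel_left]
      exact hvP y hy) hτ0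
  refine ⟨fun q => W q.1 + v (max a (min b q.1.1), q.2 * max 0 (1 - ‖q.1.2‖ / τ)) -
    v (max a (min b q.1.1), 0), τ, hτ, hτ1, by fun_prop, fun x => by simp, fun x r hx => ?_,
    fun x hx hy r hr => ?_, fun t ht => ?_⟩
  · rcases hx with hx | hx | hx
    · simp only [max_eq_left ((min_le_right b x.1).trans hx), va, add_sub_cancel_right]
    · simp only [min_eq_left hx, max_eq_right hab.le, vb, add_sub_cancel_right]
    · have : 1 - ‖x.2‖ / τ ≤ 0 := by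
        rw [sub_nonpos, le_div_iff₀ hτ]
        linarith only [hx]
      simp only [max_eq_left this, mul_zero, add_sub_cancel_right]
  · simp only [min_eq_right hx.2, max_eq_right hx.1]
    have h1 : max 0 (1 - ‖x.2‖ / τ) ≤ 1 :=
      max_le zero_le_one (sub_le_self _ (div_nonneg (norm_nonneg _) hτ.le))
    exact hτN (x.1, r * max 0 (1 - ‖x.2‖ / τ)) ⟨hx, mul_nonneg hr.1 (le_max_left _ _),
      mul_le_one₀ hr.2 (le_max_left _ _) h1⟩ x.2 hy
  · simp [min_eq_right ht.2, max_eq_right ht.1, v0, v1]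

theorem box_replace {L : ℝ → (ℝ × E) →L[ℝ] F} (hL : Continuous L) (hLi : ∀ t, Injective (L t))
    {δ r : ℝ} (hδ : 0 < δ) (hδ1 : δ < 1 / 2) {g : ℝ × E → F} (hg : Continuous g)
    (hend : ∀ x : ℝ × E, 1 - δ ≤ |x.1| → |x.1| ≤ 1 + δ → ‖x.2‖ ≤ δ →
      g x = L x.1 (|x.1| - 1, x.2))
    (hax : ∀ t : ℝ, |t| ≤ 1 - δ → g (t, 0) = L t (-δ, 0))
    (hr : ∀ t : ℝ, |t| ≤ 1 + δ → 4 * δ * ‖L t‖ < r) {τ0 : ℝ} (hτ0 : 0 < τ0) :
    ∃ (g' : ℝ × E → F) (τ : ℝ), 0 < τ ∧ τ ≤ τ0 ∧ τ ≤ δ ∧ Continuous g' ∧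
      (∀ x : ℝ × E, (1 + δ ≤ |x.1| ∨ τ ≤ ‖x.2‖) → g' x = g x) ∧
      ∀ x : ℝ × E, |x.1| ≤ 1 + δ → ‖x.2‖ ≤ τ → g' x ≠ 0 ∧ ‖g' x‖ < r ∧ ‖g x‖ < r := by
  obtain ⟨mo, hmo⟩ : ∃ mo : ℝ × E → ℝ × E, ∀ x, mo x = (max (|x.1| - 1) (-δ), x.2) :=
    ⟨_, fun _ => rfl⟩
  have hmoc : Continuous mo := by
    rw [funext hmo]
    fun_prop
  obtain ⟨w, hw⟩ : ∃ w : ℝ × E → F, ∀ x, w x = g x - L x.1 (mo x) := ⟨_, fun _ => rfl⟩
  have hwc : Continuous w := by
    rw [funext hw]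
    exact hg.sub ((hL.comp continuous_fst).clm_apply hmoc)
  have wend : ∀ x : ℝ × E, 1 - δ ≤ |x.1| → |x.1| ≤ 1 + δ → ‖x.2‖ ≤ δ → w x = 0 := by
    intro x h1 h2 h3
    rw [hw, hmo, hend x h1 h2 h3, max_eq_left (by linarith only [h1]), sub_self]
  have wax : ∀ t : ℝ, |t| ≤ 1 + δ → w (t, 0) = 0 := by
    intro t ht
    rcases le_total (|t|) (1 - δ) with h1 | h1
    · rw [hw, hmo, hax t h1, max_eq_right (by simp only; linarith), sub_self]
    · exact wend (t, 0) h1 ht (by simpa using hδ.le)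
  have hLne : ∀ t (z : ℝ × E), z ≠ 0 → L t z ≠ 0 := fun t z hz h0 =>
    hz (hLi t (h0.trans (map_zero _).symm))
  obtain ⟨τ1, hτ1, hτ1', hN1⟩ := harc_tube (E := E)
    ((isCompact_Icc (a := -(1 - δ)) (b := 1 - δ)).prod (isCompact_Icc (a := (0 : ℝ)) (b := 1)))
    (N := {p | L p.1.1 (mo (p.1.1, p.2)) + p.1.2 • w (p.1.1, p.2) ≠ 0})
    (isOpen_ne_fun (((hL.comp (by fun_prop)).clm_apply (hmoc.comp (by fun_prop))).add
      ((by fun_prop : Continuous fun p : (ℝ × ℝ) × E => p.1.2).smul (hwc.comp (by fun_prop))))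
      continuous_const)
    (fun y hy => by
      have h1 : |y.1| ≤ 1 - δ := abs_le.2 hy.1
      show L y.1 (mo (y.1, 0)) + y.2 • w (y.1, 0) ≠ 0
      rw [wax _ (by linarith), smul_zero, add_zero, hmo, max_eq_right (by simp only; linarith)]
      refine hLne _ _ fun h0 => ?_
      have := congrArg Prod.fst h0
      simp only [Prod.fst_zero] at this
      linarith) (lt_min hτ0 hδ)
  obtain ⟨τ, hτ, hτ', hN2⟩ := harc_tube (E := E) (isCompact_Icc (a := -(1 + δ)) (b := 1 + δ))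
    (N := {p | 3 * δ * ‖L p.1‖ + ‖w p‖ < r})
    (isOpen_lt ((continuous_const.mul (hL.comp continuous_fst).norm).add hwc.norm)
      continuous_const)
    (fun y hy => by
      have h1 : |y| ≤ 1 + δ := abs_le.2 hy
      show 3 * δ * ‖L y‖ + ‖w (y, 0)‖ < r
      rw [wax _ h1, norm_zero, add_zero]
      have h2 := hr y h1
      have h3 : 0 ≤ δ * ‖L y‖ := mul_nonneg hδ.le (norm_nonneg _)
      linarith) hτ1
  have hτδ : τ ≤ δ := hτ'.trans (hτ1'.trans (min_le_right _ _))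
  have hnorm : ∀ x : ℝ × E, |x.1| ≤ 1 + δ → ‖x.2‖ ≤ τ → ∀ c : ℝ, 0 ≤ c → c ≤ 2 * δ →
      ∀ l : ℝ, 0 ≤ l → l ≤ 1 → ‖L x.1 (mo x + (c, 0)) + l • w x‖ < r := by
    intro x h1 h2 c c0 c1 l l0 l1
    have h3 : 3 * δ * ‖L x.1‖ + ‖w x‖ < r := hN2 x.1 (abs_le.1 h1) x.2 h2
    have h4 : ‖mo x + (c, 0)‖ ≤ 3 * δ := by
      rw [hmo, Prod.mk_add_mk, add_zero, Prod.norm_mk]
      refine max_le ?_ (by linarith)
      have k1 := le_max_right (|x.1| - 1) (-δ)
      have k2 : max (|x.1| - 1) (-δ) ≤ δ := max_le (by linarith) (by linarith)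
      rw [Real.norm_eq_abs, abs_le]
      constructor <;> linarith only [hδ, c0, k1, c1, k2]
    have h5 : ‖L x.1 (mo x + (c, 0))‖ ≤ ‖L x.1‖ * (3 * δ) := (L x.1).le_opNorm_of_le h4
    have h6 : ‖l • w x‖ ≤ ‖w x‖ := by
      rw [norm_smul, Real.norm_eq_abs, abs_of_nonneg l0]
      exact mul_le_of_le_one_left (norm_nonneg _) l1
    have h7 := norm_add_le (L x.1 (mo x + (c, 0))) (l • w x)
    linarith only [h3, h5, h6, h7]
  obtain ⟨κ, hκ⟩ : ∃ κ : ℝ × E → ℝ, ∀ x, κ x = max 0 (min 1 ((1 + δ - |x.1|) / δ)) :=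
    ⟨_, fun _ => rfl⟩
  obtain ⟨ψ, hψ⟩ : ∃ ψ : ℝ × E → ℝ, ∀ x, ψ x = max 0 (1 - 2 * (‖x.2‖ / τ)) := ⟨_, fun _ => rfl⟩
  obtain ⟨θ, hθ⟩ : ∃ θ : ℝ × E → ℝ, ∀ x, θ x = max 0 (min 1 (2 - 2 * (‖x.2‖ / τ))) :=
    ⟨_, fun _ => rfl⟩
  have hκc : Continuous κ := by
    rw [funext hκ]
    fun_prop
  have hψc : Continuous ψ := by
    rw [funext hψ]
    fun_prop
  have hθc : Continuous θ := by
    rw [funext hθ]
    fun_prop
  refine ⟨fun x => g x + κ x • ((2 * δ * ψ x) • L x.1 (1, 0) - θ x • w x), τ, hτ,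
    hτ'.trans (hτ1'.trans (min_le_left _ _)), hτδ,
    hg.add (hκc.smul (((continuous_const.mul hψc).smul
      ((hL.comp continuous_fst).clm_apply continuous_const)).sub (hθc.smul hwc))),
    fun x hx => ?_, fun x h1 h2 => ?_⟩
  · rcases hx with hx | hx
    · have : κ x = 0 := by
        rw [hκ]
        exact max_eq_left ((min_le_right _ _).trans
          (div_nonpos_of_nonpos_of_nonneg (by linarith) hδ.le))
      simp only [this, zero_smul, add_zero]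
    · have h1 : 1 ≤ ‖x.2‖ / τ := by
        rw [le_div_iff₀ hτ]
        linarith
      have h2 : ψ x = 0 := by
        rw [hψ]
        exact max_eq_left (by linarith only [hδ, hδ1, h1])
      have h3 : θ x = 0 := by
        rw [hθ]
        exact max_eq_left ((min_le_right _ _).trans (by linarith only [h1]))
      simp only [h2, h3, mul_zero, zero_smul, sub_self, smul_zero, add_zero]
  have s0 : 0 ≤ ‖x.2‖ / τ := div_nonneg (norm_nonneg _) hτ.le
  have κ0 : 0 ≤ κ x := hκ x ▸ le_max_left _ _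
  have κ1 : κ x ≤ 1 := hκ x ▸ max_le zero_le_one (min_le_left _ _)
  have ψ0 : 0 ≤ ψ x := hψ x ▸ le_max_left _ _
  have ψ1 : ψ x ≤ 1 := hψ x ▸ max_le zero_le_one (by linarith only [s0])
  have θ0 : 0 ≤ θ x := hθ x ▸ le_max_left _ _
  have θ1 : θ x ≤ 1 := hθ x ▸ max_le zero_le_one (min_le_left _ _)
  have κe : |x.1| ≤ 1 → κ x = 1 := fun h => by
    rw [hκ, min_eq_left (by rw [le_div_iff₀ hδ]; linarith), max_eq_right zero_le_one]
  have hκw : κ x • θ x • w x = θ x • w x := by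
    rcases le_total (|x.1|) 1 with h | h
    · rw [κe h, one_smul]
    · rw [wend x (by linarith) h1 (h2.trans hτδ), smul_zero, smul_zero]
  have hgx : g x = L x.1 (mo x) + w x := by
    rw [hw]
    abel
  have e : g x + κ x • ((2 * δ * ψ x) • L x.1 (1, 0) - θ x • w x) =
      L x.1 (mo x + (2 * δ * (κ x * ψ x), 0)) + (1 - θ x) • w x := by
    have e1 : ((2 * δ * (κ x * ψ x), 0) : ℝ × E) = (κ x * (2 * δ * ψ x)) • ((1, 0) : ℝ × E) := by
      rw [Prod.smul_mk, smul_zero, smul_eq_mul]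
      congr 1
      ring
    rw [smul_sub, hκw, smul_smul, map_add, e1, map_smul, sub_smul, one_smul, hgx]
    abel
  have kp : 0 ≤ κ x * ψ x := mul_nonneg κ0 ψ0
  have kp1 : κ x * ψ x ≤ 1 := mul_le_one₀ κ1 ψ0 ψ1
  refine ⟨?_, ?_, ?_⟩
  · simp only [e]
    rcases le_total (‖x.2‖ / τ) (1 / 2) with hs | hs
    · have h3 : θ x = 1 := by
        rw [hθ, min_eq_left (by linarith only [hs]), max_eq_right zero_le_one]
      rw [h3, sub_self, zero_smul, add_zero]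
      refine hLne _ _ fun h0 => ?_
      rw [hmo, Prod.mk_add_mk, add_zero, Prod.mk_eq_zero] at h0
      have h4 : ψ x = 1 := by
        rw [hψ, h0.2]
        simp
      have h5 := h0.1
      rw [h4, mul_one] at h5
      rcases le_or_gt (|x.1|) 1 with h | h
      · rw [κe h] at h5
        linarith only [hδ, h5, le_max_right (|x.1| - 1) (-δ)]
      · have h6 : 0 ≤ 2 * δ * κ x := mul_nonneg (by linarith only [hδ]) κ0
        linarith only [h5, h, h6, le_max_left (|x.1| - 1) (-δ)]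
    · have h3 : ψ x = 0 := by
        rw [hψ]
        exact max_eq_left (by linarith only [hs])
      rw [h3, mul_zero, mul_zero, Prod.mk_zero_zero, add_zero]
      rcases le_total (|x.1|) (1 - δ) with h | h
      · exact hN1 (x.1, 1 - θ x) ⟨abs_le.1 h, by simp only; linarith only [θ1], by simp only; linarith only [θ0]⟩ x.2
          (h2.trans hτ')
      · rw [wend x h h1 (h2.trans hτδ), smul_zero, add_zero]
        refine hLne _ _ fun h0 => ?_
        rw [hmo, Prod.mk_eq_zero] at h0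
        rw [h0.2, norm_zero, zero_div] at hs
        linarith only [hδ, hδ1, hs]
  · simp only [e]
    exact hnorm x h1 h2 _ (mul_nonneg (by linarith) kp)
      (mul_le_of_le_one_right (by linarith) kp1) _ (by linarith) (by linarith)
  · have := hnorm x h1 h2 0 le_rfl (by linarith only [hδ]) 1 zero_le_one le_rfl
    rwa [Prod.mk_zero_zero, add_zero, one_smul, ← hgx] at this

end BEp
end
end

-- merged part: Pool.Agent.Work.MP_f0515e_an.Pos.HPair
section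
/-! Cancelling two zeros of opposite sign, in coordinates.

PLAN. `R = (neg).prodCongr (refl)` on `ℝ × E` has `sdet R = -1` (`sdet_prod`, `sdet_neg`), so
`sg (R.trans Mp) = sg Mq` (`sg_pre`); `iso_path` gives `L`. Choose `0 < δ < 1/2` such that
`4 δ ‖L t‖ < r` on `[-2,2]`, the box `T0 = {|x.1| ≤ 1 + δ, ‖x.2‖ ≤ δ}` lies in `V` (tube lemma or
`IsCompact.exists_cthickening_subset_open` for the segment), and on the end boxes
`{|x.1 ∓ 1| ≤ δ, ‖x.2‖ ≤ δ}` the germ identities hold and `W x ∈ N1 ×ˢ ball 0 r`. There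
`(W x).2 = L x.1 (|x.1| - 1, x.2)`. With `a = -1 + δ`, `b = 1 - δ` let
`η t = (affine interpolation of (W (a,0)).1 and (W (b,0)).1, L t (-δ, 0))`; it lies in the tube with
nonzero second entry, so it misses `Bad`. `arc` (with `τ0 = δ`) gives `H1, τ1`; `W1 = H1 (·, 1)`.
`(W1 x).1 ∈ N1` on the axis `|t| ≤ 1 + δ`, hence for `‖x.2‖ ≤ τ2` (tube lemma). `box_replace` for
`g = (W1 ·).2` with `τ0 = min τ1 τ2` gives `g', τ`. `H2 (x, s) = ((W1 x).1, (1 - s) • g x + s • g' x)` stays in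
the tube on the small box and is static elsewhere. `H = cat H1 H2`, `T = {|x.1| ≤ 1 + δ, ‖x.2‖ ≤ τ1}`.
At the end, for `x ∈ T`: in the small box the value is in the tube with nonzero second entry; else
`τ ≤ ‖x.2‖` and the value is `W1 x`, which misses `Bad` by `arc` (middle) or is `W x` in the tube with
second entry `L x.1 (_, x.2) ≠ 0` (ends). `cat` takes values `H1 (x, s')` or `H2 (x, s')` (`cat_left`,
`cat_right`). About 250 lines. -/

open Set Metric Filter Topology Function BEv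
open scoped NNReal

noncomputable section
namespace BEp

variable {E F G : Type} [NormedAddCommGroup E] [NormedSpace ℝ E] [FiniteDimensional ℝ E]
  [NormedAddCommGroup F] [NormedSpace ℝ F] [FiniteDimensional ℝ F]
  [NormedAddCommGroup G] [NormedSpace ℝ G] [FiniteDimensional ℝ G]

theorem pair_cancel {N1 : Set G} (hN : IsOpen N1) (hNc : Convex ℝ N1) {r : ℝ} (hr : 0 < r)
    {d : ℕ} {Bad : Set (G × F)} (hB : IsClosed Bad) (hd : Sm d Bad)
    (hdim : d + 2 < Module.finrank ℝ (G × F))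
    (hNB : ∀ z ∈ N1 ×ˢ ball (0 : F) r, z ∈ Bad → z.2 = 0) {W : ℝ × E → G × F}
    (hW : Continuous W) (Mp Mq : (ℝ × E) ≃L[ℝ] F) (hsg : sg Mp = -sg Mq)
    (hp : (fun x => (W x).2) =ᶠ[𝓝 (-1, 0)] fun x => Mp (x - (-1, 0)))
    (hq : (fun x => (W x).2) =ᶠ[𝓝 (1, 0)] fun x => Mq (x - (1, 0)))
    (hp1 : (W (-1, 0)).1 ∈ N1) (hq1 : (W (1, 0)).1 ∈ N1)
    (hseg : ∀ t ∈ Ioo (-1 : ℝ) 1, W (t, 0) ∉ Bad) {V : Set (ℝ × E)} (hV : IsOpen V)
    (hsV : ∀ t ∈ Icc (-1 : ℝ) 1, ((t, 0) : ℝ × E) ∈ V) :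
    ∃ (H : (ℝ × E) × ℝ → G × F) (T : Set (ℝ × E)), Continuous H ∧ IsCompact T ∧ T ⊆ V ∧
      (∀ x, H (x, 0) = W x) ∧ (∀ x, x ∉ T → ∀ s, H (x, s) = W x) ∧
      (∀ x ∈ T, ∀ s ∈ Icc (0 : ℝ) 1, H (x, s) ∉ Bad ∨ H (x, s) ∈ N1 ×ˢ ball (0 : F) r) ∧
      (∀ x ∈ T, H (x, 1) ∉ Bad) ∧ ((-1, 0) : ℝ × E) ∈ T ∧ ((1, 0) : ℝ × E) ∈ T := by
  have := FiniteDimensional.proper_real E
  obtain ⟨R, hR, hRa⟩ : ∃ R : (ℝ × E) ≃L[ℝ] (ℝ × E), sdet R = -1 ∧
      ∀ (u : ℝ) (y : E), R (u, y) = (-u, y) := by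
    refine ⟨(ContinuousLinearEquiv.neg ℝ : ℝ ≃L[ℝ] ℝ).prodCongr (ContinuousLinearEquiv.refl ℝ E),
      ?_, fun u y => rfl⟩
    have e : ContinuousLinearMap.det ((ContinuousLinearEquiv.refl ℝ E : E ≃L[ℝ] E) : E →L[ℝ] E) =
        1 := LinearMap.det_id
    rw [sdet_prod, sdet_neg, sdet, e]
    simp
  obtain ⟨L, hL, hLi, hL0, hL1⟩ := iso_path (R.trans Mp) Mq (by rw [sg_pre, hR, hsg]; ring)
  obtain ⟨C, hC⟩ := (isCompact_Icc (a := (-2 : ℝ)) (b := 2)).exists_bound_of_continuousOn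
    hL.continuousOn
  have hC0 : 0 ≤ C := (norm_nonneg _).trans (hC 0 ⟨by norm_num, by norm_num⟩)
  have hK : IsCompact ((fun t : ℝ => ((t, 0) : ℝ × E)) '' Icc (-1) 1) :=
    isCompact_Icc.image (by fun_prop)
  obtain ⟨δ1, hδ1, hth⟩ := hK.exists_cthickening_subset_open hV (by
    rintro _ ⟨t, ht, rfl⟩
    exact hsV t ht)
  have hO : IsOpen (W ⁻¹' (N1 ×ˢ ball (0 : F) r)) := (hN.prod isOpen_ball).preimage hW
  have hpt : W (-1, 0) ∈ N1 ×ˢ ball (0 : F) r := ⟨hp1, by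
    have : (W (-1, 0)).2 = Mp ((-1, 0) - (-1, 0)) := hp.self_of_nhds
    rw [this, sub_self, map_zero]
    exact mem_ball_self hr⟩
  have hqt : W (1, 0) ∈ N1 ×ˢ ball (0 : F) r := ⟨hq1, by
    have : (W (1, 0)).2 = Mq ((1, 0) - (1, 0)) := hq.self_of_nhds
    rw [this, sub_self, map_zero]
    exact mem_ball_self hr⟩
  obtain ⟨ε1, hε1, he1⟩ := nhds_basis_closedBall.eventually_iff.1 (hp.and (hO.mem_nhds hpt))
  obtain ⟨ε2, hε2, he2⟩ := nhds_basis_closedBall.eventually_iff.1 (hq.and (hO.mem_nhds hqt))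
  obtain ⟨δ, hδ, d1, d2, d3, d4, d5⟩ : ∃ δ : ℝ, 0 < δ ∧ δ ≤ δ1 ∧ δ ≤ ε1 ∧ δ ≤ ε2 ∧ δ < 1 / 2 ∧
      4 * δ * C < r := by
    refine ⟨min (min δ1 ε1) (min ε2 (min (1 / 4) (r / (4 * (C + 1))))),
      lt_min (lt_min hδ1 hε1) (lt_min hε2 (lt_min (by norm_num) (by positivity))),
      (min_le_left _ _).trans (min_le_left _ _), (min_le_left _ _).trans (min_le_right _ _),
      (min_le_right _ _).trans (min_le_left _ _), ?_, ?_⟩
    · exact lt_of_le_of_lt ((min_le_right _ _).trans ((min_le_right _ _).trans (min_le_left _ _)))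
        (by norm_num)
    · have h1 : min (min δ1 ε1) (min ε2 (min (1 / 4) (r / (4 * (C + 1))))) ≤ r / (4 * (C + 1)) :=
        (min_le_right _ _).trans ((min_le_right _ _).trans (min_le_right _ _))
      have h2 : 4 * (r / (4 * (C + 1))) * (C + 1) = r := by field_simp
      have h3 : 0 < r / (4 * (C + 1)) := by positivity
      linarith only [h2, h3, hC0, h1, mul_nonneg_of_nonpos_of_nonpos (Mathlib.Tactic.Linarith.sub_nonpos_of_le hC0) (Mathlib.Tactic.Linarith.sub_nonpos_of_le h1)]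
  have hrL : ∀ t : ℝ, |t| ≤ 1 + δ → 4 * δ * ‖L t‖ < r := fun t ht => by
    have h1 := hC t ⟨by linarith only [hδ, d4, ht, (abs_le.1 ht).1], by linarith only [hδ, d4, ht, (abs_le.1 ht).2]⟩
    linarith only [d5, hδ, h1, mul_nonneg_of_nonpos_of_nonpos (le_of_lt (Mathlib.Tactic.Linarith.sub_neg_of_lt hδ)) (Mathlib.Tactic.Linarith.sub_nonpos_of_le h1)]
  have hbox : ∀ x : ℝ × E, |x.1| ≤ 1 + δ → ‖x.2‖ ≤ δ → x ∈ V := fun x h1 h2 => by
    refine hth (mem_cthickening_of_dist_le x (max (-1) (min 1 x.1), 0) δ1 _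
      ⟨_, ⟨le_max_left _ _, max_le (by norm_num) (min_le_left _ _)⟩, rfl⟩ ?_)
    rw [Prod.dist_eq, dist_zero_right, Real.dist_eq]
    refine max_le ?_ (h2.trans d1)
    have h3 := abs_le.1 h1
    rcases le_total 1 x.1 with h | h
    · rw [min_eq_left h, max_eq_right (by norm_num), abs_le]
      constructor <;> linarith only [hδ1, h, d1, h3]
    · rw [min_eq_right h]
      rcases le_total (-1) x.1 with h' | h'
      · rw [max_eq_right h', sub_self, abs_zero]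
        exact hδ1.le
      · rw [max_eq_left h', abs_le]
        constructor <;> linarith only [d1, h3, hδ1, h']
  have hend : ∀ x : ℝ × E, 1 - δ ≤ |x.1| → |x.1| ≤ 1 + δ → ‖x.2‖ ≤ δ →
      (W x).2 = L x.1 (|x.1| - 1, x.2) ∧ W x ∈ N1 ×ˢ ball (0 : F) r := fun x h1 h2 h3 => by
    rcases le_total 0 x.1 with h | h
    · rw [abs_of_nonneg h] at h1 h2 ⊢
      have hx : x ∈ closedBall ((1, 0) : ℝ × E) ε2 := by
        rw [mem_closedBall, Prod.dist_eq, dist_zero_right, Real.dist_eq]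
        exact max_le (abs_le.2 ⟨by linarith only [d3, h1], by linarith only [d3, h2]⟩) (h3.trans d3)
      refine ⟨?_, (he2 hx).2⟩
      rw [hL1 _ (by linarith only [d4, h1])]
      refine (he2 hx).1.trans (congrArg Mq (Prod.ext rfl (sub_zero _)))
    · rw [abs_of_nonpos h] at h1 h2 ⊢
      have hx : x ∈ closedBall ((-1, 0) : ℝ × E) ε1 := by
        rw [mem_closedBall, Prod.dist_eq, dist_zero_right, Real.dist_eq]
        exact max_le (abs_le.2 ⟨by linarith only [d2, h2], by linarith only [d2, h1]⟩) (h3.trans d2)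
      refine ⟨?_, (he1 hx).2⟩
      rw [hL0 _ (by linarith only [d4, h1])]
      refine (he1 hx).1.trans ?_
      show Mp _ = Mp (R _)
      rw [hRa]
      exact congrArg Mp (Prod.ext (by simp only [Prod.fst_sub]; ring) (sub_zero _))
  have n0 : ‖(0 : E)‖ ≤ δ := by rw [norm_zero]; exact hδ.le
  have ea : |(-1 + δ : ℝ)| = 1 - δ := by rw [abs_of_nonpos (by linarith only [hδ, d4])]; ring
  have eb : |(1 - δ : ℝ)| = 1 - δ := abs_of_nonneg (by linarith only [hδ, d4])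
  have hA := hend (-1 + δ, 0) ea.ge (ea.le.trans (by linarith only [hδ])) n0
  have hBb := hend (1 - δ, 0) eb.ge (eb.le.trans (by linarith only [hδ])) n0
  simp only [ea, eb, sub_sub_cancel_left] at hA hBb
  have hw : (0 : ℝ) < 2 - 2 * δ := by linarith only [hδ, d4]
  obtain ⟨η, hη⟩ : ∃ η : ℝ → G × F, ∀ t, η t = (((1 - δ - t) / (2 - 2 * δ)) • (W (-1 + δ, 0)).1 +
      ((t - (-1 + δ)) / (2 - 2 * δ)) • (W (1 - δ, 0)).1, L t (-δ, 0)) := ⟨_, fun _ => rfl⟩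
  have hηc : Continuous η := by
    rw [funext hη]
    fun_prop
  have hηT : ∀ t ∈ Icc (-1 + δ) (1 - δ), η t ∈ N1 ×ˢ ball (0 : F) r ∧ (η t).2 ≠ 0 := by
    intro t ht
    rw [hη]
    refine ⟨⟨hNc hA.2.1 hBb.2.1 (div_nonneg (by linarith only [ht, ht.2]) hw.le)
      (div_nonneg (by linarith only [ht, ht.1]) hw.le)
      (by rw [← add_div, div_eq_one_iff_eq hw.ne']; ring), ?_⟩, fun h => ?_⟩
    · rw [mem_ball_zero_iff]
      have h1 := (L t).le_opNorm ((-δ, 0) : ℝ × E)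
      have h2 : ‖((-δ, 0) : ℝ × E)‖ = δ := by
        rw [Prod.norm_def, norm_neg, norm_zero, Real.norm_of_nonneg hδ.le, max_eq_left hδ.le]
      have h3 := hrL t (abs_le.2 ⟨by linarith only [hδ, ht, ht.1], by linarith only [hδ, ht, ht.2]⟩)
      rw [h2] at h1
      linarith only [hr, h1, h3, norm_nonneg (L t)]
    · have h1 : ((-δ, 0) : ℝ × E) = 0 := hLi t (by rw [map_zero]; exact h)
      have h2 : -δ = 0 := congrArg Prod.fst h1
      linarith only [hδ, h2]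
  obtain ⟨H1, τ1, hτ1, hτ1δ, c1, z1, st1, nb1, on1⟩ := arc hB hd hdim hW
    (a := -1 + δ) (b := 1 - δ) (by linarith only [hδ, d4]) hηc
    (by
      rw [hη]
      refine Prod.ext ?_ hA.1.symm
      rw [show (1 - δ - (-1 + δ)) = 2 - 2 * δ by ring, div_self hw.ne', sub_self, zero_div]
      simp)
    (by
      rw [hη]
      refine Prod.ext ?_ hBb.1.symm
      rw [show (1 - δ - (-1 + δ)) = 2 - 2 * δ by ring, div_self hw.ne', sub_self, zero_div]
      simp)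
    (fun t ht => hseg t ⟨by linarith only [hδ, ht, ht.1], by linarith only [hδ, ht, ht.2]⟩)
    (fun t ht h => (hηT t ht).2 (hNB _ (hηT t ht).1 h)) hδ
  have out : ∀ x : ℝ × E, 1 - δ ≤ |x.1| → ∀ s, H1 (x, s) = W x := fun x h s => by
    refine st1 x s ?_
    rcases le_abs'.1 h with h | h
    · exact Or.inl (by linarith only [h])
    · exact Or.inr (Or.inl h)
  have mid : ∀ t : ℝ, |t| ≤ 1 - δ → t ∈ Icc (-1 + δ) (1 - δ) := fun t h =>
    ⟨by linarith only [h, (abs_le.1 h).1], (abs_le.1 h).2⟩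
  have c1' : Continuous fun x : ℝ × E => H1 (x, 1) := by fun_prop
  obtain ⟨τ2, hτ2, hτ21, tb⟩ := harc_tube (E := E) (isCompact_Icc (a := -(1 + δ)) (b := 1 + δ))
    (N := {x : ℝ × E | (H1 (x, 1)).1 ∈ N1}) (hN.preimage c1'.fst)
    (fun t ht => by
      show (H1 ((t, 0), 1)).1 ∈ N1
      rcases le_total |t| (1 - δ) with h | h
      · rw [on1 t (mid t h)]
        exact (hηT t (mid t h)).1.1
      · rw [out (t, 0) h]
        exact (hend (t, 0) h (abs_le.2 ht) n0).2.1) hτ1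
  obtain ⟨g', τ, hτ, hττ2, -, cg, sg', bx⟩ := box_replace hL hLi hδ d4
    (g := fun x => (H1 (x, 1)).2) c1'.snd
    (fun x h1 h2 h3 => by
      show (H1 (x, 1)).2 = _
      rw [out x h1]
      exact (hend x h1 h2 h3).1)
    (fun t h => by
      show (H1 ((t, 0), 1)).2 = _
      rw [on1 t (mid t h), hη]) hrL hτ2
  obtain ⟨H2, hH2⟩ : ∃ H2 : (ℝ × E) × ℝ → G × F, ∀ q, H2 q =
      ((H1 (q.1, 1)).1, (1 - q.2) • (H1 (q.1, 1)).2 + q.2 • g' q.1) := ⟨_, fun _ => rfl⟩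
  have c2 : Continuous H2 := by
    rw [funext hH2]
    fun_prop
  have j : ∀ x, H1 (x, 1) = H2 (x, 0) := fun x => by simp [hH2]
  have st2 : ∀ x : ℝ × E, (1 + δ ≤ |x.1| ∨ τ ≤ ‖x.2‖) → ∀ s, H2 (x, s) = H1 (x, 1) :=
    fun x h s => by
      rw [hH2]
      refine Prod.ext rfl ?_
      simp only
      rw [sg' x h, ← add_smul, sub_add_cancel, one_smul]
  have in1 : ∀ x : ℝ × E, |x.1| ≤ 1 + δ → ‖x.2‖ ≤ τ1 → ∀ s ∈ Icc (0 : ℝ) 1,
      H1 (x, s) ∉ Bad ∨ H1 (x, s) ∈ N1 ×ˢ ball (0 : F) r := fun x h1 h2 s hs => by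
    rcases le_total |x.1| (1 - δ) with h | h
    · exact Or.inl (nb1 x (mid _ h) h2 s hs)
    · rw [out x h]
      exact Or.inr (hend x h h1 (h2.trans hτ1δ)).2
  have in2 : ∀ x : ℝ × E, |x.1| ≤ 1 + δ → ‖x.2‖ ≤ τ → ∀ s ∈ Icc (0 : ℝ) 1,
      H2 (x, s) ∈ N1 ×ˢ ball (0 : F) r := fun x h1 h2 s hs => by
    rw [hH2]
    refine ⟨tb x.1 (abs_le.1 h1) x.2 (h2.trans hττ2), ?_⟩
    exact convex_ball (0 : F) r (mem_ball_zero_iff.2 (bx x h1 h2).2.2)
      (mem_ball_zero_iff.2 (bx x h1 h2).2.1) (by linarith only [hs, hs.2]) hs.1 (by ring)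
  refine ⟨cat H1 H2, Icc (-(1 + δ)) (1 + δ) ×ˢ closedBall 0 τ1, cat_cont c1 c2,
    isCompact_Icc.prod (isCompact_closedBall _ _),
    fun x hx => hbox x (abs_le.2 hx.1) ((mem_closedBall_zero_iff.1 hx.2).trans hτ1δ),
    fun x => by rw [cat_zero, z1], fun x hx s => ?_, fun x hx => ?_, fun x hx => ?_,
    ⟨⟨by linarith only [hδ], by linarith only [hδ, d4]⟩, mem_closedBall_self hτ1.le⟩,
    ⟨⟨by linarith only [hδ, d4], by linarith only [hδ]⟩, mem_closedBall_self hτ1.le⟩⟩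
  · have k : (∀ s, H1 (x, s) = W x) ∧ (1 + δ ≤ |x.1| ∨ τ ≤ ‖x.2‖) := by
      rcases not_and_or.1 hx with h | h
      · have h' : 1 + δ < |x.1| := not_le.1 fun e => h (abs_le.1 e)
        exact ⟨out x (by linarith only [hδ, h']), Or.inl h'.le⟩
      · have h' : τ1 < ‖x.2‖ := not_le.1 fun e => h (mem_closedBall_zero_iff.2 e)
        exact ⟨fun s => st1 x s (Or.inr (Or.inr h'.le)), Or.inr (by linarith only [hτ21, hττ2, h'])⟩
    simp only [cat, k.1, st2 x k.2, add_sub_cancel_right]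
  · have h1 := abs_le.2 hx.1
    have h2 := mem_closedBall_zero_iff.1 hx.2
    refine cat_mem (S := {z | z ∉ Bad ∨ z ∈ N1 ×ˢ ball (0 : F) r}) (j x) (in1 x h1 h2)
      fun s hs => ?_
    rcases le_total ‖x.2‖ τ with h | h
    · exact Or.inr (in2 x h1 h s hs)
    · rw [st2 x (Or.inr h)]
      exact in1 x h1 h2 1 ⟨zero_le_one, le_rfl⟩
  · have h1 := abs_le.2 hx.1
    have h2 := mem_closedBall_zero_iff.1 hx.2
    rw [cat_one (j x)]
    rcases le_total ‖x.2‖ τ with h | h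
    · intro hb
      have h3 := hNB _ (in2 x h1 h 1 ⟨zero_le_one, le_rfl⟩) hb
      rw [hH2] at h3
      simp only [sub_self, zero_smul, one_smul, zero_add] at h3
      exact (bx x h1 h).1 h3
    · rw [st2 x (Or.inr h)]
      rcases le_total |x.1| (1 - δ) with h' | h'
      · exact nb1 x (mid _ h') h2 1 ⟨zero_le_one, le_rfl⟩
      · rw [out x h']
        intro hb
        have h3 := hend x h' h1 (h2.trans hτ1δ)
        have h4 := hNB _ h3.2 hb
        rw [h3.1] at h4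
        have h5 : ((|x.1| - 1, x.2) : ℝ × E) = 0 := hLi x.1 (by rw [map_zero]; exact h4)
        have h6 : x.2 = 0 := congrArg Prod.snd h5
        rw [h6, norm_zero] at h
        linarith only [hτ, h]

end BEp
end
end

-- merged part: Pool.Agent.Work.MP_f0515e_an.Pos.GDefs
section
-- merged part: Pool.Agent.Work.MP_f0515e_an.Pos.PLStrat
section
/-! EXPORT (PL). Cell structure: PL8 of the plan (elementary facts on cells are in `PLCell`).

Plan. Take `L'` from `exists_adapted`; for `x ∈ Z`: `cface L' x ⊆ Z` (`closure_face`, `Z` closed),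
`fdim L' x ≤ m` (`fdim_le`). `enum_faces` lists the faces of dimension `d` through points of `Z`
as cells. `Z1 = {x ∈ Z | fdim L' x + 1 ≤ m}`, `Z2 = {x ∈ Z | fdim L' x + 2 ≤ m}`. The sets `Z1`,
`Z2`, `Z \ top`, `Z1 \ mid` contain the closed face of each of their points (`fdim_lt`,
`fdim_eq`, `face_eq`), so `poly_lower` applies; `c.cl = cface` by `Cell.closure_car` and
`closure_face`; `c.bd = cface \ face` by `Cell.bd_eq`; `front` by `cface_sub` and `face_eq`. -/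

open Set Metric Filter Topology Function BEv
open scoped NNReal

noncomputable section
namespace BEp

section
variable {E : Type} [NormedAddCommGroup E] [NormedSpace ℝ E] [FiniteDimensional ℝ E]
  {L : Set ((E →L[ℝ] ℝ) × ℝ)} {x y p : E}

theorem plstrat_le (h : y ∈ cface L x) : fdim L y ≤ fdim L x := by
  by_cases e : y ∈ face L x
  exacts [(fdim_eq e).le, (fdim_lt h e).le]

theorem plstrat_rest (hx : fdim L x ≤ fdim L p) (h1 : x ∉ face L p) (h : y ∈ cface L x) :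
    y ∉ face L p := fun h2 => by
  by_cases e : y ∈ face L x
  · exact h1 (face_eq h2 ▸ (face_eq e).symm ▸ mem_face_self L x)
  · exact absurd ((fdim_eq h2).symm.trans_lt (fdim_lt h e)) hx.not_gt

theorem plstrat_cl {d : ℕ} {c : Cell d E} (h : c.car = face L p) : c.cl = cface L p := by
  rw [← c.closure_car, h, closure_face]

theorem plstrat_bd {d : ℕ} {c : Cell d E} (h : c.car = face L p) (hy : y ∈ c.bd) :
    y ∈ cface L p ∧ fdim L y < fdim L p := by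
  rw [c.bd_eq, plstrat_cl h, h] at hy
  exact ⟨hy.1, fdim_lt hy.1 hy.2⟩

end

theorem enum_faces {E : Type} [NormedAddCommGroup E] [NormedSpace ℝ E] [FiniteDimensional ℝ E]
    {L : Set ((E →L[ℝ] ℝ) × ℝ)} (hL : L.Finite) {Z : Set E} (hb : Bornology.IsBounded Z)
    (h : ∀ x ∈ Z, face L x ⊆ Z) (d : ℕ) :
    ∃ (N : ℕ) (c : Fin N → Cell d E) (p : Fin N → E),
      (∀ i, p i ∈ Z ∧ fdim L (p i) = d ∧ (c i).car = face L (p i)) ∧
      (∀ x ∈ Z, fdim L x = d → ∃ i, x ∈ (c i).car) ∧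
      ∀ i j, i ≠ j → Disjoint (c i).car (c j).car := by
  have h1 : {F | ∃ x ∈ Z, fdim L x = d ∧ face L x = F}.Finite :=
    (finite_faces hL).subset fun F ⟨x, _, _, e⟩ => ⟨x, e⟩
  have h2 := h1.to_subtype
  obtain ⟨N, ⟨e⟩⟩ := Finite.exists_equiv_fin {F | ∃ x ∈ Z, fdim L x = d ∧ face L x = F}
  choose p p1 p2 p3 using fun i => (e.symm i).2
  choose c hc using fun i => face_cell hL (hb.subset (h _ (p1 i))) (p2 i)
  refine ⟨N, c, p, fun i => ⟨p1 i, p2 i, hc i⟩, fun x hx k => ⟨e ⟨_, x, hx, k, rfl⟩, ?_⟩,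
    fun i j hij => Set.disjoint_left.2 fun z h3 h4 => hij (e.symm.injective (Subtype.ext ?_))⟩
  · rw [hc, p3, e.symm_apply_apply]
    exact mem_face_self L x
  · rw [hc] at h3 h4
    rw [← p3, ← p3, ← face_eq h3, face_eq h4]

theorem exists_strat {n m : ℕ} (hm : 2 ≤ m) {Z : Set (Fin n → ℝ)} (hZ : Poly Z) (hpc : PC m Z)
    {L : Set (((Fin n → ℝ) →L[ℝ] ℝ) × ℝ)} (hL : L.Finite) :
    ∃ st : Strat m Z, ∀ A ∈ L, (∀ i, SignConst A (st.top i).car) ∧
      ∀ e, SignConst A (st.mid e).car := by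
  obtain ⟨L', h1, h2, h3⟩ := exists_adapted hL hZ
  have hb := hZ.1.isBounded
  have hc : ∀ x ∈ Z, cface L' x ⊆ Z := fun x hx =>
    closure_face L' x ▸ closure_minimal (h3 x hx) hZ.1.isClosed
  have hd : ∀ x ∈ Z, fdim L' x ≤ m := fun x hx => fdim_le h1 hpc (h3 x hx)
  have hp : ∀ k, Poly {x ∈ Z | fdim L' x + k ≤ m} := fun k =>
    poly_lower h1 (hb.subset (sep_subset _ _)) fun x hx y hy =>
      ⟨hc x hx.1 hy, (Nat.add_le_add_right (plstrat_le hy) k).trans hx.2⟩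
  obtain ⟨nT, c, p, c1, c2, c3⟩ := enum_faces h1 hb h3 m
  obtain ⟨nM, c', q, d1, d2, d3⟩ := enum_faces h1 hb h3 (m - 1)
  refine ⟨
    { nT := nT
      top := c
      nM := nM
      mid := c'
      Z1 := {x ∈ Z | fdim L' x + 1 ≤ m}
      Z2 := {x ∈ Z | fdim L' x + 2 ≤ m}
      p1 := hp 1
      pc1 := pc_lower h1 fun x hx => Nat.le_sub_of_add_le hx.2
      c2 := (hp 2).1
      pc2 := pc_lower h1 fun x hx => Nat.le_sub_of_add_le hx.2
      s21 := fun x hx => ⟨hx.1, Nat.le_of_succ_le hx.2⟩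
      s1 := sep_subset _ _
      top_sub := fun i y hy => ?_
      top_cov := fun x hx => c2 x hx.1 ?_
      top_disj := c3
      top_bd := fun i y hy => ?_
      top_cl := fun i => ?_
      top_rest := fun i => poly_lower h1 (hb.subset sdiff_subset) fun x hx y hy =>
        ⟨hc x hx.1 hy, ?_⟩
      mid_sub := fun i y hy => ?_
      mid_cov := fun x hx => d2 x hx.1.1 ?_
      mid_disj := d3
      mid_bd := fun i y hy => ?_
      mid_rest := fun i => (poly_lower h1 (hb.subset (sdiff_subset.trans (sep_subset _ _)))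
        fun x hx y hy => ⟨⟨hc x hx.1.1 hy,
          (Nat.add_le_add_right (plstrat_le hy) 1).trans hx.1.2⟩, ?_⟩).1.isClosed
      front := fun e i ⟨z, z1, z2⟩ => ?_ }, fun A hA => ⟨fun i => ?_, fun i => ?_⟩⟩
  · rw [(c1 i).2.2] at hy
    have h4 := (fdim_eq hy).trans (c1 i).2.1
    exact ⟨h3 _ (c1 i).1 hy, fun k => by have := k.2; omega⟩
  · have h4 := hd x hx.1
    have h5 : ¬ fdim L' x + 1 ≤ m := fun k => hx.2 ⟨hx.1, k⟩
    omega
  · obtain ⟨h4, h5⟩ := plstrat_bd (c1 i).2.2 hy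
    exact ⟨hc _ (c1 i).1 h4, (c1 i).2.1 ▸ h5⟩
  · rw [plstrat_cl (c1 i).2.2]
    exact poly_cface h1 (hb.subset (h3 _ (c1 i).1))
  · rw [(c1 i).2.2] at hx ⊢
    exact plstrat_rest ((hd x hx.1).trans (c1 i).2.1.ge) hx.2 hy
  · rw [(d1 i).2.2] at hy
    have h4 := (fdim_eq hy).trans (d1 i).2.1
    exact ⟨⟨h3 _ (d1 i).1 hy, by omega⟩, fun k => by have := k.2; omega⟩
  · have h4 := hx.1.2
    have h5 : ¬ fdim L' x + 2 ≤ m := fun k => hx.2 ⟨hx.1.1, k⟩
    omega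
  · obtain ⟨h4, h5⟩ := plstrat_bd (d1 i).2.2 hy
    have h6 := (d1 i).2.1
    exact ⟨hc _ (d1 i).1 h4, by omega⟩
  · rw [(d1 i).2.2] at hx ⊢
    exact plstrat_rest ((Nat.le_sub_of_add_le hx.1.2).trans (d1 i).2.1.ge) hx.2 hy
  · rw [(d1 e).2.2] at z1 ⊢
    rw [plstrat_cl (c1 i).2.2] at z2 ⊢
    exact face_eq z1 ▸ (face_sub_cface L' z).trans (cface_sub z2)
  · exact (c1 i).2.2.symm ▸ signConst_face (h2 hA) _
  · exact (d1 i).2.2.symm ▸ signConst_face (h2 hA) _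

end BEp
end
end

-- merged part: Pool.Agent.Work.MP_f0515e_an.Pos.GDefs
section
/-! Definitions for the germ theorem. -/

open Set Metric Filter Topology Function BEv
open scoped NNReal

noncomputable section
namespace BEp

/-- A stratified polyhedron with marked points `C` and a rigid neighbourhood `In` of them. -/
structure Ctx (m : ℕ) where
  Z : Set (V m)
  st : Strat m Z
  C : Set (V m)
  In : Set (V m)
  hm : 2 ≤ m
  hZ : Poly Z
  hpc : PC m Z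
  hC : C.Finite
  hC1 : C ⊆ st.Z1
  hIn : Poly In
  hIZ : In ⊆ Z
  hnb : ∀ c ∈ C, In ∈ 𝓝[Z] c
  hio : ∀ k, (st.top k).car ⊆ In ∨ Disjoint (st.top k).car In

namespace Ctx
variable {m : ℕ} (X : Ctx m)

abbrev T : Type := Fin X.st.nT

abbrev top (k : X.T) : Cell m (V m) := X.st.top k

abbrev mid (e : Fin X.st.nM) : Cell (m - 1) (V m) := X.st.mid e

def outer (k : X.T) : Prop := Disjoint (X.top k).car X.In

def far (k l : X.T) : Prop :=
  ¬ (∀ x ∈ (X.top k).car, ∀ y ∈ (X.top l).car, Nr m X.Z X.C X.st.Z1 x y) ∧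
    ¬ ((X.top k).car ⊆ X.In ∧ (X.top l).car ⊆ X.In)

/-- Union of the closed far pairs. -/
def Ds : Set (V m × V m) := {p | ∃ k l, X.far k l ∧ p.1 ∈ (X.top k).cl ∧ p.2 ∈ (X.top l).cl}

/-- Pairs on which everything is static. -/
def Stat : Set (V m × V m) :=
  {p | (p.1 ∈ X.In ∧ p.2 ∈ X.In) ∨ (p.1 ∈ X.st.Z1 ∩ closure (X.Z \ X.In) ∧ p.2 ∈ X.In) ∨
    (p.1 ∈ X.In ∧ p.2 ∈ X.st.Z1 ∩ closure (X.Z \ X.In))}

/-- Normalised embedding. -/
structure Emb (b : V m → V m) : Prop where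
  tp : TP b
  inj : InjOn b X.Z
  fix : ∀ x ∈ X.st.Z1 ∪ X.In, b x = x
  off : ∀ x ∈ X.Z \ (X.st.Z1 ∪ X.In), b x ∉ X.Z

/-- Normalised homotopy from the inclusion to `b`. -/
structure Cfg (b : V m → V m) (U : V m × ℝ → V m) : Prop extends X.Emb b where
  cont : Continuous U
  u0 : ∀ x ∈ X.Z, U (x, 0) = x
  u1 : ∀ x ∈ X.Z, U (x, 1) = b x
  stat : ∀ x ∈ X.st.Z1 ∪ X.In, ∀ s ∈ Icc (0 : ℝ) 1, U (x, s) = x
  av : ∀ x ∈ X.Z \ X.st.Z1, ∀ s ∈ Icc (0 : ℝ) 1, U (x, s) ∉ X.st.Z1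

def dom (k l : X.T) : Set (((Fin m → ℝ) × (Fin m → ℝ)) × ℝ) :=
  ((X.top l).U ×ˢ (X.top k).U) ×ˢ Ioo (0 : ℝ) 1

def diagF (U : V m × ℝ → V m) (k l : X.T) (q : ((Fin m → ℝ) × (Fin m → ℝ)) × ℝ) : V m :=
  U ((X.top l).φ q.1.1, q.2) - U ((X.top k).φ q.1.2, q.2)

/-- `k` moves, `l` is in its initial position. -/
def botF (U : V m × ℝ → V m) (k l : X.T) (q : ((Fin m → ℝ) × (Fin m → ℝ)) × ℝ) : V m :=
  (X.top l).φ q.1.1 - U ((X.top k).φ q.1.2, q.2)

/-- `l` moves, `k` is in its final position. -/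
def rgtF (b : V m → V m) (U : V m × ℝ → V m) (k l : X.T)
    (q : ((Fin m → ℝ) × (Fin m → ℝ)) × ℝ) : V m :=
  U ((X.top l).φ q.1.1, q.2) - b ((X.top k).φ q.1.2)

def diag (U : V m × ℝ → V m) (k l : X.T) : ℤ := deg (X.dom k l) (X.diagF U k l)

def bot (U : V m × ℝ → V m) (k l : X.T) : ℤ := deg (X.dom k l) (X.botF U k l)

def rgt (b : V m → V m) (U : V m × ℝ → V m) (k l : X.T) : ℤ := deg (X.dom k l) (X.rgtF b U k l)

/-- Homotopy data on a set of pairs. -/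
structure Dat (D : Set (V m × V m)) (b : V m → V m) (Ψ : (V m × V m) × ℝ → V m) : Prop where
  cpt : IsCompact D
  symm : Symm D
  sub : D ⊆ X.Z ×ˢ X.Z
  ds : X.Ds ⊆ D
  oh : OH D (tl id) (tl b) Ψ
  stat : ∀ p ∈ D ∩ X.Stat, ∀ s ∈ Icc (0 : ℝ) 1, Ψ (p, s) = p.1 - p.2

/-- A square between the difference map of `U` and `Ψ`, nonvanishing over `A`. -/
structure Sq (D A : Set (V m × V m)) (b : V m → V m) (U : V m × ℝ → V m)
    (Ψ : (V m × V m) × ℝ → V m) (K : ((V m × V m) × ℝ) × ℝ → V m) : Prop where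
  cont : Continuous K
  odd : ∀ p s r, K ((Prod.swap p, s), r) = -K ((p, s), r)
  ne : ∀ p ∈ A, ∀ s ∈ Icc (0 : ℝ) 1, ∀ r ∈ Icc (0 : ℝ) 1, K ((p, s), r) ≠ 0
  r0 : ∀ p ∈ D, ∀ s ∈ Icc (0 : ℝ) 1, K ((p, s), 0) = U (p.1, s) - U (p.2, s)
  r1 : ∀ p ∈ D, ∀ s ∈ Icc (0 : ℝ) 1, K ((p, s), 1) = Ψ (p, s)
  s0 : ∀ p ∈ D, ∀ r ∈ Icc (0 : ℝ) 1, K ((p, 0), r) = p.1 - p.2
  s1 : ∀ p ∈ D, ∀ r ∈ Icc (0 : ℝ) 1, K ((p, 1), r) = b p.1 - b p.2

/-- The low-dimensional and the static pairs. -/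
def A0 (D : Set (V m × V m)) : Set (V m × V m) :=
  {p ∈ D | (p.1 ∈ X.st.Z1 ∧ p.2 ∈ X.st.Z1) ∨ p.1 ∈ X.st.Z2 ∨ p.2 ∈ X.st.Z2 ∨ p ∈ X.Stat}

end Ctx

end BEp
end
end

-- merged part: Pool.Agent.Work.MP_f0515e_an.Pos.GFill
section
/-! TASK GFill. Filling a loop over a set which contracts to a small set.
Plan. Work in Y = ((E x E) x R) x R, write I2 for the unit square and bI2 for its boundary. Let k0 ((p, s), r) = (1 - r) H (p, s) + r H (p, 0):
it has the boundary values of a filling on A x bI2 (use the loop property) and equals H (p, 0) on B x I2. Step 1: avoid (Bad = {0}) on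
P0 = A0 x I2, A0 = gamma (., 0) '' A, relative to (A0 x bI2) u ((A0 n B) x I2) gives k1. Step 2: hep on P = A x I2, closed part
(A x bI2) u ((A n B) x I2), start u ((p, s), r) = k1 ((gamma (p, 0), s), r), homotopy h (((p, s), r), t) = k0 ((gamma (p, t), s), r),
target the complement of 0; the end k2 equals k0 on the closed part. Step 3: glue_odd with the involution swap x id x id, invariant closed
set ((A u swap A u B) x bI2) u (B x I2) carrying the odd map k0, and second set A x I2 carrying k2; on swap A use oddness. -/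

open Set Metric Filter Topology Function BEv
open scoped NNReal

noncomputable section
namespace BEp

variable {E F G : Type} [NormedAddCommGroup E] [NormedSpace ℝ E] [FiniteDimensional ℝ E]
  [NormedAddCommGroup F] [NormedSpace ℝ F] [FiniteDimensional ℝ F]
  [NormedAddCommGroup G] [NormedSpace ℝ G] [FiniteDimensional ℝ G]

/-- The boundary of the square over `S` together with the full square over `T`. -/
def GFill_C (S T : Set (E × E)) : Set (((E × E) × ℝ) × ℝ) :=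
  {y | y.1.2 ∈ Icc (0 : ℝ) 1 ∧ y.2 ∈ Icc (0 : ℝ) 1 ∧
    ((y.1.1 ∈ S ∧ (y.1.2 = 0 ∨ y.1.2 = 1 ∨ y.2 = 0 ∨ y.2 = 1)) ∨ y.1.1 ∈ T)}

omit [NormedSpace ℝ E] [FiniteDimensional ℝ E] in
theorem GFill_closed {S T : Set (E × E)} (hS : IsClosed S) (hT : IsClosed T) :
    IsClosed (GFill_C S T) := by
  have c1 : Continuous fun y : ((E × E) × ℝ) × ℝ => y.1.1 := by fun_prop
  have c2 : Continuous fun y : ((E × E) × ℝ) × ℝ => y.1.2 := by fun_prop
  have c3 : Continuous fun y : ((E × E) × ℝ) × ℝ => y.2 := by fun_prop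
  exact (isClosed_Icc.preimage c2).inter ((isClosed_Icc.preimage c3).inter
    (((hS.preimage c1).inter ((isClosed_eq c2 continuous_const).union
      ((isClosed_eq c2 continuous_const).union ((isClosed_eq c3 continuous_const).union
        (isClosed_eq c3 continuous_const))))).union (hT.preimage c1)))

theorem fill_contract {A B : Set (E × E)} (hA : IsCompact A) (hB : IsCompact B) (hBs : Symm B)
    (hAB : ∀ p ∈ A, Prod.swap p ∈ A → p ∈ B) {H : (E × E) × ℝ → F} (hH : Continuous H)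
    (ho : ∀ p s, H (Prod.swap p, s) = -H (p, s))
    (hne : ∀ p ∈ A ∪ B, ∀ s ∈ Icc (0 : ℝ) 1, H (p, s) ≠ 0) (hl : ∀ p ∈ A, H (p, 1) = H (p, 0))
    (hst : ∀ p ∈ B, ∀ s ∈ Icc (0 : ℝ) 1, H (p, s) = H (p, 0)) {γ : (E × E) × ℝ → E × E}
    (hγ : Continuous γ) (h1 : ∀ p ∈ A, γ (p, 1) = p)
    (hγA : ∀ p ∈ A, ∀ t ∈ Icc (0 : ℝ) 1, γ (p, t) ∈ A)
    (hγB : ∀ p ∈ A ∩ B, ∀ t ∈ Icc (0 : ℝ) 1, γ (p, t) ∈ B) {d : ℕ}
    (hd : Sm d ((fun p => γ (p, 0)) '' A)) (hdim : d + 2 < Module.finrank ℝ F) :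
    Fill (A ∪ Prod.swap '' A ∪ B) H := by
  have z0 : (0 : ℝ) ∈ Icc (0 : ℝ) 1 := left_mem_Icc.2 zero_le_one
  have z1 : (1 : ℝ) ∈ Icc (0 : ℝ) 1 := right_mem_Icc.2 zero_le_one
  obtain ⟨k0, hk0⟩ : ∃ k0 : ((E × E) × ℝ) × ℝ → F,
      k0 = fun y => (1 - y.2) • H (y.1.1, y.1.2) + y.2 • H (y.1.1, 0) := ⟨_, rfl⟩
  have c0 : Continuous k0 := by
    rw [hk0]
    fun_prop
  have e0 : ∀ p s r, H (p, s) = H (p, 0) → k0 ((p, s), r) = H (p, 0) := fun p s r h => by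
    rw [hk0]
    beta_reduce
    rw [h, ← add_smul, sub_add_cancel, one_smul]
  have e1 : ∀ p s, k0 ((p, s), 0) = H (p, s) := fun p s => by simp [hk0]
  have e2 : ∀ p s, k0 ((p, s), 1) = H (p, 0) := fun p s => by simp [hk0]
  have n0 : ∀ y ∈ GFill_C A B, k0 y ≠ 0 := by
    rintro ⟨⟨p, s⟩, r⟩ ⟨a1, -, ⟨a3, a4⟩ | a3⟩
    · rcases a4 with rfl | rfl | rfl | rfl
      · rw [e0 p 0 r rfl]
        exact hne p (Or.inl a3) 0 z0
      · rw [e0 p 1 r (hl p a3)]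
        exact hne p (Or.inl a3) 0 z0
      · rw [e1]
        exact hne p (Or.inl a3) s a1
      · rw [e2]
        exact hne p (Or.inl a3) 0 z0
    · rw [e0 p s r (hst p a3 s a1)]
      exact hne p (Or.inr a3) 0 z0
  obtain ⟨k1, c1, q1, -, n1⟩ := avoid (d := d + 1 + 1) (d' := 0)
    (P := (((fun p => γ (p, 0)) '' A) ×ˢ Icc (0 : ℝ) 1) ×ˢ Icc (0 : ℝ) 1) (A := GFill_C A B)
    (((hA.image (by fun_prop)).prod isCompact_Icc).prod isCompact_Icc)
    (((hd.prod (Sm.real _)).prod (Sm.real _)).mono sdiff_subset)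
    (GFill_closed hA.isClosed hB.isClosed) (Bad := {0}) isClosed_singleton
    (Sm.finite (finite_singleton _)) hdim c0 (fun y hy => n0 y hy.1) one_pos
  have m1 : ∀ y ∈ GFill_C A (A ∩ B), ∀ t ∈ Icc (0 : ℝ) 1,
      ((γ (y.1.1, t), y.1.2), y.2) ∈ GFill_C A B := fun y hy t ht =>
    ⟨hy.1, hy.2.1, hy.2.2.imp (fun h => ⟨hγA _ h.1 t ht, h.2⟩) fun h => hγB _ h t ht⟩
  have m2 : GFill_C A (A ∩ B) ⊆ (A ×ˢ Icc (0 : ℝ) 1) ×ˢ Icc (0 : ℝ) 1 := fun y hy =>
    ⟨⟨hy.2.2.elim (fun h => h.1) fun h => h.1, hy.1⟩, hy.2.1⟩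
  obtain ⟨k2, c2, -, q2, n2⟩ := hep ((hA.prod isCompact_Icc).prod isCompact_Icc)
    (GFill_closed hA.isClosed (hA.isClosed.inter hB.isClosed)) m2 (O := {0}ᶜ) isOpen_compl_singleton
    (u := fun y => k1 ((γ (y.1.1, 0), y.1.2), y.2)) (by fun_prop)
    (fun y hy => n1 _ ⟨⟨⟨_, hy.1.1, rfl⟩, hy.1.2⟩, hy.2⟩)
    (h := fun z => k0 ((γ (z.1.1.1, z.2), z.1.1.2), z.1.2)) (by fun_prop)
    (fun y hy => (q1 (m1 y hy 0 z0)).symm) fun y hy t ht => n0 _ (m1 y hy t ht)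
  have hJ : IsClosed (A ∪ Prod.swap '' A ∪ B) :=
    (hA.isClosed.union (hA.image continuous_swap).isClosed).union hB.isClosed
  have hJs : ∀ p ∈ A ∪ Prod.swap '' A ∪ B, Prod.swap p ∈ A ∪ Prod.swap '' A ∪ B := by
    rintro p ((h | ⟨q, h, rfl⟩) | h)
    exacts [Or.inl (Or.inr ⟨p, h, rfl⟩), Or.inl (Or.inl h), Or.inr (hBs p h)]
  obtain ⟨g, c3, o3, q3, q4⟩ := glue_odd
    ((((ContinuousLinearEquiv.prodComm ℝ E E : E × E →L[ℝ] E × E)).prodMap
      (ContinuousLinearMap.id ℝ ℝ)).prodMap (ContinuousLinearMap.id ℝ ℝ)) (fun _ => rfl)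
    (GFill_closed hJ hB.isClosed) ((hA.prod isCompact_Icc).prod isCompact_Icc).isClosed
    (fun y hy => ⟨hy.1, hy.2.1, hy.2.2.imp (fun h => ⟨hJs _ h.1, h.2⟩) fun h => hBs _ h⟩)
    (fun y hy hy' => ⟨hy.1.2, hy.2, Or.inr (hAB _ hy.1.1 hy'.1.1)⟩) c0
    (v := fun y => k2 (y, 1)) (by fun_prop)
    (fun y => by
      rw [hk0]
      change (1 - y.2) • H (Prod.swap y.1.1, y.1.2) + y.2 • H (Prod.swap y.1.1, 0) = _
      rw [ho, ho, smul_neg, smul_neg, ← neg_add])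
    (fun y hy => by
      have hy' : y ∈ GFill_C A (A ∩ B) := ⟨hy.1.1, hy.1.2.1,
        hy.1.2.2.imp (fun h => ⟨hy.2.1.1, h.2⟩) fun h => ⟨hy.2.1.1, h⟩⟩
      beta_reduce
      rw [q2 y hy' 1 z1, h1 _ hy.2.1.1])
  have o4 : ∀ p s r, g ((Prod.swap p, s), r) = -g ((p, s), r) := fun p s r => o3 ((p, s), r)
  have n3 : ∀ p ∈ A, ∀ s ∈ Icc (0 : ℝ) 1, ∀ r ∈ Icc (0 : ℝ) 1, g ((p, s), r) ≠ 0 :=
    fun p hp s hs r hr => by
      rw [q4 (show ((p, s), r) ∈ (A ×ˢ Icc (0 : ℝ) 1) ×ˢ Icc (0 : ℝ) 1 from ⟨⟨hp, hs⟩, hr⟩)]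
      exact n2 _ ⟨⟨hp, hs⟩, hr⟩ 1 z1
  refine ⟨g, c3, o4, fun p hp s hs => ⟨fun r hr => ?_, ?_, ?_, ?_, ?_⟩⟩
  · rcases hp with (h | ⟨q, h, rfl⟩) | h
    · exact n3 p h s hs r hr
    · rw [o4]
      exact neg_ne_zero.2 (n3 q h s hs r hr)
    · rw [q3 (show ((p, s), r) ∈ GFill_C _ B from ⟨hs, hr, Or.inr h⟩)]
      exact n0 _ ⟨hs, hr, Or.inr h⟩
  · rw [q3 (show ((p, s), 0) ∈ GFill_C _ B from
      ⟨hs, z0, Or.inl ⟨hp, Or.inr (Or.inr (Or.inl rfl))⟩⟩), e1]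
  · rw [q3 (show ((p, s), 1) ∈ GFill_C _ B from
      ⟨hs, z1, Or.inl ⟨hp, Or.inr (Or.inr (Or.inr rfl))⟩⟩), e2]
  · rw [q3 (show ((p, 0), s) ∈ GFill_C _ B from ⟨z0, hs, Or.inl ⟨hp, Or.inl rfl⟩⟩), e0 p 0 s rfl]
  · rw [q3 (show ((p, 1), s) ∈ GFill_C _ B from ⟨z1, hs, Or.inl ⟨hp, Or.inr (Or.inl rfl)⟩⟩)]
    refine e0 p 1 s ?_
    rcases hp with (h | ⟨q, h, rfl⟩) | h
    · exact hl p h
    · rw [ho, ho, hl q h]
    · exact hst p h 1 z1

end BEp
end
end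

-- merged part: Pool.Agent.Work.MP_f0515e_an.Pos.GFar
section
/-! TASK GFar. Elementary facts on a context.
Plan. nr_symm: swap the flats. cl_sub: car in Z, Z closed (hZ.1). cl_disj: Z minus car k is closed (top_rest) and contains car l.
cl_inter_Z1: cl = car u bd, car misses Z1. far_ne: for k = l take v in bd minus C (Cell.infinite_bd, C finite), Strat.flat.
far_disj: a common point v is in Z1 (cl_disj); if v is not in C all pairs are near (Strat.flat, closure_car); if v is in C then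
In is a neighbourhood of v in Z, both cars meet In, so both lie in In by hio. patch: glue2 on the closed sets cl x Y0 and
(Z minus car) x Y0 in V x Y, first map G (N (z - o), y) with N from Cell.exists_inv, second map 0; a common point has z in bd. -/

open Set Metric Filter Topology Function BEv
open scoped NNReal

noncomputable section
namespace BEp

theorem nr_symm {E : Type} [NormedAddCommGroup E] [NormedSpace ℝ E] {m : ℕ} {Z C Z1 : Set E}
    {x y : E} (h : Nr m Z C Z1 x y) : Nr m Z C Z1 y x := by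
  obtain ⟨v, h1, h2, h3, U, U', hU, hU', hx, hy, hv, hv'⟩ := h
  exact ⟨v, h1, h2, h3, U', U, hU', hU, hy, hx, hv', hv⟩

namespace Ctx
variable {m : ℕ} (X : Ctx m)

theorem GFar_nr {k l : X.T} {v : V m} (hk : v ∈ (X.top k).cl) (hl : v ∈ (X.top l).cl)
    (h1 : v ∈ X.st.Z1) (hC : v ∉ X.C) :
    ∀ x ∈ (X.top k).car, ∀ y ∈ (X.top l).car, Nr m X.Z X.C X.st.Z1 x y := by
  intro x hx y hy
  rw [← Cell.closure_car] at hk hl
  exact ⟨v, h1, hC, X.st.s1 h1, _, _, X.st.flat X.hC1 k, X.st.flat X.hC1 l, hx, hy, hk, hl⟩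

theorem GFar_in {k : X.T} {v : V m} (hk : v ∈ (X.top k).cl) (hC : v ∈ X.C) :
    (X.top k).car ⊆ X.In := by
  rw [← Cell.closure_car] at hk
  have h1 := mem_closure_iff_nhdsWithin_neBot.1 hk
  have h2 : X.In ∈ 𝓝[(X.top k).car] v :=
    nhdsWithin_mono v (fun x hx => (X.st.top_sub k hx).1) (X.hnb v hC)
  obtain ⟨x, hx, hx'⟩ := Filter.nonempty_of_mem (inter_mem self_mem_nhdsWithin h2)
  exact (X.hio k).resolve_right fun h => Set.disjoint_left.1 h hx hx'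

theorem cl_sub (k : X.T) : (X.top k).cl ⊆ X.Z := by
  rw [← Cell.closure_car]
  exact closure_minimal (fun x hx => (X.st.top_sub k hx).1) X.hZ.1.isClosed

theorem cl_disj {k l : X.T} (h : k ≠ l) : Disjoint (X.top k).car (X.top l).cl := by
  rw [← Cell.closure_car]
  have h1 : closure (X.top l).car ⊆ X.Z \ (X.top k).car :=
    closure_minimal (fun x hx => ⟨(X.st.top_sub l hx).1,
      fun hk => Set.disjoint_left.1 (X.st.top_disj k l h) hk hx⟩) (X.st.top_rest k).1.isClosed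
  exact Set.disjoint_left.2 fun x hx hx' => (h1 hx').2 hx

theorem cl_inter_Z1 (k : X.T) : (X.top k).cl ∩ X.st.Z1 = (X.top k).bd := by
  rw [Cell.cl_eq]
  refine Set.Subset.antisymm ?_ fun x hx => ⟨Or.inr hx, X.st.top_bd k hx⟩
  rintro x ⟨hx | hx, h1⟩
  · exact absurd h1 (X.st.top_sub k hx).2
  · exact hx

theorem mid_cl_sub (e : Fin X.st.nM) : (X.mid e).cl ⊆ X.st.Z1 := by
  rw [← Cell.closure_car]
  exact closure_minimal (fun x hx => (X.st.mid_sub e hx).1) X.st.p1.1.isClosed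

theorem mid_cl_disj {e e' : Fin X.st.nM} (h : e ≠ e') :
    Disjoint (X.mid e).car (X.mid e').cl := by
  rw [← Cell.closure_car]
  have h1 : closure (X.mid e').car ⊆ X.st.Z1 \ (X.mid e).car :=
    closure_minimal (fun x hx => ⟨(X.st.mid_sub e' hx).1,
      fun hk => Set.disjoint_left.1 (X.st.mid_disj e e' h) hk hx⟩) (X.st.mid_rest e)
  exact Set.disjoint_left.2 fun x hx hx' => (h1 hx').2 hx

theorem mid_cl_front {e : Fin X.st.nM} {k : X.T} {x : V m} (h1 : x ∈ (X.mid e).car)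
    (h2 : x ∈ (X.top k).cl) : (X.mid e).cl ⊆ (X.top k).cl := by
  rw [← Cell.closure_car (X.mid e)]
  exact closure_minimal (X.st.front e k ⟨x, h1, h2⟩) (X.top k).compact_cl.isClosed

theorem inner_of_not_outer {k : X.T} (h : ¬ X.outer k) : (X.top k).cl ⊆ X.In := by
  rw [← Cell.closure_car]
  exact closure_minimal ((X.hio k).resolve_right h) X.hIn.1.isClosed

theorem outer_cl {k : X.T} (h : X.outer k) : (X.top k).cl ⊆ closure (X.Z \ X.In) := by
  rw [← Cell.closure_car]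
  exact closure_mono fun x hx => ⟨(X.st.top_sub k hx).1, Set.disjoint_left.1 h hx⟩

theorem far_symm {k l : X.T} (h : X.far k l) : X.far l k :=
  ⟨fun h' => h.1 fun x hx y hy => nr_symm (h' y hy x hx), fun h' => h.2 ⟨h'.2, h'.1⟩⟩

theorem far_ne {k l : X.T} (h : X.far k l) : k ≠ l := by
  rintro rfl
  obtain ⟨v, hv, hC⟩ := ((X.top k).infinite_bd X.hm).exists_notMem_finite X.hC
  have h1 : v ∈ (X.top k).cl := by
    rw [Cell.cl_eq]
    exact Or.inr hv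
  exact h.1 (X.GFar_nr h1 h1 (X.st.top_bd k hv) hC)

theorem far_outer {k l : X.T} (h : X.far k l) : X.outer k ∨ X.outer l := by
  by_contra h'
  rw [not_or] at h'
  exact h.2 ⟨(X.hio k).resolve_right h'.1, (X.hio l).resolve_right h'.2⟩

theorem far_disj {k l : X.T} (h : X.far k l) : Disjoint (X.top k).cl (X.top l).cl := by
  refine Set.disjoint_left.2 fun v hk hl => ?_
  by_cases hC : v ∈ X.C
  · exact h.2 ⟨X.GFar_in hk hC, X.GFar_in hl hC⟩
  · have h1 : v ∈ X.st.Z1 := by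
      have h2 := hk
      rw [Cell.cl_eq] at h2
      rcases h2 with h2 | h2
      · exact absurd hl (Set.disjoint_left.1 (X.cl_disj (X.far_ne h)) h2)
      · exact X.st.top_bd k h2
    exact h.1 (X.GFar_nr hk hl h1 hC)

theorem Ds_compact : IsCompact X.Ds := by
  have h : X.Ds = ⋃ q : {q : X.T × X.T // X.far q.1 q.2},
      (X.top q.1.1).cl ×ˢ (X.top q.1.2).cl := by
    ext p
    constructor
    · rintro ⟨k, l, h, h1, h2⟩
      exact mem_iUnion.2 ⟨⟨(k, l), h⟩, h1, h2⟩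
    · intro hp
      obtain ⟨q, h1, h2⟩ := mem_iUnion.1 hp
      exact ⟨_, _, q.2, h1, h2⟩
  rw [h]
  exact isCompact_iUnion fun q => (Cell.compact_cl _).prod (Cell.compact_cl _)

theorem Ds_symm : Symm X.Ds := by
  rintro p ⟨k, l, h, h1, h2⟩
  exact ⟨l, k, X.far_symm h, h2, h1⟩

theorem Ds_sub : X.Ds ⊆ X.Z ×ˢ X.Z := by
  rintro p ⟨k, l, -, h1, h2⟩
  exact ⟨X.cl_sub k h1, X.cl_sub l h2⟩

theorem Ds_nr : ∀ x ∈ X.Z \ X.st.Z1, ∀ y ∈ X.Z \ X.st.Z1, x ≠ y →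
    (x, y) ∈ X.Ds ∨ Nr m X.Z X.C X.st.Z1 x y ∨ (x ∈ X.In ∧ y ∈ X.In) := by
  intro x hx y hy _
  obtain ⟨k, hk⟩ := X.st.top_cov x hx
  obtain ⟨l, hl⟩ := X.st.top_cov y hy
  by_cases h : X.far k l
  · refine Or.inl ⟨k, l, h, ?_, ?_⟩
    · rw [Cell.cl_eq]
      exact Or.inl hk
    · rw [Cell.cl_eq]
      exact Or.inl hl
  · rcases not_and_or.1 h with h | h
    · exact Or.inr (Or.inl (not_not.1 h x hk y hl))
    · exact Or.inr (Or.inr ⟨(not_not.1 h).1 hk, (not_not.1 h).2 hl⟩)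

theorem patch (k : X.T) {Y : Type} [NormedAddCommGroup Y] [NormedSpace ℝ Y]
    [FiniteDimensional ℝ Y] {Y0 : Set Y} (hY : IsClosed Y0) {G : (Fin m → ℝ) × Y → V m}
    (hG : Continuous G) (h0 : ∀ x ∈ frontier (X.top k).U, ∀ y ∈ Y0, G (x, y) = 0) :
    ∃ G' : V m × Y → V m, Continuous G' ∧
      (∀ x ∈ closure (X.top k).U, ∀ y ∈ Y0, G' ((X.top k).φ x, y) = G (x, y)) ∧
      ∀ z ∈ X.Z \ (X.top k).car, ∀ y ∈ Y0, G' (z, y) = 0 := by
  obtain ⟨N, hN⟩ := (X.top k).exists_inv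
  have hu : Continuous fun p : V m × Y => G (N (p.1 - (X.top k).o), p.2) := by fun_prop
  obtain ⟨g, hg, h1, h2⟩ := glue2 (A := (X.top k).cl ×ˢ Y0) (B := (X.Z \ (X.top k).car) ×ˢ Y0)
    ((X.top k).compact_cl.isClosed.prod hY) ((X.st.top_rest k).1.isClosed.prod hY) hu
    (continuous_const (y := (0 : V m))) (by
      rintro ⟨z, y⟩ ⟨⟨hz, hy⟩, hz', -⟩
      rw [Cell.cl_eq] at hz
      obtain ⟨x, hx, rfl⟩ := hz.resolve_left hz'.2
      show G (N ((X.top k).φ x - (X.top k).o), y) = 0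
      rw [hN]
      exact h0 x hx y hy)
  refine ⟨g, hg, fun x hx y hy => ?_, fun z hz y hy => h2 (x := (z, y)) ⟨hz, hy⟩⟩
  rw [h1 (x := ((X.top k).φ x, y)) ⟨⟨x, hx, rfl⟩, hy⟩]
  show G (N ((X.top k).φ x - (X.top k).o), y) = _
  rw [hN]

end Ctx

end BEp
end
end

-- merged part: Pool.Agent.Work.MP_f0515e_an.Pos.GStat
section
/-! TASK GStat. Making the homotopy static on the pairs involving the rigid part.
Plan. cc : V -> V continuous with cc = c i on In i (finitely many disjoint compact sets; induction with glue2 or Tietze),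
rho (x, t) = cc x + t (x - cc x) preserves each In i (star-convex; c i is in In i by hnb). Stage 1: a linear order on iota (Finite),
A = union over i < j of In i x In j, B = D n union of In i x In i, gamma (p, t) = (rho (p.1, t), rho (p.2, t)), image at t = 0 finite;
Psi is a loop there since b = id on In; fill_contract, then OH.static on J1 = D n (In x In) = A u swap A u B. Stage 2: A = D n ((Z1 n closure (Z minus In)) x In),
B = J1, gamma (p, t) = (p.1, rho (p.2, t)) (d2), image at t = 0 inside Z1 x C (Sm (m - 1), m - 1 + 2 < 2m + 1); OH.static on D n Stat. -/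

open Set Metric Filter Topology Function BEv
open scoped NNReal

noncomputable section
namespace BEp

theorem GStat_cc {E : Type} [NormedAddCommGroup E] [NormedSpace ℝ E] [FiniteDimensional ℝ E]
    {ι : Type} [Finite ι] (c : ι → E) {In : ι → Set E} (hIn : ∀ i, IsCompact (In i))
    (hdj : ∀ i j, i ≠ j → Disjoint (In i) (In j)) :
    ∃ cc : E → E, Continuous cc ∧ ∀ i, ∀ x ∈ In i, cc x = c i := by
  classical
  have key : ∀ s : Finset ι, ∃ cc : E → E, Continuous cc ∧ ∀ i ∈ s, ∀ x ∈ In i, cc x = c i := by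
    intro s
    induction s using Finset.induction_on with
    | empty => exact ⟨id, continuous_id, by simp⟩
    | insert a s ha ih =>
      obtain ⟨u, hu, h⟩ := ih
      obtain ⟨g, hg, h1, h2⟩ := glue2 (A := ⋃ i ∈ s, In i) (B := In a)
        (s.isCompact_biUnion fun i _ => hIn i).isClosed (hIn a).isClosed hu
        (continuous_const (y := c a)) (by
          rintro x ⟨hx, hx'⟩
          obtain ⟨i, hi, hxi⟩ := mem_iUnion₂.1 hx
          exact ((Set.disjoint_left.1 (hdj i a fun e => ha (e ▸ hi))) hxi hx').elim)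
      refine ⟨g, hg, fun i hi x hx => ?_⟩
      rcases Finset.mem_insert.1 hi with rfl | hi
      · exact h2 hx
      · rw [h1 (mem_iUnion₂.2 ⟨i, hi, hx⟩), h i hi x hx]
  have := Fintype.ofFinite ι
  obtain ⟨cc, h1, h2⟩ := key Finset.univ
  exact ⟨cc, h1, fun i => h2 i (Finset.mem_univ i)⟩

theorem GStat_step {E F : Type} [NormedAddCommGroup E] [NormedSpace ℝ E] [FiniteDimensional ℝ E]
    [NormedAddCommGroup F] [NormedSpace ℝ F] [FiniteDimensional ℝ F] {D A B : Set (E × E)}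
    {F0 F1 : E × E → F} {H : (E × E) × ℝ → F} (hD : IsCompact D) (hDs : Symm D)
    (hA : IsCompact A) (hB : IsCompact B) (hBs : Symm B) (hAD : A ⊆ D) (hBD : B ⊆ D)
    (h : OH D F0 F1 H) (hF : Fill (A ∪ Prod.swap '' A ∪ B) H) :
    ∃ H', OH D F0 F1 H' ∧ ∀ p, p ∈ A ∨ p.swap ∈ A ∨ p ∈ B → ∀ s ∈ Icc (0 : ℝ) 1,
      H' (p, s) = F0 p := by
  obtain ⟨H', h1, h2⟩ := OH.static hD hDs ((hA.union (hA.image continuous_swap)).union hB).isClosed
    (by
      rintro p ((hp | ⟨q, hq, rfl⟩) | hp)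
      exacts [hAD hp, hDs q (hAD hq), hBD hp])
    (by
      rintro p ((hp | ⟨q, hq, rfl⟩) | hp)
      exacts [Or.inl (Or.inr ⟨p, hp, rfl⟩), Or.inl (Or.inl hq), Or.inr (hBs p hp)]) h hF
  refine ⟨H', h1, fun p hp => h2 p ?_⟩
  rcases hp with hp | hp | hp
  exacts [Or.inl (Or.inl hp), Or.inl (Or.inr ⟨_, hp, rfl⟩), Or.inr hp]

theorem Ctx.make_static {m : ℕ} (X : Ctx m) {ι : Type} [Finite ι] {c : ι → V m}
    {In : ι → Set (V m)} (hC : X.C = range c) (hI : X.In = ⋃ i, In i)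
    (hIn : ∀ i, IsCompact (In i)) (hc : ∀ i, c i ∈ In i)
    (hstar : ∀ i, StarConvex ℝ (c i) (In i)) (hdj : ∀ i j, i ≠ j → Disjoint (In i) (In j))
    {b : V m → V m} (hb : X.Emb b) {D : Set (V m × V m)} (hD : IsCompact D) (hDs : Symm D)
    (hDZ : D ⊆ X.Z ×ˢ X.Z) (hds : X.Ds ⊆ D) {Ψ : (V m × V m) × ℝ → V m}
    (hΨ : OH D (tl id) (tl b) Ψ)
    (d2 : ∀ i, ∀ p ∈ D, p.1 ∈ closure (X.Z \ X.In) → p.2 ∈ In i → ∀ t ∈ Icc (0 : ℝ) 1,
      (p.1, c i + t • (p.2 - c i)) ∈ D)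
    (d3 : ∀ i, ∀ p ∈ D, p.1 ∈ In i → p.2 ∈ In i → ∀ s ∈ Icc (0 : ℝ) 1, Ψ (p, s) = p.1 - p.2)
    (d4 : ∀ i j, i ≠ j → In i ×ˢ In j ⊆ D) : ∃ Ψ', X.Dat D b Ψ' := by
  have _ := hC
  have _ := hc
  obtain ⟨cc, hcc, hcI⟩ := GStat_cc c hIn hdj
  have hm := X.hm
  have hdim : Module.finrank ℝ (V m) = 2 * m + 1 := by simp
  have heq : ∀ {i j x}, x ∈ In i → x ∈ In j → i = j := fun {i j x} h1 h2 => by
    by_contra hne
    exact Set.disjoint_left.1 (hdj i j hne) h1 h2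
  let ρ : V m → ℝ → V m := fun x t => cc x + t • (x - cc x)
  have hρ1 : ∀ x, ρ x 1 = x := fun x => by simp [ρ]
  have hρ0 : ∀ i, ∀ x ∈ In i, ρ x 0 = c i := fun i x hx => by simp [ρ, hcI i x hx]
  have hρe : ∀ i, ∀ x ∈ In i, ∀ t, ρ x t = c i + t • (x - c i) := fun i x hx t => by
    simp only [ρ, hcI i x hx]
  have hρI : ∀ i, ∀ x ∈ In i, ∀ t ∈ Icc (0 : ℝ) 1, ρ x t ∈ In i := fun i x hx t ht => by
    rw [hρe i x hx]
    exact (hstar i).add_smul_sub_mem hx ht.1 ht.2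
  have hInX : ∀ i, In i ⊆ X.In := fun i => hI ▸ subset_iUnion In i
  have hXIn : ∀ x ∈ X.In, ∃ i, x ∈ In i := fun x hx => mem_iUnion.1 (hI ▸ hx)
  have hfin : (range c).Finite := finite_range c
  obtain ⟨n, ⟨e⟩⟩ := Finite.exists_equiv_fin ι
  -- stage one
  let A1 : Set (V m × V m) := ⋃ i, ⋃ j, ⋃ _ : e i < e j, In i ×ˢ In j
  let B1 : Set (V m × V m) := D ∩ ⋃ i, In i ×ˢ In i
  have mA1 : ∀ p, p ∈ A1 ↔ ∃ i j, e i < e j ∧ p.1 ∈ In i ∧ p.2 ∈ In j := fun p => by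
    simp only [A1, mem_iUnion, mem_prod, exists_prop]
  have mB1 : ∀ p, p ∈ B1 ↔ p ∈ D ∧ ∃ i, p.1 ∈ In i ∧ p.2 ∈ In i := fun p => by
    simp only [B1, mem_inter_iff, mem_iUnion, mem_prod]
  have cA1 : IsCompact A1 := isCompact_iUnion fun i => isCompact_iUnion fun j =>
    isCompact_iUnion fun _ => (hIn i).prod (hIn j)
  have cB1 : IsCompact B1 :=
    hD.inter_right (isCompact_iUnion fun i => (hIn i).prod (hIn i)).isClosed
  have sB1 : Symm B1 := fun p hp => by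
    obtain ⟨h1, i, h2, h3⟩ := (mB1 p).1 hp
    exact (mB1 _).2 ⟨hDs p h1, i, h3, h2⟩
  have dA1 : A1 ⊆ D := fun p hp => by
    obtain ⟨i, j, h1, h2, h3⟩ := (mA1 p).1 hp
    exact d4 i j (fun h => h1.ne (congrArg e h)) ⟨h2, h3⟩
  have F1 : Fill (A1 ∪ Prod.swap '' A1 ∪ B1) Ψ := by
    refine fill_contract (d := 0) (γ := fun q => (ρ q.1.1 q.2, ρ q.1.2 q.2)) cA1 cB1 sB1
      (fun p hp hp' => ?_) hΨ.cont hΨ.odd
      (fun p hp => hΨ.ne p (hp.elim (fun h => dA1 h) fun h => h.1)) (fun p hp => ?_)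
      (fun p hp s hs => ?_) (by fun_prop) (fun p _ => by simp only [hρ1])
      (fun p hp t ht => ?_) (fun p hp => ?_) ?_ (by omega)
    · obtain ⟨i, j, h1, h2, h3⟩ := (mA1 p).1 hp
      obtain ⟨i', j', h4, h5, h6⟩ := (mA1 _).1 hp'
      obtain rfl := heq h2 h6
      obtain rfl := heq h3 h5
      exact (lt_asymm h1 h4).elim
    · obtain ⟨i, j, -, h2, h3⟩ := (mA1 p).1 hp
      rw [hΨ.one p (dA1 hp), hΨ.zero p (dA1 hp), tl, tl, hb.fix _ (Or.inr (hInX i h2)),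
        hb.fix _ (Or.inr (hInX j h3))]
      rfl
    · obtain ⟨h1, i, h2, h3⟩ := (mB1 p).1 hp
      rw [d3 i p h1 h2 h3 s hs, d3 i p h1 h2 h3 0 ⟨le_rfl, zero_le_one⟩]
    · obtain ⟨i, j, h1, h2, h3⟩ := (mA1 p).1 hp
      exact (mA1 _).2 ⟨i, j, h1, hρI i _ h2 t ht, hρI j _ h3 t ht⟩
    · obtain ⟨i, j, h1, h2, h3⟩ := (mA1 p).1 hp.1
      obtain ⟨-, k, h4, h5⟩ := (mB1 p).1 hp.2
      obtain rfl := heq h2 h4
      obtain rfl := heq h3 h5
      exact (lt_irrefl _ h1).elim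
    · refine Sm.finite ((hfin.prod hfin).subset ?_)
      rintro _ ⟨p, hp, rfl⟩
      obtain ⟨i, j, -, h2, h3⟩ := (mA1 p).1 hp
      exact ⟨⟨i, (hρ0 i _ h2).symm⟩, ⟨j, (hρ0 j _ h3).symm⟩⟩
  obtain ⟨Ψ1, o1, s1⟩ := GStat_step hD hDs cA1 cB1 sB1 dA1 inter_subset_left hΨ F1
  -- stage two
  let A2 : Set (V m × V m) := D ∩ (X.st.Z1 ∩ closure (X.Z \ X.In)) ×ˢ X.In
  let B2 : Set (V m × V m) := D ∩ X.In ×ˢ X.In
  have cI : IsClosed X.In := X.hIn.1.isClosed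
  have cA2 : IsCompact A2 :=
    hD.inter_right ((X.st.p1.1.isClosed.inter isClosed_closure).prod cI)
  have cB2 : IsCompact B2 := hD.inter_right (cI.prod cI)
  have sB2 : Symm B2 := fun p hp => ⟨hDs p hp.1, hp.2.2, hp.2.1⟩
  have st1 : ∀ p ∈ B2, ∀ s ∈ Icc (0 : ℝ) 1, Ψ1 (p, s) = tl id p := fun p hp => by
    obtain ⟨i, hi⟩ := hXIn _ hp.2.1
    obtain ⟨j, hj⟩ := hXIn _ hp.2.2
    refine s1 p ?_
    rcases lt_trichotomy (e i) (e j) with h | h | h
    · exact Or.inl ((mA1 p).2 ⟨i, j, h, hi, hj⟩)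
    · obtain rfl := e.injective h
      exact Or.inr (Or.inr ((mB1 p).2 ⟨hp.1, i, hi, hj⟩))
    · exact Or.inr (Or.inl ((mA1 _).2 ⟨j, i, h, hj, hi⟩))
  have hγ : ∀ p ∈ A2, ∀ t ∈ Icc (0 : ℝ) 1, (p.1, ρ p.2 t) ∈ A2 := fun p hp t ht => by
    obtain ⟨i, hi⟩ := hXIn _ hp.2.2
    refine ⟨?_, hp.2.1, hInX i (hρI i _ hi t ht)⟩
    rw [hρe i _ hi]
    exact d2 i p hp.1 hp.2.1.2 hi t ht
  have F2 : Fill (A2 ∪ Prod.swap '' A2 ∪ B2) Ψ1 := by
    refine fill_contract (d := m - 1 + 0) (γ := fun q => (q.1.1, ρ q.1.2 q.2)) cA2 cB2 sB2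
      (fun p hp hp' => ⟨hp.1, hp'.2.2, hp.2.2⟩) o1.cont o1.odd
      (fun p hp => o1.ne p (hp.elim (fun h => h.1) fun h => h.1)) (fun p hp => ?_)
      (fun p hp s hs => ?_) (by fun_prop) (fun p _ => by simp only [hρ1]) hγ
      (fun p hp t ht => ⟨(hγ p hp.1 t ht).1, hp.2.2.1, (hγ p hp.1 t ht).2.2⟩) ?_ (by omega)
    · rw [o1.one p hp.1, o1.zero p hp.1, tl, tl, hb.fix _ (Or.inl hp.2.1.1),
        hb.fix _ (Or.inr hp.2.2)]
      rfl
    · rw [st1 p hp s hs, st1 p hp 0 ⟨le_rfl, zero_le_one⟩]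
    · refine (X.st.pc1.sm.prod (Sm.finite hfin)).mono ?_
      rintro _ ⟨p, hp, rfl⟩
      obtain ⟨i, hi⟩ := hXIn _ hp.2.2
      exact ⟨hp.2.1.1, ⟨i, (hρ0 i _ hi).symm⟩⟩
  obtain ⟨Ψ2, o2, s2⟩ :=
    GStat_step hD hDs cA2 cB2 sB2 inter_subset_left inter_subset_left o1 F2
  refine ⟨Ψ2, hD, hDs, hDZ, hds, o2, fun p hp => s2 p ?_⟩
  rcases hp.2 with h | h | h
  · exact Or.inr (Or.inr ⟨hp.1, h⟩)
  · exact Or.inl ⟨hp.1, h⟩
  · exact Or.inr (Or.inl ⟨hDs p hp.1, h.2, h.1⟩)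

end BEp
end
end

-- merged part: Pool.Agent.Work.MP_f0515e_an.Pos.GAdd
section
/-! TASK GAdd. Admissibility and additivity of the intersection numbers.
Plan. finrank of the domain space is m + m + 1. Frontier points: frontier_prod_Ioo and frontier of a product of two sets; a frontier
point of U k is mapped by the chart into bd, inside Z1, where U is static. Key fact key_ne: for far k l, x in cl k, y in cl l, one of
them in Z1, U (x, s) != U (y, t) (stat, av, far_disj). Corners: x != y, b x != b y (inj), b x != y and x != b y (fix, off).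
diag_eq: with a s = min (2 s) 1, c s = max (2 s - 1) 0 the homotopy U (phi_l y, (1 - r) s + r c s) - U (phi_k x, (1 - r) s + r a s)
joins diagF to a map which agrees with cat botF rgtF on the closure of the domain; isDeg.htp, deg_congr, deg_cat.
rgt_inner: U is static on cl l, the map has no zero, deg_zero. -/

open Set Metric Filter Topology Function BEv
open scoped NNReal

noncomputable section
namespace BEp

namespace Ctx
variable {m : ℕ} (X : Ctx m) {b : V m → V m} {U : V m × ℝ → V m} {k l : X.T}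

theorem rank_dom : Module.finrank ℝ (((Fin m → ℝ) × (Fin m → ℝ)) × ℝ) = Module.finrank ℝ (V m) := by
  simp only [Module.finrank_prod, Module.finrank_fin_fun, Module.finrank_self]
  omega

theorem key_ne (h : X.Cfg b U) (hf : X.far k l) {x y : V m} (hx : x ∈ (X.top k).cl)
    (hy : y ∈ (X.top l).cl) (h1 : x ∈ X.st.Z1 ∨ y ∈ X.st.Z1) {s t : ℝ} (hs : s ∈ Icc (0 : ℝ) 1)
    (ht : t ∈ Icc (0 : ℝ) 1) : U (x, s) ≠ U (y, t) := by
  have hne : x ≠ y := fun e => disjoint_left.1 (X.far_disj hf) hx (e ▸ hy)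
  have k1 : ∀ {x y : V m} {s t : ℝ}, x ≠ y → y ∈ X.Z → x ∈ X.st.Z1 → s ∈ Icc (0 : ℝ) 1 →
      t ∈ Icc (0 : ℝ) 1 → U (x, s) ≠ U (y, t) := fun {x y s t} hne hy hx hs ht => by
    rw [h.stat x (Or.inl hx) s hs]
    by_cases c : y ∈ X.st.Z1
    · rwa [h.stat y (Or.inl c) t ht]
    · exact fun e => h.av y ⟨hy, c⟩ t ht (e ▸ hx)
  rcases h1 with h1 | h1
  · exact k1 hne (X.cl_sub l hy) h1 hs ht
  · exact (k1 hne.symm (X.cl_sub k hx) h1 ht hs).symm

theorem emb_ne (h : X.Emb b) (hf : X.far k l) {x y : V m} (hx : x ∈ (X.top k).cl)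
    (hy : y ∈ (X.top l).cl) : x ≠ y ∧ b x ≠ b y ∧ b x ≠ y ∧ x ≠ b y := by
  have hne : x ≠ y := fun e => disjoint_left.1 (X.far_disj hf) hx (e ▸ hy)
  have k1 : ∀ {x y : V m}, x ≠ y → x ∈ X.Z → y ∈ X.Z → b x ≠ y := fun {x y} hne hx hy => by
    by_cases c : x ∈ X.st.Z1 ∪ X.In
    · rwa [h.fix x c]
    · exact fun e => h.off x ⟨hx, c⟩ (e ▸ hy)
  have hx' := X.cl_sub k hx
  have hy' := X.cl_sub l hy
  exact ⟨hne, fun e => hne (h.inj hx' hy' e), k1 hne hx' hy', (k1 hne.symm hy' hx').symm⟩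

/-- Description of the frontier of the domain. -/
theorem frontier_dom {q : ((Fin m → ℝ) × (Fin m → ℝ)) × ℝ} (hq : q ∈ frontier (X.dom k l)) :
    q.1.1 ∈ closure (X.top l).U ∧ q.1.2 ∈ closure (X.top k).U ∧ q.2 ∈ Icc (0 : ℝ) 1 ∧
      ((X.top l).φ q.1.1 ∈ X.st.Z1 ∨ (X.top k).φ q.1.2 ∈ X.st.Z1 ∨ q.2 = 0 ∨ q.2 = 1) := by
  rcases frontier_prod_Ioo ((X.top l).op.prod (X.top k).op) hq with ⟨h1, h2⟩ | ⟨h1, h2⟩
  · rw [frontier_prod_eq] at h1
    rcases h1 with h1 | h1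
    · exact ⟨h1.1, frontier_subset_closure h1.2, h2,
        Or.inr (Or.inl (X.st.top_bd k ⟨_, h1.2, rfl⟩))⟩
    · exact ⟨frontier_subset_closure h1.1, h1.2, h2, Or.inl (X.st.top_bd l ⟨_, h1.1, rfl⟩)⟩
  · rw [closure_prod_eq] at h1
    refine ⟨h1.1, h1.2, ?_, Or.inr (Or.inr h2)⟩
    rcases h2 with h2 | h2 <;> simp [h2]

theorem GAdd_open (k l : X.T) : IsOpen (X.dom k l) :=
  ((X.top l).op.prod (X.top k).op).prod isOpen_Ioo

theorem GAdd_bdd (k l : X.T) : Bornology.IsBounded (X.dom k l) :=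
  ((X.top l).bdd.prod (X.top k).bdd).prod (isBounded_Ioo _ _)

theorem GAdd_mem {y : Fin m → ℝ} (hy : y ∈ closure (X.top k).U) : (X.top k).φ y ∈ X.Z :=
  X.cl_sub k ⟨y, hy, rfl⟩

theorem GAdd_ne (h : X.Cfg b U) (hf : X.far k l) {q : ((Fin m → ℝ) × (Fin m → ℝ)) × ℝ}
    (hq : q ∈ frontier (X.dom k l)) {s t : ℝ} (hs : s ∈ Icc (0 : ℝ) 1) (ht : t ∈ Icc (0 : ℝ) 1)
    (h1 : q.2 = 0 ∨ q.2 = 1 → (s = 0 ∨ s = 1) ∧ (t = 0 ∨ t = 1)) :
    U ((X.top l).φ q.1.1, s) - U ((X.top k).φ q.1.2, t) ≠ 0 := by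
  obtain ⟨h2, h3, -, h4⟩ := X.frontier_dom hq
  rw [← or_assoc, or_comm (a := _ ∈ _)] at h4
  refine sub_ne_zero.2 (Ne.symm ?_)
  rcases h4 with h4 | h4
  · exact X.key_ne h hf ⟨_, h3, rfl⟩ ⟨_, h2, rfl⟩ h4 ht hs
  · obtain ⟨e1, e2, e3, e4⟩ := X.emb_ne h.toEmb hf ⟨_, h3, rfl⟩ ⟨_, h2, rfl⟩
    have a0 := h.u0 _ (X.GAdd_mem h2)
    have a1 := h.u1 _ (X.GAdd_mem h2)
    have b0 := h.u0 _ (X.GAdd_mem h3)
    have b1 := h.u1 _ (X.GAdd_mem h3)
    obtain ⟨rfl | rfl, rfl | rfl⟩ := h1 h4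
    · rwa [a0, b0]
    · rwa [a0, b1]
    · rwa [a1, b0]
    · rwa [a1, b1]

theorem adm_diag (h : X.Cfg b U) (hf : X.far k l) : Adm (X.dom k l) (X.diagF U k l) := by
  have c1 := h.cont
  have c2 := (X.top l).cont
  have c3 := (X.top k).cont
  refine ⟨X.GAdd_open k l, X.GAdd_bdd k l, by unfold diagF; fun_prop, fun q hq => ?_⟩
  have hs := (X.frontier_dom hq).2.2.1
  exact X.GAdd_ne h hf hq hs hs fun e => ⟨e, e⟩

theorem adm_bot (h : X.Cfg b U) (hf : X.far k l) : Adm (X.dom k l) (X.botF U k l) := by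
  have c1 := h.cont
  have c2 := (X.top l).cont
  have c3 := (X.top k).cont
  refine ⟨X.GAdd_open k l, X.GAdd_bdd k l, by unfold botF; fun_prop, fun q hq => ?_⟩
  obtain ⟨h1, -, hs, -⟩ := X.frontier_dom hq
  have := X.GAdd_ne h hf hq (left_mem_Icc.2 zero_le_one) hs fun e => ⟨Or.inl rfl, e⟩
  rwa [h.u0 _ (X.GAdd_mem h1)] at this

theorem adm_rgt (h : X.Cfg b U) (hf : X.far k l) : Adm (X.dom k l) (X.rgtF b U k l) := by
  have c1 := h.cont
  have c2 := (X.top l).cont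
  have c3 := (X.top k).cont
  have c4 := h.tp.continuous
  refine ⟨X.GAdd_open k l, X.GAdd_bdd k l, by unfold rgtF; fun_prop, fun q hq => ?_⟩
  obtain ⟨-, h1, hs, -⟩ := X.frontier_dom hq
  have := X.GAdd_ne h hf hq hs (right_mem_Icc.2 zero_le_one) fun e => ⟨e, Or.inr rfl⟩
  rwa [h.u1 _ (X.GAdd_mem h1)] at this

theorem diag_eq (h : X.Cfg b U) (hf : X.far k l) :
    X.diag U k l = X.bot U k l + X.rgt b U k l := by
  have c1 := h.cont
  have c2 := (X.top l).cont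
  have c3 := (X.top k).cont
  obtain ⟨h1, h2⟩ := deg_cat rank_dom (X.adm_bot h hf) (X.adm_rgt h hf) fun x hx => by
    rw [closure_prod_eq] at hx
    simp only [botF, rgtF, h.u0 _ (X.GAdd_mem hx.1), h.u1 _ (X.GAdd_mem hx.2)]
  have h3 := (isDeg rank_dom).htp (X.dom k l) (fun z =>
    U ((X.top l).φ z.1.1.1, (1 - z.2) * z.1.2 + z.2 * max (2 * z.1.2 - 1) 0) -
      U ((X.top k).φ z.1.1.2, (1 - z.2) * z.1.2 + z.2 * min (2 * z.1.2) 1))
    (X.GAdd_open k l) (X.GAdd_bdd k l) (by fun_prop) fun q hq r hr => by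
      have hs := (X.frontier_dom hq).2.2.1
      have hc : ∀ a ∈ Icc (0 : ℝ) 1, (1 - r) * q.2 + r * a ∈ Icc (0 : ℝ) 1 := fun a ha =>
        convex_Icc (0 : ℝ) 1 hs ha (sub_nonneg.2 hr.2) hr.1 (sub_add_cancel _ _)
      refine X.GAdd_ne h hf hq (hc _ ⟨le_max_right _ _, max_le (by linarith [hs.2]) zero_le_one⟩)
        (hc _ ⟨le_min (by linarith [hs.1]) zero_le_one, min_le_right _ _⟩) ?_
      rintro (e | e) <;> norm_num [e]
  simp only [sub_zero, one_mul, zero_mul, add_zero, sub_self, zero_add] at h3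
  refine h3.trans ((deg_congr rank_dom h1 (by fun_prop) fun q hq => ?_).symm.trans h2)
  simp only [cat, botF, rgtF, h.u0 _ (X.GAdd_mem (X.frontier_dom hq).1)]
  abel

theorem rgt_inner (h : X.Cfg b U) (hf : X.far k l) (hl : ¬ X.outer l) : X.rgt b U k l = 0 := by
  refine deg_zero rank_dom (X.adm_rgt h hf) fun q hq => ?_
  have h1 : (X.top l).φ q.1.1 ∈ (X.top l).cl := ⟨_, subset_closure hq.1.1, rfl⟩
  rw [rgtF, h.stat _ (Or.inr (X.inner_of_not_outer hl h1)) _ (Ioo_subset_Icc_self hq.2)]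
  exact sub_ne_zero.2 (X.emb_ne h.toEmb hf ⟨_, subset_closure hq.1.2, rfl⟩ h1).2.2.1.symm

end Ctx

end BEp
end
end

-- merged part: Pool.Agent.Work.MP_f0515e_an.Pos.GV3a
section
/-! TASK GV3a. The initial square and the final vanishing.
Plan. sq_init: K0 ((p, s), r) = (1 - r) (U (p.1, s) - U (p.2, s)) + r Psi (p, s) has the boundary values. avoid_odd in ((V x V) x R) x R with the
involution swap x id x id, P = A0 D x I x I, closed set A = ((D n Stat) x I x I) u (D x boundary of the square), Bad = {0}. P minus A lies in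
(Z1 x Z1 u Z2 x Z u Z x Z2) x R x R, Sm (2m). On A n P the map K0 is nonzero: p.1 != p.2 on D since Psi (p, 0) != 0; on Stat both U and Psi are
static; for r = 0 one point is in Z1 (stat, av). diag_zero: homotopy K ((phi_l y, phi_k x), s), r); every frontier point (frontier_dom) has
its pair in A or s in {0, 1}; at r = 1 the map Psi has no zero (cl l x cl k is in Ds); isDeg.htp, deg_congr, deg_zero. -/

open Set Metric Filter Topology Function BEv
open scoped NNReal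

noncomputable section
namespace BEp

namespace Ctx
variable {m : ℕ} (X : Ctx m) {b : V m → V m} {U : V m × ℝ → V m} {D A : Set (V m × V m)}
  {Ψ : (V m × V m) × ℝ → V m} {K : ((V m × V m) × ℝ) × ℝ → V m}

theorem GV3a_stat_closed : IsClosed X.Stat := by
  have h1 := X.hIn.1.isClosed
  have h2 : IsClosed (X.st.Z1 ∩ closure (X.Z \ X.In)) := X.st.p1.1.isClosed.inter isClosed_closure
  exact (h1.prod h1).union ((h2.prod h1).union (h1.prod h2))

theorem GV3a_stat_symm : Symm X.Stat := by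
  rintro p (h | h | h)
  exacts [Or.inl h.symm, Or.inr (Or.inr h.symm), Or.inr (Or.inl h.symm)]

theorem GV3a_stat_mem {p : V m × V m} (h : p ∈ X.Stat) :
    p.1 ∈ X.st.Z1 ∪ X.In ∧ p.2 ∈ X.st.Z1 ∪ X.In := by
  obtain h | h | h := h
  exacts [⟨Or.inr h.1, Or.inr h.2⟩, ⟨Or.inl h.1.1, Or.inr h.2⟩, ⟨Or.inr h.1, Or.inl h.2.1⟩]

theorem GV3a_ne0 (hD : X.Dat D b Ψ) {p : V m × V m} (hp : p ∈ D) : p.1 - p.2 ≠ 0 := by
  have h1 := hD.oh.ne p hp 0 (left_mem_Icc.2 zero_le_one)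
  rwa [hD.oh.zero p hp] at h1

theorem GV3a_ne1 (hD : X.Dat D b Ψ) {p : V m × V m} (hp : p ∈ D) : b p.1 - b p.2 ≠ 0 := by
  have h1 := hD.oh.ne p hp 1 (right_mem_Icc.2 zero_le_one)
  rwa [hD.oh.one p hp] at h1

theorem GV3a_low (h : X.Cfg b U) {x y : V m} (hx : x ∈ X.st.Z1) (hy : y ∈ X.Z) (hxy : x ≠ y)
    {s : ℝ} (hs : s ∈ Icc (0 : ℝ) 1) : U (x, s) ≠ U (y, s) := by
  rw [h.stat x (Or.inl hx) s hs]
  by_cases e : y ∈ X.st.Z1
  · rwa [h.stat y (Or.inl e) s hs]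
  · exact fun k => h.av y ⟨hy, e⟩ s hs (k ▸ hx)

theorem GV3a_A0_ne (h : X.Cfg b U) (hD : X.Dat D b Ψ) {p : V m × V m} (hp : p ∈ X.A0 D)
    {s : ℝ} (hs : s ∈ Icc (0 : ℝ) 1) : U (p.1, s) - U (p.2, s) ≠ 0 := by
  have h0 := X.GV3a_ne0 hD hp.1
  have h1 := hD.sub hp.1
  obtain e | e | e | e := hp.2
  · exact sub_ne_zero.2 (X.GV3a_low h e.1 h1.2 (sub_ne_zero.1 h0) hs)
  · exact sub_ne_zero.2 (X.GV3a_low h (X.st.s21 e) h1.2 (sub_ne_zero.1 h0) hs)
  · exact sub_ne_zero.2 (X.GV3a_low h (X.st.s21 e) h1.1 (sub_ne_zero.1 h0).symm hs).symm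
  · rwa [h.stat _ (X.GV3a_stat_mem e).1 s hs, h.stat _ (X.GV3a_stat_mem e).2 s hs]

theorem GV3a_sm : Sm (2 * m - 2) (X.st.Z1 ×ˢ X.st.Z1 ∪ (X.st.Z2 ×ˢ X.Z ∪ X.Z ×ˢ X.st.Z2)) := by
  have hm := X.hm
  exact ((X.st.pc1.sm.prod X.st.pc1.sm).le (by omega)).union
    (((X.st.pc2.sm.prod X.hpc.sm).le (by omega)).union
      ((X.hpc.sm.prod X.st.pc2.sm).le (by omega)))

theorem A0_compact (hD : X.Dat D b Ψ) : IsCompact (X.A0 D) := by
  have h1 := X.st.p1.1.isClosed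
  have h2 := X.st.c2.isClosed
  exact hD.cpt.inter_right ((h1.prod h1).union ((h2.preimage continuous_fst).union
    ((h2.preimage continuous_snd).union X.GV3a_stat_closed)))

theorem A0_symm (hD : X.Dat D b Ψ) : Symm (X.A0 D) := by
  rintro p ⟨h1, h2⟩
  refine ⟨hD.symm p h1, ?_⟩
  obtain h | h | h | h := h2
  exacts [Or.inl h.symm, Or.inr (Or.inr (Or.inl h)), Or.inr (Or.inl h),
    Or.inr (Or.inr (Or.inr (X.GV3a_stat_symm p h)))]

theorem sq_init (h : X.Cfg b U) (hD : X.Dat D b Ψ) : ∃ K, Sq D (X.A0 D) b U Ψ K := by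
  have hm := X.hm
  obtain ⟨u, hu⟩ : ∃ u : ((V m × V m) × ℝ) × ℝ → V m, ∀ p s r, u ((p, s), r) =
      (1 - r) • (U (p.1, s) - U (p.2, s)) + r • Ψ (p, s) :=
    ⟨fun q => (1 - q.2) • (U (q.1.1.1, q.1.2) - U (q.1.1.2, q.1.2)) + q.2 • Ψ q.1,
      fun _ _ _ => rfl⟩
  have hc : Continuous u := by
    have h1 := h.cont
    have h2 := hD.oh.cont
    have e : u = fun q => (1 - q.2) • (U (q.1.1.1, q.1.2) - U (q.1.1.2, q.1.2)) + q.2 • Ψ q.1 :=
      funext fun q => hu q.1.1 q.1.2 q.2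
    rw [e]
    fun_prop
  have s0 : ∀ p ∈ D, ∀ r, u ((p, 0), r) = p.1 - p.2 := fun p hp r => by
    rw [hu, h.u0 _ (hD.sub hp).1, h.u0 _ (hD.sub hp).2, hD.oh.zero p hp, sub_smul, one_smul]
    exact sub_add_cancel _ _
  have s1 : ∀ p ∈ D, ∀ r, u ((p, 1), r) = b p.1 - b p.2 := fun p hp r => by
    rw [hu, h.u1 _ (hD.sub hp).1, h.u1 _ (hD.sub hp).2, hD.oh.one p hp, sub_smul, one_smul]
    exact sub_add_cancel _ _
  have r0 : ∀ p s, u ((p, s), 0) = U (p.1, s) - U (p.2, s) := fun p s => by simp [hu]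
  have r1 : ∀ p s, u ((p, s), 1) = Ψ (p, s) := fun p s => by simp [hu]
  let i : (((V m × V m) × ℝ) × ℝ) →L[ℝ] ((V m × V m) × ℝ) × ℝ :=
    (((ContinuousLinearMap.snd ℝ _ _).prod (ContinuousLinearMap.fst ℝ _ _)).prodMap
      (ContinuousLinearMap.id ℝ ℝ)).prodMap (ContinuousLinearMap.id ℝ ℝ)
  obtain ⟨v, v1, v2, v3, -, v4⟩ := avoid_odd i (fun _ => rfl) (d := 2 * m - 2 + 1 + 1) (d' := 0)
    (P := (X.A0 D ×ˢ Icc (0 : ℝ) 1) ×ˢ Icc (0 : ℝ) 1)
    (A := {q | q.1.1 ∈ X.Stat ∨ q.1.2 = 0 ∨ q.1.2 = 1 ∨ q.2 = 0 ∨ q.2 = 1})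
    (((X.A0_compact hD).prod isCompact_Icc).prod isCompact_Icc)
    (((X.GV3a_sm.prod (Sm.real univ)).prod (Sm.real univ)).mono (by
      rintro q ⟨⟨⟨⟨h1, h2⟩, -⟩, -⟩, h3⟩
      refine ⟨⟨?_, mem_univ _⟩, mem_univ _⟩
      obtain e | e | e | e := h2
      exacts [Or.inl e, Or.inr (Or.inl ⟨e, (hD.sub h1).2⟩), Or.inr (Or.inr ⟨(hD.sub h1).1, e⟩),
        absurd (Or.inl e) h3]))
    ((X.GV3a_stat_closed.preimage continuous_fst.fst).union
      ((isClosed_eq continuous_fst.snd continuous_const).union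
        ((isClosed_eq continuous_fst.snd continuous_const).union
          ((isClosed_eq continuous_snd continuous_const).union
            (isClosed_eq continuous_snd continuous_const)))))
    (fun q hq => ⟨⟨X.A0_symm hD _ hq.1.1, hq.1.2⟩, hq.2⟩)
    (fun q hq => hq.imp (X.GV3a_stat_symm _) id)
    (fun q hq e => X.GV3a_ne0 hD hq.1.1.1 (sub_eq_zero.2 (congrArg (fun z => z.1.1.2) e)))
    (Bad := {0}) isClosed_singleton (Sm.finite (finite_singleton _)) (by simp)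
    (by rw [Module.finrank_fin_fun]; omega) hc
    (by
      rintro ⟨⟨p, s⟩, r⟩
      change u ((p.swap, s), r) = _
      rw [hu, hu, hD.oh.odd, Prod.fst_swap, Prod.snd_swap, neg_add, ← smul_neg, ← smul_neg,
        neg_sub])
    (by
      rintro ⟨⟨p, s⟩, r⟩ ⟨h1, ⟨h2, h3⟩, h4⟩
      change u ((p, s), r) ≠ 0
      obtain e | e | e | e | e := h1
      · rw [hu, h.stat _ (X.GV3a_stat_mem e).1 s h3, h.stat _ (X.GV3a_stat_mem e).2 s h3,
          hD.stat p ⟨h2.1, e⟩ s h3, sub_smul, one_smul, sub_add_cancel]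
        exact X.GV3a_ne0 hD h2.1
      · rw [show s = 0 from e, s0 p h2.1]
        exact X.GV3a_ne0 hD h2.1
      · rw [show s = 1 from e, s1 p h2.1]
        exact X.GV3a_ne1 hD h2.1
      · rw [show r = 0 from e, r0]
        exact X.GV3a_A0_ne h hD h2 h3
      · rw [show r = 1 from e, r1]
        exact hD.oh.ne p h2.1 s h3)
    one_pos
  refine ⟨v, v1, fun p s r => v2 ((p, s), r), fun p hp s hs r hr => v4 _ ⟨⟨hp, hs⟩, hr⟩,
    fun p _ s _ => ?_, fun p _ s _ => ?_, fun p hp r _ => ?_, fun p hp r _ => ?_⟩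
  · exact (v3 (Or.inr (Or.inr (Or.inr (Or.inl rfl))))).trans (r0 p s)
  · exact (v3 (Or.inr (Or.inr (Or.inr (Or.inr rfl))))).trans (r1 p s)
  · exact (v3 (Or.inr (Or.inl rfl))).trans (s0 p hp r)
  · exact (v3 (Or.inr (Or.inr (Or.inl rfl)))).trans (s1 p hp r)

theorem diag_zero (h : X.Cfg b U) (hD : X.Dat D b Ψ) (hK : Sq D A b U Ψ K) {k l : X.T}
    (hf : X.far k l)
    (hA : ∀ x ∈ (X.top k).cl, ∀ y ∈ (X.top l).cl, x ∈ X.st.Z1 ∨ y ∈ X.st.Z1 → (y, x) ∈ A) :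
    X.diag U k l = 0 := by
  have h1 := X.adm_diag h hf
  have h2 : ∀ {x y}, y ∈ closure (X.top l).U → x ∈ closure (X.top k).U →
      ((X.top l).φ y, (X.top k).φ x) ∈ D := fun hy hx =>
    hD.ds ⟨l, k, X.far_symm hf, mem_image_of_mem _ hy, mem_image_of_mem _ hx⟩
  obtain ⟨H, hH⟩ : ∃ H : (((Fin m → ℝ) × (Fin m → ℝ)) × ℝ) × ℝ → V m, H = fun q =>
      K ((((X.top l).φ q.1.1.1, (X.top k).φ q.1.1.2), q.1.2), q.2) := ⟨_, rfl⟩
  have hc : Continuous H := by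
    have c1 := (X.top l).cont
    have c2 := (X.top k).cont
    have c3 := hK.cont
    rw [hH]
    fun_prop
  have h3 : ∀ q ∈ frontier (X.dom k l), ∀ r ∈ Icc (0 : ℝ) 1, H (q, r) ≠ 0 := by
    intro q hq r hr
    obtain ⟨a1, a2, a3, a4⟩ := X.frontier_dom hq
    rw [hH]
    dsimp only
    obtain e | e | e | e := a4
    · exact hK.ne _ (hA _ (mem_image_of_mem _ a2) _ (mem_image_of_mem _ a1) (Or.inr e)) _ a3 r hr
    · exact hK.ne _ (hA _ (mem_image_of_mem _ a2) _ (mem_image_of_mem _ a1) (Or.inl e)) _ a3 r hr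
    · rw [e, hK.s0 _ (h2 a1 a2) r hr]
      exact X.GV3a_ne0 hD (h2 a1 a2)
    · rw [e, hK.s1 _ (h2 a1 a2) r hr]
      exact X.GV3a_ne1 hD (h2 a1 a2)
  have h4 := (isDeg rank_dom).htp _ H h1.1 h1.2.1 hc h3
  unfold diag
  rw [deg_congr rank_dom h1 (v := fun q => H (q, 0)) (by fun_prop) fun q hq => ?_, h4]
  · refine deg_zero rank_dom ⟨h1.1, h1.2.1, by fun_prop,
      fun q hq => h3 q hq 1 (right_mem_Icc.2 zero_le_one)⟩ fun q hq => ?_
    have h5 := h2 (subset_closure hq.1.1) (subset_closure hq.1.2)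
    rw [hH]
    dsimp only
    rw [hK.r1 _ h5 _ (Ioo_subset_Icc_self hq.2)]
    exact hD.oh.ne _ h5 _ (Ioo_subset_Icc_self hq.2)
  · obtain ⟨a1, a2, a3, -⟩ := X.frontier_dom hq
    rw [hH]
    exact (hK.r0 _ (h2 a1 a2) _ a3).symm

end Ctx

end BEp
end
end

-- merged part: Pool.Agent.Work.MP_f0515e_an.Pos.GV5a
section
/-! TASK GV5a. The intermediate embeddings and their intersection numbers.
Plan. exists_mix: induction on S; adding k use Poly.glue for d = b - id on cl k and Z minus car k (d = 0 on their intersection, which is bd k inside Z1), w + d'.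
Or directly w = id + sum over k in S of d_k. mix_inj: a point moved by w lies in car k, k in S; use fix, off, inj. phase_deg: let Theta be the isotopy of SG.isotopy.
The homotopy Theta (w (phi_l y), r) - Theta (U (phi_j x, s), r) is nonzero on the frontier of U l x (U j x Ioo 0 1) (key_ne, emb_ne; w = id or b on cl l);
at r = 1 it is phi_l y - Phi (U ..) on the closure since Phi (w z) = z on Z; at r = 0 it is botF U j l or rgtF b U l j with sign, composed with a linear isomorphism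
of the domains (deg_domain with prodAssoc / prodComm, deg_target with neg). -/

open Set Metric Filter Topology Function BEv
open scoped NNReal

noncomputable section
namespace BEp

section
variable {E F G : Type} [NormedAddCommGroup E] [NormedSpace ℝ E] [FiniteDimensional ℝ E]
  [NormedAddCommGroup F] [NormedSpace ℝ F] [FiniteDimensional ℝ F]
  [NormedAddCommGroup G] [NormedSpace ℝ G] [FiniteDimensional ℝ G] {O : Set E} {u : E → F}

theorem GV5a_dom (h : Module.finrank ℝ E = Module.finrank ℝ F) (L : G ≃L[ℝ] E) (hu : Adm O u)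
    (h0 : deg O u = 0) : Adm (L ⁻¹' O) (fun x => u (L x)) ∧ deg (L ⁻¹' O) (fun x => u (L x)) = 0 := by
  refine ⟨⟨hu.1.preimage L.continuous, L.antilipschitz.isBounded_preimage hu.2.1,
    hu.2.2.1.comp L.continuous, fun x hx => hu.2.2.2 _ ?_⟩, ?_⟩
  · exact (L.toHomeomorph.preimage_frontier O).symm.subset hx
  · obtain ⟨e, -, he⟩ := deg_domain h L 0
    simpa [h0] using he O u hu

theorem GV5a_neg (h : Module.finrank ℝ E = Module.finrank ℝ F) (hu : Adm O u)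
    (h0 : deg O u = 0) : Adm O (fun x => -u x) ∧ deg O (fun x => -u x) = 0 := by
  refine ⟨⟨hu.1, hu.2.1, hu.2.2.1.neg, fun x hx => neg_ne_zero.2 (hu.2.2.2 x hx)⟩, ?_⟩
  obtain ⟨e, -, he⟩ := deg_target h (ContinuousLinearEquiv.neg ℝ (M := F))
  simpa [h0] using he O u hu

end

namespace Ctx
variable {m : ℕ} (X : Ctx m) {b : V m → V m} {U : V m × ℝ → V m}

/-- `w` is `b` on the cells of `S` and the identity elsewhere. -/
def Mix (b : V m → V m) (S : Set X.T) (w : V m → V m) : Prop :=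
  TP w ∧ (∀ k ∈ S, EqOn w b (X.top k).cl) ∧
    ∀ z ∈ X.Z, (∀ k ∈ S, z ∉ (X.top k).car) → w z = z

theorem exists_mix (h : X.Emb b) (S : Set X.T) : ∃ w, X.Mix b S w := by
  classical
  choose d h1 h2 h3 using fun k : X.T => (X.st.top_cl k).glue (X.st.top_rest k)
    (h.tp.sub TP.id') fun x hx =>
      sub_eq_zero.2 (h.fix x (Or.inl (X.st.top_bd k ((X.top k).bd_eq ▸ ⟨hx.1, hx.2.2⟩))))
  refine ⟨fun z => z + ∑ k ∈ Finset.univ.filter (· ∈ S), d k z, TP.id'.add (TP.sum _ fun k _ => h1 k),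
    fun k hk z hz => ?_, fun z hz hS => ?_⟩
  · change z + _ = _
    rw [Finset.sum_eq_single_of_mem k (by simpa using hk) fun k' _ e =>
      h3 k' z ⟨X.cl_sub k hz, fun k => disjoint_left.1 (X.cl_disj e) k hz⟩, h2 k hz,
      add_sub_cancel]
  · change z + _ = _
    rw [Finset.sum_eq_zero fun k hk => h3 k z ⟨hz, hS k (by simpa using hk)⟩, add_zero]

theorem mix_inj (h : X.Emb b) {S : Set X.T} {w : V m → V m} (hw : X.Mix b S w) :
    InjOn w X.Z := by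
  have h1 : ∀ z ∈ X.Z, w z = z ∨ w z = b z := fun z hz => by
    by_cases k : ∀ k ∈ S, z ∉ (X.top k).car
    · exact Or.inl (hw.2.2 z hz k)
    · push Not at k
      obtain ⟨k, hk, hz'⟩ := k
      exact Or.inr (hw.2.1 k hk (image_mono subset_closure hz'))
  have h2 : ∀ x ∈ X.Z, ∀ y ∈ X.Z, x = b y → x = y := fun x hx y hy e =>
    e.trans (h.fix y (by_contra fun k => h.off y ⟨hy, k⟩ (e ▸ hx)))
  intro x hx y hy e
  rcases h1 x hx with k | k <;> rcases h1 y hy with k' | k' <;> rw [k, k'] at e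
  exacts [e, h2 x hx y hy e, (h2 y hy x hx e.symm).symm, h.inj hx hy e]

theorem phase_deg (h : X.Cfg b U) {j l : X.T} (hf : X.far j l) (hj : X.outer j)
    (h1 : (j < l ∨ ¬ X.outer l) → X.bot U j l = 0)
    (h2 : l < j → X.outer l → X.rgt b U l j = 0) {w : V m → V m} (hw : X.Mix b {k | k < j} w)
    {Φ : V m → V m} (hΦ : SG Φ) (hΦw : ∀ z ∈ X.Z, Φ (w z) = z) :
    deg ((X.top l).U ×ˢ ((X.top j).U ×ˢ Ioo (0 : ℝ) 1))
      (fun q : (Fin m → ℝ) × ((Fin m → ℝ) × ℝ) =>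
        (X.top l).φ q.1 - Φ (U ((X.top j).φ q.2.1, q.2.2))) = 0 := by
  have hr := rank_dom (m := m)
  have hcl : ∀ q ∈ frontier (X.dom j l), (X.top l).φ q.1.1 ∈ (X.top l).cl := fun q hq =>
    ⟨_, (X.frontier_dom hq).1, rfl⟩
  obtain ⟨G, hG, h0, e⟩ : ∃ G, Adm (X.dom j l) G ∧ deg (X.dom j l) G = 0 ∧
      ∀ q ∈ frontier (X.dom j l), G q = w ((X.top l).φ q.1.1) - U ((X.top j).φ q.1.2, q.2) := by
    by_cases k : j < l ∨ ¬ X.outer l
    · refine ⟨_, X.adm_bot h hf, h1 k, fun q hq => congrArg (· - _) (Eq.symm ?_)⟩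
      rcases (X.far_ne hf).lt_or_gt with k' | k'
      · exact hw.2.2 _ (X.cl_sub l (hcl q hq)) fun i hi m =>
          disjoint_left.1 (X.cl_disj (lt_trans hi k').ne) m (hcl q hq)
      · exact (hw.2.1 l k' (hcl q hq)).trans (h.fix _ (Or.inr
          (X.inner_of_not_outer (k.resolve_left k'.not_gt) (hcl q hq))))
    · obtain ⟨k1, k2⟩ := not_or.1 k
      have k3 : l < j := (X.far_ne hf).lt_or_gt.resolve_left k1
      obtain ⟨a1, a2⟩ := GV5a_neg hr (X.adm_rgt h (X.far_symm hf)) (h2 k3 (not_not.1 k2))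
      obtain ⟨a3, a4⟩ := GV5a_dom hr ((ContinuousLinearEquiv.prodComm ℝ (Fin m → ℝ)
        (Fin m → ℝ)).prodCongr (ContinuousLinearEquiv.refl ℝ ℝ)) a1 a2
      have e : ((ContinuousLinearEquiv.prodComm ℝ (Fin m → ℝ) (Fin m → ℝ)).prodCongr
          (ContinuousLinearEquiv.refl ℝ ℝ)) ⁻¹' X.dom l j = X.dom j l :=
        Set.ext fun q => ⟨fun k => ⟨⟨k.1.2, k.1.1⟩, k.2⟩, fun k => ⟨⟨k.1.2, k.1.1⟩, k.2⟩⟩
      rw [e] at a3 a4
      refine ⟨_, a3, a4, fun q hq => ?_⟩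
      rw [hw.2.1 l k3 (hcl q hq)]
      exact neg_sub _ _
  obtain ⟨Θ, c, t0, t1, ti⟩ := hΦ.isotopy
  have c1 : Continuous fun q : ((Fin m → ℝ) × (Fin m → ℝ)) × ℝ => (X.top l).φ q.1.1 :=
    (X.top l).cont.comp continuous_fst.fst
  have c2 : Continuous fun q : ((Fin m → ℝ) × (Fin m → ℝ)) × ℝ => U ((X.top j).φ q.1.2, q.2) :=
    h.cont.comp (((X.top j).cont.comp continuous_fst.snd).prodMk continuous_snd)
  have c3 := hw.1.continuous.comp c1
  have cΦ := hΦ.lh.tp.continuous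
  have n : ∀ q ∈ frontier (X.dom j l), ∀ r : ℝ,
      Θ (w ((X.top l).φ q.1.1), r) - Θ (U ((X.top j).φ q.1.2, q.2), r) ≠ 0 := fun q hq r k =>
    hG.2.2.2 q hq ((e q hq).trans (sub_eq_zero.2 (ti r (sub_eq_zero.1 k))))
  have d1 := (isDeg hr).htp (X.dom j l) (fun p => Θ (w ((X.top l).φ p.1.1.1), p.2) -
    Θ (U ((X.top j).φ p.1.1.2, p.1.2), p.2)) hG.1 hG.2.1
    ((c.comp ((c3.comp continuous_fst).prodMk continuous_snd)).sub
      (c.comp ((c2.comp continuous_fst).prodMk continuous_snd))) fun q hq r _ => n q hq r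
  simp only [t0, t1] at d1
  have hA : Adm (X.dom j l) fun q => (X.top l).φ q.1.1 - Φ (U ((X.top j).φ q.1.2, q.2)) :=
    ⟨hG.1, hG.2.1, c1.sub (cΦ.comp c2), fun q hq => by
      simpa only [t1, hΦw _ (X.cl_sub l (hcl q hq))] using n q hq 1⟩
  have d2 := deg_congr hr hG (c3.sub c2) e
  have d3 := deg_congr hr hA ((cΦ.comp c3).sub (cΦ.comp c2)) fun q hq =>
    congrArg (· - _) (hΦw _ (X.cl_sub l (hcl q hq))).symm
  have d4 := (GV5a_dom hr (ContinuousLinearEquiv.prodAssoc ℝ (Fin m → ℝ) (Fin m → ℝ) ℝ).symm hA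
    (d3.trans (d1.symm.trans (d2.symm.trans h0)))).2
  have e' : (ContinuousLinearEquiv.prodAssoc ℝ (Fin m → ℝ) (Fin m → ℝ) ℝ).symm ⁻¹' X.dom j l =
      (X.top l).U ×ˢ ((X.top j).U ×ˢ Ioo (0 : ℝ) 1) :=
    Set.ext fun q => ⟨fun k => ⟨k.1.1, k.1.2, k.2⟩, fun k => ⟨⟨k.1, k.2.1⟩, k.2.2⟩⟩
  rw [e'] at d4
  exact d4

end Ctx

end BEp
end
end
end

-- merged part: Pool.Agent.Work.MP_f0515e_an.Pos.GV4a
section
-- merged part: Pool.Agent.Work.MP_f0515e_an.Pos.HFin0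
section
/-! Calculus of finger moves.

PLAN. `FG.bad`: `K ∪ σ.car = K ∪ σ.cl` (`closure U = U ∪ frontier U`), `σ.cl` is the continuous image of
a compact set; `σ.car` is `Sm c` (`Sm.univ`, `Sm.image`). `fs_adm`: `frontier_prod_Ioo`, `frontier_prod_eq`:
at a frontier point either `y ∈ frontier U` (`σ.φ y ∈ K`), or `p ∈ frontier O` (there `H` is static and
`W p ∉ σ.cl`), or the time is `0` or `1`. `FS.trans`: `cat H H'`, `T ∪ T'`, `deg_cat` applied to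
`q ↦ σ.φ q.1.1 - H (q.1.2, q.2)` (the concatenation of the differences is the difference for the
concatenation, `funext`, `abel`). `fs_move`: `path_avoid` gives `β` from `W p0` to `z` missing
`Bad = K ∪ σ.car`; a `μ`-thickening of `β '' [0,1]` misses `Bad`; take `ρ` with `closedBall p0 (2 ρ) ⊆ O`
and `‖W p - W p0‖ < μ` there; `χ p = max 0 (min 1 (2 - ‖p - p0‖ / ρ))`,
`H (p, r) = β (r * χ p) + (1 - r * χ p) • (W p - W p0)`, `T = closedBall p0 (2 ρ)`; degree `0` by `deg_nz`.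
About 250 lines. -/

open Set Metric Filter Topology Function BEv
open scoped NNReal

noncomputable section
namespace BEp

variable {E F : Type} [NormedAddCommGroup E] [NormedSpace ℝ E] [FiniteDimensional ℝ E]
  [NormedAddCommGroup F] [NormedSpace ℝ F] [FiniteDimensional ℝ F]

/-- Admissible start or end of a finger move. -/
def FG {c : ℕ} (σ : Cell c F) (O : Set E) (K : Set F) (W : E → F) : Prop :=
  Continuous W ∧ (∀ p ∈ O, W p ∉ K ∧ W p ∉ σ.car) ∧ ∀ p ∈ frontier O, W p ∉ σ.cl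

/-- A move from `W` to `W'` with intersection number `d`. -/
def FS {c : ℕ} (σ : Cell c F) (O : Set E) (K : Set F) (W W' : E → F) (d : ℤ) : Prop :=
  ∃ (H : E × ℝ → F) (T : Set E), Continuous H ∧ IsCompact T ∧ T ⊆ O ∧ (∀ p, H (p, 0) = W p) ∧
    (∀ p, H (p, 1) = W' p) ∧ (∀ p, p ∉ T → ∀ r, H (p, r) = W p) ∧
    (∀ p ∈ O, ∀ r ∈ Icc (0 : ℝ) 1, H (p, r) ∉ K) ∧
    deg ((σ.U ×ˢ O) ×ˢ Ioo (0 : ℝ) 1)
      (fun q : ((Fin c → ℝ) × E) × ℝ => σ.φ q.1.1 - H (q.1.2, q.2)) = d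

variable {c : ℕ} {σ : Cell c F} {O : Set E} {K : Set F}

omit [FiniteDimensional ℝ F] in
theorem hfin0_cont (σ : Cell c F) : Continuous σ.φ := σ.M.continuous.add continuous_const

omit [FiniteDimensional ℝ F] in
theorem hfin0_cl (hbd : σ.bd ⊆ K) : σ.cl ⊆ K ∪ σ.car := by
  rintro _ ⟨y, hy, rfl⟩
  rw [closure_eq_self_union_frontier] at hy
  exact hy.elim (fun h => Or.inr ⟨y, h, rfl⟩) fun h => Or.inl (hbd ⟨y, h, rfl⟩)

omit [NormedSpace ℝ E] [FiniteDimensional ℝ E] [FiniteDimensional ℝ F] in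
theorem hfin0_key (hbd : σ.bd ⊆ K) {W : E → F} (hW : FG σ O K W) {y : Fin c → ℝ}
    (hy : y ∈ closure σ.U) {p : E} (hp : p ∈ closure O) : σ.φ y - W p ≠ 0 := by
  intro e
  have h : W p ∈ σ.cl := ⟨y, hy, sub_eq_zero.1 e⟩
  rw [closure_eq_self_union_frontier] at hp
  rcases hp with hp | hp
  · exact (hfin0_cl hbd h).elim (hW.2.1 p hp).1 (hW.2.1 p hp).2
  · exact hW.2.2 p hp h

omit [FiniteDimensional ℝ F] in
theorem hfin0_dim (hdim : c + Module.finrank ℝ E + 1 = Module.finrank ℝ F) :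
    Module.finrank ℝ (((Fin c → ℝ) × E) × ℝ) = Module.finrank ℝ F := by
  simp [← hdim]

theorem Cell.bad (σ : Cell c F) {d' : ℕ} (hK : IsClosed K) (hKs : Sm d' K) (hbd : σ.bd ⊆ K) :
    IsClosed (K ∪ σ.car) ∧ Sm (max d' c) (K ∪ σ.car) := by
  constructor
  · have : K ∪ σ.car = K ∪ σ.cl := (union_subset_union_right _ (image_mono subset_closure)).antisymm
      (union_subset subset_union_left (hfin0_cl hbd))
    rw [this]
    exact hK.union (σ.bdd.isCompact_closure.image (hfin0_cont σ)).isClosed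
  · refine (hKs.le (le_max_left _ _)).union (Sm.le (d := Module.finrank ℝ (Fin c → ℝ))
      ((Sm.univ.mono (subset_univ σ.U)).image ?_) (by simp))
    exact (σ.M.lipschitz.add (LipschitzWith.const σ.o)).locallyLipschitz.locallyLipschitzOn

theorem fs_adm (hO : IsOpen O) (hOb : Bornology.IsBounded O) (hbd : σ.bd ⊆ K) {W W' : E → F}
    (hW : FG σ O K W) (hW' : FG σ O K W') {H : E × ℝ → F} (hH : Continuous H)
    (h0 : ∀ p, H (p, 0) = W p) (h1 : ∀ p, H (p, 1) = W' p)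
    (hs : ∀ p, p ∉ O → ∀ r, H (p, r) = W p)
    (hK : ∀ p ∈ O, ∀ r ∈ Icc (0 : ℝ) 1, H (p, r) ∉ K) :
    Adm ((σ.U ×ˢ O) ×ˢ Ioo (0 : ℝ) 1)
      (fun q : ((Fin c → ℝ) × E) × ℝ => σ.φ q.1.1 - H (q.1.2, q.2)) := by
  refine ⟨(σ.op.prod hO).prod isOpen_Ioo, (σ.bdd.prod hOb).prod (isBounded_Ioo 0 1),
    ((hfin0_cont σ).comp continuous_fst.fst).sub (hH.comp (by fun_prop)), ?_⟩
  rintro ⟨⟨y, p⟩, r⟩ hq
  rcases frontier_prod_Ioo (σ.op.prod hO) hq with ⟨h2, hr⟩ | ⟨h2, hr⟩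
  · have h3 := frontier_subset_closure h2
    rw [closure_prod_eq] at h3
    by_cases hp : p ∈ O
    · rw [frontier_prod_eq] at h2
      rcases h2 with h2 | h2
      · exact (h2.2.2 (hO.interior_eq.symm ▸ hp)).elim
      · exact fun e => hK p hp r hr (hbd ⟨y, h2.1, sub_eq_zero.1 e⟩)
    · dsimp only
      rw [hs p hp]
      exact hfin0_key hbd hW h3.1 h3.2
  · rw [closure_prod_eq] at h2
    dsimp only at hr ⊢
    rcases hr with rfl | rfl
    · rw [h0]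
      exact hfin0_key hbd hW h2.1 h2.2
    · rw [h1]
      exact hfin0_key hbd hW' h2.1 h2.2

theorem FS.refl' (hdim : c + Module.finrank ℝ E + 1 = Module.finrank ℝ F) (hO : IsOpen O)
    (hOb : Bornology.IsBounded O) (hbd : σ.bd ⊆ K) {W : E → F} (hW : FG σ O K W) :
    FS σ O K W W 0 := by
  have hH : Continuous fun q : E × ℝ => W q.1 := hW.1.comp continuous_fst
  exact ⟨fun q => W q.1, ∅, hH, isCompact_empty, empty_subset _, fun _ => rfl, fun _ => rfl,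
    fun _ _ _ => rfl, fun p hp _ _ => (hW.2.1 p hp).1, deg_nz (hfin0_dim hdim)
      (fs_adm hO hOb hbd hW hW hH (fun _ => rfl) (fun _ => rfl) (fun _ _ _ => rfl)
        fun p hp _ _ => (hW.2.1 p hp).1)
      fun q hq => hfin0_key hbd hW (subset_closure hq.1.1) (subset_closure hq.1.2)⟩

theorem FS.trans (hdim : c + Module.finrank ℝ E + 1 = Module.finrank ℝ F) (hO : IsOpen O)
    (hOb : Bornology.IsBounded O) (hbd : σ.bd ⊆ K) {W W' W'' : E → F} (hW : FG σ O K W)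
    (hW' : FG σ O K W') (hW'' : FG σ O K W'') {d d' : ℤ} (h : FS σ O K W W' d)
    (h' : FS σ O K W' W'' d') : FS σ O K W W'' (d + d') := by
  obtain ⟨H, T, a1, a2, a3, a4, a5, a6, a7, rfl⟩ := h
  obtain ⟨H', T', b1, b2, b3, b4, b5, b6, b7, rfl⟩ := h'
  have hA := fs_adm hO hOb hbd hW hW' a1 a4 a5 (fun p hp => a6 p fun k => hp (a3 k)) a7
  have hB := fs_adm hO hOb hbd hW' hW'' b1 b4 b5 (fun p hp => b6 p fun k => hp (b3 k)) b7
  refine ⟨cat H H', T ∪ T', by unfold cat; fun_prop, a2.union b2, union_subset a3 b3,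
    fun p => ?_, fun p => ?_, fun p hp r => ?_, fun p hp r hr => ?_, ?_⟩
  · simp [cat, a4]
  · norm_num [cat, a5, b4, b5]
  · simp only [cat, a6 p fun k => hp (Or.inl k), b6 p fun k => hp (Or.inr k), add_sub_cancel_right]
  · rcases le_total (2 * r) 1 with k | k
    · simp only [cat]
      rw [min_eq_left k, max_eq_right (by linarith only [k]), add_sub_cancel_right]
      exact a7 p hp _ ⟨by linarith only [hr, hr.1], k⟩
    · simp only [cat]
      rw [min_eq_right k, max_eq_left (by linarith), a5, b4, add_sub_cancel_left]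
      exact b7 p hp _ ⟨by linarith, by linarith [hr.2]⟩
  · rw [← (deg_cat (hfin0_dim hdim) hA hB fun x _ => by simp only [a5, b4]).2]
    congr 1
    funext q
    simp only [cat]
    abel

theorem fs_move {d' : ℕ} (hdim : c + Module.finrank ℝ E + 1 = Module.finrank ℝ F)
    (ha : 1 ≤ Module.finrank ℝ E) (hO : IsOpen O) (hOb : Bornology.IsBounded O)
    (hK : IsClosed K) (hKs : Sm d' K) (hd' : d' + 1 < Module.finrank ℝ F) (hbd : σ.bd ⊆ K)
    {W : E → F} (hW : FG σ O K W) {p0 : E} (hp : p0 ∈ O) {z : F} (hz : z ∉ K ∪ σ.car) :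
    ∃ (W' : E → F) (ρ : ℝ), 0 < ρ ∧ FG σ O K W' ∧ FS σ O K W W' 0 ∧ closedBall p0 ρ ⊆ O ∧
      ∀ p ∈ closedBall p0 ρ, W' p = z := by
  obtain ⟨hB, hBs⟩ := σ.bad hK hKs hbd
  obtain ⟨β, hβ, β0, β1, hβB⟩ := path_avoid hB hBs (by omega)
    (fun k => k.elim (hW.2.1 p0 hp).1 (hW.2.1 p0 hp).2) hz
  obtain ⟨μ, hμ, hth⟩ := (isCompact_Icc.image hβ).exists_thickening_subset_open
    hB.isOpen_compl (by rintro _ ⟨t, ht, rfl⟩; exact hβB t ht)
  obtain ⟨ε, hε, hb⟩ := Metric.mem_nhds_iff.1 (inter_mem (hO.mem_nhds hp)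
    (hW.1.continuousAt.preimage_mem_nhds (ball_mem_nhds (W p0) hμ)))
  obtain ⟨ρ, hρ, hT⟩ : ∃ ρ : ℝ, 0 < ρ ∧ closedBall p0 (2 * ρ) ⊆ O ∩ W ⁻¹' ball (W p0) μ :=
    ⟨ε / 3, by positivity, (closedBall_subset_ball (by linarith only [hε])).trans hb⟩
  obtain ⟨χ, hχ, χ0, χ1, χ2, χ3⟩ : ∃ χ : E → ℝ, Continuous χ ∧ (∀ p, 0 ≤ χ p) ∧ (∀ p, χ p ≤ 1) ∧
      (∀ p, p ∉ closedBall p0 (2 * ρ) → χ p = 0) ∧ ∀ p ∈ closedBall p0 ρ, χ p = 1 := by
    refine ⟨fun p => max 0 (min 1 (2 - dist p p0 / ρ)), by fun_prop, fun p => le_max_left _ _,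
      fun p => max_le zero_le_one (min_le_left _ _), fun p k => max_eq_left (min_le_of_right_le ?_),
      fun p k => ?_⟩
    · have := (le_div_iff₀ hρ).2 (not_le.1 k).le
      linarith only [this]
    · have := (div_le_one hρ).2 (mem_closedBall.1 k)
      dsimp only
      rw [min_eq_left (by linarith only [this]), max_eq_right zero_le_one]
  obtain ⟨H, hH⟩ : ∃ H : E × ℝ → F, ∀ p r,
      H (p, r) = β (r * χ p) + (1 - r * χ p) • (W p - W p0) :=
    ⟨fun q => β (q.2 * χ q.1) + (1 - q.2 * χ q.1) • (W q.1 - W p0), fun _ _ => rfl⟩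
  have hc : Continuous H := by
    have := hW.1
    rw [show H = fun q => β (q.2 * χ q.1) + (1 - q.2 * χ q.1) • (W q.1 - W p0) from
      funext fun q => hH q.1 q.2]
    fun_prop
  have h0 : ∀ p, H (p, 0) = W p := fun p => by simp [hH, β0]
  have hs : ∀ p, p ∉ closedBall p0 (2 * ρ) → ∀ r, H (p, r) = W p := fun p k r => by
    simp [hH, χ2 p k, β0]
  have hs' : ∀ p, p ∉ O → ∀ r, H (p, r) = W p := fun p k => hs p fun m => k (hT m).1
  have hav : ∀ p ∈ O, ∀ r ∈ Icc (0 : ℝ) 1, H (p, r) ∉ K ∪ σ.car := fun p k r hr => by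
    by_cases m : p ∈ closedBall p0 (2 * ρ)
    · have t0 : 0 ≤ r * χ p := mul_nonneg hr.1 (χ0 p)
      have t1 : r * χ p ≤ 1 := mul_le_one₀ hr.2 (χ0 p) (χ1 p)
      refine hth (mem_thickening_iff.2 ⟨_, ⟨r * χ p, ⟨t0, t1⟩, rfl⟩, ?_⟩)
      rw [hH, dist_eq_norm, add_sub_cancel_left, norm_smul, Real.norm_eq_abs,
        abs_of_nonneg (sub_nonneg.2 t1)]
      exact (mul_le_of_le_one_left (norm_nonneg _) (by linarith only [t0])).trans_lt
        (mem_ball_iff_norm.1 (hT m).2)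
    · rw [hs p m]
      exact fun e => e.elim (hW.2.1 p k).1 (hW.2.1 p k).2
  have hW' : FG σ O K fun p => H (p, 1) := ⟨hc.comp (by fun_prop),
    fun p k => not_or.1 (hav p k 1 ⟨zero_le_one, le_rfl⟩), fun p k => by
      dsimp only
      rw [hs' p fun m => k.2 (hO.interior_eq.symm ▸ m)]
      exact hW.2.2 p k⟩
  have hK' : ∀ p ∈ O, ∀ r ∈ Icc (0 : ℝ) 1, H (p, r) ∉ K := fun p k r hr m =>
    hav p k r hr (Or.inl m)
  refine ⟨_, ρ, hρ, hW', ⟨H, _, hc, isCompact_closedBall p0 (2 * ρ), fun p k => (hT k).1, h0,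
    fun _ => rfl, hs, hK', deg_nz (hfin0_dim hdim)
      (fs_adm hO hOb hbd hW hW' hc h0 (fun _ => rfl) hs' hK') fun q hq e => ?_⟩,
    fun p k => (hT (closedBall_subset_closedBall (by linarith only [hρ]) k)).1, fun p k => ?_⟩
  · exact hav _ hq.1.2 _ (Ioo_subset_Icc_self hq.2) (Or.inr ⟨_, hq.1.1, sub_eq_zero.1 e⟩)
  · simp [hH, χ3 p k, β1]

end BEp
end
end

-- merged part: Pool.Agent.Work.MP_f0515e_an.Pos.HFin1
section
/-! The elementary crossing.

PLAN. `Cell.coords σ` with `G := E × ℝ` gives `Λ : F ≃L (Fin c → ℝ) × (E × ℝ)`; `K' = Λ (K - σ.o)`.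
Take `y0 ∈ σ.U`, `exists_tube` for `C = {y0}` gives `U', r`; `deg_tube` (domain `E × ℝ`, target `E × ℝ`),
`deg_target` for `Λ` and `deg_domain` for the reassociation
`((Fin c → ℝ) × E) × ℝ ≃L (Fin c → ℝ) × (E × ℝ)` (`ContinuousLinearEquiv.prodAssoc`) give a fixed sign `e`.
Let `N : E ≃L E` be the identity or a reflection (`sdet N = -1`, exists since `1 ≤ finrank E`, see
`exists_sdet`), `λ > 0` with `λ (‖N‖ + 1) < r`, and `z = Λ.symm (y0, (0, -λ)) + σ.o`.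
For `W = z` on `closedBall p0 ρ`: `κ p = max 0 (min 1 (2 - 2 ‖p - p0‖ / ρ))`, `a r = max 0 (min 1 (4 r))`,
`H (p, r) = W p + Λ.symm (0, ((λ κ a / ρ) • N (p - p0), 2 λ r κ))`, `T = closedBall p0 ρ`. On `T × [0,1]` the
value in coordinates is `(y0, ((λ κ a / ρ) • N (p - p0), λ (2 r κ - 1)))`, in the tube; its normal part
vanishes only at `(p0, 1/2)`, and near this point it is the isomorphism
`(v, t) ↦ ((λ/ρ) • N v, 2 λ t)` applied to `(p, r) - (p0, 1/2)`. Use `O1 = ball p0 ρ ×ˢ Ioo 0 1`, `deg_one`,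
`sg_pre`, `sdet_prod`: the degree is `e * sdet N * sg (refl)`; choose `N` accordingly. About 250 lines. -/

open Set Metric Filter Topology Function BEv
open scoped NNReal

noncomputable section
namespace BEp

variable {E F : Type} [NormedAddCommGroup E] [NormedSpace ℝ E] [FiniteDimensional ℝ E]
  [NormedAddCommGroup F] [NormedSpace ℝ F] [FiniteDimensional ℝ F]

theorem exists_sdet (ha : 1 ≤ Module.finrank ℝ E) {s : ℤ} (hs : s = 1 ∨ s = -1) :
    ∃ N : E ≃L[ℝ] E, sdet N = s := by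
  rcases hs with rfl | rfl
  · exact ⟨_, hd2_refl⟩
  · let e : (ℝ × (Fin (Module.finrank ℝ E - 1) → ℝ)) ≃L[ℝ] E :=
      ContinuousLinearEquiv.ofFinrankEq (by
        rw [Module.finrank_prod, Module.finrank_self, Module.finrank_fin_fun]
        omega)
    refine ⟨e.symm.trans (((ContinuousLinearEquiv.neg ℝ).prodCongr
      (ContinuousLinearEquiv.refl ℝ _)).trans e), ?_⟩
    rw [hdeg1_conj, sdet_prod, sdet_neg, hd2_refl, Module.finrank_self, pow_one, mul_one]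

theorem hf1_small (ha : 1 ≤ Module.finrank ℝ E) {s : ℤ} (hs : s = 1 ∨ s = -1) {ε : ℝ}
    (hε : 0 < ε) : ∃ N : E ≃L[ℝ] E, sdet N = s ∧ ∀ v, ‖N v‖ ≤ ε * ‖v‖ := by
  obtain ⟨N, hN⟩ := exists_sdet ha hs
  obtain ⟨t, ht⟩ : ∃ t, t = ε / (‖(N : E →L[ℝ] E)‖ + 1) := ⟨_, rfl⟩
  have n0 : 0 < ‖(N : E →L[ℝ] E)‖ + 1 := by positivity
  have t0 : 0 < t := ht ▸ div_pos hε n0
  let S : E ≃L[ℝ] E := ContinuousLinearEquiv.equivOfInverse (t • ContinuousLinearMap.id ℝ E)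
    (t⁻¹ • ContinuousLinearMap.id ℝ E) (fun x => by simp [smul_smul, t0.ne'])
    (fun x => by simp [smul_smul, t0.ne'])
  have hS : sdet S = 1 := sdet_eq_one.2 (by
    show 0 < LinearMap.det (t • (LinearMap.id : E →ₗ[ℝ] E))
    rw [LinearMap.det_smul, LinearMap.det_id, mul_one]
    exact pow_pos t0 _)
  refine ⟨N.trans S, by rw [hdeg1_trans, hN, hS, mul_one], fun v => ?_⟩
  change ‖t • N v‖ ≤ _
  have h1 : ‖N v‖ ≤ (‖(N : E →L[ℝ] E)‖ + 1) * ‖v‖ :=
    ((N : E →L[ℝ] E).le_opNorm v).trans (mul_le_mul_of_nonneg_right (by linarith only []) (norm_nonneg _))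
  rw [norm_smul, Real.norm_of_nonneg t0.le]
  refine (mul_le_mul_of_nonneg_left h1 t0.le).trans_eq ?_
  rw [← mul_assoc, ht, div_mul_cancel₀ _ n0.ne']

/-- The bump function. -/
def hf1_k (p0 : E) (ρ : ℝ) (p : E) : ℝ := max 0 (min 1 (2 - 2 * ‖p - p0‖ / ρ))

/-- The normal part of the move. -/
def hf1_g (N : E ≃L[ℝ] E) (p0 : E) (ρ l : ℝ) (q : E × ℝ) : E × ℝ :=
  (-((hf1_k p0 ρ q.1 * min 1 (4 * q.2)) • N (q.1 - p0)), 2 * l * q.2 * hf1_k p0 ρ q.1)

section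

omit [FiniteDimensional ℝ E]

variable {N : E ≃L[ℝ] E} {p0 p : E} {ρ l r : ℝ}

omit [NormedSpace ℝ E] in
theorem hf1_k01 : 0 ≤ hf1_k p0 ρ p ∧ hf1_k p0 ρ p ≤ 1 :=
  ⟨le_max_left _ _, max_le zero_le_one (min_le_left _ _)⟩

omit [NormedSpace ℝ E] in
theorem hf1_kout (hρ : 0 < ρ) (hp : p ∉ closedBall p0 ρ) : hf1_k p0 ρ p = 0 := by
  rw [mem_closedBall, dist_eq_norm, not_le] at hp
  refine max_eq_left (min_le_of_right_le (sub_nonpos.2 ((le_div_iff₀ hρ).2 (by linarith))))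

omit [NormedSpace ℝ E] in
theorem hf1_kin (hρ : 0 < ρ) (hp : p ∈ ball p0 (ρ / 2)) : hf1_k p0 ρ p = 1 := by
  rw [mem_ball, dist_eq_norm] at hp
  have h : 2 * ‖p - p0‖ / ρ ≤ 1 := (div_le_one hρ).2 (by linarith)
  rw [hf1_k, min_eq_left (by linarith only [h]), max_eq_right zero_le_one]

theorem hf1_cont : Continuous (hf1_g N p0 ρ l) := by
  unfold hf1_g hf1_k
  fun_prop

theorem hf1_zero : hf1_g N p0 ρ l (p, 0) = 0 := by simp [hf1_g]

theorem hf1_out (hρ : 0 < ρ) (hp : p ∉ closedBall p0 ρ) : hf1_g N p0 ρ l (p, r) = 0 := by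
  simp [hf1_g, hf1_kout hρ hp]

theorem hf1_norm (hρ : 0 < ρ) (hl : 0 < l) (hN : ∀ v, ‖N v‖ ≤ l / ρ * ‖v‖)
    (hp : p ∈ closedBall p0 ρ) (hr : r ∈ Icc (0 : ℝ) 1) :
    ‖hf1_g N p0 ρ l (p, r) - (0, l)‖ ≤ l := by
  rw [mem_closedBall, dist_eq_norm] at hp
  obtain ⟨k0, k1⟩ := hf1_k01 (p0 := p0) (ρ := ρ) (p := p)
  have a0 : 0 ≤ min 1 (4 * r) := le_min zero_le_one (by linarith [hr.1])
  have a1 : min 1 (4 * r) ≤ 1 := min_le_left _ _
  refine norm_prod_le_iff.2 ⟨?_, ?_⟩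
  · change ‖-((hf1_k p0 ρ p * min 1 (4 * r)) • N (p - p0)) - 0‖ ≤ l
    rw [sub_zero, norm_neg, norm_smul, Real.norm_of_nonneg (mul_nonneg k0 a0)]
    refine (mul_le_of_le_one_left (norm_nonneg _) (mul_le_one₀ k1 a0 a1)).trans ((hN _).trans ?_)
    exact (mul_le_mul_of_nonneg_left hp (div_pos hl hρ).le).trans_eq (div_mul_cancel₀ _ hρ.ne')
  · change ‖2 * l * r * hf1_k p0 ρ p - l‖ ≤ l
    have b0 := mul_nonneg hr.1 k0
    have b1 := mul_le_one₀ hr.2 k0 k1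
    rw [Real.norm_eq_abs, abs_le]
    constructor <;> linarith only [hl, b0, b1, mul_nonneg_of_nonpos_of_nonpos (le_of_lt (Mathlib.Tactic.Linarith.sub_neg_of_lt hl)) (Mathlib.Tactic.Linarith.sub_nonpos_of_le b0), mul_nonneg_of_nonpos_of_nonpos (le_of_lt (Mathlib.Tactic.Linarith.sub_neg_of_lt hl)) (Mathlib.Tactic.Linarith.sub_nonpos_of_le b1)]

theorem hf1_eq (hρ : 0 < ρ) (hl : 0 < l) (h : hf1_g N p0 ρ l (p, r) = (0, l)) :
    p = p0 ∧ r = 1 / 2 := by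
  obtain ⟨k0, k1⟩ := hf1_k01 (p0 := p0) (ρ := ρ) (p := p)
  have h1 : -((hf1_k p0 ρ p * min 1 (4 * r)) • N (p - p0)) = 0 := congrArg Prod.fst h
  have h2 : 2 * l * r * hf1_k p0 ρ p = l := congrArg Prod.snd h
  have h3 : 2 * r * hf1_k p0 ρ p = 1 := mul_left_cancel₀ hl.ne' (by linarith)
  have k2 : hf1_k p0 ρ p ≠ 0 := fun e => by simp [e] at h3
  have r0 : 0 < r := by
    by_contra c
    linarith only [h3, k0, c, mul_nonneg k0 (neg_nonneg.2 (not_lt.1 c))]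
  have r1 : 1 ≤ 2 * r := by linarith only [h3, k1, r0, mul_nonneg_of_nonpos_of_nonpos (Mathlib.Tactic.Linarith.sub_nonpos_of_le k1) (le_of_lt (Mathlib.Tactic.Linarith.sub_neg_of_lt r0))]
  rw [min_eq_left (by linarith), mul_one, neg_eq_zero, smul_eq_zero_iff_right k2,
    N.map_eq_zero_iff, sub_eq_zero] at h1
  rw [hf1_kin hρ (h1 ▸ mem_ball_self (half_pos hρ))] at h3
  exact ⟨h1, by linarith only [h3]⟩

theorem hf1_near (hρ : 0 < ρ) :
    ∀ᶠ q in 𝓝 (p0, (1 / 2 : ℝ)), hf1_g N p0 ρ l q = (-N (q.1 - p0), 2 * l * q.2) := by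
  have h : ball p0 (ρ / 2) ×ˢ Ioi (1 / 4 : ℝ) ∈ 𝓝 (p0, (1 / 2 : ℝ)) :=
    prod_mem_nhds (ball_mem_nhds _ (half_pos hρ)) (Ioi_mem_nhds (by norm_num))
  filter_upwards [h] with q hq
  have h1 : 1 / 4 < q.2 := hq.2
  rw [hf1_g, hf1_kin hρ hq.1, min_eq_left (by linarith), mul_one, mul_one, one_smul]

end

theorem fs_cross {c : ℕ} (σ : Cell c F) {O : Set E} {K : Set F}
    (hdim : c + Module.finrank ℝ E + 1 = Module.finrank ℝ F) (ha : 1 ≤ Module.finrank ℝ E)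
    (hO : IsOpen O) (hOb : Bornology.IsBounded O) (hK : IsClosed K) (hKσ : Disjoint K σ.car)
    (hbd : σ.bd ⊆ K) {s : ℤ} (hs : s = 1 ∨ s = -1) :
    ∃ z : F, z ∉ K ∪ σ.car ∧ ∀ (W : E → F) (p0 : E) (ρ : ℝ), 0 < ρ → FG σ O K W →
      closedBall p0 ρ ⊆ O → (∀ p ∈ closedBall p0 ρ, W p = z) →
      ∃ W', FG σ O K W' ∧ FS σ O K W W' s := by
  have := FiniteDimensional.proper_real E
  obtain ⟨Λ, hΛ⟩ := σ.coords (G := E × ℝ) (by
    rw [← hdim, Module.finrank_prod, Module.finrank_self, add_assoc])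
  obtain ⟨y0, hy0⟩ := σ.ne
  have hφ : ∀ y g, σ.φ y - (σ.φ y0 + Λ.symm (0, g)) = Λ.symm (y - y0, -g) := by
    intro y g
    apply Λ.injective
    have e : σ.φ y - (σ.φ y0 + Λ.symm (0, g)) = σ.M y - σ.M y0 - Λ.symm (0, g) := by
      rw [Cell.φ, Cell.φ]
      abel
    rw [e, map_sub, map_sub, hΛ, hΛ, Λ.apply_symm_apply, Λ.apply_symm_apply]
    simp
  obtain ⟨l, hl, hlK⟩ : ∃ l > 0, ∀ g : E × ℝ, ‖g‖ ≤ l → σ.φ y0 + Λ.symm (0, g) ∉ K := by
    have hc : Continuous fun g : E × ℝ => σ.φ y0 + Λ.symm (0, g) := by fun_prop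
    have h0 : (0 : E × ℝ) ∈ (fun g : E × ℝ => σ.φ y0 + Λ.symm (0, g)) ⁻¹' Kᶜ := fun h =>
      disjoint_left.1 hKσ h ⟨y0, hy0, by
        change _ = σ.φ y0 + Λ.symm 0
        rw [map_zero, add_zero]⟩
    obtain ⟨ε, hε, h⟩ := Metric.nhds_basis_closedBall.mem_iff.1
      ((hK.isOpen_compl.preimage hc).mem_nhds h0)
    exact ⟨ε, hε, fun g hg => h (mem_closedBall_zero_iff.2 hg)⟩
  have hcar : ∀ y g, σ.φ y = σ.φ y0 + Λ.symm (0, g) → y = y0 ∧ g = 0 := by
    intro y g hy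
    have h1 := hφ y g
    rw [hy, sub_self] at h1
    have h2 := Prod.mk_eq_zero.1 (Λ.symm.map_eq_zero_iff.1 h1.symm)
    exact ⟨sub_eq_zero.1 h2.1, neg_eq_zero.1 h2.2⟩
  refine ⟨σ.φ y0 + Λ.symm (0, -(0, l)), ?_, fun W p0 ρ hρ hW hT hz => ?_⟩
  · rintro (h | ⟨y, -, h⟩)
    · exact hlK _ (by simp [abs_of_pos hl, hl.le]) h
    · exact hl.ne' (congrArg Prod.snd (neg_eq_zero.1 (hcar y _ h).2))
  let M0 : (((Fin c → ℝ) × E) × ℝ) ≃L[ℝ] F :=
    ((ContinuousLinearEquiv.refl ℝ _).prodCongr (hd2_sc (-(2 * l)) (by linarith only [hl]))).trans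
      ((ContinuousLinearEquiv.prodAssoc ℝ _ _ _).trans Λ.symm)
  obtain ⟨N, hN, hNb⟩ := hf1_small ha (hd2_pm hs (sg_cases M0)) (div_pos hl hρ)
  obtain ⟨H, hH⟩ : ∃ H : E × ℝ → F, ∀ q, H q = W q.1 + Λ.symm (0, hf1_g N p0 ρ l q) :=
    ⟨_, fun _ => rfl⟩
  have hc : Continuous H := by
    have h1 := hW.1
    have h2 := hf1_cont (N := N) (p0 := p0) (ρ := ρ) (l := l)
    rw [funext hH]
    fun_prop
  have h0 : ∀ p, H (p, 0) = W p := fun p => by
    rw [hH, hf1_zero]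
    exact (congrArg _ Λ.symm.map_zero).trans (add_zero _)
  have hout : ∀ p, p ∉ closedBall p0 ρ → ∀ r, H (p, r) = W p := fun p hp r => by
    rw [hH, hf1_out hρ hp]
    exact (congrArg _ Λ.symm.map_zero).trans (add_zero _)
  have hin : ∀ q : E × ℝ, q.1 ∈ closedBall p0 ρ →
      H q = σ.φ y0 + Λ.symm (0, hf1_g N p0 ρ l q - (0, l)) := fun q hq => by
    rw [hH, hz _ hq, add_assoc, ← map_add, Prod.mk_add_mk, add_zero, neg_add_eq_sub]
  have hK' : ∀ p ∈ O, ∀ r ∈ Icc (0 : ℝ) 1, H (p, r) ∉ K := fun p hp r hr => by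
    by_cases e : p ∈ closedBall p0 ρ
    · rw [hin _ e]
      exact hlK _ (hf1_norm hρ hl hNb e hr)
    · rw [hout p e]
      exact (hW.2.1 p hp).1
  have hσ : ∀ p ∈ O, ∀ r, ∀ y ∈ σ.U, σ.φ y = H (p, r) → y = y0 ∧ p = p0 ∧ r = 1 / 2 := by
    intro p hp r y hy h
    by_cases e : p ∈ closedBall p0 ρ
    · rw [hin _ e] at h
      exact ⟨(hcar _ _ h).1, hf1_eq hρ hl (sub_eq_zero.1 (hcar _ _ h).2)⟩
    · rw [hout p e] at h
      exact absurd ⟨y, hy, h⟩ (hW.2.1 p hp).2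
  have hW' : FG σ O K fun p => H (p, 1) := by
    refine ⟨by fun_prop, fun p hp => ⟨hK' p hp 1 (by simp), ?_⟩, fun p hp => ?_⟩
    · rintro ⟨y, hy, h⟩
      exact absurd (hσ p hp 1 y hy h).2.2 (by norm_num)
    · beta_reduce
      rw [hout p fun h => (hO.frontier_eq ▸ hp : p ∈ closure O \ O).2 (hT h)]
      exact hW.2.2 p hp
  refine ⟨_, hW', H, closedBall p0 ρ, hc, isCompact_closedBall _ _, hT, h0, fun _ => rfl, hout,
    hK', ?_⟩
  rw [deg_one (fs_adm hO hOb hbd hW hW' hc h0 (fun _ => rfl)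
    (fun p hp => hout p fun h => hp (hT h)) hK') ((((ContinuousLinearEquiv.refl ℝ _).prodCongr
      N).prodCongr (ContinuousLinearEquiv.refl ℝ ℝ)).trans M0) (z := ((y0, p0), 1 / 2))
    ⟨⟨hy0, hT (mem_closedBall_self hρ.le)⟩, by norm_num, by norm_num⟩, sg_pre, sdet_prod,
    sdet_prod, hd2_refl, hd2_refl, hN, one_mul, mul_one, mul_assoc, sg_mul_self, mul_one]
  · rintro ⟨⟨y, p⟩, r⟩ ⟨⟨hy, hp⟩, -⟩ e
    obtain ⟨rfl, rfl, rfl⟩ := hσ p hp r y hy (sub_eq_zero.1 e)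
    rfl
  · have t : Tendsto (fun q : ((Fin c → ℝ) × E) × ℝ => (q.1.2, q.2)) (𝓝 ((y0, p0), 1 / 2))
        (𝓝 (p0, 1 / 2)) := Continuous.tendsto' (by fun_prop) _ _ rfl
    have t' : ∀ᶠ q : E × ℝ in 𝓝 (p0, 1 / 2), q.1 ∈ closedBall p0 ρ :=
      continuous_fst.continuousAt.eventually_mem (closedBall_mem_nhds _ hρ)
    filter_upwards [t.eventually (hf1_near (N := N) (l := l) hρ), t.eventually t'] with q h1 h2
    rw [hin _ h2, hφ, h1]
    change _ = Λ.symm (q.1.1 - y0, N (q.1.2 - p0), -(2 * l) * (q.2 - 1 / 2))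
    refine congrArg _ (Prod.ext rfl (Prod.ext (by simp) ?_))
    change -(2 * l * q.2 - l) = -(2 * l) * (q.2 - 1 / 2)
    ring

end BEp
end
end

-- merged part: Pool.Agent.Work.MP_f0515e_an.Pos.HFinger
section
/-! EXPORT (HOM). Finger moves: H4 of the plan. -/

open Set Metric Filter Topology Function BEv
open scoped NNReal

noncomputable section
namespace BEp

variable {E F G : Type} [NormedAddCommGroup E] [NormedSpace ℝ E] [FiniteDimensional ℝ E]
  [NormedAddCommGroup F] [NormedSpace ℝ F] [FiniteDimensional ℝ F]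
  [NormedAddCommGroup G] [NormedSpace ℝ G] [FiniteDimensional ℝ G]

theorem finger {c d' : ℕ} (σ : Cell c F)
    (hdim : c + Module.finrank ℝ E + 1 = Module.finrank ℝ F) (ha : 1 ≤ Module.finrank ℝ E)
    {O : Set E} (hO : IsOpen O)
    (hOb : Bornology.IsBounded O) (hne : O.Nonempty) {K : Set F} (hK : IsClosed K) (hKs : Sm d' K)
    (hd' : d' + 1 < Module.finrank ℝ F) (hKσ : Disjoint K σ.car) (hbd : σ.bd ⊆ K) {W : E → F}
    (hW : Continuous W) (hWO : ∀ p ∈ O, W p ∉ K ∧ W p ∉ σ.car)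
    (hWf : ∀ p ∈ frontier O, W p ∉ σ.cl) (d : ℤ) :
    ∃ (H : E × ℝ → F) (T : Set E), Continuous H ∧ IsCompact T ∧ T ⊆ O ∧ (∀ p, H (p, 0) = W p) ∧
      (∀ p, p ∉ T → ∀ r, H (p, r) = W p) ∧ (∀ p ∈ O, ∀ r ∈ Icc (0 : ℝ) 1, H (p, r) ∉ K) ∧
      (∀ p ∈ O, H (p, 1) ∉ σ.car) ∧
      deg ((σ.U ×ˢ O) ×ˢ Ioo (0 : ℝ) 1)
        (fun q : ((Fin c → ℝ) × E) × ℝ => σ.φ q.1.1 - H (q.1.2, q.2)) = d := by
  have step : ∀ s : ℤ, (s = 1 ∨ s = -1) → ∀ W1 : E → F, FG σ O K W1 →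
      ∃ W2, FG σ O K W2 ∧ FS σ O K W1 W2 s := by
    intro s hs W1 h1
    obtain ⟨z, hz, hc⟩ := fs_cross σ hdim ha hO hOb hK hKσ hbd hs
    obtain ⟨p0, hp0⟩ := hne
    obtain ⟨W2, ρ, hρ, h2, f2, hb, he⟩ := fs_move hdim ha hO hOb hK hKs hd' hbd h1 hp0 hz
    obtain ⟨W3, h3, f3⟩ := hc W2 p0 ρ hρ h2 hb he
    exact ⟨W3, h3, by simpa using FS.trans hdim hO hOb hbd h1 h2 h3 f2 f3⟩
  have h0 : FG σ O K W := ⟨hW, hWO, hWf⟩
  have key : ∃ W', FG σ O K W' ∧ FS σ O K W W' d := by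
    induction d using Int.induction_on with
    | zero => exact ⟨W, h0, FS.refl' hdim hO hOb hbd h0⟩
    | succ i ih =>
      obtain ⟨W1, h1, f1⟩ := ih
      obtain ⟨W2, h2, f2⟩ := step 1 (Or.inl rfl) W1 h1
      exact ⟨W2, h2, FS.trans hdim hO hOb hbd h0 h1 h2 f1 f2⟩
    | pred i ih =>
      obtain ⟨W1, h1, f1⟩ := ih
      obtain ⟨W2, h2, f2⟩ := step (-1) (Or.inr rfl) W1 h1
      exact ⟨W2, h2, by
        simpa [sub_eq_add_neg] using FS.trans hdim hO hOb hbd h0 h1 h2 f1 f2⟩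
  obtain ⟨W', h', H, T, a1, a2, a3, a4, a5, a6, a7, a8⟩ := key
  exact ⟨H, T, a1, a2, a3, a4, a6, a7, fun p hp => by rw [a5]; exact (h'.2.1 p hp).2, a8⟩

end BEp
end
end

-- merged part: Pool.Agent.Work.MP_f0515e_an.Pos.GV3b
section
/-! TASK GV3b. A finger move of a top cell around a mid cell.
Plan. finger with cell mid e, E = (Fin m -> R) x R, O = U t x Ioo 0 1, W (x, s) = U (phi_t x, s), K = Z1 minus car e (closed: mid_rest; Sm (m - 1)).
W O misses Z1 (av). On the frontier of O: x in the frontier of U t gives a static point z of bd t, and z is not in cl e because (z, z) would be in D;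
s = 0 or 1 gives x or b x, not in Z1 for x in car t (av at s = 0, 1). Apply patch to G (x, (s, r)) = H ((x, s), r) - W (x, s) with Y0 = univ
(G vanishes off the compact set T inside O). Put M ((z, s), r) = U (z, s) + G' (z, (s, r)) and check the fields of Cfg for M (., 1). -/

open Set Metric Filter Topology Function BEv
open scoped NNReal

noncomputable section
namespace BEp

theorem Ctx.finger_mid {m : ℕ} (X : Ctx m) {b : V m → V m} {U : V m × ℝ → V m} (h : X.Cfg b U)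
    (e : Fin X.st.nM) {t : X.T} (ht : X.outer t) (hd : Disjoint (X.mid e).cl (X.top t).cl)
    (d : ℤ) :
    ∃ M : (V m × ℝ) × ℝ → V m, Continuous M ∧ X.Cfg b (fun q => M (q, 1)) ∧
      (∀ z ∈ X.Z, ∀ s, M ((z, s), 0) = U (z, s)) ∧
      (∀ z ∈ X.Z \ (X.top t).car, ∀ s r, M ((z, s), r) = U (z, s)) ∧
      (∀ z ∈ X.Z, ∀ r, M ((z, 0), r) = z ∧ M ((z, 1), r) = b z) ∧
      (∀ z ∈ (X.top t).car, ∀ s ∈ Icc (0 : ℝ) 1, ∀ r ∈ Icc (0 : ℝ) 1,
        M ((z, s), r) ∉ X.st.Z1 \ (X.mid e).car) ∧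
      deg (((X.mid e).U ×ˢ ((X.top t).U ×ˢ Ioo (0 : ℝ) 1)) ×ˢ Ioo (0 : ℝ) 1)
        (fun q : ((Fin (m - 1) → ℝ) × ((Fin m → ℝ) × ℝ)) × ℝ =>
          (X.mid e).φ q.1.1 - M (((X.top t).φ q.1.2.1, q.1.2.2), q.2)) = d := by
  have hm := X.hm
  have hO : IsOpen ((X.top t).U ×ˢ Ioo (0 : ℝ) 1) := (X.top t).op.prod isOpen_Ioo
  have hOb := (X.top t).bdd.prod (isBounded_Ioo (0 : ℝ) 1)
  have hbd : (X.mid e).bd ⊆ X.st.Z1 \ (X.mid e).car := fun z hz =>
    ⟨X.st.s21 (X.st.mid_bd e hz), fun k => disjoint_left.1 (X.mid e).disj_car_bd k hz⟩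
  have hcar : ∀ x ∈ (X.top t).U, (X.top t).φ x ∈ X.Z \ X.st.Z1 := fun x hx =>
    X.st.top_sub t ⟨x, hx, rfl⟩
  have hWc : Continuous fun p : (Fin m → ℝ) × ℝ => U ((X.top t).φ p.1, p.2) :=
    h.cont.comp (((X.top t).cont.comp continuous_fst).prodMk continuous_snd)
  have hWO : ∀ p ∈ (X.top t).U ×ˢ Ioo (0 : ℝ) 1, U ((X.top t).φ p.1, p.2) ∉ X.st.Z1 :=
    fun p hp => h.av _ (hcar _ hp.1) _ (Ioo_subset_Icc_self hp.2)
  have hWf : ∀ p ∈ closure ((X.top t).U ×ˢ Ioo (0 : ℝ) 1),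
      U ((X.top t).φ p.1, p.2) ∉ (X.mid e).cl := fun p hp k => by
    rw [closure_prod_eq, closure_Ioo zero_ne_one] at hp
    by_cases h1 : p.1 ∈ (X.top t).U
    · exact h.av _ (hcar _ h1) _ hp.2 (X.mid_cl_sub e k)
    · rw [h.stat _ (Or.inl (X.st.top_bd t ⟨_, (X.top t).op.frontier_eq ▸ ⟨hp.1, h1⟩, rfl⟩)) _ hp.2]
        at k
      exact disjoint_left.1 hd k ⟨_, hp.1, rfl⟩
  obtain ⟨H, T, c1, -, c3, c4, c5, c6, c7, c8⟩ := finger (X.mid e) (E := (Fin m → ℝ) × ℝ)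
    (by simp [Module.finrank_prod]; omega) (by simp [Module.finrank_prod]) hO hOb
    ((X.top t).ne.prod (nonempty_Ioo.2 zero_lt_one)) (X.st.mid_rest e)
    (X.st.pc1.sm.mono sdiff_subset) (by simp; omega) disjoint_sdiff_left hbd hWc
    (fun p hp => ⟨fun k => hWO p hp k.1, fun k => hWO p hp (X.st.mid_sub e k).1⟩)
    (fun p hp => hWf p (frontier_subset_closure hp)) d
  obtain ⟨G, g1, g2, g3⟩ := X.patch t (Y := ℝ × ℝ) isClosed_univ
    (G := fun q => H ((q.1, q.2.1), q.2.2) - U ((X.top t).φ q.1, q.2.1))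
    ((c1.comp (by fun_prop)).sub (hWc.comp (f := fun q : (Fin m → ℝ) × ℝ × ℝ => (q.1, q.2.1))
      (by fun_prop)))
    fun x hx y _ => sub_eq_zero.2 (c5 _ (fun k => ((X.top t).op.frontier_eq ▸ hx).2 (c3 k).1) _)
  let M : (V m × ℝ) × ℝ → V m := fun q => U q.1 + G (q.1.1, (q.1.2, q.2))
  have hM : Continuous M := (h.cont.comp continuous_fst).add (g1.comp (by fun_prop))
  have kA : ∀ x ∈ closure (X.top t).U, ∀ s r, M (((X.top t).φ x, s), r) = H ((x, s), r) :=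
    fun x hx s r => by simp only [M, g2 x hx _ trivial, add_sub_cancel]
  have kB : ∀ z ∈ X.Z \ (X.top t).car, ∀ s r, M ((z, s), r) = U (z, s) := fun z hz s r => by
    simp only [M, g3 z hz _ trivial, add_zero]
  have kC : ∀ z ∈ X.Z, ∀ s r, s ∉ Ioo (0 : ℝ) 1 ∨ r = 0 → M ((z, s), r) = U (z, s) := by
    intro z hz s r hs
    by_cases h1 : z ∈ (X.top t).car
    · obtain ⟨x, hx, rfl⟩ := h1
      rw [kA x (subset_closure hx)]
      rcases hs with hs | rfl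
      · exact c5 _ (fun k => hs (c3 k).2) _
      · exact c4 _
    · exact kB z ⟨hz, h1⟩ s r
  have k0 : ∀ z ∈ X.Z, ∀ r, M ((z, 0), r) = z ∧ M ((z, 1), r) = b z := fun z hz r =>
    ⟨(kC z hz 0 r (Or.inl fun k => k.1.false)).trans (h.u0 z hz),
      (kC z hz 1 r (Or.inl fun k => k.2.false)).trans (h.u1 z hz)⟩
  refine ⟨M, hM, ⟨h.toEmb, hM.comp (by fun_prop), fun z hz => (k0 z hz 1).1,
    fun z hz => (k0 z hz 1).2, fun z hz s hs => ?_, fun z hz s hs => ?_⟩,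
    fun z hz s => kC z hz s 0 (Or.inr rfl), kB, k0, ?_, ?_⟩
  · refine (kB z ?_ s 1).trans (h.stat z hz s hs)
    rcases hz with hz | hz
    · exact ⟨X.st.s1 hz, fun k => (X.st.top_sub t k).2 hz⟩
    · exact ⟨X.hIZ hz, fun k => disjoint_left.1 ht k hz⟩
  · by_cases h1 : z ∈ (X.top t).car
    swap
    · exact kB z ⟨hz.1, h1⟩ s 1 ▸ h.av z hz s hs
    by_cases h2 : s ∈ Ioo (0 : ℝ) 1
    swap
    · exact kC z hz.1 s 1 (Or.inl h2) ▸ h.av z hz s hs
    obtain ⟨x, hx, rfl⟩ := h1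
    rw [kA x (subset_closure hx)]
    exact fun k => c6 (x, s) ⟨hx, h2⟩ 1 (right_mem_Icc.2 zero_le_one) ⟨k, c7 (x, s) ⟨hx, h2⟩⟩
  · rintro _ ⟨x, hx, rfl⟩ s hs r hr
    by_cases h2 : s ∈ Ioo (0 : ℝ) 1
    · rw [kA x (subset_closure hx)]
      exact c6 (x, s) ⟨hx, h2⟩ r hr
    · rw [kC _ (hcar x hx).1 s r (Or.inl h2)]
      exact fun k => h.av _ (hcar x hx) s hs k.1
  have hO' := ((X.mid e).op.prod hO).prod (isOpen_Ioo (a := (0 : ℝ)) (b := 1))
  have hφ := (X.mid e).cont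
  have hφ' := (X.top t).cont
  refine (deg_congr (by simp [Module.finrank_prod]; omega) ⟨hO',
    ((X.mid e).bdd.prod hOb).prod (isBounded_Ioo _ _), by fun_prop, fun q hq k => ?_⟩
    (by fun_prop) fun q hq => ?_).symm.trans c8
  · rw [hO'.frontier_eq, closure_prod_eq, closure_prod_eq, closure_Ioo zero_ne_one] at hq
    obtain ⟨⟨⟨q1, q2⟩, q3⟩, q4⟩ := hq
    have k1 := sub_eq_zero.1 k
    by_cases h1 : q.1.2 ∈ (X.top t).U ×ˢ Ioo (0 : ℝ) 1
    swap
    · rw [c5 _ (fun k => h1 (c3 k))] at k1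
      exact hWf _ q2 ⟨_, q1, k1⟩
    by_cases h2 : q.1.1 ∈ (X.mid e).U
    swap
    · exact c6 _ h1 _ q3 (hbd ⟨_, (X.mid e).op.frontier_eq ▸ ⟨q1, h2⟩, k1⟩)
    rcases eq_endpoints_or_mem_Ioo_of_mem_Icc q3 with h3 | h3 | h3
    · rw [h3, c4] at k1
      exact hWO _ h1 (X.st.mid_sub e ⟨_, h2, k1⟩).1
    · rw [h3] at k1
      exact c7 _ h1 ⟨_, h2, k1⟩
    · exact q4 ⟨⟨h2, h1⟩, h3⟩
  · have h1 := frontier_subset_closure hq
    rw [closure_prod_eq, closure_prod_eq, closure_prod_eq] at h1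
    exact congrArg _ (kA _ h1.1.2.1 _ _).symm

end BEp
end
end

-- merged part: Pool.Agent.Work.MP_f0515e_an.Pos.GV4a
section
/-! TASK GV4a. A finger move of the final position of an outer top cell j around another outer top cell k.
Plan. finger with cell top k, E = Fin m -> R, O = U j, W = b o phi_j, K = (Z minus car k) u b '' (Z minus car j) (compact by top_rest, Sm m; it misses car k by fix, off
and outer k; W O misses Z by off, and misses b (Z minus car j) by inj; frontier points are fixed points of bd j, far_disj). patch (Y = R, Y0 = univ) gives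
M1 (z, r) = b z + G' (z, r). Choose eta > 0 smaller than the distance from phi_j T to Z minus car j (nonempty, contains bd j), St = {z in Z, infDist z (Z minus car j) <= eta}
(poly_le), X' = {z in Z, infDist >= eta} compact inside car j; u = M1 (., 1) equals b on St and maps X' off the closed set Z u b (Z minus car j): margin mu > 0.
tpify with eps < mu gives b'. M = cat M1 (segment from u to b'). Degree: deg_cat, the segment part has no zero (deg_zero), deg_congr. -/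

open Set Metric Filter Topology Function BEv
open scoped NNReal

noncomputable section
namespace BEp

theorem Ctx.finger_end {m : ℕ} (X : Ctx m) {b : V m → V m} (h : X.Emb b) {j k : X.T}
    (hf : X.far j k) (hj : X.outer j) (hk : X.outer k) (d : ℤ) :
    ∃ (b' : V m → V m) (M : V m × ℝ → V m), X.Emb b' ∧ Continuous M ∧
      (∀ z ∈ X.Z, M (z, 0) = b z ∧ M (z, 1) = b' z) ∧
      (∀ z ∈ X.Z \ (X.top j).car, ∀ r ∈ Icc (0 : ℝ) 1, M (z, r) = b z) ∧
      (∀ z ∈ (X.top j).car, ∀ r ∈ Icc (0 : ℝ) 1,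
        M (z, r) ∉ X.Z \ (X.top k).car ∧ M (z, r) ∉ b '' (X.Z \ (X.top j).car)) ∧
      X.bot M j k = d := by
  classical
  have hm := X.hm
  have hb : Continuous b := h.tp.continuous
  obtain ⟨Lb, hLb⟩ := h.tp.lip
  have hφj := (X.top j).cont
  have hφk := (X.top k).cont
  set R : Set (V m) := X.Z \ (X.top j).car with hR
  have hRp : Poly R := X.st.top_rest j
  have hRc : IsClosed R := hRp.1.isClosed
  have hcarZ : ∀ i : X.T, ∀ z ∈ (X.top i).car, z ∈ X.Z ∧ z ∉ X.st.Z1 := fun i z hz =>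
    ⟨(X.st.top_sub i hz).1, (X.st.top_sub i hz).2⟩
  have hoffj : ∀ z ∈ (X.top j).car, b z ∉ X.Z ∧ b z ∉ b '' R := by
    intro z hz
    refine ⟨h.off z ⟨(hcarZ j z hz).1, ?_⟩, ?_⟩
    · rintro (h1 | h1)
      · exact (hcarZ j z hz).2 h1
      · exact Set.disjoint_left.1 hj hz h1
    · rintro ⟨w, hw, e⟩
      have : w = z := h.inj hw.1 (hcarZ j z hz).1 e
      exact hw.2 (this ▸ hz)
  have hRne : R.Nonempty := by
    obtain ⟨z, hz⟩ := ((X.top j).infinite_bd hm).nonempty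
    exact ⟨z, X.st.s1 (X.st.top_bd j hz), fun h1 =>
      Set.disjoint_left.1 (X.top j).disj_car_bd h1 hz⟩
  have hbR : IsCompact (b '' R) := hRp.1.image hb
  set K : Set (V m) := (X.Z \ (X.top k).car) ∪ b '' R with hK
  have hKc : IsClosed K := (X.st.top_rest k).1.isClosed.union hbR.isClosed
  have hKs : Sm m K := by
    refine Sm.union (X.hpc.sm.mono sdiff_subset) (Sm.image (X.hpc.sm.mono sdiff_subset) ?_)
    exact hLb.locallyLipschitz.locallyLipschitzOn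
  have hrk : Module.finrank ℝ (V m) = 2 * m + 1 := by simp
  have hrk' : Module.finrank ℝ (Fin m → ℝ) = m := by simp
  have hKσ : Disjoint K (X.top k).car := by
    rw [Set.disjoint_left]
    rintro y (hy | ⟨z, hz, rfl⟩) hy'
    · exact hy.2 hy'
    · by_cases h1 : z ∈ X.st.Z1 ∪ X.In
      · rw [h.fix z h1] at hy'
        rcases h1 with h1 | h1
        · exact (hcarZ k z hy').2 h1
        · exact Set.disjoint_left.1 hk hy' h1
      · exact h.off z ⟨hz.1, h1⟩ (hcarZ k _ hy').1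
  have hbdK : (X.top k).bd ⊆ K := fun y hy =>
    Or.inl ⟨X.st.s1 (X.st.top_bd k hy), fun h1 =>
      Set.disjoint_left.1 (X.top k).disj_car_bd h1 hy⟩
  have hmemj : ∀ x ∈ (X.top j).U, (X.top j).φ x ∈ (X.top j).car := fun x hx => ⟨x, hx, rfl⟩
  have hclj : ∀ x ∈ closure (X.top j).U, (X.top j).φ x ∈ (X.top j).cl := fun x hx => ⟨x, hx, rfl⟩
  have hclk : ∀ x ∈ closure (X.top k).U, (X.top k).φ x ∈ (X.top k).cl := fun x hx => ⟨x, hx, rfl⟩
  obtain ⟨H, T, hH, hT, hTO, hH0, hHT, hHK, hH1, hdeg⟩ :=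
    finger (E := Fin m → ℝ) (X.top k) (by rw [hrk, hrk']; omega) (by rw [hrk']; omega)
      (X.top j).op (X.top j).bdd (X.top j).ne hKc hKs (by rw [hrk]; omega) hKσ hbdK
      (W := fun x => b ((X.top j).φ x)) (hb.comp hφj)
      (fun p hp => by
        have h1 := hoffj _ (hmemj p hp)
        refine ⟨?_, fun h2 => h1.1 (hcarZ k _ h2).1⟩
        rintro (h2 | h2)
        · exact h1.1 h2.1
        · exact h1.2 h2)
      (fun p hp h2 =>
        (X.emb_ne h hf (hclj p (frontier_subset_closure hp)) h2).2.2.1 rfl) d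
  obtain ⟨G, hG, hGφ, hGR⟩ := X.patch j (Y := ℝ) isClosed_univ
    (G := fun q : (Fin m → ℝ) × ℝ => H q - b ((X.top j).φ q.1))
    (hH.sub (hb.comp (hφj.comp continuous_fst)))
    (fun x hx r _ => by
      have : x ∉ T := fun h1 => by
        rw [(X.top j).op.frontier_eq] at hx
        exact hx.2 (hTO h1)
      simp only [hHT x this r, sub_self])
  set M1 : V m × ℝ → V m := fun q => b q.1 + G q with hM1
  have hM1c : Continuous M1 := (hb.comp continuous_fst).add hG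
  have hM1φ : ∀ x ∈ closure (X.top j).U, ∀ r, M1 ((X.top j).φ x, r) = H (x, r) := by
    intro x hx r
    simp only [hM1, hGφ x hx r (mem_univ _)]
    abel
  have hM1R : ∀ z ∈ R, ∀ r, M1 (z, r) = b z := by
    intro z hz r
    simp only [hM1, hGR z hz r (mem_univ _), add_zero]
  obtain ⟨a, ha0, ha⟩ := hT.exists_forall_le' (f := fun x => infDist ((X.top j).φ x) R) (a := 0)
    ((continuous_infDist_pt R).comp hφj).continuousOn
    (fun x hx => (hRc.notMem_iff_infDist_pos hRne).1 (fun h1 => h1.2 (hmemj x (hTO hx))))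
  set St : Set (V m) := {z ∈ X.Z | infDist z R - a / 2 ≤ 0} with hSt
  have hStp : Poly St := poly_le X.hZ (hRp.2.sub (TP.const (a / 2)))
  have hRSt : R ⊆ St := fun z hz => ⟨hz.1, by rw [infDist_zero_of_mem hz]; linarith only [ha0]⟩
  have hM1St : ∀ z ∈ St, ∀ r, M1 (z, r) = b z := by
    intro z hz r
    by_cases h1 : z ∈ (X.top j).car
    · obtain ⟨x, hx, rfl⟩ := h1
      rw [hM1φ x (subset_closure hx)]
      refine hHT x (fun h2 => ?_) r
      have h3 := ha x h2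
      have h4 := hz.2
      linarith only [ha0, h3, h4]
    · exact hM1R z ⟨hz.1, h1⟩ r
  set u : V m → V m := fun z => M1 (z, 1) with hu
  have huc : Continuous u := hM1c.comp (continuous_id.prodMk continuous_const)
  set X' : Set (V m) := X.Z ∩ {z | a / 2 ≤ infDist z R} with hX'
  have hX'c : IsCompact X' :=
    X.hZ.1.inter_right (isClosed_le continuous_const (continuous_infDist_pt R))
  set Bad : Set (V m) := X.Z ∪ b '' R with hBad
  have hBc : IsClosed Bad := X.hZ.1.isClosed.union hbR.isClosed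
  have hBne : Bad.Nonempty := hRne.mono (fun z hz => Or.inl hz.1)
  have huB : ∀ z ∈ X', u z ∉ Bad := by
    intro z hz
    have h1 : z ∈ (X.top j).car := by
      by_contra h1
      have h2 : a / 2 ≤ infDist z R := hz.2
      rw [infDist_zero_of_mem (show z ∈ R from ⟨hz.1, h1⟩)] at h2
      linarith only [ha0, h2]
    obtain ⟨x, hx, rfl⟩ := h1
    have e : u ((X.top j).φ x) = H (x, 1) := hM1φ x (subset_closure hx) 1
    rw [e]
    have h2 := hHK x hx 1 ⟨zero_le_one, le_rfl⟩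
    rintro (h3 | h3)
    · exact h2 (Or.inl ⟨h3, hH1 x hx⟩)
    · exact h2 (Or.inr h3)
  obtain ⟨μ, hμ0, hμ⟩ := hX'c.exists_forall_le' (f := fun z => infDist (u z) Bad) (a := 0)
    ((continuous_infDist_pt Bad).comp huc).continuousOn
    (fun z hz => (hBc.notMem_iff_infDist_pos hBne).1 (huB z hz))
  obtain ⟨b', hb't, hb'i, hb'e, hb'n⟩ := tpify X.hZ X.hpc (Nat.lt_succ_self _) hStp
    (fun z hz => hz.1) h.tp h.inj huc (fun z hz => hM1St z hz 1) (half_pos hμ0)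
  set M2 : V m × ℝ → V m := fun q => u q.1 + q.2 • (b' q.1 - u q.1) with hM2
  have hb'c : Continuous b' := hb't.continuous
  have hM2c : Continuous M2 :=
    (huc.comp continuous_fst).add (continuous_snd.smul
      ((hb'c.comp continuous_fst).sub (huc.comp continuous_fst)))
  have hM20 : ∀ z, M1 (z, 1) = M2 (z, 0) := fun z => by simp [hM2, hu]
  have hM21 : ∀ z, M2 (z, 1) = b' z := fun z => by simp [hM2]
  have hM2St : ∀ z ∈ St, ∀ r, M2 (z, r) = b z := by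
    intro z hz r
    have e1 : u z = b z := hM1St z hz 1
    have e2 : b' z = b z := hb'e hz
    simp only [hM2, e1, e2, sub_self, smul_zero, add_zero]
  have hM2B : ∀ z ∈ X.Z, z ∉ St → ∀ r ∈ Icc (0 : ℝ) 1, M2 (z, r) ∉ Bad := by
    intro z hz hzs r hr h1
    have hz' : z ∈ X' := ⟨hz, by
      by_contra h2
      exact hzs ⟨hz, by
        have h3 : ¬ a / 2 ≤ infDist z R := h2
        linarith only [h3, not_le.1 h3]⟩⟩
    have h2 := hμ z hz'
    have h3 : infDist (u z) Bad ≤ dist (u z) (M2 (z, r)) := infDist_le_dist_of_mem h1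
    have h4 : dist (u z) (M2 (z, r)) ≤ μ / 2 := by
      rw [dist_comm, dist_eq_norm]
      simp only [hM2, add_sub_cancel_left, norm_smul, Real.norm_eq_abs, abs_of_nonneg hr.1]
      calc r * ‖b' z - u z‖ ≤ 1 * (μ / 2) :=
            mul_le_mul hr.2 (hb'n z hz) (norm_nonneg _) zero_le_one
        _ = μ / 2 := one_mul _
    linarith only [hμ0, h2, h3, h4]
  have hM2j : ∀ z ∈ (X.top j).car, ∀ r ∈ Icc (0 : ℝ) 1, M2 (z, r) ∉ Bad := by
    intro z hz r hr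
    by_cases h1 : z ∈ St
    · rw [hM2St z h1]
      rintro (h2 | h2)
      · exact (hoffj z hz).1 h2
      · exact (hoffj z hz).2 h2
    · exact hM2B z (hcarZ j z hz).1 h1 r hr
  refine ⟨b', cat M1 M2, ⟨hb't, hb'i, fun x hx => ?_, fun x hx => ?_⟩, cat_cont hM1c hM2c,
    fun z hz => ⟨?_, ?_⟩, fun z hz r hr => ?_, fun z hz r hr => ?_, ?_⟩
  · have h1 : x ∈ R := by
      rcases hx with hx | hx
      · exact ⟨X.st.s1 hx, fun h2 => (hcarZ j x h2).2 hx⟩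
      · exact ⟨X.hIZ hx, fun h2 => Set.disjoint_left.1 hj h2 hx⟩
    rw [hb'e (hRSt h1), h.fix x hx]
  · by_cases h1 : x ∈ St
    · rw [hb'e h1]
      exact h.off x hx
    · have h2 := hM2B x hx.1 h1 1 ⟨zero_le_one, le_rfl⟩
      rw [hM21] at h2
      exact fun h3 => h2 (Or.inl h3)
  · rw [cat_left _ _ _ (by norm_num), mul_zero]
    by_cases h1 : z ∈ (X.top j).car
    · obtain ⟨x, hx, rfl⟩ := h1
      rw [hM1φ x (subset_closure hx), hH0]
    · exact hM1R z ⟨hz, h1⟩ 0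
  · rw [cat_right (hM20 z) (by norm_num), show (2 : ℝ) * 1 - 1 = 1 by norm_num, hM21]
  · rcases le_total r (1 / 2) with h1 | h1
    · rw [cat_left _ _ _ h1]
      exact hM1R z hz _
    · rw [cat_right (hM20 z) h1]
      exact hM2St z (hRSt hz) _
  · rcases le_total r (1 / 2) with h1 | h1
    · rw [cat_left _ _ _ h1]
      obtain ⟨x, hx, rfl⟩ := hz
      rw [hM1φ x (subset_closure hx)]
      have h2 := hHK x hx (2 * r) ⟨by linarith only [hr, hr.1], by linarith only [h1]⟩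
      exact ⟨fun h3 => h2 (Or.inl h3), fun h3 => h2 (Or.inr h3)⟩
    · rw [cat_right (hM20 z) h1]
      have h2 := hM2j z hz (2 * r - 1) ⟨by linarith only [h1], by linarith only [hr, hr.2]⟩
      exact ⟨fun h3 => h2 (Or.inl h3.1), fun h3 => h2 (Or.inr h3)⟩
  · have hop : IsOpen (X.dom j k) := ((X.top k).op.prod (X.top j).op).prod isOpen_Ioo
    have hbd : Bornology.IsBounded (X.dom j k) :=
      ((X.top k).bdd.prod (X.top j).bdd).prod (Metric.isBounded_Ioo 0 1)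
    set F1 : ((Fin m → ℝ) × (Fin m → ℝ)) × ℝ → V m :=
      fun q => (X.top k).φ q.1.1 - H (q.1.2, q.2) with hF1
    set F2 : ((Fin m → ℝ) × (Fin m → ℝ)) × ℝ → V m :=
      fun q => (X.top k).φ q.1.1 - M2 ((X.top j).φ q.1.2, q.2) with hF2
    have hA1 : Adm (X.dom j k) F1 := by
      refine ⟨hop, hbd, by simp only [hF1]; fun_prop, fun q hq h0 => ?_⟩
      obtain ⟨h1, h2, h3, h4⟩ := X.frontier_dom hq
      have e : (X.top k).φ q.1.1 = H (q.1.2, q.2) := sub_eq_zero.1 h0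
      have hne := (X.emb_ne h hf (hclj _ h2) (hclk _ h1)).2.2.1
      have hyZ : (X.top k).φ q.1.1 ∈ X.Z := X.cl_sub k (hclk _ h1)
      by_cases h5 : q.1.2 ∈ (X.top j).U
      · rcases h4 with h4 | h4 | h4 | h4
        · exact hHK _ h5 _ h3 (e ▸ Or.inl ⟨hyZ, fun h6 => (hcarZ k _ h6).2 h4⟩)
        · exact (hcarZ j _ (hmemj _ h5)).2 h4
        · rw [h4, hH0] at e
          exact hne e.symm
        · rw [h4] at e
          exact hHK _ h5 1 ⟨zero_le_one, le_rfl⟩ (Or.inl ⟨e ▸ hyZ, hH1 _ h5⟩)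
      · rw [hHT _ (fun h6 => h5 (hTO h6))] at e
        exact hne e.symm
    have hF2ne : ∀ q : ((Fin m → ℝ) × (Fin m → ℝ)) × ℝ, q.1.1 ∈ closure (X.top k).U →
        q.1.2 ∈ closure (X.top j).U → q.2 ∈ Icc (0 : ℝ) 1 → F2 q ≠ 0 := by
      intro q h1 h2 h3 h0
      have e : (X.top k).φ q.1.1 = M2 ((X.top j).φ q.1.2, q.2) := sub_eq_zero.1 h0
      by_cases h5 : (X.top j).φ q.1.2 ∈ St
      · rw [hM2St _ h5] at e
        exact (X.emb_ne h hf (hclj _ h2) (hclk _ h1)).2.2.1 e.symm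
      · exact hM2B _ (X.cl_sub j (hclj _ h2)) h5 _ h3 (e ▸ Or.inl (X.cl_sub k (hclk _ h1)))
    have hA2 : Adm (X.dom j k) F2 := by
      refine ⟨hop, hbd, by simp only [hF2]; fun_prop, fun q hq => ?_⟩
      obtain ⟨h1, h2, h3, -⟩ := X.frontier_dom hq
      exact hF2ne q h1 h2 h3
    have hz2 : deg (X.dom j k) F2 = 0 := deg_zero Ctx.rank_dom hA2 (fun q hq =>
      hF2ne q (subset_closure hq.1.1) (subset_closure hq.1.2) (Ioo_subset_Icc_self hq.2))
    obtain ⟨hA3, hd3⟩ := deg_cat Ctx.rank_dom (O := (X.top k).U ×ˢ (X.top j).U) hA1 hA2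
      (fun x hx => by
        rw [closure_prod_eq] at hx
        simp only [hF1, hF2, ← hM20, hM1φ _ hx.2])
    have hc3 : Continuous (X.botF (cat M1 M2) j k) := by
      have := cat_cont hM1c hM2c
      unfold Ctx.botF
      fun_prop
    have e3 : deg (X.dom j k) (cat F1 F2) = X.bot (cat M1 M2) j k :=
      deg_congr Ctx.rank_dom hA3 hc3 (fun q hq => by
        obtain ⟨-, h2, -, -⟩ := X.frontier_dom hq
        simp only [cat, Ctx.botF, hF1, hF2, hM1φ _ h2]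
        abel)
    rw [← e3]
    refine hd3.trans ?_
    have e4 : deg (X.dom j k) F1 = d := hdeg
    change deg (X.dom j k) F1 + deg (X.dom j k) F2 = d
    rw [e4, hz2, add_zero]

end BEp
end
end
end
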