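import Pool.Agent.Work.MP_f0515e_an.Pos.Defs

/-! Definitions for the construction of the degree. -/

open Set Metric Filter Topology Function BEv
open scoped NNReal ContDiff

noncomputable section
namespace BEp

/-- Smooth step: `0` below `-1`, `1` above `1`. -/
def stp (t : ℝ) : ℝ := Real.smoothTransition ((t + 1) / 2)

/-- Jacobian of the coordinatewise step of `u`. -/
def jacS {ι : Type} [Fintype ι] (u : (ι → ℝ) → ι → ℝ) (x : ι → ℝ) : ℝ :=
  (fderiv ℝ (fun y i => stp (u y i)) x).det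

/-- The degree integral. -/
def II {ι : Type} [Fintype ι] (O : Set (ι → ℝ)) (u : (ι → ℝ) → ι → ℝ) : ℝ :=
  ∫ x in O, jacS u x

variable {E F : Type} [NormedAddCommGroup E] [NormedSpace ℝ E] [NormedAddCommGroup F]
  [NormedSpace ℝ F]

/-- The zeros of `u` in `O` form the finite set `S`, and `u` is affine invertible near each. -/
def FinZ (O : Set E) (u : E → F) (S : Finset E) (M : E → E ≃L[ℝ] F) : Prop :=
  (↑S : Set E) ⊆ O ∧ (∀ x ∈ O, u x = 0 → x ∈ S) ∧
    ∀ z ∈ S, u =ᶠ[𝓝 z] fun x => M z (x - z)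

/-- Real valued degree with a fixed reference isomorphism. -/
structure IsDegR (dg : Set E → (E → F) → ℝ) (e0 : F ≃L[ℝ] E) : Prop where
  htp : ∀ (O : Set E) (H : E × ℝ → F), IsOpen O → Bornology.IsBounded O → Continuous H →
    (∀ x ∈ frontier O, ∀ s ∈ Icc (0 : ℝ) 1, H (x, s) ≠ 0) →
    dg O (fun x => H (x, 0)) = dg O (fun x => H (x, 1))
  add : ∀ (O O1 O2 : Set E) (G : E → F), Adm O G → IsOpen O1 → IsOpen O2 → O1 ⊆ O → O2 ⊆ O →
    Disjoint O1 O2 → (∀ x ∈ O, G x = 0 → x ∈ O1 ∪ O2) → dg O G = dg O1 G + dg O2 G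
  aff : ∀ (O : Set E) (M : E ≃L[ℝ] F) (x0 : E), IsOpen O →
    Bornology.IsBounded O → x0 ∈ O → dg O (fun x => M (x - x0)) =
      (SignType.sign (ContinuousLinearMap.det ((e0 : F →L[ℝ] E).comp (M : E →L[ℝ] F))) : ℝ)

end BEp
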