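import Pool.Agent.Work.MP_f0515e_an.Pos.HD0
import Pool.Agent.Lib.TorusDegree.Piola

/-! The Jacobian is a null Lagrangian (one row at a time).

PLAN. Work in the subalgebra `A` of smooth functions `(ι → ℝ) → ℝ` with the commuting derivations
`D j f y = fderiv ℝ f y (Pi.single j 1)` (copy `Per`, `D`, `D_mul`, `D_comm`, `ev` of
`Lib/TorusDegree/Degree.lean` without periodicity). Let `J = jac D f`, `f i = a · i`, and
`C j = (J.updateCol j (Pi.single i0 1)).det` (the cofactor of the entry `(i0, j)`; it does not depend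
on row `i0`: `Matrix.cramer`, `adjugate`, or `cramer_transpose_apply`).
* `∑ j, D j (C j) = 0`: apply `Pool.Agent.Lib.TorusDegree.piola` to `f` and to
  `f + Pi.single i0 1` (same `J`, because `D j 1 = 0`), subtract, use `det_updateCol_add`.
* `det J(a) - det J(b) = ∑ j, D j u * C j` with `u = a · i0 - b · i0` (Laplace expansion along row
  `i0`: `Matrix.det_eq_sum_mul_adjugate_row`, or linearity of `det` in `updateRow`).
  `(fderiv ℝ a x).det` is the determinant of the matrix `fun i k => fderiv ℝ (a · i) x (Pi.single k 1)`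
  (`LinearMap.det_toLin'`, `LinearMap.toMatrix'`, `fderiv_pi`).
* So the difference of the integrands is `∑ j, D j (u * C j)`. Near a frontier point either `u = 0` or
  some row `i ≠ i0` of `J` vanishes, so `u * C j = 0` near every frontier point. Hence
  `w j = indicator O (u * C j)` is smooth on the whole space (check `ContDiffAt` at points of `O`, of the
  frontier, of the exterior), has compact support, `fderiv (w j) = indicator O (fderiv (u * C j))`, and
  `∫ fderiv ℝ (w j) x (Pi.single j 1) = 0`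
  (`integral_mul_fderiv_eq_neg_fderiv_mul_of_integrable` with the constant `1`, or
  `integral_bilinear_hasLineDerivAt_right_eq_neg_left_of_integrable`).
Integrability: continuous functions are integrable on bounded measurable sets
(`ContinuousOn.integrableOn_compact` on `closure O`). About 200 lines. -/

open Set Metric Filter Topology Function BEv MeasureTheory
open scoped NNReal ContDiff

noncomputable section
namespace BEp

open Pool.Agent.Lib.TorusDegree in
theorem hd1_alg {A ι : Type} [CommRing A] [Fintype ι] [DecidableEq ι] (D : ι → A →+ A)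
    (hD : ∀ j a b, D j (a * b) = D j a * b + a * D j b)
    (hc : ∀ i j a, D i (D j a) = D j (D i a)) (f g : ι → A) (i0 : ι)
    (h : ∀ i, i ≠ i0 → f i = g i) : (jac D f).det - (jac D g).det =
      ∑ j, D j ((f i0 - g i0) * ((jac D f).updateRow i0 (Pi.single j 1)).det) := by
  have h1 : ∀ j, ((jac D f).updateRow i0 (Pi.single j 1)).det =
      ((jac D f).updateCol j (Pi.single i0 1)).det := fun j => by
    rw [← Matrix.adjugate_apply, ← Matrix.cramer_apply, Matrix.cramer_eq_adjugate_mulVec]
    simp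
  have h2 : ∑ j, D j ((jac D f).updateRow i0 (Pi.single j 1)).det = 0 := by
    have e : jac D (f + Pi.single i0 1) = jac D f := by
      ext i k
      by_cases hi : i = i0
      · subst hi
        simp [jac, der_one (D k) (hD k)]
      · simp [jac, hi]
    have p1 := piola D hD hc f
    have p2 := piola D hD hc (f + Pi.single i0 1)
    simp only [e, Matrix.det_updateCol_add, map_add, Finset.sum_add_distrib] at p2
    simp only [h1]
    linear_combination p2 - p1
  have h3 : ∀ v : ι → A, ((jac D f).updateRow i0 v).det =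
      ∑ j, v j * ((jac D f).updateRow i0 (Pi.single j 1)).det := fun v => by
    simp only [← Matrix.cramer_transpose_apply]
    conv_lhs => rw [pi_eq_sum_univ' v, map_sum]
    simp
  have h4 : jac D g = (jac D f).updateRow i0 fun k => D k (g i0) := by
    ext i k
    by_cases hi : i = i0
    · subst hi
      simp [jac]
    · simp [jac, hi, h i hi]
  have h5 : (jac D f).det = ((jac D f).updateRow i0 fun k => D k (f i0)).det := by
    congr 1
    exact (Matrix.updateRow_eq_self (jac D f) i0).symm
  simp only [hD, Finset.sum_add_distrib, ← Finset.mul_sum, h2, mul_zero, add_zero, map_sub, sub_mul,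
    Finset.sum_sub_distrib]
  rw [← h3, ← h3, ← h4, ← h5]

theorem hd1_intOn {ι : Type} [Fintype ι] {O : Set (ι → ℝ)} (hb : Bornology.IsBounded O)
    {w : (ι → ℝ) → ℝ} (hw : Continuous w) : IntegrableOn w O :=
  (hw.continuousOn.integrableOn_compact hb.isCompact_closure).mono_set subset_closure

theorem hd1_int {ι : Type} [Fintype ι] {O : Set (ι → ℝ)} (hO : IsOpen O)
    (hb : Bornology.IsBounded O) {w : (ι → ℝ) → ℝ} (hw : ContDiff ℝ ∞ w)
    (h : ∀ x ∈ frontier O, w =ᶠ[𝓝 x] 0) (v : ι → ℝ) : ∫ x in O, fderiv ℝ w x v = 0 := by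
  have h1 : ∀ x ∈ O, O.indicator w =ᶠ[𝓝 x] w := fun x hx => by
    filter_upwards [hO.mem_nhds hx] with y hy
    exact indicator_of_mem hy w
  have h2 : ∀ x, x ∉ O → O.indicator w =ᶠ[𝓝 x] fun _ => 0 := fun x hx => by
    by_cases hc : x ∈ closure O
    · filter_upwards [h x ⟨hc, by rwa [hO.interior_eq]⟩] with y hy
      by_cases hy' : y ∈ O
      · rw [indicator_of_mem hy', hy]
        rfl
      · exact indicator_of_notMem hy' w
    · filter_upwards [isClosed_closure.isOpen_compl.mem_nhds hc] with y hy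
      exact indicator_of_notMem (fun h => hy (subset_closure h)) w
  have hd : Differentiable ℝ w := hw.differentiable (by simp)
  have h3 : ∀ x, DifferentiableAt ℝ (O.indicator w) x := fun x => by
    by_cases hx : x ∈ O
    · exact (hd x).congr_of_eventuallyEq (h1 x hx)
    · exact (differentiableAt_const _).congr_of_eventuallyEq (h2 x hx)
  have h4 : (fun x => fderiv ℝ (O.indicator w) x v) = O.indicator fun x => fderiv ℝ w x v := by
    ext x
    by_cases hx : x ∈ O
    · rw [(h1 x hx).fderiv_eq, indicator_of_mem hx]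
    · rw [(h2 x hx).fderiv_eq, indicator_of_notMem hx]
      simp
  have h5 : Continuous fun x => fderiv ℝ w x v :=
    (hw.continuous_fderiv (by simp)).clm_apply continuous_const
  have key := integral_mul_fderiv_eq_neg_fderiv_mul_of_integrable (μ := volume)
    (f := fun _ : ι → ℝ => (1 : ℝ)) (g := O.indicator w) (v := v) (by simp)
    (by
      simp only [one_mul]
      rw [h4]
      exact (hd1_intOn hb h5).integrable_indicator hO.measurableSet)
    (by
      simp only [one_mul]
      exact (hd1_intOn hb hw.continuous).integrable_indicator hO.measurableSet)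
    (fun x _ => differentiableAt_const _) fun x _ => h3 x
  simp only [one_mul] at key
  rw [h4, integral_indicator hO.measurableSet] at key
  simpa using key

/-- Smooth functions. -/
def hd1_S (ι : Type) [Fintype ι] : Subalgebra ℝ ((ι → ℝ) → ℝ) where
  carrier := {f | ContDiff ℝ ∞ f}
  mul_mem' := fun {f g} (hf : ContDiff ℝ ∞ f) (hg : ContDiff ℝ ∞ g) =>
    (hf.mul hg : ContDiff ℝ ∞ fun x => f x * g x)
  add_mem' := fun {f g} (hf : ContDiff ℝ ∞ f) (hg : ContDiff ℝ ∞ g) =>
    (hf.add hg : ContDiff ℝ ∞ fun x => f x + g x)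
  algebraMap_mem' := fun r => (contDiff_const : ContDiff ℝ ∞ fun _ : ι → ℝ => r)

section
variable {ι : Type} [Fintype ι] [DecidableEq ι]

omit [DecidableEq ι] in
theorem hd1_sm (f : hd1_S ι) : ContDiff ℝ ∞ f.1 := f.2

omit [DecidableEq ι] in
theorem hd1_diff (f : hd1_S ι) : Differentiable ℝ f.1 := (hd1_sm f).differentiable (by simp)

/-- Coordinate derivative. -/
def hd1_D (j : ι) : hd1_S ι →+ hd1_S ι where
  toFun f := ⟨fun y => fderiv ℝ f.1 y (Pi.single j 1),
    ((hd1_sm f).fderiv_right (m := ∞) (by simp)).clm_apply contDiff_const⟩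
  map_zero' := by
    ext y
    simp
  map_add' f g := by
    ext y
    change fderiv ℝ (f.1 + g.1) y _ = fderiv ℝ f.1 y _ + fderiv ℝ g.1 y _
    rw [fderiv_add (hd1_diff f y) (hd1_diff g y)]
    rfl

theorem hd1_D_mul (j : ι) (f g : hd1_S ι) :
    hd1_D j (f * g) = hd1_D j f * g + f * hd1_D j g := by
  ext y
  change fderiv ℝ (f.1 * g.1) y _ = fderiv ℝ f.1 y _ * g.1 y + f.1 y * fderiv ℝ g.1 y _
  rw [fderiv_mul (hd1_diff f y) (hd1_diff g y)]
  simp
  ring

theorem hd1_D_D (i j : ι) (f : hd1_S ι) (y : ι → ℝ) :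
    (hd1_D i (hd1_D j f)).1 y = fderiv ℝ (fderiv ℝ f.1) y (Pi.single i 1) (Pi.single j 1) := by
  have h : Differentiable ℝ (fderiv ℝ f.1) :=
    ((hd1_sm f).fderiv_right (m := ∞) (by simp)).differentiable (by simp)
  change fderiv ℝ (fun y => fderiv ℝ f.1 y (Pi.single j 1)) y (Pi.single i 1) = _
  rw [fderiv_clm_apply (h y) (differentiableAt_const _)]
  simp

theorem hd1_D_comm (i j : ι) (f : hd1_S ι) : hd1_D i (hd1_D j f) = hd1_D j (hd1_D i f) := by
  ext y
  rw [hd1_D_D, hd1_D_D]
  exact ((hd1_sm f).contDiffAt.isSymmSndFDerivAt (by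
    rw [minSmoothness_of_isRCLikeNormedField]
    exact WithTop.coe_le_coe.2 (le_top : (2 : ℕ∞) ≤ ⊤))).eq _ _

/-- Evaluation at a point. -/
def hd1_ev (y : ι → ℝ) : hd1_S ι →+* ℝ where
  toFun f := f.1 y
  map_one' := rfl
  map_mul' _ _ := rfl
  map_zero' := rfl
  map_add' _ _ := rfl

/-- The coordinates of a smooth map. -/
def hd1_c {a : (ι → ℝ) → ι → ℝ} (ha : ContDiff ℝ ∞ a) (i : ι) : hd1_S ι :=
  ⟨fun y => a y i, contDiff_pi.1 ha i⟩

open Pool.Agent.Lib.TorusDegree in
theorem hd1_det {a : (ι → ℝ) → ι → ℝ} (ha : ContDiff ℝ ∞ a) (x : ι → ℝ) :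
    (fderiv ℝ a x).det = (jac hd1_D (hd1_c ha)).det.1 x := by
  change _ = hd1_ev x _
  rw [RingHom.map_det, ContinuousLinearMap.det, ← LinearMap.det_toMatrix']
  congr 1
  ext i k
  change fderiv ℝ a x (Pi.single k 1) i = fderiv ℝ (fun y => a y i) x (Pi.single k 1)
  rw [fderiv_apply (ha.differentiable (by simp) x) i]
  rfl

end

open Pool.Agent.Lib.TorusDegree in
theorem int_det_eq {ι : Type} [Fintype ι] {O : Set (ι → ℝ)} (hO : IsOpen O)
    (hb : Bornology.IsBounded O) {a b : (ι → ℝ) → ι → ℝ} (ha : ContDiff ℝ ∞ a)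
    (hb' : ContDiff ℝ ∞ b) (i0 : ι) (hab : ∀ x i, i ≠ i0 → a x i = b x i)
    (h : ∀ x ∈ frontier O, (∀ᶠ y in 𝓝 x, a y i0 = b y i0) ∨
      ∃ i, i ≠ i0 ∧ ∀ᶠ y in 𝓝 x, a y i = a x i) :
    ∫ x in O, (fderiv ℝ a x).det = ∫ x in O, (fderiv ℝ b x).det := by
  classical
  let w : ι → hd1_S ι := fun j => (hd1_c ha i0 - hd1_c hb' i0) *
    ((jac hd1_D (hd1_c ha)).updateRow i0 (Pi.single j 1)).det
  have key : (jac hd1_D (hd1_c ha)).det - (jac hd1_D (hd1_c hb')).det = ∑ j, hd1_D j (w j) :=
    hd1_alg hd1_D hd1_D_mul hd1_D_comm _ _ i0 fun i hi => Subtype.ext (funext fun x => hab x i hi)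
  have hw : ∀ j, ∀ x ∈ frontier O, (w j).1 =ᶠ[𝓝 x] 0 := fun j x hx => by
    rcases h x hx with h | ⟨i, hi, h⟩
    · filter_upwards [h] with y hy
      change (a y i0 - b y i0) * _ = 0
      rw [hy, sub_self, zero_mul]
    · filter_upwards [h.eventually_nhds] with y hy
      change _ * hd1_ev y _ = 0
      rw [RingHom.map_det, Matrix.det_eq_zero_of_row_eq_zero i, mul_zero]
      intro k
      rw [RingHom.mapMatrix_apply, Matrix.map_apply, Matrix.updateRow_ne hi]
      change fderiv ℝ (fun z => a z i) y (Pi.single k 1) = 0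
      rw [Filter.EventuallyEq.fderiv_eq (f := fun _ => a x i) hy]
      simp
  simp only [hd1_det ha, hd1_det hb']
  rw [← sub_eq_zero, ← integral_sub (hd1_intOn hb (hd1_sm _).continuous)
    (hd1_intOn hb (hd1_sm _).continuous)]
  have e : ∀ x, (jac hd1_D (hd1_c ha)).det.1 x - (jac hd1_D (hd1_c hb')).det.1 x =
      ∑ j, (hd1_D j (w j)).1 x := fun x => by
    have := congrArg (hd1_ev x) key
    rwa [map_sub, map_sum] at this
  simp only [e]
  rw [integral_finsetSum _ fun j _ => hd1_intOn hb (hd1_sm _).continuous]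
  exact Finset.sum_eq_zero fun j _ => hd1_int hO hb (hd1_sm _) (hw j) _

end BEp
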