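import Pool.Agent.Work.MP_f0515e_an.Pos.HD1

/-! The degree integral of smooth maps.

PLAN. `stp` is smooth (`Real.smoothTransition.contDiff`), `= 0` on `t ≤ -1`, `= 1` on `1 ≤ t`.
* `jacS_zero`: some `1 < |u x i|` (`pi_norm_le_iff_of_nonneg`), so coordinate `i` of `stp ∘ u` is
  locally constant, the derivative is not surjective (its `i`-th coordinate is `0`), so `det = 0`.
* `II_congr`: induction on a finset `T` of coordinates, hybrids `w T x i = if i ∈ T then v x i else u x i`;
  each step is `int_det_eq` for `stp ∘ w T` and `stp ∘ w (insert i0 T)`.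
* `II_lin`: by the chain rule `jacS = (∏ i, deriv stp (M (x - x0) i)) * det M` (the derivative of
  `y ↦ fun i => stp (y i)` is diagonal). The integrand vanishes off `O` (`jacS_zero`), so the integral
  is over the whole space (`setIntegral_eq_integral_of_forall_compl_eq_zero`); translate
  (`integral_sub_right_eq_self`), change variables (`Measure.map_linearMap_addHaar_eq_smul_addHaar`
  with `integral_map`, or `MeasureTheory.integral_image_eq_integral_abs_det_fderiv_smul`) to get
  `det M / |det M| * ∫ ∏ i, deriv stp (y i)`, and `integral_fintype_prod_volume_eq_prod` with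
  `∫ deriv stp = 1` (support in `[-1,1]`, `intervalIntegral.integral_deriv_eq_sub`). About 200 lines. -/

open Set Metric Filter Topology Function BEv MeasureTheory
open scoped NNReal ContDiff

noncomputable section
namespace BEp

variable {ι : Type} [Fintype ι]

theorem hd2_stp_smooth : ContDiff ℝ ∞ stp := by
  unfold stp
  exact Real.smoothTransition.contDiff.comp (by fun_prop)

theorem hd2_stp_one {t : ℝ} (h : 1 ≤ t) : stp t = 1 :=
  Real.smoothTransition.one_of_one_le (by linarith)

theorem hd2_stp_zero {t : ℝ} (h : t ≤ -1) : stp t = 0 :=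
  Real.smoothTransition.zero_of_nonpos (by linarith)

theorem hd2_deriv_zero {t : ℝ} (h : 1 < |t|) : deriv stp t = 0 := by
  rcases lt_abs.1 h with h1 | h1
  · have : stp =ᶠ[𝓝 t] fun _ => (1 : ℝ) := by
      filter_upwards [Ioi_mem_nhds h1] with y hy using hd2_stp_one (le_of_lt hy)
    rw [this.deriv_eq, deriv_const]
  · have h2 : t < -1 := by linarith
    have : stp =ᶠ[𝓝 t] fun _ => (0 : ℝ) := by
      filter_upwards [Iio_mem_nhds h2] with y hy using hd2_stp_zero (le_of_lt hy)
    rw [this.deriv_eq, deriv_const]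

theorem hd2_hasDeriv (t : ℝ) : HasDerivAt stp (deriv stp t) t :=
  ((hd2_stp_smooth.differentiable (by simp)) t).hasDerivAt

theorem hd2_int_deriv : ∫ t, deriv stp t = 1 := by
  have hc : Continuous (deriv stp) := hd2_stp_smooth.continuous_deriv (by simp)
  have hs : HasCompactSupport (deriv stp) := by
    refine HasCompactSupport.intro (isCompact_Icc (a := (-1 : ℝ)) (b := 1)) fun t ht => ?_
    apply hd2_deriv_zero
    by_contra hcon
    exact ht (abs_le.1 (not_lt.1 hcon))
  have hb : Tendsto stp atBot (𝓝 0) := by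
    refine tendsto_const_nhds.congr' ?_
    filter_upwards [eventually_le_atBot (-1 : ℝ)] with t ht using (hd2_stp_zero ht).symm
  have ht : Tendsto stp atTop (𝓝 1) := by
    refine tendsto_const_nhds.congr' ?_
    filter_upwards [eventually_ge_atTop (1 : ℝ)] with t ht using (hd2_stp_one ht).symm
  rw [integral_of_hasDerivAt_of_tendsto hd2_hasDeriv (hc.integrable_of_hasCompactSupport hs) hb ht]
  simp

theorem hd2_S_smooth {u : (ι → ℝ) → ι → ℝ} (hu : ContDiff ℝ ∞ u) :
    ContDiff ℝ ∞ (fun y i => stp (u y i)) :=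
  contDiff_pi.2 fun i => hd2_stp_smooth.comp (contDiff_pi.1 hu i)

theorem hd2_jac {u : (ι → ℝ) → ι → ℝ} {x : ι → ℝ} {L : (ι → ℝ) →L[ℝ] (ι → ℝ)}
    (hu : HasFDerivAt u L x) : jacS u x = (∏ i, deriv stp (u x i)) * L.det := by
  set D : (ι → ℝ) →L[ℝ] (ι → ℝ) := ContinuousLinearMap.pi fun i =>
    (ContinuousLinearMap.smulRight (1 : ℝ →L[ℝ] ℝ) (deriv stp (u x i))).comp
      (ContinuousLinearMap.proj i) with hD
  have h1 : HasFDerivAt (fun (z : ι → ℝ) i => stp (z i)) D (u x) := by
    refine hasFDerivAt_pi.2 fun i => ?_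
    have e1 : HasFDerivAt stp
        (ContinuousLinearMap.smulRight (1 : ℝ →L[ℝ] ℝ) (deriv stp (u x i))) (u x i) :=
      (hd2_hasDeriv (u x i)).hasFDerivAt
    exact HasFDerivAt.comp (g := stp) (f := fun z : ι → ℝ => z i) (u x) e1
      ((ContinuousLinearMap.proj (R := ℝ) (φ := fun _ : ι => ℝ) i).hasFDerivAt)
  have h2 : HasFDerivAt (fun y i => stp (u y i)) (D.comp L) x := h1.comp x hu
  have h3 : D.det = ∏ i, deriv stp (u x i) := by
    rw [hD, ContinuousLinearMap.det_pi]
    refine Finset.prod_congr rfl fun i _ => ?_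
    rw [ContinuousLinearMap.det_smulRight]
    simp
  unfold jacS
  rw [h2.fderiv, ← h3]
  exact LinearMap.det_comp (D : (ι → ℝ) →ₗ[ℝ] (ι → ℝ)) (L : (ι → ℝ) →ₗ[ℝ] (ι → ℝ))

theorem hd2_prod_zero {z : ι → ℝ} (h : 1 < ‖z‖) : ∏ i, deriv stp (z i) = 0 := by
  have : ∃ i, 1 < |z i| := by
    by_contra hcon
    push Not at hcon
    have := (pi_norm_le_iff_of_nonneg (x := z) zero_le_one).2 fun i => by
      simpa [Real.norm_eq_abs] using hcon i
    linarith
  obtain ⟨i, hi⟩ := this
  exact Finset.prod_eq_zero (Finset.mem_univ i) (hd2_deriv_zero hi)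

theorem jacS_cont {u : (ι → ℝ) → ι → ℝ} (hu : ContDiff ℝ ∞ u) : Continuous (jacS u) :=
  ContinuousLinearMap.continuous_det.comp ((hd2_S_smooth hu).continuous_fderiv (by simp))

theorem jacS_zero {u : (ι → ℝ) → ι → ℝ} (hu : ContDiff ℝ ∞ u) {x : ι → ℝ} (h : 1 < ‖u x‖) :
    jacS u x = 0 := by
  rw [hd2_jac ((hu.differentiable (by simp)) x).hasFDerivAt, hd2_prod_zero h, zero_mul]

omit [Fintype ι] in
theorem hd2_loc {u v : (ι → ℝ) → ι → ℝ} (hu : Continuous u) (hv : Continuous v) {x : ι → ℝ}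
    {i : ι} (h : (1 < u x i ∧ 1 < v x i) ∨ (u x i < -1 ∧ v x i < -1)) :
    ∃ c : ℝ, ∀ᶠ y in 𝓝 x, stp (u y i) = c ∧ stp (v y i) = c := by
  have hu' : ContinuousAt (fun y => u y i) x := ((continuous_apply i).comp hu).continuousAt
  have hv' : ContinuousAt (fun y => v y i) x := ((continuous_apply i).comp hv).continuousAt
  rcases h with ⟨h1, h2⟩ | ⟨h1, h2⟩
  · refine ⟨1, ?_⟩
    filter_upwards [hu'.eventually (Ioi_mem_nhds h1), hv'.eventually (Ioi_mem_nhds h2)]
      with y hy1 hy2
    exact ⟨hd2_stp_one (le_of_lt hy1), hd2_stp_one (le_of_lt hy2)⟩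
  · refine ⟨0, ?_⟩
    filter_upwards [hu'.eventually (Iio_mem_nhds h1), hv'.eventually (Iio_mem_nhds h2)]
      with y hy1 hy2
    exact ⟨hd2_stp_zero (le_of_lt hy1), hd2_stp_zero (le_of_lt hy2)⟩

theorem II_congr {O : Set (ι → ℝ)} (hO : IsOpen O) (hb : Bornology.IsBounded O)
    {u v : (ι → ℝ) → ι → ℝ} (hu : ContDiff ℝ ∞ u) (hv : ContDiff ℝ ∞ v)
    (h : ∀ x ∈ frontier O, ∃ i, (1 < u x i ∧ 1 < v x i) ∨ (u x i < -1 ∧ v x i < -1)) :
    II O u = II O v := by
  classical
  set w : Finset ι → (ι → ℝ) → ι → ℝ := fun T x i => if i ∈ T then v x i else u x i with hw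
  have hws : ∀ T, ContDiff ℝ ∞ (w T) := by
    intro T
    refine contDiff_pi.2 fun i => ?_
    by_cases hi : i ∈ T
    · simpa [hw, hi] using contDiff_pi.1 hv i
    · simpa [hw, hi] using contDiff_pi.1 hu i
  have key : ∀ T : Finset ι, II O u = II O (w T) := by
    intro T
    induction T using Finset.induction_on with
    | empty => simp [hw]
    | insert i0 T hi0 ih =>
      rw [ih]
      unfold II jacS
      refine int_det_eq hO hb (hd2_S_smooth (hws T)) (hd2_S_smooth (hws _)) i0 ?_ ?_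
      · intro x i hi
        simp [hw, hi]
      · intro x hx
        obtain ⟨i, hi⟩ := h x hx
        obtain ⟨c, hc⟩ := hd2_loc hu.continuous hv.continuous hi
        have hc' : ∀ T' : Finset ι, ∀ᶠ y in 𝓝 x, stp (w T' y i) = c := by
          intro T'
          filter_upwards [hc] with y hy
          by_cases hT : i ∈ T'
          · simpa [hw, hT] using hy.2
          · simpa [hw, hT] using hy.1
        by_cases hii : i = i0
        · left
          subst hii
          filter_upwards [hc' T, hc' (insert i T)] with y h1 h2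
          rw [h1, h2]
        · right
          refine ⟨i, hii, ?_⟩
          have h0 := (hc' T).self_of_nhds
          filter_upwards [hc' T] with y h1
          rw [h1, h0]
  rw [key Finset.univ]
  congr 1
  funext x i
  simp [hw]

theorem II_lin {O : Set (ι → ℝ)} (hO : MeasurableSet O) (M : (ι → ℝ) ≃L[ℝ] (ι → ℝ))
    (x0 : ι → ℝ) (h : ∀ x, x ∉ O → 1 < ‖M (x - x0)‖) :
    II O (fun x => M (x - x0)) =
      (SignType.sign (ContinuousLinearMap.det (M : (ι → ℝ) →L[ℝ] (ι → ℝ))) : ℝ) := by
  set d : ℝ := ContinuousLinearMap.det (M : (ι → ℝ) →L[ℝ] (ι → ℝ)) with hd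
  set g : (ι → ℝ) → ℝ := fun z => ∏ i, deriv stp (z i) with hg
  have hj : ∀ x, jacS (fun x => M (x - x0)) x = g (M (x - x0)) * d := by
    intro x
    have h1 : HasFDerivAt (fun x => M (x - x0)) (M : (ι → ℝ) →L[ℝ] (ι → ℝ)) x := by
      have := (M : (ι → ℝ) →L[ℝ] (ι → ℝ)).hasFDerivAt.comp x
        ((hasFDerivAt_id x).sub_const x0)
      simpa using this
    exact hd2_jac h1
  have hd0 : d ≠ 0 := (LinearEquiv.isUnit_det' M.toLinearEquiv).ne_zero
  have hg1 : ∫ z, g z = 1 := by
    rw [hg, integral_fintype_prod_volume_eq_prod (fun _ : ι => deriv stp)]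
    simp [hd2_int_deriv]
  have hmap : Measure.map M (volume : Measure (ι → ℝ)) = ENNReal.ofReal |d⁻¹| • volume :=
    Measure.map_linearMap_addHaar_eq_smul_addHaar (μ := (volume : Measure (ι → ℝ)))
      (f := ((M : (ι → ℝ) →L[ℝ] (ι → ℝ)) : (ι → ℝ) →ₗ[ℝ] (ι → ℝ))) hd0
  have hch : ∫ x, g (M x) = |d⁻¹| := by
    have := integral_map_equiv (μ := (volume : Measure (ι → ℝ)))
      M.toHomeomorph.toMeasurableEquiv g
    have e : (M.toHomeomorph.toMeasurableEquiv : (ι → ℝ) → ι → ℝ) = M := rfl
    rw [e] at this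
    rw [← this, hmap, integral_smul_measure, hg1, ENNReal.toReal_ofReal (abs_nonneg _)]
    simp
  unfold II
  rw [setIntegral_eq_integral_of_forall_compl_eq_zero]
  · simp_rw [hj]
    rw [integral_mul_const, integral_sub_right_eq_self (fun x => g (M x)) x0, hch]
    rcases lt_or_gt_of_ne hd0 with hn | hp
    · rw [sign_neg hn, abs_of_neg (inv_lt_zero.2 hn)]
      simp [hd0]
    · rw [sign_pos hp, abs_of_pos (inv_pos.2 hp)]
      simp [hd0]
  · intro x hx
    rw [hj, hg]
    simp only
    rw [hd2_prod_zero (h x hx), zero_mul]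

end BEp
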