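import Pool.Agent.Work.MP_f0515e_an.Pos.HD2

/-! Existence of a real valued degree.

PLAN. `Good O u v := ContDiff ℝ ∞ v ∧ ∃ l > 0, ∀ x ∈ frontier O, ‖v x - l • u x‖ ≤ 1 ∧ 3 ≤ ‖l • u x‖`,
`dg O u := II O (Classical.epsilon (Good O u))`.
* Two good approximants `v, v'` (constants `l ≤ l'`) have the same `II`: at a frontier point take `i`
  with `3 ≤ |l * u x i|`; then `v x i` and `v' x i` have absolute value `≥ 2` and the sign of `u x i`;
  `II_congr`. So `dg O u = II O v` for every good `v`.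
* If `C` is compact and `u ≠ 0` on `C` there are `l > 0` with `3 ≤ ‖l • u x‖` on `C` and a smooth `v`
  with `‖v x - l • u x‖ < 1/2` everywhere (`Continuous.exists_contDiff_approx`).
* `htp`: `μ = min ‖H‖` on `frontier O ×ˢ [0,1]` (compact; may be empty), `l = 3/μ`; by uniform
  continuity on this compact set, an approximant within `1/2` of `l • H (·, s)` is good for
  `H (·, s')` when `|s - s'| < δ`; so `s ↦ dg O (H (·, s))` is constant on `[0,1]` (induction on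
  `k/N`, or `IsPreconnected.constant` for a locally constant function).
* `add`: take `C = closure O \ (O1 ∪ O2)`; it is compact, contains the three frontiers, `u ≠ 0` on it;
  one `v` is good for `O, O1, O2`; `jacS v = 0` on `O \ (O1 ∪ O2)` (`jacS_zero`); `setIntegral_union`.
* `aff`: `v = l • M (x - x0)` with `l` so large that `3 ≤ ‖v x‖` for all `x ∉ O`
  (`ball x0 r ⊆ O`, `M.antilipschitz`); `II_lin` for the isomorphism `l • M`; `det_smul`.
* `exists_degR`: choose `a : E ≃L (Fin n → ℝ)`, `b : F ≃L (Fin n → ℝ)`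
  (`ContinuousLinearEquiv.ofFinrankEq`), put `dg O u = dg0 (a '' O) (b ∘ u ∘ a.symm)`,
  `e0 = b.trans a.symm`; `a.toHomeomorph.image_frontier`, `LinearMap.det_conj`. About 250 lines. -/

open Set Metric Filter Topology Function BEv MeasureTheory
open scoped NNReal ContDiff

noncomputable section
namespace BEp

section

variable {ι : Type} [Fintype ι] {O : Set (ι → ℝ)} {u v v' : (ι → ℝ) → ι → ℝ}

/-- Good smooth approximants. -/
def HD3_good (O : Set (ι → ℝ)) (u v : (ι → ℝ) → ι → ℝ) : Prop :=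
  ContDiff ℝ ∞ v ∧ ∃ l : ℝ, 0 < l ∧ ∀ x ∈ frontier O, ‖v x - l • u x‖ ≤ 1 ∧ 3 ≤ ‖l • u x‖

/-- The degree. -/
def HD3_dg (O : Set (ι → ℝ)) (u : (ι → ℝ) → ι → ℝ) : ℝ :=
  II O (Classical.epsilon (HD3_good O u))

theorem HD3_sign {a w : ι → ℝ} {l : ℝ} (hl : 0 < l) (h1 : ‖w - l • a‖ ≤ 1) (h2 : 3 ≤ ‖l • a‖)
    {i : ι} (hi : ‖a‖ ≤ |a i|) : (0 ≤ a i → 1 < w i) ∧ (a i ≤ 0 → w i < -1) := by
  rw [norm_smul, Real.norm_of_nonneg hl.le] at h2
  have h3 : 3 ≤ l * |a i| := h2.trans (by gcongr)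
  have h4 : |w i - l * a i| ≤ 1 := (norm_le_pi_norm (w - l • a) i).trans h1
  rw [abs_le] at h4
  refine ⟨fun k => ?_, fun k => ?_⟩
  · rw [abs_of_nonneg k] at h3; linarith [h4.1]
  · rw [abs_of_nonpos k] at h3; linarith [h4.2]

theorem HD3_eq (hO : IsOpen O) (hb : Bornology.IsBounded O) (h : HD3_good O u v)
    (h' : HD3_good O u v') : II O v = II O v' := by
  obtain ⟨c, l, hl, k⟩ := h
  obtain ⟨c', l', hl', k'⟩ := h'
  refine II_congr hO hb c c' fun x hx => ?_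
  rcases isEmpty_or_nonempty ι with e | e
  · have := (k x hx).2
    rw [Subsingleton.elim (l • u x) 0, norm_zero] at this
    linarith
  obtain ⟨i, hi⟩ := Finite.exists_max fun i => |u x i|
  have hn : ‖u x‖ ≤ |u x i| := (pi_norm_le_iff_of_nonneg (abs_nonneg _)).2 hi
  have s := HD3_sign hl (k x hx).1 (k x hx).2 hn
  have s' := HD3_sign hl' (k' x hx).1 (k' x hx).2 hn
  exact ⟨i, (le_total 0 (u x i)).imp (fun m => ⟨s.1 m, s'.1 m⟩) fun m => ⟨s.2 m, s'.2 m⟩⟩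

theorem HD3_dg_eq (hO : IsOpen O) (hb : Bornology.IsBounded O) (h : HD3_good O u v) :
    HD3_dg O u = II O v :=
  HD3_eq hO hb (Classical.epsilon_spec ⟨v, h⟩) h

theorem HD3_scale {X : Type} [TopologicalSpace X] {C : Set X} (hC : IsCompact C) {f : X → ι → ℝ}
    (hf : Continuous f) (h : ∀ x ∈ C, f x ≠ 0) : ∃ l : ℝ, 0 < l ∧ ∀ x ∈ C, 3 ≤ ‖l • f x‖ := by
  obtain ⟨μ, h0, h1⟩ := hC.exists_forall_le' (f := fun x => ‖f x‖) hf.norm.continuousOn (a := 0)
    fun x hx => norm_pos_iff.2 (h x hx)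
  refine ⟨3 / μ, by positivity, fun x hx => ?_⟩
  rw [norm_smul, Real.norm_of_nonneg (by positivity), div_mul_eq_mul_div, le_div_iff₀ h0]
  linarith [h1 x hx]

theorem HD3_approx (hu : Continuous u) :
    ∃ v : (ι → ℝ) → ι → ℝ, ContDiff ℝ ∞ v ∧ ∀ x, ‖v x - u x‖ < 1 / 2 := by
  obtain ⟨v, h1, h2, -⟩ := hu.exists_contDiff_approx ⊤ (ε := fun _ => 1 / 2) continuous_const
    fun _ => by norm_num
  exact ⟨v, h1, fun x => by rw [← dist_eq_norm]; exact h2 x⟩

theorem HD3_cpt (hb : Bornology.IsBounded O) : IsCompact (frontier O) :=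
  hb.isCompact_closure.of_isClosed_subset isClosed_frontier frontier_subset_closure

theorem HD3_htp (H : (ι → ℝ) × ℝ → ι → ℝ) (hO : IsOpen O) (hb : Bornology.IsBounded O)
    (hH : Continuous H) (h : ∀ x ∈ frontier O, ∀ s ∈ Icc (0 : ℝ) 1, H (x, s) ≠ 0) :
    HD3_dg O (fun x => H (x, 0)) = HD3_dg O (fun x => H (x, 1)) := by
  obtain ⟨l, hl, k⟩ := HD3_scale ((HD3_cpt hb).prod (isCompact_Icc (a := (0 : ℝ)) (b := 1))) hH
    fun p hp => h p.1 hp.1 p.2 hp.2
  refine isPreconnected_Icc.induction₂'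
    (fun s t => HD3_dg O (fun x => H (x, s)) = HD3_dg O (fun x => H (x, t))) (fun s hs => ?_)
    (fun _ _ _ _ _ _ => Eq.trans) (left_mem_Icc.2 zero_le_one) (right_mem_Icc.2 zero_le_one)
  obtain ⟨v, c, a⟩ := HD3_approx (u := fun x => l • H (x, s)) (by fun_prop)
  have ev : ∀ᶠ t in 𝓝 s, ∀ x ∈ frontier O, ‖l • H (x, s) - l • H (x, t)‖ < 1 / 2 := by
    refine (HD3_cpt hb).eventually_forall_of_forall_eventually fun x _ => ?_
    have hc : Continuous fun z : ℝ × (ι → ℝ) => ‖l • H (z.2, s) - l • H (z.2, z.1)‖ := by fun_prop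
    exact hc.continuousAt.eventually_lt continuousAt_const (by simp)
  have good : ∀ t ∈ Icc (0 : ℝ) 1, (∀ x ∈ frontier O, ‖l • H (x, s) - l • H (x, t)‖ < 1 / 2) →
      HD3_dg O (fun x => H (x, t)) = II O v := fun t ht e =>
    HD3_dg_eq hO hb ⟨c, l, hl, fun x hx => ⟨by
      have := norm_sub_le_norm_sub_add_norm_sub (v x) (l • H (x, s)) (l • H (x, t))
      linarith [a x, e x hx], k (x, t) ⟨hx, ht⟩⟩⟩
  filter_upwards [mem_nhdsWithin_of_mem_nhds ev, self_mem_nhdsWithin] with t e ht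
  have e1 := good s hs fun x _ => by simp
  have e2 := good t ht e
  exact ⟨e1.trans e2.symm, e2.trans e1.symm⟩

theorem HD3_add {O1 O2 : Set (ι → ℝ)} (h : Adm O u) (h1 : IsOpen O1) (h2 : IsOpen O2)
    (s1 : O1 ⊆ O) (s2 : O2 ⊆ O) (hd : Disjoint O1 O2) (hz : ∀ x ∈ O, u x = 0 → x ∈ O1 ∪ O2) :
    HD3_dg O u = HD3_dg O1 u + HD3_dg O2 u := by
  obtain ⟨hO, hb, hu, hf⟩ := h
  obtain ⟨l, hl, k⟩ := HD3_scale (hb.isCompact_closure.diff (h1.union h2)) hu fun x hx e => by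
    by_cases m : x ∈ O
    · exact hx.2 (hz x m e)
    · exact hf x (by rw [hO.frontier_eq]; exact ⟨hx.1, m⟩) e
  obtain ⟨v, c, a⟩ := HD3_approx (u := fun x => l • u x) (by fun_prop)
  have good : ∀ W : Set (ι → ℝ), IsOpen W → W ⊆ O → (∀ x ∈ closure W, x ∉ W → x ∉ O1 ∪ O2) →
      HD3_dg W u = II W v := fun W hW s e =>
    HD3_dg_eq hW (hb.subset s) ⟨c, l, hl, fun x hx => by
      rw [hW.frontier_eq] at hx
      exact ⟨by linarith [a x], k x ⟨closure_mono s hx.1, e x hx.1 hx.2⟩⟩⟩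
  have int : ∀ W : Set (ι → ℝ), W ⊆ O → IntegrableOn (jacS v) W := fun W s =>
    ((jacS_cont c).continuousOn.integrableOn_compact hb.isCompact_closure).mono_set
      (s.trans subset_closure)
  rw [good O hO subset_rfl fun x _ m e => m (union_subset s1 s2 e),
    good O1 h1 s1 fun x m m' e => e.elim m' (Set.disjoint_left.1 (hd.closure_left h2) m),
    good O2 h2 s2 fun x m m' e => e.elim (Set.disjoint_right.1 (hd.closure_right h1) m) m',
    II, II, II, ← setIntegral_union hd h2.measurableSet (int _ s1) (int _ s2)]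
  refine setIntegral_eq_of_subset_of_forall_sdiff_eq_zero hO.measurableSet (union_subset s1 s2)
    fun x hx => jacS_zero c ?_
  have e1 := k x ⟨subset_closure hx.1, hx.2⟩
  have e2 := norm_sub_norm_le (l • u x) (v x)
  rw [norm_sub_rev] at e2
  linarith [a x]

theorem HD3_aff (M : (ι → ℝ) ≃L[ℝ] (ι → ℝ)) {x0 : ι → ℝ} (hO : IsOpen O)
    (hb : Bornology.IsBounded O) (hx : x0 ∈ O) :
    HD3_dg O (fun x => M (x - x0)) =
      (SignType.sign (ContinuousLinearMap.det (M : (ι → ℝ) →L[ℝ] (ι → ℝ))) : ℝ) := by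
  obtain ⟨r, hr, hs⟩ := Metric.isOpen_iff.1 hO x0 hx
  obtain ⟨K, hK, hM⟩ : ∃ K : ℝ, 0 < K ∧ ∀ y, ‖y‖ ≤ K * ‖M y‖ := by
    refine ⟨‖(M.symm : (ι → ℝ) →L[ℝ] (ι → ℝ))‖ + 1, by positivity, fun y => ?_⟩
    have := (M.symm : (ι → ℝ) →L[ℝ] (ι → ℝ)).le_opNorm (M y)
    simp only [ContinuousLinearEquiv.coe_coe, ContinuousLinearEquiv.symm_apply_apply] at this
    nlinarith [norm_nonneg (M y)]
  obtain ⟨l, hl, k⟩ : ∃ l : ℝ, 0 < l ∧ ∀ x, x ∉ O → 3 ≤ ‖l • M (x - x0)‖ := by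
    refine ⟨3 * K / r, by positivity, fun x m => ?_⟩
    have e : r ≤ ‖x - x0‖ := not_lt.1 fun e => m (hs (mem_ball_iff_norm.2 e))
    rw [norm_smul, Real.norm_of_nonneg (by positivity), div_mul_eq_mul_div, le_div_iff₀ hr]
    nlinarith [hM (x - x0)]
  obtain ⟨N, hN⟩ : ∃ N : (ι → ℝ) ≃L[ℝ] (ι → ℝ), ∀ y, N y = l • M y :=
    ⟨M.trans (ContinuousLinearEquiv.smulLeft (Units.mk0 l hl.ne')), fun _ => rfl⟩
  have e : ((N : (ι → ℝ) →L[ℝ] (ι → ℝ)) : (ι → ℝ) →ₗ[ℝ] (ι → ℝ)) =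
      l • ((M : (ι → ℝ) →L[ℝ] (ι → ℝ)) : (ι → ℝ) →ₗ[ℝ] (ι → ℝ)) := LinearMap.ext hN
  rw [HD3_dg_eq (v := fun x => N (x - x0)) hO hb ⟨by fun_prop, l, hl, fun x m => by
      rw [hO.frontier_eq] at m
      exact ⟨by simp [hN], k x m.2⟩⟩,
    II_lin hO.measurableSet N x0 fun x m => by rw [hN]; linarith [k x m],
    ContinuousLinearMap.det, e, LinearMap.det_smul, sign_mul, sign_pos (pow_pos hl _), one_mul]

end

theorem exists_degR_pi (ι : Type) [Fintype ι] :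
    ∃ dg : Set (ι → ℝ) → ((ι → ℝ) → ι → ℝ) → ℝ,
      IsDegR dg (ContinuousLinearEquiv.refl ℝ (ι → ℝ)) :=
  ⟨HD3_dg, fun _ H => HD3_htp H, fun _ _ _ _ => HD3_add, fun _ M _ => HD3_aff M⟩

theorem exists_degR {E F : Type} [NormedAddCommGroup E] [NormedSpace ℝ E] [FiniteDimensional ℝ E]
    [NormedAddCommGroup F] [NormedSpace ℝ F] [FiniteDimensional ℝ F]
    (h : Module.finrank ℝ E = Module.finrank ℝ F) :
    ∃ (dg : Set E → (E → F) → ℝ) (e0 : F ≃L[ℝ] E), IsDegR dg e0 := by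
  obtain ⟨dg, H⟩ := exists_degR_pi (Fin (Module.finrank ℝ E))
  obtain ⟨a⟩ : Nonempty ((Fin (Module.finrank ℝ E) → ℝ) ≃L[ℝ] E) :=
    ⟨ContinuousLinearEquiv.ofFinrankEq (by simp)⟩
  obtain ⟨b⟩ : Nonempty (F ≃L[ℝ] (Fin (Module.finrank ℝ E) → ℝ)) :=
    ⟨ContinuousLinearEquiv.ofFinrankEq (by simp [h])⟩
  have op : ∀ O : Set E, IsOpen O → IsOpen (a ⁻¹' O) := fun O k => k.preimage a.continuous
  have bd : ∀ O : Set E, Bornology.IsBounded O → Bornology.IsBounded (a ⁻¹' O) := fun O k =>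
    a.antilipschitz.isBounded_preimage k
  have fr : ∀ O : Set E, ∀ x ∈ frontier (a ⁻¹' O), a x ∈ frontier O := fun O x k =>
    a.continuous.frontier_preimage_subset O k
  refine ⟨fun O u => dg (a ⁻¹' O) fun x => b (u (a x)), b.trans a, fun O K hO hb hK k => ?_,
    fun O O1 O2 G hG h1 h2 s1 s2 hd hz => ?_, fun O M x0 hO hb hx => ?_⟩
  · exact H.htp (a ⁻¹' O) (fun p => b (K (a p.1, p.2))) (op O hO) (bd O hb) (by fun_prop)
      fun x hx s hs e => k _ (fr O x hx) s hs (b.map_eq_zero_iff.1 e)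
  · obtain ⟨hO, hb, hc, hf⟩ := hG
    exact H.add _ _ _ _ ⟨op O hO, bd O hb, by fun_prop,
      fun x hx e => hf _ (fr O x hx) (b.map_eq_zero_iff.1 e)⟩ (op _ h1) (op _ h2)
      (preimage_mono s1) (preimage_mono s2) (hd.preimage a)
      fun x hx e => hz _ hx (b.map_eq_zero_iff.1 e)
  · have e := H.aff (a ⁻¹' O) (a.trans (M.trans b)) (a.symm x0) (op O hO) (bd O hb) (by simpa)
    have e' := LinearMap.det_conj
      (a.trans (M.trans b)).toContinuousLinearMap.toLinearMap a.toLinearEquiv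
    have e1 : (fun x => b (M (a x - x0))) = fun x => (a.trans (M.trans b)) (x - a.symm x0) :=
      funext fun x => by simp
    change dg (a ⁻¹' O) (fun x => b (M (a x - x0))) = _
    rw [e1, e, ContinuousLinearEquiv.coe_refl, ContinuousLinearMap.id_comp,
      ContinuousLinearMap.det, ← e']
    congr 3
    ext x
    simp

end BEp
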