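import Pool.Agent.Work.MP_f0515e_an.Pos.HD0

/-! Approximation by maps with finitely many nondegenerate affine zeros.

PLAN. `fin_local` (smooth case): `C` compact, `g` smooth, `fderiv g z` invertible at each zero `z ∈ C`.
Zeros in `C` are isolated (`‖g x - A (x - z)‖ ≤ c/2 * ‖x - z‖` near `z`, `c‖v‖ ≤ ‖A v‖`), closed in
`C`, so finite (`IsCompact.finite` with `IsDiscrete`, or `IsCompact.elim_nhds_subcover`).
`fin_approx`: fix `e : F ≃L E`. `Z0 = {x ∈ closure O | u x = 0}` is compact in `O`. Shrink `ε` so that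
`C = {x ∈ closure O | ‖u x‖ ≤ 2 ε} ⊆ O` (`u ≠ 0` on the compact frontier). Take `g0` smooth, `ε/4` close
(`Continuous.exists_contDiff_approx`). Critical values of `e ∘ g0` are null
(`MeasureTheory.addHaar_image_eq_zero_of_det_fderivWithin_eq_zero`, with `borelize E` and
`Measure.addHaar`), so there is a regular value `y` with `‖y‖ < ε/4` (`Measure.dense_of_ae`); `g = g0 - y`.
`S` = zeros of `g` in `C`, `M z` = `fderiv g z` as an equivalence (junk elsewhere). Choose `ρ > 0` with the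
balls `closedBall z (2ρ)` pairwise disjoint, inside `{x ∈ O | ‖u x‖ < ε}`, and the estimate above
(also `‖g x - M z (x - z)‖ ≤ ε/4`) valid on them. Put
`g1 x = g x + ∑ z ∈ S, χ (‖x - z‖/ρ) • (M z (x - z) - g x)`, `χ t = max 0 (min 1 (2 - t))`, and
`v x = u x + θ x • (g1 x - u x)` where `θ` is continuous with values in `[0,1]`, `= 1` on
`{x ∈ closure O | ‖u x‖ ≤ ε}` and `0` off `C` (for instance `indicator` free:
`exists_continuous_one_zero_of_isCompact`, or `θ = max 0 (min 1 (2 - ‖u x‖/ε))` cut by a Urysohn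
function of `C` and `Oᶜ`). A zero of `v` in `O` has `‖u x‖ ≤ 3ε/4`, so `θ = 1` near it. About 250 lines. -/

open Set Metric Filter Topology Function BEv MeasureTheory
open scoped NNReal ContDiff

noncomputable section
namespace BEp

variable {E F : Type} [NormedAddCommGroup E] [NormedSpace ℝ E] [FiniteDimensional ℝ E]
  [NormedAddCommGroup F] [NormedSpace ℝ F] [FiniteDimensional ℝ F]

theorem HD4_cut {A U : Set E} (hA : IsCompact A) (hU : IsOpen U) (h : A ⊆ U) :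
    ∃ (K : Set E) (θ : E → ℝ), IsCompact K ∧ K ⊆ U ∧ Continuous θ ∧ (∀ x, |θ x| ≤ 1) ∧
      (∀ x, |1 - θ x| ≤ 1) ∧ (∀ x ∈ A, θ x = 1) ∧ ∀ x, x ∉ K → θ x = 0 := by
  obtain ⟨K, h1, h2, h3⟩ := exists_compact_between hA hU h
  obtain ⟨θ, h4, h5, h6⟩ := exists_continuous_zero_one_of_isClosed
    isOpen_interior.isClosed_compl hA.isClosed (disjoint_compl_left_iff_subset.2 h2)
  exact ⟨K, θ, h1, h3, θ.continuous, fun x => abs_le.2 ⟨by linarith [(h6 x).1], (h6 x).2⟩,
    fun x => abs_le.2 ⟨by linarith [(h6 x).2], by linarith [(h6 x).1]⟩, h5,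
    fun x hx => h4 fun c => hx (interior_subset c)⟩

theorem HD4_one {g : E → F} (hg : Continuous g) {z : E} (h0 : g z = 0) {M : E ≃L[ℝ] F}
    (hM : HasFDerivAt g (M : E →L[ℝ] F) z) {η : ℝ} (hη : 0 < η) {N : Set E} (hN : N ∈ 𝓝 z) :
    ∃ (g' : E → F) (K : Set E), Continuous g' ∧ IsCompact K ∧ K ⊆ N ∧ (∀ x, x ∉ K → g' x = g x) ∧
      (∀ x, ‖g' x - g x‖ ≤ η) ∧ (∀ x, g' x = 0 → g x = 0) ∧ g' =ᶠ[𝓝 z] fun x => M (x - z) := by
  have h1 := (hM.isLittleO.trans_isBigO (M.isBigO_sub_rev _ z)).def one_half_pos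
  have hc : Continuous fun x => g x - M (x - z) := by fun_prop
  have h2 : ∀ᶠ x in 𝓝 z, ‖g x - M (x - z)‖ < η :=
    hc.norm.continuousAt.eventually_lt continuousAt_const (by simpa [h0] using hη)
  obtain ⟨A, h3, h4, h5⟩ := local_compact_nhds (interior_mem_nhds.2 (h1.and (h2.and hN)))
  obtain ⟨K, θ, k1, k2, k3, k4, k5, k6, k7⟩ := HD4_cut h5 isOpen_interior h4
  have k8 := fun x hx => interior_subset (k2 (a := x) hx)
  refine ⟨fun x => g x - θ x • (g x - M (x - z)), K, by fun_prop, k1, fun x hx => (k8 x hx).2.2,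
    fun x hx => by simp [k7 x hx], fun x => ?_, fun x hx => ?_,
    mem_of_superset h3 fun x hx => by simp [k6 x hx]⟩
  · by_cases c : x ∈ K
    · rw [sub_sub_cancel_left, norm_neg, norm_smul]
      exact (mul_le_of_le_one_left (norm_nonneg _) (k4 x)).trans (k8 x c).2.1.le
    · simp [k7 x c, hη.le]
  · by_cases c : x ∈ K
    · have h6 : ‖g x - M (x - z)‖ ≤ 1 / 2 * ‖M (x - z)‖ := by simpa [h0] using (k8 x c).1
      have h7 : M (x - z) = -((1 - θ x) • (g x - M (x - z))) := by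
        linear_combination (norm := module) hx
      have h8 : ‖M (x - z)‖ ≤ ‖g x - M (x - z)‖ := by
        conv_lhs => rw [h7, norm_neg, norm_smul]
        exact mul_le_of_le_one_left (norm_nonneg _) (k5 x)
      have h9 : M (x - z) = 0 := norm_le_zero_iff.1 (by linarith)
      rwa [sub_eq_zero.1 (M.map_eq_zero_iff.1 h9)]
    · simpa [k7 x c] using hx

theorem HD4_all {g : E → F} (hg : Continuous g) (M : E → E ≃L[ℝ] F) (S : Finset E) :
    (∀ z ∈ S, g z = 0 ∧ HasFDerivAt g (M z : E →L[ℝ] F) z) → ∀ η : ℝ, 0 < η → ∀ N : Set E,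
    IsOpen N → (↑S : Set E) ⊆ N →
    ∃ (g' : E → F) (K : Set E), Continuous g' ∧ IsCompact K ∧ K ⊆ N ∧ (∀ x, x ∉ K → g' x = g x) ∧
      (∀ x, ‖g' x - g x‖ ≤ η) ∧ (∀ x, g' x = 0 → g x = 0) ∧
      ∀ z ∈ S, g' =ᶠ[𝓝 z] fun x => M z (x - z) := by
  classical
  induction S using Finset.induction_on with
  | empty =>
    exact fun _ η hη N _ _ => ⟨g, ∅, hg, isCompact_empty, empty_subset _, fun _ _ => rfl,
      fun _ => by simp [hη.le], fun _ h => h, by simp⟩
  | insert a S ha ih =>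
    intro h η hη N hN hS
    rw [Finset.coe_insert, insert_subset_iff] at hS
    obtain ⟨g1, K1, a1, a2, a3, a4, a5, a6, a7⟩ := ih (fun z hz => h z (Finset.mem_insert_of_mem hz))
      _ (half_pos hη) (N \ {a}) (hN.sdiff isClosed_singleton)
      fun z hz => ⟨hS.2 hz, fun c => ha (c ▸ hz)⟩
    have e : g1 =ᶠ[𝓝 a] g :=
      mem_of_superset (a2.isClosed.isOpen_compl.mem_nhds fun c => (a3 c).2 rfl) a4
    obtain ⟨h1, h2⟩ := h a (Finset.mem_insert_self _ _)
    obtain ⟨g2, K2, b1, b2, b3, b4, b5, b6, b7⟩ := HD4_one a1 (e.eq_of_nhds.trans h1)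
      (h2.congr_of_eventuallyEq e) (half_pos hη)
      ((hN.sdiff S.finite_toSet.isClosed).mem_nhds ⟨hS.1, ha⟩)
    refine ⟨g2, K1 ∪ K2, b1, a2.union b2, union_subset (fun x hx => (a3 hx).1)
      fun x hx => (b3 hx).1, fun x hx => (b4 x fun c => hx (Or.inr c)).trans
        (a4 x fun c => hx (Or.inl c)), fun x => ?_, fun x hx => a6 x (b6 x hx), fun z hz => ?_⟩
    · linarith [norm_sub_le_norm_sub_add_norm_sub (g2 x) (g1 x) (g x), a5 x, b5 x]
    · rcases Finset.mem_insert.1 hz with rfl | hz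
      · exact b7
      · exact EventuallyEq.trans (mem_of_superset
          (b2.isClosed.isOpen_compl.mem_nhds fun c => (b3 c).2 hz) b4) (a7 z hz)

theorem HD4_reg (h : Module.finrank ℝ E = Module.finrank ℝ F) {u : E → F} (hu : Continuous u)
    {δ : ℝ} (hδ : 0 < δ) : ∃ g : E → F, Continuous g ∧ (∀ x, ‖g x - u x‖ ≤ δ) ∧
      ∀ z, g z = 0 → ∃ M : E ≃L[ℝ] F, HasFDerivAt g (M : E →L[ℝ] F) z := by
  borelize E
  obtain ⟨g, h1, h2, -⟩ := hu.exists_contDiff_approx 1 continuous_const fun _ => half_pos hδ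
  have h3 := fun x => (h1.differentiable (by simp) x).hasFDerivAt
  let e : F ≃L[ℝ] E := ContinuousLinearEquiv.ofFinrankEq h.symm
  have h4 := addHaar_image_eq_zero_of_det_fderivWithin_eq_zero Measure.addHaar
    (s := {x | ((e : F →L[ℝ] E).comp (fderiv ℝ g x)).det = 0})
    (fun x _ => ((e : F →L[ℝ] E).hasFDerivAt.comp x (h3 x)).hasFDerivWithinAt) fun _ hx => hx
  have h5 : IsOpen {w : E | ‖e.symm w‖ < δ / 2} := isOpen_lt (by fun_prop) continuous_const
  obtain ⟨w, h6, h7⟩ := not_subset.1 fun c => h5.measure_ne_zero Measure.addHaar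
    ⟨0, by simpa using hδ⟩ (measure_mono_null c h4)
  refine ⟨fun x => g x - e.symm w, h1.continuous.sub continuous_const, fun x => ?_, fun z hz => ?_⟩
  · have h8 := h2 x
    rw [dist_eq_norm] at h8
    rw [sub_right_comm]
    linarith [norm_sub_le (g x - u x) (e.symm w), show ‖e.symm w‖ < δ / 2 from h6]
  · have h8 : ((e : F →L[ℝ] E).comp (fderiv ℝ g z)).det ≠ 0 := fun c =>
      h7 ⟨z, c, by simp [sub_eq_zero.1 hz]⟩
    refine ⟨(ContinuousLinearMap.toContinuousLinearEquivOfDetNeZero _ h8).trans e.symm, ?_⟩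
    refine ((h3 z).sub_const _).congr_fderiv (ContinuousLinearMap.ext fun y => ?_)
    exact (e.symm_apply_apply _).symm

theorem fin_approx (h : Module.finrank ℝ E = Module.finrank ℝ F) {O : Set E} {u : E → F}
    (hu : Adm O u) {ε : ℝ} (hε : 0 < ε) :
    ∃ (v : E → F) (T : Set E) (S : Finset E) (M : E → E ≃L[ℝ] F), Continuous v ∧ IsCompact T ∧
      T ⊆ O ∧ (∀ x, x ∉ T → v x = u x) ∧ (∀ x, ‖v x - u x‖ ≤ ε) ∧ FinZ O v S M := by
  obtain ⟨hO, hb, hc, hf⟩ := hu
  have hK := hb.isCompact_closure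
  obtain ⟨a, ha, h1⟩ := (hK.of_isClosed_subset isClosed_frontier
    frontier_subset_closure).exists_forall_le' hc.norm.continuousOn
      fun x hx => norm_pos_iff.2 (hf x hx)
  obtain ⟨δ, hδ, d1, d2⟩ : ∃ δ : ℝ, 0 < δ ∧ 2 * δ ≤ ε ∧ 2 * δ < a :=
    ⟨min (ε / 2) (a / 3), by positivity, by linarith [min_le_left (ε / 2) (a / 3)],
      by linarith [min_le_right (ε / 2) (a / 3)]⟩
  have hA : closure O ∩ {x | ‖u x‖ ≤ 2 * δ} ⊆ O := fun x hx => by_contra fun c => by
    linarith [h1 x (hO.frontier_eq ▸ ⟨hx.1, c⟩), show ‖u x‖ ≤ 2 * δ from hx.2]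
  obtain ⟨K, θ, k1, k2, k3, k4, -, k6, k7⟩ :=
    HD4_cut (hK.inter_right (isClosed_le hc.norm continuous_const)) hO hA
  obtain ⟨g, g1, g2, g3⟩ := HD4_reg h hc hδ
  obtain ⟨w, hw⟩ : ∃ w : E → F, w = fun x => u x + θ x • (g x - u x) := ⟨_, rfl⟩
  have w1 : Continuous w := by rw [hw]; fun_prop
  have w2 : ∀ x, ‖w x - u x‖ ≤ δ := fun x => by
    rw [hw, add_sub_cancel_left, norm_smul]
    exact (mul_le_of_le_one_left (norm_nonneg _) (k4 x)).trans (g2 x)
  have w3 : ∀ z ∈ closure O ∩ {x | w x = 0},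
      z ∈ O ∧ ∃ M : E ≃L[ℝ] F, HasFDerivAt w (M : E →L[ℝ] F) z := fun z hz => by
    have h2 : ‖u z‖ < 2 * δ := by
      have := w2 z
      rw [show w z = 0 from hz.2, zero_sub, norm_neg] at this
      linarith
    have h3 := hA ⟨hz.1, h2.le⟩
    have e : w =ᶠ[𝓝 z] g := by
      filter_upwards [hO.mem_nhds h3, hc.norm.continuousAt.eventually_lt continuousAt_const h2]
        with x a b
      simp [hw, k6 x ⟨subset_closure a, b.le⟩]
    obtain ⟨M, hM⟩ := g3 z (e.eq_of_nhds.symm.trans hz.2)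
    exact ⟨h3, M, hM.congr_of_eventuallyEq e⟩
  have w4 : (closure O ∩ {x | w x = 0}).Finite := by
    refine (hK.inter_right (isClosed_eq w1 continuous_const)).finite
      (isDiscrete_iff_nhdsNE.2 fun z hz => inf_principal_eq_bot.2 ?_)
    obtain ⟨-, M, hM⟩ := w3 z hz
    exact mem_of_superset (hM.eventually_ne (c := 0) ⟨_, M.antilipschitz⟩) fun x hx c => hx c.2
  have : Nonempty (E ≃L[ℝ] F) := ⟨ContinuousLinearEquiv.ofFinrankEq h⟩
  choose! w5 M w6 using w3
  have hS : (↑w4.toFinset : Set E) ⊆ O := fun z hz => w5 z (w4.mem_toFinset.1 hz)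
  obtain ⟨v, K', a1, a2, a3, a4, a5, a6, a7⟩ := HD4_all w1 M w4.toFinset
    (fun z hz => ⟨(w4.mem_toFinset.1 hz).2, w6 z (w4.mem_toFinset.1 hz)⟩) δ hδ O hO hS
  refine ⟨v, K ∪ K', w4.toFinset, M, a1, k1.union a2, union_subset k2 a3, fun x hx => ?_,
    fun x => ?_, hS, fun x hx h0 => w4.mem_toFinset.2 ⟨subset_closure hx, a6 x h0⟩, a7⟩
  · simp [a4 x fun c => hx (Or.inr c), hw, k7 x fun c => hx (Or.inl c)]
  · linarith [norm_sub_le_norm_sub_add_norm_sub (v x) (w x) (u x), a5 x, w2 x]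

end BEp
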