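import Pool.Agent.Work.MP_f0515e_an.Pos.HD3
import Pool.Agent.Work.MP_f0515e_an.Pos.HD4

/-! Formal consequences of the axioms of the degree.

PLAN. `congr`: straight line homotopy. `empty`: `add` with `O = O1 = O2 = ∅`. `Adm.sub`: a frontier point
of `O1` lies in `closure O`; it is in `frontier O`, or in `O`, not in `O1` (open) and not in `O2`
(`Disjoint.closure_left`). `excise`: `add` with `O2 = ∅`. `sum`: induction on `S` generalizing `O`:
for a zero `z` take `r` with `closedBall z r ⊆ O`, the germ identity on it and no other point of `S` in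
it; `add` with `ball z r` and `O \ closedBall z r` (a zero on the sphere is excluded because `M z` is
injective); `congr` and `aff` on the ball (`frontier_ball_subset_sphere`). `int`: `fin_approx`,
`congr`, `sum`. `exists_isDeg`: `round` of the real degree of `exists_degR`. About 200 lines. -/

open Set Metric Filter Topology Function BEv
open scoped NNReal

noncomputable section
namespace BEp

variable {E F : Type} [NormedAddCommGroup E] [NormedSpace ℝ E] [FiniteDimensional ℝ E]
  [NormedAddCommGroup F] [NormedSpace ℝ F] [FiniteDimensional ℝ F]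

theorem hd5_cast (s : SignType) : (((s : SignType) : ℤ) : ℝ) = (s : ℝ) := by
  cases s <;> simp

theorem Adm.sub {O O1 O2 : Set E} {u : E → F} (hu : Adm O u) (h1 : IsOpen O1) (h2 : IsOpen O2)
    (s1 : O1 ⊆ O) (hd : Disjoint O1 O2) (hz : ∀ x ∈ O, u x = 0 → x ∈ O1 ∪ O2) : Adm O1 u := by
  refine ⟨h1, hu.2.1.subset s1, hu.2.2.1, fun x hx h0 => ?_⟩
  rw [h1.frontier_eq] at hx
  by_cases c : x ∈ O
  · exact disjoint_left.1 (hd.closure_left h2) hx.1 ((hz x c h0).resolve_left hx.2)
  · exact hu.2.2.2 x (hu.1.frontier_eq ▸ ⟨closure_mono s1 hx.1, c⟩) h0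

theorem Adm.of_eqOn {O : Set E} {u v : E → F} (hu : Adm O u) (hv : Continuous v)
    (e : EqOn u v (frontier O)) : Adm O v :=
  ⟨hu.1, hu.2.1, hv, fun x hx => e hx ▸ hu.2.2.2 x hx⟩

variable {dg : Set E → (E → F) → ℝ} {e0 : F ≃L[ℝ] E}

theorem IsDegR.congr (H : IsDegR dg e0) {O : Set E} {u v : E → F} (hu : Adm O u)
    (hv : Continuous v) (e : EqOn u v (frontier O)) : dg O u = dg O v := by
  have hc := hu.2.2.1
  have := H.htp O (fun p => u p.1 + p.2 • (v p.1 - u p.1)) hu.1 hu.2.1 (by fun_prop)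
    fun x hx s _ => by
      simpa only [← e hx, sub_self, smul_zero, add_zero] using hu.2.2.2 x hx
  simpa using this

theorem IsDegR.empty (H : IsDegR dg e0) {u : E → F} (hu : Continuous u) : dg ∅ u = 0 := by
  have := H.add ∅ ∅ ∅ u ⟨isOpen_empty, Bornology.isBounded_empty, hu, by simp⟩ isOpen_empty
    isOpen_empty subset_rfl subset_rfl (disjoint_empty _) fun _ hx _ => hx.elim
  linarith

theorem IsDegR.excise (H : IsDegR dg e0) {O O1 : Set E} {u : E → F} (hu : Adm O u)
    (h1 : IsOpen O1) (s1 : O1 ⊆ O) (hz : ∀ x ∈ O, u x = 0 → x ∈ O1) : dg O u = dg O1 u := by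
  rw [H.add O O1 ∅ u hu h1 isOpen_empty s1 (empty_subset _) (disjoint_empty _)
    fun x hx h0 => Or.inl (hz x hx h0), H.empty hu.2.2.1, add_zero]

theorem IsDegR.sum (H : IsDegR dg e0) {O : Set E} {u : E → F} (hu : Adm O u) {S : Finset E}
    {M : E → E ≃L[ℝ] F} (hf : FinZ O u S M) :
    dg O u = ∑ z ∈ S, (SignType.sign
      (ContinuousLinearMap.det ((e0 : F →L[ℝ] E).comp (M z : E →L[ℝ] F))) : ℝ) := by
  classical
  induction S using Finset.induction_on generalizing O with
  | empty =>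
    rw [H.excise hu isOpen_empty (empty_subset _) fun x hx h0 => by simpa using hf.2.1 x hx h0,
      H.empty hu.2.2.1, Finset.sum_empty]
  | insert z S hz ih =>
    have hzS := Finset.mem_insert_self z S
    have n1 : O ∈ 𝓝 z := hu.1.mem_nhds (hf.1 (Finset.mem_coe.2 hzS))
    have n2 : (↑S : Set E)ᶜ ∈ 𝓝 z := S.finite_toSet.isClosed.isOpen_compl.mem_nhds hz
    obtain ⟨r, hr, hb⟩ := nhds_basis_closedBall.mem_iff.1
      (inter_mem (inter_mem n1 n2) (hf.2.2 z hzS))
    have o2 : IsOpen (O \ closedBall z r) := hu.1.sdiff isClosed_closedBall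
    have s1 : ball z r ⊆ O := fun x hx => (hb (ball_subset_closedBall hx)).1.1
    have hd : Disjoint (ball z r) (O \ closedBall z r) :=
      disjoint_left.2 fun x hx hx' => hx'.2 (ball_subset_closedBall hx)
    have hS : (↑S : Set E) ⊆ O \ closedBall z r := fun x hx =>
      ⟨hf.1 (Finset.mem_coe.2 (Finset.mem_insert_of_mem hx)), fun c => (hb c).1.2 hx⟩
    have hzz : ∀ x ∈ O, u x = 0 → x ∈ ball z r ∪ O \ closedBall z r := fun x hx h0 =>
      (Finset.mem_insert.1 (hf.2.1 x hx h0)).elim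
        (fun e => Or.inl (by rw [e]; exact mem_ball_self hr)) fun c => Or.inr (hS c)
    have a1 := hu.sub isOpen_ball o2 s1 hd hzz
    have a2 := hu.sub o2 isOpen_ball sdiff_subset hd.symm fun x hx h0 => (hzz x hx h0).symm
    rw [H.add O _ _ u hu isOpen_ball o2 s1 sdiff_subset hd hzz, Finset.sum_insert hz,
      H.congr a1 (v := fun x => M z (x - z)) (by fun_prop)
        (fun x hx => (hb (closure_ball_subset_closedBall (frontier_subset_closure hx))).2),
      H.aff _ _ _ isOpen_ball isBounded_ball (mem_ball_self hr),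
      ih a2 ⟨hS, fun x hx h0 => (Finset.mem_insert.1 (hf.2.1 x hx.1 h0)).resolve_left
        fun e => hx.2 (e ▸ mem_closedBall_self hr.le),
        fun y hy => hf.2.2 y (Finset.mem_insert_of_mem hy)⟩]

theorem IsDegR.int (H : IsDegR dg e0) {O : Set E} {u : E → F} (hu : Adm O u) :
    ∃ k : ℤ, dg O u = k := by
  obtain ⟨v, T, S, M, h1, -, h3, h4, -, h6⟩ :=
    fin_approx e0.toLinearEquiv.finrank_eq.symm hu one_pos
  have e : EqOn u v (frontier O) := fun x hx =>
    (h4 x fun c => (hu.1.frontier_eq ▸ hx : x ∈ closure O \ O).2 (h3 c)).symm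
  refine ⟨∑ z ∈ S, (SignType.sign
    (ContinuousLinearMap.det ((e0 : F →L[ℝ] E).comp (M z : E →L[ℝ] F))) : ℤ), ?_⟩
  rw [H.congr hu h1 e, H.sum (hu.of_eqOn h1 e) h6, Int.cast_sum]
  exact Finset.sum_congr rfl fun z _ => (hd5_cast _).symm

theorem IsDeg.toR {dz : Set E → (E → F) → ℤ} (H : IsDeg dz) :
    ∃ e0 : F ≃L[ℝ] E, IsDegR (fun O u => (dz O u : ℝ)) e0 := by
  obtain ⟨e0, h⟩ := H.aff
  refine ⟨e0, fun O K a b c d => congrArg _ (H.htp O K a b c d),
    fun O O1 O2 G a b c d e f g => ?_, fun O M x0 a b c => ?_⟩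
  · rw [H.add O O1 O2 G a b c d e f g, Int.cast_add]
  · rw [h O M x0 a b c, hd5_cast]

theorem exists_isDeg (h : Module.finrank ℝ E = Module.finrank ℝ F) :
    ∃ dz : Set E → (E → F) → ℤ, IsDeg dz := by
  obtain ⟨dg, e0, H⟩ := exists_degR h
  refine ⟨fun O u => round (dg O u), fun O K a b c d => congrArg _ (H.htp O K a b c d),
    fun O O1 O2 G a b c d e f g => ?_, e0, fun O M x0 a b c => ?_⟩
  · obtain ⟨k1, e1⟩ := H.int (a.sub b c d f g)
    obtain ⟨k2, e2⟩ := H.int (a.sub c b e f.symm fun x hx h0 => (g x hx h0).symm)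
    rw [H.add O O1 O2 G a b c d e f g, e1, e2, ← Int.cast_add, round_intCast, round_intCast,
      round_intCast]
  · rw [H.aff O M x0 a b c, ← hd5_cast, round_intCast]

end BEp
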