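import Pool.Agent.Work.MP_f0515e_an.Pos.HDeg

/-! EXPORT (HOM). Signs of linear isomorphisms, the sum formula, exact linear changes.

PLAN. Everything comes from `isDeg h`, `IsDeg.toR` and the lemmas of `Pos/HD5.lean` (cast to the reals,
`exact_mod_cast`). An equivalence `M : E ≃L[ℝ] F` gives `finrank E = finrank F`
(`M.toLinearEquiv.finrank_eq`). With the reference map `e0` of `(isDeg h).toR`,
`sg M = sign (det (e0 ∘ M))`, so `sg_pre` is `det_comp` and `sg_post` is `det_comp` plus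
`LinearMap.det_conj`. `deg_ind`: `fin_approx` (the approximant equals `u` off a compact subset of `O`).
`deg_domain_eq`, `deg_target_eq`: by `deg_ind` and `deg_sum`; the zeros are `L.symm (z - b)` with
linear parts `L.trans (M z)` (use `Finset.image` or `Finset.map`), and for any `M M0`,
`M = M0.trans N` with `N = M0.symm.trans M`, `M = N'.trans M0` with `N' = M.trans M0.symm`, so
`sg (L.trans M) = sdet N * sg (L.trans M0)`, `sg M = sdet N * sg M0`. The frontier of a preimage under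
the homeomorphism `x ↦ L x + b` is the preimage of the frontier. About 250 lines. -/

open Set Metric Filter Topology Function BEv
open scoped NNReal

noncomputable section
namespace BEp

variable {E F G : Type} [NormedAddCommGroup E] [NormedSpace ℝ E] [FiniteDimensional ℝ E]
  [NormedAddCommGroup F] [NormedSpace ℝ F] [FiniteDimensional ℝ F]
  [NormedAddCommGroup G] [NormedSpace ℝ G] [FiniteDimensional ℝ G]

/-- Orientation sign of an isomorphism. -/
def sg (M : E ≃L[ℝ] F) : ℤ := deg (ball (0 : E) 1) (fun x => M x)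

/-- Sign of the determinant. -/
def sdet (N : E ≃L[ℝ] E) : ℤ :=
  SignType.sign (ContinuousLinearMap.det (N : E →L[ℝ] E))

omit [FiniteDimensional ℝ E] in
theorem hdeg1_trans (A B : E ≃L[ℝ] E) : sdet (A.trans B) = sdet A * sdet B := by
  have : ContinuousLinearMap.det (A.trans B : E →L[ℝ] E) =
      ContinuousLinearMap.det (B : E →L[ℝ] E) * ContinuousLinearMap.det (A : E →L[ℝ] E) :=
    LinearMap.det_comp ((B : E →L[ℝ] E) : E →ₗ[ℝ] E) ((A : E →L[ℝ] E) : E →ₗ[ℝ] E)
  rw [sdet, this, sign_mul, SignType.coe_mul, mul_comm]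
  rfl

omit [FiniteDimensional ℝ E] [FiniteDimensional ℝ F] in
theorem hdeg1_conj (e : F ≃L[ℝ] E) (N : F ≃L[ℝ] F) :
    sdet (e.symm.trans (N.trans e)) = sdet N :=
  congrArg (fun t : ℝ => ((SignType.sign t : SignType) : ℤ))
    (LinearMap.det_conj ((N : F →L[ℝ] F) : F →ₗ[ℝ] F) e.toLinearEquiv)

theorem hdeg1_ref (h : Module.finrank ℝ E = Module.finrank ℝ F) : ∃ e0 : F ≃L[ℝ] E,
    IsDegR (fun (O : Set E) (u : E → F) => (deg O u : ℝ)) e0 ∧
      ∀ M : E ≃L[ℝ] F, sg M = sdet (M.trans e0) := by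
  obtain ⟨e0, H⟩ := (isDeg h).toR
  refine ⟨e0, H, fun M => Int.cast_injective (α := ℝ) ?_⟩
  have := H.aff (ball 0 1) M 0 isOpen_ball isBounded_ball (mem_ball_self one_pos)
  simp only [sub_zero] at this
  exact this.trans (hd5_cast _).symm

omit [FiniteDimensional ℝ E] in
theorem hdeg1_cases (N : E ≃L[ℝ] E) : sdet N = 1 ∨ sdet N = -1 := by
  have h : ContinuousLinearMap.det (N : E →L[ℝ] E) ≠ 0 := N.toLinearEquiv.isUnit_det'.ne_zero
  rcases lt_or_gt_of_ne h with k | k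
  · exact Or.inr (by rw [sdet, sign_neg k]; rfl)
  · exact Or.inl (by rw [sdet, sign_pos k]; rfl)

theorem sg_cases (M : E ≃L[ℝ] F) : sg M = 1 ∨ sg M = -1 := by
  obtain ⟨e0, -, h⟩ := hdeg1_ref M.toLinearEquiv.finrank_eq
  exact h M ▸ hdeg1_cases _

theorem sg_mul_self (M : E ≃L[ℝ] F) : sg M * sg M = 1 := by
  rcases sg_cases M with k | k <;> rw [k] <;> rfl

omit [FiniteDimensional ℝ E] in
theorem sdet_cases (N : E ≃L[ℝ] E) : sdet N = 1 ∨ sdet N = -1 := hdeg1_cases N

omit [FiniteDimensional ℝ E] in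
theorem sdet_eq_one {N : E ≃L[ℝ] E} :
    sdet N = 1 ↔ 0 < ContinuousLinearMap.det (N : E →L[ℝ] E) := by
  rw [← sign_eq_one_iff, sdet]
  cases SignType.sign (ContinuousLinearMap.det (N : E →L[ℝ] E)) <;> simp

theorem sdet_neg : sdet (ContinuousLinearEquiv.neg ℝ : E ≃L[ℝ] E) =
    (-1) ^ Module.finrank ℝ E := by
  have : ContinuousLinearMap.det ((ContinuousLinearEquiv.neg ℝ : E ≃L[ℝ] E) : E →L[ℝ] E) =
      (-1) ^ Module.finrank ℝ E := by
    have := LinearMap.det_smul (-1 : ℝ) (LinearMap.id : E →ₗ[ℝ] E)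
    rw [LinearMap.det_id, mul_one] at this
    exact (congrArg LinearMap.det (LinearMap.ext fun x => by simp)).trans this
  rw [sdet, this, sign_pow, SignType.coe_pow, sign_neg neg_one_lt_zero]
  rfl

theorem sdet_prod (N : E ≃L[ℝ] E) (N' : F ≃L[ℝ] F) :
    sdet (N.prodCongr N') = sdet N * sdet N' := by
  have : ContinuousLinearMap.det (N.prodCongr N' : E × F →L[ℝ] E × F) =
      ContinuousLinearMap.det (N : E →L[ℝ] E) * ContinuousLinearMap.det (N' : F →L[ℝ] F) :=
    LinearMap.det_prodMap ((N : E →L[ℝ] E) : E →ₗ[ℝ] E) ((N' : F →L[ℝ] F) : F →ₗ[ℝ] F)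
  rw [sdet, this, sign_mul, SignType.coe_mul]
  rfl

theorem sg_pre (L : E ≃L[ℝ] E) (M : E ≃L[ℝ] F) : sg (L.trans M) = sdet L * sg M := by
  obtain ⟨e0, -, h⟩ := hdeg1_ref M.toLinearEquiv.finrank_eq
  rw [h, h, ← hdeg1_trans]
  rfl

theorem sg_post (M : E ≃L[ℝ] F) (N : F ≃L[ℝ] F) : sg (M.trans N) = sdet N * sg M := by
  obtain ⟨e0, -, h⟩ := hdeg1_ref M.toLinearEquiv.finrank_eq
  rw [h, h, ← hdeg1_conj e0 N, mul_comm, ← hdeg1_trans]
  exact congrArg sdet (ContinuousLinearEquiv.ext (funext fun x => by simp))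

theorem deg_aff (M : E ≃L[ℝ] F) {O : Set E} (hO : IsOpen O) (hb : Bornology.IsBounded O)
    {x0 : E} (hx : x0 ∈ O) : deg O (fun x => M (x - x0)) = sg M := by
  obtain ⟨e0, H, h⟩ := hdeg1_ref M.toLinearEquiv.finrank_eq
  rw [h]
  exact Int.cast_injective (α := ℝ) ((H.aff O M x0 hO hb hx).trans (hd5_cast _).symm)

theorem deg_htp (h : Module.finrank ℝ E = Module.finrank ℝ F) {O : Set E} (hO : IsOpen O)
    (hb : Bornology.IsBounded O) {H : E × ℝ → F} (hH : Continuous H)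
    (h0 : ∀ x ∈ frontier O, ∀ s ∈ Icc (0 : ℝ) 1, H (x, s) ≠ 0) {u v : E → F}
    (hu : Continuous u) (hv : Continuous v) (eu : ∀ x ∈ frontier O, H (x, 0) = u x)
    (ev : ∀ x ∈ frontier O, H (x, 1) = v x) : Adm O u ∧ Adm O v ∧ deg O u = deg O v := by
  obtain ⟨e0, K, -⟩ := hdeg1_ref h
  have a0 : Adm O fun x => H (x, 0) := ⟨hO, hb, by fun_prop, fun x hx => h0 x hx 0 (by simp)⟩
  have a1 : Adm O fun x => H (x, 1) := ⟨hO, hb, by fun_prop, fun x hx => h0 x hx 1 (by simp)⟩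
  refine ⟨a0.of_eqOn hu eu, a1.of_eqOn hv ev, Int.cast_injective (α := ℝ) ?_⟩
  exact (K.congr a0 hu eu).symm.trans ((K.htp O H hO hb hH h0).trans (K.congr a1 hv ev))

theorem deg_eqOn (h : Module.finrank ℝ E = Module.finrank ℝ F) {O : Set E} {u v : E → F}
    (hu : Adm O u) (hv : Continuous v) (e : EqOn u v (frontier O)) : deg O u = deg O v := by
  obtain ⟨e0, K, -⟩ := hdeg1_ref h
  exact Int.cast_injective (α := ℝ) (K.congr hu hv e)

theorem deg_excise (h : Module.finrank ℝ E = Module.finrank ℝ F) {O O1 : Set E} {u : E → F}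
    (hu : Adm O u) (h1 : IsOpen O1) (s1 : O1 ⊆ O) (hz : ∀ x ∈ O, u x = 0 → x ∈ O1) :
    Adm O1 u ∧ deg O u = deg O1 u := by
  obtain ⟨e0, K, -⟩ := hdeg1_ref h
  exact ⟨hu.sub h1 isOpen_empty s1 (disjoint_empty _) fun x hx h0 => Or.inl (hz x hx h0),
    Int.cast_injective (α := ℝ) (K.excise hu h1 s1 hz)⟩

theorem deg_add (h : Module.finrank ℝ E = Module.finrank ℝ F) {O O1 O2 : Set E} {u : E → F}
    (hu : Adm O u) (h1 : IsOpen O1) (h2 : IsOpen O2) (s1 : O1 ⊆ O) (s2 : O2 ⊆ O)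
    (hd : Disjoint O1 O2) (hz : ∀ x ∈ O, u x = 0 → x ∈ O1 ∪ O2) :
    Adm O1 u ∧ Adm O2 u ∧ deg O u = deg O1 u + deg O2 u :=
  ⟨hu.sub h1 h2 s1 hd hz, hu.sub h2 h1 s2 hd.symm fun x hx h0 => (hz x hx h0).symm,
    (isDeg h).add O O1 O2 u hu h1 h2 s1 s2 hd hz⟩

theorem deg_nz (h : Module.finrank ℝ E = Module.finrank ℝ F) {O : Set E} {u : E → F}
    (hu : Adm O u) (h0 : ∀ x ∈ O, u x ≠ 0) : deg O u = 0 := by
  obtain ⟨e0, K, -⟩ := hdeg1_ref h
  refine Int.cast_injective (α := ℝ) ((K.excise hu isOpen_empty (empty_subset _)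
    fun x hx k => h0 x hx k).trans ((K.empty hu.2.2.1).trans Int.cast_zero.symm))

theorem deg_sum (h : Module.finrank ℝ E = Module.finrank ℝ F) {O : Set E} {u : E → F}
    (hu : Adm O u) {S : Finset E} {M : E → E ≃L[ℝ] F} (hf : FinZ O u S M) :
    deg O u = ∑ z ∈ S, sg (M z) := by
  obtain ⟨e0, K, k⟩ := hdeg1_ref h
  refine Int.cast_injective (α := ℝ) ((K.sum hu hf).trans ?_)
  rw [Int.cast_sum]
  exact Finset.sum_congr rfl fun z _ => by rw [k]; exact (hd5_cast _).symm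

/-- One nondegenerate zero. -/
theorem deg_one {O : Set E} {u : E → F} (hu : Adm O u) (M : E ≃L[ℝ] F) {z : E} (hz : z ∈ O)
    (h1 : ∀ x ∈ O, u x = 0 → x = z) (hg : u =ᶠ[𝓝 z] fun x => M (x - z)) :
    deg O u = sg M := by
  rw [deg_sum M.toLinearEquiv.finrank_eq hu (S := {z}) (M := fun _ => M)
    ⟨by simpa using hz, fun x hx h0 => Finset.mem_singleton.2 (h1 x hx h0),
      fun y hy => Finset.mem_singleton.1 hy ▸ hg⟩, Finset.sum_singleton]

/-- Reduction to maps with finitely many affine zeros. -/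
theorem deg_ind (h : Module.finrank ℝ E = Module.finrank ℝ F) {O : Set E} {u : E → F}
    (hu : Adm O u) : ∃ (v : E → F) (S : Finset E) (M : E → E ≃L[ℝ] F), Adm O v ∧
      (∀ x, x ∉ O → v x = u x) ∧ FinZ O v S M ∧ deg O u = ∑ z ∈ S, sg (M z) := by
  obtain ⟨v, T, S, M, h1, -, h3, h4, -, h6⟩ := fin_approx h hu one_pos
  have e : EqOn u v (frontier O) := fun x hx =>
    (h4 x fun c => (hu.1.frontier_eq ▸ hx : x ∈ closure O \ O).2 (h3 c)).symm
  exact ⟨v, S, M, hu.of_eqOn h1 e, fun x hx => h4 x fun c => hx (h3 c), h6,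
    (deg_eqOn h hu h1 e).trans (deg_sum h (hu.of_eqOn h1 e) h6)⟩

/-- Positive rescaling. -/
theorem deg_smul (h : Module.finrank ℝ E = Module.finrank ℝ F) {O : Set E} {u : E → F}
    (hu : Adm O u) {c : E → ℝ} (hc : Continuous c) (hp : ∀ x ∈ frontier O, 0 < c x) :
    Adm O (fun x => c x • u x) ∧ deg O (fun x => c x • u x) = deg O u := by
  have hc' := hu.2.2.1
  have := deg_htp h hu.1 hu.2.1 (H := fun p => ((1 - p.2) * c p.1 + p.2) • u p.1) (by fun_prop)
    (fun x hx s hs => smul_ne_zero (by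
      have := hp x hx
      rcases hs.1.eq_or_lt with k | k
      · simpa [← k] using this.ne'
      · exact (add_pos_of_nonneg_of_pos (mul_nonneg (sub_nonneg.2 hs.2) this.le) k).ne')
      (hu.2.2.2 x hx)) (u := fun x => c x • u x) (v := u) (by fun_prop) hc'
    (fun x _ => by simp) fun x _ => by simp
  exact ⟨this.1, this.2.2⟩

theorem hdeg1_pre (L : G ≃L[ℝ] E) (M0 M : E ≃L[ℝ] F) :
    sg (L.trans M) = sg (L.trans M0) * sg M0 * sg M := by
  have e : M = M0.trans (M0.symm.trans M) := ContinuousLinearEquiv.ext (funext fun x => by simp)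
  have h1 := sg_post M0 (M0.symm.trans M)
  have h2 := sg_post (L.trans M0) (M0.symm.trans M)
  rw [← e] at h1
  rw [show (L.trans M0).trans (M0.symm.trans M) = L.trans M from
    ContinuousLinearEquiv.ext (funext fun x => by simp)] at h2
  rw [h1, h2]
  linear_combination (-(sg (L.trans M0) * sdet (M0.symm.trans M))) * sg_mul_self M0

theorem hdeg1_post (L : F ≃L[ℝ] G) (M0 M : E ≃L[ℝ] F) :
    sg (M.trans L) = sg (M0.trans L) * sg M0 * sg M := by
  have e : M = (M.trans M0.symm).trans M0 := ContinuousLinearEquiv.ext (funext fun x => by simp)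
  have h1 := sg_pre (M.trans M0.symm) M0
  have h2 := sg_pre (M.trans M0.symm) (M0.trans L)
  rw [← e] at h1
  rw [show (M.trans M0.symm).trans (M0.trans L) = M.trans L from
    ContinuousLinearEquiv.ext (funext fun x => by simp)] at h2
  rw [h1, h2]
  linear_combination (-(sg (M0.trans L) * sdet (M.trans M0.symm))) * sg_mul_self M0

omit [FiniteDimensional ℝ E] [FiniteDimensional ℝ G] in
theorem hdeg1_front (L : G ≃L[ℝ] E) (b : E) (O : Set E) :
    frontier ((fun x => L x + b) ⁻¹' O) = (fun x => L x + b) ⁻¹' frontier O :=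
  ((L.toHomeomorph.trans (Homeomorph.addRight b)).preimage_frontier O).symm

omit [FiniteDimensional ℝ E] [FiniteDimensional ℝ G] [NormedSpace ℝ F] [FiniteDimensional ℝ F] in
theorem hdeg1_adm (L : G ≃L[ℝ] E) (b : E) {O : Set E} {u : E → F} (hu : Adm O u) :
    Adm ((fun x => L x + b) ⁻¹' O) (fun x => u (L x + b)) := by
  have hc := hu.2.2.1
  refine ⟨hu.1.preimage (by fun_prop), ?_, by fun_prop, fun x hx => hu.2.2.2 _ ?_⟩
  · exact L.antilipschitz.isBounded_preimage
      ((Isometry.antilipschitz (isometry_add_right b)).isBounded_preimage hu.2.1)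
  · rwa [hdeg1_front] at hx

theorem deg_domain_eq (L : G ≃L[ℝ] E) (b : E) (M0 : E ≃L[ℝ] F) {O : Set E} {u : E → F}
    (hu : Adm O u) : Adm ((fun x => L x + b) ⁻¹' O) (fun x => u (L x + b)) ∧
      deg ((fun x => L x + b) ⁻¹' O) (fun x => u (L x + b)) =
        sg (L.trans M0) * sg M0 * deg O u := by
  classical
  refine ⟨hdeg1_adm L b hu, ?_⟩
  have h' : Module.finrank ℝ G = Module.finrank ℝ F := (L.trans M0).toLinearEquiv.finrank_eq
  obtain ⟨v, S, M, hv, e, hf, hd⟩ := deg_ind M0.toLinearEquiv.finrank_eq hu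
  have av := hdeg1_adm L b hv
  have k : ∀ z, L (L.symm (z - b)) + b = z := fun z => by simp
  rw [deg_eqOn h' (hdeg1_adm L b hu) av.2.2.1 fun x hx => (e _ (by
      rw [hdeg1_front, hu.1.frontier_eq] at hx
      exact hx.2)).symm,
    deg_sum h' av (S := S.image fun z => L.symm (z - b)) (M := fun y => L.trans (M (L y + b)))
      ⟨fun y hy => ?_, fun y hy h0 => Finset.mem_image.2 ⟨_, hf.2.1 _ hy h0, by simp⟩,
        fun y hy => ?_⟩,
    Finset.sum_image fun z _ w _ hzw => by simpa using hzw, hd, Finset.mul_sum]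
  · exact Finset.sum_congr rfl fun z _ => by rw [k, hdeg1_pre L M0]
  · obtain ⟨z, hz, rfl⟩ := Finset.mem_image.1 (Finset.mem_coe.1 hy)
    exact (congrArg (· ∈ O) (k z)).mpr (hf.1 (Finset.mem_coe.2 hz))
  · obtain ⟨z, hz, rfl⟩ := Finset.mem_image.1 hy
    have t : Tendsto (fun x => L x + b) (𝓝 (L.symm (z - b))) (𝓝 z) :=
      Continuous.tendsto' (by fun_prop) _ _ (k z)
    filter_upwards [t.eventually (hf.2.2 z hz)] with x hx
    rw [hx, k, ContinuousLinearEquiv.trans_apply, map_sub L, L.apply_symm_apply]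
    congr 1
    abel

theorem deg_domain_self (h : Module.finrank ℝ E = Module.finrank ℝ F) (L : E ≃L[ℝ] E) (b : E)
    {O : Set E} {u : E → F} (hu : Adm O u) :
    deg ((fun x => L x + b) ⁻¹' O) (fun x => u (L x + b)) = sdet L * deg O u := by
  have M0 : E ≃L[ℝ] F := ContinuousLinearEquiv.ofFinrankEq h
  rw [(deg_domain_eq L b M0 hu).2, sg_pre, mul_assoc (sdet L), sg_mul_self, mul_one]

theorem deg_target_eq (L : F ≃L[ℝ] G) (M0 : E ≃L[ℝ] F) {O : Set E} {u : E → F}
    (hu : Adm O u) : Adm O (fun x => L (u x)) ∧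
      deg O (fun x => L (u x)) = sg (M0.trans L) * sg M0 * deg O u := by
  have ad : ∀ v : E → F, Adm O v → Adm O fun x => L (v x) := fun v hv =>
    ⟨hv.1, hv.2.1, L.continuous.comp hv.2.2.1, fun x hx k => hv.2.2.2 x hx (L.map_eq_zero_iff.1 k)⟩
  refine ⟨ad u hu, ?_⟩
  have h' : Module.finrank ℝ E = Module.finrank ℝ G := (M0.trans L).toLinearEquiv.finrank_eq
  obtain ⟨v, S, M, hv, e, hf, hd⟩ := deg_ind M0.toLinearEquiv.finrank_eq hu
  rw [deg_eqOn h' (ad u hu) (ad v hv).2.2.1 fun x hx => congrArg L (e _ (by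
      rw [hu.1.frontier_eq] at hx
      exact hx.2)).symm,
    deg_sum h' (ad v hv) (S := S) (M := fun z => (M z).trans L)
      ⟨hf.1, fun x hx h0 => hf.2.1 x hx (L.map_eq_zero_iff.1 h0),
        fun z hz => (hf.2.2 z hz).fun_comp L⟩, hd, Finset.mul_sum]
  exact Finset.sum_congr rfl fun z _ => hdeg1_post L M0 _

theorem deg_target_self (h : Module.finrank ℝ E = Module.finrank ℝ F) (N : F ≃L[ℝ] F)
    {O : Set E} {u : E → F} (hu : Adm O u) :
    deg O (fun x => N (u x)) = sdet N * deg O u := by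
  have M0 : E ≃L[ℝ] F := ContinuousLinearEquiv.ofFinrankEq h
  rw [(deg_target_eq N M0 hu).2, sg_post, mul_assoc (sdet N), sg_mul_self, mul_one]

end BEp
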