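import Pool.Agent.Work.MP_f0515e_an.Pos.HRL2
import Pool.Agent.Work.MP_f0515e_an.Pos.HDM

-- merged part: Pool.Agent.Work.MP_f0515e_an.Pos.HNat0
section
-- merged part: Pool.Agent.Work.MP_f0515e_an.Pos.HSph
section
/-!
Odd maps of the sphere with equal degrees are oddly homotopic (H5 of the plan).

Plan.  `sph_deg`: `G x = K0 ((max (N1 x) 1)⁻¹ • x, max (N1 x - 1) 0)` is continuous and odd.  Let
`D₂ = {N1 < 2}`, `An± = {1 < N1 < 2, 0 < ± x.2}`.  `G = K0 (·, 0)` on `{N1 ≤ 1}`; on `{N1 = 2}` it is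
`K0 (2⁻¹ • x, 1)`, so `deg D₂ G = deg Dg (K0 (·, 1))` (`deg_congr`, `deg_domain_self` with the homothety, whose
determinant is positive).  Two applications of `deg_add` give
`deg D₂ G = deg Dg G + deg An⁺ G + deg An⁻ G`.  With `L = -1` on the source and on the target
(`deg_domain_self`, `deg_target_self`, `sdet_neg`), `deg An⁻ G = deg An⁺ G`, so both vanish.
`deg_homeo` for `φ (y, s) = (1 + s) • hem y` on `ball 0 1 ×ˢ Ioo 0 1`: injective on the closure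
(`N1 (φ (y, s)) = 1 + s`), image `An⁺`, and `G ∘ φ = K0 (hem y, s)` on the closure.
`sph`: `avoid_odd` on `P = Eqt ×ˢ [0,1] ∪ SgP ×ˢ {0, 1}` relative to `{s = 0 ∨ s = 1}` for
`(1 - s) • u + s • v` (`P \ A ⊆ Eqt ×ˢ [0,1]`), `sph_deg`, `hopf` (`frontier_prod_Ioo`), `hemi_glue` with
`Q = [0,1]`, `Qb = {0, 1}`.
-/

open Set Metric Filter Topology Function BEv
open scoped NNReal

noncomputable section
namespace BEp

variable {Y F : Type} [NormedAddCommGroup Y] [NormedSpace ℝ Y] [FiniteDimensional ℝ Y]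
  [NormedAddCommGroup F] [NormedSpace ℝ F] [FiniteDimensional ℝ F]

set_option linter.unusedSectionVars false

/-- The map on the double disc. -/
def hsph_G (K0 : (Y × ℝ) × ℝ → F) (x : Y × ℝ) : F :=
  K0 ((max (N1 x) 1)⁻¹ • x, max (N1 x - 1) 0)

/-- The upper half of the annulus. -/
def hsph_An (Y : Type) [NormedAddCommGroup Y] : Set (Y × ℝ) :=
  {x | 1 < N1 x ∧ N1 x < 2 ∧ 0 < x.2}

/-- Polar coordinates. -/
def hsph_ph (q : Y × ℝ) : Y × ℝ := (1 + q.2) • hem q.1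

theorem hsph_cont {K0 : (Y × ℝ) × ℝ → F} (hK : Continuous K0) : Continuous (hsph_G K0) :=
  hK.comp ((((n1_cont.max continuous_const).inv₀ fun _ =>
    (lt_max_of_lt_right one_pos).ne').smul continuous_id).prodMk
      ((n1_cont.sub continuous_const).max continuous_const))

theorem hsph_odd {K0 : (Y × ℝ) × ℝ → F} (ho : ∀ x s, K0 (-x, s) = -K0 (x, s)) (x : Y × ℝ) :
    hsph_G K0 (-x) = -hsph_G K0 x := by
  rw [hsph_G, hsph_G, n1_neg, smul_neg, ho]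

theorem hsph_le (K0 : (Y × ℝ) × ℝ → F) {x : Y × ℝ} (h : N1 x ≤ 1) : hsph_G K0 x = K0 (x, 0) := by
  rw [hsph_G, max_eq_right h, max_eq_right (sub_nonpos.2 h), inv_one, one_smul]

theorem hsph_ge (K0 : (Y × ℝ) × ℝ → F) {x : Y × ℝ} (h : 1 ≤ N1 x) :
    hsph_G K0 x = K0 ((N1 x)⁻¹ • x, N1 x - 1) := by
  rw [hsph_G, max_eq_left h, max_eq_left (sub_nonneg.2 h)]

theorem hsph_sg {x : Y × ℝ} (h : 1 ≤ N1 x) : (N1 x)⁻¹ • x ∈ SgP Y := by
  have h0 : 0 < N1 x := one_pos.trans_le h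
  show N1 _ = 1
  rw [n1_smul, abs_of_pos (inv_pos.2 h0), inv_mul_cancel₀ h0.ne']

theorem hsph_cl {q : Y × ℝ} :
    q ∈ closure (ball (0 : Y) 1 ×ˢ Ioo (0 : ℝ) 1) ↔ ‖q.1‖ ≤ 1 ∧ q.2 ∈ Icc (0 : ℝ) 1 := by
  rw [closure_prod_eq, closure_ball _ one_ne_zero, closure_Ioo zero_ne_one, mem_prod,
    mem_closedBall_zero_iff]

theorem hsph_fr {q : Y × ℝ} : q ∈ frontier (ball (0 : Y) 1 ×ˢ Ioo (0 : ℝ) 1) ↔
    (‖q.1‖ ≤ 1 ∧ (q.2 = 0 ∨ q.2 = 1)) ∨ (‖q.1‖ = 1 ∧ q.2 ∈ Icc (0 : ℝ) 1) := by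
  rw [hd2_fr one_pos, closure_ball _ one_ne_zero, frontier_ball _ one_ne_zero,
    mem_closedBall_zero_iff, mem_sphere_zero_iff_norm]

theorem hsph_n1 {q : Y × ℝ} (h : ‖q.1‖ ≤ 1) (h' : 0 ≤ q.2) : N1 (hsph_ph q) = 1 + q.2 := by
  rw [hsph_ph, n1_smul, show N1 (hem q.1) = 1 from hem_mem h, mul_one, abs_of_pos (by linarith)]

theorem hsph_inj : InjOn hsph_ph (closure (ball (0 : Y) 1 ×ˢ Ioo (0 : ℝ) 1)) := by
  intro p hp q hq e
  rw [hsph_cl] at hp hq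
  have e2 : p.2 = q.2 := by
    have := congrArg N1 e
    rw [hsph_n1 hp.1 hp.2.1, hsph_n1 hq.1 hq.2.1] at this
    linarith
  rw [hsph_ph, hsph_ph, e2] at e
  have h0 : 1 + q.2 ≠ 0 := by linarith [hq.2.1]
  have e1 : hem p.1 = hem q.1 := smul_right_injective _ h0 e
  exact Prod.ext (congrArg Prod.fst e1 :) e2

theorem hsph_img : hsph_ph '' (ball (0 : Y) 1 ×ˢ Ioo (0 : ℝ) 1) = hsph_An Y := by
  ext x
  constructor
  · rintro ⟨q, ⟨h1, h2, h3⟩, rfl⟩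
    rw [mem_ball_zero_iff] at h1
    refine ⟨?_, ?_, mul_pos (by linarith) (sub_pos.2 h1)⟩
    all_goals
      rw [hsph_n1 h1.le h2.le]
      linarith
  · rintro ⟨h1, h2, h3⟩
    have h0 : 0 < N1 x := one_pos.trans h1
    have e : N1 x = ‖x.1‖ + x.2 := by rw [N1, abs_of_pos h3]
    have e' : ‖(N1 x)⁻¹ • x.1‖ = ‖x.1‖ / N1 x := by
      rw [norm_smul, Real.norm_of_nonneg (inv_pos.2 h0).le, inv_mul_eq_div]
    refine ⟨((N1 x)⁻¹ • x.1, N1 x - 1), ⟨?_, by linarith, by linarith⟩, ?_⟩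
    · rw [mem_ball_zero_iff, e', div_lt_one h0]
      linarith
    · rw [hsph_ph, add_sub_cancel]
      refine Prod.ext (smul_inv_smul₀ h0.ne' _) ?_
      show N1 x * (1 - ‖(N1 x)⁻¹ • x.1‖) = x.2
      rw [e', mul_sub, mul_div_cancel₀ _ h0.ne']
      linarith

theorem hsph_comp (K0 : (Y × ℝ) × ℝ → F) {q : Y × ℝ} (h : ‖q.1‖ ≤ 1) (h' : 0 ≤ q.2) :
    hsph_G K0 (hsph_ph q) = K0 (hem q.1, q.2) := by
  rw [hsph_ge K0 (by rw [hsph_n1 h h']; linarith), hsph_n1 h h', hsph_ph,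
    inv_smul_smul₀ (by linarith), add_sub_cancel_left]

theorem hsph_adm {K0 : (Y × ℝ) × ℝ → F} (hK : Continuous K0)
    (he : ∀ x ∈ Eqt Y, ∀ s ∈ Icc (0 : ℝ) 1, K0 (x, s) ≠ 0)
    (h0 : ∀ x ∈ SgP Y, K0 (x, 0) ≠ 0) (h1 : ∀ x ∈ SgP Y, K0 (x, 1) ≠ 0) :
    Adm (ball (0 : Y) 1 ×ˢ Ioo (0 : ℝ) 1) (fun q : Y × ℝ => K0 (hem q.1, q.2)) := by
  refine ⟨isOpen_ball.prod isOpen_Ioo, isBounded_ball.prod (isBounded_Ioo 0 1),
    hK.comp ((hem_cont.comp continuous_fst).prodMk continuous_snd), fun q hq => ?_⟩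
  show K0 (hem q.1, q.2) ≠ 0
  rcases hsph_fr.1 hq with ⟨h, e | e⟩ | ⟨h, e⟩
  · exact e ▸ h0 _ (hem_mem h)
  · exact e ▸ h1 _ (hem_mem h)
  · exact he _ (hem_eqt h) _ e

theorem hsph_half : ∃ L : (Y × ℝ) ≃L[ℝ] (Y × ℝ), sdet L = 1 ∧ ∀ x, L x = (2 : ℝ)⁻¹ • x := by
  refine ⟨ContinuousLinearEquiv.equivOfInverse ((2 : ℝ)⁻¹ • ContinuousLinearMap.id ℝ _)
    ((2 : ℝ) • ContinuousLinearMap.id ℝ _) (fun x => smul_inv_smul₀ (two_ne_zero' ℝ) x)
    (fun x => inv_smul_smul₀ (two_ne_zero' ℝ) x), sdet_eq_one.2 ?_, fun _ => rfl⟩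
  show 0 < LinearMap.det ((2 : ℝ)⁻¹ • (LinearMap.id : (Y × ℝ) →ₗ[ℝ] (Y × ℝ)))
  rw [LinearMap.det_smul, LinearMap.det_id]
  positivity

theorem hsph_an (h : Module.finrank ℝ (Y × ℝ) = Module.finrank ℝ F)
    {K0 : (Y × ℝ) × ℝ → F} (hK : Continuous K0) (ho : ∀ x s, K0 (-x, s) = -K0 (x, s))
    (he : ∀ x ∈ Eqt Y, ∀ s ∈ Icc (0 : ℝ) 1, K0 (x, s) ≠ 0)
    (h0 : ∀ x ∈ SgP Y, K0 (x, 0) ≠ 0) (h1 : ∀ x ∈ SgP Y, K0 (x, 1) ≠ 0)
    (hd : deg (Dg Y) (fun x => K0 (x, 0)) = deg (Dg Y) (fun x => K0 (x, 1))) :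
    Adm (hsph_An Y) (hsph_G K0) ∧ deg (hsph_An Y) (hsph_G K0) = 0 := by
  have hG := hsph_cont hK
  have a0 : Adm (Dg Y) fun x => K0 (x, 0) :=
    ⟨dg_open, dg_bdd, hK.comp (continuous_id.prodMk continuous_const),
      fun x hx => h0 x (dg_frontier hx)⟩
  have a1 : Adm (Dg Y) fun x => K0 (x, 1) :=
    ⟨dg_open, dg_bdd, hK.comp (continuous_id.prodMk continuous_const),
      fun x hx => h1 x (dg_frontier hx)⟩
  obtain ⟨L, hL, eL⟩ := hsph_half (Y := Y)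
  have n2 : ∀ x, N1 (L x + 0) = 2⁻¹ * N1 x := fun x => by
    rw [add_zero, eL, n1_smul, abs_of_pos (by norm_num)]
  set D2 := (fun x => L x + 0) ⁻¹' Dg Y with hD2
  have m2 : ∀ x, x ∈ D2 ↔ N1 x < 2 := fun x => by
    show N1 (L x + 0) < 1 ↔ _
    rw [n2]
    constructor <;> intro <;> linarith
  have b2 := hdeg1_adm L 0 a1
  have c2 : EqOn (fun x => K0 (L x + 0, 1)) (hsph_G K0) (frontier D2) := fun x hx => by
    rw [hD2, hdeg1_front] at hx
    have e : N1 (L x + 0) = 1 := dg_frontier hx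
    have e' : N1 x = 2 := by
      rw [n2] at e
      linarith
    rw [hsph_ge K0 (by rw [e']; norm_num), e', ← eL, show (2 : ℝ) - 1 = 1 by norm_num]
    exact congrArg (fun y => K0 (y, 1)) (add_zero _)
  have a2 : Adm D2 (hsph_G K0) := ⟨b2.1, b2.2.1, hG, fun x hx => c2 hx ▸ b2.2.2.2 x hx⟩
  have d2 : deg D2 (hsph_G K0) = deg (Dg Y) fun x => K0 (x, 1) := by
    rw [← deg_congr h b2 hG c2, deg_domain_self h L 0 a1, hL, one_mul]
  set N : (Y × ℝ) ≃L[ℝ] (Y × ℝ) := ContinuousLinearEquiv.neg ℝ with hN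
  set Am := (fun x => N x + 0) ⁻¹' hsph_An Y with hAm
  have mm : ∀ x, x ∈ Am ↔ 1 < N1 x ∧ N1 x < 2 ∧ x.2 < 0 := fun x => by
    show 1 < N1 (-x + 0) ∧ N1 (-x + 0) < 2 ∧ 0 < (-x + 0).2 ↔ _
    rw [add_zero, n1_neg, Prod.snd_neg, neg_pos]
  have op : IsOpen (hsph_An Y) := (isOpen_lt continuous_const n1_cont).inter
    ((isOpen_lt n1_cont continuous_const).inter (isOpen_lt continuous_const continuous_snd))
  have om : IsOpen Am := op.preimage (N.continuous.add continuous_const)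
  obtain ⟨-, a3, d3⟩ := deg_add h a2 dg_open (op.union om)
    (fun x hx => (m2 x).2 (lt_trans hx one_lt_two))
    (fun x hx => (m2 x).2 (hx.elim (fun k => k.2.1) fun k => ((mm x).1 k).2.1))
    (disjoint_left.2 fun x hx hx' => lt_asymm hx (hx'.elim (fun k => k.1) fun k => ((mm x).1 k).1))
    fun x hx hz => by
      rcases lt_trichotomy (N1 x) 1 with k | k | k
      · exact Or.inl k
      · exact absurd hz (hsph_le K0 k.le ▸ h0 x k)
      · rcases lt_trichotomy x.2 0 with k' | k' | k'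
        · exact Or.inr (Or.inr ((mm x).2 ⟨k, (m2 x).1 hx, k'⟩))
        · refine absurd hz (hsph_ge K0 k.le ▸ he _ ?_ _ ⟨by linarith, by linarith [(m2 x).1 hx]⟩)
          have e : ((N1 x)⁻¹ • x).2 = 0 := by rw [Prod.smul_snd, k', smul_zero]
          have e' : N1 _ = 1 := hsph_sg k.le
          rw [N1, e, abs_zero, add_zero] at e'
          exact ⟨e', e⟩
        · exact Or.inr (Or.inl ⟨k, (m2 x).1 hx, k'⟩)
  obtain ⟨a4, a5, d4⟩ := deg_add h a3 op om subset_union_left subset_union_right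
    (disjoint_left.2 fun x hx hx' => lt_asymm hx.2.2 ((mm x).1 hx').2.2) fun x hx _ => hx
  have d5 : deg (Dg Y) (fun x => K0 (x, 0)) = deg (Dg Y) (hsph_G K0) :=
    deg_congr h a0 hG fun x hx => (hsph_le K0 (le_of_eq (dg_frontier hx))).symm
  have d6 := deg_domain_self h N 0 a4
  have d7 := deg_target_self h (ContinuousLinearEquiv.neg ℝ) a5
  have e6 : (fun x => hsph_G K0 (N x + 0)) = fun x => ContinuousLinearEquiv.neg ℝ (hsph_G K0 x) :=
    funext fun x => by rw [add_zero]; exact hsph_odd ho x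
  rw [e6, ← hAm, d7, hN, sdet_neg, sdet_neg, h] at d6
  have d8 := mul_left_cancel₀ (pow_ne_zero _ (by norm_num)) d6
  exact ⟨a4, by omega⟩

theorem sph_deg (h : Module.finrank ℝ (Y × ℝ) = Module.finrank ℝ F)
    {K0 : (Y × ℝ) × ℝ → F} (hK : Continuous K0) (ho : ∀ x s, K0 (-x, s) = -K0 (x, s))
    (he : ∀ x ∈ Eqt Y, ∀ s ∈ Icc (0 : ℝ) 1, K0 (x, s) ≠ 0)
    (h0 : ∀ x ∈ SgP Y, K0 (x, 0) ≠ 0) (h1 : ∀ x ∈ SgP Y, K0 (x, 1) ≠ 0)
    (hd : deg (Dg Y) (fun x => K0 (x, 0)) = deg (Dg Y) (fun x => K0 (x, 1))) :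
    deg (ball (0 : Y) 1 ×ˢ Ioo (0 : ℝ) 1) (fun q : Y × ℝ => K0 (hem q.1, q.2)) = 0 := by
  obtain ⟨a, d⟩ := hsph_an h hK ho he h0 h1 hd
  have hφ : Continuous (hsph_ph : Y × ℝ → Y × ℝ) :=
    (continuous_const.add continuous_snd).smul (hem_cont.comp continuous_fst)
  have b := hsph_adm hK he h0 h1
  obtain ⟨-, e, -, k⟩ := deg_homeo h rfl b.1 b.2.1
    ((convex_ball (0 : Y) 1).prod (convex_Ioo (0 : ℝ) 1)).isPreconnected hφ hsph_inj
  rw [hsph_img] at k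
  rw [deg_congr h b ((hsph_cont hK).comp hφ) fun q hq => by
    have := hsph_cl.1 (frontier_subset_closure hq)
    exact (hsph_comp K0 this.1 this.2.1).symm]
  exact (k _ a).trans (by rw [d, mul_zero])

theorem sph (h : Module.finrank ℝ (Y × ℝ) = Module.finrank ℝ F) (h3 : 3 ≤ Module.finrank ℝ F)
    {u v : Y × ℝ → F} (hu : Continuous u) (hv : Continuous v) (huo : ∀ x, u (-x) = -u x)
    (hvo : ∀ x, v (-x) = -v x) (hu0 : ∀ x ∈ SgP Y, u x ≠ 0) (hv0 : ∀ x ∈ SgP Y, v x ≠ 0)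
    (hd : deg (Dg Y) u = deg (Dg Y) v) :
    ∃ K : (Y × ℝ) × ℝ → F, Continuous K ∧ (∀ x s, K (-x, s) = -K (x, s)) ∧
      ∀ x ∈ SgP Y, K (x, 0) = u x ∧ K (x, 1) = v x ∧ ∀ s ∈ Icc (0 : ℝ) 1, K (x, s) ≠ 0 := by
  have hY : Module.finrank ℝ Y + 1 = Module.finrank ℝ F := by
    rw [← h, Module.finrank_prod, Module.finrank_self]
  obtain ⟨K0, hK, ho, e0, e1, he⟩ := odd_htp_of_sm (i := Neg.neg) continuous_neg neg_neg
    eqt_compact sm_eqt (fun _ => eqt_neg) (by omega) hu hv huo hvo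
    (fun x hx => hu0 x (eqt_sub hx)) fun x hx => hv0 x (eqt_sub hx)
  have h0 : ∀ x ∈ SgP Y, K0 (x, 0) ≠ 0 := fun x hx => (e0 x).symm ▸ hu0 x hx
  have h1 : ∀ x ∈ SgP Y, K0 (x, 1) ≠ 0 := fun x hx => (e1 x).symm ▸ hv0 x hx
  obtain ⟨w, hw, ew, nw⟩ := hopf h h3 ((convex_ball (0 : Y) 1).prod (convex_Ioo (0 : ℝ) 1))
    (hsph_adm hK he h0 h1) (sph_deg h hK ho he h0 h1 (by simpa only [e0, e1] using hd))
  obtain ⟨K, k1, k2, k3, k4⟩ := hemi_glue (Q := Icc (0 : ℝ) 1) (Qb := {0, 1}) isClosed_Icc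
    (toFinite _).isClosed (by rintro _ (rfl | rfl) <;> simp) hK ho hw
    (fun y hy z hz => nw _ (hsph_cl.2 ⟨hy, hz⟩))
    fun y hy z hz k => ew (hsph_fr.2 (k.symm.imp (fun k => ⟨hy, k⟩) fun k => ⟨k, hz⟩))
  exact ⟨K, k1, k2, fun x hx => ⟨(k4 x hx 0 (Or.inl rfl)).trans (e0 x),
    (k4 x hx 1 (Or.inr rfl)).trans (e1 x), k3 x hx⟩⟩

end BEp
end
end

-- merged part: Pool.Agent.Work.MP_f0515e_an.Pos.HNat0
section
/-!
The antipodal difference of an embedding on a small sphere (H5 of the plan).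

Plan.  `Y = Fin (2 m) → ℝ`; `L : (Y × ℝ) ≃L[ℝ] V m` (`ContinuousLinearEquiv.ofFinrankEq`, composed with a small
homothety) with `c0 + L x ∈ S` whenever `N1 x ≤ 1` (`norm_le_n1`); `N u = N1 (L.symm u)`.
`φ x = f (c0 + L x) - f (c0 - L x)` is odd and nonzero on `SgP`; the homotopy
`f (c0 + L x) - f (c0 - t • L x)` is nonzero on `SgP`, so `deg Dg φ = deg Dg (fun x => f (c0 + L x) - f c0)`, which
by `deg_homeo` (for `x ↦ f (c0 + L x)`, `u y = y - f c0`; `f c0` lies in the open image) and `deg_aff`, `sg_cases` is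
`± 1`.  `deg Dg L = ± 1`.  `deg Dg (-φ) = - deg Dg φ` (`deg_target_self`, odd dimension).  Choose `σ` with
`deg Dg (σ • φ) = deg Dg L`, apply `sph`, and put `K (u, s) = K₀ (L.symm u, s)`.
-/

open Set Metric Filter Topology Function BEv
open scoped NNReal

noncomputable section
namespace BEp

theorem hnat0_L {Y F : Type} [NormedAddCommGroup Y] [NormedSpace ℝ Y] [FiniteDimensional ℝ Y]
    [NormedAddCommGroup F] [NormedSpace ℝ F] [FiniteDimensional ℝ F]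
    (h : Module.finrank ℝ (Y × ℝ) = Module.finrank ℝ F) {S : Set F} {c0 : F} (hc : S ∈ 𝓝 c0) :
    ∃ L : (Y × ℝ) ≃L[ℝ] F, ∀ x, N1 x ≤ 1 → c0 + L x ∈ S := by
  obtain ⟨ρ, hρ, hS⟩ := Metric.nhds_basis_closedBall.mem_iff.1 hc
  let L0 : (Y × ℝ) ≃L[ℝ] F := ContinuousLinearEquiv.ofFinrankEq h
  have h1 : 0 < ‖(L0 : (Y × ℝ) →L[ℝ] F)‖ + 1 := by positivity
  obtain ⟨c, hc0, hc1⟩ : ∃ c : ℝ, 0 < c ∧ c * (‖(L0 : (Y × ℝ) →L[ℝ] F)‖ + 1) = ρ :=
    ⟨ρ / (‖(L0 : (Y × ℝ) →L[ℝ] F)‖ + 1), div_pos hρ h1, div_mul_cancel₀ _ h1.ne'⟩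
  refine ⟨ContinuousLinearEquiv.equivOfInverse (c • (L0 : (Y × ℝ) →L[ℝ] F))
    (c⁻¹ • (L0.symm : F →L[ℝ] (Y × ℝ))) (fun x => by simp [hc0.ne']) (fun x => by simp [hc0.ne']),
    fun x hx => hS ?_⟩
  rw [add_mem_closedBall_iff_norm]
  show ‖c • L0 x‖ ≤ ρ
  have h2 : ‖L0 x‖ ≤ ‖(L0 : (Y × ℝ) →L[ℝ] F)‖ * 1 :=
    (L0 : (Y × ℝ) →L[ℝ] F).le_opNorm_of_le ((norm_le_n1 x).trans hx)
  rw [norm_smul, Real.norm_eq_abs, abs_of_pos hc0, ← hc1]
  exact mul_le_mul_of_nonneg_left (by linarith) hc0.le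

theorem nat_core {m : ℕ} (hm : 1 ≤ m) {S : Set (V m)} {c0 : V m} (hc : S ∈ 𝓝 c0)
    {f : V m → V m} (hf : Continuous f) (hi : InjOn f S) :
    ∃ (σ : ℝ) (N : V m → ℝ) (K : V m × ℝ → V m), (σ = 1 ∨ σ = -1) ∧ Continuous N ∧
      (∀ (t : ℝ) u, N (t • u) = |t| * N u) ∧ (∀ u, u ≠ 0 → 0 < N u) ∧
      (∀ u, N u ≤ 1 → c0 + u ∈ S) ∧ Continuous K ∧ (∀ u s, K (-u, s) = -K (u, s)) ∧
      ∀ u, N u = 1 → K (u, 0) = σ • (f (c0 + u) - f (c0 - u)) ∧ K (u, 1) = u ∧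
        ∀ s ∈ Icc (0 : ℝ) 1, K (u, s) ≠ 0 := by
  have hr : Module.finrank ℝ (V m) = 2 * m + 1 := by simp
  have h : Module.finrank ℝ ((Fin (2 * m) → ℝ) × ℝ) = Module.finrank ℝ (V m) := by simp
  obtain ⟨L, hL⟩ := hnat0_L h hc
  have hinj : ∀ x y, N1 x ≤ 1 → N1 y ≤ 1 → f (c0 + L x) = f (c0 + L y) → x = y :=
    fun x y hx hy e => L.injective (add_left_cancel (hi (hL x hx) (hL y hy) e))
  have hne : ∀ x ∈ SgP (Fin (2 * m) → ℝ), ∀ s ∈ Icc (0 : ℝ) 1,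
      f (c0 + L x) - f (c0 + L ((-s) • x)) ≠ 0 := by
    intro x hx s hs h0
    have hx1 : N1 x = 1 := hx
    have h1 := hinj x ((-s) • x) hx1.le (by
      rw [n1_smul, hx1, abs_neg, abs_of_nonneg hs.1, mul_one]
      exact hs.2) (sub_eq_zero.1 h0)
    have h2 : (1 + s) • x = 0 := by
      rw [add_smul, one_smul]
      rw [neg_smul] at h1
      exact eq_neg_iff_add_eq_zero.1 h1
    rcases smul_eq_zero.1 h2 with h3 | h3
    · linarith [hs.1]
    · have h4 := n1_smul 0 x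
      rw [zero_smul, ← h3, hx1] at h4
      simp at h4
  obtain ⟨φ, hφ⟩ : ∃ φ : (Fin (2 * m) → ℝ) × ℝ → V m,
      ∀ x, φ x = f (c0 + L x) - f (c0 - L x) := ⟨_, fun _ => rfl⟩
  have hφc : Continuous φ := by
    rw [funext hφ]
    fun_prop
  have hφo : ∀ x, φ (-x) = -φ x := fun x => by
    rw [hφ, hφ, map_neg, sub_neg_eq_add, ← sub_eq_add_neg, neg_sub]
  have hφ1 : ∀ x, f (c0 + L x) - f (c0 + L ((-(1 : ℝ)) • x)) = φ x := fun x => by
    rw [hφ, neg_one_smul, map_neg, ← sub_eq_add_neg]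
  obtain ⟨-, hAφ, hd1⟩ := deg_htp h dg_open dg_bdd
    (H := fun q : ((Fin (2 * m) → ℝ) × ℝ) × ℝ => f (c0 + L q.1) - f (c0 + L ((-q.2) • q.1)))
    (by fun_prop) (fun x hx s hs => hne x (dg_frontier hx) s hs)
    (u := fun x => f (c0 + L x) - f c0) (v := φ) (by fun_prop) hφc
    (fun x _ => by simp) (fun x _ => hφ1 x)
  have h0D : (0 : (Fin (2 * m) → ℝ) × ℝ) ∈ Dg (Fin (2 * m) → ℝ) := by
    have h4 := n1_smul 0 (0 : (Fin (2 * m) → ℝ) × ℝ)
    rw [zero_smul, abs_zero, zero_mul] at h4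
    show N1 _ < 1
    rw [h4]
    exact one_pos
  have hψc : Continuous fun x : (Fin (2 * m) → ℝ) × ℝ => f (c0 + L x) := by fun_prop
  obtain ⟨hop, e, he, hde⟩ := deg_homeo (E := V m) (F := V m) rfl h dg_open dg_bdd
    dg_convex.isPreconnected hψc
    (fun x hx y hy k => hinj x y (dg_closure hx) (dg_closure hy) k)
  have hmem : f c0 ∈ (fun x : (Fin (2 * m) → ℝ) × ℝ => f (c0 + L x)) '' Dg (Fin (2 * m) → ℝ) :=
    ⟨0, h0D, by simp⟩
  have hbd : Bornology.IsBounded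
      ((fun x : (Fin (2 * m) → ℝ) × ℝ => f (c0 + L x)) '' Dg (Fin (2 * m) → ℝ)) :=
    (dg_bdd.isCompact_closure.image hψc).isBounded.subset (image_mono subset_closure)
  have hd2 := hde (fun y => y - f c0) ⟨hop, hbd, by fun_prop, fun y hy k => by
    rw [hop.frontier_eq] at hy
    exact hy.2 (sub_eq_zero.1 k ▸ hmem)⟩
  have hd3 := deg_aff (ContinuousLinearEquiv.refl ℝ (V m)) hop hbd hmem
  simp only [ContinuousLinearEquiv.refl_apply] at hd3
  have hd4 : deg (Dg (Fin (2 * m) → ℝ)) φ = 1 ∨ deg (Dg (Fin (2 * m) → ℝ)) φ = -1 := by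
    rw [← hd1, hd2, hd3]
    exact hd2_pm he (sg_cases _)
  have hd5 := deg_aff L dg_open dg_bdd h0D
  simp only [sub_zero] at hd5
  have hd6 := deg_target_self h (ContinuousLinearEquiv.neg ℝ : V m ≃L[ℝ] V m) hAφ
  rw [sdet_neg, hr, pow_succ, pow_mul] at hd6
  obtain ⟨σ, hσ, hdσ⟩ : ∃ σ : ℝ, (σ = 1 ∨ σ = -1) ∧
      deg (Dg (Fin (2 * m) → ℝ)) (fun x => σ • φ x) = deg (Dg (Fin (2 * m) → ℝ)) fun x => L x := by
    by_cases k : deg (Dg (Fin (2 * m) → ℝ)) φ = sg L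
    · exact ⟨1, Or.inl rfl, by simpa only [one_smul, hd5] using k⟩
    · refine ⟨-1, Or.inr rfl, ?_⟩
      simp only [ContinuousLinearEquiv.neg_apply] at hd6
      simp only [neg_one_smul, hd5, hd6, neg_one_sq, one_pow]
      have := sg_cases L
      omega
  have hσ0 : σ ≠ 0 := by
    rcases hσ with k | k <;> rw [k] <;> norm_num
  obtain ⟨K, hK, hKo, hKs⟩ := sph h (by rw [hr]; omega) (u := fun x => σ • φ x) (v := fun x => L x)
    (hφc.const_smul σ) L.continuous (fun x => by rw [hφo, smul_neg]) (fun x => map_neg _ _)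
    (fun x hx => smul_ne_zero hσ0 (hφ1 x ▸ hne x hx 1 ⟨zero_le_one, le_rfl⟩))
    (fun x hx k => by
      have h1 : x = 0 := L.injective (k.trans (map_zero _).symm)
      have h2 : N1 x = 1 := hx
      have h3 : N1 x < 1 := h1 ▸ h0D
      exact h3.ne h2) hdσ
  refine ⟨σ, fun u => N1 (L.symm u), fun q => K (L.symm q.1, q.2), hσ,
    n1_cont.comp L.symm.continuous, fun t u => by simp only [map_smul, n1_smul],
    fun u hu => n1_pos fun k => hu (L.symm.injective (k.trans (map_zero _).symm)),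
    fun u hu => by simpa using hL _ hu, by fun_prop, fun u s => by simp only [map_neg, hKo],
    fun u hu => ?_⟩
  obtain ⟨k1, k2, k3⟩ := hKs (L.symm u) hu
  refine ⟨?_, ?_, k3⟩
  · simp only [k1, hφ, ContinuousLinearEquiv.apply_symm_apply]
  · simp only [k2, ContinuousLinearEquiv.apply_symm_apply]

end BEp
end
end
end

-- merged part: Pool.Agent.Work.MP_f0515e_an.Pos.HNat
section
/-!
EXPORT (HOM). The difference map of an embedding of a star-shaped set: H5 of the plan.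

Plan.  Take the data of `nat_core`, `δ > 0` with `closedBall c0 δ ⊆ S` and `N ≤ 1` on `closedBall 0 δ`; for a
given `D` take `0 < lam ≤ 1` with `lam * ‖x - c0‖ ≤ δ` for both points of every pair of `D`, put
`u p = (lam / 2) • (p.1 - p.2)` (so `‖u p‖ ≤ δ`), `μ > 0` a lower bound of `N (u p)` on `D`,
`n p = max μ (N (u p))` (even, continuous, positive).  Concatenate with `OH.cat` the five odd homotopies
(each `σ •` a difference of values of `f` at two distinct points of `S` for the first three):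
1. points `c0 + (1 - s + s lam) • (x - c0)`, same for `y` (star-shaped);
2. points `a ± u p`, `a = c0 + ((1 - s) lam) • ((1/2) • (x + y) - c0)` (convex combinations in `closedBall c0 δ`);
3. points `c0 ± (1 - s + s / n p) • u p` (`N ≤ 1`);
4. `K ((n p)⁻¹ • u p, s)`;
5. `((1 - s) * (lam / (2 * n p)) + s) • (x - y)`.
-/

open Set Metric Filter Topology Function BEv
open scoped NNReal

noncomputable section
namespace BEp

section
variable {E F : Type} [NormedAddCommGroup E] [NormedSpace ℝ E] [NormedAddCommGroup F]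
  [NormedSpace ℝ F]

theorem HNat_trans [FiniteDimensional ℝ E] [FiniteDimensional ℝ F] {D : Set (E × E)}
    {F0 F1 F2 : E × E → F} (h : ∃ H, OH D F0 F1 H)
    (k : ∃ H, OH D F1 F2 H) : ∃ H, OH D F0 F2 H := by
  obtain ⟨H, h⟩ := h
  obtain ⟨K, k⟩ := k
  exact ⟨_, h.cat k⟩

omit [NormedSpace ℝ E] [NormedSpace ℝ F] in
theorem HNat_pts {D : Set (E × E)} (hD : Symm D) {S : Set E} {g : E → F} (hg : Continuous g)
    (hi : InjOn g S) (P : (E × E) × ℝ → E) (hP : Continuous P)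
    (h1 : ∀ p ∈ D, ∀ s ∈ Icc (0 : ℝ) 1, P (p, s) ∈ S)
    (h2 : ∀ p ∈ D, ∀ s ∈ Icc (0 : ℝ) 1, P (p, s) - P (p.swap, s) ≠ 0) {F0 F1 : E × E → F}
    (e0 : ∀ p ∈ D, g (P (p, 0)) - g (P (p.swap, 0)) = F0 p)
    (e1 : ∀ p ∈ D, g (P (p, 1)) - g (P (p.swap, 1)) = F1 p) : ∃ H, OH D F0 F1 H :=
  ⟨fun q => g (P q) - g (P (q.1.swap, q.2)), by fun_prop, fun p s => by simp,
    fun p hp s hs e => h2 p hp s hs
      (sub_eq_zero.2 (hi (h1 p hp s hs) (h1 _ (hD p hp) s hs) (sub_eq_zero.1 e))), e0, e1⟩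

end

theorem nat_htp {m : ℕ} (hm : 1 ≤ m) {S : Set (V m)} {c0 : V m} (hS : StarConvex ℝ c0 S)
    (hc : S ∈ 𝓝 c0) {f : V m → V m} (hf : Continuous f) (hi : InjOn f S) :
    ∃ σ : ℝ, (σ = 1 ∨ σ = -1) ∧ ∀ D : Set (V m × V m), IsCompact D → Symm D →
      (∀ p ∈ D, p.1 ∈ S ∧ p.2 ∈ S ∧ p.1 ≠ p.2) →
      ∃ H, OH D (tl fun x => σ • f x) (tl id) H := by
  obtain ⟨σ, N, K, hσ, N1, N2, N3, N4, K1, K2, K3⟩ := nat_core hm hc hf hi
  refine ⟨σ, hσ, fun D hD hsD hp => ?_⟩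
  have σ0 : σ ≠ 0 := by rcases hσ with rfl | rfl <;> norm_num
  have N0 : N 0 = 0 := by simpa using N2 0 0
  have Nn : ∀ v, N (-v) = N v := fun v => by simpa using N2 (-1) v
  obtain ⟨δ, δ0, δ1, hδ⟩ : ∃ δ : ℝ, 0 < δ ∧ δ ≤ 1 ∧ ∀ v, ‖v‖ ≤ δ → N v ≤ 1 := by
    have h1 : ∀ᶠ v in 𝓝 (0 : V m), N v ≤ 1 :=
      N1.continuousAt.eventually_le_const (by rw [N0]; exact one_pos)
    obtain ⟨r, hr, h2⟩ := Metric.nhds_basis_closedBall.eventually_iff.1 h1
    exact ⟨min r 1, lt_min hr one_pos, min_le_right _ _, fun v hv =>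
      h2 (mem_closedBall_zero_iff.2 (hv.trans (min_le_left _ _)))⟩
  obtain ⟨lam, l0, l1, hl⟩ : ∃ lam : ℝ, 0 < lam ∧ lam ≤ 1 ∧ ∀ p ∈ D, ‖lam • (p.1 - c0)‖ ≤ δ := by
    obtain ⟨M, hM⟩ := hD.exists_bound_of_continuousOn (f := fun p => p.1 - c0) (by fun_prop)
    have h1 : 0 < |M| + 1 := by positivity
    refine ⟨δ / (|M| + 1), div_pos δ0 h1, ?_, fun p hp => ?_⟩
    · rw [div_le_one h1]
      linarith [abs_nonneg M]
    · rw [norm_smul, Real.norm_of_nonneg (div_pos δ0 h1).le, div_mul_eq_mul_div, div_le_iff₀ h1]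
      exact mul_le_mul_of_nonneg_left (by linarith [hM p hp, le_abs_self M]) δ0.le
  obtain ⟨u, hu⟩ : ∃ u : V m × V m → V m, u = fun p => (lam / 2) • (p.1 - p.2) := ⟨_, rfl⟩
  have uc : Continuous u := by rw [hu]; fun_prop
  have us : ∀ p, u p.swap = -u p := fun p => by
    simp only [hu, Prod.fst_swap, Prod.snd_swap]
    module
  have ne : ∀ p ∈ D, p.1 - p.2 ≠ 0 := fun p h => sub_ne_zero.2 (hp p h).2.2
  have u0 : ∀ p ∈ D, u p ≠ 0 := fun p h => by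
    rw [hu]
    exact smul_ne_zero (half_pos l0).ne' (ne p h)
  have uδ : ∀ p ∈ D, ‖u p‖ ≤ δ := fun p h => by
    have e : u p = (1 / 2 : ℝ) • (lam • (p.1 - c0) - lam • (p.swap.1 - c0)) := by
      simp only [hu, Prod.fst_swap]
      module
    have h1 := norm_sub_le (lam • (p.1 - c0)) (lam • (p.swap.1 - c0))
    rw [e, norm_smul, Real.norm_of_nonneg (by norm_num)]
    linarith [hl p h, hl _ (hsD p h)]
  obtain ⟨μ, μ0, hμ⟩ := hD.exists_forall_le' (f := fun p => N (u p)) (by fun_prop)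
    (a := 0) fun p h => N3 _ (u0 p h)
  obtain ⟨n, hn⟩ : ∃ n : V m × V m → ℝ, n = fun p => (max μ (N (u p)))⁻¹ := ⟨_, rfl⟩
  have n0 : ∀ p, 0 < n p := fun p => by
    rw [hn]
    exact inv_pos.2 (lt_max_of_lt_left μ0)
  have nc : Continuous n := by
    rw [hn]
    exact Continuous.inv₀ (by fun_prop) fun p => (lt_max_of_lt_left μ0).ne'
  have ns : ∀ p, n p.swap = n p := fun p => by simp only [hn, us, Nn]
  have n1 : ∀ p ∈ D, n p * N (u p) = 1 := fun p h => by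
    simp only [hn]
    rw [max_eq_right (hμ p h), inv_mul_cancel₀ (N3 _ (u0 p h)).ne']
  have gc : Continuous fun x => σ • f x := by fun_prop
  have gi : InjOn (fun x => σ • f x) S := fun x hx y hy e => hi hx hy (smul_right_injective _ σ0 e)
  have pos : ∀ a : ℝ, 0 < a → ∀ s ∈ Icc (0 : ℝ) 1, 0 < 1 - s + s * a := fun a ha s hs => by
    rcases hs.1.eq_or_lt with h | h
    · simp [← h]
    · linarith [mul_pos h ha, hs.2]
  have H1 : ∃ H, OH D (tl fun x => σ • f x)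
      (fun p => σ • f (c0 + lam • (p.1 - c0)) - σ • f (c0 + lam • (p.2 - c0))) H := by
    refine HNat_pts hsD gc gi (fun q => c0 + (1 - q.2 + q.2 * lam) • (q.1.1 - c0)) (by fun_prop)
      (fun p h s hs => ?_) (fun p h s hs => ?_) (fun p _ => by simp [tl]) fun p _ => by simp
    · exact hS.add_smul_sub_mem (hp p h).1 (pos lam l0 s hs).le (by nlinarith [hs.1])
    · have e : c0 + (1 - s + s * lam) • (p.1 - c0) - (c0 + (1 - s + s * lam) • (p.2 - c0)) =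
          (1 - s + s * lam) • (p.1 - p.2) := by module
      exact e ▸ smul_ne_zero (pos lam l0 s hs).ne' (ne p h)
  have H2 : ∃ H, OH D (fun p => σ • f (c0 + lam • (p.1 - c0)) - σ • f (c0 + lam • (p.2 - c0)))
      (fun p => σ • f (c0 + u p) - σ • f (c0 - u p)) H := by
    refine HNat_pts hsD gc gi (fun q => c0 + ((1 - q.2) • lam • (q.1.1 - c0) + q.2 • u q.1))
      (by fun_prop) (fun p h s hs => N4 _ (hδ _ ?_)) (fun p h s hs => ?_) (fun p _ => by simp)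
      fun p _ => by simp [us, sub_eq_add_neg]
    · refine (norm_add_le _ _).trans ?_
      rw [norm_smul, norm_smul s, Real.norm_of_nonneg (sub_nonneg.2 hs.2), Real.norm_of_nonneg hs.1]
      nlinarith [hl p h, uδ p h, hs.1, hs.2]
    · have e : c0 + ((1 - s) • lam • (p.1 - c0) + s • u p) -
          (c0 + ((1 - s) • lam • (p.2 - c0) + s • u p.swap)) = lam • (p.1 - p.2) := by
        simp only [hu, Prod.fst_swap, Prod.snd_swap]
        module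
      exact e ▸ smul_ne_zero l0.ne' (ne p h)
  have H3 : ∃ H, OH D (fun p => σ • f (c0 + u p) - σ • f (c0 - u p))
      (fun p => σ • (f (c0 + n p • u p) - f (c0 - n p • u p))) H := by
    refine HNat_pts hsD gc gi (fun q => c0 + (1 - q.2 + q.2 * n q.1) • u q.1)
      (by fun_prop) (fun p h s hs => N4 _ ?_) (fun p h s hs => ?_)
      (fun p _ => by simp [us, sub_eq_add_neg]) fun p _ => by simp [us, ns, sub_eq_add_neg]
    · rw [N2, abs_of_pos (pos _ (n0 p) s hs), add_mul, mul_assoc, n1 p h]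
      nlinarith [hδ _ (uδ p h), hs.2]
    · have e : c0 + (1 - s + s * n p) • u p - (c0 + (1 - s + s * n p.swap) • u p.swap) =
          (2 * (1 - s + s * n p)) • u p := by
        rw [us, ns]
        module
      exact e ▸ smul_ne_zero (mul_pos two_pos (pos _ (n0 p) s hs)).ne' (u0 p h)
  have w1 : ∀ p ∈ D, N (n p • u p) = 1 := fun p h => by rw [N2, abs_of_pos (n0 p), n1 p h]
  have H4 : ∃ H, OH D (fun p => σ • (f (c0 + n p • u p) - f (c0 - n p • u p)))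
      (fun p => n p • u p) H :=
    ⟨fun q => K (n q.1 • u q.1, q.2), by fun_prop, fun p s => by simp only [us, ns, smul_neg, K2],
      fun p h => (K3 _ (w1 p h)).2.2, fun p h => (K3 _ (w1 p h)).1, fun p h => (K3 _ (w1 p h)).2.1⟩
  have H5 : ∃ H, OH D (fun p => n p • u p) (tl id) H := by
    refine ⟨fun q => ((1 - q.2) * (n q.1 * (lam / 2)) + q.2) • (q.1.1 - q.1.2), by fun_prop,
      fun p s => ?_, fun p h s hs => smul_ne_zero ?_ (ne p h), fun p _ => ?_, fun p _ => ?_⟩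
    · simp only [ns, Prod.fst_swap, Prod.snd_swap]
      module
    · have := pos _ (mul_pos (n0 p) (half_pos l0)) (1 - s) ⟨by linarith [hs.2], by linarith [hs.1]⟩
      exact ne_of_gt (by linarith)
    · simp [hu, smul_smul]
    · simp [tl]
  exact HNat_trans H1 (HNat_trans H2 (HNat_trans H3 (HNat_trans H4 H5)))

end BEp
end
end
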