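import Pool.Agent.Work.MP_f0515e_an.Pos.HRL2

-- merged part: Pool.Agent.Work.MP_f0515e_an.Pos.HPar1
section
/-!
Obstruction to filling an odd loop on a sphere of codimension two (H8 of the plan).

Plan.  `good_exists`: `avoid_odd` on `P = (Eqt ×ˢ I) ×ˢ I ∪ ((SgP ×ˢ I) ×ˢ I ∩ A)` relative to
`A = {r = 0 ∨ r = 1 ∨ s = 0 ∨ s = 1}` for `(1 - r) • μ (x, s) + r • β x` (`sm_eqt`; `P \ A ⊆ (Eqt ×ˢ I) ×ˢ I`).
`PGood.adm`: `frontier_prod_Ioo` twice, `frontier_ball`, `hem_eqt`, `hem_mem`.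
`good_zero`: `hopf` on the convex set `OP Y`, then `hemi_glue` with `Z = ℝ × ℝ`, `Q = I ×ˢ I`,
`Qb = Q ∩ {r = 0 ∨ r = 1 ∨ s = 0 ∨ s = 1}`.  `good_cat`: `K = cat K₁ K₂`, `deg_cat`, `cat_left`, `cat_right`,
`cat_ne`, `cat_odd`; note `cat K₁ K₂ ((hem y, r), s)` is `cat` of the two pulled back maps.
`good_rev`: `K = rev K₁`, `deg_rev`.
-/

open Set Metric Filter Topology Function BEv
open scoped NNReal

noncomputable section
namespace BEp

variable {Y F : Type} [NormedAddCommGroup Y] [NormedSpace ℝ Y] [FiniteDimensional ℝ Y]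
  [NormedAddCommGroup F] [NormedSpace ℝ F] [FiniteDimensional ℝ F]

/-- Parameter domain. -/
def OP (Y : Type) [NormedAddCommGroup Y] : Set ((Y × ℝ) × ℝ) :=
  (ball (0 : Y) 1 ×ˢ Ioo (0 : ℝ) 1) ×ˢ Ioo (0 : ℝ) 1

/-- A partial filling `K ((x, r), s)` of the loop `μ (x, s)` based at `β`. -/
structure PFill (β : Y × ℝ → F) (μ : (Y × ℝ) × ℝ → F) (K : ((Y × ℝ) × ℝ) × ℝ → F) : Prop where
  cont : Continuous K
  odd : ∀ x r s, K ((-x, r), s) = -K ((x, r), s)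
  eqt : ∀ x ∈ Eqt Y, ∀ r ∈ Icc (0 : ℝ) 1, ∀ s ∈ Icc (0 : ℝ) 1, K ((x, r), s) ≠ 0
  bd : ∀ x ∈ SgP Y, ∀ t ∈ Icc (0 : ℝ) 1, K ((x, 0), t) = μ (x, t) ∧ K ((x, 1), t) = β x ∧
    K ((x, t), 0) = β x ∧ K ((x, t), 1) = β x ∧ μ (x, t) ≠ 0

/-- The loop `μ` has a partial filling of degree `a`. -/
def PGood (β : Y × ℝ → F) (μ : (Y × ℝ) × ℝ → F) (a : ℤ) : Prop :=
  ∃ K, PFill β μ K ∧
    deg (OP Y) (fun q : (Y × ℝ) × ℝ => K ((hem q.1.1, q.1.2), q.2)) = a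

omit [NormedSpace ℝ Y] [FiniteDimensional ℝ Y] in
theorem hpar1_open : IsOpen (OP Y) := (isOpen_ball.prod isOpen_Ioo).prod isOpen_Ioo

omit [FiniteDimensional ℝ Y] in
theorem hpar1_cl0 {q : Y × ℝ} :
    q ∈ closure (ball (0 : Y) 1 ×ˢ Ioo (0 : ℝ) 1) ↔ ‖q.1‖ ≤ 1 ∧ q.2 ∈ Icc (0 : ℝ) 1 := by
  rw [closure_prod_eq, closure_ball _ one_ne_zero, closure_Ioo zero_ne_one, mem_prod,
    mem_closedBall_zero_iff]

omit [FiniteDimensional ℝ Y] in
theorem hpar1_cl {q : (Y × ℝ) × ℝ} :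
    q ∈ closure (OP Y) ↔ (‖q.1.1‖ ≤ 1 ∧ q.1.2 ∈ Icc (0 : ℝ) 1) ∧ q.2 ∈ Icc (0 : ℝ) 1 := by
  rw [OP, closure_prod_eq, closure_Ioo zero_ne_one, mem_prod, hpar1_cl0]

omit [FiniteDimensional ℝ Y] in
theorem hpar1_fr {q : (Y × ℝ) × ℝ} :
    q ∈ frontier (OP Y) ↔ ((‖q.1.1‖ ≤ 1 ∧ q.1.2 ∈ Icc (0 : ℝ) 1) ∧ q.2 ∈ Icc (0 : ℝ) 1) ∧
      (‖q.1.1‖ = 1 ∨ q.1.2 = 0 ∨ q.1.2 = 1 ∨ q.2 = 0 ∨ q.2 = 1) := by
  rw [hpar1_open.frontier_eq, Set.mem_sdiff, hpar1_cl]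
  refine and_congr_right fun ⟨⟨a, b, c⟩, d, e⟩ => ?_
  simp only [OP, mem_prod, mem_ball_zero_iff, mem_Ioo, lt_iff_le_and_ne, a, b, c, d, e, true_and,
    ne_eq, eq_comm (a := (0 : ℝ))]
  tauto

omit [FiniteDimensional ℝ Y] [FiniteDimensional ℝ F] [NormedSpace ℝ Y] [NormedSpace ℝ F] in
theorem hpar1_b {β : Y × ℝ → F} {μ : (Y × ℝ) × ℝ → F} {K : ((Y × ℝ) × ℝ) × ℝ → F}
    (h : PFill β μ K) {x : Y × ℝ} (hx : x ∈ SgP Y) : μ (x, 0) = β x ∧ μ (x, 1) = β x ∧ β x ≠ 0 := by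
  have h0 := h.bd x hx 0 (left_mem_Icc.2 zero_le_one)
  have h1 := h.bd x hx 1 (right_mem_Icc.2 zero_le_one)
  have e := h0.1.symm.trans h0.2.2.1
  exact ⟨e, h1.1.symm.trans h0.2.2.2.1, e ▸ h0.2.2.2.2⟩

omit [FiniteDimensional ℝ F] in
theorem hpar1_dim (h : Module.finrank ℝ Y + 2 = Module.finrank ℝ F) :
    Module.finrank ℝ ((Y × ℝ) × ℝ) = Module.finrank ℝ F := by
  simp only [Module.finrank_prod, Module.finrank_self, ← h]

theorem PFill.adm {β : Y × ℝ → F} {μ : (Y × ℝ) × ℝ → F} {K : ((Y × ℝ) × ℝ) × ℝ → F}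
    (h : PFill β μ K) : Adm (OP Y) (fun q : (Y × ℝ) × ℝ => K ((hem q.1.1, q.1.2), q.2)) := by
  refine ⟨hpar1_open, (isBounded_ball.prod (isBounded_Ioo _ _)).prod (isBounded_Ioo _ _),
    h.cont.comp ((((hem_cont.comp continuous_fst).prodMk continuous_snd).comp
      continuous_fst).prodMk continuous_snd), ?_⟩
  rintro ⟨⟨y, r⟩, s⟩ hq
  obtain ⟨⟨⟨a, b⟩, c⟩, d⟩ := hpar1_fr.1 hq
  have hx := hem_mem a
  have hb := (hpar1_b h hx).2.2
  rcases d with d | rfl | rfl | rfl | rfl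
  · exact h.eqt _ (hem_eqt d) r b s c
  · exact (h.bd _ hx s c).1.trans_ne (h.bd _ hx s c).2.2.2.2
  · exact (h.bd _ hx s c).2.1.trans_ne hb
  · exact (h.bd _ hx r b).2.2.1.trans_ne hb
  · exact (h.bd _ hx r b).2.2.2.1.trans_ne hb

theorem good_exists (h : Module.finrank ℝ Y + 2 = Module.finrank ℝ F)
    (h3 : 3 ≤ Module.finrank ℝ F) {β : Y × ℝ → F} {μ : (Y × ℝ) × ℝ → F} (hβ : Continuous β)
    (hβo : ∀ x, β (-x) = -β x) (hμ : Continuous μ) (ho : ∀ x s, μ (-x, s) = -μ (x, s))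
    (hne : ∀ x ∈ SgP Y, ∀ s ∈ Icc (0 : ℝ) 1, μ (x, s) ≠ 0)
    (h0 : ∀ x ∈ SgP Y, μ (x, 0) = β x ∧ μ (x, 1) = β x) : ∃ a, PGood β μ a := by
  let i : (((Y × ℝ) × ℝ) × ℝ) →L[ℝ] ((Y × ℝ) × ℝ) × ℝ :=
    ((-ContinuousLinearMap.id ℝ _).prodMap (.id ℝ ℝ)).prodMap (.id ℝ ℝ)
  have hi : ∀ q, i q = ((-q.1.1, q.1.2), q.2) := fun _ => rfl
  have hb : ∀ x ∈ SgP Y, ∀ t ∈ Icc (0 : ℝ) 1,
      (1 - (0 : ℝ)) • μ (x, t) + (0 : ℝ) • β x = μ (x, t) ∧
      (1 - (1 : ℝ)) • μ (x, t) + (1 : ℝ) • β x = β x ∧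
      (1 - t) • μ (x, 0) + t • β x = β x ∧ (1 - t) • μ (x, 1) + t • β x = β x ∧ μ (x, t) ≠ 0 := by
    intro x hx t ht
    rw [(h0 x hx).1, (h0 x hx).2, ← add_smul, sub_add_cancel, one_smul]
    exact ⟨by simp, by simp, rfl, rfl, hne x hx t ht⟩
  obtain ⟨v, h1, h2, h4, -, h5⟩ := avoid_odd i (fun q => by simp [hi])
    (P := (Eqt Y ×ˢ Icc (0 : ℝ) 1) ×ˢ Icc (0 : ℝ) 1)
    (A := {q | q.1.2 = 0 ∨ q.1.2 = 1 ∨ q.2 = 0 ∨ q.2 = 1})
    ((eqt_compact.prod isCompact_Icc).prod isCompact_Icc)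
    (((sm_eqt.prod (Sm.real _)).prod (Sm.real _)).mono Set.sdiff_subset)
    ((isClosed_eq (by fun_prop) continuous_const).union
      ((isClosed_eq (by fun_prop) continuous_const).union
        ((isClosed_eq (by fun_prop) continuous_const).union
          (isClosed_eq (by fun_prop) continuous_const))))
    (fun q hq => ⟨⟨eqt_neg hq.1.1, hq.1.2⟩, hq.2⟩) (fun q hq => hq)
    (fun q hq e => by
      have e1 : q.1.1 = 0 := havoid_neg (congrArg (fun z => z.1.1) e).symm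
      have e2 := hq.1.1.1
      rw [e1] at e2
      simp at e2)
    (isClosed_singleton (x := (0 : F))) (Sm.finite (finite_singleton _))
    (fun y hy => by simpa using hy) (by omega)
    (u := fun q => (1 - q.1.2) • μ (q.1.1, q.2) + q.1.2 • β q.1.1) (by fun_prop)
    (fun q => by simp only [hi, ho, hβo, smul_neg, neg_add])
    (by
      rintro ⟨⟨x, r⟩, s⟩ ⟨a, ⟨b, c⟩, d⟩
      have hx := eqt_sub b
      have e : β x ≠ 0 := (h0 x hx).1 ▸ hne x hx 0 (left_mem_Icc.2 zero_le_one)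
      rcases a with rfl | rfl | rfl | rfl
      · exact (hb x hx s d).1.trans_ne (hne x hx s d)
      · exact (hb x hx s d).2.1.trans_ne e
      · exact (hb x hx r c).2.2.1.trans_ne e
      · exact (hb x hx r c).2.2.2.1.trans_ne e) one_pos
  refine ⟨_, v, ⟨h1, fun x r s => h2 ((x, r), s), fun x hx r hr s hs => h5 _ ⟨⟨hx, hr⟩, hs⟩,
    fun x hx t ht => ?_⟩, rfl⟩
  obtain ⟨a, b, c, d, e⟩ := hb x hx t ht
  exact ⟨(h4 (.inl rfl)).trans a, (h4 (.inr (.inl rfl))).trans b,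
    (h4 (.inr (.inr (.inl rfl)))).trans c, (h4 (.inr (.inr (.inr rfl)))).trans d, e⟩

theorem good_zero (h : Module.finrank ℝ Y + 2 = Module.finrank ℝ F)
    (h3 : 3 ≤ Module.finrank ℝ F) {β : Y × ℝ → F} {μ : (Y × ℝ) × ℝ → F} (g : PGood β μ 0) :
    GFill Neg.neg (SgP Y) μ := by
  obtain ⟨K, hK, hd⟩ := g
  obtain ⟨v, h1, h2, h4⟩ := hopf (hpar1_dim h) h3
    (((convex_ball _ _).prod (convex_Ioo _ _)).prod (convex_Ioo _ _)) hK.adm hd
  have hc := hK.cont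
  obtain ⟨L, l1, l2, l3, l4⟩ := hemi_glue (Z := ℝ × ℝ) (Q := Icc (0 : ℝ) 1 ×ˢ Icc (0 : ℝ) 1)
    (Qb := Icc (0 : ℝ) 1 ×ˢ Icc (0 : ℝ) 1 ∩ {z | z.1 = 0 ∨ z.1 = 1 ∨ z.2 = 0 ∨ z.2 = 1})
    (isClosed_Icc.prod isClosed_Icc) ((isClosed_Icc.prod isClosed_Icc).inter
      ((isClosed_eq (by fun_prop) continuous_const).union
        ((isClosed_eq (by fun_prop) continuous_const).union
          ((isClosed_eq (by fun_prop) continuous_const).union
            (isClosed_eq (by fun_prop) continuous_const))))) inter_subset_left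
    (K0 := fun q => K ((q.1, q.2.1), q.2.2)) (by fun_prop) (fun x z => hK.odd _ _ _)
    (v := fun q => v ((q.1, q.2.1), q.2.2)) (by fun_prop)
    (fun y hy z hz => h4 _ (hpar1_cl.2 ⟨⟨hy, hz.1⟩, hz.2⟩))
    fun y hy z hz e => h2 (hpar1_fr.2 ⟨⟨⟨hy, hz.1⟩, hz.2⟩, e.imp_right fun k => k.2⟩)
  refine ⟨fun q => L (q.1.1, (q.2, q.1.2)), by fun_prop, fun p s r => l2 _ _, fun p hp s hs => ?_⟩
  have z0 : (0 : ℝ) ∈ Icc (0 : ℝ) 1 := left_mem_Icc.2 zero_le_one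
  have z1 : (1 : ℝ) ∈ Icc (0 : ℝ) 1 := right_mem_Icc.2 zero_le_one
  obtain ⟨a, b, c, d, -⟩ := hK.bd p hp s hs
  have e := (hpar1_b hK hp).1.symm
  exact ⟨fun r hr => l3 p hp _ ⟨hr, hs⟩, (l4 p hp _ ⟨⟨z0, hs⟩, .inl rfl⟩).trans a,
    (l4 p hp _ ⟨⟨z1, hs⟩, .inr (.inl rfl)⟩).trans (b.trans e),
    (l4 p hp _ ⟨⟨hs, z0⟩, .inr (.inr (.inl rfl))⟩).trans (c.trans e),
    (l4 p hp _ ⟨⟨hs, z1⟩, .inr (.inr (.inr rfl))⟩).trans (d.trans e)⟩

theorem good_cat (h : Module.finrank ℝ Y + 2 = Module.finrank ℝ F) {β : Y × ℝ → F}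
    {μ μ' : (Y × ℝ) × ℝ → F} {a a' : ℤ} (g : PGood β μ a) (g' : PGood β μ' a') :
    PGood β (cat μ μ') (a + a') := by
  obtain ⟨K, hK, rfl⟩ := g
  obtain ⟨K', hK', rfl⟩ := g'
  have hm : ∀ x ∈ SgP Y, ∀ r ∈ Icc (0 : ℝ) 1, K ((x, r), 1) = K' ((x, r), 0) := fun x hx r hr =>
    (hK.bd x hx r hr).2.2.2.1.trans (hK'.bd x hx r hr).2.2.1.symm
  refine ⟨cat K K', ⟨cat_cont hK.cont hK'.cont, fun x r s => cat_odd (i := fun p => (-p.1, p.2))
    (fun p s => hK.odd _ _ _) (fun p s => hK'.odd _ _ _) (x, r) s,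
    fun x hx r hr => cat_ne (hm x (eqt_sub hx) r hr) (hK.eqt x hx r hr) (hK'.eqt x hx r hr),
    fun x hx t ht => ?_⟩, (deg_cat (hpar1_dim h) hK.adm hK'.adm fun q hq =>
      hm _ (hem_mem (hpar1_cl0.1 hq).1) _ (hpar1_cl0.1 hq).2).2⟩
  have z0 : (0 : ℝ) ∈ Icc (0 : ℝ) 1 := left_mem_Icc.2 zero_le_one
  have m1 : min (2 * t) 1 ∈ Icc (0 : ℝ) 1 :=
    ⟨le_min (by linarith [ht.1]) zero_le_one, min_le_right _ _⟩
  have m2 : max (2 * t - 1) 0 ∈ Icc (0 : ℝ) 1 :=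
    ⟨le_max_right _ _, max_le (by linarith [ht.2]) zero_le_one⟩
  refine ⟨?_, ?_, (cat_zero _ _ _).trans (hK.bd x hx t ht).2.2.1,
    (cat_one (hm x hx t ht)).trans (hK'.bd x hx t ht).2.2.2.1,
    cat_ne ((hpar1_b hK hx).2.1.trans (hpar1_b hK' hx).1.symm)
      (fun s hs => (hK.bd x hx s hs).2.2.2.2) (fun s hs => (hK'.bd x hx s hs).2.2.2.2) t ht⟩
  · simp only [cat, (hK.bd x hx _ m1).1, (hK'.bd x hx _ m2).1, (hK'.bd x hx _ z0).1]
  · simp only [cat, (hK.bd x hx _ m1).2.1, (hK'.bd x hx _ m2).2.1, (hK'.bd x hx _ z0).2.1,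
      add_sub_cancel_right]

theorem good_rev (h : Module.finrank ℝ Y + 2 = Module.finrank ℝ F) {β : Y × ℝ → F}
    {μ : (Y × ℝ) × ℝ → F} {a : ℤ} (g : PGood β μ a) : PGood β (rev μ) (-a) := by
  obtain ⟨K, hK, rfl⟩ := g
  have m : ∀ t ∈ Icc (0 : ℝ) 1, 1 - t ∈ Icc (0 : ℝ) 1 := fun t ht =>
    ⟨by linarith [ht.2], by linarith [ht.1]⟩
  refine ⟨rev K, ⟨hK.cont.comp (by fun_prop), fun x r s => hK.odd _ _ _,
    fun x hx r hr s hs => hK.eqt x hx r hr _ (m s hs), fun x hx t ht => ?_⟩,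
    (deg_rev (hpar1_dim h) hK.adm).2⟩
  obtain ⟨a, b, -, -, c⟩ := hK.bd x hx _ (m t ht)
  obtain ⟨-, -, d, e, -⟩ := hK.bd x hx t ht
  exact ⟨a, b, by simpa [rev] using e, by simpa [rev] using d, c⟩

end BEp
end
end

-- merged part: Pool.Agent.Work.MP_f0515e_an.Pos.HPar2
section
/-!
A loop of rotations with obstruction one (H8 of the plan).

Plan.  `c t = 1 - 8 t (1 - t)`, `σ t = t (1 - t) (1 - 2 t)` have no common zero, `c 0 = c 1 = 1`, `σ 0 = σ 1 = 0`.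
`ρ₀ t ((y, a), b) = ((y, c t * a - σ t * b), σ t * a + c t * b)` on `(Y × ℝ) × ℝ` (build it as
`1 + (c t - 1) • P + σ t • Q` for fixed continuous linear maps `P`, `Q`; injective because
`c² + σ² > 0`, so bijective), `ρ t = Λ ∘ ρ₀ t ∘ Λ⁻¹`.  `K ((x, r), s) = (1 - r) • ρ s (β x) + r • β x`
is `Λ ((x.1, ((1 - r) c s + r) x.2), (1 - r) σ s * x.2)`.  On the frontier of `OP Y` the straight line from
`K ((hem y, r), s)` to the affine isomorphism `Λ ((y, 2 r - 1), 1 - 2 s)` has no zero (first component `y`;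
for `y = 0` check the four sides: `s = 0`, `s = 1`, `r = 1`, and for `r = 0` the last component is
`(1 - 2 s) ((1 - τ) s (1 - s) + τ)`).  `deg_htp` and `deg_aff`, `sg_cases` at the point `((0, 1/2), 1/2)`.
-/

open Set Metric Filter Topology Function BEv
open scoped NNReal

noncomputable section
namespace BEp

variable {Y F : Type} [NormedAddCommGroup Y] [NormedSpace ℝ Y] [FiniteDimensional ℝ Y]
  [NormedAddCommGroup F] [NormedSpace ℝ F] [FiniteDimensional ℝ F]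

/-- A loop of invertible maps. -/
structure GLoop (ρ : ℝ → F →L[ℝ] F) : Prop where
  cont : Continuous ρ
  bij : ∀ t, Bijective (ρ t)
  zero : ρ 0 = 1
  one : ρ 1 = 1

omit [FiniteDimensional ℝ Y] in
theorem hpar2_rot (Λ : ((Y × ℝ) × ℝ) ≃L[ℝ] F) : ∃ ρ : ℝ → F →L[ℝ] F, GLoop ρ ∧
    ∀ t (x : Y × ℝ), ρ t (Λ (x, 0)) =
      Λ ((x.1, (1 - 8 * t * (1 - t)) * x.2), t * (1 - t) * (1 - 2 * t) * x.2) := by
  obtain ⟨P, hP⟩ : ∃ P : F →L[ℝ] F, ∀ y a b, P (Λ ((y, a), b)) = Λ ((0, a), b) :=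
    ⟨(Λ : _ →L[ℝ] F) ∘L (((0 : Y →L[ℝ] Y).prodMap (.id ℝ ℝ)).prodMap (.id ℝ ℝ)) ∘L Λ.symm,
      fun y a b => by simp⟩
  obtain ⟨Q, hQ⟩ : ∃ Q : F →L[ℝ] F, ∀ y a b, Q (Λ ((y, a), b)) = Λ ((0, -b), a) :=
    ⟨(Λ : _ →L[ℝ] F) ∘L (((0 : _ →L[ℝ] Y).prod (-.snd ℝ _ ℝ)).prod
      (.snd ℝ Y ℝ ∘L .fst ℝ _ ℝ)) ∘L Λ.symm, fun y a b => by simp⟩
  obtain ⟨ρ, hρ⟩ : ∃ ρ : ℝ → F →L[ℝ] F,
      ρ = fun t => 1 - (8 * t * (1 - t)) • P + (t * (1 - t) * (1 - 2 * t)) • Q := ⟨_, rfl⟩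
  have h : ∀ t y a b, ρ t (Λ ((y, a), b)) =
      Λ ((y, (1 - 8 * t * (1 - t)) * a - t * (1 - t) * (1 - 2 * t) * b),
        t * (1 - t) * (1 - 2 * t) * a + (1 - 8 * t * (1 - t)) * b) := fun t y a b => by
    simp only [hρ, add_apply, sub_apply, smul_apply, one_apply_eq_self, hP, hQ]
    rw [← map_smul, ← map_smul, ← map_sub, ← map_add]
    congr 1
    ext <;> simp <;> ring
  refine ⟨ρ, ⟨by rw [hρ]; fun_prop, fun t => ?_, by simp [hρ], by simp [hρ]⟩, fun t x => ?_⟩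
  · have : Injective (ρ t : F →ₗ[ℝ] F) := (injective_iff_map_eq_zero _).2 fun z hz => by
      obtain ⟨⟨⟨y, a⟩, b⟩, rfl⟩ := Λ.surjective z
      have hz' := (h t y a b).symm.trans hz
      simp only [map_eq_zero_iff _ Λ.injective, Prod.mk_eq_zero] at hz' ⊢
      obtain ⟨⟨h1, h2⟩, h3⟩ := hz'
      have h4 : (1 - 8 * t * (1 - t)) ^ 2 + (t * (1 - t) * (1 - 2 * t)) ^ 2 ≠ 0 := fun e => by
        obtain ⟨e1, e2⟩ := (add_eq_zero_iff_of_nonneg (sq_nonneg _) (sq_nonneg _)).1 e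
        have e3 := pow_eq_zero_iff two_ne_zero |>.1 e1
        have e4 := pow_eq_zero_iff two_ne_zero |>.1 e2
        have e5 : t = 1 / 2 := by linear_combination -4 * e4 - (1 - 2 * t) / 2 * e3
        rw [e5] at e3
        norm_num at e3
      exact ⟨⟨h1, (mul_eq_zero.1 (by linear_combination (1 - 8 * t * (1 - t)) * h2 +
        t * (1 - t) * (1 - 2 * t) * h3)).resolve_left h4⟩, (mul_eq_zero.1 (by
          linear_combination (1 - 8 * t * (1 - t)) * h3 -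
            t * (1 - t) * (1 - 2 * t) * h2)).resolve_left h4⟩
    exact ⟨this, LinearMap.injective_iff_surjective.1 this⟩
  · simpa using h t x.1 x.2 0



theorem good_rot (Λ : ((Y × ℝ) × ℝ) ≃L[ℝ] F) :
    ∃ (ρ : ℝ → F →L[ℝ] F) (e : ℤ), GLoop ρ ∧ (e = 1 ∨ e = -1) ∧
      PGood (fun x : Y × ℝ => Λ (x, 0)) (fun q => ρ q.2 (Λ (q.1, 0))) e := by
  obtain ⟨ρ, hρ, h⟩ := hpar2_rot Λ
  obtain ⟨M, hM⟩ : ∃ M : ((Y × ℝ) × ℝ) ≃L[ℝ] F, ∀ q : (Y × ℝ) × ℝ,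
      M (q - ((0, 1 / 2), 1 / 2)) = Λ ((q.1.1, 2 * q.1.2 - 1), 1 - 2 * q.2) :=
    ⟨(((ContinuousLinearEquiv.refl ℝ Y).prodCongr (hd2_sc 2 two_ne_zero)).prodCongr
      (hd2_sc (-2) (by norm_num))).trans Λ, fun q => congrArg Λ (by
        ext <;> simp [hd2_sc] <;> ring)⟩
  have hO : IsOpen (OP Y) := (isOpen_ball.prod isOpen_Ioo).prod isOpen_Ioo
  have hb : Bornology.IsBounded (OP Y) :=
    (isBounded_ball.prod (isBounded_Ioo _ _)).prod (isBounded_Ioo _ _)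
  refine ⟨ρ, sg M, hρ, sg_cases M, fun q => Λ ((q.1.1.1,
    ((1 - q.1.2) * (1 - 8 * q.2 * (1 - q.2)) + q.1.2) * q.1.1.2),
      (1 - q.1.2) * (q.2 * (1 - q.2) * (1 - 2 * q.2)) * q.1.1.2),
    ⟨by fun_prop, fun x r s => ?_, fun x hx r _ s _ e => ?_, fun x hx t _ => ?_⟩, ?_⟩
  · rw [← map_neg]
    simp
  · simp only [map_eq_zero_iff _ Λ.injective, Prod.mk_eq_zero] at e
    simpa [e.1.1] using hx.1
  · refine ⟨by simp [h], by simp, by simp, by simp, fun e => ?_⟩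
    have := (hρ.bij t).1 (e.trans (map_zero _).symm)
    simp only [map_eq_zero_iff _ Λ.injective, Prod.mk_eq_zero] at this
    simpa [SgP, N1, this.1] using hx
  · rw [← deg_aff M hO hb (x0 := ((0, 1 / 2), 1 / 2)) (by norm_num [OP])]
    refine (deg_htp Λ.toLinearEquiv.finrank_eq hO hb (H := fun p => Λ ((p.1.1.1,
      (1 - p.2) * (((1 - p.1.1.2) * (1 - 8 * p.1.2 * (1 - p.1.2)) + p.1.1.2) * (1 - ‖p.1.1.1‖)) +
        p.2 * (2 * p.1.1.2 - 1)),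
      (1 - p.2) * ((1 - p.1.1.2) * (p.1.2 * (1 - p.1.2) * (1 - 2 * p.1.2)) * (1 - ‖p.1.1.1‖)) +
        p.2 * (1 - 2 * p.1.2))) (by fun_prop) ?_ (by unfold hem; fun_prop) (by fun_prop)
      (fun q _ => by simp [hem]) fun q _ => by rw [hM]; simp).2.2
    rintro ⟨⟨y, r⟩, s⟩ hq τ hτ e
    simp only [map_eq_zero_iff _ Λ.injective, Prod.mk_eq_zero] at e
    obtain ⟨⟨rfl, e1⟩, e2⟩ := e
    rw [norm_zero, sub_zero, mul_one] at e1 e2
    rcases frontier_prod_Ioo (isOpen_ball.prod isOpen_Ioo) hq with ⟨h1, -⟩ | ⟨-, h1 | h1⟩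
    · rcases frontier_prod_Ioo isOpen_ball h1 with ⟨h2, -⟩ | ⟨-, h2 | h2⟩
      · simpa using frontier_ball_subset_sphere h2
      · obtain rfl : r = 0 := h2
        rcases mul_eq_zero.1 (show (1 - 2 * s) * ((1 - τ) * (s * (1 - s)) + τ) = 0 by
          linear_combination e2) with h3 | h3
        · obtain rfl : s = 1 / 2 := by linarith
          linarith
        · linarith [hτ.1]
      · obtain rfl : r = 1 := h2
        linarith
    · obtain rfl : s = 0 := h1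
      obtain rfl : τ = 0 := by linarith
      linarith
    · obtain rfl : s = 1 := h1
      obtain rfl : τ = 0 := by linarith
      linarith

end BEp
end
end

-- merged part: Pool.Agent.Work.MP_f0515e_an.Pos.HPar3
section
/-!
Every odd loop on a sphere of codimension at least two is fillable after a twist by a loop of
invertible maps (H8 of the plan).

Plan.  `par_based`: strong induction on `a.natAbs`, for all `μ`.  For `a = 0` take `ρ = 1` (`good_zero`).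
Otherwise `good_rot` and `good_rev` give a loop `ρ₁` (`ρ` or `t ↦ ρ (1 - t)`) with degree `- sign a`;
`μ' = cat (ρ₁ β) μ` has degree `a - sign a` (`good_cat`), is continuous and odd, so `ρ₂ μ'` is fillable.  On
`SgP ×ˢ I`, `μ' (x, s) = ρ₁ (min (2 s) 1) (μ (x, max (2 s - 1) 0))`, so `GFill.free` with
`ρ₂ s (ρ₁ ((1 - t) s + t min (2 s) 1) (μ (x, (1 - t) s + t max (2 s - 1) 0)))` fills `(ρ₂ ρ₁) μ`.
`par_model`: `Λ` from `ContinuousLinearEquiv.ofFinrankEq`; `η` from `odd_htp_of_sm` joins `β` to `μ (·, 0)`;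
`C = cat η (cat μ (rev η))` is based at `β` (`good_exists`, `par_based`); `GFill.free` with
`ρ s (C (x, (1 - s) * ((1 - t) / 2) + s * (1 - (1 - t) / 4)))`, which is `ρ μ` on `SgP ×ˢ I` for `t = 0` and `ρ C`
for `t = 1`.  `par`: if `finrank W + 1 < finrank F` take `ρ = 1`, `GFill.of_sm`, `sm_sphere` (an empty sphere
is trivial).  Otherwise `L : (Y × ℝ) ≃L[ℝ] W` with `Y = Fin (finrank F - 2) → ℝ`; radial projections
`π x = (max c ‖L x‖)⁻¹ • L x` and `π' v = (max c (N1 (L.symm v)))⁻¹ • L.symm v` for small `c > 0`; `par_model` for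
`μ (π x, s)`, `GFill.comp` with `π'`, `GFill.congr` (`π (π' v) = v` on the sphere).
-/

open Set Metric Filter Topology Function BEv
open scoped NNReal

noncomputable section
namespace BEp

variable {Y F : Type} [NormedAddCommGroup Y] [NormedSpace ℝ Y] [FiniteDimensional ℝ Y]
  [NormedAddCommGroup F] [NormedSpace ℝ F] [FiniteDimensional ℝ F]

omit [FiniteDimensional ℝ F] in
theorem HPar3_ne {ρ : ℝ → F →L[ℝ] F} (h : GLoop ρ) (t : ℝ) {v : F} (hv : v ≠ 0) : ρ t v ≠ 0 :=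
  fun e => hv ((h.bij t).1 (e.trans (map_zero _).symm))

theorem HPar3_mem {a b t : ℝ} (ha : a ∈ Icc (0 : ℝ) 1) (hb : b ∈ Icc (0 : ℝ) 1)
    (ht : t ∈ Icc (0 : ℝ) 1) : (1 - t) * a + t * b ∈ Icc (0 : ℝ) 1 :=
  convex_Icc (0 : ℝ) 1 ha hb (sub_nonneg.2 ht.2) ht.1 (sub_add_cancel _ _)

theorem par_based (h3 : 3 ≤ Module.finrank ℝ F) (Λ : ((Y × ℝ) × ℝ) ≃L[ℝ] F) (a : ℤ)
    {μ : (Y × ℝ) × ℝ → F} (hμ : Continuous μ) (ho : ∀ x s, μ (-x, s) = -μ (x, s))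
    (g : PGood (fun x : Y × ℝ => Λ (x, 0)) μ a) :
    ∃ ρ : ℝ → F →L[ℝ] F, GLoop ρ ∧ GFill Neg.neg (SgP Y) (fun q => ρ q.2 (μ q)) := by
  have h : Module.finrank ℝ Y + 2 = Module.finrank ℝ F := by
    rw [← Λ.toLinearEquiv.finrank_eq, Module.finrank_prod, Module.finrank_prod, Module.finrank_self]
  obtain ⟨ρ, e, l, he, gr⟩ := good_rot Λ
  induction hn : a.natAbs using Nat.strong_induction_on generalizing a μ with
  | _ n ih =>
  by_cases h0 : a = 0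
  · subst h0
    exact ⟨fun _ => 1, ⟨continuous_const, fun _ => bijective_id, rfl, rfl⟩, good_zero h h3 g⟩
  obtain ⟨ρ₁, e₁, l₁, g₁, lt⟩ : ∃ (ρ₁ : ℝ → F →L[ℝ] F) (e₁ : ℤ), GLoop ρ₁ ∧
      PGood (fun x : Y × ℝ => Λ (x, 0)) (fun q => ρ₁ q.2 (Λ (q.1, 0))) e₁ ∧
      (e₁ + a).natAbs < n := by
    by_cases k : (e + a).natAbs < n
    · exact ⟨ρ, e, l, gr, k⟩
    · exact ⟨fun t => ρ (1 - t), -e, ⟨l.cont.comp (by fun_prop), fun _ => l.bij _,
        by rw [sub_zero, l.one], by rw [sub_self, l.zero]⟩, good_rev h gr, by omega⟩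
  obtain ⟨ρ₂, l₂, f₂⟩ := ih _ lt _ (μ := cat (fun q => ρ₁ q.2 (Λ (q.1, 0))) μ)
    (cat_cont ((l₁.cont.comp continuous_snd).clm_apply (by fun_prop)) hμ)
    (cat_odd (i := Neg.neg) (fun x s => by
      rw [← map_neg, ← map_neg, Prod.neg_mk x, neg_zero]) ho) (good_cat h g₁ g) rfl
  obtain ⟨K, k, -⟩ := g
  have b0 : ∀ x ∈ SgP Y, μ (x, 0) = Λ (x, 0) := fun x hx =>
    (k.bd x hx 0 (by simp)).1.symm.trans (k.bd x hx 0 (by simp)).2.2.1
  have b1 : ∀ x ∈ SgP Y, μ (x, 1) = Λ (x, 0) := fun x hx =>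
    (k.bd x hx 1 (by simp)).1.symm.trans (k.bd x hx 0 (by simp)).2.2.2.1
  refine ⟨fun s => ρ₂ s * ρ₁ s, ⟨l₂.cont.mul l₁.cont, fun s => (l₂.bij s).comp (l₁.bij s),
    by rw [l₂.zero, l₁.zero, one_mul], by rw [l₂.one, l₁.one, one_mul]⟩, ?_⟩
  refine (GFill.free (Λ := fun z => ρ₂ z.1.2 (ρ₁ ((1 - z.2) * z.1.2 + z.2 * min (2 * z.1.2) 1)
    (μ (z.1.1, (1 - z.2) * z.1.2 + z.2 * max (2 * z.1.2 - 1) 0)))) continuous_neg neg_neg
    sg_compact.isClosed (fun _ => sg_neg) ((l₂.cont.comp (by fun_prop)).clm_apply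
      ((l₁.cont.comp (by fun_prop)).clm_apply (hμ.comp (by fun_prop))))
    (fun p _ s _ t _ => by simp only [ho, map_neg]) (fun p hp s hs t ht => HPar3_ne l₂ _
      (HPar3_ne l₁ _ (k.bd p hp _ (HPar3_mem hs ⟨le_max_right _ _,
        max_le (by linarith [hs.2]) zero_le_one⟩ ht)).2.2.2.2)) (fun p hp t _ => ?_)
    (f₂.congr fun p hp s _ => ?_)).congr fun p _ s _ => by simp
  · norm_num [l₁.zero, l₁.one, l₂.zero, l₂.one, b0 p hp, b1 p hp]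
  · simp only [sub_self, zero_mul, one_mul, zero_add]
    congr 1
    rcases le_total s (1 / 2) with c | c
    · rw [cat_left _ _ _ c, min_eq_left (by linarith), max_eq_right (by linarith), b0 p hp]
    · rw [cat_right (by simp [l₁.one, b0 p hp]) c, min_eq_right (by linarith),
        max_eq_left (by linarith), l₁.one, one_apply_eq_self]

theorem par_model (h : Module.finrank ℝ Y + 2 = Module.finrank ℝ F)
    (h3 : 3 ≤ Module.finrank ℝ F) {μ : (Y × ℝ) × ℝ → F} (hμ : Continuous μ)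
    (ho : ∀ x s, μ (-x, s) = -μ (x, s)) (hne : ∀ x ∈ SgP Y, ∀ s ∈ Icc (0 : ℝ) 1, μ (x, s) ≠ 0)
    (hl : ∀ x ∈ SgP Y, μ (x, 1) = μ (x, 0)) :
    ∃ ρ : ℝ → F →L[ℝ] F, GLoop ρ ∧ GFill Neg.neg (SgP Y) (fun q => ρ q.2 (μ q)) := by
  obtain ⟨Λ⟩ : Nonempty (((Y × ℝ) × ℝ) ≃L[ℝ] F) := ⟨ContinuousLinearEquiv.ofFinrankEq (by
    rw [← h, Module.finrank_prod, Module.finrank_prod, Module.finrank_self])⟩
  have bo : ∀ x : Y × ℝ, Λ (-x, 0) = -Λ (x, 0) := fun x => by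
    rw [← map_neg, Prod.neg_mk x, neg_zero]
  obtain ⟨η, e1, e2, e3, e4, e5⟩ := odd_htp_of_sm (u := fun x : Y × ℝ => Λ (x, 0))
    (v := fun x => μ (x, 0)) continuous_neg neg_neg sg_compact sm_sg (fun _ => sg_neg) (by omega)
    (by fun_prop) (by fun_prop) bo (fun x => ho x 0) (fun x hx k => by
      have k1 : x = 0 := congrArg Prod.fst (Λ.map_eq_zero_iff.1 k)
      have k2 : N1 x = 1 := hx
      simp [k1, N1] at k2) fun x hx => hne x hx 0 (by simp)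
  have j1 : ∀ x ∈ SgP Y, μ (x, 1) = rev η (x, 0) := fun x hx => by simp [rev, e4, hl x hx]
  have j2 : ∀ x, η (x, 1) = cat μ (rev η) (x, 0) := fun x => by rw [cat_zero, e4]
  have c1 : Continuous (cat η (cat μ (rev η))) :=
    cat_cont e1 (cat_cont hμ (e1.comp (by fun_prop)))
  have c2 : ∀ x s, cat η (cat μ (rev η)) (-x, s) = -cat η (cat μ (rev η)) (x, s) :=
    cat_odd (i := Neg.neg) e2 (cat_odd (i := Neg.neg) ho fun x s => e2 x _)
  have c3 : ∀ x ∈ SgP Y, ∀ s ∈ Icc (0 : ℝ) 1, cat η (cat μ (rev η)) (x, s) ≠ 0 := fun x hx =>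
    cat_ne (j2 x) (e5 x hx) (cat_ne (j1 x hx) (hne x hx) fun s hs =>
      e5 x hx _ ⟨sub_nonneg.2 hs.2, sub_le_self _ hs.1⟩)
  obtain ⟨a, g⟩ := good_exists h h3 (β := fun x : Y × ℝ => Λ (x, 0)) (by fun_prop) bo c1 c2 c3
    fun x hx => ⟨by rw [cat_zero, e3], by rw [cat_one (j2 x), cat_one (j1 x hx), rev, sub_self, e3]⟩
  obtain ⟨ρ, l, f⟩ := par_based h3 Λ a c1 c2 g
  refine ⟨ρ, l, (GFill.free (Λ := fun z => ρ z.1.2 (cat η (cat μ (rev η))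
    (z.1.1, (1 - z.1.2) * ((1 - z.2) / 2) + z.1.2 * (1 - (1 - z.2) / 4)))) continuous_neg neg_neg
    sg_compact.isClosed (fun _ => sg_neg) ((l.cont.comp (by fun_prop)).clm_apply
      (c1.comp (by fun_prop))) (fun p _ s _ t _ => by simp only [c2, map_neg])
    (fun p hp s hs t ht => HPar3_ne l _ (c3 p hp _ (HPar3_mem
      ⟨by linarith [ht.2], by linarith [ht.1]⟩ ⟨by linarith [ht.1], by linarith [ht.2]⟩ hs)))
    (fun p hp t ht => ?_) (f.congr fun p hp s _ => by simp)).congr fun p hp s hs => ?_⟩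
  · simp only [l.zero, l.one, sub_self, sub_zero, zero_mul, one_mul, zero_add, add_zero]
    rw [cat_right (j2 p) (by linarith [ht.1]), cat_right (j1 p hp) (by linarith [ht.1]),
      cat_left _ _ _ (by linarith [ht.1]), rev]
    congr 3
    ring
  · rw [cat_right (j2 p) (by linarith [hs.1]), cat_left _ _ _ (by linarith [hs.2])]
    congr 3
    ring

theorem par {W : Type} [NormedAddCommGroup W] [NormedSpace ℝ W] [FiniteDimensional ℝ W]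
    (h : Module.finrank ℝ W < Module.finrank ℝ F) (h3 : 3 ≤ Module.finrank ℝ F)
    {μ : W × ℝ → F} (hμ : Continuous μ) (ho : ∀ x s, μ (-x, s) = -μ (x, s))
    (hne : ∀ x ∈ sphere (0 : W) 1, ∀ s ∈ Icc (0 : ℝ) 1, μ (x, s) ≠ 0)
    (hl : ∀ x ∈ sphere (0 : W) 1, μ (x, 1) = μ (x, 0)) :
    ∃ ρ : ℝ → F →L[ℝ] F, GLoop ρ ∧ GFill Neg.neg (sphere (0 : W) 1) (fun q => ρ q.2 (μ q)) := by
  have sn : ∀ x ∈ sphere (0 : W) 1, -x ∈ sphere (0 : W) 1 := fun x hx => by simpa using hx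
  by_cases h1 : Module.finrank ℝ W + 1 < Module.finrank ℝ F
  · exact ⟨fun _ => 1, ⟨continuous_const, fun _ => bijective_id, rfl, rfl⟩,
      GFill.of_sm continuous_neg neg_neg (isCompact_sphere _ _) sm_sphere sn (by omega) hμ ho hne hl⟩
  have hY : Module.finrank ℝ (Fin (Module.finrank ℝ F - 2) → ℝ) + 2 = Module.finrank ℝ F := by
    rw [Module.finrank_fin_fun]
    omega
  obtain ⟨L⟩ : Nonempty (((Fin (Module.finrank ℝ F - 2) → ℝ) × ℝ) ≃L[ℝ] W) :=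
    ⟨ContinuousLinearEquiv.ofFinrankEq (by
      rw [Module.finrank_prod, Module.finrank_self]
      omega)⟩
  obtain ⟨c, c0, hc⟩ := sg_compact.exists_forall_le' (f := fun x => ‖L x‖) (a := 0) (by fun_prop)
    fun x hx => norm_pos_iff.2 fun k => by
      have k2 : N1 x = 1 := hx
      simp [L.map_eq_zero_iff.1 k, N1] at k2
  obtain ⟨d, d0, hd⟩ := (isCompact_sphere (0 : W) 1).exists_forall_le'
    (f := fun v => N1 (L.symm v)) (a := 0) (n1_cont.comp L.symm.continuous).continuousOn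
    fun v hv => n1_pos fun k => by simp [L.symm.map_eq_zero_iff.1 k] at hv
  have m1 : ∀ x ∈ SgP _, (max c ‖L x‖)⁻¹ • L x ∈ sphere (0 : W) 1 := fun x hx => by
    rw [max_eq_right (hc x hx), mem_sphere_zero_iff_norm, norm_smul, norm_inv, norm_norm,
      inv_mul_cancel₀ (c0.trans_le (hc x hx)).ne']
  have m2 : ∀ v ∈ sphere (0 : W) 1, (max d (N1 (L.symm v)))⁻¹ • L.symm v ∈ SgP _ := fun v hv => by
    have k := d0.trans_le (hd v hv)
    change N1 _ = 1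
    rw [max_eq_right (hd v hv), n1_smul, abs_of_pos (inv_pos.2 k), inv_mul_cancel₀ k.ne']
  obtain ⟨ρ, l, f⟩ := par_model hY h3 (μ := fun q => μ ((max c ‖L q.1‖)⁻¹ • L q.1, q.2))
    (hμ.comp (Continuous.prodMk (Continuous.smul (Continuous.inv₀ (by fun_prop) fun q =>
      (c0.trans_le (le_max_left _ _)).ne') (by fun_prop)) continuous_snd))
    (fun x s => by simp only [map_neg, norm_neg, smul_neg, ho])
    (fun x hx => hne _ (m1 x hx)) fun x hx => hl _ (m1 x hx)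
  refine ⟨ρ, l, (f.comp (φ := fun v => (max d (N1 (L.symm v)))⁻¹ • L.symm v)
    (Continuous.smul (Continuous.inv₀ (continuous_const.max (n1_cont.comp L.symm.continuous))
      fun q => (d0.trans_le (le_max_left _ _)).ne') L.symm.continuous)
    (fun v => by simp only [map_neg, n1_neg, smul_neg]) m2).congr fun v hv s _ => ?_⟩
  have k : 0 < (max d (N1 (L.symm v)))⁻¹ := inv_pos.2 (d0.trans_le (le_max_left _ _))
  rw [max_eq_right (hc _ (m2 v hv)), map_smul, L.apply_symm_apply, norm_smul,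
    mem_sphere_zero_iff_norm.1 hv, mul_one, Real.norm_of_nonneg k.le, smul_smul,
    inv_mul_cancel₀ k.ne', one_smul]

end BEp
end
end
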