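import Pool.Agent.Work.MP_f0515e_an.Pos.HRL2
import Pool.Agent.Work.MP_f0515e_an.Pos.HDeg2
import Pool.Agent.Work.MP_f0515e_an.Pos.HGL
import Pool.Agent.Work.MP_f0515e_an.Pos.HNat
import Pool.Agent.Work.MP_f0515e_an.Pos.HPar3

-- merged part: Pool.Agent.Work.MP_f0515e_an.Pos.HSt3
section
-- merged part: Pool.Agent.Work.MP_f0515e_an.Pos.HSt1
section
/-!
Contraction of a skeleton of the complement of the star of a cell (H7 of the plan).

Plan.  `P = {x ∈ Skel a ∩ closedBall 0 R | (x, q) ∈ Del}` is compact, `Sm a`, and contains `w = crn R`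
(`del_iff`, `J` is nonempty).  On `P ×ˢ [0,1]` relative to `A = {t = 0 ∨ t = 1 ∨ x = w}` apply `avoid` to
`(1 - t) • x + t • w` with `Bad = {q}` (`Sm (a + 1)`); call the result `v₁`; `‖v₁ - q‖ ≥ μ > 0` on the compact
set.  Clamp all coordinates to `[-R, R]` (this fixes the ball, and a clamped point equal to `q` was `q`,
because `‖q‖ < R`).  Radial push from `q`: `g x = ‖fun l => max ((x l - q l) / α l) ((q l - x l) / β l)‖` with
`α l = ⌈q l⌉ + 1 - q l`, `β l = q l - ⌊q l⌋ + 1` in `[1, 2]`; `(x, q) ∈ Del ↔ 1 ≤ g x`; `g` is positively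
homogeneous around `q`; `ρ x = q + (max μ' (min (g x) 1))⁻¹ • (x - q)` fixes `{1 ≤ g}`, and sends
`{μ' ≤ g ≤ 1}` to `{g = 1}`, which lies in the ball of radius `R - 1`.  Finally `push` with `d = a + 1` relative
to `A`; `del_inCar`, `InCar.ball`.
-/

open Set Metric Filter Topology Function BEv
open scoped NNReal

noncomputable section
namespace BEp

variable {J : Type} [Fintype J] {F : Type} [NormedAddCommGroup F] [NormedSpace ℝ F]
  [FiniteDimensional ℝ F]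

/-- A corner of the box. -/
def crn (J : Type) (R : ℝ) : J → ℝ := fun _ => R

/-- The gauge of the open star of the cell of `q`. -/
def hst1G (q y : J → ℝ) : ℝ :=
  ‖fun l => max (y l / (⌈q l⌉ + 1 - q l)) (-y l / (q l - ⌊q l⌋ + 1))‖

theorem hst1_pos (s : ℝ) : (0 : ℝ) < ⌈s⌉ + 1 - s ∧ (0 : ℝ) < s - ⌊s⌋ + 1 := by
  have h1 := Int.le_ceil s
  have h2 := Int.floor_le s
  constructor <;> linarith

theorem hst1G_cont (q : J → ℝ) : Continuous (hst1G q) := by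
  unfold hst1G
  fun_prop

theorem hst1G_smul (q y : J → ℝ) {c : ℝ} (hc : 0 ≤ c) : hst1G q (c • y) = c * hst1G q y := by
  unfold hst1G
  rw [← norm_smul_of_nonneg hc]
  congr 1
  funext l
  simp only [Pi.smul_apply, smul_eq_mul]
  rw [mul_max_of_nonneg _ _ hc]
  congr 1 <;> ring

theorem hst1G_pos {q y : J → ℝ} (hy : y ≠ 0) : 0 < hst1G q y := by
  refine norm_pos_iff.2 fun h => hy (funext fun l => ?_)
  have h0 := congrFun h l
  simp only [Pi.zero_apply] at h0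
  obtain ⟨p1, p2⟩ := hst1_pos (q l)
  have h1 := (le_max_left _ _).trans h0.le
  have h2 := (le_max_right _ _).trans h0.le
  rw [div_le_iff₀ p1] at h1
  rw [div_le_iff₀ p2] at h2
  simp only [Pi.zero_apply]
  linarith

theorem hst1G_del {q x : J → ℝ} : 1 ≤ hst1G q (x - q) ↔ (x, q) ∈ Del := by
  rw [del_iff]
  constructor
  · intro h
    by_contra hc
    push Not at hc
    refine absurd h (not_le.2 ((pi_norm_lt_iff one_pos).2 fun l => ?_))
    obtain ⟨p1, p2⟩ := hst1_pos (q l)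
    obtain ⟨k1, k2⟩ := hc l
    simp only [Pi.sub_apply, Real.norm_eq_abs]
    rw [abs_of_nonneg, max_lt_iff, div_lt_one p1, div_lt_one p2]
    · constructor <;> linarith
    · rcases le_total 0 (x l - q l) with k | k
      · exact le_max_of_le_left (div_nonneg k p1.le)
      · exact le_max_of_le_right (div_nonneg (by linarith) p2.le)
  · rintro ⟨l, h⟩
    refine le_trans ?_ (norm_le_pi_norm _ l)
    obtain ⟨p1, p2⟩ := hst1_pos (q l)
    simp only [Pi.sub_apply, Real.norm_eq_abs]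
    refine le_trans ?_ (le_abs_self _)
    rcases h with h | h
    · exact le_max_of_le_right ((one_le_div p2).2 (by linarith))
    · exact le_max_of_le_left ((one_le_div p1).2 (by linarith))

theorem hst1_bd {R : ℕ} {q : J → ℝ} (hq : q ∈ closedBall (0 : J → ℝ) ((R : ℝ) - 3)) (l : J) :
    (⌈q l⌉ : ℝ) + 1 ≤ R ∧ -(R : ℝ) ≤ (⌊q l⌋ : ℝ) - 1 := by
  have h1 := (norm_le_pi_norm q l).trans (mem_closedBall_zero_iff.1 hq)
  rw [Real.norm_eq_abs, abs_le] at h1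
  have h2 := Int.ceil_lt_add_one (q l)
  have h3 := Int.lt_floor_add_one (q l)
  constructor <;> linarith [h1.1, h1.2]

/-- Retraction onto the part of the box off the star of the cell of `q`. -/
theorem hst1_ret {R : ℕ} {q : J → ℝ} (hq : q ∈ closedBall (0 : J → ℝ) ((R : ℝ) - 3)) {μ : ℝ}
    (h0 : 0 < μ) (h1 : μ ≤ 1) :
    ∃ ρ : (J → ℝ) → J → ℝ, Continuous ρ ∧
      (∀ x ∈ closedBall (0 : J → ℝ) R, (x, q) ∈ Del → ρ x = x) ∧
      ∀ x, μ ≤ hst1G q (x - q) → ρ x ∈ closedBall (0 : J → ℝ) R ∧ (ρ x, q) ∈ Del := by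
  have hG := hst1G_cont q
  have hR : (0 : ℝ) ≤ R := Nat.cast_nonneg R
  have hm : ∀ s : ℝ, 0 < max μ s := fun s => lt_max_of_lt_left h0
  obtain ⟨r, hr⟩ : ∃ r : (J → ℝ) → J → ℝ,
      r = fun x => q + (max μ (min (hst1G q (x - q)) 1))⁻¹ • (x - q) := ⟨_, rfl⟩
  have rc : Continuous r := by
    rw [hr]
    refine continuous_const.add (Continuous.smul (Continuous.inv₀ ?_ fun x => (hm _).ne') ?_)
    · fun_prop
    · fun_prop
  refine ⟨fun x l => max (-(R : ℝ)) (min (r x l) R), by fun_prop, fun x hx hd => ?_,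
    fun x hx => ⟨?_, ?_⟩⟩
  · have e : r x = x := by
      rw [hr]
      simp only [min_eq_right (hst1G_del.2 hd), max_eq_right h1, inv_one, one_smul]
      abel
    funext l
    have k := (norm_le_pi_norm x l).trans (mem_closedBall_zero_iff.1 hx)
    rw [Real.norm_eq_abs, abs_le] at k
    simp only [e, min_eq_left k.2, max_eq_right k.1]
  · refine mem_closedBall_zero_iff.2 ((pi_norm_le_iff_of_nonneg hR).2 fun l => ?_)
    rw [Real.norm_eq_abs, abs_le]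
    exact ⟨le_max_left _ _, max_le (by linarith) (min_le_right _ _)⟩
  · have e : (r x, q) ∈ Del := by
      rw [← hst1G_del, hr]
      simp only [add_sub_cancel_left]
      rw [hst1G_smul _ _ (inv_nonneg.2 (hm _).le), inv_mul_eq_div, one_le_div (hm _)]
      exact max_le hx (min_le_left _ _)
    obtain ⟨l, k⟩ := del_iff.1 e
    obtain ⟨b1, b2⟩ := hst1_bd hq l
    refine del_iff.2 ⟨l, k.imp (fun k => ?_) fun k => ?_⟩
    · exact max_le b2 ((min_le_left _ _).trans k)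
    · exact le_max_of_le_right (le_min k b1)

theorem exists_contr {a : ℕ} (ha : a + 1 < Fintype.card J) {R : ℕ} {q : J → ℝ}
    (hq : q ∈ closedBall (0 : J → ℝ) ((R : ℝ) - 3)) (hR : 3 ≤ R) :
    ∃ χ : (J → ℝ) × ℝ → J → ℝ, Continuous χ ∧
      (∀ t ∈ Icc (0 : ℝ) 1, χ (crn J R, t) = crn J R) ∧
      ∀ x ∈ Skel a ∩ closedBall (0 : J → ℝ) R, (x, q) ∈ Del →
        χ (x, 0) = x ∧ χ (x, 1) = crn J R ∧ ∀ t ∈ Icc (0 : ℝ) 1,
          χ (x, t) ∈ Skel (a + 1) ∩ closedBall (0 : J → ℝ) R ∧ (χ (x, t), q) ∈ Del := by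
  obtain ⟨P, hP⟩ : ∃ P : Set (J → ℝ),
      P = (Skel a ∩ closedBall (0 : J → ℝ) R) ∩ {x | (x, q) ∈ Del} := ⟨_, rfl⟩
  have Pc : IsCompact P := by
    rw [hP]
    exact ((isCompact_closedBall _ _).inter_left (skel_closed a)).inter_right
      (del_closed.preimage (continuous_id.prodMk continuous_const))
  have wP : crn J R ∈ P := by
    rw [hP]
    obtain ⟨l⟩ : Nonempty J := Fintype.card_pos_iff.1 (by omega)
    refine ⟨⟨skel_int a fun _ => ⟨R, by simp [crn]⟩, mem_closedBall_zero_iff.2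
      ((pi_norm_le_iff_of_nonneg (Nat.cast_nonneg R)).2 fun _ => by simp [crn])⟩, ?_⟩
    exact del_iff.2 ⟨l, Or.inr (hst1_bd hq l).1⟩
  have Qc : IsCompact (P ×ˢ Icc (0 : ℝ) 1) := Pc.prod isCompact_Icc
  obtain ⟨A, hA⟩ : ∃ A : Set ((J → ℝ) × ℝ),
      A = {p | p.2 = 0} ∪ {p | p.2 = 1} ∪ {p | p.1 = crn J R} := ⟨_, rfl⟩
  have Ac : IsClosed A := by
    rw [hA]
    exact ((isClosed_eq continuous_snd continuous_const).union
      (isClosed_eq continuous_snd continuous_const)).union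
      (isClosed_eq continuous_fst continuous_const)
  have Qs : Sm (a + 1) (P ×ˢ Icc (0 : ℝ) 1 \ A) :=
    (((sm_skel a).mono (by rw [hP]; exact fun x hx => hx.1.1)).prod (Sm.real _)).mono sdiff_subset
  obtain ⟨u, hu⟩ : ∃ u : (J → ℝ) × ℝ → J → ℝ,
      u = fun p => (1 - p.2) • p.1 + p.2 • crn J R := ⟨_, rfl⟩
  have uc : Continuous u := by
    rw [hu]
    fun_prop
  have u0 : ∀ x, u (x, 0) = x := fun x => by simp [hu]
  have u1 : ∀ x, u (x, 1) = crn J R := fun x => by simp [hu]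
  have uw : ∀ t, u (crn J R, t) = crn J R := fun t => by
    simp only [hu, ← add_smul, sub_add_cancel, one_smul]
  have uP : ∀ p ∈ A ∩ P ×ˢ Icc (0 : ℝ) 1, u p ∈ P := by
    rintro ⟨x, t⟩ ⟨h1, h2, -⟩
    rw [hA] at h1
    rcases h1 with (h1 | h1) | h1
    · obtain rfl : t = 0 := h1
      rwa [u0]
    · obtain rfl : t = 1 := h1
      rwa [u1]
    · obtain rfl : x = crn J R := h1
      rwa [uw]
  obtain ⟨v, vc, vA, -, vP⟩ := avoid Qc Qs Ac (Bad := {q}) isClosed_singleton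
    (Sm.finite (finite_singleton q)) (by simpa using ha) uc (fun p hp k => by
      have k1 := uP p hp
      rw [hP, mem_singleton_iff.1 k] at k1
      have k2 := del_one k1.2
      norm_num at k2) one_pos
  obtain ⟨μ, m0, m1⟩ := Qc.exists_forall_le' (f := fun p => hst1G q (v p - q)) (a := 0)
    ((hst1G_cont q).comp (vc.sub continuous_const)).continuousOn
    fun p hp => hst1G_pos (sub_ne_zero.2 (vP p hp))
  obtain ⟨ρ, ρc, ρ1, ρ2⟩ := hst1_ret hq (lt_min m0 one_pos) (min_le_right μ 1)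
  have eA : ∀ p ∈ A ∩ P ×ˢ Icc (0 : ℝ) 1, ρ (v p) = u p := fun p hp => by
    have k := uP p hp
    rw [hP] at k
    rw [vA hp.1, ρ1 _ k.1.2 k.2]
  obtain ⟨χ, χc, χA, χP⟩ := pushP Qc Qs Ac (ρc.comp vc) fun p hp => by
    have k := uP p hp
    rw [hP] at k
    rw [comp_apply, eA p hp]
    exact skel_mono (Nat.le_succ a) k.1.1
  have eB : ∀ p ∈ A ∩ P ×ˢ Icc (0 : ℝ) 1, χ p = u p := fun p hp => (χA hp).trans (eA p hp)
  refine ⟨χ, χc, fun t ht => ?_, fun x hx hd => ?_⟩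
  · rw [eB _ ⟨hA ▸ Or.inr rfl, wP, ht⟩, uw]
  · have xP : x ∈ P := hP ▸ ⟨hx, hd⟩
    refine ⟨?_, ?_, fun t ht => ?_⟩
    · rw [eB _ ⟨hA ▸ Or.inl (Or.inl rfl), xP, left_mem_Icc.2 zero_le_one⟩, u0]
    · rw [eB _ ⟨hA ▸ Or.inl (Or.inr rfl), xP, right_mem_Icc.2 zero_le_one⟩, u1]
    · obtain ⟨k1, k2⟩ := χP (x, t) ⟨xP, ht⟩
      obtain ⟨k3, k4⟩ := ρ2 _ ((min_le_left μ 1).trans (m1 (x, t) ⟨xP, ht⟩))
      exact ⟨⟨k1, k2.ball ⟨R, rfl⟩ k3⟩, del_inCar k4 k2 (InCar.refl q)⟩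

end BEp
end
end

-- merged part: Pool.Agent.Work.MP_f0515e_an.Pos.HSt2
section
/-!
The first step and the step over one cell (H7 of the plan).

Plan.  `st_base`: write `w = crn J R`, `B₀ = closedBall 0 (R - 3)`, `u₀ y = S ((w, y), 0)`,
`u₁ y = S ((w, y), 1)`; `T₀ = cat (fun (y, s) => u₀ ((1 - s) • y)) (cat (fun (y, s) => S ((w, 0), s))
(fun (y, s) => u₁ (s • y)))` is nonzero on `B₀ ×ˢ [0,1]` (`cat_ne`; `‖w - y‖ ≥ 3`) with ends `u₀`, `u₁`.
With `Y = Skel m ∩ B₀`, `avoid` (`Bad = {0}`, `Sm (m + 2)`) on `(Y ×ˢ [0,1]) ×ˢ [0,1]` relative to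
`{s = 0 ∨ s = 1 ∨ r = 0 ∨ r = 1}` for `(1 - r) • T₀ (y, s) + r • S ((w, y), s)` gives `K`; `hep_rel` with
`A = Y ×ˢ [0,1]`, `B = {s = 0 ∨ s = 1}`, `u = T₀`, `h = K` gives `Tw = H (·, 1)`.  `glue2` of `S` on
`{p.1, p.2 ∈ Skel m, p.2 ∈ B₀, s ∈ [0,1]} ∪ {s = 0 ∨ s = 1}` with `Tw` on `{p.1 = w, p.2 ∈ B₀, s ∈ [0,1]}`.
`st_cell`: `χ` from `exists_contr` with `a = 2 m - (d + 1)`; `hep_rel` on `((J → ℝ) × (J → ℝ)) × ℝ` with
`u (p, s) = T ((w, p.2), s)`, `h ((p, s), τ) = T ((χ (p.1, 1 - τ), p.2), s)`, `B = ∅`, `O = {0}ᶜ`,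
`A = {(p, s) | p ∈ YC, s ∈ [0,1], p.2 ∈ Skel d ∨ p.1 = w ∨ s = 0 ∨ s = 1}`; for `p.2 ∈ Skel d` the pair
`(χ .., p.2)` is in `GG m R d` (take `j = d`; `del_inCar`, `InCar.ball`).  `T₁ = H (·, 1)`.
-/

open Set Metric Filter Topology Function BEv
open scoped NNReal

noncomputable section
namespace BEp

variable {J : Type} [Fintype J] {F : Type} [NormedAddCommGroup F] [NormedSpace ℝ F]
  [FiniteDimensional ℝ F]

/-- Domain of the homotopy at level `d`. -/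
def GG (J : Type) [Fintype J] (m : ℕ) (R : ℝ) (d : ℕ) : Set ((J → ℝ) × (J → ℝ)) :=
  {p | p.2 ∈ closedBall (0 : J → ℝ) (R - 3) ∧ (p.1 = crn J R ∨
    (p.1 ∈ closedBall (0 : J → ℝ) R ∧ p ∈ Del ∧
      ∃ j, m ≤ j ∧ j ≤ d ∧ p.2 ∈ Skel j ∧ p.1 ∈ Skel (2 * m - j)))}

/-- Domain attached to the cell of `q`. -/
def YC (m : ℕ) (R : ℝ) (d : ℕ) (q : J → ℝ) : Set ((J → ℝ) × (J → ℝ)) :=
  {p | p.1 ∈ Skel (2 * m - (d + 1)) ∧ p.1 ∈ closedBall (0 : J → ℝ) R ∧ (p.1, q) ∈ Del ∧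
    InCar p.2 q}

theorem gg_closed (m : ℕ) (R : ℝ) (d : ℕ) : IsClosed (GG J m R d) := by
  have h : IsClosed {p : (J → ℝ) × (J → ℝ) |
      ∃ j, m ≤ j ∧ j ≤ d ∧ p.2 ∈ Skel j ∧ p.1 ∈ Skel (2 * m - j)} := by
    have k := (Set.finite_Icc m d).isClosed_biUnion
      (f := fun j => {p : (J → ℝ) × (J → ℝ) | p.2 ∈ Skel j ∧ p.1 ∈ Skel (2 * m - j)})
      fun j _ => ((skel_closed j).preimage continuous_snd).inter
        ((skel_closed _).preimage continuous_fst)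
    convert k using 1
    ext p
    simp only [mem_ofPred_eq, mem_iUnion, mem_Icc, exists_prop, and_assoc]
  exact (isClosed_closedBall.preimage continuous_snd).inter
    ((isClosed_eq continuous_fst continuous_const).union
      ((isClosed_closedBall.preimage continuous_fst).inter (del_closed.inter h)))

theorem yc_closed (m : ℕ) (R : ℝ) (d : ℕ) (q : J → ℝ) : IsClosed (YC m R d q) :=
  ((skel_closed _).preimage continuous_fst).inter
    ((isClosed_closedBall.preimage continuous_fst).inter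
      ((del_closed.preimage (continuous_fst.prodMk continuous_const)).inter
        ((inCar_closed q).preimage continuous_snd)))

/-- Hypotheses on the given homotopy. -/
structure StH (m : ℕ) (R : ℝ) (S : ((J → ℝ) × (J → ℝ)) × ℝ → F) : Prop where
  cont : Continuous S
  ends : ∀ p : (J → ℝ) × (J → ℝ), p.1 ∈ closedBall (0 : J → ℝ) R →
    p.2 ∈ closedBall (0 : J → ℝ) R → p.1 ≠ p.2 → S (p, 0) ≠ 0 ∧ S (p, 1) ≠ 0
  sk : ∀ p : (J → ℝ) × (J → ℝ), p.1 ∈ Skel m ∩ closedBall (0 : J → ℝ) R →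
    p.2 ∈ Skel m ∩ closedBall (0 : J → ℝ) R → 1 ≤ ‖p.1 - p.2‖ →
    ∀ s ∈ Icc (0 : ℝ) 1, S (p, s) ≠ 0

/-- The inductive invariant. -/
structure StI (m : ℕ) (R : ℝ) (S : ((J → ℝ) × (J → ℝ)) × ℝ → F) (d : ℕ)
    (T : ((J → ℝ) × (J → ℝ)) × ℝ → F) : Prop where
  cont : Continuous T
  zero : ∀ p, T (p, 0) = S (p, 0)
  one : ∀ p, T (p, 1) = S (p, 1)
  eq : ∀ p : (J → ℝ) × (J → ℝ), p.1 ∈ Skel m → p.2 ∈ Skel m →
    p.2 ∈ closedBall (0 : J → ℝ) (R - 3) → ∀ s ∈ Icc (0 : ℝ) 1, T (p, s) = S (p, s)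
  ne : ∀ p ∈ GG J m R d, ∀ s ∈ Icc (0 : ℝ) 1, T (p, s) ≠ 0

theorem st2_crn (m R : ℕ) : crn J R ∈ Skel m ∩ closedBall (0 : J → ℝ) R :=
  ⟨skel_int m fun _ => ⟨R, (Int.cast_natCast R).symm⟩, mem_closedBall_zero_iff.2
    ((pi_norm_le_iff_of_nonneg (Nat.cast_nonneg R)).2 fun _ => (Real.norm_natCast R).le)⟩

theorem st2_far [Nonempty J] {R : ℝ} {y : J → ℝ} (hy : y ∈ closedBall (0 : J → ℝ) (R - 3)) :
    1 ≤ ‖crn J R - y‖ := by
  obtain ⟨l⟩ := ‹Nonempty J›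
  have h1 := (le_abs_self _).trans ((norm_le_pi_norm y l).trans (mem_closedBall_zero_iff.1 hy))
  have h2 : R - y l ≤ _ := (le_abs_self _).trans (norm_le_pi_norm (crn J R - y) l)
  linarith

theorem st2_ne {x y : J → ℝ} (h : 1 ≤ ‖x - y‖) : x ≠ y := by
  rintro rfl
  rw [sub_self, norm_zero] at h
  exact absurd h (by norm_num)

theorem st2_sub {R : ℝ} {y : J → ℝ} (hy : y ∈ closedBall (0 : J → ℝ) (R - 3)) :
    y ∈ closedBall (0 : J → ℝ) R := closedBall_subset_closedBall (by linarith) hy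

theorem st2_smul {r t : ℝ} (ht : t ∈ Icc (0 : ℝ) 1) {y : J → ℝ}
    (hy : y ∈ closedBall (0 : J → ℝ) r) : t • y ∈ closedBall (0 : J → ℝ) r := by
  rw [mem_closedBall_zero_iff] at hy ⊢
  rw [norm_smul, Real.norm_of_nonneg ht.1]
  exact (mul_le_of_le_one_left (norm_nonneg y) ht.2).trans hy

/-- Some nonvanishing homotopy over the corner. -/
theorem st2_first [Nonempty J] {m R : ℕ} (hR : 3 ≤ R) {S : ((J → ℝ) × (J → ℝ)) × ℝ → F}
    (hS : StH m R S) : ∃ T : (J → ℝ) × ℝ → F, Continuous T ∧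
      (∀ y, T (y, 0) = S ((crn J R, y), 0)) ∧ (∀ y, T (y, 1) = S ((crn J R, y), 1)) ∧
      ∀ y ∈ closedBall (0 : J → ℝ) ((R : ℝ) - 3), ∀ s ∈ Icc (0 : ℝ) 1, T (y, s) ≠ 0 := by
  have c := hS.cont
  have z : (0 : J → ℝ) ∈ closedBall (0 : J → ℝ) ((R : ℝ) - 3) :=
    mem_closedBall_self (sub_nonneg.2 (by exact_mod_cast hR))
  have en : ∀ y ∈ closedBall (0 : J → ℝ) ((R : ℝ) - 3),
      S ((crn J R, y), 0) ≠ 0 ∧ S ((crn J R, y), 1) ≠ 0 := fun y hy =>
    hS.ends _ (st2_crn m R).2 (st2_sub hy) (st2_ne (st2_far hy))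
  let H1 : (J → ℝ) × ℝ → F := fun x => S ((crn J R, (1 - x.2) • x.1), 0)
  let H2 : (J → ℝ) × ℝ → F := fun x => S ((crn J R, 0), x.2)
  let H3 : (J → ℝ) × ℝ → F := fun x => S ((crn J R, x.2 • x.1), 1)
  have e2 : ∀ y, H2 (y, 1) = H3 (y, 0) := fun y => by simp only [H2, H3, zero_smul]
  have e1 : ∀ y, H1 (y, 1) = cat H2 H3 (y, 0) := fun y => by
    simp only [cat_zero, H1, H2, sub_self, zero_smul]
  refine ⟨cat H1 (cat H2 H3), cat_cont (by fun_prop) (cat_cont (by fun_prop) (by fun_prop)),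
    fun y => ?_, fun y => ?_, fun y hy => cat_ne (e1 y) (fun s hs => ?_)
      (cat_ne (e2 y) (fun s hs => ?_) fun s hs => (en _ (st2_smul hs hy)).2)⟩
  · simp only [cat_zero, H1, sub_zero, one_smul]
  · rw [cat_one (e1 y), cat_one (e2 y)]
    simp only [H3, one_smul]
  · exact (en _ (st2_smul ⟨by linarith [hs.2], by linarith [hs.1]⟩ hy)).1
  · exact hS.sk (crn J R, 0) (st2_crn m R) ⟨skel_int m fun _ => ⟨0, Int.cast_zero.symm⟩, st2_sub z⟩
      (st2_far z) s hs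

/-- The homotopy over the corner that extends the given one. -/
theorem st2_second [Nonempty J] {m : ℕ} (hF : m + 2 < Module.finrank ℝ F) {R : ℕ} (hR : 3 ≤ R)
    {S : ((J → ℝ) × (J → ℝ)) × ℝ → F} (hS : StH m R S) :
    ∃ T : (J → ℝ) × ℝ → F, Continuous T ∧
      (∀ y, T (y, 0) = S ((crn J R, y), 0)) ∧ (∀ y, T (y, 1) = S ((crn J R, y), 1)) ∧
      ∀ y ∈ closedBall (0 : J → ℝ) ((R : ℝ) - 3), ∀ s ∈ Icc (0 : ℝ) 1, T (y, s) ≠ 0 ∧
        (y ∈ Skel m → T (y, s) = S ((crn J R, y), s)) := by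
  obtain ⟨T, cT, t0, t1, tn⟩ := st2_first hR hS
  have c := hS.cont
  let Y : Set (J → ℝ) := Skel m ∩ closedBall (0 : J → ℝ) ((R : ℝ) - 3)
  have cY : IsCompact Y := (isCompact_closedBall _ _).inter_left (skel_closed m)
  let u : ((J → ℝ) × ℝ) × ℝ → F := fun x => (1 - x.2) • T x.1 + x.2 • S ((crn J R, x.1.1), x.1.2)
  have ue : ∀ x : (J → ℝ) × ℝ, x.2 = 0 ∨ x.2 = 1 → ∀ r, u (x, r) = T x := by
    rintro ⟨y, s⟩ (rfl | rfl) r
    · simp only [u, ← t0, ← add_smul, sub_add_cancel, one_smul]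
    · simp only [u, ← t1, ← add_smul, sub_add_cancel, one_smul]
  have u0 : ∀ x, u (x, 0) = T x := fun x => by simp [u]
  have u1 : ∀ x, u (x, 1) = S ((crn J R, x.1), x.2) := fun x => by simp [u]
  have cB : IsClosed {x : (J → ℝ) × ℝ | x.2 = 0 ∨ x.2 = 1} :=
    (isClosed_eq continuous_snd continuous_const).union (isClosed_eq continuous_snd continuous_const)
  obtain ⟨K, cK, eK, -, nK⟩ := avoid (d := m + 1 + 1) (d' := 0)
    (P := (Y ×ˢ Icc (0 : ℝ) 1) ×ˢ Icc (0 : ℝ) 1)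
    (A := {x | (x.1.2 = 0 ∨ x.1.2 = 1) ∨ x.2 = 0 ∨ x.2 = 1}) (Bad := {0}) (u := u)
    ((cY.prod isCompact_Icc).prod isCompact_Icc)
    (((((sm_skel m).mono inter_subset_left).prod (Sm.real _)).prod (Sm.real _)).mono sdiff_subset)
    ((cB.preimage continuous_fst).union ((isClosed_eq continuous_snd continuous_const).union
      (isClosed_eq continuous_snd continuous_const)))
    isClosed_singleton (Sm.finite (finite_singleton _)) hF (by fun_prop) (by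
      rintro ⟨x, r⟩ ⟨h | rfl | rfl, ⟨hy, hs⟩, -⟩
      · rw [ue x h]
        exact tn _ hy.2 _ hs
      · rw [u0]
        exact tn _ hy.2 _ hs
      · rw [u1]
        exact hS.sk (crn J R, x.1) (st2_crn m R) ⟨hy.1, st2_sub hy.2⟩ (st2_far hy.2) _ hs) one_pos
  obtain ⟨H, cH, -, hA, hB, hO⟩ := hep_rel (A := Y ×ˢ Icc (0 : ℝ) 1) (O := {0}ᶜ)
    (cY.isClosed.prod isClosed_Icc) cB isOpen_compl_singleton cT cK
    (fun x _ => (eK (Or.inr (Or.inl rfl))).trans (u0 x)) (fun x hx s hs => nK _ ⟨hx, hs⟩)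
    fun x hx s _ => (eK (x := (x, s)) (Or.inl hx.2)).trans (ue x hx.2 s)
  have i1 : (1 : ℝ) ∈ Icc (0 : ℝ) 1 := right_mem_Icc.2 zero_le_one
  exact ⟨fun x => H (x, 1), by fun_prop, fun y => (hB _ (Or.inl rfl) 1).trans (t0 y),
    fun y => (hB _ (Or.inr rfl) 1).trans (t1 y), fun y hy s hs => ⟨hO _ (tn y hy s hs) 1 i1,
      fun k => (hA (y, s) ⟨⟨k, hy⟩, hs⟩ 1 i1).trans ((eK (Or.inr (Or.inr rfl))).trans (u1 _))⟩⟩

theorem st_base {m : ℕ} (hm : 2 ≤ m) (hJ : m < Fintype.card J)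
    (hF : 2 * m < Module.finrank ℝ F) {R : ℕ} (hR : 3 ≤ R)
    {S : ((J → ℝ) × (J → ℝ)) × ℝ → F} (hS : StH m R S) : ∃ T, StI m R S m T := by
  have : Nonempty J := Fintype.card_pos_iff.1 (by omega)
  obtain ⟨T, cT, t0, t1, tn⟩ := st2_second (show m + 2 < Module.finrank ℝ F by omega) hR hS
  have cb : IsClosed {x : ((J → ℝ) × (J → ℝ)) × ℝ |
      x.1.2 ∈ closedBall (0 : J → ℝ) ((R : ℝ) - 3) ∧ x.2 ∈ Icc (0 : ℝ) 1} :=
    (isClosed_closedBall.preimage continuous_fst.snd).inter (isClosed_Icc.preimage continuous_snd)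
  have cA : IsClosed {x : ((J → ℝ) × (J → ℝ)) × ℝ | (x.1.1 ∈ Skel m ∧ x.1.2 ∈ Skel m ∧
      x.1.2 ∈ closedBall (0 : J → ℝ) ((R : ℝ) - 3) ∧ x.2 ∈ Icc (0 : ℝ) 1) ∨ x.2 = 0 ∨ x.2 = 1} :=
    (((skel_closed m).preimage continuous_fst.fst).inter
      (((skel_closed m).preimage continuous_fst.snd).inter cb)).union
      ((isClosed_eq continuous_snd continuous_const).union
        (isClosed_eq continuous_snd continuous_const))
  have cB : IsClosed {x : ((J → ℝ) × (J → ℝ)) × ℝ | x.1.1 = crn J R ∧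
      x.1.2 ∈ closedBall (0 : J → ℝ) ((R : ℝ) - 3) ∧ x.2 ∈ Icc (0 : ℝ) 1} :=
    (isClosed_eq continuous_fst.fst continuous_const).inter cb
  have cv : Continuous fun x : ((J → ℝ) × (J → ℝ)) × ℝ => T (x.1.2, x.2) := by fun_prop
  obtain ⟨g, cg, gA, gB⟩ := glue2 cA cB hS.cont cv (by
    rintro ⟨⟨x, y⟩, s⟩ ⟨h, e, hy, hs⟩
    obtain rfl : x = crn J R := e
    rcases h with h | h | h
    · exact ((tn y hy s hs).2 h.2.1).symm
    · obtain rfl : s = 0 := h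
      exact (t0 y).symm
    · obtain rfl : s = 1 := h
      exact (t1 y).symm)
  refine ⟨g, cg, fun p => gA (x := (p, 0)) (Or.inr (Or.inl rfl)),
    fun p => gA (x := (p, 1)) (Or.inr (Or.inr rfl)),
    fun p h1 h2 h3 s hs => gA (x := (p, s)) (Or.inl ⟨h1, h2, h3, hs⟩), ?_⟩
  rintro p ⟨hy, h | ⟨h1, h2, j, j1, j2, h3, h4⟩⟩ s hs
  · rw [gB (x := (p, s)) ⟨h, hy, hs⟩]
    exact (tn _ hy s hs).1
  · have a := skel_mono j2 h3
    have b := skel_mono (show 2 * m - j ≤ m by omega) h4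
    rw [gA (x := (p, s)) (Or.inl ⟨b, a, hy, hs⟩)]
    exact hS.sk p ⟨b, h1⟩ ⟨a, st2_sub hy⟩ (del_one (x := p.1) (y := p.2) h2) s hs

theorem st_cell {m : ℕ} (hJ : m < Fintype.card J) {R : ℕ} (hR : 3 ≤ R)
    {S T : ((J → ℝ) × (J → ℝ)) × ℝ → F} (hS : StH m R S) {d : ℕ} (hd : m ≤ d)
    (hd' : d + 1 ≤ 2 * m) (hT : StI m R S d T) {q : J → ℝ}
    (hq : q ∈ closedBall (0 : J → ℝ) ((R : ℝ) - 3)) :
    ∃ T1 : ((J → ℝ) × (J → ℝ)) × ℝ → F, Continuous T1 ∧ ∀ p ∈ YC m R d q,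
      ∀ s ∈ Icc (0 : ℝ) 1, T1 (p, s) ≠ 0 ∧
        (p.2 ∈ Skel d ∨ p.1 = crn J R ∨ s = 0 ∨ s = 1 → T1 (p, s) = T (p, s)) := by
  obtain ⟨χ, cχ, cw, hχ⟩ := exists_contr (a := 2 * m - (d + 1)) (by omega) hq hR
  have cT := hT.cont
  have yb : ∀ p ∈ YC m R d q, p.2 ∈ closedBall (0 : J → ℝ) ((R : ℝ) - 3) := fun p hp =>
    hp.2.2.2.ball ⟨R - 3, by rw [Nat.cast_sub hR]; rfl⟩ hq
  obtain ⟨H, cH, -, hA, -, hO⟩ := hep_rel
    (A := {x : ((J → ℝ) × (J → ℝ)) × ℝ | x.1 ∈ YC m R d q ∧ x.2 ∈ Icc (0 : ℝ) 1 ∧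
      (x.1.2 ∈ Skel d ∨ x.1.1 = crn J R ∨ x.2 = 0 ∨ x.2 = 1)}) (O := {0}ᶜ)
    (u := fun x => T ((crn J R, x.1.2), x.2))
    (h := fun z => T ((χ (z.1.1.1, 1 - z.2), z.1.1.2), z.1.2))
    (((yc_closed m R d q).preimage continuous_fst).inter
      ((isClosed_Icc.preimage continuous_snd).inter
        (((skel_closed d).preimage continuous_fst.snd).union
          ((isClosed_eq continuous_fst.fst continuous_const).union
            ((isClosed_eq continuous_snd continuous_const).union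
              (isClosed_eq continuous_snd continuous_const))))))
    isClosed_empty isOpen_compl_singleton (by fun_prop) (by fun_prop)
    (fun x hx => by simp only [sub_zero, (hχ _ ⟨hx.1.1, hx.1.2.1⟩ hx.1.2.2.1).2.1]) (by
      rintro ⟨p, s⟩ ⟨hp, hs, h⟩ τ hτ
      have ht : 1 - τ ∈ Icc (0 : ℝ) 1 := ⟨by linarith [hτ.2], by linarith [hτ.1]⟩
      obtain ⟨⟨z1, z2⟩, z3⟩ := (hχ _ ⟨hp.1, hp.2.1⟩ hp.2.2.1).2.2 _ ht
      have z4 := del_inCar z3 (InCar.refl _) hp.2.2.2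
      have en := hS.ends (χ (p.1, 1 - τ), p.2) z2 (st2_sub (yb p hp)) (st2_ne (del_one z4))
      change T ((χ (p.1, 1 - τ), p.2), s) ≠ 0
      rcases h with h | h | rfl | rfl
      · exact hT.ne (χ (p.1, 1 - τ), p.2)
          ⟨yb p hp, Or.inr ⟨z2, z4, d, hd, le_rfl, h, skel_mono (by omega) z1⟩⟩ s hs
      · exact hT.ne (χ (p.1, 1 - τ), p.2)
          ⟨yb p hp, Or.inl (by rw [show p.1 = crn J R from h]; exact cw _ ht)⟩ s hs
      · rw [hT.zero]
        exact en.1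
      · rw [hT.one]
        exact en.2) fun x hx => hx.2.elim
  have i1 : (1 : ℝ) ∈ Icc (0 : ℝ) 1 := right_mem_Icc.2 zero_le_one
  refine ⟨fun x => H (x, 1), by fun_prop, fun p hp s hs =>
    ⟨hO (p, s) (hT.ne (crn J R, p.2) ⟨yb p hp, Or.inl rfl⟩ s hs) 1 i1, fun h => ?_⟩⟩
  refine (hA (p, s) ⟨hp, hs, h⟩ 1 i1).trans ?_
  simp only [sub_self, (hχ _ ⟨hp.1, hp.2.1⟩ hp.2.2.1).1]

end BEp
end
end

-- merged part: Pool.Agent.Work.MP_f0515e_an.Pos.HSt3
section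
/-!
The homotopy on the deleted product of a box (H7 of the plan).

Plan.  `st_level`: `glue_fin` over the finite type `Ctr (d + 1) (R - 3)` (`ctr_finite`, `Set.Finite.to_subtype`)
with `B q = YC m R d q ×ˢ [0,1]`, `v q` from `st_cell`, `u = T`, and
`A = {(p, s) | p.2 ∈ Skel d ∨ p.1 = crn J R ∨ s = 0 ∨ s = 1}` (closed); `ctr_inter` gives `B q ∩ B q' ⊆ A`.
A point of `GG m R (d + 1)` is in `GG m R d` (then `p.2 ∈ Skel d` or `p.1 = crn`), or has `j = d + 1` and lies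
in `YC m R d q` for the centre `q` of `exists_ctr` (`del_inCar`).
`stepT`: induction from `d = m` to `d = 2 m`.  Then `glue_odd` with `i (p, s) = (p.swap, s)` (as a continuous
linear map), `u = S`, `v = T`, `A = {(p, s) | (p.1 ∈ Skel m ∧ p.2 ∈ Skel m) ∨ s = 0 ∨ s = 1}`,
`B = {(p, s) | p ∈ GG m R (2 m), p.1 ∈ Skel m, p.1 ∈ closedBall 0 (R - 3), s ∈ [0,1]}`.  For `p ∈ PK m (R - 3)` with
`a + b ≤ 2 m`: if `a ≤ m` then `p ∈ GG` with `j = max m b`; otherwise `p.swap` is.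
-/

open Set Metric Filter Topology Function BEv
open scoped NNReal

noncomputable section
namespace BEp

variable {J : Type} [Fintype J] {F : Type} [NormedAddCommGroup F] [NormedSpace ℝ F]
  [FiniteDimensional ℝ F]

theorem st_level {m : ℕ} (hJ : m < Fintype.card J) {R : ℕ} (hR : 3 ≤ R)
    {S T : ((J → ℝ) × (J → ℝ)) × ℝ → F} (hS : StH m R S) {d : ℕ} (hd : m ≤ d)
    (hd' : d + 1 ≤ 2 * m) (hT : StI m R S d T) : ∃ T', StI m R S (d + 1) T' := by
  have := (ctr_finite (ι := J) (d + 1) ((R : ℝ) - 3)).to_subtype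
  choose v hv hv' using fun q : (Ctr (d + 1) ((R : ℝ) - 3) : Set (J → ℝ)) =>
    st_cell hJ hR hS hd hd' hT q.2.2.1
  obtain ⟨g, cg, gA, gB⟩ := glue_fin (κ := (Ctr (d + 1) ((R : ℝ) - 3) : Set (J → ℝ)))
    (A := {z : ((J → ℝ) × (J → ℝ)) × ℝ | z.1.2 ∈ Skel d ∨ z.1.1 = crn J R ∨ z.2 = 0 ∨ z.2 = 1})
    (B := fun q => YC m R d q.1 ×ˢ Icc (0 : ℝ) 1)
    (((skel_closed d).preimage (by fun_prop)).union
      ((isClosed_eq (by fun_prop) continuous_const).union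
        ((isClosed_eq continuous_snd continuous_const).union
          (isClosed_eq continuous_snd continuous_const))))
    (fun q => (yc_closed _ _ _ _).prod isClosed_Icc)
    (fun q q' h z hz => Or.inl (ctr_inter q.2 q'.2 (Subtype.val_injective.ne h) hz.1.1.2.2.2
      hz.2.1.2.2.2)) hT.cont hv fun q z hz => ((hv' q _ hz.2.1 _ hz.2.2).2 hz.1).symm
  refine ⟨g, cg, fun p => (gA (by simp)).trans (hT.zero p), fun p => (gA (by simp)).trans (hT.one p),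
    fun p h1 h2 h3 s hs => (gA (Or.inl (skel_mono hd h2))).trans (hT.eq p h1 h2 h3 s hs), ?_⟩
  rintro p ⟨h1, h2 | ⟨h2, h3, j, h4, h5, h6, h7⟩⟩ s hs
  · rw [gA (Or.inr (Or.inl h2))]
    exact hT.ne p ⟨h1, Or.inl h2⟩ s hs
  · rcases Nat.le_succ_iff.1 h5 with h5 | rfl
    · rw [gA (Or.inl (skel_mono h5 h6))]
      exact hT.ne p ⟨h1, Or.inr ⟨h2, h3, j, h4, h5, h6, h7⟩⟩ s hs
    · obtain ⟨q, hq, k1, k2⟩ := exists_ctr ⟨R - 3, by simp [hR]⟩ h6 h1
      have hp : p ∈ YC m R d q :=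
        ⟨h7, h2, del_inCar h3 (fun l => ⟨Int.floor_le _, Int.le_ceil _⟩) k2, k1⟩
      rw [gB ⟨q, hq⟩ (mk_mem_prod hp hs)]
      exact (hv' ⟨q, hq⟩ p hp s hs).1

theorem stepT {m : ℕ} (hm : 2 ≤ m) (hJ : m < Fintype.card J)
    (hF : 2 * m < Module.finrank ℝ F) {R : ℕ} (hR : 3 ≤ R)
    {S : ((J → ℝ) × (J → ℝ)) × ℝ → F} (hS : StH m R S)
    (ho : ∀ p s, S (Prod.swap p, s) = -S (p, s)) :
    ∃ T : ((J → ℝ) × (J → ℝ)) × ℝ → F, Continuous T ∧
      (∀ p s, T (Prod.swap p, s) = -T (p, s)) ∧ (∀ p, T (p, 0) = S (p, 0)) ∧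
      (∀ p, T (p, 1) = S (p, 1)) ∧
      (∀ p : (J → ℝ) × (J → ℝ), p.1 ∈ Skel m → p.2 ∈ Skel m → ∀ s, T (p, s) = S (p, s)) ∧
      ∀ p ∈ PK m ((R : ℝ) - 3), ∀ s ∈ Icc (0 : ℝ) 1, T (p, s) ≠ 0 := by
  have key : ∀ d, m ≤ d → d ≤ 2 * m → ∃ T, StI m R S d T := by
    intro d hd
    induction d, hd using Nat.le_induction with
    | base => exact fun _ => st_base hm hJ hF hR hS
    | succ d hd ih =>
      intro h
      obtain ⟨T, hT⟩ := ih (by omega)
      exact st_level hJ hR hS hd h hT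
  obtain ⟨T, hT⟩ := key (2 * m) (by omega) le_rfl
  obtain ⟨g, cg, og, gA, gB⟩ := glue_odd
    ((ContinuousLinearEquiv.prodComm ℝ (J → ℝ) (J → ℝ)).toContinuousLinearMap.prodMap
      (ContinuousLinearMap.id ℝ ℝ)) (fun _ => rfl)
    (A := {z | (z.1.1 ∈ Skel m ∧ z.1.2 ∈ Skel m) ∨ z.2 = 0 ∨ z.2 = 1})
    (B := (GG J m R (2 * m) ∩ Prod.fst ⁻¹' Skel m) ×ˢ Icc (0 : ℝ) 1)
    ((((skel_closed m).preimage (by fun_prop)).inter
      ((skel_closed m).preimage (by fun_prop))).union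
        ((isClosed_eq continuous_snd continuous_const).union
          (isClosed_eq continuous_snd continuous_const)))
    (((gg_closed _ _ _).inter ((skel_closed m).preimage continuous_fst)).prod isClosed_Icc)
    (fun z hz => hz.imp_left And.symm) (fun z h h' => Or.inl ⟨h.1.2, h'.1.2⟩) hS.cont hT.cont
    (fun z => ho z.1 z.2) (by
      rintro ⟨p, s⟩ ⟨h | rfl | rfl, h'⟩
      exacts [(hT.eq p h.1 h.2 h'.1.1.1 s h'.2).symm, (hT.zero p).symm, (hT.one p).symm])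
  have aux : ∀ (p : (J → ℝ) × (J → ℝ)) (a b : ℕ), a + b ≤ 2 * m → a ≤ m → p.1 ∈ Skel a →
      p.2 ∈ Skel b → p ∈ PK m ((R : ℝ) - 3) → ∀ s ∈ Icc (0 : ℝ) 1, g (p, s) ≠ 0 := by
    intro p a b h1 h2 h3 h4 hp s hs
    have h5 : p ∈ GG J m R (2 * m) := ⟨hp.2.2.2, Or.inr
      ⟨closedBall_subset_closedBall (by linarith) hp.2.2.1, hp.1, max m b, le_max_left _ _,
        by omega, skel_mono (le_max_right _ _) h4, skel_mono (by omega) h3⟩⟩
    rw [gB (mk_mem_prod ⟨h5, skel_mono h2 h3⟩ hs)]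
    exact hT.ne p h5 s hs
  refine ⟨g, cg, fun p s => og (p, s), fun p => gA (by simp), fun p => gA (by simp),
    fun p h1 h2 s => gA (Or.inl ⟨h1, h2⟩), fun p hp s hs => ?_⟩
  obtain ⟨a, b, h1, h2, h3⟩ := hp.2.1
  by_cases h : a ≤ m
  · exact aux p a b h1 h h2 h3 hp s hs
  · intro e
    refine aux p.swap b a (by omega) (by omega) h3 h2 (pk_swap hp) s hs ((og (p, s)).trans ?_)
    rw [e, neg_zero]

end BEp
end
end
end

-- merged part: Pool.Agent.Work.MP_f0515e_an.Pos.HRL1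
section
/-!
Extension of an injective linear map to a positive automorphism (H9 of the plan).

Plan.  `exists_hat0`: both ranges have complements of the same `finrank` (`Submodule.exists_isCompl`,
`LinearEquiv.ofFinrankEq`, `Submodule.prodEquivOfIsCompl`), which gives an automorphism `M` with
`M ∘ e = A`.  `exists_hat_lt`: if `det M < 0` compose on the right with a map of determinant `-1` fixing the range
of `e`: for a functional `φ ≠ 0` vanishing on the range (`Submodule.exists_dual_map_eq_bot_of_lt_top` or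
`exists_extend`) and `v` with `φ v = 1` take `x ↦ x - 2 φ x • v` (`Module.reflection`, `Module.det_reflection` if
available, or `Matrix.det_one_sub_mul_comm`, or a basis).  `exists_hat_eq`: `e` is a linear isomorphism;
`deg_htp` on `ball 0 r` gives `deg (A ·) = deg (e ·)`; `A = M ∘ e`, `deg_target_self`, and
`deg_aff`, `sg_cases` shows that `deg (e ·) ≠ 0`, so `sign (det M) = 1`.  `exists_path`: `glp`, reparametrized by
`max 0 (min (3 t - 1) 1)`.
-/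

open Set Metric Filter Topology Function BEv
open scoped NNReal

noncomputable section
namespace BEp

variable {E F G : Type} [NormedAddCommGroup E] [NormedSpace ℝ E] [FiniteDimensional ℝ E]
  [NormedAddCommGroup F] [NormedSpace ℝ F] [FiniteDimensional ℝ F]
  [NormedAddCommGroup G] [NormedSpace ℝ G] [FiniteDimensional ℝ G]

theorem exists_hat0 {e A : E →L[ℝ] F} (he : Injective e) (hA : Injective A) :
    ∃ M : F ≃L[ℝ] F, ∀ z, M (e z) = A z := by
  have he' : Injective (e : E →ₗ[ℝ] F) := he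
  have hA' : Injective (A : E →ₗ[ℝ] F) := hA
  obtain ⟨g, hg⟩ := Submodule.exists_linearEquiv_restrict_eq
    ((LinearEquiv.ofInjective _ he').symm.trans (LinearEquiv.ofInjective _ hA'))
  refine ⟨g.toContinuousLinearEquiv, fun z => ?_⟩
  have := hg (LinearEquiv.ofInjective _ he' z)
  rw [LinearEquiv.trans_apply, LinearEquiv.symm_apply_apply] at this
  exact this.symm

theorem exists_hat_lt (h : Module.finrank ℝ E < Module.finrank ℝ F) {e A : E →L[ℝ] F}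
    (he : Injective e) (hA : Injective A) :
    ∃ M : F →L[ℝ] F, 0 < M.det ∧ ∀ z, M (e z) = A z := by
  obtain ⟨M, hM⟩ := exists_hat0 he hA
  rcases sdet_cases M with h1 | h1
  · exact ⟨M, sdet_eq_one.1 h1, hM⟩
  have hneg : ContinuousLinearMap.det (M : F →L[ℝ] F) < 0 := by
    have h0 : ContinuousLinearMap.det (M : F →L[ℝ] F) ≠ 0 :=
      (LinearEquiv.isUnit_det' M.toLinearEquiv).ne_zero
    refine lt_of_le_of_ne (not_lt.1 fun h2 => ?_) h0
    have := sdet_eq_one.2 h2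
    omega
  have hlt : LinearMap.range (e : E →ₗ[ℝ] F) < ⊤ := by
    refine lt_top_iff_ne_top.2 fun h2 => ?_
    have h3 := LinearMap.finrank_range_le (e : E →ₗ[ℝ] F)
    rw [h2, finrank_top] at h3
    omega
  obtain ⟨φ, hφ, hb⟩ := Submodule.exists_dual_map_eq_bot_of_lt_top hlt inferInstance
  obtain ⟨v, hv⟩ : ∃ v, φ v ≠ 0 := by
    by_contra hc
    push Not at hc
    exact hφ (LinearMap.ext hc)
  have hz : ∀ z, φ (e z) = 0 := fun z => by
    have : φ (e z) ∈ (LinearMap.range (e : E →ₗ[ℝ] F)).map φ := ⟨e z, ⟨z, rfl⟩, rfl⟩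
    rwa [hb, Submodule.mem_bot] at this
  set T : F →ₗ[ℝ] F := LinearMap.transvection φ ((-2 / φ v) • v) with hT
  have hd : LinearMap.det T = -1 := by
    rw [hT, LinearMap.transvection.det, map_smul, smul_eq_mul]
    field_simp
    ring
  refine ⟨(M : F →L[ℝ] F).comp (LinearMap.toContinuousLinearMap T), ?_, fun z => ?_⟩
  · have : ((M : F →L[ℝ] F).comp (LinearMap.toContinuousLinearMap T)).det =
        ContinuousLinearMap.det (M : F →L[ℝ] F) * LinearMap.det T :=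
      LinearMap.det_comp ((M : F →L[ℝ] F) : F →ₗ[ℝ] F) T
    rw [this, hd]
    linarith
  · have : T (e z) = e z := by
      rw [hT, LinearMap.transvection.apply, hz, zero_smul, add_zero]
    rw [← hM, ← this]
    simp only [this]
    change M (T (e z)) = _
    rw [this]

theorem exists_hat_eq (h : Module.finrank ℝ E = Module.finrank ℝ F) {e A : E →L[ℝ] F}
    (he : Injective e) (hA : Injective A) {r : ℝ} (hr : 0 < r) {H : E × ℝ → F}
    (hH : Continuous H) (h0 : ∀ x ∈ sphere (0 : E) r, H (x, 0) = A x ∧ H (x, 1) = e x ∧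
      ∀ s ∈ Icc (0 : ℝ) 1, H (x, s) ≠ 0) :
    ∃ M : F →L[ℝ] F, 0 < M.det ∧ ∀ z, M (e z) = A z := by
  obtain ⟨M, hM⟩ := exists_hat0 he hA
  refine ⟨M, sdet_eq_one.1 ?_, hM⟩
  have he' : Injective (e : E →ₗ[ℝ] F) := he
  set L : E ≃L[ℝ] F :=
    (LinearMap.linearEquivOfInjective (e : E →ₗ[ℝ] F) he' h).toContinuousLinearEquiv with hL
  have hLe : ∀ x, L x = e x := fun x => rfl
  have k := (deg_htp h isOpen_ball isBounded_ball hH
    (fun x hx => (h0 x (frontier_ball_subset_sphere hx)).2.2) A.continuous e.continuous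
    (fun x hx => (h0 x (frontier_ball_subset_sphere hx)).1)
    (fun x hx => (h0 x (frontier_ball_subset_sphere hx)).2.1)).2.2
  have k1 := deg_aff L (isOpen_ball (x := (0 : E)) (ε := r)) isBounded_ball (mem_ball_self hr)
  have k2 := deg_aff (L.trans M) (isOpen_ball (x := (0 : E)) (ε := r)) isBounded_ball
    (mem_ball_self hr)
  have e1 : (fun x => L (x - 0)) = e := by
    funext x
    rw [sub_zero, hLe]
  have e2 : (fun x => (L.trans M) (x - 0)) = A := by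
    funext x
    rw [sub_zero, ContinuousLinearEquiv.trans_apply, hLe, hM]
  rw [e1] at k1
  rw [e2, sg_post] at k2
  have k3 : sdet M * sg L = sg L := by rw [← k2, k, k1]
  rcases sg_cases L with h1 | h1 <;> rw [h1] at k3 <;> omega

theorem exists_path {M : F →L[ℝ] F} (h : 0 < M.det) :
    ∃ γ : ℝ → F →L[ℝ] F, Continuous γ ∧ (∀ t, Bijective (γ t)) ∧ (∀ t ≤ 1 / 3, γ t = 1) ∧
      ∀ t, 2 / 3 ≤ t → γ t = M := by
  obtain ⟨γ, hc, hb, h0, h1⟩ := glp M h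
  refine ⟨fun t => γ (3 * t - 1), hc.comp (by fun_prop), fun t => hb _, fun t ht => h0 _ ?_,
    fun t ht => h1 _ ?_⟩ <;> linarith

end BEp
end
end

-- merged part: Pool.Agent.Work.MP_f0515e_an.Pos.HRL
section
/-!
EXPORT (HOM). The rigid loop lemma: H7 to H9 of the plan.
-/

open Set Metric Filter Topology Function BEv
open scoped NNReal

noncomputable section
namespace BEp

/-- The loop attached to a rigid box. -/
def rloop {J : Type} [Fintype J] {m : ℕ} (e : (J → ℝ) →L[ℝ] V m) (A : (J → ℝ) →L[ℝ] V m)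
    (f : (J → ℝ) → V m) (Ac : ℝ → V m →L[ℝ] V m) (ν : ℝ → ℝ)
    (Hn : ((J → ℝ) × (J → ℝ)) × ℝ → V m) : ((J → ℝ) × (J → ℝ)) × ℝ → V m :=
  cat (fun q => ν q.2 • Ac q.2 (e (q.1.1 - q.1.2)))
    (cat (fun q => (1 - q.2) • A (q.1.1 - q.1.2) + q.2 • tl f q.1) Hn)

theorem rl_sth {m : ℕ} {J : Type} [Fintype J] (A : (J → ℝ) →L[ℝ] V m) (b : V m) {ε : ℝ}
    (hε : 0 < ε) (hA : ∀ z, 100 * ε * ‖z‖ ≤ ‖A z‖) {R : ℝ} {f : (J → ℝ) → V m}
    (hf : Continuous f) (hi : InjOn f (closedBall 0 R))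
    (hc : ∀ z ∈ Skel m ∩ closedBall (0 : J → ℝ) R, ‖f z - (A z + b)‖ ≤ ε) :
    StH m R (fun q : ((J → ℝ) × (J → ℝ)) × ℝ =>
      (1 - q.2) • A (q.1.1 - q.1.2) + q.2 • tl f q.1) := by
  refine ⟨by unfold tl; fun_prop, fun p h1 h2 hne => ⟨?_, ?_⟩, fun p h1 h2 hd s hs h0 => ?_⟩
  · have := hA (p.1 - p.2)
    have h3 : 0 < ‖p.1 - p.2‖ := norm_pos_iff.2 (sub_ne_zero.2 hne)
    simp only [sub_zero, one_smul, zero_smul, add_zero]
    exact norm_pos_iff.1 (lt_of_lt_of_le (by positivity) this)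
  · simp only [sub_self, one_smul, zero_smul, zero_add, tl]
    exact sub_ne_zero.2 fun h => hne (hi h1 h2 h)
  · have e : A (p.1 - p.2) = s • ((f p.2 - (A p.2 + b)) - (f p.1 - (A p.1 + b))) := by
      rw [← sub_eq_zero, ← h0]
      simp only [tl, map_sub]
      module
    have h3 := hA (p.1 - p.2)
    have h4 := norm_sub_le (f p.2 - (A p.2 + b)) (f p.1 - (A p.1 + b))
    have h5 := hc _ h1
    have h6 := hc _ h2
    rw [e, norm_smul, Real.norm_of_nonneg hs.1] at h3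
    have h7 := mul_le_of_le_one_left (norm_nonneg
      ((f p.2 - (A p.2 + b)) - (f p.1 - (A p.1 + b)))) hs.2
    nlinarith

theorem rl_pk {m : ℕ} {J : Type} [Fintype J] (hJ : Fintype.card J = 2 * m + 1) {R : ℝ}
    (hR : 2 ≤ R) {z : J → ℝ} (hz : z ∈ sphere (0 : J → ℝ) 2) : (z, (0 : J → ℝ)) ∈ PK m R := by
  classical
  have hn : ‖z‖ = 2 := by simpa using hz
  have : Nonempty J := Fintype.card_pos_iff.1 (by omega)
  obtain ⟨l, hl⟩ : ∃ l, |z l| = 2 := by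
    by_contra h
    push Not at h
    have : ‖z‖ < 2 := (pi_norm_lt_iff (by norm_num)).2 fun l =>
      lt_of_le_of_ne (hn ▸ norm_le_pi_norm z l) (h l)
    exact this.ne hn
  refine ⟨del_of_two (by simp [hn]), ⟨2 * m, 0, le_rfl, mem_skel.2 ⟨Finset.univ.erase l, ?_,
    fun l' hl' => ?_⟩, skel_int 0 fun _ => ⟨0, by simp⟩⟩, by simpa [hn] using hR,
    mem_closedBall_self (by linarith)⟩
  · simp [hJ]
  · obtain rfl : l' = l := by simpa using hl'
    rcases (abs_eq (by norm_num)).1 hl with h | h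
    · exact ⟨2, by simpa using h⟩
    · exact ⟨-2, by simpa using h⟩

theorem rigid_loop {m : ℕ} (hm : 2 ≤ m) {J : Type} [Fintype J] (ι : J → Fin (2 * m + 1))
    (hι : Injective ι) (hJ : m < Fintype.card J) {s : ℝ} (hs : 0 < s)
    (e : (J → ℝ) →L[ℝ] V m) (he : ∀ z j, e z (ι j) = s * z j)
    (he' : ∀ z l, l ∉ range ι → e z l = 0) (A : (J → ℝ) →L[ℝ] V m) (b : V m) {ε : ℝ}
    (hε : 0 < ε) (hA : ∀ z, 100 * ε * ‖z‖ ≤ ‖A z‖) {R : ℕ} (hR : 20 ≤ R)
    {f : (J → ℝ) → V m} (hf : Continuous f) (hi : InjOn f (closedBall 0 R))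
    (hc : ∀ z ∈ Skel m ∩ closedBall (0 : J → ℝ) R, ‖f z - (A z + b)‖ ≤ ε)
    {Hn : ((J → ℝ) × (J → ℝ)) × ℝ → V m}
    (hH : OH {p | p.1 ∈ closedBall (0 : J → ℝ) R ∧ p.2 ∈ closedBall (0 : J → ℝ) R ∧
      1 ≤ ‖p.1 - p.2‖} (tl f) (tl e) Hn) :
    ∃ Ac : ℝ → V m →L[ℝ] V m, Continuous Ac ∧ (∀ t, Bijective (Ac t)) ∧
      (∀ t ≤ 1 / 3, Ac t = 1) ∧ (∀ t, 2 / 3 ≤ t → Ac t = Ac 1) ∧ (∀ z, Ac 1 (e z) = A z) ∧
      ∀ ν : ℝ → ℝ, Continuous ν → (∀ t, 0 < ν t) → ν 0 = 1 → ν 1 = 1 →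
      ∀ Jn : Set (V m × V m), IsCompact Jn → Symm Jn → Sm (2 * m - 1) Jn →
      ∀ χ : V m → J → ℝ, Continuous χ →
        (∀ p ∈ Jn, χ p.1 ∈ Skel m ∩ closedBall (0 : J → ℝ) (R - 6) ∧ 2 ≤ ‖χ p.1 - χ p.2‖) →
        Fill Jn (fun q => rloop e A f Ac ν Hn ((χ q.1.1, χ q.1.2), q.2)) := by
  have hJ' : Fintype.card J ≤ 2 * m + 1 := by simpa using Fintype.card_le_of_injective ι hι
  have hV : Module.finrank ℝ (V m) = 2 * m + 1 := by simp
  have hR' : (20 : ℝ) ≤ R := by exact_mod_cast hR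
  have hei : Injective e := (injective_iff_map_eq_zero e).2 fun z hz => funext fun j => by
    have := he z j
    rw [hz] at this
    exact (mul_eq_zero.1 this.symm).resolve_left hs.ne'
  have hAi : Injective A := (injective_iff_map_eq_zero A).2 fun z hz => by
    have := hA z
    rw [hz, norm_zero] at this
    exact norm_le_zero_iff.1 (nonpos_of_mul_nonpos_right this (by positivity))
  obtain ⟨T, Tc, To, T0, T1, Ts, Tn⟩ := stepT hm hJ (by omega) (R := R) (by omega)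
    (rl_sth A b hε hA hf hi hc) (fun p t => by
      simp only [tl, Prod.fst_swap, Prod.snd_swap, map_sub]
      module)
  simp only [sub_zero, one_smul, zero_smul, add_zero] at T0
  simp only [sub_self, one_smul, zero_smul, zero_add] at T1
  have hPK : ∀ p ∈ (PK m ((R : ℝ) - 3) : Set ((J → ℝ) × (J → ℝ))),
      p.1 ∈ closedBall (0 : J → ℝ) R ∧ p.2 ∈ closedBall (0 : J → ℝ) R ∧ 1 ≤ ‖p.1 - p.2‖ :=
    fun p hp => ⟨closedBall_subset_closedBall (by linarith) hp.2.2.1,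
      closedBall_subset_closedBall (by linarith) hp.2.2.2, del_one hp.1⟩
  have Cc : Continuous (cat T Hn) := cat_cont Tc hH.cont
  have Co : ∀ p t, cat T Hn (Prod.swap p, t) = -cat T Hn (p, t) := cat_odd To hH.odd
  have C0 : ∀ p, cat T Hn (p, 0) = A (p.1 - p.2) := fun p => by rw [cat_zero, T0]
  have Cm : ∀ p ∈ PK m ((R : ℝ) - 3), T (p, 1) = Hn (p, 0) := fun p hp => by
    rw [T1, hH.zero p (hPK p hp)]
  have C1 : ∀ p ∈ PK m ((R : ℝ) - 3), cat T Hn (p, 1) = e (p.1 - p.2) := fun p hp => by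
    rw [cat_one (Cm p hp), hH.one p (hPK p hp), tl, map_sub]
  have Cn : ∀ p ∈ PK m ((R : ℝ) - 3), ∀ t ∈ Icc (0 : ℝ) 1, cat T Hn (p, t) ≠ 0 := fun p hp =>
    cat_ne (Cm p hp) (Tn p hp) (hH.ne p (hPK p hp))
  obtain ⟨M, hM, hMe⟩ : ∃ M : V m →L[ℝ] V m, 0 < M.det ∧ ∀ z, M (e z) = A z := by
    rcases hJ'.lt_or_eq with h | h
    · exact exists_hat_lt (by simpa using h) hei hAi
    · refine exists_hat_eq (by simpa using h) hei hAi two_pos
        (H := fun q => cat T Hn ((q.1, 0), q.2)) (Cc.comp (by fun_prop)) fun z hz => ?_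
      have hp := rl_pk (R := (R : ℝ) - 3) h (by linarith) hz
      exact ⟨by simp [C0], by simp [C1 _ hp], Cn _ hp⟩
  obtain ⟨γ, γc, γb, γ0, γ1⟩ := exists_path hM
  obtain ⟨k, i1, hk, ic, io, im, hκ⟩ := rl_kappa (J := J) (E := V m × V m) (m := m) (by omega) hJ'
    (R := (R : ℝ) - 3) ⟨R - 3, by rw [Nat.cast_sub (by omega)]; norm_num⟩ (by linarith)
  obtain ⟨l0, l0d⟩ : ∃ l0 : ((J → ℝ) × (J → ℝ)) × ℝ → V m,
    l0 = cat (fun q => γ q.2 (e (q.1.1 - q.1.2))) (cat T Hn) := ⟨_, rfl⟩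
  have lm : ∀ p : (J → ℝ) × (J → ℝ), γ 1 (e (p.1 - p.2)) = cat T Hn (p, 0) := fun p => by
    rw [γ1 1 (by norm_num), hMe, C0]
  have lc : Continuous l0 := l0d ▸ cat_cont (by fun_prop) Cc
  have lo : ∀ p t, l0 (Prod.swap p, t) = -l0 (p, t) := l0d ▸ cat_odd (fun p t => by
    simp only [Prod.fst_swap, Prod.snd_swap]
    rw [← map_neg, ← map_neg, neg_sub]) Co
  have ln : ∀ p ∈ PK m ((R : ℝ) - 3), ∀ t ∈ Icc (0 : ℝ) 1, l0 (p, t) ≠ 0 := fun p hp =>
    l0d ▸ cat_ne (lm p) (fun t _ h => by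
      have h1 := hei (((γb t).1 (h.trans (map_zero _).symm)).trans (map_zero e).symm)
      have h2 := (hPK p hp).2.2
      rw [show p.1 - p.2 = 0 from h1, norm_zero] at h2
      linarith) (Cn p hp)
  have ll : ∀ p ∈ PK m ((R : ℝ) - 3), l0 (p, 1) = l0 (p, 0) := fun p hp => by
    rw [l0d, cat_one (lm p), cat_zero, C1 p hp, γ0 0 (by norm_num)]
    rfl
  obtain ⟨ρ, hρ, hF⟩ := par (W := Fin k → ℝ) (F := V m) (by simp; omega) (by omega)
    (μ := fun q => l0 (i1 q.1, q.2)) (lc.comp (by fun_prop)) (fun v t => by simp only [io, lo])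
    (fun v hv => ln _ (im hv)) (fun v hv => ll _ (im hv))
  have ρc := hρ.cont
  obtain ⟨θ, θd⟩ : ∃ θ : ℝ → ℝ, θ = fun t => max 0 (min (3 * t - 1) 1) := ⟨_, rfl⟩
  have θc : Continuous θ := by rw [θd]; fun_prop
  have θ0 : ∀ t ≤ 1 / 3, θ t = 0 := fun t ht => by
    rw [θd]
    exact max_eq_left ((min_le_left _ _).trans (by linarith))
  have θ1 : ∀ t, 2 / 3 ≤ t → θ t = 1 := fun t ht => by
    simp only [θd]
    rw [min_eq_right (by linarith), max_eq_right zero_le_one]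
  have A1 : ∀ t, 2 / 3 ≤ t → ρ (θ t) * γ t = M := fun t ht => by
    rw [θ1 t ht, hρ.one, one_mul, γ1 t ht]
  refine ⟨fun t => ρ (θ t) * γ t, by fun_prop, fun t => (hρ.bij _).comp (γb t),
    fun t ht => by simp only [θ0 t ht, hρ.zero, γ0 t ht, one_mul],
    fun t ht => (A1 t ht).trans (A1 1 (by norm_num)).symm,
    fun z => by simp only [A1 1 (by norm_num), hMe],
    fun ν νc νp ν0 ν1 Jn hJn hJs hJd χ χc hχ => ?_⟩
  obtain ⟨lν, lνd⟩ : ∃ lν : ((J → ℝ) × (J → ℝ)) × ℝ → V m, lν = cat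
    (fun q => ν q.2 • (ρ (θ q.2) * γ q.2) (e (q.1.1 - q.1.2))) (cat T Hn) := ⟨_, rfl⟩
  have lνe : ∀ p t, lν (p, t) = ν (min (2 * t) 1) • ρ (θ (min (2 * t) 1)) (l0 (p, t)) := by
    intro p t
    rcases le_total t (1 / 2) with h | h
    · rw [lνd, l0d, cat_left _ _ _ h, cat_left _ _ _ h, min_eq_left (by linarith)]
      rfl
    · rw [lνd, l0d, cat_right (by simp only [ν1, one_smul, A1 1 (by norm_num), hMe, C0]) h,
        cat_right (H := fun q : ((J → ℝ) × (J → ℝ)) × ℝ => γ q.2 (e (q.1.1 - q.1.2))) (lm p) h,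
        min_eq_right (by linarith), ν1, θ1 1 (by norm_num), hρ.one]
      simp
  have lνc : Continuous lν := lνd ▸ cat_cont (by fun_prop) Cc
  have ρn : ∀ t (v : V m), v ≠ 0 → ρ t v ≠ 0 := fun t v hv h =>
    hv ((hρ.bij t).1 (h.trans (map_zero _).symm))
  have F1 : GFill Neg.neg (sphere (0 : Fin k → ℝ) 1) (fun q => lν (i1 q.1, q.2)) := by
    refine (GFill.free (Λ := fun q : ((Fin k → ℝ) × ℝ) × ℝ =>
      ((1 - q.2) * ν (min (2 * q.1.2) 1) + q.2) •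
        ρ ((1 - q.2) * θ (min (2 * q.1.2) 1) + q.2 * q.1.2) (l0 (i1 q.1.1, q.1.2)))
      continuous_neg neg_neg isClosed_sphere (fun x hx => by simpa using hx) (by fun_prop)
      (fun v _ t _ τ _ => by simp only [io, lo, map_neg, smul_neg]) (fun v hv t ht τ hτ => ?_)
      (fun v hv τ _ => ?_) (hF.congr fun v _ t _ => by simp)).congr fun v _ t _ => by simp [lνe]
    · refine smul_ne_zero (ne_of_gt ?_) (ρn _ _ (ln _ (im hv) t ht))
      have := νp (min (2 * t) 1)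
      rcases hτ.1.eq_or_lt with h | h
      · simpa [← h] using this
      · have := mul_nonneg (sub_nonneg.2 hτ.2) this.le
        linarith
    · simp [ll _ (im hv), ν0, ν1, θ0 0 (by norm_num), θ1 1 (by norm_num), hρ.zero, hρ.one]
  have hκ' : ∀ p ∈ Jn, (χ p.1, χ p.2) ∈ PK m ((R : ℝ) - 3) ∧ 2 ≤ ‖χ p.1 - χ p.2‖ := fun p hp =>
    ⟨⟨del_of_two (hχ p hp).2, ⟨m, m, by omega, (hχ p hp).1.1, (hχ _ (hJs p hp)).1.1⟩,
      closedBall_subset_closedBall (by linarith) (hχ p hp).1.2,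
      closedBall_subset_closedBall (by linarith) (hχ _ (hJs p hp)).1.2⟩, (hχ p hp).2⟩
  obtain ⟨φ, Γ, φc, φo, φm, Γc, Γo, hΓ⟩ := hκ Prod.swap continuous_swap Prod.swap_swap Jn hJn hJs
    hJd (fun p => (χ p.1, χ p.2)) (by fun_prop) (fun _ => rfl) hκ'
  have F2 := F1.comp (i' := Prod.swap) φc φo φm
  refine fill_iff.2 ((GFill.free (Λ := fun q : ((V m × V m) × ℝ) × ℝ => lν (Γ (q.1.1, q.2), q.1.2))
    continuous_swap Prod.swap_swap hJn.isClosed hJs (by fun_prop)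
    (fun p _ t _ τ _ => by simp only [Γo, lνe, lo, map_neg, smul_neg])
    (fun p hp t ht τ hτ => ?_) (fun p hp τ hτ => ?_)
    (F2.congr fun p hp t _ => by simp only [(hΓ p hp).2.1])).congr fun p hp t _ => ?_)
  · rw [lνe]
    exact smul_ne_zero (νp _).ne' (ρn _ _ (ln _ ((hΓ p hp).2.2 τ hτ) t ht))
  · simp [lνe, ll _ ((hΓ p hp).2.2 τ hτ), ν0, ν1, θ0 0 (by norm_num), θ1 1 (by norm_num), hρ.zero,
      hρ.one]
  · have := Ts (χ p.1, χ p.2) (hχ p hp).1.1 (hχ _ (hJs p hp)).1.1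
    simp only [(hΓ p hp).1, lνd, rloop, cat, this]

end BEp
end
end
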