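import Pool.Agent.Work.MP_f0515e_an.Pos.HPush

/-!
Cells of the integer grid: charts and cellwise extension.

Plan.  `ctr_inter'`: `d = 0` forces `y = q = q'` (`mem_skel`, `inCar_iff`); otherwise `ctr_inter`.
`cell_chart`: the set `T` of non-integer coordinates of `q` has exactly `d` elements; with
`e : T ≃ Fin d` (`Finset.equivFinOfCardEq`) put `c y l = q l + (if h : l ∈ T then y (e ⟨l, h⟩) / 2 else 0)`,
`π x k = 2 * (x (e.symm k) - q (e.symm k))`; for `l ∈ T`, `q l = ⌊q l⌋ + 1 / 2 = ⌈q l⌉ - 1 / 2`.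
A point of the closed cell is in `SkL d` iff one of its coordinates in `T` is an integer.
`cell_ext`: `glue_fin` over the finite type `{q ∈ Cs | q ∉ SkL d}` (`ctr_finite`) with
`A = {x ∈ SkL d ∨ s = 0 ∨ s = 1}` and `B q = {x | InCar x q} ×ˢ [0,1]`.
-/

open Set Metric Filter Topology Function BEv
open scoped NNReal

noncomputable section
namespace BEp

variable {ι : Type} [Fintype ι] {F : Type} [NormedAddCommGroup F] [NormedSpace ℝ F]
  [FiniteDimensional ℝ F]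

/-- Points with fewer than `d` non-integer coordinates. -/
def SkL (d : ℕ) : Set (ι → ℝ) := {x | ∃ d' < d, x ∈ Skel d'}

theorem skl_closed (d : ℕ) : IsClosed (SkL d : Set (ι → ℝ)) := by
  have e : (SkL d : Set (ι → ℝ)) = ⋃ d' ∈ Iio d, Skel d' := by
    ext x
    simp [SkL]
  rw [e]
  exact (finite_Iio d).isClosed_biUnion fun d' _ => skel_closed d'

theorem sm_skl (d : ℕ) : Sm (d - 1) (SkL d : Set (ι → ℝ)) :=
  (sm_skel (d - 1)).mono fun _ ⟨_, h1, h2⟩ => skel_mono (by omega) h2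

theorem skl_succ {d : ℕ} {x : ι → ℝ} : x ∈ SkL (d + 1) ↔ x ∈ Skel d :=
  ⟨fun ⟨_, h1, h2⟩ => skel_mono (by omega) h2, fun h => ⟨d, lt_add_one d, h⟩⟩

theorem InCar.skl {x q : ι → ℝ} (h : InCar x q) {d : ℕ} (hq : q ∈ SkL d) : x ∈ SkL d :=
  let ⟨d', h1, h2⟩ := hq
  ⟨d', h1, h.skel h2⟩

theorem InCar.near {x q : ι → ℝ} (h : InCar x q) : ‖x - q‖ ≤ 1 :=
  (pi_norm_le_iff_of_nonneg zero_le_one).2 fun l => by
    rw [Real.norm_eq_abs, Pi.sub_apply, abs_le]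
    exact ⟨by linarith [(h l).1, Int.lt_floor_add_one (q l)],
      by linarith [(h l).2, Int.ceil_lt_add_one (q l)]⟩

omit [Fintype ι] in
theorem InCar.perm {x q : ι → ℝ} (h : InCar x q) (σ : Equiv.Perm ι) : InCar (x ∘ σ) (q ∘ σ) :=
  fun l => h (σ l)

theorem KCell_perm {d : ℕ} {x : ι → ℝ} (h : x ∈ Skel d) (σ : Equiv.Perm ι) : x ∘ σ ∈ Skel d := by
  obtain ⟨T, h3, h4⟩ := mem_skel.1 h
  exact mem_skel.2 ⟨T.map σ.symm.toEmbedding, by rwa [Finset.card_map],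
    fun l hl => h4 _ fun h => hl (Finset.mem_map_equiv.2 h)⟩

theorem skl_perm {d : ℕ} {x : ι → ℝ} (h : x ∈ SkL d) (σ : Equiv.Perm ι) : x ∘ σ ∈ SkL d :=
  let ⟨d', h1, h2⟩ := h
  ⟨d', h1, KCell_perm h2 σ⟩

theorem ctr_perm {d : ℕ} {R : ℝ} {q : ι → ℝ} (h : q ∈ Ctr d R) (σ : Equiv.Perm ι) :
    q ∘ σ ∈ Ctr d R :=
  ⟨KCell_perm h.1 σ, mem_closedBall_zero_iff.2 (((pi_norm_le_iff_of_nonneg (norm_nonneg q)).2
    fun l => norm_le_pi_norm q (σ l)).trans (mem_closedBall_zero_iff.1 h.2.1)),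
    fun l => h.2.2 (σ l)⟩

theorem inCar_compact (q : ι → ℝ) : IsCompact {x : ι → ℝ | InCar x q} :=
  (isCompact_closedBall q 1).of_isClosed_subset (inCar_closed q) fun _ hx =>
    mem_closedBall_iff_norm.2 (InCar.near hx)

theorem ctr_inter' {d : ℕ} {R : ℝ} {q q' y : ι → ℝ} (hq : q ∈ Ctr d R) (hq' : q' ∈ Ctr d R)
    (hne : q ≠ q') (h : InCar y q) (h' : InCar y q') : y ∈ SkL d := by
  rcases d with _ | d
  · have key : ∀ {p : ι → ℝ}, p ∈ Ctr 0 R → InCar y p → y = p := fun hp hy => funext fun l => by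
      obtain ⟨T, h1, h2⟩ := mem_skel.1 hp.1
      obtain ⟨k, hk⟩ := h2 l (by simp [Finset.card_eq_zero.1 (Nat.le_zero.1 h1)])
      rw [hk]
      exact le_antisymm ((inCar_iff.1 hy l k).1 hk.le) ((inCar_iff.1 hy l k).2 hk.ge)
    exact absurd ((key hq h).symm.trans (key hq' h')) hne
  · exact skl_succ.2 (ctr_inter hq hq' hne h h')

theorem cell_chart {d : ℕ} {R : ℝ} {q : ι → ℝ} (hq : q ∈ Ctr d R) (hn : q ∉ SkL d) :
    ∃ (c : (Fin d → ℝ) → ι → ℝ) (π : (ι → ℝ) → Fin d → ℝ), Continuous c ∧ Continuous π ∧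
      (∀ x, InCar x q → c (π x) = x ∧ ‖π x‖ ≤ 1 ∧ (x ∈ SkL d → ‖π x‖ = 1)) ∧
      ∀ y, ‖y‖ ≤ 1 → InCar (c y) q ∧ (‖y‖ = 1 → c y ∈ SkL d) := by
  classical
  obtain ⟨T, hT⟩ : ∃ T : Finset ι, T = Finset.univ.filter fun l => dd (q l) ≠ 0 := ⟨_, rfl⟩
  have hc : T.card = d :=
    le_antisymm (hT ▸ hq.1) (not_lt.1 fun k => hn ⟨T.card, k, (congrArg Finset.card hT).ge⟩)
  have hi : ∀ l ∈ T, (⌊q l⌋ : ℝ) = q l - 1 / 2 ∧ (⌈q l⌉ : ℝ) = q l + 1 / 2 := fun l hl => by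
    have h1 := (Finset.mem_filter.1 (hT ▸ hl)).2
    have h2 := hgrid_half (hq.2.2 l) h1 h1 (Int.floor_le _) (Int.le_ceil _)
    have h3 : ⌈q l⌉ = ⌊q l⌋ + 1 :=
      Int.ceil_eq_iff.2 ⟨by push_cast; linarith, by push_cast; linarith⟩
    rw [h3]
    exact ⟨by linarith, by push_cast; linarith⟩
  have ho : ∀ l, l ∉ T → (⌊q l⌋ : ℝ) = q l ∧ (⌈q l⌉ : ℝ) = q l := fun l hl => by
    obtain ⟨k, hk⟩ := dd_eq_zero_iff.1 (show dd (q l) = 0 by simpa [hT] using hl)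
    simp [hk]
  have e := T.equivFinOfCardEq hc
  have hb : ∀ x, InCar x q → ‖fun k => 2 * (x (e.symm k) - q (e.symm k))‖ ≤ 1 := fun x hx =>
    (pi_norm_le_iff_of_nonneg zero_le_one).2 fun k => by
      obtain ⟨h1, h2⟩ := hi _ (e.symm k).2
      rw [Real.norm_eq_abs, abs_le]
      exact ⟨by linarith [(hx (e.symm k)).1], by linarith [(hx (e.symm k)).2]⟩
  refine ⟨fun y l => q l + if h : l ∈ T then y (e ⟨l, h⟩) / 2 else 0,
    fun x k => 2 * (x (e.symm k) - q (e.symm k)), continuous_pi fun l => ?_, by fun_prop,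
    fun x hx => ⟨funext fun l => ?_, hb x hx, fun ⟨d', h1, h2⟩ => (hb x hx).antisymm ?_⟩,
    fun y hy => ⟨fun l => ?_, fun h1 => ?_⟩⟩
  · split_ifs <;> fun_prop
  · dsimp only
    split_ifs with h
    · simp only [Equiv.symm_apply_apply]
      ring
    · linarith [(hx l).1, (hx l).2, (ho l h).1, (ho l h).2]
  · obtain ⟨T', h3, h4⟩ := mem_skel.1 h2
    obtain ⟨l, hl, hl'⟩ := Finset.exists_mem_notMem_of_card_lt_card (s := T') (t := T) (by omega)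
    obtain ⟨k, hk⟩ := h4 l hl'
    obtain ⟨a1, a2⟩ := hi l hl
    obtain ⟨b1, b2⟩ := hx l
    refine le_trans ?_ (norm_le_pi_norm _ (e ⟨l, hl⟩))
    simp only [Equiv.symm_apply_apply, Real.norm_eq_abs, le_abs]
    rw [hk] at b1 b2 ⊢
    rcases (Int.cast_le.1 b1 : ⌊q l⌋ ≤ k).eq_or_lt with r | r
    · rw [← r]
      exact Or.inr (by linarith)
    · have : (⌊q l⌋ : ℝ) + 1 ≤ k := by exact_mod_cast r
      exact Or.inl (by linarith)
  · dsimp only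
    split_ifs with h
    · have := abs_le.1 ((norm_le_pi_norm y (e ⟨l, h⟩)).trans hy)
      exact ⟨by linarith [(hi l h).1], by linarith [(hi l h).2]⟩
    · exact ⟨by linarith [(ho l h).1], by linarith [(ho l h).2]⟩
  · obtain ⟨k, hk⟩ : ∃ k, 1 ≤ |y k| := by
      by_contra hc
      push Not at hc
      exact ((pi_norm_lt_iff one_pos).2 hc).ne h1
    have h2 : |y k| = 1 := le_antisymm ((norm_le_pi_norm y k).trans hy) hk
    refine ⟨_, hc ▸ Finset.card_erase_lt_of_mem (e.symm k).2,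
      mem_skel.2 ⟨_, le_rfl, fun l hl => ?_⟩⟩
    dsimp only
    split_ifs with h
    · obtain rfl : l = e.symm k := by_contra fun r => hl (Finset.mem_erase.2 ⟨r, h⟩)
      simp only [Subtype.coe_eta, Equiv.apply_symm_apply]
      rcases eq_or_eq_neg_of_abs_eq h2 with r | r
      · exact ⟨_, by rw [(hi _ h).2, r]⟩
      · exact ⟨_, by rw [(hi _ h).1, r]; ring⟩
    · exact ⟨_, by rw [(ho l h).1, add_zero]⟩

theorem cell_ext {d : ℕ} {R : ℝ} {Cs : Set (ι → ℝ)} (hC : Cs ⊆ Ctr d R)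
    {u : (ι → ℝ) × ℝ → F} (hu : Continuous u) {O : Set F}
    (h : ∀ q ∈ Cs, q ∉ SkL d → ∃ v : (ι → ℝ) × ℝ → F, Continuous v ∧ ∀ x, InCar x q →
      ∀ s ∈ Icc (0 : ℝ) 1, v (x, s) ∈ O ∧ (x ∈ SkL d ∨ s = 0 ∨ s = 1 → v (x, s) = u (x, s))) :
    ∃ g : (ι → ℝ) × ℝ → F, Continuous g ∧
      (∀ x s, x ∈ SkL d ∨ s = 0 ∨ s = 1 → g (x, s) = u (x, s)) ∧
      ∀ q ∈ Cs, q ∉ SkL d → ∀ x, InCar x q → ∀ s ∈ Icc (0 : ℝ) 1, g (x, s) ∈ O := by
  have : Finite {q // q ∈ Cs ∧ q ∉ SkL d} :=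
    ((ctr_finite d R).subset fun q (hq : q ∈ Cs ∧ q ∉ SkL d) => hC hq.1).to_subtype
  choose v hv h1 using fun q : {q // q ∈ Cs ∧ q ∉ SkL d} => h q.1 q.2.1 q.2.2
  obtain ⟨g, g1, g2, g3⟩ := glue_fin (κ := {q // q ∈ Cs ∧ q ∉ SkL d})
    (A := {z : (ι → ℝ) × ℝ | z.1 ∈ SkL d ∨ z.2 = 0 ∨ z.2 = 1})
    (B := fun q => {x | InCar x q.1} ×ˢ Icc 0 1)
    (((skl_closed d).preimage continuous_fst).union ((isClosed_eq continuous_snd
      continuous_const).union (isClosed_eq continuous_snd continuous_const)))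
    (fun q => (inCar_closed q.1).prod isClosed_Icc)
    (fun q q' ne z hz => Or.inl (ctr_inter' (hC q.2.1) (hC q'.2.1) (Subtype.coe_ne_coe.2 ne)
      hz.1.1 hz.2.1)) hu hv fun q z hz => ((h1 q z.1 hz.2.1 z.2 hz.2.2).2 hz.1).symm
  refine ⟨g, g1, fun x s k => g2 k, fun q a b x hx s hs => ?_⟩
  rw [g3 ⟨q, a, b⟩ (x := (x, s)) ⟨hx, hs⟩]
  exact (h1 ⟨q, a, b⟩ x hx s hs).1

end BEp
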