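import Pool.Agent.Work.MP_f0515e_an.Pos.KCell

/-!
Small sets contract in a highly connected open set.

Plan.  `MConn.preconn`: `j = 0`, `g y = if 0 < y 0 then a else b` is continuous on the two point sphere (or use
the affine map `((1 + y 0) / 2) • a + ((1 - y 0) / 2) • b`); the image of the closed ball is a preconnected subset
(`isPreconnected_of_forall_pair`).  `MConn.cub`: induction on `d`.  Step: `cell_ext` with
`Cs = {q ∈ Ctr d R | ∀ y, InCar y q → φ y ∈ Ω}`; for a cell with chart `c, π` apply the hypothesis with `j = d`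
to `g y = h (c (Fin.tail y), (y 0 + 1) / 2)`, and put `v (x, s) = G (ρ (Fin.cons (2 s - 1) (π x)))`, `ρ` the
coordinatewise clamp onto the closed unit ball; `exists_ctr`, `InCar.skl`, `InCar.trans`, `skl_succ`.
`MConn.contract`: `δ > 0` with `cthickening δ Y ⊆ φ ⁻¹' Ω`; `push` (`A = ∅`, `q x = δ⁻¹ • x`) gives `q'`;
`MConn.cub` for `x ↦ φ (δ • x)`, `d = m + 1`; concatenate (`cat_mem`) `φ (δ • ((1 - t) • q x + t • q' x))` with
`h (q' x, t)`; `InCar.near`, `InCar.combo`, `InCar.ball`.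
-/

open Set Metric Filter Topology Function BEv
open scoped NNReal

noncomputable section
namespace BEp

variable {ι : Type} [Fintype ι] {F : Type} [NormedAddCommGroup F] [NormedSpace ℝ F]
  [FiniteDimensional ℝ F]

/-- `Ω` is `m`-connected: it is nonempty and maps of spheres of dimension at most `m` extend to
the ball. -/
def MConn (m : ℕ) (Ω : Set F) : Prop :=
  Ω.Nonempty ∧ ∀ j ≤ m, ∀ g : (Fin (j + 1) → ℝ) → F, ContinuousOn g (sphere 0 1) →
    MapsTo g (sphere 0 1) Ω → ∃ G : (Fin (j + 1) → ℝ) → F, ContinuousOn G (closedBall 0 1) ∧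
      EqOn G g (sphere 0 1) ∧ MapsTo G (closedBall 0 1) Ω

theorem kcon_norm {d : ℕ} (y : Fin (d + 1) → ℝ) : ‖y‖ = max |y 0| ‖Fin.tail y‖ :=
  le_antisymm ((pi_norm_le_iff_of_nonneg (by positivity)).2 fun i => Fin.cases (le_max_left _ _)
      (fun i => (norm_le_pi_norm (Fin.tail y) i).trans (le_max_right _ _)) i)
    (max_le (norm_le_pi_norm y 0)
      ((pi_norm_le_iff_of_nonneg (norm_nonneg _)).2 fun i => norm_le_pi_norm y i.succ))

omit [FiniteDimensional ℝ F] in
theorem MConn.preconn {m : ℕ} {Ω : Set F} (h : MConn m Ω) : IsPreconnected Ω := by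
  refine isPreconnected_of_forall_pair fun a ha b hb => ?_
  have n : ∀ y : Fin (0 + 1) → ℝ, y ∈ sphere (0 : Fin (0 + 1) → ℝ) 1 ↔ |y 0| = 1 := fun y => by
    rw [mem_sphere_zero_iff_norm, kcon_norm, Subsingleton.elim (Fin.tail y) 0, norm_zero,
      max_eq_left (abs_nonneg _)]
  obtain ⟨G, h1, h2, h3⟩ := h.2 0 m.zero_le (fun y => ((1 + y 0) / 2) • a + ((1 - y 0) / 2) • b)
    (by fun_prop) fun y hy => by
      rcases abs_eq zero_le_one |>.1 ((n y).1 hy) with e | e <;> simpa [e]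
  refine ⟨G '' closedBall 0 1, h3.image_subset, ⟨fun _ => 1, by simp, ?_⟩, ⟨fun _ => -1, by simp, ?_⟩,
    (convex_closedBall _ _).isPreconnected.image G h1⟩
  · rw [h2 ((n _).2 (by simp))]
    simp
  · rw [h2 ((n _).2 (by simp))]
    simp

omit [NormedSpace ℝ F] [FiniteDimensional ℝ F] in
theorem kcon_ball {d : ℕ} {G : (Fin d → ℝ) → F} (h : ContinuousOn G (closedBall 0 1)) :
    ∃ G' : (Fin d → ℝ) → F, Continuous G' ∧ EqOn G' G (closedBall 0 1) := by
  refine ⟨fun y => G fun i => max (-1) (min (y i) 1), h.comp_continuous (by fun_prop) fun y => ?_,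
    fun y hy => congrArg G (funext fun i => ?_)⟩
  · exact mem_closedBall_zero_iff.2 ((pi_norm_le_iff_of_nonneg zero_le_one).2 fun i =>
      abs_le.2 ⟨le_max_left _ _, max_le (by norm_num) (min_le_right _ _)⟩)
  · have := abs_le.1 ((norm_le_pi_norm y i).trans (mem_closedBall_zero_iff.1 hy))
    rw [min_eq_left this.2, max_eq_right this.1]

theorem MConn.cub {m : ℕ} {Ω : Set F} (h : MConn m Ω) {z : F} (hz : z ∈ Ω) {R : ℝ}
    (hR : ∃ k : ℕ, R = k) {φ : (ι → ℝ) → F} (hφ : Continuous φ) {d : ℕ} (hd : d ≤ m + 1) :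
    ∃ k : (ι → ℝ) × ℝ → F, Continuous k ∧ (∀ x, k (x, 0) = φ x) ∧ (∀ x, k (x, 1) = z) ∧
      ∀ x ∈ SkL d ∩ closedBall (0 : ι → ℝ) R, (∀ y, InCar y x → φ y ∈ Ω) →
        ∀ t ∈ Icc (0 : ℝ) 1, k (x, t) ∈ Ω := by
  induction d with
  | zero =>
    exact ⟨fun p => (1 - p.2) • φ p.1 + p.2 • z, by fun_prop, by simp, by simp,
      fun x ⟨⟨_, c, _⟩, _⟩ => absurd c (Nat.not_lt_zero _)⟩
  | succ d ih =>
    obtain ⟨k, k1, k2, k3, k4⟩ := ih (by omega)
    obtain ⟨g, g1, g2, g3⟩ := cell_ext (d := d) (R := R)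
      (Cs := {q | q ∈ Ctr d R ∧ ∀ y, InCar y q → φ y ∈ Ω}) (fun _ c => c.1) k1 (O := Ω)
      fun q hq hn => by
        obtain ⟨c, π, c1, c2, c3, c4⟩ := cell_chart hq.1 hn
        have ct : Continuous fun y : Fin (d + 1) → ℝ => Fin.tail y :=
          continuous_pi fun i => continuous_apply _
        obtain ⟨G, h1, h2, h3⟩ := h.2 d (by omega) (fun y => k (c (Fin.tail y), (y 0 + 1) / 2))
          (k1.comp ((c1.comp ct).prodMk (by fun_prop))).continuousOn fun y hy => by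
            have e := mem_sphere_zero_iff_norm.1 hy
            rw [kcon_norm] at e
            have e1 := abs_le.1 ((le_max_left _ _).trans e.le)
            obtain ⟨i1, i2⟩ := c4 _ ((le_max_right _ _).trans e.le)
            rcases max_choice |y 0| ‖Fin.tail y‖ with o | o
            · rcases (abs_eq zero_le_one).1 (o.symm.trans e) with o | o
              · simpa [o, k3] using hz
              · simpa [o, k2] using hq.2 _ i1
            · exact k4 _ ⟨i2 (o.symm.trans e), i1.ball hR hq.1.2.1⟩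
                (fun y hy => hq.2 y (hy.trans i1)) _ ⟨by linarith, by linarith⟩
        obtain ⟨G', j1, j2⟩ := kcon_ball h1
        refine ⟨fun p => G' (Fin.cons (2 * p.2 - 1) (π p.1)), j1.comp (continuous_pi fun i =>
          Fin.cases (by simp only [Fin.cons_zero]; fun_prop)
            (fun i => by simp only [Fin.cons_succ]; fun_prop) i), fun x hx s hs => ?_⟩
        obtain ⟨i1, i2, i3⟩ := c3 x hx
        have n := kcon_norm (Fin.cons (2 * s - 1) (π x))
        rw [Fin.cons_zero, Fin.tail_cons] at n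
        have a1 : |2 * s - 1| ≤ 1 := abs_le.2 ⟨by linarith [hs.1], by linarith [hs.2]⟩
        have m1 := mem_closedBall_zero_iff.2 (n.trans_le (max_le a1 i2))
        refine ⟨by simpa only [j2 m1] using h3 m1, fun o => ?_⟩
        have m2 : max |2 * s - 1| ‖π x‖ = 1 := by
          rcases o with o | rfl | rfl
          · rw [i3 o, max_eq_right a1]
          · simpa using i2
          · norm_num
            exact i2
        simp only [j2 m1, h2 (mem_sphere_zero_iff_norm.2 (n.trans m2)), Fin.cons_zero,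
          Fin.tail_cons, i1]
        rw [show (2 * s - 1 + 1) / 2 = s by ring]
    refine ⟨g, g1, fun x => (g2 x 0 (by simp)).trans (k2 x), fun x => (g2 x 1 (by simp)).trans (k3 x),
      fun x hx hy t ht => ?_⟩
    by_cases o : x ∈ SkL d
    · exact g2 x t (Or.inl o) ▸ k4 x ⟨o, hx.2⟩ hy t ht
    · obtain ⟨q, q1, q2, q3⟩ := exists_ctr hR (skl_succ.1 hx.1) hx.2
      exact g3 q ⟨q1, fun y c => hy y (c.trans q3)⟩ (fun c => o (q2.skl c)) x q2 t ht

theorem MConn.contract {m : ℕ} {Ω : Set F} (hΩ : IsOpen Ω) (h : MConn m Ω) {z : F} (hz : z ∈ Ω)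
    {Y : Set (ι → ℝ)} (hY : IsCompact Y) (hd : Sm m Y) {φ : (ι → ℝ) → F} (hφ : Continuous φ)
    (hm : MapsTo φ Y Ω) :
    ∃ k : (ι → ℝ) × ℝ → F, Continuous k ∧ ∀ x ∈ Y, k (x, 0) = φ x ∧ k (x, 1) = z ∧
      ∀ t ∈ Icc (0 : ℝ) 1, k (x, t) ∈ Ω := by
  obtain ⟨δ, δ0, hδ⟩ := hY.exists_cthickening_subset_open (hΩ.preimage hφ) hm
  have cq : Continuous fun x : ι → ℝ => δ⁻¹ • x := by fun_prop
  obtain ⟨q, q1, -, q2⟩ := push (d := m) (A := ∅) hY (by rwa [diff_empty]) isClosed_empty cq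
    fun _ c => c.1.elim
  obtain ⟨r, hr⟩ := (hY.image cq).isBounded.subset_closedBall 0
  have key : ∀ x ∈ Y, ∀ y, InCar y (δ⁻¹ • x) → φ (δ • y) ∈ Ω := fun x hx y hy =>
    hδ (mem_cthickening_of_dist_le _ x _ _ hx (by
      rw [dist_eq_norm, ← smul_inv_smul₀ δ0.ne' x, ← smul_sub, norm_smul, Real.norm_of_nonneg δ0.le]
      exact mul_le_of_le_one_right δ0.le hy.near))
  obtain ⟨k, k1, k2, k3, k4⟩ := h.cub hz (R := ⌈r⌉₊) ⟨_, rfl⟩ (φ := fun x : ι → ℝ => φ (δ • x))
    (by fun_prop) le_rfl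
  have e : ∀ x, (fun p : (ι → ℝ) × ℝ => φ (δ • ((1 - p.2) • δ⁻¹ • p.1 + p.2 • q p.1))) (x, 1) =
      (fun p : (ι → ℝ) × ℝ => k (q p.1, p.2)) (x, 0) := fun x => by simp [k2]
  refine ⟨cat (fun p => φ (δ • ((1 - p.2) • δ⁻¹ • p.1 + p.2 • q p.1))) fun p => k (q p.1, p.2),
    cat_cont (by fun_prop) (by fun_prop), fun x hx => ⟨?_, (cat_one (e x)).trans (k3 _),
      cat_mem (e x) (fun s hs => key x hx _ ((InCar.refl _).combo (q2 x hx).2 hs))
        (k4 _ ⟨skl_succ.2 (q2 x hx).1, (q2 x hx).2.ball ⟨_, rfl⟩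
          (closedBall_subset_closedBall (Nat.le_ceil r) (hr ⟨x, hx, rfl⟩))⟩
          fun y hy => key x hx y (hy.trans (q2 x hx).2))⟩⟩
  rw [cat_zero]
  simp [smul_inv_smul₀ δ0.ne']

end BEp
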