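import Pool.Agent.Work.MP_f0515e_an.Pos.KCell
import Pool.Agent.Work.MP_f0515e_an.Pos.HHopf

/-!
Odd extension over the top cells of a symmetric cubical complex.

Plan.  Let `Cp = {q ∈ Cs | WellOrderingRel q (q ∘ σ)}`; for `q ∈ Cs` exactly one of `q`, `q ∘ σ` is in `Cp`
(trichotomy and asymmetry of `WellOrderingRel`).  For `q ∈ Cp`, `q ∉ SkL d`: `cell_chart`, `hopf` on the convex
set `ball 0 1 ×ˢ Ioo 0 1` (`frontier_prod_Ioo`, `frontier_ball`) gives `v₀`, and `v (x, s) = v₀ (π x, s)`;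
`cell_ext` with `O = {0}ᶜ` gives `g`.  `glue_odd` with the linear map `i (x, s) = (x ∘ σ, s)`, `u = G`, `v = g`,
`A = {x ∈ SkL d ∨ s = 0 ∨ s = 1}`, `B = ⋃ q ∈ Cp, {x | InCar x q} ×ˢ [0,1]` (finite union, `ctr_finite`);
`ctr_inter'` and `InCar.perm` give `B ∩ i ⁻¹' B ⊆ A`.
-/

open Set Metric Filter Topology Function BEv
open scoped NNReal

noncomputable section
namespace BEp

variable {ι : Type} [Fintype ι] {F : Type} [NormedAddCommGroup F] [NormedSpace ℝ F]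
  [FiniteDimensional ℝ F]

theorem kcub_cell {d : ℕ} (hd : d + 1 = Module.finrank ℝ F) (h3 : 3 ≤ Module.finrank ℝ F) {R : ℝ}
    {q : ι → ℝ} (hq : q ∈ Ctr d R) (hn : q ∉ SkL d) {G : (ι → ℝ) × ℝ → F} (hG : Continuous G)
    (hne : ∀ x, InCar x q → ∀ s ∈ Icc (0 : ℝ) 1, x ∈ SkL d ∨ s = 0 ∨ s = 1 → G (x, s) ≠ 0)
    (hdeg : ∀ c : (Fin d → ℝ) → ι → ℝ, Continuous c →
      (∀ y, ‖y‖ ≤ 1 → InCar (c y) q ∧ (‖y‖ = 1 → c y ∈ SkL d)) →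
      deg (ball (0 : Fin d → ℝ) 1 ×ˢ Ioo (0 : ℝ) 1)
        (fun z : (Fin d → ℝ) × ℝ => G (c z.1, z.2)) = 0) :
    ∃ v : (ι → ℝ) × ℝ → F, Continuous v ∧ ∀ x, InCar x q → ∀ s ∈ Icc (0 : ℝ) 1,
      v (x, s) ∈ ({0}ᶜ : Set F) ∧ (x ∈ SkL d ∨ s = 0 ∨ s = 1 → v (x, s) = G (x, s)) := by
  obtain ⟨c, π, hc, hπ, h1, h2⟩ := cell_chart hq hn
  have hO : IsOpen (ball (0 : Fin d → ℝ) 1 ×ˢ Ioo (0 : ℝ) 1) := isOpen_ball.prod isOpen_Ioo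
  have ha : Adm (ball (0 : Fin d → ℝ) 1 ×ˢ Ioo (0 : ℝ) 1)
      (fun z : (Fin d → ℝ) × ℝ => G (c z.1, z.2)) := by
    refine ⟨hO, isBounded_ball.prod (Metric.isBounded_Ioo 0 1), by fun_prop, fun z hz => ?_⟩
    rcases frontier_prod_Ioo isOpen_ball hz with ⟨k1, k2⟩ | ⟨k1, k2⟩
    · rw [frontier_ball _ one_ne_zero, mem_sphere_zero_iff_norm] at k1
      exact hne _ (h2 _ k1.le).1 _ k2 (Or.inl ((h2 _ k1.le).2 k1))
    · rw [closure_ball _ one_ne_zero, mem_closedBall_zero_iff] at k1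
      refine hne _ (h2 _ k1).1 _ ?_ (Or.inr k2)
      rcases k2 with k2 | k2 <;> simp [k2]
  obtain ⟨v, hv, e1, e2⟩ := hopf (by simp [← hd]) h3 ((convex_ball _ _).prod (convex_Ioo _ _)) ha
    (hdeg c hc h2)
  refine ⟨fun z => v (π z.1, z.2), by fun_prop, fun x hx s hs => ?_⟩
  obtain ⟨k1, k2, k3⟩ := h1 x hx
  have hcl : (π x, s) ∈ closure (ball (0 : Fin d → ℝ) 1 ×ˢ Ioo (0 : ℝ) 1) := by
    rw [closure_prod_eq, closure_ball _ one_ne_zero, closure_Ioo zero_ne_one]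
    exact ⟨mem_closedBall_zero_iff.2 k2, hs⟩
  refine ⟨e2 _ hcl, fun k => ?_⟩
  have hfr : (π x, s) ∈ frontier (ball (0 : Fin d → ℝ) 1 ×ˢ Ioo (0 : ℝ) 1) := by
    rw [hO.frontier_eq]
    refine ⟨hcl, fun r => ?_⟩
    rcases k with k | k | k
    exacts [(mem_ball_zero_iff.1 r.1).ne (k3 k), r.2.1.ne' k, r.2.2.ne k]
  have := e1 hfr
  simp only [k1] at this
  exact this

theorem cub_ext (σ : Equiv.Perm ι) (hσ : ∀ l, σ (σ l) = l) {d : ℕ}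
    (hd : d + 1 = Module.finrank ℝ F) (h3 : 3 ≤ Module.finrank ℝ F) {R : ℝ}
    {Cs : Set (ι → ℝ)} (hC : Cs ⊆ Ctr d R) (hs : ∀ q ∈ Cs, q ∘ σ ∈ Cs ∧ q ∘ σ ≠ q)
    {G : (ι → ℝ) × ℝ → F} (hG : Continuous G) (ho : ∀ x s, G (x ∘ σ, s) = -G (x, s))
    (hne : ∀ q ∈ Cs, ∀ x, InCar x q → ∀ s ∈ Icc (0 : ℝ) 1, x ∈ SkL d ∨ s = 0 ∨ s = 1 →
      G (x, s) ≠ 0)
    (hdeg : ∀ q ∈ Cs, ∀ c : (Fin d → ℝ) → ι → ℝ, Continuous c →
      (∀ y, ‖y‖ ≤ 1 → InCar (c y) q ∧ (‖y‖ = 1 → c y ∈ SkL d)) →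
      deg (ball (0 : Fin d → ℝ) 1 ×ˢ Ioo (0 : ℝ) 1)
        (fun z : (Fin d → ℝ) × ℝ => G (c z.1, z.2)) = 0) :
    ∃ G' : (ι → ℝ) × ℝ → F, Continuous G' ∧ (∀ x s, G' (x ∘ σ, s) = -G' (x, s)) ∧
      (∀ x, G' (x, 0) = G (x, 0)) ∧ (∀ x, G' (x, 1) = G (x, 1)) ∧
      ∀ q ∈ Cs, ∀ x, InCar x q → ∀ s ∈ Icc (0 : ℝ) 1, G' (x, s) ≠ 0 := by
  have hσσ : ∀ x : ι → ℝ, (x ∘ σ) ∘ σ = x := fun x => funext fun l => congrArg x (hσ l)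
  obtain ⟨Cp, hCp⟩ : ∃ Cp : Set (ι → ℝ), ∀ q, q ∈ Cp ↔ q ∈ Cs ∧ WellOrderingRel q (q ∘ σ) :=
    ⟨{q | q ∈ Cs ∧ WellOrderingRel q (q ∘ σ)}, fun _ => Iff.rfl⟩
  have hsub : Cp ⊆ Ctr d R := fun q hq => hC ((hCp q).1 hq).1
  obtain ⟨g, hg, g1, g2⟩ := cell_ext hsub hG (O := ({0}ᶜ : Set F)) fun q hq hn =>
    kcub_cell hd h3 (hsub hq) hn hG (hne q ((hCp q).1 hq).1) (hdeg q ((hCp q).1 hq).1)
  let i : (ι → ℝ) × ℝ →L[ℝ] (ι → ℝ) × ℝ :=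
    (ContinuousLinearMap.pi fun l => ContinuousLinearMap.proj (σ l)).prodMap
      (ContinuousLinearMap.id ℝ ℝ)
  have hi : ∀ z, i z = (z.1 ∘ σ, z.2) := fun _ => rfl
  have hA : IsClosed {z : (ι → ℝ) × ℝ | z.1 ∈ SkL d ∨ z.2 = 0 ∨ z.2 = 1} :=
    ((skl_closed d).preimage continuous_fst).union
      ((isClosed_eq continuous_snd continuous_const).union
        (isClosed_eq continuous_snd continuous_const))
  have hB : IsClosed (⋃ q ∈ Cp, {x : ι → ℝ | InCar x q} ×ˢ Icc (0 : ℝ) 1) :=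
    ((ctr_finite d R).subset hsub).isClosed_biUnion fun q _ => (inCar_closed q).prod isClosed_Icc
  obtain ⟨G', c1, c2, c3, c4⟩ := glue_odd i (fun z => by rw [hi, hi, hσσ]) hA hB
    (fun z hz => Or.imp_left (fun k => skl_perm k σ) hz)
    (fun z hz hz' => by
      obtain ⟨q, hq, k1, -⟩ := mem_iUnion₂.1 hz
      obtain ⟨q', hq', k2, -⟩ := mem_iUnion₂.1 hz'
      have k3 : InCar z.1 (q' ∘ σ) := hσσ z.1 ▸ InCar.perm (x := z.1 ∘ σ) k2 σ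
      refine Or.inl (ctr_inter' (hsub hq) (ctr_perm (hsub hq') σ) ?_ k1 k3)
      rintro rfl
      have k4 := ((hCp _).1 hq).2
      rw [hσσ] at k4
      exact asymm k4 ((hCp _).1 hq').2)
    hG hg (fun z => ho z.1 z.2) fun z hz => (g1 z.1 z.2 hz.1).symm
  have key : ∀ q ∈ Cp, q ∉ SkL d → ∀ x, InCar x q → ∀ s ∈ Icc (0 : ℝ) 1, G' (x, s) ≠ 0 :=
    fun q hq hn x hx s hs' => by
      rw [@c4 (x, s) (mem_iUnion₂.2 ⟨q, hq, hx, hs'⟩)]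
      exact g2 q hq hn x hx s hs'
  refine ⟨G', c1, fun x s => c2 (x, s), fun x => c3 (Or.inr (Or.inl rfl)),
    fun x => c3 (Or.inr (Or.inr rfl)), fun q hq x hx s hs' => ?_⟩
  by_cases hn : q ∈ SkL d
  · rw [@c3 (x, s) (Or.inl (hx.skl hn))]
    exact hne q hq x hx s hs' (Or.inl (hx.skl hn))
  rcases trichotomous_of WellOrderingRel q (q ∘ σ) with k | k | k
  · exact key q ((hCp q).2 ⟨hq, k⟩) hn x hx s hs'
  · exact absurd k.symm (hs q hq).2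
  · have k1 := key (q ∘ σ) ((hCp _).2 ⟨(hs q hq).1, by rwa [hσσ]⟩)
      (fun r => hn (hσσ q ▸ skl_perm r σ)) _ (hx.perm σ) s hs'
    exact fun r => k1 ((c2 (x, s)).trans (by rw [r, neg_zero]))

end BEp
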