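import Pool.Agent.Work.MP_f0515e_an.Pos.KTr2
import Pool.Agent.Work.MP_f0515e_an.Pos.KCon

/-!
The difference map of an embedding of a highly connected open set.
-/

open Set Metric Filter Topology Function BEv
open scoped NNReal

noncomputable section
namespace BEp

/-- `Y` deforms inside `S` into a set of dimension at most `m`. -/
def WD (m : ℕ) (S Y : Set (V m)) : Prop :=
  ∃ (h : V m × ℝ → V m) (Y' : Set (V m)), Continuous h ∧ Sm m Y' ∧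
    ∀ x ∈ Y, h (x, 0) = x ∧ h (x, 1) ∈ Y' ∧ ∀ t ∈ Icc (0 : ℝ) 1, h (x, t) ∈ S

theorem nat_of_mconn {m : ℕ} (hm : 1 ≤ m) {Ω : Set (V m)} (hΩ : IsOpen Ω) (hc : MConn m Ω)
    {f : V m → V m} (hf : ContinuousOn f Ω) (hi : InjOn f Ω) :
    ∃ σ : ℝ, (σ = 1 ∨ σ = -1) ∧ ∀ (θ : V m → V m) (S Y : Set (V m)), Continuous θ →
      MapsTo θ S Ω → InjOn θ S → IsCompact Y → WD m S Y → ∀ D : Set (V m × V m), IsCompact D →
      Symm D → Sm (2 * m) D → (∀ p ∈ D, p.1 ∈ Y ∧ p.2 ∈ Y ∧ p.1 ≠ p.2) →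
      ∃ H, OH D (tl fun x => σ • f (θ x)) (tl θ) H := by
  obtain ⟨σ, hσ, hl⟩ := exists_sign hm hΩ hc.preconn hf hi
  refine ⟨σ, hσ, fun θ S Y hθ hS hθi hY ⟨h, Y', h1, h2, h3⟩ D hD hs hd hDY => ?_⟩
  obtain ⟨z, hz⟩ := hc.1
  have hYS : ∀ x ∈ Y, x ∈ S := fun x hx => (h3 x hx).1 ▸ (h3 x hx).2.2 0 ⟨le_rfl, zero_le_one⟩
  obtain ⟨k, k1, k2⟩ := hc.contract hΩ hz (Y := (fun x => h (x, 1)) '' Y)
    (hY.image (by fun_prop)) (h2.mono (by rintro _ ⟨x, hx, rfl⟩; exact (h3 x hx).2.1)) hθ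
    (by rintro _ ⟨x, hx, rfl⟩; exact hS ((h3 x hx).2.2 1 ⟨zero_le_one, le_rfl⟩))
  obtain ⟨c, cd⟩ : ∃ c : V m × ℝ → V m, c = cat (fun q => θ (h q)) (fun q => k (h (q.1, 1), q.2)) :=
    ⟨_, rfl⟩
  have cc : Continuous c := cd ▸ cat_cont (by fun_prop) (by fun_prop)
  have cm : ∀ x ∈ Y, θ (h (x, 1)) = k (h (x, 1), 0) := fun x hx => (k2 _ ⟨x, hx, rfl⟩).1.symm
  have c0 : ∀ x ∈ Y, c (x, 0) = θ x := fun x hx => by rw [cd, cat_zero, (h3 x hx).1]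
  have c1 : ∀ x ∈ Y, c (x, 1) = z := fun x hx => by
    rw [cd, cat_one (H := fun q => θ (h q)) (cm x hx)]
    exact (k2 _ ⟨x, hx, rfl⟩).2.1
  have c2 : ∀ x ∈ Y, ∀ t ∈ Icc (0 : ℝ) 1, c (x, t) ∈ Ω := fun x hx => cd ▸
    cat_mem (H := fun q => θ (h q)) (cm x hx) (fun t ht => hS ((h3 x hx).2.2 t ht))
      (k2 _ ⟨x, hx, rfl⟩).2.2
  have hC : IsCompact (insert z (c '' (Y ×ˢ Icc (0 : ℝ) 1))) :=
    ((hY.prod isCompact_Icc).image cc).insert z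
  obtain ⟨K, hK, hK1, hK2⟩ := exists_compact_between hC hΩ (by
    rintro _ (rfl | ⟨q, hq, rfl⟩)
    exacts [hz, c2 _ hq.1 _ hq.2])
  have : TietzeExtension (V m) := TietzeExtension.of_tvs ℝ
  obtain ⟨g, hg⟩ := ContinuousMap.exists_restrict_eq hK.isClosed
    (⟨K.domRestrict fun x => σ • f x, ((hf.mono hK2).const_smul σ).domRestrict⟩ : C(K, V m))
  have ge : ∀ x ∈ interior K, g x = σ • f x := fun x hx =>
    congrArg (fun u : C(K, V m) => u ⟨x, interior_subset hx⟩) hg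
  have hσ0 : σ ≠ 0 := by rcases hσ with rfl | rfl <;> norm_num
  have hsub : interior K ⊆ Ω := interior_subset.trans hK2
  have cK : ∀ x ∈ Y, ∀ t ∈ Icc (0 : ℝ) 1, c (x, t) ∈ interior K := fun x hx t ht =>
    hK1 (Or.inr ⟨(x, t), ⟨hx, ht⟩, rfl⟩)
  obtain ⟨H, hH⟩ := transfer hm isOpen_interior g.continuous
    (fun x hx y hy e => hi (hsub hx) (hsub hy)
      (smul_right_injective _ hσ0 (by simpa only [ge x hx, ge y hy] using e)))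
    (hl.congr hsub isOpen_interior ge) hD hs hd
    (W := fun q => (c (q.1.1, q.2), c (q.1.2, q.2))) (by fun_prop) (fun _ _ => rfl)
    (hK1 (mem_insert _ _)) fun p hp => by
      obtain ⟨p1, p2, p3⟩ := hDY p hp
      refine ⟨?_, by simp only [c1 _ p1, c1 _ p2], fun t ht => ⟨cK _ p1 t ht, cK _ p2 t ht⟩⟩
      simp only [c0 _ p1, c0 _ p2]
      exact fun e => p3 (hθi (hYS _ p1) (hYS _ p2) e)
  refine ⟨H, hH.cont, hH.odd, hH.ne, fun p hp => ?_, fun p hp => ?_⟩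
  · obtain ⟨p1, p2, -⟩ := hDY p hp
    have a1 := cK _ p1 0 ⟨le_rfl, zero_le_one⟩
    have a2 := cK _ p2 0 ⟨le_rfl, zero_le_one⟩
    rw [hH.zero p hp]
    simp only [tl]
    rw [ge _ a1, ge _ a2, c0 _ p1, c0 _ p2]
  · obtain ⟨p1, p2, -⟩ := hDY p hp
    rw [hH.one p hp]
    simp only [tl, id, c0 _ p1, c0 _ p2]

end BEp
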