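import Pool.Agent.Work.MP_f0515e_an.Pos.KSign

/-!
Coincidence numbers of pairs of maps are preserved by a positive embedding.

Plan.  `deg_loc`: induction on `S` generalizing `O`; for `z` take `r` small with `closedBall z r ⊆ O` and no other
point of `S` in it, so that both maps are nonzero on the sphere; `deg_add` with `ball z r` and
`O \ closedBall z r`; the empty case is `deg_nz`.
`deg_pair`: `b = tl id ∘ W` is admissible; `fin_approx` gives `v` close to `b`, equal to `b` off a compact subset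
of `O`, with finite zero set `S`; `W' x = ((W x).1 + (v x - b x), (W x).2)` has `tl id ∘ W' = v`, equals `W` on the
frontier and maps `closure O` into `Ω ×ˢ Ω` (`IsCompact.exists_cthickening_subset_open`).  The zeros of
`tl f ∘ W'` in `O` lie in `S`.  At `z ∈ S`, `W' z = (w, w)`; with `ρ` from `LS` at `w` and `r` small, apply `LS` to
`D = W' '' sphere z r ∪ swap '' ..` and use `deg_htp` on `ball z r`.  `deg_eqOn`.
-/

open Set Metric Filter Topology Function BEv
open scoped NNReal

noncomputable section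
namespace BEp

variable {E F G : Type} [NormedAddCommGroup E] [NormedSpace ℝ E] [FiniteDimensional ℝ E]
  [NormedAddCommGroup F] [NormedSpace ℝ F] [FiniteDimensional ℝ F]
  [NormedAddCommGroup G] [NormedSpace ℝ G] [FiniteDimensional ℝ G]

theorem deg_loc (h : Module.finrank ℝ E = Module.finrank ℝ F) {O : Set E} {a b : E → F}
    (ha : Adm O a) (hb : Adm O b) (S : Finset E) (hS : (↑S : Set E) ⊆ O)
    (h0 : ∀ x ∈ O, a x = 0 ∨ b x = 0 → x ∈ S)
    (hl : ∀ z ∈ S, ∀ᶠ r in 𝓝[>] (0 : ℝ), deg (ball z r) a = deg (ball z r) b) :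
    deg O a = deg O b := by
  classical
  induction S using Finset.induction_on generalizing O with
  | empty =>
    rw [deg_nz h ha fun x hx k => by simpa using h0 x hx (Or.inl k),
      deg_nz h hb fun x hx k => by simpa using h0 x hx (Or.inr k)]
  | insert z S hz ih =>
    have hzO : z ∈ O := hS (by simp)
    have hU : IsOpen (O \ (↑S : Set E)) := ha.1.sdiff S.finite_toSet.isClosed
    obtain ⟨ρ, hρ, hs⟩ := Metric.isOpen_iff.1 hU z ⟨hzO, by simpa using hz⟩
    have hlt : ∀ᶠ r in 𝓝[>] (0 : ℝ), r < ρ := nhdsWithin_le_nhds (Iio_mem_nhds hρ)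
    obtain ⟨r, ⟨hr1, hr2⟩, hr0⟩ :=
      (((hl z (by simp)).and hlt).and self_mem_nhdsWithin).exists
    have hr0 : 0 < r := hr0
    have hcb : closedBall z r ⊆ O \ (↑S : Set E) := (closedBall_subset_ball hr2).trans hs
    have o2 : IsOpen (O \ closedBall z r) := ha.1.sdiff isClosed_closedBall
    have s1 : ball z r ⊆ O := fun x hx => (hcb (ball_subset_closedBall hx)).1
    have hd : Disjoint (ball z r) (O \ closedBall z r) :=
      disjoint_left.2 fun x hx hx' => hx'.2 (ball_subset_closedBall hx)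
    have key : ∀ x ∈ O, a x = 0 ∨ b x = 0 → x ∈ ball z r ∪ (O \ closedBall z r) := by
      intro x hx k
      rcases Finset.mem_insert.1 (h0 x hx k) with rfl | hxS
      · exact Or.inl (mem_ball_self hr0)
      · exact Or.inr ⟨hx, fun c => (hcb c).2 hxS⟩
    obtain ⟨-, a2, ea⟩ := deg_add h ha isOpen_ball o2 s1 sdiff_subset hd
      fun x hx k => key x hx (Or.inl k)
    obtain ⟨-, b2, eb⟩ := deg_add h hb isOpen_ball o2 s1 sdiff_subset hd
      fun x hx k => key x hx (Or.inr k)
    rw [ea, eb, hr1, ih a2 b2 ?_ ?_ fun w hw => hl w (Finset.mem_insert_of_mem hw)]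
    · intro x hx
      exact ⟨hS (by simp [Finset.mem_coe.1 hx]), fun c => (hcb c).2 hx⟩
    · intro x hx k
      rcases Finset.mem_insert.1 (h0 x hx.1 k) with rfl | hxS
      · exact absurd (mem_closedBall_self hr0.le) hx.2
      · exact hxS

theorem deg_pair {m : ℕ} {Ω : Set (V m)} (hΩ : IsOpen Ω) {f : V m → V m} (hf : Continuous f)
    (hi : InjOn f Ω) (hl : LS Ω f) (hE : Module.finrank ℝ E = 2 * m + 1) {O : Set E}
    (hO : IsOpen O) (hb : Bornology.IsBounded O) {W : E → V m × V m} (hW : Continuous W)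
    (hm : ∀ x ∈ closure O, (W x).1 ∈ Ω ∧ (W x).2 ∈ Ω)
    (hfr : ∀ x ∈ frontier O, (W x).1 ≠ (W x).2) :
    deg O (fun x => tl f (W x)) = deg O (fun x => tl id (W x)) := by
  have h : Module.finrank ℝ E = Module.finrank ℝ (V m) := by rw [hE]; simp
  have cb : Continuous fun x => tl id (W x) := by unfold tl; fun_prop
  have ca : Continuous fun x => tl f (W x) := by unfold tl; fun_prop
  have hcl : ∀ x ∈ frontier O, x ∈ closure O := fun x hx => frontier_subset_closure hx
  have ab : Adm O fun x => tl id (W x) :=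
    ⟨hO, hb, cb, fun x hx k => hfr x hx (sub_eq_zero.1 k)⟩
  have aa : Adm O fun x => tl f (W x) := ⟨hO, hb, ca, fun x hx k =>
    hfr x hx (hi (hm x (hcl x hx)).1 (hm x (hcl x hx)).2 (sub_eq_zero.1 k))⟩
  have hK : IsCompact ((fun x => (W x).1) '' closure O) :=
    hb.isCompact_closure.image (by fun_prop)
  obtain ⟨ε, hε, hs⟩ := hK.exists_cthickening_subset_open hΩ
    (by rintro _ ⟨x, hx, rfl⟩; exact (hm x hx).1)
  obtain ⟨v, T, S, M, cv, -, hT, e, hc, hS, hz, hM⟩ := fin_approx h ab hε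
  let W' : E → V m × V m := fun x => ((W x).1 + (v x - tl id (W x)), (W x).2)
  have cW : Continuous W' := by
    refine Continuous.prodMk (hW.fst.add (cv.sub cb)) hW.snd
  have hv : ∀ x, (W' x).1 - (W' x).2 = v x := fun x => by
    simp only [W', tl, id]; abel
  have hm' : ∀ x ∈ closure O, (W' x).1 ∈ Ω ∧ (W' x).2 ∈ Ω := fun x hx => by
    refine ⟨hs (mem_cthickening_of_dist_le _ (W x).1 _ _ ⟨x, hx, rfl⟩ ?_), (hm x hx).2⟩
    rw [dist_eq_norm]
    simpa [W'] using hc x
  have hfe : ∀ x ∈ frontier O, v x = tl id (W x) := fun x hx =>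
    e x fun k => (hO.frontier_eq ▸ hx).2 (hT k)
  have hW' : ∀ x ∈ frontier O, W' x = W x := fun x hx => by
    simp only [W', hfe x hx, sub_self, add_zero]
  have ca' : Continuous fun x => tl f (W' x) := by unfold tl; fun_prop
  have ea : EqOn (fun x => tl f (W x)) (fun x => tl f (W' x)) (frontier O) :=
    fun x hx => by simp only [hW' x hx]
  have eb : EqOn (fun x => tl id (W x)) v (frontier O) := fun x hx => (hfe x hx).symm
  rw [deg_eqOn h aa ca' ea, deg_eqOn h ab cv eb]
  refine deg_loc h (aa.of_eqOn ca' ea) (ab.of_eqOn cv eb) S hS ?_ ?_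
  · rintro x hx (k | k)
    · refine hz x hx ?_
      have hx' := hm' x (subset_closure hx)
      rw [← hv x, hi hx'.1 hx'.2 (sub_eq_zero.1 k), sub_self]
    · exact hz x hx k
  · intro z hzS
    have hzO : z ∈ O := hS hzS
    have hv0 : v z = 0 := by simpa using (hM z hzS).self_of_nhds
    have hw : (W' z).1 = (W' z).2 := sub_eq_zero.1 ((hv z).trans hv0)
    obtain ⟨ρ, hρ, hD⟩ := hl (W' z).2 (hm' z (subset_closure hzO)).2
    have n1 : ∀ᶠ x in 𝓝 z, (W' x).1 ∈ ball (W' z).2 ρ :=
      cW.fst.continuousAt.eventually (isOpen_ball.mem_nhds (by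
        show (W' z).1 ∈ _
        rw [hw]; exact mem_ball_self hρ))
    have n2 : ∀ᶠ x in 𝓝 z, (W' x).2 ∈ ball (W' z).2 ρ :=
      cW.snd.continuousAt.eventually (isOpen_ball.mem_nhds (mem_ball_self hρ))
    obtain ⟨δ, hδ, hn⟩ := Metric.eventually_nhds_iff_ball.1 ((n1.and n2).and (hM z hzS))
    have hlt : ∀ᶠ r in 𝓝[>] (0 : ℝ), r < δ := nhdsWithin_le_nhds (Iio_mem_nhds hδ)
    filter_upwards [hlt, self_mem_nhdsWithin] with r hr hr0
    have hr0 : 0 < r := hr0
    have hsp : ∀ x ∈ sphere z r, (W' x).1 ∈ ball (W' z).2 ρ ∧ (W' x).2 ∈ ball (W' z).2 ρ ∧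
        (W' x).1 ≠ (W' x).2 := by
      intro x hx
      have hx' := hn x (sphere_subset_ball hr hx)
      refine ⟨hx'.1.1, hx'.1.2, fun k => ?_⟩
      have k2 : M z (x - z) = 0 := hx'.2.symm.trans (by rw [← hv x, k, sub_self])
      have : x = z := sub_eq_zero.1 ((M z).map_eq_zero_iff.1 k2)
      rw [this, mem_sphere, dist_self] at hx
      exact hr0.ne hx
    have hC : IsCompact (W' '' sphere z r) := (isCompact_sphere z r).image cW
    obtain ⟨H, hH⟩ := hD (W' '' sphere z r ∪ Prod.swap '' (W' '' sphere z r))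
      (hC.union (hC.image continuous_swap))
      (by
        rintro p (hp | ⟨q, hq, rfl⟩)
        · exact Or.inr ⟨p, hp, rfl⟩
        · exact Or.inl (by simpa using hq))
      (by
        rintro p (⟨x, hx, rfl⟩ | ⟨_, ⟨x, hx, rfl⟩, rfl⟩)
        · exact hsp x hx
        · exact ⟨(hsp x hx).2.1, (hsp x hx).1, (hsp x hx).2.2.symm⟩)
    have hmem : ∀ x ∈ frontier (ball z r),
        W' x ∈ W' '' sphere z r ∪ Prod.swap '' (W' '' sphere z r) := fun x hx =>
      Or.inl ⟨x, frontier_ball z hr0.ne' ▸ hx, rfl⟩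
    have cH := hH.cont
    exact (deg_htp h isOpen_ball isBounded_ball (H := fun p : E × ℝ => H (W' p.1, p.2))
      (by fun_prop) (fun x hx s hs => hH.ne _ (hmem x hx) s hs) ca' cv
      (fun x hx => hH.zero _ (hmem x hx))
      (fun x hx => (hH.one _ (hmem x hx)).trans (hv x))).2.2

end BEp
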