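import Pool.Agent.Work.MP_f0515e_an.Pos.HNat

/-!
The local orientation of an embedding of a connected open set.

Plan.  For `z ∈ Ω` take `closedBall z r ⊆ Ω`; `f₁ = f ∘ ρ` with the coordinatewise clamp `ρ` onto the closed
ball is continuous and equals `f` on the ball; `nat_htp` for `S = closedBall z r` gives a sign valid at `z`
(`OH` only uses the values on `D`).  The sets `U σ` of points of `Ω` where `σ` is valid are open and cover `Ω`.
They are disjoint: otherwise on `D = {(z + v, z - v) | ‖v‖ = ρ}` there are odd homotopies from `tl f` and from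
`-tl f` to `tl id`, hence (`OH.rev`, `OH.cat`, negation) a nonvanishing homotopy on the sphere from `2 • v` to
`-2 • v`; `deg_htp`, `deg_smul` or `deg_aff`, `deg_target_self`, `sdet_neg`, `sg_cases` give a contradiction in odd
dimension.  `IsPreconnected.subset_or_subset`.
-/

open Set Metric Filter Topology Function BEv
open scoped NNReal

noncomputable section
namespace BEp

/-- Near every point of `Ω` the difference map of `f` is oddly homotopic to that of the identity. -/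
def LS {m : ℕ} (Ω : Set (V m)) (f : V m → V m) : Prop :=
  ∀ z ∈ Ω, ∃ r > 0, ∀ D : Set (V m × V m), IsCompact D → Symm D →
    (∀ p ∈ D, p.1 ∈ ball z r ∧ p.2 ∈ ball z r ∧ p.1 ≠ p.2) → ∃ H, OH D (tl f) (tl id) H

/-- The pointwise form of `LS`. -/
def KSign_at {m : ℕ} (f : V m → V m) (z : V m) : Prop :=
  ∃ r > 0, ∀ D : Set (V m × V m), IsCompact D → Symm D →
    (∀ p ∈ D, p.1 ∈ ball z r ∧ p.2 ∈ ball z r ∧ p.1 ≠ p.2) → ∃ H, OH D (tl f) (tl id) H

theorem KSign_congr {m : ℕ} {f f' : V m → V m} {z : V m} (h : KSign_at f z)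
    (e : f' =ᶠ[𝓝 z] f) : KSign_at f' z := by
  obtain ⟨r, hr, h⟩ := h
  obtain ⟨r', hr', e⟩ := Metric.eventually_nhds_iff_ball.1 e
  refine ⟨min r r', lt_min hr hr', fun D hD hs hp => ?_⟩
  have h1 : ball z (min r r') ⊆ ball z r := ball_subset_ball (min_le_left _ _)
  have h2 : ball z (min r r') ⊆ ball z r' := ball_subset_ball (min_le_right _ _)
  obtain ⟨H, hH⟩ := h D hD hs fun p k => ⟨h1 (hp p k).1, h1 (hp p k).2.1, (hp p k).2.2⟩
  refine ⟨H, hH.cont, hH.odd, hH.ne, fun p k => ?_, hH.one⟩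
  rw [hH.zero p k, tl, tl, e _ (h2 (hp p k).1), e _ (h2 (hp p k).2.1)]

theorem KSign_open {m : ℕ} (f : V m → V m) : IsOpen {z | KSign_at f z} := by
  refine Metric.isOpen_iff.2 fun z ⟨r, hr, h⟩ => ⟨r, hr, fun z' hz' => ?_⟩
  obtain ⟨r', hr', e⟩ := Metric.isOpen_iff.1 isOpen_ball z' hz'
  exact ⟨r', hr', fun D hD hs hp =>
    h D hD hs fun p k => ⟨e (hp p k).1, e (hp p k).2.1, (hp p k).2.2⟩⟩

theorem KSign_ex {m : ℕ} (hm : 1 ≤ m) {Ω : Set (V m)} (hΩ : IsOpen Ω) {f : V m → V m}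
    (hf : ContinuousOn f Ω) (hi : InjOn f Ω) {z : V m} (hz : z ∈ Ω) :
    KSign_at (fun x => (1 : ℝ) • f x) z ∨ KSign_at (fun x => (-1 : ℝ) • f x) z := by
  obtain ⟨r, hr, hS⟩ := Metric.nhds_basis_closedBall.mem_iff.1 (hΩ.mem_nhds hz)
  obtain ⟨g, hg⟩ := ContinuousMap.exists_restrict_eq (isClosed_closedBall (x := z) (ε := r))
    ⟨_, continuousOn_iff_continuous_domRestrict.1 (hf.mono hS)⟩
  have e : EqOn g f (closedBall z r) := fun x hx => DFunLike.congr_fun hg ⟨x, hx⟩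
  obtain ⟨σ, hσ, h⟩ := nat_htp hm ((convex_closedBall z r).starConvex (mem_closedBall_self hr.le))
    (closedBall_mem_nhds z hr) g.continuous (e.injOn_iff.2 (hi.mono hS))
  have k : KSign_at (fun x => σ • f x) z := by
    refine KSign_congr (f := fun x => σ • g x) ⟨r, hr, fun D hD hs hp => h D hD hs fun p k =>
      ⟨ball_subset_closedBall (hp p k).1, ball_subset_closedBall (hp p k).2.1, (hp p k).2.2⟩⟩ ?_
    filter_upwards [closedBall_mem_nhds z hr] with x hx
    rw [e hx]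
  rcases hσ with rfl | rfl
  exacts [Or.inl k, Or.inr k]

theorem KSign_disj {m : ℕ} {f : V m → V m} {z : V m} (h1 : KSign_at (fun x => (1 : ℝ) • f x) z)
    (h2 : KSign_at (fun x => (-1 : ℝ) • f x) z) : False := by
  obtain ⟨r, hr, h1⟩ := h1
  obtain ⟨r', hr', h2⟩ := h2
  obtain ⟨ρ, h0, k1, k2⟩ : ∃ ρ : ℝ, 0 < ρ ∧ ρ < r ∧ ρ < r' :=
    ⟨min r r' / 2, by positivity, by linarith [min_le_left r r', lt_min hr hr'],
      by linarith [min_le_right r r', lt_min hr hr']⟩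
  let φ : V m → V m × V m := fun v => (z + v, z - v)
  have hφ : Continuous φ := by fun_prop
  have hD : IsCompact (φ '' sphere 0 ρ) := (isCompact_sphere 0 ρ).image hφ
  have hs : Symm (φ '' sphere 0 ρ) := by
    rintro _ ⟨v, hv, rfl⟩
    exact ⟨-v, by simpa using hv, by simp [φ, sub_eq_add_neg]⟩
  have hne : ∀ v ∈ sphere (0 : V m) ρ, v ≠ 0 := fun v hv => ne_of_mem_sphere hv h0.ne'
  have e2 : ∀ v, tl id (φ v) = (2 : ℝ) • v := fun v => by
    simp only [tl, φ, id]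
    module
  have hp : ∀ t, ρ < t → ∀ p ∈ φ '' sphere 0 ρ, p.1 ∈ ball z t ∧ p.2 ∈ ball z t ∧ p.1 ≠ p.2 := by
    rintro t ht _ ⟨v, hv, rfl⟩
    have k := mem_sphere_zero_iff_norm.1 hv
    refine ⟨by simp [φ, k, ht], by simp [φ, k, ht], sub_ne_zero.1 ?_⟩
    change tl id (φ v) ≠ 0
    rw [e2]
    exact smul_ne_zero two_ne_zero (hne v hv)
  obtain ⟨H1, a1⟩ := h1 _ hD hs (hp r k1)
  obtain ⟨H2, a2⟩ := h2 _ hD hs (hp r' k2)
  have a3 : OH (φ '' sphere 0 ρ) (tl fun x => (1 : ℝ) • f x) (fun p => -tl id p)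
      (fun q => -H2 q) := by
    refine ⟨a2.cont.neg, fun p s => by rw [a2.odd], fun p k s ks => neg_ne_zero.2 (a2.ne p k s ks),
      fun p k => ?_, fun p k => by rw [a2.one p k]⟩
    rw [a2.zero p k]
    simp only [tl]
    module
  have a4 := a1.rev.cat a3
  have hfr : frontier (ball (0 : V m) ρ) = sphere 0 ρ := frontier_ball 0 h0.ne'
  have b0 : Adm (ball (0 : V m) ρ) (fun x => ContinuousLinearEquiv.refl ℝ (V m) (x - 0)) :=
    ⟨isOpen_ball, isBounded_ball, by fun_prop, fun x hx => by simpa using hne x (hfr ▸ hx)⟩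
  obtain ⟨b1, b2⟩ := deg_smul rfl b0 (c := fun _ => 2) continuous_const fun _ _ => two_pos
  rw [deg_aff _ isOpen_ball isBounded_ball (mem_ball_self h0)] at b2
  have b3 := deg_target_self rfl (ContinuousLinearEquiv.neg ℝ) b1
  obtain ⟨-, -, b4⟩ := deg_htp rfl isOpen_ball isBounded_ball
    (H := fun q : V m × ℝ => cat (rev H1) (fun q => -H2 q) (φ q.1, q.2))
    (a4.cont.comp (by fun_prop)) (fun x hx => a4.ne _ ⟨x, hfr ▸ hx, rfl⟩)
    b1.2.2.1 ((ContinuousLinearEquiv.neg ℝ).continuous.comp b1.2.2.1)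
    (fun x hx => by
      have := a4.zero _ ⟨x, hfr ▸ hx, rfl⟩
      rw [e2] at this
      simpa using this)
    (fun x hx => by
      have := a4.one _ ⟨x, hfr ▸ hx, rfl⟩
      rw [e2] at this
      simpa using this)
  have b5 : Module.finrank ℝ (V m) = 2 * m + 1 := by simp
  rw [sdet_neg, b5, pow_succ, pow_mul] at b3
  have b6 := b4.trans b3
  rw [b2] at b6
  rcases sg_cases (ContinuousLinearEquiv.refl ℝ (V m)) with k | k <;> rw [k] at b6 <;> simp at b6

theorem LS.congr {m : ℕ} {Ω Ω' : Set (V m)} {f f' : V m → V m} (h : LS Ω f) (hs : Ω' ⊆ Ω)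
    (ho : IsOpen Ω') (e : EqOn f' f Ω') : LS Ω' f' :=
  fun z hz => KSign_congr (h z (hs hz)) (mem_of_superset (ho.mem_nhds hz) e)

theorem exists_sign {m : ℕ} (hm : 1 ≤ m) {Ω : Set (V m)} (hΩ : IsOpen Ω)
    (hc : IsPreconnected Ω) {f : V m → V m} (hf : ContinuousOn f Ω) (hi : InjOn f Ω) :
    ∃ σ : ℝ, (σ = 1 ∨ σ = -1) ∧ LS Ω (fun x => σ • f x) := by
  rcases hc.subset_or_subset (KSign_open fun x => (1 : ℝ) • f x)
    (KSign_open fun x => (-1 : ℝ) • f x) (disjoint_left.2 fun z h1 h2 => KSign_disj h1 h2)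
    (fun z hz => KSign_ex hm hΩ hf hi hz) with h | h
  exacts [⟨1, Or.inl rfl, fun z hz => h hz⟩, ⟨-1, Or.inr rfl, fun z hz => h hz⟩]

end BEp
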