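import Pool.Agent.Work.MP_f0515e_an.Pos.KCub
import Pool.Agent.Work.MP_f0515e_an.Pos.KPair

/-!
Transfer of an odd homotopy along a homotopy of pairs: cubical complexes.

Plan.  `Dk = ⋃ q ∈ Cs, {x | InCar x q}` is compact and symmetric, and `σ` acts freely on it (`W (x, 0)` is off
the diagonal).  `avoid_gen` on `P = (Dk ∩ SkL (2 m)) ×ˢ [0,1]` relative to `{t = 0 ∨ t = 1}` with `j` the swap,
`Bad` the diagonal of `V m × V m` (`Sm (2 m + 1)`, image of `univ`), and `ε` so small that the new map `W₃`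
still sends `Dk ×ˢ [0,1]` into `Ω ×ˢ Ω`.  `a = tl f ∘ W₃`, `b = tl id ∘ W₃`, `G = cat a (cat K (rev b))`;
`cub_ext` with `d = 2 m`: on a cell the degree is `deg a + (0 + - deg b) = 0` by `deg_cat`, `deg_rev`, `deg_zero`,
`deg_pair` (`frontier_prod_Ioo`, `frontier_ball`, `closure_prod_eq`).
-/

open Set Metric Filter Topology Function BEv
open scoped NNReal

noncomputable section
namespace BEp

variable {ι : Type} [Fintype ι]

/-- The homotopy of pairs can be moved off the diagonal over the lower skeleton. -/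
theorem ktr1_off {m : ℕ} (hm : 1 ≤ m) {Ω : Set (V m)} (hΩ : IsOpen Ω) (σ : Equiv.Perm ι)
    (hσ : ∀ l, σ (σ l) = l) {D : Set (ι → ℝ)} (hD : IsCompact D) (hs : ∀ x ∈ D, x ∘ σ ∈ D)
    {W : (ι → ℝ) × ℝ → V m × V m} (hW : Continuous W)
    (ho : ∀ x t, W (x ∘ σ, t) = (W (x, t)).swap)
    (h : ∀ x ∈ D, (W (x, 0)).1 ≠ (W (x, 0)).2 ∧ (W (x, 1)).1 ≠ (W (x, 1)).2 ∧
      ∀ t ∈ Icc (0 : ℝ) 1, (W (x, t)).1 ∈ Ω ∧ (W (x, t)).2 ∈ Ω) :
    ∃ U : (ι → ℝ) × ℝ → V m × V m, Continuous U ∧ (∀ x t, U (x ∘ σ, t) = (U (x, t)).swap) ∧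
      (∀ x, U (x, 0) = W (x, 0) ∧ U (x, 1) = W (x, 1)) ∧ ∀ x ∈ D, ∀ t ∈ Icc (0 : ℝ) 1,
        (U (x, t)).1 ∈ Ω ∧ (U (x, t)).2 ∈ Ω ∧
          (x ∈ SkL (2 * m) ∨ t = 0 ∨ t = 1 → (U (x, t)).1 ≠ (U (x, t)).2) := by
  obtain ⟨δ, δ0, hδ⟩ := ((hD.prod (isCompact_Icc (a := (0 : ℝ)) (b := 1))).image
    hW).exists_cthickening_subset_open (hΩ.prod hΩ) (by
      rintro _ ⟨⟨x, t⟩, hx, rfl⟩
      exact (h x hx.1).2.2 t hx.2)
  have s1 : Sm (2 * m) (((D ∩ SkL (2 * m)) ×ˢ Icc (0 : ℝ) 1) \ {z | z.2 = 0 ∨ z.2 = 1}) :=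
    (((sm_skl (2 * m)).prod (Sm.real (Icc (0 : ℝ) 1))).le (by omega)).mono
      fun z hz => ⟨hz.1.1.2, hz.1.2⟩
  have s2 : Sm (2 * m + 1) {p : V m × V m | p.1 = p.2} := by
    have l : LipschitzWith (max 1 1) fun v : V m => (v, v) :=
      LipschitzWith.id.prodMk LipschitzWith.id
    refine (((Sm.univ (E := V m)).image l.locallyLipschitz.locallyLipschitzOn).le
      (by simp)).mono fun p hp => ⟨p.1, mem_univ _, Prod.ext rfl hp⟩
  obtain ⟨U, u1, u2, u3, u4, u5⟩ := avoid_gen (i := fun z : (ι → ℝ) × ℝ => (z.1 ∘ σ, z.2))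
    (by fun_prop) (fun z => Prod.ext (funext fun l => congrArg z.1 (hσ l)) rfl)
    (ContinuousLinearEquiv.prodComm ℝ (V m) (V m) : V m × V m →L[ℝ] V m × V m) (fun y => rfl)
    ((hD.inter_right (skl_closed _)).prod isCompact_Icc) s1
    ((isClosed_eq continuous_snd continuous_const).union
      (isClosed_eq continuous_snd continuous_const))
    (fun z hz => ⟨⟨hs _ hz.1.1, skl_perm hz.1.2 σ⟩, hz.2⟩) (fun z hz => hz)
    (fun z hz e => (h _ hz.1.1).1 (by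
      have e1 := ho z.1 0
      rw [show z.1 ∘ σ = z.1 from congrArg Prod.fst e] at e1
      exact congrArg Prod.fst e1))
    (isClosed_eq continuous_fst continuous_snd) s2 (fun y hy => Eq.symm hy)
    (by simp) hW (fun z => ho z.1 z.2)
    (by
      rintro ⟨x, t⟩ ⟨rfl | rfl, hz⟩
      exacts [(h x hz.1.1).1, (h x hz.1.1).2.1]) δ0
  have e0 : ∀ x, U (x, 0) = W (x, 0) := fun x => u3 (Or.inl rfl)
  have e1 : ∀ x, U (x, 1) = W (x, 1) := fun x => u3 (Or.inr rfl)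
  refine ⟨U, u1, fun x t => u2 (x, t), fun x => ⟨e0 x, e1 x⟩, fun x hx t ht => ?_⟩
  have k := hδ (mem_cthickening_of_dist_le (U (x, t)) (W (x, t)) δ _ ⟨(x, t), ⟨hx, ht⟩, rfl⟩
    (by rw [dist_eq_norm]; exact u4 _))
  refine ⟨k.1, k.2, ?_⟩
  rintro (k1 | rfl | rfl)
  · exact u5 (x, t) ⟨⟨hx, k1⟩, ht⟩
  · rw [e0]
    exact (h x hx).1
  · rw [e1]
    exact (h x hx).2.1

theorem ktr1_ne {m : ℕ} {Ω : Set (V m)} {f : V m → V m} (hi : InjOn f Ω) {p : V m × V m}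
    (h1 : p.1 ∈ Ω) (h2 : p.2 ∈ Ω) (h : p.1 ≠ p.2) : tl f p ≠ 0 :=
  fun e => h (hi h1 h2 (sub_eq_zero.1 e))

theorem ktr1_odd {m : ℕ} (f : V m → V m) (p : V m × V m) : tl f p.swap = -tl f p :=
  (neg_sub _ _).symm

theorem transfer_cub {m : ℕ} (hm : 1 ≤ m) {Ω : Set (V m)} (hΩ : IsOpen Ω) {f : V m → V m}
    (hf : Continuous f) (hi : InjOn f Ω) (hl : LS Ω f) (σ : Equiv.Perm ι)
    (hσ : ∀ l, σ (σ l) = l) {R : ℝ} {Cs : Set (ι → ℝ)} (hC : Cs ⊆ Ctr (2 * m) R)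
    (hs : ∀ q ∈ Cs, q ∘ σ ∈ Cs) {W : (ι → ℝ) × ℝ → V m × V m} (hW : Continuous W)
    (ho : ∀ x t, W (x ∘ σ, t) = (W (x, t)).swap) {K : (ι → ℝ) × ℝ → V m} (hK : Continuous K)
    (hKo : ∀ x s, K (x ∘ σ, s) = -K (x, s))
    (h : ∀ q ∈ Cs, ∀ x, InCar x q → (W (x, 0)).1 ≠ (W (x, 0)).2 ∧ K (x, 0) = tl f (W (x, 1)) ∧
      K (x, 1) = tl id (W (x, 1)) ∧ ∀ t ∈ Icc (0 : ℝ) 1,
        (W (x, t)).1 ∈ Ω ∧ (W (x, t)).2 ∈ Ω ∧ K (x, t) ≠ 0) :
    ∃ G : (ι → ℝ) × ℝ → V m, Continuous G ∧ (∀ x s, G (x ∘ σ, s) = -G (x, s)) ∧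
      ∀ q ∈ Cs, ∀ x, InCar x q → G (x, 0) = tl f (W (x, 0)) ∧ G (x, 1) = tl id (W (x, 0)) ∧
        ∀ s ∈ Icc (0 : ℝ) 1, G (x, s) ≠ 0 := by
  have i0 : (0 : ℝ) ∈ Icc (0 : ℝ) 1 := ⟨le_rfl, zero_le_one⟩
  have i1 : (1 : ℝ) ∈ Icc (0 : ℝ) 1 := ⟨zero_le_one, le_rfl⟩
  have hr : Module.finrank ℝ (V m) = 2 * m + 1 := by simp
  obtain ⟨U, u1, u2, u3, u4⟩ := ktr1_off hm hΩ σ hσ (D := ⋃ q ∈ Cs, {x | InCar x q})
    (((ctr_finite _ _).subset hC).isCompact_biUnion fun q _ => inCar_compact q)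
    (fun x hx => by
      obtain ⟨q, hq, hx⟩ := mem_iUnion₂.1 hx
      exact mem_iUnion₂.2 ⟨_, hs q hq, InCar.perm hx σ⟩) hW ho
    (fun x hx => by
      obtain ⟨q, hq, hx⟩ := mem_iUnion₂.1 hx
      obtain ⟨h1, -, h2, h3⟩ := h q hq x hx
      exact ⟨h1, fun e => (h3 1 i1).2.2 (h2.trans (sub_eq_zero.2 e)),
        fun t ht => ⟨(h3 t ht).1, (h3 t ht).2.1⟩⟩)
  replace u4 := fun q (hq : q ∈ Cs) x (hx : InCar x q) => u4 x (mem_iUnion₂.2 ⟨q, hq, hx⟩)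
  have ca : Continuous fun z => tl f (U z) := by unfold tl; fun_prop
  have cb : Continuous fun z => tl id (U z) := by unfold tl; fun_prop
  have na : ∀ q ∈ Cs, ∀ x, InCar x q → ∀ s ∈ Icc (0 : ℝ) 1, x ∈ SkL (2 * m) ∨ s = 0 ∨ s = 1 →
      tl f (U (x, s)) ≠ 0 ∧ tl id (U (x, s)) ≠ 0 := fun q hq x hx s hs e => by
    obtain ⟨k1, k2, k3⟩ := u4 q hq x hx s hs
    exact ⟨ktr1_ne hi k1 k2 (k3 e), ktr1_ne (injOn_id _) k1 k2 (k3 e)⟩
  have e2 : ∀ q ∈ Cs, ∀ x, InCar x q → K (x, 1) = rev (fun z => tl id (U z)) (x, 0) :=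
    fun q hq x hx => by
      simp only [rev, sub_zero, (u3 x).2, (h q hq x hx).2.2.1]
  have e1 : ∀ q ∈ Cs, ∀ x, InCar x q →
      tl f (U (x, 1)) = cat K (rev fun z => tl id (U z)) (x, 0) := fun q hq x hx => by
    rw [cat_zero, (u3 x).2, (h q hq x hx).2.1]
  have g0 : ∀ x, cat (fun z => tl f (U z)) (cat K (rev fun z => tl id (U z))) (x, 0) =
      tl f (U (x, 0)) := fun x => cat_zero _ _ x
  have g1 : ∀ q ∈ Cs, ∀ x, InCar x q →
      cat (fun z => tl f (U z)) (cat K (rev fun z => tl id (U z))) (x, 1) = tl id (U (x, 0)) :=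
    fun q hq x hx => by
      rw [cat_one (H := fun z => tl f (U z)) (e1 q hq x hx), cat_one (e2 q hq x hx)]
      simp only [rev, sub_self]
  have cr : Continuous (rev fun z => tl id (U z)) := cb.comp (by fun_prop)
  obtain ⟨G, c1, c2, c3, c4, c5⟩ := cub_ext σ hσ (d := 2 * m) hr.symm (by omega) hC
    (fun q hq => ⟨hs q hq, fun e => (h q hq q (InCar.refl q)).1 (by
      have e1 := ho q 0
      rw [e] at e1
      exact congrArg Prod.fst e1)⟩)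
    (G := cat (fun z => tl f (U z)) (cat K (rev fun z => tl id (U z))))
    (cat_cont ca (cat_cont hK cr))
    (cat_odd (i := fun x => x ∘ σ) (fun x s => by simp only [u2, ktr1_odd])
      (cat_odd (i := fun x => x ∘ σ) hKo fun x s => by simp only [rev, u2, ktr1_odd]))
    (fun q hq x hx s hs e => by
      rcases e with e | rfl | rfl
      · exact cat_ne (H := fun z => tl f (U z)) (e1 q hq x hx)
          (fun s hs => (na q hq x hx s hs (Or.inl e)).1)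
          (cat_ne (e2 q hq x hx) (fun s hs => ((h q hq x hx).2.2.2 s hs).2.2) fun s hs =>
            (na q hq x hx _ ⟨by linarith [hs.2], by linarith [hs.1]⟩ (Or.inl e)).2) s hs
      · rw [g0]
        exact (na q hq x hx 0 i0 (Or.inr (Or.inl rfl))).1
      · rw [g1 q hq x hx]
        exact (na q hq x hx 0 i0 (Or.inr (Or.inl rfl))).2)
    (fun q hq c hc hcq => by
      have hE : Module.finrank ℝ ((Fin (2 * m) → ℝ) × ℝ) = 2 * m + 1 := by simp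
      have hO : IsOpen (ball (0 : Fin (2 * m) → ℝ) 1 ×ˢ Ioo (0 : ℝ) 1) :=
        isOpen_ball.prod isOpen_Ioo
      have hb : Bornology.IsBounded (ball (0 : Fin (2 * m) → ℝ) 1 ×ˢ Ioo (0 : ℝ) 1) :=
        isBounded_ball.prod (isBounded_Ioo _ _)
      have b1 : ∀ y ∈ closure (ball (0 : Fin (2 * m) → ℝ) 1), InCar (c y) q := fun y hy =>
        (hcq y (mem_closedBall_zero_iff.1 (closure_ball_subset_closedBall hy))).1
      have b2 : ∀ z ∈ closure (ball (0 : Fin (2 * m) → ℝ) 1 ×ˢ Ioo (0 : ℝ) 1),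
          InCar (c z.1) q ∧ z.2 ∈ Icc (0 : ℝ) 1 := fun z hz => by
        rw [closure_prod_eq, closure_Ioo zero_ne_one] at hz
        exact ⟨b1 _ hz.1, hz.2⟩
      have b3 : ∀ z ∈ frontier (ball (0 : Fin (2 * m) → ℝ) 1 ×ˢ Ioo (0 : ℝ) 1),
          c z.1 ∈ SkL (2 * m) ∨ z.2 = 0 ∨ z.2 = 1 := fun z hz => by
        rcases frontier_prod_Ioo isOpen_ball hz with k | k
        · rw [frontier_ball _ one_ne_zero, mem_sphere_zero_iff_norm] at k
          exact Or.inl ((hcq _ k.1.le).2 k.1)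
        · exact Or.inr k.2
      have cc : Continuous fun z : (Fin (2 * m) → ℝ) × ℝ => (c z.1, z.2) := by fun_prop
      have a1 : Adm _ fun z : (Fin (2 * m) → ℝ) × ℝ => tl f (U (c z.1, z.2)) :=
        ⟨hO, hb, ca.comp cc, fun z hz => (na q hq _ (b2 z (frontier_subset_closure hz)).1 _
          (b2 z (frontier_subset_closure hz)).2 (b3 z hz)).1⟩
      have a2 : Adm _ fun z : (Fin (2 * m) → ℝ) × ℝ => tl id (U (c z.1, z.2)) :=
        ⟨hO, hb, cb.comp cc, fun z hz => (na q hq _ (b2 z (frontier_subset_closure hz)).1 _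
          (b2 z (frontier_subset_closure hz)).2 (b3 z hz)).2⟩
      have nk : ∀ z ∈ closure (ball (0 : Fin (2 * m) → ℝ) 1 ×ˢ Ioo (0 : ℝ) 1),
          K (c z.1, z.2) ≠ 0 := fun z hz => ((h q hq _ (b2 z hz).1).2.2.2 _ (b2 z hz).2).2.2
      have a3 : Adm _ fun z : (Fin (2 * m) → ℝ) × ℝ => K (c z.1, z.2) :=
        ⟨hO, hb, hK.comp cc, fun z hz => nk z (frontier_subset_closure hz)⟩
      have hd := hE.trans hr.symm
      obtain ⟨r1, r2⟩ := deg_rev hd a2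
      obtain ⟨r3, r4⟩ := deg_cat hd a3 r1 fun y hy => e2 q hq _ (b1 y hy)
      obtain ⟨-, r5⟩ := deg_cat hd a1 r3 fun y hy => e1 q hq _ (b1 y hy)
      have r6 := deg_pair hΩ hf hi hl hE hO hb (u1.comp cc)
        (fun z hz => ⟨(u4 q hq _ (b2 z hz).1 _ (b2 z hz).2).1,
          (u4 q hq _ (b2 z hz).1 _ (b2 z hz).2).2.1⟩)
        fun z hz => (u4 q hq _ (b2 z (frontier_subset_closure hz)).1 _
          (b2 z (frontier_subset_closure hz)).2).2.2 (b3 z hz)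
      rw [r4, r2, deg_zero hd a3 fun z hz => nk z (subset_closure hz), zero_add] at r5
      exact r5.trans (add_neg_eq_zero.2 r6))
  exact ⟨G, c1, c2, fun q hq x hx => ⟨by rw [c3, g0, (u3 x).1],
    by rw [c4, g1 q hq x hx, (u3 x).1], c5 q hq x hx⟩⟩

end BEp
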