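import Pool.Agent.Work.MP_f0515e_an.Pos.KTr1

/-!
Transfer of an odd homotopy along a contraction of a small set of pairs.

Plan.  Let `r` be given by `LS` at `z`, with `ball z r ⊆ Ω`; `u p = (W (p, 0)).1 - (W (p, 0)).2`,
`W₂ = cat W (fun (p, t) => W (p, 1) + (t * η) • (u p, -u p))` with `η > 0` small (`cat_eqv` with the swap,
`cat_mem`).  The set `U` of `p` with `W₂ (p, [0,1]) ⊆ Ω ×ˢ Ω`, `W₂ (p, 0)` and `W₂ (p, 1)` off the diagonal and
`W₂ (p, 1) ∈ ball z r ×ˢ ball z r` is open (`IsCompact.eventually_forall_of_forall_eventually`) and contains `D`;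
take `δ > 0` with `N = cthickening δ D ⊆ U` (compact, symmetric).  `ι = J ⊕ J`, `J = Fin (2 m + 1)`,
`σ = Equiv.sumComm J J`, `e x = δ • (x ∘ inl, x ∘ inr)`, `e' p = Sum.elim (δ⁻¹ • p.1) (δ⁻¹ • p.2)`.
`Cs = {q ∈ Ctr (2 m) R | ∀ x, InCar x q → e x ∈ N}` with a natural number `R` bounding `e' '' D`.
`H₁` from `LS` on `W₂ (·, 1) '' N`; `transfer_cub` for `W₂ (e x, t)`, `K (x, s) = H₁ (W₂ (e x, 1), s)`.
`push_gen` (`A = ∅`, `P = D`, `q = e'`) gives `q'`; for `p ∈ D` every `x` in the carrier of `e' p` has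
`e x ∈ N` (`InCar.near`), so the centre of `q' p` (`exists_ctr`) is in `Cs`.  With
`γ (p, t) = e ((1 - t) • e' p + t • q' p)` (`InCar.combo`) concatenate (`OH.cat`, `OH.rev`)
`tl f (W (γ, 0))`, `G (q' p, s)` and the reverse of `tl id (W (γ, 0))`.
-/

open Set Metric Filter Topology Function BEv
open scoped NNReal

noncomputable section
namespace BEp

theorem KTr2_ev {X Y Z : Type} [TopologicalSpace X] [TopologicalSpace Y] [TopologicalSpace Z]
    {K : Set Y} (hK : IsCompact K) {g : X × Y → Z} (hg : Continuous g) {O : Set Z} (hO : IsOpen O)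
    {x0 : X} (h : ∀ y ∈ K, g (x0, y) ∈ O) : ∀ᶠ x in 𝓝 x0, ∀ y ∈ K, g (x, y) ∈ O :=
  hK.eventually_forall_of_forall_eventually fun y hy =>
    hg.continuousAt.eventually_mem (hO.mem_nhds (h y hy))

theorem KTr2_main {m : ℕ} (hm : 1 ≤ m) {Ω : Set (V m)} (hΩ : IsOpen Ω) {f : V m → V m}
    (hf : Continuous f) (hi : InjOn f Ω) (hl : LS Ω f) {D : Set (V m × V m)} (hD : IsCompact D)
    (hs : Symm D) (hd : Sm (2 * m) D) {W : (V m × V m) × ℝ → V m × V m} (hW : Continuous W)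
    (ho : ∀ p t, W (Prod.swap p, t) = (W (p, t)).swap) {S : Set (V m)}
    (hL : ∀ D : Set (V m × V m), IsCompact D → Symm D →
      (∀ p ∈ D, p.1 ∈ S ∧ p.2 ∈ S ∧ p.1 ≠ p.2) → ∃ H, OH D (tl f) (tl id) H)
    {δ : ℝ} (hδ : 0 < δ) (h : ∀ p ∈ D, ∀ v ∈ closedBall (0 : V m × V m) δ,
      (W (p + v, 0)).1 ≠ (W (p + v, 0)).2 ∧
      ((W (p + v, 1)).1 ∈ S ∧ (W (p + v, 1)).2 ∈ S ∧ (W (p + v, 1)).1 ≠ (W (p + v, 1)).2) ∧
      ∀ t ∈ Icc (0 : ℝ) 1, (W (p + v, t)).1 ∈ Ω ∧ (W (p + v, t)).2 ∈ Ω) :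
    ∃ H, OH D (fun p => tl f (W (p, 0))) (fun p => tl id (W (p, 0))) H := by
  let N : Set (V m × V m) :=
    (fun y : (V m × V m) × V m × V m => y.1 + y.2) '' (D ×ˢ closedBall 0 δ)
  have N1 : IsCompact N := (hD.prod (isCompact_closedBall _ _)).image (by fun_prop)
  have N2 : Symm N := by
    rintro _ ⟨y, hy, rfl⟩
    refine ⟨(y.1.swap, y.2.swap), ⟨hs _ hy.1, ?_⟩, rfl⟩
    simpa [Prod.norm_def, and_comm] using hy.2
  have N3 : ∀ p ∈ N, (W (p, 0)).1 ≠ (W (p, 0)).2 ∧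
      ((W (p, 1)).1 ∈ S ∧ (W (p, 1)).2 ∈ S ∧ (W (p, 1)).1 ≠ (W (p, 1)).2) ∧
      ∀ t ∈ Icc (0 : ℝ) 1, (W (p, t)).1 ∈ Ω ∧ (W (p, t)).2 ∈ Ω := by
    rintro _ ⟨y, hy, rfl⟩
    exact h _ hy.1 _ hy.2
  obtain ⟨H, hH⟩ := hL ((fun p => W (p, 1)) '' N) (N1.image (by fun_prop))
    (by rintro _ ⟨p, hp, rfl⟩; exact ⟨_, N2 p hp, ho p 1⟩)
    (by rintro _ ⟨p, hp, rfl⟩; exact (N3 p hp).2.1)
  let σ := Equiv.sumComm (Fin (2 * m + 1)) (Fin (2 * m + 1))
  have hσ : ∀ l, σ (σ l) = l := fun l => Sum.swap_swap l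
  let e : (Fin (2 * m + 1) ⊕ Fin (2 * m + 1) → ℝ) → V m × V m := fun x =>
    (fun l => δ * x (.inl l), fun l => δ * x (.inr l))
  let e' : V m × V m → Fin (2 * m + 1) ⊕ Fin (2 * m + 1) → ℝ := fun p =>
    Sum.elim (δ⁻¹ • p.1) (δ⁻¹ • p.2)
  have ec : Continuous e := by fun_prop
  have ec' : Continuous e' := continuous_pi fun l => by
    cases l <;> simp only [e', Sum.elim_inl, Sum.elim_inr] <;> fun_prop
  have es : ∀ x, e (x ∘ σ) = (e x).swap := fun x => rfl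
  have es' : ∀ p, e' p.swap = e' p ∘ σ := fun p => funext fun l => by cases l <;> rfl
  have ee : ∀ p, e (e' p) = p := fun p => by
    ext l <;> simp [e, e', hδ.ne']
  have eN : ∀ p ∈ D, ∀ x, InCar x (e' p) → e x ∈ N := fun p hp x hx => by
    refine ⟨(p, e x - e (e' p)), ⟨hp, ?_⟩, by simp [ee]⟩
    have k : ∀ l, ‖δ * x l - δ * e' p l‖ ≤ δ := fun l => by
      rw [← mul_sub, norm_mul, Real.norm_of_nonneg hδ.le]
      exact mul_le_of_le_one_right hδ.le ((norm_le_pi_norm (x - e' p) l).trans hx.near)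
    exact mem_closedBall_zero_iff.2 (max_le ((pi_norm_le_iff_of_nonneg hδ.le).2 fun l => k _)
      ((pi_norm_le_iff_of_nonneg hδ.le).2 fun l => k _))
  obtain ⟨R0, hR0⟩ := hD.exists_bound_of_continuousOn ec'.continuousOn
  obtain ⟨R, hR⟩ := exists_nat_ge R0
  obtain ⟨G, g1, g2, g3⟩ := transfer_cub hm hΩ hf hi hl σ hσ (R := R)
    (Cs := {q | q ∈ Ctr (2 * m) R ∧ ∀ x, InCar x q → e x ∈ N}) (fun q hq => hq.1)
    (fun q hq => ⟨ctr_perm hq.1 σ, fun x hx => N2 _ (hq.2 (x ∘ σ) (by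
      have := hx.perm σ
      rwa [show (q ∘ σ) ∘ σ = q from funext fun l => congrArg q (hσ l)] at this))⟩)
    (W := fun y => W (e y.1, y.2)) (by fun_prop) (fun x t => ho (e x) t)
    (K := fun y => H (W (e y.1, 1), y.2)) (hH.cont.comp (by fun_prop))
    (fun x s => by simp only [es, ho, hH.odd]) fun q hq x hx =>
      ⟨(N3 _ (hq.2 x hx)).1, hH.zero _ ⟨_, hq.2 x hx, rfl⟩, hH.one _ ⟨_, hq.2 x hx, rfl⟩,
        fun t ht => ⟨((N3 _ (hq.2 x hx)).2.2 t ht).1, ((N3 _ (hq.2 x hx)).2.2 t ht).2,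
          hH.ne _ ⟨_, hq.2 x hx, rfl⟩ t ht⟩⟩
  obtain ⟨q, q1, q2, -, q3⟩ := push_gen continuous_swap Prod.swap_swap σ hσ (A := ∅) hD
    (by rwa [sdiff_empty]) isClosed_empty hs (fun _ h => h.elim) (fun p hp k => by
      have k' := ho p 0
      rw [k] at k'
      exact (N3 p (ee p ▸ eN p hp _ (InCar.refl _))).1 (congrArg Prod.fst k')) ec' es'
    fun _ h => h.1.elim
  have gq : ∀ p ∈ D, G (q p, 0) = tl f (W (e (q p), 0)) ∧ G (q p, 1) = tl id (W (e (q p), 0)) ∧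
      ∀ s ∈ Icc (0 : ℝ) 1, G (q p, s) ≠ 0 := fun p hp => by
    obtain ⟨c, c1, c2, c3⟩ := exists_ctr ⟨R, rfl⟩ (q3 p hp).1 ((q3 p hp).2.ball ⟨R, rfl⟩
      (mem_closedBall_zero_iff.2 ((hR0 p hp).trans hR)))
    exact g3 c ⟨c1, fun x hx => eN p hp x ((hx.trans c3).trans (q3 p hp).2)⟩ _ c2
  have A : ∀ g : V m → V m, Continuous g → InjOn g Ω →
      OH D (fun p => tl g (W (p, 0))) (fun p => tl g (W (e (q p), 0)))
        fun y => tl g (W (e ((1 - y.2) • e' y.1 + y.2 • q y.1), 0)) := fun g hg ig => by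
    refine ⟨by unfold tl; fun_prop, fun p s => ?_, fun p hp s hs k => ?_, fun p _ => by simp [ee],
      fun p _ => by simp⟩
    · have k := es ((1 - s) • e' p + s • q p)
      simp only [es', q2]
      rw [show (1 - s) • e' p ∘ σ + s • q p ∘ σ = ((1 - s) • e' p + s • q p) ∘ σ from rfl, k, ho]
      exact (neg_sub _ _).symm
    · have k' := N3 _ (eN p hp _ ((InCar.refl _).combo (q3 p hp).2 hs))
      have k0 := k'.2.2 0 ⟨le_rfl, zero_le_one⟩
      exact k'.1 (ig k0.1 k0.2 (sub_eq_zero.1 k))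
  have B : OH D (fun p => tl f (W (e (q p), 0))) (fun p => tl id (W (e (q p), 0)))
      fun y => G (q y.1, y.2) :=
    ⟨by fun_prop, fun p s => by simp only [q2, g2], fun p hp => (gq p hp).2.2,
      fun p hp => (gq p hp).1, fun p hp => (gq p hp).2.1⟩
  exact ⟨_, (A f hf hi).cat (B.cat (A id continuous_id (injOn_id _)).rev)⟩

theorem transfer {m : ℕ} (hm : 1 ≤ m) {Ω : Set (V m)} (hΩ : IsOpen Ω) {f : V m → V m}
    (hf : Continuous f) (hi : InjOn f Ω) (hl : LS Ω f) {D : Set (V m × V m)} (hD : IsCompact D)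
    (hs : Symm D) (hd : Sm (2 * m) D) {W : (V m × V m) × ℝ → V m × V m} (hW : Continuous W)
    (ho : ∀ p t, W (Prod.swap p, t) = (W (p, t)).swap) {z : V m} (hz : z ∈ Ω)
    (h : ∀ p ∈ D, (W (p, 0)).1 ≠ (W (p, 0)).2 ∧ W (p, 1) = (z, z) ∧
      ∀ t ∈ Icc (0 : ℝ) 1, (W (p, t)).1 ∈ Ω ∧ (W (p, t)).2 ∈ Ω) :
    ∃ H, OH D (fun p => tl f (W (p, 0))) (fun p => tl id (W (p, 0))) H := by
  obtain ⟨r, hr, hL⟩ := hl z hz
  have hK := hD.prod (isCompact_Icc (a := (0 : ℝ)) (b := 1))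
  let u : V m × V m → V m := fun p => (W (p, 0)).1 - (W (p, 0)).2
  let Z : ℝ × (V m × V m) × ℝ → V m × V m := fun y =>
    W y.2 + (y.2.2 * y.1) • (u y.2.1, -u y.2.1)
  have hZ : Continuous Z := by fun_prop
  have hZ0 : ∀ η p, Z (η, p, 0) = W (p, 0) := fun η p => by simp [Z]
  have hO : IsOpen {q : V m × V m | q.1 ≠ q.2} := isOpen_ne_fun continuous_fst continuous_snd
  have hB : IsOpen (ball z r ×ˢ ball z r) := isOpen_ball.prod isOpen_ball
  have e1 := KTr2_ev hK hZ (hΩ.prod hΩ) (x0 := 0) fun y hy => by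
    simpa [Z] using (h _ hy.1).2.2 _ hy.2
  have e2 := KTr2_ev hD (g := fun y : ℝ × V m × V m => Z (y.1, y.2, 1)) (by fun_prop) hB (x0 := 0)
    fun y hy => by simp [Z, (h _ hy).2.1, hr]
  obtain ⟨η, ⟨a1, a2⟩, a3⟩ := (((e1.and e2).filter_mono nhdsWithin_le_nhds).and
    (self_mem_nhdsWithin (a := (0 : ℝ)) (s := {0}ᶜ))).exists
  have f1 := KTr2_ev hK (g := fun y : (V m × V m) × (V m × V m) × ℝ => Z (η, y.2.1 + y.1, y.2.2))
    (by fun_prop) (hΩ.prod hΩ) (x0 := 0) fun y hy => by simpa only [add_zero] using a1 y hy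
  have f2 := KTr2_ev hD (g := fun y : (V m × V m) × V m × V m => Z (η, y.2 + y.1, 1))
    (by fun_prop) (hB.inter hO) (x0 := 0) fun y hy => by
      simp only [add_zero]
      refine ⟨a2 y hy, fun e => (h y hy).1 ?_⟩
      simp only [Z, (h y hy).2.1, one_mul, Prod.smul_mk, Prod.mk_add_mk, add_right_inj,
        smul_neg] at e
      exact sub_eq_zero.1 ((smul_eq_zero.1 (havoid_neg e)).resolve_left a3)
  have f3 := KTr2_ev hD (g := fun y : (V m × V m) × V m × V m => Z (η, y.2 + y.1, 0))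
    (by fun_prop) hO (x0 := 0) fun y hy => by
      simp only [add_zero, hZ0]
      exact (h y hy).1
  obtain ⟨δ, hδ, b⟩ := Metric.nhds_basis_closedBall.eventually_iff.1 (f1.and (f2.and f3))
  have := KTr2_main hm hΩ hf hi hl hD hs hd (W := fun y => Z (η, y)) (by fun_prop)
    (fun p t => by simp [Z, u, ho]) hL hδ fun p hp v hv =>
      ⟨(b hv).2.2 p hp, ⟨((b hv).2.1 p hp).1.1, ((b hv).2.1 p hp).1.2, ((b hv).2.1 p hp).2⟩,
        fun t ht => (b hv).1 (p, t) ⟨hp, ht⟩⟩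
  simpa only [hZ0] using this

end BEp
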