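import Pool.Agent.Work.MP_f0515e_an.Pos.TPsi
import Pool.Agent.Work.MP_f0515e_an.Pos.PLIE
import Pool.Agent.Work.MP_f0515e_an.Pos.ADefs
import Pool.Agent.Work.MP_f0515e_an.Pos.HRL
import Pool.Agent.Work.MP_f0515e_an.Pos.GT
import Pool.Agent.Work.MP_f0515e_an.Pos.BRed
import Pool.Agent.Work.MP_f0515e_an.Pos.ASe
import Pool.Agent.Work.MP_f0515e_an.Pos.ALeb

-- merged part: Pool.Agent.Work.MP_f0515e_an.Pos.TFar
section
-- merged part: Pool.Agent.Work.MP_f0515e_an.Pos.TOut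
section
/-!
TOP, outer top cells near a box.  `a = r + 6`, `B = B i`.

Plan.  `T` is nonempty (`∅` is `PC`); fix `x0 ∈ T`.  `x0 ∉ Q 6` (`Zp_Q6`), so `s * a < ‖x0 - c‖`,
`x0 ∈ Sk` (`Zp_Sk`) and `a < |z x0 i0|` for some `i0 ∈ I`.  Let `W = {l ∈ I | ¬ Gam r (z x0 l)}`.
Off `W` the coordinates are integers (`Gam.even`, or `0` off `I`), constant on `T` (`SC.eq1`), so `T` lies
in the plane over `W` through `x0` (`pc_plane`, `κ = 0`), hence `m ≤ W.card`; `Sk_force` gives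
`G0 r (z x0 l)` for `l ∈ I \ W`, and `W.card ≤ m` (`mem_Sk`).  For `l ∈ W` take `lo l, hi l` from
`exists_gstrip`; `± (r + 24)` and `± a` are `Gam` points, so `-(r + 24) ≤ lo l`, `hi l ≤ r + 24`,
`a < z x0 l → a ≤ lo l`, `z x0 l < -a → hi l ≤ -a`.  Off `W` put `lo l = hi l = z x0 l`.
`O` is the open box `lo < z l < hi` on `W`, `|z l - z x0 l| < 1` on `I \ W`, `|x l - c l| < e` off `I`;
`P` from `exists_plane`.  `Zp ∩ O = P ∩ O`: left to right `Zp_ot`, `Zp_Sk` (at `i0`: `G0.gap` if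
`i0 ∉ W`), `Sk_force`, `G0.eq_of_lt`; right to left `mem_Sk`, `Sk_out`.  `U = Zp ∩ O`, `flat_of`;
a centre `c j` in `U` has `j = i` (`eq_of_th`, `c_Q`) and norm `0`.  `T ⊆ U` by `SC.c1`;
`bx ⊆ closure U` by `mem_closure_seg` towards `x0`; `closure T ⊆ bx` (closed), `t = 1`.
-/

open Set Metric Filter Topology Function BEv
open scoped NNReal

noncomputable section
namespace BEp

variable {m : ℕ} {ι : Type} {Z : Set (V m)} {B : ι → Box m} {s e : ℝ}

theorem TOut_cont (b : Box m) (s : ℝ) (l : Fin (2 * m + 1)) : Continuous fun x => b.z s x l := by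
  unfold Box.z
  fun_prop

theorem TOut_seg (b : Box m) (s : ℝ) (v x : V m) (t : ℝ) (l : Fin (2 * m + 1)) :
    b.z s (v + t • (x - v)) l = b.z s v l + t * (b.z s x l - b.z s v l) := by
  simp only [Box.z, Pi.add_apply, Pi.smul_apply, Pi.sub_apply, smul_eq_mul]
  ring

theorem TOut_open (b : Box m) (s : ℝ) (lo hi : Fin (2 * m + 1) → ℝ) :
    IsOpen {x : V m | ∀ l, lo l < b.z s x l ∧ b.z s x l < hi l} := by
  rw [setOf_forall]
  exact isOpen_iInter_of_finite fun l =>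
    (isOpen_lt continuous_const (TOut_cont b s l)).inter
      (isOpen_lt (TOut_cont b s l) continuous_const)

theorem TOut_conv (b : Box m) (s : ℝ) (lo hi : Fin (2 * m + 1) → ℝ) :
    Convex ℝ {x : V m | ∀ l, lo l < b.z s x l ∧ b.z s x l < hi l} := by
  refine convex_iff_add_mem.2 fun x hx y hy p q hp hq hpq l => ?_
  have h1 : b.z s (p • x + q • y) l = p • b.z s x l + q • b.z s y l := by
    obtain rfl : q = 1 - p := by linarith
    simp only [Box.z, Pi.add_apply, Pi.smul_apply, smul_eq_mul]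
    ring
  rw [h1]
  exact convex_Ioo (𝕜 := ℝ) (lo l) (hi l) (hx l) (hy l) hp hq hpq

theorem TOut_closed (b : Box m) (s : ℝ) (lo hi : Fin (2 * m + 1) → ℝ) :
    IsClosed (b.bx s lo hi) := by
  have h1 : b.bx s lo hi = (⋂ l, ⋂ _ : l ∉ b.I, {x : V m | x l = b.c l}) ∩
      ⋂ l, ⋂ _ : l ∈ b.I, {x : V m | lo l ≤ b.z s x l} ∩ {x : V m | b.z s x l ≤ hi l} := by
    ext x
    simp only [Box.bx, Box.slice, mem_setOf_eq, mem_inter_iff, mem_iInter]
  rw [h1]
  exact (isClosed_iInter fun l => isClosed_iInter fun _ =>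
    isClosed_eq (continuous_apply l) continuous_const).inter
    (isClosed_iInter fun l => isClosed_iInter fun _ =>
      (isClosed_le continuous_const (TOut_cont b s l)).inter
        (isClosed_le (TOut_cont b s l) continuous_const))

theorem TOut_lt {b : Box m} (hs : 0 < s) {x : V m} {l : Fin (2 * m + 1)} {a : ℝ} :
    |b.z s x l| < a ↔ |x l - b.c l| < s * a := by
  unfold Box.z
  rw [abs_div, abs_of_pos hs, div_lt_iff₀ hs, mul_comm]

theorem TOut_norm {b : Box m} (hs : 0 < s) {x : V m} {l : Fin (2 * m + 1)} {a : ℝ}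
    (h : a ≤ |b.z s x l|) : s * a ≤ ‖x - b.c‖ :=
  (not_lt.1 fun h1 => not_lt.2 h ((TOut_lt hs).2 h1)).trans (norm_le_pi_norm (x - b.c) l)

theorem TOut_eq {b : Box m} (hs : 0 < s) {x y : V m} {l : Fin (2 * m + 1)} :
    b.z s x l = b.z s y l ↔ x l = y l := by
  unfold Box.z
  rw [div_left_inj' hs.ne', sub_left_inj]

theorem TOut_int {r : ℕ} (h8 : 8 ∣ r) {t : ℝ} (h : Gam r t) (h1 : |t| ≤ r + 24) :
    ∃ k : ℤ, |k| ≤ r + 30 ∧ t = k := by
  obtain ⟨k, rfl⟩ := h.even h8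
  refine ⟨2 * k, ?_, by push_cast; ring⟩
  have h2 : ((|2 * k| : ℤ) : ℝ) ≤ ((r + 30 : ℤ) : ℝ) := by
    push_cast
    linarith
  exact_mod_cast h2

/-- The grid interval of one coordinate. -/
theorem TOut_strip {r : ℕ} (h8 : 8 ∣ r) {t : ℝ} (h1 : |t| ≤ r + 24) :
    ∃ lo hi, Gam r lo ∧ Gam r hi ∧ |lo| ≤ r + 24 ∧ |hi| ≤ r + 24 ∧
      (r + 6 < |t| → r + 6 ≤ lo ∨ hi ≤ -(r + 6)) ∧ (Gam r t → lo = t ∧ hi = t) ∧
      (¬ Gam r t → lo < t ∧ t < hi ∧ ∀ u, lo < u → u < hi → ¬ Gam r u) := by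
  have h0 : (0 : ℝ) ≤ r := Nat.cast_nonneg r
  obtain ⟨h2, h3⟩ := abs_le.1 h1
  by_cases h : Gam r t
  · refine ⟨t, t, h, h, h1, h1, fun h4 => ?_, fun _ => ⟨rfl, rfl⟩, fun h4 => absurd h h4⟩
    rcases lt_abs.1 h4 with h5 | h5
    · exact Or.inl h5.le
    · exact Or.inr (by linarith)
  obtain ⟨lo, hi, g1, g2, l1, l2, l3⟩ := exists_gstrip h
  have a1 : G0 r (r + 24) := ⟨1, by push_cast; ring⟩
  have a2 : G0 r (-(r + 24)) := a1.neg h8
  have a3 : Gam r (r + 6) := Or.inr (abs_of_nonneg (by linarith))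
  have a4 : Gam r (-(r + 6)) := Or.inr (by rw [abs_neg]; exact abs_of_nonneg (by linarith))
  have b1 : -((r : ℝ) + 24) ≤ lo := not_lt.1 fun h4 => l3 _ h4 (by linarith) (Or.inl a2)
  have b2 : hi ≤ (r : ℝ) + 24 := not_lt.1 fun h4 => l3 _ (by linarith) h4 (Or.inl a1)
  refine ⟨lo, hi, g1, g2, abs_le.2 ⟨b1, by linarith⟩, abs_le.2 ⟨by linarith, b2⟩, fun h4 => ?_,
    fun h4 => absurd h4 h, fun _ => ⟨l1, l2, l3⟩⟩
  rcases lt_abs.1 h4 with h5 | h5
  · exact Or.inl (not_lt.1 fun h6 => l3 _ h6 (by linarith) a3)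
  · exact Or.inr (not_lt.1 fun h6 => l3 _ (by linarith) h6 a4)

theorem Geo.cls_out (hm : 1 ≤ m) (h : Geo Z B s e) (i : ι) {T : Set (V m)} (hT : T ⊆ Zp Z B s)
    (sc : (B i).SC s T) (np : ¬ PC (m - 1) T) (hQ : T ⊆ (B i).Q s 24)
    (ho : Disjoint T ((B i).In s)) : (B i).Cls s (Zp Z B s) (range (ctr B)) T := by
  classical
  have hs := h.s0
  have h8 := (h.r8 i).1
  have r0 : (0 : ℝ) ≤ (B i).r := Nat.cast_nonneg _
  obtain ⟨x0, hx0⟩ : T.Nonempty := by
    rw [nonempty_iff_ne_empty]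
    rintro rfl
    exact np ⟨∅, finite_empty, fun _ h1 => h1.elim, fun _ h1 => h1.elim⟩
  have q0 := hQ hx0
  have zT : ∀ y ∈ T, ∀ l ∈ (B i).I, |(B i).z s y l| ≤ (B i).r + 24 := fun y hy l hl =>
    (Box.abs_z hs).2 ((hQ hy).2 l hl)
  obtain ⟨i0, hi0, a0⟩ : ∃ i0 ∈ (B i).I, ((B i).r : ℝ) + 6 < |(B i).z s x0 i0| := by
    by_contra hn
    push Not at hn
    exact disjoint_left.1 ho hx0
      (h.Zp_Q6 (hT hx0) ⟨q0.1, fun l hl => (Box.abs_z hs).1 (hn l hl)⟩)
  have sk0 : x0 ∈ (B i).Sk s :=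
    h.Zp_Sk (hT hx0) (Box.Q_monoP hs.le (by norm_num) q0) (TOut_norm hs a0.le)
  obtain ⟨W, hW⟩ : ∃ W : Finset (Fin (2 * m + 1)),
      ∀ l, l ∈ W ↔ l ∈ (B i).I ∧ ¬ Gam (B i).r ((B i).z s x0 l) :=
    ⟨(B i).I.filter fun l => ¬ Gam (B i).r ((B i).z s x0 l), fun l => Finset.mem_filter⟩
  have WI : W ⊆ (B i).I := fun l hl => ((hW l).1 hl).1
  have gam : ∀ l ∈ (B i).I, l ∉ W → Gam (B i).r ((B i).z s x0 l) := fun l hl hn =>
    by_contra fun h1 => hn ((hW l).2 ⟨hl, h1⟩)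
  have cT : ∀ y ∈ T, ∀ l, l ∉ W → y l = x0 l := fun y hy l hl => by
    by_cases hI : l ∈ (B i).I
    · obtain ⟨k, hk, e1⟩ := TOut_int h8 (gam l hI hl) (zT x0 hx0 l hI)
      exact (TOut_eq hs).1 ((sc.eq1 hk hx0 hy e1).trans e1.symm)
    · exact ((hQ hy).1 l hI).trans (q0.1 l hI).symm
  have c1 : m ≤ W.card := by
    by_contra hn
    refine np ((pc_plane (W := W) (by omega) x0 (fun _ => 0) i0 (Or.inr fun _ => rfl)).mono
      fun y hy l hl => ?_)
    rw [cT y hy l hl, sub_self, zero_mul]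
  have g0 : ∀ l ∈ (B i).I, l ∉ W → G0 (B i).r ((B i).z s x0 l) :=
    Box.Sk_force sk0 WI c1 fun l hl h1 => ((hW l).1 hl).2 (Or.inl h1)
  have c2 : W.card ≤ m := by
    obtain ⟨-, W', hc, hW'⟩ := Box.mem_Sk.1 sk0
    exact (Finset.card_le_card fun l hl => by_contra fun hn =>
      ((hW l).1 hl).2 (Or.inl (hW' l (WI hl) hn))).trans hc
  have ex : ∀ l, ∃ lo hi : ℝ, l ∈ (B i).I → Gam (B i).r lo ∧ Gam (B i).r hi ∧
      |lo| ≤ (B i).r + 24 ∧ |hi| ≤ (B i).r + 24 ∧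
      ((B i).r + 6 < |(B i).z s x0 l| → (B i).r + 6 ≤ lo ∨ hi ≤ -((B i).r + 6)) ∧
      (Gam (B i).r ((B i).z s x0 l) → lo = (B i).z s x0 l ∧ hi = (B i).z s x0 l) ∧
      (¬ Gam (B i).r ((B i).z s x0 l) → lo < (B i).z s x0 l ∧ (B i).z s x0 l < hi ∧
        ∀ u, lo < u → u < hi → ¬ Gam (B i).r u) := fun l => by
    by_cases hl : l ∈ (B i).I
    · obtain ⟨lo, hi, h1⟩ := TOut_strip h8 (zT x0 hx0 l hl)
      exact ⟨lo, hi, fun _ => h1⟩
    · exact ⟨0, 0, fun h1 => absurd h1 hl⟩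
  choose lo hi hlh using ex
  have sW : ∀ l ∈ W, lo l < (B i).z s x0 l ∧ (B i).z s x0 l < hi l ∧
      ∀ u, lo l < u → u < hi l → ¬ Gam (B i).r u := fun l hl =>
    (hlh l (WI hl)).2.2.2.2.2.2 ((hW l).1 hl).2
  have sN : ∀ l ∈ (B i).I, l ∉ W → lo l = (B i).z s x0 l ∧ hi l = (B i).z s x0 l :=
    fun l hl hn => (hlh l hl).2.2.2.2.2.1 (gam l hl hn)
  have es : 0 < e / s := div_pos h.e0 hs
  obtain ⟨O, Oo, Oc, hO⟩ : ∃ O : Set (V m), IsOpen O ∧ Convex ℝ O ∧ ∀ x, x ∈ O ↔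
      (∀ l ∈ W, lo l < (B i).z s x l ∧ (B i).z s x l < hi l) ∧
      (∀ l ∈ (B i).I, l ∉ W → |(B i).z s x l - (B i).z s x0 l| < 1) ∧
      ∀ l, l ∉ (B i).I → |x l - (B i).c l| < e := by
    refine ⟨_, TOut_open (B i) s
      (fun l => if l ∈ W then lo l else if l ∈ (B i).I then (B i).z s x0 l - 1 else -(e / s))
      (fun l => if l ∈ W then hi l else if l ∈ (B i).I then (B i).z s x0 l + 1 else e / s),
      TOut_conv _ _ _ _, fun x => ?_⟩
    have k : ∀ l, |x l - (B i).c l| < e ↔ -(e / s) < (B i).z s x l ∧ (B i).z s x l < e / s :=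
      fun l => by rw [← abs_lt, TOut_lt hs, mul_div_cancel₀ _ hs.ne']
    refine ⟨fun hx => ⟨fun l hl => ?_, fun l hl hn => ?_, fun l hl => ?_⟩, fun hx l => ?_⟩
    · simpa only [if_pos hl] using hx l
    · have := hx l
      simp only [if_neg hn, if_pos hl] at this
      exact abs_lt.2 ⟨by linarith only [this, this.1], by linarith only [this, this.2]⟩
    · have := hx l
      simp only [if_neg hl, if_neg fun h1 => hl (WI h1)] at this
      exact (k l).2 this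
    · by_cases hl : l ∈ W
      · simpa only [if_pos hl] using hx.1 l hl
      by_cases hI : l ∈ (B i).I
      · simp only [if_neg hl, if_pos hI]
        have := abs_lt.1 (hx.2.1 l hI hl)
        exact ⟨by linarith only [this, this.1], by linarith only [this, this.2]⟩
      · simp only [if_neg hl, if_neg hI]
        exact (k l).1 (hx.2.2 l hI)
  have F1 : ∀ x ∈ O, x ∈ (B i).ot s 30 e := fun x hx => by
    refine ⟨fun l hl => (TOut_lt hs).1 ?_, ((hO x).1 hx).2.2⟩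
    by_cases hl' : l ∈ W
    · have h1 := ((hO x).1 hx).1 l hl'
      have h2 := abs_le.1 (hlh l hl).2.2.1
      have h3 := abs_le.1 (hlh l hl).2.2.2.1
      exact abs_lt.2 ⟨by linarith only [h1, h2, h1.1, h2.1], by linarith only [h1, h3, h1.2, h3.2]⟩
    · have h1 := abs_lt.1 (((hO x).1 hx).2.1 l hl hl')
      have h2 := abs_le.1 (zT x0 hx0 l hl)
      exact abs_lt.2 ⟨by linarith only [h1, h2, h1.1, h2.1], by linarith only [h1, h2, h1.2, h2.2]⟩
  have F0 : ∀ t, lo i0 ≤ t → t ≤ hi i0 → ((B i).r : ℝ) + 6 ≤ |t| := fun t h1 h2 => by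
    rcases (hlh i0 hi0).2.2.2.2.1 a0 with h3 | h3
    · exact le_abs.2 (Or.inl (by linarith only [h1, h3]))
    · exact le_abs.2 (Or.inr (by linarith only [h2, h3]))
  have F2 : ∀ x ∈ O, ((B i).r : ℝ) + 6 ≤ |(B i).z s x i0| := fun x hx => by
    by_cases hl' : i0 ∈ W
    · have h1 := ((hO x).1 hx).1 i0 hl'
      exact F0 _ h1.1.le h1.2.le
    · have h1 := ((hO x).1 hx).2.1 i0 hi0 hl'
      have h2 := ((g0 i0 hi0 hl').gap h8).resolve_left (not_le.2 (by linarith only [a0]))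
      have h3 := abs_sub_abs_le_abs_sub ((B i).z s x0 i0) ((B i).z s x i0)
      rw [abs_sub_comm] at h3
      linarith only [h1, h2, h3]
  have F3 : ∀ x : V m, (∀ l, l ∉ W → x l = x0 l) →
      (∀ l ∈ W, lo l < (B i).z s x l ∧ (B i).z s x l < hi l) → x ∈ O := fun x h1 h2 => by
    refine (hO x).2 ⟨h2, fun l _ hn => ?_, fun l hl => ?_⟩
    · rw [(TOut_eq hs).2 (h1 l hn), sub_self, abs_zero]
      exact one_pos
    · rw [h1 l fun h3 => hl (WI h3), q0.1 l hl, sub_self, abs_zero]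
      exact h.e0
  obtain ⟨P, hP, mP⟩ := exists_plane W x0 (fun _ => 0) i0 (Or.inr fun _ => rfl)
  simp only [zero_mul, sub_eq_zero] at mP
  have hE : Zp Z B s ∩ O = (P : Set (V m)) ∩ O := by
    ext x
    refine and_congr_left fun hx => ⟨fun hz => (mP x).2 fun l hl => ?_, fun hp => ?_⟩
    · have q30 := h.Zp_ot le_rfl hz (F1 x hx)
      by_cases hI : l ∈ (B i).I
      · have sk := h.Zp_Sk hz q30 (TOut_norm hs (F2 x hx))
        have h1 := Box.Sk_force sk WI c1 (fun l' hl' h2 => (sW l' hl').2.2 _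
          (((hO x).1 hx).1 l' hl').1 (((hO x).1 hx).1 l' hl').2 (Or.inl h2)) l hI hl
        exact (TOut_eq hs).1 (h1.eq_of_lt (g0 l hI hl)
          ((((hO x).1 hx).2.1 l hI hl).trans (by norm_num)))
      · exact (q30.1 l hI).trans (q0.1 l hI).symm
    · have h1 := (mP x).1 hp
      have sl : x ∈ (B i).slice := fun l hl => (h1 l fun h3 => hl (WI h3)).trans (q0.1 l hl)
      refine Or.inl (h.Sk_out (Box.mem_Sk.2 ⟨sl, W, c2, fun l hl hn => ?_⟩)
        ⟨sl, fun l hl => ((F1 x hx).1 l hl).le⟩ (TOut_norm hs (F2 x hx)))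
      rw [(TOut_eq hs).2 (h1 l hn)]
      exact g0 l hl hn
  have TO : ∀ y ∈ T, ∀ l ∈ W, lo l < (B i).z s y l ∧ (B i).z s y l < hi l := fun y hy l hl => by
    obtain ⟨g1, g2, b1, b2, -⟩ := hlh l (WI hl)
    obtain ⟨k, hk, e1⟩ := TOut_int h8 g1 b1
    obtain ⟨k', hk', e2⟩ := TOut_int h8 g2 b2
    rw [e1, e2]
    exact ⟨(sc.c1 l k hk x0 hx0 y hy).2 (e1 ▸ (sW l hl).1),
      (sc.c1 l k' hk' x0 hx0 y hy).1 (e2 ▸ (sW l hl).2.1)⟩
  refine ⟨lo, hi, Zp Z B s ∩ O, fun l hl => ⟨(hlh l hl).1, (hlh l hl).2.1⟩,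
    flat_of (hP.trans (le_antisymm c2 c1)) Oo Oc hE ?_,
    fun y hy => ⟨hT hy, F3 y (cT y hy) (TO y hy)⟩, fun v hv => ?_, fun v hv => ?_,
    fun x hx => ?_⟩
  · rw [disjoint_left]
    rintro x hx ⟨j, rfl⟩
    obtain rfl : i = j := h.eq_of_th (Box.ot_thick (F1 _ hx.2))
      (h.Q_th (ρ := 0) (by norm_num) (h.c_Q j le_rfl))
    have h1 := F2 _ hx.2
    simp only [ctr, Box.z, sub_self, zero_div, abs_zero] at h1
    linarith only [h1]
  · have h1 : ∀ l, l ∉ W → v l = x0 l := fun l hl => by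
      by_cases hI : l ∈ (B i).I
      · have h2 := hv.2 l hI
        rw [(sN l hI hl).1, (sN l hI hl).2] at h2
        exact (TOut_eq hs).1 (le_antisymm h2.2 h2.1)
      · exact (hv.1 l hI).trans (q0.1 l hI).symm
    refine mem_closure_seg (x := x0) fun t ht => ?_
    have h2 : ∀ l, l ∉ W → (v + t • (x0 - v)) l = x0 l := fun l hl => by
      simp only [Pi.add_apply, Pi.smul_apply, Pi.sub_apply, h1 l hl, sub_self, smul_zero, add_zero]
    rw [hE]
    refine ⟨(mP _).2 h2, F3 _ h2 fun l hl => ?_⟩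
    rw [TOut_seg]
    have h3 := hv.2 l (WI hl)
    have h4 := sW l hl
    have h5 := mul_pos ht.1 (sub_pos.2 h4.1)
    have h6 := mul_pos ht.1 (sub_pos.2 h4.2.1)
    have h7 := mul_nonneg (sub_nonneg.2 ht.2) (sub_nonneg.2 h3.1)
    have h9 := mul_nonneg (sub_nonneg.2 ht.2) (sub_nonneg.2 h3.2)
    exact ⟨by linarith only [h5, h7], by linarith only [h6, h9]⟩
  · refine ⟨⟨hv.1, fun l hl => (Box.abs_z hs).1 ?_⟩,
      TOut_norm hs (F0 _ (hv.2 i0 hi0).1 (hv.2 i0 hi0).2)⟩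
    have h1 := hv.2 l hl
    have h2 := abs_le.1 (hlh l hl).2.2.1
    have h3 := abs_le.1 (hlh l hl).2.2.2.1
    exact abs_le.2 ⟨by linarith only [h1, h2, h1.1, h2.1], by linarith only [h1, h3, h1.2, h3.2]⟩
  · refine ⟨x, closure_minimal (fun y hy => ?_) (TOut_closed (B i) s lo hi) hx, 1,
      ⟨zero_le_one, le_rfl⟩, by rw [one_smul, add_sub_cancel], Or.inl rfl⟩
    refine ⟨(hQ hy).1, fun l hl => ?_⟩
    by_cases hl' : l ∈ W
    · exact ⟨(TO y hy l hl').1.le, (TO y hy l hl').2.le⟩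
    · rw [(sN l hl hl').1, (sN l hl hl').2, (TOut_eq hs).2 (cT y hy l hl')]
      exact ⟨le_rfl, le_rfl⟩

end BEp
end
end

-- merged part: Pool.Agent.Work.MP_f0515e_an.Pos.TFar
section
/-!
TOP, far pairs of top cells.

Plan.  `st` from `exists_sc` for `Zp`; tops are not `PC (m - 1)` (`Cell.not_pc`), in particular not inside a
point.  `int_Z1`: an integer point of `Zp ∩ Q 30` is in `Z1` (`top_cov`, `SC.point`).  `hc1` is the case
`v = c i`.  `hio`: a top which meets `In i ⊆ Q 6` lies in `Q 6` (`SC.sub_Q`), so in `In i` (`Zp_Q6`).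
`out`: the closure of an outer top is in `Zout` (`cl_out`, `Cell.closure_car`).
`ne`: for `k = l` use a point of `bd \ C` (`Cell.infinite_bd`); for `k ≠ l` a common point of the closures
is in `Z1` (`cl_eq`, `top_disj`, `top_bd`, `top_sub`) and in `Zout`, so not a centre (`c_out`); the flats are
the tops themselves (`Strat.flat`).
`cls`: if the closure of a top meets `Q 16`, some point of the top is in the open set `ot 17 e`, so in
`Q 17` (`Zp_ot`), the top lies in `Q 24`, and `cls_in` (if it meets `In i`) or `cls_out` applies.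
`oo`, `oi`: a point `x ∈ Zout` of the closure is in `bx` (`t = 1`, or `y ∈ L` and `out_norm` force
`x = y`); for a point of `In i` one gets `y ∈ bx ∩ L` (`L_of_In` if `t = 1`).  If the distance were `< 2 s`,
`Box.grid` (for `oo` with `τ = s * (r + 16)` and `clp_self`) gives an integer point `v` of both boxes:
`v ∈ closure U ⊆ Zp`, `v ∈ Z1`, `v` is not a centre, so all pairs are `Nr`.
-/

open Set Metric Filter Topology Function BEv
open scoped NNReal

noncomputable section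
namespace BEp

variable {m : ℕ} {ι : Type} [Finite ι] {Z : Set (V m)} {B : ι → Box m} {s e : ℝ}

section

variable {st : Strat m (Zp Z B s)} {i : ι} {k l : Fin st.nT} {x v : V m}

omit [Finite ι] in
theorem TFar_np (hm : 2 ≤ m) (k : Fin st.nT) : ¬ PC (m - 1) (st.top k).car :=
  (st.top k).not_pc (by omega)

theorem TFar_pt (d : ℕ) (v : V m) : PC d {v} := by
  refine ⟨{AffineSubspace.mk' v ⊥}, finite_singleton _, ?_,
    fun x hx => ⟨_, rfl, hx ▸ AffineSubspace.self_mem_mk' _ _⟩⟩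
  rintro P rfl
  rw [AffineSubspace.direction_mk', finrank_bot]
  exact Nat.zero_le _

omit [Finite ι] in
theorem TFar_int (hm : 2 ≤ m) (h : Geo Z B s e) (sc : ∀ i k, (B i).SC s (st.top k).car)
    (hv : v ∈ Zp Z B s) (hQ : v ∈ (B i).Q s 30) (hk : ∀ l, ∃ k : ℤ, (B i).z s v l = k) :
    v ∈ st.Z1 := by
  by_contra hn
  obtain ⟨k, hk'⟩ := st.top_cov v ⟨hv, hn⟩
  exact TFar_np hm k ((TFar_pt _ v).mono ((sc i k).point h.s0 hk' hQ hk))

omit [Finite ι] in
theorem TFar_c1 (hm : 2 ≤ m) (h : Geo Z B s e) (sc : ∀ i k, (B i).SC s (st.top k).car) (i : ι) :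
    (B i).c ∈ st.Z1 :=
  TFar_int hm h sc (Geo.In_Zp (h.c_In (by omega) i)) (h.c_Q i (by norm_num))
    fun l => ⟨0, by simp [Box.z]⟩

omit [Finite ι] in
theorem TFar_in (h : Geo Z B s e) (sc : ∀ i k, (B i).SC s (st.top k).car)
    (hx : x ∈ (st.top k).car) (hx' : x ∈ (B i).In s) : (st.top k).car ⊆ (B i).In s := by
  have h1 := (sc i k).sub_Q h.s0 (ρ := 6) (by norm_num) hx (by simpa using Box.In_Q h.s0 hx')
  exact fun y hy => h.Zp_Q6 (st.top_sub k hy).1 (by simpa using h1 hy)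

omit [Finite ι] in
theorem TFar_io (h : Geo Z B s e) (sc : ∀ i k, (B i).SC s (st.top k).car) (k : Fin st.nT) :
    (st.top k).car ⊆ ⋃ i, (B i).In s ∨ Disjoint (st.top k).car (⋃ i, (B i).In s) := by
  refine or_iff_not_imp_right.2 fun hn => ?_
  obtain ⟨x, h1, h2⟩ := not_disjoint_iff.1 hn
  obtain ⟨i, hi⟩ := mem_iUnion.1 h2
  exact (TFar_in h sc h1 hi).trans (subset_iUnion (fun i => (B i).In s) i)

theorem TFar_clout (h : Geo Z B s e) (hd : Disjoint (st.top k).car (⋃ i, (B i).In s)) :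
    (st.top k).cl ⊆ Zout Z B s := by
  rw [← Cell.closure_car]
  exact fun y hy => h.cl_out (closure_mono
    (fun x hx => mem_sdiff_of_mem (st.top_sub k hx).1 (disjoint_left.1 hd hx)) hy)

theorem TFar_out (h : Geo Z B s e) (sc : ∀ i k, (B i).SC s (st.top k).car) {p : V m × V m}
    (hp : p ∈ Far Z B s st) : p.1 ∈ Zout Z B s ∨ p.2 ∈ Zout Z B s := by
  obtain ⟨k, l, -, hi, h1, h2⟩ := hp
  rcases TFar_io h sc k with a | a
  · rcases TFar_io h sc l with b | b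
    · exact absurd ⟨a, b⟩ hi
    · exact Or.inr (TFar_clout h b h2)
  · exact Or.inl (TFar_clout h a h1)

theorem TFar_ne (hm : 2 ≤ m) (h : Geo Z B s e) (sc : ∀ i k, (B i).SC s (st.top k).car)
    {p : V m × V m} (hp : p ∈ Far Z B s st) : p.1 ≠ p.2 := by
  intro he
  have ho : p.1 ∈ Zout Z B s := (TFar_out h sc hp).elim id fun a => he ▸ a
  obtain ⟨k, l, hn, -, h1, h2⟩ := hp
  have hC : range (ctr B) ⊆ st.Z1 := range_subset_iff.2 (TFar_c1 hm h sc)
  have key : ∀ v ∈ st.Z1, v ∉ range (ctr B) → v ∈ (st.top k).cl → v ∈ (st.top l).cl → False :=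
    fun v a b c d => hn fun x hx y hy => ⟨v, a, b, st.s1 a, _, _, st.flat hC k, st.flat hC l, hx, hy,
      (st.top k).closure_car ▸ c, (st.top l).closure_car ▸ d⟩
  rcases eq_or_ne k l with rfl | hkl
  · obtain ⟨w, w1, w2⟩ := ((st.top k).infinite_bd hm).exists_notMem_finite (finite_range (ctr B))
    have w3 : w ∈ (st.top k).cl := (st.top k).cl_eq ▸ Or.inr w1
    exact key w (st.top_bd k w1) w2 w3 w3
  · rw [← he] at h2
    refine key p.1 ?_ (fun ⟨i, hi⟩ => h.c_out i (hi ▸ ho : ctr B i ∈ _)) h1 h2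
    rw [Cell.cl_eq] at h1 h2
    rcases h1 with a | a
    · rcases h2 with b | b
      · exact absurd b (disjoint_left.1 (st.top_disj k l hkl) a)
      · exact st.top_bd l b
    · exact st.top_bd k a

omit [Finite ι] in
theorem TFar_cls (hm : 2 ≤ m) (h : Geo Z B s e) (sc : ∀ i k, (B i).SC s (st.top k).car)
    (hx : x ∈ (st.top k).cl) (hQ : x ∈ (B i).Q s 16) :
    (B i).Cls s (Zp Z B s) (range (ctr B)) (st.top k).car := by
  by_cases hd : Disjoint (st.top k).car ((B i).In s)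
  · rw [← Cell.closure_car] at hx
    obtain ⟨y, y1, y2⟩ := mem_closure_iff.1 hx _ Box.ot_open
      (Box.Q_ot (ρ' := 17) h.s0 (by norm_num) h.e0 hQ)
    have h1 := (sc i k).sub_Q h.s0 (ρ := 24) (by norm_num) y2
      (Box.Q_monoP h.s0.le (by norm_num) (h.Zp_ot (by norm_num) (st.top_sub k y2).1 y1))
    exact h.cls_out (by omega) i (fun z hz => (st.top_sub k hz).1) (sc i k) (TFar_np hm k)
      (by simpa using h1) hd
  · obtain ⟨y, y1, y2⟩ := not_disjoint_iff.1 hd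
    exact h.cls_in (by omega) i (TFar_in h sc y1 y2) (sc i k) (TFar_np hm k)
      fun c => (st.top_sub k c).2 (TFar_c1 hm h sc i)

omit [Finite ι] in
theorem TFar_bx (h : Geo Z B s e) (hx : x ∈ Zout Z B s) {y : V m} (hy : y ∈ (B i).slice) {t : ℝ}
    (ht : t ∈ Icc (0 : ℝ) 1) (e1 : x = (B i).c + t • (y - (B i).c))
    (e2 : t = 1 ∨ y ∈ (B i).L s) : x = y := by
  have h1 : t = 1 := e2.elim id fun a => by
    have h2 := Geo.out_norm hx (e1 ▸ Box.slice_ray hy t)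
    rw [e1, Box.norm_ray y ht.1, a.2] at h2
    exact le_antisymm ht.2 ((le_mul_iff_one_le_left (h.pos i (by norm_num))).1 h2)
  rw [e1, h1, one_smul, add_sub_cancel]

/-- The common part of the two distance estimates. -/
theorem TFar_two (hm : 2 ≤ m) (h : Geo Z B s e) (sc : ∀ i k, (B i).SC s (st.top k).car)
    {p : V m × V m} (hp : p ∈ Far Z B s st) (h1 : p.1 ∈ Zout Z B s ∩ (B i).Q s 16)
    (h2 : p.2 ∈ (B i).Q s 16) : ∃ y ∈ (B i).slice, s * ((B i).r + 6) ≤ ‖y - (B i).c‖ ∧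
      ∃ t ∈ Icc (0 : ℝ) 1, p.2 = (B i).c + t • (y - (B i).c) ∧ (t = 1 ∨ y ∈ (B i).L s) ∧
      ∀ τ, s * ((B i).r + 4) ≤ τ → ‖y - (B i).c‖ ≤ max (s * ((B i).r + 6)) τ →
        2 * s ≤ ‖p.1 - (B i).clp τ y‖ := by
  obtain ⟨k, l, hn, -, p1, p2⟩ := hp
  obtain ⟨lo, hi, U, a1, a2, a3, a4, a5, a6⟩ := TFar_cls hm h sc p1 h1.2
  obtain ⟨lo', hi', U', b1, b2, b3, b4, b5, b6⟩ := TFar_cls hm h sc p2 h2
  rw [Cell.closure_car] at a6 b6
  obtain ⟨x, x1, u, hu, x2, x3⟩ := a6 _ p1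
  obtain ⟨y, y1, t, ht, y2, y3⟩ := b6 _ p2
  rw [← TFar_bx h h1.1 x1.1 hu x2 x3] at x1
  refine ⟨y, y1.1, (b5 y y1).2, t, ht, y2, y3, fun τ c1 c2 => not_lt.1 fun c3 => ?_⟩
  obtain ⟨v, ⟨v1, v2⟩, v3⟩ := Box.grid h.s0 (h.r8 i).1 a1 b1 x1 y1 c1 c2 c3
  obtain ⟨O, -, hO⟩ := a2.2.2.1
  have hv : v ∈ Zp Z B s := closure_minimal (hO ▸ inter_subset_left)
    (h.poly_Zp (by omega)).1.isClosed (a4 v1)
  have hQ := (a5 v v1).1
  refine hn fun x hx y hy => ⟨v, TFar_int hm h sc hv (Box.Q_monoP h.s0.le (by norm_num) hQ) v3, ?_,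
    hv, U, U', a2, b2, a3 hx, b3 hy, a4 v1, b4 v2⟩
  rintro ⟨j, rfl⟩
  obtain rfl := h.eq_of_Q (by norm_num) (by norm_num) hQ (h.c_Q j le_rfl)
  have := (a5 _ v1).2
  rw [ctr, sub_self, norm_zero] at this
  exact this.not_gt (h.pos i (by norm_num))

end

theorem Geo.exists_far (hm : 2 ≤ m) (h : Geo Z B s e) : ∃ st, FarOK Z B s st := by
  obtain ⟨st, sc⟩ := exists_sc hm B s (h.poly_Zp (by omega)) h.pc_Zp
  refine ⟨st, TFar_c1 hm h sc, TFar_io h sc, fun p hp => TFar_ne hm h sc hp,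
    fun p hp => TFar_out h sc hp, fun p hp i h1 h2 => ?_, fun p hp i h1 h2 => ?_⟩
  · obtain ⟨y, y1, -, t, ht, y2, y3, y4⟩ := TFar_two hm h sc hp h1 h2.2
    have e1 := ((Box.mem_Q (h.pos i (by norm_num)).le).1 h2.2).2
    rw [← TFar_bx h h2.1 y1 ht y2 y3] at y4
    have e2 := y4 _ (by have := h.s0; gcongr; norm_num) (le_max_of_le_right e1)
    rwa [Box.clp_self e1] at e2
  · obtain ⟨y, y1, y0, t, ht, y2, y3, y4⟩ := TFar_two hm h sc hp h1
      (Box.Q_monoP h.s0.le (by norm_num) (Box.In_Q h.s0 h2))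
    have e1 : y ∈ (B i).L s := y3.elim (fun a => by
      rw [a, one_smul, add_sub_cancel] at y2
      exact Box.L_of_In h.s0 (y2 ▸ h2) y0) id
    exact ⟨y, e1, t, ht, y2, fun τ hτ => y4 τ hτ.1 (le_max_of_le_left e1.2.le)⟩

end BEp
end
end
end

-- merged part: Pool.Agent.Work.MP_f0515e_an.Pos.TBlow0
section
/-! The model expansion map of a cube (TOP2 of the plan). -/

open Set Metric Filter Topology Function BEv
open scoped NNReal

noncomputable section
namespace BEp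

theorem te_max {E κ : Type} [NormedAddCommGroup E] [NormedSpace ℝ E] (S : Finset κ) {g : E → ℝ}
    {f : κ → E → ℝ} (hg : TP g) (hf : ∀ k, TP (f k)) : ∃ F : E → ℝ, TP F ∧ (∀ x, g x ≤ F x) ∧
      (∀ k ∈ S, ∀ x, f k x ≤ F x) ∧ ∀ x, F x = g x ∨ ∃ k ∈ S, F x = f k x := by
  classical
  induction S using Finset.induction_on with
  | empty => exact ⟨g, hg, fun _ => le_rfl, by simp, fun _ => Or.inl rfl⟩
  | insert a S _ ih =>
    obtain ⟨F, h1, h2, h3, h4⟩ := ih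
    refine ⟨fun x => max (F x) (f a x), h1.max (hf a), fun x => le_max_of_le_left (h2 x),
      fun k hk x => ?_, fun x => ?_⟩
    · rcases Finset.mem_insert.1 hk with rfl | hk
      · exact le_max_right _ _
      · exact le_max_of_le_left (h3 k hk x)
    · rcases max_choice (F x) (f a x) with e | e
      · rcases h4 x with e' | ⟨k, hk, e'⟩
        · exact Or.inl (e.trans e')
        · exact Or.inr ⟨k, Finset.mem_insert_of_mem hk, e.trans e'⟩
      · exact Or.inr ⟨a, Finset.mem_insert_self _ _, e⟩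

/-- The contraction factor at level `N`. -/
def teW (a q N : ℝ) : ℝ := 1 + (1 - q) / 2 * (N - a)

theorem te_lam {a q : ℝ} (ha : 4 ≤ a) (q0 : 0 < q) (q1 : q ≤ 1 / 2) (Γ : Finset ℝ)
    (hΓ : ∀ γ ∈ Γ, |γ| ≤ a - 4) : ∃ Λ : ℝ × ℝ → ℝ, TP Λ ∧ (∀ N, StrictMono fun t => Λ (t, N)) ∧
      (∀ N ∈ Icc (a - 2) a, Λ (N, N) = a * teW a q N ∧ Λ (-N, N) = -(a * teW a q N) ∧
        ∀ γ ∈ Γ, Λ (γ, N) = γ * teW a q N) ∧ ∀ t ∈ Icc (-a) a, Λ (t, a) = t := by
  have tw : TP fun p : ℝ × ℝ => teW a q p.2 :=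
    (TP.const 1).add ((TP.id'.snd.sub (TP.const a)).const_mul _)
  obtain ⟨Λ, h1, h2, h3, h4⟩ := te_max Γ
    (g := fun p : ℝ × ℝ => max (a * teW a q p.2 + (p.1 - p.2))
      (-(a * teW a q p.2) + q * (p.1 + p.2)))
    (f := fun γ p => γ * teW a q p.2 + min (p.1 - γ) (q * (p.1 - γ)))
    (((tw.const_mul a).add (TP.id'.fst.sub TP.id'.snd)).max
      ((tw.const_mul a).neg.add ((TP.id'.fst.add TP.id'.snd).const_mul q)))
    fun γ => (tw.const_mul γ).add ((TP.id'.fst.sub (TP.const γ)).min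
      ((TP.id'.fst.sub (TP.const γ)).const_mul q))
  have up : ∀ t N v, a * teW a q N + (t - N) ≤ v → -(a * teW a q N) + q * (t + N) ≤ v →
      (∀ γ ∈ Γ, γ * teW a q N + min (t - γ) (q * (t - γ)) ≤ v) → Λ (t, N) ≤ v := by
    intro t N v k1 k2 k3
    rcases h4 (t, N) with e | ⟨γ, hγ, e⟩
    · exact e.le.trans (max_le k1 k2)
    · exact e.le.trans (k3 γ hγ)
  have line : ∀ t γ w, q ≤ w → w ≤ 1 → γ * w + min (t - γ) (q * (t - γ)) ≤ t * w := by
    intro t γ w k1 k2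
    rcases le_total γ t with k | k
    · have := min_le_right (t - γ) (q * (t - γ))
      linarith only [this, k1, k, mul_le_mul_of_nonneg_right k1 (sub_nonneg.2 k)]
    · have := min_le_left (t - γ) (q * (t - γ))
      linarith only [this, k2, k, mul_le_mul_of_nonneg_right k2 (sub_nonneg.2 k)]
  refine ⟨Λ, h1, fun N t t' h => ?_, fun N hN => ?_, fun t ht => ?_⟩
  · have k : q * t < q * t' := mul_lt_mul_of_pos_left h q0
    rcases h4 (t, N) with e | ⟨γ, hγ, e⟩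
    · refine e.le.trans_lt (lt_of_lt_of_le ?_ (h2 (t', N)))
      exact max_lt_max (by simpa using h) (by simp only; linarith only [k])
    · refine e.le.trans_lt (lt_of_lt_of_le ?_ (h3 γ hγ (t', N)))
      have := min_lt_min (show t - γ < t' - γ by linarith)
        (show q * (t - γ) < q * (t' - γ) by linarith)
      simp only
      linarith
  · obtain ⟨w, hw⟩ : ∃ w, w = teW a q N := ⟨_, rfl⟩
    obtain ⟨n1, n2⟩ := hN
    have w1 : w ≤ 1 := by
      rw [hw, teW]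
      linarith only [n2, q1, mul_nonneg_of_nonpos_of_nonpos (Mathlib.Tactic.Linarith.sub_nonpos_of_le q1) (Mathlib.Tactic.Linarith.sub_nonpos_of_le n2)]
    have w0 : q ≤ w := by
      rw [hw, teW]
      linarith only [n1, q1, mul_nonneg_of_nonpos_of_nonpos (Mathlib.Tactic.Linarith.sub_nonpos_of_le q1) (Mathlib.Tactic.Linarith.sub_nonpos_of_le n1)]
    have K : ∀ g, g ≤ a - 4 → w * (a - g) ≤ N - g := by
      intro g hg
      have : 2 ≤ (1 - q) * (a - g) := by linarith only [q1, hg, mul_nonneg_of_nonpos_of_nonpos (Mathlib.Tactic.Linarith.sub_nonpos_of_le q1) (Mathlib.Tactic.Linarith.sub_nonpos_of_le hg)]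
      rw [hw, teW]
      linarith only [this, n2, mul_le_mul_of_nonneg_right this (sub_nonneg.2 n2)]
    have K0 := K 0 (by linarith only [ha])
    have qN : q * N ≤ a * w := by linarith only [w0, ha, q0, n2, mul_nonneg_of_nonpos_of_nonpos (Mathlib.Tactic.Linarith.sub_nonpos_of_le ha) (Mathlib.Tactic.Linarith.sub_nonpos_of_le w0), mul_nonneg_of_nonpos_of_nonpos (le_of_lt (Mathlib.Tactic.Linarith.sub_neg_of_lt q0)) (Mathlib.Tactic.Linarith.sub_nonpos_of_le n2)]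
    have l1 := (le_max_left _ _).trans (h2 (N, N))
    have l2 := (le_max_right _ _).trans (h2 (-N, N))
    simp only at l1 l2
    rw [← hw] at l1 l2 ⊢
    refine ⟨le_antisymm (up _ _ _ ?_ ?_ fun γ _ => ?_) (by linarith only [l1]),
      le_antisymm (up _ _ _ ?_ ?_ fun γ hγ => ?_) (by linarith only [l2]), fun γ hγ => ?_⟩
    · rw [← hw]
      linarith
    · rw [← hw]
      linarith
    · rw [← hw]
      have := line N γ w w0 w1
      (refine le_of_not_gt fun h_nl => ?_; linarith only [h_nl, this, q0, n2, q1, w0, mul_nonneg_of_nonpos_of_nonpos (le_of_lt (Mathlib.Tactic.Linarith.sub_neg_of_lt q0)) (Mathlib.Tactic.Linarith.sub_nonpos_of_le n2), mul_pos_of_neg_of_neg (Mathlib.Tactic.Linarith.sub_neg_of_lt q0) (Mathlib.Tactic.Linarith.sub_neg_of_lt h_nl), mul_nonneg_of_nonpos_of_nonpos (Mathlib.Tactic.Linarith.sub_nonpos_of_le q1) (le_of_lt (Mathlib.Tactic.Linarith.sub_neg_of_lt h_nl)), mul_nonneg_of_nonpos_of_nonpos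 (Mathlib.Tactic.Linarith.sub_nonpos_of_le n2) (Mathlib.Tactic.Linarith.sub_nonpos_of_le w0)])
    · rw [← hw]
      linarith only [K0]
    · rw [← hw]
      linarith
    · rw [← hw]
      have := K (-γ) (by linarith only [hΓ, hγ, (abs_le.1 (hΓ γ hγ)).1])
      have := min_le_left (-N - γ) (q * (-N - γ))
      linarith
    · obtain ⟨g1, g2⟩ := abs_le.1 (hΓ γ hγ)
      have l3 := h3 γ hγ (γ, N)
      simp only [sub_self, mul_zero, min_self, add_zero] at l3
      rw [← hw] at l3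
      refine le_antisymm (up _ _ _ ?_ ?_ fun γ' _ => ?_) l3
      · rw [← hw]
        have := K γ g2
        linarith only [this]
      · rw [← hw]
        have : q * (γ + N) ≤ w * (γ + a) :=
          mul_le_mul w0 (by linarith) (by linarith only [q0, q1, n1, g1]) (by linarith only [q0, w0])
        linarith only [this]
      · rw [← hw]
        exact line γ γ' w w0 w1
  · have e : teW a q a = 1 := by simp [teW]
    have l1 := (le_max_left _ _).trans (h2 (t, a))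
    simp only at l1
    rw [e] at l1
    refine le_antisymm (up _ _ _ ?_ ?_ fun γ _ => ?_) (by linarith)
    · rw [e]
      linarith
    · rw [e]
      (refine le_of_not_gt fun h_nl => ?_; linarith only [h_nl, ht, q0, q1, ht.1, mul_pos_of_neg_of_neg (Mathlib.Tactic.Linarith.sub_neg_of_lt q0) (Mathlib.Tactic.Linarith.sub_neg_of_lt h_nl), mul_nonneg_of_nonpos_of_nonpos (Mathlib.Tactic.Linarith.sub_nonpos_of_le q1) (le_of_lt (Mathlib.Tactic.Linarith.sub_neg_of_lt h_nl)), mul_nonneg_of_nonpos_of_nonpos (Mathlib.Tactic.Linarith.sub_nonpos_of_le q1) (Mathlib.Tactic.Linarith.sub_nonpos_of_le ht.left)])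
    · rw [e]
      have := line t γ 1 (by linarith) le_rfl
      linarith

theorem te_model {κ : Type} [Fintype κ] {a q : ℝ} (ha : 4 ≤ a) (q0 : 0 < q) (q1 : q ≤ 1 / 2)
    {Γ : Set ℝ} (hf : Γ.Finite) (hΓ : ∀ γ ∈ Γ, |γ| ≤ a - 4) :
    ∃ T : (κ → ℝ) → κ → ℝ, TP T ∧ (∀ z, ‖z‖ ≤ a → ‖T z‖ ≤ a) ∧
      (∀ r ∈ Icc (0 : ℝ) 1, InjOn (fun z => (1 - r) • z + r • T z) (closedBall 0 a)) ∧
      (∀ z, ‖z‖ = a → T z = z) ∧ (∀ z, ‖z‖ ≤ a - 2 → ‖T z‖ ≤ a * q) ∧
      (∀ z, ‖z‖ ≤ a → ∀ l, z l = 0 → T z l = 0) ∧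
      ∀ z, a - 2 ≤ ‖z‖ → ‖z‖ ≤ a → ∃ t ∈ Icc (0 : ℝ) 1, ∃ y : κ → ℝ, ‖y‖ = a ∧ T z = t • y ∧
        (∀ l, z l = 0 → y l = 0) ∧ ∀ l, z l ∈ Γ → y l = z l := by
  classical
  obtain ⟨Λ, h1, h2, h3, h4⟩ := te_lam ha q0 q1 (insert 0 hf.toFinset) fun γ hγ => by
    rcases Finset.mem_insert.1 hγ with rfl | hγ
    · simpa using ha
    · exact hΓ γ (hf.mem_toFinset.1 hγ)
  obtain ⟨N, hN⟩ : ∃ N : (κ → ℝ) → ℝ, N = fun z => max ‖z‖ (a - 2) := ⟨_, rfl⟩
  have tN : TP N := hN ▸ TP.id'.norm_pi.max (TP.const _)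
  have mN : ∀ z, ‖z‖ ≤ a → N z ∈ Icc (a - 2) a := fun z hz => by
    rw [hN]
    exact ⟨le_max_right _ _, max_le hz (by linarith only [q0, q1])⟩
  have zN : ∀ z l, |z l| ≤ N z := fun z l => by
    rw [hN]
    exact le_max_of_le_left (norm_le_pi_norm z l)
  have wN : ∀ n ∈ Icc (a - 2) a, q ≤ teW a q n ∧ teW a q n ≤ 1 := fun n hn => by
    unfold teW
    constructor <;> (refine le_of_not_gt fun h_nl => ?_; linarith only [h_nl, hn, q0, q1, hn.1, hn.2, mul_pos_of_neg_of_neg (Mathlib.Tactic.Linarith.sub_neg_of_lt q0) (Mathlib.Tactic.Linarith.sub_neg_of_lt h_nl), mul_nonneg_of_nonpos_of_nonpos (Mathlib.Tactic.Linarith.sub_nonpos_of_le q1) (le_of_lt (Mathlib.Tactic.Linarith.sub_neg_of_lt h_nl)), mul_nonneg_of_nonpos_of_nonpos (Mathlib.Tactic.Linarith.sub_nonpos_of_le q1) (Mathlib.Tactic.Linarith.sub_nonpos_of_le hn.left), mul_nonneg_of_nonpos_of_nonpos (Mathlib.Tactic.Linarith.sub_nonpos_of_le q1) (Mathlib.Tactic.Linarith.sub_nonpos_of_le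 hn.right)])
  have bd : ∀ z, ‖z‖ ≤ a → ∀ l, |Λ (z l, N z)| ≤ a * teW a q (N z) := fun z hz l => by
    obtain ⟨k1, k2, -⟩ := h3 _ (mN z hz)
    obtain ⟨k3, k4⟩ := abs_le.1 (zN z l)
    exact abs_le.2 ⟨k2 ▸ (h2 _).monotone k3, k1 ▸ (h2 _).monotone k4⟩
  have top : ∀ z, a - 2 ≤ ‖z‖ → ‖z‖ ≤ a → ∃ l, (z l = N z ∧ Λ (z l, N z) = a * teW a q (N z)) ∨
      (z l = -N z ∧ Λ (z l, N z) = -(a * teW a q (N z))) := fun z k1 k2 => by
    have ne : Nonempty κ := by
      by_contra c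
      rw [not_nonempty_iff] at c
      rw [Subsingleton.elim z 0, norm_zero] at k1
      linarith only [ha, q0, q1, k1]
    obtain ⟨l, -, hl⟩ := Finset.exists_max_image Finset.univ (fun l => |z l|) Finset.univ_nonempty
    have e : |z l| = N z := by
      rw [hN]
      simp only
      rw [max_eq_left k1]
      exact le_antisymm (norm_le_pi_norm z l)
        ((pi_norm_le_iff_of_nonneg (abs_nonneg _)).2 fun j => hl j (Finset.mem_univ _))
    obtain ⟨k3, k4, -⟩ := h3 _ (mN z k2)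
    rcases abs_choice (z l) with e' | e'
    · have : z l = N z := e'.symm.trans e
      exact ⟨l, Or.inl ⟨this, by rw [this, k3]⟩⟩
    · have : z l = -N z := by linarith only [e, e']
      exact ⟨l, Or.inr ⟨this, by rw [this, k4]⟩⟩
  have nm : ∀ r ∈ Icc (0 : ℝ) 1, ∀ z, ‖z‖ ≤ a →
      max ‖(1 - r) • z + r • fun l => Λ (z l, N z)‖ ((1 - r) * (a - 2) + r * (a * teW a q (a - 2))) =
        (1 - r) * N z + r * (a * teW a q (N z)) := fun r hr z hz => by
    have r1 : 0 ≤ 1 - r := sub_nonneg.2 hr.2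
    obtain ⟨n1, n2⟩ := mN z hz
    have p : 0 ≤ a * teW a q (N z) := mul_nonneg (by linarith) (q0.le.trans (wN _ ⟨n1, n2⟩).1)
    have u : ‖(1 - r) • z + r • fun l => Λ (z l, N z)‖ ≤ (1 - r) * N z + r * (a * teW a q (N z)) := by
      refine (pi_norm_le_iff_of_nonneg (add_nonneg (mul_nonneg r1 (by linarith only [ha, q0, q1, n1]))
        (mul_nonneg hr.1 p))).2 fun l => ?_
      obtain ⟨b1, b2⟩ := abs_le.1 (bd z hz l)
      obtain ⟨b3, b4⟩ := abs_le.1 (zN z l)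
      simp only [Pi.add_apply, Pi.smul_apply, smul_eq_mul, Real.norm_eq_abs]
      have := hr.1
      exact abs_le.2 ⟨by (refine le_of_not_gt fun h_nl => ?_; linarith only [h_nl, q0, q1, r1, b3, b1, this, mul_pos_of_neg_of_neg (Mathlib.Tactic.Linarith.sub_neg_of_lt q0) (Mathlib.Tactic.Linarith.sub_neg_of_lt h_nl), mul_nonneg_of_nonpos_of_nonpos (Mathlib.Tactic.Linarith.sub_nonpos_of_le q1) (le_of_lt (Mathlib.Tactic.Linarith.sub_neg_of_lt h_nl)), mul_nonneg_of_nonpos_of_nonpos (Mathlib.Tactic.Linarith.sub_nonpos_of_le r1) (Mathlib.Tactic.Linarith.sub_nonpos_of_le b3), mul_nonneg_of_nonpos_of_nonpos (Mathlib.Tactic.Linarith.sub_nonpos_of_le b1) (Mathlib.Tactic.Linarith.sub_nonpos_of_le this)]), by (refine le_of_not_gt fun h_nl => ?_; linarith only [h_nl, q0, q1, r1, b4, b2, this, mul_pos_of_neg_of_neg (Mathlib.Tactic.Linarith.sub_neg_of_lt q0) (Mathlib.Tactic.Linarith.sub_neg_of_lt h_nl), mul_nonneg_of_nonpos_of_nonpos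 (Mathlib.Tactic.Linarith.sub_nonpos_of_le q1) (le_of_lt (Mathlib.Tactic.Linarith.sub_neg_of_lt h_nl)), mul_nonneg_of_nonpos_of_nonpos (Mathlib.Tactic.Linarith.sub_nonpos_of_le r1) (Mathlib.Tactic.Linarith.sub_nonpos_of_le b4), mul_nonneg_of_nonpos_of_nonpos (Mathlib.Tactic.Linarith.sub_nonpos_of_le b2) (Mathlib.Tactic.Linarith.sub_nonpos_of_le this)])⟩
    rcases le_total ‖z‖ (a - 2) with k | k
    · have e : N z = a - 2 := by
        rw [hN]
        exact max_eq_right k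
      rw [e] at u
      rw [e, max_eq_right u]
    · have v : (1 - r) * N z + r * (a * teW a q (N z)) ≤
          ‖(1 - r) • z + r • fun l => Λ (z l, N z)‖ := by
        obtain ⟨l, hl⟩ := top z k hz
        refine le_trans ?_ (norm_le_pi_norm _ l)
        simp only [Pi.add_apply, Pi.smul_apply, smul_eq_mul, Real.norm_eq_abs]
        rcases hl with ⟨e1, e2⟩ | ⟨e1, e2⟩
        · rw [e2, e1]
          exact le_abs_self _
        · rw [e2, e1]
          refine le_trans (le_of_eq ?_) (neg_le_abs _)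
          ring
      rw [le_antisymm u v]
      refine max_eq_left (add_le_add (mul_le_mul_of_nonneg_left n1 r1)
        (mul_le_mul_of_nonneg_left (mul_le_mul_of_nonneg_left ?_ (by linarith only [ha, q0, q1])) hr.1))
      unfold teW
      linarith only [n1, q1, mul_nonneg_of_nonpos_of_nonpos (Mathlib.Tactic.Linarith.sub_nonpos_of_le q1) (Mathlib.Tactic.Linarith.sub_nonpos_of_le n1)]
  have nT : ∀ z, ‖z‖ ≤ a → ‖fun l => Λ (z l, N z)‖ ≤ a * teW a q (N z) := fun z hz =>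
    (pi_norm_le_iff_of_nonneg (mul_nonneg (by linarith) (q0.le.trans (wN _ (mN z hz)).1))).2
      fun l => bd z hz l
  have node : ∀ z, ‖z‖ ≤ a → ∀ l, (z l = 0 ∨ z l ∈ Γ) → Λ (z l, N z) = z l * teW a q (N z) :=
    fun z hz l hl => (h3 _ (mN z hz)).2.2 _ (Finset.mem_insert.2 (hl.imp id hf.mem_toFinset.2))
  refine ⟨fun z l => Λ (z l, N z), TP.pi fun l => h1.comp ((TP.id'.apply l).prod tN),
    fun z hz => (nT z hz).trans ?_, fun r hr z hz z' hz' e => ?_, fun z hz => funext fun l => ?_,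
    fun z hz => ?_, fun z hz l hl => ?_, fun z k1 k2 => ?_⟩
  · linarith only [wN, mN, hz, ha, (wN _ (mN z hz)).2, mul_nonneg_of_nonpos_of_nonpos (Mathlib.Tactic.Linarith.sub_nonpos_of_le ha) (Mathlib.Tactic.Linarith.sub_nonpos_of_le (wN (N z) (mN z hz)).right)]
  · rw [mem_closedBall_zero_iff] at hz hz'
    have e1 := nm r hr z hz
    have e2 := nm r hr z' hz'
    simp only at e
    rw [e, e2] at e1
    have e3 : N z' = N z := by
      unfold teW at e1
      have p : 0 < (1 - r) + r * (a * ((1 - q) / 2)) := by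
        have : 1 ≤ a * ((1 - q) / 2) := by linarith only [ha, q1, mul_nonneg_of_nonpos_of_nonpos (Mathlib.Tactic.Linarith.sub_nonpos_of_le ha) (Mathlib.Tactic.Linarith.sub_nonpos_of_le q1)]
        linarith only [q1, q0, this, hr, hr.1, mul_pos_of_neg_of_neg (Mathlib.Tactic.Linarith.sub_neg_of_lt q0) (Mathlib.Tactic.Linarith.sub_neg_of_lt q0), mul_nonneg_of_nonpos_of_nonpos (le_of_lt (Mathlib.Tactic.Linarith.sub_neg_of_lt q0)) (Mathlib.Tactic.Linarith.sub_nonpos_of_le q1), mul_nonneg_of_nonpos_of_nonpos (Mathlib.Tactic.Linarith.sub_nonpos_of_le this) (Mathlib.Tactic.Linarith.sub_nonpos_of_le hr.left)]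
      have : ((1 - r) + r * (a * ((1 - q) / 2))) * (N z' - N z) = 0 := by linarith only [e1]
      exact sub_eq_zero.1 ((mul_eq_zero.1 this).resolve_left p.ne')
    funext l
    have e4 := congrFun e l
    simp only [Pi.add_apply, Pi.smul_apply, smul_eq_mul, e3] at e4
    have sm : StrictMono fun t => (1 - r) * t + r * Λ (t, N z) := fun t t' h => by
      have k := h2 (N z) h
      simp only at k ⊢
      rcases hr.1.eq_or_lt with k0 | k0
      · subst k0
        linarith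
      · linarith only [h, hr, k, k0, hr.2, mul_nonneg_of_nonpos_of_nonpos (le_of_lt (Mathlib.Tactic.Linarith.sub_neg_of_lt h)) (Mathlib.Tactic.Linarith.sub_nonpos_of_le hr.right), mul_pos_of_neg_of_neg (Mathlib.Tactic.Linarith.sub_neg_of_lt k) (Mathlib.Tactic.Linarith.sub_neg_of_lt k0)]
    exact sm.injective e4
  · have e : N z = a := by
      rw [hN]
      simp only
      rw [hz]
      exact max_eq_left (by linarith)
    simp only
    rw [e]
    exact h4 _ (abs_le.1 ((zN z l).trans e.le))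
  · have e : N z = a - 2 := by
      rw [hN]
      exact max_eq_right hz
    refine (nT z (by linarith only [q0, q1, hz])).trans (le_of_eq ?_)
    rw [e, teW]
    ring
  · simp only
    rw [node z hz l (Or.inl hl), hl, zero_mul]
  · obtain ⟨w0, w1⟩ := wN _ (mN z k2)
    have wp : 0 < teW a q (N z) := q0.trans_le w0
    have key : ∀ l, (z l = 0 ∨ z l ∈ Γ) →
        ((teW a q (N z))⁻¹ • fun l => Λ (z l, N z)) l = z l := fun l hl => by
      simp only [Pi.smul_apply, smul_eq_mul]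
      rw [node z k2 l hl]
      field_simp
    refine ⟨teW a q (N z), ⟨wp.le, w1⟩, (teW a q (N z))⁻¹ • fun l => Λ (z l, N z), ?_, ?_,
      fun l hl => (key l (Or.inl hl)).trans hl, fun l hl => key l (Or.inr hl)⟩
    · have v : a * teW a q (N z) ≤ ‖fun l => Λ (z l, N z)‖ := by
        obtain ⟨l, hl⟩ := top z k1 k2
        refine le_trans ?_ (norm_le_pi_norm _ l)
        simp only [Real.norm_eq_abs]
        rcases hl with ⟨-, e2⟩ | ⟨-, e2⟩
        · rw [e2]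
          exact le_abs_self _
        · rw [e2, abs_neg]
          exact le_abs_self _
      rw [norm_smul, le_antisymm (nT z k2) v, Real.norm_eq_abs, abs_of_pos (inv_pos.2 wp)]
      field_simp
    · rw [smul_inv_smul₀ wp.ne']

end BEp
end
end

-- merged part: Pool.Agent.Work.MP_f0515e_an.Pos.TBlow
section
/-! EXPORT (TOP2). Blowing a germ up to a box. -/

open Set Metric Filter Topology Function BEv
open scoped NNReal

noncomputable section
namespace BEp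

theorem te_core {n n' : ℕ} {X : Set (Fin n → ℝ)} (hX : Poly X) {T : (Fin n → ℝ) → Fin n → ℝ}
    (hT : TP T) (hm : ∀ r ∈ Icc (0 : ℝ) 1, InjOn (fun x => (1 - r) • x + r • T x) X ∧
      MapsTo (fun x => (1 - r) • x + r • T x) X X) {u : (Fin n → ℝ) → Fin n' → ℝ} (hu : TP u)
    (hi : InjOn u X) (ha : ∀ r ∈ Icc (0 : ℝ) 1, ∀ x ∈ X,
      u ((1 - r) • x + r • T x) = (1 - r) • u x + r • u (T x)) :
    ∃ E : (Fin n' → ℝ) → Fin n' → ℝ, SG E ∧ ∀ x ∈ X, E (u x) = u (T x) := by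
  obtain ⟨E, h1, -, h2⟩ := eqv_line hX (C := ∅) finite_empty (empty_subset _) hu (hu.comp hT)
    (fun r hr x hx y hy e => (hm r hr).1 hx hy (hi ((hm r hr).2 hx) ((hm r hr).2 hy)
      ((ha r hr x hx).trans (e.trans (ha r hr y hy).symm)))) (by simp)
  exact ⟨E, h1, h2⟩

variable {m : ℕ}

theorem te_memQ (B : Box m) {s ρ : ℝ} (h : 0 ≤ s * (B.r + ρ)) {x : V m} :
    x ∈ B.Q s ρ ↔ x ∈ B.slice ∧ ‖x - B.c‖ ≤ s * (B.r + ρ) := by
  refine and_congr_right fun hx => ⟨fun k => (pi_norm_le_iff_of_nonneg h).2 fun l => ?_,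
    fun k l _ => (norm_le_pi_norm (x - B.c) l).trans k⟩
  by_cases hl : l ∈ B.I
  · exact k l hl
  · simpa [hx l hl] using h

open Classical in
/-- Distance to the slice. -/
def teR (B : Box m) (x : V m) : ℝ := ‖fun l => if l ∈ B.I then 0 else x l - B.c l‖

theorem teR_tp (B : Box m) : TP (teR B) := by
  refine TP.norm_pi (TP.pi fun l => ?_)
  by_cases hl : l ∈ B.I
  · simpa [hl] using TP.const (0 : ℝ)
  · simpa [hl] using (TP.id'.apply l).sub (TP.const (B.c l))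

theorem teR_le (B : Box m) {x : V m} {e : ℝ} (he : 0 ≤ e) :
    teR B x ≤ e ↔ ∀ l, l ∉ B.I → |x l - B.c l| ≤ e := by
  unfold teR
  rw [pi_norm_le_iff_of_nonneg he]
  refine forall_congr' fun l => ?_
  by_cases hl : l ∈ B.I <;> simp [hl, he]

theorem teR_zero (B : Box m) {x : V m} : teR B x ≤ 0 ↔ x ∈ B.slice := by
  rw [teR_le B le_rfl]
  exact forall₂_congr fun l _ => by rw [abs_nonpos_iff, sub_eq_zero]

theorem te_polyQ (B : Box m) {s ρ : ℝ} (h : 0 ≤ s * (B.r + ρ)) : Poly (B.Q s ρ) := by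
  convert poly_le (Poly.closedBall B.c (s * (B.r + ρ))) (teR_tp B) using 1
  ext x
  rw [te_memQ B h, mem_sep_iff, teR_zero, mem_closedBall, dist_eq_norm, and_comm]

theorem te_convQ (B : Box m) (s ρ : ℝ) : Convex ℝ (B.Q s ρ) := by
  intro x hx y hy a b ha hb hab
  have e : ∀ l, (a • x + b • y) l - B.c l = a * (x l - B.c l) + b * (y l - B.c l) := fun l => by
    simp only [Pi.add_apply, Pi.smul_apply, smul_eq_mul]
    linear_combination (B.c l) * hab
  refine ⟨fun l hl => sub_eq_zero.1 ?_, fun l hl => ?_⟩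
  · rw [e, hx.1 l hl, hy.1 l hl]
    ring
  · obtain ⟨k1, k2⟩ := abs_le.1 (hx.2 l hl)
    obtain ⟨k3, k4⟩ := abs_le.1 (hy.2 l hl)
    have : s * (B.r + ρ) = a * (s * (B.r + ρ)) + b * (s * (B.r + ρ)) := by
      rw [← add_mul, hab, one_mul]
    rw [e]
    exact abs_le.2 ⟨by linarith only [this, ha, k1, hb, k3, mul_nonneg_of_nonpos_of_nonpos (Mathlib.Tactic.Linarith.sub_nonpos_of_le ha) (Mathlib.Tactic.Linarith.sub_nonpos_of_le k1), mul_nonneg_of_nonpos_of_nonpos (Mathlib.Tactic.Linarith.sub_nonpos_of_le hb) (Mathlib.Tactic.Linarith.sub_nonpos_of_le k3)], by linarith only [this, ha, k2, hb, k4, mul_nonneg_of_nonpos_of_nonpos (Mathlib.Tactic.Linarith.sub_nonpos_of_le ha) (Mathlib.Tactic.Linarith.sub_nonpos_of_le k2), mul_nonneg_of_nonpos_of_nonpos (Mathlib.Tactic.Linarith.sub_nonpos_of_le hb) (Mathlib.Tactic.Linarith.sub_nonpos_of_le k4)]⟩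

theorem te_monoQ (B : Box m) {s ρ ρ' : ℝ} (hs : 0 ≤ s) (h : ρ ≤ ρ') : B.Q s ρ ⊆ B.Q s ρ' :=
  fun _ hx => ⟨hx.1, fun l hl => (hx.2 l hl).trans (mul_le_mul_of_nonneg_left (by linarith) hs)⟩

/-- The expansion map of one box. -/
theorem te_box (B : Box m) {s μ : ℝ} (hs : 0 < s) (hμ : 0 < μ) (h8 : 8 ∣ B.r) :
    ∃ T : V m → V m, TP T ∧ MapsTo T (B.Q s 6) (B.Q s 6) ∧
      (∀ r ∈ Icc (0 : ℝ) 1, InjOn (fun x => (1 - r) • x + r • T x) (B.Q s 6)) ∧
      (∀ x, ‖x - B.c‖ = s * (B.r + 6) → T x = x) ∧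
      (∀ x, ‖x - B.c‖ ≤ s * (B.r + 4) → ‖T x - B.c‖ ≤ μ) ∧
      ∀ x ∈ B.Q s 6 ∩ B.Sk s, s * (B.r + 4) ≤ ‖x - B.c‖ → ∃ t ∈ Icc (0 : ℝ) 1,
        ∃ y ∈ B.Q s 6 ∩ B.Sk s, ‖y - B.c‖ = s * (B.r + 6) ∧ T x = B.c + t • (y - B.c) := by
  classical
  obtain ⟨k, hk⟩ := h8
  have r0 : (0 : ℝ) ≤ B.r := Nat.cast_nonneg _
  have a0 : 0 < s * (B.r + 6) := by positivity
  have gr : ∀ t : ℝ, dd ((t - (B.r + 8)) / 16) = 0 → ∃ j : ℤ, t = 16 * j + (B.r + 8) := fun t ht => by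
    have hj := sub_eq_zero.1 (abs_eq_zero.1 ht)
    exact ⟨_, by linarith only [hj]⟩
  obtain ⟨T, h1, h2, h3, h4, h5, h6, h7⟩ := te_model (κ := Fin (2 * m + 1)) (a := B.r + 6)
    (q := min (1 / 2) (μ / (s * (B.r + 6)))) (by linarith) (by positivity) (min_le_left _ _)
    (Γ := {t | |t| ≤ B.r + 6 ∧ dd ((t - (B.r + 8)) / 16) = 0})
    (((finite_Icc (-(B.r + 6 : ℤ)) (B.r + 6)).image (fun j : ℤ => (j : ℝ))).subset (by
      rintro t ⟨k1, k2⟩
      obtain ⟨j, rfl⟩ := gr t k2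
      obtain ⟨k3, k4⟩ := abs_le.1 k1
      exact ⟨16 * j + (B.r + 8), ⟨by exact_mod_cast k3, by exact_mod_cast k4⟩, by push_cast; ring⟩))
    (by
      rintro t ⟨k1, k2⟩
      obtain ⟨j, rfl⟩ := gr t k2
      obtain ⟨k3, k4⟩ := abs_le.1 k1
      have k5 : -((B.r : ℤ) + 6) ≤ 16 * j + (B.r + 8) := by exact_mod_cast k3
      have k6 : 16 * j + ((B.r : ℤ) + 8) ≤ B.r + 6 := by exact_mod_cast k4
      have k7 : -((B.r : ℤ) + 6 - 4) ≤ 16 * j + (B.r + 8) := by omega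
      have k8 : 16 * j + ((B.r : ℤ) + 8) ≤ B.r + 6 - 4 := by omega
      exact abs_le.2 ⟨by exact_mod_cast k7, by exact_mod_cast k8⟩)
  have nz : ∀ x : V m, ‖s⁻¹ • (x - B.c)‖ = s⁻¹ * ‖x - B.c‖ := fun x => by
    rw [norm_smul, Real.norm_eq_abs, abs_of_pos (inv_pos.2 hs)]
  have ns : ∀ z : V m, ‖B.c + s • z - B.c‖ = s * ‖z‖ := fun z => by
    rw [add_sub_cancel_left, norm_smul, Real.norm_eq_abs, abs_of_pos hs]
  have le : ∀ (x : V m) (ρ : ℝ), ‖x - B.c‖ ≤ s * ρ → ‖s⁻¹ • (x - B.c)‖ ≤ ρ := fun x ρ h => by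
    rw [nz, inv_mul_le_iff₀ hs]
    exact h
  have sl : ∀ x ∈ B.slice, ∀ l, l ∉ B.I → (s⁻¹ • (x - B.c)) l = 0 := fun x hx l hl => by
    simp [hx l hl]
  have mk : ∀ z : V m, ‖z‖ ≤ B.r + 6 → (∀ l, l ∉ B.I → z l = 0) → B.c + s • z ∈ B.Q s 6 :=
    fun z k1 k2 => (te_memQ B a0.le).2 ⟨fun l hl => by simp [k2 l hl], by
      rw [ns]
      exact mul_le_mul_of_nonneg_left k1 hs.le⟩
  refine ⟨fun x => B.c + s • T (s⁻¹ • (x - B.c)), (TP.const _).add
    ((h1.comp ((TP.id'.sub (TP.const _)).const_smul _)).const_smul s), fun x hx => ?_,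
    fun r hr x hx y hy e => ?_, fun x hx => ?_, fun x hx => ?_, fun x hx k1 => ?_⟩
  · have k := le x _ ((te_memQ B a0.le).1 hx).2
    exact mk _ (h2 _ k) fun l hl => h6 _ k l (sl x hx.1 l hl)
  · have e' : ∀ x : V m, (1 - r) • s⁻¹ • (x - B.c) + r • T (s⁻¹ • (x - B.c)) =
        s⁻¹ • ((1 - r) • x + r • (B.c + s • T (s⁻¹ • (x - B.c))) - B.c) := fun x => by
      funext l
      simp only [Pi.add_apply, Pi.smul_apply, Pi.sub_apply, smul_eq_mul]
      field_simp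
      ring
    have := h3 r hr (mem_closedBall_zero_iff.2 (le x _ ((te_memQ B a0.le).1 hx).2))
      (mem_closedBall_zero_iff.2 (le y _ ((te_memQ B a0.le).1 hy).2)) (by
        simp only at e ⊢
        rw [e', e', e])
    exact sub_left_injective (smul_right_injective _ (inv_pos.2 hs).ne' this)
  · simp only
    rw [h4 _ (by rw [nz, hx, inv_mul_cancel_left₀ hs.ne']), smul_inv_smul₀ hs.ne', add_sub_cancel]
  · simp only
    rw [ns]
    have k := h5 _ ((le x _ hx).trans (by linarith only []))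
    have k' := (le_div_iff₀ a0).1 (min_le_right (1 / 2) (μ / (s * (B.r + 6))))
    linarith only [k', hs, k, mul_nonneg_of_nonpos_of_nonpos (le_of_lt (Mathlib.Tactic.Linarith.sub_neg_of_lt hs)) (Mathlib.Tactic.Linarith.sub_nonpos_of_le k)]
  · have k := le x _ ((te_memQ B a0.le).1 hx.1).2
    obtain ⟨t, ht, y, y1, y2, y3, y4⟩ := h7 _ (by
      rw [nz, le_inv_mul_iff₀ hs]
      linarith only [k1]) k
    have yQ := mk y y1.le fun l hl => y3 l (sl x hx.1.1 l hl)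
    refine ⟨t, ht, B.c + s • y, ⟨yQ, yQ.1, le_trans (Finset.card_le_card fun l hl => ?_) hx.2.2⟩,
      by rw [ns, y1], by simp only; rw [y2, add_sub_cancel_left, smul_comm]⟩
    rw [Finset.mem_filter] at hl ⊢
    refine ⟨hl.1, fun c => hl.2 ?_⟩
    have e1 : (s⁻¹ • (x - B.c)) l = (x l - B.c l) / s := by
      simp only [Pi.smul_apply, Pi.sub_apply, smul_eq_mul]
      ring
    have e2 : ((B.c + s • y) l - B.c l) / s = y l := by
      simp only [Pi.add_apply, Pi.smul_apply, smul_eq_mul]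
      field_simp
      ring
    rw [e2, y4 l ⟨(norm_le_pi_norm _ l).trans k, by rw [e1]; exact c⟩, e1]
    exact c

theorem te_top (B : Box m) {x : V m} (hx : x ∈ B.slice) {t : ℝ} (ht : 0 < t)
    (h : t ≤ ‖x - B.c‖) : ∃ l ∈ B.I, |x l - B.c l| = ‖x - B.c‖ := by
  obtain ⟨l, -, hl⟩ := Finset.exists_max_image Finset.univ (fun l => |x l - B.c l|)
    Finset.univ_nonempty
  have e : |x l - B.c l| = ‖x - B.c‖ := le_antisymm (norm_le_pi_norm (x - B.c) l)
    ((pi_norm_le_iff_of_nonneg (abs_nonneg _)).2 fun j => hl j (Finset.mem_univ _))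
  refine ⟨l, by_contra fun c => ?_, e⟩
  rw [hx l c, sub_self, abs_zero] at e
  linarith

theorem blowup {ι : Type} [Finite ι] {S Z : Set (V m)} {c0 : V m} {f : V m → V m} {B : ι → Box m}
    {s : ℝ} {ε : ι → ℝ} (h : TopHyp S Z c0 f B s ε) {u G : V m → V m} (hu : TP u)
    (hi : InjOn u (Z ∪ ⋃ i, (B i).Q s 6))
    (ha : ∀ i, ∃ (A : V m →L[ℝ] V m) (b : V m), ∀ x ∈ (B i).Q s 6, u x = A x + b) (hG : SG G)
    (h1 : ∀ x ∈ Z, (∀ i, x ∉ (B i).Q s 6) → G x = u x)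
    (h2 : ∀ i, ∀ y ∈ Z ∩ (B i).Q s 6, (∃ l ∈ (B i).I, |y l - (B i).c l| = s * ((B i).r + 6)) →
      ∀ t ∈ Icc (0 : ℝ) 1, G ((B i).c + t • (y - (B i).c)) = u ((B i).c + t • (y - (B i).c)))
    (h3 : ∀ i, ∃ μ > 0, ∀ x ∈ (B i).Q s 6, ‖x - (B i).c‖ ≤ μ → G x = u x) :
    ∃ Φ : V m → V m, SG Φ ∧ (∀ x ∈ Z, Φ x = u x) ∧ ∀ i, ∀ x ∈ (B i).Q s 4, Φ x = u x := by
  classical
  have := Fintype.ofFinite ι
  have hs := h.s0
  have a0 : ∀ i, 0 < s * ((B i).r + 6) := fun i => by positivity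
  have a4 : ∀ i, 0 < s * ((B i).r + 4) := fun i => by positivity
  choose μ hμ h3 using h3
  choose T t1 t2 t3 t4 t5 t6 using fun i => te_box (B i) hs (hμ i) (h.r8 i).1
  choose e he hZ using h.thick
  have pQ : ∀ i, Poly ((B i).Q s 6) := fun i => te_polyQ _ (a0 i).le
  have dj : ∀ i j, i ≠ j → ∀ x ∈ (B i).Q s 6, x ∉ (B j).Q s 6 := fun i j k x hx hx' =>
    disjoint_left.1 (h.disj i j k) (te_monoQ _ hs.le (by norm_num) hx)
      (te_monoQ _ hs.le (by norm_num) hx')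
  have gl : ∀ i, ∃ d : V m → V m, TP d ∧ EqOn d (fun x => T i x - x) ((B i).Q s 6) ∧
      ∀ y ∈ Z ∪ ⋃ j, (B j).Q s 6, y ∉ (B i).Q s 6 → d y = 0 := by
    intro i
    obtain ⟨d, d1, d2, d3⟩ := (pQ i).glue ((poly_le h.poly
      (D := fun x => min (s * ((B i).r + 6) - ‖x - (B i).c‖) (e i - teR (B i) x))
      (((TP.const _).sub (TP.id'.sub (TP.const _)).norm_pi).min
        ((TP.const _).sub (teR_tp _)))).union
      (Poly.biUnion (S := {j | j ≠ i}) (toFinite _) fun j _ => pQ j)) ((t1 i).sub TP.id') (by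
        rintro x ⟨hx, k | k⟩
        · have k1 := (teR_zero _).2 hx.1
          have k2 := ((te_memQ _ (a0 i).le).1 hx).2
          have k3 := he i
          rcases min_le_iff.1 k.2 with k4 | k4
          · exact sub_eq_zero.2 (t4 i x (by linarith only [k4, k2]))
          · linarith
        · obtain ⟨j, hj, k⟩ := mem_iUnion₂.1 k
          exact absurd hx (dj j i hj x k))
    refine ⟨d, d1, d2, fun y hy hn => d3 y ?_⟩
    rcases hy with hy | hy
    · refine Or.inl ⟨hy, not_lt.1 fun c => hn ?_⟩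
      obtain ⟨k1, k2⟩ := lt_min_iff.1 c
      refine (te_memQ _ (a0 i).le).2 ⟨hZ i ⟨hy, fun l _ => ?_,
        (teR_le _ (he i).le).1 (by linarith)⟩, by linarith⟩
      have := norm_le_pi_norm (y - (B i).c) l
      simp only [Pi.sub_apply, Real.norm_eq_abs] at this
      linarith only [hs, k1, this]
    · obtain ⟨j, hj⟩ := mem_iUnion.1 hy
      exact Or.inr (mem_iUnion₂.2 ⟨j, fun c => hn (c ▸ hj), hj⟩)
  choose d d1 d2 d3 using gl
  obtain ⟨P, hP⟩ : ∃ P : V m → V m, P = fun x => x + ∑ i, d i x := ⟨_, rfl⟩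
  have tP : TP P := hP ▸ TP.id'.add (TP.sum _ fun i _ => d1 i)
  have sub : ∀ i, (B i).Q s 6 ⊆ Z ∪ ⋃ j, (B j).Q s 6 := fun i x hx =>
    Or.inr (mem_iUnion.2 ⟨i, hx⟩)
  have pin : ∀ i, ∀ x ∈ (B i).Q s 6, P x = T i x := fun i x hx => by
    rw [hP]
    simp only
    rw [Finset.sum_eq_single i (fun j _ k => d3 j x (sub i hx) (dj i j k.symm x hx)) (by simp),
      d2 i hx, add_sub_cancel]
  have pout : ∀ x ∈ Z ∪ ⋃ j, (B j).Q s 6, (∀ i, x ∉ (B i).Q s 6) → P x = x := fun x hx k => by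
    rw [hP]
    simp only
    rw [Finset.sum_eq_zero fun j _ => d3 j x hx (k j), add_zero]
  have mx : ∀ r ∈ Icc (0 : ℝ) 1, ∀ i, ∀ x ∈ (B i).Q s 6, (1 - r) • x + r • P x ∈ (B i).Q s 6 :=
    fun r hr i x hx => te_convQ _ _ _ hx (pin i x hx ▸ t2 i hx) (sub_nonneg.2 hr.2) hr.1 (by ring)
  have mo : ∀ (r : ℝ), ∀ x ∈ Z ∪ ⋃ j, (B j).Q s 6, (∀ i, x ∉ (B i).Q s 6) →
      (1 - r) • x + r • P x = x := fun r x hx k => by
    rw [pout x hx k, ← add_smul, sub_add_cancel, one_smul]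
  have hX : Poly (Z ∪ ⋃ j, (B j).Q s 6) := h.poly.union (by
    simpa using Poly.biUnion (S := (univ : Set ι)) (toFinite _) fun j _ => pQ j)
  have hm : ∀ r ∈ Icc (0 : ℝ) 1, InjOn (fun x => (1 - r) • x + r • P x) (Z ∪ ⋃ j, (B j).Q s 6) ∧
      MapsTo (fun x => (1 - r) • x + r • P x) (Z ∪ ⋃ j, (B j).Q s 6) (Z ∪ ⋃ j, (B j).Q s 6) := by
    refine fun r hr => ⟨fun x hx y hy k => ?_, fun x hx => ?_⟩
    · simp only at k
      by_cases cx : ∀ i, x ∉ (B i).Q s 6 <;> by_cases cy : ∀ i, y ∉ (B i).Q s 6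
      · rwa [mo r x hx cx, mo r y hy cy] at k
      · push Not at cy
        obtain ⟨j, hj⟩ := cy
        rw [mo r x hx cx] at k
        exact absurd (k ▸ mx r hr j y hj) (cx j)
      · push Not at cx
        obtain ⟨j, hj⟩ := cx
        rw [mo r y hy cy] at k
        exact absurd (k ▸ mx r hr j x hj) (cy j)
      · push Not at cx cy
        obtain ⟨i, hi⟩ := cx
        obtain ⟨j, hj⟩ := cy
        obtain rfl : i = j := by_contra fun c => dj i j c _ (mx r hr i x hi) (k ▸ mx r hr j y hj)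
        refine t3 i r hr hi hj ?_
        simp only
        rwa [← pin i x hi, ← pin i y hj]
    · by_cases cx : ∀ i, x ∉ (B i).Q s 6
      · simp only
        rwa [mo r x hx cx]
      · push Not at cx
        obtain ⟨j, hj⟩ := cx
        exact sub j (mx r hr j x hj)
  obtain ⟨E, e1, e2⟩ := te_core hX tP hm TP.id' (injOn_id _) fun _ _ _ _ => rfl
  obtain ⟨E', e3, e4⟩ := te_core hX tP hm hu hi fun r hr x hx => by
    by_cases cx : ∀ i, x ∉ (B i).Q s 6
    · rw [mo r x hx cx, pout x hx cx, ← add_smul, sub_add_cancel, one_smul]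
    · push Not at cx
      obtain ⟨j, hj⟩ := cx
      obtain ⟨A, b, hA⟩ := ha j
      rw [hA _ (mx r hr j x hj), hA x hj, hA _ (pin j x hj ▸ t2 j hj), map_add, map_smul, map_smul]
      module
  have key : ∀ x ∈ Z ∪ ⋃ j, (B j).Q s 6, G (P x) = u (P x) → (invFun E' ∘ G ∘ E) x = u x := by
    intro x hx k
    simp only [comp_apply]
    rw [e2 x hx, k, ← e4 x hx]
    exact e3.lh.li _
  have k4 : ∀ i, ∀ x ∈ (B i).Q s 6, ‖x - (B i).c‖ ≤ s * ((B i).r + 4) → G (P x) = u (P x) :=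
    fun i x hx k => by
      rw [pin i x hx]
      exact h3 i _ (t2 i hx) (t5 i x k)
  refine ⟨_, e3.inv.comp (hG.comp e1), fun x hx => key x (Or.inl hx) ?_, fun i x hx => ?_⟩
  · by_cases cx : ∀ i, x ∉ (B i).Q s 6
    · rw [pout x (Or.inl hx) cx]
      exact h1 x hx cx
    · push Not at cx
      obtain ⟨i, hi⟩ := cx
      rcases le_total ‖x - (B i).c‖ (s * ((B i).r + 4)) with k | k
      · exact k4 i x hi k
      · obtain ⟨l, hl, el⟩ := te_top _ hi.1 (a4 i) k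
        obtain ⟨t, ht, y, hy, y1, y2⟩ := t6 i x ⟨hi, (h.sk i x (te_monoQ _ hs.le (by norm_num) hi)
          ⟨l, hl, el ▸ k⟩).1 hx⟩ k
        obtain ⟨l', hl', el'⟩ := te_top _ hy.1.1 (a0 i) y1.ge
        rw [pin i x hi, y2]
        refine h2 i y ⟨(h.sk i y (te_monoQ _ hs.le (by norm_num) hy.1) ⟨l', hl', ?_⟩).2 hy.2, hy.1⟩
          ⟨l', hl', el'.trans y1⟩ t ht
        rw [el', y1]
        linarith only [hs]
  · have hx' := te_monoQ _ hs.le (show (4 : ℝ) ≤ 6 by norm_num) hx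
    exact key x (sub i hx') (k4 i x hx' ((te_memQ _ (a4 i).le).1 hx).2)

end BEp
end
end

-- merged part: Pool.Agent.Work.MP_f0515e_an.Pos.BDil
section
/-! TASK BDil. Dilation: reduction to a map defined on a larger star-shaped domain.
Plan. Omega nonempty, so c is in Omega. For 0 < l < l' < 1 put Omega' = {x | c + l' (x - c) in Omega} (open, bounded, star-convex at c, contains closure Omega by hc) and f_l x = f (c + l (x - c)),
D_l x = l D (c + l (x - c)). For x in closure Omega' the point c + l' (x - c) is in closure Omega, so c + l (x - c) is in Omega: f_l is continuous and injective on closure Omega'; extend it by Tietze to f'.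
MemW1p on Omega': change of variables under the homothety (Measure.map_addHaar_smul, integral_comp_smul) with test functions transported; Omega' is mapped into Omega. Continuity of dilations in L^p:
dil_tendsto, by density of continuous compactly supported functions (MemLp.exists_hasCompactSupport_eLpNorm_sub_le applied to the indicator extension), uniform bound for l in [1/2, 1], uniform continuity. -/

open Set Metric Filter Topology Function BEv MeasureTheory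
open scoped NNReal ENNReal ContDiff

noncomputable section
namespace BEp

variable {n : ℕ}

/-- The homothety with centre `c` and ratio `l`. -/
def BDil_T (c : Fin n → ℝ) (l : ℝ) (x : Fin n → ℝ) : Fin n → ℝ := c + l • (x - c)

theorem BDil_TT (c : Fin n → ℝ) (a b : ℝ) (x : Fin n → ℝ) :
    BDil_T c a (BDil_T c b x) = BDil_T c (a * b) x := by
  simp [BDil_T, smul_smul]

theorem BDil_one (c x : Fin n → ℝ) : BDil_T c 1 x = x := by simp [BDil_T]

theorem BDil_cont (c : Fin n → ℝ) (l : ℝ) : Continuous (BDil_T c l) := by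
  unfold BDil_T; fun_prop

theorem BDil_norm (c : Fin n → ℝ) (l : ℝ) (x : Fin n → ℝ) :
    dist (BDil_T c l x) c = |l| * dist x c := by
  simp [BDil_T, dist_eq_norm, norm_smul]

theorem BDil_dist (c : Fin n → ℝ) (l : ℝ) (x : Fin n → ℝ) :
    dist (BDil_T c l x) x = |l - 1| * dist x c := by
  have : BDil_T c l x - x = (l - 1) • (x - c) := by
    simp only [BDil_T]; module
  rw [dist_eq_norm, this, norm_smul, dist_eq_norm, Real.norm_eq_abs]

/-- The homothety as a homeomorphism. -/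
def BDil_H (c : Fin n → ℝ) {l : ℝ} (hl : l ≠ 0) : (Fin n → ℝ) ≃ₜ (Fin n → ℝ) where
  toFun := BDil_T c l
  invFun := BDil_T c l⁻¹
  left_inv x := by rw [BDil_TT, inv_mul_cancel₀ hl, BDil_one]
  right_inv x := by rw [BDil_TT, mul_inv_cancel₀ hl, BDil_one]
  continuous_toFun := BDil_cont c l
  continuous_invFun := BDil_cont c l⁻¹

theorem BDil_me (c : Fin n → ℝ) {l : ℝ} (hl : l ≠ 0) : MeasurableEmbedding (BDil_T c l) :=
  (BDil_H c hl).measurableEmbedding

theorem BDil_map (c : Fin n → ℝ) {l : ℝ} (hl : l ≠ 0) :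
    Measure.map (BDil_T c l) volume = ENNReal.ofReal |(l ^ n)⁻¹| • volume := by
  have h1 : BDil_T c l = (fun x => c + x) ∘ (fun x => l • x) ∘ (fun x => x - c) := rfl
  have m1 : Measurable (fun x : Fin n → ℝ => c + x) := by fun_prop
  have m2 : Measurable (fun x : Fin n → ℝ => l • x) := by fun_prop
  have m3 : Measurable (fun x : Fin n → ℝ => x - c) := by fun_prop
  rw [h1, ← Measure.map_map m1 (m2.comp m3), ← Measure.map_map m2 m3, map_sub_right_eq_self,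
    Measure.map_addHaar_smul _ hl, Measure.map_smul, map_add_left_eq_self]
  simp

theorem BDil_memLp {F : Type} [NormedAddCommGroup F] {p : ℝ≥0∞} (c : Fin n → ℝ) {l : ℝ}
    (hl : l ≠ 0) {u : (Fin n → ℝ) → F} {Ω O : Set (Fin n → ℝ)}
    (hu : MemLp u p (volume.restrict Ω)) (hO : O ⊆ BDil_T c l ⁻¹' Ω) :
    MemLp (u ∘ BDil_T c l) p (volume.restrict O) := by
  have h1 : MemLp (u ∘ BDil_T c l) p (volume.restrict (BDil_T c l ⁻¹' Ω)) := by
    rw [← (BDil_me c hl).memLp_map_measure_iff, ← (BDil_me c hl).restrict_map, BDil_map c hl,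
      Measure.restrict_smul]
    exact hu.smul_measure ENNReal.ofReal_ne_top
  exact h1.mono_measure (Measure.restrict_mono hO le_rfl)

theorem BDil_integral {F : Type} [NormedAddCommGroup F] [NormedSpace ℝ F] (c : Fin n → ℝ) {l : ℝ}
    (hl : l ≠ 0) (G : (Fin n → ℝ) → F) :
    ∫ x, G (BDil_T c l x) = |(l ^ n)⁻¹| • ∫ y, G y := by
  rw [← (BDil_me c hl).integral_map, BDil_map c hl, integral_smul_measure,
    ENNReal.toReal_ofReal (abs_nonneg _)]

theorem BDil_weak (c : Fin n → ℝ) {l : ℝ} (hl : l ≠ 0) {Ω O : Set (Fin n → ℝ)}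
    {f f' : (Fin n → ℝ) → Fin n → ℝ} {D : (Fin n → ℝ) → (Fin n → ℝ) →L[ℝ] (Fin n → ℝ)}
    (hD : IsWeakDeriv Ω f D) (hOm : MeasurableSet O) (hO : O ⊆ BDil_T c l ⁻¹' Ω)
    (hf' : EqOn f' (f ∘ BDil_T c l) O) :
    IsWeakDeriv O f' (l • (D ∘ BDil_T c l)) := by
  intro φ hφ hφc hφO w
  set ψ : (Fin n → ℝ) → ℝ := φ ∘ BDil_T c l⁻¹ with hψ
  have hTd : ∀ a : ℝ, ContDiff ℝ ∞ (BDil_T c a) := fun a => by
    unfold BDil_T; fun_prop
  have hψd : ContDiff ℝ ∞ ψ := hφ.comp (hTd _)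
  have hψc : HasCompactSupport ψ := hφc.comp_homeomorph (BDil_H c hl).symm
  have hψΩ : tsupport ψ ⊆ Ω := by
    intro y hy
    have h1 := hO (hφO (tsupport_comp_subset_preimage φ (BDil_cont c l⁻¹) hy))
    rwa [mem_preimage, BDil_TT, mul_inv_cancel₀ hl, BDil_one] at h1
  have hφψ : φ = ψ ∘ BDil_T c l := by
    funext x
    simp only [hψ, comp_apply]
    rw [BDil_TT, inv_mul_cancel₀ hl, BDil_one]
  have hT : ∀ x, HasFDerivAt (BDil_T c l) (l • ContinuousLinearMap.id ℝ (Fin n → ℝ)) x :=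
    fun x => (((hasFDerivAt_id x).sub_const c).const_smul l).const_add c
  have hder : ∀ x, fderiv ℝ φ x w = fderiv ℝ ψ (BDil_T c l x) (l • w) := by
    intro x
    have h2 : HasFDerivAt ψ (fderiv ℝ ψ (BDil_T c l x)) (BDil_T c l x) :=
      (hψd.differentiable (by simp) _).hasFDerivAt
    have h3 := (h2.comp x (hT x)).fderiv
    rw [← hφψ] at h3
    rw [h3]
    simp
  have key := hD ψ hψd hψc hψΩ (l • w)
  rw [setIntegral_eq_integral_of_forall_compl_eq_zero (fun y hy => by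
      rw [fderiv_of_notMem_tsupport ℝ (fun h => hy (hψΩ h))]; simp),
    setIntegral_eq_integral_of_forall_compl_eq_zero (fun y hy => by
      rw [image_eq_zero_of_notMem_tsupport (fun h => hy (hψΩ h))]; simp)] at key
  have e1 : ∫ x in O, fderiv ℝ φ x w • f' x = ∫ x in O, fderiv ℝ φ x w • f (BDil_T c l x) :=
    setIntegral_congr_fun hOm (fun x hx => by simp only [hf' hx, comp_apply])
  rw [e1, setIntegral_eq_integral_of_forall_compl_eq_zero (fun y hy => by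
      rw [fderiv_of_notMem_tsupport ℝ (fun h => hy (hφO h))]; simp),
    setIntegral_eq_integral_of_forall_compl_eq_zero (fun y hy => by
      rw [image_eq_zero_of_notMem_tsupport (fun h => hy (hφO h))]; simp)]
  have e2 : (fun x => fderiv ℝ φ x w • f (BDil_T c l x)) =
      fun x => (fun y => fderiv ℝ ψ y (l • w) • f y) (BDil_T c l x) := by
    funext x; simp only [hder x]
  have e3 : (fun x => φ x • (l • (D ∘ BDil_T c l)) x w) =
      fun x => (fun y => ψ y • D y (l • w)) (BDil_T c l x) := by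
    funext x
    have : φ x = ψ (BDil_T c l x) := congrFun hφψ x
    simp [this]
  rw [e2, e3]
  refine (BDil_integral c hl (fun y => fderiv ℝ ψ y (l • w) • f y)).trans ?_
  rw [key, smul_neg]
  exact congrArg Neg.neg (BDil_integral c hl (fun y => ψ y • D y (l • w))).symm

theorem BDil_W {p : ℝ≥0∞} (c : Fin n → ℝ) {l : ℝ} (hl : l ≠ 0) {Ω O : Set (Fin n → ℝ)}
    {f f' : (Fin n → ℝ) → Fin n → ℝ} {D : (Fin n → ℝ) → (Fin n → ℝ) →L[ℝ] (Fin n → ℝ)}
    (hW : MemW1p p Ω f D) (hOm : MeasurableSet O) (hO : O ⊆ BDil_T c l ⁻¹' Ω)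
    (hf' : EqOn f' (f ∘ BDil_T c l) O) :
    MemW1p p O f' (l • (D ∘ BDil_T c l)) := by
  refine ⟨?_, (BDil_memLp c hl hW.2.1 hO).const_smul l, BDil_weak c hl hW.2.2 hOm hO hf'⟩
  refine (BDil_memLp c hl hW.1 hO).ae_eq ?_
  filter_upwards [ae_restrict_mem hOm] with x hx
  exact (hf' hx).symm

theorem BDil_eLp {F : Type} [NormedAddCommGroup F] {p : ℝ≥0∞} (hp1 : 1 ≤ p) (c : Fin n → ℝ)
    {l : ℝ} (hl : l ≠ 0) (hJ : |(l ^ n)⁻¹| ≤ 2) (v : (Fin n → ℝ) → F) :
    eLpNorm (v ∘ BDil_T c l) p volume ≤ 2 * eLpNorm v p volume := by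
  rw [← (BDil_me c hl).eLpNorm_map_measure, BDil_map c hl]
  refine (eLpNorm_smul_measure_le _ _ _ _).trans ?_
  rw [smul_eq_mul]
  gcongr
  have h1 : ENNReal.ofReal |(l ^ n)⁻¹| ≤ 2 := by
    simpa using ENNReal.ofReal_le_ofReal hJ
  have h2 : (1 / p).toReal ≤ 1 := by
    have : 1 / p ≤ 1 := by simpa using hp1
    simpa using ENNReal.toReal_mono ENNReal.one_ne_top this
  calc ENNReal.ofReal |(l ^ n)⁻¹| ^ (1 / p).toReal ≤ 2 ^ (1 / p).toReal :=
        ENNReal.rpow_le_rpow h1 ENNReal.toReal_nonneg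
    _ ≤ 2 ^ (1 : ℝ) := ENNReal.rpow_le_rpow_of_exponent_le (by norm_num) h2
    _ = 2 := by simp

theorem dil_tendsto {F : Type} [NormedAddCommGroup F] [NormedSpace ℝ F] {p : ℝ≥0∞} (hp1 : 1 ≤ p)
    (hp : p ≠ ⊤) {u : (Fin n → ℝ) → F} (hu : MemLp u p volume) (c : Fin n → ℝ) :
    Tendsto (fun l : ℝ => eLpNorm (fun x => u (c + l • (x - c)) - u x) p volume) (𝓝 1) (𝓝 0) :=
  by
  rw [ENNReal.tendsto_nhds_zero]
  intro ε hε
  obtain ⟨δ, hδ, hδε⟩ := ENNReal.exists_nnreal_pos_mul_lt (a := 4) (by norm_num) hε.ne'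
  have hδ0 : (δ : ℝ≥0∞) ≠ 0 := by simpa using hδ.ne'
  obtain ⟨g, hgc, hug, hg, hgm⟩ := hu.exists_hasCompactSupport_eLpNorm_sub_le hp hδ0
  obtain ⟨R, hR0, hR⟩ := hgc.isCompact.isBounded.subset_closedBall_lt 0 c
  have hV : volume (closedBall c (2 * R)) ^ (1 / p.toReal) ≠ ⊤ :=
    ENNReal.rpow_ne_top_of_nonneg (by positivity) measure_closedBall_lt_top.ne
  obtain ⟨η, hη, hηV⟩ := ENNReal.exists_nnreal_pos_mul_lt hV hδ0
  obtain ⟨ρ, hρ, hρg⟩ := Metric.uniformContinuous_iff.1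
    (hgc.uniformContinuous_of_continuous hg) η (by exact_mod_cast hη)
  have ev1 : ∀ᶠ l : ℝ in 𝓝 1, 1 / 2 < l := lt_mem_nhds (by norm_num)
  have ev2 : ∀ᶠ l : ℝ in 𝓝 1, |l - 1| * (2 * R) < ρ := by
    have : Continuous fun l : ℝ => |l - 1| * (2 * R) := by fun_prop
    exact (this.tendsto 1).eventually (gt_mem_nhds (by simpa using hρ))
  have ev3 : ∀ᶠ l : ℝ in 𝓝 1, |(l ^ n)⁻¹| < 2 := by
    have : ContinuousAt (fun l : ℝ => |(l ^ n)⁻¹|) 1 :=
      ((continuousAt_id.pow n).inv₀ (by simp)).abs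
    exact this.tendsto.eventually (gt_mem_nhds (by simp))
  filter_upwards [ev1, ev2, ev3] with l h1 h2 h3
  have hl : l ≠ 0 := by positivity
  have hz : ∀ x, R < dist x c → g x = 0 := fun x hx =>
    image_eq_zero_of_notMem_tsupport fun h => absurd (mem_closedBall.1 (hR h)) (not_le.2 hx)
  have hz' : ∀ x, 2 * R < dist x c → g (BDil_T c l x) = 0 := fun x hx => by
    apply hz
    rw [BDil_norm, abs_of_pos (by positivity)]
    linarith only [hx, hR0, h1, mul_pos_of_neg_of_neg (Mathlib.Tactic.Linarith.sub_neg_of_lt hR0) (Mathlib.Tactic.Linarith.sub_neg_of_lt h1), mul_pos_of_neg_of_neg (Mathlib.Tactic.Linarith.sub_neg_of_lt h1) (Mathlib.Tactic.Linarith.sub_neg_of_lt hx)]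
  have hmid : eLpNorm (g ∘ BDil_T c l - g) p volume ≤ δ := by
    refine (eLpNorm_sub_le_of_dist_bdd volume hp (s := closedBall c (2 * R))
      measurableSet_closedBall (c := η) η.2 (fun x => ?_) (fun x hx => ?_) (fun x hx => ?_)).trans ?_
    · by_cases hx : dist x c ≤ 2 * R
      · refine (hρg ?_).le
        rw [BDil_dist]
        exact lt_of_le_of_lt (by gcongr) h2
      · push Not at hx
        rw [comp_apply, hz' x hx, hz x (by linarith only [hR0, hx]), dist_self]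
        exact η.2
    · by_contra h
      exact hx (hz' x (by simpa using h))
    · by_contra h
      have h' : 2 * R < dist x c := by simpa using h
      exact hx (hz x (by linarith only [hR0, h']))
    · rw [ENNReal.ofReal_coe_nnreal]
      exact hηV.le
  have hm1 : AEStronglyMeasurable ((u - g) ∘ BDil_T c l) volume := by
    have := BDil_memLp (O := univ) (Ω := univ) c hl (u := u - g) (p := p)
      (by simpa using hu.sub hgm) (by simp)
    simpa using this.1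
  have hm2 : AEStronglyMeasurable (g ∘ BDil_T c l - g) volume :=
    ((hg.comp (BDil_cont c l)).sub hg).aestronglyMeasurable
  have e : (fun x => u (c + l • (x - c)) - u x) =
      ((u - g) ∘ BDil_T c l + (g ∘ BDil_T c l - g)) - (u - g) := by
    funext x
    simp only [Pi.sub_apply, Pi.add_apply, comp_apply, BDil_T]
    abel
  rw [e]
  calc _ ≤ eLpNorm ((u - g) ∘ BDil_T c l + (g ∘ BDil_T c l - g)) p volume +
        eLpNorm (u - g) p volume := eLpNorm_sub_le (hm1.add hm2) (hu.sub hgm).1 hp1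
    _ ≤ (eLpNorm ((u - g) ∘ BDil_T c l) p volume + eLpNorm (g ∘ BDil_T c l - g) p volume) +
        eLpNorm (u - g) p volume := by gcongr; exact eLpNorm_add_le hm1 hm2 hp1
    _ ≤ (2 * δ + δ) + δ := by
        gcongr
        exact (BDil_eLp hp1 c hl h3.le _).trans (by gcongr)
    _ = δ * 4 := by ring
    _ ≤ ε := hδε.le

theorem BDil_ind {F : Type} [NormedAddCommGroup F] {p : ℝ≥0∞} {Ω : Set (Fin n → ℝ)}
    (hΩm : MeasurableSet Ω) {f : (Fin n → ℝ) → F} (h : MemLp f p (volume.restrict Ω)) :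
    MemLp (Ω.indicator f) p volume := (memLp_indicator_iff_restrict hΩm).2 h

theorem BDil_e1 {F : Type} [NormedAddCommGroup F] {p : ℝ≥0∞} (c : Fin n → ℝ) {l : ℝ}
    {Ω : Set (Fin n → ℝ)} (hΩm : MeasurableSet Ω) {f f' : (Fin n → ℝ) → F}
    (hK : ∀ x ∈ Ω, c + l • (x - c) ∈ Ω) (hf' : EqOn f' (f ∘ BDil_T c l) Ω) :
    eLpNorm (f' - f) p (volume.restrict Ω) ≤
      eLpNorm (fun x => Ω.indicator f (c + l • (x - c)) - Ω.indicator f x) p volume := by
  refine le_trans (le_of_eq (eLpNorm_congr_ae ?_)) (eLpNorm_restrict_le _ _ _ Ω)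
  filter_upwards [ae_restrict_mem hΩm] with x hx
  rw [indicator_of_mem hx, indicator_of_mem (hK x hx), Pi.sub_apply, hf' hx]
  rfl

theorem BDil_e2 {F : Type} [NormedAddCommGroup F] [NormedSpace ℝ F] {p : ℝ≥0∞} (hp1 : 1 ≤ p)
    (c : Fin n → ℝ) {l : ℝ} (hl0 : 0 < l) (hl1 : l ≤ 1)
    {Ω : Set (Fin n → ℝ)} (hΩm : MeasurableSet Ω) {D : (Fin n → ℝ) → F}
    (hU : MemLp (Ω.indicator D) p volume) (hK : ∀ x ∈ Ω, c + l • (x - c) ∈ Ω) :
    eLpNorm (l • (D ∘ BDil_T c l) - D) p (volume.restrict Ω) ≤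
      eLpNorm (fun x => Ω.indicator D (c + l • (x - c)) - Ω.indicator D x) p volume +
        ‖l - 1‖ₑ * eLpNorm (Ω.indicator D) p volume := by
  set V : (Fin n → ℝ) → F := fun x => Ω.indicator D (c + l • (x - c)) - Ω.indicator D x with hV
  have hm : AEStronglyMeasurable V volume := by
    have := BDil_memLp (O := univ) (Ω := univ) c hl0.ne' (u := Ω.indicator D) (p := p)
      (by simpa using hU) (by simp)
    rw [Measure.restrict_univ] at this
    exact this.1.sub hU.1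
  have e1 : l • (D ∘ BDil_T c l) - D =ᵐ[volume.restrict Ω] l • V + (l - 1) • Ω.indicator D := by
    filter_upwards [ae_restrict_mem hΩm] with x hx
    simp only [hV, Pi.sub_apply, Pi.add_apply, Pi.smul_apply, comp_apply, BDil_T,
      indicator_of_mem hx, indicator_of_mem (hK x hx)]
    module
  have e2 : eLpNorm (l • V + (l - 1) • Ω.indicator D) p volume ≤
      eLpNorm (l • V) p volume + eLpNorm ((l - 1) • Ω.indicator D) p volume :=
    eLpNorm_add_le (hm.const_smul l) (hU.1.const_smul (l - 1)) hp1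
  have e3 : eLpNorm (l • V) p volume ≤ ‖l‖ₑ * eLpNorm V p volume := eLpNorm_const_smul_le
  have e4 : eLpNorm ((l - 1) • Ω.indicator D) p volume ≤
      ‖l - 1‖ₑ * eLpNorm (Ω.indicator D) p volume := eLpNorm_const_smul_le
  have e5 : ‖l‖ₑ ≤ 1 := by
    rw [Real.enorm_of_nonneg hl0.le]
    exact ENNReal.ofReal_le_one.2 hl1
  rw [eLpNorm_congr_ae e1]
  exact (eLpNorm_restrict_le _ _ _ Ω).trans (e2.trans
    (add_le_add (e3.trans (mul_le_of_le_one_left' e5)) e4))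

theorem BDil_lim {F G : Type} [NormedAddCommGroup F] [NormedSpace ℝ F] [NormedAddCommGroup G]
    [NormedSpace ℝ G] {p : ℝ≥0∞} (hp1 : 1 ≤ p) (hp : p ≠ ⊤) {u : (Fin n → ℝ) → F}
    {U : (Fin n → ℝ) → G} (hu : MemLp u p volume) (hU : MemLp U p volume) (c : Fin n → ℝ)
    {ε : ℝ≥0∞} (hε : 0 < ε) : ∃ s : ℝ, 0 < s ∧ s < 1 ∧
      eLpNorm (fun x => u (c + (s * s) • (x - c)) - u x) p volume +
        (eLpNorm (fun x => U (c + (s * s) • (x - c)) - U x) p volume +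
          ‖s * s - 1‖ₑ * eLpNorm U p volume) ≤ ε := by
  have t1 := dil_tendsto hp1 hp hu c
  have t2 := dil_tendsto hp1 hp hU c
  have t3 : Tendsto (fun l : ℝ => ‖l - 1‖ₑ * eLpNorm U p volume) (𝓝 1) (𝓝 0) := by
    have h1 : Tendsto (fun l : ℝ => ‖l - 1‖ₑ) (𝓝 1) (𝓝 0) := by
      have : Continuous fun l : ℝ => ‖l - 1‖ₑ := by fun_prop
      simpa using this.tendsto 1
    simpa using ENNReal.Tendsto.mul_const h1 (Or.inr hU.2.ne)
  have t4 := t1.add (t2.add t3)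
  simp only [add_zero] at t4
  have t5 : Tendsto (fun s : ℝ => s * s) (𝓝[<] 1) (𝓝 1) := by
    have : Continuous fun s : ℝ => s * s := by fun_prop
    have h := this.tendsto 1
    simp only [mul_one] at h
    exact h.mono_left nhdsWithin_le_nhds
  have ev := (t4.comp t5).eventually (ge_mem_nhds hε)
  obtain ⟨s, hs, hs01⟩ := (ev.and (Ioo_mem_nhdsLT (zero_lt_one' ℝ))).exists
  exact ⟨s, hs01.1, hs01.2, hs⟩

theorem exists_dilate {p : ℝ≥0∞} (hp1 : 1 ≤ p) (hp : p ≠ ⊤) {Ω : Set (Fin n → ℝ)}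
    (hΩ : IsOpen Ω) (hb : Bornology.IsBounded Ω) (hne : Ω.Nonempty) {c : Fin n → ℝ}
    (hc : ∀ x ∈ closure Ω, ∀ t ∈ Ico (0 : ℝ) 1, c + t • (x - c) ∈ Ω)
    {f : (Fin n → ℝ) → Fin n → ℝ} {D : (Fin n → ℝ) → (Fin n → ℝ) →L[ℝ] (Fin n → ℝ)}
    (hf : IsEmbedding (fun x : Ω => f x)) (hW : MemW1p p Ω f D) {ε : ℝ≥0∞} (hε : 0 < ε) :
    ∃ (Ω' : Set (Fin n → ℝ)) (f' : (Fin n → ℝ) → Fin n → ℝ)
      (D' : (Fin n → ℝ) → (Fin n → ℝ) →L[ℝ] (Fin n → ℝ)), IsOpen Ω' ∧ Bornology.IsBounded Ω' ∧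
      StarConvex ℝ c Ω' ∧ c ∈ Ω' ∧ closure Ω ⊆ Ω' ∧ Continuous f' ∧ InjOn f' Ω' ∧
      MemW1p p Ω' f' D' ∧ MemW1p p Ω f' D' ∧ sdist p Ω f' f D' D ≤ ε := by
  have hΩm := hΩ.measurableSet
  have hcΩ : c ∈ Ω := by
    obtain ⟨x, hx⟩ := hne
    simpa using hc x (subset_closure hx) 0 ⟨le_rfl, one_pos⟩
  have hfc : ContinuousOn f Ω := continuousOn_iff_continuous_domRestrict.2 hf.continuous
  have hfi : InjOn f Ω := injOn_iff_injective.2 hf.injective
  have hu := BDil_ind hΩm hW.1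
  have hU := BDil_ind hΩm hW.2.1
  obtain ⟨s, hs0, hs1, hs⟩ := BDil_lim hp1 hp hu hU c hε
  set l := s * s with hl
  have hl0 : 0 < l := by positivity
  have hl1 : l < 1 := by linarith only [hs1, hs0, mul_pos_of_neg_of_neg (Mathlib.Tactic.Linarith.sub_neg_of_lt hs0) (Mathlib.Tactic.Linarith.sub_neg_of_lt hs1)]
  have hKc : IsClosed (BDil_T c s ⁻¹' closure Ω) := isClosed_closure.preimage (BDil_cont c s)
  have hK : ∀ x ∈ BDil_T c s ⁻¹' closure Ω, BDil_T c l x ∈ Ω := fun x hx => by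
    rw [hl, ← BDil_TT]
    exact hc _ hx s ⟨hs0.le, hs1⟩
  have hcK : ContinuousOn (f ∘ BDil_T c l) (BDil_T c s ⁻¹' closure Ω) :=
    hfc.comp (BDil_cont c l).continuousOn hK
  obtain ⟨g, hg⟩ := ContinuousMap.exists_restrict_eq hKc
    ⟨_, continuousOn_iff_continuous_domRestrict.1 hcK⟩
  have hgK : EqOn g (f ∘ BDil_T c l) (BDil_T c s ⁻¹' closure Ω) := fun x hx =>
    DFunLike.congr_fun hg ⟨x, hx⟩
  have hsub : BDil_T c s ⁻¹' Ω ⊆ BDil_T c s ⁻¹' closure Ω := preimage_mono subset_closure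
  have hcl : closure Ω ⊆ BDil_T c s ⁻¹' Ω := fun x hx => hc x hx s ⟨hs0.le, hs1⟩
  have hΩK : Ω ⊆ BDil_T c s ⁻¹' closure Ω := subset_closure.trans (hcl.trans hsub)
  have hopen : IsOpen (BDil_T c s ⁻¹' Ω) := hΩ.preimage (BDil_cont c s)
  refine ⟨BDil_T c s ⁻¹' Ω, g, l • (D ∘ BDil_T c l), hopen, ?_, ?_, ?_, hcl, g.continuous, ?_,
    BDil_W c hl0.ne' hW hopen.measurableSet (fun x hx => hK x (hsub hx)) (hgK.mono hsub),
    BDil_W c hl0.ne' hW hΩm (fun x hx => hK x (hΩK hx)) (hgK.mono hΩK), ?_⟩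
  · obtain ⟨R, hR⟩ := hb.subset_closedBall c
    refine (isBounded_closedBall (x := c) (r := R / s)).subset fun x hx => ?_
    have h1 := mem_closedBall.1 (hR hx)
    rw [BDil_norm, abs_of_pos hs0] at h1
    rw [mem_closedBall, le_div_iff₀ hs0]
    linarith
  · intro y hy a b ha hb' hab
    have e : BDil_T c s (a • c + b • y) = c + b • (BDil_T c s y - c) := by
      have : a = 1 - b := by linarith
      subst this
      simp only [BDil_T]
      module
    rw [mem_preimage, e]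
    rcases eq_or_lt_of_le (show b ≤ 1 by linarith) with h | h
    · subst h
      simpa using hy
    · exact hc _ (subset_closure hy) b ⟨hb', h⟩
  · simpa [BDil_T] using hcΩ
  · intro x hx y hy hxy
    rw [hgK (hsub hx), hgK (hsub hy)] at hxy
    exact (BDil_H c hl0.ne').injective (hfi (hK x (hsub hx)) (hK y (hsub hy)) hxy)
  · have hK' : ∀ x ∈ Ω, c + l • (x - c) ∈ Ω := fun x hx => hK x (hΩK hx)
    exact (add_le_add (BDil_e1 c hΩm hK' (hgK.mono hΩK))
      (BDil_e2 hp1 c hl0 hl1.le hΩm hU hK')).trans hs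

end BEp
end
end

-- merged part: Pool.Agent.Work.MP_f0515e_an.Pos.Main
section
-- merged part: Pool.Agent.Work.MP_f0515e_an.Pos.TRL
section
/-!
TOP, the rigid loop lemma in the coordinates of a box.

Plan.  `rigid_loop` with `J = ↥I`, `ι = Subtype.val`, `e z l = if h : l ∈ I then s * z ⟨l, h⟩ else 0`
(`LinearMap.toContinuousLinearMap`), `‖e z‖ = s * ‖z‖`, the map `A.comp e`, `R = r + 12`,
`f' z = f (c + e z)`, `Hn' q = Hn ((c + e q.1.1, c + e q.1.2), q.2)`, `χ' x j = z (χ x) j`.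
`c + e z ∈ Q 12` for `‖z‖ ≤ r + 12`, and is in `fine` if `z ∈ Skel m`; conversely for `x` in the slice
`c + e (fun j => z x j) = x`, and every `Dir` vector is some `e z`.  To compare the two skeleta use
`Finset.card_le_card_of_injOn` or `mem_fine`.  `rloop .. ((u, v), t) = bloop .. ((c + e u, c + e v), t)`
by unfolding `cat`, `lin`, `tl`; `Fill.congr`, using `Symm` for the second point.
-/

open Set Metric Filter Topology Function BEv
open scoped NNReal

noncomputable section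
namespace BEp

theorem trl_emb {m : ℕ} (I : Finset (Fin (2 * m + 1))) {s : ℝ} (hs : 0 < s) :
    ∃ e : (I → ℝ) →L[ℝ] V m, (∀ z (j : I), e z j = s * z j) ∧ (∀ z l, l ∉ I → e z l = 0) ∧
      ∀ z, ‖e z‖ = s * ‖z‖ := by
  let e0 : (I → ℝ) →ₗ[ℝ] V m :=
    { toFun := fun z l => if h : l ∈ I then s * z ⟨l, h⟩ else 0
      map_add' := fun a b => funext fun l => by by_cases h : l ∈ I <;> simp [h, mul_add]
      map_smul' := fun c a => funext fun l => by
        by_cases h : l ∈ I <;> simp [h, mul_left_comm] }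
  have h1 : ∀ z (j : I), e0 z j = s * z j := fun z j => by simp [e0]
  have h2 : ∀ z l, l ∉ I → e0 z l = 0 := fun z l hl => by simp [e0, hl]
  refine ⟨LinearMap.toContinuousLinearMap e0, h1, h2, fun z => le_antisymm ?_ ?_⟩
  · refine (pi_norm_le_iff_of_nonneg (by positivity)).2 fun l => ?_
    by_cases hl : l ∈ I
    · show ‖e0 z l‖ ≤ _
      rw [h1 z ⟨l, hl⟩, norm_mul, Real.norm_of_nonneg hs.le]
      exact mul_le_mul_of_nonneg_left (norm_le_pi_norm z _) hs.le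
    · show ‖e0 z l‖ ≤ _
      rw [h2 z l hl, norm_zero]
      positivity
  · rw [← le_div_iff₀' hs]
    refine (pi_norm_le_iff_of_nonneg (by positivity)).2 fun j => ?_
    rw [le_div_iff₀' hs, ← Real.norm_of_nonneg hs.le, ← norm_mul, ← h1]
    exact norm_le_pi_norm (e0 z) j

theorem TopHyp.box_loop {m : ℕ} (hm : 2 ≤ m) {ι : Type} {S Z : Set (V m)} {c0 : V m}
    {f : V m → V m} {B : ι → Box m} {s : ℝ} {ε : ι → ℝ} (h : TopHyp S Z c0 f B s ε) (i : ι)
    {Hn : (V m × V m) × ℝ → V m}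
    (hH : OH {p | p.1 ∈ (B i).Q s 12 ∧ p.2 ∈ (B i).Q s 12 ∧ s ≤ ‖p.1 - p.2‖} (tl f) (tl id) Hn) :
    ∃ Ac : ℝ → V m →L[ℝ] V m, APath Ac ∧ (∀ v, (B i).Dir v → Ac 1 v = (B i).A v) ∧
      ∀ ν : ℝ → ℝ, Continuous ν → (∀ t, 0 < ν t) → ν 0 = 1 → ν 1 = 1 →
      ∀ Jn : Set (V m × V m), IsCompact Jn → Symm Jn → Sm (2 * m - 1) Jn →
      ∀ χ : V m → V m, Continuous χ →
        (∀ p ∈ Jn, χ p.1 ∈ (B i).fine s ∩ (B i).Q s 6 ∧ 2 * s ≤ ‖χ p.1 - χ p.2‖) →
        Fill Jn (fun q => bloop (B i).A f Ac ν Hn ((χ q.1.1, χ q.1.2), q.2)) := by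
  classical
  have hs := h.s0
  have hε := h.ε0 i
  obtain ⟨e, e1, e2, e3⟩ := trl_emb (B i).I hs
  have hr : (0 : ℝ) ≤ (B i).r := Nat.cast_nonneg _
  have hsl : ∀ z, (B i).c + e z ∈ (B i).slice := fun z l hl => by simp [e2 z l hl]
  have hQ : ∀ z ∈ closedBall (0 : (B i).I → ℝ) (((B i).r + 12 : ℕ) : ℝ),
      (B i).c + e z ∈ (B i).Q s 12 := fun z hz => (Box.mem_Q (by positivity)).2 ⟨hsl z, by
    rw [add_sub_cancel_left, e3]
    exact mul_le_mul_of_nonneg_left (by simpa using hz) hs.le⟩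
  have hQ' : (B i).Q s 12 ⊆ (B i).Q s 40 := Box.Q_monoP hs.le (by norm_num)
  have hz : ∀ z (j : (B i).I), (B i).z s ((B i).c + e z) j = z j := fun z j => by
    simp [Box.z, e1, hs.ne']
  have hD : ∀ v, (B i).Dir v → e (fun j => v j / s) = v := fun v hv => funext fun l => by
    by_cases hl : l ∈ (B i).I
    · rw [e1 _ ⟨l, hl⟩, mul_div_cancel₀ _ hs.ne']
    · rw [e2 _ l hl, hv l hl]
  have hx : ∀ x ∈ (B i).slice, (B i).c + e (fun j => (B i).z s x j) = x := fun x hx => by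
    have := hD _ (Box.dir_sub hx Box.c_slice)
    simp only [Pi.sub_apply] at this
    simp only [Box.z, this, add_sub_cancel]
  have hei : Injective e := (injective_iff_map_eq_zero e).2 fun z hz => by
    have := e3 z
    rw [hz, norm_zero] at this
    exact norm_eq_zero.1 ((mul_eq_zero.1 this.symm).resolve_left hs.ne')
  obtain ⟨Ac, a1, a2, a3, a4, a5, a6⟩ := rigid_loop hm (J := (B i).I) Subtype.val
    Subtype.val_injective (by simpa using h.card i) hs e e1 (fun z l hl => e2 z l (by simpa using hl))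
    ((B i).A.comp e) (B i).b hε (fun z => by
      have h1 := h.low i (e z) (e2 z)
      rw [e3] at h1
      have h2 : s * (1000 * ε i * ‖z‖) ≤ s * ‖(B i).A (e z)‖ := by linarith only [h1]
      have h3 := le_of_mul_le_mul_left h2 hs
      have h4 : 0 ≤ ε i * ‖z‖ := by positivity
      show _ ≤ ‖(B i).A (e z)‖
      linarith) (R := (B i).r + 12) (by have := (h.r8 i).2; omega)
    (f := fun z => f ((B i).c + e z)) (h.cont.comp (by fun_prop))
    (fun z hz w hw hzw => hei (add_left_cancel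
      (h.inj (h.QS i (hQ' (hQ z hz))) (h.QS i (hQ' (hQ w hw))) hzw)))
    (fun z hz' => by
      obtain ⟨T, hT, hT'⟩ := mem_skel.1 hz'.1
      have := h.close i _ ⟨Box.mem_fine.2 ⟨hsl z, T.map (Embedding.subtype _), by simpa using hT,
        fun l hl hW => by
          rw [hz z ⟨l, hl⟩]
          exact hT' _ fun hj => hW (Finset.mem_map.2 ⟨_, hj, rfl⟩)⟩, hQ' (hQ z hz'.2)⟩
      simpa [Box.aff] using this)
    (Hn := fun q => Hn (((B i).c + e q.1.1, (B i).c + e q.1.2), q.2))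
    (by
      have hm : ∀ p : ((B i).I → ℝ) × ((B i).I → ℝ),
          p.1 ∈ closedBall (0 : (B i).I → ℝ) (((B i).r + 12 : ℕ) : ℝ) ∧
          p.2 ∈ closedBall (0 : (B i).I → ℝ) (((B i).r + 12 : ℕ) : ℝ) ∧ 1 ≤ ‖p.1 - p.2‖ →
          (B i).c + e p.1 ∈ (B i).Q s 12 ∧ (B i).c + e p.2 ∈ (B i).Q s 12 ∧
            s ≤ ‖(B i).c + e p.1 - ((B i).c + e p.2)‖ := fun p hp =>
        ⟨hQ _ hp.1, hQ _ hp.2.1, by
          rw [add_sub_add_left_eq_sub, ← map_sub, e3]
          exact le_mul_of_one_le_right hs.le hp.2.2⟩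
      exact ⟨hH.cont.comp (by fun_prop), fun p t => hH.odd (_, _) t,
        fun p hp t ht => hH.ne _ (hm p hp) t ht, fun p hp => hH.zero _ (hm p hp),
        fun p hp => (hH.one _ (hm p hp)).trans (by simp [tl])⟩)
  refine ⟨Ac, ⟨a1, a2, a3, a4⟩, fun v hv => by rw [← hD v hv, a5]; rfl,
    fun ν n1 n2 n3 n4 Jn j1 j2 j3 χ c1 c2 => ?_⟩
  have hsl' : ∀ p ∈ Jn, χ p.1 ∈ (B i).slice ∧ χ p.2 ∈ (B i).slice := fun p hp =>
    ⟨(c2 p hp).1.1.1, (c2 _ (j2 p hp)).1.1.1⟩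
  have hsub : ∀ p ∈ Jn, e ((fun j : (B i).I => (B i).z s (χ p.1) j) -
      fun j : (B i).I => (B i).z s (χ p.2) j) = χ p.1 - χ p.2 := fun p hp => by
    rw [map_sub, ← add_sub_add_left_eq_sub _ _ (B i).c, hx _ (hsl' p hp).1, hx _ (hsl' p hp).2]
  refine (a6 ν n1 n2 n3 n4 Jn j1 j2 j3 (fun x j => (B i).z s (χ x) j)
    (by unfold Box.z; fun_prop) fun p hp => ⟨⟨?_, ?_⟩, ?_⟩).congr fun p hp t _ => ?_
  · obtain ⟨-, W, hW, hW'⟩ := Box.mem_fine.1 (c2 p hp).1.1
    refine mem_skel.2 ⟨W.subtype _, ?_, fun j hj => hW' j j.2 (by simpa using hj)⟩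
    rw [Finset.card_subtype]
    exact (Finset.card_filter_le _ _).trans hW
  · rw [mem_closedBall_zero_iff]
    refine (pi_norm_le_iff_of_nonneg (by push_cast; linarith only [])).2 fun j => ?_
    refine (Box.abs_z hs).2 (((c2 p hp).1.2.2 j j.2).trans (le_of_eq ?_))
    push_cast
    ring
  · have h1 := (c2 p hp).2
    rw [← hsub p hp, e3, mul_comm] at h1
    exact le_of_mul_le_mul_left h1 hs
  · simp only [bloop, rloop, cat, lin, tl, ContinuousLinearMap.comp_apply, hsub p hp,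
      hx _ (hsl' p hp).1, hx _ (hsl' p hp).2]

end BEp
end
end

-- merged part: Pool.Agent.Work.MP_f0515e_an.Pos.TCore
section
/-! TOP, the germ step. -/

open Set Metric Filter Topology Function BEv
open scoped NNReal

noncomputable section
namespace BEp

variable {m : ℕ} {ι : Type} {S Z : Set (V m)} {c0 : V m} {f : V m → V m} {B : ι → Box m}
  {s e : ℝ} {ε : ι → ℝ}

theorem ChiOK.mem {χ : V m → V m} (hχ : ChiOK Z B s χ) {x : V m} (hx : x ∈ Zp Z B s) :
    χ x ∈ Zout Z B s ∪ ⋃ i, (B i).fine s ∩ (B i).Q s 6 := by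
  rcases hx with hx | hx
  · rw [hχ.out x hx]
    exact Or.inl hx
  · obtain ⟨i, hi⟩ := mem_iUnion.1 hx
    exact Or.inr (mem_iUnion.2 ⟨i, hχ.fine i x hi⟩)

theorem ChiOK.sg_Q {χ : V m → V m} (hχ : ChiOK Z B s χ) (hs : 0 < s) {i : ι} {x : V m}
    (hx : x ∈ (B i).In s) {t : ℝ} (ht : t ∈ Icc (0 : ℝ) 1) : sgm χ x t ∈ (B i).Q s 6 :=
  Box.convex_Q (Box.In_Q hs hx) (hχ.fine i x hx).2 (sub_nonneg.2 ht.2) ht.1 (sub_add_cancel _ _)

theorem ChiOK.sg_mem {χ : V m → V m} (hχ : ChiOK Z B s χ) (hs : 0 < s) {x : V m}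
    (hx : x ∈ Zp Z B s) {t : ℝ} (ht : t ∈ Icc (0 : ℝ) 1) :
    sgm χ x t ∈ Zout Z B s ∪ ⋃ i, (B i).Q s 6 := by
  rcases hx with hx | hx
  · have : sgm χ x t = x := by
      rw [sgm, hχ.out x hx, ← add_smul, sub_add_cancel, one_smul]
    rw [this]
    exact Or.inl hx
  · obtain ⟨i, hi⟩ := mem_iUnion.1 hx
    exact Or.inr (mem_iUnion.2 ⟨i, hχ.sg_Q hs hi ht⟩)

theorem box_pairs (B : Box m) (s : ℝ) :
    IsCompact {p : V m × V m | p.1 ∈ B.Q s 12 ∧ p.2 ∈ B.Q s 12 ∧ s ≤ ‖p.1 - p.2‖} :=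
  (Box.poly_Q.1.prod Box.poly_Q.1).of_isClosed_subset
    ((Box.poly_Q.1.isClosed.preimage continuous_fst).inter
      ((Box.poly_Q.1.isClosed.preimage continuous_snd).inter
        (isClosed_le continuous_const (continuous_fst.sub continuous_snd).norm))) fun _ hp => ⟨hp.1, hp.2.1⟩

theorem top_core [Finite ι] (hm : 2 ≤ m) (h : TopHyp S Z c0 f B s ε) (geo : Geo Z B s e)
    (hP : Pos S f) : ∃ η, 0 < η ∧ (∀ i, η ≤ 2 * ε i) ∧ ∀ g, GHyp Z B s f ε η g →
      ∃ Φ M, Germ Z B s g Φ M := by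
  have hm1 : 1 ≤ m := by omega
  have hs := h.s0
  have hε := h.ε0
  have q68 : ∀ i, (B i).Q s 6 ⊆ (B i).Q s 8 := fun i => Box.Q_monoP hs.le (by norm_num)
  obtain ⟨st, hF⟩ := geo.exists_far hm
  obtain ⟨χ, hχ⟩ := geo.exists_chi hm1
  obtain ⟨D, hD⟩ := geo.exists_D hm1 hF hχ
  have hχc := hχ.cont
  have hfc := h.cont
  have hS : ∀ x ∈ Zp Z B s, χ x ∈ S := fun x hx => by
    rcases hχ.mem hx with h1 | h1
    · exact h.ZS h1.1
    · obtain ⟨i, hi⟩ := mem_iUnion.1 h1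
      exact h.QS i (Box.Q_monoP hs.le (by norm_num) hi.2)
  have hne : ∀ p ∈ D, χ p.1 ≠ χ p.2 := fun p hp => by
    simpa [sgm] using hD.seg p hp 1 ⟨zero_le_one, le_rfl⟩
  obtain ⟨μ, hμ, hμ'⟩ := hD.cpt.exists_forall_le'
    (f := fun p : V m × V m => ‖f (χ p.1) - f (χ p.2)‖) (by fun_prop) (a := 0) fun p hp =>
      norm_pos_iff.2 (sub_ne_zero.2 fun e1 =>
        hne p hp (h.inj (hS _ (hD.sub hp).1) (hS _ (hD.sub hp).2) e1))
  obtain ⟨Hn, hH⟩ := hP (Prod.map χ χ '' D ∪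
      ⋃ i, {p | p.1 ∈ (B i).Q s 12 ∧ p.2 ∈ (B i).Q s 12 ∧ s ≤ ‖p.1 - p.2‖})
    ((hD.cpt.image (hχc.prodMap hχc)).union (isCompact_iUnion fun i => box_pairs _ _))
    (by
      rintro p (⟨q, hq, rfl⟩ | hp)
      · exact Or.inl ⟨q.swap, hD.symm q hq, rfl⟩
      · obtain ⟨i, hi⟩ := mem_iUnion.1 hp
        exact Or.inr (mem_iUnion.2 ⟨i, hi.2.1, hi.1, hi.2.2.trans_eq (norm_sub_rev _ _)⟩))
    (by
      rintro p (⟨q, hq, rfl⟩ | hp)
      · exact ⟨hS _ (hD.sub hq).1, hS _ (hD.sub hq).2, hne q hq⟩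
      · obtain ⟨i, hi⟩ := mem_iUnion.1 hp
        exact ⟨h.QS i (Box.Q_monoP hs.le (by norm_num) hi.1),
          h.QS i (Box.Q_monoP hs.le (by norm_num) hi.2.1),
          sub_ne_zero.1 (norm_pos_iff.1 (hs.trans_le hi.2.2))⟩)
  choose Ac hA hA1 hA2 using fun i =>
    h.box_loop hm i (hH.mono fun p hp => Or.inr (mem_iUnion.2 ⟨i, hp⟩))
  obtain ⟨e', he0, he1, he2⟩ := exists_thin (s := s) hε geo.e0 hA1
  have geo' := geo.mono he0 he1
  have cth : ∀ i, (B i).c ∈ (B i).ot s 8 e' := fun i =>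
    Box.Q_ot hs (by norm_num) he0 (geo.c_Q i le_rfl)
  obtain ⟨ν, Θ, n1, n2, n3, n4, t1, t2, t3, t4, t5⟩ := exists_thetaP hm1
    (X := fun i => (B i).thick s 8 e') (c := ctr B) (b := fun i => (B i).b)
    (fun i => Box.poly_thick) (fun i => Box.ot_thick (cth i)) (fun i => Box.convex_thick) hA
    (fun i j hij => (geo'.disj i j hij).mono (Box.thick_mono hs.le (by norm_num) le_rfl)
      (Box.thick_mono hs.le (by norm_num) le_rfl))
    (fun i j hij x hx y hy e1 => by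
      obtain ⟨x', a1, a2⟩ := he2 i 8 x hx
      obtain ⟨y', b1, b2⟩ := he2 j 8 y hy
      have a3 := h.sep i j hij x' (Box.Q_monoP hs.le (by norm_num) a1) y'
        (Box.Q_monoP hs.le (by norm_num) b1)
      have a5 := h.sep j i hij.symm y' (Box.Q_monoP hs.le (by norm_num) b1) x'
        (Box.Q_monoP hs.le (by norm_num) a1)
      rw [norm_sub_rev] at a5
      have a4 := norm_sub_le_norm_sub_add_norm_sub ((B j).aff y')
        (Ac j 1 (y - (B j).c) + (B j).b) ((B i).aff x')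
      rw [norm_sub_rev] at b2
      have e2 : Ac i 1 (x - (B i).c) + (B i).b = Ac j 1 (y - (B j).c) + (B j).b := e1
      rw [e2] at a2
      linarith only [a2, b2, a3, a5, a4, hε, hε i, hε j])
  obtain ⟨ε0, k1, k0⟩ := ((eventually_all.2 fun i => (eventually_le_nhds (hε i)).filter_mono
    nhdsWithin_le_nhds).and (self_mem_nhdsWithin (s := Ioi (0 : ℝ)))).exists
  have k2 : 0 < ε0 := k0
  refine ⟨min ε0 (μ / 4), lt_min k2 (by positivity),
    fun i => by linarith only [k0, k1, min_le_left ε0 (μ / 4), k1 i, hε i], fun g hg => ?_⟩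
  have l1 : LH fun z => Θ (z, 1) := (t3 1 ⟨zero_le_one, le_rfl⟩).lh
  set b : V m → V m := fun x => invFun (fun z => Θ (z, 1)) (g x) with hb
  have hbt : TP b := l1.tpi.comp hg.tp
  have b1 : ∀ x, Θ (b x, 1) = g x := fun x => l1.ri (g x)
  have bi : ∀ x y, b x = b y → g x = g y := fun x y e1 => by rw [← b1, e1, b1]
  have bid : ∀ i, ∀ x ∈ (B i).Q s 8, b x = x := fun i x hx => l1.inv_eq (by
    rw [t4 i x (Box.Q_thick he0.le hx), hg.eq i hx]
    exact congrArg (· + (B i).b) (hA1 i _ (Box.dir_sub hx.1 Box.c_slice)))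
  have hIn := geo.poly_In hm1
  obtain ⟨Ψ, p1, p2⟩ := exists_psi hD.cpt hD.symm (fun i => (hIn i).1.isClosed)
    (fun i j hij => geo.In_disj hij) hχc hbt.continuous hg.tp.continuous hfc t1 t2 b1
    (fun t ht => (t3 t ht).lh.inj) hD.seg
    (fun p hp t ht e1 => hD.seg p hp t ht (hg.injX h (hχ.sg_mem hs (hD.sub hp).1 ht)
      (hχ.sg_mem hs (hD.sub hp).2 ht) (bi _ _ e1)))
    (fun p hp t ht => hg.line h geo (hχ.mem (hD.sub hp).1) (hχ.mem (hD.sub hp).2) (hD.two p hp)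
      (by linarith only [hμ, hμ', hp, hμ' p hp, min_le_right ε0 (μ / 4)]) ht)
    hH (fun p hp => Or.inl ⟨p, hp, rfl⟩)
    (fun i x hx t ht => bid i _ (q68 i (hχ.sg_Q hs hx ht)))
    (fun i => by
      have sI := (Box.pc_In hs (h.r8 i).1).sm
      have sL := (Box.pc_L hs (h.r8 i).1).sm
      refine (hA2 i ν n1 n2 n3 n4 (D ∩ (B i).In s ×ˢ (B i).In s)
        (hD.cpt.inter_right ((hIn i).1.isClosed.prod (hIn i).1.isClosed))
        (fun p hp => ⟨hD.symm p hp.1, hp.2.2, hp.2.1⟩)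
        ((((sL.prod sI).le (by omega)).union ((sI.prod sL).le (by omega))).mono fun p hp =>
          (hD.dJ i p hp.1 hp.2.1 hp.2.2).imp (fun a => ⟨a, hp.2.2⟩) fun a => ⟨hp.2.1, a⟩) χ hχc
        fun p hp => ⟨hχ.fine i _ hp.2.1, hD.two p hp.1 i
          (Box.Q_monoP hs.le (by norm_num) (hχ.fine i _ hp.2.1).2)
          (Box.Q_monoP hs.le (by norm_num) (hχ.fine i _ hp.2.2).2)⟩).congr fun p hp t ht => ?_
      have u1 := q68 i (hχ.fine i _ hp.2.1).2
      have u2 := q68 i (hχ.fine i _ hp.2.2).2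
      refine cat_congr (fun t ht => ?_) (fun t ht => cat_congr (fun t _ => ?_) (fun _ _ => rfl) ht) ht
      · rw [bid i _ u1, bid i _ u2]
        exact t5 i t ht _ (Box.Q_thick he0.le u1) _ (Box.Q_thick he0.le u2)
      · simp only [lin, tl]
        rw [hg.eq i u1, hg.eq i u2, Box.aff_sub])
  have hE : Eqv (Zp Z B s) (range (ctr B)) b id := germ_thm hm (geo.poly_Zp hm1) geo.pc_Zp st
    hF.hc1 hIn (fun i _ hx => Geo.In_Zp hx) (fun i => Box.star_In) geo.In_nhds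
    (fun i j hij => geo.In_disj hij) hF.hio hbt (fun x hx y hy e1 => hg.inj hx hy (bi x y e1))
    (N := ⋃ i, (B i).ot s 8 e) (isOpen_iUnion fun i => Box.ot_open)
    (fun i x hx => mem_iUnion.2 ⟨i, Box.Q_ot hs (by norm_num) geo.e0 (Box.In_Q hs hx)⟩)
    (fun x hx => by
      obtain ⟨i, hi⟩ := mem_iUnion.1 hx.2
      exact bid i x (geo.Zp_ot (by norm_num) hx.1 hi))
    hD.cpt hD.symm hD.sub p1 hD.d1 (fun i p hp h1 h2 => hD.d2 i p hp (geo.cl_out h1) h2) p2 hD.d4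
  obtain ⟨Φ, f1, f2, f3⟩ := hE.symm (by
    rintro _ ⟨i, rfl⟩
    exact Geo.In_Zp (geo.c_In hm1 i))
  refine ⟨(fun z => Θ (z, 1)) ∘ Φ, fun i => (LinearEquiv.ofBijective (Ac i 1 : V m →ₗ[ℝ] V m)
    ((hA i).bij 1)).toContinuousLinearEquiv, (t3 1 ⟨zero_le_one, le_rfl⟩).comp f1,
    fun x hx => ?_, fun i => ⟨hA1 i, ?_⟩⟩
  · rw [comp_apply, show Φ x = b x from f3 x hx, b1]
  · filter_upwards [f2 _ ⟨i, rfl⟩, Box.ot_open.mem_nhds (cth i)] with x a1 a2
    rw [comp_apply, a1]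
    exact t4 i x (Box.ot_thick a2)

end BEp
end
end

-- merged part: Pool.Agent.Work.MP_f0515e_an.Pos.TExp
section
/-! TOP, from the germs to the boxes. -/

open Set Metric Filter Topology Function BEv
open scoped NNReal

noncomputable section
namespace BEp

variable {m : ℕ} {ι : Type} [Finite ι] {S Z : Set (V m)} {c0 : V m} {f g : V m → V m}
  {B : ι → Box m} {s e η : ℝ} {ε : ι → ℝ}

theorem top_expand (h : TopHyp S Z c0 f B s ε) (geo : Geo Z B s e) (hg : GHyp Z B s f ε η g)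
    {Φ : V m → V m} {M : ι → V m ≃L[ℝ] V m} (hΦ : Germ Z B s g Φ M) :
    ∃ Ψ, SG Ψ ∧ EqOn Ψ g Z ∧ ∀ i, EqOn Ψ (B i).aff ((B i).Q s 4) := by
  have hs := h.s0
  have q8 : ∀ i, (B i).Q s 6 ⊆ (B i).Q s 8 := fun i => Box.Q_monoP hs.le (by norm_num)
  have out : ∀ x ∈ Z, (∀ i, x ∉ (B i).Q s 6) → x ∈ Zout Z B s := fun x hx k =>
    ⟨hx, fun c => (mem_iUnion.1 c).elim fun i hi => k i (geo.oQ_Q hi)⟩
  obtain ⟨Ψ, p1, p2, p3⟩ := blowup h hg.tp ((hg.injX h).mono fun x hx => by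
      by_cases k : ∀ i, x ∉ (B i).Q s 6
      · exact hx.imp_left fun hx => out x hx k
      · push Not at k
        exact Or.inr (mem_iUnion.2 k))
    (fun i => ⟨(B i).A, (B i).b - (B i).A (B i).c, fun x hx => by
      rw [hg.eq i (q8 i hx), Box.aff, map_sub]
      abel⟩) hΦ.1 (fun x hx k => hΦ.2.1 (Or.inl (out x hx k)))
    (fun i y hy ⟨l, hl, el⟩ t ht => hΦ.2.1 (Geo.In_Zp (i := i) ⟨y, ⟨(h.sk i y
      (Box.Q_monoP hs.le (by norm_num) hy.2) ⟨l, hl, by rw [el]; linarith only [hs]⟩).1 hy.1, le_antisymm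
        ((Box.mem_Q (geo.pos i (by norm_num)).le).1 hy.2).2
        (el ▸ norm_le_pi_norm (y - (B i).c) l)⟩, t, ht, rfl⟩))
    fun i => by
      obtain ⟨μ, m0, m1⟩ := Metric.eventually_nhds_iff_ball.1 (hΦ.2.2 i).2
      refine ⟨μ / 2, by positivity, fun x hx k => ?_⟩
      rw [m1 x (mem_ball_iff_norm.2 (by linarith only [m0, k])), hg.eq i (q8 i hx)]
      exact congrArg (· + (B i).b) ((hΦ.2.2 i).1 _ (Box.dir_sub hx.1 Box.c_slice))
  exact ⟨Ψ, p1, p2, fun i x hx => (p3 i x hx).trans (hg.eq i (Box.Q_monoP hs.le (by norm_num) hx))⟩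

end BEp
end
end

-- merged part: Pool.Agent.Work.MP_f0515e_an.Pos.TOP
section
/-! EXPORT (TOP). The topological theorem: section 4 of the plan. -/

open Set Metric Filter Topology Function BEv
open scoped NNReal

noncomputable section
namespace BEp

theorem top_pos {m : ℕ} (hm : 2 ≤ m) {ι : Type} [Finite ι] {S Z : Set (V m)} {c0 : V m}
    {f : V m → V m} {B : ι → Box m} {s : ℝ} {ε : ι → ℝ} (h : TopHyp S Z c0 f B s ε)
    (hP : Pos S f) :
    ∃ η > 0, ∀ g : V m → V m, TP g → (∀ i, EqOn g (B i).aff (Z ∩ (B i).Q s 10)) →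
      (∀ i, ∀ x ∈ Z ∩ (B i).Q s 12, ‖g x - (B i).aff x‖ ≤ 2 * ε i) →
      (∀ x ∈ Z, (∀ i, x ∉ (B i).Q s 12) → ‖g x - f x‖ ≤ η) → ∀ θ : ℝ≥0, 0 < θ →
      ∃ Φ δ : V m → V m, SG Φ ∧ TP δ ∧ LipschitzWith θ δ ∧
        (∀ x, ‖δ x‖ ≤ θ) ∧ (∀ x ∈ Z, Φ x = g x + δ x) ∧
        ∀ i, ∀ x ∈ (B i).Q s 4, Φ x = (B i).aff x := by
  obtain ⟨e, geo⟩ := h.geo
  obtain ⟨η, h0, h1, h2⟩ := top_core hm h geo hP
  refine ⟨η / 2, half_pos h0, fun g hg a1 a2 a3 θ hθ => ?_⟩
  obtain ⟨g', δ, b1, b2, b3, b4, b5⟩ := h.exists_ghyp (by omega) geo h0 h1 hg a1 a2 a3 hθ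
  obtain ⟨Φ, M, hΦ⟩ := h2 g' b1
  obtain ⟨Ψ, c1, c2, c3⟩ := top_expand h geo b1 hΦ
  exact ⟨Ψ, δ, c1, b2, b3, b4, fun x hx => (c2 hx).trans (b5 x hx), c3⟩

theorem Box.neg_aff {m : ℕ} (B : Box m) (x : V m) : B.neg.aff x = -B.aff x := by
  simp [Box.aff, Box.neg, add_comm]

theorem TopHyp.neg {m : ℕ} {ι : Type} {S Z : Set (V m)} {c0 : V m} {f : V m → V m}
    {B : ι → Box m} {s : ℝ} {ε : ι → ℝ} (h : TopHyp S Z c0 f B s ε) :
    TopHyp S Z c0 (fun x => -f x) (fun i => (B i).neg) s ε :=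
  ⟨h.nat.neg, h.cont.neg, fun _ hx _ hy e => h.inj hx hy (neg_injective e), h.poly, h.pc, h.ZS,
    h.s0, h.ε0, h.card, h.r8, h.QS, h.disj, h.thick, h.sk,
    fun i z hz => by simpa [Box.neg] using h.low i z hz,
    fun i x hx => by rw [Box.neg_aff, neg_sub_neg, norm_sub_rev]; exact h.close i x hx,
    fun i x hx y hy hn => by
      rw [Box.neg_aff, neg_sub_neg, norm_sub_rev]; exact h.nohit i x hx y hy hn,
    fun i j hij x hx y hy => by
      rw [Box.neg_aff, Box.neg_aff, neg_sub_neg, norm_sub_rev]; exact h.sep i j hij x hx y hy⟩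

theorem top_thm {m : ℕ} (hm : 2 ≤ m) {ι : Type} [Finite ι] {S Z : Set (V m)} {c0 : V m}
    {f : V m → V m} {B : ι → Box m} {s : ℝ} {ε : ι → ℝ} (h : TopHyp S Z c0 f B s ε) :
    ∃ η > 0, ∀ g : V m → V m, TP g → (∀ i, EqOn g (B i).aff (Z ∩ (B i).Q s 10)) →
      (∀ i, ∀ x ∈ Z ∩ (B i).Q s 12, ‖g x - (B i).aff x‖ ≤ 2 * ε i) →
      (∀ x ∈ Z, (∀ i, x ∉ (B i).Q s 12) → ‖g x - f x‖ ≤ η) → ∀ θ : ℝ≥0, 0 < θ →
      ∃ (σ : ℝ) (Φ δ : V m → V m), (σ = 1 ∨ σ = -1) ∧ SG Φ ∧ TP δ ∧ LipschitzWith θ δ ∧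
        (∀ x, ‖δ x‖ ≤ θ) ∧ (∀ x ∈ Z, σ • Φ x = g x + δ x) ∧
        ∀ i, ∀ x ∈ (B i).Q s 4, σ • Φ x = (B i).aff x := by
  obtain ⟨σ, rfl | rfl, hσ⟩ := h.nat
  · obtain ⟨η, h0, h1⟩ := top_pos hm h (by simpa [Pos] using hσ)
    refine ⟨η, h0, fun g hg a1 a2 a3 θ hθ => ?_⟩
    obtain ⟨Φ, δ, b1, b2, b3, b4, b5, b6⟩ := h1 g hg a1 a2 a3 θ hθ
    exact ⟨1, Φ, δ, Or.inl rfl, b1, b2, b3, b4, by simpa using b5, by simpa using b6⟩
  · obtain ⟨η, h0, h1⟩ := top_pos hm h.neg (by simpa [Pos] using hσ)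
    refine ⟨η, h0, fun g hg a1 a2 a3 θ hθ => ?_⟩
    obtain ⟨Φ, δ, b1, b2, b3, b4, b5, b6⟩ := h1 (fun x => -g x) hg.neg
      (fun i x hx => by rw [Box.neg_aff, ← a1 i hx])
      (fun i x hx => by rw [Box.neg_aff, neg_sub_neg, norm_sub_rev]; exact a2 i x hx)
      (fun x hx hn => by rw [neg_sub_neg, norm_sub_rev]; exact a3 x hx hn) θ hθ
    refine ⟨-1, Φ, fun x => -δ x, Or.inr rfl, b1, b2.neg, b3.neg, by simpa using b4,
      fun x hx => ?_, fun i x hx => ?_⟩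
    · rw [b5 x hx]
      simp [add_comm]
    · rw [b6 i x hx, Box.neg_aff]
      simp

end BEp
end
end

-- merged part: Pool.Agent.Work.MP_f0515e_an.Pos.AGd
section
/-! TASK AGd. The piecewise affine map g and the homeomorphism G.
Plan. exists_g: kappa i x = max 0 (min (s (r + 12) - norm (pr I (x - c))) (2 s - norm (pr I-complement (x - c)))), 1-Lipschitz, TP, zero off thick, 2 s on Q 10; g = g0 + sum over i of the vector with coordinates
clamp ((aff i x - g0 x) l) (eps i / s * kappa i x). The sets thick are closed and disjoint, so near a point at most one term is nonzero. LL.clamp, LL.pi. ll_c1: HasStrictFDerivAt (ContDiffAt.hasStrictFDerivAt), isLittleO bound.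
exists_gd: eta from hC; eta' = min of eta / 2, theta2 / 4 and the eps i / 2 (finitely many); th' = min of theta / 5 and eta'; g0 from gh on a ball containing Reg; g from exists_g (thick_disj); on Z and Q 12 the point is in Sk (Z_thick), fine,
so norm (g0 - aff) <= 2 eps by close; off the Q 12 a point of Z is off every thick (Z_thick). G = sigma Phi (cc_sign), gd = g + delta. ll: thick_cell gives q a = q, so the matrices agree (subst) and eps / s <= sigma.
sup: y' = centre of the box (8 M s <= rho <= eta) or y' = y. -/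

open Set Metric Filter Topology Function BEv MeasureTheory
open scoped NNReal ENNReal

noncomputable section
namespace BEp

variable {m : ℕ} {ι κ : Type} [Fintype ι] [Fintype κ]

/-- The conclusion of the topological theorem. -/
def TopConcl {ι' : Type} (Z : Set (V m)) (f : V m → V m) (B : ι' → Box m) (s : ℝ) (ε : ι' → ℝ) :
    Prop :=
  ∃ η > 0, ∀ g : V m → V m, TP g → (∀ i, EqOn g (B i).aff (Z ∩ (B i).Q s 10)) →
    (∀ i, ∀ x ∈ Z ∩ (B i).Q s 12, ‖g x - (B i).aff x‖ ≤ 2 * ε i) →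
    (∀ x ∈ Z, (∀ i, x ∉ (B i).Q s 12) → ‖g x - f x‖ ≤ η) → ∀ θ : ℝ≥0, 0 < θ →
    ∃ (σ : ℝ) (Φ δ : V m → V m), (σ = 1 ∨ σ = -1) ∧ SG Φ ∧ TP δ ∧ LipschitzWith θ δ ∧
      (∀ x, ‖δ x‖ ≤ θ) ∧ (∀ x ∈ Z, σ • Φ x = g x + δ x) ∧
      ∀ i, ∀ x ∈ (B i).Q s 4, σ • Φ x = (B i).aff x

/-- The cut-off function of a box. -/
def AGd_kap (B : Box m) (s : ℝ) (x : V m) : ℝ :=
  max 0 (min (s * (B.r + 12) - ‖pr B.I (x - B.c)‖) (2 * s - ‖pr B.Iᶜ (x - B.c)‖))

/-- The correction near a box. -/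
def AGd_cor (B : Box m) (s e : ℝ) (g0 : V m → V m) (x : V m) : V m :=
  fun l => clamp ((B.aff x - g0 x) l) (e / s * AGd_kap B s x)

theorem AGd_aff (B : Box m) : TP B.aff :=
  ((TP.clm B.A).comp (TP.id'.sub (TP.const B.c))).add (TP.const B.b)

theorem AGd_tp (B : Box m) (s e : ℝ) {g0 : V m → V m} (h0 : TP g0) : TP (AGd_cor B s e g0) := by
  have h1 : ∀ T, TP fun x : V m => ‖pr T (x - B.c)‖ := fun T =>
    ((TP.id'.sub (TP.const B.c)).pr T).norm_pi
  have h2 : TP (AGd_kap B s) :=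
    (TP.const 0).max (((TP.const _).sub (h1 _)).min ((TP.const _).sub (h1 _)))
  exact TP.pi fun l => (((AGd_aff B).sub h0).apply l).clamp (h2.const_mul _)

theorem AGd_ll (B : Box m) (s : ℝ) (x : V m) : LL (AGd_kap B s) x 1 := by
  have h1 : ∀ (T : Finset (Ix m)) (a : ℝ), LL (fun y : V m => a - ‖pr T (y - B.c)‖) x 1 := by
    intro T a
    refine LL.of_forall (fun y z => ?_) x
    have := per1_pr T (z - B.c) (y - B.c)
    rw [sub_sub_sub_cancel_right, norm_sub_rev] at this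
    rw [sub_sub_sub_cancel_left, one_mul]
    exact this
  exact ((LL.const 0 x).mono zero_le_one).max ((h1 _ _).min (h1 _ _))

theorem AGd_off (B : Box m) {s : ℝ} (e : ℝ) (g0 : V m → V m) {x : V m}
    (hx : x ∉ B.thick s 12 (2 * s)) : AGd_cor B s e g0 x = 0 := by
  have h : AGd_kap B s x = 0 := by
    refine max_eq_left ?_
    by_contra k
    rw [not_le, lt_min_iff] at k
    refine hx ⟨fun l hl => ?_, fun l hl => ?_⟩
    · have := abs_le_norm_pr (x - B.c) hl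
      rw [Pi.sub_apply] at this
      linarith [k.1]
    · have := abs_le_norm_pr (x - B.c) (Finset.mem_compl.2 hl)
      rw [Pi.sub_apply] at this
      linarith [k.2]
  funext l
  rw [AGd_cor, h, mul_zero, clamp_zero]
  rfl

theorem AGd_closed (B : Box m) (s ρ e : ℝ) : IsClosed (B.thick s ρ e) := by
  have h : B.thick s ρ e = (⋂ l ∈ B.I, {x : V m | |x l - B.c l| ≤ s * (B.r + ρ)}) ∩
      ⋂ l ∈ B.Iᶜ, {x : V m | |x l - B.c l| ≤ e} := by
    ext x
    simp [Box.thick]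
  rw [h]
  exact (isClosed_biInter fun l _ => isClosed_le (by fun_prop) continuous_const).inter
    (isClosed_biInter fun l _ => isClosed_le (by fun_prop) continuous_const)

theorem AGd_Q {B : Box m} {s ρ ρ' : ℝ} (hs : 0 ≤ s) (h : ρ ≤ ρ') : B.Q s ρ ⊆ B.Q s ρ' :=
  fun _ hx => ⟨hx.1, fun l hl => (hx.2 l hl).trans (by gcongr)⟩

theorem AGd_thick {B : Box m} {s ρ ρ' e : ℝ} (hs : 0 ≤ s) (h : ρ ≤ ρ') :
    B.thick s ρ e ⊆ B.thick s ρ' e :=
  fun _ hx => ⟨fun l hl => (hx.1 l hl).trans (by gcongr), hx.2⟩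

theorem AGd_on (B : Box m) {s e : ℝ} (hs : 0 < s) (he : 0 ≤ e) (g0 : V m → V m) {x : V m}
    (hx : x ∈ B.Q s 10) (h : ‖g0 x - B.aff x‖ ≤ 2 * e) : g0 x + AGd_cor B s e g0 x = B.aff x := by
  have h1 : ‖pr B.I (x - B.c)‖ ≤ s * (B.r + 10) :=
    (norm_pr_le_iff (by positivity)).2 fun l hl => hx.2 l hl
  have h2 : ‖pr B.Iᶜ (x - B.c)‖ ≤ 0 := (norm_pr_le_iff le_rfl).2 fun l hl => by
    rw [Pi.sub_apply, hx.1 l (Finset.mem_compl.1 hl), sub_self, abs_zero]
  have h3 : 2 * s ≤ AGd_kap B s x := le_max_of_le_right (le_min (by linarith) (by linarith))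
  have h4 : 2 * e ≤ e / s * AGd_kap B s x := by
    calc 2 * e = e / s * (2 * s) := by field_simp
      _ ≤ _ := by gcongr
  funext l
  rw [Pi.add_apply, AGd_cor, clamp_eq_self, Pi.sub_apply, add_sub_cancel]
  rw [norm_sub_rev] at h
  exact ((norm_le_pi_norm (B.aff x - g0 x) l).trans h).trans h4

theorem AGd_le (B : Box m) {s e : ℝ} (hs : 0 < s) (he : 0 ≤ e) (g0 : V m → V m) (x : V m) :
    ‖g0 x + AGd_cor B s e g0 x - B.aff x‖ ≤ ‖g0 x - B.aff x‖ := by
  refine (pi_norm_le_iff_of_nonneg (norm_nonneg _)).2 fun l => ?_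
  refine le_trans ?_ (norm_le_pi_norm (g0 x - B.aff x) l)
  have h : 0 ≤ e / s * AGd_kap B s x := mul_nonneg (by positivity) (le_max_left _ _)
  simp only [AGd_cor, Pi.sub_apply, Pi.add_apply, Real.norm_eq_abs, clamp]
  generalize e / s * AGd_kap B s x = b at h
  generalize g0 x l = a
  generalize B.aff x l = c
  rw [abs_le]
  have h1 := le_abs_self (a - c)
  have h2 := neg_abs_le (a - c)
  have h3 := abs_nonneg (a - c)
  constructor
  · rcases le_total (c - a) b with k | k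
    · rw [min_eq_left k]
      linarith only [h1, h2, le_max_right (-b) (c - a)]
    · rw [min_eq_right k]
      linarith [le_max_right (-b) b]
  · rcases le_total (-b) (min (c - a) b) with k | k
    · rw [max_eq_right k]
      linarith [min_le_left (c - a) b]
    · rw [max_eq_left k]
      linarith

theorem AGd_llc (B : Box m) {s e c : ℝ} (hs : 0 < s) (he : 0 ≤ e) (hc : 0 ≤ c) {g0 : V m → V m}
    {x : V m} (h : LL (fun y => g0 y - B.A y) x c) : LL (AGd_cor B s e g0) x (c + e / s) := by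
  have h0 : 0 ≤ e / s := by positivity
  have h1 : LL (fun y => B.aff y - g0 y) x (c + e / s) := by
    have := (LL.const (B.b - B.A B.c) x).sub h
    refine (this.mono (by linarith only [h0])).congr (Eventually.of_forall fun y => ?_)
    simp only [Box.aff, map_sub]
    abel
  have h2 : LL (fun y => e / s * AGd_kap B s y) x (c + e / s) :=
    ((AGd_ll B s x).const_mul (e / s)).mono (by rw [abs_of_nonneg h0]; linarith only [hc])
  exact LL.pi (by linarith) fun l => (h1.apply l).clamp h2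

theorem exists_g {ι' : Type} [Finite ι'] (B : ι' → Box m) {s : ℝ} (hs : 0 < s) (ε : ι' → ℝ)
    (hε : ∀ i, 0 ≤ ε i)
    (hd : ∀ i j, i ≠ j → Disjoint ((B i).thick s 12 (2 * s)) ((B j).thick s 12 (2 * s)))
    {g0 : V m → V m} (h0 : TP g0) : ∃ g : V m → V m, TP g ∧
      (∀ i, ∀ x ∈ (B i).Q s 10, ‖g0 x - (B i).aff x‖ ≤ 2 * ε i → g x = (B i).aff x) ∧
      (∀ i, ∀ x ∈ (B i).thick s 12 (2 * s), ‖g x - (B i).aff x‖ ≤ ‖g0 x - (B i).aff x‖) ∧
      (∀ x, (∀ i, x ∉ (B i).thick s 12 (2 * s)) → g =ᶠ[𝓝 x] g0) ∧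
      ∀ i, ∀ x ∈ (B i).thick s 12 (2 * s), ∀ c : ℝ, 0 ≤ c → LL (fun y => g0 y - (B i).A y) x c →
        LL (fun y => g y - (B i).A y) x (2 * c + ε i / s) := by
  classical
  have := Fintype.ofFinite ι'
  set g : V m → V m := fun x => g0 x + ∑ i, AGd_cor (B i) s (ε i) g0 x with hg
  have hoff : ∀ (x : V m) (P : ι' → Prop), (∀ j, P j → x ∉ (B j).thick s 12 (2 * s)) →
      ∀ᶠ y in 𝓝 x, ∀ j, P j → AGd_cor (B j) s (ε j) g0 y = 0 := by
    intro x P h
    refine eventually_all.2 fun j => ?_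
    by_cases hj : P j
    · filter_upwards [(AGd_closed (B j) s 12 (2 * s)).isOpen_compl.mem_nhds (h j hj)] with y hy _
      exact AGd_off _ _ _ hy
    · exact Eventually.of_forall fun y k => absurd k hj
  have hev : ∀ i, ∀ x ∈ (B i).thick s 12 (2 * s),
      g =ᶠ[𝓝 x] fun y => g0 y + AGd_cor (B i) s (ε i) g0 y := by
    intro i x hx
    filter_upwards [hoff x (fun j => j ≠ i) fun j hj k => disjoint_left.1 (hd j i hj) k hx]
      with y hy
    simp only [hg]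
    rw [Finset.sum_eq_single i (fun j _ hj => hy j hj) (by simp)]
  refine ⟨g, h0.add (TP.sum _ fun i _ => AGd_tp _ _ _ h0), fun i x hx h => ?_,
    fun i x hx => ?_, fun x hx => ?_, fun i x hx c hc h => ?_⟩
  · rw [(hev i x (Cfg.ATop_Q (by positivity) (AGd_Q hs.le (by norm_num) hx))).self_of_nhds]
    exact AGd_on _ hs (hε i) g0 hx h
  · rw [(hev i x hx).self_of_nhds]
    exact AGd_le _ hs (hε i) g0 x
  · filter_upwards [hoff x (fun _ => True) fun j _ => hx j] with y hy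
    simp only [hg]
    rw [Finset.sum_eq_zero fun j _ => hy j trivial, add_zero]
  · refine ((h.add (AGd_llc (B i) hs (hε i) hc h)).mono (by linarith)).congr ?_
    filter_upwards [hev i x hx] with y hy
    rw [hy]
    abel

theorem ll_c1 {u : V m → V m} (hu : ContDiff ℝ 1 u) (A : V m →L[ℝ] V m) (y : V m) {θ : ℝ}
    (hθ : 0 < θ) : LL (fun x => u x - A x) y (‖fderiv ℝ u y - A‖ + θ) := by
  have h := (hu.contDiffAt (x := y)).hasStrictFDerivAt one_ne_zero
  filter_upwards [(hasStrictFDerivAt_iff_isLittleO.1 h).bound hθ] with p hp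
  have e : u p.1 - A p.1 - (u p.2 - A p.2) =
      (fderiv ℝ u y - A) (p.1 - p.2) + (u p.1 - u p.2 - fderiv ℝ u y (p.1 - p.2)) := by
    simp only [_root_.sub_apply, map_sub]
    abel
  rw [e, add_mul]
  exact (norm_add_le _ _).trans (add_le_add (ContinuousLinearMap.le_opNorm _ _) hp)

theorem Cfg.exists_gd {X : Cfg m ι κ} (hX : X.Ok) {kp : κ → Finset (Ix m → ℤ)}
    (hk : X.Kp kp) {f : V m → V m} {S : Set (V m)} {c0 : V m}
    (hT : TopHyp S X.Z c0 f (X.box f kp) X.s (fun i => (X.G i.1.1).ε))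
    (hC : TopConcl X.Z f (X.box f kp) X.s (fun i => (X.G i.1.1).ε)) {ϑ : ℝ} (h0 : 0 < ϑ)
    (hϑ : ∀ a, 32 * (X.C a).Λ * (X.C a).M * X.s ≤ ϑ) :
    ∃ η' : ℝ, 0 < η' ∧ ∀ u : V m → V m, ContDiff ℝ 2 u → (∀ y ∈ X.Reg, ‖u y - f y‖ ≤ η') →
      ∀ θ : ℝ, 0 < θ → ∃ G gd : V m → V m, CC G ∧
        X.Gd kp f G gd (fun q y => ‖fderiv ℝ u y - (X.ty q).A‖) θ ϑ := by
  obtain ⟨η, hη, hC⟩ := hC
  have hs := hX.s0
  have ev : ∀ {r : ℝ}, 0 < r → ∀ᶠ e : ℝ in 𝓝[>] 0, e ≤ r := fun hr =>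
    mem_of_superset (Ioc_mem_nhdsGT hr) fun _ h => h.2
  have ev1 : ∀ᶠ e : ℝ in 𝓝[>] 0, ∀ i : Bx kp, e ≤ (X.G i.1.1).ε / 2 :=
    eventually_all.2 fun i => ev (half_pos (hT.ε0 i))
  obtain ⟨η', ⟨⟨e1, e2⟩, e3⟩, e0⟩ := (((ev1.and (ev (half_pos hη))).and
    (ev (show 0 < ϑ / 4 by positivity))).and self_mem_nhdsWithin).exists
  replace e0 : 0 < η' := e0
  refine ⟨η', e0, fun u hu huf θ hθ => ?_⟩
  obtain ⟨t, t0, t1, t2⟩ : ∃ t : ℝ≥0, 0 < t ∧ (t : ℝ) ≤ θ / 5 ∧ (t : ℝ) ≤ η' :=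
    ⟨⟨min (θ / 5) η', by positivity⟩, lt_min (by positivity) e0, min_le_left _ _,
      min_le_right _ _⟩
  have t0' : (0 : ℝ) < t := t0
  obtain ⟨R, hR⟩ := X.isCompact_Reg.isBounded.exists_norm_le
  obtain ⟨g0, tg0, hg0⟩ := gh hu R t0'
  obtain ⟨g, tg, g1, g2, g3, g4⟩ := exists_g (X.box f kp) hs (fun i => (X.G i.1.1).ε)
    (fun i => (hT.ε0 i).le) (fun i j hij => (Cfg.thick_disj hX hk f hij).mono
      (AGd_thick hs.le (by norm_num)) (AGd_thick hs.le (by norm_num))) tg0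
  have hf0 : ∀ y ∈ X.Z, ‖g0 y - f y‖ ≤ 2 * η' := fun y hy => by
    have k := Cfg.Z_sub hX hy
    calc _ ≤ ‖g0 y - u y‖ + ‖u y - f y‖ := norm_sub_le_norm_sub_add_norm_sub _ _ _
      _ ≤ _ := by linarith only [t2, hg0, hR, k, huf, (hg0 y (hR y k)).1, huf y k]
  have hth : ∀ i : Bx kp, (X.box f kp i).Q X.s 12 ⊆ (X.box f kp i).thick X.s 12 (2 * X.s) :=
    fun i => Cfg.ATop_Q (by positivity)
  have hc0 : ∀ i : Bx kp, ∀ y ∈ X.Z, y ∈ (X.box f kp i).Q X.s 12 →
      ‖g0 y - (X.box f kp i).aff y‖ ≤ 2 * (X.G i.1.1).ε := fun i y hy hq => by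
    have k1 := (Cfg.Z_thick hX hk f i hy (by norm_num) (hth i hq)).2
    have k2 := hT.close i y ⟨Gr.Sk_sub_fine f (hX.gok i.1.1) k1, AGd_Q hs.le (by norm_num) hq⟩
    calc _ ≤ ‖g0 y - f y‖ + ‖f y - (X.box f kp i).aff y‖ := norm_sub_le_norm_sub_add_norm_sub _ _ _
      _ ≤ _ := by linarith only [k2, hf0, hy, e1, hf0 y hy, e1 i]
  have hc1 : ∀ i : Bx kp, ∀ y ∈ X.Z, y ∈ (X.box f kp i).Q X.s 12 →
      ‖g y - (X.box f kp i).aff y‖ ≤ 2 * (X.G i.1.1).ε := fun i y hy hq =>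
    (g2 i y (hth i hq)).trans (hc0 i y hy hq)
  have hc2 : ∀ y ∈ X.Z, (∀ i : Bx kp, y ∉ (X.box f kp i).Q X.s 12) → g y = g0 y :=
    fun y hy hq => (g3 y fun i k =>
      hq i (Cfg.Z_thick hX hk f i hy (by norm_num) k).1).self_of_nhds
  obtain ⟨σ, Φ, δ, hσ, hΦ, tδ, lδ, nδ, hZ, hQ⟩ := hC g tg
    (fun i y hy => g1 i y hy.2 (hc0 i y hy.1 (AGd_Q hs.le (by norm_num) hy.2)))
    (fun i y hy => hc1 i y hy.1 hy.2)
    (fun y hy hq => by rw [hc2 y hy hq]; linarith only [e2, hf0, hy, hf0 y hy]) t t0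
  have hG := cc_sign hΦ hσ
  have hcb : ∀ i : Bx kp, ∀ y ∈ (X.box f kp i).Q X.s 12, ‖(X.G i.1.1).cb i.1.2 - y‖ ≤ X.η :=
    fun i y hy => by
      have k := Cfg.ATop_norm hX f i (by norm_num) (hth i hy)
      rw [norm_sub_rev]
      linarith only [hs, k, hX, hX.sρ i.1.1, hX.ρη, Cfg.ATop_Ms hX i.1.1]
  refine ⟨_, fun x => g x + δ x, hG, hG.tp.lip, (tg.add tδ).lip, hZ, hQ,
    fun _ _ => norm_nonneg _, hθ.le, fun q y hy hq => ?_, fun y hy => ?_⟩
  · have k0 := norm_nonneg (fderiv ℝ u y - (X.ty q).A)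
    have k1 : LL (fun x => g0 x - (X.ty q).A x) y (‖fderiv ℝ u y - (X.ty q).A‖ + 2 * t) := by
      refine (((hg0 y (hR y (mem_iUnion.2 ⟨q, hy⟩))).2.add
        (ll_c1 (hu.of_le (by norm_num)) (X.ty q).A y t0')).mono (by linarith only [])).congr
        (Eventually.of_forall fun x => ?_)
      simp only [sub_add_sub_cancel]
    have k2 : LL δ y t := LL.of_forall (fun a b => lδ.norm_sub_le a b) y
    have k3 := (hX.ty q).σ0
    have k4 : LL (fun x => g x - (X.ty q).A x) y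
        (2 * (‖fderiv ℝ u y - (X.ty q).A‖ + 2 * t) + (X.ty q).σ) := by
      by_cases k : ∃ i : Bx kp, y ∈ (X.box f kp i).thick X.s 12 (2 * X.s)
      · obtain ⟨i, hi⟩ := k
        obtain rfl := hq _ (Cfg.thick_cell hX hk f i hi)
        refine (g4 i y hi _ (by positivity) k1).mono (add_le_add le_rfl ?_)
        change (X.ty (X.q i.1.1)).σ * X.s / 1000 / X.s ≤ _
        rw [div_le_iff₀ hs]
        linarith only [hs, k3, mul_pos_of_neg_of_neg (Mathlib.Tactic.Linarith.sub_neg_of_lt hs) (Mathlib.Tactic.Linarith.sub_neg_of_lt k3)]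
      · push Not at k
        refine (k1.mono (by linarith only [t0, k0, k3])).congr ?_
        filter_upwards [g3 y k] with x hx
        rw [hx]
    refine ((k4.add k2).mono (by linarith only [t1])).congr (Eventually.of_forall fun x => ?_)
    simp only
    abel
  · by_cases k : ∃ i : Bx kp, y ∈ (X.box f kp i).Q X.s 12
    · obtain ⟨i, hi⟩ := k
      refine ⟨_, hcb i y hi, ?_⟩
      have k1 := Cfg.ATop_aff hX f i hi (hϑ _)
      have k2 := Cfg.ATop_eps hX i.1.1 (hϑ _)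
      rcases hy with hy | ⟨j, hj⟩
      · rw [hZ y hy]
        calc _ = ‖(g y - (X.box f kp i).aff y) + δ y +
              ((X.box f kp i).aff y - f ((X.G i.1.1).cb i.1.2))‖ := by congr 1; abel
          _ ≤ _ := norm_add₃_le
          _ ≤ _ := by linarith only [e3, e0, t2, k1, k2, hc1, hy, hi, nδ, hc1 i y hy hi, nδ y]
      · obtain rfl : j = i := by
          by_contra k
          exact disjoint_left.1 (hT.disj j i k) (AGd_Q hs.le (by norm_num) hj)
            (AGd_Q hs.le (by norm_num) hi)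
        rw [hQ j y hj]
        linarith only [e3, e0, k1]
    · push Not at k
      have hy' : y ∈ X.Z := hy.resolve_right fun ⟨i, hi⟩ => k i (AGd_Q hs.le (by norm_num) hi)
      refine ⟨y, by simpa using hX.η0.le, ?_⟩
      rw [hZ y hy', hc2 y hy' k]
      calc _ = ‖(g0 y - f y) + δ y‖ := by congr 1; abel
        _ ≤ _ := norm_add_le _ _
        _ ≤ _ := by linarith only [e3, e0, t2, hf0, hy', nδ, hf0 y hy', nδ y]

end BEp
end
end

-- merged part: Pool.Agent.Work.MP_f0515e_an.Pos.ASt2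
section
/-! TASK ASt2. From the kept cubes to the approximating map.
Plan. kp a = the b in kp0 a with b in cand a (Kept.mono), hT, exists_gd gives eta'; pick j with Etot <= c and u j eta'-close on Reg; theta > 0 below all sigma; G, gd; energy with e' = e0 / (card iota + 1);
T = G after TK (CC.comp, cc_TK). ofReal of the norm is the enorm (ofReal_norm). Bound each cube by Small t1, t4, ns_cube with t2, ns_cell (m < card I) with t3 and the field sum, or ns_low; Finset.sum_fiberwise turns the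
double sum over q and a with q a = q into the sum over a, which is at most hd plus the second part of Etot. -/

open Set Metric Filter Topology Function BEv MeasureTheory
open scoped NNReal ENNReal

noncomputable section
namespace BEp

variable {m : ℕ} {ι κ : Type} [Fintype ι] [Fintype κ]

open Classical in
theorem ASt2_cell {X : Cfg m ι κ} (hX : X.Ok) {f : V m → V m} {kp0 : κ → Finset (Ix m → ℤ)}
    (hK : ∀ a, (X.G a).Kept f (X.F a) (kp0 a)) (a : κ) :
    volume ((X.G a).opn 3 \ (X.G a).sharp ((kp0 a).filter (· ∈ X.cand a))) ≤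
      ENNReal.ofReal ((X.ty (X.q a)).fr * (2 * X.h a) ^ (2 * m + 1)) +
        ((if m < (X.C a).I.card then volume ((X.C a).Wd X.Y X.ρ) else 0) +
          if m < (X.C a).I.card then ((X.F a \ kp0 a).card : ℝ≥0∞) * (X.G a).col else 0) := by
  by_cases hm : m < (X.C a).I.card
  · rw [if_pos hm, if_pos hm, ← add_assoc]
    refine Gr.ns_cell (hX.gok a) (hX.hF a) ?_ fun b hb h1 h2 =>
      Finset.mem_filter.2 ⟨hb, (hX.hF a b).1 ((hK a).sub hb), hm, h1, h2⟩
    have h1 := hX.sρ a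
    have h2 : 0 ≤ ((X.C a).M : ℝ) * X.s := mul_nonneg (Nat.cast_nonneg _) hX.s0.le
    change 8 * ((X.C a).M : ℝ) * X.s ≤ X.ρ
    linarith only [h1, h2]
  · rw [Gr.ns_low (G := X.G a) (not_lt.1 hm), measure_empty]
    exact zero_le

open Classical in
theorem ASt2_cube {X : Cfg m ι κ} (hX : X.Ok) {p r : ℝ} {CW e0 : ℝ≥0∞}
    (hS : ∀ q, (X.ty q).Small p r CW e0) {kp : κ → Finset (Ix m → ℤ)} {D : κ → ℝ≥0∞}
    (hD : ∀ a, volume ((X.G a).opn 3 \ (X.G a).sharp (kp a)) ≤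
      ENNReal.ofReal ((X.ty (X.q a)).fr * (2 * X.h a) ^ (2 * m + 1)) + D a) (q : ι) :
    (X.ty q).aR p * ENNReal.ofReal (X.ty q).th ^ p * volume (X.Qc q 1 \ X.sharp kp) ≤
      2 * e0 * ENNReal.ofReal ((2 * X.η) ^ (2 * m + 1)) +
        ∑ a ∈ Finset.univ.filter (fun a => X.q a = q),
          (X.C a).aR p * ENNReal.ofReal (X.C a).th ^ p * D a := by
  have hfr : 0 ≤ (X.ty q).fr := by unfold Typ.fr; positivity
  have h1 : ∑ a ∈ Finset.univ.filter (fun a => X.q a = q),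
      volume ((X.G a).opn 3 \ (X.G a).sharp (kp a)) ≤
      ENNReal.ofReal (X.ty q).fr * ENNReal.ofReal ((2 * X.η) ^ (2 * m + 1)) +
        ∑ a ∈ Finset.univ.filter (fun a => X.q a = q), D a := by
    refine (Finset.sum_le_sum fun a _ => hD a).trans ?_
    rw [Finset.sum_add_distrib]
    refine add_le_add ?_ le_rfl
    rw [Finset.sum_congr rfl (g := fun a => ENNReal.ofReal ((X.ty q).fr * (2 * X.h a) ^ (2 * m + 1)))
      (fun a ha => by rw [(Finset.mem_filter.1 ha).2]), ← ENNReal.ofReal_mul hfr,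
      ← ENNReal.ofReal_sum_of_nonneg fun a _ => by have := hX.h0 a; positivity]
    refine ENNReal.ofReal_le_ofReal ?_
    rw [← Finset.mul_sum]
    refine mul_le_mul_of_nonneg_left ?_ hfr
    simp only [mul_pow]
    rw [← Finset.mul_sum]
    exact mul_le_mul_of_nonneg_left (hX.sum q) (by positivity)
  have h2 := (Cfg.ns_cube hX kp q).trans (add_le_add le_rfl h1)
  rw [ENNReal.ofReal_mul (hS q).u0] at h2
  have h3 : ∑ a ∈ Finset.univ.filter (fun a => X.q a = q),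
      (X.C a).aR p * ENNReal.ofReal (X.C a).th ^ p * D a =
      (X.ty q).aR p * ENNReal.ofReal (X.ty q).th ^ p *
        ∑ a ∈ Finset.univ.filter (fun a => X.q a = q), D a := by
    rw [Finset.mul_sum]
    refine Finset.sum_congr rfl fun a ha => ?_
    rw [← (Finset.mem_filter.1 ha).2]
    rfl
  rw [h3]
  refine (mul_le_mul_right h2 _).trans ?_
  rw [mul_add, mul_add, ← add_assoc, two_mul e0, add_mul, ← mul_assoc, ← mul_assoc]
  exact add_le_add (add_le_add (mul_le_mul_left (hS q).t2 _) (mul_le_mul_left (hS q).t3 _)) le_rfl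

open Classical in
theorem Cfg.stage_G {X : Cfg m ι κ} (hX : X.Ok) {p r : ℝ} (hp : 1 ≤ p) (hr : p < r)
    {CW e0 : ℝ≥0∞} (hC : CW ≠ ⊤) (he : e0 ≠ 0) (hS : ∀ q, (X.ty q).Small p r CW e0)
    (hW : ∀ q, ∫⁻ z in X.Qc q 1, X.W z ^ r ≤ CW * ENNReal.ofReal ((2 * X.η) ^ (2 * m + 1)))
    (hd : ∑ a, (X.C a).aR p * ENNReal.ofReal (X.C a).th ^ p *
      (if m < (X.C a).I.card then volume ((X.C a).Wd X.Y X.ρ) else 0) ≤ e0)
    {f : V m → V m} {kp0 : κ → Finset (Ix m → ℤ)} (hK : ∀ a, (X.G a).Kept f (X.F a) (kp0 a))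
    {S : Set (V m)} {c0 : V m} (h3 : Continuous f)
    (hT : ∀ kp, X.Kp kp → (∀ a, (X.G a).Kept f (X.F a) (kp a)) →
      TopHyp S X.Z c0 f (X.box f kp) X.s (fun i => (X.G i.1.1).ε) ∧
        TopConcl X.Z f (X.box f kp) X.s (fun i => (X.G i.1.1).ε))
    {ϑ : ℝ} (h0 : 0 < ϑ)
    (hϑ : ∀ a, 32 * (X.C a).Λ * (X.C a).M * X.s ≤ ϑ) {e1 : ℝ}
    (ho : ∀ q, ∀ x ∈ X.Qc q 3, ∀ y ∈ X.Qc q 3, ‖f x - f y‖ ≤ e1) {u : ℕ → V m → V m}
    (hu : ∀ j, ContDiff ℝ 2 (u j)) (hu' : TendstoUniformlyOn u f atTop X.Reg) {c : ℝ≥0∞}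
    (hE : ∃ᶠ j in atTop, X.Etot p (fun q y => ‖fderiv ℝ (u j) y - (X.ty q).A‖ₑ ^ p) kp0 ≤ c) :
    ∃ T, CC T ∧ ∑ q, ∫⁻ z in X.Qc q 1, (‖T z - f z‖ₑ ^ p + ‖fderiv ℝ T z - (X.ty q).A‖ₑ ^ p) ≤
      2 * e0 + c + Fintype.card ι * ENNReal.ofReal ((2 * X.η) ^ (2 * m + 1)) *
        (ENNReal.ofReal (3 * (ϑ + e1)) ^ p + 4 * e0) := by
  let kp : κ → Finset (Ix m → ℤ) := fun a => (kp0 a).filter (· ∈ X.cand a)
  have hk : X.Kp kp := fun a b hb => (Finset.mem_filter.1 hb).2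
  obtain ⟨t1, t2⟩ := hT kp hk fun a => Gr.Kept.mono f (hK a) (Finset.filter_subset _ _)
  obtain ⟨η', hη', hgd⟩ := Cfg.exists_gd hX hk t1 t2 h0 hϑ
  obtain ⟨j, hj, hj'⟩ := (hE.and_eventually (Metric.tendstoUniformlyOn_iff.1 hu' η' hη')).exists
  have hev : ∀ᶠ θ in 𝓝[>] (0 : ℝ), ∀ q, θ ≤ (X.ty q).σ :=
    eventually_all.2 fun q => mem_nhdsWithin_of_mem_nhds (Iic_mem_nhds (hX.ty q).σ0)
  obtain ⟨θ, hθ, hθ0⟩ := (hev.and self_mem_nhdsWithin).exists
  obtain ⟨G, gd, hG, hGd⟩ := hgd (u j) (hu j)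
    (fun y hy => by rw [← dist_eq_norm, dist_comm]; exact (hj' y hy).le) θ hθ0
  have hc1 : (Fintype.card ι : ℝ≥0∞) + 1 ≠ ⊤ := by simp
  obtain ⟨K1, K2, hen⟩ := Cfg.energy hX hk hGd hp hr
    (fun q => (((hu j).continuous_fderiv two_ne_zero).sub continuous_const).norm.measurable) hθ
    (fun q => (hS q).th0) hC hW h3 ho (e' := e0 / (Fintype.card ι + 1))
    (ENNReal.div_pos he hc1).ne'
  refine ⟨G ∘ X.TK kp K1 K2, hG.comp (Cfg.cc_TK hX kp K1 K2), ?_⟩
  simp only [ofReal_norm] at hen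
  have hcu := ASt2_cube hX hS (ASt2_cell hX hK)
  set Vo := ENNReal.ofReal ((2 * X.η) ^ (2 * m + 1)) with hVo
  set Φ : ι → V m → ℝ≥0∞ := fun q y => ‖fderiv ℝ (u j) y - (X.ty q).A‖ₑ ^ p with hΦ
  set D : κ → ℝ≥0∞ := fun a =>
    (if m < (X.C a).I.card then volume ((X.C a).Wd X.Y X.ρ) else 0) +
      if m < (X.C a).I.card then ((X.F a \ kp0 a).card : ℝ≥0∞) * (X.G a).col else 0 with hD
  have hq : ∀ q, ∫⁻ z in X.Qc q 1, (‖(G ∘ X.TK kp K1 K2) z - f z‖ₑ ^ p +
      ‖fderiv ℝ (G ∘ X.TK kp K1 K2) z - (X.ty q).A‖ₑ ^ p) ≤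
      e0 / (Fintype.card ι + 1) + Vo * (ENNReal.ofReal (3 * (ϑ + e1)) ^ p + 4 * e0) +
        (X.ty q).aT p * X.E1 p Φ q + ∑ a ∈ Finset.univ.filter (fun a => X.q a = q),
          (X.C a).aR p * ENNReal.ofReal (X.C a).th ^ p * D a := by
    intro q
    have a1 := mul_le_mul_left (hS q).t1 Vo
    have a4 := mul_le_mul_left (hS q).t4 Vo
    have a2 := hcu q
    calc _ ≤ _ := hen q
      _ = e0 / (Fintype.card ι + 1) + ENNReal.ofReal (3 * (ϑ + e1)) ^ p * Vo +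
          (X.ty q).aT p * X.E1 p Φ q +
          ((X.ty q).aT p * ENNReal.ofReal (2 * (X.ty q).σ) ^ p * CW * Vo +
            (X.ty q).aR p * ENNReal.ofReal (X.ty q).th ^ (p - r) * CW * Vo +
            (X.ty q).aR p * ENNReal.ofReal (X.ty q).th ^ p * volume (X.Qc q 1 \ X.sharp kp)) := by
          ring
      _ ≤ _ := add_le_add le_rfl (add_le_add (add_le_add a4 a1) a2)
      _ = _ := by ring
  refine (Finset.sum_le_sum fun q _ => hq q).trans ?_
  rw [Finset.sum_add_distrib, Finset.sum_add_distrib, Finset.sum_fiberwise Finset.univ X.q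
    (fun a => (X.C a).aR p * ENNReal.ofReal (X.C a).th ^ p * D a), Finset.sum_const,
    Finset.card_univ, nsmul_eq_mul]
  have b0 : ∑ a, (X.C a).aR p * ENNReal.ofReal (X.C a).th ^ p * D a =
      ∑ a, (X.C a).aR p * ENNReal.ofReal (X.C a).th ^ p *
        (if m < (X.C a).I.card then volume ((X.C a).Wd X.Y X.ρ) else 0) +
      ∑ a, (X.C a).aR p * ENNReal.ofReal (X.C a).th ^ p *
        (if m < (X.C a).I.card then ((X.F a \ kp0 a).card : ℝ≥0∞) * (X.G a).col else 0) := by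
    rw [← Finset.sum_add_distrib]
    exact Finset.sum_congr rfl fun a _ => mul_add _ _ _
  have b1 : (Fintype.card ι : ℝ≥0∞) * (e0 / (Fintype.card ι + 1)) ≤ e0 :=
    (mul_le_mul_left le_self_add _).trans ENNReal.mul_div_le
  have b2 := add_le_add (add_le_add (add_le_add b1 hd) hj)
    (le_refl (Fintype.card ι * Vo * (ENNReal.ofReal (3 * (ϑ + e1)) ^ p + 4 * e0)))
  rw [b0]
  unfold Cfg.Etot at b2
  calc _ = _ := by ring
    _ ≤ _ := b2
    _ = _ := by ring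

end BEp
end
end

-- merged part: Pool.Agent.Work.MP_f0515e_an.Pos.ACore
section
/-! The core approximation statement. -/

open Set Metric Filter Topology Function BEv MeasureTheory
open scoped NNReal ENNReal

noncomputable section
namespace BEp

theorem core {m : ℕ} (hm : 2 ≤ m) {p : ℝ} (hp1 : (m : ℝ) < p) (hp2 : p < (m : ℝ) + 1) :
    CoreStmt m p := by
  intro S K f D u e hS hK hKS hst hf hi hD hDi hu huf huD he
  classical
  have hm1 : (2 : ℝ) ≤ m := by exact_mod_cast hm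
  have hp : 1 ≤ p := by linarith only [hp1, hp2, hm1]
  have hp0 : 0 ≤ p := by linarith
  have h2p : (2 : ℝ≥0∞) ^ p ≠ ⊤ := ENNReal.rpow_ne_top_of_nonneg hp0 (by simp)
  obtain ⟨r, hr, hr'⟩ := exists_between hp2
  obtain ⟨CW, hCW, hcfg⟩ := exists_cfg (m := m) (r := r) (by linarith) hr'
  obtain ⟨e0, he0, he0t, hfin⟩ := ACo_small (c := 2 ^ p * (6 + 5 * volume S) + 1)
    (by have := hS.measure_lt_top (μ := volume); finiteness) he
  choose ty hA hOk hPk hSm using exists_typ (m := m) (by linarith only [hp1, hm1, hr, hr'] : 0 < p) hr hCW he0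
  choose Cs hCs hSel using fun B => sel (by omega) hp1 (hOk B)
  obtain ⟨e1, he1, he1'⟩ := ACo_e1 (by linarith only [hp1, hm1, hr, hr'] : 0 < p) he0
  obtain ⟨δ, hδ, hδ'⟩ := Metric.uniformContinuousOn_iff.1
    (hS.uniformContinuousOn_of_continuous hf.continuousOn) e1 he1
  set aa : (V m →L[ℝ] V m) → ℝ≥0∞ := fun B => 2 * (ty B).aT p * CW +
    (ty B).aR p * ENNReal.ofReal (ty B).th ^ p * Cs B with haa
  have hth : ∀ T : Typ m, T.aR p * ENNReal.ofReal T.th ^ p ≠ ⊤ := fun T =>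
    ENNReal.mul_ne_top (T.aR_ne_top hp0) (ENNReal.rpow_ne_top_of_nonneg hp0 ENNReal.ofReal_ne_top)
  have haat : ∀ B, aa B ≠ ⊤ := fun B => ENNReal.add_ne_top.2
    ⟨ENNReal.mul_ne_top (ENNReal.mul_ne_top (by simp) ((ty B).aT_ne_top hp0)) hCW,
      ENNReal.mul_ne_top (hth _) (hCs B)⟩
  have hSm' := hS.measurableSet
  have hD'i : ∫⁻ x, ‖S.indicator D x‖ₑ ^ p ≠ ⊤ := by
    rw [← lintegral_indicator hSm'] at hDi
    refine fun h => hDi (h ▸ lintegral_congr fun x => ?_)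
    by_cases hx : x ∈ S
    · simp only [indicator_of_mem hx]
    · rw [indicator_of_notMem hx, indicator_of_notMem hx, ← ofReal_norm, norm_zero,
        ENNReal.ofReal_zero, ENNReal.zero_rpow_of_pos (by linarith only [hp1, hm1, hr, hr'] : 0 < p)]
  obtain ⟨ι, _, o, Aq, η, hη, hη0, far, hU, hcov, hcard, hsum⟩ := exists_cubes hp
    (hD.indicator hSm').aestronglyMeasurable hD'i hK isOpen_interior
    (hS.isBounded.subset interior_subset) hKS (cc := fun B => 2 ^ p * (aa B + 1))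
    (fun B => ENNReal.mul_ne_top h2p (ENNReal.add_ne_top.2 ⟨haat B, by simp⟩)) he0
    (η0 := δ / 10) (by positivity)
  have hUS : ∀ q, closedBall (o q) (10 * η) ⊆ S := fun q => (hU q).trans interior_subset
  set Iq : ι → ℝ≥0∞ := fun q => ∫⁻ y in closedBall (o q) (10 * η), ‖D y - Aq q‖ₑ ^ p with hIq
  have hsum' : ∑ q, 2 ^ p * (aa (Aq q) + 1) * Iq q ≤ e0 := by
    refine le_trans (le_of_eq (Finset.sum_congr rfl fun q _ => ?_)) hsum
    congr 1
    exact setLIntegral_congr_fun measurableSet_closedBall fun y hy => by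
      simp only [indicator_of_mem (hUS q hy)]
  obtain ⟨κ, _, X0, hX0, ho, hty, hη'⟩ := exists_cf0 o (fun q => ty (Aq q)) hη
    (fun q => hOk _) (fun q => hPk _) far
  choose! μ hμ0 hμ using fun (ρ : ℝ) (h : 0 < ρ) => ACo_mod hS hf hi h
  obtain ⟨Lm, hLm0, hLm⟩ : ∃ Lm : ℝ, 0 < Lm ∧ ∀ a, 32 * (X0.C a).Λ * (X0.C a).M ≤ Lm := by
    obtain ⟨L, hL⟩ := (finite_range fun a => 32 * (X0.C a).Λ * (X0.C a).M).bddAbove
    exact ⟨max L 1, by positivity, fun a => (hL (mem_range_self a)).trans (le_max_left _ _)⟩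
  obtain ⟨ed, hed, -, hed'⟩ := ACo_small
    (c := ∑ a, (X0.C a).aR p * ENNReal.ofReal (X0.C a).th ^ p)
    (ENNReal.sum_ne_top.2 fun a _ => hth _) he0
  obtain ⟨X, rfl, hX, hs, hW, hWd⟩ := hcfg ι κ X0 hX0 ed hed (fun ρ => min (μ ρ) e1 / Lm)
    (fun ρ h => div_pos (lt_min (hμ0 ρ h) he1) hLm0)
  have hs' : ∀ a, 32 * (X.C a).Λ * (X.C a).M * X.s ≤ min (μ X.ρ) e1 := fun a =>
    (mul_le_mul_of_nonneg_right (hLm a) hX.s0.le).trans ((le_div_iff₀' hLm0).1 hs)
  have hAq : ∀ q, (X.ty q).A = Aq q := fun q => by rw [hty]; exact hA _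
  have hQ : ∀ q (j : ℝ), X.Qc q j = closedBall (o q) (j * η) := fun q j => by
    rw [Cf0.Qc, ho, hη']
  have hQt : ∀ q (j : ℝ), j ≤ 9 → ∀ t : V m, ‖t‖ ≤ η → ∀ z ∈ X.Qc q j,
      ‖z + t - o q‖ ≤ (j + 1) * η ∧ z + t ∈ closedBall (o q) (10 * η) := fun q j hj t ht z hz => by
    rw [hQ, mem_closedBall_iff_norm] at hz
    have h1 : ‖z + t - o q‖ ≤ (j + 1) * η := by
      rw [add_sub_right_comm]
      linarith only [ht, hz, norm_add_le (z - o q) t]
    exact ⟨h1, mem_closedBall_iff_norm.2 (h1.trans (by (refine le_of_not_gt fun h_nl => ?_; linarith only [h_nl, hp1, hr, hr', hη, hj, mul_pos_of_neg_of_neg (Mathlib.Tactic.Linarith.sub_neg_of_lt hp1) (Mathlib.Tactic.Linarith.sub_neg_of_lt h_nl), mul_pos_of_neg_of_neg (Mathlib.Tactic.Linarith.sub_neg_of_lt hr) (Mathlib.Tactic.Linarith.sub_neg_of_lt h_nl), mul_pos_of_neg_of_neg (Mathlib.Tactic.Linarith.sub_neg_of_lt hr') (Mathlib.Tactic.Linarith.sub_neg_of_lt h_nl), mul_nonneg_of_nonpos_of_nonpos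 (le_of_lt (Mathlib.Tactic.Linarith.sub_neg_of_lt hη)) (Mathlib.Tactic.Linarith.sub_nonpos_of_le hj)])))⟩
  obtain ⟨d, hd, -, hd'⟩ := ACo_small (c := ∑ q, aa (Aq q) * 2 ^ p)
    (ENNReal.sum_ne_top.2 fun q _ => ENNReal.mul_ne_top (haat _) h2p) he0
  have h9 : ∀ q, X.Qc q 9 ⊆ closedBall (o q) (10 * η) := fun q => by
    rw [hQ]
    exact closedBall_subset_closedBall (by linarith only [hη])
  obtain ⟨t, ht, kp0, hK0, hE⟩ := Cfg.stage_t hX hp0 hr.le hW (Cs := fun q => Cs (Aq q))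
    (fun q => by rw [hty]; exact hSel _) (f := f) (u := u) (fun j => (hu j).of_le one_le_two)
    (fun q => huf.mono ((h9 q).trans (hUS q))) (B := fun q => 2 ^ p * (d + Iq q)) (by
      filter_upwards [huD.eventually (ge_mem_nhds (pos_iff_ne_zero.2 hd))] with j hj q
      have hme : Measurable fun y => ‖fderiv ℝ (u j) y - D y‖ₑ ^ p :=
        ((measurable_fderiv ℝ (u j)).sub hD).enorm.pow_const p
      rw [hAq]
      refine (lintegral_mono fun y => ACo_rpow hp _ (D y) _).trans ?_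
      rw [lintegral_const_mul' _ _ h2p, lintegral_add_left hme]
      gcongr
      · exact (lintegral_mono_set ((h9 q).trans (hUS q))).trans hj
      · exact lintegral_mono_set (h9 q))
    (c := 2 * e0) (by simpa using he0) (by finiteness) (by
      have h1 : ∀ q, (2 * (X.ty q).aT p * CW + (X.ty q).aR p * ENNReal.ofReal (X.ty q).th ^ p *
          Cs (Aq q)) * (2 ^ p * (d + Iq q)) ≤
          aa (Aq q) * 2 ^ p * d + 2 ^ p * (aa (Aq q) + 1) * Iq q := fun q => by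
        rw [hty]
        calc aa (Aq q) * (2 ^ p * (d + Iq q))
            = aa (Aq q) * 2 ^ p * d + 2 ^ p * aa (Aq q) * Iq q := by ring
          _ ≤ _ := by gcongr; exact le_self_add
      refine (Finset.sum_le_sum fun q _ => h1 q).trans ?_
      rw [Finset.sum_add_distrib, ← Finset.sum_mul, two_mul]
      exact add_le_add hd' hsum')
  rw [hη', mem_closedBall_zero_iff] at ht
  have hReg : ∀ z ∈ X.Reg, z + t ∈ S := fun z hz => by
    obtain ⟨q, hq⟩ := mem_iUnion.1 hz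
    exact hUS q (hQt q 2 (by norm_num) t ht z hq).2
  have hft : Continuous fun x => f (x + t) := hf.comp (continuous_add_const t)
  obtain ⟨T, hT, hTe⟩ := Cfg.stage_G hX hp hr hCW he0 (fun q => by rw [hty]; exact hSm _) hW
    (by
      refine le_trans ?_ hed'
      rw [Finset.sum_mul]
      refine Finset.sum_le_sum fun a _ => ?_
      gcongr
      split_ifs with h
      exacts [hWd a h, zero_le]) hK0 (S := {x | x + t ∈ S}) (c0 := 0) hft
    (fun kp h1 h2 => by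
      have h3 := Cfg.tophyp hX h1 h2 (hst.shift t) hft
        (fun x hx y hy e => add_right_cancel (hi hx hy e)) hReg (μ := μ X.ρ)
        (fun x hx y hy h => hμ X.ρ hX.ρ0 _ (hReg x hx) _ (hReg y hy) (by simpa using h))
        (fun a => (hs' a).trans (min_le_left _ _))
      exact ⟨h3, top_thm hm h3⟩)
    he1 (fun a => (hs' a).trans (min_le_right _ _)) (e1 := e1)
    (fun q x hx y hy => by
      obtain ⟨a1, a2⟩ := hQt q 3 (by norm_num) t ht x hx
      obtain ⟨b1, b2⟩ := hQt q 3 (by norm_num) t ht y hy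
      refine (dist_eq_norm _ _).symm.le.trans (hδ' _ (hUS q a2) _ (hUS q b2) ?_).le
      rw [dist_eq_norm]
      have := norm_sub_le_norm_sub_add_norm_sub (x + t) (o q) (y + t)
      rw [norm_sub_rev (o q)] at this
      linarith only [hη, hη0, a1, b1, this])
    (u := fun j x => u j (x + t)) (fun j => (hu j).comp (contDiff_id.add contDiff_const))
    ((huf.comp (fun x => x + t)).mono hReg) hE
  refine ⟨fun x => T (x - t), ?_, ?_⟩
  · have := hT.comp (cc_aff (ContinuousLinearEquiv.refl ℝ (V m)) (-t))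
    simpa only [comp_def, ContinuousLinearEquiv.refl_apply, ← sub_eq_add_neg] using this
  have hQm : ∀ q, MeasurableSet (X.Qc q 1) := fun q => measurableSet_closedBall
  refine (ACo_cover hQm t (fun x hx => ?_) _).trans ?_
  · obtain ⟨q, hq⟩ := hcov x hx t ht
    exact ⟨q, by rwa [hQ, one_mul]⟩
  have h1 : ∀ q, ∫⁻ z in X.Qc q 1, (‖T (z + t - t) - f (z + t)‖ₑ ^ p +
      ‖fderiv ℝ (fun x => T (x - t)) (z + t) - D (z + t)‖ₑ ^ p) ≤
      2 ^ p * (∫⁻ z in X.Qc q 1, (‖T z - f (z + t)‖ₑ ^ p + ‖fderiv ℝ T z - (X.ty q).A‖ₑ ^ p)) +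
        2 ^ p * (aa (Aq q) + 1) * Iq q := fun q => by
    have hme : Measurable fun z => 2 ^ p * ‖D (z + t) - Aq q‖ₑ ^ p :=
      (((hD.comp (measurable_add_const t)).sub_const _).enorm.pow_const p).const_mul _
    have h2 : ∀ z, ‖T (z + t - t) - f (z + t)‖ₑ ^ p +
        ‖fderiv ℝ (fun x => T (x - t)) (z + t) - D (z + t)‖ₑ ^ p ≤
        2 ^ p * (‖T z - f (z + t)‖ₑ ^ p + ‖fderiv ℝ T z - (X.ty q).A‖ₑ ^ p) +
          2 ^ p * ‖D (z + t) - Aq q‖ₑ ^ p := fun z => by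
      rw [fderiv_comp_sub, add_sub_cancel_right, hAq, mul_add, add_assoc, ← mul_add,
        enorm_sub_rev (D (z + t))]
      refine add_le_add (le_mul_of_one_le_left' ?_) (ACo_rpow hp _ _ _)
      exact ENNReal.one_le_rpow (by norm_num) (by linarith only [hp1, hm1, hr, hr'])
    refine (lintegral_mono h2).trans ?_
    rw [lintegral_add_right _ hme, lintegral_const_mul' _ _ h2p, lintegral_const_mul' _ _ h2p,
      mul_assoc]
    gcongr
    refine (ACo_shift (hQm q) measurableSet_closedBall t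
      (fun z hz => (hQt q 1 (by norm_num) t ht z hz).2) fun y => ‖D y - Aq q‖ₑ ^ p).trans ?_
    exact le_mul_of_one_le_left' le_add_self
  refine (Finset.sum_le_sum fun q _ => h1 q).trans ?_
  rw [Finset.sum_add_distrib, ← Finset.mul_sum]
  refine (add_le_add (mul_le_mul_right hTe _) hsum').trans (le_trans ?_ hfin)
  have h3 : (Fintype.card ι : ℝ≥0∞) * ENNReal.ofReal ((2 * X.η) ^ (2 * m + 1)) ≤ volume S := by
    rw [hη']
    exact hcard.trans (measure_mono interior_subset)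
  calc _ ≤ 2 ^ p * (2 * e0 + 2 * (2 * e0) + volume S * (e0 + 4 * e0)) + e0 := by gcongr
    _ = _ := by ring

end BEp
end
end

-- merged part: Pool.Agent.Work.MP_f0515e_an.Pos.Main
section
/-! EXPORT (AN). The main theorem: section 5 of the plan. -/

open Set Metric Filter Topology Function BEv MeasureTheory
open scoped NNReal ENNReal

noncomputable section
namespace BEp

theorem main_pos {m : ℕ} (hm : 2 ≤ m) {p : ℝ≥0∞} (hp1 : (m : ℝ≥0∞) < p)
    (hp2 : p < (m : ℝ≥0∞) + 1) {Ω : Set (V m)} (hΩ : IsOpen Ω) (hb : Bornology.IsBounded Ω)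
    {c : V m} (hc : ∀ x ∈ closure Ω, ∀ t ∈ Ico (0 : ℝ) 1, c + t • (x - c) ∈ Ω)
    {f : V m → V m} {D : V m → V m →L[ℝ] V m} (hf : IsEmbedding (fun x : Ω => f x))
    (hW : MemW1p p Ω f D) :
    Approximable IsDiffeo p Ω f D ∧ Approximable IsPAHomeo p Ω f D := by
  have h1 : (1 : ℝ≥0∞) ≤ p := le_trans (by exact_mod_cast (by omega : 1 ≤ m)) hp1.le
  have h2 : p ≠ ⊤ := hp2.ne_top
  refine approx_of_cc h1 h2 hΩ hb hW fun ε hε => ?_
  rcases Ω.eq_empty_or_nonempty with rfl | hne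
  · exact ⟨id, CC.id', by simp [sdist]⟩
  have hε2 : 0 < ε / 2 := ENNReal.half_pos hε.ne'
  obtain ⟨Ω', f', D', o1, o2, o3, o4, o5, o6, o7, o8, o9, o10⟩ :=
    exists_dilate h1 h2 hΩ hb hne hc hf hW hε2
  have q1 : (m : ℝ) < p.toReal := by
    have := (ENNReal.toReal_lt_toReal (ENNReal.natCast_ne_top m) h2).2 hp1
    simpa using this
  have q2 : p.toReal < (m : ℝ) + 1 := by
    have := (ENNReal.toReal_lt_toReal h2 (by simp)).2 hp2
    rwa [ENNReal.toReal_add (by simp) (by simp), ENNReal.toReal_natCast, ENNReal.toReal_one] at this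
  obtain ⟨F, hF, hd⟩ := core_of_stmt h1 h2 (core hm q1 q2) hΩ o1 o2 o5
    (nat_htp (by omega) o3 (o1.mem_nhds o4) o6 o7) o6 o7 o8 hε2
  obtain ⟨L, hL⟩ := hF.tp.lip
  refine ⟨F, hF, (sdist_triangle h1 (memW1p_lip hb hL) o9 hW).trans ?_⟩
  exact (add_le_add hd o10).trans (ENNReal.add_halves ε).le

end BEp
end
end
end
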