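import Pool.Agent.Work.MP_f0515e_an.Pos.PLPoly

/-! EXPORT (PL). Elementary facts on cells.

Plan. `c.M` is an injective linear map between finite dimensional spaces, so it has a continuous
linear left inverse (`LinearMap.exists_leftInverse_of_injective`, `LinearMap.toContinuousLinearMap`)
and `c.φ` is a closed embedding (`image_closure_of_isCompact`, or `closure U` compact).
`infinite_bd`: a finite frontier is countable, so its complement in `Fin d → ℝ` is connected
(`Set.Countable.isPathConnected_compl_of_one_lt_rank`), but it is the disjoint union of the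
nonempty open sets `U` and `(closure U)ᶜ`.
`Strat.flat`: `O = (Z \ car)ᶜ` is open since `top_rest` is compact; the plane is
`AffineSubspace.mk' c.o (LinearMap.range c.M)`; a point `M y + o` of the plane close to
`M y0 + o` has `y` close to `y0` by `exists_inv`. -/

open Set Metric Filter Topology Function BEv
open scoped NNReal

noncomputable section
namespace BEp

variable {E : Type} [NormedAddCommGroup E] [NormedSpace ℝ E] [FiniteDimensional ℝ E] {d : ℕ}

theorem Cell.cont (c : Cell d E) : Continuous c.φ := c.M.continuous.add continuous_const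

theorem Cell.injective (c : Cell d E) : Injective c.φ := fun _ _ h => c.inj (add_right_cancel h)

theorem Cell.closure_car (c : Cell d E) : closure c.car = c.cl :=
  (image_closure_of_isCompact c.bdd.isCompact_closure c.cont.continuousOn).symm

theorem Cell.cl_eq (c : Cell d E) : c.cl = c.car ∪ c.bd := by
  rw [Cell.cl, closure_eq_self_union_frontier, image_union]
  rfl

theorem Cell.compact_cl (c : Cell d E) : IsCompact c.cl := c.bdd.isCompact_closure.image c.cont

theorem Cell.compact_bd (c : Cell d E) : IsCompact c.bd :=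
  (c.bdd.isCompact_closure.of_isClosed_subset isClosed_frontier frontier_subset_closure).image
    c.cont

theorem PLCell_rank (c : Cell d E) : Module.finrank ℝ
    (AffineSubspace.mk' c.o (LinearMap.range (c.M : (Fin d → ℝ) →ₗ[ℝ] E))).direction = d := by
  rw [AffineSubspace.direction_mk', LinearMap.finrank_range_of_inj c.inj, Module.finrank_fin_fun]

theorem PLCell_mem (c : Cell d E) {z : E} :
    z ∈ AffineSubspace.mk' c.o (LinearMap.range (c.M : (Fin d → ℝ) →ₗ[ℝ] E)) ↔ ∃ y, c.φ y = z :=
  AffineSubspace.mem_mk'.trans (exists_congr fun _ => eq_sub_iff_add_eq)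

theorem Cell.pc_cl (c : Cell d E) : PC d c.cl := by
  refine ⟨_, finite_singleton _, forall_eq.2 (PLCell_rank c).le, ?_⟩
  rintro _ ⟨y, -, rfl⟩
  exact ⟨_, rfl, (PLCell_mem c).2 ⟨y, rfl⟩⟩

theorem Cell.disj_car_bd (c : Cell d E) : Disjoint c.car c.bd :=
  (disjoint_image_iff c.injective).2 (disjoint_iff_inter_eq_empty.2 c.op.inter_frontier_eq)

theorem Cell.bd_eq (c : Cell d E) : c.bd = c.cl \ c.car := by
  rw [Cell.bd, c.op.frontier_eq, image_diff c.injective]
  rfl

theorem Cell.convex_car (c : Cell d E) : Convex ℝ c.car := by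
  have h := (c.conv.linear_image (c.M : (Fin d → ℝ) →ₗ[ℝ] E)).translate c.o
  rw [image_image] at h
  simp only [add_comm c.o] at h
  exact h

theorem Cell.car_nonempty (c : Cell d E) : c.car.Nonempty := c.ne.image _

/-- A continuous linear left inverse of the chart. -/
theorem Cell.exists_inv (c : Cell d E) :
    ∃ N : E →L[ℝ] (Fin d → ℝ), ∀ y, N (c.φ y - c.o) = y := by
  obtain ⟨N, hN⟩ := LinearMap.exists_leftInverse_of_injective (c.M : (Fin d → ℝ) →ₗ[ℝ] E)
    (LinearMap.ker_eq_bot.2 c.inj)
  refine ⟨LinearMap.toContinuousLinearMap N, fun y => ?_⟩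
  rw [Cell.φ, add_sub_cancel_right]
  exact LinearMap.congr_fun hN y

theorem Cell.infinite_bd (c : Cell d E) (hd : 2 ≤ d) : c.bd.Infinite := fun h => by
  have h1 : (frontier c.U).Finite := h.of_finite_image c.injective.injOn
  have h2 : 1 < Module.rank ℝ (Fin d → ℝ) := by
    rw [rank_fin_fun]
    exact_mod_cast hd
  have : Nontrivial (Fin d → ℝ) := (rank_pos_iff_nontrivial (R := ℝ)).1 (zero_lt_one.trans h2)
  obtain ⟨y, hy⟩ := c.ne
  have h3 := (h1.countable.isPathConnected_compl_of_one_lt_rank h2).isConnected.isPreconnected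
    |>.subset_left_of_subset_union c.op isClosed_closure.isOpen_compl
      (disjoint_compl_right_iff_subset.2 subset_closure)
      (fun x hx => by
        by_contra h4
        exact hx (c.op.frontier_eq ▸ ⟨not_not.1 fun h5 => h4 (Or.inr h5), fun h5 => h4 (Or.inl h5)⟩))
      ⟨y, fun h4 => (c.op.frontier_eq ▸ h4).2 hy, hy⟩
  refine NormedSpace.unbounded_univ ℝ (Fin d → ℝ) (c.bdd.closure.subset fun x _ => ?_)
  by_cases h4 : x ∈ frontier c.U
  · exact frontier_subset_closure h4
  · exact subset_closure (h3 h4)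

theorem Strat.flat {m : ℕ} {Z C : Set E} (st : Strat m Z) (hC : C ⊆ st.Z1) (i : Fin st.nT) :
    Flat m Z C (st.top i).car := by
  have h1 := st.top_sub i
  refine ⟨(st.top i).convex_car, disjoint_left.2 fun x hx hx' => (h1 hx).2 (hC hx'),
    ⟨_, (st.top_rest i).1.isClosed.isOpen_compl, ?_⟩, _, PLCell_rank (st.top i), ?_, ?_⟩
  · ext x
    exact ⟨fun hx => ⟨(h1 hx).1, fun h => h.2 hx⟩, fun hx => not_not.1 fun h => hx.2 ⟨hx.1, h⟩⟩
  · rintro _ ⟨y, -, rfl⟩
    exact (PLCell_mem _).2 ⟨y, rfl⟩
  · rintro _ ⟨y, hy, rfl⟩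
    obtain ⟨N, hN⟩ := (st.top i).exists_inv
    have h2 : IsOpen {z | N (z - (st.top i).o) ∈ (st.top i).U} :=
      (st.top i).op.preimage (by fun_prop)
    obtain ⟨ε, hε, h3⟩ := Metric.isOpen_iff.1 h2 ((st.top i).φ y) (by rwa [mem_ofPred_eq, hN])
    refine ⟨ε, hε, fun z hz => ?_⟩
    obtain ⟨y', rfl⟩ := (PLCell_mem _).1 hz.1
    exact ⟨y', hN y' ▸ h3 hz.2, rfl⟩

end BEp
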