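import Pool.Agent.Work.MP_f0515e_an.Pos.PLSG
import Pool.Agent.Work.MP_f0515e_an.Pos.PLPoly

/-!
EXPORT (PL). Isotopy extension.

Plan.  `ie`, local step at `r₀`: extend `lam j` along `u r₀` (`Poly.ext`), clamp it by `L * cut`; put
`d r z = ∑ j, lam' j z • (w r j - w r₀ j)`; for `|r - r₀| < δ` it is Lipschitz with constant
`ε' ≤ min (1/2) (ε/4)` and `(id + d r) (u r₀ x) = u r x`.  For `s, r` near `r₀` the factor
`(d r - d s) ∘ invFun (id + d s)` is `Fac ε H cut` and moves `u s x` to `u r x`.  Let `A s` say that `Φ`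
exists for `r ∈ Icc 0 s`; if `A s` and `s ≤ s'` near `r₀`, then
`Φ' (z, r) = y + (d (max s (min r s')) - d s) (invFun (id + d s) y)` with `y = Φ (z, min r s)` proves
`A s'`.  Conclude with `IsPreconnected.induction₂'` on `Icc 0 1`.
`ie_germ`: `cut z = max 0 (dcap (φ0 '' C) 1 z - δ)`; by compactness of `Icc 0 1 ×ˢ (X \ O)` a point with
`‖u r x - φ0 c‖ ≤ δ` has `lam j x = 0`, then `Poly.loj`.
`sg_of_segment`: `X = closedBall 0 R`, `cut z = max 0 (R - ‖z‖)`, `lam j = (T - id) j`, `w r j = r • e j`.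
`eqv_line`: `lam j = (b - a) j`, `w r j = r • e j`.  `eqv_vert`: `eqv_line`, apply `l` to a coincidence.
-/

open Set Metric Filter Topology Function BEv
open scoped NNReal

noncomputable section
namespace BEp

variable {n n' : ℕ} {κ : Type} [Fintype κ]

/-- The local step, from functions that extend the coefficients. -/
theorem PLIE0_loc {l : κ → (Fin n' → ℝ) → ℝ} (hl : ∀ j, TP (l j)) {w : ℝ → κ → Fin n' → ℝ}
    (hw : Continuous w) (r₀ : ℝ) {cut : (Fin n' → ℝ) → ℝ} (hc : ∀ j z, cut z = 0 → l j z = 0)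
    (H : Submodule ℝ (Fin n' → ℝ)) (hH : ∀ r r' j, w r j - w r' j ∈ H) {ε : ℝ≥0} (hε : 0 < ε) :
    ∃ δ > 0, ∀ s, |s - r₀| < δ → ∃ e : (Fin n' → ℝ) × ℝ → Fin n' → ℝ, Continuous e ∧
      (∀ z, e (z, s) = 0) ∧ ∀ r, |r - r₀| < δ → Fac ε H cut (fun z => e (z, r)) ∧
        ∀ z, e (z + ∑ j, l j z • (w s j - w r₀ j), r) = ∑ j, l j z • (w r j - w s j) := by
  choose L hL1 hL using fun j => (hl j).exists_bound
  have hε' : 0 < min (1 / 2 : ℝ) (ε / 4) := lt_min (by norm_num) (div_pos hε four_pos)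
  have hcont : Continuous fun r => ∑ j, L j * ‖w r j - w r₀ j‖ := by fun_prop
  obtain ⟨δ, hδ, h1⟩ := Metric.continuousAt_iff.1 (hcont.continuousAt (x := r₀)) _ hε'
  let d : ℝ → (Fin n' → ℝ) → Fin n' → ℝ := fun r z => ∑ j, l j z • (w r j - w r₀ j)
  have hd : ∀ r, |r - r₀| < δ → ∀ x y, ‖d r x - d r y‖ ≤ min (1 / 2 : ℝ) (ε / 4) * ‖x - y‖ := by
    intro r hr x y
    have h2 := h1 (x := r) hr
    simp only [sub_self, norm_zero, mul_zero, Finset.sum_const_zero, dist_zero_right] at h2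
    refine le_trans ?_ (mul_le_mul_of_nonneg_right ((le_abs_self _).trans h2.le) (norm_nonneg _))
    rw [← Finset.sum_sub_distrib, Finset.sum_mul]
    refine norm_sum_le_of_le _ fun j _ => ?_
    rw [← sub_smul, norm_smul, mul_right_comm]
    exact mul_le_mul_of_nonneg_right (hL j x y) (norm_nonneg _)
  refine ⟨δ, hδ, fun s hs => ?_⟩
  have h3 : ∀ x y, ‖d s x - d s y‖ ≤ 1 / 2 * ‖x - y‖ := fun x y =>
    (hd s hs x y).trans (mul_le_mul_of_nonneg_right (min_le_left _ _) (norm_nonneg _))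
  have hf : LH fun z => z + d s z := SG.lh (Word.step Word.id
    ⟨TP.sum _ fun j _ => (hl j).smul_const _, 1 / 2, by norm_num,
      LipschitzWith.of_dist_le_mul fun x y => by simpa [dist_eq_norm] using h3 x y⟩)
  set G := invFun fun z => z + d s z with hG
  have h4 : ∀ x y, ‖G x - G y‖ ≤ 2 * ‖x - y‖ := by
    intro x y
    have e1 : G x - G y = x - y - (d s (G x) - d s (G y)) := by
      have k1 : G x + d s (G x) = x := hf.ri x
      have k2 : G y + d s (G y) = y := hf.ri y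
      linear_combination (exp := 1) k1 - k2
    have k3 := norm_sub_le (x - y) (d s (G x) - d s (G y))
    rw [← e1] at k3
    linarith [h3 (G x) (G y)]
  have h5 : ∀ j, TP fun z => l j (G z) := fun j => (hl j).comp hf.tpi
  refine ⟨fun p => ∑ j, l j (G p.1) • (w p.2 j - w s j), ?_, fun z => by simp,
    fun r hr => ⟨⟨TP.sum _ fun j _ => (h5 j).smul_const (w r j - w s j), ?_,
      fun z => H.sum_mem fun j _ => H.smul_mem _ (hH _ _ _), fun z hz => ?_⟩, fun z => ?_⟩⟩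
  · have := fun j => (h5 j).continuous
    refine continuous_finsetSum _ fun j _ => ((this j).comp continuous_fst).smul ?_
    fun_prop
  · refine LipschitzWith.of_dist_le_mul fun x y => ?_
    have e1 : ∀ z, ∑ j, l j z • (w r j - w s j) = d r z - d s z := fun z => by
      simp only [d, ← Finset.sum_sub_distrib, ← smul_sub, sub_sub_sub_cancel_right]
    simp only [e1, dist_eq_norm]
    rw [sub_sub_sub_comm]
    have k1 := hd r hr (G x) (G y)
    have k2 := hd s hs (G x) (G y)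
    have k3 := mul_le_mul (min_le_right (1 / 2 : ℝ) (ε / 4)) (h4 x y) (norm_nonneg _)
      (by positivity)
    linarith [norm_sub_le (d r (G x) - d r (G y)) (d s (G x) - d s (G y))]
  · have e1 : G z = z := hf.inv_eq (by simp [d, hc _ z hz])
    simp [e1, hc _ z hz]
  · have e1 : G (z + ∑ j, l j z • (w s j - w r₀ j)) = z := hf.li z
    simp only [e1]

theorem ie {X : Set (Fin n → ℝ)} (hX : Poly X) {φ0 : (Fin n → ℝ) → Fin n' → ℝ} (h0 : TP φ0)
    {lam : κ → (Fin n → ℝ) → ℝ} (hl : ∀ j, TP (lam j)) {w : ℝ → κ → Fin n' → ℝ}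
    (hw : Continuous w) (hi : ∀ r ∈ Icc (0 : ℝ) 1, InjOn (fam φ0 lam (w r)) X)
    {cut : (Fin n' → ℝ) → ℝ} (hc : TP cut) (hc0 : ∀ z, 0 ≤ cut z)
    (hcut : ∀ r ∈ Icc (0 : ℝ) 1, ∃ L : ℝ, ∀ x ∈ X, ∀ j,
      |lam j x| ≤ L * cut (fam φ0 lam (w r) x))
    (H : Submodule ℝ (Fin n' → ℝ)) (hH : ∀ r r' j, w r j - w r' j ∈ H) {ε : ℝ≥0} (hε : 0 < ε) :
    ∃ Φ : (Fin n' → ℝ) × ℝ → Fin n' → ℝ, Continuous Φ ∧ (∀ z, Φ (z, 0) = z) ∧
      ∀ r ∈ Icc (0 : ℝ) 1, Word (Fac ε H cut) (fun z => Φ (z, r)) ∧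
        ∀ x ∈ X, Φ (fam φ0 lam (w 0) x, r) = fam φ0 lam (w r) x := by
  let A : ℝ → Prop := fun s => ∃ Φ : (Fin n' → ℝ) × ℝ → Fin n' → ℝ, Continuous Φ ∧
    (∀ z, Φ (z, 0) = z) ∧ ∀ r ∈ Icc (0 : ℝ) s, Word (Fac ε H cut) (fun z => Φ (z, r)) ∧
      ∀ x ∈ X, Φ (fam φ0 lam (w 0) x, r) = fam φ0 lam (w r) x
  have hA : A 0 := ⟨Prod.fst, continuous_fst, fun _ => rfl, fun r hr =>
    ⟨Word.id, fun x _ => by rw [le_antisymm hr.2 hr.1]⟩⟩
  have key : ∀ r₀ ∈ Icc (0 : ℝ) 1, ∃ δ > 0, ∀ s s', 0 ≤ s → |s - r₀| < δ → |s' - r₀| < δ →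
      A s → A s' := by
    intro r₀ hr₀
    have hu : TP (fam φ0 lam (w r₀)) := h0.add (TP.sum _ fun j _ => (hl j).smul_const _)
    choose l hl1 hl2 using fun j => hX.ext hu (hi r₀ hr₀) (hl j)
    obtain ⟨L, hL⟩ := hcut r₀ hr₀
    obtain ⟨δ, hδ, h⟩ := PLIE0_loc (l := fun j z => clamp (l j z) (L * cut z)) (cut := cut)
      (fun j => (hl1 j).clamp (hc.const_mul L)) hw r₀
      (fun j z hz => by simp only [hz, mul_zero, clamp_zero]) H hH hε
    refine ⟨δ, hδ, fun s s' h1 h2 h3 ⟨Φ, c1, c2, c3⟩ => ?_⟩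
    obtain ⟨e, e1, e2, e3⟩ := h s h2
    have mv : ∀ r, |r - r₀| < δ → ∀ x ∈ X,
        fam φ0 lam (w s) x + e (fam φ0 lam (w s) x, r) = fam φ0 lam (w r) x := by
      intro r hr x hx
      have k1 := (e3 r hr).2 (fam φ0 lam (w r₀) x)
      have k2 : ∀ j, clamp (l j (fam φ0 lam (w r₀) x)) (L * cut (fam φ0 lam (w r₀) x)) = lam j x :=
        fun j => by rw [hl2 j x hx, clamp_eq_self (hL x hx j)]
      have k3 : ∀ a b, fam φ0 lam (w a) x + ∑ j, lam j x • (w b j - w a j) = fam φ0 lam (w b) x :=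
        fun a b => by simp only [fam, smul_sub, Finset.sum_sub_distrib, add_add_sub_cancel]
      simp only [k2, k3] at k1
      rw [k1, k3]
    refine ⟨fun p => Φ (p.1, min p.2 s) + e (Φ (p.1, min p.2 s), max s p.2), by fun_prop,
      fun z => by simp only [min_eq_left h1, max_eq_left h1, c2, e2, add_zero], fun r hr => ?_⟩
    have k1 := c3 (min r s) ⟨le_min hr.1 h1, min_le_right _ _⟩
    have k2 : |max s r - r₀| < δ := by
      rcases le_total r s with k | k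
      · rwa [max_eq_left k]
      · rw [max_eq_right k, abs_lt]
        exact ⟨by linarith [(abs_lt.1 h2).1], by linarith [(abs_lt.1 h3).2, hr.2]⟩
    refine ⟨Word.step k1.1 (e3 _ k2).1, fun x hx => ?_⟩
    simp only [k1.2 x hx]
    rcases le_total r s with k | k
    · rw [min_eq_left k, max_eq_left k, e2, add_zero]
    · rw [max_eq_right k] at k2 ⊢
      rw [min_eq_right k, mv r k2 x hx]
  refine isPreconnected_Icc.induction₂' (fun s s' => A s → A s') (fun r hr => ?_)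
    (fun _ _ _ _ _ _ h h' => h' ∘ h) (left_mem_Icc.2 zero_le_one) (right_mem_Icc.2 zero_le_one) hA
  obtain ⟨δ, hδ, h⟩ := key r hr
  have k : |r - r| < δ := by simpa using hδ
  filter_upwards [self_mem_nhdsWithin, mem_nhdsWithin_of_mem_nhds (ball_mem_nhds r hδ)] with s h1 h2
  exact ⟨h r s hr.1 k h2, h s r h1.1 h2 k⟩

end BEp
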