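import Pool.Agent.Work.MP_f0515e_an.Pos.PLSm

/-!
EXPORT (PL). Polyhedra, part 1.

Plan.  `min_zero`: let `G (y, s)` be the minimum over the ball of `max |D x| (Φ (y, x) - s)`
(`pamin_cube`), a `TP` function which is `0` iff `ψ y ≤ s` and positive otherwise, where `ψ y` is the
minimum of `Φ (y, ·)` on the compact zero set (`IsCompact.exists_isMinOn`).  `ψ` is Lipschitz with the
constant of `Φ`.  By `pamin_side` along `s ↑ ψ y` a piece `A` of `G` satisfies `A (y, ψ y) = 0` and is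
frequently positive, so `A.1 (0, 1) ≠ 0` and `ψ y = -(A.1 (y, 0) + A.2) / A.1 (0, 1)`: a selection of
finitely many affine maps on every ball.
`poly_zero`: `min_zero` with `Φ (y, x) = ‖y - x‖` (empty set: `infDist_empty`).
`Poly.eq_zero` reduces all the other statements to `poly_zero` (`min`, `max`, sums of the functions);
`Poly.image`: `D' y` is the minimum over `X` of `‖y - u x‖` (`Poly.exists_min`).
-/

open Set Metric Filter Topology Function BEv
open scoped NNReal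

noncomputable section
namespace BEp

variable {n n' : ℕ} {F : Type} [NormedAddCommGroup F] [NormedSpace ℝ F] [FiniteDimensional ℝ F]

theorem pl1_cpt {D : (Fin n → ℝ) → ℝ} (hD : TP D) (R : ℝ) :
    IsCompact {x | ‖x‖ ≤ R ∧ D x = 0} :=
  (isCompact_closedBall 0 R).of_isClosed_subset
    ((isClosed_le continuous_norm continuous_const).inter
      (isClosed_eq hD.continuous continuous_const)) fun _ hx => mem_closedBall_zero_iff.2 hx.1

theorem pl1_inf {X : Set (Fin n → ℝ)} {u : (Fin n → ℝ) → Fin n' → ℝ} {ψ : (Fin n' → ℝ) → ℝ}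
    (h : pamin_Is X (fun p => ‖p.1 - u p.2‖) ψ) : (fun y => infDist y (u '' X)) = ψ := by
  funext y
  obtain ⟨x, hx, e⟩ := (h y).2
  refine le_antisymm ((infDist_le_dist_of_mem (mem_image_of_mem u hx)).trans_eq ?_)
    ((le_infDist ⟨_, mem_image_of_mem u hx⟩).2 ?_)
  · rw [e, dist_eq_norm]
  · rintro _ ⟨z, hz, rfl⟩
    rw [dist_eq_norm]
    exact (h y).1 z hz

theorem min_zero {Y : Type} [NormedAddCommGroup Y] [NormedSpace ℝ Y] {D : (Fin n → ℝ) → ℝ}
    (hD : TP D) (R : ℝ) (hne : ∃ x, ‖x‖ ≤ R ∧ D x = 0) {Φ : Y × (Fin n → ℝ) → ℝ} (hΦ : TP Φ) :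
    ∃ ψ : Y → ℝ, TP ψ ∧ pamin_Is {x | ‖x‖ ≤ R ∧ D x = 0} Φ ψ := by
  have hR : 0 ≤ R := hne.elim fun x hx => (norm_nonneg x).trans hx.1
  have hc : ∀ y, Continuous fun x => Φ (y, x) := fun y => hΦ.continuous.comp (by fun_prop)
  choose τ hτ hm using fun y => (pl1_cpt hD R).exists_isMinOn hne (hc y).continuousOn
  obtain ⟨G, hG, hG'⟩ := pamin_cube hR n (Y × ℝ) (fun p => max |D p.2| (Φ (p.1.1, p.2) - p.1.2))
    ((hD.comp TP.id'.snd).abs.max
      ((hΦ.comp (TP.id'.fst.fst.prod TP.id'.snd)).sub TP.id'.fst.snd))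
  have g0 : ∀ y, G (y, Φ (y, τ y)) = 0 := fun y => by
    obtain ⟨x, -, e⟩ := (hG' (y, Φ (y, τ y))).2
    refine le_antisymm ?_ (e ▸ le_max_of_le_left (abs_nonneg _))
    simpa [(hτ y).2] using (hG' (y, Φ (y, τ y))).1 (τ y) (mem_closedBall_zero_iff.2 (hτ y).1)
  have g1 : ∀ y s, s < Φ (y, τ y) → 0 < G (y, s) := fun y s hs => by
    obtain ⟨x, hx, e⟩ := (hG' (y, s)).2
    rw [e]
    by_cases h : D x = 0
    · exact lt_max_of_lt_right
        (sub_pos.2 (hs.trans_le (hm y ⟨mem_closedBall_zero_iff.1 hx, h⟩)))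
    · exact lt_max_of_lt_left (abs_pos.2 h)
  obtain ⟨L, hL⟩ := hΦ.lip
  have hl : LipschitzWith L fun y => Φ (y, τ y) :=
    LipschitzWith.of_le_add_mul L fun y y' => (hm y (hτ y')).trans
      (by simpa using hL.le_add_mul (y, τ y') (y', τ y'))
  refine ⟨fun y => Φ (y, τ y), TP.of_select ⟨L, hl⟩ fun ρ => ?_,
    fun y => ⟨fun x hx => hm y hx, τ y, hτ y, rfl⟩⟩
  obtain ⟨S, hS, hp⟩ := hG.pa (max ρ (|Φ (0, τ 0)| + L * ρ + 1))
  let v : ((Y × ℝ →L[ℝ] ℝ) × ℝ) → Y → ℝ := fun A y => A.1 (y, 0) + A.2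
  have hv : ∀ A, TP (v A) := fun A =>
    ((TP.clm A.1).comp (TP.id'.prod (TP.const 0))).add (TP.const _)
  have hA : ∀ (A : (Y × ℝ →L[ℝ] ℝ) × ℝ) y t, A.1 (y, t) + A.2 = v A y + t * A.1 (0, 1) := by
    intro A y t
    rw [show (y, t) = (y, 0) + t • ((0 : Y), (1 : ℝ)) by simp, map_add, map_smul, smul_eq_mul]
    ring
  refine ⟨(fun A y => -v A y / A.1 (0, 1)) '' S, hS.image _, ?_, fun y hy => ?_⟩
  · rintro g ⟨A, -, rfl⟩
    exact (hv A).neg.div_const _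
  have hb : |Φ (y, τ y)| ≤ |Φ (0, τ 0)| + L * ρ := by
    have h1 := hl.dist_le_mul_of_le (mem_closedBall.1 hy)
    rw [Real.dist_eq] at h1
    linarith [abs_sub_abs_le_abs_sub (Φ (y, τ y)) (Φ (0, τ 0))]
  have e : ∀ᶠ t in 𝓝 (Φ (y, τ y)), ∃ A ∈ S, G (y, t) = v A y + t * A.1 (0, 1) := by
    filter_upwards [closedBall_mem_nhds (Φ (y, τ y)) one_pos] with t ht
    rw [mem_closedBall, Real.dist_eq] at ht
    have h1 : |t| ≤ |Φ (0, τ 0)| + L * ρ + 1 := by
      linarith [abs_sub_abs_le_abs_sub t (Φ (y, τ y))]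
    obtain ⟨A, a, b⟩ := hp (y, t)
      (mem_closedBall_zero_iff.2 (max_le_max (mem_closedBall_zero_iff.1 hy) h1))
    exact ⟨A, a, b.trans (hA A y t)⟩
  obtain ⟨A, hAS, a1, a2⟩ := pamin_side (l := 𝓝[<] Φ (y, τ y)) (g := fun t => G (y, t)) hS
    (hG.continuous.comp (by fun_prop)) (fun A => by fun_prop) nhdsWithin_le_nhds
    (e.filter_mono nhdsWithin_le_nhds)
  obtain ⟨s, s1, s2⟩ := (a2.and_eventually self_mem_nhdsWithin).exists
  have s3 := g1 y s s2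
  rw [g0] at a1
  have ha : A.1 (0, 1) ≠ 0 := fun h => by
    rw [h, mul_zero] at a1 s1
    linarith
  refine ⟨_, ⟨A, hAS, rfl⟩, ?_⟩
  rw [eq_div_iff ha]
  linarith

/-- A polyhedron is the zero set in a ball of a nonnegative piecewise affine function. -/
theorem Poly.eq_zero {X : Set (Fin n → ℝ)} (hX : Poly X) : ∃ (D : (Fin n → ℝ) → ℝ) (R : ℝ),
    TP D ∧ 0 ≤ R ∧ (∀ x, 0 ≤ D x) ∧ (∀ x, x ∈ X ↔ D x = 0) ∧ ∀ x ∈ X, ‖x‖ ≤ R := by
  rcases X.eq_empty_or_nonempty with rfl | hne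
  · exact ⟨fun _ => 1, 0, TP.const _, le_rfl, fun _ => zero_le_one, by simp, by simp⟩
  obtain ⟨R, hR⟩ := hX.1.isBounded.exists_norm_le
  exact ⟨_, R, hX.2, hne.elim fun x hx => (norm_nonneg x).trans (hR x hx), fun _ => infDist_nonneg,
    fun _ => hX.1.isClosed.mem_iff_infDist_zero hne, hR⟩

theorem Poly.exists_min {Y : Type} [NormedAddCommGroup Y] [NormedSpace ℝ Y]
    {X : Set (Fin n → ℝ)} (hX : Poly X) (hne : X.Nonempty) {Φ : Y × (Fin n → ℝ) → ℝ} (hΦ : TP Φ) :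
    ∃ ψ : Y → ℝ, TP ψ ∧ pamin_Is X Φ ψ := by
  obtain ⟨D, R, h1, -, -, h2, h3⟩ := hX.eq_zero
  have e : X = {x | ‖x‖ ≤ R ∧ D x = 0} :=
    Set.ext fun x => ⟨fun h => ⟨h3 x h, (h2 x).1 h⟩, fun h => (h2 x).2 h.2⟩
  rw [e] at hne ⊢
  exact min_zero h1 R hne hΦ

theorem poly_zero {D : (Fin n → ℝ) → ℝ} (hD : TP D) (R : ℝ) :
    Poly {x | ‖x‖ ≤ R ∧ D x = 0} := by
  refine ⟨pl1_cpt hD R, ?_⟩
  rcases {x | ‖x‖ ≤ R ∧ D x = 0}.eq_empty_or_nonempty with e | hne
  · simpa [e] using TP.const (0 : ℝ)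
  obtain ⟨ψ, h1, h2⟩ := min_zero hD R hne (TP.id'.fst.sub TP.id'.snd).norm_pi
  have := pl1_inf (u := id) h2
  rw [image_id] at this
  rwa [this]

theorem poly_le {X : Set (Fin n → ℝ)} (hX : Poly X) {D : (Fin n → ℝ) → ℝ} (hD : TP D) :
    Poly {x ∈ X | D x ≤ 0} := by
  obtain ⟨D', R, h1, -, h0, h2, h3⟩ := hX.eq_zero
  convert poly_zero (h1.max hD) R using 1
  ext x
  refine ⟨fun h => ⟨h3 x h.1, ?_⟩, fun h => ⟨(h2 x).2 (le_antisymm ?_ (h0 x)), ?_⟩⟩
  · rw [(h2 x).1 h.1, max_eq_left h.2]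
  · exact (le_max_left _ _).trans h.2.le
  · exact (le_max_right _ _).trans h.2.le

theorem Poly.empty : Poly (∅ : Set (Fin n → ℝ)) := ⟨isCompact_empty, by simpa using TP.const (0 : ℝ)⟩

theorem Poly.closedBall (c : Fin n → ℝ) (R : ℝ) : Poly (closedBall c R) := by
  convert poly_zero (((TP.id'.sub (TP.const c)).norm_pi.sub (TP.const R)).max (TP.const 0))
    (‖c‖ + R) using 1
  ext x
  rw [mem_closedBall_iff_norm]
  refine ⟨fun h => ⟨?_, max_eq_right (sub_nonpos.2 h)⟩,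
    fun h => sub_nonpos.1 ((le_max_left _ _).trans h.2.le)⟩
  linarith [norm_sub_norm_le x c]

theorem Poly.union {X Y : Set (Fin n → ℝ)} (hX : Poly X) (hY : Poly Y) : Poly (X ∪ Y) := by
  obtain ⟨D, R, h1, -, -, h2, h3⟩ := hX.eq_zero
  obtain ⟨D', R', h1', -, -, h2', h3'⟩ := hY.eq_zero
  convert poly_zero (h1.abs.min h1'.abs) (max R R') using 1
  ext x
  constructor
  · rintro (h | h)
    · exact ⟨le_max_of_le_left (h3 x h), by simp [(h2 x).1 h]⟩
    · exact ⟨le_max_of_le_right (h3' x h), by simp [(h2' x).1 h]⟩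
  · intro h
    rcases min_choice |D x| |D' x| with e | e
    · exact Or.inl ((h2 x).2 (abs_eq_zero.1 (e.symm.trans h.2)))
    · exact Or.inr ((h2' x).2 (abs_eq_zero.1 (e.symm.trans h.2)))

theorem Poly.biUnion {κ : Type} {S : Set κ} (hS : S.Finite) {X : κ → Set (Fin n → ℝ)}
    (h : ∀ k ∈ S, Poly (X k)) : Poly (⋃ k ∈ S, X k) := by
  induction S, hS using Set.Finite.induction_on with
  | empty => simpa using Poly.empty
  | insert _ _ ih =>
    rw [biUnion_insert]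
    exact (h _ (mem_insert _ _)).union (ih fun k hk => h k (mem_insert_of_mem _ hk))

theorem Poly.finite {X : Set (Fin n → ℝ)} (h : X.Finite) : Poly X := by
  simpa using Poly.biUnion h fun c _ => Poly.closedBall c 0

theorem Poly.inter {X Y : Set (Fin n → ℝ)} (hX : Poly X) (hY : Poly Y) : Poly (X ∩ Y) := by
  obtain ⟨D, R, h1, -, h0, h2, -⟩ := hY.eq_zero
  convert poly_le hX h1 using 1
  ext x
  exact and_congr_right fun _ => (h2 x).trans ⟨Eq.le, fun h => le_antisymm h (h0 x)⟩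

theorem Poly.image {X : Set (Fin n → ℝ)} (hX : Poly X) {u : (Fin n → ℝ) → Fin n' → ℝ}
    (hu : TP u) : Poly (u '' X) := by
  rcases X.eq_empty_or_nonempty with rfl | hne
  · simpa using Poly.empty
  obtain ⟨ψ, h1, h2⟩ := hX.exists_min hne (TP.id'.fst.sub (hu.comp TP.id'.snd)).norm_pi
  exact ⟨hX.1.image hu.continuous, by rwa [pl1_inf h2]⟩

end BEp
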