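import Pool.Agent.Work.MP_f0515e_an.Pos.PLCell

/-! Faces of an arrangement of affine functionals: definitions. -/

open Set Metric Filter Topology Function BEv
open scoped NNReal

noncomputable section
namespace BEp

variable {E : Type} [NormedAddCommGroup E] [NormedSpace ℝ E]

/-- Value of an affine functional. -/
def ev (A : (E →L[ℝ] ℝ) × ℝ) (x : E) : ℝ := A.1 x + A.2

/-- The open face of the arrangement `L` through `x`. -/
def face (L : Set ((E →L[ℝ] ℝ) × ℝ)) (x : E) : Set E :=
  {y | ∀ A ∈ L, SignType.sign (ev A y) = SignType.sign (ev A x)}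

/-- The closed face of the arrangement `L` through `x`. -/
def cface (L : Set ((E →L[ℝ] ℝ) × ℝ)) (x : E) : Set E :=
  {y | ∀ A ∈ L, ev A y = 0 ∨ SignType.sign (ev A y) = SignType.sign (ev A x)}

/-- The direction space of the face through `x`. -/
def fdir (L : Set ((E →L[ℝ] ℝ) × ℝ)) (x : E) : Submodule ℝ E where
  carrier := {ξ | ∀ A ∈ L, ev A x = 0 → A.1 ξ = 0}
  add_mem' := fun {a b} ha hb A hA h => by rw [map_add, ha A hA h, hb A hA h, add_zero]
  zero_mem' := fun A _ _ => map_zero _
  smul_mem' := fun c a ha A hA h => by rw [map_smul, ha A hA h, smul_zero]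

/-- The dimension of the face through `x`. -/
def fdim (L : Set ((E →L[ℝ] ℝ) × ℝ)) (x : E) : ℕ := Module.finrank ℝ (fdir L x)

theorem mem_fdir {L : Set ((E →L[ℝ] ℝ) × ℝ)} {x ξ : E} :
    ξ ∈ fdir L x ↔ ∀ A ∈ L, ev A x = 0 → A.1 ξ = 0 := Iff.rfl

end BEp
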