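import Pool.Agent.Work.MP_f0515e_an.Pos.PLSt0

/-! Faces of an arrangement: order and topology.

Plan. Everything is case analysis on the sign of `ev A x` (`sign_eq_zero_iff`, `sign_eq_one_iff`,
`sign_eq_neg_one_iff`); `ev A (a • y + b • z) = a * ev A y + b * ev A z` when `a + b = 1`.
`closure_face`: `cface` is an intersection of closed half spaces and hyperplanes; for
`y ∈ cface L x` the points `y + t • (x - y)`, `0 < t ≤ 1`, lie in `face L x`.
`face_open`: finitely many strict inequalities persist near `y`; the equalities hold on the plane.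
`fdim_lt`: `fdir L y ≤ fdir L x`, and `x - y` lies in the larger space only
(`Submodule.finrank_lt_finrank_of_lt`).
`finite_faces`: `face L x` depends only on the function `A : L ↦ sign (ev A x)`, a finite type. -/

open Set Metric Filter Topology Function BEv
open scoped NNReal

noncomputable section
namespace BEp

variable {E : Type} [NormedAddCommGroup E] [NormedSpace ℝ E] [FiniteDimensional ℝ E]
  {L : Set ((E →L[ℝ] ℝ) × ℝ)} {x y : E}

theorem St1_iff {u v : ℝ} : u = 0 ∨ SignType.sign u = SignType.sign v ↔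
    (v < 0 → u ≤ 0) ∧ (v = 0 → u = 0) ∧ (0 < v → 0 ≤ u) := by
  rcases lt_trichotomy v 0 with h | rfl | h
  · rw [sign_neg h, sign_eq_neg_one_iff, ← le_iff_eq_or_lt]
    simp [h, h.ne, h.not_gt]
  · simp
  · rw [sign_pos h, sign_eq_one_iff, eq_comm, ← le_iff_eq_or_lt]
    simp [h, h.ne', h.not_gt]

theorem St1_mix {u v a b : ℝ} (h : u = 0 ∨ SignType.sign u = SignType.sign v) (ha : 0 ≤ a)
    (hb : 0 < b) : SignType.sign (a * u + b * v) = SignType.sign v := by
  obtain ⟨h1, h2, h3⟩ := St1_iff.1 h
  rcases lt_trichotomy v 0 with k | k | k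
  · rw [sign_neg k, sign_neg (add_neg_of_nonpos_of_neg (mul_nonpos_of_nonneg_of_nonpos ha (h1 k))
      (mul_neg_of_pos_of_neg hb k))]
  · rw [h2 k, k, mul_zero, mul_zero, add_zero]
  · rw [sign_pos k, sign_pos (add_pos_of_nonneg_of_pos (mul_nonneg ha (h3 k)) (mul_pos hb k))]

theorem St1_zero {u v : ℝ} (h : SignType.sign u = SignType.sign v) : u = 0 ↔ v = 0 := by
  rw [← sign_eq_zero_iff, h, sign_eq_zero_iff]

omit [FiniteDimensional ℝ E] in
theorem St1_comb (A : (E →L[ℝ] ℝ) × ℝ) (y z : E) {a b : ℝ} (h : a + b = 1) :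
    ev A (a • y + b • z) = a * ev A y + b * ev A z := by
  simp only [ev, map_add, map_smul, smul_eq_mul]
  linear_combination -A.2 * h

omit [FiniteDimensional ℝ E] in
theorem St1_sub (A : (E →L[ℝ] ℝ) × ℝ) (y z : E) : A.1 (y - z) = ev A y - ev A z := by
  rw [ev, ev, map_sub, add_sub_add_right_eq_sub]

omit [FiniteDimensional ℝ E] in
theorem St1_cont (A : (E →L[ℝ] ℝ) × ℝ) : Continuous (ev A) := A.1.continuous.add continuous_const

omit [FiniteDimensional ℝ E] in
theorem mem_face_self (L : Set ((E →L[ℝ] ℝ) × ℝ)) (x : E) : x ∈ face L x := fun _ _ => rfl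

omit [FiniteDimensional ℝ E] in
theorem face_eq (h : y ∈ face L x) : face L y = face L x :=
  Set.ext fun _ => forall₂_congr fun A hA => by rw [h A hA]

omit [FiniteDimensional ℝ E] in
theorem cface_eq (h : y ∈ face L x) : cface L y = cface L x :=
  Set.ext fun _ => forall₂_congr fun A hA => by rw [h A hA]

omit [FiniteDimensional ℝ E] in
theorem fdir_eq (h : y ∈ face L x) : fdir L y = fdir L x :=
  Submodule.ext fun _ => forall₂_congr fun A hA => by rw [St1_zero (h A hA)]

omit [FiniteDimensional ℝ E] in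
theorem fdim_eq (h : y ∈ face L x) : fdim L y = fdim L x := by
  rw [fdim, fdir_eq h, fdim]

omit [FiniteDimensional ℝ E] in
theorem face_sub_cface (L : Set ((E →L[ℝ] ℝ) × ℝ)) (x : E) : face L x ⊆ cface L x :=
  fun _ h A hA => Or.inr (h A hA)

omit [FiniteDimensional ℝ E] in
theorem cface_sub (h : y ∈ cface L x) : cface L y ⊆ cface L x := fun _ k A hA =>
  (k A hA).elim Or.inl fun e => (h A hA).imp (St1_zero e).2 e.trans

omit [FiniteDimensional ℝ E] in
theorem convex_face (L : Set ((E →L[ℝ] ℝ) × ℝ)) (x : E) : Convex ℝ (face L x) := by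
  intro y hy z hz a b ha hb hab A hA
  rw [St1_comb A y z hab]
  rcases hb.eq_or_lt with rfl | hb
  · rw [add_zero] at hab
    rw [hab, one_mul, zero_mul, add_zero, hy A hA]
  · rw [St1_mix (Or.inr ((hy A hA).trans (hz A hA).symm)) ha hb, hz A hA]

omit [FiniteDimensional ℝ E] in
theorem closure_face (L : Set ((E →L[ℝ] ℝ) × ℝ)) (x : E) : closure (face L x) = cface L x := by
  refine (closure_minimal (face_sub_cface L x) ?_).antisymm fun y hy => ?_
  · simp only [cface, St1_iff, ofPred_forall, ofPred_and]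
    have c := St1_cont (E := E)
    exact isClosed_biInter fun A _ => (isClosed_iInter fun _ => isClosed_le (c A)
      continuous_const).inter ((isClosed_iInter fun _ => isClosed_eq (c A) continuous_const).inter
        (isClosed_iInter fun _ => isClosed_le continuous_const (c A)))
  · refine closure_mono (s := openSegment ℝ y x) ?_
      (closure_openSegment (𝕜 := ℝ) y x ▸ left_mem_segment ℝ y x)
    rintro _ ⟨a, b, ha, hb, hab, rfl⟩ A hA
    rw [St1_comb A y x hab, St1_mix (hy A hA) ha.le hb]

omit [FiniteDimensional ℝ E] in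
theorem sub_mem_fdir (h : y ∈ cface L x) : y - x ∈ fdir L x := fun A hA e => by
  rw [St1_sub, e, (St1_iff.1 (h A hA)).2.1 e, sub_zero]

omit [FiniteDimensional ℝ E] in
theorem face_open (hL : L.Finite) (h : y ∈ face L x) :
    ∃ ε > 0, ∀ z, z - x ∈ fdir L x → ‖z - y‖ < ε → z ∈ face L x := by
  have k : ∀ᶠ z in 𝓝 y, ∀ A ∈ L, ev A y ≠ 0 → SignType.sign (ev A z) = SignType.sign (ev A y) := by
    refine (eventually_all_finite hL).2 fun A _ => ?_
    rcases lt_trichotomy (ev A y) 0 with e | e | e
    · exact ((St1_cont A).continuousAt.eventually_lt continuousAt_const e).mono fun z m _ => by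
        rw [sign_neg e, sign_neg m]
    · exact .of_forall fun _ m => absurd e m
    · exact (continuousAt_const.eventually_lt (St1_cont A).continuousAt e).mono fun z m _ => by
        rw [sign_pos e, sign_pos m]
  obtain ⟨ε, hε, k⟩ := Metric.eventually_nhds_iff.1 k
  refine ⟨ε, hε, fun z hz m A hA => ?_⟩
  by_cases e : ev A y = 0
  · rw [sub_eq_zero.1 ((St1_sub A z x).symm.trans (hz A hA ((St1_zero (h A hA)).1 e)))]
  · exact (k (by rwa [dist_eq_norm]) A hA e).trans (h A hA)

theorem fdim_lt (h : y ∈ cface L x) (h' : y ∉ face L x) : fdim L y < fdim L x := by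
  refine Submodule.finrank_lt_finrank_of_lt (lt_of_le_of_ne
    (fun ξ m A hA e => m A hA ((St1_iff.1 (h A hA)).2.1 e)) fun e => h' fun A hA => ?_)
  refine (h A hA).elim (fun k => ?_) id
  rw [sub_eq_zero.1 ((St1_sub A y x).symm.trans ((e ▸ sub_mem_fdir h : y - x ∈ fdir L y) A hA k))]

omit [FiniteDimensional ℝ E] in
theorem finite_faces (hL : L.Finite) : (range (face L)).Finite := by
  have := hL.to_subtype
  refine (finite_range fun σ : L → SignType =>
    {y : E | ∀ A (m : A ∈ L), SignType.sign (ev A y) = σ ⟨A, m⟩}).subset ?_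
  rintro _ ⟨x, rfl⟩
  exact ⟨fun A => SignType.sign (ev A x), rfl⟩

omit [FiniteDimensional ℝ E] in
theorem signConst_face {A : (E →L[ℝ] ℝ) × ℝ} (hA : A ∈ L) (x : E) : SignConst A (face L x) :=
  fun _ hy _ hz => (hy A hA).trans (hz A hA).symm

end BEp
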