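import Pool.Agent.Work.MP_f0515e_an.Pos.Defs
import Pool.Agent.Work.MP_f0515e_an.Pos.PLIE
import Pool.Agent.Work.MP_f0515e_an.Pos.PLGP
import Pool.Agent.Work.MP_f0515e_an.Pos.PLPoly
import Pool.Agent.Work.MP_f0515e_an.Pos.GV4a
import Pool.Agent.Work.MP_f0515e_an.Pos.HRL2
import Pool.Agent.Work.MP_f0515e_an.Pos.PLTP
import Pool.Agent.Work.MP_f0515e_an.Pos.HHEP

-- merged part: Pool.Agent.Work.MP_f0515e_an.Pos.TDefs
section
-- merged part: Pool.Agent.Work.MP_f0515e_an.Pos.TDefs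
section
/-! Definitions internal to the proof of `top_thm` (section 4 of the plan).

Unit coordinates of a box: `z x l = (x l - c l) / s`; `a = r + 6`.  `L` is the coarse skeleton on the
sphere of radius `a`, `In` the cone over `L` with apex `c`, `Zp` the set `Z` with the inside of every
box `Q 6` replaced by that cone. -/

open Set Metric Filter Topology Function BEv
open scoped NNReal

noncomputable section
namespace BEp

/-- Points of the coarse grid on a line. -/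
def G0 (r : ℕ) (t : ℝ) : Prop := ∃ k : ℤ, t = r + 8 + 16 * k

/-- Points of the coarse grid and the two points `± (r + 6)`. -/
def Gam (r : ℕ) (t : ℝ) : Prop := G0 r t ∨ |t| = r + 6

namespace Box
variable {m : ℕ} (B : Box m) (s : ℝ)

def z (x : V m) (l : Fin (2 * m + 1)) : ℝ := (x l - B.c l) / s

/-- Directions of the slice. -/
def Dir (v : V m) : Prop := ∀ l, l ∉ B.I → v l = 0

/-- Relatively open box. -/
def oQ (ρ : ℝ) : Set (V m) := {x | x ∈ B.slice ∧ ‖x - B.c‖ < s * (B.r + ρ)}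

/-- Open thick box. -/
def ot (ρ e : ℝ) : Set (V m) :=
  {x | (∀ l ∈ B.I, |x l - B.c l| < s * (B.r + ρ)) ∧ ∀ l, l ∉ B.I → |x l - B.c l| < e}

def L : Set (V m) := {x | x ∈ B.Sk s ∧ ‖x - B.c‖ = s * (B.r + 6)}

def In : Set (V m) := {x | ∃ y ∈ B.L s, ∃ t ∈ Icc (0 : ℝ) 1, x = B.c + t • (y - B.c)}

/-- A closed box of the slice, in unit coordinates. -/
def bx (lo hi : Fin (2 * m + 1) → ℝ) : Set (V m) :=
  {x | x ∈ B.slice ∧ ∀ l ∈ B.I, lo l ≤ B.z s x l ∧ B.z s x l ≤ hi l}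

/-- All coordinates clamped at level `τ`. -/
def clp (τ : ℝ) (y : V m) : V m := fun l => B.c l + clamp (y l - B.c l) τ

/-- The functionals `z l - k` and `a z l - k z l'` have constant sign on `T`. -/
structure SC (T : Set (V m)) : Prop where
  c1 : ∀ l (k : ℤ), |k| ≤ B.r + 30 → ∀ x ∈ T, ∀ y ∈ T,
    (B.z s x l < k → B.z s y l < k) ∧ (k < B.z s x l → k < B.z s y l)
  c2 : ∀ l l' (k : ℤ), |k| ≤ B.r + 30 → ∀ x ∈ T, ∀ y ∈ T,
    ((B.r + 6) * B.z s x l < k * B.z s x l' → (B.r + 6) * B.z s y l < k * B.z s y l') ∧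
    (k * B.z s x l' < (B.r + 6) * B.z s x l → k * B.z s y l' < (B.r + 6) * B.z s y l)

/-- `T` lies in a flat piece `U` of `Z` attached to a grid box. -/
def Cls (Z C T : Set (V m)) : Prop :=
  ∃ (lo hi : Fin (2 * m + 1) → ℝ) (U : Set (V m)),
    (∀ l ∈ B.I, Gam B.r (lo l) ∧ Gam B.r (hi l)) ∧ Flat m Z C U ∧ T ⊆ U ∧
    B.bx s lo hi ⊆ closure U ∧
    (∀ v ∈ B.bx s lo hi, v ∈ B.Q s 24 ∧ s * (B.r + 6) ≤ ‖v - B.c‖) ∧
    ∀ x ∈ closure T, ∃ y ∈ B.bx s lo hi, ∃ t ∈ Icc (0 : ℝ) 1,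
      x = B.c + t • (y - B.c) ∧ (t = 1 ∨ y ∈ B.L s)

/-- The box with the opposite affine map. -/
def neg : Box m := ⟨B.c, B.I, B.r, -B.A, -B.b⟩

end Box

section Family
variable {m : ℕ} {ι : Type} (Z : Set (V m)) (B : ι → Box m) (s : ℝ)

def Zout : Set (V m) := Z \ ⋃ i, (B i).oQ s 6

def Zp : Set (V m) := Zout Z B s ∪ ⋃ i, (B i).In s

def ctr (i : ι) : V m := (B i).c

/-- The geometric part of the hypotheses. -/
structure Geo (e : ℝ) : Prop where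
  poly : Poly Z
  pc : PC m Z
  s0 : 0 < s
  e0 : 0 < e
  card : ∀ i, m < (B i).I.card
  r8 : ∀ i, 8 ∣ (B i).r ∧ 16 ≤ (B i).r
  thick : ∀ i, Z ∩ (B i).thick s 30 e ⊆ (B i).slice
  disj : ∀ i j, i ≠ j → Disjoint ((B i).thick s 30 e) ((B j).thick s 30 e)
  sk : ∀ i, ∀ x ∈ (B i).Q s 30, s * ((B i).r + 4) ≤ ‖x - (B i).c‖ → (x ∈ Z ↔ x ∈ (B i).Sk s)

/-- Pairs of points in the closures of two far top cells. -/
def Far (st : Strat m (Zp Z B s)) : Set (V m × V m) :=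
  {p | ∃ k l, ¬ (∀ x ∈ (st.top k).car, ∀ y ∈ (st.top l).car,
      Nr m (Zp Z B s) (range (ctr B)) st.Z1 x y) ∧
    ¬ ((st.top k).car ⊆ ⋃ i, (B i).In s ∧ (st.top l).car ⊆ ⋃ i, (B i).In s) ∧
    p.1 ∈ (st.top k).cl ∧ p.2 ∈ (st.top l).cl}

/-- What is needed of the far pairs. -/
structure FarOK (st : Strat m (Zp Z B s)) : Prop where
  hc1 : ∀ i, (B i).c ∈ st.Z1
  hio : ∀ k, (st.top k).car ⊆ ⋃ i, (B i).In s ∨ Disjoint (st.top k).car (⋃ i, (B i).In s)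
  ne : ∀ p ∈ Far Z B s st, p.1 ≠ p.2
  out : ∀ p ∈ Far Z B s st, p.1 ∈ Zout Z B s ∨ p.2 ∈ Zout Z B s
  oo : ∀ p ∈ Far Z B s st, ∀ i, p.1 ∈ Zout Z B s ∩ (B i).Q s 16 →
    p.2 ∈ Zout Z B s ∩ (B i).Q s 16 → 2 * s ≤ ‖p.1 - p.2‖
  oi : ∀ p ∈ Far Z B s st, ∀ i, p.1 ∈ Zout Z B s ∩ (B i).Q s 16 → p.2 ∈ (B i).In s →
    ∃ y ∈ (B i).L s, ∃ t ∈ Icc (0 : ℝ) 1, p.2 = (B i).c + t • (y - (B i).c) ∧
      ∀ τ ∈ Icc (s * ((B i).r + 4)) (s * ((B i).r + 6)), 2 * s ≤ ‖p.1 - (B i).clp τ y‖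

/-- The map from the cones to the fine skeleton. -/
structure ChiOK (χ : V m → V m) : Prop where
  cont : Continuous χ
  out : ∀ x ∈ Zout Z B s, χ x = x
  fine : ∀ i, ∀ x ∈ (B i).In s, χ x ∈ (B i).fine s ∩ (B i).Q s 6
  low : ∀ i, ∀ x ∈ (B i).In s, ‖x - (B i).c‖ ≤ s * ((B i).r + 4) → χ x ∈ (B i).Q s 4
  high : ∀ i, ∀ y ∈ (B i).L s, ∀ t ∈ Icc (0 : ℝ) 1, (B i).r + 4 ≤ t * ((B i).r + 6) →
    χ ((B i).c + t • (y - (B i).c)) = (B i).clp (t * (s * ((B i).r + 6))) y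

/-- Straight path from `x` to `χ x`. -/
def sgm (χ : V m → V m) (x : V m) (t : ℝ) : V m := (1 - t) • x + t • χ x

/-- The set of pairs given to the germ theorem. -/
structure DOK (st : Strat m (Zp Z B s)) (χ : V m → V m) (D : Set (V m × V m)) : Prop where
  cpt : IsCompact D
  symm : Symm D
  sub : D ⊆ Zp Z B s ×ˢ Zp Z B s
  d1 : ∀ k l, (st.top k).cl ×ˢ (st.top l).cl ⊆ D ∨
    (∀ x ∈ (st.top k).car, ∀ y ∈ (st.top l).car, Nr m (Zp Z B s) (range (ctr B)) st.Z1 x y) ∨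
    ((st.top k).car ⊆ ⋃ i, (B i).In s ∧ (st.top l).car ⊆ ⋃ i, (B i).In s)
  d2 : ∀ i, ∀ p ∈ D, p.1 ∈ Zout Z B s → p.2 ∈ (B i).In s → ∀ t ∈ Icc (0 : ℝ) 1,
    (p.1, (B i).c + t • (p.2 - (B i).c)) ∈ D
  d4 : ∀ i j, i ≠ j → (B i).In s ×ˢ (B j).In s ⊆ D
  dJ : ∀ i, ∀ p ∈ D, p.1 ∈ (B i).In s → p.2 ∈ (B i).In s → p.1 ∈ (B i).L s ∨ p.2 ∈ (B i).L s
  seg : ∀ p ∈ D, ∀ t ∈ Icc (0 : ℝ) 1, sgm χ p.1 t ≠ sgm χ p.2 t
  two : ∀ p ∈ D, ∀ i, χ p.1 ∈ (B i).Q s 16 → χ p.2 ∈ (B i).Q s 16 → 2 * s ≤ ‖χ p.1 - χ p.2‖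

/-- The piecewise affine map after gluing and perturbation. -/
structure GHyp (f : V m → V m) (ε : ι → ℝ) (η : ℝ) (g : V m → V m) : Prop where
  tp : TP g
  le : ∀ i, η ≤ 2 * ε i
  eq : ∀ i, EqOn g (B i).aff ((B i).Q s 8)
  near : ∀ i, ∀ x ∈ Z ∩ (B i).Q s 16, ‖g x - (B i).aff x‖ ≤ 3 * ε i
  far : ∀ x ∈ Z, (∀ i, x ∉ (B i).Q s 12) → ‖g x - f x‖ ≤ η
  inj : InjOn g (Zp Z B s)

/-- Conclusion of the germ step. -/
def Germ (g Φ : V m → V m) (M : ι → V m ≃L[ℝ] V m) : Prop :=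
  SG Φ ∧ EqOn Φ g (Zp Z B s) ∧ ∀ i, (∀ v, (B i).Dir v → M i v = (B i).A v) ∧
    Φ =ᶠ[𝓝 (B i).c] fun x => M i (x - (B i).c) + (B i).b

end Family

/-- The difference map of `f` is oddly homotopic to that of the identity. -/
def Pos {m : ℕ} (S : Set (V m)) (f : V m → V m) : Prop :=
  ∀ D : Set (V m × V m), IsCompact D → Symm D → (∀ p ∈ D, p.1 ∈ S ∧ p.2 ∈ S ∧ p.1 ≠ p.2) →
    ∃ H, OH D (tl f) (tl id) H

/-- Straight homotopy between two difference maps. -/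
def lin {m : ℕ} (F0 F1 : V m × V m → V m) (q : (V m × V m) × ℝ) : V m :=
  (1 - q.2) • F0 q.1 + q.2 • F1 q.1

/-- The loop of a rigid box, in the coordinates of the ambient space. -/
def bloop {m : ℕ} (A : V m →L[ℝ] V m) (f : V m → V m) (Ac : ℝ → V m →L[ℝ] V m) (ν : ℝ → ℝ)
    (Hn : (V m × V m) × ℝ → V m) : (V m × V m) × ℝ → V m :=
  cat (fun q => ν q.2 • Ac q.2 (q.1.1 - q.1.2)) (cat (lin (fun p => A (p.1 - p.2)) (tl f)) Hn)

/-- A path of invertible maps, constant near its ends. -/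
structure APath {m : ℕ} (Ac : ℝ → V m →L[ℝ] V m) : Prop where
  cont : Continuous Ac
  bij : ∀ t, Bijective (Ac t)
  lo : ∀ t ≤ 1 / 3, Ac t = 1
  hi : ∀ t, 2 / 3 ≤ t → Ac t = Ac 1

end BEp
end
end

-- merged part: Pool.Agent.Work.MP_f0515e_an.Pos.TTheta
section
/-!
TOP, the isotopy which carries the boxes to their affine images.

Plan.  `exists_tracks`: `q i t = (1 - t) • c i + t • b i + (t * (1 - t)) • w i`; for each pair `i ≠ j` the
bad `w` form a thin set (`gp` with `P = Icc 0 1`, `Sm.real`, `lam k t = t * (1 - t) * (δ i k - δ j k)`;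
if all `lam k t` vanish then `t ∈ {0, 1}`), `Thin.iUnion`, `Thin.exists_near`.
`exists_tpath`: `p i t = q i (max 0 (min (3 * t - 1) 1))`; by compactness `δ ≤ ‖p i t - p j t‖` and
`‖Ac i t (x - c i)‖ ≤ K` on `Icc 0 1 ×ˢ X i`; `ν0 = min 1 (δ / (2 * K + 1))`,
`ν t = min 1 (max ν0 (max (1 - 3 * t) (3 * t - 2)))`.  For `t ≤ 1 / 3` the point is
`c i + ν • (x - c i) ∈ X i`; for `2 / 3 ≤ t` it is the affine image of that point; between, `ν = ν0`.
`exists_thetaP`: `ie` on `X = ⋃ i, X i` with `φ0 = 0`, `κ = ι × Option (Fin _)`; `lam (i, none)` and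
`lam (i, some l)` are `TP`, equal to `1` and `x l - c i l` on `X i` and to `0` on the other `X j`
(`Poly.glue` with `n' = 1`, or componentwise from two vector valued gluings);
`w t (i, none) = p i t`, `w t (i, some l) = ν t • Ac i t (Pi.single l 1)`; `cut = 1`, `H = ⊤`.
-/

open Set Metric Filter Topology Function BEv
open scoped NNReal

noncomputable section
namespace BEp

variable {m : ℕ} {ι : Type} [Finite ι]

theorem exists_tracks (hm : 1 ≤ m) {c b : ι → V m} (hc : Injective c) (hb : Injective b) :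
    ∃ q : ι → ℝ → V m, (∀ i, Continuous (q i) ∧ q i 0 = c i ∧ q i 1 = b i) ∧
      ∀ i j, i ≠ j → ∀ t ∈ Icc (0 : ℝ) 1, q i t ≠ q j t := by
  classical
  have := Fintype.ofFinite ι
  let lam : ι × ι → ι → ℝ → ℝ := fun a k t =>
    t * (1 - t) * ((if k = a.1 then 1 else 0) - (if k = a.2 then 1 else 0))
  let Φ : ι × ι → ℝ → V m := fun a t =>
    ((1 - t) • c a.1 + t • b a.1) - ((1 - t) • c a.2 + t • b a.2)
  have hT : ∀ a : ι × ι, Thin {w : ι → V m | ∃ t ∈ Icc (0 : ℝ) 1,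
      (∃ k, lam a k t ≠ 0) ∧ fam (Φ a) (lam a) w t = 0} := fun a =>
    gp (Sm.real _) (ContDiff.locallyLipschitz (𝕂 := ℝ) (by
        simp only [Φ]; fun_prop)).locallyLipschitzOn
      (fun k => (ContDiff.locallyLipschitz (𝕂 := ℝ) (by
        simp only [lam]; fun_prop)).locallyLipschitzOn) (by simp; omega)
  obtain ⟨w, -, hw⟩ := Thin.exists_near (Thin.iUnion hT) 0 one_pos
  refine ⟨fun i t => (1 - t) • c i + t • b i + (t * (1 - t)) • w i,
    fun i => ⟨by fun_prop, by simp, by simp⟩, fun i j hij t ht e => ?_⟩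
  by_cases h0 : t * (1 - t) = 0
  · rcases mul_eq_zero.1 h0 with h1 | h1
    · subst h1
      exact hij (hc (by simpa using e))
    · obtain rfl : t = 1 := by linarith only [h1]
      exact hij (hb (by simpa using e))
  refine hw (mem_iUnion.2 ⟨(i, j), t, ht, ⟨i, by simpa [lam, hij] using h0⟩, ?_⟩)
  have e1 : ∑ k, lam (i, j) k t • w k = (t * (1 - t)) • w i - (t * (1 - t)) • w j := by
    simp only [lam, mul_sub (t * (1 - t)), sub_smul, Finset.sum_sub_distrib, mul_ite, mul_one,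
      mul_zero, ite_smul, zero_smul, Finset.sum_ite_eq', Finset.mem_univ, if_true]
  simp only [fam, e1, Φ]
  rw [← sub_eq_zero] at e
  rw [← e]
  beta_reduce
  abel

theorem exists_tpath (hm : 1 ≤ m) {X : ι → Set (V m)} {c b : ι → V m}
    {Ac : ι → ℝ → V m →L[ℝ] V m} (hX : ∀ i, IsCompact (X i)) (hc : ∀ i, c i ∈ X i)
    (hs : ∀ i, Convex ℝ (X i)) (hA : ∀ i, APath (Ac i))
    (d0 : ∀ i j, i ≠ j → Disjoint (X i) (X j))
    (d1 : ∀ i j, i ≠ j → ∀ x ∈ X i, ∀ y ∈ X j,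
      Ac i 1 (x - c i) + b i ≠ Ac j 1 (y - c j) + b j) :
    ∃ (ν : ℝ → ℝ) (p : ι → ℝ → V m), Continuous ν ∧ (∀ t, 0 < ν t) ∧ ν 0 = 1 ∧ ν 1 = 1 ∧
      (∀ i, Continuous (p i) ∧ p i 0 = c i ∧ p i 1 = b i) ∧
      ∀ i j, i ≠ j → ∀ t ∈ Icc (0 : ℝ) 1, ∀ x ∈ X i, ∀ y ∈ X j,
        p i t + ν t • Ac i t (x - c i) ≠ p j t + ν t • Ac j t (y - c j) := by
  obtain ⟨q, hq, hq'⟩ := exists_tracks hm (c := c) (b := b)
    (fun i j e => by
      by_contra hij
      exact disjoint_left.1 (d0 i j hij) (hc i) (e ▸ hc j))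
    (fun i j e => by
      by_contra hij
      exact d1 i j hij _ (hc i) _ (hc j) (by simpa using e))
  have hδ : ∀ a : ι × ι, ∃ δ > 0, a.1 ≠ a.2 → ∀ t ∈ Icc (0 : ℝ) 1, δ ≤ ‖q a.1 t - q a.2 t‖ := by
    intro a
    by_cases h : a.1 = a.2
    · exact ⟨1, one_pos, fun h' => absurd h h'⟩
    obtain ⟨δ, h1, h2⟩ := isCompact_Icc.exists_forall_le'
      (f := fun t => ‖q a.1 t - q a.2 t‖) (((hq _).1.sub (hq _).1).norm.continuousOn) (a := 0)
      fun t ht => norm_pos_iff.2 (sub_ne_zero.2 (hq' _ _ h t ht))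
    exact ⟨δ, h1, fun _ => h2⟩
  choose δ hδ0 hδ using hδ
  have hK : ∀ i, ∃ K, ∀ t ∈ Icc (0 : ℝ) 1, ∀ x ∈ X i, ‖Ac i t (x - c i)‖ ≤ K := fun i => by
    have h1 := (hA i).cont
    obtain ⟨K, hK⟩ := (isCompact_Icc.prod (hX i)).exists_bound_of_continuousOn
      (f := fun z : ℝ × V m => Ac i z.1 (z.2 - c i)) (by fun_prop)
    exact ⟨K, fun t ht x hx => hK (t, x) ⟨ht, hx⟩⟩
  choose K hK using hK
  have hev : ∀ᶠ ν in 𝓝[>] (0 : ℝ), (∀ a : ι × ι, ν * (K a.1 + K a.2) < δ a) ∧ ν < 1 := by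
    refine nhdsWithin_le_nhds ((eventually_all.2 fun a => ?_).and (gt_mem_nhds one_pos))
    exact (by fun_prop : Continuous fun ν : ℝ => ν * (K a.1 + K a.2)).continuousAt.eventually_lt
      continuousAt_const (by simpa using hδ0 a)
  obtain ⟨ν0, ⟨h1, h2⟩, h3⟩ := (hev.and self_mem_nhdsWithin).exists
  have h3 : 0 < ν0 := h3
  let ν : ℝ → ℝ := fun t => min 1 (max ν0 (max (1 - 3 * t) (3 * t - 2)))
  have n0 : ∀ t, 0 < ν t := fun t => lt_min one_pos (h3.trans_le (le_max_left _ _))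
  have n1 : ∀ t, ν t ≤ 1 := fun t => min_le_left _ _
  have hin : ∀ i t, ∀ x ∈ X i, c i + ν t • (x - c i) ∈ X i := fun i t x hx =>
    (hs i).add_smul_sub_mem (hc i) hx ⟨(n0 t).le, n1 t⟩
  refine ⟨ν, fun i t => q i (max 0 (min (3 * t - 1) 1)), by fun_prop, n0,
    by simp [ν], by norm_num [ν], fun i => ⟨(hq i).1.comp (by fun_prop), by
      simpa using (hq i).2.1, by norm_num [(hq i).2.2]⟩, fun i j hij t ht x hx y hy e => ?_⟩
  rcases le_or_gt t (1 / 3) with a1 | a1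
  · have a2 : max 0 (min (3 * t - 1) 1) = 0 :=
      max_eq_left ((min_le_left _ _).trans (by linarith only [a1]))
    simp only [a2, (hq _).2.1, (hA _).lo t a1, ContinuousLinearMap.one_apply] at e
    exact disjoint_left.1 (d0 i j hij) (hin i t x hx) (e ▸ hin j t y hy)
  rcases le_or_gt (2 / 3) t with a3 | a3
  · have a2 : max 0 (min (3 * t - 1) 1) = 1 := by
      rw [min_eq_right (by linarith only [a3]), max_eq_right zero_le_one]
    simp only [a2, (hq _).2.2, (hA _).hi t a3] at e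
    refine d1 i j hij _ (hin i t x hx) _ (hin j t y hy) ?_
    simp only [add_sub_cancel_left, map_smul]
    rw [add_comm, e, add_comm]
  have a4 : ν t = ν0 := by
    simp only [ν]
    rw [max_eq_left (max_le (by linarith) (by linarith)), min_eq_right h2.le]
  have a5 := hδ (i, j) hij (max 0 (min (3 * t - 1) 1))
    ⟨le_max_left _ _, max_le zero_le_one (min_le_right _ _)⟩
  have a6 : q i (max 0 (min (3 * t - 1) 1)) - q j (max 0 (min (3 * t - 1) 1)) =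
      ν0 • (Ac j t (y - c j) - Ac i t (x - c i)) := by
    rw [a4] at e
    rw [smul_sub, sub_eq_sub_iff_add_eq_add, e, add_comm]
  have a7 := norm_sub_le (Ac j t (y - c j)) (Ac i t (x - c i))
  have a8 := h1 (i, j)
  simp only [a6, norm_smul, Real.norm_of_nonneg h3.le] at a5 a8
  nlinarith [hK i t ht x hx, hK j t ht y hy]

theorem exists_thetaP (hm : 1 ≤ m) {X : ι → Set (V m)} {c b : ι → V m}
    {Ac : ι → ℝ → V m →L[ℝ] V m} (hX : ∀ i, Poly (X i)) (hc : ∀ i, c i ∈ X i)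
    (hs : ∀ i, Convex ℝ (X i)) (hA : ∀ i, APath (Ac i))
    (d0 : ∀ i j, i ≠ j → Disjoint (X i) (X j))
    (d1 : ∀ i j, i ≠ j → ∀ x ∈ X i, ∀ y ∈ X j,
      Ac i 1 (x - c i) + b i ≠ Ac j 1 (y - c j) + b j) :
    ∃ (ν : ℝ → ℝ) (Θ : V m × ℝ → V m), Continuous ν ∧ (∀ t, 0 < ν t) ∧ ν 0 = 1 ∧ ν 1 = 1 ∧
      Continuous Θ ∧ (∀ z, Θ (z, 0) = z) ∧ (∀ t ∈ Icc (0 : ℝ) 1, SG fun z => Θ (z, t)) ∧
      (∀ i, ∀ x ∈ X i, Θ (x, 1) = Ac i 1 (x - c i) + b i) ∧
      ∀ i, ∀ t ∈ Icc (0 : ℝ) 1, ∀ x ∈ X i, ∀ y ∈ X i,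
        Θ (x, t) - Θ (y, t) = ν t • Ac i t (x - y) := by
  classical
  have := Fintype.ofFinite ι
  obtain ⟨ν, p, n1, n2, n3, n4, hp, hne⟩ := exists_tpath hm (fun i => (hX i).1) hc hs hA d0 d1
  have hY : ∀ i, Poly (⋃ j ∈ {j | j ≠ i}, X j) := fun i =>
    Poly.biUnion (toFinite _) fun j _ => hX j
  have hgl : ∀ i, ∀ d : V m → V m, TP d → ∃ d' : V m → V m, TP d' ∧ EqOn d' d (X i) ∧
      ∀ j, j ≠ i → ∀ y ∈ X j, d' y = 0 := fun i d hd => by
    obtain ⟨d', a1, a2, a3⟩ := Poly.glue (hX i) (hY i) hd fun x hx => by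
      obtain ⟨j, hj, hx'⟩ := mem_iUnion₂.1 hx.2
      exact absurd hx' (disjoint_left.1 (d0 i j (Ne.symm hj)) hx.1)
    exact ⟨d', a1, a2, fun j hj y hy => a3 y (mem_iUnion₂.2 ⟨j, hj, hy⟩)⟩
  choose u u1 u2 u3 using fun i => hgl i (fun _ _ => 1) (TP.const _)
  choose v v1 v2 v3 using fun i => hgl i (fun x => x - c i) (TP.id'.sub (TP.const _))
  let lam : ι × Option (Fin (2 * m + 1)) → V m → ℝ := fun k x =>
    k.2.elim (u k.1 x 0) fun l => v k.1 x l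
  let w : ℝ → ι × Option (Fin (2 * m + 1)) → V m := fun t k =>
    k.2.elim (p k.1 t) fun l => ν t • Ac k.1 t (Pi.single l 1)
  have hl : ∀ k, TP (lam k) := by
    rintro ⟨i, _ | l⟩
    · exact (u1 i).apply 0
    · exact (v1 i).apply l
  have hw : Continuous w := continuous_pi (by
    rintro ⟨i, _ | l⟩
    · exact (hp i).1
    · exact n1.smul ((hA i).cont.clm_apply continuous_const))
  have hf : ∀ t i, ∀ x ∈ X i, fam (fun _ => 0) lam (w t) x =
      p i t + ν t • Ac i t (x - c i) := fun t i x hx => by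
    rw [fam, zero_add, Fintype.sum_prod_type, Finset.sum_eq_single i]
    · rw [Fintype.sum_option]
      simp only [lam, w, Option.elim, u2 i hx, v2 i hx, one_smul]
      congr 1
      conv_rhs => rw [pi_eq_sum_univ' (x - c i)]
      simp only [map_sum, map_smul, Finset.smul_sum]
      refine Finset.sum_congr rfl fun l _ => ?_
      rw [smul_comm]
    · intro j _ hj
      rw [Fintype.sum_option]
      simp [lam, u3 j i hj.symm x hx, v3 j i hj.symm x hx]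
    · simp
  have hU : Poly (⋃ i, X i) := by
    simpa using Poly.biUnion (toFinite (univ : Set ι)) fun j _ => hX j
  obtain ⟨Θ, t1, t2, t3⟩ := ie hU (TP.const (0 : V m)) hl hw
    (fun t ht x hx y hy e => by
      obtain ⟨i, hi⟩ := mem_iUnion.1 hx
      obtain ⟨j, hj⟩ := mem_iUnion.1 hy
      rw [hf t i x hi, hf t j y hj] at e
      by_cases hij : i = j
      · subst hij
        exact sub_left_injective (((hA i).bij t).1
          (smul_right_injective _ (n2 t).ne' (add_left_cancel e)))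
      · exact absurd e (hne i j hij t ht x hi y hj))
    (cut := fun _ => 1) (TP.const _) (fun _ => zero_le_one)
    (fun t _ => by
      obtain ⟨L, hL⟩ := hU.1.exists_bound_of_continuousOn (f := fun x k => lam k x)
        (continuous_pi fun k => (hl k).continuous).continuousOn
      exact ⟨L, fun x hx k => by
        simpa using (norm_le_pi_norm (fun k => lam k x) k).trans (hL x hx)⟩)
    ⊤ (fun _ _ _ => trivial) (ε := 1 / 2) (by norm_num)
  have key : ∀ i, ∀ t ∈ Icc (0 : ℝ) 1, ∀ x ∈ X i, Θ (x, t) = p i t + ν t • Ac i t (x - c i) :=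
    fun i t ht x hx => by
      have := (t3 t ht).2 x (mem_iUnion.2 ⟨i, hx⟩)
      rw [hf 0 i x hx, hf t i x hx, (hp i).2.1, n3, (hA i).lo 0 (by norm_num)] at this
      simpa using this
  refine ⟨ν, Θ, n1, n2, n3, n4, t1, t2, fun t ht => Word.sg (by norm_num) (t3 t ht).1,
    fun i x hx => ?_, fun i t ht x hx y hy => ?_⟩
  · rw [key i 1 ⟨zero_le_one, le_rfl⟩ x hx, n4, (hp i).2.2, one_smul, add_comm]
  · rw [key i t ht x hx, key i t ht y hy, add_sub_add_left_eq_sub, ← smul_sub, ← map_sub,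
      sub_sub_sub_cancel_right]

end BEp
end
end
end

-- merged part: Pool.Agent.Work.MP_f0515e_an.Pos.TBox
section
/-! TOP, basic facts on grids and boxes. -/

open Set Metric Filter Topology Function BEv
open scoped NNReal

noncomputable section
namespace BEp

theorem dd_zero_iff {t : ℝ} : dd t = 0 ↔ ∃ k : ℤ, t = k := by
  constructor
  · intro h
    exact ⟨round t, sub_eq_zero.1 (abs_eq_zero.1 h)⟩
  · rintro ⟨k, rfl⟩
    simp [dd]

theorem G0_iff {r : ℕ} {t : ℝ} : dd ((t - (r + 8)) / 16) = 0 ↔ G0 r t := by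
  rw [dd_zero_iff]
  exact exists_congr fun k => ⟨fun h => by linarith only [h], fun h => by linarith only [h]⟩

theorem G0.int {r : ℕ} {t : ℝ} (h : G0 r t) : ∃ k : ℤ, t = k := by
  obtain ⟨k, rfl⟩ := h
  exact ⟨r + 8 + 16 * k, by push_cast; ring⟩

theorem G0.neg {r : ℕ} (h8 : 8 ∣ r) {t : ℝ} (h : G0 r t) : G0 r (-t) := by
  obtain ⟨k, rfl⟩ := h
  obtain ⟨j, rfl⟩ := h8
  exact ⟨-k - j - 1, by push_cast; ring⟩

theorem G0.add16 {r : ℕ} {t : ℝ} (h : G0 r t) : G0 r (t + 16) := by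
  obtain ⟨k, rfl⟩ := h
  exact ⟨k + 1, by push_cast; ring⟩

theorem G0.side {r : ℕ} {t : ℝ} (h : G0 r t) : t ≤ r - 8 ∨ r + 8 ≤ t := by
  obtain ⟨k, rfl⟩ := h
  rcases le_or_gt 0 k with hk | hk
  · have : (0 : ℝ) ≤ k := by exact_mod_cast hk
    right; linarith
  · have : (k : ℝ) ≤ -1 := by exact_mod_cast Int.le_sub_one_of_lt hk
    left; linarith

theorem G0.gap {r : ℕ} (h8 : 8 ∣ r) {t : ℝ} (h : G0 r t) : |t| ≤ r - 8 ∨ r + 8 ≤ |t| := by
  rcases h.side with a | a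
  · rcases (h.neg h8).side with b | b
    · exact Or.inl (abs_le.2 ⟨by linarith, a⟩)
    · exact Or.inr (b.trans (neg_le_abs t))
  · exact Or.inr (a.trans (le_abs_self t))

/-- Two grid points closer than `16` are equal. -/
theorem G0.eq_of_lt {r : ℕ} {t u : ℝ} (h : G0 r t) (h' : G0 r u) (e : |t - u| < 16) : t = u := by
  obtain ⟨k, rfl⟩ := h
  obtain ⟨j, rfl⟩ := h'
  have h1 := abs_lt.1 e
  have h2 : (k : ℝ) < j + 1 := by linarith [h1.2]
  have h3 : (j : ℝ) < k + 1 := by linarith [h1.1]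
  have h4 : k < j + 1 := by exact_mod_cast h2
  have h5 : j < k + 1 := by exact_mod_cast h3
  have : k = j := by omega
  rw [this]

theorem Gam.even {r : ℕ} (h8 : 8 ∣ r) {t : ℝ} (h : Gam r t) : ∃ k : ℤ, t = 2 * k := by
  obtain ⟨j, rfl⟩ := h8
  rcases h with ⟨k, rfl⟩ | h
  · exact ⟨4 * j + 4 + 8 * k, by push_cast; ring⟩
  · rcases abs_eq_abs.1 (h.trans (abs_of_nonneg (by positivity)).symm) with e | e
    · exact ⟨4 * j + 3, by rw [e]; push_cast; ring⟩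
    · exact ⟨-(4 * j + 3), by rw [e]; push_cast; ring⟩

theorem Gam.gap {r : ℕ} (h8 : 8 ∣ r) {t : ℝ} (h : Gam r t) : |t| ≤ r - 8 ∨ r + 6 ≤ |t| := by
  rcases h with h | h
  · exact (h.gap h8).imp id fun a => by linarith
  · exact Or.inr h.ge

/-- The strip of the coarse grid which contains a point off the grid. -/
theorem exists_strip {r : ℕ} {t : ℝ} (h : ¬ G0 r t) :
    ∃ γ, G0 r γ ∧ γ < t ∧ t < γ + 16 ∧ ∀ u, γ < u → u < γ + 16 → ¬ G0 r u := by
  have h1 := Int.floor_le ((t - (r + 8)) / 16)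
  have h2 := Int.lt_floor_add_one ((t - (r + 8)) / 16)
  have g : G0 r (r + 8 + 16 * (⌊(t - (r + 8)) / 16⌋ : ℤ)) := ⟨_, rfl⟩
  refine ⟨_, g, lt_of_le_of_ne (by linarith only [h1]) fun e => h (e ▸ g), by linarith only [h2],
    fun u a b hu => a.ne (g.eq_of_lt hu (abs_lt.2 ⟨by linarith only [b], by linarith only [a]⟩))⟩

/-- A plane given as a graph over the coordinates in `W`. -/
theorem exists_plane {n : ℕ} (W : Finset (Fin n)) (o κ : Fin n → ℝ) (i0 : Fin n)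
    (h : i0 ∈ W ∨ ∀ l, κ l = 0) :
    ∃ P : AffineSubspace ℝ (Fin n → ℝ), Module.finrank ℝ P.direction = W.card ∧
      ∀ x, x ∈ P ↔ ∀ l, l ∉ W → x l - o l = κ l * (x i0 - o i0) := by
  let K : Submodule ℝ (Fin n → ℝ) :=
    { carrier := {v | ∀ l, l ∉ W → v l = κ l * v i0}
      add_mem' := fun {a b} ha hb l hl => by
        rw [Pi.add_apply, Pi.add_apply, ha l hl, hb l hl, mul_add]
      zero_mem' := fun l _ => by simp
      smul_mem' := fun c a ha l hl => by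
        rw [Pi.smul_apply, Pi.smul_apply, ha l hl, smul_eq_mul, smul_eq_mul]
        ring }
  let φ : K →ₗ[ℝ] (W → ℝ) :=
    { toFun := fun v l => v.1 l
      map_add' := fun _ _ => rfl
      map_smul' := fun _ _ => rfl }
  have hb : Bijective φ := by
    constructor
    · refine (injective_iff_map_eq_zero φ).2 fun v hv => Subtype.ext (funext fun l => ?_)
      have h1 : ∀ l ∈ W, v.1 l = 0 := fun l hl => congrFun hv ⟨l, hl⟩
      by_cases hl : l ∈ W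
      · exact h1 l hl
      · rw [v.2 l hl]
        rcases h with h | h
        · simp [h1 i0 h]
        · simp [h l]
    · intro y
      refine ⟨⟨fun l => if hl : l ∈ W then y ⟨l, hl⟩ else
        κ l * (if h0 : i0 ∈ W then y ⟨i0, h0⟩ else 0), fun l hl => ?_⟩, funext fun l => ?_⟩
      · rcases h with h | h
        · simp [hl, h]
        · simp [hl, h l]
      · simp [φ, l.2]
  refine ⟨AffineSubspace.mk' o K, ?_, fun x => ?_⟩
  · rw [AffineSubspace.direction_mk', (LinearEquiv.ofBijective φ hb).finrank_eq]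
    simp
  · rw [AffineSubspace.mem_mk']
    exact Iff.rfl

theorem pc_plane {n d : ℕ} {W : Finset (Fin n)} (hW : W.card ≤ d) (o κ : Fin n → ℝ) (i0 : Fin n)
    (h : i0 ∈ W ∨ ∀ l, κ l = 0) :
    PC d {x : Fin n → ℝ | ∀ l, l ∉ W → x l - o l = κ l * (x i0 - o i0)} := by
  obtain ⟨P, h1, h2⟩ := exists_plane W o κ i0 h
  exact ⟨{P}, finite_singleton _, fun Q hQ => by rw [hQ, h1]; exact hW,
    fun x hx => ⟨P, rfl, (h2 x).2 hx⟩⟩

namespace Box
variable {m : ℕ} {B : Box m} {s ρ ρ' e e' : ℝ} {x y : V m}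

theorem c_slice : B.c ∈ B.slice := fun _ _ => rfl

theorem dir_sub (hx : x ∈ B.slice) (hy : y ∈ B.slice) : B.Dir (x - y) := fun l hl => by
  rw [Pi.sub_apply, hx l hl, hy l hl, sub_self]

theorem mem_Q (h : 0 ≤ s * (B.r + ρ)) :
    x ∈ B.Q s ρ ↔ x ∈ B.slice ∧ ‖x - B.c‖ ≤ s * (B.r + ρ) := by
  refine and_congr_right fun hx => ⟨fun h1 => (pi_norm_le_iff_of_nonneg h).2 fun l => ?_,
    fun h1 l _ => (norm_le_pi_norm (x - B.c) l).trans h1⟩
  by_cases hl : l ∈ B.I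
  · exact h1 l hl
  · rw [dir_sub hx c_slice l hl, norm_zero]
    exact h

theorem Q_monoP (hs : 0 ≤ s) (h : ρ ≤ ρ') : B.Q s ρ ⊆ B.Q s ρ' := fun _ hx =>
  ⟨hx.1, fun l hl => (hx.2 l hl).trans (by gcongr)⟩

theorem Q_thick (he : 0 ≤ e) : B.Q s ρ ⊆ B.thick s ρ e := fun _ hx =>
  ⟨hx.2, fun l hl => by rw [hx.1 l hl, sub_self, abs_zero]; exact he⟩

theorem thick_mono (hs : 0 ≤ s) (h : ρ ≤ ρ') (he : e ≤ e') : B.thick s ρ e ⊆ B.thick s ρ' e' :=
  fun _ hx => ⟨fun l hl => (hx.1 l hl).trans (by gcongr), fun l hl => (hx.2 l hl).trans he⟩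

theorem ot_thick : B.ot s ρ e ⊆ B.thick s ρ e := fun _ hx =>
  ⟨fun l hl => (hx.1 l hl).le, fun l hl => (hx.2 l hl).le⟩

theorem Q_ot (hs : 0 < s) (h : ρ < ρ') (he : 0 < e) : B.Q s ρ ⊆ B.ot s ρ' e := fun _ hx =>
  ⟨fun l hl => (hx.2 l hl).trans_lt (by gcongr),
    fun l hl => by rw [hx.1 l hl, sub_self, abs_zero]; exact he⟩

theorem oQ_iff (h : 0 < s * (B.r + ρ)) (he : 0 < e) :
    x ∈ B.oQ s ρ ↔ x ∈ B.slice ∧ x ∈ B.ot s ρ e := by
  refine and_congr_right fun hx => ⟨fun h1 => ⟨fun l _ => (norm_le_pi_norm (x - B.c) l).trans_lt h1,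
    fun l hl => by rw [hx l hl, sub_self, abs_zero]; exact he⟩,
    fun h1 => (pi_norm_lt_iff h).2 fun l => ?_⟩
  by_cases hl : l ∈ B.I
  · exact h1.1 l hl
  · rw [dir_sub hx c_slice l hl, norm_zero]
    exact h

theorem ot_open : IsOpen (B.ot s ρ e) := by
  have : B.ot s ρ e = (⋂ l, ⋂ _ : l ∈ B.I, {x : V m | |x l - B.c l| < s * (B.r + ρ)}) ∩
      ⋂ l, ⋂ _ : l ∉ B.I, {x : V m | |x l - B.c l| < e} := by
    ext x
    simp [ot]
  rw [this]
  refine IsOpen.inter ?_ ?_ <;>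
    exact isOpen_iInter_of_finite fun l => isOpen_iInter_of_finite fun _ =>
      isOpen_lt (by fun_prop) continuous_const

theorem thick_iff : x ∈ B.thick s ρ e ↔
    ∀ l, |x l - B.c l| ≤ if l ∈ B.I then s * (B.r + ρ) else e := by
  refine ⟨fun h l => ?_, fun h => ⟨fun l hl => by simpa [hl] using h l,
    fun l hl => by simpa [hl] using h l⟩⟩
  split_ifs with hl
  exacts [h.1 l hl, h.2 l hl]

theorem Q_eq : B.Q s ρ = B.thick s ρ 0 := Subset.antisymm (Q_thick le_rfl) fun _ hx =>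
  ⟨fun l hl => sub_eq_zero.1 (abs_nonpos_iff.1 (hx.2 l hl)), hx.1⟩

theorem poly_thick : Poly (B.thick s ρ e) := by
  have hD : TP fun x : V m => ‖fun l => max 0
      (|x l - B.c l| - if l ∈ B.I then s * (B.r + ρ) else e)‖ :=
    (TP.pi fun l => (TP.const 0).max
      (((TP.id'.apply l).sub (TP.const _)).abs.sub (TP.const _))).norm_pi
  convert poly_le (Poly.closedBall B.c (max |s * (B.r + ρ)| |e|)) hD using 1
  ext x
  rw [thick_iff, mem_sep_iff, pi_norm_le_iff_of_nonneg le_rfl, mem_closedBall_iff_norm,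
    pi_norm_le_iff_of_nonneg (by positivity)]
  refine ⟨fun h => ⟨fun l => (h l).trans ?_, fun l => ?_⟩, fun h l => ?_⟩
  · split_ifs
    exacts [le_max_of_le_left (le_abs_self _), le_max_of_le_right (le_abs_self _)]
  · rw [max_eq_left (sub_nonpos.2 (h l)), norm_zero]
  · exact sub_nonpos.1 ((le_max_right _ _).trans ((le_abs_self _).trans (h.2 l)))

theorem poly_Q : Poly (B.Q s ρ) := Q_eq (B := B) ▸ poly_thick

theorem convex_thick : Convex ℝ (B.thick s ρ e) := by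
  intro x hx y hy a b ha hb hab
  refine thick_iff.2 fun l => ?_
  have h1 := abs_le.1 (thick_iff.1 hx l)
  have h2 := abs_le.1 (thick_iff.1 hy l)
  have e1 : (a • x + b • y) l - B.c l = a * (x l - B.c l) + b * (y l - B.c l) := by
    simp only [Pi.add_apply, Pi.smul_apply, smul_eq_mul]
    linear_combination (B.c l) * hab
  rw [e1]
  generalize (if l ∈ B.I then s * (B.r + ρ) else e) = R at h1 h2
  have e2 : R = a * R + b * R := by linear_combination (-R) * hab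
  refine abs_le.2 ⟨?_, ?_⟩ <;> linarith only [e2, ha, h1, hb, h2, h1.1, h1.2, h2.1, h2.2, mul_nonneg_of_nonpos_of_nonpos (Mathlib.Tactic.Linarith.sub_nonpos_of_le ha) (Mathlib.Tactic.Linarith.sub_nonpos_of_le h1.left), mul_nonneg_of_nonpos_of_nonpos (Mathlib.Tactic.Linarith.sub_nonpos_of_le hb) (Mathlib.Tactic.Linarith.sub_nonpos_of_le h2.left), mul_nonneg_of_nonpos_of_nonpos (Mathlib.Tactic.Linarith.sub_nonpos_of_le ha) (Mathlib.Tactic.Linarith.sub_nonpos_of_le h1.right), mul_nonneg_of_nonpos_of_nonpos (Mathlib.Tactic.Linarith.sub_nonpos_of_le hb) (Mathlib.Tactic.Linarith.sub_nonpos_of_le h2.right)]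

theorem convex_Q : Convex ℝ (B.Q s ρ) := Q_eq (B := B) ▸ convex_thick

theorem slice_ray (hy : y ∈ B.slice) (t : ℝ) : B.c + t • (y - B.c) ∈ B.slice := fun l hl => by
  simp [hy l hl]

theorem z_eq (hs : s ≠ 0) (x : V m) (l : Fin (2 * m + 1)) : x l = B.c l + s * B.z s x l := by
  rw [z, mul_div_cancel₀ _ hs, add_sub_cancel]

theorem z_ray (y : V m) (t : ℝ) (l : Fin (2 * m + 1)) :
    B.z s (B.c + t • (y - B.c)) l = t * B.z s y l := by
  simp [z, mul_div_assoc]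

theorem abs_z (hs : 0 < s) {l : Fin (2 * m + 1)} {a : ℝ} :
    |B.z s x l| ≤ a ↔ |x l - B.c l| ≤ s * a := by
  rw [z, abs_div, abs_of_pos hs, div_le_iff₀ hs, mul_comm]

theorem mem_Sk : x ∈ B.Sk s ↔ x ∈ B.slice ∧ ∃ W : Finset (Fin (2 * m + 1)), W.card ≤ m ∧
    ∀ l ∈ B.I, l ∉ W → G0 B.r (B.z s x l) := by
  classical
  refine and_congr_right fun _ => ⟨fun h => ⟨_, h, fun l hl hW => ?_⟩, ?_⟩
  · by_contra hn
    exact hW (Finset.mem_filter.2 ⟨hl, fun e => hn (G0_iff.1 e)⟩)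
  · rintro ⟨W, h1, h2⟩
    refine (Finset.card_le_card fun l hl => ?_).trans h1
    by_contra hn
    exact (Finset.mem_filter.1 hl).2 (G0_iff.2 (h2 l (Finset.mem_filter.1 hl).1 hn))

theorem Sk_force (hx : x ∈ B.Sk s) {W : Finset (Fin (2 * m + 1))} (hW : W ⊆ B.I)
    (hc : m ≤ W.card) (h : ∀ l ∈ W, ¬ G0 B.r (B.z s x l)) :
    ∀ l ∈ B.I, l ∉ W → G0 B.r (B.z s x l) := by
  obtain ⟨W', h1, h2⟩ := (mem_Sk.1 hx).2
  have h3 : W ⊆ W' := fun l hl => by
    by_contra hn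
    exact h l hl (h2 l (hW hl) hn)
  rw [Finset.eq_of_subset_of_card_le h3 (h1.trans hc)]
  exact h2

theorem mem_fine : x ∈ B.fine s ↔ x ∈ B.slice ∧ ∃ W : Finset (Fin (2 * m + 1)), W.card ≤ m ∧
    ∀ l ∈ B.I, l ∉ W → ∃ k : ℤ, B.z s x l = k := by
  classical
  refine and_congr_right fun _ => ⟨fun h => ⟨_, h, fun l hl hW => ?_⟩, ?_⟩
  · by_contra hn
    exact hW (Finset.mem_filter.2 ⟨hl, fun e => hn (dd_zero_iff.1 e)⟩)
  · rintro ⟨W, h1, h2⟩
    refine (Finset.card_le_card fun l hl => ?_).trans h1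
    by_contra hn
    exact (Finset.mem_filter.1 hl).2 (dd_zero_iff.2 (h2 l (Finset.mem_filter.1 hl).1 hn))

theorem Sk_fine : B.Sk s ⊆ B.fine s := fun _ hx => by
  obtain ⟨h0, W, h1, h2⟩ := mem_Sk.1 hx
  exact mem_fine.2 ⟨h0, W, h1, fun l hl hW => (h2 l hl hW).int⟩

theorem aff_sub (x y : V m) : B.aff x - B.aff y = B.A (x - y) := by
  rw [aff, aff, add_sub_add_right_eq_sub, ← map_sub, sub_sub_sub_cancel_right]

theorem tp_aff : TP B.aff := ((TP.clm B.A).comp (TP.id'.sub (TP.const _))).add (TP.const _)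

theorem L_Q (hs : 0 < s) : B.L s ⊆ B.Q s 6 := fun _ hx =>
  (mem_Q (by positivity)).2 ⟨hx.1.1, hx.2.le⟩

theorem L_In : B.L s ⊆ B.In s := fun x hx => ⟨x, hx, 1, ⟨zero_le_one, le_rfl⟩, by simp⟩

theorem norm_ray (y : V m) {t : ℝ} (ht : 0 ≤ t) :
    ‖B.c + t • (y - B.c) - B.c‖ = t * ‖y - B.c‖ := by
  rw [add_sub_cancel_left, norm_smul, Real.norm_of_nonneg ht]

theorem In_Q (hs : 0 < s) : B.In s ⊆ B.Q s 6 := by
  rintro _ ⟨y, hy, t, ht, rfl⟩
  refine (mem_Q (by positivity)).2 ⟨slice_ray hy.1.1 t, ?_⟩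
  rw [norm_ray y ht.1, hy.2]
  exact mul_le_of_le_one_left (by positivity) ht.2

theorem In_ray (hx : x ∈ B.In s) {t : ℝ} (ht : t ∈ Icc (0 : ℝ) 1) :
    B.c + t • (x - B.c) ∈ B.In s := by
  obtain ⟨y, hy, u, hu, rfl⟩ := hx
  exact ⟨y, hy, t * u, ⟨mul_nonneg ht.1 hu.1, mul_le_one₀ ht.2 hu.1 hu.2⟩, by
    rw [add_sub_cancel_left, smul_smul]⟩

theorem L_of_In (hs : 0 < s) (hx : x ∈ B.In s) (h : s * (B.r + 6) ≤ ‖x - B.c‖) : x ∈ B.L s := by
  obtain ⟨y, hy, t, ht, rfl⟩ := hx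
  rw [norm_ray y ht.1, hy.2] at h
  have : t = 1 := le_antisymm ht.2 ((le_mul_iff_one_le_left (by positivity)).1 h)
  simpa [this] using hy

end Box

end BEp
end
end

-- merged part: Pool.Agent.Work.MP_f0515e_an.Pos.TCone
section
/-!
TOP, the cone `In` over `L`.  Unit coordinates `z`, `a = r + 6`.

Plan.  `L_nonempty`: pick `i0 ∈ I`; the point with `z i0 = r + 6`, `z l = r - 8` for the other `l ∈ I`
and `z l = 0` off `I` (`mem_Sk` with `W = {i0}`).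
`poly_In`: `In` is the finite union over `W` with `W.card ≤ m` and `k : Fin _ → ℤ` with `|k l| ≤ r + 1`
(`Set.Finite.pi`) of the sets `{x ∈ Q 6 | ∀ l ∈ I, l ∉ W → a * (x l - c l) = (r + 8 + 16 * k l) * ‖x - c‖}`,
each `Poly` by `poly_le poly_Q` (norm of a `TP.pi`); for `x ≠ c` take `y = c + (s * a / ‖x - c‖) • (x - c)`,
and `c ∈ In` by `c_In`.  `Poly.biUnion`.
`pc_In`: for `x = c + t • (y - c)` pick `i0` with `|y i0 - c i0| = s * a`; `i0 ∈ I`, and `i0 ∈ W` because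
`± a` is not a grid point (`G0.gap`).  So `x` is in the plane of `pc_plane` for `W ∩ I`, `o = c`,
`κ l = ± (r + 8 + 16 * k l) / a` on `I`, `0` off `I`; finitely many choices; `PC.biUnion`, `PC.mono`.
`pc_L`: plane over `(W ∩ I).erase i0` with `κ = 0`, through the point `o` with `z i0 = ± a`,
`z l = r + 8 + 16 * k l` on `I`, `z l = 0` off `I`.
-/

open Set Metric Filter Topology Function BEv
open scoped NNReal

noncomputable section
namespace BEp

namespace Box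
variable {m : ℕ} {B : Box m} {s : ℝ}

/-- Bounded grid indices. -/
def TCone_K (n r : ℕ) : Set (Fin n → ℤ) := Set.pi univ fun _ => Icc (-(r + 1 : ℤ)) (r + 1)

theorem TCone_Kfin (n r : ℕ) : (TCone_K n r).Finite := Finite.pi fun _ => finite_Icc _ _

theorem TCone_k (hs : 0 < s) {y : V m} (hy : y ∈ B.L s) :
    ∃ W ⊆ B.I, W.card ≤ m ∧ ∃ k ∈ TCone_K (2 * m + 1) B.r,
      ∀ l ∈ B.I, l ∉ W → y l - B.c l = s * (B.r + 8 + 16 * k l) := by
  obtain ⟨-, W, h1, h2⟩ := mem_Sk.1 hy.1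
  have h : ∀ l, ∃ k : ℤ, k ∈ Icc (-(B.r + 1 : ℤ)) (B.r + 1) ∧
      (l ∈ B.I → l ∉ W → y l - B.c l = s * (B.r + 8 + 16 * k)) := by
    intro l
    by_cases hl : l ∈ B.I ∧ l ∉ W
    · obtain ⟨k, hk⟩ := h2 l hl.1 hl.2
      have h3 := abs_le.1 ((abs_z hs).2 ((L_Q hs hy).2 l hl.1))
      rw [hk] at h3
      have h4 : (B.r : ℝ) ≥ 0 := Nat.cast_nonneg _
      refine ⟨k, ⟨?_, ?_⟩, fun _ _ => by rw [← hk, z, mul_div_cancel₀ _ hs.ne']⟩
      · have : (-(B.r + 1) : ℝ) ≤ k := by linarith only [h3, h3.1]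
        exact_mod_cast this
      · have : (k : ℝ) ≤ B.r + 1 := by linarith [h3.2]
        exact_mod_cast this
    · exact ⟨0, ⟨by omega, by omega⟩, fun a b => absurd ⟨a, b⟩ hl⟩
  choose k hk using h
  exact ⟨W ∩ B.I, Finset.inter_subset_right,
    (Finset.card_le_card Finset.inter_subset_left).trans h1, k, fun l _ => (hk l).1,
    fun l hl hW => (hk l).2 hl fun a => hW (Finset.mem_inter.2 ⟨a, hl⟩)⟩

/-- The finitely many types of points of `L`. -/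
def TCone_S (m r : ℕ) :
    Set ((Finset (Fin (2 * m + 1)) × (Fin (2 * m + 1) → ℤ)) × Fin (2 * m + 1) × ℝ) :=
  {p | p.1.2 ∈ TCone_K (2 * m + 1) r ∧ (p.2.2 = 1 ∨ p.2.2 = -1) ∧ p.1.1.card ≤ m ∧ p.2.1 ∈ p.1.1}

theorem TCone_Sfin (m r : ℕ) : (TCone_S m r).Finite :=
  ((finite_univ.prod (TCone_Kfin _ r)).prod (finite_univ.prod (toFinite {(1 : ℝ), -1}))).subset
    fun _ h => ⟨⟨trivial, h.1⟩, trivial, h.2.1⟩

theorem TCone_typ (hs : 0 < s) (h8 : 8 ∣ B.r) {y : V m} (hy : y ∈ B.L s) :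
    ∃ W k i ε, ((W, k), i, ε) ∈ TCone_S m B.r ∧ y i - B.c i = ε * (s * (B.r + 6)) ∧
      ∀ l ∈ B.I, l ∉ W → y l - B.c l = s * (B.r + 8 + 16 * k l) := by
  obtain ⟨W, -, h1, k, h2, h3⟩ := TCone_k hs hy
  have p : 0 < s * (B.r + 6) := by positivity
  obtain ⟨i, hi⟩ : ∃ i, |y i - B.c i| = s * (B.r + 6) := by
    by_contra hc
    push Not at hc
    refine hy.2.not_lt ((pi_norm_lt_iff p).2 fun l => lt_of_le_of_ne ?_ (hc l))
    exact (norm_le_pi_norm (y - B.c) l).trans hy.2.le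
  have hI : i ∈ B.I := by
    by_contra hc
    rw [hy.1.1 i hc, sub_self, abs_zero] at hi
    exact p.ne hi
  have hW : i ∈ W := by
    by_contra hc
    rw [h3 i hI hc, abs_mul, abs_of_pos hs, mul_right_inj' hs.ne'] at hi
    rcases G0.gap h8 ⟨k i, rfl⟩ with h | h <;> linarith only [hi, h]
  rcases (abs_eq p.le).1 hi with e | e
  · exact ⟨W, k, i, 1, ⟨h2, Or.inl rfl, h1, hW⟩, by rw [e, one_mul], h3⟩
  · exact ⟨W, k, i, -1, ⟨h2, Or.inr rfl, h1, hW⟩, by rw [e, neg_one_mul], h3⟩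

theorem L_nonempty (hm : 1 ≤ m) (hs : 0 < s) (hc : m < B.I.card) (hr : 16 ≤ B.r) :
    (B.L s).Nonempty := by
  obtain ⟨i, hi⟩ := Finset.card_pos.1 (Nat.zero_lt_of_lt hc)
  have h16 : (16 : ℝ) ≤ B.r := by exact_mod_cast hr
  obtain ⟨y, hy⟩ : ∃ y : V m, ∀ l, y l - B.c l =
      s * if l = i then (B.r + 6 : ℝ) else if l ∈ B.I then (B.r - 8 : ℝ) else 0 :=
    ⟨fun l => B.c l + _, fun l => add_sub_cancel_left _ _⟩
  have p : 0 ≤ s * (B.r + 6) := by positivity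
  refine ⟨y, mem_Sk.2 ⟨fun l hl => ?_, {i}, by simpa using hm, fun l hl hW => ⟨-1, ?_⟩⟩,
    le_antisymm ((pi_norm_le_iff_of_nonneg p).2 fun l => ?_) ?_⟩
  · have := hy l
    rw [if_neg fun e : l = i => hl (e ▸ hi), if_neg hl, mul_zero] at this
    exact sub_eq_zero.1 this
  · rw [z, hy, if_neg (by simpa using hW), if_pos hl, mul_div_cancel_left₀ _ hs.ne']
    push_cast
    ring
  · rw [Pi.sub_apply, hy, Real.norm_eq_abs, abs_mul, abs_of_pos hs]
    refine mul_le_mul_of_nonneg_left (abs_le.2 ?_) hs.le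
    split_ifs <;> constructor <;> linarith only [h16]
  · refine le_trans ?_ (norm_le_pi_norm (y - B.c) i)
    rw [Pi.sub_apply, hy, if_pos rfl]
    exact le_abs_self _

theorem c_In (hm : 1 ≤ m) (hs : 0 < s) (hc : m < B.I.card) (hr : 16 ≤ B.r) : B.c ∈ B.In s := by
  obtain ⟨y, hy⟩ := L_nonempty hm hs hc hr
  exact ⟨y, hy, 0, ⟨le_rfl, zero_le_one⟩, by simp⟩

theorem star_In : StarConvex ℝ B.c (B.In s) := by
  intro y hy a b ha hb hab
  have := In_ray hy (t := b) ⟨hb, by linarith⟩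
  convert this using 1
  rw [show a = 1 - b by linarith]
  module

theorem poly_In (hm : 1 ≤ m) (hs : 0 < s) (hc : m < B.I.card) (hr : 16 ≤ B.r) :
    Poly (B.In s) := by
  classical
  have p : 0 < s * (B.r + 6) := by positivity
  have hS : {p : Finset (Fin (2 * m + 1)) × (Fin (2 * m + 1) → ℤ) |
      p.1.card ≤ m ∧ p.2 ∈ TCone_K (2 * m + 1) B.r}.Finite :=
    (finite_univ.prod (TCone_Kfin _ B.r)).subset fun _ h => ⟨trivial, h.2⟩
  have hT : TP fun x : V m => x - B.c := TP.id'.sub (TP.const _)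
  have h := Poly.biUnion hS (X := fun p => {x ∈ B.Q s 6 | ‖fun l => if l ∈ B.I ∧ l ∉ p.1 then
      (B.r + 6 : ℝ) * (x - B.c) l - (B.r + 8 + 16 * p.2 l) * ‖x - B.c‖ else 0‖ ≤ 0})
    fun p _ => poly_le poly_Q (TP.norm_pi (TP.pi fun l => by
      split_ifs
      · exact ((hT.apply l).const_mul _).sub (hT.norm_pi.const_mul _)
      · exact TP.const _))
  convert h using 1
  ext x
  simp only [mem_iUnion, mem_ofPred_eq, norm_le_zero_iff, funext_iff, Pi.zero_apply,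
    ite_eq_right_iff, exists_prop, sub_eq_zero, Pi.sub_apply]
  constructor
  · intro hx
    have hQ := In_Q hs hx
    obtain ⟨y, hy, t, ht, rfl⟩ := hx
    obtain ⟨W, -, h1, k, h2, h3⟩ := TCone_k hs hy
    refine ⟨(W, k), ⟨h1, h2⟩, hQ, fun l hl => ?_⟩
    rw [norm_ray y ht.1, hy.2]
    simp only [Pi.add_apply, Pi.smul_apply, Pi.sub_apply, smul_eq_mul, h3 l hl.1 hl.2]
    ring
  · rintro ⟨⟨W, k⟩, ⟨h1, -⟩, hQ, h3⟩
    by_cases hx : x = B.c
    · exact hx ▸ c_In hm hs hc hr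
    have q : 0 < ‖x - B.c‖ := norm_pos_iff.2 (sub_ne_zero.2 hx)
    obtain ⟨q1, q2⟩ := (mem_Q p.le).1 hQ
    refine ⟨B.c + (s * (B.r + 6) / ‖x - B.c‖) • (x - B.c), ⟨mem_Sk.2 ⟨slice_ray q1 _, W, h1,
      fun l hl hW => ⟨k l, ?_⟩⟩, ?_⟩, ‖x - B.c‖ / (s * (B.r + 6)),
      ⟨by positivity, (div_le_one p).2 q2⟩, ?_⟩
    · have e := h3 l ⟨hl, hW⟩
      rw [z_ray, z]
      field_simp
      linear_combination e
    · rw [norm_ray x (by positivity), div_mul_cancel₀ _ q.ne']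
    · rw [add_sub_cancel_left, smul_smul, div_mul_div_cancel₀ p.ne', div_self q.ne', one_smul,
        add_sub_cancel]

theorem pc_In (hs : 0 < s) (h8 : 8 ∣ B.r) : PC m (B.In s) := by
  classical
  refine (PC.biUnion (TCone_Sfin m B.r) fun p hp => pc_plane hp.2.2.1 B.c
    (fun l => if l ∈ B.I then p.2.2 * (B.r + 8 + 16 * p.1.2 l) / (B.r + 6) else 0) p.2.1
    (Or.inl hp.2.2.2)).mono ?_
  rintro _ ⟨y, hy, t, ht, rfl⟩
  obtain ⟨W, k, i, ε, h1, h2, h3⟩ := TCone_typ hs h8 hy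
  refine mem_biUnion h1 fun l hl => ?_
  simp only [Pi.add_apply, Pi.smul_apply, Pi.sub_apply, smul_eq_mul, add_sub_cancel_left, h2]
  split_ifs with hI
  · rw [h3 l hI hl]
    have e : ε * ε = 1 := by rcases h1.2.1 with e | e <;> (simp only at e; rw [e]; ring)
    field_simp
    linear_combination -(t * (B.r + 8 + 16 * k l)) * e
  · rw [hy.1.1 l hI]
    ring

theorem pc_L (hs : 0 < s) (h8 : 8 ∣ B.r) : PC (m - 1) (B.L s) := by
  classical
  refine (PC.biUnion (TCone_Sfin m B.r) fun p hp => pc_plane (W := p.1.1.erase p.2.1)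
    (by rw [Finset.card_erase_of_mem hp.2.2.2]; exact Nat.sub_le_sub_right hp.2.2.1 1)
    (fun l => B.c l + if l = p.2.1 then p.2.2 * (s * (B.r + 6)) else
      if l ∈ B.I then s * (B.r + 8 + 16 * p.1.2 l) else 0) (fun _ => 0) p.2.1
    (Or.inr fun _ => rfl)).mono ?_
  intro y hy
  obtain ⟨W, k, i, ε, h1, h2, h3⟩ := TCone_typ hs h8 hy
  refine mem_biUnion h1 fun l hl => ?_
  simp only [zero_mul]
  split_ifs with hi hI
  · rw [hi, ← h2]
    ring
  · rw [← h3 l hI fun a => hl (Finset.mem_erase.2 ⟨hi, a⟩)]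
    ring
  · rw [hy.1.1 l hI]
    ring

end Box

end BEp
end
end

-- merged part: Pool.Agent.Work.MP_f0515e_an.Pos.TGeo
section
-- merged part: Pool.Agent.Work.MP_f0515e_an.Pos.TGeo
section
/-! TOP, the modified set `Zp`. -/

open Set Metric Filter Topology Function BEv
open scoped NNReal

noncomputable section
namespace BEp

variable {m : ℕ} {ι : Type} {Z : Set (V m)} {B : ι → Box m} {s e : ℝ} {i j : ι} {x : V m}

namespace Geo

theorem pos (h : Geo Z B s e) (i : ι) {ρ : ℝ} (hρ : 0 ≤ ρ) : 0 < s * ((B i).r + ρ) := by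
  have h1 : (16 : ℝ) ≤ (B i).r := by exact_mod_cast (h.r8 i).2
  exact mul_pos h.s0 (by linarith)

theorem mono (h : Geo Z B s e) {e' : ℝ} (h0 : 0 < e') (he : e' ≤ e) : Geo Z B s e' :=
  ⟨h.poly, h.pc, h.s0, h0, h.card, h.r8,
    fun i _ hx => h.thick i ⟨hx.1, Box.thick_mono h.s0.le le_rfl he hx.2⟩,
    fun i j hij => (h.disj i j hij).mono (Box.thick_mono h.s0.le le_rfl he)
      (Box.thick_mono h.s0.le le_rfl he), h.sk⟩

theorem Q_th (h : Geo Z B s e) {ρ : ℝ} (hρ : ρ ≤ 30) (hx : x ∈ (B i).Q s ρ) :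
    x ∈ (B i).thick s 30 e := Box.Q_thick h.e0.le (Box.Q_monoP h.s0.le hρ hx)

theorem eq_of_th (h : Geo Z B s e) (hx : x ∈ (B i).thick s 30 e) (hy : x ∈ (B j).thick s 30 e) :
    i = j := by
  by_contra hn
  exact disjoint_left.1 (h.disj i j hn) hx hy

theorem eq_of_Q (h : Geo Z B s e) {ρ ρ' : ℝ} (hρ : ρ ≤ 30) (hρ' : ρ' ≤ 30)
    (hx : x ∈ (B i).Q s ρ) (hy : x ∈ (B j).Q s ρ') : i = j :=
  h.eq_of_th (h.Q_th hρ hx) (h.Q_th hρ' hy)

theorem oQ_Q (h : Geo Z B s e) (hx : x ∈ (B i).oQ s 6) : x ∈ (B i).Q s 6 :=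
  (Box.mem_Q (h.pos i (by norm_num)).le).2 ⟨hx.1, hx.2.le⟩

theorem out_norm (hx : x ∈ Zout Z B s) (h1 : x ∈ (B i).slice) :
    s * ((B i).r + 6) ≤ ‖x - (B i).c‖ :=
  not_lt.1 fun h2 => hx.2 (mem_iUnion.2 ⟨i, h1, h2⟩)

theorem out_Sk (h : Geo Z B s e) (hx : x ∈ Zout Z B s) (h1 : x ∈ (B i).Q s 30) :
    x ∈ (B i).Sk s :=
  (h.sk i x h1 (le_trans (by have := h.s0; gcongr; norm_num) (out_norm hx h1.1))).1 hx.1

theorem Sk_out (h : Geo Z B s e) (hx : x ∈ (B i).Sk s) (h1 : x ∈ (B i).Q s 30)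
    (h2 : s * ((B i).r + 6) ≤ ‖x - (B i).c‖) : x ∈ Zout Z B s := by
  refine ⟨(h.sk i x h1 (le_trans (by have := h.s0; gcongr; norm_num) h2)).2 hx, fun hn => ?_⟩
  obtain ⟨j, hj⟩ := mem_iUnion.1 hn
  obtain rfl := h.eq_of_Q le_rfl (by norm_num) h1 (h.oQ_Q hj)
  exact hj.2.not_ge h2

theorem L_out (h : Geo Z B s e) (hx : x ∈ (B i).L s) : x ∈ Zout Z B s :=
  h.Sk_out hx.1 (Box.Q_monoP h.s0.le (by norm_num) (Box.L_Q h.s0 hx)) hx.2.ge

theorem out_In (h : Geo Z B s e) (hx : x ∈ Zout Z B s) (h1 : x ∈ (B i).In s) : x ∈ (B i).L s :=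
  Box.L_of_In h.s0 h1 (out_norm hx (Box.In_Q h.s0 h1).1)

theorem In_Zp (hx : x ∈ (B i).In s) : x ∈ Zp Z B s := Or.inr (mem_iUnion.2 ⟨i, hx⟩)

theorem In_eq (h : Geo Z B s e) (hx : x ∈ (B j).In s) (h1 : x ∈ (B i).thick s 30 e) : j = i :=
  h.eq_of_th (h.Q_th (by norm_num) (Box.In_Q h.s0 hx)) h1

theorem Zp_slice (h : Geo Z B s e) (hx : x ∈ Zp Z B s) (h1 : x ∈ (B i).thick s 30 e) :
    x ∈ (B i).slice := by
  rcases hx with hx | hx
  · exact h.thick i ⟨hx.1, h1⟩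
  · obtain ⟨j, hj⟩ := mem_iUnion.1 hx
    obtain rfl := h.In_eq hj h1
    exact (Box.In_Q h.s0 hj).1

theorem Zp_Q6 (h : Geo Z B s e) (hx : x ∈ Zp Z B s) (h1 : x ∈ (B i).Q s 6) : x ∈ (B i).In s := by
  rcases hx with hx | hx
  · exact Box.L_In ⟨h.out_Sk hx (Box.Q_monoP h.s0.le (by norm_num) h1), le_antisymm
      ((Box.mem_Q (h.pos i (by norm_num)).le).1 h1).2 (out_norm hx h1.1)⟩
  · obtain ⟨j, hj⟩ := mem_iUnion.1 hx
    obtain rfl := h.In_eq hj (h.Q_th (by norm_num) h1)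
    exact hj

theorem Zp_Sk (h : Geo Z B s e) (hx : x ∈ Zp Z B s) (h1 : x ∈ (B i).Q s 30)
    (h2 : s * ((B i).r + 6) ≤ ‖x - (B i).c‖) : x ∈ (B i).Sk s := by
  rcases hx with hx | hx
  · exact h.out_Sk hx h1
  · obtain ⟨j, hj⟩ := mem_iUnion.1 hx
    obtain rfl := h.In_eq hj (h.Q_th le_rfl h1)
    exact (Box.L_of_In h.s0 hj h2).1

theorem In_disj (h : Geo Z B s e) (hij : i ≠ j) : Disjoint ((B i).In s) ((B j).In s) :=
  disjoint_left.2 fun _ a b => hij (h.In_eq a (h.Q_th (by norm_num) (Box.In_Q h.s0 b)))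

theorem c_Q (h : Geo Z B s e) (i : ι) {ρ : ℝ} (hρ : 0 ≤ ρ) : (B i).c ∈ (B i).Q s ρ :=
  (Box.mem_Q (h.pos i hρ).le).2 ⟨Box.c_slice, by simpa using (h.pos i hρ).le⟩

theorem c_In (hm : 1 ≤ m) (h : Geo Z B s e) (i : ι) : (B i).c ∈ (B i).In s :=
  Box.c_In hm h.s0 (h.card i) (h.r8 i).2

theorem poly_In (hm : 1 ≤ m) (h : Geo Z B s e) (i : ι) : Poly ((B i).In s) :=
  Box.poly_In hm h.s0 (h.card i) (h.r8 i).2

theorem c_out (h : Geo Z B s e) (i : ι) : (B i).c ∉ Zout Z B s := fun hx => by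
  have := out_norm hx (Box.c_slice (B := B i))
  rw [sub_self, norm_zero] at this
  exact this.not_gt (h.pos i (by norm_num))

/-- A point of `Zp` in the open thick box of radius `ρ` is in `Q ρ`. -/
theorem Zp_ot (h : Geo Z B s e) {ρ : ℝ} (hρ : ρ ≤ 30) (hx : x ∈ Zp Z B s)
    (h1 : x ∈ (B i).ot s ρ e) : x ∈ (B i).Q s ρ :=
  ⟨h.Zp_slice hx (Box.thick_mono h.s0.le hρ le_rfl (Box.ot_thick h1)), (Box.ot_thick h1).1⟩

theorem In_nhds (h : Geo Z B s e) (i : ι) : (B i).In s ∈ 𝓝[Zp Z B s] (B i).c :=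
  mem_nhdsWithin.2 ⟨(B i).ot s 6 e, Box.ot_open,
    Box.Q_ot h.s0 (by norm_num) h.e0 (h.c_Q i le_rfl),
    fun _ hx => h.Zp_Q6 hx.2 (h.Zp_ot (by norm_num) hx.2 hx.1)⟩

theorem out_eq (h : Geo Z B s e) : Zout Z B s = Z \ ⋃ i, (B i).ot s 6 e := by
  ext x
  refine and_congr_right fun hx => not_congr ?_
  rw [mem_iUnion, mem_iUnion]
  refine exists_congr fun i => (Box.oQ_iff (h.pos i (by norm_num)) h.e0).trans
    (and_iff_right_of_imp fun h1 => h.thick i ⟨hx, ?_⟩)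
  exact Box.thick_mono h.s0.le (by norm_num) le_rfl (Box.ot_thick h1)

variable [Finite ι]

theorem poly_out (h : Geo Z B s e) : Poly (Zout Z B s) := by
  have := Fintype.ofFinite ι
  have hD : TP fun x : V m => ‖fun i => max 0 (cmin Finset.univ 1 fun l =>
      (if l ∈ (B i).I then s * ((B i).r + 6) else e) - |x l - (B i).c l|)‖ :=
    (TP.pi fun i => (TP.const 0).max (TP.cmin _ (TP.const 1) fun l _ =>
      (TP.const _).sub ((TP.id'.apply l).sub (TP.const _)).abs)).norm_pi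
  convert poly_le h.poly hD using 1
  rw [h.out_eq]
  ext x
  refine and_congr_right fun _ => ?_
  rw [pi_norm_le_iff_of_nonneg le_rfl, mem_iUnion, not_exists]
  refine forall_congr' fun i => ?_
  rw [norm_le_zero_iff, max_eq_left_iff]
  constructor
  · intro h1
    by_contra h2
    have h3 : ∀ l, 0 < (if l ∈ (B i).I then s * ((B i).r + 6) else e) - |x l - (B i).c l| :=
      fun l => (not_le.1 h2).trans_le (cmin_le _ _ _ (Finset.mem_univ l))
    exact h1 ⟨fun l hl => by simpa [hl] using h3 l, fun l hl => by simpa [hl] using h3 l⟩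
  · intro h1 h2
    rcases cmin_eq Finset.univ 1 fun l =>
      (if l ∈ (B i).I then s * ((B i).r + 6) else e) - |x l - (B i).c l| with e1 | ⟨l, -, e1⟩
    · linarith
    · rw [e1] at h1
      split_ifs at h1 with hl
      exacts [by linarith [h2.1 l hl], by linarith [h2.2 l hl]]

theorem poly_Zp (hm : 1 ≤ m) (h : Geo Z B s e) : Poly (Zp Z B s) :=
  h.poly_out.union (by simpa using Poly.biUnion finite_univ fun i _ => h.poly_In hm i)

theorem pc_Zp (h : Geo Z B s e) : PC m (Zp Z B s) :=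
  (h.pc.mono sdiff_subset).union
    (by simpa using PC.biUnion finite_univ fun i _ => Box.pc_In h.s0 (h.r8 i).1)

theorem cl_out (h : Geo Z B s e) : closure (Zp Z B s \ ⋃ i, (B i).In s) ⊆ Zout Z B s :=
  closure_minimal (fun _ hx => hx.1.resolve_right hx.2) h.poly_out.1.isClosed

end Geo

/-- Projection of a point of a thick box to the slice. -/
theorem Box.exists_proj {B : Box m} {ρ : ℝ} (he : 0 ≤ e) (hx : x ∈ B.thick s ρ e) :
    ∃ y ∈ B.Q s ρ, ‖x - y‖ ≤ e := by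
  refine ⟨fun l => if l ∈ B.I then x l else B.c l, ⟨fun l hl => if_neg hl, fun l hl => ?_⟩,
    (pi_norm_le_iff_of_nonneg he).2 fun l => ?_⟩
  · simpa [hl] using hx.1 l hl
  · by_cases hl : l ∈ B.I
    · simpa [hl] using he
    · simpa [hl] using hx.2 l hl

theorem TopHyp.geo [Finite ι] {S : Set (V m)} {c0 : V m} {f : V m → V m} {ε : ι → ℝ}
    (h : TopHyp S Z c0 f B s ε) : ∃ e, Geo Z B s e := by
  have small : ∀ δ : ℝ, 0 < δ → ∀ᶠ e in 𝓝[>] (0 : ℝ), e ≤ δ := fun δ hδ =>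
    (eventually_le_nhds hδ).filter_mono nhdsWithin_le_nhds
  have h1 : ∀ i, ∀ᶠ e in 𝓝[>] (0 : ℝ), Z ∩ (B i).thick s 30 e ⊆ (B i).slice := fun i => by
    obtain ⟨δ, hδ, h2⟩ := h.thick i
    exact (small δ hδ).mono fun e he x hx => h2 ⟨hx.1, Box.thick_mono h.s0.le le_rfl he hx.2⟩
  have h2 : ∀ i j, ∀ᶠ e in 𝓝[>] (0 : ℝ), i ≠ j →
      Disjoint ((B i).thick s 30 e) ((B j).thick s 30 e) := fun i j => by
    by_cases hij : i = j
    · exact Eventually.of_forall fun _ hn => absurd hij hn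
    obtain ⟨δ, hδ, h3⟩ := (h.disj i j hij).exists_cthickenings Box.poly_Q.1 Box.poly_Q.1.isClosed
    have h4 : ∀ k e, 0 < e → e ≤ δ → (B k).thick s 30 e ⊆ cthickening δ ((B k).Q s 40) :=
      fun k e h0 he x hx => by
        obtain ⟨y, hy, e1⟩ := Box.exists_proj h0.le hx
        exact mem_cthickening_of_dist_le x y δ _ (Box.Q_monoP h.s0.le (by norm_num) hy)
          (by rw [dist_eq_norm]; exact e1.trans he)
    filter_upwards [small δ hδ, self_mem_nhdsWithin] with e he h0 _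
    exact h3.mono (h4 i e h0 he) (h4 j e h0 he)
  obtain ⟨e, a, b, c⟩ := ((eventually_all.2 h1).and
    ((eventually_all.2 fun i => eventually_all.2 (h2 i)).and self_mem_nhdsWithin)).exists
  refine ⟨e, h.poly, h.pc, h.s0, c, h.card, h.r8, a, b, fun i x hx h5 => h.sk i x hx ?_⟩
  by_contra hn
  have h6 : (16 : ℝ) ≤ (B i).r := by exact_mod_cast (h.r8 i).2
  have h7 : 0 < s * ((B i).r + 4) := mul_pos h.s0 (by linarith)
  refine h5.not_gt ((pi_norm_lt_iff h7).2 fun l => ?_)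
  by_cases hl : l ∈ (B i).I
  · exact not_le.1 fun h8 => hn ⟨l, hl, h8⟩
  · rw [Box.dir_sub hx.1 Box.c_slice l hl, norm_zero]
    exact h7

end BEp
end
end

-- merged part: Pool.Agent.Work.MP_f0515e_an.Pos.TD
section
/-!
TOP, the set `D` of pairs.

Plan.  `F = Far` is a finite union of compact products and is symmetric (`Nr` is symmetric).
`D1` is the set of `(x, y')` with `x ∈ Zout`, `(x, y) ∈ F` and `y' = y`, or `y ∈ In i` and
`y' = c i + t • (y - c i)`, `t ∈ Icc 0 1`;  `D = D1 ∪ swap ⁻¹' D1 ∪ ⋃ i ≠ j, In i ×ˢ In j`.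
Remark (R): if `y' ∈ Zout` then `y' = y` (`out_norm`, `norm_ray`).
`d2`: for `p ∈ swap ⁻¹' D1` use (R), so `p ∈ F`.  `dJ`: `out_In`.
`seg`: `sgm χ x t = x` on `Zout`; if `y' ∉ Zout` then `y' ∈ In i`, `‖y' - c‖ < s * a`, and `χ y'` has
norm at most `max ‖y' - c‖ (s * (r + 4))` (`low`, `high`, `abs_clamp_le`), so the segment is in the convex
set `oQ 6`, which misses `Zout`; for `In i ×ˢ In j` the segments are in the disjoint boxes `Q 6`.
`two`: `oo` by (R), or `oi` with `high` (`τ = t * (s * a)`), or `low` and `out_norm`.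
-/

open Set Metric Filter Topology Function BEv
open scoped NNReal

noncomputable section
namespace BEp

variable {m : ℕ} {ι : Type} [Finite ι] {Z : Set (V m)} {B : ι → Box m} {s e : ℝ}

section
variable {st : Strat m (Zp Z B s)} {χ : V m → V m} {p : V m × V m} {i : ι} {x : V m}

/-- Far pairs with the first point outside, the second point moved along its ray. -/
def TD_one (st : Strat m (Zp Z B s)) : Set (V m × V m) :=
  {p | p.1 ∈ Zout Z B s ∧ ∃ y, (p.1, y) ∈ Far Z B s st ∧ (p.2 = y ∨ ∃ i, y ∈ (B i).In s ∧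
    ∃ t ∈ Icc (0 : ℝ) 1, p.2 = (B i).c + t • (y - (B i).c))}

/-- The straight path from `x` to `χ x`. -/
def TD_path (χ : V m → V m) (x : V m) (t : ℝ) : V m := (1 - t) • x + t • χ x

/-- The set of pairs. -/
def TD_all (st : Strat m (Zp Z B s)) : Set (V m × V m) :=
  {p | p ∈ TD_one st ∨ p.swap ∈ TD_one st ∨
    ∃ i j, i ≠ j ∧ p.1 ∈ (B i).In s ∧ p.2 ∈ (B j).In s}

omit [Finite ι] in
theorem TD_far_cpt : IsCompact (Far Z B s st) := by
  unfold Far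
  simp only [ofPred_exists]
  refine isCompact_iUnion fun k => isCompact_iUnion fun l => ?_
  have hc := (st.top k).compact_cl.prod (st.top l).compact_cl
  by_cases h1 : ∀ x ∈ (st.top k).car, ∀ y ∈ (st.top l).car,
      Nr m (Zp Z B s) (range (ctr B)) st.Z1 x y
  · convert isCompact_empty
    exact eq_empty_of_forall_notMem fun p hp => hp.1 h1
  by_cases h2 : (st.top k).car ⊆ ⋃ i, (B i).In s ∧ (st.top l).car ⊆ ⋃ i, (B i).In s
  · convert isCompact_empty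
    exact eq_empty_of_forall_notMem fun p hp => hp.2.1 h2
  convert hc using 1
  exact Set.ext fun p => ⟨fun hp => hp.2.2, fun hp => ⟨h1, h2, hp⟩⟩

omit [Finite ι] in
theorem TD_far_symm (hp : p ∈ Far Z B s st) : p.swap ∈ Far Z B s st := by
  obtain ⟨k, l, h1, h2, h3, h4⟩ := hp
  refine ⟨l, k, fun hn => h1 fun x hx y hy => ?_, fun hn => h2 hn.symm, h4, h3⟩
  obtain ⟨v, a1, a2, a3, U, U', b1, b2, b3, b4, b5, b6⟩ := hn y hy x hx
  exact ⟨v, a1, a2, a3, U', U, b2, b1, b4, b3, b6, b5⟩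

omit [Finite ι] in
theorem TD_far_sub (hp : p ∈ Far Z B s st) : p.2 ∈ Zp Z B s := by
  obtain ⟨k, l, -, -, -, h4⟩ := hp
  rw [Cell.cl_eq] at h4
  exact h4.elim (fun h => (st.top_sub l h).1) fun h => st.s1 (st.top_bd l h)

theorem TD_one_cpt (hm : 1 ≤ m) (h : Geo Z B s e) : IsCompact (TD_one st) := by
  have h0 : IsClosed (Zout Z B s) := h.poly_out.1.isClosed
  have h1 : IsCompact (Far Z B s st ∩ Zout Z B s ×ˢ univ) :=
    TD_far_cpt.inter_right (h0.prod isClosed_univ)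
  have h2 : ∀ i, IsCompact ((fun q : (V m × V m) × ℝ =>
      (q.1.1, (B i).c + q.2 • (q.1.2 - (B i).c))) ''
      ((Far Z B s st ∩ Zout Z B s ×ˢ (B i).In s) ×ˢ Icc (0 : ℝ) 1)) := fun i =>
    ((TD_far_cpt.inter_right (h0.prod (h.poly_In hm i).1.isClosed)).prod isCompact_Icc).image
      (by fun_prop)
  convert h1.union (isCompact_iUnion h2) using 1
  ext p
  constructor
  · rintro ⟨a, y, b, rfl | ⟨i, c, t, ht, d⟩⟩
    · exact Or.inl ⟨b, a, mem_univ _⟩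
    · exact Or.inr (mem_iUnion.2 ⟨i, ((p.1, y), t), ⟨⟨b, a, c⟩, ht⟩, Prod.ext rfl d.symm⟩)
  · rintro (⟨b, a, -⟩ | hp)
    · exact ⟨a, p.2, b, Or.inl rfl⟩
    · obtain ⟨i, q, ⟨⟨b, a, c⟩, ht⟩, rfl⟩ := mem_iUnion.1 hp
      exact ⟨a, q.1.2, b, Or.inr ⟨i, c, q.2, ht, rfl⟩⟩

omit [Finite ι] in
theorem TD_R (h : Geo Z B s e) (hp : p ∈ TD_one st) (h2 : p.2 ∈ Zout Z B s) :
    p ∈ Far Z B s st := by
  obtain ⟨-, y, b, rfl | ⟨i, c, t, ht, d⟩⟩ := hp
  · exact b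
  have h0 := h.pos i (ρ := 6) (by norm_num)
  have hy := (Box.mem_Q h0.le).1 (Box.In_Q h.s0 c)
  have h3 := Geo.out_norm h2 (d ▸ Box.slice_ray hy.1 t)
  rw [d, Box.norm_ray y ht.1] at h3
  have h4 : t = 1 := le_antisymm ht.2 (by (refine le_of_not_gt fun h_nl => ?_; linarith only [h_nl, h3, h0, hy, ht, ht.1, hy.2, mul_pos_of_neg_of_neg (Mathlib.Tactic.Linarith.sub_neg_of_lt h0) (Mathlib.Tactic.Linarith.sub_neg_of_lt h_nl), mul_nonneg_of_nonpos_of_nonpos (Mathlib.Tactic.Linarith.sub_nonpos_of_le hy.right) (Mathlib.Tactic.Linarith.sub_nonpos_of_le ht.left)]))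
  rw [h4, one_smul, add_sub_cancel] at d
  rwa [← d] at b

omit [Finite ι] in
theorem TD_one_sub (hp : p ∈ TD_one st) : p.2 ∈ Zp Z B s := by
  obtain ⟨-, y, b, rfl | ⟨i, c, t, ht, d⟩⟩ := hp
  · exact TD_far_sub b
  · exact Geo.In_Zp (d ▸ Box.In_ray c ht)

omit [Finite ι] in
theorem TD_eq (h : Geo Z B s e) {j : ι} (h1 : x ∈ (B i).In s) (h2 : x ∈ (B j).In s) : i = j :=
  h.eq_of_Q (by norm_num) (by norm_num) (Box.In_Q h.s0 h1) (Box.In_Q h.s0 h2)

omit [Finite ι] in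
theorem TD_ray (h : Geo Z B s e) (hp : p ∈ TD_one st) (h2 : p.2 ∈ (B i).In s) :
    ∃ y ∈ (B i).In s, (p.1, y) ∈ Far Z B s st ∧
      ∃ t ∈ Icc (0 : ℝ) 1, p.2 = (B i).c + t • (y - (B i).c) := by
  obtain ⟨-, y, b, rfl | ⟨j, c, t, ht, d⟩⟩ := hp
  · exact ⟨_, h2, b, 1, ⟨zero_le_one, le_rfl⟩, by simp⟩
  · obtain rfl := TD_eq h h2 (d ▸ Box.In_ray c ht)
    exact ⟨y, c, b, t, ht, d⟩

omit [Finite ι] in
theorem TD_rays (c y : V m) (t u : ℝ) : c + t • (c + u • (y - c) - c) = c + (t * u) • (y - c) := by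
  rw [add_sub_cancel_left, smul_smul]

omit [Finite ι] in
theorem TD_mul {t u : ℝ} (ht : t ∈ Icc (0 : ℝ) 1) (hu : u ∈ Icc (0 : ℝ) 1) :
    t * u ∈ Icc (0 : ℝ) 1 := ⟨mul_nonneg ht.1 hu.1, mul_le_one₀ ht.2 hu.1 hu.2⟩

omit [Finite ι] in
theorem TD_sg_out (hχ : ChiOK Z B s χ) (hx : x ∈ Zout Z B s) (t : ℝ) : TD_path χ x t = x := by
  rw [TD_path, hχ.out x hx, ← add_smul, sub_add_cancel, one_smul]

omit [Finite ι] in
theorem TD_sg_Q (h : Geo Z B s e) (hχ : ChiOK Z B s χ) (hx : x ∈ (B i).In s) {t : ℝ}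
    (ht : t ∈ Icc (0 : ℝ) 1) : TD_path χ x t ∈ (B i).Q s 6 :=
  Box.convex_Q (Box.In_Q h.s0 hx) (hχ.fine i x hx).2 (sub_nonneg.2 ht.2) ht.1 (sub_add_cancel 1 t)

omit [Finite ι] in
theorem TD_sg_in (h : Geo Z B s e) (hχ : ChiOK Z B s χ) (hx : x ∈ (B i).In s)
    (hn : x ∉ Zout Z B s) {t : ℝ} (ht : t ∈ Icc (0 : ℝ) 1) : TD_path χ x t ∉ Zout Z B s := by
  have h0 := h.pos i (ρ := 6) (by norm_num)
  have h1 : ‖x - (B i).c‖ < s * ((B i).r + 6) :=
    not_le.1 fun h1 => hn (h.L_out (Box.L_of_In h.s0 hx h1))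
  have h2 : ‖χ x - (B i).c‖ < s * ((B i).r + 6) := by
    rcases le_total ‖x - (B i).c‖ (s * ((B i).r + 4)) with h2 | h2
    · refine ((Box.mem_Q (h.pos i (by norm_num)).le).1 (hχ.low i x hx h2)).2.trans_lt ?_
      have := h.s0
      gcongr
      norm_num
    · obtain ⟨y, hy, u, hu, rfl⟩ := hx
      rw [Box.norm_ray y hu.1, hy.2] at h1 h2
      rw [hχ.high i y hy u hu (le_of_mul_le_mul_left (by linarith) h.s0)]
      refine lt_of_le_of_lt ?_ h1
      have h3 := mul_nonneg hu.1 h0.le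
      refine (pi_norm_le_iff_of_nonneg h3).2 fun l => ?_
      simpa [Box.clp] using abs_clamp_le h3
  intro hz
  have h3 : TD_path χ x t ∈ ball (B i).c (s * ((B i).r + 6)) :=
    convex_ball _ _ (mem_ball_iff_norm.2 h1) (mem_ball_iff_norm.2 h2) (sub_nonneg.2 ht.2) ht.1
      (sub_add_cancel 1 t)
  exact (mem_ball_iff_norm.1 h3).not_ge (Geo.out_norm hz (TD_sg_Q h hχ hx ht).1)

omit [Finite ι] in
theorem TD_seg (h : Geo Z B s e) (hF : FarOK Z B s st) (hχ : ChiOK Z B s χ) (hp : p ∈ TD_one st)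
    {t : ℝ} (ht : t ∈ Icc (0 : ℝ) 1) : TD_path χ p.1 t ≠ TD_path χ p.2 t := by
  rw [TD_sg_out hχ hp.1]
  by_cases h2 : p.2 ∈ Zout Z B s
  · rw [TD_sg_out hχ h2]
    exact hF.ne p (TD_R h hp h2)
  · obtain ⟨i, hi⟩ := mem_iUnion.1 ((TD_one_sub hp).resolve_left h2)
    exact fun h3 => TD_sg_in h hχ hi h2 ht (h3 ▸ hp.1)

omit [Finite ι] in
theorem TD_two (h : Geo Z B s e) (hF : FarOK Z B s st) (hχ : ChiOK Z B s χ) (hp : p ∈ TD_one st)
    (h1 : χ p.1 ∈ (B i).Q s 16) (h2 : χ p.2 ∈ (B i).Q s 16) : 2 * s ≤ ‖χ p.1 - χ p.2‖ := by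
  rw [hχ.out _ hp.1] at h1 ⊢
  by_cases h3 : p.2 ∈ Zout Z B s
  · rw [hχ.out _ h3] at h2 ⊢
    exact hF.oo p (TD_R h hp h3) i ⟨hp.1, h1⟩ ⟨h3, h2⟩
  obtain ⟨j, hj⟩ := mem_iUnion.1 ((TD_one_sub hp).resolve_left h3)
  obtain rfl := h.eq_of_Q (by norm_num) (by norm_num) h2 (hχ.fine j _ hj).2
  obtain ⟨y, hy, b, t, ht, d⟩ := TD_ray h hp hj
  obtain ⟨y0, hy0, u, hu, d', hτ⟩ := hF.oi _ b i ⟨hp.1, h1⟩ hy
  have htu := TD_mul ht hu
  have h0 := h.pos i (ρ := 6) (by norm_num)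
  have hs := h.s0
  dsimp only at d' hτ
  rw [d', TD_rays] at d
  rcases le_total (((B i).r : ℝ) + 4) (t * u * ((B i).r + 6)) with h4 | h4
  · rw [d, hχ.high i y0 hy0 _ htu h4]
    refine hτ _ ⟨?_, mul_le_of_le_one_left h0.le htu.2⟩
    (refine le_of_not_gt fun h_nl => ?_; linarith only [h_nl, h0, h4, mul_nonneg_of_nonpos_of_nonpos (Mathlib.Tactic.Linarith.sub_nonpos_of_le (Mathlib.Tactic.Linarith.natCast_nonneg ℝ (B i).r)) (le_of_lt (Mathlib.Tactic.Linarith.sub_neg_of_lt h_nl)), mul_nonneg_of_nonpos_of_nonpos (le_of_lt (Mathlib.Tactic.Linarith.sub_neg_of_lt h0)) (Mathlib.Tactic.Linarith.sub_nonpos_of_le h4)])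
  · have h5 : ‖p.2 - (B i).c‖ ≤ s * ((B i).r + 4) := by
      rw [d, Box.norm_ray y0 htu.1, hy0.2]
      (refine le_of_not_gt fun h_nl => ?_; linarith only [h_nl, h0, h4, mul_nonneg_of_nonpos_of_nonpos (Mathlib.Tactic.Linarith.sub_nonpos_of_le (Mathlib.Tactic.Linarith.natCast_nonneg ℝ (B i).r)) (le_of_lt (Mathlib.Tactic.Linarith.sub_neg_of_lt h_nl)), mul_nonneg_of_nonpos_of_nonpos (le_of_lt (Mathlib.Tactic.Linarith.sub_neg_of_lt h0)) (Mathlib.Tactic.Linarith.sub_nonpos_of_le h4)])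
    have h6 := ((Box.mem_Q (h.pos i (by norm_num)).le).1 (hχ.low i _ hj h5)).2
    have h7 := Geo.out_norm hp.1 h1.1
    have h8 := norm_sub_le_norm_sub_add_norm_sub p.1 (χ p.2) (B i).c
    linarith

end

theorem Geo.exists_D (hm : 1 ≤ m) (h : Geo Z B s e) {st : Strat m (Zp Z B s)}
    (hF : FarOK Z B s st) {χ : V m → V m} (hχ : ChiOK Z B s χ) : ∃ D, DOK Z B s st χ D := by
  refine ⟨TD_all st, ?_, ?_, ?_, ?_, ?_, ?_, ?_, ?_, ?_⟩
  · have h1 : IsCompact (TD_one st) := TD_one_cpt hm h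
    have h2 : IsCompact (⋃ q : {q : ι × ι // q.1 ≠ q.2}, (B q.1.1).In s ×ˢ (B q.1.2).In s) :=
      isCompact_iUnion fun q => (h.poly_In hm _).1.prod (h.poly_In hm _).1
    convert h1.union ((h1.image continuous_swap).union h2) using 1
    ext p
    refine or_congr Iff.rfl (or_congr ⟨fun hp => ⟨_, hp, rfl⟩, ?_⟩ ⟨?_, fun hp => ?_⟩)
    · rintro ⟨q, hq, rfl⟩
      exact hq
    · rintro ⟨i, j, hij, hp⟩
      exact mem_iUnion.2 ⟨⟨(i, j), hij⟩, hp⟩
    · obtain ⟨q, hq⟩ := mem_iUnion.1 hp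
      exact ⟨_, _, q.2, hq⟩
  · rintro p (hp | hp | ⟨i, j, hij, h1, h2⟩)
    · exact Or.inr (Or.inl hp)
    · exact Or.inl hp
    · exact Or.inr (Or.inr ⟨j, i, hij.symm, h2, h1⟩)
  · rintro p (hp | hp | ⟨i, j, hij, h1, h2⟩)
    · exact ⟨Or.inl hp.1, TD_one_sub hp⟩
    · exact ⟨TD_one_sub hp, Or.inl hp.1⟩
    · exact ⟨Geo.In_Zp h1, Geo.In_Zp h2⟩
  · intro k l
    by_contra hn
    rw [not_or, not_or] at hn
    refine hn.1 fun p hp => ?_
    have hf : p ∈ Far Z B s st := ⟨k, l, hn.2.1, hn.2.2, hp⟩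
    rcases hF.out p hf with h1 | h1
    · exact Or.inl ⟨h1, p.2, hf, Or.inl rfl⟩
    · exact Or.inr (Or.inl ⟨h1, p.1, TD_far_symm hf, Or.inl rfl⟩)
  · rintro i p (hp | hp | ⟨j, k, hjk, h3, h4⟩) h1 h2 t ht
    · obtain ⟨y, hy, b, u, hu, d⟩ := TD_ray h hp h2
      exact Or.inl ⟨h1, y, b, Or.inr ⟨i, hy, t * u, TD_mul ht hu, by rw [← TD_rays, ← d]⟩⟩
    · exact Or.inl ⟨h1, p.2, TD_far_symm (TD_R h hp h1), Or.inr ⟨i, h2, t, ht, rfl⟩⟩
    · obtain rfl := TD_eq h h2 h4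
      exact Or.inr (Or.inr ⟨j, i, hjk, h3, Box.In_ray h2 ht⟩)
  · exact fun i j hij p hp => Or.inr (Or.inr ⟨i, j, hij, hp⟩)
  · rintro i p (hp | hp | ⟨j, k, hjk, h3, h4⟩) h1 h2
    · exact Or.inl (h.out_In hp.1 h1)
    · exact Or.inr (h.out_In hp.1 h2)
    · exact absurd ((TD_eq h h3 h1).trans (TD_eq h h2 h4)) hjk
  · rintro p (hp | hp | ⟨j, k, hjk, h3, h4⟩) t ht
    · exact TD_seg h hF hχ hp ht
    · exact (TD_seg h hF hχ hp ht).symm
    · exact fun h5 => hjk (h.eq_of_Q (by norm_num) (by norm_num) (TD_sg_Q h hχ h3 ht)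
        ((show TD_path χ p.1 t = TD_path χ p.2 t from h5) ▸ TD_sg_Q h hχ h4 ht))
  · rintro p (hp | hp | ⟨j, k, hjk, h3, h4⟩) i h1 h2
    · exact TD_two h hF hχ hp h1 h2
    · rw [norm_sub_rev]
      exact TD_two h hF hχ hp h2 h1
    · exact absurd ((h.eq_of_Q (by norm_num) (by norm_num) (hχ.fine j _ h3).2 h1).trans
        (h.eq_of_Q (by norm_num) (by norm_num) h2 (hχ.fine k _ h4).2)) hjk

end BEp
end
end
end

-- merged part: Pool.Agent.Work.MP_f0515e_an.Pos.TGrid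
section
-- merged part: Pool.Agent.Work.MP_f0515e_an.Pos.TGrid
section
/-!
TOP, grid lemmas and sign classes.  `a = r + 6`.

Plan.  `exists_gstrip`: `γ` from `exists_strip`; `lo` is the largest of `γ`, `a` (if `a < t`), `-a` (if
`-a < t`), and `hi` symmetrically.
`grid1`: if `hi < lo'` then `hi + 2 ≤ lo'` (`Gam.even`); if `|y| ≤ t` the clamp is `y`; if `t < y` then
`lo' ≤ y ≤ a`, so `hi ≤ r - 8` (`Gam.gap`) and the clamp is `t ≥ r + 4`; if `y < -t` the clamp is `-t > y`.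
The case `hi' < lo` is symmetric.
`Box.grid`: `v l = c l + s * max (lo l) (lo' l)` on `I`, `c l` off `I`; `clamp` is homogeneous.
`Cell.not_pc`: `PC.sm`, `Sm.image` under the left inverse of `Cell.exists_inv`, `Sm.dense`.
`exists_sc`: `exists_strat` for the finite set of functionals `(s⁻¹ • proj l, - c l / s - k)` and
`((a / s) • proj l - (k / s) • proj l', ..)`, `|k| ≤ r + 30`; `sign_eq_neg_one_iff`, `sign_eq_one_iff`.
-/

open Set Metric Filter Topology Function BEv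
open scoped NNReal

noncomputable section
namespace BEp

theorem TGrid_lo {r : ℕ} {γ t : ℝ} (g : G0 r γ) (h : γ < t) (k : ∀ u, γ < u → u < t → ¬ G0 r u) :
    ∃ lo, Gam r lo ∧ lo < t ∧ ∀ u, lo < u → u < t → ¬ Gam r u := by
  have a0 : (0 : ℝ) < r + 6 := by positivity
  by_cases h1 : γ ≤ r + 6 ∧ r + 6 < t
  · refine ⟨r + 6, Or.inr (abs_of_pos a0), h1.2, fun u a b => ?_⟩
    rintro (e | e)
    · exact k u (by linarith [h1.1]) b e
    · linarith [le_abs_self u]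
  by_cases h2 : γ ≤ -(r + 6) ∧ -(r + 6) < t
  · refine ⟨-(r + 6), Or.inr (by rw [abs_neg, abs_of_pos a0]), h2.2, fun u a b => ?_⟩
    rintro (e | e)
    · exact k u (by linarith [h2.1]) b e
    · rcases abs_eq_abs.1 (e.trans (abs_of_pos a0).symm) with e | e
      · exact h1 ⟨by linarith [h2.1], by linarith⟩
      · linarith
  refine ⟨γ, Or.inl g, h, fun u a b => ?_⟩
  rintro (e | e)
  · exact k u a b e
  · rcases abs_eq_abs.1 (e.trans (abs_of_pos a0).symm) with e | e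
    · exact h1 ⟨by linarith, by linarith⟩
    · exact h2 ⟨by linarith, by linarith⟩

theorem TGrid_hi {r : ℕ} {γ t : ℝ} (g : G0 r γ) (h : t < γ) (k : ∀ u, t < u → u < γ → ¬ G0 r u) :
    ∃ hi, Gam r hi ∧ t < hi ∧ ∀ u, t < u → u < hi → ¬ Gam r u := by
  have a0 : (0 : ℝ) < r + 6 := by positivity
  by_cases h1 : -(r + 6) ≤ γ ∧ t < -(r + 6)
  · refine ⟨-(r + 6), Or.inr (by rw [abs_neg, abs_of_pos a0]), h1.2, fun u a b => ?_⟩
    rintro (e | e)
    · exact k u a (by linarith [h1.1]) e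
    · linarith [neg_le_abs u]
  by_cases h2 : r + 6 ≤ γ ∧ t < r + 6
  · refine ⟨r + 6, Or.inr (abs_of_pos a0), h2.2, fun u a b => ?_⟩
    rintro (e | e)
    · exact k u a (by linarith [h2.1]) e
    · rcases abs_eq_abs.1 (e.trans (abs_of_pos a0).symm) with e | e
      · linarith
      · exact h1 ⟨by linarith [h2.1], by linarith⟩
  refine ⟨γ, Or.inl g, h, fun u a b => ?_⟩
  rintro (e | e)
  · exact k u a b e
  · rcases abs_eq_abs.1 (e.trans (abs_of_pos a0).symm) with e | e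
    · exact h2 ⟨by linarith, by linarith⟩
    · exact h1 ⟨by linarith, by linarith⟩

theorem exists_gstrip {r : ℕ} {t : ℝ} (h : ¬ Gam r t) :
    ∃ lo hi, Gam r lo ∧ Gam r hi ∧ lo < t ∧ t < hi ∧ ∀ u, lo < u → u < hi → ¬ Gam r u := by
  obtain ⟨γ, g, h1, h2, h3⟩ := exists_strip (r := r) (t := t) fun k => h (Or.inl k)
  obtain ⟨lo, a1, a2, a3⟩ := TGrid_lo g h1 fun u a b => h3 u a (b.trans h2)
  obtain ⟨hi, b1, b2, b3⟩ := TGrid_hi g.add16 h2 fun u a b => h3 u (h1.trans a) b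
  refine ⟨lo, hi, a1, b1, a2, b2, fun u a b => ?_⟩
  rcases lt_trichotomy u t with e | rfl | e
  exacts [a3 u a e, h, b3 u e b]

theorem TGrid_two {r : ℕ} (h8 : 8 ∣ r) {u v : ℝ} (g : Gam r u) (g' : Gam r v) (h : u < v) :
    u + 2 ≤ v := by
  obtain ⟨k, rfl⟩ := g.even h8
  obtain ⟨j, rfl⟩ := g'.even h8
  have h1 : (k : ℝ) < j := by linarith
  have h2 : k + 1 ≤ j := by exact_mod_cast h1
  have h3 : (k : ℝ) + 1 ≤ j := by exact_mod_cast h2
  linarith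

theorem grid1 {r : ℕ} (h8 : 8 ∣ r) {lo hi lo' hi' x y t : ℝ} (g1 : Gam r lo) (g2 : Gam r hi)
    (g3 : Gam r lo') (g4 : Gam r hi') (hx : lo ≤ x ∧ x ≤ hi) (hy : lo' ≤ y ∧ y ≤ hi')
    (ht : r + 4 ≤ t) (hy' : |y| ≤ max (r + 6 : ℝ) t) (h : |x - clamp y t| < 2) :
    max lo lo' ≤ min hi hi' := by
  have r0 : (0 : ℝ) ≤ r := r.cast_nonneg
  have c : (|y| ≤ t ∧ clamp y t = y) ∨ (t < y ∧ y ≤ r + 6 ∧ clamp y t = t) ∨
      (y < -t ∧ -(r + 6) ≤ y ∧ clamp y t = -t) := by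
    by_cases k : |y| ≤ t
    · exact Or.inl ⟨k, clamp_eq_self k⟩
    have k1 := abs_le.1 ((le_max_iff.1 hy').resolve_right k)
    rcases lt_abs.1 (not_le.1 k) with e | e
    · exact Or.inr (Or.inl ⟨e, k1.2, by
        rw [clamp, min_eq_right e.le, max_eq_right (by linarith)]⟩)
    · exact Or.inr (Or.inr ⟨by linarith, k1.1, by
        rw [clamp, min_eq_left (by linarith), max_eq_left (by linarith)]⟩)
  obtain ⟨h1, h2⟩ := abs_lt.1 h
  obtain ⟨x1, x2⟩ := hx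
  obtain ⟨y1, y2⟩ := hy
  refine max_le (le_min (x1.trans x2) (not_lt.1 fun k => ?_))
    (le_min (not_lt.1 fun k => ?_) (y1.trans y2))
  · have := TGrid_two h8 g4 g1 k
    rcases c with ⟨-, e⟩ | ⟨a, b, e⟩ | ⟨a, b, e⟩ <;> rw [e] at h1 h2
    · linarith
    · linarith
    · have n := abs_of_neg (show lo < 0 by linarith)
      rcases g1.gap h8 with m | m <;> linarith only [ht, h2, x1, n, m, y2, this, b]
  · have := TGrid_two h8 g2 g3 k
    rcases c with ⟨-, e⟩ | ⟨a, b, e⟩ | ⟨a, b, e⟩ <;> rw [e] at h1 h2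
    · linarith
    · have n := abs_of_pos (show 0 < hi by linarith)
      rcases g2.gap h8 with m | m <;> linarith only [ht, h1, x2, n, m, y1, this, b]
    · linarith

theorem mem_closure_seg {E : Type} [NormedAddCommGroup E] [NormedSpace ℝ E] {U : Set E} {v x : E}
    (h : ∀ t ∈ Ioc (0 : ℝ) 1, v + t • (x - v) ∈ U) : v ∈ closure U := by
  have c : Continuous fun t : ℝ => v + t • (x - v) := by fun_prop
  have t : Tendsto (fun t : ℝ => v + t • (x - v)) (𝓝[>] 0) (𝓝 v) := by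
    simpa using (c.tendsto 0).mono_left (nhdsWithin_le_nhds (s := Ioi 0))
  exact mem_closure_of_tendsto t (mem_of_superset (Ioc_mem_nhdsGT zero_lt_one) h)

theorem flat_of {E : Type} [NormedAddCommGroup E] [NormedSpace ℝ E] {m : ℕ} {Z C O : Set E}
    {P : AffineSubspace ℝ E} (hP : Module.finrank ℝ P.direction = m) (hO : IsOpen O)
    (hc : Convex ℝ O) (he : Z ∩ O = (P : Set E) ∩ O) (hC : Disjoint (Z ∩ O) C) :
    Flat m Z C (Z ∩ O) := by
  refine ⟨he ▸ P.convex.inter hc, hC, ⟨O, hO, rfl⟩, P, hP, he ▸ inter_subset_left, fun x hx => ?_⟩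
  obtain ⟨ε, h0, h1⟩ := Metric.isOpen_iff.1 hO x hx.2
  exact ⟨ε, h0, he ▸ inter_subset_inter_right _ h1⟩

theorem Cell.not_pc {E : Type} [NormedAddCommGroup E] [NormedSpace ℝ E] [FiniteDimensional ℝ E]
    {d d' : ℕ} (c : Cell d E) (h : d' < d) : ¬ PC d' c.car := fun hp => by
  obtain ⟨N, hN⟩ := c.exists_inv
  have l : LipschitzWith _ fun x => N (x - c.o) :=
    N.lipschitz.comp (LipschitzWith.id.sub (LipschitzWith.const c.o))
  have := (hp.sm.image l.locallyLipschitz.locallyLipschitzOn).dense (by simpa using h)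
  obtain ⟨y, h1, h2⟩ := this.inter_open_nonempty c.U c.op c.ne
  exact h2 ⟨c.φ y, ⟨y, h1, rfl⟩, hN y⟩

namespace Box
variable {m : ℕ} {B : Box m} {s : ℝ} {x y : V m} {T : Set (V m)}

theorem clp_self {τ : ℝ} (h : ‖y - B.c‖ ≤ τ) : B.clp τ y = y := funext fun l => by
  rw [clp, clamp_eq_self (c := y l - B.c l) ((norm_le_pi_norm (y - B.c) l).trans h), add_sub_cancel]

theorem grid (hs : 0 < s) (h8 : 8 ∣ B.r) {lo hi lo' hi' : Fin (2 * m + 1) → ℝ}
    (g : ∀ l ∈ B.I, Gam B.r (lo l) ∧ Gam B.r (hi l))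
    (g' : ∀ l ∈ B.I, Gam B.r (lo' l) ∧ Gam B.r (hi' l)) (hx : x ∈ B.bx s lo hi)
    (hy : y ∈ B.bx s lo' hi') {τ : ℝ} (hτ : s * (B.r + 4) ≤ τ)
    (hy' : ‖y - B.c‖ ≤ max (s * (B.r + 6)) τ) (h : ‖x - B.clp τ y‖ < 2 * s) :
    ∃ v ∈ B.bx s lo hi ∩ B.bx s lo' hi', ∀ l, ∃ k : ℤ, B.z s v l = k := by
  obtain ⟨v, v1, v2⟩ : ∃ v : V m, (∀ l ∈ B.I, B.z s v l = max (lo l) (lo' l)) ∧ v ∈ B.slice :=
    ⟨fun l => if l ∈ B.I then B.c l + s * max (lo l) (lo' l) else B.c l, fun l hl => by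
      simp only [z, if_pos hl, add_sub_cancel_left, mul_div_cancel_left₀ _ hs.ne'],
      fun l hl => if_neg hl⟩
  have k : ∀ l ∈ B.I, max (lo l) (lo' l) ≤ min (hi l) (hi' l) := fun l hl => by
    refine grid1 h8 (g l hl).1 (g l hl).2 (g' l hl).1 (g' l hl).2 (hx.2 l hl) (hy.2 l hl)
      (t := τ / s) (by rw [le_div_iff₀ hs]; linarith) ?_ ?_
    · rw [abs_z hs, mul_max_of_nonneg _ _ hs.le, mul_div_cancel₀ _ hs.ne']
      exact (norm_le_pi_norm (y - B.c) l).trans hy'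
    · have e : |x l - (B.c l + clamp (y l - B.c l) τ)| < 2 * s :=
        (norm_le_pi_norm (x - B.clp τ y) l).trans_lt h
      rw [z, z, clamp, min_div_div_right hs.le, ← neg_div, max_div_div_right hs.le, ← sub_div,
        abs_div, abs_of_pos hs, div_lt_iff₀ hs, sub_sub]
      exact e
  refine ⟨v, ⟨⟨v2, fun l hl => ?_⟩, v2, fun l hl => ?_⟩, fun l => ?_⟩
  · rw [v1 l hl]
    exact ⟨le_max_left _ _, (k l hl).trans (min_le_left _ _)⟩
  · rw [v1 l hl]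
    exact ⟨le_max_right _ _, (k l hl).trans (min_le_right _ _)⟩
  · by_cases hl : l ∈ B.I
    · rw [v1 l hl]
      have : Gam B.r (max (lo l) (lo' l)) := by
        rcases max_choice (lo l) (lo' l) with e | e <;> rw [e]
        exacts [(g l hl).1, (g' l hl).1]
      obtain ⟨j, e⟩ := this.even h8
      exact ⟨2 * j, by rw [e]; push_cast; rfl⟩
    · exact ⟨0, by simp [z, v2 l hl]⟩

theorem SC.eq1 (h : B.SC s T) {l : Fin (2 * m + 1)} {k : ℤ} (hk : |k| ≤ B.r + 30) (hx : x ∈ T)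
    (hy : y ∈ T) (e : B.z s x l = k) : B.z s y l = k :=
  le_antisymm (not_lt.1 fun n => ((h.c1 l k hk y hy x hx).2 n).ne' e)
    (not_lt.1 fun n => ((h.c1 l k hk y hy x hx).1 n).ne e)

theorem SC.eq2 (h : B.SC s T) {l l' : Fin (2 * m + 1)} {k : ℤ} (hk : |k| ≤ B.r + 30) (hx : x ∈ T)
    (hy : y ∈ T) (e : (B.r + 6) * B.z s x l = k * B.z s x l') :
    (B.r + 6) * B.z s y l = k * B.z s y l' :=
  le_antisymm (not_lt.1 fun n => ((h.c2 l l' k hk y hy x hx).2 n).ne' e)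
    (not_lt.1 fun n => ((h.c2 l l' k hk y hy x hx).1 n).ne e)

/-- A sign class which contains an integer point of `Q 30` is that point. -/
theorem SC.point (hs : 0 < s) (h : B.SC s T) (hx : x ∈ T) (hQ : x ∈ B.Q s 30)
    (hk : ∀ l, ∃ k : ℤ, B.z s x l = k) : T ⊆ {x} := fun y hy => funext fun l => by
  obtain ⟨k, e⟩ := hk l
  have a : |B.z s x l| ≤ B.r + 30 :=
    (abs_z hs).2 ((norm_le_pi_norm (x - B.c) l).trans ((mem_Q (by positivity)).1 hQ).2)
  rw [e] at a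
  rw [z_eq (B := B) hs.ne' y l, z_eq (B := B) hs.ne' x l,
    h.eq1 (k := k) (by exact_mod_cast a) hx hy e, e]

theorem SC.sub_Q (hs : 0 < s) (h : B.SC s T) {ρ : ℕ} (hρ : ρ ≤ 30) (hx : x ∈ T)
    (hQ : x ∈ B.Q s ρ) : T ⊆ B.Q s ρ := fun y hy => by
  refine ⟨fun l hl => ?_, fun l hl => (abs_z hs).1 (abs_le.2 ⟨not_lt.1 fun n => ?_,
    not_lt.1 fun n => ?_⟩)⟩
  · have := h.eq1 (l := l) (k := 0) (by rw [abs_zero]; positivity) hx hy (by simp [z, hQ.1 l hl])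
    rw [z_eq (B := B) hs.ne' y l, this]
    simp
  · have := (h.c1 l (-(B.r + ρ)) (by rw [abs_neg, abs_of_nonneg (by positivity)]; omega)
      y hy x hx).1 (by push_cast; exact n)
    push_cast at this
    linarith only [this, hs, hQ, hl, (abs_le.1 ((abs_z hs).2 (hQ.2 l hl))).1]
  · have := (h.c1 l (B.r + ρ) (by rw [abs_of_nonneg (by positivity)]; omega)
      y hy x hx).2 (by push_cast; exact n)
    push_cast at this
    linarith [(abs_le.1 ((abs_z hs).2 (hQ.2 l hl))).2]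

end Box

theorem TGrid_sign {a b a' b' u u' : ℝ} (h : SignType.sign u = SignType.sign u') (e : u = a - b)
    (e' : u' = a' - b') : (a < b → a' < b') ∧ (b < a → b' < a') := by
  subst e e'
  exact ⟨fun k => sub_neg.1 (sign_eq_neg_one_iff.1 (h ▸ sign_eq_neg_one_iff.2 (sub_neg.2 k))),
    fun k => sub_pos.1 (sign_eq_one_iff.1 (h ▸ sign_eq_one_iff.2 (sub_pos.2 k)))⟩

theorem exists_sc {m : ℕ} (hm : 2 ≤ m) {ι : Type} [Finite ι] (B : ι → Box m) (s : ℝ)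
    {Y : Set (V m)} (hY : Poly Y) (hpc : PC m Y) :
    ∃ st : Strat m Y, ∀ i k, (B i).SC s (st.top k).car := by
  let p : Fin (2 * m + 1) → V m →L[ℝ] ℝ := fun l => ContinuousLinearMap.proj l
  let f1 : ι → Fin (2 * m + 1) × ℤ → (V m →L[ℝ] ℝ) × ℝ := fun i q =>
    (s⁻¹ • p q.1, -(B i).c q.1 / s - q.2)
  let f2 : ι → (Fin (2 * m + 1) × Fin (2 * m + 1)) × ℤ → (V m →L[ℝ] ℝ) × ℝ := fun i q =>
    ((((B i).r + 6) / s) • p q.1.1 - (q.2 / s) • p q.1.2,
      -((B i).r + 6) * (B i).c q.1.1 / s + q.2 * (B i).c q.1.2 / s)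
  have fin : ∀ i, {k : ℤ | |k| ≤ (B i).r + 30}.Finite := fun i =>
    (finite_Icc _ _).subset fun k hk => abs_le.1 hk
  obtain ⟨st, h⟩ := exists_strat hm hY hpc (L := ⋃ i,
    f1 i '' (univ ×ˢ {k : ℤ | |k| ≤ (B i).r + 30}) ∪ f2 i '' (univ ×ˢ {k : ℤ | |k| ≤ (B i).r + 30}))
    (finite_iUnion fun i => ((finite_univ.prod (fin i)).image _).union
      ((finite_univ.prod (fin i)).image _))
  refine ⟨st, fun i j => ⟨fun l k hk x hx y hy => ?_, fun l l' k hk x hx y hy => ?_⟩⟩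
  · refine TGrid_sign ((h (f1 i (l, k)) (mem_iUnion.2 ⟨i, Or.inl
      ⟨(l, k), ⟨trivial, hk⟩, rfl⟩⟩)).1 j x hx y hy) ?_ ?_ <;>
    · simp only [f1, p, Box.z, smul_apply, ContinuousLinearMap.proj_apply,
        smul_eq_mul]
      ring
  · refine TGrid_sign ((h (f2 i ((l, l'), k)) (mem_iUnion.2 ⟨i, Or.inr
      ⟨((l, l'), k), ⟨trivial, hk⟩, rfl⟩⟩)).1 j x hx y hy) ?_ ?_ <;>
    · simp only [f2, p, Box.z, sub_apply, smul_apply,
        ContinuousLinearMap.proj_apply, smul_eq_mul]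
      ring

end BEp
end
end

-- merged part: Pool.Agent.Work.MP_f0515e_an.Pos.TChi
section
/-!
TOP, the map `χ` from the cones to the fine skeleton.  `a = r + 6`.

Plan.  `glue_fin` is the lemma of `HHEP0`.
`Box.exists_chi`: `push` with `d = m`, `P = In` (`poly_In`, `pc_In`, `PC.sm`),
`A = {x | s * (r + 4) ≤ ‖x - c‖}` and `q x l = clamp (a * z x l / max (‖x - c‖ / s) 1) (‖x - c‖ / s)`;
`χ x = c + s • q' x`.  For `x = c + t • (y - c)`, `y ∈ L`, `r + 4 ≤ t * a`: `‖x - c‖ / s = t * a` and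
`q x l = clamp (z y l) (t * a)`; a grid coordinate has `|z y l| ≤ r - 8` (`G0.gap`) and is not moved, and
`z y l = 0` off `I`, so `q x ∈ Skel m`.  `InCar` keeps the integer bounds `|q x l| ≤ r + 6`, `≤ r + 4`
and `= 0` (`Int.le_floor`, `Int.ceil_le`).
`exists_chi`: `glue_fin` with `A = Zout`, `u = id`; on `Zout ∩ In i ⊆ L i` use `t = 1` and `clp_self`.
-/

open Set Metric Filter Topology Function BEv
open scoped NNReal

noncomputable section
namespace BEp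

theorem TChi_car {ι : Type} [Fintype ι] {u v : ι → ℝ} (h : InCar u v) {l : ι} {N : ℕ}
    (hv : |v l| ≤ N) : |u l| ≤ N := by
  have h1 : (-N : ℤ) ≤ ⌊v l⌋ := Int.le_floor.2 (by push_cast; exact (abs_le.1 hv).1)
  have h2 : ⌈v l⌉ ≤ (N : ℤ) := Int.ceil_le.2 (by push_cast; exact (abs_le.1 hv).2)
  have h3 : ((-N : ℤ) : ℝ) ≤ ⌊v l⌋ := Int.cast_le.2 h1
  have h4 : (⌈v l⌉ : ℝ) ≤ ((N : ℤ) : ℝ) := Int.cast_le.2 h2
  push_cast at h3 h4
  exact abs_le.2 ⟨h3.trans (h l).1, (h l).2.trans h4⟩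

theorem TChi_mul {s : ℝ} (hs : 0 ≤ s) (u v : ℝ) : s * clamp u v = clamp (s * u) (s * v) := by
  rw [clamp, clamp, mul_max_of_nonneg _ _ hs, mul_min_of_nonneg _ _ hs, mul_neg]

/-- the map before the push -/
def TChi_q {m : ℕ} (B : Box m) (s : ℝ) (x : V m) : V m := fun l =>
  clamp ((B.r + 6) * B.z s x l / max (‖x - B.c‖ / s) 1) (‖x - B.c‖ / s)

theorem TChi_cont {m : ℕ} (B : Box m) (s : ℝ) : Continuous (TChi_q B s) := by
  refine continuous_pi fun l => ?_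
  have h1 : Continuous fun x : V m => ‖x - B.c‖ / s := by fun_prop
  have h2 : Continuous fun x : V m => ((B.r : ℝ) + 6) * B.z s x l := by
    unfold Box.z
    fun_prop
  exact h1.neg.max ((h2.div (h1.max continuous_const) fun x =>
    (lt_max_of_lt_right one_pos).ne').min h1)

theorem TChi_ray {m : ℕ} {B : Box m} {s t : ℝ} (hs : 0 < s) {y : V m} (hy : y ∈ B.L s)
    (h0 : 0 ≤ t) (ht : (B.r : ℝ) + 4 ≤ t * (B.r + 6)) (l : Fin (2 * m + 1)) :
    TChi_q B s (B.c + t • (y - B.c)) l = clamp (B.z s y l) (t * (B.r + 6)) := by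
  have r0 : (0 : ℝ) ≤ B.r := Nat.cast_nonneg _
  have e : ‖B.c + t • (y - B.c) - B.c‖ / s = t * (B.r + 6) := by
    rw [Box.norm_ray y h0, hy.2]
    field_simp
  have t0 : t ≠ 0 := fun k => by
    rw [k, zero_mul] at ht
    linarith only [ht]
  rw [TChi_q, e, max_eq_left (by linarith only [ht]), Box.z_ray]
  congr 1
  field_simp

theorem TChi_off {m : ℕ} {B : Box m} {s : ℝ} {y : V m} (hy : y ∈ B.slice) {l : Fin (2 * m + 1)}
    (hl : l ∉ B.I) : B.z s y l = 0 := by rw [Box.z, hy l hl, sub_self, zero_div]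

theorem Box.exists_chi {m : ℕ} (hm : 1 ≤ m) {B : Box m} {s : ℝ} (hs : 0 < s) (hc : m < B.I.card)
    (h8 : 8 ∣ B.r) (hr : 16 ≤ B.r) : ∃ χ : V m → V m, Continuous χ ∧
      (∀ x ∈ B.In s, χ x ∈ B.fine s ∩ B.Q s 6) ∧
      (∀ x ∈ B.In s, ‖x - B.c‖ ≤ s * (B.r + 4) → χ x ∈ B.Q s 4) ∧
      ∀ y ∈ B.L s, ∀ t ∈ Icc (0 : ℝ) 1, B.r + 4 ≤ t * (B.r + 6) →
        χ (B.c + t • (y - B.c)) = B.clp (t * (s * (B.r + 6))) y := by
  classical
  have r0 : (16 : ℝ) ≤ B.r := by exact_mod_cast hr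
  have hA : IsClosed {x : V m | s * (B.r + 4) ≤ ‖x - B.c‖} :=
    isClosed_le continuous_const (by fun_prop)
  obtain ⟨q, cq, e1, e2⟩ := pushP (d := m) (Box.poly_In hm hs hc hr).1
    ((Box.pc_In hs h8).sm.mono sdiff_subset) hA (TChi_cont B s) (by
      rintro _ ⟨h1, y, hy, t, ht, rfl⟩
      have h2 : (B.r : ℝ) + 4 ≤ t * (B.r + 6) := by
        rw [mem_ofPred_eq, Box.norm_ray y ht.1, hy.2, mul_left_comm] at h1
        exact le_of_mul_le_mul_left h1 hs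
      obtain ⟨h3, W, h4, h5⟩ := Box.mem_Sk.1 hy.1
      refine le_trans (Finset.card_le_card fun l hl => ?_) h4
      by_contra hn
      refine (Finset.mem_filter.1 hl).2 (dd_zero_iff.2 ?_)
      rw [TChi_ray hs hy ht.1 h2]
      by_cases hI : l ∈ B.I
      · have h6 := (Box.abs_z hs).2 ((Box.L_Q hs hy).2 l hI)
        rw [clamp_eq_self (by rcases (h5 l hI hn).gap h8 with k | k <;> linarith only [h2, k, h6])]
        exact (h5 l hI hn).int
      · rw [TChi_off h3 hI, clamp_eq_self (by rw [abs_zero]; linarith)]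
        exact ⟨0, by simp⟩)
  have zq : ∀ x l, B.z s (B.c + s • q x) l = q x l := fun x l => by
    simp [Box.z, hs.ne']
  have sl : ∀ x ∈ B.In s, B.c + s • q x ∈ B.slice := fun x hx l hl => by
    have k : |q x l| ≤ (0 : ℕ) := TChi_car (e2 x hx).2 (by
      rw [TChi_q, TChi_off (Box.In_Q hs hx).1 hl, mul_zero, zero_div,
        clamp_eq_self (by rw [abs_zero]; positivity)]
      simp)
    have k2 : q x l = 0 := by simpa using k
    simp [k2]
  have bd : ∀ x ∈ B.In s, ∀ N : ℕ, ‖x - B.c‖ ≤ s * (B.r + N) → B.c + s • q x ∈ B.Q s N :=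
    fun x hx N h1 => ⟨sl x hx, fun l _ => (Box.abs_z hs).1 (by
      have k : |q x l| ≤ (B.r + N : ℕ) := TChi_car (e2 x hx).2
        ((abs_clamp_le (by positivity)).trans (by
          rw [div_le_iff₀' hs]
          push_cast
          exact h1))
      rw [zq]
      exact_mod_cast k)⟩
  refine ⟨fun x => B.c + s • q x, by fun_prop, fun x hx => ⟨Box.mem_fine.2 ⟨sl x hx, _,
    (e2 x hx).1, fun l _ hl => ?_⟩, ?_⟩, fun x hx h1 => ?_, fun y hy t ht h1 => ?_⟩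
  · rw [zq]
    exact dd_zero_iff.1 (by simpa using hl)
  · exact_mod_cast bd x hx 6 (by
      exact_mod_cast ((Box.mem_Q (by positivity)).1 (Box.In_Q hs hx)).2)
  · exact_mod_cast bd x hx 4 (by exact_mod_cast h1)
  · have h2 : s * (B.r + 4) ≤ ‖B.c + t • (y - B.c) - B.c‖ := by
      rw [Box.norm_ray y ht.1, hy.2, mul_left_comm]
      exact mul_le_mul_of_nonneg_left h1 hs.le
    have h3 := e1 ⟨h2, y, hy, t, ht, rfl⟩
    funext l
    show B.c l + s * q _ l = B.c l + clamp _ _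
    rw [h3, TChi_ray hs hy ht.1 h1, TChi_mul hs.le, mul_left_comm s, Box.z,
      mul_div_cancel₀ _ hs.ne']

theorem Geo.exists_chi {m : ℕ} (hm : 1 ≤ m) {ι : Type} [Finite ι] {Z : Set (V m)}
    {B : ι → Box m} {s e : ℝ} (h : Geo Z B s e) : ∃ χ, ChiOK Z B s χ := by
  choose v cv v1 v2 v3 using fun i =>
    Box.exists_chi hm (B := B i) h.s0 (h.card i) (h.r8 i).1 (h.r8 i).2
  obtain ⟨g, cg, g1, g2⟩ := glue_fin (A := Zout Z B s) (B := fun i => (B i).In s)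
    h.poly_out.1.isClosed (fun i => (h.poly_In hm i).1.isClosed)
    (fun i j hij x hx => absurd hx.2 (disjoint_left.1 (h.In_disj hij) hx.1)) continuous_id cv
    (fun i x hx => by
      have hy := h.out_In hx.1 hx.2
      have k := v3 i x hy 1 ⟨zero_le_one, le_rfl⟩ (by linarith only [])
      rw [one_smul, add_sub_cancel, one_mul, Box.clp_self hy.2.le] at k
      exact k.symm)
  refine ⟨g, cg, g1, fun i x hx => ?_, fun i x hx h1 => ?_, fun i y hy t ht h1 => ?_⟩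
  · rw [g2 i hx]
    exact v1 i x hx
  · rw [g2 i hx]
    exact v2 i x hx h1
  · rw [g2 i ⟨y, hy, t, ht, rfl⟩]
    exact v3 i y hy t ht h1

end BEp
end
end
end

-- merged part: Pool.Agent.Work.MP_f0515e_an.Pos.TInn
section
/-!
TOP, inner top cells of a cone.  `a = r + 6`, `B = B i`.

Plan.  Fix `x0 ∈ T`, `x0 = c + t0 • (y0 - c)`, `y0 ∈ L`, `0 < t0`.  Pick `i0 ∈ I` and `τ = ± 1` (an
integer) with `τ * z y0 i0 = a`, put `u x = τ * z x i0`, so `u x0 = t0 * a` and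
`a * z x0 l = z y0 l * u x0`.  `t0 < 1`: otherwise `u = a` on `T` (`SC.eq1`), so `T ⊆ L` (`L_of_In`),
against `pc_L`.  Let `W = {l ∈ I | ¬ Gam r (z y0 l)}`, `W' = insert i0 W` (`i0 ∉ W`).  For `l ∈ I \ W`,
`a * z x l = z y0 l * u x` on `T` (`SC.eq2` with `k = τ * z y0 l`), so `T` is in the plane over `W'` through
`c` with `κ l = τ * z y0 l / a` on `I`, `0` off `I`; hence `m ≤ W'.card`; no coordinate of `y0` in `W'` is
`G0` (`G0.gap`), so `Sk_force` gives `G0 r (z y0 l)` on `I \ W'` and `W'.card ≤ m`.  For `l ∈ W` take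
`lo l, hi l` from `exists_gstrip` (`-a ≤ lo l`, `hi l ≤ a` as `|z y0 l| < a`), else
`lo l = hi l = z y0 l`.  `O` is given by `0 < u x < a`, `lo l * u x < a * z x l < hi l * u x` on `W`,
`|a * z x l - z y0 l * u x| < u x` on `I \ W'`, `|x l - c l| < e` off `I` (open, convex: strict affine
inequalities).  On `O`, `|z x l| ≤ u x` for `l ∈ I` (`|z y0 l| ≤ r - 8` on `I \ W'`).  A point `x` of
`Zp ∩ O` is in `In` (`Zp_ot`, `Zp_Q6`), `x = c + t • (y - c)` with `t * a = u x`; `Sk_force` for `y` and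
`G0.eq_of_lt` give `x ∈ P`.  A point `x` of `P ∩ O` is `c + (u x / a) • (y - c)` with
`y = c + (a / u x) • (x - c) ∈ bx ⊆ L`.  `bx ⊆ L` by `mem_Sk`; `bx ⊆ closure U` by `mem_closure_seg`
towards `x0`; the image of the compact set `bx ×ˢ Icc 0 1` is closed and contains `T`.
-/

open Set Metric Filter Topology Function BEv
open scoped NNReal

noncomputable section
namespace BEp

section Aux
variable {m : ℕ} {B : Box m} {s e τ : ℝ} {x y v : V m} {i0 l : Fin (2 * m + 1)}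
  {W : Finset (Fin (2 * m + 1))} {lo hi : Fin (2 * m + 1) → ℝ} {T : Set (V m)}

theorem TInn_cz (B : Box m) (s : ℝ) (l : Fin (2 * m + 1)) : Continuous fun x => B.z s x l := by
  unfold Box.z
  fun_prop

theorem TInn_zseg (v x : V m) (t : ℝ) (l : Fin (2 * m + 1)) :
    B.z s (v + t • (x - v)) l = (1 - t) * B.z s v l + t * B.z s x l := by
  simp only [Box.z, Pi.add_apply, Pi.smul_apply, Pi.sub_apply, smul_eq_mul]
  ring

theorem TInn_z0 (hx : x ∈ B.slice) (hl : l ∉ B.I) : B.z s x l = 0 := by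
  rw [Box.z, hx l hl, sub_self, zero_div]

theorem TInn_eq (hs : 0 < s) (x : V m) (l : Fin (2 * m + 1)) :
    |x l - B.c l| = s * |B.z s x l| := by
  rw [Box.z, abs_div, abs_of_pos hs, mul_div_cancel₀ _ hs.ne']

theorem TInn_le (hs : 0 < s) (x : V m) (l : Fin (2 * m + 1)) : s * |B.z s x l| ≤ ‖x - B.c‖ :=
  (TInn_eq hs x l).ge.trans (norm_le_pi_norm (x - B.c) l)

theorem TInn_norm (hs : 0 < s) (hx : x ∈ B.slice) {R : ℝ} (hR : 0 ≤ R) :
    ‖x - B.c‖ ≤ s * R ↔ ∀ l ∈ B.I, |B.z s x l| ≤ R := by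
  rw [pi_norm_le_iff_of_nonneg (by positivity)]
  refine ⟨fun h l _ => (Box.abs_z hs).2 (h l), fun h l => (Box.abs_z hs).1 ?_⟩
  by_cases hl : l ∈ B.I
  · exact h l hl
  · rw [TInn_z0 hx hl, abs_zero]
    exact hR

theorem TInn_abs (sg : τ = 1 ∨ τ = -1) (w : ℝ) : |τ * w| = |w| := by
  rcases sg with rfl | rfl <;> simp

theorem TInn_k {r : ℕ} {w : ℝ} (sg : τ = 1 ∨ τ = -1) (hw : ∃ k : ℤ, w = k) (hb : |w| ≤ r + 30) :
    ∃ k : ℤ, |k| ≤ r + 30 ∧ ∀ y : ℝ, w * (τ * y) = k * y := by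
  obtain ⟨k, rfl⟩ := hw
  have hk : |k| ≤ r + 30 := by exact_mod_cast hb
  rcases sg with rfl | rfl
  · exact ⟨k, hk, fun y => by ring⟩
  · exact ⟨-k, by rwa [abs_neg], fun y => by push_cast; ring⟩

theorem TInn_sc1 (sc : B.SC s T) (sg : τ = 1 ∨ τ = -1) (hx : x ∈ T) (hy : y ∈ T)
    (h : τ * B.z s x i0 < B.r + 6) : τ * B.z s y i0 < B.r + 6 := by
  rcases sg with rfl | rfl
  · have := (sc.c1 i0 (B.r + 6) (abs_le.2 ⟨by omega, by omega⟩) x hx y hy).1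
    push_cast at this
    linarith [this (by linarith)]
  · have := (sc.c1 i0 (-(B.r + 6)) (abs_le.2 ⟨by omega, by omega⟩) x hx y hy).2
    push_cast at this
    linarith [this (by linarith)]

/-- The margin. -/
def TInn_d (W : Finset (Fin (2 * m + 1))) (l : Fin (2 * m + 1)) : ℝ := if l ∈ W then 0 else 1

/-- The cone, open or closed according to `R`. -/
def TInn_O (B : Box m) (s e τ : ℝ) (i0 : Fin (2 * m + 1)) (W : Finset (Fin (2 * m + 1)))
    (lo hi : Fin (2 * m + 1) → ℝ) (R : ℝ → ℝ → Prop) : Set (V m) :=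
  {x | R (τ * B.z s x i0) (B.r + 6) ∧
    (∀ l ∈ B.I, R ((lo l - TInn_d W l) * (τ * B.z s x i0)) ((B.r + 6) * B.z s x l) ∧
      R ((B.r + 6) * B.z s x l) ((hi l + TInn_d W l) * (τ * B.z s x i0))) ∧
    ∀ l, l ∉ B.I → R (-e) (s * B.z s x l) ∧ R (s * B.z s x l) e}

/-- The plane. -/
def TInn_P (B : Box m) (s τ : ℝ) (i0 : Fin (2 * m + 1)) (W : Finset (Fin (2 * m + 1)))
    (lo : Fin (2 * m + 1) → ℝ) : Set (V m) :=
  {x | x ∈ B.slice ∧ ∀ l ∈ B.I, l ∉ W → (B.r + 6) * B.z s x l = lo l * (τ * B.z s x i0)}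

theorem TInn_seg1 {p q p' q' t P Q : ℝ} (ht : t ∈ Ioc (0 : ℝ) 1) (h : p ≤ q) (h' : p' < q')
    (eP : P = (1 - t) * p + t * p') (eQ : Q = (1 - t) * q + t * q') : P < Q := by
  rw [eP, eQ]
  exact add_lt_add_of_le_of_lt (mul_le_mul_of_nonneg_left h (sub_nonneg.2 ht.2))
    (mul_lt_mul_of_pos_left h' ht.1)

theorem TInn_seg (hv : v ∈ TInn_O B s e τ i0 W lo hi (· ≤ ·))
    (hx : x ∈ TInn_O B s e τ i0 W lo hi (· < ·)) {t : ℝ} (ht : t ∈ Ioc (0 : ℝ) 1) :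
    v + t • (x - v) ∈ TInn_O B s e τ i0 W lo hi (· < ·) := by
  refine ⟨TInn_seg1 ht hv.1 hx.1 ?_ ?_, fun l hl =>
    ⟨TInn_seg1 ht (hv.2.1 l hl).1 (hx.2.1 l hl).1 ?_ ?_,
      TInn_seg1 ht (hv.2.1 l hl).2 (hx.2.1 l hl).2 ?_ ?_⟩, fun l hl =>
    ⟨TInn_seg1 ht (hv.2.2 l hl).1 (hx.2.2 l hl).1 ?_ ?_,
      TInn_seg1 ht (hv.2.2 l hl).2 (hx.2.2 l hl).2 ?_ ?_⟩⟩ <;>
  (try simp only [TInn_zseg]) <;> ring

theorem TInn_conv : Convex ℝ (TInn_O B s e τ i0 W lo hi (· < ·)) := by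
  refine convex_iff_forall_pos.2 fun v hv x hx a b ha hb hab => ?_
  convert TInn_seg (v := v) ⟨hv.1.le, fun l hl => (hv.2.1 l hl).imp le_of_lt le_of_lt,
    fun l hl => (hv.2.2 l hl).imp le_of_lt le_of_lt⟩ hx (t := b) ⟨hb, by linarith⟩ using 1
  rw [show a = 1 - b by linarith]
  module

theorem TInn_open : IsOpen (TInn_O B s e τ i0 W lo hi (· < ·)) := by
  have := TInn_cz B s
  simp only [TInn_O, ofPred_and, ofPred_forall]
  refine (isOpen_lt (by fun_prop) continuous_const).inter (IsOpen.inter ?_ ?_) <;>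
    exact isOpen_iInter_of_finite fun l => isOpen_iInter_of_finite fun _ =>
      (isOpen_lt (by fun_prop) (by fun_prop)).inter (isOpen_lt (by fun_prop) (by fun_prop))

theorem TInn_segP (hv : v ∈ TInn_P B s τ i0 W lo) (hx : x ∈ TInn_P B s τ i0 W lo) (t : ℝ) :
    v + t • (x - v) ∈ TInn_P B s τ i0 W lo := by
  refine ⟨fun l hl => by simp [hv.1 l hl, hx.1 l hl], fun l hl hW => ?_⟩
  simp only [TInn_zseg]
  linear_combination (1 - t) * hv.2 l hl hW + t * hx.2 l hl hW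

theorem TInn_plane (hs : 0 < s) (i0I : i0 ∈ B.I) (WI : W ⊆ B.I) (sg : τ = 1 ∨ τ = -1)
    (lo0 : lo i0 = τ * (B.r + 6)) : ∃ P : AffineSubspace ℝ (V m),
      Module.finrank ℝ P.direction = (insert i0 W).card ∧ (P : Set (V m)) = TInn_P B s τ i0 W lo := by
  have ha : (0 : ℝ) < B.r + 6 := by positivity
  obtain ⟨P, h1, h2⟩ := exists_plane (insert i0 W) B.c
    (fun l => if l ∈ B.I then lo l * τ / (B.r + 6) else 0) i0 (Or.inl (Finset.mem_insert_self _ _))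
  refine ⟨P, h1, Set.ext fun x => (h2 x).trans ⟨fun h => ⟨fun l hl => ?_, fun l hl hW => ?_⟩,
    fun h l hl => ?_⟩⟩
  · have := h l fun c => hl (Finset.insert_subset i0I WI c)
    rwa [if_neg hl, zero_mul, sub_eq_zero] at this
  · by_cases e0 : l = i0
    · rw [e0, lo0]
      rcases sg with rfl | rfl <;> ring
    · have := h l (by simp [e0, hW])
      rw [if_pos hl] at this
      rw [Box.z, Box.z, this]
      field_simp
  · split_ifs with hI
    · have := h.2 l hI fun c => hl (Finset.mem_insert_of_mem c)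
      rw [Box.z, Box.z] at this
      field_simp at this ⊢
      linear_combination this
    · rw [h.1 l hI, sub_self, zero_mul]

theorem TInn_closed : IsClosed (B.bx s lo hi) := by
  have := TInn_cz B s
  simp only [Box.bx, Box.slice, ofPred_and, ofPred_forall]
  refine IsClosed.inter ?_ ?_ <;>
    refine isClosed_iInter fun l => isClosed_iInter fun _ => ?_
  · exact isClosed_eq (by fun_prop) continuous_const
  · exact (isClosed_le continuous_const (this l)).inter (isClosed_le (this l) continuous_const)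

/-- The data of an inner cell. -/
structure TInn_D (B : Box m) (τ : ℝ) (i0 : Fin (2 * m + 1)) (W : Finset (Fin (2 * m + 1)))
    (lo hi : Fin (2 * m + 1) → ℝ) : Prop where
  i0I : i0 ∈ B.I
  i0W : i0 ∉ W
  WI : W ⊆ B.I
  sg : τ = 1 ∨ τ = -1
  card : (insert i0 W).card = m
  lo0 : lo i0 = τ * (B.r + 6)
  eq : ∀ l, l ∉ W → hi l = lo l
  g0 : ∀ l ∈ B.I, l ∉ insert i0 W → G0 B.r (lo l) ∧ |lo l| ≤ B.r - 8
  st : ∀ l ∈ W, ∀ u, lo l < u → u < hi l → ¬ Gam B.r u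
  bd : ∀ l ∈ B.I, -(B.r + 6 : ℝ) ≤ lo l ∧ hi l ≤ B.r + 6

namespace TInn_D

theorem pos (d : TInn_D B τ i0 W lo hi) (hx : x ∈ TInn_O B s e τ i0 W lo hi (· < ·)) :
    0 < τ * B.z s x i0 := by
  have h := hx.2.1 i0 d.i0I
  simp only [TInn_d, if_neg d.i0W, d.eq i0 d.i0W] at h
  linarith only [h, h.1, h.2]

theorem bnd (d : TInn_D B τ i0 W lo hi) (hx : x ∈ TInn_O B s e τ i0 W lo hi (· < ·))
    (hl : l ∈ B.I) : |B.z s x l| ≤ τ * B.z s x i0 := by
  have u0 := d.pos hx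
  have ha : (0 : ℝ) < B.r + 6 := by positivity
  by_cases e0 : l = i0
  · rw [e0, ← TInn_abs d.sg, abs_of_pos u0]
  have h := hx.2.1 l hl
  have b : -(B.r + 6 : ℝ) ≤ lo l - TInn_d W l ∧ hi l + TInn_d W l ≤ B.r + 6 := by
    unfold TInn_d
    split_ifs with hW
    · simpa only [sub_zero, add_zero] using d.bd l hl
    · have := abs_le.1 (d.g0 l hl (by simp [e0, hW])).2
      rw [d.eq l hW]
      constructor <;> linarith only [this, this.1, this.2]
  refine abs_le.2 ⟨le_of_mul_le_mul_left ?_ ha, le_of_mul_le_mul_left ?_ ha⟩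
  · linarith [mul_le_mul_of_nonneg_right b.1 u0.le, h.1]
  · linarith [mul_le_mul_of_nonneg_right b.2 u0.le, h.2]

theorem ot (d : TInn_D B τ i0 W lo hi) (hs : 0 < s)
    (hx : x ∈ TInn_O B s e τ i0 W lo hi (· < ·)) : x ∈ B.ot s 6 e := by
  refine ⟨fun l hl => ?_, fun l hl => ?_⟩
  · rw [TInn_eq hs]
    exact mul_lt_mul_of_pos_left ((d.bnd hx hl).trans_lt hx.1) hs
  · rw [Box.z_eq (B := B) hs.ne' x l, add_sub_cancel_left]
    exact abs_lt.2 (hx.2.2 l hl)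

theorem bx0 (d : TInn_D B τ i0 W lo hi) (hv : v ∈ B.bx s lo hi) (hl : l ∈ B.I) (hW : l ∉ W) :
    B.z s v l = lo l :=
  le_antisymm ((hv.2 l hl).2.trans_eq (d.eq l hW)) (hv.2 l hl).1

theorem bxu (d : TInn_D B τ i0 W lo hi) (hv : v ∈ B.bx s lo hi) : τ * B.z s v i0 = B.r + 6 := by
  rw [d.bx0 hv d.i0I d.i0W, d.lo0]
  rcases d.sg with rfl | rfl <;> ring

theorem bxL (d : TInn_D B τ i0 W lo hi) (hs : 0 < s) (hv : v ∈ B.bx s lo hi) : v ∈ B.L s := by
  have ha : (0 : ℝ) < B.r + 6 := by positivity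
  refine ⟨Box.mem_Sk.2 ⟨hv.1, insert i0 W, d.card.le, fun l hl hW => ?_⟩, le_antisymm
    ((TInn_norm hs hv.1 ha.le).2 fun l hl => abs_le.2 ⟨(d.bd l hl).1.trans (hv.2 l hl).1,
      (hv.2 l hl).2.trans (d.bd l hl).2⟩) ?_⟩
  · rw [d.bx0 hv hl fun c => hW (Finset.mem_insert_of_mem c)]
    exact (d.g0 l hl hW).1
  · have := TInn_le (B := B) hs v i0
    rwa [← TInn_abs d.sg, d.bxu hv, abs_of_pos ha] at this

theorem bxP (d : TInn_D B τ i0 W lo hi) (hv : v ∈ B.bx s lo hi) : v ∈ TInn_P B s τ i0 W lo :=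
  ⟨hv.1, fun l hl hW => by rw [d.bxu hv, d.bx0 hv hl hW, mul_comm]⟩

theorem bxO (d : TInn_D B τ i0 W lo hi) (he : 0 ≤ e) (hv : v ∈ B.bx s lo hi) :
    v ∈ TInn_O B s e τ i0 W lo hi (· ≤ ·) := by
  have ha : (0 : ℝ) ≤ B.r + 6 := by positivity
  refine ⟨(d.bxu hv).le, fun l hl => ?_, fun l hl => ?_⟩
  · have h0 : 0 ≤ TInn_d W l := by
      unfold TInn_d
      split_ifs <;> norm_num
    rw [d.bxu hv, mul_comm _ (B.z s v l)]
    exact ⟨mul_le_mul_of_nonneg_right (by linarith [(hv.2 l hl).1]) ha,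
      mul_le_mul_of_nonneg_right (by linarith [(hv.2 l hl).2]) ha⟩
  · rw [TInn_z0 hv.1 hl, mul_zero]
    exact ⟨neg_nonpos.2 he, he⟩

theorem cone (d : TInn_D B τ i0 W lo hi) (hP : x ∈ TInn_P B s τ i0 W lo)
    (hx : x ∈ TInn_O B s e τ i0 W lo hi (· < ·)) :
    ∃ y ∈ B.bx s lo hi, ∃ t ∈ Icc (0 : ℝ) 1, x = B.c + t • (y - B.c) := by
  have u0 := d.pos hx
  have ha : (0 : ℝ) < B.r + 6 := by positivity
  refine ⟨B.c + ((B.r + 6) / (τ * B.z s x i0)) • (x - B.c), ⟨Box.slice_ray hP.1 _, fun l hl => ?_⟩,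
    τ * B.z s x i0 / (B.r + 6), ⟨by positivity, (div_le_one ha).2 hx.1.le⟩, ?_⟩
  · rw [Box.z_ray, div_mul_eq_mul_div, le_div_iff₀ u0, div_le_iff₀ u0]
    by_cases hW : l ∈ W
    · have := hx.2.1 l hl
      simp only [TInn_d, if_pos hW, sub_zero, add_zero] at this
      exact ⟨this.1.le, this.2.le⟩
    · rw [hP.2 l hl hW, d.eq l hW]
      exact ⟨le_rfl, le_rfl⟩
  · rw [add_sub_cancel_left, smul_smul, div_mul_div_cancel₀ ha.ne', div_self u0.ne', one_smul,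
      add_sub_cancel]

theorem inP (d : TInn_D B τ i0 W lo hi) (hs : 0 < s) (h8 : 8 ∣ B.r) (hI : x ∈ B.In s)
    (hx : x ∈ TInn_O B s e τ i0 W lo hi (· < ·)) : x ∈ TInn_P B s τ i0 W lo := by
  have u0 := d.pos hx
  have ha : (0 : ℝ) < B.r + 6 := by positivity
  have hs' := (Box.In_Q hs hI).1
  have n1 := (TInn_norm hs hs' u0.le).2 fun l => d.bnd hx
  have n2 := TInn_le (B := B) hs x i0
  rw [← TInn_abs d.sg, abs_of_pos u0] at n2
  obtain ⟨y, hy, t, ht, rfl⟩ := hI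
  rw [Box.norm_ray y ht.1, hy.2] at n1 n2
  have e1 := mul_left_cancel₀ hs.ne' ((le_antisymm n2 n1).trans (mul_left_comm _ _ _))
  have hz := hx.2.1
  rw [e1] at u0 hz
  have t0 : 0 < t := (mul_pos_iff_of_pos_right ha).1 u0
  have k : ∀ l ∈ B.I, lo l - TInn_d W l < B.z s y l ∧ B.z s y l < hi l + TInn_d W l := by
    intro l hl
    have := hz l hl
    rw [Box.z_ray] at this
    exact ⟨lt_of_mul_lt_mul_right (by linarith [this.1]) u0.le,
      lt_of_mul_lt_mul_right (by linarith [this.2]) u0.le⟩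
  have e2 : τ * B.z s y i0 = B.r + 6 := by
    rw [Box.z_ray, mul_left_comm] at e1
    exact mul_left_cancel₀ t0.ne' e1
  have g := Box.Sk_force hy.1 (Finset.insert_subset d.i0I d.WI) d.card.ge fun l hl c => by
    rcases Finset.mem_insert.1 hl with rfl | hW
    · have := c.gap h8
      rw [← TInn_abs d.sg, e2, abs_of_pos ha] at this
      rcases this with c | c <;> linarith only [c]
    · have := k l (d.WI hW)
      simp only [TInn_d, if_pos hW, sub_zero, add_zero] at this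
      exact d.st l hW _ this.1 this.2 (Or.inl c)
  refine ⟨hs', fun l hl hW => ?_⟩
  by_cases e0 : l = i0
  · rw [e0, d.lo0]
    rcases d.sg with rfl | rfl <;> ring
  have h1 : l ∉ insert i0 W := by simp [e0, hW]
  have h2 := k l hl
  simp only [TInn_d, if_neg hW, d.eq l hW] at h2
  rw [e1, Box.z_ray, (g l hl h1).eq_of_lt (d.g0 l hl h1).1
    (abs_lt.2 ⟨by linarith [h2.1], by linarith [h2.2]⟩)]
  ring

end TInn_D

end Aux

variable {m : ℕ} {ι : Type} {Z : Set (V m)} {B : ι → Box m} {s e : ℝ}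

theorem Geo.cls_in (hm : 1 ≤ m) (h : Geo Z B s e) (i : ι) {T : Set (V m)}
    (hT : T ⊆ (B i).In s) (sc : (B i).SC s T) (np : ¬ PC (m - 1) T) (hc : (B i).c ∉ T) :
    (B i).Cls s (Zp Z B s) (range (ctr B)) T := by
  have hs := h.s0
  have h8 := (h.r8 i).1
  have ha : (0 : ℝ) < (B i).r + 6 := by positivity
  obtain ⟨x0, hx0⟩ : T.Nonempty :=
    nonempty_iff_ne_empty.2 fun c => np ⟨∅, finite_empty, by simp, by simp [c]⟩
  obtain ⟨y0, hy0, t0, ht0, e0⟩ := hT hx0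
  have t00 : 0 < t0 := ht0.1.lt_of_ne fun c => hc (by
    rw [← c, zero_smul, add_zero] at e0
    exact e0 ▸ hx0)
  have hb := (TInn_norm hs hy0.1.1 ha.le).1 hy0.2.le
  obtain ⟨i0, i0I, hi0⟩ : ∃ l ∈ (B i).I, |(B i).z s y0 l| = (B i).r + 6 := by
    by_contra hn
    refine hy0.2.not_lt ((pi_norm_lt_iff (mul_pos hs ha)).2 fun l =>
      (TInn_eq hs y0 l).trans_lt (mul_lt_mul_of_pos_left ?_ hs))
    by_cases hl : l ∈ (B i).I
    · exact (hb l hl).lt_of_ne fun c => hn ⟨l, hl, c⟩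
    · rw [TInn_z0 hy0.1.1 hl, abs_zero]
      exact ha
  obtain ⟨τ, sg, z0⟩ : ∃ τ : ℝ, (τ = 1 ∨ τ = -1) ∧ (B i).z s y0 i0 = τ * ((B i).r + 6) := by
    rcases (abs_eq ha.le).1 hi0 with c | c
    exacts [⟨1, Or.inl rfl, by rw [c, one_mul]⟩, ⟨-1, Or.inr rfl, by rw [c, neg_one_mul]⟩]
  have zx : ∀ l, (B i).z s x0 l = t0 * (B i).z s y0 l := fun l => by rw [e0, Box.z_ray]
  have u0 : τ * (B i).z s x0 i0 = t0 * ((B i).r + 6) := by
    rw [zx, z0]
    rcases sg with rfl | rfl <;> ring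
  have u1 : τ * (B i).z s x0 i0 < (B i).r + 6 := by
    by_contra hn
    refine np ((Box.pc_L hs h8).mono fun x hx => Box.L_of_In hs (hT hx)
      (le_trans (mul_le_mul_of_nonneg_left ?_ hs.le) (TInn_le hs x i0)))
    rw [← TInn_abs sg]
    exact (not_lt.1 fun c => hn (TInn_sc1 sc sg hx hx0 c)).trans (le_abs_self _)
  obtain ⟨W, hW⟩ : ∃ W : Finset (Fin (2 * m + 1)),
      ∀ l, l ∈ W ↔ l ∈ (B i).I ∧ ¬ Gam (B i).r ((B i).z s y0 l) := by
    classical exact ⟨(B i).I.filter _, fun l => Finset.mem_filter⟩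
  have WI : W ⊆ (B i).I := fun l hl => ((hW l).1 hl).1
  have i0W : i0 ∉ W := fun c => ((hW i0).1 c).2 (Or.inr hi0)
  have ex : ∀ l, ∃ lo hi : ℝ, (l ∈ W → Gam (B i).r lo ∧ Gam (B i).r hi ∧ lo < (B i).z s y0 l ∧
      (B i).z s y0 l < hi ∧ ∀ u, lo < u → u < hi → ¬ Gam (B i).r u) ∧
      (l ∉ W → lo = (B i).z s y0 l ∧ hi = (B i).z s y0 l) := fun l => by
    by_cases hl : l ∈ W
    · obtain ⟨lo, hi, c⟩ := exists_gstrip ((hW l).1 hl).2
      exact ⟨lo, hi, fun _ => c, fun c => absurd hl c⟩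
    · exact ⟨_, _, fun c => absurd c hl, fun _ => ⟨rfl, rfl⟩⟩
  choose lo hi f1 f2 using ex
  have lo0 : lo i0 = τ * ((B i).r + 6) := (f2 i0 i0W).1.trans z0
  have gam : ∀ l ∈ (B i).I, Gam (B i).r (lo l) ∧ Gam (B i).r (hi l) := fun l hl => by
    by_cases c : l ∈ W
    · exact ⟨(f1 l c).1, (f1 l c).2.1⟩
    · rw [(f2 l c).1, (f2 l c).2, and_self]
      exact not_not.1 fun c' => c ((hW l).2 ⟨hl, c'⟩)
  have st : ∀ l, lo l - TInn_d W l < (B i).z s y0 l ∧ (B i).z s y0 l < hi l + TInn_d W l ∧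
      lo l ≤ (B i).z s y0 l ∧ (B i).z s y0 l ≤ hi l ∧ 0 ≤ TInn_d W l ∧ TInn_d W l ≤ 1 ∧
      ∃ k : ℤ, TInn_d W l = k := fun l => by
    unfold TInn_d
    split_ifs with c
    · have := (f1 l c).2.2
      exact ⟨by linarith only [this], by linarith, this.1.le, this.2.1.le, le_rfl, zero_le_one, 0, by simp⟩
    · rw [(f2 l c).1, (f2 l c).2]
      exact ⟨by linarith, by linarith, le_rfl, le_rfl, zero_le_one, le_rfl, 1, by simp⟩
  have bd : ∀ l ∈ (B i).I, -((B i).r + 6 : ℝ) ≤ lo l ∧ hi l ≤ (B i).r + 6 := fun l hl => by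
    by_cases c : l ∈ W
    · have := abs_lt.1 ((hb l hl).lt_of_ne fun c' => ((hW l).1 c).2 (Or.inr c'))
      obtain ⟨-, -, a1, a2, a3⟩ := f1 l c
      exact ⟨not_lt.1 fun c' => a3 _ c' (this.1.trans a2) (Or.inr (by rw [abs_neg, abs_of_pos ha])),
        not_lt.1 fun c' => a3 _ (a1.trans this.2) c' (Or.inr (abs_of_pos ha))⟩
    · rw [(f2 l c).1, (f2 l c).2]
      exact abs_le.1 (hb l hl)
  have TP' : T ⊆ TInn_P (B i) s τ i0 W lo := fun x hx => ⟨(Box.In_Q hs (hT hx)).1, fun l hl c => by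
    obtain ⟨k, hk⟩ := (gam l hl).1.even h8
    obtain ⟨k', a1, a2⟩ := TInn_k (r := (B i).r) (w := lo l) sg ⟨2 * k, by rw [hk]; push_cast; rfl⟩
      (by rw [(f2 l c).1]; linarith only [hb, hl, hb l hl])
    rw [a2]
    refine sc.eq2 a1 hx0 hx ?_
    rw [← a2, u0, zx, (f2 l c).1]
    ring⟩
  obtain ⟨P, P1, P2⟩ := TInn_plane hs i0I WI sg lo0
  have c1 : m ≤ (insert i0 W).card := not_lt.1 fun c => np ⟨{P}, finite_singleton _,
    fun Q hQ => by rw [hQ, P1]; omega, fun x hx => ⟨P, rfl, P2.ge (TP' hx)⟩⟩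
  have ng : ∀ l ∈ insert i0 W, ¬ G0 (B i).r ((B i).z s y0 l) := fun l hl c => by
    rcases Finset.mem_insert.1 hl with rfl | c'
    · have := c.gap h8
      rw [hi0] at this
      rcases this with c | c <;> linarith only [c]
    · exact ((hW l).1 c').2 (Or.inl c)
  have c2 : (insert i0 W).card ≤ m := by
    obtain ⟨W', a1, a2⟩ := (Box.mem_Sk.1 hy0.1).2
    exact (Finset.card_le_card fun l hl => not_not.1 fun c =>
      ng l hl (a2 l (Finset.insert_subset i0I WI hl) c)).trans a1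
  have d : TInn_D (B i) τ i0 W lo hi := ⟨i0I, i0W, WI, sg, le_antisymm c2 c1, lo0,
    fun l c => (f2 l c).2.trans (f2 l c).1.symm, fun l hl c => by
      have g := Box.Sk_force hy0.1 (Finset.insert_subset i0I WI) c1 ng l hl c
      rw [(f2 l fun c' => c (Finset.mem_insert_of_mem c')).1]
      exact ⟨g, (g.gap h8).resolve_right (by linarith only [hb, hl, hb l hl] : _ < _).not_ge⟩,
    fun l c => (f1 l c).2.2.2.2, bd⟩
  have TO : T ⊆ TInn_O (B i) s e τ i0 W lo hi (· < ·) := fun x hx => by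
    refine ⟨TInn_sc1 sc sg hx0 hx u1, fun l hl => ?_, fun l hl => ?_⟩
    · obtain ⟨a1, a2, a3, a4, a5, a6, k, hk⟩ := st l
      obtain ⟨k1, b1⟩ := (gam l hl).1.even h8
      obtain ⟨k2, b2⟩ := (gam l hl).2.even h8
      have b3 := abs_le.1 (hb l hl)
      have b4 := bd l hl
      have b5 := mul_pos t00 ha
      obtain ⟨j1, p1, q1⟩ := TInn_k (r := (B i).r) (w := lo l - TInn_d W l) sg
        ⟨2 * k1 - k, by rw [b1, hk]; push_cast; rfl⟩ (abs_le.2 ⟨by linarith only [a6, b4], by linarith only [a1, b3]⟩)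
      obtain ⟨j2, p2, q2⟩ := TInn_k (r := (B i).r) (w := hi l + TInn_d W l) sg
        ⟨2 * k2 + k, by rw [b2, hk]; push_cast; rfl⟩ (abs_le.2 ⟨by linarith only [a2, b3], by linarith only [a6, b4]⟩)
      rw [q1, q2]
      refine ⟨(sc.c2 l i0 j1 p1 x0 hx0 x hx).2 ?_, (sc.c2 l i0 j2 p2 x0 hx0 x hx).1 ?_⟩
      · rw [← q1, u0, zx]
        linarith only [a1, b5, mul_lt_mul_of_pos_right a1 b5]
      · rw [← q2, u0, zx]
        linarith only [a2, b5, mul_lt_mul_of_pos_right a2 b5]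
    · rw [TInn_z0 (TP' hx).1 hl, mul_zero]
      exact ⟨neg_lt_zero.2 h.e0, h.e0⟩
  have PZ : ∀ x ∈ TInn_P (B i) s τ i0 W lo, x ∈ TInn_O (B i) s e τ i0 W lo hi (· < ·) →
      x ∈ Zp Z B s := fun x a b => by
    obtain ⟨y, hy, t, ht, c⟩ := d.cone a b
    exact Geo.In_Zp (i := i) ⟨y, d.bxL hs hy, t, ht, c⟩
  refine ⟨lo, hi, Zp Z B s ∩ TInn_O (B i) s e τ i0 W lo hi (· < ·), gam,
    flat_of (P1.trans d.card) TInn_open TInn_conv ?_ ?_,
    fun x hx => ⟨Geo.In_Zp (hT hx), TO hx⟩, fun v hv => mem_closure_seg (x := x0) fun t ht => ?_,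
    fun v hv => ⟨Box.Q_monoP hs.le (by norm_num) (Box.L_Q hs (d.bxL hs hv)), (d.bxL hs hv).2.ge⟩,
    fun x hx => ?_⟩
  · rw [P2]
    exact Set.ext fun x => and_congr_left fun b => ⟨fun a => d.inP hs h8
      (h.Zp_Q6 a (h.Zp_ot (by norm_num) a (d.ot hs b))) b, fun a => PZ x a b⟩
  · refine disjoint_left.2 ?_
    rintro _ ⟨-, b⟩ ⟨j, rfl⟩
    obtain rfl : j = i := h.eq_of_th (h.Q_th (by norm_num) (h.c_Q j le_rfl))
      (Box.thick_mono hs.le (by norm_num) le_rfl (Box.ot_thick (d.ot hs b)))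
    simpa [Box.z, ctr] using d.pos b
  · have b := TInn_seg (d.bxO h.e0.le hv) (TO hx0) ht
    exact ⟨PZ _ (TInn_segP (d.bxP hv) (TP' hx0) t) b, b⟩
  · have K : IsCompact ((fun p : V m × ℝ => (B i).c + p.2 • (p.1 - (B i).c)) ''
        ((B i).bx s lo hi ×ˢ Icc 0 1)) :=
      (((Box.poly_Q (ρ := 6)).1.of_isClosed_subset TInn_closed
        fun v hv => Box.L_Q hs (d.bxL hs hv)).prod isCompact_Icc).image (by fun_prop)
    obtain ⟨p, hp, rfl⟩ := closure_minimal (fun y hy => by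
      obtain ⟨v, hv, t, ht, c⟩ := d.cone (TP' hy) (TO hy)
      exact ⟨(v, t), ⟨hv, ht⟩, c.symm⟩) K.isClosed hx
    exact ⟨p.1, hp.1, p.2, hp.2, rfl, Or.inr (d.bxL hs hp.1)⟩

end BEp
end
end

-- merged part: Pool.Agent.Work.MP_f0515e_an.Pos.TEst
section
/-! TOP, estimates, gluing and perturbation. -/

open Set Metric Filter Topology Function BEv
open scoped NNReal

noncomputable section
namespace BEp

variable {m : ℕ} {ι : Type} {S Z : Set (V m)} {c0 : V m} {f g : V m → V m} {B : ι → Box m}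
  {s e η : ℝ} {ε : ι → ℝ}

theorem TopHyp.aff_low (h : TopHyp S Z c0 f B s ε) (i : ι) {x y : V m} (hx : x ∈ (B i).slice)
    (hy : y ∈ (B i).slice) : 1000 * ε i * ‖x - y‖ ≤ s * ‖(B i).aff x - (B i).aff y‖ := by
  rw [Box.aff_sub]
  exact h.low i _ (Box.dir_sub hx hy)

theorem TopHyp.est_inj (h : TopHyp S Z c0 f B s ε) {i j : ι} {x y : V m} (hx : x ∈ (B i).Q s 12)
    (hy : y ∈ (B j).Q s 12) (e : (B i).aff x = (B j).aff y) : x = y := by
  by_cases k : i = j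
  · subst k
    have h1 := h.aff_low i hx.1 hy.1
    rw [e, sub_self, norm_zero, mul_zero] at h1
    have h2 := h.ε0 i
    exact sub_eq_zero.1 (norm_le_zero_iff.1 (le_of_mul_le_mul_left (a := 1000 * ε i)
      (by rwa [mul_zero]) (by positivity)))
  · have h1 := h.sep i j k x hx y hy
    rw [e, sub_self, norm_zero] at h1
    linarith only [h1, h, h.ε0 i]

theorem TopHyp.est_far (h : TopHyp S Z c0 f B s ε) (i : ι) {x y : V m} (hx : x ∈ (B i).slice)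
    (hy : y ∈ (B i).slice) (k : 2 * s ≤ ‖x - y‖) :
    2000 * ε i ≤ ‖(B i).aff x - (B i).aff y‖ := by
  have h1 := h.aff_low i hx hy
  have h2 := mul_le_mul_of_nonneg_left k (show 0 ≤ 1000 * ε i by linarith [h.ε0 i])
  exact le_of_mul_le_mul_left (by linarith) h.s0

theorem Geo.exists_glue [Finite ι] (h : Geo Z B s e) (hg : TP g)
    (h1 : ∀ i, EqOn g (B i).aff (Z ∩ (B i).Q s 10)) :
    ∃ g', TP g' ∧ EqOn g' g Z ∧ ∀ i, EqOn g' (B i).aff ((B i).Q s 10) := by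
  classical
  have := Fintype.ofFinite ι
  have gl : ∀ i, ∃ d : V m → V m, TP d ∧ EqOn d (fun x => (B i).aff x - g x) ((B i).Q s 10) ∧
      ∀ y ∈ Z ∪ ⋃ j ∈ {j | j ≠ i}, (B j).Q s 10, d y = 0 := fun i =>
    Box.poly_Q.glue (h.poly.union (Poly.biUnion (toFinite _) fun _ _ => Box.poly_Q))
      (Box.tp_aff.sub hg) (by
        rintro x ⟨hx, k | k⟩
        · exact sub_eq_zero.2 (h1 i ⟨k, hx⟩).symm
        · obtain ⟨j, hj, k⟩ := mem_iUnion₂.1 k
          exact absurd (h.eq_of_Q (by norm_num) (by norm_num) k hx) hj)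
  choose d d1 d2 d3 using gl
  refine ⟨fun x => g x + ∑ i, d i x, hg.add (TP.sum _ fun i _ => d1 i), fun x hx => ?_,
    fun i x hx => ?_⟩
  · simp only
    rw [Finset.sum_eq_zero fun i _ => d3 i x (Or.inl hx), add_zero]
  · simp only
    rw [Finset.sum_eq_single i (fun j _ k => d3 j x (Or.inr (mem_iUnion₂.2 ⟨i, k.symm, hx⟩)))
      (by simp), d2 i hx, add_sub_cancel]

theorem TopHyp.exists_ghyp [Finite ι] (hm : 1 ≤ m) (h : TopHyp S Z c0 f B s ε) (geo : Geo Z B s e)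
    (h0 : 0 < η) (hη : ∀ i, η ≤ 2 * ε i) (hg : TP g)
    (h1 : ∀ i, EqOn g (B i).aff (Z ∩ (B i).Q s 10))
    (h2 : ∀ i, ∀ x ∈ Z ∩ (B i).Q s 12, ‖g x - (B i).aff x‖ ≤ 2 * ε i)
    (h3 : ∀ x ∈ Z, (∀ i, x ∉ (B i).Q s 12) → ‖g x - f x‖ ≤ η / 2) {θ : ℝ≥0} (hθ : 0 < θ) :
    ∃ g' δ : V m → V m, GHyp Z B s f ε η g' ∧ TP δ ∧ LipschitzWith θ δ ∧ (∀ x, ‖δ x‖ ≤ θ) ∧
      ∀ x ∈ Z, g' x = g x + δ x := by
  have hs := h.s0
  obtain ⟨g1, a1, a2, a3⟩ := geo.exists_glue hg h1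
  have near : ∀ x ∈ Zp Z B s, (⋃ i ∈ (univ : Set ι), (B i).Q s 8).Nonempty →
      infDist x (⋃ i ∈ (univ : Set ι), (B i).Q s 8) < min e (2 * s) → ∃ i, x ∈ (B i).Q s 10 := by
    intro x hx ne k
    obtain ⟨y, hy, k1⟩ := (infDist_lt_iff ne).1 k
    obtain ⟨i, -, hy⟩ := mem_iUnion₂.1 hy
    obtain ⟨k2, k3⟩ := lt_min_iff.1 k1
    have k4 : ∀ l, |x l - y l| ≤ dist x y := fun l => dist_le_pi_dist x y l
    refine ⟨i, geo.Zp_ot (by norm_num) hx ⟨fun l hl => ?_, fun l hl => ?_⟩⟩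
    · have := abs_sub_le (x l) (y l) ((B i).c l)
      linarith only [k3, this, k4, hy, hl, k4 l, hy.2 l hl]
    · rw [← hy.1 l hl]
      exact (k4 l).trans_lt k2
  obtain ⟨δ, d1, d2, d3, d4, d5⟩ := exists_pert (geo.poly_Zp hm) geo.pc_Zp (by omega)
    (Poly.biUnion (S := (univ : Set ι)) finite_univ fun i _ => Box.poly_Q (B := B i) (s := s) (ρ := 8))
    a1 (lt_min geo.e0 (show 0 < 2 * s by positivity)) (fun x hx y hy k => by
      obtain ⟨i, hi⟩ := near x hx.1 hx.2.1 hx.2.2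
      obtain ⟨j, hj⟩ := near y hy.1 hy.2.1 hy.2.2
      exact h.est_inj (Box.Q_monoP hs.le (by norm_num) hi) (Box.Q_monoP hs.le (by norm_num) hj)
        ((a3 i hi).symm.trans (k.trans (a3 j hj))))
    (θ := min θ ⟨η / 2, by positivity⟩) (lt_min hθ (by
      rw [← NNReal.coe_pos]
      exact half_pos h0))
  have d6 : ∀ x, ‖δ x‖ ≤ η / 2 := fun x => (d3 x).trans (NNReal.coe_le_coe.2 (min_le_right _ _))
  have tri : ∀ x ∈ Z, ∀ w, ‖g1 x + δ x - w‖ ≤ ‖g x - w‖ + η / 2 := fun x hx w => by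
    rw [a2 hx, add_sub_right_comm]
    exact (norm_add_le _ _).trans (add_le_add le_rfl (d6 x))
  refine ⟨fun x => g1 x + δ x, δ, ⟨a1.add d1, hη, fun i x hx => ?_, fun i x hx => ?_,
    fun x hx k => ?_, d5⟩, d1, d2.weaken (min_le_left _ _),
    fun x => (d3 x).trans (NNReal.coe_le_coe.2 (min_le_left _ _)), fun x hx => congrArg (· + δ x) (a2 hx)⟩
  · rw [d4 x (mem_iUnion₂.2 ⟨i, mem_univ _, hx⟩), add_zero]
    exact a3 i (Box.Q_monoP hs.le (by norm_num) hx)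
  · have t := tri x hx.1 ((B i).aff x)
    have := hη i
    by_cases k : x ∈ (B i).Q s 12
    · linarith only [t, this, h2, hx, k, h2 i x ⟨hx.1, k⟩]
    · have k1 := h3 x hx.1 fun j hj =>
        k (geo.eq_of_Q (by norm_num) (by norm_num) hj hx.2 ▸ hj)
      have k2 : s * ((B i).r + 12) < ‖x - (B i).c‖ := not_le.1 fun c =>
        k ((Box.mem_Q (geo.pos i (by norm_num)).le).2 ⟨hx.2.1, c⟩)
      have k3 := h.close i x ⟨Box.Sk_fine ((geo.sk i x (Box.Q_monoP hs.le (by norm_num) hx.2)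
        (by linarith only [hs, k2])).1 hx.1), Box.Q_monoP hs.le (by norm_num) hx.2⟩
      linarith only [t, this, k1, k3, norm_sub_le_norm_sub_add_norm_sub (g x) (f x) ((B i).aff x)]
  · linarith only [tri, hx, h3, k, tri x hx (f x), h3 x hx k]

theorem GHyp.away (h : TopHyp S Z c0 f B s ε) (hg : GHyp Z B s f ε η g) (i : ι) {x y : V m}
    (hx : x ∈ Z) (h1 : x ∉ (B i).Q s 8) (hy : y ∈ (B i).Q s 6) :
    ε i < ‖g x - (B i).aff y‖ := by
  have hs := h.s0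
  have e0 := h.ε0 i
  have y12 : y ∈ (B i).Q s 12 := Box.Q_monoP hs.le (by norm_num) hy
  have tri : ∀ w, ‖w - (B i).aff y‖ ≤ ‖g x - w‖ + ‖g x - (B i).aff y‖ := fun w => by
    rw [norm_sub_rev (g x) w]
    exact norm_sub_le_norm_sub_add_norm_sub _ _ _
  by_cases k : x ∈ (B i).Q s 16
  · have k2 : s * ((B i).r + 8) < ‖x - (B i).c‖ := not_le.1 fun c =>
      h1 ((Box.mem_Q (by positivity)).2 ⟨k.1, c⟩)
    have k3 := ((Box.mem_Q (by positivity)).1 hy).2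
    have k4 := norm_sub_le_norm_sub_add_norm_sub x y (B i).c
    linarith only [e0, h, k, hy, k2, k3, k4, tri, hg, hx, h.est_far i k.1 hy.1 (by linarith), tri ((B i).aff x), hg.near i x ⟨hx, k⟩]
  · by_cases k' : ∀ j, x ∉ (B j).Q s 12
    · linarith only [e0, tri, hg, hx, k', h, y12, k, tri (f x), hg.far x hx k', hg.le i, h.nohit i y y12 x hx k]
    · push Not at k'
      obtain ⟨j, hj⟩ := k'
      have j16 : x ∈ (B j).Q s 16 := Box.Q_monoP hs.le (by norm_num) hj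
      have ij : i ≠ j := fun c => k (c ▸ j16)
      have k1 := h.sep j i ij.symm x hj y y12
      rw [norm_sub_rev] at k1
      linarith only [e0, k1, tri, hg, hx, j16, h, ij, y12, hj, tri ((B j).aff x), hg.near j x ⟨hx, j16⟩, h.sep i j ij y y12 x hj]

theorem GHyp.injX (h : TopHyp S Z c0 f B s ε) (hg : GHyp Z B s f ε η g) :
    InjOn g (Zout Z B s ∪ ⋃ i, (B i).Q s 6) := by
  have hs := h.s0
  have qq : ∀ i j, ∀ x ∈ (B i).Q s 8, ∀ y ∈ (B j).Q s 8, g x = g y → x = y := fun i j x hx y hy k =>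
    h.est_inj (Box.Q_monoP hs.le (by norm_num) hx) (Box.Q_monoP hs.le (by norm_num) hy)
      ((hg.eq i hx).symm.trans (k.trans (hg.eq j hy)))
  have q8 : ∀ i, (B i).Q s 6 ⊆ (B i).Q s 8 := fun i => Box.Q_monoP hs.le (by norm_num)
  have oq : ∀ x ∈ Zout Z B s, ∀ i, ∀ y ∈ (B i).Q s 6, g x = g y → x = y := fun x hx i y hy k => by
    by_cases c : x ∈ (B i).Q s 8
    · exact qq i i x c y (q8 i hy) k
    · have := hg.away h i hx.1 c hy
      rw [k, hg.eq i (q8 i hy), sub_self, norm_zero] at this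
      linarith [h.ε0 i]
  rintro x (hx | hx) y (hy | hy) k
  · exact hg.inj (Or.inl hx) (Or.inl hy) k
  · obtain ⟨j, hj⟩ := mem_iUnion.1 hy
    exact oq x hx j y hj k
  · obtain ⟨i, hi⟩ := mem_iUnion.1 hx
    exact (oq y hy i x hi k.symm).symm
  · obtain ⟨i, hi⟩ := mem_iUnion.1 hx
    obtain ⟨j, hj⟩ := mem_iUnion.1 hy
    exact qq i j x (q8 i hi) y (q8 j hj) k

theorem GHyp.line (h : TopHyp S Z c0 f B s ε) (geo : Geo Z B s e) (hg : GHyp Z B s f ε η g)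
    {u v : V m} (hu : u ∈ Zout Z B s ∪ ⋃ i, (B i).fine s ∩ (B i).Q s 6)
    (hv : v ∈ Zout Z B s ∪ ⋃ i, (B i).fine s ∩ (B i).Q s 6)
    (h2 : ∀ i, u ∈ (B i).Q s 16 → v ∈ (B i).Q s 16 → 2 * s ≤ ‖u - v‖)
    (h3 : 2 * η < ‖f u - f v‖) {t : ℝ} (ht : t ∈ Icc (0 : ℝ) 1) :
    lin (tl g) (tl f) ((u, v), t) ≠ 0 := by
  have hs := h.s0
  obtain ⟨k, hk⟩ : ∃ k : V m → V m, k = fun u => (1 - t) • g u + t • f u := ⟨_, rfl⟩
  have cv : ∀ u w (b : ℝ), ‖g u - w‖ ≤ b → ‖f u - w‖ ≤ b → ‖k u - w‖ ≤ b := fun u w b k1 k2 => by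
    rw [hk]
    exact mem_closedBall_iff_norm.1 (convex_closedBall w b (mem_closedBall_iff_norm.2 k1)
      (mem_closedBall_iff_norm.2 k2) (sub_nonneg.2 ht.2) ht.1 (sub_add_cancel _ _))
  have A : ∀ u ∈ Zout Z B s ∪ ⋃ i, (B i).fine s ∩ (B i).Q s 6, ∀ i, u ∈ (B i).Q s 16 →
      ‖k u - (B i).aff u‖ ≤ 3 * ε i := by
    intro u hu i hi
    have e0 := h.ε0 i
    have i40 : u ∈ (B i).Q s 40 := Box.Q_monoP hs.le (by norm_num) hi
    rcases hu with hu | hu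
    · exact cv u _ _ (hg.near i u ⟨hu.1, hi⟩) ((h.close i u ⟨Box.Sk_fine
        (geo.out_Sk hu (Box.Q_monoP hs.le (by norm_num) hi)), i40⟩).trans (by linarith))
    · obtain ⟨j, hj⟩ := mem_iUnion.1 hu
      obtain rfl := geo.eq_of_Q (by norm_num) (by norm_num) hj.2 hi
      refine cv u _ _ ?_ ((h.close j u ⟨hj.1, i40⟩).trans (by linarith))
      rw [hg.eq j (Box.Q_monoP hs.le (by norm_num) hj.2), sub_self, norm_zero]
      linarith
  have C : ∀ u ∈ Zout Z B s ∪ ⋃ i, (B i).fine s ∩ (B i).Q s 6, (∀ i, u ∉ (B i).Q s 12) →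
      u ∈ Z ∧ ‖k u - f u‖ ≤ η := by
    intro u hu hn
    rcases hu with hu | hu
    · have := hg.far u hu.1 hn
      exact ⟨hu.1, cv u _ _ this (by
        rw [sub_self, norm_zero]
        exact (norm_nonneg _).trans this)⟩
    · obtain ⟨j, hj⟩ := mem_iUnion.1 hu
      exact absurd (Box.Q_monoP hs.le (by norm_num) hj.2) (hn j)
  have tri : ∀ w a b : V m, ‖a - b‖ ≤ ‖w - a‖ + ‖w - b‖ := fun w a b => by
    rw [norm_sub_rev w a]
    exact norm_sub_le_norm_sub_add_norm_sub _ _ _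
  have one : ∀ u ∈ Zout Z B s ∪ ⋃ i, (B i).fine s ∩ (B i).Q s 6,
      ∀ v ∈ Zout Z B s ∪ ⋃ i, (B i).fine s ∩ (B i).Q s 6, ∀ i, u ∈ (B i).Q s 12 →
      (v ∈ (B i).Q s 16 → 2 * s ≤ ‖u - v‖) → k u ≠ k v := by
    intro u hu v hv i hi h2 c
    have e0 := h.ε0 i
    have a1 := A u hu i (Box.Q_monoP hs.le (by norm_num) hi)
    rw [c] at a1
    by_cases c1 : v ∈ (B i).Q s 16
    · linarith [h.est_far i hi.1 c1.1 (h2 c1), A v hv i c1, tri (k v) ((B i).aff u) ((B i).aff v)]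
    · by_cases c2 : ∀ j, v ∉ (B j).Q s 12
      · obtain ⟨b1, b2⟩ := C v hv c2
        linarith [h.nohit i u hi v b1 c1, tri (k v) (f v) ((B i).aff u), hg.le i]
      · push Not at c2
        obtain ⟨j, hj⟩ := c2
        have j16 : v ∈ (B j).Q s 16 := Box.Q_monoP hs.le (by norm_num) hj
        have ij : i ≠ j := fun c => c1 (c ▸ j16)
        have k1 := h.sep j i ij.symm v hj u hi
        rw [norm_sub_rev] at k1
        linarith only [e0, a1, k1, h, ij, hi, hj, A, hv, j16, tri, h.sep i j ij u hi v hj, A v hv j j16, tri (k v) ((B j).aff v) ((B i).aff u),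
          h.ε0 j]
  have e : lin (tl g) (tl f) ((u, v), t) = k u - k v := by
    simp only [lin, tl, hk]
    module
  rw [e, sub_ne_zero]
  by_cases cu : ∀ i, u ∉ (B i).Q s 12
  · by_cases cv : ∀ i, v ∉ (B i).Q s 12
    · intro c
      have b1 := (C u hu cu).2
      rw [c] at b1
      linarith [(C v hv cv).2, tri (k v) (f u) (f v)]
    · push Not at cv
      obtain ⟨i, hi⟩ := cv
      exact (one v hv u hu i hi fun c => by
        rw [norm_sub_rev]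
        exact h2 i c (Box.Q_monoP hs.le (by norm_num) hi)).symm
  · push Not at cu
    obtain ⟨i, hi⟩ := cu
    exact one u hu v hv i hi (h2 i (Box.Q_monoP hs.le (by norm_num) hi))

/-- Thin thick boxes have affine images close to the images of the boxes. -/
theorem exists_thin [Finite ι] (hε : ∀ i, 0 < ε i) (he : 0 < e) {M : ι → V m →L[ℝ] V m}
    (hM : ∀ i v, (B i).Dir v → M i v = (B i).A v) : ∃ e', 0 < e' ∧ e' ≤ e ∧
      ∀ i ρ, ∀ x ∈ (B i).thick s ρ e', ∃ y ∈ (B i).Q s ρ,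
        ‖M i (x - (B i).c) + (B i).b - (B i).aff y‖ ≤ ε i := by
  have small : ∀ δ : ℝ, 0 < δ → ∀ᶠ e in 𝓝[>] (0 : ℝ), e ≤ δ := fun δ hδ =>
    (eventually_le_nhds hδ).filter_mono nhdsWithin_le_nhds
  obtain ⟨e', ⟨k1, k2⟩, k3⟩ := (((small e he).and (eventually_all.2 fun i =>
    small (ε i / (‖M i‖ + 1)) (by have := hε i; positivity))).and self_mem_nhdsWithin).exists
  have k4 : 0 < e' := k3
  refine ⟨e', k4, k1, fun i ρ x hx => ?_⟩
  obtain ⟨y, hy, k5⟩ := Box.exists_proj k4.le hx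
  refine ⟨y, hy, ?_⟩
  rw [Box.aff, add_sub_add_right_eq_sub, ← hM i _ (Box.dir_sub hy.1 Box.c_slice), ← map_sub,
    sub_sub_sub_cancel_right]
  have k6 := (le_div_iff₀ (by positivity)).1 (k2 i)
  linarith only [k3, k6, k5, (M i).le_opNorm (x - y), norm_nonneg (M i), mul_nonneg_of_nonpos_of_nonpos (Mathlib.Tactic.Linarith.sub_nonpos_of_le k5) (Mathlib.Tactic.Linarith.sub_nonpos_of_le (norm_nonneg (M i)))]

end BEp
end
end

-- merged part: Pool.Agent.Work.MP_f0515e_an.Pos.TPsi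
section
/-!
TOP, the odd homotopy given to the germ theorem.

Plan.  `Fill.iUnion`: Urysohn functions `ψ i`, equal to `1` on `P i` and `0` on `P j`, `j ≠ i`
(`exists_continuous_zero_one_of_isClosed`), and `K q = ∑ i, (ψ i p.1 * ψ i p.2) • K i q`.
`exists_psi`: `H1 q = b (sgm χ x t) - b (sgm χ y t)`, `H2 q = sgm χ x t - sgm χ y t`, `Lm = mloop ..` pulled
back by `χ`.  `OH D (tl b) (tl (b ∘ χ)) H1`, `OH D (tl (b ∘ χ)) (tl χ) Lm` (pull back `OH.cat` on the set of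
the pairs `(χ x, χ y)`), `OH D (tl id) (tl χ) H2`.  On `J i = D ∩ P i ×ˢ P i`, `H1 = H2` and `b ∘ χ = χ`, so
`Fill.conj` and `Fill.congr` (`cat_congr`) fill `cat H1 (cat Lm (rev H2))`; then `Fill.iUnion`,
`OH.static`, `OH.rev`.
-/

open Set Metric Filter Topology Function BEv
open scoped NNReal

noncomputable section
namespace BEp

variable {m : ℕ} {ι : Type} [Finite ι]

theorem cat_congr {X F : Type} [NormedAddCommGroup F] [NormedSpace ℝ F] {H H' K K' : X × ℝ → F}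
    {x x' : X} (h1 : ∀ t ∈ Icc (0 : ℝ) 1, H (x, t) = H' (x', t))
    (h2 : ∀ t ∈ Icc (0 : ℝ) 1, K (x, t) = K' (x', t)) {t : ℝ} (ht : t ∈ Icc (0 : ℝ) 1) :
    cat H K (x, t) = cat H' K' (x', t) := by
  unfold cat
  rw [h1 _ ⟨le_min (by linarith [ht.1]) zero_le_one, min_le_right _ _⟩,
    h2 _ ⟨le_max_right _ _, max_le (by linarith [ht.2]) zero_le_one⟩, h2 0 ⟨le_rfl, zero_le_one⟩]

theorem Fill.iUnion {P : ι → Set (V m)} (hc : ∀ i, IsClosed (P i))
    (hd : ∀ i j, i ≠ j → Disjoint (P i) (P j)) {J : ι → Set (V m × V m)}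
    (hJ : ∀ i, J i ⊆ P i ×ˢ P i) {H : (V m × V m) × ℝ → V m} (h : ∀ i, Fill (J i) H) :
    Fill (⋃ i, J i) H := by
  classical
  have := Fintype.ofFinite ι
  choose K k1 k2 k3 using h
  choose ψ h0 h1 _ using fun i => exists_continuous_zero_one_of_isClosed
    ((toFinite {j | j ≠ i}).isClosed_biUnion fun j _ => hc j) (hc i)
    (disjoint_iUnion₂_left.2 fun j hj => hd j i hj)
  have e : ∀ i, ∀ p ∈ J i, ∀ s r, ∑ j, (ψ j p.1 * ψ j p.2) • K j ((p, s), r) = K i ((p, s), r) :=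
    fun i p hp s r => by
      rw [Finset.sum_eq_single i (fun j _ hj => by
        rw [h0 j (mem_iUnion₂.2 ⟨i, hj.symm, (hJ i hp).1⟩), Pi.zero_apply, zero_mul, zero_smul])
        (fun k => absurd (Finset.mem_univ i) k), h1 i (hJ i hp).1, h1 i (hJ i hp).2]
      simp
  refine ⟨fun q => ∑ j, (ψ j q.1.1.1 * ψ j q.1.1.2) • K j q, by fun_prop, fun p s r => ?_,
    fun p hp s hs => ?_⟩
  · simp only [k2, Prod.fst_swap, Prod.snd_swap, smul_neg, Finset.sum_neg_distrib, mul_comm]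
  · obtain ⟨i, hi⟩ := mem_iUnion.1 hp
    simp only [e i p hi]
    exact k3 i p hi s hs

/-- The middle part of the homotopy. -/
def mloop (Θ : V m × ℝ → V m) (b g f : V m → V m) (Hn : (V m × V m) × ℝ → V m) :
    (V m × V m) × ℝ → V m :=
  cat (fun q => Θ (b q.1.1, q.2) - Θ (b q.1.2, q.2)) (cat (lin (tl g) (tl f)) Hn)

theorem TPsi_pull {D D' : Set (V m × V m)} {F0 F1 : V m × V m → V m}
    {H : (V m × V m) × ℝ → V m} (h : OH D' F0 F1 H) {χ : V m → V m} (hχ : Continuous χ)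
    (hD : ∀ p ∈ D, (χ p.1, χ p.2) ∈ D') : OH D (fun p => F0 (χ p.1, χ p.2))
      (fun p => F1 (χ p.1, χ p.2)) fun q => H ((χ q.1.1, χ q.1.2), q.2) :=
  ⟨h.cont.comp (by fun_prop), fun p s => h.odd (χ p.1, χ p.2) s, fun p hp => h.ne _ (hD p hp),
    fun p hp => h.zero _ (hD p hp), fun p hp => h.one _ (hD p hp)⟩

theorem TPsi_sg0 (χ : V m → V m) (x : V m) : sgm χ x 0 = x := by simp [sgm]

theorem TPsi_sg1 (χ : V m → V m) (x : V m) : sgm χ x 1 = χ x := by simp [sgm]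

theorem TPsi_sg {D : Set (V m × V m)} {χ b : V m → V m} (hχ : Continuous χ) (hb : Continuous b)
    (h : ∀ p ∈ D, ∀ t ∈ Icc (0 : ℝ) 1, b (sgm χ p.1 t) ≠ b (sgm χ p.2 t)) :
    OH D (tl b) (tl (b ∘ χ)) fun q => b (sgm χ q.1.1 q.2) - b (sgm χ q.1.2 q.2) :=
  ⟨by unfold sgm; fun_prop, fun p s => (neg_sub _ _).symm, fun p hp t ht => sub_ne_zero.2 (h p hp t ht),
    fun p _ => by simp only [TPsi_sg0, tl], fun p _ => by simp only [TPsi_sg1, tl, comp_apply]⟩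

theorem exists_psi {D D' : Set (V m × V m)} (hD : IsCompact D) (hs : Symm D) {P : ι → Set (V m)}
    (hc : ∀ i, IsClosed (P i)) (hd : ∀ i j, i ≠ j → Disjoint (P i) (P j))
    {χ b g f : V m → V m} (hχ : Continuous χ) (hb : Continuous b) (hg : Continuous g)
    (hf : Continuous f) {Θ : V m × ℝ → V m} (hΘ : Continuous Θ) (t0 : ∀ z, Θ (z, 0) = z)
    (t1 : ∀ x, Θ (b x, 1) = g x) (ti : ∀ t ∈ Icc (0 : ℝ) 1, Injective fun z => Θ (z, t))
    (s1 : ∀ p ∈ D, ∀ t ∈ Icc (0 : ℝ) 1, sgm χ p.1 t ≠ sgm χ p.2 t)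
    (s2 : ∀ p ∈ D, ∀ t ∈ Icc (0 : ℝ) 1, b (sgm χ p.1 t) ≠ b (sgm χ p.2 t))
    (hl : ∀ p ∈ D, ∀ t ∈ Icc (0 : ℝ) 1, lin (tl g) (tl f) ((χ p.1, χ p.2), t) ≠ 0)
    {Hn : (V m × V m) × ℝ → V m} (hH : OH D' (tl f) (tl id) Hn)
    (hD' : ∀ p ∈ D, (χ p.1, χ p.2) ∈ D')
    (hb1 : ∀ i, ∀ x ∈ P i, ∀ t ∈ Icc (0 : ℝ) 1, b (sgm χ x t) = sgm χ x t)
    (hF : ∀ i, Fill (D ∩ P i ×ˢ P i) fun q => mloop Θ b g f Hn ((χ q.1.1, χ q.1.2), q.2)) :
    ∃ Ψ, OH D (tl id) (tl b) Ψ ∧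
      ∀ i, ∀ p ∈ D, p.1 ∈ P i → p.2 ∈ P i → ∀ t ∈ Icc (0 : ℝ) 1, Ψ (p, t) = p.1 - p.2 := by
  have i0 : (0 : ℝ) ∈ Icc (0 : ℝ) 1 := ⟨le_rfl, zero_le_one⟩
  have i1 : (1 : ℝ) ∈ Icc (0 : ℝ) 1 := ⟨zero_le_one, le_rfl⟩
  have o1 := TPsi_sg hχ hb s2
  have o2 : OH D (tl id) (tl χ) fun q => sgm χ q.1.1 q.2 - sgm χ q.1.2 q.2 :=
    TPsi_sg hχ continuous_id s1
  have a1 : OH ((fun p => (χ p.1, χ p.2)) '' D) (tl b) (tl g)
      fun q => Θ (b q.1.1, q.2) - Θ (b q.1.2, q.2) := by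
    refine ⟨by fun_prop, fun p s => (neg_sub _ _).symm, ?_, fun p _ => by simp only [t0, tl],
      fun p _ => by simp only [t1, tl]⟩
    rintro _ ⟨p, hp, rfl⟩ t ht
    have := s2 p hp 1 i1
    rw [TPsi_sg1, TPsi_sg1] at this
    exact sub_ne_zero.2 fun e => this (ti t ht e)
  have a2 : OH ((fun p => (χ p.1, χ p.2)) '' D) (tl g) (tl f) (lin (tl g) (tl f)) := by
    refine ⟨by unfold lin tl; fun_prop, fun p s => ?_, ?_, fun p _ => by simp [lin],
      fun p _ => by simp [lin]⟩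
    · simp only [lin, tl, Prod.fst_swap, Prod.snd_swap]
      module
    · rintro _ ⟨p, hp, rfl⟩
      exact hl p hp
  have o3 : OH D (tl (b ∘ χ)) (tl χ) fun q => mloop Θ b g f Hn ((χ q.1.1, χ q.1.2), q.2) :=
    TPsi_pull (a1.cat (a2.cat (hH.mono (image_subset_iff.2 hD')))) hχ fun p hp => ⟨p, hp, rfl⟩
  have sJ : ∀ i, Symm (D ∩ P i ×ˢ P i) := fun i p hp => ⟨hs p hp.1, hp.2.2, hp.2.1⟩
  have cJ : ∀ i, IsCompact (D ∩ P i ×ˢ P i) := fun i => hD.inter_right ((hc i).prod (hc i))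
  obtain ⟨W, w1, w2⟩ := OH.static (J := ⋃ i, D ∩ P i ×ˢ P i) hD hs
    (isClosed_iUnion_of_finite fun i => (cJ i).isClosed) (iUnion_subset fun i => inter_subset_left)
    (fun p hp => (mem_iUnion.1 hp).elim fun i hi => mem_iUnion.2 ⟨i, sJ i p hi⟩)
    (o1.cat (o3.cat o2.rev)) (Fill.iUnion hc hd (fun i => inter_subset_right) fun i => by
      have o4 := o3.mono (inter_subset_left (t := P i ×ˢ P i))
      refine (Fill.conj (cJ i) (sJ i) (o2.mono inter_subset_left)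
        ⟨o4.cont, o4.odd, o4.ne, fun p hp => (o4.zero p hp).trans ?_, o4.one⟩ (hF i)).congr
        fun p hp t ht => cat_congr (fun t ht => ?_) (fun _ _ => rfl) ht
      · have e1 := hb1 i _ hp.2.1 1 i1
        have e2 := hb1 i _ hp.2.2 1 i1
        rw [TPsi_sg1] at e1 e2
        simp only [tl, comp_apply, e1, e2]
      · simp only [hb1 i _ hp.2.1 t ht, hb1 i _ hp.2.2 t ht])
  refine ⟨_, w1.rev, fun i p hp h1 h2 t ht => (w2 p (mem_iUnion.2 ⟨i, hp, h1, h2⟩) _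
    ⟨sub_nonneg.2 ht.2, sub_le_self _ ht.1⟩).trans ?_⟩
  have e1 := hb1 i _ h1 0 i0
  have e2 := hb1 i _ h2 0 i0
  rw [TPsi_sg0] at e1 e2
  simp only [tl, e1, e2]

end BEp
end
end
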