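import Pool.Agent.Work.MP_f0515e_an.Stmt

/-! Conditions on the domain and on the map used in the positive theorem. -/

open Set Filter Topology
open scoped NNReal

namespace BEp

variable {n : ℕ}

/-- The segment property (continuous boundary). -/
def Segm (Ω : Set (Fin n → ℝ)) : Prop :=
  ∀ x ∈ frontier Ω, ∃ U ∈ 𝓝 x, ∃ v : Fin n → ℝ, ∀ y ∈ closure Ω ∩ U, ∀ t ∈ Ioo (0 : ℝ) 1,
    y + t • v ∈ Ω

/-- Strictly star-shaped with centre `c`. -/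
def Star (Ω : Set (Fin n → ℝ)) (c : Fin n → ℝ) : Prop :=
  ∀ x ∈ closure Ω, ∀ t ∈ Ico (0 : ℝ) 1, c + t • (x - c) ∈ Ω

/-- The closure of `Ω` is moved into `Ω` by perturbations of the identity which are arbitrarily
small in the Lipschitz norm. -/
def Push (Ω : Set (Fin n → ℝ)) : Prop :=
  ∀ τ : ℝ≥0, 0 < τ → ∃ d : (Fin n → ℝ) → Fin n → ℝ, LipschitzWith τ d ∧
    ∀ x ∈ closure Ω, ‖d x‖ ≤ τ ∧ x + d x ∈ Ω

/-- `f` and `g` are joined by a continuous family of injective maps on `Ω`. -/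
def Isotopic (Ω : Set (Fin n → ℝ)) (f g : (Fin n → ℝ) → Fin n → ℝ) : Prop :=
  ∃ H : ℝ × (Fin n → ℝ) → Fin n → ℝ, ContinuousOn H (Icc 0 1 ×ˢ Ω) ∧
    (∀ t ∈ Icc (0 : ℝ) 1, InjOn (fun x => H (t, x)) Ω) ∧ ∀ x ∈ Ω, H (0, x) = f x ∧ H (1, x) = g x

/-- `g` is continuous and injective on a set which contains `Ω` and is homeomorphic to `ℝ^n`. -/
def CellExt (Ω : Set (Fin n → ℝ)) (g : (Fin n → ℝ) → Fin n → ℝ) : Prop :=
  ∃ W : Set (Fin n → ℝ), Ω ⊆ W ∧ Nonempty (W ≃ₜ (Fin n → ℝ)) ∧ ContinuousOn g W ∧ InjOn g W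

/-- On each compact subset of `Ω`, `g` is a uniform limit of maps of the given kind defined near
that subset. -/
def UnifLim (Kind : Set (Fin n → ℝ) → ((Fin n → ℝ) → Fin n → ℝ) → Prop) (Ω : Set (Fin n → ℝ))
    (g : (Fin n → ℝ) → Fin n → ℝ) : Prop :=
  ∀ K, IsCompact K → K ⊆ Ω → ∀ ε > 0, ∃ U w, IsOpen U ∧ K ⊆ U ∧ Kind U w ∧
    ∀ x ∈ K, ‖w x - g x‖ ≤ ε

end BEp
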