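import Pool.Agent.Work.MP_f0515e_an.Pos.HNat
import Pool.Agent.Work.MP_f0515e_an.Pos.UCmp
import Pool.Agent.Work.MP_f0515e_an.Pos.BRed
import Pool.Agent.Work.MP_f0515e_an.Pos.UDefs
import Pool.Agent.Work.MP_f0515e_an.Pos.ACj
import Pool.Agent.Work.MP_f0515e_an.Pos.Main

-- merged part: Pool.Agent.Work.MP_f0515e_an.Pos.UWu
section
/-! Odd homotopies between difference maps of embeddings. -/

open Set Metric Filter Topology Function BEv
open scoped NNReal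

noncomputable section
namespace BEp

theorem ext_cont {X F : Type} [MetricSpace X] [NormedAddCommGroup F] [NormedSpace ℝ F]
    [FiniteDimensional ℝ F] {K : Set X} (hK : IsClosed K) {f : X → F} (hf : ContinuousOn f K) :
    ∃ g : X → F, Continuous g ∧ EqOn g f K := by
  have : TietzeExtension F := TietzeExtension.of_tvs ℝ
  obtain ⟨g, hg⟩ := ContinuousMap.exists_restrict_eq hK
    (⟨K.domRestrict f, hf.domRestrict⟩ : C(K, F))
  exact ⟨g, g.continuous, fun x hx => congrArg (fun k : C(K, F) => k ⟨x, hx⟩) hg⟩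

variable {E : Type} [NormedAddCommGroup E] [NormedSpace ℝ E] [FiniteDimensional ℝ E]

/-- The difference maps of `f` and `g` are oddly homotopic on pairs of distinct points of `K`. -/
def Wu (K : Set E) (f g : E → E) : Prop :=
  ∀ D : Set (E × E), IsCompact D → Symm D → (∀ p ∈ D, p.1 ∈ K ∧ p.2 ∈ K ∧ p.1 ≠ p.2) →
    ∃ H, OH D (tl f) (tl g) H

omit [NormedSpace ℝ E] [FiniteDimensional ℝ E] in
theorem Wu.congr {K K' : Set E} {f g f' g' : E → E} (h : Wu K f g) (hK : K' ⊆ K)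
    (hf : EqOn f' f K') (hg : EqOn g' g K') : Wu K' f' g' := fun D h1 h2 h3 => by
  obtain ⟨H, k⟩ := h D h1 h2 fun p hp => ⟨hK (h3 p hp).1, hK (h3 p hp).2.1, (h3 p hp).2.2⟩
  exact ⟨H, k.cont, k.odd, k.ne,
    fun p hp => by rw [k.zero p hp, tl, tl, hf (h3 p hp).1, hf (h3 p hp).2.1],
    fun p hp => by rw [k.one p hp, tl, tl, hg (h3 p hp).1, hg (h3 p hp).2.1]⟩

theorem Wu.symm {K : Set E} {f g : E → E} (h : Wu K f g) : Wu K g f := fun D h1 h2 h3 =>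
  (h D h1 h2 h3).elim fun _ k => ⟨_, k.rev⟩

theorem Wu.trans {K : Set E} {f g u : E → E} (h : Wu K f g) (k : Wu K g u) : Wu K f u :=
  fun D h1 h2 h3 => HNat_trans (h D h1 h2 h3) (k D h1 h2 h3)

omit [FiniteDimensional ℝ E] in
theorem Wu.smul {K : Set E} {f g : E → E} (h : Wu K f g) {σ : ℝ} (hσ : σ ≠ 0) :
    Wu K (fun x => σ • f x) (fun x => σ • g x) := fun D h1 h2 h3 => by
  obtain ⟨H, k⟩ := h D h1 h2 h3
  have := k.cont
  exact ⟨fun q => σ • H q, by fun_prop, fun p s => by rw [k.odd, smul_neg],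
    fun p hp s hs => smul_ne_zero hσ (k.ne p hp s hs),
    fun p hp => by rw [k.zero p hp, tl, tl, smul_sub],
    fun p hp => by rw [k.one p hp, tl, tl, smul_sub]⟩

omit [NormedSpace ℝ E] [FiniteDimensional ℝ E] in
theorem Wu.pull {K K' : Set E} {f g k : E → E} (h : Wu K f g) (hk : Continuous k)
    (hi : InjOn k K') (hm : MapsTo k K' K) : Wu K' (f ∘ k) (g ∘ k) := fun D h1 h2 h3 => by
  obtain ⟨H, j⟩ := h (Prod.map k k '' D) (h1.image (by fun_prop))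
    (by
      rintro _ ⟨p, hp, rfl⟩
      exact ⟨p.swap, h2 p hp, rfl⟩)
    (by
      rintro _ ⟨p, hp, rfl⟩
      exact ⟨hm (h3 p hp).1, hm (h3 p hp).2.1,
        fun e => (h3 p hp).2.2 (hi (h3 p hp).1 (h3 p hp).2.1 e)⟩)
  have := j.cont
  exact ⟨fun q => H (Prod.map k k q.1, q.2), by fun_prop, fun p s => j.odd (Prod.map k k p) s,
    fun p hp => j.ne _ ⟨p, hp, rfl⟩, fun p hp => j.zero _ ⟨p, hp, rfl⟩,
    fun p hp => j.one _ ⟨p, hp, rfl⟩⟩

theorem wu_iso {K : Set E} (hK : IsCompact K) {H : ℝ × E → E}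
    (hc : ContinuousOn H (Icc 0 1 ×ˢ K))
    (hi : ∀ t ∈ Icc (0 : ℝ) 1, InjOn (fun x => H (t, x)) K) :
    Wu K (fun x => H (0, x)) (fun x => H (1, x)) := fun D _ _ h3 => by
  obtain ⟨G, g1, g2⟩ := ext_cont (isClosed_Icc.prod hK.isClosed) hc
  have e : ∀ p ∈ D, ∀ s ∈ Icc (0 : ℝ) 1, G (s, p.1) - G (s, p.2) = H (s, p.1) - H (s, p.2) :=
    fun p hp s hs => by rw [g2 ⟨hs, (h3 p hp).1⟩, g2 ⟨hs, (h3 p hp).2.1⟩]
  exact ⟨fun q => G (q.2, q.1.1) - G (q.2, q.1.2), by fun_prop, fun p s => by simp,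
    fun p hp s hs => e p hp s hs ▸ sub_ne_zero.2 fun k =>
      (h3 p hp).2.2 (hi s hs (h3 p hp).1 (h3 p hp).2.1 k),
    fun p hp => e p hp 0 ⟨le_rfl, zero_le_one⟩, fun p hp => e p hp 1 ⟨zero_le_one, le_rfl⟩⟩

/-- Uniformly close embeddings have homotopic difference maps. -/
theorem wu_near {K : Set E} (hK : IsCompact K) {δ : ℝ} (hδ : 0 < δ) {f : E → E}
    (hf : ContinuousOn f (cthickening δ K)) (hi : InjOn f (cthickening δ K)) :
    ∃ ε > 0, ∀ g : E → E, ContinuousOn g (cthickening δ K) → InjOn g (cthickening δ K) →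
      (∀ x ∈ cthickening δ K, ‖g x - f x‖ ≤ ε) → Wu K f g := by
  have hC : IsCompact (cthickening δ K) := hK.cthickening
  obtain ⟨f', f1, f2⟩ := ext_cont hC.isClosed hf
  have hA : IsCompact (cthickening δ K ×ˢ cthickening δ K ∩ {p : E × E | δ ≤ ‖p.1 - p.2‖}) :=
    (hC.prod hC).inter_right (isClosed_le continuous_const (by fun_prop))
  obtain ⟨c, c0, hc⟩ := hA.exists_forall_le' (f := fun p => ‖f' p.1 - f' p.2‖) (by fun_prop)
    (a := 0) fun p hp => norm_pos_iff.2 (sub_ne_zero.2 fun e => by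
      have h1 : δ ≤ ‖p.1 - p.2‖ := hp.2
      rw [f2 hp.1.1, f2 hp.1.2] at e
      rw [hi hp.1.1 hp.1.2 e, sub_self, norm_zero] at h1
      linarith)
  refine ⟨c / 3, by positivity, fun g hg hj hn D h1 h2 h3 => ?_⟩
  obtain ⟨g', g1, g2⟩ := ext_cont hC.isClosed hg
  obtain ⟨μ, μ0, hμ⟩ := h1.exists_forall_le' (f := fun p => ‖p.1 - p.2‖) (by fun_prop)
    (a := 0) fun p hp => norm_pos_iff.2 (sub_ne_zero.2 (h3 p hp).2.2)
  obtain ⟨a, ha⟩ : ∃ a : E × E → ℝ, a = fun p => δ / max μ ‖p.1 - p.2‖ := ⟨_, rfl⟩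
  have ac : Continuous a := by
    rw [ha]
    exact continuous_const.div (by fun_prop) fun p => (lt_max_of_lt_left μ0).ne'
  have as : ∀ p, a p.swap = a p := fun p => by simp only [ha, Prod.fst_swap, Prod.snd_swap,
    norm_sub_rev]
  have a0 : ∀ p, 0 < a p := fun p => ha ▸ div_pos hδ (lt_max_of_lt_left μ0)
  have a1 : ∀ p ∈ D, a p * ‖p.1 - p.2‖ = δ := fun p hp => by
    simp only [ha]
    rw [max_eq_right (hμ p hp), div_mul_cancel₀ _ (μ0.trans_le (hμ p hp)).ne']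
  obtain ⟨P, hP⟩ : ∃ P : (E × E) × ℝ → E,
      P = fun q => q.1.1 + (q.2 * a q.1) • (q.1.1 - q.1.2) := ⟨_, rfl⟩
  have Pc : Continuous P := by rw [hP]; fun_prop
  have P1 : ∀ p ∈ D, ∀ s ∈ Icc (0 : ℝ) 1, P (p, s) ∈ cthickening δ K := fun p hp s hs => by
    refine mem_cthickening_of_dist_le _ p.1 δ K (h3 p hp).1 ?_
    simp only [hP, dist_self_add_left]
    rw [norm_smul, Real.norm_of_nonneg (mul_nonneg hs.1 (a0 p).le), mul_assoc, a1 p hp]
    nlinarith [hs.2]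
  have P2 : ∀ p s, P (p, s) - P (p.swap, s) = (1 + 2 * (s * a p)) • (p.1 - p.2) := fun p s => by
    simp only [hP, as, Prod.fst_swap, Prod.snd_swap]
    module
  have mv : ∀ u u' : E → E, Continuous u' → EqOn u' u (cthickening δ K) →
      InjOn u (cthickening δ K) →
      ∃ H, OH D (tl u) (fun p => u' (P (p, 1)) - u' (P (p.swap, 1))) H := fun u u' u1 u2 u3 =>
    HNat_pts h2 u1 (u3.congr u2.symm) P Pc P1
      (fun p hp s hs => P2 p s ▸ smul_ne_zero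
        (by linarith [mul_nonneg hs.1 (a0 p).le] : (0 : ℝ) < 1 + 2 * (s * a p)).ne'
        (sub_ne_zero.2 (h3 p hp).2.2))
      (fun p hp => by
        simp only [hP, zero_mul, zero_smul, add_zero, tl, Prod.fst_swap]
        rw [u2 (self_subset_cthickening K (h3 p hp).1),
          u2 (self_subset_cthickening K (h3 p hp).2.1)])
      fun p _ => rfl
  obtain ⟨H3, k3⟩ := mv g g' g1 g2 hj
  refine HNat_trans (mv f f' f1 f2 hi) (HNat_trans ⟨fun q =>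
    (1 - q.2) • (f' (P (q.1, 1)) - f' (P (q.1.swap, 1))) +
      q.2 • (g' (P (q.1, 1)) - g' (P (q.1.swap, 1))), by fun_prop, fun p s => ?_,
    fun p hp s hs e => ?_, fun p _ => by simp, fun p _ => by simp⟩ ⟨_, k3.rev⟩)
  · simp only [Prod.swap_swap]
    module
  · have m1 := P1 p hp 1 ⟨zero_le_one, le_rfl⟩
    have m2 := P1 _ (h2 p hp) 1 ⟨zero_le_one, le_rfl⟩
    have h4 := hc (P (p, 1), P (p.swap, 1)) ⟨⟨m1, m2⟩, by
      show δ ≤ ‖P (p, 1) - P (p.swap, 1)‖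
      rw [P2, norm_smul, Real.norm_of_nonneg (by linarith [a0 p])]
      nlinarith [a1 p hp, norm_nonneg (p.1 - p.2)]⟩
    have h5 : f' (P (p, 1)) - f' (P (p.swap, 1)) = s • ((g' (P (p.swap, 1)) - f' (P (p.swap, 1))) -
        (g' (P (p, 1)) - f' (P (p, 1)))) := by
      rw [← sub_eq_zero, ← e]
      module
    have h6 := norm_sub_le (g' (P (p.swap, 1)) - f' (P (p.swap, 1))) (g' (P (p, 1)) - f' (P (p, 1)))
    have h7 := hn _ m1
    have h8 := hn _ m2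
    rw [← g2 m1, ← f2 m1] at h7
    rw [← g2 m2, ← f2 m2] at h8
    simp only at h4
    rw [h5, norm_smul, Real.norm_of_nonneg hs.1] at h4
    nlinarith [hs.2, norm_nonneg ((g' (P (p.swap, 1)) - f' (P (p.swap, 1))) -
        (g' (P (p, 1)) - f' (P (p, 1))))]

theorem wu_sign {m : ℕ} (hm : 1 ≤ m) {S : Set (V m)} {c : V m} (hS : StarConvex ℝ c S)
    (hc : S ∈ 𝓝 c) {f : V m → V m} (hf : Continuous f) (hi : InjOn f S) :
    ∃ σ : ℝ, (σ = 1 ∨ σ = -1) ∧ Wu S f fun x => σ • x := by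
  obtain ⟨σ, h1, h2⟩ := nat_htp hm hS hc hf hi
  refine ⟨σ, h1, (Wu.smul (g := id) h2 (σ := σ) ?_).congr Subset.rfl (fun x _ => ?_) fun x _ => rfl⟩
  · rcases h1 with rfl | rfl <;> norm_num
  · rcases h1 with rfl | rfl <;> simp

theorem wu_cell {m : ℕ} (hm : 1 ≤ m) {W : Set (V m)} (e : W ≃ₜ V m) {F : V m → V m}
    (hF : ContinuousOn F W) (hi : InjOn F W) {K : Set (V m)} (hK : IsCompact K) (hKW : K ⊆ W) :
    ∃ σ : ℝ, (σ = 1 ∨ σ = -1) ∧ Wu K F fun x => σ • x := by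
  classical
  let h : V m → V m := fun y => (e.symm y : V m)
  have h1 : Continuous h := continuous_subtype_val.comp e.symm.continuous
  have h2 : Injective h := Subtype.val_injective.comp e.symm.injective
  have h3 : ∀ y, h y ∈ W := fun y => (e.symm y).2
  have hC : IsCompact (h ⁻¹' K) := by
    have : h ⁻¹' K = e '' (Subtype.val ⁻¹' K) := by
      rw [e.image_eq_preimage_symm]
      rfl
    rw [this]
    exact (IsInducing.subtypeVal.isCompact_preimage' hK (by simpa using hKW)).image e.continuous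
  obtain ⟨σ, s1, s2⟩ := wu_sign hm (starConvex_univ (0 : V m)) univ_mem
    (hF.comp_continuous h1 h3) fun x _ y _ k => h2 (hi (h3 x) (h3 y) k)
  obtain ⟨τ, t1, t2⟩ := wu_sign hm (starConvex_univ (0 : V m)) univ_mem h1 h2.injOn
  have t0 : τ * τ = 1 := by rcases t1 with rfl | rfl <;> norm_num
  have s0 : σ * τ ≠ 0 := by rcases s1 with rfl | rfl <;> rcases t1 with rfl | rfl <;> norm_num
  have h4 : Wu univ (F ∘ h) fun x => (σ * τ) • h x :=
    s2.trans ((t2.smul s0).symm.congr Subset.rfl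
      (fun x _ => by simp only [smul_smul, mul_assoc, t0, mul_one]) fun x _ => rfl)
  obtain ⟨k, k1, k2⟩ := exists_left_inv hC h1 h2.injOn
  have k3 : ∀ x ∈ K, h (k x) = x := fun x hx => by
    have e1 : h (e ⟨x, hKW hx⟩) = x := by simp [h]
    have e2 := k2 (e ⟨x, hKW hx⟩) (by rwa [mem_preimage, e1])
    rw [e1] at e2
    rw [e2, e1]
  refine ⟨σ * τ, ?_, (h4.pull k1 (LeftInvOn.injOn k3) (mapsTo_univ _ K)).congr Subset.rfl
    (fun x hx => by simp only [comp_apply, k3 x hx]) fun x hx => by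
      simp only [comp_apply, k3 x hx]⟩
  rcases s1 with rfl | rfl <;> rcases t1 with rfl | rfl <;> norm_num

end BEp
end
end

-- merged part: Pool.Agent.Work.MP_f0515e_an.Pos.UCore
section
-- merged part: Pool.Agent.Work.MP_f0515e_an.Pos.UChn
section
/-! The weak chain rule, and compositions with maps close to the identity. -/

open Set Metric Filter Topology Function BEv MeasureTheory
open scoped NNReal ENNReal ContDiff

noncomputable section
namespace BEp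

variable {n : ℕ} {G : (Fin n → ℝ) → Fin n → ℝ} {Ω O : Set (Fin n → ℝ)} {L : ℝ≥0} {p : ℝ≥0∞}

theorem UChn_sup (hb : Bornology.IsBounded O) {ε : ℝ≥0∞} (hε : 0 < ε) : ∃ δ : ℝ, 0 < δ ∧
    ∀ {F : Type} [NormedAddCommGroup F] (u : (Fin n → ℝ) → F),
      (∀ᵐ x ∂volume.restrict O, ‖u x‖ ≤ δ) → eLpNorm u p (volume.restrict O) ≤ ε := by
  have hV : volume O ^ p.toReal⁻¹ ≠ ⊤ :=
    ENNReal.rpow_ne_top_of_nonneg (by positivity) hb.measure_lt_top.ne
  obtain ⟨δ, h0, h1⟩ := ENNReal.exists_nnreal_pos_mul_lt hV hε.ne'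
  refine ⟨δ, h0, fun u hu => (eLpNorm_le_of_ae_bound hu).trans ?_⟩
  rw [Measure.restrict_apply_univ, ENNReal.ofReal_coe_nnreal, mul_comm]
  exact h1.le

theorem lip_dense (hp1 : 1 ≤ p) (hp : p ≠ ⊤) (hΩ : IsOpen Ω) (hO : IsOpen O)
    (hc : IsCompact (closure O)) (hs : closure O ⊆ Ω) {f : (Fin n → ℝ) → Fin n → ℝ}
    {D : (Fin n → ℝ) → (Fin n → ℝ) →L[ℝ] (Fin n → ℝ)} (hf : Continuous f) (hW : MemW1p p Ω f D)
    {ε : ℝ≥0∞} (hε : 0 < ε) :
    ∃ u M, LipschitzWith M u ∧ sdist p O u f (fderiv ℝ u) D ≤ ε := by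
  obtain ⟨u, h1, h2, h3⟩ := exists_moll_lp hp1 hp hΩ hc hs hf hW
  have e2 := ENNReal.half_pos hε.ne'
  obtain ⟨δ, δ0, hδ⟩ := UChn_sup (p := p) (hc.isBounded.subset subset_closure) e2
  obtain ⟨j, k1, k2⟩ := ((Metric.tendstoUniformlyOn_iff.1 h2 δ δ0).and (h3.eventually
    (ge_mem_nhds (ENNReal.rpow_pos_of_nonneg e2 ENNReal.toReal_nonneg)))).exists
  obtain ⟨M, hM⟩ := ((h1 j).of_le one_le_two).locallyLipschitz.locallyLipschitzOn
    |>.exists_lipschitzOnWith_of_compact hc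
  obtain ⟨g, g1, g2⟩ := hM.extend_pi
  have a1 : g =ᵐ[volume.restrict O] u j :=
    (ae_restrict_mem hO.measurableSet).mono fun x hx => (g2 (subset_closure hx)).symm
  have a2 : fderiv ℝ g =ᵐ[volume.restrict O] fderiv ℝ (u j) :=
    (ae_restrict_mem hO.measurableSet).mono fun x hx => EventuallyEq.fderiv_eq
      ((hO.eventually_mem hx).mono fun y hy => (g2 (subset_closure hy)).symm)
  refine ⟨g, M, g1, ?_⟩
  rw [sdist_congr a1 EventuallyEq.rfl a2 EventuallyEq.rfl, ← ENNReal.add_halves ε]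
  refine add_le_add (hδ _ ((ae_restrict_mem hO.measurableSet).mono fun x hx => ?_))
    (BRed_lp hp1 hp ((lintegral_mono_set subset_closure).trans k2))
  rw [Pi.sub_apply, norm_sub_rev, ← dist_eq_norm]
  exact (k1 x (subset_closure hx)).le

theorem UChn_eps {C ε : ℝ≥0∞} (hC : C ≠ ⊤) (hε : 0 < ε) : ∃ δ : ℝ≥0∞, 0 < δ ∧ C * δ ≤ ε := by
  obtain ⟨δ, h0, h1⟩ := ENNReal.exists_nnreal_pos_mul_lt hC hε.ne'
  exact ⟨δ, by exact_mod_cast h0, (mul_comm _ _).trans_le h1.le⟩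

/-- The weak chain rule. -/
theorem Tr.memW1p {U : Set (Fin n → ℝ)} (h : Tr G U O L) (hp1 : 1 ≤ p) (hp : p ≠ ⊤)
    (hb : Bornology.IsBounded U) (hΩ : IsOpen Ω) (hO : IsOpen O)
    (hc : IsCompact (closure O)) (hs : closure O ⊆ Ω) {f : (Fin n → ℝ) → Fin n → ℝ}
    {D : (Fin n → ℝ) → (Fin n → ℝ) →L[ℝ] (Fin n → ℝ)} (hf : Continuous f) (hW : MemW1p p Ω f D) :
    MemW1p p U (f ∘ G) (chd D G) := by
  have hC : ∀ k : ℕ, (L : ℝ≥0∞) ^ k ≠ ⊤ := fun k => ENNReal.pow_ne_top ENNReal.coe_ne_top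
  have h1 := memW1p_restrict hW hΩ.measurableSet h.m2 (subset_closure.trans hs) fun _ _ => rfl
  refine memW1p_lim hp1 hb ⟨h1.1.1.comp_quasiMeasurePreserving h.qmp,
    (h.eLp hp1 h1.1.1).trans_lt (ENNReal.mul_lt_top (hC _).lt_top h1.1.2)⟩
    ⟨h.aesm_chd h1.2.1.1, (h.eLp_chd hp1 h1.2.1.1).trans_lt
      (ENNReal.mul_lt_top (hC _).lt_top h1.2.1.2)⟩ fun ε hε => ?_
  obtain ⟨δ, δ0, hδ⟩ := UChn_eps (hC (n + 1)) hε
  obtain ⟨u, M, u1, u2⟩ := lip_dense hp1 hp hΩ hO hc hs hf hW δ0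
  refine ⟨u ∘ G, _, memW1p_lip hb (u1.comp h.lip), ?_⟩
  rw [sdist_congr EventuallyEq.rfl EventuallyEq.rfl (h.chain u1) EventuallyEq.rfl]
  exact (h.sdist_le hp1 (memW1p_lip (hc.isBounded.subset subset_closure) u1) h1).trans
    ((mul_le_mul_right u2 _).trans hδ)

theorem comp_near (hp1 : 1 ≤ p) (hp : p ≠ ⊤) (hb : Bornology.IsBounded Ω) {F : Type}
    [NormedAddCommGroup F] [NormedSpace ℝ F] {u : (Fin n → ℝ) → F}
    (hu : MemLp u p (volume.restrict Ω)) {ε : ℝ≥0∞} (hε : 0 < ε) :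
    ∃ τ : ℝ, 0 < τ ∧ ∀ θ, Tr θ Ω Ω 2 → (∀ x ∈ Ω, ‖θ x - x‖ ≤ τ) →
      eLpNorm (u ∘ θ - u) p (volume.restrict Ω) ≤ ε := by
  have := isFiniteMeasure_restrict.2 (hb.measure_lt_top (μ := volume)).ne
  obtain ⟨δ, δ0, hδ⟩ := UChn_eps (C := ((2 : ℝ≥0) : ℝ≥0∞) ^ n + 1 + 1) (by finiteness) hε
  obtain ⟨g, g1, g2⟩ := hu.exists_boundedContinuous_eLpNorm_sub_le hp δ0.ne'
  obtain ⟨η, η0, hη⟩ := UChn_sup (p := p) hb δ0
  obtain ⟨τ, τ0, hτ⟩ := Metric.uniformContinuousOn_iff_le.1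
    (hb.isCompact_closure.uniformContinuousOn_of_continuous g.continuous.continuousOn) η η0
  refine ⟨τ, τ0, fun θ h hθ => ?_⟩
  have e : u ∘ θ - u = (u - ⇑g) ∘ θ + (g ∘ θ - ⇑g) + -(u - ⇑g) := funext fun x => by simp
  have m1 := hu.1.sub g2.1
  have m2 := m1.comp_quasiMeasurePreserving h.qmp
  have m3 := (g2.1.comp_quasiMeasurePreserving h.qmp).sub g2.1
  rw [e]
  refine (eLpNorm_add_le (m2.add m3) m1.neg hp1).trans ((add_le_add ((eLpNorm_add_le m2 m3 hp1).trans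
    (add_le_add ((h.eLp hp1 m1).trans (mul_le_mul_right g1 _))
      (hη _ ((ae_restrict_mem h.m1).mono fun x hx => ?_)))) ((eLpNorm_neg _ _ _).trans_le g1)).trans ?_)
  · rw [Pi.sub_apply, ← dist_eq_norm]
    exact hτ _ (subset_closure (h.maps hx)) _ (subset_closure hx) (dist_eq_norm _ x ▸ hθ x hx)
  · rwa [add_mul, add_mul, one_mul] at hδ

theorem sdist_near (hp1 : 1 ≤ p) (hp : p ≠ ⊤) (hb : Bornology.IsBounded Ω)
    (hm : MeasurableSet Ω) {f : (Fin n → ℝ) → Fin n → ℝ}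
    {D : (Fin n → ℝ) → (Fin n → ℝ) →L[ℝ] (Fin n → ℝ)} (hW : MemW1p p Ω f D) {ε : ℝ≥0∞}
    (hε : 0 < ε) : ∃ τ : ℝ≥0, 0 < τ ∧ τ ≤ 1 / 2 ∧ ∀ d : (Fin n → ℝ) → Fin n → ℝ,
      LipschitzWith τ d → (∀ x ∈ Ω, ‖d x‖ ≤ τ ∧ x + d x ∈ Ω) →
      sdist p Ω (f ∘ fun x => x + d x) f (chd D fun x => x + d x) D ≤ ε := by
  obtain ⟨δ, δ0, hδ⟩ := UChn_eps (C := 1 + (1 + 1)) (by finiteness) hε
  obtain ⟨τ1, a0, a1⟩ := comp_near hp1 hp hb hW.1 δ0
  obtain ⟨τ2, b0, b1⟩ := comp_near hp1 hp hb hW.2.1 δ0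
  obtain ⟨τ3, c0, c1⟩ := ENNReal.exists_nnreal_pos_mul_lt
    (a := ((2 : ℝ≥0) : ℝ≥0∞) ^ n * eLpNorm D p (volume.restrict Ω))
    (ENNReal.mul_ne_top (by finiteness) hW.2.1.2.ne) δ0.ne'
  refine ⟨min (min ⟨τ1, a0.le⟩ ⟨τ2, b0.le⟩) (min τ3 (1 / 2)),
    lt_min (lt_min a0 b0) (lt_min c0 (by norm_num)), (min_le_right _ _).trans (min_le_right _ _),
    fun d hd h1 => ?_⟩
  have h2 : LipschitzWith (1 / 2) d := hd.weaken ((min_le_right _ _).trans (min_le_right _ _))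
  have h3 : LipschitzWith τ3 d := hd.weaken ((min_le_right _ _).trans (min_le_left _ _))
  have hT : Tr (fun x => x + d x) Ω Ω 2 :=
    ⟨(LipschitzWith.id.add h2).weaken (by
      rw [← NNReal.coe_le_coe]
      norm_num), fun x _ y _ => by
      have := plsg_exp h2 x y
      push_cast at this ⊢
      linarith, fun x hx => (h1 x hx).2, one_le_two, hm, hm⟩
  have e1 : ∀ x ∈ Ω, ‖x + d x - x‖ ≤ τ1 ∧ ‖x + d x - x‖ ≤ τ2 := fun x hx => by
    rw [add_sub_cancel_left]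
    exact ⟨(h1 x hx).1.trans (NNReal.coe_le_coe.2 ((min_le_left _ _).trans (min_le_left _ _))),
      (h1 x hx).1.trans (NNReal.coe_le_coe.2 ((min_le_left _ _).trans (min_le_right _ _)))⟩
  have m1 := hW.2.1.1.comp_quasiMeasurePreserving hT.qmp
  have e2 : eLpNorm (chd D (fun x => x + d x) - D ∘ fun x => x + d x) p (volume.restrict Ω) ≤ δ := by
    refine (eLpNorm_le_mul_eLpNorm_of_ae_le_mul (g := D ∘ fun x => x + d x) (c := τ3) ?_ p).trans ?_
    · filter_upwards [ae_restrict_of_ae h3.ae_differentiableAt] with x hx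
      have e : fderiv ℝ (fun x => x + d x) x = ContinuousLinearMap.id ℝ _ + fderiv ℝ d x :=
        ((hasFDerivAt_id x).add hx.hasFDerivAt).fderiv
      rw [Pi.sub_apply, chd, e, ContinuousLinearMap.comp_add, ContinuousLinearMap.comp_id, comp_apply,
        add_sub_cancel_left, mul_comm]
      exact (ContinuousLinearMap.opNorm_comp_le _ _).trans
        (mul_le_mul_of_nonneg_left (norm_fderiv_le_of_lipschitz ℝ h3) (norm_nonneg _))
    · rw [ENNReal.ofReal_coe_nnreal]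
      exact (mul_le_mul_right (hT.eLp hp1 hW.2.1.1) _).trans c1.le
  rw [add_mul, add_mul, one_mul] at hδ
  refine (add_le_add (a1 _ hT fun x hx => (e1 x hx).1) ?_).trans hδ
  rw [← sub_add_sub_cancel _ (D ∘ fun x => x + d x) D]
  exact (eLpNorm_add_le ((hT.aesm_chd hW.2.1.1).sub m1) (m1.sub hW.2.1.1) hp1).trans
    (add_le_add e2 (b1 _ hT fun x hx => (e1 x hx).2))

end BEp
end
end

-- merged part: Pool.Agent.Work.MP_f0515e_an.Pos.UCore
section
/-! Approximation on a domain from approximation on compact pieces, read in a chart. -/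

open Set Metric Filter Topology Function BEv MeasureTheory
open scoped NNReal ENNReal ContDiff

noncomputable section
namespace BEp

variable {n : ℕ} {p : ℝ≥0∞} {Ω : Set (Fin n → ℝ)}

/-- Approximation of `g` by maps of the class `CC` on open sets compactly inside `S`. -/
def CoreAt (p : ℝ≥0∞) (S : Set (Fin n → ℝ)) (g : (Fin n → ℝ) → Fin n → ℝ) : Prop :=
  ∀ O O' f D, IsOpen O → IsOpen O' → Bornology.IsBounded O' → closure O ⊆ O' → O' ⊆ S →
    EqOn f g O' → Continuous f → InjOn f O' → MemW1p p O' f D → ∀ ε : ℝ≥0∞, 0 < ε →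
      ∃ F, CC F ∧ sdist p O F f (fderiv ℝ F) D ≤ ε

theorem main_chart {Kind : Set (Fin n → ℝ) → ((Fin n → ℝ) → Fin n → ℝ) → Prop}
    {Kd : ((Fin n → ℝ) → Fin n → ℝ) → Prop} (hp1 : 1 ≤ p) (hp : p ≠ ⊤) (hΩ : IsOpen Ω)
    (hb : Bornology.IsBounded Ω)
    (hθ : ∀ τ : ℝ≥0, 0 < τ → τ < 1 → ∃ d : (Fin n → ℝ) → Fin n → ℝ, Kd (fun x => x + d x) ∧
      LipschitzWith τ d ∧ ∀ x ∈ closure Ω, ‖d x‖ ≤ τ ∧ x + d x ∈ Ω)
    (hKd : ∀ F, CC F → ∀ O, Bornology.IsBounded O → ∀ ε : ℝ≥0∞, 0 < ε → ∃ w, Kd w ∧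
      (∃ L : ℝ≥0, LipschitzWith L w) ∧ sdist p O w F (fderiv ℝ w) (fderiv ℝ F) ≤ ε)
    {f : (Fin n → ℝ) → Fin n → ℝ} {D : (Fin n → ℝ) → (Fin n → ℝ) →L[ℝ] (Fin n → ℝ)}
    (hf : ContinuousOn f Ω) (hi : InjOn f Ω) (hW : MemW1p p Ω f D)
    (hch : ∀ K, IsCompact K → K ⊆ Ω →
      ∃ ψ k L, Chart Kind Kd K ψ k L ∧ CoreAt p (ψ '' K) (f ∘ k)) :
    Approximable Kind p Ω f D := by
  suffices h : ∀ ε : ℝ≥0∞, 0 < ε → ∃ w, Kind Ω w ∧ MemW1p p Ω w (fderiv ℝ w) ∧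
      sdist p Ω w f (fderiv ℝ w) D ≤ ε by
    choose g h1 h2 h3 using fun j : ℕ => h (j : ℝ≥0∞)⁻¹
      (ENNReal.inv_pos.2 (ENNReal.natCast_ne_top j))
    exact ⟨g, fun j => fderiv ℝ (g j), fun j => ⟨h1 j, h2 j⟩,
      tendsto_of_tendsto_of_tendsto_of_le_of_le tendsto_const_nhds
        ENNReal.tendsto_inv_nat_nhds_zero (fun _ => zero_le) h3⟩
  intro ε hε
  have hm := hΩ.measurableSet
  obtain ⟨τ, τ0, τ1, hτ⟩ := sdist_near hp1 hp hb hm hW (ENNReal.half_pos hε.ne')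
  obtain ⟨d, d1, d2, d3⟩ := hθ τ τ0 (τ1.trans_lt (by norm_num))
  replace hτ := hτ d d2 fun x hx => d3 x (subset_closure hx)
  have d4 : LipschitzWith 2 fun x => x + d x := (LipschitzWith.id.add (d2.weaken τ1)).weaken (by
    rw [← NNReal.coe_le_coe]
    norm_num)
  have d5 : ∀ x y, ‖x - y‖ ≤ 2 * ‖x + d x - (y + d y)‖ := fun x y => by
    have := plsg_exp (d2.weaken τ1) x y
    push_cast at this
    linarith
  have d6 : MapsTo (fun x => x + d x) (closure Ω) Ω := fun x hx => (d3 x hx).2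
  obtain ⟨θ, e⟩ : ∃ θ, θ = fun x => x + d x := ⟨_, rfl⟩
  replace d5 : ∀ x y, ‖x - y‖ ≤ 2 * ‖θ x - θ y‖ := e ▸ d5
  rw [← e] at d1 d4 d6 hτ
  obtain ⟨O1, a1, a2, a3, a4⟩ := exists_open_between_and_isCompact_closure
    (hb.isCompact_closure.image d4.continuous) hΩ d6.image_subset
  obtain ⟨O2, b1, b2, b3, b4⟩ := exists_open_between_and_isCompact_closure a4 hΩ a3
  obtain ⟨O3, c1, c2, c3, c4⟩ := exists_open_between_and_isCompact_closure b4 hΩ b3
  obtain ⟨ψ, k, L, hc, hcore⟩ := hch _ c4 c3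
  obtain ⟨f', f1, f2⟩ := ext_cont isClosed_closure (hf.mono c3)
  have W3 := memW1p_restrict hW hm c1.measurableSet (subset_closure.trans c3)
    (f2.mono subset_closure)
  have s2 : O2 ⊆ closure O3 := subset_closure.trans (c2.trans subset_closure)
  have s1 : O1 ⊆ O2 := subset_closure.trans b2
  have m1 : MapsTo θ Ω O1 := fun x hx => a2 ⟨x, subset_closure hx, rfl⟩
  have ψi : InjOn ψ (closure O3) := LeftInvOn.injOn hc.inv
  have o1 := inv_domain rfl a1 hc.l1.continuous (ψi.mono (s1.trans s2))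
  have o2 := inv_domain rfl b1 hc.l1.continuous (ψi.mono s2)
  have q2 : Bornology.IsBounded (ψ '' O2) :=
    (c4.image hc.l1.continuous).isBounded.subset (image_mono s2)
  have q1 := q2.subset (image_mono s1)
  have T1 : Tr k (ψ '' O2) O2 L := by
    refine ⟨hc.l2, ?_, ?_, hc.one, o2.measurableSet, b1.measurableSet⟩
    · rintro _ ⟨x, hx, rfl⟩ _ ⟨y, hy, rfl⟩
      rw [hc.inv x (s2 hx), hc.inv y (s2 hy)]
      exact hc.l1.norm_sub_le x y
    · rintro _ ⟨x, hx, rfl⟩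
      rwa [hc.inv x (s2 hx)]
  have T2 : Tr (ψ ∘ θ) Ω (ψ '' O1) (L * 2) := by
    refine ⟨hc.l1.comp d4, fun x hx y hy => ?_, fun x hx => ⟨_, m1 hx, rfl⟩,
      one_le_mul_of_one_le_of_one_le hc.one one_le_two, hm, o1.measurableSet⟩
    have h1 := hc.l2.norm_sub_le (ψ (θ x)) (ψ (θ y))
    rw [hc.inv _ (s2 (s1 (m1 hx))), hc.inv _ (s2 (s1 (m1 hy)))] at h1
    push_cast
    simp only [comp_apply]
    linarith [d5 x y]
  have T3 : Tr θ Ω O2 2 := ⟨d4, fun x _ y _ => d5 x y, m1.mono_right s1, one_le_two, hm,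
    b1.measurableSet⟩
  have W2 := T1.memW1p hp1 hp q2 c1 b1 b4 c2 f1 W3
  have W1 := memW1p_restrict W2 o2.measurableSet o1.measurableSet (image_mono s1) fun _ _ => rfl
  have e1 : EqOn (f ∘ θ) (f' ∘ θ) Ω := fun x hx => (f2 (s2 (s1 (m1 hx)))).symm
  have e2 : EqOn (k ∘ ψ ∘ θ) θ Ω := fun x hx => hc.inv _ (s2 (s1 (m1 hx)))
  obtain ⟨δ, δ0, hδ⟩ := UChn_eps (C := ((L * 2 : ℝ≥0) : ℝ≥0∞) ^ (n + 1)) (by finiteness)
    (ENNReal.half_pos hε.ne')
  obtain ⟨F, F1, F2⟩ := hcore _ _ _ _ o1 o2 q2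
    ((closure_minimal (image_mono subset_closure) (a4.image hc.l1.continuous).isClosed).trans
      (image_mono b2)) (image_mono s2) (fun y hy => f2 (s2 (T1.maps hy)))
    (f1.comp hc.l2.continuous) (by
      rintro _ ⟨x, hx, rfl⟩ _ ⟨y, hy, rfl⟩ e
      simp only [hc.inv x (s2 hx), hc.inv y (s2 hy), f2 (s2 hx), f2 (s2 hy)] at e
      rw [hi (c3 (s2 hx)) (c3 (s2 hy)) e]) W2 _ (ENNReal.half_pos δ0.ne')
  obtain ⟨w, w1, ⟨M, w2⟩, w3⟩ := hKd F F1 _ q1 _ (ENNReal.half_pos δ0.ne')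
  obtain ⟨M', F3⟩ := F1.tp.lip
  have w4 := memW1p_lip (p := p) hb (w2.comp T2.lip)
  refine ⟨w ∘ ψ ∘ θ, hc.comp w θ Ω w1 d1 hΩ (m1.mono_right (s1.trans s2)), w4, ?_⟩
  rw [← ENNReal.add_halves ε]
  refine (sdist_triangle hp1 w4 (memW1p_restrict (T3.memW1p hp1 hp hb c1 b1 b4 c2 f1 W3) hm hm
    Subset.rfl e1) hW).trans (add_le_add ?_ hτ)
  rw [sdist_congr (v' := (f' ∘ k) ∘ ψ ∘ θ) (Dv' := chd (chd D k) (ψ ∘ θ)) EventuallyEq.rfl
    ((ae_restrict_mem hm).mono fun x hx => (e1 hx).trans (congrArg f' (e2 hx).symm))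
    (T2.chain w2) ?_]
  · refine (T2.sdist_le hp1 (memW1p_lip q1 w2) W1).trans ((mul_le_mul_right ?_ _).trans hδ)
    exact (sdist_triangle hp1 (memW1p_lip q1 w2) (memW1p_lip q1 F3) W1).trans
      ((add_le_add w3 F2).trans_eq (ENNReal.add_halves δ))
  · filter_upwards [ae_restrict_mem hm, T2.chain hc.l2] with x hx h1
    rw [EventuallyEq.fderiv_eq ((hΩ.eventually_mem hx).mono e2)] at h1
    rw [chd, chd, chd, h1, chd, ContinuousLinearMap.comp_assoc]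
    exact congrArg (fun y => (D y).comp _) (e2 hx).symm

theorem cc_lh (hp1 : 1 ≤ p) (hp : p ≠ ⊤) (F : (Fin n → ℝ) → Fin n → ℝ) (h : CC F)
    (O : Set (Fin n → ℝ)) (hb : Bornology.IsBounded O) (ε : ℝ≥0∞) (hε : 0 < ε) : ∃ w, LH w ∧
      (∃ L : ℝ≥0, LipschitzWith L w) ∧ sdist p O w F (fderiv ℝ w) (fderiv ℝ F) ≤ ε :=
  (App.sdist_le h hp1 hp hb hε).imp fun _ k => ⟨k.1.1, k.2⟩

theorem cc_gd (hp1 : 1 ≤ p) (hp : p ≠ ⊤) (F : (Fin n → ℝ) → Fin n → ℝ) (h : CC F)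
    (O : Set (Fin n → ℝ)) (hb : Bornology.IsBounded O) (ε : ℝ≥0∞) (hε : 0 < ε) : ∃ w, GD w ∧
      (∃ L : ℝ≥0, LipschitzWith L w) ∧ sdist p O w F (fderiv ℝ w) (fderiv ℝ F) ≤ ε := by
  obtain ⟨v, v1, ⟨L, v2⟩, v3⟩ := App.sdist_le h hp1 hp hb (ENNReal.half_pos hε.ne')
  obtain ⟨w, w1, ⟨L', w2⟩, w3⟩ := v1.2.sdist_le hp1 hp hb (ENNReal.half_pos hε.ne')
  obtain ⟨M, hM⟩ := h.tp.lip
  exact ⟨w, w1, ⟨L', w2⟩, (sdist_triangle hp1 (memW1p_lip hb w2) (memW1p_lip hb v2)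
    (memW1p_lip hb hM)).trans ((add_le_add w3 v3).trans_eq (ENNReal.add_halves ε))⟩

end BEp
end
end
end

-- merged part: Pool.Agent.Work.MP_f0515e_an.Pos.UMain
section
-- merged part: Pool.Agent.Work.MP_f0515e_an.Pos.UPush
section
/-! Maps close to the identity which move the closure of a domain into the domain. -/

open Set Metric Filter Topology Function BEv MeasureTheory
open scoped NNReal ENNReal ContDiff

noncomputable section
namespace BEp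

variable {n : ℕ} {Ω : Set (Fin n → ℝ)}

theorem Star.push (hb : Bornology.IsBounded Ω) {c : Fin n → ℝ} (h : Star Ω c) : Push Ω := by
  intro τ hτ
  obtain ⟨R, R0, hR⟩ := hb.closure.subset_ball_lt 1 c
  have τ0 : (0 : ℝ) < τ := hτ
  obtain ⟨t, t0, t1, t2⟩ : ∃ t : ℝ, 0 < t ∧ t ≤ 1 ∧ t * R ≤ τ :=
    ⟨min 1 (τ / R), lt_min one_pos (by positivity), min_le_left _ _,
      (le_div_iff₀ (by linarith)).1 (min_le_right _ _)⟩
  refine ⟨fun x => t • (c - x), LipschitzWith.of_dist_le_mul fun x y => ?_, fun x hx => ⟨?_, ?_⟩⟩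
  · rw [dist_smul₀, dist_sub_left, Real.norm_of_nonneg t0.le]
    exact mul_le_mul_of_nonneg_right (by nlinarith) dist_nonneg
  · rw [norm_smul, Real.norm_of_nonneg t0.le, ← dist_eq_norm']
    exact (mul_le_mul_of_nonneg_left (hR hx).le t0.le).trans t2
  · have e : x + t • (c - x) = c + (1 - t) • (x - c) := by module
    exact e ▸ h x hx _ ⟨by linarith, by linarith⟩

theorem Segm.push (hΩ : IsOpen Ω) (hb : Bornology.IsBounded Ω) (h : Segm Ω) : Push Ω := by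
  have key : ∃ ρ > 0, ∀ τ : ℝ≥0, 0 < τ → ∃ d : (Fin n → ℝ) → Fin n → ℝ, LipschitzWith τ d ∧
      (∀ x, ‖d x‖ ≤ τ) ∧ ∀ x ∈ closure Ω, x + d x ∈ closure Ω ∧
        (x ∈ Ω ∪ thickening ρ (frontier Ω) → x + d x ∈ Ω) := by
    refine (hb.isCompact_closure.of_isClosed_subset isClosed_frontier
      frontier_subset_closure).induction_on (p := fun s => ∃ ρ > 0, ∀ τ : ℝ≥0, 0 < τ →
        ∃ d : (Fin n → ℝ) → Fin n → ℝ, LipschitzWith τ d ∧ (∀ x, ‖d x‖ ≤ τ) ∧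
          ∀ x ∈ closure Ω, x + d x ∈ closure Ω ∧ (x ∈ Ω ∪ thickening ρ s → x + d x ∈ Ω))
      ⟨1, one_pos, fun τ _ => ⟨fun _ => 0, (LipschitzWith.const _).weaken zero_le, by simp,
        fun x hx => by simpa using hx⟩⟩ ?_ ?_ ?_
    · rintro s t e ⟨ρ, h0, h1⟩
      refine ⟨ρ, h0, fun τ hτ => (h1 τ hτ).imp fun d k => ⟨k.1, k.2.1, fun x hx =>
        ⟨(k.2.2 x hx).1, fun j => (k.2.2 x hx).2 (j.imp_right fun j => ?_)⟩⟩⟩
      exact thickening_subset_of_subset ρ e j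
    · rintro s t ⟨ρ, h0, h1⟩ ⟨ρ', k0, k1⟩
      refine ⟨min ρ (ρ' / 2), by positivity, fun τ hτ => ?_⟩
      obtain ⟨d, a1, a2, a3⟩ := h1 (min (min (τ / 3) 1) ⟨ρ' / 2, by positivity⟩)
        (lt_min (by positivity) (half_pos k0))
      obtain ⟨d', b1, b2, b3⟩ := k1 (τ / 3) (by positivity)
      have c1 : LipschitzWith (τ / 3) d := a1.weaken ((min_le_left _ _).trans (min_le_left _ _))
      have c2 : LipschitzWith 1 d := a1.weaken ((min_le_left _ _).trans (min_le_right _ _))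
      have c3 : ∀ x, ‖d x‖ ≤ τ / 3 ∧ ‖d x‖ ≤ ρ' / 2 := fun x =>
        ⟨(a2 x).trans (by exact_mod_cast (min_le_left _ _).trans (min_le_left _ _)),
          (a2 x).trans (NNReal.coe_le_coe.2 (min_le_right _ _))⟩
      refine ⟨fun x => d x + d' (x + d x),
        (c1.add (b1.comp (LipschitzWith.id.add c2))).weaken (le_of_eq (by ring)), fun x => ?_,
        fun x hx => ?_⟩
      · have := b2 (x + d x)
        push_cast at this
        linarith [norm_add_le (d x) (d' (x + d x)), (c3 x).1, τ.coe_nonneg]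
      · rw [← add_assoc, thickening_union]
        refine ⟨(b3 _ (a3 x hx).1).1, fun j => (b3 _ (a3 x hx).1).2 ?_⟩
        rcases j with j | j | j
        · exact Or.inl ((a3 x hx).2 (Or.inl j))
        · exact Or.inl ((a3 x hx).2 (Or.inr (thickening_mono (min_le_left _ _) _ j)))
        · obtain ⟨z, z1, z2⟩ := mem_thickening_iff.1 j
          refine Or.inr (mem_thickening_iff.2 ⟨z, z1, (dist_triangle _ x z).trans_lt ?_⟩)
          rw [dist_self_add_left]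
          linarith [(c3 x).2, min_le_right ρ (ρ' / 2)]
    · intro z hz
      obtain ⟨U, hU, v, hv⟩ := h z hz
      obtain ⟨r, r0, hr⟩ := Metric.mem_nhds_iff.1 hU
      refine ⟨ball z (r / 2), mem_nhdsWithin_of_mem_nhds (ball_mem_nhds z (half_pos r0)),
        r / 2, half_pos r0, fun τ hτ => ?_⟩
      have τ0 : (0 : ℝ) < τ := hτ
      obtain ⟨t, t0, t1, t2, t3⟩ : ∃ t : ℝ, 0 < t ∧ t * r < 1 ∧ t * ‖v‖ ≤ τ ∧ t * r * ‖v‖ ≤ τ := by
        have h1 : 0 < (r + 1) * (‖v‖ + 1) := by positivity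
        have h2 := min_le_left 1 (τ : ℝ)
        have h3 := min_le_right 1 (τ : ℝ)
        have h4 : 0 < min 1 (τ : ℝ) := by positivity
        have h5 := norm_nonneg v
        have h6 := mul_nonneg r0.le h5
        refine ⟨min 1 (τ : ℝ) / ((r + 1) * (‖v‖ + 1)), by positivity, ?_, ?_, ?_⟩
        · rw [div_mul_eq_mul_div, div_lt_one h1]
          nlinarith [mul_le_mul_of_nonneg_right h2 r0.le]
        · rw [div_mul_eq_mul_div, div_le_iff₀ h1]
          nlinarith [mul_nonneg τ0.le h6, mul_le_mul_of_nonneg_right h3 h5, mul_pos τ0 r0]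
        · rw [mul_assoc, div_mul_eq_mul_div, div_le_iff₀ h1]
          nlinarith [mul_nonneg τ0.le h5, mul_le_mul_of_nonneg_right h3 h6, mul_pos τ0 r0]
      have a0 : ∀ x, max (r - dist x z) 0 ≤ r := fun x =>
        max_le (sub_le_self _ dist_nonneg) r0.le
      have a1 : ∀ x ∈ closure Ω, dist x z < r → x + (t * max (r - dist x z) 0) • v ∈ Ω :=
        fun x hx k => hv x ⟨hx, hr k⟩ _ ⟨mul_pos t0 (lt_max_of_lt_left (sub_pos.2 k)),
          (mul_le_mul_of_nonneg_left (a0 x) t0.le).trans_lt t1⟩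
      refine ⟨fun x => (t * max (r - dist x z) 0) • v, LipschitzWith.of_dist_le_mul fun x y => ?_,
        fun x => ?_, fun x hx => ?_⟩
      · have h1 := abs_max_sub_max_le_abs (r - dist x z) (r - dist y z) 0
        have h2 := abs_dist_sub_le y x z
        rw [sub_sub_sub_cancel_left] at h1
        rw [dist_eq_norm, ← sub_smul, ← mul_sub, norm_smul, norm_mul, Real.norm_of_nonneg t0.le,
          Real.norm_eq_abs, mul_right_comm, dist_comm x y]
        exact mul_le_mul t2 (h1.trans h2) (abs_nonneg _) τ0.le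
      · rw [norm_smul, Real.norm_of_nonneg (by positivity)]
        exact (mul_le_mul_of_nonneg_right (mul_le_mul_of_nonneg_left (a0 x) t0.le)
          (norm_nonneg v)).trans t3
      · rcases lt_or_ge (dist x z) r with k | k
        · exact ⟨subset_closure (a1 x hx k), fun _ => a1 x hx k⟩
        · simp only [max_eq_right (sub_nonpos.2 k), mul_zero, zero_smul, add_zero]
          refine ⟨hx, fun j => j.resolve_right fun j => ?_⟩
          obtain ⟨y, y1, y2⟩ := mem_thickening_iff.1 j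
          linarith [dist_triangle x y z, mem_ball.1 y1]
  obtain ⟨ρ, h0, h1⟩ := key
  refine fun τ hτ => (h1 τ hτ).imp fun d k => ⟨k.1, fun x hx => ⟨k.2.1 x, (k.2.2 x hx).2 ?_⟩⟩
  by_cases j : x ∈ Ω
  · exact Or.inl j
  · exact Or.inr (self_subset_thickening h0 _ (hΩ.frontier_eq ▸ ⟨hx, j⟩))

theorem Push.margin (hΩ : IsOpen Ω) (hb : Bornology.IsBounded Ω) (h : Push Ω) {τ : ℝ≥0}
    (hτ : 0 < τ) : ∃ (d : (Fin n → ℝ) → Fin n → ℝ) (δ : ℝ), 0 < δ ∧ LipschitzWith τ d ∧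
      ∀ x ∈ closure Ω, ∀ v, dist v (d x) ≤ δ → ‖v‖ ≤ τ ∧ x + v ∈ Ω := by
  obtain ⟨d, h1, h2⟩ := h (τ / 2) (half_pos hτ)
  obtain ⟨δ, δ0, hδ⟩ := (hb.isCompact_closure.image
    (continuous_id.add h1.continuous)).exists_cthickening_subset_open hΩ
    (by rintro _ ⟨x, hx, rfl⟩; exact (h2 x hx).2)
  refine ⟨d, min δ (τ / 2), lt_min δ0 (half_pos hτ), h1.weaken (half_le_self zero_le),
    fun x hx v hv => ⟨?_, hδ (mem_cthickening_of_dist_le _ _ _ _ ⟨x, hx, rfl⟩ ?_)⟩⟩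
  · have := (h2 x hx).1
    push_cast at this
    linarith [norm_le_norm_add_norm_sub' v (d x), dist_eq_norm v (d x), min_le_right δ (τ / 2)]
  · exact (dist_add_left _ _ _).trans_le (hv.trans (min_le_left _ _))

theorem Push.lh (hΩ : IsOpen Ω) (hb : Bornology.IsBounded Ω) (h : Push Ω) {τ : ℝ≥0}
    (hτ : 0 < τ) (h1 : τ < 1) : ∃ d : (Fin n → ℝ) → Fin n → ℝ, LH (fun x => x + d x) ∧
      LipschitzWith τ d ∧ ∀ x ∈ closure Ω, ‖d x‖ ≤ τ ∧ x + d x ∈ Ω := by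
  obtain ⟨d, δ, δ0, k1, k2⟩ := h.margin hΩ hb hτ
  obtain ⟨T, t1, t2, t3⟩ := finite_cover_balls_of_compact hb.isCompact_closure (half_pos δ0)
  have τ1 : (τ : ℝ) ≤ 1 := h1.le
  have l1 : ∀ x y i, d x i ≤ d y i + τ * ‖x - y‖ := fun x y i => by
    have := (dist_le_pi_dist (d x) (d y) i).trans (k1.dist_le_mul x y)
    rw [Real.dist_eq, dist_eq_norm] at this
    linarith [le_abs_self (d x i - d y i)]
  have l2 : LipschitzWith τ fun x i => cmin t2.toFinset τ fun q => d q i + τ * ‖x - q‖ :=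
    LipschitzWith.of_dist_le_mul fun x y => (dist_pi_le_iff (by positivity)).2 fun i =>
      abs_cmin_sub_le _ _ _ (by simpa using by positivity) fun q _ => by
        rw [add_sub_add_left_eq_sub, ← mul_sub, abs_mul, abs_of_nonneg τ.coe_nonneg,
          ← dist_eq_norm, ← dist_eq_norm]
        exact mul_le_mul_of_nonneg_left (abs_dist_sub_le x y q) τ.coe_nonneg
  refine ⟨_, plsg_lh (TP.pi fun i => TP.cmin _ (TP.const _) fun q _ => (TP.const _).add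
    ((TP.id'.sub (TP.const q)).norm_pi.const_mul _)) h1 l2, l2, fun x hx => k2 x hx _
      ((dist_pi_le_iff δ0.le).2 fun i => abs_le.2 ⟨?_, ?_⟩)⟩
  · have := le_cmin t2.toFinset τ (fun q => d q i + τ * ‖x - q‖) ((Real.le_norm_self _).trans
      ((norm_le_pi_norm (d x) i).trans (k2 x hx _ (by simpa using δ0.le)).1)) fun q _ => l1 x q i
    linarith
  · obtain ⟨q, q1, q2⟩ := mem_iUnion₂.1 (t3 hx)
    have a1 := cmin_le t2.toFinset τ (fun q => d q i + τ * ‖x - q‖) (t2.mem_toFinset.2 q1)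
    have a2 := l1 q x i
    rw [mem_ball, dist_eq_norm] at q2
    rw [norm_sub_rev] at a2
    nlinarith [norm_nonneg (x - q)]

theorem Push.gd (hΩ : IsOpen Ω) (hb : Bornology.IsBounded Ω) (h : Push Ω) {τ : ℝ≥0}
    (hτ : 0 < τ) (h1 : τ < 1) : ∃ d : (Fin n → ℝ) → Fin n → ℝ, GD (fun x => x + d x) ∧
      LipschitzWith τ d ∧ ∀ x ∈ closure Ω, ‖d x‖ ≤ τ ∧ x + d x ∈ Ω := by
  obtain ⟨d, δ, δ0, k1, k2⟩ := h.margin hΩ hb hτ
  let φ : ContDiffBump (0 : Fin n → ℝ) := ⟨δ / 2, δ, half_pos δ0, half_lt_self δ0⟩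
  have l := BMoll_lip φ k1
  have τ1 : (τ : ℝ) < 1 := h1
  refine ⟨_, gd_of_expanding (contDiff_id.add (BMoll_smooth φ k1.continuous))
    ⟨_, LipschitzWith.id.add l⟩ (fun y => ?_) (sub_pos.2 τ1) (plsg_exp l), l, fun x hx =>
      k2 x hx _ (φ.dist_normed_convolution_le k1.continuous.aestronglyMeasurable fun y hy => ?_)⟩
  · have hc : ContractingWith τ (fun x => y - BMoll_cv φ d x) :=
      ⟨h1, LipschitzWith.of_dist_le_mul fun a b =>
        (dist_sub_left y _ _).trans_le (l.dist_le_mul a b)⟩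
    have e : y - BMoll_cv φ d (hc.fixedPoint _) = hc.fixedPoint _ := hc.fixedPoint_isFixedPt
    exact ⟨hc.fixedPoint _, (sub_eq_iff_eq_add.1 e).symm⟩
  · exact (k1.dist_le_mul y x).trans ((mul_le_of_le_one_left dist_nonneg τ1.le).trans (le_of_lt hy))

end BEp
end
end

-- merged part: Pool.Agent.Work.MP_f0515e_an.Pos.UMain
section
/-! EXPORT. The positive theorem on domains with continuous boundary. -/

open Set Metric Filter Topology Function BEv MeasureTheory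
open scoped NNReal ENNReal ContDiff

noncomputable section
namespace BEp

variable {m : ℕ} {p : ℝ≥0∞} {Ω : Set (V m)} {f g : V m → V m} {D : V m → V m →L[ℝ] V m}
  {Kind : Set (V m) → (V m → V m) → Prop}

theorem coreStmt_of (hm : 2 ≤ m) (hp1 : (m : ℝ≥0∞) < p) (hp2 : p < (m : ℝ≥0∞) + 1) :
    1 ≤ p ∧ p ≠ ⊤ ∧ CoreStmt m p.toReal := by
  have h2 : p ≠ ⊤ := hp2.ne_top
  refine ⟨le_trans (by exact_mod_cast (by omega : 1 ≤ m)) hp1.le, h2, core hm ?_ ?_⟩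
  · simpa using (ENNReal.toReal_lt_toReal (ENNReal.natCast_ne_top m) h2).2 hp1
  · have := (ENNReal.toReal_lt_toReal h2 (by simp)).2 hp2
    rwa [ENNReal.toReal_add (by simp) (by simp), ENNReal.toReal_natCast, ENNReal.toReal_one] at this

theorem Chart.coreAt {Kd : (V m → V m) → Prop} {K : Set (V m)} {ψ k : V m → V m} {L : ℝ≥0}
    (hc : Chart Kind Kd K ψ k L) (h1 : 1 ≤ p) (h2 : p ≠ ⊤) (h3 : CoreStmt m p.toReal)
    (h : Wu K f ψ) : CoreAt p (ψ '' K) (f ∘ k) := fun O O' f' D' a1 a2 a3 a4 a5 a6 a7 a8 a9 _ hε =>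
  have e : ∀ y ∈ ψ '' K, k y ∈ K ∧ ψ (k y) = y := by
    rintro _ ⟨x, hx, rfl⟩
    rw [hc.inv x hx]
    exact ⟨hx, rfl⟩
  core_of_stmt h1 h2 h3 a1 a2 a3 a4 ⟨1, Or.inl rfl,
    Wu.congr (g' := id) (h.pull hc.l2.continuous (LeftInvOn.injOn fun y hy => (e y hy).2)
      fun y hy => (e y hy).1) a5 (fun y hy => (one_smul _ _).trans (a6 hy))
      fun y hy => (e y (a5 hy)).2.symm⟩ a7 a8 a9 hε

/-- On each compact subset, the difference map of `f` is that of a map of the given kind. -/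
def WuK (Kind : Set (V m) → (V m → V m) → Prop) (Ω : Set (V m)) (f : V m → V m) : Prop :=
  ∀ K, IsCompact K → K ⊆ Ω → ∃ U w, IsOpen U ∧ K ⊆ U ∧ Kind U w ∧ Wu K f w

theorem main_wu (hm : 2 ≤ m) (hp1 : (m : ℝ≥0∞) < p) (hp2 : p < (m : ℝ≥0∞) + 1) (hΩ : IsOpen Ω)
    (hb : Bornology.IsBounded Ω) (hP : Push Ω) (hf : ContinuousOn f Ω) (hi : InjOn f Ω)
    (hW : MemW1p p Ω f D) : (WuK IsDiffeo Ω f → Approximable IsDiffeo p Ω f D) ∧
      (WuK IsPAHomeo Ω f → Approximable IsPAHomeo p Ω f D) := by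
  obtain ⟨h1, h2, h3⟩ := coreStmt_of hm hp1 hp2
  refine ⟨fun h => main_chart h1 h2 hΩ hb (fun τ => hP.gd hΩ hb) (cc_gd h1 h2) hf hi hW
    fun K a b => ?_, fun h => main_chart h1 h2 hΩ hb (fun τ => hP.lh hΩ hb) (cc_lh h1 h2) hf hi hW
    fun K a b => ?_⟩
  · obtain ⟨U, w, u1, u2, u3, u4⟩ := h K a b
    obtain ⟨ψ, k, L, c1, c2⟩ := chart_diffeo u1 u3 a u2
    exact ⟨ψ, k, L, c2, c2.coreAt h1 h2 h3 (u4.congr Subset.rfl (fun _ _ => rfl) c1.symm)⟩
  · obtain ⟨U, w, u1, u2, u3, u4⟩ := h K a b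
    obtain ⟨ψ, k, L, c1, c2⟩ := chart_pa u3 a u2
    exact ⟨ψ, k, L, c2, c2.coreAt h1 h2 h3 (u4.congr Subset.rfl (fun _ _ => rfl) c1.symm)⟩

theorem Isotopic.wuK (h : Isotopic Ω f g) (k : WuK Kind Ω g) : WuK Kind Ω f := fun K a b => by
  obtain ⟨H, h1, h2, h3⟩ := h
  obtain ⟨U, w, u1, u2, u3, u4⟩ := k K a b
  exact ⟨U, w, u1, u2, u3, ((wu_iso a (h1.mono (prod_mono_right b))
    fun t ht => (h2 t ht).mono b).congr Subset.rfl (fun x hx => (h3 x (b hx)).1.symm)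
    fun x hx => (h3 x (b hx)).2.symm).trans u4⟩

theorem Isotopic.emb (h : Isotopic Ω f g) : ContinuousOn g Ω ∧ InjOn g Ω := by
  obtain ⟨H, h1, h2, h3⟩ := h
  exact ⟨(h1.comp (Continuous.prodMk_right 1).continuousOn
    fun x hx => ⟨⟨zero_le_one, le_rfl⟩, hx⟩).congr fun x hx => (h3 x hx).2.symm,
    (h2 1 ⟨zero_le_one, le_rfl⟩).congr fun x hx => (h3 x hx).2⟩

theorem UnifLim.wuK (h : UnifLim Kind Ω g) (hΩ : IsOpen Ω) (hg : ContinuousOn g Ω ∧ InjOn g Ω)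
    (hK : ∀ U w, Kind U w → ContinuousOn w U ∧ InjOn w U) : WuK Kind Ω g := fun K a b => by
  obtain ⟨δ, δ0, hδ⟩ := a.exists_cthickening_subset_open hΩ b
  obtain ⟨ε, ε0, hε⟩ := wu_near a δ0 (hg.1.mono hδ) (hg.2.mono hδ)
  obtain ⟨U, w, u1, u2, u3, u4⟩ := h _ a.cthickening hδ ε ε0
  exact ⟨U, w, u1, (self_subset_cthickening K).trans u2, u3,
    hε w ((hK U w u3).1.mono u2) ((hK U w u3).2.mono u2) u4⟩

theorem kind_sign {σ : ℝ} (hσ : σ = 1 ∨ σ = -1) :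
    IsDiffeo univ (fun x : V m => σ • x) ∧ IsPAHomeo univ (fun x : V m => σ • x) := by
  have h0 : σ ≠ 0 := by rcases hσ with rfl | rfl <;> norm_num
  refine ⟨⟨by fun_prop, isOpenMap_smul₀ h0 _ isOpen_univ, fun x => σ⁻¹ • x, by fun_prop,
    fun x _ => inv_smul_smul₀ h0 x⟩, lh_isPAHomeo (LH.smul h0) isOpen_univ⟩

theorem CellExt.wuK (hm : 1 ≤ m) (h : CellExt Ω g) : WuK IsDiffeo Ω g ∧ WuK IsPAHomeo Ω g := by
  obtain ⟨W, h1, ⟨e⟩, h2, h3⟩ := h
  refine ⟨fun K a b => ?_, fun K a b => ?_⟩ <;>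
    obtain ⟨σ, s1, s2⟩ := wu_cell hm e h2 h3 a (b.trans h1)
  · exact ⟨_, _, isOpen_univ, subset_univ K, (kind_sign s1).1, s2⟩
  · exact ⟨_, _, isOpen_univ, subset_univ K, (kind_sign s1).2, s2⟩

theorem main_gen (hm : 2 ≤ m) (hp1 : (m : ℝ≥0∞) < p) (hp2 : p < (m : ℝ≥0∞) + 1) (hΩ : IsOpen Ω)
    (hb : Bornology.IsBounded Ω) (hf : IsEmbedding fun x : Ω => f x) (hW : MemW1p p Ω f D)
    (hP : Push Ω) (hg : Isotopic Ω f g) :
    (CellExt Ω g ∨ UnifLim IsDiffeo Ω g → Approximable IsDiffeo p Ω f D) ∧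
      (CellExt Ω g ∨ UnifLim IsPAHomeo Ω g → Approximable IsPAHomeo p Ω f D) := by
  obtain ⟨h1, h2⟩ := main_wu hm hp1 hp2 hΩ hb hP
    (continuousOn_iff_continuous_domRestrict.2 hf.continuous) (injOn_iff_injective.2 hf.injective) hW
  exact ⟨fun h => h1 (hg.wuK (h.elim (fun h => (h.wuK (by omega)).1) fun h => h.wuK hΩ hg.emb
      fun U w ⟨a, _, _, _, b⟩ => ⟨a.continuousOn, b.injOn⟩)),
    fun h => h2 (hg.wuK (h.elim (fun h => (h.wuK (by omega)).2) fun h => h.wuK hΩ hg.emb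
      fun U w k => ⟨continuousOn_iff_continuous_domRestrict.2 k.1.continuous,
        injOn_iff_injective.2 k.1.injective⟩))⟩

end BEp
end
end
end
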